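import Pool.Agent.H.MP_ad013a_pr.h63w.A.T
import Pool.Agent.H.MP_ad013a_pr.h63w.VLoop

namespace Pool.Agent.ad013a.W

theorem c192 : lp7 (fun s => chk (uent L192 s)) 0 = true := by decide +kernel
theorem p192 : PrV chk L192 := leafV c192

theorem c193 : lp7 (fun s => chk (uent L193 s)) 0 = true := by decide +kernel
theorem p193 : PrV chk L193 := leafV c193

theorem c194 : lp7 (fun s => chk (uent L194 s)) 0 = true := by decide +kernel
theorem p194 : PrV chk L194 := leafV c194

theorem c195 : lp7 (fun s => chk (uent L195 s)) 0 = true := by decide +kernel
theorem p195 : PrV chk L195 := leafV c195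

theorem c196 : lp7 (fun s => chk (uent L196 s)) 0 = true := by decide +kernel
theorem p196 : PrV chk L196 := leafV c196

theorem c197 : lp7 (fun s => chk (uent L197 s)) 0 = true := by decide +kernel
theorem p197 : PrV chk L197 := leafV c197

theorem c198 : lp7 (fun s => chk (uent L198 s)) 0 = true := by decide +kernel
theorem p198 : PrV chk L198 := leafV c198

theorem c199 : lp7 (fun s => chk (uent L199 s)) 0 = true := by decide +kernel
theorem p199 : PrV chk L199 := leafV c199

theorem c200 : lp7 (fun s => chk (uent L200 s)) 0 = true := by decide +kernel
theorem p200 : PrV chk L200 := leafV c200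

theorem c201 : lp7 (fun s => chk (uent L201 s)) 0 = true := by decide +kernel
theorem p201 : PrV chk L201 := leafV c201

theorem c202 : lp7 (fun s => chk (uent L202 s)) 0 = true := by decide +kernel
theorem p202 : PrV chk L202 := leafV c202

theorem c203 : lp7 (fun s => chk (uent L203 s)) 0 = true := by decide +kernel
theorem p203 : PrV chk L203 := leafV c203

theorem c204 : lp7 (fun s => chk (uent L204 s)) 0 = true := by decide +kernel
theorem p204 : PrV chk L204 := leafV c204

theorem c205 : lp7 (fun s => chk (uent L205 s)) 0 = true := by decide +kernel
theorem p205 : PrV chk L205 := leafV c205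

theorem c206 : lp7 (fun s => chk (uent L206 s)) 0 = true := by decide +kernel
theorem p206 : PrV chk L206 := leafV c206

theorem c207 : lp7 (fun s => chk (uent L207 s)) 0 = true := by decide +kernel
theorem p207 : PrV chk L207 := leafV c207

theorem c208 : lp7 (fun s => chk (uent L208 s)) 0 = true := by decide +kernel
theorem p208 : PrV chk L208 := leafV c208

theorem c209 : lp7 (fun s => chk (uent L209 s)) 0 = true := by decide +kernel
theorem p209 : PrV chk L209 := leafV c209

theorem c210 : lp7 (fun s => chk (uent L210 s)) 0 = true := by decide +kernel
theorem p210 : PrV chk L210 := leafV c210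

theorem c211 : lp7 (fun s => chk (uent L211 s)) 0 = true := by decide +kernel
theorem p211 : PrV chk L211 := leafV c211

theorem c212 : lp7 (fun s => chk (uent L212 s)) 0 = true := by decide +kernel
theorem p212 : PrV chk L212 := leafV c212

theorem c213 : lp7 (fun s => chk (uent L213 s)) 0 = true := by decide +kernel
theorem p213 : PrV chk L213 := leafV c213

theorem c214 : lp7 (fun s => chk (uent L214 s)) 0 = true := by decide +kernel
theorem p214 : PrV chk L214 := leafV c214

theorem c215 : lp7 (fun s => chk (uent L215 s)) 0 = true := by decide +kernel
theorem p215 : PrV chk L215 := leafV c215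

theorem c216 : lp7 (fun s => chk (uent L216 s)) 0 = true := by decide +kernel
theorem p216 : PrV chk L216 := leafV c216

theorem c217 : lp7 (fun s => chk (uent L217 s)) 0 = true := by decide +kernel
theorem p217 : PrV chk L217 := leafV c217

theorem c218 : lp7 (fun s => chk (uent L218 s)) 0 = true := by decide +kernel
theorem p218 : PrV chk L218 := leafV c218

theorem c219 : lp7 (fun s => chk (uent L219 s)) 0 = true := by decide +kernel
theorem p219 : PrV chk L219 := leafV c219

theorem c220 : lp7 (fun s => chk (uent L220 s)) 0 = true := by decide +kernel
theorem p220 : PrV chk L220 := leafV c220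

theorem c221 : lp7 (fun s => chk (uent L221 s)) 0 = true := by decide +kernel
theorem p221 : PrV chk L221 := leafV c221

theorem c222 : lp7 (fun s => chk (uent L222 s)) 0 = true := by decide +kernel
theorem p222 : PrV chk L222 := leafV c222

theorem c223 : lp7 (fun s => chk (uent L223 s)) 0 = true := by decide +kernel
theorem p223 : PrV chk L223 := leafV c223

theorem c224 : lp7 (fun s => chk (uent L224 s)) 0 = true := by decide +kernel
theorem p224 : PrV chk L224 := leafV c224

theorem c225 : lp7 (fun s => chk (uent L225 s)) 0 = true := by decide +kernel
theorem p225 : PrV chk L225 := leafV c225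

theorem c226 : lp7 (fun s => chk (uent L226 s)) 0 = true := by decide +kernel
theorem p226 : PrV chk L226 := leafV c226

theorem c227 : lp7 (fun s => chk (uent L227 s)) 0 = true := by decide +kernel
theorem p227 : PrV chk L227 := leafV c227

theorem c228 : lp7 (fun s => chk (uent L228 s)) 0 = true := by decide +kernel
theorem p228 : PrV chk L228 := leafV c228

theorem c229 : lp7 (fun s => chk (uent L229 s)) 0 = true := by decide +kernel
theorem p229 : PrV chk L229 := leafV c229

theorem c230 : lp7 (fun s => chk (uent L230 s)) 0 = true := by decide +kernel
theorem p230 : PrV chk L230 := leafV c230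

theorem c231 : lp7 (fun s => chk (uent L231 s)) 0 = true := by decide +kernel
theorem p231 : PrV chk L231 := leafV c231

theorem c232 : lp7 (fun s => chk (uent L232 s)) 0 = true := by decide +kernel
theorem p232 : PrV chk L232 := leafV c232

theorem c233 : lp7 (fun s => chk (uent L233 s)) 0 = true := by decide +kernel
theorem p233 : PrV chk L233 := leafV c233

theorem c234 : lp7 (fun s => chk (uent L234 s)) 0 = true := by decide +kernel
theorem p234 : PrV chk L234 := leafV c234

theorem c235 : lp7 (fun s => chk (uent L235 s)) 0 = true := by decide +kernel
theorem p235 : PrV chk L235 := leafV c235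

theorem c236 : lp7 (fun s => chk (uent L236 s)) 0 = true := by decide +kernel
theorem p236 : PrV chk L236 := leafV c236

theorem c237 : lp7 (fun s => chk (uent L237 s)) 0 = true := by decide +kernel
theorem p237 : PrV chk L237 := leafV c237

theorem c238 : lp7 (fun s => chk (uent L238 s)) 0 = true := by decide +kernel
theorem p238 : PrV chk L238 := leafV c238

theorem c239 : lp7 (fun s => chk (uent L239 s)) 0 = true := by decide +kernel
theorem p239 : PrV chk L239 := leafV c239

theorem c240 : lp7 (fun s => chk (uent L240 s)) 0 = true := by decide +kernel
theorem p240 : PrV chk L240 := leafV c240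

theorem c241 : lp7 (fun s => chk (uent L241 s)) 0 = true := by decide +kernel
theorem p241 : PrV chk L241 := leafV c241

theorem c242 : lp7 (fun s => chk (uent L242 s)) 0 = true := by decide +kernel
theorem p242 : PrV chk L242 := leafV c242

theorem c243 : lp7 (fun s => chk (uent L243 s)) 0 = true := by decide +kernel
theorem p243 : PrV chk L243 := leafV c243

theorem c244 : lp7 (fun s => chk (uent L244 s)) 0 = true := by decide +kernel
theorem p244 : PrV chk L244 := leafV c244

theorem c245 : lp7 (fun s => chk (uent L245 s)) 0 = true := by decide +kernel
theorem p245 : PrV chk L245 := leafV c245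

theorem c246 : lp7 (fun s => chk (uent L246 s)) 0 = true := by decide +kernel
theorem p246 : PrV chk L246 := leafV c246

theorem c247 : lp7 (fun s => chk (uent L247 s)) 0 = true := by decide +kernel
theorem p247 : PrV chk L247 := leafV c247

theorem c248 : lp7 (fun s => chk (uent L248 s)) 0 = true := by decide +kernel
theorem p248 : PrV chk L248 := leafV c248

theorem c249 : lp7 (fun s => chk (uent L249 s)) 0 = true := by decide +kernel
theorem p249 : PrV chk L249 := leafV c249

theorem c250 : lp7 (fun s => chk (uent L250 s)) 0 = true := by decide +kernel
theorem p250 : PrV chk L250 := leafV c250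

theorem c251 : lp7 (fun s => chk (uent L251 s)) 0 = true := by decide +kernel
theorem p251 : PrV chk L251 := leafV c251

theorem c252 : lp7 (fun s => chk (uent L252 s)) 0 = true := by decide +kernel
theorem p252 : PrV chk L252 := leafV c252

theorem c253 : lp7 (fun s => chk (uent L253 s)) 0 = true := by decide +kernel
theorem p253 : PrV chk L253 := leafV c253

theorem c254 : lp7 (fun s => chk (uent L254 s)) 0 = true := by decide +kernel
theorem p254 : PrV chk L254 := leafV c254

theorem c255 : lp7 (fun s => chk (uent L255 s)) 0 = true := by decide +kernel
theorem p255 : PrV chk L255 := leafV c255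

theorem c256 : lp7 (fun s => chk (uent L256 s)) 0 = true := by decide +kernel
theorem p256 : PrV chk L256 := leafV c256

theorem c257 : lp7 (fun s => chk (uent L257 s)) 0 = true := by decide +kernel
theorem p257 : PrV chk L257 := leafV c257

theorem c258 : lp7 (fun s => chk (uent L258 s)) 0 = true := by decide +kernel
theorem p258 : PrV chk L258 := leafV c258

theorem c259 : lp7 (fun s => chk (uent L259 s)) 0 = true := by decide +kernel
theorem p259 : PrV chk L259 := leafV c259

theorem c260 : lp7 (fun s => chk (uent L260 s)) 0 = true := by decide +kernel
theorem p260 : PrV chk L260 := leafV c260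

theorem c261 : lp7 (fun s => chk (uent L261 s)) 0 = true := by decide +kernel
theorem p261 : PrV chk L261 := leafV c261

theorem c262 : lp7 (fun s => chk (uent L262 s)) 0 = true := by decide +kernel
theorem p262 : PrV chk L262 := leafV c262

theorem c263 : lp7 (fun s => chk (uent L263 s)) 0 = true := by decide +kernel
theorem p263 : PrV chk L263 := leafV c263

theorem c264 : lp7 (fun s => chk (uent L264 s)) 0 = true := by decide +kernel
theorem p264 : PrV chk L264 := leafV c264

theorem c265 : lp7 (fun s => chk (uent L265 s)) 0 = true := by decide +kernel
theorem p265 : PrV chk L265 := leafV c265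

theorem c266 : lp7 (fun s => chk (uent L266 s)) 0 = true := by decide +kernel
theorem p266 : PrV chk L266 := leafV c266

theorem c267 : lp7 (fun s => chk (uent L267 s)) 0 = true := by decide +kernel
theorem p267 : PrV chk L267 := leafV c267

theorem c268 : lp7 (fun s => chk (uent L268 s)) 0 = true := by decide +kernel
theorem p268 : PrV chk L268 := leafV c268

theorem c269 : lp7 (fun s => chk (uent L269 s)) 0 = true := by decide +kernel
theorem p269 : PrV chk L269 := leafV c269

theorem c270 : lp7 (fun s => chk (uent L270 s)) 0 = true := by decide +kernel
theorem p270 : PrV chk L270 := leafV c270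

theorem c271 : lp7 (fun s => chk (uent L271 s)) 0 = true := by decide +kernel
theorem p271 : PrV chk L271 := leafV c271

theorem c272 : lp7 (fun s => chk (uent L272 s)) 0 = true := by decide +kernel
theorem p272 : PrV chk L272 := leafV c272

theorem c273 : lp7 (fun s => chk (uent L273 s)) 0 = true := by decide +kernel
theorem p273 : PrV chk L273 := leafV c273

theorem c274 : lp7 (fun s => chk (uent L274 s)) 0 = true := by decide +kernel
theorem p274 : PrV chk L274 := leafV c274

theorem c275 : lp7 (fun s => chk (uent L275 s)) 0 = true := by decide +kernel
theorem p275 : PrV chk L275 := leafV c275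

theorem c276 : lp7 (fun s => chk (uent L276 s)) 0 = true := by decide +kernel
theorem p276 : PrV chk L276 := leafV c276

theorem c277 : lp7 (fun s => chk (uent L277 s)) 0 = true := by decide +kernel
theorem p277 : PrV chk L277 := leafV c277

theorem c278 : lp7 (fun s => chk (uent L278 s)) 0 = true := by decide +kernel
theorem p278 : PrV chk L278 := leafV c278

theorem c279 : lp7 (fun s => chk (uent L279 s)) 0 = true := by decide +kernel
theorem p279 : PrV chk L279 := leafV c279

theorem c280 : lp7 (fun s => chk (uent L280 s)) 0 = true := by decide +kernel
theorem p280 : PrV chk L280 := leafV c280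

theorem c281 : lp7 (fun s => chk (uent L281 s)) 0 = true := by decide +kernel
theorem p281 : PrV chk L281 := leafV c281

theorem c282 : lp7 (fun s => chk (uent L282 s)) 0 = true := by decide +kernel
theorem p282 : PrV chk L282 := leafV c282

theorem c283 : lp7 (fun s => chk (uent L283 s)) 0 = true := by decide +kernel
theorem p283 : PrV chk L283 := leafV c283

theorem c284 : lp7 (fun s => chk (uent L284 s)) 0 = true := by decide +kernel
theorem p284 : PrV chk L284 := leafV c284

theorem c285 : lp7 (fun s => chk (uent L285 s)) 0 = true := by decide +kernel
theorem p285 : PrV chk L285 := leafV c285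

theorem c286 : lp7 (fun s => chk (uent L286 s)) 0 = true := by decide +kernel
theorem p286 : PrV chk L286 := leafV c286

theorem c287 : lp7 (fun s => chk (uent L287 s)) 0 = true := by decide +kernel
theorem p287 : PrV chk L287 := leafV c287

theorem c288 : lp7 (fun s => chk (uent L288 s)) 0 = true := by decide +kernel
theorem p288 : PrV chk L288 := leafV c288

theorem c289 : lp7 (fun s => chk (uent L289 s)) 0 = true := by decide +kernel
theorem p289 : PrV chk L289 := leafV c289

theorem c290 : lp7 (fun s => chk (uent L290 s)) 0 = true := by decide +kernel
theorem p290 : PrV chk L290 := leafV c290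

theorem c291 : lp7 (fun s => chk (uent L291 s)) 0 = true := by decide +kernel
theorem p291 : PrV chk L291 := leafV c291

theorem c292 : lp7 (fun s => chk (uent L292 s)) 0 = true := by decide +kernel
theorem p292 : PrV chk L292 := leafV c292

theorem c293 : lp7 (fun s => chk (uent L293 s)) 0 = true := by decide +kernel
theorem p293 : PrV chk L293 := leafV c293

theorem c294 : lp7 (fun s => chk (uent L294 s)) 0 = true := by decide +kernel
theorem p294 : PrV chk L294 := leafV c294

theorem c295 : lp7 (fun s => chk (uent L295 s)) 0 = true := by decide +kernel
theorem p295 : PrV chk L295 := leafV c295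

theorem c296 : lp7 (fun s => chk (uent L296 s)) 0 = true := by decide +kernel
theorem p296 : PrV chk L296 := leafV c296

theorem c297 : lp7 (fun s => chk (uent L297 s)) 0 = true := by decide +kernel
theorem p297 : PrV chk L297 := leafV c297

theorem c298 : lp7 (fun s => chk (uent L298 s)) 0 = true := by decide +kernel
theorem p298 : PrV chk L298 := leafV c298

theorem c299 : lp7 (fun s => chk (uent L299 s)) 0 = true := by decide +kernel
theorem p299 : PrV chk L299 := leafV c299

theorem c300 : lp7 (fun s => chk (uent L300 s)) 0 = true := by decide +kernel
theorem p300 : PrV chk L300 := leafV c300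

theorem c301 : lp7 (fun s => chk (uent L301 s)) 0 = true := by decide +kernel
theorem p301 : PrV chk L301 := leafV c301

theorem c302 : lp7 (fun s => chk (uent L302 s)) 0 = true := by decide +kernel
theorem p302 : PrV chk L302 := leafV c302

theorem c303 : lp7 (fun s => chk (uent L303 s)) 0 = true := by decide +kernel
theorem p303 : PrV chk L303 := leafV c303

theorem c304 : lp7 (fun s => chk (uent L304 s)) 0 = true := by decide +kernel
theorem p304 : PrV chk L304 := leafV c304

theorem c305 : lp7 (fun s => chk (uent L305 s)) 0 = true := by decide +kernel
theorem p305 : PrV chk L305 := leafV c305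

theorem c306 : lp7 (fun s => chk (uent L306 s)) 0 = true := by decide +kernel
theorem p306 : PrV chk L306 := leafV c306

theorem c307 : lp7 (fun s => chk (uent L307 s)) 0 = true := by decide +kernel
theorem p307 : PrV chk L307 := leafV c307

theorem c308 : lp7 (fun s => chk (uent L308 s)) 0 = true := by decide +kernel
theorem p308 : PrV chk L308 := leafV c308

theorem c309 : lp7 (fun s => chk (uent L309 s)) 0 = true := by decide +kernel
theorem p309 : PrV chk L309 := leafV c309

theorem c310 : lp7 (fun s => chk (uent L310 s)) 0 = true := by decide +kernel
theorem p310 : PrV chk L310 := leafV c310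

theorem c311 : lp7 (fun s => chk (uent L311 s)) 0 = true := by decide +kernel
theorem p311 : PrV chk L311 := leafV c311

theorem c312 : lp7 (fun s => chk (uent L312 s)) 0 = true := by decide +kernel
theorem p312 : PrV chk L312 := leafV c312

theorem c313 : lp7 (fun s => chk (uent L313 s)) 0 = true := by decide +kernel
theorem p313 : PrV chk L313 := leafV c313

theorem c314 : lp7 (fun s => chk (uent L314 s)) 0 = true := by decide +kernel
theorem p314 : PrV chk L314 := leafV c314

theorem c315 : lp7 (fun s => chk (uent L315 s)) 0 = true := by decide +kernel
theorem p315 : PrV chk L315 := leafV c315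

theorem c316 : lp7 (fun s => chk (uent L316 s)) 0 = true := by decide +kernel
theorem p316 : PrV chk L316 := leafV c316

theorem c317 : lp7 (fun s => chk (uent L317 s)) 0 = true := by decide +kernel
theorem p317 : PrV chk L317 := leafV c317

theorem c318 : lp7 (fun s => chk (uent L318 s)) 0 = true := by decide +kernel
theorem p318 : PrV chk L318 := leafV c318

theorem c319 : lp7 (fun s => chk (uent L319 s)) 0 = true := by decide +kernel
theorem p319 : PrV chk L319 := leafV c319

theorem c320 : lp7 (fun s => chk (uent L320 s)) 0 = true := by decide +kernel
theorem p320 : PrV chk L320 := leafV c320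

theorem c321 : lp7 (fun s => chk (uent L321 s)) 0 = true := by decide +kernel
theorem p321 : PrV chk L321 := leafV c321

theorem c322 : lp7 (fun s => chk (uent L322 s)) 0 = true := by decide +kernel
theorem p322 : PrV chk L322 := leafV c322

theorem c323 : lp7 (fun s => chk (uent L323 s)) 0 = true := by decide +kernel
theorem p323 : PrV chk L323 := leafV c323

theorem c324 : lp7 (fun s => chk (uent L324 s)) 0 = true := by decide +kernel
theorem p324 : PrV chk L324 := leafV c324

theorem c325 : lp7 (fun s => chk (uent L325 s)) 0 = true := by decide +kernel
theorem p325 : PrV chk L325 := leafV c325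

theorem c326 : lp7 (fun s => chk (uent L326 s)) 0 = true := by decide +kernel
theorem p326 : PrV chk L326 := leafV c326

theorem c327 : lp7 (fun s => chk (uent L327 s)) 0 = true := by decide +kernel
theorem p327 : PrV chk L327 := leafV c327

theorem c328 : lp7 (fun s => chk (uent L328 s)) 0 = true := by decide +kernel
theorem p328 : PrV chk L328 := leafV c328

theorem c329 : lp7 (fun s => chk (uent L329 s)) 0 = true := by decide +kernel
theorem p329 : PrV chk L329 := leafV c329

theorem c330 : lp7 (fun s => chk (uent L330 s)) 0 = true := by decide +kernel
theorem p330 : PrV chk L330 := leafV c330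

theorem c331 : lp7 (fun s => chk (uent L331 s)) 0 = true := by decide +kernel
theorem p331 : PrV chk L331 := leafV c331

theorem c332 : lp7 (fun s => chk (uent L332 s)) 0 = true := by decide +kernel
theorem p332 : PrV chk L332 := leafV c332

theorem c333 : lp7 (fun s => chk (uent L333 s)) 0 = true := by decide +kernel
theorem p333 : PrV chk L333 := leafV c333

theorem c334 : lp7 (fun s => chk (uent L334 s)) 0 = true := by decide +kernel
theorem p334 : PrV chk L334 := leafV c334

theorem c335 : lp7 (fun s => chk (uent L335 s)) 0 = true := by decide +kernel
theorem p335 : PrV chk L335 := leafV c335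

theorem c336 : lp7 (fun s => chk (uent L336 s)) 0 = true := by decide +kernel
theorem p336 : PrV chk L336 := leafV c336

theorem c337 : lp7 (fun s => chk (uent L337 s)) 0 = true := by decide +kernel
theorem p337 : PrV chk L337 := leafV c337

theorem c338 : lp7 (fun s => chk (uent L338 s)) 0 = true := by decide +kernel
theorem p338 : PrV chk L338 := leafV c338

theorem c339 : lp7 (fun s => chk (uent L339 s)) 0 = true := by decide +kernel
theorem p339 : PrV chk L339 := leafV c339

theorem c340 : lp7 (fun s => chk (uent L340 s)) 0 = true := by decide +kernel
theorem p340 : PrV chk L340 := leafV c340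

theorem c341 : lp7 (fun s => chk (uent L341 s)) 0 = true := by decide +kernel
theorem p341 : PrV chk L341 := leafV c341

theorem c342 : lp7 (fun s => chk (uent L342 s)) 0 = true := by decide +kernel
theorem p342 : PrV chk L342 := leafV c342

theorem c343 : lp7 (fun s => chk (uent L343 s)) 0 = true := by decide +kernel
theorem p343 : PrV chk L343 := leafV c343

theorem c344 : lp7 (fun s => chk (uent L344 s)) 0 = true := by decide +kernel
theorem p344 : PrV chk L344 := leafV c344

theorem c345 : lp7 (fun s => chk (uent L345 s)) 0 = true := by decide +kernel
theorem p345 : PrV chk L345 := leafV c345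

theorem c346 : lp7 (fun s => chk (uent L346 s)) 0 = true := by decide +kernel
theorem p346 : PrV chk L346 := leafV c346

theorem c347 : lp7 (fun s => chk (uent L347 s)) 0 = true := by decide +kernel
theorem p347 : PrV chk L347 := leafV c347

theorem c348 : lp7 (fun s => chk (uent L348 s)) 0 = true := by decide +kernel
theorem p348 : PrV chk L348 := leafV c348

theorem c349 : lp7 (fun s => chk (uent L349 s)) 0 = true := by decide +kernel
theorem p349 : PrV chk L349 := leafV c349

theorem c350 : lp7 (fun s => chk (uent L350 s)) 0 = true := by decide +kernel
theorem p350 : PrV chk L350 := leafV c350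

theorem c351 : lp7 (fun s => chk (uent L351 s)) 0 = true := by decide +kernel
theorem p351 : PrV chk L351 := leafV c351

theorem c352 : lp7 (fun s => chk (uent L352 s)) 0 = true := by decide +kernel
theorem p352 : PrV chk L352 := leafV c352

theorem c353 : lp7 (fun s => chk (uent L353 s)) 0 = true := by decide +kernel
theorem p353 : PrV chk L353 := leafV c353

theorem c354 : lp7 (fun s => chk (uent L354 s)) 0 = true := by decide +kernel
theorem p354 : PrV chk L354 := leafV c354

theorem c355 : lp7 (fun s => chk (uent L355 s)) 0 = true := by decide +kernel
theorem p355 : PrV chk L355 := leafV c355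

theorem c356 : lp7 (fun s => chk (uent L356 s)) 0 = true := by decide +kernel
theorem p356 : PrV chk L356 := leafV c356

theorem c357 : lp7 (fun s => chk (uent L357 s)) 0 = true := by decide +kernel
theorem p357 : PrV chk L357 := leafV c357

theorem c358 : lp7 (fun s => chk (uent L358 s)) 0 = true := by decide +kernel
theorem p358 : PrV chk L358 := leafV c358

theorem c359 : lp7 (fun s => chk (uent L359 s)) 0 = true := by decide +kernel
theorem p359 : PrV chk L359 := leafV c359

theorem c360 : lp7 (fun s => chk (uent L360 s)) 0 = true := by decide +kernel
theorem p360 : PrV chk L360 := leafV c360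

theorem c361 : lp7 (fun s => chk (uent L361 s)) 0 = true := by decide +kernel
theorem p361 : PrV chk L361 := leafV c361

theorem c362 : lp7 (fun s => chk (uent L362 s)) 0 = true := by decide +kernel
theorem p362 : PrV chk L362 := leafV c362

theorem c363 : lp7 (fun s => chk (uent L363 s)) 0 = true := by decide +kernel
theorem p363 : PrV chk L363 := leafV c363

theorem c364 : lp7 (fun s => chk (uent L364 s)) 0 = true := by decide +kernel
theorem p364 : PrV chk L364 := leafV c364

theorem c365 : lp7 (fun s => chk (uent L365 s)) 0 = true := by decide +kernel
theorem p365 : PrV chk L365 := leafV c365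

theorem c366 : lp7 (fun s => chk (uent L366 s)) 0 = true := by decide +kernel
theorem p366 : PrV chk L366 := leafV c366

theorem c367 : lp7 (fun s => chk (uent L367 s)) 0 = true := by decide +kernel
theorem p367 : PrV chk L367 := leafV c367

theorem c368 : lp7 (fun s => chk (uent L368 s)) 0 = true := by decide +kernel
theorem p368 : PrV chk L368 := leafV c368

theorem c369 : lp7 (fun s => chk (uent L369 s)) 0 = true := by decide +kernel
theorem p369 : PrV chk L369 := leafV c369

theorem c370 : lp7 (fun s => chk (uent L370 s)) 0 = true := by decide +kernel
theorem p370 : PrV chk L370 := leafV c370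

theorem c371 : lp7 (fun s => chk (uent L371 s)) 0 = true := by decide +kernel
theorem p371 : PrV chk L371 := leafV c371

theorem c372 : lp7 (fun s => chk (uent L372 s)) 0 = true := by decide +kernel
theorem p372 : PrV chk L372 := leafV c372

theorem c373 : lp7 (fun s => chk (uent L373 s)) 0 = true := by decide +kernel
theorem p373 : PrV chk L373 := leafV c373

theorem c374 : lp7 (fun s => chk (uent L374 s)) 0 = true := by decide +kernel
theorem p374 : PrV chk L374 := leafV c374

theorem c375 : lp7 (fun s => chk (uent L375 s)) 0 = true := by decide +kernel
theorem p375 : PrV chk L375 := leafV c375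

theorem c376 : lp7 (fun s => chk (uent L376 s)) 0 = true := by decide +kernel
theorem p376 : PrV chk L376 := leafV c376

theorem c377 : lp7 (fun s => chk (uent L377 s)) 0 = true := by decide +kernel
theorem p377 : PrV chk L377 := leafV c377

theorem c378 : lp7 (fun s => chk (uent L378 s)) 0 = true := by decide +kernel
theorem p378 : PrV chk L378 := leafV c378

theorem c379 : lp7 (fun s => chk (uent L379 s)) 0 = true := by decide +kernel
theorem p379 : PrV chk L379 := leafV c379

theorem c380 : lp7 (fun s => chk (uent L380 s)) 0 = true := by decide +kernel
theorem p380 : PrV chk L380 := leafV c380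

theorem c381 : lp7 (fun s => chk (uent L381 s)) 0 = true := by decide +kernel
theorem p381 : PrV chk L381 := leafV c381

theorem c382 : lp7 (fun s => chk (uent L382 s)) 0 = true := by decide +kernel
theorem p382 : PrV chk L382 := leafV c382

theorem c383 : lp7 (fun s => chk (uent L383 s)) 0 = true := by decide +kernel
theorem p383 : PrV chk L383 := leafV c383

end Pool.Agent.ad013a.W
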