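import Pool.Agent.H.MP_ad013a_pr.h63w.A.T
import Pool.Agent.H.MP_ad013a_pr.h63w.VLoop

namespace Pool.Agent.ad013a.W

theorem c1920 : lp7 (fun s => chk (uent L1920 s)) 0 = true := by decide +kernel
theorem p1920 : PrV chk L1920 := leafV c1920

theorem c1921 : lp7 (fun s => chk (uent L1921 s)) 0 = true := by decide +kernel
theorem p1921 : PrV chk L1921 := leafV c1921

theorem c1922 : lp7 (fun s => chk (uent L1922 s)) 0 = true := by decide +kernel
theorem p1922 : PrV chk L1922 := leafV c1922

theorem c1923 : lp7 (fun s => chk (uent L1923 s)) 0 = true := by decide +kernel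
theorem p1923 : PrV chk L1923 := leafV c1923

theorem c1924 : lp7 (fun s => chk (uent L1924 s)) 0 = true := by decide +kernel
theorem p1924 : PrV chk L1924 := leafV c1924

theorem c1925 : lp7 (fun s => chk (uent L1925 s)) 0 = true := by decide +kernel
theorem p1925 : PrV chk L1925 := leafV c1925

theorem c1926 : lp7 (fun s => chk (uent L1926 s)) 0 = true := by decide +kernel
theorem p1926 : PrV chk L1926 := leafV c1926

theorem c1927 : lp7 (fun s => chk (uent L1927 s)) 0 = true := by decide +kernel
theorem p1927 : PrV chk L1927 := leafV c1927

theorem c1928 : lp7 (fun s => chk (uent L1928 s)) 0 = true := by decide +kernel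
theorem p1928 : PrV chk L1928 := leafV c1928

theorem c1929 : lp7 (fun s => chk (uent L1929 s)) 0 = true := by decide +kernel
theorem p1929 : PrV chk L1929 := leafV c1929

theorem c1930 : lp7 (fun s => chk (uent L1930 s)) 0 = true := by decide +kernel
theorem p1930 : PrV chk L1930 := leafV c1930

theorem c1931 : lp7 (fun s => chk (uent L1931 s)) 0 = true := by decide +kernel
theorem p1931 : PrV chk L1931 := leafV c1931

theorem c1932 : lp7 (fun s => chk (uent L1932 s)) 0 = true := by decide +kernel
theorem p1932 : PrV chk L1932 := leafV c1932

theorem c1933 : lp7 (fun s => chk (uent L1933 s)) 0 = true := by decide +kernel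
theorem p1933 : PrV chk L1933 := leafV c1933

theorem c1934 : lp7 (fun s => chk (uent L1934 s)) 0 = true := by decide +kernel
theorem p1934 : PrV chk L1934 := leafV c1934

theorem c1935 : lp7 (fun s => chk (uent L1935 s)) 0 = true := by decide +kernel
theorem p1935 : PrV chk L1935 := leafV c1935

theorem c1936 : lp7 (fun s => chk (uent L1936 s)) 0 = true := by decide +kernel
theorem p1936 : PrV chk L1936 := leafV c1936

theorem c1937 : lp7 (fun s => chk (uent L1937 s)) 0 = true := by decide +kernel
theorem p1937 : PrV chk L1937 := leafV c1937

theorem c1938 : lp7 (fun s => chk (uent L1938 s)) 0 = true := by decide +kernel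
theorem p1938 : PrV chk L1938 := leafV c1938

theorem c1939 : lp7 (fun s => chk (uent L1939 s)) 0 = true := by decide +kernel
theorem p1939 : PrV chk L1939 := leafV c1939

theorem c1940 : lp7 (fun s => chk (uent L1940 s)) 0 = true := by decide +kernel
theorem p1940 : PrV chk L1940 := leafV c1940

theorem c1941 : lp7 (fun s => chk (uent L1941 s)) 0 = true := by decide +kernel
theorem p1941 : PrV chk L1941 := leafV c1941

theorem c1942 : lp7 (fun s => chk (uent L1942 s)) 0 = true := by decide +kernel
theorem p1942 : PrV chk L1942 := leafV c1942

theorem c1943 : lp7 (fun s => chk (uent L1943 s)) 0 = true := by decide +kernel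
theorem p1943 : PrV chk L1943 := leafV c1943

theorem c1944 : lp7 (fun s => chk (uent L1944 s)) 0 = true := by decide +kernel
theorem p1944 : PrV chk L1944 := leafV c1944

theorem c1945 : lp7 (fun s => chk (uent L1945 s)) 0 = true := by decide +kernel
theorem p1945 : PrV chk L1945 := leafV c1945

theorem c1946 : lp7 (fun s => chk (uent L1946 s)) 0 = true := by decide +kernel
theorem p1946 : PrV chk L1946 := leafV c1946

theorem c1947 : lp7 (fun s => chk (uent L1947 s)) 0 = true := by decide +kernel
theorem p1947 : PrV chk L1947 := leafV c1947

theorem c1948 : lp7 (fun s => chk (uent L1948 s)) 0 = true := by decide +kernel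
theorem p1948 : PrV chk L1948 := leafV c1948

theorem c1949 : lp7 (fun s => chk (uent L1949 s)) 0 = true := by decide +kernel
theorem p1949 : PrV chk L1949 := leafV c1949

theorem c1950 : lp7 (fun s => chk (uent L1950 s)) 0 = true := by decide +kernel
theorem p1950 : PrV chk L1950 := leafV c1950

theorem c1951 : lp7 (fun s => chk (uent L1951 s)) 0 = true := by decide +kernel
theorem p1951 : PrV chk L1951 := leafV c1951

theorem c1952 : lp7 (fun s => chk (uent L1952 s)) 0 = true := by decide +kernel
theorem p1952 : PrV chk L1952 := leafV c1952

theorem c1953 : lp7 (fun s => chk (uent L1953 s)) 0 = true := by decide +kernel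
theorem p1953 : PrV chk L1953 := leafV c1953

theorem c1954 : lp7 (fun s => chk (uent L1954 s)) 0 = true := by decide +kernel
theorem p1954 : PrV chk L1954 := leafV c1954

theorem c1955 : lp7 (fun s => chk (uent L1955 s)) 0 = true := by decide +kernel
theorem p1955 : PrV chk L1955 := leafV c1955

theorem c1956 : lp7 (fun s => chk (uent L1956 s)) 0 = true := by decide +kernel
theorem p1956 : PrV chk L1956 := leafV c1956

theorem c1957 : lp7 (fun s => chk (uent L1957 s)) 0 = true := by decide +kernel
theorem p1957 : PrV chk L1957 := leafV c1957

theorem c1958 : lp7 (fun s => chk (uent L1958 s)) 0 = true := by decide +kernel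
theorem p1958 : PrV chk L1958 := leafV c1958

theorem c1959 : lp7 (fun s => chk (uent L1959 s)) 0 = true := by decide +kernel
theorem p1959 : PrV chk L1959 := leafV c1959

theorem c1960 : lp7 (fun s => chk (uent L1960 s)) 0 = true := by decide +kernel
theorem p1960 : PrV chk L1960 := leafV c1960

theorem c1961 : lp7 (fun s => chk (uent L1961 s)) 0 = true := by decide +kernel
theorem p1961 : PrV chk L1961 := leafV c1961

theorem c1962 : lp7 (fun s => chk (uent L1962 s)) 0 = true := by decide +kernel
theorem p1962 : PrV chk L1962 := leafV c1962

theorem c1963 : lp7 (fun s => chk (uent L1963 s)) 0 = true := by decide +kernel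
theorem p1963 : PrV chk L1963 := leafV c1963

theorem c1964 : lp7 (fun s => chk (uent L1964 s)) 0 = true := by decide +kernel
theorem p1964 : PrV chk L1964 := leafV c1964

theorem c1965 : lp7 (fun s => chk (uent L1965 s)) 0 = true := by decide +kernel
theorem p1965 : PrV chk L1965 := leafV c1965

theorem c1966 : lp7 (fun s => chk (uent L1966 s)) 0 = true := by decide +kernel
theorem p1966 : PrV chk L1966 := leafV c1966

theorem c1967 : lp7 (fun s => chk (uent L1967 s)) 0 = true := by decide +kernel
theorem p1967 : PrV chk L1967 := leafV c1967

theorem c1968 : lp7 (fun s => chk (uent L1968 s)) 0 = true := by decide +kernel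
theorem p1968 : PrV chk L1968 := leafV c1968

theorem c1969 : lp7 (fun s => chk (uent L1969 s)) 0 = true := by decide +kernel
theorem p1969 : PrV chk L1969 := leafV c1969

theorem c1970 : lp7 (fun s => chk (uent L1970 s)) 0 = true := by decide +kernel
theorem p1970 : PrV chk L1970 := leafV c1970

theorem c1971 : lp7 (fun s => chk (uent L1971 s)) 0 = true := by decide +kernel
theorem p1971 : PrV chk L1971 := leafV c1971

theorem c1972 : lp7 (fun s => chk (uent L1972 s)) 0 = true := by decide +kernel
theorem p1972 : PrV chk L1972 := leafV c1972

theorem c1973 : lp7 (fun s => chk (uent L1973 s)) 0 = true := by decide +kernel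
theorem p1973 : PrV chk L1973 := leafV c1973

theorem c1974 : lp7 (fun s => chk (uent L1974 s)) 0 = true := by decide +kernel
theorem p1974 : PrV chk L1974 := leafV c1974

theorem c1975 : lp7 (fun s => chk (uent L1975 s)) 0 = true := by decide +kernel
theorem p1975 : PrV chk L1975 := leafV c1975

theorem c1976 : lp7 (fun s => chk (uent L1976 s)) 0 = true := by decide +kernel
theorem p1976 : PrV chk L1976 := leafV c1976

theorem c1977 : lp7 (fun s => chk (uent L1977 s)) 0 = true := by decide +kernel
theorem p1977 : PrV chk L1977 := leafV c1977

theorem c1978 : lp7 (fun s => chk (uent L1978 s)) 0 = true := by decide +kernel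
theorem p1978 : PrV chk L1978 := leafV c1978

theorem c1979 : lp7 (fun s => chk (uent L1979 s)) 0 = true := by decide +kernel
theorem p1979 : PrV chk L1979 := leafV c1979

theorem c1980 : lp7 (fun s => chk (uent L1980 s)) 0 = true := by decide +kernel
theorem p1980 : PrV chk L1980 := leafV c1980

theorem c1981 : lp7 (fun s => chk (uent L1981 s)) 0 = true := by decide +kernel
theorem p1981 : PrV chk L1981 := leafV c1981

theorem c1982 : lp7 (fun s => chk (uent L1982 s)) 0 = true := by decide +kernel
theorem p1982 : PrV chk L1982 := leafV c1982

theorem c1983 : lp7 (fun s => chk (uent L1983 s)) 0 = true := by decide +kernel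
theorem p1983 : PrV chk L1983 := leafV c1983

theorem c1984 : lp7 (fun s => chk (uent L1984 s)) 0 = true := by decide +kernel
theorem p1984 : PrV chk L1984 := leafV c1984

theorem c1985 : lp7 (fun s => chk (uent L1985 s)) 0 = true := by decide +kernel
theorem p1985 : PrV chk L1985 := leafV c1985

theorem c1986 : lp7 (fun s => chk (uent L1986 s)) 0 = true := by decide +kernel
theorem p1986 : PrV chk L1986 := leafV c1986

theorem c1987 : lp7 (fun s => chk (uent L1987 s)) 0 = true := by decide +kernel
theorem p1987 : PrV chk L1987 := leafV c1987

theorem c1988 : lp7 (fun s => chk (uent L1988 s)) 0 = true := by decide +kernel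
theorem p1988 : PrV chk L1988 := leafV c1988

theorem c1989 : lp7 (fun s => chk (uent L1989 s)) 0 = true := by decide +kernel
theorem p1989 : PrV chk L1989 := leafV c1989

theorem c1990 : lp7 (fun s => chk (uent L1990 s)) 0 = true := by decide +kernel
theorem p1990 : PrV chk L1990 := leafV c1990

theorem c1991 : lp7 (fun s => chk (uent L1991 s)) 0 = true := by decide +kernel
theorem p1991 : PrV chk L1991 := leafV c1991

theorem c1992 : lp7 (fun s => chk (uent L1992 s)) 0 = true := by decide +kernel
theorem p1992 : PrV chk L1992 := leafV c1992

theorem c1993 : lp7 (fun s => chk (uent L1993 s)) 0 = true := by decide +kernel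
theorem p1993 : PrV chk L1993 := leafV c1993

theorem c1994 : lp7 (fun s => chk (uent L1994 s)) 0 = true := by decide +kernel
theorem p1994 : PrV chk L1994 := leafV c1994

theorem c1995 : lp7 (fun s => chk (uent L1995 s)) 0 = true := by decide +kernel
theorem p1995 : PrV chk L1995 := leafV c1995

theorem c1996 : lp7 (fun s => chk (uent L1996 s)) 0 = true := by decide +kernel
theorem p1996 : PrV chk L1996 := leafV c1996

theorem c1997 : lp7 (fun s => chk (uent L1997 s)) 0 = true := by decide +kernel
theorem p1997 : PrV chk L1997 := leafV c1997

theorem c1998 : lp7 (fun s => chk (uent L1998 s)) 0 = true := by decide +kernel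
theorem p1998 : PrV chk L1998 := leafV c1998

theorem c1999 : lp7 (fun s => chk (uent L1999 s)) 0 = true := by decide +kernel
theorem p1999 : PrV chk L1999 := leafV c1999

theorem c2000 : lp7 (fun s => chk (uent L2000 s)) 0 = true := by decide +kernel
theorem p2000 : PrV chk L2000 := leafV c2000

theorem c2001 : lp7 (fun s => chk (uent L2001 s)) 0 = true := by decide +kernel
theorem p2001 : PrV chk L2001 := leafV c2001

theorem c2002 : lp7 (fun s => chk (uent L2002 s)) 0 = true := by decide +kernel
theorem p2002 : PrV chk L2002 := leafV c2002

theorem c2003 : lp7 (fun s => chk (uent L2003 s)) 0 = true := by decide +kernel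
theorem p2003 : PrV chk L2003 := leafV c2003

theorem c2004 : lp7 (fun s => chk (uent L2004 s)) 0 = true := by decide +kernel
theorem p2004 : PrV chk L2004 := leafV c2004

theorem c2005 : lp7 (fun s => chk (uent L2005 s)) 0 = true := by decide +kernel
theorem p2005 : PrV chk L2005 := leafV c2005

theorem c2006 : lp7 (fun s => chk (uent L2006 s)) 0 = true := by decide +kernel
theorem p2006 : PrV chk L2006 := leafV c2006

theorem c2007 : lp7 (fun s => chk (uent L2007 s)) 0 = true := by decide +kernel
theorem p2007 : PrV chk L2007 := leafV c2007

theorem c2008 : lp7 (fun s => chk (uent L2008 s)) 0 = true := by decide +kernel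
theorem p2008 : PrV chk L2008 := leafV c2008

theorem c2009 : lp7 (fun s => chk (uent L2009 s)) 0 = true := by decide +kernel
theorem p2009 : PrV chk L2009 := leafV c2009

theorem c2010 : lp7 (fun s => chk (uent L2010 s)) 0 = true := by decide +kernel
theorem p2010 : PrV chk L2010 := leafV c2010

theorem c2011 : lp7 (fun s => chk (uent L2011 s)) 0 = true := by decide +kernel
theorem p2011 : PrV chk L2011 := leafV c2011

theorem c2012 : lp7 (fun s => chk (uent L2012 s)) 0 = true := by decide +kernel
theorem p2012 : PrV chk L2012 := leafV c2012

theorem c2013 : lp7 (fun s => chk (uent L2013 s)) 0 = true := by decide +kernel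
theorem p2013 : PrV chk L2013 := leafV c2013

theorem c2014 : lp7 (fun s => chk (uent L2014 s)) 0 = true := by decide +kernel
theorem p2014 : PrV chk L2014 := leafV c2014

theorem c2015 : lp7 (fun s => chk (uent L2015 s)) 0 = true := by decide +kernel
theorem p2015 : PrV chk L2015 := leafV c2015

theorem c2016 : lp7 (fun s => chk (uent L2016 s)) 0 = true := by decide +kernel
theorem p2016 : PrV chk L2016 := leafV c2016

theorem c2017 : lp7 (fun s => chk (uent L2017 s)) 0 = true := by decide +kernel
theorem p2017 : PrV chk L2017 := leafV c2017

theorem c2018 : lp7 (fun s => chk (uent L2018 s)) 0 = true := by decide +kernel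
theorem p2018 : PrV chk L2018 := leafV c2018

theorem c2019 : lp7 (fun s => chk (uent L2019 s)) 0 = true := by decide +kernel
theorem p2019 : PrV chk L2019 := leafV c2019

theorem c2020 : lp7 (fun s => chk (uent L2020 s)) 0 = true := by decide +kernel
theorem p2020 : PrV chk L2020 := leafV c2020

theorem c2021 : lp7 (fun s => chk (uent L2021 s)) 0 = true := by decide +kernel
theorem p2021 : PrV chk L2021 := leafV c2021

theorem c2022 : lp7 (fun s => chk (uent L2022 s)) 0 = true := by decide +kernel
theorem p2022 : PrV chk L2022 := leafV c2022

theorem c2023 : lp7 (fun s => chk (uent L2023 s)) 0 = true := by decide +kernel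
theorem p2023 : PrV chk L2023 := leafV c2023

theorem c2024 : lp7 (fun s => chk (uent L2024 s)) 0 = true := by decide +kernel
theorem p2024 : PrV chk L2024 := leafV c2024

theorem c2025 : lp7 (fun s => chk (uent L2025 s)) 0 = true := by decide +kernel
theorem p2025 : PrV chk L2025 := leafV c2025

theorem c2026 : lp7 (fun s => chk (uent L2026 s)) 0 = true := by decide +kernel
theorem p2026 : PrV chk L2026 := leafV c2026

theorem c2027 : lp7 (fun s => chk (uent L2027 s)) 0 = true := by decide +kernel
theorem p2027 : PrV chk L2027 := leafV c2027

theorem c2028 : lp7 (fun s => chk (uent L2028 s)) 0 = true := by decide +kernel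
theorem p2028 : PrV chk L2028 := leafV c2028

theorem c2029 : lp7 (fun s => chk (uent L2029 s)) 0 = true := by decide +kernel
theorem p2029 : PrV chk L2029 := leafV c2029

theorem c2030 : lp7 (fun s => chk (uent L2030 s)) 0 = true := by decide +kernel
theorem p2030 : PrV chk L2030 := leafV c2030

theorem c2031 : lp7 (fun s => chk (uent L2031 s)) 0 = true := by decide +kernel
theorem p2031 : PrV chk L2031 := leafV c2031

theorem c2032 : lp7 (fun s => chk (uent L2032 s)) 0 = true := by decide +kernel
theorem p2032 : PrV chk L2032 := leafV c2032

theorem c2033 : lp7 (fun s => chk (uent L2033 s)) 0 = true := by decide +kernel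
theorem p2033 : PrV chk L2033 := leafV c2033

theorem c2034 : lp7 (fun s => chk (uent L2034 s)) 0 = true := by decide +kernel
theorem p2034 : PrV chk L2034 := leafV c2034

theorem c2035 : lp7 (fun s => chk (uent L2035 s)) 0 = true := by decide +kernel
theorem p2035 : PrV chk L2035 := leafV c2035

theorem c2036 : lp7 (fun s => chk (uent L2036 s)) 0 = true := by decide +kernel
theorem p2036 : PrV chk L2036 := leafV c2036

theorem c2037 : lp7 (fun s => chk (uent L2037 s)) 0 = true := by decide +kernel
theorem p2037 : PrV chk L2037 := leafV c2037

theorem c2038 : lp7 (fun s => chk (uent L2038 s)) 0 = true := by decide +kernel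
theorem p2038 : PrV chk L2038 := leafV c2038

theorem c2039 : lp7 (fun s => chk (uent L2039 s)) 0 = true := by decide +kernel
theorem p2039 : PrV chk L2039 := leafV c2039

theorem c2040 : lp7 (fun s => chk (uent L2040 s)) 0 = true := by decide +kernel
theorem p2040 : PrV chk L2040 := leafV c2040

theorem c2041 : lp7 (fun s => chk (uent L2041 s)) 0 = true := by decide +kernel
theorem p2041 : PrV chk L2041 := leafV c2041

theorem c2042 : lp7 (fun s => chk (uent L2042 s)) 0 = true := by decide +kernel
theorem p2042 : PrV chk L2042 := leafV c2042

theorem c2043 : lp7 (fun s => chk (uent L2043 s)) 0 = true := by decide +kernel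
theorem p2043 : PrV chk L2043 := leafV c2043

theorem c2044 : lp7 (fun s => chk (uent L2044 s)) 0 = true := by decide +kernel
theorem p2044 : PrV chk L2044 := leafV c2044

theorem c2045 : lp7 (fun s => chk (uent L2045 s)) 0 = true := by decide +kernel
theorem p2045 : PrV chk L2045 := leafV c2045

theorem c2046 : lp7 (fun s => chk (uent L2046 s)) 0 = true := by decide +kernel
theorem p2046 : PrV chk L2046 := leafV c2046

theorem c2047 : lp7 (fun s => chk (uent L2047 s)) 0 = true := by decide +kernel
theorem p2047 : PrV chk L2047 := leafV c2047

theorem c2048 : lp7 (fun s => chk (uent L2048 s)) 0 = true := by decide +kernel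
theorem p2048 : PrV chk L2048 := leafV c2048

theorem c2049 : lp7 (fun s => chk (uent L2049 s)) 0 = true := by decide +kernel
theorem p2049 : PrV chk L2049 := leafV c2049

theorem c2050 : lp7 (fun s => chk (uent L2050 s)) 0 = true := by decide +kernel
theorem p2050 : PrV chk L2050 := leafV c2050

theorem c2051 : lp7 (fun s => chk (uent L2051 s)) 0 = true := by decide +kernel
theorem p2051 : PrV chk L2051 := leafV c2051

theorem c2052 : lp7 (fun s => chk (uent L2052 s)) 0 = true := by decide +kernel
theorem p2052 : PrV chk L2052 := leafV c2052

theorem c2053 : lp7 (fun s => chk (uent L2053 s)) 0 = true := by decide +kernel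
theorem p2053 : PrV chk L2053 := leafV c2053

theorem c2054 : lp7 (fun s => chk (uent L2054 s)) 0 = true := by decide +kernel
theorem p2054 : PrV chk L2054 := leafV c2054

theorem c2055 : lp7 (fun s => chk (uent L2055 s)) 0 = true := by decide +kernel
theorem p2055 : PrV chk L2055 := leafV c2055

theorem c2056 : lp7 (fun s => chk (uent L2056 s)) 0 = true := by decide +kernel
theorem p2056 : PrV chk L2056 := leafV c2056

theorem c2057 : lp7 (fun s => chk (uent L2057 s)) 0 = true := by decide +kernel
theorem p2057 : PrV chk L2057 := leafV c2057

theorem c2058 : lp7 (fun s => chk (uent L2058 s)) 0 = true := by decide +kernel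
theorem p2058 : PrV chk L2058 := leafV c2058

theorem c2059 : lp7 (fun s => chk (uent L2059 s)) 0 = true := by decide +kernel
theorem p2059 : PrV chk L2059 := leafV c2059

theorem c2060 : lp7 (fun s => chk (uent L2060 s)) 0 = true := by decide +kernel
theorem p2060 : PrV chk L2060 := leafV c2060

theorem c2061 : lp7 (fun s => chk (uent L2061 s)) 0 = true := by decide +kernel
theorem p2061 : PrV chk L2061 := leafV c2061

theorem c2062 : lp7 (fun s => chk (uent L2062 s)) 0 = true := by decide +kernel
theorem p2062 : PrV chk L2062 := leafV c2062

theorem c2063 : lp7 (fun s => chk (uent L2063 s)) 0 = true := by decide +kernel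
theorem p2063 : PrV chk L2063 := leafV c2063

theorem c2064 : lp7 (fun s => chk (uent L2064 s)) 0 = true := by decide +kernel
theorem p2064 : PrV chk L2064 := leafV c2064

theorem c2065 : lp7 (fun s => chk (uent L2065 s)) 0 = true := by decide +kernel
theorem p2065 : PrV chk L2065 := leafV c2065

theorem c2066 : lp7 (fun s => chk (uent L2066 s)) 0 = true := by decide +kernel
theorem p2066 : PrV chk L2066 := leafV c2066

theorem c2067 : lp7 (fun s => chk (uent L2067 s)) 0 = true := by decide +kernel
theorem p2067 : PrV chk L2067 := leafV c2067

theorem c2068 : lp7 (fun s => chk (uent L2068 s)) 0 = true := by decide +kernel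
theorem p2068 : PrV chk L2068 := leafV c2068

theorem c2069 : lp7 (fun s => chk (uent L2069 s)) 0 = true := by decide +kernel
theorem p2069 : PrV chk L2069 := leafV c2069

theorem c2070 : lp7 (fun s => chk (uent L2070 s)) 0 = true := by decide +kernel
theorem p2070 : PrV chk L2070 := leafV c2070

theorem c2071 : lp7 (fun s => chk (uent L2071 s)) 0 = true := by decide +kernel
theorem p2071 : PrV chk L2071 := leafV c2071

theorem c2072 : lp7 (fun s => chk (uent L2072 s)) 0 = true := by decide +kernel
theorem p2072 : PrV chk L2072 := leafV c2072

theorem c2073 : lp7 (fun s => chk (uent L2073 s)) 0 = true := by decide +kernel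
theorem p2073 : PrV chk L2073 := leafV c2073

theorem c2074 : lp7 (fun s => chk (uent L2074 s)) 0 = true := by decide +kernel
theorem p2074 : PrV chk L2074 := leafV c2074

theorem c2075 : lp7 (fun s => chk (uent L2075 s)) 0 = true := by decide +kernel
theorem p2075 : PrV chk L2075 := leafV c2075

theorem c2076 : lp7 (fun s => chk (uent L2076 s)) 0 = true := by decide +kernel
theorem p2076 : PrV chk L2076 := leafV c2076

theorem c2077 : lp7 (fun s => chk (uent L2077 s)) 0 = true := by decide +kernel
theorem p2077 : PrV chk L2077 := leafV c2077

theorem c2078 : lp7 (fun s => chk (uent L2078 s)) 0 = true := by decide +kernel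
theorem p2078 : PrV chk L2078 := leafV c2078

theorem c2079 : lp7 (fun s => chk (uent L2079 s)) 0 = true := by decide +kernel
theorem p2079 : PrV chk L2079 := leafV c2079

theorem c2080 : lp7 (fun s => chk (uent L2080 s)) 0 = true := by decide +kernel
theorem p2080 : PrV chk L2080 := leafV c2080

theorem c2081 : lp7 (fun s => chk (uent L2081 s)) 0 = true := by decide +kernel
theorem p2081 : PrV chk L2081 := leafV c2081

theorem c2082 : lp7 (fun s => chk (uent L2082 s)) 0 = true := by decide +kernel
theorem p2082 : PrV chk L2082 := leafV c2082

theorem c2083 : lp7 (fun s => chk (uent L2083 s)) 0 = true := by decide +kernel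
theorem p2083 : PrV chk L2083 := leafV c2083

theorem c2084 : lp7 (fun s => chk (uent L2084 s)) 0 = true := by decide +kernel
theorem p2084 : PrV chk L2084 := leafV c2084

theorem c2085 : lp7 (fun s => chk (uent L2085 s)) 0 = true := by decide +kernel
theorem p2085 : PrV chk L2085 := leafV c2085

theorem c2086 : lp7 (fun s => chk (uent L2086 s)) 0 = true := by decide +kernel
theorem p2086 : PrV chk L2086 := leafV c2086

theorem c2087 : lp7 (fun s => chk (uent L2087 s)) 0 = true := by decide +kernel
theorem p2087 : PrV chk L2087 := leafV c2087

theorem c2088 : lp7 (fun s => chk (uent L2088 s)) 0 = true := by decide +kernel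
theorem p2088 : PrV chk L2088 := leafV c2088

theorem c2089 : lp7 (fun s => chk (uent L2089 s)) 0 = true := by decide +kernel
theorem p2089 : PrV chk L2089 := leafV c2089

theorem c2090 : lp7 (fun s => chk (uent L2090 s)) 0 = true := by decide +kernel
theorem p2090 : PrV chk L2090 := leafV c2090

theorem c2091 : lp7 (fun s => chk (uent L2091 s)) 0 = true := by decide +kernel
theorem p2091 : PrV chk L2091 := leafV c2091

theorem c2092 : lp7 (fun s => chk (uent L2092 s)) 0 = true := by decide +kernel
theorem p2092 : PrV chk L2092 := leafV c2092

theorem c2093 : lp7 (fun s => chk (uent L2093 s)) 0 = true := by decide +kernel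
theorem p2093 : PrV chk L2093 := leafV c2093

theorem c2094 : lp7 (fun s => chk (uent L2094 s)) 0 = true := by decide +kernel
theorem p2094 : PrV chk L2094 := leafV c2094

theorem c2095 : lp7 (fun s => chk (uent L2095 s)) 0 = true := by decide +kernel
theorem p2095 : PrV chk L2095 := leafV c2095

theorem c2096 : lp7 (fun s => chk (uent L2096 s)) 0 = true := by decide +kernel
theorem p2096 : PrV chk L2096 := leafV c2096

theorem c2097 : lp7 (fun s => chk (uent L2097 s)) 0 = true := by decide +kernel
theorem p2097 : PrV chk L2097 := leafV c2097

theorem c2098 : lp7 (fun s => chk (uent L2098 s)) 0 = true := by decide +kernel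
theorem p2098 : PrV chk L2098 := leafV c2098

theorem c2099 : lp7 (fun s => chk (uent L2099 s)) 0 = true := by decide +kernel
theorem p2099 : PrV chk L2099 := leafV c2099

theorem c2100 : lp7 (fun s => chk (uent L2100 s)) 0 = true := by decide +kernel
theorem p2100 : PrV chk L2100 := leafV c2100

theorem c2101 : lp7 (fun s => chk (uent L2101 s)) 0 = true := by decide +kernel
theorem p2101 : PrV chk L2101 := leafV c2101

theorem c2102 : lp7 (fun s => chk (uent L2102 s)) 0 = true := by decide +kernel
theorem p2102 : PrV chk L2102 := leafV c2102

theorem c2103 : lp7 (fun s => chk (uent L2103 s)) 0 = true := by decide +kernel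
theorem p2103 : PrV chk L2103 := leafV c2103

theorem c2104 : lp7 (fun s => chk (uent L2104 s)) 0 = true := by decide +kernel
theorem p2104 : PrV chk L2104 := leafV c2104

theorem c2105 : lp7 (fun s => chk (uent L2105 s)) 0 = true := by decide +kernel
theorem p2105 : PrV chk L2105 := leafV c2105

theorem c2106 : lp7 (fun s => chk (uent L2106 s)) 0 = true := by decide +kernel
theorem p2106 : PrV chk L2106 := leafV c2106

theorem c2107 : lp7 (fun s => chk (uent L2107 s)) 0 = true := by decide +kernel
theorem p2107 : PrV chk L2107 := leafV c2107

theorem c2108 : lp7 (fun s => chk (uent L2108 s)) 0 = true := by decide +kernel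
theorem p2108 : PrV chk L2108 := leafV c2108

theorem c2109 : lp7 (fun s => chk (uent L2109 s)) 0 = true := by decide +kernel
theorem p2109 : PrV chk L2109 := leafV c2109

theorem c2110 : lp7 (fun s => chk (uent L2110 s)) 0 = true := by decide +kernel
theorem p2110 : PrV chk L2110 := leafV c2110

theorem c2111 : lp7 (fun s => chk (uent L2111 s)) 0 = true := by decide +kernel
theorem p2111 : PrV chk L2111 := leafV c2111

end Pool.Agent.ad013a.W
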