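import Pool.Agent.H.MP_ad013a_pr.h63w.A.T
import Pool.Agent.H.MP_ad013a_pr.h63w.VLoop

namespace Pool.Agent.ad013a.W

theorem c2304 : lp7 (fun s => chk (uent L2304 s)) 0 = true := by decide +kernel
theorem p2304 : PrV chk L2304 := leafV c2304

theorem c2305 : lp7 (fun s => chk (uent L2305 s)) 0 = true := by decide +kernel
theorem p2305 : PrV chk L2305 := leafV c2305

theorem c2306 : lp7 (fun s => chk (uent L2306 s)) 0 = true := by decide +kernel
theorem p2306 : PrV chk L2306 := leafV c2306

theorem c2307 : lp7 (fun s => chk (uent L2307 s)) 0 = true := by decide +kernel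
theorem p2307 : PrV chk L2307 := leafV c2307

theorem c2308 : lp7 (fun s => chk (uent L2308 s)) 0 = true := by decide +kernel
theorem p2308 : PrV chk L2308 := leafV c2308

theorem c2309 : lp7 (fun s => chk (uent L2309 s)) 0 = true := by decide +kernel
theorem p2309 : PrV chk L2309 := leafV c2309

theorem c2310 : lp7 (fun s => chk (uent L2310 s)) 0 = true := by decide +kernel
theorem p2310 : PrV chk L2310 := leafV c2310

theorem c2311 : lp7 (fun s => chk (uent L2311 s)) 0 = true := by decide +kernel
theorem p2311 : PrV chk L2311 := leafV c2311

theorem c2312 : lp7 (fun s => chk (uent L2312 s)) 0 = true := by decide +kernel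
theorem p2312 : PrV chk L2312 := leafV c2312

theorem c2313 : lp7 (fun s => chk (uent L2313 s)) 0 = true := by decide +kernel
theorem p2313 : PrV chk L2313 := leafV c2313

theorem c2314 : lp7 (fun s => chk (uent L2314 s)) 0 = true := by decide +kernel
theorem p2314 : PrV chk L2314 := leafV c2314

theorem c2315 : lp7 (fun s => chk (uent L2315 s)) 0 = true := by decide +kernel
theorem p2315 : PrV chk L2315 := leafV c2315

theorem c2316 : lp7 (fun s => chk (uent L2316 s)) 0 = true := by decide +kernel
theorem p2316 : PrV chk L2316 := leafV c2316

theorem c2317 : lp7 (fun s => chk (uent L2317 s)) 0 = true := by decide +kernel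
theorem p2317 : PrV chk L2317 := leafV c2317

theorem c2318 : lp7 (fun s => chk (uent L2318 s)) 0 = true := by decide +kernel
theorem p2318 : PrV chk L2318 := leafV c2318

theorem c2319 : lp7 (fun s => chk (uent L2319 s)) 0 = true := by decide +kernel
theorem p2319 : PrV chk L2319 := leafV c2319

theorem c2320 : lp7 (fun s => chk (uent L2320 s)) 0 = true := by decide +kernel
theorem p2320 : PrV chk L2320 := leafV c2320

theorem c2321 : lp7 (fun s => chk (uent L2321 s)) 0 = true := by decide +kernel
theorem p2321 : PrV chk L2321 := leafV c2321

theorem c2322 : lp7 (fun s => chk (uent L2322 s)) 0 = true := by decide +kernel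
theorem p2322 : PrV chk L2322 := leafV c2322

theorem c2323 : lp7 (fun s => chk (uent L2323 s)) 0 = true := by decide +kernel
theorem p2323 : PrV chk L2323 := leafV c2323

theorem c2324 : lp7 (fun s => chk (uent L2324 s)) 0 = true := by decide +kernel
theorem p2324 : PrV chk L2324 := leafV c2324

theorem c2325 : lp7 (fun s => chk (uent L2325 s)) 0 = true := by decide +kernel
theorem p2325 : PrV chk L2325 := leafV c2325

theorem c2326 : lp7 (fun s => chk (uent L2326 s)) 0 = true := by decide +kernel
theorem p2326 : PrV chk L2326 := leafV c2326

theorem c2327 : lp7 (fun s => chk (uent L2327 s)) 0 = true := by decide +kernel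
theorem p2327 : PrV chk L2327 := leafV c2327

theorem c2328 : lp7 (fun s => chk (uent L2328 s)) 0 = true := by decide +kernel
theorem p2328 : PrV chk L2328 := leafV c2328

theorem c2329 : lp7 (fun s => chk (uent L2329 s)) 0 = true := by decide +kernel
theorem p2329 : PrV chk L2329 := leafV c2329

theorem c2330 : lp7 (fun s => chk (uent L2330 s)) 0 = true := by decide +kernel
theorem p2330 : PrV chk L2330 := leafV c2330

theorem c2331 : lp7 (fun s => chk (uent L2331 s)) 0 = true := by decide +kernel
theorem p2331 : PrV chk L2331 := leafV c2331

theorem c2332 : lp7 (fun s => chk (uent L2332 s)) 0 = true := by decide +kernel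
theorem p2332 : PrV chk L2332 := leafV c2332

theorem c2333 : lp7 (fun s => chk (uent L2333 s)) 0 = true := by decide +kernel
theorem p2333 : PrV chk L2333 := leafV c2333

theorem c2334 : lp7 (fun s => chk (uent L2334 s)) 0 = true := by decide +kernel
theorem p2334 : PrV chk L2334 := leafV c2334

theorem c2335 : lp7 (fun s => chk (uent L2335 s)) 0 = true := by decide +kernel
theorem p2335 : PrV chk L2335 := leafV c2335

theorem c2336 : lp7 (fun s => chk (uent L2336 s)) 0 = true := by decide +kernel
theorem p2336 : PrV chk L2336 := leafV c2336

theorem c2337 : lp7 (fun s => chk (uent L2337 s)) 0 = true := by decide +kernel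
theorem p2337 : PrV chk L2337 := leafV c2337

theorem c2338 : lp7 (fun s => chk (uent L2338 s)) 0 = true := by decide +kernel
theorem p2338 : PrV chk L2338 := leafV c2338

theorem c2339 : lp7 (fun s => chk (uent L2339 s)) 0 = true := by decide +kernel
theorem p2339 : PrV chk L2339 := leafV c2339

theorem c2340 : lp7 (fun s => chk (uent L2340 s)) 0 = true := by decide +kernel
theorem p2340 : PrV chk L2340 := leafV c2340

theorem c2341 : lp7 (fun s => chk (uent L2341 s)) 0 = true := by decide +kernel
theorem p2341 : PrV chk L2341 := leafV c2341

theorem c2342 : lp7 (fun s => chk (uent L2342 s)) 0 = true := by decide +kernel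
theorem p2342 : PrV chk L2342 := leafV c2342

theorem c2343 : lp7 (fun s => chk (uent L2343 s)) 0 = true := by decide +kernel
theorem p2343 : PrV chk L2343 := leafV c2343

theorem c2344 : lp7 (fun s => chk (uent L2344 s)) 0 = true := by decide +kernel
theorem p2344 : PrV chk L2344 := leafV c2344

theorem c2345 : lp7 (fun s => chk (uent L2345 s)) 0 = true := by decide +kernel
theorem p2345 : PrV chk L2345 := leafV c2345

theorem c2346 : lp7 (fun s => chk (uent L2346 s)) 0 = true := by decide +kernel
theorem p2346 : PrV chk L2346 := leafV c2346

theorem c2347 : lp7 (fun s => chk (uent L2347 s)) 0 = true := by decide +kernel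
theorem p2347 : PrV chk L2347 := leafV c2347

theorem c2348 : lp7 (fun s => chk (uent L2348 s)) 0 = true := by decide +kernel
theorem p2348 : PrV chk L2348 := leafV c2348

theorem c2349 : lp7 (fun s => chk (uent L2349 s)) 0 = true := by decide +kernel
theorem p2349 : PrV chk L2349 := leafV c2349

theorem c2350 : lp7 (fun s => chk (uent L2350 s)) 0 = true := by decide +kernel
theorem p2350 : PrV chk L2350 := leafV c2350

theorem c2351 : lp7 (fun s => chk (uent L2351 s)) 0 = true := by decide +kernel
theorem p2351 : PrV chk L2351 := leafV c2351

theorem c2352 : lp7 (fun s => chk (uent L2352 s)) 0 = true := by decide +kernel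
theorem p2352 : PrV chk L2352 := leafV c2352

theorem c2353 : lp7 (fun s => chk (uent L2353 s)) 0 = true := by decide +kernel
theorem p2353 : PrV chk L2353 := leafV c2353

theorem c2354 : lp7 (fun s => chk (uent L2354 s)) 0 = true := by decide +kernel
theorem p2354 : PrV chk L2354 := leafV c2354

theorem c2355 : lp7 (fun s => chk (uent L2355 s)) 0 = true := by decide +kernel
theorem p2355 : PrV chk L2355 := leafV c2355

theorem c2356 : lp7 (fun s => chk (uent L2356 s)) 0 = true := by decide +kernel
theorem p2356 : PrV chk L2356 := leafV c2356

theorem c2357 : lp7 (fun s => chk (uent L2357 s)) 0 = true := by decide +kernel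
theorem p2357 : PrV chk L2357 := leafV c2357

theorem c2358 : lp7 (fun s => chk (uent L2358 s)) 0 = true := by decide +kernel
theorem p2358 : PrV chk L2358 := leafV c2358

theorem c2359 : lp7 (fun s => chk (uent L2359 s)) 0 = true := by decide +kernel
theorem p2359 : PrV chk L2359 := leafV c2359

theorem c2360 : lp7 (fun s => chk (uent L2360 s)) 0 = true := by decide +kernel
theorem p2360 : PrV chk L2360 := leafV c2360

theorem c2361 : lp7 (fun s => chk (uent L2361 s)) 0 = true := by decide +kernel
theorem p2361 : PrV chk L2361 := leafV c2361

theorem c2362 : lp7 (fun s => chk (uent L2362 s)) 0 = true := by decide +kernel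
theorem p2362 : PrV chk L2362 := leafV c2362

theorem c2363 : lp7 (fun s => chk (uent L2363 s)) 0 = true := by decide +kernel
theorem p2363 : PrV chk L2363 := leafV c2363

theorem c2364 : lp7 (fun s => chk (uent L2364 s)) 0 = true := by decide +kernel
theorem p2364 : PrV chk L2364 := leafV c2364

theorem c2365 : lp7 (fun s => chk (uent L2365 s)) 0 = true := by decide +kernel
theorem p2365 : PrV chk L2365 := leafV c2365

theorem c2366 : lp7 (fun s => chk (uent L2366 s)) 0 = true := by decide +kernel
theorem p2366 : PrV chk L2366 := leafV c2366

theorem c2367 : lp7 (fun s => chk (uent L2367 s)) 0 = true := by decide +kernel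
theorem p2367 : PrV chk L2367 := leafV c2367

theorem c2368 : lp7 (fun s => chk (uent L2368 s)) 0 = true := by decide +kernel
theorem p2368 : PrV chk L2368 := leafV c2368

theorem c2369 : lp7 (fun s => chk (uent L2369 s)) 0 = true := by decide +kernel
theorem p2369 : PrV chk L2369 := leafV c2369

theorem c2370 : lp7 (fun s => chk (uent L2370 s)) 0 = true := by decide +kernel
theorem p2370 : PrV chk L2370 := leafV c2370

theorem c2371 : lp7 (fun s => chk (uent L2371 s)) 0 = true := by decide +kernel
theorem p2371 : PrV chk L2371 := leafV c2371

theorem c2372 : lp7 (fun s => chk (uent L2372 s)) 0 = true := by decide +kernel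
theorem p2372 : PrV chk L2372 := leafV c2372

theorem c2373 : lp7 (fun s => chk (uent L2373 s)) 0 = true := by decide +kernel
theorem p2373 : PrV chk L2373 := leafV c2373

theorem c2374 : lp7 (fun s => chk (uent L2374 s)) 0 = true := by decide +kernel
theorem p2374 : PrV chk L2374 := leafV c2374

theorem c2375 : lp7 (fun s => chk (uent L2375 s)) 0 = true := by decide +kernel
theorem p2375 : PrV chk L2375 := leafV c2375

theorem c2376 : lp7 (fun s => chk (uent L2376 s)) 0 = true := by decide +kernel
theorem p2376 : PrV chk L2376 := leafV c2376

theorem c2377 : lp7 (fun s => chk (uent L2377 s)) 0 = true := by decide +kernel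
theorem p2377 : PrV chk L2377 := leafV c2377

theorem c2378 : lp7 (fun s => chk (uent L2378 s)) 0 = true := by decide +kernel
theorem p2378 : PrV chk L2378 := leafV c2378

theorem c2379 : lp7 (fun s => chk (uent L2379 s)) 0 = true := by decide +kernel
theorem p2379 : PrV chk L2379 := leafV c2379

theorem c2380 : lp7 (fun s => chk (uent L2380 s)) 0 = true := by decide +kernel
theorem p2380 : PrV chk L2380 := leafV c2380

theorem c2381 : lp7 (fun s => chk (uent L2381 s)) 0 = true := by decide +kernel
theorem p2381 : PrV chk L2381 := leafV c2381

theorem c2382 : lp7 (fun s => chk (uent L2382 s)) 0 = true := by decide +kernel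
theorem p2382 : PrV chk L2382 := leafV c2382

theorem c2383 : lp7 (fun s => chk (uent L2383 s)) 0 = true := by decide +kernel
theorem p2383 : PrV chk L2383 := leafV c2383

theorem c2384 : lp7 (fun s => chk (uent L2384 s)) 0 = true := by decide +kernel
theorem p2384 : PrV chk L2384 := leafV c2384

theorem c2385 : lp7 (fun s => chk (uent L2385 s)) 0 = true := by decide +kernel
theorem p2385 : PrV chk L2385 := leafV c2385

theorem c2386 : lp7 (fun s => chk (uent L2386 s)) 0 = true := by decide +kernel
theorem p2386 : PrV chk L2386 := leafV c2386

theorem c2387 : lp7 (fun s => chk (uent L2387 s)) 0 = true := by decide +kernel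
theorem p2387 : PrV chk L2387 := leafV c2387

theorem c2388 : lp7 (fun s => chk (uent L2388 s)) 0 = true := by decide +kernel
theorem p2388 : PrV chk L2388 := leafV c2388

theorem c2389 : lp7 (fun s => chk (uent L2389 s)) 0 = true := by decide +kernel
theorem p2389 : PrV chk L2389 := leafV c2389

theorem c2390 : lp7 (fun s => chk (uent L2390 s)) 0 = true := by decide +kernel
theorem p2390 : PrV chk L2390 := leafV c2390

theorem c2391 : lp7 (fun s => chk (uent L2391 s)) 0 = true := by decide +kernel
theorem p2391 : PrV chk L2391 := leafV c2391

theorem c2392 : lp7 (fun s => chk (uent L2392 s)) 0 = true := by decide +kernel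
theorem p2392 : PrV chk L2392 := leafV c2392

theorem c2393 : lp7 (fun s => chk (uent L2393 s)) 0 = true := by decide +kernel
theorem p2393 : PrV chk L2393 := leafV c2393

theorem c2394 : lp7 (fun s => chk (uent L2394 s)) 0 = true := by decide +kernel
theorem p2394 : PrV chk L2394 := leafV c2394

theorem c2395 : lp7 (fun s => chk (uent L2395 s)) 0 = true := by decide +kernel
theorem p2395 : PrV chk L2395 := leafV c2395

theorem c2396 : lp7 (fun s => chk (uent L2396 s)) 0 = true := by decide +kernel
theorem p2396 : PrV chk L2396 := leafV c2396

theorem c2397 : lp7 (fun s => chk (uent L2397 s)) 0 = true := by decide +kernel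
theorem p2397 : PrV chk L2397 := leafV c2397

theorem c2398 : lp7 (fun s => chk (uent L2398 s)) 0 = true := by decide +kernel
theorem p2398 : PrV chk L2398 := leafV c2398

theorem c2399 : lp7 (fun s => chk (uent L2399 s)) 0 = true := by decide +kernel
theorem p2399 : PrV chk L2399 := leafV c2399

theorem c2400 : lp7 (fun s => chk (uent L2400 s)) 0 = true := by decide +kernel
theorem p2400 : PrV chk L2400 := leafV c2400

theorem c2401 : lp7 (fun s => chk (uent L2401 s)) 0 = true := by decide +kernel
theorem p2401 : PrV chk L2401 := leafV c2401

theorem c2402 : lp7 (fun s => chk (uent L2402 s)) 0 = true := by decide +kernel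
theorem p2402 : PrV chk L2402 := leafV c2402

theorem c2403 : lp7 (fun s => chk (uent L2403 s)) 0 = true := by decide +kernel
theorem p2403 : PrV chk L2403 := leafV c2403

theorem c2404 : lp7 (fun s => chk (uent L2404 s)) 0 = true := by decide +kernel
theorem p2404 : PrV chk L2404 := leafV c2404

theorem c2405 : lp7 (fun s => chk (uent L2405 s)) 0 = true := by decide +kernel
theorem p2405 : PrV chk L2405 := leafV c2405

theorem c2406 : lp7 (fun s => chk (uent L2406 s)) 0 = true := by decide +kernel
theorem p2406 : PrV chk L2406 := leafV c2406

theorem c2407 : lp7 (fun s => chk (uent L2407 s)) 0 = true := by decide +kernel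
theorem p2407 : PrV chk L2407 := leafV c2407

theorem c2408 : lp7 (fun s => chk (uent L2408 s)) 0 = true := by decide +kernel
theorem p2408 : PrV chk L2408 := leafV c2408

theorem c2409 : lp7 (fun s => chk (uent L2409 s)) 0 = true := by decide +kernel
theorem p2409 : PrV chk L2409 := leafV c2409

theorem c2410 : lp7 (fun s => chk (uent L2410 s)) 0 = true := by decide +kernel
theorem p2410 : PrV chk L2410 := leafV c2410

theorem c2411 : lp7 (fun s => chk (uent L2411 s)) 0 = true := by decide +kernel
theorem p2411 : PrV chk L2411 := leafV c2411

theorem c2412 : lp7 (fun s => chk (uent L2412 s)) 0 = true := by decide +kernel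
theorem p2412 : PrV chk L2412 := leafV c2412

theorem c2413 : lp7 (fun s => chk (uent L2413 s)) 0 = true := by decide +kernel
theorem p2413 : PrV chk L2413 := leafV c2413

theorem c2414 : lp7 (fun s => chk (uent L2414 s)) 0 = true := by decide +kernel
theorem p2414 : PrV chk L2414 := leafV c2414

theorem c2415 : lp7 (fun s => chk (uent L2415 s)) 0 = true := by decide +kernel
theorem p2415 : PrV chk L2415 := leafV c2415

theorem c2416 : lp7 (fun s => chk (uent L2416 s)) 0 = true := by decide +kernel
theorem p2416 : PrV chk L2416 := leafV c2416

theorem c2417 : lp7 (fun s => chk (uent L2417 s)) 0 = true := by decide +kernel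
theorem p2417 : PrV chk L2417 := leafV c2417

theorem c2418 : lp7 (fun s => chk (uent L2418 s)) 0 = true := by decide +kernel
theorem p2418 : PrV chk L2418 := leafV c2418

theorem c2419 : lp7 (fun s => chk (uent L2419 s)) 0 = true := by decide +kernel
theorem p2419 : PrV chk L2419 := leafV c2419

theorem c2420 : lp7 (fun s => chk (uent L2420 s)) 0 = true := by decide +kernel
theorem p2420 : PrV chk L2420 := leafV c2420

theorem c2421 : lp7 (fun s => chk (uent L2421 s)) 0 = true := by decide +kernel
theorem p2421 : PrV chk L2421 := leafV c2421

theorem c2422 : lp7 (fun s => chk (uent L2422 s)) 0 = true := by decide +kernel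
theorem p2422 : PrV chk L2422 := leafV c2422

theorem c2423 : lp7 (fun s => chk (uent L2423 s)) 0 = true := by decide +kernel
theorem p2423 : PrV chk L2423 := leafV c2423

theorem c2424 : lp7 (fun s => chk (uent L2424 s)) 0 = true := by decide +kernel
theorem p2424 : PrV chk L2424 := leafV c2424

theorem c2425 : lp7 (fun s => chk (uent L2425 s)) 0 = true := by decide +kernel
theorem p2425 : PrV chk L2425 := leafV c2425

theorem c2426 : lp7 (fun s => chk (uent L2426 s)) 0 = true := by decide +kernel
theorem p2426 : PrV chk L2426 := leafV c2426

theorem c2427 : lp7 (fun s => chk (uent L2427 s)) 0 = true := by decide +kernel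
theorem p2427 : PrV chk L2427 := leafV c2427

theorem c2428 : lp7 (fun s => chk (uent L2428 s)) 0 = true := by decide +kernel
theorem p2428 : PrV chk L2428 := leafV c2428

theorem c2429 : lp7 (fun s => chk (uent L2429 s)) 0 = true := by decide +kernel
theorem p2429 : PrV chk L2429 := leafV c2429

theorem c2430 : lp7 (fun s => chk (uent L2430 s)) 0 = true := by decide +kernel
theorem p2430 : PrV chk L2430 := leafV c2430

theorem c2431 : lp7 (fun s => chk (uent L2431 s)) 0 = true := by decide +kernel
theorem p2431 : PrV chk L2431 := leafV c2431

theorem c2432 : lp7 (fun s => chk (uent L2432 s)) 0 = true := by decide +kernel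
theorem p2432 : PrV chk L2432 := leafV c2432

theorem c2433 : lp7 (fun s => chk (uent L2433 s)) 0 = true := by decide +kernel
theorem p2433 : PrV chk L2433 := leafV c2433

theorem c2434 : lp7 (fun s => chk (uent L2434 s)) 0 = true := by decide +kernel
theorem p2434 : PrV chk L2434 := leafV c2434

theorem c2435 : lp7 (fun s => chk (uent L2435 s)) 0 = true := by decide +kernel
theorem p2435 : PrV chk L2435 := leafV c2435

theorem c2436 : lp7 (fun s => chk (uent L2436 s)) 0 = true := by decide +kernel
theorem p2436 : PrV chk L2436 := leafV c2436

theorem c2437 : lp7 (fun s => chk (uent L2437 s)) 0 = true := by decide +kernel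
theorem p2437 : PrV chk L2437 := leafV c2437

theorem c2438 : lp7 (fun s => chk (uent L2438 s)) 0 = true := by decide +kernel
theorem p2438 : PrV chk L2438 := leafV c2438

theorem c2439 : lp7 (fun s => chk (uent L2439 s)) 0 = true := by decide +kernel
theorem p2439 : PrV chk L2439 := leafV c2439

theorem c2440 : lp7 (fun s => chk (uent L2440 s)) 0 = true := by decide +kernel
theorem p2440 : PrV chk L2440 := leafV c2440

theorem c2441 : lp7 (fun s => chk (uent L2441 s)) 0 = true := by decide +kernel
theorem p2441 : PrV chk L2441 := leafV c2441

theorem c2442 : lp7 (fun s => chk (uent L2442 s)) 0 = true := by decide +kernel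
theorem p2442 : PrV chk L2442 := leafV c2442

theorem c2443 : lp7 (fun s => chk (uent L2443 s)) 0 = true := by decide +kernel
theorem p2443 : PrV chk L2443 := leafV c2443

theorem c2444 : lp7 (fun s => chk (uent L2444 s)) 0 = true := by decide +kernel
theorem p2444 : PrV chk L2444 := leafV c2444

theorem c2445 : lp7 (fun s => chk (uent L2445 s)) 0 = true := by decide +kernel
theorem p2445 : PrV chk L2445 := leafV c2445

theorem c2446 : lp7 (fun s => chk (uent L2446 s)) 0 = true := by decide +kernel
theorem p2446 : PrV chk L2446 := leafV c2446

theorem c2447 : lp7 (fun s => chk (uent L2447 s)) 0 = true := by decide +kernel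
theorem p2447 : PrV chk L2447 := leafV c2447

theorem c2448 : lp7 (fun s => chk (uent L2448 s)) 0 = true := by decide +kernel
theorem p2448 : PrV chk L2448 := leafV c2448

theorem c2449 : lp7 (fun s => chk (uent L2449 s)) 0 = true := by decide +kernel
theorem p2449 : PrV chk L2449 := leafV c2449

theorem c2450 : lp7 (fun s => chk (uent L2450 s)) 0 = true := by decide +kernel
theorem p2450 : PrV chk L2450 := leafV c2450

theorem c2451 : lp7 (fun s => chk (uent L2451 s)) 0 = true := by decide +kernel
theorem p2451 : PrV chk L2451 := leafV c2451

theorem c2452 : lp7 (fun s => chk (uent L2452 s)) 0 = true := by decide +kernel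
theorem p2452 : PrV chk L2452 := leafV c2452

theorem c2453 : lp7 (fun s => chk (uent L2453 s)) 0 = true := by decide +kernel
theorem p2453 : PrV chk L2453 := leafV c2453

theorem c2454 : lp7 (fun s => chk (uent L2454 s)) 0 = true := by decide +kernel
theorem p2454 : PrV chk L2454 := leafV c2454

theorem c2455 : lp7 (fun s => chk (uent L2455 s)) 0 = true := by decide +kernel
theorem p2455 : PrV chk L2455 := leafV c2455

theorem c2456 : lp7 (fun s => chk (uent L2456 s)) 0 = true := by decide +kernel
theorem p2456 : PrV chk L2456 := leafV c2456

theorem c2457 : lp7 (fun s => chk (uent L2457 s)) 0 = true := by decide +kernel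
theorem p2457 : PrV chk L2457 := leafV c2457

theorem c2458 : lp7 (fun s => chk (uent L2458 s)) 0 = true := by decide +kernel
theorem p2458 : PrV chk L2458 := leafV c2458

theorem c2459 : lp7 (fun s => chk (uent L2459 s)) 0 = true := by decide +kernel
theorem p2459 : PrV chk L2459 := leafV c2459

theorem c2460 : lp7 (fun s => chk (uent L2460 s)) 0 = true := by decide +kernel
theorem p2460 : PrV chk L2460 := leafV c2460

theorem c2461 : lp7 (fun s => chk (uent L2461 s)) 0 = true := by decide +kernel
theorem p2461 : PrV chk L2461 := leafV c2461

theorem c2462 : lp7 (fun s => chk (uent L2462 s)) 0 = true := by decide +kernel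
theorem p2462 : PrV chk L2462 := leafV c2462

theorem c2463 : lp7 (fun s => chk (uent L2463 s)) 0 = true := by decide +kernel
theorem p2463 : PrV chk L2463 := leafV c2463

theorem c2464 : lp7 (fun s => chk (uent L2464 s)) 0 = true := by decide +kernel
theorem p2464 : PrV chk L2464 := leafV c2464

theorem c2465 : lp7 (fun s => chk (uent L2465 s)) 0 = true := by decide +kernel
theorem p2465 : PrV chk L2465 := leafV c2465

theorem c2466 : lp7 (fun s => chk (uent L2466 s)) 0 = true := by decide +kernel
theorem p2466 : PrV chk L2466 := leafV c2466

theorem c2467 : lp7 (fun s => chk (uent L2467 s)) 0 = true := by decide +kernel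
theorem p2467 : PrV chk L2467 := leafV c2467

theorem c2468 : lp7 (fun s => chk (uent L2468 s)) 0 = true := by decide +kernel
theorem p2468 : PrV chk L2468 := leafV c2468

theorem c2469 : lp7 (fun s => chk (uent L2469 s)) 0 = true := by decide +kernel
theorem p2469 : PrV chk L2469 := leafV c2469

theorem c2470 : lp7 (fun s => chk (uent L2470 s)) 0 = true := by decide +kernel
theorem p2470 : PrV chk L2470 := leafV c2470

theorem c2471 : lp7 (fun s => chk (uent L2471 s)) 0 = true := by decide +kernel
theorem p2471 : PrV chk L2471 := leafV c2471

theorem c2472 : lp7 (fun s => chk (uent L2472 s)) 0 = true := by decide +kernel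
theorem p2472 : PrV chk L2472 := leafV c2472

theorem c2473 : lp7 (fun s => chk (uent L2473 s)) 0 = true := by decide +kernel
theorem p2473 : PrV chk L2473 := leafV c2473

theorem c2474 : lp7 (fun s => chk (uent L2474 s)) 0 = true := by decide +kernel
theorem p2474 : PrV chk L2474 := leafV c2474

theorem c2475 : lp7 (fun s => chk (uent L2475 s)) 0 = true := by decide +kernel
theorem p2475 : PrV chk L2475 := leafV c2475

theorem c2476 : lp7 (fun s => chk (uent L2476 s)) 0 = true := by decide +kernel
theorem p2476 : PrV chk L2476 := leafV c2476

theorem c2477 : lp7 (fun s => chk (uent L2477 s)) 0 = true := by decide +kernel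
theorem p2477 : PrV chk L2477 := leafV c2477

theorem c2478 : lp7 (fun s => chk (uent L2478 s)) 0 = true := by decide +kernel
theorem p2478 : PrV chk L2478 := leafV c2478

theorem c2479 : lp7 (fun s => chk (uent L2479 s)) 0 = true := by decide +kernel
theorem p2479 : PrV chk L2479 := leafV c2479

theorem c2480 : lp7 (fun s => chk (uent L2480 s)) 0 = true := by decide +kernel
theorem p2480 : PrV chk L2480 := leafV c2480

theorem c2481 : lp7 (fun s => chk (uent L2481 s)) 0 = true := by decide +kernel
theorem p2481 : PrV chk L2481 := leafV c2481

theorem c2482 : lp7 (fun s => chk (uent L2482 s)) 0 = true := by decide +kernel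
theorem p2482 : PrV chk L2482 := leafV c2482

theorem c2483 : lp7 (fun s => chk (uent L2483 s)) 0 = true := by decide +kernel
theorem p2483 : PrV chk L2483 := leafV c2483

theorem c2484 : lp7 (fun s => chk (uent L2484 s)) 0 = true := by decide +kernel
theorem p2484 : PrV chk L2484 := leafV c2484

theorem c2485 : lp7 (fun s => chk (uent L2485 s)) 0 = true := by decide +kernel
theorem p2485 : PrV chk L2485 := leafV c2485

theorem c2486 : lp7 (fun s => chk (uent L2486 s)) 0 = true := by decide +kernel
theorem p2486 : PrV chk L2486 := leafV c2486

theorem c2487 : lp7 (fun s => chk (uent L2487 s)) 0 = true := by decide +kernel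
theorem p2487 : PrV chk L2487 := leafV c2487

theorem c2488 : lp7 (fun s => chk (uent L2488 s)) 0 = true := by decide +kernel
theorem p2488 : PrV chk L2488 := leafV c2488

theorem c2489 : lp7 (fun s => chk (uent L2489 s)) 0 = true := by decide +kernel
theorem p2489 : PrV chk L2489 := leafV c2489

theorem c2490 : lp7 (fun s => chk (uent L2490 s)) 0 = true := by decide +kernel
theorem p2490 : PrV chk L2490 := leafV c2490

theorem c2491 : lp7 (fun s => chk (uent L2491 s)) 0 = true := by decide +kernel
theorem p2491 : PrV chk L2491 := leafV c2491

theorem c2492 : lp7 (fun s => chk (uent L2492 s)) 0 = true := by decide +kernel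
theorem p2492 : PrV chk L2492 := leafV c2492

theorem c2493 : lp7 (fun s => chk (uent L2493 s)) 0 = true := by decide +kernel
theorem p2493 : PrV chk L2493 := leafV c2493

theorem c2494 : lp7 (fun s => chk (uent L2494 s)) 0 = true := by decide +kernel
theorem p2494 : PrV chk L2494 := leafV c2494

theorem c2495 : lp7 (fun s => chk (uent L2495 s)) 0 = true := by decide +kernel
theorem p2495 : PrV chk L2495 := leafV c2495

end Pool.Agent.ad013a.W
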