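import Pool.Agent.H.MP_ad013a_pr.h63w.A.T
import Pool.Agent.H.MP_ad013a_pr.h63w.VLoop

namespace Pool.Agent.ad013a.W

theorem c2496 : lp7 (fun s => chk (uent L2496 s)) 0 = true := by decide +kernel
theorem p2496 : PrV chk L2496 := leafV c2496

theorem c2497 : lp7 (fun s => chk (uent L2497 s)) 0 = true := by decide +kernel
theorem p2497 : PrV chk L2497 := leafV c2497

theorem c2498 : lp7 (fun s => chk (uent L2498 s)) 0 = true := by decide +kernel
theorem p2498 : PrV chk L2498 := leafV c2498

theorem c2499 : lp7 (fun s => chk (uent L2499 s)) 0 = true := by decide +kernel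
theorem p2499 : PrV chk L2499 := leafV c2499

theorem c2500 : lp7 (fun s => chk (uent L2500 s)) 0 = true := by decide +kernel
theorem p2500 : PrV chk L2500 := leafV c2500

theorem c2501 : lp7 (fun s => chk (uent L2501 s)) 0 = true := by decide +kernel
theorem p2501 : PrV chk L2501 := leafV c2501

theorem c2502 : lp7 (fun s => chk (uent L2502 s)) 0 = true := by decide +kernel
theorem p2502 : PrV chk L2502 := leafV c2502

theorem c2503 : lp7 (fun s => chk (uent L2503 s)) 0 = true := by decide +kernel
theorem p2503 : PrV chk L2503 := leafV c2503

theorem c2504 : lp7 (fun s => chk (uent L2504 s)) 0 = true := by decide +kernel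
theorem p2504 : PrV chk L2504 := leafV c2504

theorem c2505 : lp7 (fun s => chk (uent L2505 s)) 0 = true := by decide +kernel
theorem p2505 : PrV chk L2505 := leafV c2505

theorem c2506 : lp7 (fun s => chk (uent L2506 s)) 0 = true := by decide +kernel
theorem p2506 : PrV chk L2506 := leafV c2506

theorem c2507 : lp7 (fun s => chk (uent L2507 s)) 0 = true := by decide +kernel
theorem p2507 : PrV chk L2507 := leafV c2507

theorem c2508 : lp7 (fun s => chk (uent L2508 s)) 0 = true := by decide +kernel
theorem p2508 : PrV chk L2508 := leafV c2508

theorem c2509 : lp7 (fun s => chk (uent L2509 s)) 0 = true := by decide +kernel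
theorem p2509 : PrV chk L2509 := leafV c2509

theorem c2510 : lp7 (fun s => chk (uent L2510 s)) 0 = true := by decide +kernel
theorem p2510 : PrV chk L2510 := leafV c2510

theorem c2511 : lp7 (fun s => chk (uent L2511 s)) 0 = true := by decide +kernel
theorem p2511 : PrV chk L2511 := leafV c2511

theorem c2512 : lp7 (fun s => chk (uent L2512 s)) 0 = true := by decide +kernel
theorem p2512 : PrV chk L2512 := leafV c2512

theorem c2513 : lp7 (fun s => chk (uent L2513 s)) 0 = true := by decide +kernel
theorem p2513 : PrV chk L2513 := leafV c2513

theorem c2514 : lp7 (fun s => chk (uent L2514 s)) 0 = true := by decide +kernel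
theorem p2514 : PrV chk L2514 := leafV c2514

theorem c2515 : lp7 (fun s => chk (uent L2515 s)) 0 = true := by decide +kernel
theorem p2515 : PrV chk L2515 := leafV c2515

theorem c2516 : lp7 (fun s => chk (uent L2516 s)) 0 = true := by decide +kernel
theorem p2516 : PrV chk L2516 := leafV c2516

theorem c2517 : lp7 (fun s => chk (uent L2517 s)) 0 = true := by decide +kernel
theorem p2517 : PrV chk L2517 := leafV c2517

theorem c2518 : lp7 (fun s => chk (uent L2518 s)) 0 = true := by decide +kernel
theorem p2518 : PrV chk L2518 := leafV c2518

theorem c2519 : lp7 (fun s => chk (uent L2519 s)) 0 = true := by decide +kernel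
theorem p2519 : PrV chk L2519 := leafV c2519

theorem c2520 : lp7 (fun s => chk (uent L2520 s)) 0 = true := by decide +kernel
theorem p2520 : PrV chk L2520 := leafV c2520

theorem c2521 : lp7 (fun s => chk (uent L2521 s)) 0 = true := by decide +kernel
theorem p2521 : PrV chk L2521 := leafV c2521

theorem c2522 : lp7 (fun s => chk (uent L2522 s)) 0 = true := by decide +kernel
theorem p2522 : PrV chk L2522 := leafV c2522

theorem c2523 : lp7 (fun s => chk (uent L2523 s)) 0 = true := by decide +kernel
theorem p2523 : PrV chk L2523 := leafV c2523

theorem c2524 : lp7 (fun s => chk (uent L2524 s)) 0 = true := by decide +kernel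
theorem p2524 : PrV chk L2524 := leafV c2524

theorem c2525 : lp7 (fun s => chk (uent L2525 s)) 0 = true := by decide +kernel
theorem p2525 : PrV chk L2525 := leafV c2525

theorem c2526 : lp7 (fun s => chk (uent L2526 s)) 0 = true := by decide +kernel
theorem p2526 : PrV chk L2526 := leafV c2526

theorem c2527 : lp7 (fun s => chk (uent L2527 s)) 0 = true := by decide +kernel
theorem p2527 : PrV chk L2527 := leafV c2527

theorem c2528 : lp7 (fun s => chk (uent L2528 s)) 0 = true := by decide +kernel
theorem p2528 : PrV chk L2528 := leafV c2528

theorem c2529 : lp7 (fun s => chk (uent L2529 s)) 0 = true := by decide +kernel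
theorem p2529 : PrV chk L2529 := leafV c2529

theorem c2530 : lp7 (fun s => chk (uent L2530 s)) 0 = true := by decide +kernel
theorem p2530 : PrV chk L2530 := leafV c2530

theorem c2531 : lp7 (fun s => chk (uent L2531 s)) 0 = true := by decide +kernel
theorem p2531 : PrV chk L2531 := leafV c2531

theorem c2532 : lp7 (fun s => chk (uent L2532 s)) 0 = true := by decide +kernel
theorem p2532 : PrV chk L2532 := leafV c2532

theorem c2533 : lp7 (fun s => chk (uent L2533 s)) 0 = true := by decide +kernel
theorem p2533 : PrV chk L2533 := leafV c2533

theorem c2534 : lp7 (fun s => chk (uent L2534 s)) 0 = true := by decide +kernel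
theorem p2534 : PrV chk L2534 := leafV c2534

theorem c2535 : lp7 (fun s => chk (uent L2535 s)) 0 = true := by decide +kernel
theorem p2535 : PrV chk L2535 := leafV c2535

theorem c2536 : lp7 (fun s => chk (uent L2536 s)) 0 = true := by decide +kernel
theorem p2536 : PrV chk L2536 := leafV c2536

theorem c2537 : lp7 (fun s => chk (uent L2537 s)) 0 = true := by decide +kernel
theorem p2537 : PrV chk L2537 := leafV c2537

theorem c2538 : lp7 (fun s => chk (uent L2538 s)) 0 = true := by decide +kernel
theorem p2538 : PrV chk L2538 := leafV c2538

theorem c2539 : lp7 (fun s => chk (uent L2539 s)) 0 = true := by decide +kernel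
theorem p2539 : PrV chk L2539 := leafV c2539

theorem c2540 : lp7 (fun s => chk (uent L2540 s)) 0 = true := by decide +kernel
theorem p2540 : PrV chk L2540 := leafV c2540

theorem c2541 : lp7 (fun s => chk (uent L2541 s)) 0 = true := by decide +kernel
theorem p2541 : PrV chk L2541 := leafV c2541

theorem c2542 : lp7 (fun s => chk (uent L2542 s)) 0 = true := by decide +kernel
theorem p2542 : PrV chk L2542 := leafV c2542

theorem c2543 : lp7 (fun s => chk (uent L2543 s)) 0 = true := by decide +kernel
theorem p2543 : PrV chk L2543 := leafV c2543

theorem c2544 : lp7 (fun s => chk (uent L2544 s)) 0 = true := by decide +kernel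
theorem p2544 : PrV chk L2544 := leafV c2544

theorem c2545 : lp7 (fun s => chk (uent L2545 s)) 0 = true := by decide +kernel
theorem p2545 : PrV chk L2545 := leafV c2545

theorem c2546 : lp7 (fun s => chk (uent L2546 s)) 0 = true := by decide +kernel
theorem p2546 : PrV chk L2546 := leafV c2546

theorem c2547 : lp7 (fun s => chk (uent L2547 s)) 0 = true := by decide +kernel
theorem p2547 : PrV chk L2547 := leafV c2547

theorem c2548 : lp7 (fun s => chk (uent L2548 s)) 0 = true := by decide +kernel
theorem p2548 : PrV chk L2548 := leafV c2548

theorem c2549 : lp7 (fun s => chk (uent L2549 s)) 0 = true := by decide +kernel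
theorem p2549 : PrV chk L2549 := leafV c2549

theorem c2550 : lp7 (fun s => chk (uent L2550 s)) 0 = true := by decide +kernel
theorem p2550 : PrV chk L2550 := leafV c2550

theorem c2551 : lp7 (fun s => chk (uent L2551 s)) 0 = true := by decide +kernel
theorem p2551 : PrV chk L2551 := leafV c2551

theorem c2552 : lp7 (fun s => chk (uent L2552 s)) 0 = true := by decide +kernel
theorem p2552 : PrV chk L2552 := leafV c2552

theorem c2553 : lp7 (fun s => chk (uent L2553 s)) 0 = true := by decide +kernel
theorem p2553 : PrV chk L2553 := leafV c2553

theorem c2554 : lp7 (fun s => chk (uent L2554 s)) 0 = true := by decide +kernel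
theorem p2554 : PrV chk L2554 := leafV c2554

theorem c2555 : lp7 (fun s => chk (uent L2555 s)) 0 = true := by decide +kernel
theorem p2555 : PrV chk L2555 := leafV c2555

theorem c2556 : lp7 (fun s => chk (uent L2556 s)) 0 = true := by decide +kernel
theorem p2556 : PrV chk L2556 := leafV c2556

theorem c2557 : lp7 (fun s => chk (uent L2557 s)) 0 = true := by decide +kernel
theorem p2557 : PrV chk L2557 := leafV c2557

theorem c2558 : lp7 (fun s => chk (uent L2558 s)) 0 = true := by decide +kernel
theorem p2558 : PrV chk L2558 := leafV c2558

theorem c2559 : lp7 (fun s => chk (uent L2559 s)) 0 = true := by decide +kernel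
theorem p2559 : PrV chk L2559 := leafV c2559

theorem c2560 : lp7 (fun s => chk (uent L2560 s)) 0 = true := by decide +kernel
theorem p2560 : PrV chk L2560 := leafV c2560

theorem c2561 : lp7 (fun s => chk (uent L2561 s)) 0 = true := by decide +kernel
theorem p2561 : PrV chk L2561 := leafV c2561

theorem c2562 : lp7 (fun s => chk (uent L2562 s)) 0 = true := by decide +kernel
theorem p2562 : PrV chk L2562 := leafV c2562

theorem c2563 : lp7 (fun s => chk (uent L2563 s)) 0 = true := by decide +kernel
theorem p2563 : PrV chk L2563 := leafV c2563

theorem c2564 : lp7 (fun s => chk (uent L2564 s)) 0 = true := by decide +kernel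
theorem p2564 : PrV chk L2564 := leafV c2564

theorem c2565 : lp7 (fun s => chk (uent L2565 s)) 0 = true := by decide +kernel
theorem p2565 : PrV chk L2565 := leafV c2565

theorem c2566 : lp7 (fun s => chk (uent L2566 s)) 0 = true := by decide +kernel
theorem p2566 : PrV chk L2566 := leafV c2566

theorem c2567 : lp7 (fun s => chk (uent L2567 s)) 0 = true := by decide +kernel
theorem p2567 : PrV chk L2567 := leafV c2567

theorem c2568 : lp7 (fun s => chk (uent L2568 s)) 0 = true := by decide +kernel
theorem p2568 : PrV chk L2568 := leafV c2568

theorem c2569 : lp7 (fun s => chk (uent L2569 s)) 0 = true := by decide +kernel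
theorem p2569 : PrV chk L2569 := leafV c2569

theorem c2570 : lp7 (fun s => chk (uent L2570 s)) 0 = true := by decide +kernel
theorem p2570 : PrV chk L2570 := leafV c2570

theorem c2571 : lp7 (fun s => chk (uent L2571 s)) 0 = true := by decide +kernel
theorem p2571 : PrV chk L2571 := leafV c2571

theorem c2572 : lp7 (fun s => chk (uent L2572 s)) 0 = true := by decide +kernel
theorem p2572 : PrV chk L2572 := leafV c2572

theorem c2573 : lp7 (fun s => chk (uent L2573 s)) 0 = true := by decide +kernel
theorem p2573 : PrV chk L2573 := leafV c2573

theorem c2574 : lp7 (fun s => chk (uent L2574 s)) 0 = true := by decide +kernel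
theorem p2574 : PrV chk L2574 := leafV c2574

theorem c2575 : lp7 (fun s => chk (uent L2575 s)) 0 = true := by decide +kernel
theorem p2575 : PrV chk L2575 := leafV c2575

theorem c2576 : lp7 (fun s => chk (uent L2576 s)) 0 = true := by decide +kernel
theorem p2576 : PrV chk L2576 := leafV c2576

theorem c2577 : lp7 (fun s => chk (uent L2577 s)) 0 = true := by decide +kernel
theorem p2577 : PrV chk L2577 := leafV c2577

theorem c2578 : lp7 (fun s => chk (uent L2578 s)) 0 = true := by decide +kernel
theorem p2578 : PrV chk L2578 := leafV c2578

theorem c2579 : lp7 (fun s => chk (uent L2579 s)) 0 = true := by decide +kernel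
theorem p2579 : PrV chk L2579 := leafV c2579

theorem c2580 : lp7 (fun s => chk (uent L2580 s)) 0 = true := by decide +kernel
theorem p2580 : PrV chk L2580 := leafV c2580

theorem c2581 : lp7 (fun s => chk (uent L2581 s)) 0 = true := by decide +kernel
theorem p2581 : PrV chk L2581 := leafV c2581

theorem c2582 : lp7 (fun s => chk (uent L2582 s)) 0 = true := by decide +kernel
theorem p2582 : PrV chk L2582 := leafV c2582

theorem c2583 : lp7 (fun s => chk (uent L2583 s)) 0 = true := by decide +kernel
theorem p2583 : PrV chk L2583 := leafV c2583

theorem c2584 : lp7 (fun s => chk (uent L2584 s)) 0 = true := by decide +kernel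
theorem p2584 : PrV chk L2584 := leafV c2584

theorem c2585 : lp7 (fun s => chk (uent L2585 s)) 0 = true := by decide +kernel
theorem p2585 : PrV chk L2585 := leafV c2585

theorem c2586 : lp7 (fun s => chk (uent L2586 s)) 0 = true := by decide +kernel
theorem p2586 : PrV chk L2586 := leafV c2586

theorem c2587 : lp7 (fun s => chk (uent L2587 s)) 0 = true := by decide +kernel
theorem p2587 : PrV chk L2587 := leafV c2587

theorem c2588 : lp7 (fun s => chk (uent L2588 s)) 0 = true := by decide +kernel
theorem p2588 : PrV chk L2588 := leafV c2588

theorem c2589 : lp7 (fun s => chk (uent L2589 s)) 0 = true := by decide +kernel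
theorem p2589 : PrV chk L2589 := leafV c2589

theorem c2590 : lp7 (fun s => chk (uent L2590 s)) 0 = true := by decide +kernel
theorem p2590 : PrV chk L2590 := leafV c2590

theorem c2591 : lp7 (fun s => chk (uent L2591 s)) 0 = true := by decide +kernel
theorem p2591 : PrV chk L2591 := leafV c2591

theorem c2592 : lp7 (fun s => chk (uent L2592 s)) 0 = true := by decide +kernel
theorem p2592 : PrV chk L2592 := leafV c2592

theorem c2593 : lp7 (fun s => chk (uent L2593 s)) 0 = true := by decide +kernel
theorem p2593 : PrV chk L2593 := leafV c2593

theorem c2594 : lp7 (fun s => chk (uent L2594 s)) 0 = true := by decide +kernel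
theorem p2594 : PrV chk L2594 := leafV c2594

theorem c2595 : lp7 (fun s => chk (uent L2595 s)) 0 = true := by decide +kernel
theorem p2595 : PrV chk L2595 := leafV c2595

theorem c2596 : lp7 (fun s => chk (uent L2596 s)) 0 = true := by decide +kernel
theorem p2596 : PrV chk L2596 := leafV c2596

theorem c2597 : lp7 (fun s => chk (uent L2597 s)) 0 = true := by decide +kernel
theorem p2597 : PrV chk L2597 := leafV c2597

theorem c2598 : lp7 (fun s => chk (uent L2598 s)) 0 = true := by decide +kernel
theorem p2598 : PrV chk L2598 := leafV c2598

theorem c2599 : lp7 (fun s => chk (uent L2599 s)) 0 = true := by decide +kernel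
theorem p2599 : PrV chk L2599 := leafV c2599

theorem c2600 : lp7 (fun s => chk (uent L2600 s)) 0 = true := by decide +kernel
theorem p2600 : PrV chk L2600 := leafV c2600

theorem c2601 : lp7 (fun s => chk (uent L2601 s)) 0 = true := by decide +kernel
theorem p2601 : PrV chk L2601 := leafV c2601

theorem c2602 : lp7 (fun s => chk (uent L2602 s)) 0 = true := by decide +kernel
theorem p2602 : PrV chk L2602 := leafV c2602

theorem c2603 : lp7 (fun s => chk (uent L2603 s)) 0 = true := by decide +kernel
theorem p2603 : PrV chk L2603 := leafV c2603

theorem c2604 : lp7 (fun s => chk (uent L2604 s)) 0 = true := by decide +kernel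
theorem p2604 : PrV chk L2604 := leafV c2604

theorem c2605 : lp7 (fun s => chk (uent L2605 s)) 0 = true := by decide +kernel
theorem p2605 : PrV chk L2605 := leafV c2605

theorem c2606 : lp7 (fun s => chk (uent L2606 s)) 0 = true := by decide +kernel
theorem p2606 : PrV chk L2606 := leafV c2606

theorem c2607 : lp7 (fun s => chk (uent L2607 s)) 0 = true := by decide +kernel
theorem p2607 : PrV chk L2607 := leafV c2607

theorem c2608 : lp7 (fun s => chk (uent L2608 s)) 0 = true := by decide +kernel
theorem p2608 : PrV chk L2608 := leafV c2608

theorem c2609 : lp7 (fun s => chk (uent L2609 s)) 0 = true := by decide +kernel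
theorem p2609 : PrV chk L2609 := leafV c2609

theorem c2610 : lp7 (fun s => chk (uent L2610 s)) 0 = true := by decide +kernel
theorem p2610 : PrV chk L2610 := leafV c2610

theorem c2611 : lp7 (fun s => chk (uent L2611 s)) 0 = true := by decide +kernel
theorem p2611 : PrV chk L2611 := leafV c2611

theorem c2612 : lp7 (fun s => chk (uent L2612 s)) 0 = true := by decide +kernel
theorem p2612 : PrV chk L2612 := leafV c2612

theorem c2613 : lp7 (fun s => chk (uent L2613 s)) 0 = true := by decide +kernel
theorem p2613 : PrV chk L2613 := leafV c2613

theorem c2614 : lp7 (fun s => chk (uent L2614 s)) 0 = true := by decide +kernel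
theorem p2614 : PrV chk L2614 := leafV c2614

theorem c2615 : lp7 (fun s => chk (uent L2615 s)) 0 = true := by decide +kernel
theorem p2615 : PrV chk L2615 := leafV c2615

theorem c2616 : lp7 (fun s => chk (uent L2616 s)) 0 = true := by decide +kernel
theorem p2616 : PrV chk L2616 := leafV c2616

theorem c2617 : lp7 (fun s => chk (uent L2617 s)) 0 = true := by decide +kernel
theorem p2617 : PrV chk L2617 := leafV c2617

theorem c2618 : lp7 (fun s => chk (uent L2618 s)) 0 = true := by decide +kernel
theorem p2618 : PrV chk L2618 := leafV c2618

theorem c2619 : lp7 (fun s => chk (uent L2619 s)) 0 = true := by decide +kernel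
theorem p2619 : PrV chk L2619 := leafV c2619

theorem c2620 : lp7 (fun s => chk (uent L2620 s)) 0 = true := by decide +kernel
theorem p2620 : PrV chk L2620 := leafV c2620

theorem c2621 : lp7 (fun s => chk (uent L2621 s)) 0 = true := by decide +kernel
theorem p2621 : PrV chk L2621 := leafV c2621

theorem c2622 : lp7 (fun s => chk (uent L2622 s)) 0 = true := by decide +kernel
theorem p2622 : PrV chk L2622 := leafV c2622

theorem c2623 : lp7 (fun s => chk (uent L2623 s)) 0 = true := by decide +kernel
theorem p2623 : PrV chk L2623 := leafV c2623

theorem c2624 : lp7 (fun s => chk (uent L2624 s)) 0 = true := by decide +kernel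
theorem p2624 : PrV chk L2624 := leafV c2624

theorem c2625 : lp7 (fun s => chk (uent L2625 s)) 0 = true := by decide +kernel
theorem p2625 : PrV chk L2625 := leafV c2625

theorem c2626 : lp7 (fun s => chk (uent L2626 s)) 0 = true := by decide +kernel
theorem p2626 : PrV chk L2626 := leafV c2626

theorem c2627 : lp7 (fun s => chk (uent L2627 s)) 0 = true := by decide +kernel
theorem p2627 : PrV chk L2627 := leafV c2627

theorem c2628 : lp7 (fun s => chk (uent L2628 s)) 0 = true := by decide +kernel
theorem p2628 : PrV chk L2628 := leafV c2628

theorem c2629 : lp7 (fun s => chk (uent L2629 s)) 0 = true := by decide +kernel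
theorem p2629 : PrV chk L2629 := leafV c2629

theorem c2630 : lp7 (fun s => chk (uent L2630 s)) 0 = true := by decide +kernel
theorem p2630 : PrV chk L2630 := leafV c2630

theorem c2631 : lp7 (fun s => chk (uent L2631 s)) 0 = true := by decide +kernel
theorem p2631 : PrV chk L2631 := leafV c2631

theorem c2632 : lp7 (fun s => chk (uent L2632 s)) 0 = true := by decide +kernel
theorem p2632 : PrV chk L2632 := leafV c2632

theorem c2633 : lp7 (fun s => chk (uent L2633 s)) 0 = true := by decide +kernel
theorem p2633 : PrV chk L2633 := leafV c2633

theorem c2634 : lp7 (fun s => chk (uent L2634 s)) 0 = true := by decide +kernel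
theorem p2634 : PrV chk L2634 := leafV c2634

theorem c2635 : lp7 (fun s => chk (uent L2635 s)) 0 = true := by decide +kernel
theorem p2635 : PrV chk L2635 := leafV c2635

theorem c2636 : lp7 (fun s => chk (uent L2636 s)) 0 = true := by decide +kernel
theorem p2636 : PrV chk L2636 := leafV c2636

theorem c2637 : lp7 (fun s => chk (uent L2637 s)) 0 = true := by decide +kernel
theorem p2637 : PrV chk L2637 := leafV c2637

theorem c2638 : lp7 (fun s => chk (uent L2638 s)) 0 = true := by decide +kernel
theorem p2638 : PrV chk L2638 := leafV c2638

theorem c2639 : lp7 (fun s => chk (uent L2639 s)) 0 = true := by decide +kernel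
theorem p2639 : PrV chk L2639 := leafV c2639

theorem c2640 : lp7 (fun s => chk (uent L2640 s)) 0 = true := by decide +kernel
theorem p2640 : PrV chk L2640 := leafV c2640

theorem c2641 : lp7 (fun s => chk (uent L2641 s)) 0 = true := by decide +kernel
theorem p2641 : PrV chk L2641 := leafV c2641

theorem c2642 : lp7 (fun s => chk (uent L2642 s)) 0 = true := by decide +kernel
theorem p2642 : PrV chk L2642 := leafV c2642

theorem c2643 : lp7 (fun s => chk (uent L2643 s)) 0 = true := by decide +kernel
theorem p2643 : PrV chk L2643 := leafV c2643

theorem c2644 : lp7 (fun s => chk (uent L2644 s)) 0 = true := by decide +kernel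
theorem p2644 : PrV chk L2644 := leafV c2644

theorem c2645 : lp7 (fun s => chk (uent L2645 s)) 0 = true := by decide +kernel
theorem p2645 : PrV chk L2645 := leafV c2645

theorem c2646 : lp7 (fun s => chk (uent L2646 s)) 0 = true := by decide +kernel
theorem p2646 : PrV chk L2646 := leafV c2646

theorem c2647 : lp7 (fun s => chk (uent L2647 s)) 0 = true := by decide +kernel
theorem p2647 : PrV chk L2647 := leafV c2647

theorem c2648 : lp7 (fun s => chk (uent L2648 s)) 0 = true := by decide +kernel
theorem p2648 : PrV chk L2648 := leafV c2648

theorem c2649 : lp7 (fun s => chk (uent L2649 s)) 0 = true := by decide +kernel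
theorem p2649 : PrV chk L2649 := leafV c2649

theorem c2650 : lp7 (fun s => chk (uent L2650 s)) 0 = true := by decide +kernel
theorem p2650 : PrV chk L2650 := leafV c2650

theorem c2651 : lp7 (fun s => chk (uent L2651 s)) 0 = true := by decide +kernel
theorem p2651 : PrV chk L2651 := leafV c2651

theorem c2652 : lp7 (fun s => chk (uent L2652 s)) 0 = true := by decide +kernel
theorem p2652 : PrV chk L2652 := leafV c2652

theorem c2653 : lp7 (fun s => chk (uent L2653 s)) 0 = true := by decide +kernel
theorem p2653 : PrV chk L2653 := leafV c2653

theorem c2654 : lp7 (fun s => chk (uent L2654 s)) 0 = true := by decide +kernel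
theorem p2654 : PrV chk L2654 := leafV c2654

theorem c2655 : lp7 (fun s => chk (uent L2655 s)) 0 = true := by decide +kernel
theorem p2655 : PrV chk L2655 := leafV c2655

theorem c2656 : lp7 (fun s => chk (uent L2656 s)) 0 = true := by decide +kernel
theorem p2656 : PrV chk L2656 := leafV c2656

theorem c2657 : lp7 (fun s => chk (uent L2657 s)) 0 = true := by decide +kernel
theorem p2657 : PrV chk L2657 := leafV c2657

theorem c2658 : lp7 (fun s => chk (uent L2658 s)) 0 = true := by decide +kernel
theorem p2658 : PrV chk L2658 := leafV c2658

theorem c2659 : lp7 (fun s => chk (uent L2659 s)) 0 = true := by decide +kernel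
theorem p2659 : PrV chk L2659 := leafV c2659

theorem c2660 : lp7 (fun s => chk (uent L2660 s)) 0 = true := by decide +kernel
theorem p2660 : PrV chk L2660 := leafV c2660

theorem c2661 : lp7 (fun s => chk (uent L2661 s)) 0 = true := by decide +kernel
theorem p2661 : PrV chk L2661 := leafV c2661

theorem c2662 : lp7 (fun s => chk (uent L2662 s)) 0 = true := by decide +kernel
theorem p2662 : PrV chk L2662 := leafV c2662

theorem c2663 : lp7 (fun s => chk (uent L2663 s)) 0 = true := by decide +kernel
theorem p2663 : PrV chk L2663 := leafV c2663

theorem c2664 : lp7 (fun s => chk (uent L2664 s)) 0 = true := by decide +kernel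
theorem p2664 : PrV chk L2664 := leafV c2664

theorem c2665 : lp7 (fun s => chk (uent L2665 s)) 0 = true := by decide +kernel
theorem p2665 : PrV chk L2665 := leafV c2665

theorem c2666 : lp7 (fun s => chk (uent L2666 s)) 0 = true := by decide +kernel
theorem p2666 : PrV chk L2666 := leafV c2666

theorem c2667 : lp7 (fun s => chk (uent L2667 s)) 0 = true := by decide +kernel
theorem p2667 : PrV chk L2667 := leafV c2667

theorem c2668 : lp7 (fun s => chk (uent L2668 s)) 0 = true := by decide +kernel
theorem p2668 : PrV chk L2668 := leafV c2668

theorem c2669 : lp7 (fun s => chk (uent L2669 s)) 0 = true := by decide +kernel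
theorem p2669 : PrV chk L2669 := leafV c2669

theorem c2670 : lp7 (fun s => chk (uent L2670 s)) 0 = true := by decide +kernel
theorem p2670 : PrV chk L2670 := leafV c2670

theorem c2671 : lp7 (fun s => chk (uent L2671 s)) 0 = true := by decide +kernel
theorem p2671 : PrV chk L2671 := leafV c2671

theorem c2672 : lp7 (fun s => chk (uent L2672 s)) 0 = true := by decide +kernel
theorem p2672 : PrV chk L2672 := leafV c2672

theorem c2673 : lp7 (fun s => chk (uent L2673 s)) 0 = true := by decide +kernel
theorem p2673 : PrV chk L2673 := leafV c2673

theorem c2674 : lp7 (fun s => chk (uent L2674 s)) 0 = true := by decide +kernel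
theorem p2674 : PrV chk L2674 := leafV c2674

theorem c2675 : lp7 (fun s => chk (uent L2675 s)) 0 = true := by decide +kernel
theorem p2675 : PrV chk L2675 := leafV c2675

theorem c2676 : lp7 (fun s => chk (uent L2676 s)) 0 = true := by decide +kernel
theorem p2676 : PrV chk L2676 := leafV c2676

theorem c2677 : lp7 (fun s => chk (uent L2677 s)) 0 = true := by decide +kernel
theorem p2677 : PrV chk L2677 := leafV c2677

theorem c2678 : lp7 (fun s => chk (uent L2678 s)) 0 = true := by decide +kernel
theorem p2678 : PrV chk L2678 := leafV c2678

theorem c2679 : lp7 (fun s => chk (uent L2679 s)) 0 = true := by decide +kernel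
theorem p2679 : PrV chk L2679 := leafV c2679

theorem c2680 : lp7 (fun s => chk (uent L2680 s)) 0 = true := by decide +kernel
theorem p2680 : PrV chk L2680 := leafV c2680

theorem c2681 : lp7 (fun s => chk (uent L2681 s)) 0 = true := by decide +kernel
theorem p2681 : PrV chk L2681 := leafV c2681

theorem c2682 : lp7 (fun s => chk (uent L2682 s)) 0 = true := by decide +kernel
theorem p2682 : PrV chk L2682 := leafV c2682

theorem c2683 : lp7 (fun s => chk (uent L2683 s)) 0 = true := by decide +kernel
theorem p2683 : PrV chk L2683 := leafV c2683

theorem c2684 : lp7 (fun s => chk (uent L2684 s)) 0 = true := by decide +kernel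
theorem p2684 : PrV chk L2684 := leafV c2684

theorem c2685 : lp7 (fun s => chk (uent L2685 s)) 0 = true := by decide +kernel
theorem p2685 : PrV chk L2685 := leafV c2685

theorem c2686 : lp7 (fun s => chk (uent L2686 s)) 0 = true := by decide +kernel
theorem p2686 : PrV chk L2686 := leafV c2686

theorem c2687 : lp7 (fun s => chk (uent L2687 s)) 0 = true := by decide +kernel
theorem p2687 : PrV chk L2687 := leafV c2687

end Pool.Agent.ad013a.W
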