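import Pool.Agent.H.MP_ad013a_pr.h63w.A.T
import Pool.Agent.H.MP_ad013a_pr.h63w.VLoop

namespace Pool.Agent.ad013a.W

theorem c2688 : lp7 (fun s => chk (uent L2688 s)) 0 = true := by decide +kernel
theorem p2688 : PrV chk L2688 := leafV c2688

theorem c2689 : lp7 (fun s => chk (uent L2689 s)) 0 = true := by decide +kernel
theorem p2689 : PrV chk L2689 := leafV c2689

theorem c2690 : lp7 (fun s => chk (uent L2690 s)) 0 = true := by decide +kernel
theorem p2690 : PrV chk L2690 := leafV c2690

theorem c2691 : lp7 (fun s => chk (uent L2691 s)) 0 = true := by decide +kernel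
theorem p2691 : PrV chk L2691 := leafV c2691

theorem c2692 : lp7 (fun s => chk (uent L2692 s)) 0 = true := by decide +kernel
theorem p2692 : PrV chk L2692 := leafV c2692

theorem c2693 : lp7 (fun s => chk (uent L2693 s)) 0 = true := by decide +kernel
theorem p2693 : PrV chk L2693 := leafV c2693

theorem c2694 : lp7 (fun s => chk (uent L2694 s)) 0 = true := by decide +kernel
theorem p2694 : PrV chk L2694 := leafV c2694

theorem c2695 : lp7 (fun s => chk (uent L2695 s)) 0 = true := by decide +kernel
theorem p2695 : PrV chk L2695 := leafV c2695

theorem c2696 : lp7 (fun s => chk (uent L2696 s)) 0 = true := by decide +kernel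
theorem p2696 : PrV chk L2696 := leafV c2696

theorem c2697 : lp7 (fun s => chk (uent L2697 s)) 0 = true := by decide +kernel
theorem p2697 : PrV chk L2697 := leafV c2697

theorem c2698 : lp7 (fun s => chk (uent L2698 s)) 0 = true := by decide +kernel
theorem p2698 : PrV chk L2698 := leafV c2698

theorem c2699 : lp7 (fun s => chk (uent L2699 s)) 0 = true := by decide +kernel
theorem p2699 : PrV chk L2699 := leafV c2699

theorem c2700 : lp7 (fun s => chk (uent L2700 s)) 0 = true := by decide +kernel
theorem p2700 : PrV chk L2700 := leafV c2700

theorem c2701 : lp7 (fun s => chk (uent L2701 s)) 0 = true := by decide +kernel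
theorem p2701 : PrV chk L2701 := leafV c2701

theorem c2702 : lp7 (fun s => chk (uent L2702 s)) 0 = true := by decide +kernel
theorem p2702 : PrV chk L2702 := leafV c2702

theorem c2703 : lp7 (fun s => chk (uent L2703 s)) 0 = true := by decide +kernel
theorem p2703 : PrV chk L2703 := leafV c2703

theorem c2704 : lp7 (fun s => chk (uent L2704 s)) 0 = true := by decide +kernel
theorem p2704 : PrV chk L2704 := leafV c2704

theorem c2705 : lp7 (fun s => chk (uent L2705 s)) 0 = true := by decide +kernel
theorem p2705 : PrV chk L2705 := leafV c2705

theorem c2706 : lp7 (fun s => chk (uent L2706 s)) 0 = true := by decide +kernel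
theorem p2706 : PrV chk L2706 := leafV c2706

theorem c2707 : lp7 (fun s => chk (uent L2707 s)) 0 = true := by decide +kernel
theorem p2707 : PrV chk L2707 := leafV c2707

theorem c2708 : lp7 (fun s => chk (uent L2708 s)) 0 = true := by decide +kernel
theorem p2708 : PrV chk L2708 := leafV c2708

theorem c2709 : lp7 (fun s => chk (uent L2709 s)) 0 = true := by decide +kernel
theorem p2709 : PrV chk L2709 := leafV c2709

theorem c2710 : lp7 (fun s => chk (uent L2710 s)) 0 = true := by decide +kernel
theorem p2710 : PrV chk L2710 := leafV c2710

theorem c2711 : lp7 (fun s => chk (uent L2711 s)) 0 = true := by decide +kernel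
theorem p2711 : PrV chk L2711 := leafV c2711

theorem c2712 : lp7 (fun s => chk (uent L2712 s)) 0 = true := by decide +kernel
theorem p2712 : PrV chk L2712 := leafV c2712

theorem c2713 : lp7 (fun s => chk (uent L2713 s)) 0 = true := by decide +kernel
theorem p2713 : PrV chk L2713 := leafV c2713

theorem c2714 : lp7 (fun s => chk (uent L2714 s)) 0 = true := by decide +kernel
theorem p2714 : PrV chk L2714 := leafV c2714

theorem c2715 : lp7 (fun s => chk (uent L2715 s)) 0 = true := by decide +kernel
theorem p2715 : PrV chk L2715 := leafV c2715

theorem c2716 : lp7 (fun s => chk (uent L2716 s)) 0 = true := by decide +kernel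
theorem p2716 : PrV chk L2716 := leafV c2716

theorem c2717 : lp7 (fun s => chk (uent L2717 s)) 0 = true := by decide +kernel
theorem p2717 : PrV chk L2717 := leafV c2717

theorem c2718 : lp7 (fun s => chk (uent L2718 s)) 0 = true := by decide +kernel
theorem p2718 : PrV chk L2718 := leafV c2718

theorem c2719 : lp7 (fun s => chk (uent L2719 s)) 0 = true := by decide +kernel
theorem p2719 : PrV chk L2719 := leafV c2719

theorem c2720 : lp7 (fun s => chk (uent L2720 s)) 0 = true := by decide +kernel
theorem p2720 : PrV chk L2720 := leafV c2720

theorem c2721 : lp7 (fun s => chk (uent L2721 s)) 0 = true := by decide +kernel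
theorem p2721 : PrV chk L2721 := leafV c2721

theorem c2722 : lp7 (fun s => chk (uent L2722 s)) 0 = true := by decide +kernel
theorem p2722 : PrV chk L2722 := leafV c2722

theorem c2723 : lp7 (fun s => chk (uent L2723 s)) 0 = true := by decide +kernel
theorem p2723 : PrV chk L2723 := leafV c2723

theorem c2724 : lp7 (fun s => chk (uent L2724 s)) 0 = true := by decide +kernel
theorem p2724 : PrV chk L2724 := leafV c2724

theorem c2725 : lp7 (fun s => chk (uent L2725 s)) 0 = true := by decide +kernel
theorem p2725 : PrV chk L2725 := leafV c2725

theorem c2726 : lp7 (fun s => chk (uent L2726 s)) 0 = true := by decide +kernel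
theorem p2726 : PrV chk L2726 := leafV c2726

theorem c2727 : lp7 (fun s => chk (uent L2727 s)) 0 = true := by decide +kernel
theorem p2727 : PrV chk L2727 := leafV c2727

theorem c2728 : lp7 (fun s => chk (uent L2728 s)) 0 = true := by decide +kernel
theorem p2728 : PrV chk L2728 := leafV c2728

theorem c2729 : lp7 (fun s => chk (uent L2729 s)) 0 = true := by decide +kernel
theorem p2729 : PrV chk L2729 := leafV c2729

theorem c2730 : lp7 (fun s => chk (uent L2730 s)) 0 = true := by decide +kernel
theorem p2730 : PrV chk L2730 := leafV c2730

theorem c2731 : lp7 (fun s => chk (uent L2731 s)) 0 = true := by decide +kernel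
theorem p2731 : PrV chk L2731 := leafV c2731

theorem c2732 : lp7 (fun s => chk (uent L2732 s)) 0 = true := by decide +kernel
theorem p2732 : PrV chk L2732 := leafV c2732

theorem c2733 : lp7 (fun s => chk (uent L2733 s)) 0 = true := by decide +kernel
theorem p2733 : PrV chk L2733 := leafV c2733

theorem c2734 : lp7 (fun s => chk (uent L2734 s)) 0 = true := by decide +kernel
theorem p2734 : PrV chk L2734 := leafV c2734

theorem c2735 : lp7 (fun s => chk (uent L2735 s)) 0 = true := by decide +kernel
theorem p2735 : PrV chk L2735 := leafV c2735

theorem c2736 : lp7 (fun s => chk (uent L2736 s)) 0 = true := by decide +kernel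
theorem p2736 : PrV chk L2736 := leafV c2736

theorem c2737 : lp7 (fun s => chk (uent L2737 s)) 0 = true := by decide +kernel
theorem p2737 : PrV chk L2737 := leafV c2737

theorem c2738 : lp7 (fun s => chk (uent L2738 s)) 0 = true := by decide +kernel
theorem p2738 : PrV chk L2738 := leafV c2738

theorem c2739 : lp7 (fun s => chk (uent L2739 s)) 0 = true := by decide +kernel
theorem p2739 : PrV chk L2739 := leafV c2739

theorem c2740 : lp7 (fun s => chk (uent L2740 s)) 0 = true := by decide +kernel
theorem p2740 : PrV chk L2740 := leafV c2740

theorem c2741 : lp7 (fun s => chk (uent L2741 s)) 0 = true := by decide +kernel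
theorem p2741 : PrV chk L2741 := leafV c2741

theorem c2742 : lp7 (fun s => chk (uent L2742 s)) 0 = true := by decide +kernel
theorem p2742 : PrV chk L2742 := leafV c2742

theorem c2743 : lp7 (fun s => chk (uent L2743 s)) 0 = true := by decide +kernel
theorem p2743 : PrV chk L2743 := leafV c2743

theorem c2744 : lp7 (fun s => chk (uent L2744 s)) 0 = true := by decide +kernel
theorem p2744 : PrV chk L2744 := leafV c2744

theorem c2745 : lp7 (fun s => chk (uent L2745 s)) 0 = true := by decide +kernel
theorem p2745 : PrV chk L2745 := leafV c2745

theorem c2746 : lp7 (fun s => chk (uent L2746 s)) 0 = true := by decide +kernel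
theorem p2746 : PrV chk L2746 := leafV c2746

theorem c2747 : lp7 (fun s => chk (uent L2747 s)) 0 = true := by decide +kernel
theorem p2747 : PrV chk L2747 := leafV c2747

theorem c2748 : lp7 (fun s => chk (uent L2748 s)) 0 = true := by decide +kernel
theorem p2748 : PrV chk L2748 := leafV c2748

theorem c2749 : lp7 (fun s => chk (uent L2749 s)) 0 = true := by decide +kernel
theorem p2749 : PrV chk L2749 := leafV c2749

theorem c2750 : lp7 (fun s => chk (uent L2750 s)) 0 = true := by decide +kernel
theorem p2750 : PrV chk L2750 := leafV c2750

theorem c2751 : lp7 (fun s => chk (uent L2751 s)) 0 = true := by decide +kernel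
theorem p2751 : PrV chk L2751 := leafV c2751

theorem c2752 : lp7 (fun s => chk (uent L2752 s)) 0 = true := by decide +kernel
theorem p2752 : PrV chk L2752 := leafV c2752

theorem c2753 : lp7 (fun s => chk (uent L2753 s)) 0 = true := by decide +kernel
theorem p2753 : PrV chk L2753 := leafV c2753

theorem c2754 : lp7 (fun s => chk (uent L2754 s)) 0 = true := by decide +kernel
theorem p2754 : PrV chk L2754 := leafV c2754

theorem c2755 : lp7 (fun s => chk (uent L2755 s)) 0 = true := by decide +kernel
theorem p2755 : PrV chk L2755 := leafV c2755

theorem c2756 : lp7 (fun s => chk (uent L2756 s)) 0 = true := by decide +kernel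
theorem p2756 : PrV chk L2756 := leafV c2756

theorem c2757 : lp7 (fun s => chk (uent L2757 s)) 0 = true := by decide +kernel
theorem p2757 : PrV chk L2757 := leafV c2757

theorem c2758 : lp7 (fun s => chk (uent L2758 s)) 0 = true := by decide +kernel
theorem p2758 : PrV chk L2758 := leafV c2758

theorem c2759 : lp7 (fun s => chk (uent L2759 s)) 0 = true := by decide +kernel
theorem p2759 : PrV chk L2759 := leafV c2759

theorem c2760 : lp7 (fun s => chk (uent L2760 s)) 0 = true := by decide +kernel
theorem p2760 : PrV chk L2760 := leafV c2760

theorem c2761 : lp7 (fun s => chk (uent L2761 s)) 0 = true := by decide +kernel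
theorem p2761 : PrV chk L2761 := leafV c2761

theorem c2762 : lp7 (fun s => chk (uent L2762 s)) 0 = true := by decide +kernel
theorem p2762 : PrV chk L2762 := leafV c2762

theorem c2763 : lp7 (fun s => chk (uent L2763 s)) 0 = true := by decide +kernel
theorem p2763 : PrV chk L2763 := leafV c2763

theorem c2764 : lp7 (fun s => chk (uent L2764 s)) 0 = true := by decide +kernel
theorem p2764 : PrV chk L2764 := leafV c2764

theorem c2765 : lp7 (fun s => chk (uent L2765 s)) 0 = true := by decide +kernel
theorem p2765 : PrV chk L2765 := leafV c2765

theorem c2766 : lp7 (fun s => chk (uent L2766 s)) 0 = true := by decide +kernel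
theorem p2766 : PrV chk L2766 := leafV c2766

theorem c2767 : lp7 (fun s => chk (uent L2767 s)) 0 = true := by decide +kernel
theorem p2767 : PrV chk L2767 := leafV c2767

theorem c2768 : lp7 (fun s => chk (uent L2768 s)) 0 = true := by decide +kernel
theorem p2768 : PrV chk L2768 := leafV c2768

theorem c2769 : lp7 (fun s => chk (uent L2769 s)) 0 = true := by decide +kernel
theorem p2769 : PrV chk L2769 := leafV c2769

theorem c2770 : lp7 (fun s => chk (uent L2770 s)) 0 = true := by decide +kernel
theorem p2770 : PrV chk L2770 := leafV c2770

theorem c2771 : lp7 (fun s => chk (uent L2771 s)) 0 = true := by decide +kernel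
theorem p2771 : PrV chk L2771 := leafV c2771

theorem c2772 : lp7 (fun s => chk (uent L2772 s)) 0 = true := by decide +kernel
theorem p2772 : PrV chk L2772 := leafV c2772

theorem c2773 : lp7 (fun s => chk (uent L2773 s)) 0 = true := by decide +kernel
theorem p2773 : PrV chk L2773 := leafV c2773

theorem c2774 : lp7 (fun s => chk (uent L2774 s)) 0 = true := by decide +kernel
theorem p2774 : PrV chk L2774 := leafV c2774

theorem c2775 : lp7 (fun s => chk (uent L2775 s)) 0 = true := by decide +kernel
theorem p2775 : PrV chk L2775 := leafV c2775

theorem c2776 : lp7 (fun s => chk (uent L2776 s)) 0 = true := by decide +kernel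
theorem p2776 : PrV chk L2776 := leafV c2776

theorem c2777 : lp7 (fun s => chk (uent L2777 s)) 0 = true := by decide +kernel
theorem p2777 : PrV chk L2777 := leafV c2777

theorem c2778 : lp7 (fun s => chk (uent L2778 s)) 0 = true := by decide +kernel
theorem p2778 : PrV chk L2778 := leafV c2778

theorem c2779 : lp7 (fun s => chk (uent L2779 s)) 0 = true := by decide +kernel
theorem p2779 : PrV chk L2779 := leafV c2779

theorem c2780 : lp7 (fun s => chk (uent L2780 s)) 0 = true := by decide +kernel
theorem p2780 : PrV chk L2780 := leafV c2780

theorem c2781 : lp7 (fun s => chk (uent L2781 s)) 0 = true := by decide +kernel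
theorem p2781 : PrV chk L2781 := leafV c2781

theorem c2782 : lp7 (fun s => chk (uent L2782 s)) 0 = true := by decide +kernel
theorem p2782 : PrV chk L2782 := leafV c2782

theorem c2783 : lp7 (fun s => chk (uent L2783 s)) 0 = true := by decide +kernel
theorem p2783 : PrV chk L2783 := leafV c2783

theorem c2784 : lp7 (fun s => chk (uent L2784 s)) 0 = true := by decide +kernel
theorem p2784 : PrV chk L2784 := leafV c2784

theorem c2785 : lp7 (fun s => chk (uent L2785 s)) 0 = true := by decide +kernel
theorem p2785 : PrV chk L2785 := leafV c2785

theorem c2786 : lp7 (fun s => chk (uent L2786 s)) 0 = true := by decide +kernel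
theorem p2786 : PrV chk L2786 := leafV c2786

theorem c2787 : lp7 (fun s => chk (uent L2787 s)) 0 = true := by decide +kernel
theorem p2787 : PrV chk L2787 := leafV c2787

theorem c2788 : lp7 (fun s => chk (uent L2788 s)) 0 = true := by decide +kernel
theorem p2788 : PrV chk L2788 := leafV c2788

theorem c2789 : lp7 (fun s => chk (uent L2789 s)) 0 = true := by decide +kernel
theorem p2789 : PrV chk L2789 := leafV c2789

theorem c2790 : lp7 (fun s => chk (uent L2790 s)) 0 = true := by decide +kernel
theorem p2790 : PrV chk L2790 := leafV c2790

theorem c2791 : lp7 (fun s => chk (uent L2791 s)) 0 = true := by decide +kernel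
theorem p2791 : PrV chk L2791 := leafV c2791

theorem c2792 : lp7 (fun s => chk (uent L2792 s)) 0 = true := by decide +kernel
theorem p2792 : PrV chk L2792 := leafV c2792

theorem c2793 : lp7 (fun s => chk (uent L2793 s)) 0 = true := by decide +kernel
theorem p2793 : PrV chk L2793 := leafV c2793

theorem c2794 : lp7 (fun s => chk (uent L2794 s)) 0 = true := by decide +kernel
theorem p2794 : PrV chk L2794 := leafV c2794

theorem c2795 : lp7 (fun s => chk (uent L2795 s)) 0 = true := by decide +kernel
theorem p2795 : PrV chk L2795 := leafV c2795

theorem c2796 : lp7 (fun s => chk (uent L2796 s)) 0 = true := by decide +kernel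
theorem p2796 : PrV chk L2796 := leafV c2796

theorem c2797 : lp7 (fun s => chk (uent L2797 s)) 0 = true := by decide +kernel
theorem p2797 : PrV chk L2797 := leafV c2797

theorem c2798 : lp7 (fun s => chk (uent L2798 s)) 0 = true := by decide +kernel
theorem p2798 : PrV chk L2798 := leafV c2798

theorem c2799 : lp7 (fun s => chk (uent L2799 s)) 0 = true := by decide +kernel
theorem p2799 : PrV chk L2799 := leafV c2799

theorem c2800 : lp7 (fun s => chk (uent L2800 s)) 0 = true := by decide +kernel
theorem p2800 : PrV chk L2800 := leafV c2800

theorem c2801 : lp7 (fun s => chk (uent L2801 s)) 0 = true := by decide +kernel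
theorem p2801 : PrV chk L2801 := leafV c2801

theorem c2802 : lp7 (fun s => chk (uent L2802 s)) 0 = true := by decide +kernel
theorem p2802 : PrV chk L2802 := leafV c2802

theorem c2803 : lp7 (fun s => chk (uent L2803 s)) 0 = true := by decide +kernel
theorem p2803 : PrV chk L2803 := leafV c2803

theorem c2804 : lp7 (fun s => chk (uent L2804 s)) 0 = true := by decide +kernel
theorem p2804 : PrV chk L2804 := leafV c2804

theorem c2805 : lp7 (fun s => chk (uent L2805 s)) 0 = true := by decide +kernel
theorem p2805 : PrV chk L2805 := leafV c2805

theorem c2806 : lp7 (fun s => chk (uent L2806 s)) 0 = true := by decide +kernel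
theorem p2806 : PrV chk L2806 := leafV c2806

theorem c2807 : lp7 (fun s => chk (uent L2807 s)) 0 = true := by decide +kernel
theorem p2807 : PrV chk L2807 := leafV c2807

theorem c2808 : lp7 (fun s => chk (uent L2808 s)) 0 = true := by decide +kernel
theorem p2808 : PrV chk L2808 := leafV c2808

theorem c2809 : lp7 (fun s => chk (uent L2809 s)) 0 = true := by decide +kernel
theorem p2809 : PrV chk L2809 := leafV c2809

theorem c2810 : lp7 (fun s => chk (uent L2810 s)) 0 = true := by decide +kernel
theorem p2810 : PrV chk L2810 := leafV c2810

theorem c2811 : lp7 (fun s => chk (uent L2811 s)) 0 = true := by decide +kernel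
theorem p2811 : PrV chk L2811 := leafV c2811

theorem c2812 : lp7 (fun s => chk (uent L2812 s)) 0 = true := by decide +kernel
theorem p2812 : PrV chk L2812 := leafV c2812

theorem c2813 : lp7 (fun s => chk (uent L2813 s)) 0 = true := by decide +kernel
theorem p2813 : PrV chk L2813 := leafV c2813

theorem c2814 : lp7 (fun s => chk (uent L2814 s)) 0 = true := by decide +kernel
theorem p2814 : PrV chk L2814 := leafV c2814

theorem c2815 : lp7 (fun s => chk (uent L2815 s)) 0 = true := by decide +kernel
theorem p2815 : PrV chk L2815 := leafV c2815

theorem c2816 : lp7 (fun s => chk (uent L2816 s)) 0 = true := by decide +kernel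
theorem p2816 : PrV chk L2816 := leafV c2816

theorem c2817 : lp7 (fun s => chk (uent L2817 s)) 0 = true := by decide +kernel
theorem p2817 : PrV chk L2817 := leafV c2817

theorem c2818 : lp7 (fun s => chk (uent L2818 s)) 0 = true := by decide +kernel
theorem p2818 : PrV chk L2818 := leafV c2818

theorem c2819 : lp7 (fun s => chk (uent L2819 s)) 0 = true := by decide +kernel
theorem p2819 : PrV chk L2819 := leafV c2819

theorem c2820 : lp7 (fun s => chk (uent L2820 s)) 0 = true := by decide +kernel
theorem p2820 : PrV chk L2820 := leafV c2820

theorem c2821 : lp7 (fun s => chk (uent L2821 s)) 0 = true := by decide +kernel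
theorem p2821 : PrV chk L2821 := leafV c2821

theorem c2822 : lp7 (fun s => chk (uent L2822 s)) 0 = true := by decide +kernel
theorem p2822 : PrV chk L2822 := leafV c2822

theorem c2823 : lp7 (fun s => chk (uent L2823 s)) 0 = true := by decide +kernel
theorem p2823 : PrV chk L2823 := leafV c2823

theorem c2824 : lp7 (fun s => chk (uent L2824 s)) 0 = true := by decide +kernel
theorem p2824 : PrV chk L2824 := leafV c2824

theorem c2825 : lp7 (fun s => chk (uent L2825 s)) 0 = true := by decide +kernel
theorem p2825 : PrV chk L2825 := leafV c2825

theorem c2826 : lp7 (fun s => chk (uent L2826 s)) 0 = true := by decide +kernel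
theorem p2826 : PrV chk L2826 := leafV c2826

theorem c2827 : lp7 (fun s => chk (uent L2827 s)) 0 = true := by decide +kernel
theorem p2827 : PrV chk L2827 := leafV c2827

theorem c2828 : lp7 (fun s => chk (uent L2828 s)) 0 = true := by decide +kernel
theorem p2828 : PrV chk L2828 := leafV c2828

theorem c2829 : lp7 (fun s => chk (uent L2829 s)) 0 = true := by decide +kernel
theorem p2829 : PrV chk L2829 := leafV c2829

theorem c2830 : lp7 (fun s => chk (uent L2830 s)) 0 = true := by decide +kernel
theorem p2830 : PrV chk L2830 := leafV c2830

theorem c2831 : lp7 (fun s => chk (uent L2831 s)) 0 = true := by decide +kernel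
theorem p2831 : PrV chk L2831 := leafV c2831

theorem c2832 : lp7 (fun s => chk (uent L2832 s)) 0 = true := by decide +kernel
theorem p2832 : PrV chk L2832 := leafV c2832

theorem c2833 : lp7 (fun s => chk (uent L2833 s)) 0 = true := by decide +kernel
theorem p2833 : PrV chk L2833 := leafV c2833

theorem c2834 : lp7 (fun s => chk (uent L2834 s)) 0 = true := by decide +kernel
theorem p2834 : PrV chk L2834 := leafV c2834

theorem c2835 : lp7 (fun s => chk (uent L2835 s)) 0 = true := by decide +kernel
theorem p2835 : PrV chk L2835 := leafV c2835

theorem c2836 : lp7 (fun s => chk (uent L2836 s)) 0 = true := by decide +kernel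
theorem p2836 : PrV chk L2836 := leafV c2836

theorem c2837 : lp7 (fun s => chk (uent L2837 s)) 0 = true := by decide +kernel
theorem p2837 : PrV chk L2837 := leafV c2837

theorem c2838 : lp7 (fun s => chk (uent L2838 s)) 0 = true := by decide +kernel
theorem p2838 : PrV chk L2838 := leafV c2838

theorem c2839 : lp7 (fun s => chk (uent L2839 s)) 0 = true := by decide +kernel
theorem p2839 : PrV chk L2839 := leafV c2839

theorem c2840 : lp7 (fun s => chk (uent L2840 s)) 0 = true := by decide +kernel
theorem p2840 : PrV chk L2840 := leafV c2840

theorem c2841 : lp7 (fun s => chk (uent L2841 s)) 0 = true := by decide +kernel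
theorem p2841 : PrV chk L2841 := leafV c2841

theorem c2842 : lp7 (fun s => chk (uent L2842 s)) 0 = true := by decide +kernel
theorem p2842 : PrV chk L2842 := leafV c2842

theorem c2843 : lp7 (fun s => chk (uent L2843 s)) 0 = true := by decide +kernel
theorem p2843 : PrV chk L2843 := leafV c2843

theorem c2844 : lp7 (fun s => chk (uent L2844 s)) 0 = true := by decide +kernel
theorem p2844 : PrV chk L2844 := leafV c2844

theorem c2845 : lp7 (fun s => chk (uent L2845 s)) 0 = true := by decide +kernel
theorem p2845 : PrV chk L2845 := leafV c2845

theorem c2846 : lp7 (fun s => chk (uent L2846 s)) 0 = true := by decide +kernel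
theorem p2846 : PrV chk L2846 := leafV c2846

theorem c2847 : lp7 (fun s => chk (uent L2847 s)) 0 = true := by decide +kernel
theorem p2847 : PrV chk L2847 := leafV c2847

theorem c2848 : lp7 (fun s => chk (uent L2848 s)) 0 = true := by decide +kernel
theorem p2848 : PrV chk L2848 := leafV c2848

theorem c2849 : lp7 (fun s => chk (uent L2849 s)) 0 = true := by decide +kernel
theorem p2849 : PrV chk L2849 := leafV c2849

theorem c2850 : lp7 (fun s => chk (uent L2850 s)) 0 = true := by decide +kernel
theorem p2850 : PrV chk L2850 := leafV c2850

theorem c2851 : lp7 (fun s => chk (uent L2851 s)) 0 = true := by decide +kernel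
theorem p2851 : PrV chk L2851 := leafV c2851

theorem c2852 : lp7 (fun s => chk (uent L2852 s)) 0 = true := by decide +kernel
theorem p2852 : PrV chk L2852 := leafV c2852

theorem c2853 : lp7 (fun s => chk (uent L2853 s)) 0 = true := by decide +kernel
theorem p2853 : PrV chk L2853 := leafV c2853

theorem c2854 : lp7 (fun s => chk (uent L2854 s)) 0 = true := by decide +kernel
theorem p2854 : PrV chk L2854 := leafV c2854

theorem c2855 : lp7 (fun s => chk (uent L2855 s)) 0 = true := by decide +kernel
theorem p2855 : PrV chk L2855 := leafV c2855

theorem c2856 : lp7 (fun s => chk (uent L2856 s)) 0 = true := by decide +kernel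
theorem p2856 : PrV chk L2856 := leafV c2856

theorem c2857 : lp7 (fun s => chk (uent L2857 s)) 0 = true := by decide +kernel
theorem p2857 : PrV chk L2857 := leafV c2857

theorem c2858 : lp7 (fun s => chk (uent L2858 s)) 0 = true := by decide +kernel
theorem p2858 : PrV chk L2858 := leafV c2858

theorem c2859 : lp7 (fun s => chk (uent L2859 s)) 0 = true := by decide +kernel
theorem p2859 : PrV chk L2859 := leafV c2859

theorem c2860 : lp7 (fun s => chk (uent L2860 s)) 0 = true := by decide +kernel
theorem p2860 : PrV chk L2860 := leafV c2860

theorem c2861 : lp7 (fun s => chk (uent L2861 s)) 0 = true := by decide +kernel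
theorem p2861 : PrV chk L2861 := leafV c2861

theorem c2862 : lp7 (fun s => chk (uent L2862 s)) 0 = true := by decide +kernel
theorem p2862 : PrV chk L2862 := leafV c2862

theorem c2863 : lp7 (fun s => chk (uent L2863 s)) 0 = true := by decide +kernel
theorem p2863 : PrV chk L2863 := leafV c2863

theorem c2864 : lp7 (fun s => chk (uent L2864 s)) 0 = true := by decide +kernel
theorem p2864 : PrV chk L2864 := leafV c2864

theorem c2865 : lp7 (fun s => chk (uent L2865 s)) 0 = true := by decide +kernel
theorem p2865 : PrV chk L2865 := leafV c2865

theorem c2866 : lp7 (fun s => chk (uent L2866 s)) 0 = true := by decide +kernel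
theorem p2866 : PrV chk L2866 := leafV c2866

theorem c2867 : lp7 (fun s => chk (uent L2867 s)) 0 = true := by decide +kernel
theorem p2867 : PrV chk L2867 := leafV c2867

theorem c2868 : lp7 (fun s => chk (uent L2868 s)) 0 = true := by decide +kernel
theorem p2868 : PrV chk L2868 := leafV c2868

theorem c2869 : lp7 (fun s => chk (uent L2869 s)) 0 = true := by decide +kernel
theorem p2869 : PrV chk L2869 := leafV c2869

theorem c2870 : lp7 (fun s => chk (uent L2870 s)) 0 = true := by decide +kernel
theorem p2870 : PrV chk L2870 := leafV c2870

theorem c2871 : lp7 (fun s => chk (uent L2871 s)) 0 = true := by decide +kernel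
theorem p2871 : PrV chk L2871 := leafV c2871

theorem c2872 : lp7 (fun s => chk (uent L2872 s)) 0 = true := by decide +kernel
theorem p2872 : PrV chk L2872 := leafV c2872

theorem c2873 : lp7 (fun s => chk (uent L2873 s)) 0 = true := by decide +kernel
theorem p2873 : PrV chk L2873 := leafV c2873

theorem c2874 : lp7 (fun s => chk (uent L2874 s)) 0 = true := by decide +kernel
theorem p2874 : PrV chk L2874 := leafV c2874

theorem c2875 : lp7 (fun s => chk (uent L2875 s)) 0 = true := by decide +kernel
theorem p2875 : PrV chk L2875 := leafV c2875

theorem c2876 : lp7 (fun s => chk (uent L2876 s)) 0 = true := by decide +kernel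
theorem p2876 : PrV chk L2876 := leafV c2876

theorem c2877 : lp7 (fun s => chk (uent L2877 s)) 0 = true := by decide +kernel
theorem p2877 : PrV chk L2877 := leafV c2877

theorem c2878 : lp7 (fun s => chk (uent L2878 s)) 0 = true := by decide +kernel
theorem p2878 : PrV chk L2878 := leafV c2878

theorem c2879 : lp7 (fun s => chk (uent L2879 s)) 0 = true := by decide +kernel
theorem p2879 : PrV chk L2879 := leafV c2879

end Pool.Agent.ad013a.W
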