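import Pool.Agent.H.MP_ad013a_pr.h63w.A.T
import Pool.Agent.H.MP_ad013a_pr.h63w.VLoop

namespace Pool.Agent.ad013a.W

theorem c2880 : lp7 (fun s => chk (uent L2880 s)) 0 = true := by decide +kernel
theorem p2880 : PrV chk L2880 := leafV c2880

theorem c2881 : lp7 (fun s => chk (uent L2881 s)) 0 = true := by decide +kernel
theorem p2881 : PrV chk L2881 := leafV c2881

theorem c2882 : lp7 (fun s => chk (uent L2882 s)) 0 = true := by decide +kernel
theorem p2882 : PrV chk L2882 := leafV c2882

theorem c2883 : lp7 (fun s => chk (uent L2883 s)) 0 = true := by decide +kernel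
theorem p2883 : PrV chk L2883 := leafV c2883

theorem c2884 : lp7 (fun s => chk (uent L2884 s)) 0 = true := by decide +kernel
theorem p2884 : PrV chk L2884 := leafV c2884

theorem c2885 : lp7 (fun s => chk (uent L2885 s)) 0 = true := by decide +kernel
theorem p2885 : PrV chk L2885 := leafV c2885

theorem c2886 : lp7 (fun s => chk (uent L2886 s)) 0 = true := by decide +kernel
theorem p2886 : PrV chk L2886 := leafV c2886

theorem c2887 : lp7 (fun s => chk (uent L2887 s)) 0 = true := by decide +kernel
theorem p2887 : PrV chk L2887 := leafV c2887

theorem c2888 : lp7 (fun s => chk (uent L2888 s)) 0 = true := by decide +kernel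
theorem p2888 : PrV chk L2888 := leafV c2888

theorem c2889 : lp7 (fun s => chk (uent L2889 s)) 0 = true := by decide +kernel
theorem p2889 : PrV chk L2889 := leafV c2889

theorem c2890 : lp7 (fun s => chk (uent L2890 s)) 0 = true := by decide +kernel
theorem p2890 : PrV chk L2890 := leafV c2890

theorem c2891 : lp7 (fun s => chk (uent L2891 s)) 0 = true := by decide +kernel
theorem p2891 : PrV chk L2891 := leafV c2891

theorem c2892 : lp7 (fun s => chk (uent L2892 s)) 0 = true := by decide +kernel
theorem p2892 : PrV chk L2892 := leafV c2892

theorem c2893 : lp7 (fun s => chk (uent L2893 s)) 0 = true := by decide +kernel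
theorem p2893 : PrV chk L2893 := leafV c2893

theorem c2894 : lp7 (fun s => chk (uent L2894 s)) 0 = true := by decide +kernel
theorem p2894 : PrV chk L2894 := leafV c2894

theorem c2895 : lp7 (fun s => chk (uent L2895 s)) 0 = true := by decide +kernel
theorem p2895 : PrV chk L2895 := leafV c2895

theorem c2896 : lp7 (fun s => chk (uent L2896 s)) 0 = true := by decide +kernel
theorem p2896 : PrV chk L2896 := leafV c2896

theorem c2897 : lp7 (fun s => chk (uent L2897 s)) 0 = true := by decide +kernel
theorem p2897 : PrV chk L2897 := leafV c2897

theorem c2898 : lp7 (fun s => chk (uent L2898 s)) 0 = true := by decide +kernel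
theorem p2898 : PrV chk L2898 := leafV c2898

theorem c2899 : lp7 (fun s => chk (uent L2899 s)) 0 = true := by decide +kernel
theorem p2899 : PrV chk L2899 := leafV c2899

theorem c2900 : lp7 (fun s => chk (uent L2900 s)) 0 = true := by decide +kernel
theorem p2900 : PrV chk L2900 := leafV c2900

theorem c2901 : lp7 (fun s => chk (uent L2901 s)) 0 = true := by decide +kernel
theorem p2901 : PrV chk L2901 := leafV c2901

theorem c2902 : lp7 (fun s => chk (uent L2902 s)) 0 = true := by decide +kernel
theorem p2902 : PrV chk L2902 := leafV c2902

theorem c2903 : lp7 (fun s => chk (uent L2903 s)) 0 = true := by decide +kernel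
theorem p2903 : PrV chk L2903 := leafV c2903

theorem c2904 : lp7 (fun s => chk (uent L2904 s)) 0 = true := by decide +kernel
theorem p2904 : PrV chk L2904 := leafV c2904

theorem c2905 : lp7 (fun s => chk (uent L2905 s)) 0 = true := by decide +kernel
theorem p2905 : PrV chk L2905 := leafV c2905

theorem c2906 : lp7 (fun s => chk (uent L2906 s)) 0 = true := by decide +kernel
theorem p2906 : PrV chk L2906 := leafV c2906

theorem c2907 : lp7 (fun s => chk (uent L2907 s)) 0 = true := by decide +kernel
theorem p2907 : PrV chk L2907 := leafV c2907

theorem c2908 : lp7 (fun s => chk (uent L2908 s)) 0 = true := by decide +kernel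
theorem p2908 : PrV chk L2908 := leafV c2908

theorem c2909 : lp7 (fun s => chk (uent L2909 s)) 0 = true := by decide +kernel
theorem p2909 : PrV chk L2909 := leafV c2909

theorem c2910 : lp7 (fun s => chk (uent L2910 s)) 0 = true := by decide +kernel
theorem p2910 : PrV chk L2910 := leafV c2910

theorem c2911 : lp7 (fun s => chk (uent L2911 s)) 0 = true := by decide +kernel
theorem p2911 : PrV chk L2911 := leafV c2911

theorem c2912 : lp7 (fun s => chk (uent L2912 s)) 0 = true := by decide +kernel
theorem p2912 : PrV chk L2912 := leafV c2912

theorem c2913 : lp7 (fun s => chk (uent L2913 s)) 0 = true := by decide +kernel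
theorem p2913 : PrV chk L2913 := leafV c2913

theorem c2914 : lp7 (fun s => chk (uent L2914 s)) 0 = true := by decide +kernel
theorem p2914 : PrV chk L2914 := leafV c2914

theorem c2915 : lp7 (fun s => chk (uent L2915 s)) 0 = true := by decide +kernel
theorem p2915 : PrV chk L2915 := leafV c2915

theorem c2916 : lp7 (fun s => chk (uent L2916 s)) 0 = true := by decide +kernel
theorem p2916 : PrV chk L2916 := leafV c2916

theorem c2917 : lp7 (fun s => chk (uent L2917 s)) 0 = true := by decide +kernel
theorem p2917 : PrV chk L2917 := leafV c2917

theorem c2918 : lp7 (fun s => chk (uent L2918 s)) 0 = true := by decide +kernel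
theorem p2918 : PrV chk L2918 := leafV c2918

theorem c2919 : lp7 (fun s => chk (uent L2919 s)) 0 = true := by decide +kernel
theorem p2919 : PrV chk L2919 := leafV c2919

theorem c2920 : lp7 (fun s => chk (uent L2920 s)) 0 = true := by decide +kernel
theorem p2920 : PrV chk L2920 := leafV c2920

theorem c2921 : lp7 (fun s => chk (uent L2921 s)) 0 = true := by decide +kernel
theorem p2921 : PrV chk L2921 := leafV c2921

theorem c2922 : lp7 (fun s => chk (uent L2922 s)) 0 = true := by decide +kernel
theorem p2922 : PrV chk L2922 := leafV c2922

theorem c2923 : lp7 (fun s => chk (uent L2923 s)) 0 = true := by decide +kernel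
theorem p2923 : PrV chk L2923 := leafV c2923

theorem c2924 : lp7 (fun s => chk (uent L2924 s)) 0 = true := by decide +kernel
theorem p2924 : PrV chk L2924 := leafV c2924

theorem c2925 : lp7 (fun s => chk (uent L2925 s)) 0 = true := by decide +kernel
theorem p2925 : PrV chk L2925 := leafV c2925

theorem c2926 : lp7 (fun s => chk (uent L2926 s)) 0 = true := by decide +kernel
theorem p2926 : PrV chk L2926 := leafV c2926

theorem c2927 : lp7 (fun s => chk (uent L2927 s)) 0 = true := by decide +kernel
theorem p2927 : PrV chk L2927 := leafV c2927

theorem c2928 : lp7 (fun s => chk (uent L2928 s)) 0 = true := by decide +kernel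
theorem p2928 : PrV chk L2928 := leafV c2928

theorem c2929 : lp7 (fun s => chk (uent L2929 s)) 0 = true := by decide +kernel
theorem p2929 : PrV chk L2929 := leafV c2929

theorem c2930 : lp7 (fun s => chk (uent L2930 s)) 0 = true := by decide +kernel
theorem p2930 : PrV chk L2930 := leafV c2930

theorem c2931 : lp7 (fun s => chk (uent L2931 s)) 0 = true := by decide +kernel
theorem p2931 : PrV chk L2931 := leafV c2931

theorem c2932 : lp7 (fun s => chk (uent L2932 s)) 0 = true := by decide +kernel
theorem p2932 : PrV chk L2932 := leafV c2932

theorem c2933 : lp7 (fun s => chk (uent L2933 s)) 0 = true := by decide +kernel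
theorem p2933 : PrV chk L2933 := leafV c2933

theorem c2934 : lp7 (fun s => chk (uent L2934 s)) 0 = true := by decide +kernel
theorem p2934 : PrV chk L2934 := leafV c2934

theorem c2935 : lp7 (fun s => chk (uent L2935 s)) 0 = true := by decide +kernel
theorem p2935 : PrV chk L2935 := leafV c2935

theorem c2936 : lp7 (fun s => chk (uent L2936 s)) 0 = true := by decide +kernel
theorem p2936 : PrV chk L2936 := leafV c2936

theorem c2937 : lp7 (fun s => chk (uent L2937 s)) 0 = true := by decide +kernel
theorem p2937 : PrV chk L2937 := leafV c2937

theorem c2938 : lp7 (fun s => chk (uent L2938 s)) 0 = true := by decide +kernel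
theorem p2938 : PrV chk L2938 := leafV c2938

theorem c2939 : lp7 (fun s => chk (uent L2939 s)) 0 = true := by decide +kernel
theorem p2939 : PrV chk L2939 := leafV c2939

theorem c2940 : lp7 (fun s => chk (uent L2940 s)) 0 = true := by decide +kernel
theorem p2940 : PrV chk L2940 := leafV c2940

theorem c2941 : lp7 (fun s => chk (uent L2941 s)) 0 = true := by decide +kernel
theorem p2941 : PrV chk L2941 := leafV c2941

theorem c2942 : lp7 (fun s => chk (uent L2942 s)) 0 = true := by decide +kernel
theorem p2942 : PrV chk L2942 := leafV c2942

theorem c2943 : lp7 (fun s => chk (uent L2943 s)) 0 = true := by decide +kernel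
theorem p2943 : PrV chk L2943 := leafV c2943

theorem c2944 : lp7 (fun s => chk (uent L2944 s)) 0 = true := by decide +kernel
theorem p2944 : PrV chk L2944 := leafV c2944

theorem c2945 : lp7 (fun s => chk (uent L2945 s)) 0 = true := by decide +kernel
theorem p2945 : PrV chk L2945 := leafV c2945

theorem c2946 : lp7 (fun s => chk (uent L2946 s)) 0 = true := by decide +kernel
theorem p2946 : PrV chk L2946 := leafV c2946

theorem c2947 : lp7 (fun s => chk (uent L2947 s)) 0 = true := by decide +kernel
theorem p2947 : PrV chk L2947 := leafV c2947

theorem c2948 : lp7 (fun s => chk (uent L2948 s)) 0 = true := by decide +kernel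
theorem p2948 : PrV chk L2948 := leafV c2948

theorem c2949 : lp7 (fun s => chk (uent L2949 s)) 0 = true := by decide +kernel
theorem p2949 : PrV chk L2949 := leafV c2949

theorem c2950 : lp7 (fun s => chk (uent L2950 s)) 0 = true := by decide +kernel
theorem p2950 : PrV chk L2950 := leafV c2950

theorem c2951 : lp7 (fun s => chk (uent L2951 s)) 0 = true := by decide +kernel
theorem p2951 : PrV chk L2951 := leafV c2951

theorem c2952 : lp7 (fun s => chk (uent L2952 s)) 0 = true := by decide +kernel
theorem p2952 : PrV chk L2952 := leafV c2952

theorem c2953 : lp7 (fun s => chk (uent L2953 s)) 0 = true := by decide +kernel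
theorem p2953 : PrV chk L2953 := leafV c2953

theorem c2954 : lp7 (fun s => chk (uent L2954 s)) 0 = true := by decide +kernel
theorem p2954 : PrV chk L2954 := leafV c2954

theorem c2955 : lp7 (fun s => chk (uent L2955 s)) 0 = true := by decide +kernel
theorem p2955 : PrV chk L2955 := leafV c2955

theorem c2956 : lp7 (fun s => chk (uent L2956 s)) 0 = true := by decide +kernel
theorem p2956 : PrV chk L2956 := leafV c2956

theorem c2957 : lp7 (fun s => chk (uent L2957 s)) 0 = true := by decide +kernel
theorem p2957 : PrV chk L2957 := leafV c2957

theorem c2958 : lp7 (fun s => chk (uent L2958 s)) 0 = true := by decide +kernel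
theorem p2958 : PrV chk L2958 := leafV c2958

theorem c2959 : lp7 (fun s => chk (uent L2959 s)) 0 = true := by decide +kernel
theorem p2959 : PrV chk L2959 := leafV c2959

theorem c2960 : lp7 (fun s => chk (uent L2960 s)) 0 = true := by decide +kernel
theorem p2960 : PrV chk L2960 := leafV c2960

theorem c2961 : lp7 (fun s => chk (uent L2961 s)) 0 = true := by decide +kernel
theorem p2961 : PrV chk L2961 := leafV c2961

theorem c2962 : lp7 (fun s => chk (uent L2962 s)) 0 = true := by decide +kernel
theorem p2962 : PrV chk L2962 := leafV c2962

theorem c2963 : lp7 (fun s => chk (uent L2963 s)) 0 = true := by decide +kernel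
theorem p2963 : PrV chk L2963 := leafV c2963

theorem c2964 : lp7 (fun s => chk (uent L2964 s)) 0 = true := by decide +kernel
theorem p2964 : PrV chk L2964 := leafV c2964

theorem c2965 : lp7 (fun s => chk (uent L2965 s)) 0 = true := by decide +kernel
theorem p2965 : PrV chk L2965 := leafV c2965

theorem c2966 : lp7 (fun s => chk (uent L2966 s)) 0 = true := by decide +kernel
theorem p2966 : PrV chk L2966 := leafV c2966

theorem c2967 : lp7 (fun s => chk (uent L2967 s)) 0 = true := by decide +kernel
theorem p2967 : PrV chk L2967 := leafV c2967

theorem c2968 : lp7 (fun s => chk (uent L2968 s)) 0 = true := by decide +kernel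
theorem p2968 : PrV chk L2968 := leafV c2968

theorem c2969 : lp7 (fun s => chk (uent L2969 s)) 0 = true := by decide +kernel
theorem p2969 : PrV chk L2969 := leafV c2969

theorem c2970 : lp7 (fun s => chk (uent L2970 s)) 0 = true := by decide +kernel
theorem p2970 : PrV chk L2970 := leafV c2970

theorem c2971 : lp7 (fun s => chk (uent L2971 s)) 0 = true := by decide +kernel
theorem p2971 : PrV chk L2971 := leafV c2971

theorem c2972 : lp7 (fun s => chk (uent L2972 s)) 0 = true := by decide +kernel
theorem p2972 : PrV chk L2972 := leafV c2972

theorem c2973 : lp7 (fun s => chk (uent L2973 s)) 0 = true := by decide +kernel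
theorem p2973 : PrV chk L2973 := leafV c2973

theorem c2974 : lp7 (fun s => chk (uent L2974 s)) 0 = true := by decide +kernel
theorem p2974 : PrV chk L2974 := leafV c2974

theorem c2975 : lp7 (fun s => chk (uent L2975 s)) 0 = true := by decide +kernel
theorem p2975 : PrV chk L2975 := leafV c2975

theorem c2976 : lp7 (fun s => chk (uent L2976 s)) 0 = true := by decide +kernel
theorem p2976 : PrV chk L2976 := leafV c2976

theorem c2977 : lp7 (fun s => chk (uent L2977 s)) 0 = true := by decide +kernel
theorem p2977 : PrV chk L2977 := leafV c2977

theorem c2978 : lp7 (fun s => chk (uent L2978 s)) 0 = true := by decide +kernel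
theorem p2978 : PrV chk L2978 := leafV c2978

theorem c2979 : lp7 (fun s => chk (uent L2979 s)) 0 = true := by decide +kernel
theorem p2979 : PrV chk L2979 := leafV c2979

theorem c2980 : lp7 (fun s => chk (uent L2980 s)) 0 = true := by decide +kernel
theorem p2980 : PrV chk L2980 := leafV c2980

theorem c2981 : lp7 (fun s => chk (uent L2981 s)) 0 = true := by decide +kernel
theorem p2981 : PrV chk L2981 := leafV c2981

theorem c2982 : lp7 (fun s => chk (uent L2982 s)) 0 = true := by decide +kernel
theorem p2982 : PrV chk L2982 := leafV c2982

theorem c2983 : lp7 (fun s => chk (uent L2983 s)) 0 = true := by decide +kernel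
theorem p2983 : PrV chk L2983 := leafV c2983

theorem c2984 : lp7 (fun s => chk (uent L2984 s)) 0 = true := by decide +kernel
theorem p2984 : PrV chk L2984 := leafV c2984

theorem c2985 : lp7 (fun s => chk (uent L2985 s)) 0 = true := by decide +kernel
theorem p2985 : PrV chk L2985 := leafV c2985

theorem c2986 : lp7 (fun s => chk (uent L2986 s)) 0 = true := by decide +kernel
theorem p2986 : PrV chk L2986 := leafV c2986

theorem c2987 : lp7 (fun s => chk (uent L2987 s)) 0 = true := by decide +kernel
theorem p2987 : PrV chk L2987 := leafV c2987

theorem c2988 : lp7 (fun s => chk (uent L2988 s)) 0 = true := by decide +kernel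
theorem p2988 : PrV chk L2988 := leafV c2988

theorem c2989 : lp7 (fun s => chk (uent L2989 s)) 0 = true := by decide +kernel
theorem p2989 : PrV chk L2989 := leafV c2989

theorem c2990 : lp7 (fun s => chk (uent L2990 s)) 0 = true := by decide +kernel
theorem p2990 : PrV chk L2990 := leafV c2990

theorem c2991 : lp7 (fun s => chk (uent L2991 s)) 0 = true := by decide +kernel
theorem p2991 : PrV chk L2991 := leafV c2991

theorem c2992 : lp7 (fun s => chk (uent L2992 s)) 0 = true := by decide +kernel
theorem p2992 : PrV chk L2992 := leafV c2992

theorem c2993 : lp7 (fun s => chk (uent L2993 s)) 0 = true := by decide +kernel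
theorem p2993 : PrV chk L2993 := leafV c2993

theorem c2994 : lp7 (fun s => chk (uent L2994 s)) 0 = true := by decide +kernel
theorem p2994 : PrV chk L2994 := leafV c2994

theorem c2995 : lp7 (fun s => chk (uent L2995 s)) 0 = true := by decide +kernel
theorem p2995 : PrV chk L2995 := leafV c2995

theorem c2996 : lp7 (fun s => chk (uent L2996 s)) 0 = true := by decide +kernel
theorem p2996 : PrV chk L2996 := leafV c2996

theorem c2997 : lp7 (fun s => chk (uent L2997 s)) 0 = true := by decide +kernel
theorem p2997 : PrV chk L2997 := leafV c2997

theorem c2998 : lp7 (fun s => chk (uent L2998 s)) 0 = true := by decide +kernel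
theorem p2998 : PrV chk L2998 := leafV c2998

theorem c2999 : lp7 (fun s => chk (uent L2999 s)) 0 = true := by decide +kernel
theorem p2999 : PrV chk L2999 := leafV c2999

theorem c3000 : lp7 (fun s => chk (uent L3000 s)) 0 = true := by decide +kernel
theorem p3000 : PrV chk L3000 := leafV c3000

theorem c3001 : lp7 (fun s => chk (uent L3001 s)) 0 = true := by decide +kernel
theorem p3001 : PrV chk L3001 := leafV c3001

theorem c3002 : lp7 (fun s => chk (uent L3002 s)) 0 = true := by decide +kernel
theorem p3002 : PrV chk L3002 := leafV c3002

theorem c3003 : lp7 (fun s => chk (uent L3003 s)) 0 = true := by decide +kernel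
theorem p3003 : PrV chk L3003 := leafV c3003

theorem c3004 : lp7 (fun s => chk (uent L3004 s)) 0 = true := by decide +kernel
theorem p3004 : PrV chk L3004 := leafV c3004

theorem c3005 : lp7 (fun s => chk (uent L3005 s)) 0 = true := by decide +kernel
theorem p3005 : PrV chk L3005 := leafV c3005

theorem c3006 : lp7 (fun s => chk (uent L3006 s)) 0 = true := by decide +kernel
theorem p3006 : PrV chk L3006 := leafV c3006

theorem c3007 : lp7 (fun s => chk (uent L3007 s)) 0 = true := by decide +kernel
theorem p3007 : PrV chk L3007 := leafV c3007

theorem c3008 : lp7 (fun s => chk (uent L3008 s)) 0 = true := by decide +kernel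
theorem p3008 : PrV chk L3008 := leafV c3008

theorem c3009 : lp7 (fun s => chk (uent L3009 s)) 0 = true := by decide +kernel
theorem p3009 : PrV chk L3009 := leafV c3009

theorem c3010 : lp7 (fun s => chk (uent L3010 s)) 0 = true := by decide +kernel
theorem p3010 : PrV chk L3010 := leafV c3010

theorem c3011 : lp7 (fun s => chk (uent L3011 s)) 0 = true := by decide +kernel
theorem p3011 : PrV chk L3011 := leafV c3011

theorem c3012 : lp7 (fun s => chk (uent L3012 s)) 0 = true := by decide +kernel
theorem p3012 : PrV chk L3012 := leafV c3012

theorem c3013 : lp7 (fun s => chk (uent L3013 s)) 0 = true := by decide +kernel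
theorem p3013 : PrV chk L3013 := leafV c3013

theorem c3014 : lp7 (fun s => chk (uent L3014 s)) 0 = true := by decide +kernel
theorem p3014 : PrV chk L3014 := leafV c3014

theorem c3015 : lp7 (fun s => chk (uent L3015 s)) 0 = true := by decide +kernel
theorem p3015 : PrV chk L3015 := leafV c3015

theorem c3016 : lp7 (fun s => chk (uent L3016 s)) 0 = true := by decide +kernel
theorem p3016 : PrV chk L3016 := leafV c3016

theorem c3017 : lp7 (fun s => chk (uent L3017 s)) 0 = true := by decide +kernel
theorem p3017 : PrV chk L3017 := leafV c3017

theorem c3018 : lp7 (fun s => chk (uent L3018 s)) 0 = true := by decide +kernel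
theorem p3018 : PrV chk L3018 := leafV c3018

theorem c3019 : lp7 (fun s => chk (uent L3019 s)) 0 = true := by decide +kernel
theorem p3019 : PrV chk L3019 := leafV c3019

theorem c3020 : lp7 (fun s => chk (uent L3020 s)) 0 = true := by decide +kernel
theorem p3020 : PrV chk L3020 := leafV c3020

theorem c3021 : lp7 (fun s => chk (uent L3021 s)) 0 = true := by decide +kernel
theorem p3021 : PrV chk L3021 := leafV c3021

theorem c3022 : lp7 (fun s => chk (uent L3022 s)) 0 = true := by decide +kernel
theorem p3022 : PrV chk L3022 := leafV c3022

theorem c3023 : lp7 (fun s => chk (uent L3023 s)) 0 = true := by decide +kernel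
theorem p3023 : PrV chk L3023 := leafV c3023

theorem c3024 : lp7 (fun s => chk (uent L3024 s)) 0 = true := by decide +kernel
theorem p3024 : PrV chk L3024 := leafV c3024

theorem c3025 : lp7 (fun s => chk (uent L3025 s)) 0 = true := by decide +kernel
theorem p3025 : PrV chk L3025 := leafV c3025

theorem c3026 : lp7 (fun s => chk (uent L3026 s)) 0 = true := by decide +kernel
theorem p3026 : PrV chk L3026 := leafV c3026

theorem c3027 : lp7 (fun s => chk (uent L3027 s)) 0 = true := by decide +kernel
theorem p3027 : PrV chk L3027 := leafV c3027

theorem c3028 : lp7 (fun s => chk (uent L3028 s)) 0 = true := by decide +kernel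
theorem p3028 : PrV chk L3028 := leafV c3028

theorem c3029 : lp7 (fun s => chk (uent L3029 s)) 0 = true := by decide +kernel
theorem p3029 : PrV chk L3029 := leafV c3029

theorem c3030 : lp7 (fun s => chk (uent L3030 s)) 0 = true := by decide +kernel
theorem p3030 : PrV chk L3030 := leafV c3030

theorem c3031 : lp7 (fun s => chk (uent L3031 s)) 0 = true := by decide +kernel
theorem p3031 : PrV chk L3031 := leafV c3031

theorem c3032 : lp7 (fun s => chk (uent L3032 s)) 0 = true := by decide +kernel
theorem p3032 : PrV chk L3032 := leafV c3032

theorem c3033 : lp7 (fun s => chk (uent L3033 s)) 0 = true := by decide +kernel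
theorem p3033 : PrV chk L3033 := leafV c3033

theorem c3034 : lp7 (fun s => chk (uent L3034 s)) 0 = true := by decide +kernel
theorem p3034 : PrV chk L3034 := leafV c3034

theorem c3035 : lp7 (fun s => chk (uent L3035 s)) 0 = true := by decide +kernel
theorem p3035 : PrV chk L3035 := leafV c3035

theorem c3036 : lp7 (fun s => chk (uent L3036 s)) 0 = true := by decide +kernel
theorem p3036 : PrV chk L3036 := leafV c3036

theorem c3037 : lp7 (fun s => chk (uent L3037 s)) 0 = true := by decide +kernel
theorem p3037 : PrV chk L3037 := leafV c3037

theorem c3038 : lp7 (fun s => chk (uent L3038 s)) 0 = true := by decide +kernel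
theorem p3038 : PrV chk L3038 := leafV c3038

theorem c3039 : lp7 (fun s => chk (uent L3039 s)) 0 = true := by decide +kernel
theorem p3039 : PrV chk L3039 := leafV c3039

theorem c3040 : lp7 (fun s => chk (uent L3040 s)) 0 = true := by decide +kernel
theorem p3040 : PrV chk L3040 := leafV c3040

theorem c3041 : lp7 (fun s => chk (uent L3041 s)) 0 = true := by decide +kernel
theorem p3041 : PrV chk L3041 := leafV c3041

theorem c3042 : lp7 (fun s => chk (uent L3042 s)) 0 = true := by decide +kernel
theorem p3042 : PrV chk L3042 := leafV c3042

theorem c3043 : lp7 (fun s => chk (uent L3043 s)) 0 = true := by decide +kernel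
theorem p3043 : PrV chk L3043 := leafV c3043

theorem c3044 : lp7 (fun s => chk (uent L3044 s)) 0 = true := by decide +kernel
theorem p3044 : PrV chk L3044 := leafV c3044

theorem c3045 : lp7 (fun s => chk (uent L3045 s)) 0 = true := by decide +kernel
theorem p3045 : PrV chk L3045 := leafV c3045

theorem c3046 : lp7 (fun s => chk (uent L3046 s)) 0 = true := by decide +kernel
theorem p3046 : PrV chk L3046 := leafV c3046

theorem c3047 : lp7 (fun s => chk (uent L3047 s)) 0 = true := by decide +kernel
theorem p3047 : PrV chk L3047 := leafV c3047

theorem c3048 : lp7 (fun s => chk (uent L3048 s)) 0 = true := by decide +kernel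
theorem p3048 : PrV chk L3048 := leafV c3048

theorem c3049 : lp7 (fun s => chk (uent L3049 s)) 0 = true := by decide +kernel
theorem p3049 : PrV chk L3049 := leafV c3049

theorem c3050 : lp7 (fun s => chk (uent L3050 s)) 0 = true := by decide +kernel
theorem p3050 : PrV chk L3050 := leafV c3050

theorem c3051 : lp7 (fun s => chk (uent L3051 s)) 0 = true := by decide +kernel
theorem p3051 : PrV chk L3051 := leafV c3051

theorem c3052 : lp7 (fun s => chk (uent L3052 s)) 0 = true := by decide +kernel
theorem p3052 : PrV chk L3052 := leafV c3052

theorem c3053 : lp7 (fun s => chk (uent L3053 s)) 0 = true := by decide +kernel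
theorem p3053 : PrV chk L3053 := leafV c3053

theorem c3054 : lp7 (fun s => chk (uent L3054 s)) 0 = true := by decide +kernel
theorem p3054 : PrV chk L3054 := leafV c3054

theorem c3055 : lp7 (fun s => chk (uent L3055 s)) 0 = true := by decide +kernel
theorem p3055 : PrV chk L3055 := leafV c3055

theorem c3056 : lp7 (fun s => chk (uent L3056 s)) 0 = true := by decide +kernel
theorem p3056 : PrV chk L3056 := leafV c3056

theorem c3057 : lp7 (fun s => chk (uent L3057 s)) 0 = true := by decide +kernel
theorem p3057 : PrV chk L3057 := leafV c3057

theorem c3058 : lp7 (fun s => chk (uent L3058 s)) 0 = true := by decide +kernel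
theorem p3058 : PrV chk L3058 := leafV c3058

theorem c3059 : lp7 (fun s => chk (uent L3059 s)) 0 = true := by decide +kernel
theorem p3059 : PrV chk L3059 := leafV c3059

theorem c3060 : lp7 (fun s => chk (uent L3060 s)) 0 = true := by decide +kernel
theorem p3060 : PrV chk L3060 := leafV c3060

theorem c3061 : lp7 (fun s => chk (uent L3061 s)) 0 = true := by decide +kernel
theorem p3061 : PrV chk L3061 := leafV c3061

theorem c3062 : lp7 (fun s => chk (uent L3062 s)) 0 = true := by decide +kernel
theorem p3062 : PrV chk L3062 := leafV c3062

theorem c3063 : lp7 (fun s => chk (uent L3063 s)) 0 = true := by decide +kernel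
theorem p3063 : PrV chk L3063 := leafV c3063

theorem c3064 : lp7 (fun s => chk (uent L3064 s)) 0 = true := by decide +kernel
theorem p3064 : PrV chk L3064 := leafV c3064

theorem c3065 : lp7 (fun s => chk (uent L3065 s)) 0 = true := by decide +kernel
theorem p3065 : PrV chk L3065 := leafV c3065

theorem c3066 : lp7 (fun s => chk (uent L3066 s)) 0 = true := by decide +kernel
theorem p3066 : PrV chk L3066 := leafV c3066

theorem c3067 : lp7 (fun s => chk (uent L3067 s)) 0 = true := by decide +kernel
theorem p3067 : PrV chk L3067 := leafV c3067

theorem c3068 : lp7 (fun s => chk (uent L3068 s)) 0 = true := by decide +kernel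
theorem p3068 : PrV chk L3068 := leafV c3068

theorem c3069 : lp7 (fun s => chk (uent L3069 s)) 0 = true := by decide +kernel
theorem p3069 : PrV chk L3069 := leafV c3069

theorem c3070 : lp7 (fun s => chk (uent L3070 s)) 0 = true := by decide +kernel
theorem p3070 : PrV chk L3070 := leafV c3070

theorem c3071 : lp7 (fun s => chk (uent L3071 s)) 0 = true := by decide +kernel
theorem p3071 : PrV chk L3071 := leafV c3071

end Pool.Agent.ad013a.W
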