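import Pool.Agent.H.MP_ad013a_pr.h63w.A.T
import Pool.Agent.H.MP_ad013a_pr.h63w.VLoop

namespace Pool.Agent.ad013a.W

theorem c3072 : lp7 (fun s => chk (uent L3072 s)) 0 = true := by decide +kernel
theorem p3072 : PrV chk L3072 := leafV c3072

theorem c3073 : lp7 (fun s => chk (uent L3073 s)) 0 = true := by decide +kernel
theorem p3073 : PrV chk L3073 := leafV c3073

theorem c3074 : lp7 (fun s => chk (uent L3074 s)) 0 = true := by decide +kernel
theorem p3074 : PrV chk L3074 := leafV c3074

theorem c3075 : lp7 (fun s => chk (uent L3075 s)) 0 = true := by decide +kernel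
theorem p3075 : PrV chk L3075 := leafV c3075

theorem c3076 : lp7 (fun s => chk (uent L3076 s)) 0 = true := by decide +kernel
theorem p3076 : PrV chk L3076 := leafV c3076

theorem c3077 : lp7 (fun s => chk (uent L3077 s)) 0 = true := by decide +kernel
theorem p3077 : PrV chk L3077 := leafV c3077

theorem c3078 : lp7 (fun s => chk (uent L3078 s)) 0 = true := by decide +kernel
theorem p3078 : PrV chk L3078 := leafV c3078

theorem c3079 : lp7 (fun s => chk (uent L3079 s)) 0 = true := by decide +kernel
theorem p3079 : PrV chk L3079 := leafV c3079

theorem c3080 : lp7 (fun s => chk (uent L3080 s)) 0 = true := by decide +kernel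
theorem p3080 : PrV chk L3080 := leafV c3080

theorem c3081 : lp7 (fun s => chk (uent L3081 s)) 0 = true := by decide +kernel
theorem p3081 : PrV chk L3081 := leafV c3081

theorem c3082 : lp7 (fun s => chk (uent L3082 s)) 0 = true := by decide +kernel
theorem p3082 : PrV chk L3082 := leafV c3082

theorem c3083 : lp7 (fun s => chk (uent L3083 s)) 0 = true := by decide +kernel
theorem p3083 : PrV chk L3083 := leafV c3083

theorem c3084 : lp7 (fun s => chk (uent L3084 s)) 0 = true := by decide +kernel
theorem p3084 : PrV chk L3084 := leafV c3084

theorem c3085 : lp7 (fun s => chk (uent L3085 s)) 0 = true := by decide +kernel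
theorem p3085 : PrV chk L3085 := leafV c3085

theorem c3086 : lp7 (fun s => chk (uent L3086 s)) 0 = true := by decide +kernel
theorem p3086 : PrV chk L3086 := leafV c3086

theorem c3087 : lp7 (fun s => chk (uent L3087 s)) 0 = true := by decide +kernel
theorem p3087 : PrV chk L3087 := leafV c3087

theorem c3088 : lp7 (fun s => chk (uent L3088 s)) 0 = true := by decide +kernel
theorem p3088 : PrV chk L3088 := leafV c3088

theorem c3089 : lp7 (fun s => chk (uent L3089 s)) 0 = true := by decide +kernel
theorem p3089 : PrV chk L3089 := leafV c3089

theorem c3090 : lp7 (fun s => chk (uent L3090 s)) 0 = true := by decide +kernel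
theorem p3090 : PrV chk L3090 := leafV c3090

theorem c3091 : lp7 (fun s => chk (uent L3091 s)) 0 = true := by decide +kernel
theorem p3091 : PrV chk L3091 := leafV c3091

theorem c3092 : lp7 (fun s => chk (uent L3092 s)) 0 = true := by decide +kernel
theorem p3092 : PrV chk L3092 := leafV c3092

theorem c3093 : lp7 (fun s => chk (uent L3093 s)) 0 = true := by decide +kernel
theorem p3093 : PrV chk L3093 := leafV c3093

theorem c3094 : lp7 (fun s => chk (uent L3094 s)) 0 = true := by decide +kernel
theorem p3094 : PrV chk L3094 := leafV c3094

theorem c3095 : lp7 (fun s => chk (uent L3095 s)) 0 = true := by decide +kernel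
theorem p3095 : PrV chk L3095 := leafV c3095

theorem c3096 : lp7 (fun s => chk (uent L3096 s)) 0 = true := by decide +kernel
theorem p3096 : PrV chk L3096 := leafV c3096

theorem c3097 : lp7 (fun s => chk (uent L3097 s)) 0 = true := by decide +kernel
theorem p3097 : PrV chk L3097 := leafV c3097

theorem c3098 : lp7 (fun s => chk (uent L3098 s)) 0 = true := by decide +kernel
theorem p3098 : PrV chk L3098 := leafV c3098

theorem c3099 : lp7 (fun s => chk (uent L3099 s)) 0 = true := by decide +kernel
theorem p3099 : PrV chk L3099 := leafV c3099

theorem c3100 : lp7 (fun s => chk (uent L3100 s)) 0 = true := by decide +kernel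
theorem p3100 : PrV chk L3100 := leafV c3100

theorem c3101 : lp7 (fun s => chk (uent L3101 s)) 0 = true := by decide +kernel
theorem p3101 : PrV chk L3101 := leafV c3101

theorem c3102 : lp7 (fun s => chk (uent L3102 s)) 0 = true := by decide +kernel
theorem p3102 : PrV chk L3102 := leafV c3102

theorem c3103 : lp7 (fun s => chk (uent L3103 s)) 0 = true := by decide +kernel
theorem p3103 : PrV chk L3103 := leafV c3103

theorem c3104 : lp7 (fun s => chk (uent L3104 s)) 0 = true := by decide +kernel
theorem p3104 : PrV chk L3104 := leafV c3104

theorem c3105 : lp7 (fun s => chk (uent L3105 s)) 0 = true := by decide +kernel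
theorem p3105 : PrV chk L3105 := leafV c3105

theorem c3106 : lp7 (fun s => chk (uent L3106 s)) 0 = true := by decide +kernel
theorem p3106 : PrV chk L3106 := leafV c3106

theorem c3107 : lp7 (fun s => chk (uent L3107 s)) 0 = true := by decide +kernel
theorem p3107 : PrV chk L3107 := leafV c3107

theorem c3108 : lp7 (fun s => chk (uent L3108 s)) 0 = true := by decide +kernel
theorem p3108 : PrV chk L3108 := leafV c3108

theorem c3109 : lp7 (fun s => chk (uent L3109 s)) 0 = true := by decide +kernel
theorem p3109 : PrV chk L3109 := leafV c3109

theorem c3110 : lp7 (fun s => chk (uent L3110 s)) 0 = true := by decide +kernel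
theorem p3110 : PrV chk L3110 := leafV c3110

theorem c3111 : lp7 (fun s => chk (uent L3111 s)) 0 = true := by decide +kernel
theorem p3111 : PrV chk L3111 := leafV c3111

theorem c3112 : lp7 (fun s => chk (uent L3112 s)) 0 = true := by decide +kernel
theorem p3112 : PrV chk L3112 := leafV c3112

theorem c3113 : lp7 (fun s => chk (uent L3113 s)) 0 = true := by decide +kernel
theorem p3113 : PrV chk L3113 := leafV c3113

theorem c3114 : lp7 (fun s => chk (uent L3114 s)) 0 = true := by decide +kernel
theorem p3114 : PrV chk L3114 := leafV c3114

theorem c3115 : lp7 (fun s => chk (uent L3115 s)) 0 = true := by decide +kernel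
theorem p3115 : PrV chk L3115 := leafV c3115

theorem c3116 : lp7 (fun s => chk (uent L3116 s)) 0 = true := by decide +kernel
theorem p3116 : PrV chk L3116 := leafV c3116

theorem c3117 : lp7 (fun s => chk (uent L3117 s)) 0 = true := by decide +kernel
theorem p3117 : PrV chk L3117 := leafV c3117

theorem c3118 : lp7 (fun s => chk (uent L3118 s)) 0 = true := by decide +kernel
theorem p3118 : PrV chk L3118 := leafV c3118

theorem c3119 : lp7 (fun s => chk (uent L3119 s)) 0 = true := by decide +kernel
theorem p3119 : PrV chk L3119 := leafV c3119

theorem c3120 : lp7 (fun s => chk (uent L3120 s)) 0 = true := by decide +kernel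
theorem p3120 : PrV chk L3120 := leafV c3120

theorem c3121 : lp7 (fun s => chk (uent L3121 s)) 0 = true := by decide +kernel
theorem p3121 : PrV chk L3121 := leafV c3121

theorem c3122 : lp7 (fun s => chk (uent L3122 s)) 0 = true := by decide +kernel
theorem p3122 : PrV chk L3122 := leafV c3122

theorem c3123 : lp7 (fun s => chk (uent L3123 s)) 0 = true := by decide +kernel
theorem p3123 : PrV chk L3123 := leafV c3123

theorem c3124 : lp7 (fun s => chk (uent L3124 s)) 0 = true := by decide +kernel
theorem p3124 : PrV chk L3124 := leafV c3124

theorem c3125 : lp7 (fun s => chk (uent L3125 s)) 0 = true := by decide +kernel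
theorem p3125 : PrV chk L3125 := leafV c3125

theorem c3126 : lp7 (fun s => chk (uent L3126 s)) 0 = true := by decide +kernel
theorem p3126 : PrV chk L3126 := leafV c3126

theorem c3127 : lp7 (fun s => chk (uent L3127 s)) 0 = true := by decide +kernel
theorem p3127 : PrV chk L3127 := leafV c3127

theorem c3128 : lp7 (fun s => chk (uent L3128 s)) 0 = true := by decide +kernel
theorem p3128 : PrV chk L3128 := leafV c3128

theorem c3129 : lp7 (fun s => chk (uent L3129 s)) 0 = true := by decide +kernel
theorem p3129 : PrV chk L3129 := leafV c3129

theorem c3130 : lp7 (fun s => chk (uent L3130 s)) 0 = true := by decide +kernel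
theorem p3130 : PrV chk L3130 := leafV c3130

theorem c3131 : lp7 (fun s => chk (uent L3131 s)) 0 = true := by decide +kernel
theorem p3131 : PrV chk L3131 := leafV c3131

theorem c3132 : lp7 (fun s => chk (uent L3132 s)) 0 = true := by decide +kernel
theorem p3132 : PrV chk L3132 := leafV c3132

theorem c3133 : lp7 (fun s => chk (uent L3133 s)) 0 = true := by decide +kernel
theorem p3133 : PrV chk L3133 := leafV c3133

theorem c3134 : lp7 (fun s => chk (uent L3134 s)) 0 = true := by decide +kernel
theorem p3134 : PrV chk L3134 := leafV c3134

theorem c3135 : lp7 (fun s => chk (uent L3135 s)) 0 = true := by decide +kernel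
theorem p3135 : PrV chk L3135 := leafV c3135

theorem c3136 : lp7 (fun s => chk (uent L3136 s)) 0 = true := by decide +kernel
theorem p3136 : PrV chk L3136 := leafV c3136

theorem c3137 : lp7 (fun s => chk (uent L3137 s)) 0 = true := by decide +kernel
theorem p3137 : PrV chk L3137 := leafV c3137

theorem c3138 : lp7 (fun s => chk (uent L3138 s)) 0 = true := by decide +kernel
theorem p3138 : PrV chk L3138 := leafV c3138

theorem c3139 : lp7 (fun s => chk (uent L3139 s)) 0 = true := by decide +kernel
theorem p3139 : PrV chk L3139 := leafV c3139

theorem c3140 : lp7 (fun s => chk (uent L3140 s)) 0 = true := by decide +kernel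
theorem p3140 : PrV chk L3140 := leafV c3140

theorem c3141 : lp7 (fun s => chk (uent L3141 s)) 0 = true := by decide +kernel
theorem p3141 : PrV chk L3141 := leafV c3141

theorem c3142 : lp7 (fun s => chk (uent L3142 s)) 0 = true := by decide +kernel
theorem p3142 : PrV chk L3142 := leafV c3142

theorem c3143 : lp7 (fun s => chk (uent L3143 s)) 0 = true := by decide +kernel
theorem p3143 : PrV chk L3143 := leafV c3143

theorem c3144 : lp7 (fun s => chk (uent L3144 s)) 0 = true := by decide +kernel
theorem p3144 : PrV chk L3144 := leafV c3144

theorem c3145 : lp7 (fun s => chk (uent L3145 s)) 0 = true := by decide +kernel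
theorem p3145 : PrV chk L3145 := leafV c3145

theorem c3146 : lp7 (fun s => chk (uent L3146 s)) 0 = true := by decide +kernel
theorem p3146 : PrV chk L3146 := leafV c3146

theorem c3147 : lp7 (fun s => chk (uent L3147 s)) 0 = true := by decide +kernel
theorem p3147 : PrV chk L3147 := leafV c3147

theorem c3148 : lp7 (fun s => chk (uent L3148 s)) 0 = true := by decide +kernel
theorem p3148 : PrV chk L3148 := leafV c3148

theorem c3149 : lp7 (fun s => chk (uent L3149 s)) 0 = true := by decide +kernel
theorem p3149 : PrV chk L3149 := leafV c3149

theorem c3150 : lp7 (fun s => chk (uent L3150 s)) 0 = true := by decide +kernel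
theorem p3150 : PrV chk L3150 := leafV c3150

theorem c3151 : lp7 (fun s => chk (uent L3151 s)) 0 = true := by decide +kernel
theorem p3151 : PrV chk L3151 := leafV c3151

theorem c3152 : lp7 (fun s => chk (uent L3152 s)) 0 = true := by decide +kernel
theorem p3152 : PrV chk L3152 := leafV c3152

theorem c3153 : lp7 (fun s => chk (uent L3153 s)) 0 = true := by decide +kernel
theorem p3153 : PrV chk L3153 := leafV c3153

theorem c3154 : lp7 (fun s => chk (uent L3154 s)) 0 = true := by decide +kernel
theorem p3154 : PrV chk L3154 := leafV c3154

theorem c3155 : lp7 (fun s => chk (uent L3155 s)) 0 = true := by decide +kernel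
theorem p3155 : PrV chk L3155 := leafV c3155

theorem c3156 : lp7 (fun s => chk (uent L3156 s)) 0 = true := by decide +kernel
theorem p3156 : PrV chk L3156 := leafV c3156

theorem c3157 : lp7 (fun s => chk (uent L3157 s)) 0 = true := by decide +kernel
theorem p3157 : PrV chk L3157 := leafV c3157

theorem c3158 : lp7 (fun s => chk (uent L3158 s)) 0 = true := by decide +kernel
theorem p3158 : PrV chk L3158 := leafV c3158

theorem c3159 : lp7 (fun s => chk (uent L3159 s)) 0 = true := by decide +kernel
theorem p3159 : PrV chk L3159 := leafV c3159

theorem c3160 : lp7 (fun s => chk (uent L3160 s)) 0 = true := by decide +kernel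
theorem p3160 : PrV chk L3160 := leafV c3160

theorem c3161 : lp7 (fun s => chk (uent L3161 s)) 0 = true := by decide +kernel
theorem p3161 : PrV chk L3161 := leafV c3161

theorem c3162 : lp7 (fun s => chk (uent L3162 s)) 0 = true := by decide +kernel
theorem p3162 : PrV chk L3162 := leafV c3162

theorem c3163 : lp7 (fun s => chk (uent L3163 s)) 0 = true := by decide +kernel
theorem p3163 : PrV chk L3163 := leafV c3163

theorem c3164 : lp7 (fun s => chk (uent L3164 s)) 0 = true := by decide +kernel
theorem p3164 : PrV chk L3164 := leafV c3164

theorem c3165 : lp7 (fun s => chk (uent L3165 s)) 0 = true := by decide +kernel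
theorem p3165 : PrV chk L3165 := leafV c3165

theorem c3166 : lp7 (fun s => chk (uent L3166 s)) 0 = true := by decide +kernel
theorem p3166 : PrV chk L3166 := leafV c3166

theorem c3167 : lp7 (fun s => chk (uent L3167 s)) 0 = true := by decide +kernel
theorem p3167 : PrV chk L3167 := leafV c3167

theorem c3168 : lp7 (fun s => chk (uent L3168 s)) 0 = true := by decide +kernel
theorem p3168 : PrV chk L3168 := leafV c3168

theorem c3169 : lp7 (fun s => chk (uent L3169 s)) 0 = true := by decide +kernel
theorem p3169 : PrV chk L3169 := leafV c3169

theorem c3170 : lp7 (fun s => chk (uent L3170 s)) 0 = true := by decide +kernel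
theorem p3170 : PrV chk L3170 := leafV c3170

theorem c3171 : lp7 (fun s => chk (uent L3171 s)) 0 = true := by decide +kernel
theorem p3171 : PrV chk L3171 := leafV c3171

theorem c3172 : lp7 (fun s => chk (uent L3172 s)) 0 = true := by decide +kernel
theorem p3172 : PrV chk L3172 := leafV c3172

theorem c3173 : lp7 (fun s => chk (uent L3173 s)) 0 = true := by decide +kernel
theorem p3173 : PrV chk L3173 := leafV c3173

theorem c3174 : lp7 (fun s => chk (uent L3174 s)) 0 = true := by decide +kernel
theorem p3174 : PrV chk L3174 := leafV c3174

theorem c3175 : lp7 (fun s => chk (uent L3175 s)) 0 = true := by decide +kernel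
theorem p3175 : PrV chk L3175 := leafV c3175

theorem c3176 : lp7 (fun s => chk (uent L3176 s)) 0 = true := by decide +kernel
theorem p3176 : PrV chk L3176 := leafV c3176

theorem c3177 : lp7 (fun s => chk (uent L3177 s)) 0 = true := by decide +kernel
theorem p3177 : PrV chk L3177 := leafV c3177

theorem c3178 : lp7 (fun s => chk (uent L3178 s)) 0 = true := by decide +kernel
theorem p3178 : PrV chk L3178 := leafV c3178

theorem c3179 : lp7 (fun s => chk (uent L3179 s)) 0 = true := by decide +kernel
theorem p3179 : PrV chk L3179 := leafV c3179

theorem c3180 : lp7 (fun s => chk (uent L3180 s)) 0 = true := by decide +kernel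
theorem p3180 : PrV chk L3180 := leafV c3180

theorem c3181 : lp7 (fun s => chk (uent L3181 s)) 0 = true := by decide +kernel
theorem p3181 : PrV chk L3181 := leafV c3181

theorem c3182 : lp7 (fun s => chk (uent L3182 s)) 0 = true := by decide +kernel
theorem p3182 : PrV chk L3182 := leafV c3182

theorem c3183 : lp7 (fun s => chk (uent L3183 s)) 0 = true := by decide +kernel
theorem p3183 : PrV chk L3183 := leafV c3183

theorem c3184 : lp7 (fun s => chk (uent L3184 s)) 0 = true := by decide +kernel
theorem p3184 : PrV chk L3184 := leafV c3184

theorem c3185 : lp7 (fun s => chk (uent L3185 s)) 0 = true := by decide +kernel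
theorem p3185 : PrV chk L3185 := leafV c3185

theorem c3186 : lp7 (fun s => chk (uent L3186 s)) 0 = true := by decide +kernel
theorem p3186 : PrV chk L3186 := leafV c3186

theorem c3187 : lp7 (fun s => chk (uent L3187 s)) 0 = true := by decide +kernel
theorem p3187 : PrV chk L3187 := leafV c3187

theorem c3188 : lp7 (fun s => chk (uent L3188 s)) 0 = true := by decide +kernel
theorem p3188 : PrV chk L3188 := leafV c3188

theorem c3189 : lp7 (fun s => chk (uent L3189 s)) 0 = true := by decide +kernel
theorem p3189 : PrV chk L3189 := leafV c3189

theorem c3190 : lp7 (fun s => chk (uent L3190 s)) 0 = true := by decide +kernel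
theorem p3190 : PrV chk L3190 := leafV c3190

theorem c3191 : lp7 (fun s => chk (uent L3191 s)) 0 = true := by decide +kernel
theorem p3191 : PrV chk L3191 := leafV c3191

theorem c3192 : lp7 (fun s => chk (uent L3192 s)) 0 = true := by decide +kernel
theorem p3192 : PrV chk L3192 := leafV c3192

theorem c3193 : lp7 (fun s => chk (uent L3193 s)) 0 = true := by decide +kernel
theorem p3193 : PrV chk L3193 := leafV c3193

theorem c3194 : lp7 (fun s => chk (uent L3194 s)) 0 = true := by decide +kernel
theorem p3194 : PrV chk L3194 := leafV c3194

theorem c3195 : lp7 (fun s => chk (uent L3195 s)) 0 = true := by decide +kernel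
theorem p3195 : PrV chk L3195 := leafV c3195

theorem c3196 : lp7 (fun s => chk (uent L3196 s)) 0 = true := by decide +kernel
theorem p3196 : PrV chk L3196 := leafV c3196

theorem c3197 : lp7 (fun s => chk (uent L3197 s)) 0 = true := by decide +kernel
theorem p3197 : PrV chk L3197 := leafV c3197

theorem c3198 : lp7 (fun s => chk (uent L3198 s)) 0 = true := by decide +kernel
theorem p3198 : PrV chk L3198 := leafV c3198

theorem c3199 : lp7 (fun s => chk (uent L3199 s)) 0 = true := by decide +kernel
theorem p3199 : PrV chk L3199 := leafV c3199

theorem c3200 : lp7 (fun s => chk (uent L3200 s)) 0 = true := by decide +kernel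
theorem p3200 : PrV chk L3200 := leafV c3200

theorem c3201 : lp7 (fun s => chk (uent L3201 s)) 0 = true := by decide +kernel
theorem p3201 : PrV chk L3201 := leafV c3201

theorem c3202 : lp7 (fun s => chk (uent L3202 s)) 0 = true := by decide +kernel
theorem p3202 : PrV chk L3202 := leafV c3202

theorem c3203 : lp7 (fun s => chk (uent L3203 s)) 0 = true := by decide +kernel
theorem p3203 : PrV chk L3203 := leafV c3203

theorem c3204 : lp7 (fun s => chk (uent L3204 s)) 0 = true := by decide +kernel
theorem p3204 : PrV chk L3204 := leafV c3204

theorem c3205 : lp7 (fun s => chk (uent L3205 s)) 0 = true := by decide +kernel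
theorem p3205 : PrV chk L3205 := leafV c3205

theorem c3206 : lp7 (fun s => chk (uent L3206 s)) 0 = true := by decide +kernel
theorem p3206 : PrV chk L3206 := leafV c3206

theorem c3207 : lp7 (fun s => chk (uent L3207 s)) 0 = true := by decide +kernel
theorem p3207 : PrV chk L3207 := leafV c3207

theorem c3208 : lp7 (fun s => chk (uent L3208 s)) 0 = true := by decide +kernel
theorem p3208 : PrV chk L3208 := leafV c3208

theorem c3209 : lp7 (fun s => chk (uent L3209 s)) 0 = true := by decide +kernel
theorem p3209 : PrV chk L3209 := leafV c3209

theorem c3210 : lp7 (fun s => chk (uent L3210 s)) 0 = true := by decide +kernel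
theorem p3210 : PrV chk L3210 := leafV c3210

theorem c3211 : lp7 (fun s => chk (uent L3211 s)) 0 = true := by decide +kernel
theorem p3211 : PrV chk L3211 := leafV c3211

theorem c3212 : lp7 (fun s => chk (uent L3212 s)) 0 = true := by decide +kernel
theorem p3212 : PrV chk L3212 := leafV c3212

theorem c3213 : lp7 (fun s => chk (uent L3213 s)) 0 = true := by decide +kernel
theorem p3213 : PrV chk L3213 := leafV c3213

theorem c3214 : lp7 (fun s => chk (uent L3214 s)) 0 = true := by decide +kernel
theorem p3214 : PrV chk L3214 := leafV c3214

theorem c3215 : lp7 (fun s => chk (uent L3215 s)) 0 = true := by decide +kernel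
theorem p3215 : PrV chk L3215 := leafV c3215

theorem c3216 : lp7 (fun s => chk (uent L3216 s)) 0 = true := by decide +kernel
theorem p3216 : PrV chk L3216 := leafV c3216

theorem c3217 : lp7 (fun s => chk (uent L3217 s)) 0 = true := by decide +kernel
theorem p3217 : PrV chk L3217 := leafV c3217

theorem c3218 : lp7 (fun s => chk (uent L3218 s)) 0 = true := by decide +kernel
theorem p3218 : PrV chk L3218 := leafV c3218

theorem c3219 : lp7 (fun s => chk (uent L3219 s)) 0 = true := by decide +kernel
theorem p3219 : PrV chk L3219 := leafV c3219

theorem c3220 : lp7 (fun s => chk (uent L3220 s)) 0 = true := by decide +kernel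
theorem p3220 : PrV chk L3220 := leafV c3220

theorem c3221 : lp7 (fun s => chk (uent L3221 s)) 0 = true := by decide +kernel
theorem p3221 : PrV chk L3221 := leafV c3221

theorem c3222 : lp7 (fun s => chk (uent L3222 s)) 0 = true := by decide +kernel
theorem p3222 : PrV chk L3222 := leafV c3222

theorem c3223 : lp7 (fun s => chk (uent L3223 s)) 0 = true := by decide +kernel
theorem p3223 : PrV chk L3223 := leafV c3223

theorem c3224 : lp7 (fun s => chk (uent L3224 s)) 0 = true := by decide +kernel
theorem p3224 : PrV chk L3224 := leafV c3224

theorem c3225 : lp7 (fun s => chk (uent L3225 s)) 0 = true := by decide +kernel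
theorem p3225 : PrV chk L3225 := leafV c3225

theorem c3226 : lp7 (fun s => chk (uent L3226 s)) 0 = true := by decide +kernel
theorem p3226 : PrV chk L3226 := leafV c3226

theorem c3227 : lp7 (fun s => chk (uent L3227 s)) 0 = true := by decide +kernel
theorem p3227 : PrV chk L3227 := leafV c3227

theorem c3228 : lp7 (fun s => chk (uent L3228 s)) 0 = true := by decide +kernel
theorem p3228 : PrV chk L3228 := leafV c3228

theorem c3229 : lp7 (fun s => chk (uent L3229 s)) 0 = true := by decide +kernel
theorem p3229 : PrV chk L3229 := leafV c3229

theorem c3230 : lp7 (fun s => chk (uent L3230 s)) 0 = true := by decide +kernel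
theorem p3230 : PrV chk L3230 := leafV c3230

theorem c3231 : lp7 (fun s => chk (uent L3231 s)) 0 = true := by decide +kernel
theorem p3231 : PrV chk L3231 := leafV c3231

theorem c3232 : lp7 (fun s => chk (uent L3232 s)) 0 = true := by decide +kernel
theorem p3232 : PrV chk L3232 := leafV c3232

theorem c3233 : lp7 (fun s => chk (uent L3233 s)) 0 = true := by decide +kernel
theorem p3233 : PrV chk L3233 := leafV c3233

theorem c3234 : lp7 (fun s => chk (uent L3234 s)) 0 = true := by decide +kernel
theorem p3234 : PrV chk L3234 := leafV c3234

theorem c3235 : lp7 (fun s => chk (uent L3235 s)) 0 = true := by decide +kernel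
theorem p3235 : PrV chk L3235 := leafV c3235

theorem c3236 : lp7 (fun s => chk (uent L3236 s)) 0 = true := by decide +kernel
theorem p3236 : PrV chk L3236 := leafV c3236

theorem c3237 : lp7 (fun s => chk (uent L3237 s)) 0 = true := by decide +kernel
theorem p3237 : PrV chk L3237 := leafV c3237

theorem c3238 : lp7 (fun s => chk (uent L3238 s)) 0 = true := by decide +kernel
theorem p3238 : PrV chk L3238 := leafV c3238

theorem c3239 : lp7 (fun s => chk (uent L3239 s)) 0 = true := by decide +kernel
theorem p3239 : PrV chk L3239 := leafV c3239

theorem c3240 : lp7 (fun s => chk (uent L3240 s)) 0 = true := by decide +kernel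
theorem p3240 : PrV chk L3240 := leafV c3240

theorem c3241 : lp7 (fun s => chk (uent L3241 s)) 0 = true := by decide +kernel
theorem p3241 : PrV chk L3241 := leafV c3241

theorem c3242 : lp7 (fun s => chk (uent L3242 s)) 0 = true := by decide +kernel
theorem p3242 : PrV chk L3242 := leafV c3242

theorem c3243 : lp7 (fun s => chk (uent L3243 s)) 0 = true := by decide +kernel
theorem p3243 : PrV chk L3243 := leafV c3243

theorem c3244 : lp7 (fun s => chk (uent L3244 s)) 0 = true := by decide +kernel
theorem p3244 : PrV chk L3244 := leafV c3244

theorem c3245 : lp7 (fun s => chk (uent L3245 s)) 0 = true := by decide +kernel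
theorem p3245 : PrV chk L3245 := leafV c3245

theorem c3246 : lp7 (fun s => chk (uent L3246 s)) 0 = true := by decide +kernel
theorem p3246 : PrV chk L3246 := leafV c3246

theorem c3247 : lp7 (fun s => chk (uent L3247 s)) 0 = true := by decide +kernel
theorem p3247 : PrV chk L3247 := leafV c3247

theorem c3248 : lp7 (fun s => chk (uent L3248 s)) 0 = true := by decide +kernel
theorem p3248 : PrV chk L3248 := leafV c3248

theorem c3249 : lp7 (fun s => chk (uent L3249 s)) 0 = true := by decide +kernel
theorem p3249 : PrV chk L3249 := leafV c3249

theorem c3250 : lp7 (fun s => chk (uent L3250 s)) 0 = true := by decide +kernel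
theorem p3250 : PrV chk L3250 := leafV c3250

theorem c3251 : lp7 (fun s => chk (uent L3251 s)) 0 = true := by decide +kernel
theorem p3251 : PrV chk L3251 := leafV c3251

theorem c3252 : lp7 (fun s => chk (uent L3252 s)) 0 = true := by decide +kernel
theorem p3252 : PrV chk L3252 := leafV c3252

theorem c3253 : lp7 (fun s => chk (uent L3253 s)) 0 = true := by decide +kernel
theorem p3253 : PrV chk L3253 := leafV c3253

theorem c3254 : lp7 (fun s => chk (uent L3254 s)) 0 = true := by decide +kernel
theorem p3254 : PrV chk L3254 := leafV c3254

theorem c3255 : lp7 (fun s => chk (uent L3255 s)) 0 = true := by decide +kernel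
theorem p3255 : PrV chk L3255 := leafV c3255

theorem c3256 : lp7 (fun s => chk (uent L3256 s)) 0 = true := by decide +kernel
theorem p3256 : PrV chk L3256 := leafV c3256

theorem c3257 : lp7 (fun s => chk (uent L3257 s)) 0 = true := by decide +kernel
theorem p3257 : PrV chk L3257 := leafV c3257

theorem c3258 : lp7 (fun s => chk (uent L3258 s)) 0 = true := by decide +kernel
theorem p3258 : PrV chk L3258 := leafV c3258

theorem c3259 : lp7 (fun s => chk (uent L3259 s)) 0 = true := by decide +kernel
theorem p3259 : PrV chk L3259 := leafV c3259

theorem c3260 : lp7 (fun s => chk (uent L3260 s)) 0 = true := by decide +kernel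
theorem p3260 : PrV chk L3260 := leafV c3260

theorem c3261 : lp7 (fun s => chk (uent L3261 s)) 0 = true := by decide +kernel
theorem p3261 : PrV chk L3261 := leafV c3261

theorem c3262 : lp7 (fun s => chk (uent L3262 s)) 0 = true := by decide +kernel
theorem p3262 : PrV chk L3262 := leafV c3262

theorem c3263 : lp7 (fun s => chk (uent L3263 s)) 0 = true := by decide +kernel
theorem p3263 : PrV chk L3263 := leafV c3263

end Pool.Agent.ad013a.W
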