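import Pool.Agent.H.MP_ad013a_pr.h63w.A.T
import Pool.Agent.H.MP_ad013a_pr.h63w.VLoop

namespace Pool.Agent.ad013a.W

theorem c3264 : lp7 (fun s => chk (uent L3264 s)) 0 = true := by decide +kernel
theorem p3264 : PrV chk L3264 := leafV c3264

theorem c3265 : lp7 (fun s => chk (uent L3265 s)) 0 = true := by decide +kernel
theorem p3265 : PrV chk L3265 := leafV c3265

theorem c3266 : lp7 (fun s => chk (uent L3266 s)) 0 = true := by decide +kernel
theorem p3266 : PrV chk L3266 := leafV c3266

theorem c3267 : lp7 (fun s => chk (uent L3267 s)) 0 = true := by decide +kernel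
theorem p3267 : PrV chk L3267 := leafV c3267

theorem c3268 : lp7 (fun s => chk (uent L3268 s)) 0 = true := by decide +kernel
theorem p3268 : PrV chk L3268 := leafV c3268

theorem c3269 : lp7 (fun s => chk (uent L3269 s)) 0 = true := by decide +kernel
theorem p3269 : PrV chk L3269 := leafV c3269

theorem c3270 : lp7 (fun s => chk (uent L3270 s)) 0 = true := by decide +kernel
theorem p3270 : PrV chk L3270 := leafV c3270

theorem c3271 : lp7 (fun s => chk (uent L3271 s)) 0 = true := by decide +kernel
theorem p3271 : PrV chk L3271 := leafV c3271

theorem c3272 : lp7 (fun s => chk (uent L3272 s)) 0 = true := by decide +kernel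
theorem p3272 : PrV chk L3272 := leafV c3272

theorem c3273 : lp7 (fun s => chk (uent L3273 s)) 0 = true := by decide +kernel
theorem p3273 : PrV chk L3273 := leafV c3273

theorem c3274 : lp7 (fun s => chk (uent L3274 s)) 0 = true := by decide +kernel
theorem p3274 : PrV chk L3274 := leafV c3274

theorem c3275 : lp7 (fun s => chk (uent L3275 s)) 0 = true := by decide +kernel
theorem p3275 : PrV chk L3275 := leafV c3275

theorem c3276 : lp7 (fun s => chk (uent L3276 s)) 0 = true := by decide +kernel
theorem p3276 : PrV chk L3276 := leafV c3276

theorem c3277 : lp7 (fun s => chk (uent L3277 s)) 0 = true := by decide +kernel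
theorem p3277 : PrV chk L3277 := leafV c3277

theorem c3278 : lp7 (fun s => chk (uent L3278 s)) 0 = true := by decide +kernel
theorem p3278 : PrV chk L3278 := leafV c3278

theorem c3279 : lp7 (fun s => chk (uent L3279 s)) 0 = true := by decide +kernel
theorem p3279 : PrV chk L3279 := leafV c3279

theorem c3280 : lp7 (fun s => chk (uent L3280 s)) 0 = true := by decide +kernel
theorem p3280 : PrV chk L3280 := leafV c3280

theorem c3281 : lp7 (fun s => chk (uent L3281 s)) 0 = true := by decide +kernel
theorem p3281 : PrV chk L3281 := leafV c3281

theorem c3282 : lp7 (fun s => chk (uent L3282 s)) 0 = true := by decide +kernel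
theorem p3282 : PrV chk L3282 := leafV c3282

theorem c3283 : lp7 (fun s => chk (uent L3283 s)) 0 = true := by decide +kernel
theorem p3283 : PrV chk L3283 := leafV c3283

theorem c3284 : lp7 (fun s => chk (uent L3284 s)) 0 = true := by decide +kernel
theorem p3284 : PrV chk L3284 := leafV c3284

theorem c3285 : lp7 (fun s => chk (uent L3285 s)) 0 = true := by decide +kernel
theorem p3285 : PrV chk L3285 := leafV c3285

theorem c3286 : lp7 (fun s => chk (uent L3286 s)) 0 = true := by decide +kernel
theorem p3286 : PrV chk L3286 := leafV c3286

theorem c3287 : lp7 (fun s => chk (uent L3287 s)) 0 = true := by decide +kernel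
theorem p3287 : PrV chk L3287 := leafV c3287

theorem c3288 : lp7 (fun s => chk (uent L3288 s)) 0 = true := by decide +kernel
theorem p3288 : PrV chk L3288 := leafV c3288

theorem c3289 : lp7 (fun s => chk (uent L3289 s)) 0 = true := by decide +kernel
theorem p3289 : PrV chk L3289 := leafV c3289

theorem c3290 : lp7 (fun s => chk (uent L3290 s)) 0 = true := by decide +kernel
theorem p3290 : PrV chk L3290 := leafV c3290

theorem c3291 : lp7 (fun s => chk (uent L3291 s)) 0 = true := by decide +kernel
theorem p3291 : PrV chk L3291 := leafV c3291

theorem c3292 : lp7 (fun s => chk (uent L3292 s)) 0 = true := by decide +kernel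
theorem p3292 : PrV chk L3292 := leafV c3292

theorem c3293 : lp7 (fun s => chk (uent L3293 s)) 0 = true := by decide +kernel
theorem p3293 : PrV chk L3293 := leafV c3293

theorem c3294 : lp7 (fun s => chk (uent L3294 s)) 0 = true := by decide +kernel
theorem p3294 : PrV chk L3294 := leafV c3294

theorem c3295 : lp7 (fun s => chk (uent L3295 s)) 0 = true := by decide +kernel
theorem p3295 : PrV chk L3295 := leafV c3295

theorem c3296 : lp7 (fun s => chk (uent L3296 s)) 0 = true := by decide +kernel
theorem p3296 : PrV chk L3296 := leafV c3296

theorem c3297 : lp7 (fun s => chk (uent L3297 s)) 0 = true := by decide +kernel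
theorem p3297 : PrV chk L3297 := leafV c3297

theorem c3298 : lp7 (fun s => chk (uent L3298 s)) 0 = true := by decide +kernel
theorem p3298 : PrV chk L3298 := leafV c3298

theorem c3299 : lp7 (fun s => chk (uent L3299 s)) 0 = true := by decide +kernel
theorem p3299 : PrV chk L3299 := leafV c3299

theorem c3300 : lp7 (fun s => chk (uent L3300 s)) 0 = true := by decide +kernel
theorem p3300 : PrV chk L3300 := leafV c3300

theorem c3301 : lp7 (fun s => chk (uent L3301 s)) 0 = true := by decide +kernel
theorem p3301 : PrV chk L3301 := leafV c3301

theorem c3302 : lp7 (fun s => chk (uent L3302 s)) 0 = true := by decide +kernel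
theorem p3302 : PrV chk L3302 := leafV c3302

theorem c3303 : lp7 (fun s => chk (uent L3303 s)) 0 = true := by decide +kernel
theorem p3303 : PrV chk L3303 := leafV c3303

theorem c3304 : lp7 (fun s => chk (uent L3304 s)) 0 = true := by decide +kernel
theorem p3304 : PrV chk L3304 := leafV c3304

theorem c3305 : lp7 (fun s => chk (uent L3305 s)) 0 = true := by decide +kernel
theorem p3305 : PrV chk L3305 := leafV c3305

theorem c3306 : lp7 (fun s => chk (uent L3306 s)) 0 = true := by decide +kernel
theorem p3306 : PrV chk L3306 := leafV c3306

theorem c3307 : lp7 (fun s => chk (uent L3307 s)) 0 = true := by decide +kernel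
theorem p3307 : PrV chk L3307 := leafV c3307

theorem c3308 : lp7 (fun s => chk (uent L3308 s)) 0 = true := by decide +kernel
theorem p3308 : PrV chk L3308 := leafV c3308

theorem c3309 : lp7 (fun s => chk (uent L3309 s)) 0 = true := by decide +kernel
theorem p3309 : PrV chk L3309 := leafV c3309

theorem c3310 : lp7 (fun s => chk (uent L3310 s)) 0 = true := by decide +kernel
theorem p3310 : PrV chk L3310 := leafV c3310

theorem c3311 : lp7 (fun s => chk (uent L3311 s)) 0 = true := by decide +kernel
theorem p3311 : PrV chk L3311 := leafV c3311

theorem c3312 : lp7 (fun s => chk (uent L3312 s)) 0 = true := by decide +kernel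
theorem p3312 : PrV chk L3312 := leafV c3312

theorem c3313 : lp7 (fun s => chk (uent L3313 s)) 0 = true := by decide +kernel
theorem p3313 : PrV chk L3313 := leafV c3313

theorem c3314 : lp7 (fun s => chk (uent L3314 s)) 0 = true := by decide +kernel
theorem p3314 : PrV chk L3314 := leafV c3314

theorem c3315 : lp7 (fun s => chk (uent L3315 s)) 0 = true := by decide +kernel
theorem p3315 : PrV chk L3315 := leafV c3315

theorem c3316 : lp7 (fun s => chk (uent L3316 s)) 0 = true := by decide +kernel
theorem p3316 : PrV chk L3316 := leafV c3316

theorem c3317 : lp7 (fun s => chk (uent L3317 s)) 0 = true := by decide +kernel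
theorem p3317 : PrV chk L3317 := leafV c3317

theorem c3318 : lp7 (fun s => chk (uent L3318 s)) 0 = true := by decide +kernel
theorem p3318 : PrV chk L3318 := leafV c3318

theorem c3319 : lp7 (fun s => chk (uent L3319 s)) 0 = true := by decide +kernel
theorem p3319 : PrV chk L3319 := leafV c3319

theorem c3320 : lp7 (fun s => chk (uent L3320 s)) 0 = true := by decide +kernel
theorem p3320 : PrV chk L3320 := leafV c3320

theorem c3321 : lp7 (fun s => chk (uent L3321 s)) 0 = true := by decide +kernel
theorem p3321 : PrV chk L3321 := leafV c3321

theorem c3322 : lp7 (fun s => chk (uent L3322 s)) 0 = true := by decide +kernel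
theorem p3322 : PrV chk L3322 := leafV c3322

theorem c3323 : lp7 (fun s => chk (uent L3323 s)) 0 = true := by decide +kernel
theorem p3323 : PrV chk L3323 := leafV c3323

theorem c3324 : lp7 (fun s => chk (uent L3324 s)) 0 = true := by decide +kernel
theorem p3324 : PrV chk L3324 := leafV c3324

theorem c3325 : lp7 (fun s => chk (uent L3325 s)) 0 = true := by decide +kernel
theorem p3325 : PrV chk L3325 := leafV c3325

theorem c3326 : lp7 (fun s => chk (uent L3326 s)) 0 = true := by decide +kernel
theorem p3326 : PrV chk L3326 := leafV c3326

theorem c3327 : lp7 (fun s => chk (uent L3327 s)) 0 = true := by decide +kernel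
theorem p3327 : PrV chk L3327 := leafV c3327

theorem c3328 : lp7 (fun s => chk (uent L3328 s)) 0 = true := by decide +kernel
theorem p3328 : PrV chk L3328 := leafV c3328

theorem c3329 : lp7 (fun s => chk (uent L3329 s)) 0 = true := by decide +kernel
theorem p3329 : PrV chk L3329 := leafV c3329

theorem c3330 : lp7 (fun s => chk (uent L3330 s)) 0 = true := by decide +kernel
theorem p3330 : PrV chk L3330 := leafV c3330

theorem c3331 : lp7 (fun s => chk (uent L3331 s)) 0 = true := by decide +kernel
theorem p3331 : PrV chk L3331 := leafV c3331

theorem c3332 : lp7 (fun s => chk (uent L3332 s)) 0 = true := by decide +kernel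
theorem p3332 : PrV chk L3332 := leafV c3332

theorem c3333 : lp7 (fun s => chk (uent L3333 s)) 0 = true := by decide +kernel
theorem p3333 : PrV chk L3333 := leafV c3333

theorem c3334 : lp7 (fun s => chk (uent L3334 s)) 0 = true := by decide +kernel
theorem p3334 : PrV chk L3334 := leafV c3334

theorem c3335 : lp7 (fun s => chk (uent L3335 s)) 0 = true := by decide +kernel
theorem p3335 : PrV chk L3335 := leafV c3335

theorem c3336 : lp7 (fun s => chk (uent L3336 s)) 0 = true := by decide +kernel
theorem p3336 : PrV chk L3336 := leafV c3336

theorem c3337 : lp7 (fun s => chk (uent L3337 s)) 0 = true := by decide +kernel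
theorem p3337 : PrV chk L3337 := leafV c3337

theorem c3338 : lp7 (fun s => chk (uent L3338 s)) 0 = true := by decide +kernel
theorem p3338 : PrV chk L3338 := leafV c3338

theorem c3339 : lp7 (fun s => chk (uent L3339 s)) 0 = true := by decide +kernel
theorem p3339 : PrV chk L3339 := leafV c3339

theorem c3340 : lp7 (fun s => chk (uent L3340 s)) 0 = true := by decide +kernel
theorem p3340 : PrV chk L3340 := leafV c3340

theorem c3341 : lp7 (fun s => chk (uent L3341 s)) 0 = true := by decide +kernel
theorem p3341 : PrV chk L3341 := leafV c3341

theorem c3342 : lp7 (fun s => chk (uent L3342 s)) 0 = true := by decide +kernel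
theorem p3342 : PrV chk L3342 := leafV c3342

theorem c3343 : lp7 (fun s => chk (uent L3343 s)) 0 = true := by decide +kernel
theorem p3343 : PrV chk L3343 := leafV c3343

theorem c3344 : lp7 (fun s => chk (uent L3344 s)) 0 = true := by decide +kernel
theorem p3344 : PrV chk L3344 := leafV c3344

theorem c3345 : lp7 (fun s => chk (uent L3345 s)) 0 = true := by decide +kernel
theorem p3345 : PrV chk L3345 := leafV c3345

theorem c3346 : lp7 (fun s => chk (uent L3346 s)) 0 = true := by decide +kernel
theorem p3346 : PrV chk L3346 := leafV c3346

theorem c3347 : lp7 (fun s => chk (uent L3347 s)) 0 = true := by decide +kernel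
theorem p3347 : PrV chk L3347 := leafV c3347

theorem c3348 : lp7 (fun s => chk (uent L3348 s)) 0 = true := by decide +kernel
theorem p3348 : PrV chk L3348 := leafV c3348

theorem c3349 : lp7 (fun s => chk (uent L3349 s)) 0 = true := by decide +kernel
theorem p3349 : PrV chk L3349 := leafV c3349

theorem c3350 : lp7 (fun s => chk (uent L3350 s)) 0 = true := by decide +kernel
theorem p3350 : PrV chk L3350 := leafV c3350

theorem c3351 : lp7 (fun s => chk (uent L3351 s)) 0 = true := by decide +kernel
theorem p3351 : PrV chk L3351 := leafV c3351

theorem c3352 : lp7 (fun s => chk (uent L3352 s)) 0 = true := by decide +kernel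
theorem p3352 : PrV chk L3352 := leafV c3352

theorem c3353 : lp7 (fun s => chk (uent L3353 s)) 0 = true := by decide +kernel
theorem p3353 : PrV chk L3353 := leafV c3353

theorem c3354 : lp7 (fun s => chk (uent L3354 s)) 0 = true := by decide +kernel
theorem p3354 : PrV chk L3354 := leafV c3354

theorem c3355 : lp7 (fun s => chk (uent L3355 s)) 0 = true := by decide +kernel
theorem p3355 : PrV chk L3355 := leafV c3355

theorem c3356 : lp7 (fun s => chk (uent L3356 s)) 0 = true := by decide +kernel
theorem p3356 : PrV chk L3356 := leafV c3356

theorem c3357 : lp7 (fun s => chk (uent L3357 s)) 0 = true := by decide +kernel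
theorem p3357 : PrV chk L3357 := leafV c3357

theorem c3358 : lp7 (fun s => chk (uent L3358 s)) 0 = true := by decide +kernel
theorem p3358 : PrV chk L3358 := leafV c3358

theorem c3359 : lp7 (fun s => chk (uent L3359 s)) 0 = true := by decide +kernel
theorem p3359 : PrV chk L3359 := leafV c3359

theorem c3360 : lp7 (fun s => chk (uent L3360 s)) 0 = true := by decide +kernel
theorem p3360 : PrV chk L3360 := leafV c3360

theorem c3361 : lp7 (fun s => chk (uent L3361 s)) 0 = true := by decide +kernel
theorem p3361 : PrV chk L3361 := leafV c3361

theorem c3362 : lp7 (fun s => chk (uent L3362 s)) 0 = true := by decide +kernel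
theorem p3362 : PrV chk L3362 := leafV c3362

theorem c3363 : lp7 (fun s => chk (uent L3363 s)) 0 = true := by decide +kernel
theorem p3363 : PrV chk L3363 := leafV c3363

theorem c3364 : lp7 (fun s => chk (uent L3364 s)) 0 = true := by decide +kernel
theorem p3364 : PrV chk L3364 := leafV c3364

theorem c3365 : lp7 (fun s => chk (uent L3365 s)) 0 = true := by decide +kernel
theorem p3365 : PrV chk L3365 := leafV c3365

theorem c3366 : lp7 (fun s => chk (uent L3366 s)) 0 = true := by decide +kernel
theorem p3366 : PrV chk L3366 := leafV c3366

theorem c3367 : lp7 (fun s => chk (uent L3367 s)) 0 = true := by decide +kernel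
theorem p3367 : PrV chk L3367 := leafV c3367

theorem c3368 : lp7 (fun s => chk (uent L3368 s)) 0 = true := by decide +kernel
theorem p3368 : PrV chk L3368 := leafV c3368

theorem c3369 : lp7 (fun s => chk (uent L3369 s)) 0 = true := by decide +kernel
theorem p3369 : PrV chk L3369 := leafV c3369

theorem c3370 : lp7 (fun s => chk (uent L3370 s)) 0 = true := by decide +kernel
theorem p3370 : PrV chk L3370 := leafV c3370

theorem c3371 : lp7 (fun s => chk (uent L3371 s)) 0 = true := by decide +kernel
theorem p3371 : PrV chk L3371 := leafV c3371

theorem c3372 : lp7 (fun s => chk (uent L3372 s)) 0 = true := by decide +kernel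
theorem p3372 : PrV chk L3372 := leafV c3372

theorem c3373 : lp7 (fun s => chk (uent L3373 s)) 0 = true := by decide +kernel
theorem p3373 : PrV chk L3373 := leafV c3373

theorem c3374 : lp7 (fun s => chk (uent L3374 s)) 0 = true := by decide +kernel
theorem p3374 : PrV chk L3374 := leafV c3374

theorem c3375 : lp7 (fun s => chk (uent L3375 s)) 0 = true := by decide +kernel
theorem p3375 : PrV chk L3375 := leafV c3375

theorem c3376 : lp7 (fun s => chk (uent L3376 s)) 0 = true := by decide +kernel
theorem p3376 : PrV chk L3376 := leafV c3376

theorem c3377 : lp7 (fun s => chk (uent L3377 s)) 0 = true := by decide +kernel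
theorem p3377 : PrV chk L3377 := leafV c3377

theorem c3378 : lp7 (fun s => chk (uent L3378 s)) 0 = true := by decide +kernel
theorem p3378 : PrV chk L3378 := leafV c3378

theorem c3379 : lp7 (fun s => chk (uent L3379 s)) 0 = true := by decide +kernel
theorem p3379 : PrV chk L3379 := leafV c3379

theorem c3380 : lp7 (fun s => chk (uent L3380 s)) 0 = true := by decide +kernel
theorem p3380 : PrV chk L3380 := leafV c3380

theorem c3381 : lp7 (fun s => chk (uent L3381 s)) 0 = true := by decide +kernel
theorem p3381 : PrV chk L3381 := leafV c3381

theorem c3382 : lp7 (fun s => chk (uent L3382 s)) 0 = true := by decide +kernel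
theorem p3382 : PrV chk L3382 := leafV c3382

theorem c3383 : lp7 (fun s => chk (uent L3383 s)) 0 = true := by decide +kernel
theorem p3383 : PrV chk L3383 := leafV c3383

theorem c3384 : lp7 (fun s => chk (uent L3384 s)) 0 = true := by decide +kernel
theorem p3384 : PrV chk L3384 := leafV c3384

theorem c3385 : lp7 (fun s => chk (uent L3385 s)) 0 = true := by decide +kernel
theorem p3385 : PrV chk L3385 := leafV c3385

theorem c3386 : lp7 (fun s => chk (uent L3386 s)) 0 = true := by decide +kernel
theorem p3386 : PrV chk L3386 := leafV c3386

theorem c3387 : lp7 (fun s => chk (uent L3387 s)) 0 = true := by decide +kernel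
theorem p3387 : PrV chk L3387 := leafV c3387

theorem c3388 : lp7 (fun s => chk (uent L3388 s)) 0 = true := by decide +kernel
theorem p3388 : PrV chk L3388 := leafV c3388

theorem c3389 : lp7 (fun s => chk (uent L3389 s)) 0 = true := by decide +kernel
theorem p3389 : PrV chk L3389 := leafV c3389

theorem c3390 : lp7 (fun s => chk (uent L3390 s)) 0 = true := by decide +kernel
theorem p3390 : PrV chk L3390 := leafV c3390

theorem c3391 : lp7 (fun s => chk (uent L3391 s)) 0 = true := by decide +kernel
theorem p3391 : PrV chk L3391 := leafV c3391

theorem c3392 : lp7 (fun s => chk (uent L3392 s)) 0 = true := by decide +kernel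
theorem p3392 : PrV chk L3392 := leafV c3392

theorem c3393 : lp7 (fun s => chk (uent L3393 s)) 0 = true := by decide +kernel
theorem p3393 : PrV chk L3393 := leafV c3393

theorem c3394 : lp7 (fun s => chk (uent L3394 s)) 0 = true := by decide +kernel
theorem p3394 : PrV chk L3394 := leafV c3394

theorem c3395 : lp7 (fun s => chk (uent L3395 s)) 0 = true := by decide +kernel
theorem p3395 : PrV chk L3395 := leafV c3395

theorem c3396 : lp7 (fun s => chk (uent L3396 s)) 0 = true := by decide +kernel
theorem p3396 : PrV chk L3396 := leafV c3396

theorem c3397 : lp7 (fun s => chk (uent L3397 s)) 0 = true := by decide +kernel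
theorem p3397 : PrV chk L3397 := leafV c3397

theorem c3398 : lp7 (fun s => chk (uent L3398 s)) 0 = true := by decide +kernel
theorem p3398 : PrV chk L3398 := leafV c3398

theorem c3399 : lp7 (fun s => chk (uent L3399 s)) 0 = true := by decide +kernel
theorem p3399 : PrV chk L3399 := leafV c3399

theorem c3400 : lp7 (fun s => chk (uent L3400 s)) 0 = true := by decide +kernel
theorem p3400 : PrV chk L3400 := leafV c3400

theorem c3401 : lp7 (fun s => chk (uent L3401 s)) 0 = true := by decide +kernel
theorem p3401 : PrV chk L3401 := leafV c3401

theorem c3402 : lp7 (fun s => chk (uent L3402 s)) 0 = true := by decide +kernel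
theorem p3402 : PrV chk L3402 := leafV c3402

theorem c3403 : lp7 (fun s => chk (uent L3403 s)) 0 = true := by decide +kernel
theorem p3403 : PrV chk L3403 := leafV c3403

theorem c3404 : lp7 (fun s => chk (uent L3404 s)) 0 = true := by decide +kernel
theorem p3404 : PrV chk L3404 := leafV c3404

theorem c3405 : lp7 (fun s => chk (uent L3405 s)) 0 = true := by decide +kernel
theorem p3405 : PrV chk L3405 := leafV c3405

theorem c3406 : lp7 (fun s => chk (uent L3406 s)) 0 = true := by decide +kernel
theorem p3406 : PrV chk L3406 := leafV c3406

theorem c3407 : lp7 (fun s => chk (uent L3407 s)) 0 = true := by decide +kernel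
theorem p3407 : PrV chk L3407 := leafV c3407

theorem c3408 : lp7 (fun s => chk (uent L3408 s)) 0 = true := by decide +kernel
theorem p3408 : PrV chk L3408 := leafV c3408

theorem c3409 : lp7 (fun s => chk (uent L3409 s)) 0 = true := by decide +kernel
theorem p3409 : PrV chk L3409 := leafV c3409

theorem c3410 : lp7 (fun s => chk (uent L3410 s)) 0 = true := by decide +kernel
theorem p3410 : PrV chk L3410 := leafV c3410

theorem c3411 : lp7 (fun s => chk (uent L3411 s)) 0 = true := by decide +kernel
theorem p3411 : PrV chk L3411 := leafV c3411

theorem c3412 : lp7 (fun s => chk (uent L3412 s)) 0 = true := by decide +kernel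
theorem p3412 : PrV chk L3412 := leafV c3412

theorem c3413 : lp7 (fun s => chk (uent L3413 s)) 0 = true := by decide +kernel
theorem p3413 : PrV chk L3413 := leafV c3413

theorem c3414 : lp7 (fun s => chk (uent L3414 s)) 0 = true := by decide +kernel
theorem p3414 : PrV chk L3414 := leafV c3414

theorem c3415 : lp7 (fun s => chk (uent L3415 s)) 0 = true := by decide +kernel
theorem p3415 : PrV chk L3415 := leafV c3415

theorem c3416 : lp7 (fun s => chk (uent L3416 s)) 0 = true := by decide +kernel
theorem p3416 : PrV chk L3416 := leafV c3416

theorem c3417 : lp7 (fun s => chk (uent L3417 s)) 0 = true := by decide +kernel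
theorem p3417 : PrV chk L3417 := leafV c3417

theorem c3418 : lp7 (fun s => chk (uent L3418 s)) 0 = true := by decide +kernel
theorem p3418 : PrV chk L3418 := leafV c3418

theorem c3419 : lp7 (fun s => chk (uent L3419 s)) 0 = true := by decide +kernel
theorem p3419 : PrV chk L3419 := leafV c3419

theorem c3420 : lp7 (fun s => chk (uent L3420 s)) 0 = true := by decide +kernel
theorem p3420 : PrV chk L3420 := leafV c3420

theorem c3421 : lp7 (fun s => chk (uent L3421 s)) 0 = true := by decide +kernel
theorem p3421 : PrV chk L3421 := leafV c3421

theorem c3422 : lp7 (fun s => chk (uent L3422 s)) 0 = true := by decide +kernel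
theorem p3422 : PrV chk L3422 := leafV c3422

theorem c3423 : lp7 (fun s => chk (uent L3423 s)) 0 = true := by decide +kernel
theorem p3423 : PrV chk L3423 := leafV c3423

theorem c3424 : lp7 (fun s => chk (uent L3424 s)) 0 = true := by decide +kernel
theorem p3424 : PrV chk L3424 := leafV c3424

theorem c3425 : lp7 (fun s => chk (uent L3425 s)) 0 = true := by decide +kernel
theorem p3425 : PrV chk L3425 := leafV c3425

theorem c3426 : lp7 (fun s => chk (uent L3426 s)) 0 = true := by decide +kernel
theorem p3426 : PrV chk L3426 := leafV c3426

theorem c3427 : lp7 (fun s => chk (uent L3427 s)) 0 = true := by decide +kernel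
theorem p3427 : PrV chk L3427 := leafV c3427

theorem c3428 : lp7 (fun s => chk (uent L3428 s)) 0 = true := by decide +kernel
theorem p3428 : PrV chk L3428 := leafV c3428

theorem c3429 : lp7 (fun s => chk (uent L3429 s)) 0 = true := by decide +kernel
theorem p3429 : PrV chk L3429 := leafV c3429

theorem c3430 : lp7 (fun s => chk (uent L3430 s)) 0 = true := by decide +kernel
theorem p3430 : PrV chk L3430 := leafV c3430

theorem c3431 : lp7 (fun s => chk (uent L3431 s)) 0 = true := by decide +kernel
theorem p3431 : PrV chk L3431 := leafV c3431

theorem c3432 : lp7 (fun s => chk (uent L3432 s)) 0 = true := by decide +kernel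
theorem p3432 : PrV chk L3432 := leafV c3432

theorem c3433 : lp7 (fun s => chk (uent L3433 s)) 0 = true := by decide +kernel
theorem p3433 : PrV chk L3433 := leafV c3433

theorem c3434 : lp7 (fun s => chk (uent L3434 s)) 0 = true := by decide +kernel
theorem p3434 : PrV chk L3434 := leafV c3434

theorem c3435 : lp7 (fun s => chk (uent L3435 s)) 0 = true := by decide +kernel
theorem p3435 : PrV chk L3435 := leafV c3435

theorem c3436 : lp7 (fun s => chk (uent L3436 s)) 0 = true := by decide +kernel
theorem p3436 : PrV chk L3436 := leafV c3436

theorem c3437 : lp7 (fun s => chk (uent L3437 s)) 0 = true := by decide +kernel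
theorem p3437 : PrV chk L3437 := leafV c3437

theorem c3438 : lp7 (fun s => chk (uent L3438 s)) 0 = true := by decide +kernel
theorem p3438 : PrV chk L3438 := leafV c3438

theorem c3439 : lp7 (fun s => chk (uent L3439 s)) 0 = true := by decide +kernel
theorem p3439 : PrV chk L3439 := leafV c3439

theorem c3440 : lp7 (fun s => chk (uent L3440 s)) 0 = true := by decide +kernel
theorem p3440 : PrV chk L3440 := leafV c3440

theorem c3441 : lp7 (fun s => chk (uent L3441 s)) 0 = true := by decide +kernel
theorem p3441 : PrV chk L3441 := leafV c3441

theorem c3442 : lp7 (fun s => chk (uent L3442 s)) 0 = true := by decide +kernel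
theorem p3442 : PrV chk L3442 := leafV c3442

theorem c3443 : lp7 (fun s => chk (uent L3443 s)) 0 = true := by decide +kernel
theorem p3443 : PrV chk L3443 := leafV c3443

theorem c3444 : lp7 (fun s => chk (uent L3444 s)) 0 = true := by decide +kernel
theorem p3444 : PrV chk L3444 := leafV c3444

theorem c3445 : lp7 (fun s => chk (uent L3445 s)) 0 = true := by decide +kernel
theorem p3445 : PrV chk L3445 := leafV c3445

theorem c3446 : lp7 (fun s => chk (uent L3446 s)) 0 = true := by decide +kernel
theorem p3446 : PrV chk L3446 := leafV c3446

theorem c3447 : lp7 (fun s => chk (uent L3447 s)) 0 = true := by decide +kernel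
theorem p3447 : PrV chk L3447 := leafV c3447

theorem c3448 : lp7 (fun s => chk (uent L3448 s)) 0 = true := by decide +kernel
theorem p3448 : PrV chk L3448 := leafV c3448

theorem c3449 : lp7 (fun s => chk (uent L3449 s)) 0 = true := by decide +kernel
theorem p3449 : PrV chk L3449 := leafV c3449

theorem c3450 : lp7 (fun s => chk (uent L3450 s)) 0 = true := by decide +kernel
theorem p3450 : PrV chk L3450 := leafV c3450

theorem c3451 : lp7 (fun s => chk (uent L3451 s)) 0 = true := by decide +kernel
theorem p3451 : PrV chk L3451 := leafV c3451

theorem c3452 : lp7 (fun s => chk (uent L3452 s)) 0 = true := by decide +kernel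
theorem p3452 : PrV chk L3452 := leafV c3452

theorem c3453 : lp7 (fun s => chk (uent L3453 s)) 0 = true := by decide +kernel
theorem p3453 : PrV chk L3453 := leafV c3453

theorem c3454 : lp7 (fun s => chk (uent L3454 s)) 0 = true := by decide +kernel
theorem p3454 : PrV chk L3454 := leafV c3454

theorem c3455 : lp7 (fun s => chk (uent L3455 s)) 0 = true := by decide +kernel
theorem p3455 : PrV chk L3455 := leafV c3455

end Pool.Agent.ad013a.W
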