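import Pool.Agent.H.MP_ad013a_pr.h63w.A.T
import Pool.Agent.H.MP_ad013a_pr.h63w.VLoop

namespace Pool.Agent.ad013a.W

theorem c3456 : lp7 (fun s => chk (uent L3456 s)) 0 = true := by decide +kernel
theorem p3456 : PrV chk L3456 := leafV c3456

theorem c3457 : lp7 (fun s => chk (uent L3457 s)) 0 = true := by decide +kernel
theorem p3457 : PrV chk L3457 := leafV c3457

theorem c3458 : lp7 (fun s => chk (uent L3458 s)) 0 = true := by decide +kernel
theorem p3458 : PrV chk L3458 := leafV c3458

theorem c3459 : lp7 (fun s => chk (uent L3459 s)) 0 = true := by decide +kernel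
theorem p3459 : PrV chk L3459 := leafV c3459

theorem c3460 : lp7 (fun s => chk (uent L3460 s)) 0 = true := by decide +kernel
theorem p3460 : PrV chk L3460 := leafV c3460

theorem c3461 : lp7 (fun s => chk (uent L3461 s)) 0 = true := by decide +kernel
theorem p3461 : PrV chk L3461 := leafV c3461

theorem c3462 : lp7 (fun s => chk (uent L3462 s)) 0 = true := by decide +kernel
theorem p3462 : PrV chk L3462 := leafV c3462

theorem c3463 : lp7 (fun s => chk (uent L3463 s)) 0 = true := by decide +kernel
theorem p3463 : PrV chk L3463 := leafV c3463

theorem c3464 : lp7 (fun s => chk (uent L3464 s)) 0 = true := by decide +kernel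
theorem p3464 : PrV chk L3464 := leafV c3464

theorem c3465 : lp7 (fun s => chk (uent L3465 s)) 0 = true := by decide +kernel
theorem p3465 : PrV chk L3465 := leafV c3465

theorem c3466 : lp7 (fun s => chk (uent L3466 s)) 0 = true := by decide +kernel
theorem p3466 : PrV chk L3466 := leafV c3466

theorem c3467 : lp7 (fun s => chk (uent L3467 s)) 0 = true := by decide +kernel
theorem p3467 : PrV chk L3467 := leafV c3467

theorem c3468 : lp7 (fun s => chk (uent L3468 s)) 0 = true := by decide +kernel
theorem p3468 : PrV chk L3468 := leafV c3468

theorem c3469 : lp7 (fun s => chk (uent L3469 s)) 0 = true := by decide +kernel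
theorem p3469 : PrV chk L3469 := leafV c3469

theorem c3470 : lp7 (fun s => chk (uent L3470 s)) 0 = true := by decide +kernel
theorem p3470 : PrV chk L3470 := leafV c3470

theorem c3471 : lp7 (fun s => chk (uent L3471 s)) 0 = true := by decide +kernel
theorem p3471 : PrV chk L3471 := leafV c3471

theorem c3472 : lp7 (fun s => chk (uent L3472 s)) 0 = true := by decide +kernel
theorem p3472 : PrV chk L3472 := leafV c3472

theorem c3473 : lp7 (fun s => chk (uent L3473 s)) 0 = true := by decide +kernel
theorem p3473 : PrV chk L3473 := leafV c3473

theorem c3474 : lp7 (fun s => chk (uent L3474 s)) 0 = true := by decide +kernel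
theorem p3474 : PrV chk L3474 := leafV c3474

theorem c3475 : lp7 (fun s => chk (uent L3475 s)) 0 = true := by decide +kernel
theorem p3475 : PrV chk L3475 := leafV c3475

theorem c3476 : lp7 (fun s => chk (uent L3476 s)) 0 = true := by decide +kernel
theorem p3476 : PrV chk L3476 := leafV c3476

theorem c3477 : lp7 (fun s => chk (uent L3477 s)) 0 = true := by decide +kernel
theorem p3477 : PrV chk L3477 := leafV c3477

theorem c3478 : lp7 (fun s => chk (uent L3478 s)) 0 = true := by decide +kernel
theorem p3478 : PrV chk L3478 := leafV c3478

theorem c3479 : lp7 (fun s => chk (uent L3479 s)) 0 = true := by decide +kernel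
theorem p3479 : PrV chk L3479 := leafV c3479

theorem c3480 : lp7 (fun s => chk (uent L3480 s)) 0 = true := by decide +kernel
theorem p3480 : PrV chk L3480 := leafV c3480

theorem c3481 : lp7 (fun s => chk (uent L3481 s)) 0 = true := by decide +kernel
theorem p3481 : PrV chk L3481 := leafV c3481

theorem c3482 : lp7 (fun s => chk (uent L3482 s)) 0 = true := by decide +kernel
theorem p3482 : PrV chk L3482 := leafV c3482

theorem c3483 : lp7 (fun s => chk (uent L3483 s)) 0 = true := by decide +kernel
theorem p3483 : PrV chk L3483 := leafV c3483

theorem c3484 : lp7 (fun s => chk (uent L3484 s)) 0 = true := by decide +kernel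
theorem p3484 : PrV chk L3484 := leafV c3484

theorem c3485 : lp7 (fun s => chk (uent L3485 s)) 0 = true := by decide +kernel
theorem p3485 : PrV chk L3485 := leafV c3485

theorem c3486 : lp7 (fun s => chk (uent L3486 s)) 0 = true := by decide +kernel
theorem p3486 : PrV chk L3486 := leafV c3486

theorem c3487 : lp7 (fun s => chk (uent L3487 s)) 0 = true := by decide +kernel
theorem p3487 : PrV chk L3487 := leafV c3487

theorem c3488 : lp7 (fun s => chk (uent L3488 s)) 0 = true := by decide +kernel
theorem p3488 : PrV chk L3488 := leafV c3488

theorem c3489 : lp7 (fun s => chk (uent L3489 s)) 0 = true := by decide +kernel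
theorem p3489 : PrV chk L3489 := leafV c3489

theorem c3490 : lp7 (fun s => chk (uent L3490 s)) 0 = true := by decide +kernel
theorem p3490 : PrV chk L3490 := leafV c3490

theorem c3491 : lp7 (fun s => chk (uent L3491 s)) 0 = true := by decide +kernel
theorem p3491 : PrV chk L3491 := leafV c3491

theorem c3492 : lp7 (fun s => chk (uent L3492 s)) 0 = true := by decide +kernel
theorem p3492 : PrV chk L3492 := leafV c3492

theorem c3493 : lp7 (fun s => chk (uent L3493 s)) 0 = true := by decide +kernel
theorem p3493 : PrV chk L3493 := leafV c3493

theorem c3494 : lp7 (fun s => chk (uent L3494 s)) 0 = true := by decide +kernel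
theorem p3494 : PrV chk L3494 := leafV c3494

theorem c3495 : lp7 (fun s => chk (uent L3495 s)) 0 = true := by decide +kernel
theorem p3495 : PrV chk L3495 := leafV c3495

theorem c3496 : lp7 (fun s => chk (uent L3496 s)) 0 = true := by decide +kernel
theorem p3496 : PrV chk L3496 := leafV c3496

theorem c3497 : lp7 (fun s => chk (uent L3497 s)) 0 = true := by decide +kernel
theorem p3497 : PrV chk L3497 := leafV c3497

theorem c3498 : lp7 (fun s => chk (uent L3498 s)) 0 = true := by decide +kernel
theorem p3498 : PrV chk L3498 := leafV c3498

theorem c3499 : lp7 (fun s => chk (uent L3499 s)) 0 = true := by decide +kernel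
theorem p3499 : PrV chk L3499 := leafV c3499

theorem c3500 : lp7 (fun s => chk (uent L3500 s)) 0 = true := by decide +kernel
theorem p3500 : PrV chk L3500 := leafV c3500

theorem c3501 : lp7 (fun s => chk (uent L3501 s)) 0 = true := by decide +kernel
theorem p3501 : PrV chk L3501 := leafV c3501

theorem c3502 : lp7 (fun s => chk (uent L3502 s)) 0 = true := by decide +kernel
theorem p3502 : PrV chk L3502 := leafV c3502

theorem c3503 : lp7 (fun s => chk (uent L3503 s)) 0 = true := by decide +kernel
theorem p3503 : PrV chk L3503 := leafV c3503

theorem c3504 : lp7 (fun s => chk (uent L3504 s)) 0 = true := by decide +kernel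
theorem p3504 : PrV chk L3504 := leafV c3504

theorem c3505 : lp7 (fun s => chk (uent L3505 s)) 0 = true := by decide +kernel
theorem p3505 : PrV chk L3505 := leafV c3505

theorem c3506 : lp7 (fun s => chk (uent L3506 s)) 0 = true := by decide +kernel
theorem p3506 : PrV chk L3506 := leafV c3506

theorem c3507 : lp7 (fun s => chk (uent L3507 s)) 0 = true := by decide +kernel
theorem p3507 : PrV chk L3507 := leafV c3507

theorem c3508 : lp7 (fun s => chk (uent L3508 s)) 0 = true := by decide +kernel
theorem p3508 : PrV chk L3508 := leafV c3508

theorem c3509 : lp7 (fun s => chk (uent L3509 s)) 0 = true := by decide +kernel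
theorem p3509 : PrV chk L3509 := leafV c3509

theorem c3510 : lp7 (fun s => chk (uent L3510 s)) 0 = true := by decide +kernel
theorem p3510 : PrV chk L3510 := leafV c3510

theorem c3511 : lp7 (fun s => chk (uent L3511 s)) 0 = true := by decide +kernel
theorem p3511 : PrV chk L3511 := leafV c3511

theorem c3512 : lp7 (fun s => chk (uent L3512 s)) 0 = true := by decide +kernel
theorem p3512 : PrV chk L3512 := leafV c3512

theorem c3513 : lp7 (fun s => chk (uent L3513 s)) 0 = true := by decide +kernel
theorem p3513 : PrV chk L3513 := leafV c3513

theorem c3514 : lp7 (fun s => chk (uent L3514 s)) 0 = true := by decide +kernel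
theorem p3514 : PrV chk L3514 := leafV c3514

theorem c3515 : lp7 (fun s => chk (uent L3515 s)) 0 = true := by decide +kernel
theorem p3515 : PrV chk L3515 := leafV c3515

theorem c3516 : lp7 (fun s => chk (uent L3516 s)) 0 = true := by decide +kernel
theorem p3516 : PrV chk L3516 := leafV c3516

theorem c3517 : lp7 (fun s => chk (uent L3517 s)) 0 = true := by decide +kernel
theorem p3517 : PrV chk L3517 := leafV c3517

theorem c3518 : lp7 (fun s => chk (uent L3518 s)) 0 = true := by decide +kernel
theorem p3518 : PrV chk L3518 := leafV c3518

theorem c3519 : lp7 (fun s => chk (uent L3519 s)) 0 = true := by decide +kernel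
theorem p3519 : PrV chk L3519 := leafV c3519

theorem c3520 : lp7 (fun s => chk (uent L3520 s)) 0 = true := by decide +kernel
theorem p3520 : PrV chk L3520 := leafV c3520

theorem c3521 : lp7 (fun s => chk (uent L3521 s)) 0 = true := by decide +kernel
theorem p3521 : PrV chk L3521 := leafV c3521

theorem c3522 : lp7 (fun s => chk (uent L3522 s)) 0 = true := by decide +kernel
theorem p3522 : PrV chk L3522 := leafV c3522

theorem c3523 : lp7 (fun s => chk (uent L3523 s)) 0 = true := by decide +kernel
theorem p3523 : PrV chk L3523 := leafV c3523

theorem c3524 : lp7 (fun s => chk (uent L3524 s)) 0 = true := by decide +kernel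
theorem p3524 : PrV chk L3524 := leafV c3524

theorem c3525 : lp7 (fun s => chk (uent L3525 s)) 0 = true := by decide +kernel
theorem p3525 : PrV chk L3525 := leafV c3525

theorem c3526 : lp7 (fun s => chk (uent L3526 s)) 0 = true := by decide +kernel
theorem p3526 : PrV chk L3526 := leafV c3526

theorem c3527 : lp7 (fun s => chk (uent L3527 s)) 0 = true := by decide +kernel
theorem p3527 : PrV chk L3527 := leafV c3527

theorem c3528 : lp7 (fun s => chk (uent L3528 s)) 0 = true := by decide +kernel
theorem p3528 : PrV chk L3528 := leafV c3528

theorem c3529 : lp7 (fun s => chk (uent L3529 s)) 0 = true := by decide +kernel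
theorem p3529 : PrV chk L3529 := leafV c3529

theorem c3530 : lp7 (fun s => chk (uent L3530 s)) 0 = true := by decide +kernel
theorem p3530 : PrV chk L3530 := leafV c3530

theorem c3531 : lp7 (fun s => chk (uent L3531 s)) 0 = true := by decide +kernel
theorem p3531 : PrV chk L3531 := leafV c3531

theorem c3532 : lp7 (fun s => chk (uent L3532 s)) 0 = true := by decide +kernel
theorem p3532 : PrV chk L3532 := leafV c3532

theorem c3533 : lp7 (fun s => chk (uent L3533 s)) 0 = true := by decide +kernel
theorem p3533 : PrV chk L3533 := leafV c3533

theorem c3534 : lp7 (fun s => chk (uent L3534 s)) 0 = true := by decide +kernel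
theorem p3534 : PrV chk L3534 := leafV c3534

theorem c3535 : lp7 (fun s => chk (uent L3535 s)) 0 = true := by decide +kernel
theorem p3535 : PrV chk L3535 := leafV c3535

theorem c3536 : lp7 (fun s => chk (uent L3536 s)) 0 = true := by decide +kernel
theorem p3536 : PrV chk L3536 := leafV c3536

theorem c3537 : lp7 (fun s => chk (uent L3537 s)) 0 = true := by decide +kernel
theorem p3537 : PrV chk L3537 := leafV c3537

theorem c3538 : lp7 (fun s => chk (uent L3538 s)) 0 = true := by decide +kernel
theorem p3538 : PrV chk L3538 := leafV c3538

theorem c3539 : lp7 (fun s => chk (uent L3539 s)) 0 = true := by decide +kernel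
theorem p3539 : PrV chk L3539 := leafV c3539

theorem c3540 : lp7 (fun s => chk (uent L3540 s)) 0 = true := by decide +kernel
theorem p3540 : PrV chk L3540 := leafV c3540

theorem c3541 : lp7 (fun s => chk (uent L3541 s)) 0 = true := by decide +kernel
theorem p3541 : PrV chk L3541 := leafV c3541

theorem c3542 : lp7 (fun s => chk (uent L3542 s)) 0 = true := by decide +kernel
theorem p3542 : PrV chk L3542 := leafV c3542

theorem c3543 : lp7 (fun s => chk (uent L3543 s)) 0 = true := by decide +kernel
theorem p3543 : PrV chk L3543 := leafV c3543

theorem c3544 : lp7 (fun s => chk (uent L3544 s)) 0 = true := by decide +kernel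
theorem p3544 : PrV chk L3544 := leafV c3544

theorem c3545 : lp7 (fun s => chk (uent L3545 s)) 0 = true := by decide +kernel
theorem p3545 : PrV chk L3545 := leafV c3545

theorem c3546 : lp7 (fun s => chk (uent L3546 s)) 0 = true := by decide +kernel
theorem p3546 : PrV chk L3546 := leafV c3546

theorem c3547 : lp7 (fun s => chk (uent L3547 s)) 0 = true := by decide +kernel
theorem p3547 : PrV chk L3547 := leafV c3547

theorem c3548 : lp7 (fun s => chk (uent L3548 s)) 0 = true := by decide +kernel
theorem p3548 : PrV chk L3548 := leafV c3548

theorem c3549 : lp7 (fun s => chk (uent L3549 s)) 0 = true := by decide +kernel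
theorem p3549 : PrV chk L3549 := leafV c3549

theorem c3550 : lp7 (fun s => chk (uent L3550 s)) 0 = true := by decide +kernel
theorem p3550 : PrV chk L3550 := leafV c3550

theorem c3551 : lp7 (fun s => chk (uent L3551 s)) 0 = true := by decide +kernel
theorem p3551 : PrV chk L3551 := leafV c3551

theorem c3552 : lp7 (fun s => chk (uent L3552 s)) 0 = true := by decide +kernel
theorem p3552 : PrV chk L3552 := leafV c3552

theorem c3553 : lp7 (fun s => chk (uent L3553 s)) 0 = true := by decide +kernel
theorem p3553 : PrV chk L3553 := leafV c3553

theorem c3554 : lp7 (fun s => chk (uent L3554 s)) 0 = true := by decide +kernel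
theorem p3554 : PrV chk L3554 := leafV c3554

theorem c3555 : lp7 (fun s => chk (uent L3555 s)) 0 = true := by decide +kernel
theorem p3555 : PrV chk L3555 := leafV c3555

theorem c3556 : lp7 (fun s => chk (uent L3556 s)) 0 = true := by decide +kernel
theorem p3556 : PrV chk L3556 := leafV c3556

theorem c3557 : lp7 (fun s => chk (uent L3557 s)) 0 = true := by decide +kernel
theorem p3557 : PrV chk L3557 := leafV c3557

theorem c3558 : lp7 (fun s => chk (uent L3558 s)) 0 = true := by decide +kernel
theorem p3558 : PrV chk L3558 := leafV c3558

theorem c3559 : lp7 (fun s => chk (uent L3559 s)) 0 = true := by decide +kernel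
theorem p3559 : PrV chk L3559 := leafV c3559

theorem c3560 : lp7 (fun s => chk (uent L3560 s)) 0 = true := by decide +kernel
theorem p3560 : PrV chk L3560 := leafV c3560

theorem c3561 : lp7 (fun s => chk (uent L3561 s)) 0 = true := by decide +kernel
theorem p3561 : PrV chk L3561 := leafV c3561

theorem c3562 : lp7 (fun s => chk (uent L3562 s)) 0 = true := by decide +kernel
theorem p3562 : PrV chk L3562 := leafV c3562

theorem c3563 : lp7 (fun s => chk (uent L3563 s)) 0 = true := by decide +kernel
theorem p3563 : PrV chk L3563 := leafV c3563

theorem c3564 : lp7 (fun s => chk (uent L3564 s)) 0 = true := by decide +kernel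
theorem p3564 : PrV chk L3564 := leafV c3564

theorem c3565 : lp7 (fun s => chk (uent L3565 s)) 0 = true := by decide +kernel
theorem p3565 : PrV chk L3565 := leafV c3565

theorem c3566 : lp7 (fun s => chk (uent L3566 s)) 0 = true := by decide +kernel
theorem p3566 : PrV chk L3566 := leafV c3566

theorem c3567 : lp7 (fun s => chk (uent L3567 s)) 0 = true := by decide +kernel
theorem p3567 : PrV chk L3567 := leafV c3567

theorem c3568 : lp7 (fun s => chk (uent L3568 s)) 0 = true := by decide +kernel
theorem p3568 : PrV chk L3568 := leafV c3568

theorem c3569 : lp7 (fun s => chk (uent L3569 s)) 0 = true := by decide +kernel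
theorem p3569 : PrV chk L3569 := leafV c3569

theorem c3570 : lp7 (fun s => chk (uent L3570 s)) 0 = true := by decide +kernel
theorem p3570 : PrV chk L3570 := leafV c3570

theorem c3571 : lp7 (fun s => chk (uent L3571 s)) 0 = true := by decide +kernel
theorem p3571 : PrV chk L3571 := leafV c3571

theorem c3572 : lp7 (fun s => chk (uent L3572 s)) 0 = true := by decide +kernel
theorem p3572 : PrV chk L3572 := leafV c3572

theorem c3573 : lp7 (fun s => chk (uent L3573 s)) 0 = true := by decide +kernel
theorem p3573 : PrV chk L3573 := leafV c3573

theorem c3574 : lp7 (fun s => chk (uent L3574 s)) 0 = true := by decide +kernel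
theorem p3574 : PrV chk L3574 := leafV c3574

theorem c3575 : lp7 (fun s => chk (uent L3575 s)) 0 = true := by decide +kernel
theorem p3575 : PrV chk L3575 := leafV c3575

theorem c3576 : lp7 (fun s => chk (uent L3576 s)) 0 = true := by decide +kernel
theorem p3576 : PrV chk L3576 := leafV c3576

theorem c3577 : lp7 (fun s => chk (uent L3577 s)) 0 = true := by decide +kernel
theorem p3577 : PrV chk L3577 := leafV c3577

theorem c3578 : lp7 (fun s => chk (uent L3578 s)) 0 = true := by decide +kernel
theorem p3578 : PrV chk L3578 := leafV c3578

theorem c3579 : lp7 (fun s => chk (uent L3579 s)) 0 = true := by decide +kernel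
theorem p3579 : PrV chk L3579 := leafV c3579

theorem c3580 : lp7 (fun s => chk (uent L3580 s)) 0 = true := by decide +kernel
theorem p3580 : PrV chk L3580 := leafV c3580

theorem c3581 : lp7 (fun s => chk (uent L3581 s)) 0 = true := by decide +kernel
theorem p3581 : PrV chk L3581 := leafV c3581

theorem c3582 : lp7 (fun s => chk (uent L3582 s)) 0 = true := by decide +kernel
theorem p3582 : PrV chk L3582 := leafV c3582

theorem c3583 : lp7 (fun s => chk (uent L3583 s)) 0 = true := by decide +kernel
theorem p3583 : PrV chk L3583 := leafV c3583

theorem c3584 : lp7 (fun s => chk (uent L3584 s)) 0 = true := by decide +kernel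
theorem p3584 : PrV chk L3584 := leafV c3584

theorem c3585 : lp7 (fun s => chk (uent L3585 s)) 0 = true := by decide +kernel
theorem p3585 : PrV chk L3585 := leafV c3585

theorem c3586 : lp7 (fun s => chk (uent L3586 s)) 0 = true := by decide +kernel
theorem p3586 : PrV chk L3586 := leafV c3586

theorem c3587 : lp7 (fun s => chk (uent L3587 s)) 0 = true := by decide +kernel
theorem p3587 : PrV chk L3587 := leafV c3587

theorem c3588 : lp7 (fun s => chk (uent L3588 s)) 0 = true := by decide +kernel
theorem p3588 : PrV chk L3588 := leafV c3588

theorem c3589 : lp7 (fun s => chk (uent L3589 s)) 0 = true := by decide +kernel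
theorem p3589 : PrV chk L3589 := leafV c3589

theorem c3590 : lp7 (fun s => chk (uent L3590 s)) 0 = true := by decide +kernel
theorem p3590 : PrV chk L3590 := leafV c3590

theorem c3591 : lp7 (fun s => chk (uent L3591 s)) 0 = true := by decide +kernel
theorem p3591 : PrV chk L3591 := leafV c3591

theorem c3592 : lp7 (fun s => chk (uent L3592 s)) 0 = true := by decide +kernel
theorem p3592 : PrV chk L3592 := leafV c3592

theorem c3593 : lp7 (fun s => chk (uent L3593 s)) 0 = true := by decide +kernel
theorem p3593 : PrV chk L3593 := leafV c3593

theorem c3594 : lp7 (fun s => chk (uent L3594 s)) 0 = true := by decide +kernel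
theorem p3594 : PrV chk L3594 := leafV c3594

theorem c3595 : lp7 (fun s => chk (uent L3595 s)) 0 = true := by decide +kernel
theorem p3595 : PrV chk L3595 := leafV c3595

theorem c3596 : lp7 (fun s => chk (uent L3596 s)) 0 = true := by decide +kernel
theorem p3596 : PrV chk L3596 := leafV c3596

theorem c3597 : lp7 (fun s => chk (uent L3597 s)) 0 = true := by decide +kernel
theorem p3597 : PrV chk L3597 := leafV c3597

theorem c3598 : lp7 (fun s => chk (uent L3598 s)) 0 = true := by decide +kernel
theorem p3598 : PrV chk L3598 := leafV c3598

theorem c3599 : lp7 (fun s => chk (uent L3599 s)) 0 = true := by decide +kernel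
theorem p3599 : PrV chk L3599 := leafV c3599

theorem c3600 : lp7 (fun s => chk (uent L3600 s)) 0 = true := by decide +kernel
theorem p3600 : PrV chk L3600 := leafV c3600

theorem c3601 : lp7 (fun s => chk (uent L3601 s)) 0 = true := by decide +kernel
theorem p3601 : PrV chk L3601 := leafV c3601

theorem c3602 : lp7 (fun s => chk (uent L3602 s)) 0 = true := by decide +kernel
theorem p3602 : PrV chk L3602 := leafV c3602

theorem c3603 : lp7 (fun s => chk (uent L3603 s)) 0 = true := by decide +kernel
theorem p3603 : PrV chk L3603 := leafV c3603

theorem c3604 : lp7 (fun s => chk (uent L3604 s)) 0 = true := by decide +kernel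
theorem p3604 : PrV chk L3604 := leafV c3604

theorem c3605 : lp7 (fun s => chk (uent L3605 s)) 0 = true := by decide +kernel
theorem p3605 : PrV chk L3605 := leafV c3605

theorem c3606 : lp7 (fun s => chk (uent L3606 s)) 0 = true := by decide +kernel
theorem p3606 : PrV chk L3606 := leafV c3606

theorem c3607 : lp7 (fun s => chk (uent L3607 s)) 0 = true := by decide +kernel
theorem p3607 : PrV chk L3607 := leafV c3607

theorem c3608 : lp7 (fun s => chk (uent L3608 s)) 0 = true := by decide +kernel
theorem p3608 : PrV chk L3608 := leafV c3608

theorem c3609 : lp7 (fun s => chk (uent L3609 s)) 0 = true := by decide +kernel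
theorem p3609 : PrV chk L3609 := leafV c3609

theorem c3610 : lp7 (fun s => chk (uent L3610 s)) 0 = true := by decide +kernel
theorem p3610 : PrV chk L3610 := leafV c3610

theorem c3611 : lp7 (fun s => chk (uent L3611 s)) 0 = true := by decide +kernel
theorem p3611 : PrV chk L3611 := leafV c3611

theorem c3612 : lp7 (fun s => chk (uent L3612 s)) 0 = true := by decide +kernel
theorem p3612 : PrV chk L3612 := leafV c3612

theorem c3613 : lp7 (fun s => chk (uent L3613 s)) 0 = true := by decide +kernel
theorem p3613 : PrV chk L3613 := leafV c3613

theorem c3614 : lp7 (fun s => chk (uent L3614 s)) 0 = true := by decide +kernel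
theorem p3614 : PrV chk L3614 := leafV c3614

theorem c3615 : lp7 (fun s => chk (uent L3615 s)) 0 = true := by decide +kernel
theorem p3615 : PrV chk L3615 := leafV c3615

theorem c3616 : lp7 (fun s => chk (uent L3616 s)) 0 = true := by decide +kernel
theorem p3616 : PrV chk L3616 := leafV c3616

theorem c3617 : lp7 (fun s => chk (uent L3617 s)) 0 = true := by decide +kernel
theorem p3617 : PrV chk L3617 := leafV c3617

theorem c3618 : lp7 (fun s => chk (uent L3618 s)) 0 = true := by decide +kernel
theorem p3618 : PrV chk L3618 := leafV c3618

theorem c3619 : lp7 (fun s => chk (uent L3619 s)) 0 = true := by decide +kernel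
theorem p3619 : PrV chk L3619 := leafV c3619

theorem c3620 : lp7 (fun s => chk (uent L3620 s)) 0 = true := by decide +kernel
theorem p3620 : PrV chk L3620 := leafV c3620

theorem c3621 : lp7 (fun s => chk (uent L3621 s)) 0 = true := by decide +kernel
theorem p3621 : PrV chk L3621 := leafV c3621

theorem c3622 : lp7 (fun s => chk (uent L3622 s)) 0 = true := by decide +kernel
theorem p3622 : PrV chk L3622 := leafV c3622

theorem c3623 : lp7 (fun s => chk (uent L3623 s)) 0 = true := by decide +kernel
theorem p3623 : PrV chk L3623 := leafV c3623

theorem c3624 : lp7 (fun s => chk (uent L3624 s)) 0 = true := by decide +kernel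
theorem p3624 : PrV chk L3624 := leafV c3624

theorem c3625 : lp7 (fun s => chk (uent L3625 s)) 0 = true := by decide +kernel
theorem p3625 : PrV chk L3625 := leafV c3625

theorem c3626 : lp7 (fun s => chk (uent L3626 s)) 0 = true := by decide +kernel
theorem p3626 : PrV chk L3626 := leafV c3626

theorem c3627 : lp7 (fun s => chk (uent L3627 s)) 0 = true := by decide +kernel
theorem p3627 : PrV chk L3627 := leafV c3627

theorem c3628 : lp7 (fun s => chk (uent L3628 s)) 0 = true := by decide +kernel
theorem p3628 : PrV chk L3628 := leafV c3628

theorem c3629 : lp7 (fun s => chk (uent L3629 s)) 0 = true := by decide +kernel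
theorem p3629 : PrV chk L3629 := leafV c3629

theorem c3630 : lp7 (fun s => chk (uent L3630 s)) 0 = true := by decide +kernel
theorem p3630 : PrV chk L3630 := leafV c3630

theorem c3631 : lp7 (fun s => chk (uent L3631 s)) 0 = true := by decide +kernel
theorem p3631 : PrV chk L3631 := leafV c3631

theorem c3632 : lp7 (fun s => chk (uent L3632 s)) 0 = true := by decide +kernel
theorem p3632 : PrV chk L3632 := leafV c3632

theorem c3633 : lp7 (fun s => chk (uent L3633 s)) 0 = true := by decide +kernel
theorem p3633 : PrV chk L3633 := leafV c3633

theorem c3634 : lp7 (fun s => chk (uent L3634 s)) 0 = true := by decide +kernel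
theorem p3634 : PrV chk L3634 := leafV c3634

theorem c3635 : lp7 (fun s => chk (uent L3635 s)) 0 = true := by decide +kernel
theorem p3635 : PrV chk L3635 := leafV c3635

theorem c3636 : lp7 (fun s => chk (uent L3636 s)) 0 = true := by decide +kernel
theorem p3636 : PrV chk L3636 := leafV c3636

theorem c3637 : lp7 (fun s => chk (uent L3637 s)) 0 = true := by decide +kernel
theorem p3637 : PrV chk L3637 := leafV c3637

theorem c3638 : lp7 (fun s => chk (uent L3638 s)) 0 = true := by decide +kernel
theorem p3638 : PrV chk L3638 := leafV c3638

theorem c3639 : lp7 (fun s => chk (uent L3639 s)) 0 = true := by decide +kernel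
theorem p3639 : PrV chk L3639 := leafV c3639

theorem c3640 : lp7 (fun s => chk (uent L3640 s)) 0 = true := by decide +kernel
theorem p3640 : PrV chk L3640 := leafV c3640

theorem c3641 : lp7 (fun s => chk (uent L3641 s)) 0 = true := by decide +kernel
theorem p3641 : PrV chk L3641 := leafV c3641

theorem c3642 : lp7 (fun s => chk (uent L3642 s)) 0 = true := by decide +kernel
theorem p3642 : PrV chk L3642 := leafV c3642

theorem c3643 : lp7 (fun s => chk (uent L3643 s)) 0 = true := by decide +kernel
theorem p3643 : PrV chk L3643 := leafV c3643

theorem c3644 : lp7 (fun s => chk (uent L3644 s)) 0 = true := by decide +kernel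
theorem p3644 : PrV chk L3644 := leafV c3644

theorem c3645 : lp7 (fun s => chk (uent L3645 s)) 0 = true := by decide +kernel
theorem p3645 : PrV chk L3645 := leafV c3645

theorem c3646 : lp7 (fun s => chk (uent L3646 s)) 0 = true := by decide +kernel
theorem p3646 : PrV chk L3646 := leafV c3646

theorem c3647 : lp7 (fun s => chk (uent L3647 s)) 0 = true := by decide +kernel
theorem p3647 : PrV chk L3647 := leafV c3647

end Pool.Agent.ad013a.W
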