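import Pool.Agent.H.MP_ad013a_pr.h63w.A.T
import Pool.Agent.H.MP_ad013a_pr.h63w.VLoop

namespace Pool.Agent.ad013a.W

theorem c3648 : lp7 (fun s => chk (uent L3648 s)) 0 = true := by decide +kernel
theorem p3648 : PrV chk L3648 := leafV c3648

theorem c3649 : lp7 (fun s => chk (uent L3649 s)) 0 = true := by decide +kernel
theorem p3649 : PrV chk L3649 := leafV c3649

theorem c3650 : lp7 (fun s => chk (uent L3650 s)) 0 = true := by decide +kernel
theorem p3650 : PrV chk L3650 := leafV c3650

theorem c3651 : lp7 (fun s => chk (uent L3651 s)) 0 = true := by decide +kernel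
theorem p3651 : PrV chk L3651 := leafV c3651

theorem c3652 : lp7 (fun s => chk (uent L3652 s)) 0 = true := by decide +kernel
theorem p3652 : PrV chk L3652 := leafV c3652

theorem c3653 : lp7 (fun s => chk (uent L3653 s)) 0 = true := by decide +kernel
theorem p3653 : PrV chk L3653 := leafV c3653

theorem c3654 : lp7 (fun s => chk (uent L3654 s)) 0 = true := by decide +kernel
theorem p3654 : PrV chk L3654 := leafV c3654

theorem c3655 : lp7 (fun s => chk (uent L3655 s)) 0 = true := by decide +kernel
theorem p3655 : PrV chk L3655 := leafV c3655

theorem c3656 : lp7 (fun s => chk (uent L3656 s)) 0 = true := by decide +kernel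
theorem p3656 : PrV chk L3656 := leafV c3656

theorem c3657 : lp7 (fun s => chk (uent L3657 s)) 0 = true := by decide +kernel
theorem p3657 : PrV chk L3657 := leafV c3657

theorem c3658 : lp7 (fun s => chk (uent L3658 s)) 0 = true := by decide +kernel
theorem p3658 : PrV chk L3658 := leafV c3658

theorem c3659 : lp7 (fun s => chk (uent L3659 s)) 0 = true := by decide +kernel
theorem p3659 : PrV chk L3659 := leafV c3659

theorem c3660 : lp7 (fun s => chk (uent L3660 s)) 0 = true := by decide +kernel
theorem p3660 : PrV chk L3660 := leafV c3660

theorem c3661 : lp7 (fun s => chk (uent L3661 s)) 0 = true := by decide +kernel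
theorem p3661 : PrV chk L3661 := leafV c3661

theorem c3662 : lp7 (fun s => chk (uent L3662 s)) 0 = true := by decide +kernel
theorem p3662 : PrV chk L3662 := leafV c3662

theorem c3663 : lp7 (fun s => chk (uent L3663 s)) 0 = true := by decide +kernel
theorem p3663 : PrV chk L3663 := leafV c3663

theorem c3664 : lp7 (fun s => chk (uent L3664 s)) 0 = true := by decide +kernel
theorem p3664 : PrV chk L3664 := leafV c3664

theorem c3665 : lp7 (fun s => chk (uent L3665 s)) 0 = true := by decide +kernel
theorem p3665 : PrV chk L3665 := leafV c3665

theorem c3666 : lp7 (fun s => chk (uent L3666 s)) 0 = true := by decide +kernel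
theorem p3666 : PrV chk L3666 := leafV c3666

theorem c3667 : lp7 (fun s => chk (uent L3667 s)) 0 = true := by decide +kernel
theorem p3667 : PrV chk L3667 := leafV c3667

theorem c3668 : lp7 (fun s => chk (uent L3668 s)) 0 = true := by decide +kernel
theorem p3668 : PrV chk L3668 := leafV c3668

theorem c3669 : lp7 (fun s => chk (uent L3669 s)) 0 = true := by decide +kernel
theorem p3669 : PrV chk L3669 := leafV c3669

theorem c3670 : lp7 (fun s => chk (uent L3670 s)) 0 = true := by decide +kernel
theorem p3670 : PrV chk L3670 := leafV c3670

theorem c3671 : lp7 (fun s => chk (uent L3671 s)) 0 = true := by decide +kernel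
theorem p3671 : PrV chk L3671 := leafV c3671

theorem c3672 : lp7 (fun s => chk (uent L3672 s)) 0 = true := by decide +kernel
theorem p3672 : PrV chk L3672 := leafV c3672

theorem c3673 : lp7 (fun s => chk (uent L3673 s)) 0 = true := by decide +kernel
theorem p3673 : PrV chk L3673 := leafV c3673

theorem c3674 : lp7 (fun s => chk (uent L3674 s)) 0 = true := by decide +kernel
theorem p3674 : PrV chk L3674 := leafV c3674

theorem c3675 : lp7 (fun s => chk (uent L3675 s)) 0 = true := by decide +kernel
theorem p3675 : PrV chk L3675 := leafV c3675

theorem c3676 : lp7 (fun s => chk (uent L3676 s)) 0 = true := by decide +kernel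
theorem p3676 : PrV chk L3676 := leafV c3676

theorem c3677 : lp7 (fun s => chk (uent L3677 s)) 0 = true := by decide +kernel
theorem p3677 : PrV chk L3677 := leafV c3677

theorem c3678 : lp7 (fun s => chk (uent L3678 s)) 0 = true := by decide +kernel
theorem p3678 : PrV chk L3678 := leafV c3678

theorem c3679 : lp7 (fun s => chk (uent L3679 s)) 0 = true := by decide +kernel
theorem p3679 : PrV chk L3679 := leafV c3679

theorem c3680 : lp7 (fun s => chk (uent L3680 s)) 0 = true := by decide +kernel
theorem p3680 : PrV chk L3680 := leafV c3680

theorem c3681 : lp7 (fun s => chk (uent L3681 s)) 0 = true := by decide +kernel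
theorem p3681 : PrV chk L3681 := leafV c3681

theorem c3682 : lp7 (fun s => chk (uent L3682 s)) 0 = true := by decide +kernel
theorem p3682 : PrV chk L3682 := leafV c3682

theorem c3683 : lp7 (fun s => chk (uent L3683 s)) 0 = true := by decide +kernel
theorem p3683 : PrV chk L3683 := leafV c3683

theorem c3684 : lp7 (fun s => chk (uent L3684 s)) 0 = true := by decide +kernel
theorem p3684 : PrV chk L3684 := leafV c3684

theorem c3685 : lp7 (fun s => chk (uent L3685 s)) 0 = true := by decide +kernel
theorem p3685 : PrV chk L3685 := leafV c3685

theorem c3686 : lp7 (fun s => chk (uent L3686 s)) 0 = true := by decide +kernel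
theorem p3686 : PrV chk L3686 := leafV c3686

theorem c3687 : lp7 (fun s => chk (uent L3687 s)) 0 = true := by decide +kernel
theorem p3687 : PrV chk L3687 := leafV c3687

theorem c3688 : lp7 (fun s => chk (uent L3688 s)) 0 = true := by decide +kernel
theorem p3688 : PrV chk L3688 := leafV c3688

theorem c3689 : lp7 (fun s => chk (uent L3689 s)) 0 = true := by decide +kernel
theorem p3689 : PrV chk L3689 := leafV c3689

theorem c3690 : lp7 (fun s => chk (uent L3690 s)) 0 = true := by decide +kernel
theorem p3690 : PrV chk L3690 := leafV c3690

theorem c3691 : lp7 (fun s => chk (uent L3691 s)) 0 = true := by decide +kernel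
theorem p3691 : PrV chk L3691 := leafV c3691

theorem c3692 : lp7 (fun s => chk (uent L3692 s)) 0 = true := by decide +kernel
theorem p3692 : PrV chk L3692 := leafV c3692

theorem c3693 : lp7 (fun s => chk (uent L3693 s)) 0 = true := by decide +kernel
theorem p3693 : PrV chk L3693 := leafV c3693

theorem c3694 : lp7 (fun s => chk (uent L3694 s)) 0 = true := by decide +kernel
theorem p3694 : PrV chk L3694 := leafV c3694

theorem c3695 : lp7 (fun s => chk (uent L3695 s)) 0 = true := by decide +kernel
theorem p3695 : PrV chk L3695 := leafV c3695

theorem c3696 : lp7 (fun s => chk (uent L3696 s)) 0 = true := by decide +kernel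
theorem p3696 : PrV chk L3696 := leafV c3696

theorem c3697 : lp7 (fun s => chk (uent L3697 s)) 0 = true := by decide +kernel
theorem p3697 : PrV chk L3697 := leafV c3697

theorem c3698 : lp7 (fun s => chk (uent L3698 s)) 0 = true := by decide +kernel
theorem p3698 : PrV chk L3698 := leafV c3698

theorem c3699 : lp7 (fun s => chk (uent L3699 s)) 0 = true := by decide +kernel
theorem p3699 : PrV chk L3699 := leafV c3699

theorem c3700 : lp7 (fun s => chk (uent L3700 s)) 0 = true := by decide +kernel
theorem p3700 : PrV chk L3700 := leafV c3700

theorem c3701 : lp7 (fun s => chk (uent L3701 s)) 0 = true := by decide +kernel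
theorem p3701 : PrV chk L3701 := leafV c3701

theorem c3702 : lp7 (fun s => chk (uent L3702 s)) 0 = true := by decide +kernel
theorem p3702 : PrV chk L3702 := leafV c3702

theorem c3703 : lp7 (fun s => chk (uent L3703 s)) 0 = true := by decide +kernel
theorem p3703 : PrV chk L3703 := leafV c3703

theorem c3704 : lp7 (fun s => chk (uent L3704 s)) 0 = true := by decide +kernel
theorem p3704 : PrV chk L3704 := leafV c3704

theorem c3705 : lp7 (fun s => chk (uent L3705 s)) 0 = true := by decide +kernel
theorem p3705 : PrV chk L3705 := leafV c3705

theorem c3706 : lp7 (fun s => chk (uent L3706 s)) 0 = true := by decide +kernel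
theorem p3706 : PrV chk L3706 := leafV c3706

theorem c3707 : lp7 (fun s => chk (uent L3707 s)) 0 = true := by decide +kernel
theorem p3707 : PrV chk L3707 := leafV c3707

theorem c3708 : lp7 (fun s => chk (uent L3708 s)) 0 = true := by decide +kernel
theorem p3708 : PrV chk L3708 := leafV c3708

theorem c3709 : lp7 (fun s => chk (uent L3709 s)) 0 = true := by decide +kernel
theorem p3709 : PrV chk L3709 := leafV c3709

theorem c3710 : lp7 (fun s => chk (uent L3710 s)) 0 = true := by decide +kernel
theorem p3710 : PrV chk L3710 := leafV c3710

theorem c3711 : lp7 (fun s => chk (uent L3711 s)) 0 = true := by decide +kernel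
theorem p3711 : PrV chk L3711 := leafV c3711

theorem c3712 : lp7 (fun s => chk (uent L3712 s)) 0 = true := by decide +kernel
theorem p3712 : PrV chk L3712 := leafV c3712

theorem c3713 : lp7 (fun s => chk (uent L3713 s)) 0 = true := by decide +kernel
theorem p3713 : PrV chk L3713 := leafV c3713

theorem c3714 : lp7 (fun s => chk (uent L3714 s)) 0 = true := by decide +kernel
theorem p3714 : PrV chk L3714 := leafV c3714

theorem c3715 : lp7 (fun s => chk (uent L3715 s)) 0 = true := by decide +kernel
theorem p3715 : PrV chk L3715 := leafV c3715

theorem c3716 : lp7 (fun s => chk (uent L3716 s)) 0 = true := by decide +kernel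
theorem p3716 : PrV chk L3716 := leafV c3716

theorem c3717 : lp7 (fun s => chk (uent L3717 s)) 0 = true := by decide +kernel
theorem p3717 : PrV chk L3717 := leafV c3717

theorem c3718 : lp7 (fun s => chk (uent L3718 s)) 0 = true := by decide +kernel
theorem p3718 : PrV chk L3718 := leafV c3718

theorem c3719 : lp7 (fun s => chk (uent L3719 s)) 0 = true := by decide +kernel
theorem p3719 : PrV chk L3719 := leafV c3719

theorem c3720 : lp7 (fun s => chk (uent L3720 s)) 0 = true := by decide +kernel
theorem p3720 : PrV chk L3720 := leafV c3720

theorem c3721 : lp7 (fun s => chk (uent L3721 s)) 0 = true := by decide +kernel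
theorem p3721 : PrV chk L3721 := leafV c3721

theorem c3722 : lp7 (fun s => chk (uent L3722 s)) 0 = true := by decide +kernel
theorem p3722 : PrV chk L3722 := leafV c3722

theorem c3723 : lp7 (fun s => chk (uent L3723 s)) 0 = true := by decide +kernel
theorem p3723 : PrV chk L3723 := leafV c3723

theorem c3724 : lp7 (fun s => chk (uent L3724 s)) 0 = true := by decide +kernel
theorem p3724 : PrV chk L3724 := leafV c3724

theorem c3725 : lp7 (fun s => chk (uent L3725 s)) 0 = true := by decide +kernel
theorem p3725 : PrV chk L3725 := leafV c3725

theorem c3726 : lp7 (fun s => chk (uent L3726 s)) 0 = true := by decide +kernel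
theorem p3726 : PrV chk L3726 := leafV c3726

theorem c3727 : lp7 (fun s => chk (uent L3727 s)) 0 = true := by decide +kernel
theorem p3727 : PrV chk L3727 := leafV c3727

theorem c3728 : lp7 (fun s => chk (uent L3728 s)) 0 = true := by decide +kernel
theorem p3728 : PrV chk L3728 := leafV c3728

theorem c3729 : lp7 (fun s => chk (uent L3729 s)) 0 = true := by decide +kernel
theorem p3729 : PrV chk L3729 := leafV c3729

theorem c3730 : lp7 (fun s => chk (uent L3730 s)) 0 = true := by decide +kernel
theorem p3730 : PrV chk L3730 := leafV c3730

theorem c3731 : lp7 (fun s => chk (uent L3731 s)) 0 = true := by decide +kernel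
theorem p3731 : PrV chk L3731 := leafV c3731

theorem c3732 : lp7 (fun s => chk (uent L3732 s)) 0 = true := by decide +kernel
theorem p3732 : PrV chk L3732 := leafV c3732

theorem c3733 : lp7 (fun s => chk (uent L3733 s)) 0 = true := by decide +kernel
theorem p3733 : PrV chk L3733 := leafV c3733

theorem c3734 : lp7 (fun s => chk (uent L3734 s)) 0 = true := by decide +kernel
theorem p3734 : PrV chk L3734 := leafV c3734

theorem c3735 : lp7 (fun s => chk (uent L3735 s)) 0 = true := by decide +kernel
theorem p3735 : PrV chk L3735 := leafV c3735

theorem c3736 : lp7 (fun s => chk (uent L3736 s)) 0 = true := by decide +kernel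
theorem p3736 : PrV chk L3736 := leafV c3736

theorem c3737 : lp7 (fun s => chk (uent L3737 s)) 0 = true := by decide +kernel
theorem p3737 : PrV chk L3737 := leafV c3737

theorem c3738 : lp7 (fun s => chk (uent L3738 s)) 0 = true := by decide +kernel
theorem p3738 : PrV chk L3738 := leafV c3738

theorem c3739 : lp7 (fun s => chk (uent L3739 s)) 0 = true := by decide +kernel
theorem p3739 : PrV chk L3739 := leafV c3739

theorem c3740 : lp7 (fun s => chk (uent L3740 s)) 0 = true := by decide +kernel
theorem p3740 : PrV chk L3740 := leafV c3740

theorem c3741 : lp7 (fun s => chk (uent L3741 s)) 0 = true := by decide +kernel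
theorem p3741 : PrV chk L3741 := leafV c3741

theorem c3742 : lp7 (fun s => chk (uent L3742 s)) 0 = true := by decide +kernel
theorem p3742 : PrV chk L3742 := leafV c3742

theorem c3743 : lp7 (fun s => chk (uent L3743 s)) 0 = true := by decide +kernel
theorem p3743 : PrV chk L3743 := leafV c3743

theorem c3744 : lp7 (fun s => chk (uent L3744 s)) 0 = true := by decide +kernel
theorem p3744 : PrV chk L3744 := leafV c3744

theorem c3745 : lp7 (fun s => chk (uent L3745 s)) 0 = true := by decide +kernel
theorem p3745 : PrV chk L3745 := leafV c3745

theorem c3746 : lp7 (fun s => chk (uent L3746 s)) 0 = true := by decide +kernel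
theorem p3746 : PrV chk L3746 := leafV c3746

theorem c3747 : lp7 (fun s => chk (uent L3747 s)) 0 = true := by decide +kernel
theorem p3747 : PrV chk L3747 := leafV c3747

theorem c3748 : lp7 (fun s => chk (uent L3748 s)) 0 = true := by decide +kernel
theorem p3748 : PrV chk L3748 := leafV c3748

theorem c3749 : lp7 (fun s => chk (uent L3749 s)) 0 = true := by decide +kernel
theorem p3749 : PrV chk L3749 := leafV c3749

theorem c3750 : lp7 (fun s => chk (uent L3750 s)) 0 = true := by decide +kernel
theorem p3750 : PrV chk L3750 := leafV c3750

theorem c3751 : lp7 (fun s => chk (uent L3751 s)) 0 = true := by decide +kernel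
theorem p3751 : PrV chk L3751 := leafV c3751

theorem c3752 : lp7 (fun s => chk (uent L3752 s)) 0 = true := by decide +kernel
theorem p3752 : PrV chk L3752 := leafV c3752

theorem c3753 : lp7 (fun s => chk (uent L3753 s)) 0 = true := by decide +kernel
theorem p3753 : PrV chk L3753 := leafV c3753

theorem c3754 : lp7 (fun s => chk (uent L3754 s)) 0 = true := by decide +kernel
theorem p3754 : PrV chk L3754 := leafV c3754

theorem c3755 : lp7 (fun s => chk (uent L3755 s)) 0 = true := by decide +kernel
theorem p3755 : PrV chk L3755 := leafV c3755

theorem c3756 : lp7 (fun s => chk (uent L3756 s)) 0 = true := by decide +kernel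
theorem p3756 : PrV chk L3756 := leafV c3756

theorem c3757 : lp7 (fun s => chk (uent L3757 s)) 0 = true := by decide +kernel
theorem p3757 : PrV chk L3757 := leafV c3757

theorem c3758 : lp7 (fun s => chk (uent L3758 s)) 0 = true := by decide +kernel
theorem p3758 : PrV chk L3758 := leafV c3758

theorem c3759 : lp7 (fun s => chk (uent L3759 s)) 0 = true := by decide +kernel
theorem p3759 : PrV chk L3759 := leafV c3759

theorem c3760 : lp7 (fun s => chk (uent L3760 s)) 0 = true := by decide +kernel
theorem p3760 : PrV chk L3760 := leafV c3760

theorem c3761 : lp7 (fun s => chk (uent L3761 s)) 0 = true := by decide +kernel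
theorem p3761 : PrV chk L3761 := leafV c3761

theorem c3762 : lp7 (fun s => chk (uent L3762 s)) 0 = true := by decide +kernel
theorem p3762 : PrV chk L3762 := leafV c3762

theorem c3763 : lp7 (fun s => chk (uent L3763 s)) 0 = true := by decide +kernel
theorem p3763 : PrV chk L3763 := leafV c3763

theorem c3764 : lp7 (fun s => chk (uent L3764 s)) 0 = true := by decide +kernel
theorem p3764 : PrV chk L3764 := leafV c3764

theorem c3765 : lp7 (fun s => chk (uent L3765 s)) 0 = true := by decide +kernel
theorem p3765 : PrV chk L3765 := leafV c3765

theorem c3766 : lp7 (fun s => chk (uent L3766 s)) 0 = true := by decide +kernel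
theorem p3766 : PrV chk L3766 := leafV c3766

theorem c3767 : lp7 (fun s => chk (uent L3767 s)) 0 = true := by decide +kernel
theorem p3767 : PrV chk L3767 := leafV c3767

theorem c3768 : lp7 (fun s => chk (uent L3768 s)) 0 = true := by decide +kernel
theorem p3768 : PrV chk L3768 := leafV c3768

theorem c3769 : lp7 (fun s => chk (uent L3769 s)) 0 = true := by decide +kernel
theorem p3769 : PrV chk L3769 := leafV c3769

theorem c3770 : lp7 (fun s => chk (uent L3770 s)) 0 = true := by decide +kernel
theorem p3770 : PrV chk L3770 := leafV c3770

theorem c3771 : lp7 (fun s => chk (uent L3771 s)) 0 = true := by decide +kernel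
theorem p3771 : PrV chk L3771 := leafV c3771

theorem c3772 : lp7 (fun s => chk (uent L3772 s)) 0 = true := by decide +kernel
theorem p3772 : PrV chk L3772 := leafV c3772

theorem c3773 : lp7 (fun s => chk (uent L3773 s)) 0 = true := by decide +kernel
theorem p3773 : PrV chk L3773 := leafV c3773

theorem c3774 : lp7 (fun s => chk (uent L3774 s)) 0 = true := by decide +kernel
theorem p3774 : PrV chk L3774 := leafV c3774

theorem c3775 : lp7 (fun s => chk (uent L3775 s)) 0 = true := by decide +kernel
theorem p3775 : PrV chk L3775 := leafV c3775

theorem c3776 : lp7 (fun s => chk (uent L3776 s)) 0 = true := by decide +kernel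
theorem p3776 : PrV chk L3776 := leafV c3776

theorem c3777 : lp7 (fun s => chk (uent L3777 s)) 0 = true := by decide +kernel
theorem p3777 : PrV chk L3777 := leafV c3777

theorem c3778 : lp7 (fun s => chk (uent L3778 s)) 0 = true := by decide +kernel
theorem p3778 : PrV chk L3778 := leafV c3778

theorem c3779 : lp7 (fun s => chk (uent L3779 s)) 0 = true := by decide +kernel
theorem p3779 : PrV chk L3779 := leafV c3779

theorem c3780 : lp7 (fun s => chk (uent L3780 s)) 0 = true := by decide +kernel
theorem p3780 : PrV chk L3780 := leafV c3780

theorem c3781 : lp7 (fun s => chk (uent L3781 s)) 0 = true := by decide +kernel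
theorem p3781 : PrV chk L3781 := leafV c3781

theorem c3782 : lp7 (fun s => chk (uent L3782 s)) 0 = true := by decide +kernel
theorem p3782 : PrV chk L3782 := leafV c3782

theorem c3783 : lp7 (fun s => chk (uent L3783 s)) 0 = true := by decide +kernel
theorem p3783 : PrV chk L3783 := leafV c3783

theorem c3784 : lp7 (fun s => chk (uent L3784 s)) 0 = true := by decide +kernel
theorem p3784 : PrV chk L3784 := leafV c3784

theorem c3785 : lp7 (fun s => chk (uent L3785 s)) 0 = true := by decide +kernel
theorem p3785 : PrV chk L3785 := leafV c3785

theorem c3786 : lp7 (fun s => chk (uent L3786 s)) 0 = true := by decide +kernel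
theorem p3786 : PrV chk L3786 := leafV c3786

theorem c3787 : lp7 (fun s => chk (uent L3787 s)) 0 = true := by decide +kernel
theorem p3787 : PrV chk L3787 := leafV c3787

theorem c3788 : lp7 (fun s => chk (uent L3788 s)) 0 = true := by decide +kernel
theorem p3788 : PrV chk L3788 := leafV c3788

theorem c3789 : lp7 (fun s => chk (uent L3789 s)) 0 = true := by decide +kernel
theorem p3789 : PrV chk L3789 := leafV c3789

theorem c3790 : lp7 (fun s => chk (uent L3790 s)) 0 = true := by decide +kernel
theorem p3790 : PrV chk L3790 := leafV c3790

theorem c3791 : lp7 (fun s => chk (uent L3791 s)) 0 = true := by decide +kernel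
theorem p3791 : PrV chk L3791 := leafV c3791

theorem c3792 : lp7 (fun s => chk (uent L3792 s)) 0 = true := by decide +kernel
theorem p3792 : PrV chk L3792 := leafV c3792

theorem c3793 : lp7 (fun s => chk (uent L3793 s)) 0 = true := by decide +kernel
theorem p3793 : PrV chk L3793 := leafV c3793

theorem c3794 : lp7 (fun s => chk (uent L3794 s)) 0 = true := by decide +kernel
theorem p3794 : PrV chk L3794 := leafV c3794

theorem c3795 : lp7 (fun s => chk (uent L3795 s)) 0 = true := by decide +kernel
theorem p3795 : PrV chk L3795 := leafV c3795

theorem c3796 : lp7 (fun s => chk (uent L3796 s)) 0 = true := by decide +kernel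
theorem p3796 : PrV chk L3796 := leafV c3796

theorem c3797 : lp7 (fun s => chk (uent L3797 s)) 0 = true := by decide +kernel
theorem p3797 : PrV chk L3797 := leafV c3797

theorem c3798 : lp7 (fun s => chk (uent L3798 s)) 0 = true := by decide +kernel
theorem p3798 : PrV chk L3798 := leafV c3798

theorem c3799 : lp7 (fun s => chk (uent L3799 s)) 0 = true := by decide +kernel
theorem p3799 : PrV chk L3799 := leafV c3799

theorem c3800 : lp7 (fun s => chk (uent L3800 s)) 0 = true := by decide +kernel
theorem p3800 : PrV chk L3800 := leafV c3800

theorem c3801 : lp7 (fun s => chk (uent L3801 s)) 0 = true := by decide +kernel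
theorem p3801 : PrV chk L3801 := leafV c3801

theorem c3802 : lp7 (fun s => chk (uent L3802 s)) 0 = true := by decide +kernel
theorem p3802 : PrV chk L3802 := leafV c3802

theorem c3803 : lp7 (fun s => chk (uent L3803 s)) 0 = true := by decide +kernel
theorem p3803 : PrV chk L3803 := leafV c3803

theorem c3804 : lp7 (fun s => chk (uent L3804 s)) 0 = true := by decide +kernel
theorem p3804 : PrV chk L3804 := leafV c3804

theorem c3805 : lp7 (fun s => chk (uent L3805 s)) 0 = true := by decide +kernel
theorem p3805 : PrV chk L3805 := leafV c3805

theorem c3806 : lp7 (fun s => chk (uent L3806 s)) 0 = true := by decide +kernel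
theorem p3806 : PrV chk L3806 := leafV c3806

theorem c3807 : lp7 (fun s => chk (uent L3807 s)) 0 = true := by decide +kernel
theorem p3807 : PrV chk L3807 := leafV c3807

theorem c3808 : lp7 (fun s => chk (uent L3808 s)) 0 = true := by decide +kernel
theorem p3808 : PrV chk L3808 := leafV c3808

theorem c3809 : lp7 (fun s => chk (uent L3809 s)) 0 = true := by decide +kernel
theorem p3809 : PrV chk L3809 := leafV c3809

theorem c3810 : lp7 (fun s => chk (uent L3810 s)) 0 = true := by decide +kernel
theorem p3810 : PrV chk L3810 := leafV c3810

theorem c3811 : lp7 (fun s => chk (uent L3811 s)) 0 = true := by decide +kernel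
theorem p3811 : PrV chk L3811 := leafV c3811

theorem c3812 : lp7 (fun s => chk (uent L3812 s)) 0 = true := by decide +kernel
theorem p3812 : PrV chk L3812 := leafV c3812

theorem c3813 : lp7 (fun s => chk (uent L3813 s)) 0 = true := by decide +kernel
theorem p3813 : PrV chk L3813 := leafV c3813

theorem c3814 : lp7 (fun s => chk (uent L3814 s)) 0 = true := by decide +kernel
theorem p3814 : PrV chk L3814 := leafV c3814

theorem c3815 : lp7 (fun s => chk (uent L3815 s)) 0 = true := by decide +kernel
theorem p3815 : PrV chk L3815 := leafV c3815

theorem c3816 : lp7 (fun s => chk (uent L3816 s)) 0 = true := by decide +kernel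
theorem p3816 : PrV chk L3816 := leafV c3816

theorem c3817 : lp7 (fun s => chk (uent L3817 s)) 0 = true := by decide +kernel
theorem p3817 : PrV chk L3817 := leafV c3817

theorem c3818 : lp7 (fun s => chk (uent L3818 s)) 0 = true := by decide +kernel
theorem p3818 : PrV chk L3818 := leafV c3818

theorem c3819 : lp7 (fun s => chk (uent L3819 s)) 0 = true := by decide +kernel
theorem p3819 : PrV chk L3819 := leafV c3819

theorem c3820 : lp7 (fun s => chk (uent L3820 s)) 0 = true := by decide +kernel
theorem p3820 : PrV chk L3820 := leafV c3820

theorem c3821 : lp7 (fun s => chk (uent L3821 s)) 0 = true := by decide +kernel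
theorem p3821 : PrV chk L3821 := leafV c3821

theorem c3822 : lp7 (fun s => chk (uent L3822 s)) 0 = true := by decide +kernel
theorem p3822 : PrV chk L3822 := leafV c3822

theorem c3823 : lp7 (fun s => chk (uent L3823 s)) 0 = true := by decide +kernel
theorem p3823 : PrV chk L3823 := leafV c3823

theorem c3824 : lp7 (fun s => chk (uent L3824 s)) 0 = true := by decide +kernel
theorem p3824 : PrV chk L3824 := leafV c3824

theorem c3825 : lp7 (fun s => chk (uent L3825 s)) 0 = true := by decide +kernel
theorem p3825 : PrV chk L3825 := leafV c3825

theorem c3826 : lp7 (fun s => chk (uent L3826 s)) 0 = true := by decide +kernel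
theorem p3826 : PrV chk L3826 := leafV c3826

theorem c3827 : lp7 (fun s => chk (uent L3827 s)) 0 = true := by decide +kernel
theorem p3827 : PrV chk L3827 := leafV c3827

theorem c3828 : lp7 (fun s => chk (uent L3828 s)) 0 = true := by decide +kernel
theorem p3828 : PrV chk L3828 := leafV c3828

theorem c3829 : lp7 (fun s => chk (uent L3829 s)) 0 = true := by decide +kernel
theorem p3829 : PrV chk L3829 := leafV c3829

theorem c3830 : lp7 (fun s => chk (uent L3830 s)) 0 = true := by decide +kernel
theorem p3830 : PrV chk L3830 := leafV c3830

theorem c3831 : lp7 (fun s => chk (uent L3831 s)) 0 = true := by decide +kernel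
theorem p3831 : PrV chk L3831 := leafV c3831

theorem c3832 : lp7 (fun s => chk (uent L3832 s)) 0 = true := by decide +kernel
theorem p3832 : PrV chk L3832 := leafV c3832

theorem c3833 : lp7 (fun s => chk (uent L3833 s)) 0 = true := by decide +kernel
theorem p3833 : PrV chk L3833 := leafV c3833

theorem c3834 : lp7 (fun s => chk (uent L3834 s)) 0 = true := by decide +kernel
theorem p3834 : PrV chk L3834 := leafV c3834

theorem c3835 : lp7 (fun s => chk (uent L3835 s)) 0 = true := by decide +kernel
theorem p3835 : PrV chk L3835 := leafV c3835

theorem c3836 : lp7 (fun s => chk (uent L3836 s)) 0 = true := by decide +kernel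
theorem p3836 : PrV chk L3836 := leafV c3836

theorem c3837 : lp7 (fun s => chk (uent L3837 s)) 0 = true := by decide +kernel
theorem p3837 : PrV chk L3837 := leafV c3837

theorem c3838 : lp7 (fun s => chk (uent L3838 s)) 0 = true := by decide +kernel
theorem p3838 : PrV chk L3838 := leafV c3838

theorem c3839 : lp7 (fun s => chk (uent L3839 s)) 0 = true := by decide +kernel
theorem p3839 : PrV chk L3839 := leafV c3839

end Pool.Agent.ad013a.W
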