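import Pool.Agent.H.MP_ad013a_pr.h63w.A.T
import Pool.Agent.H.MP_ad013a_pr.h63w.VLoop

namespace Pool.Agent.ad013a.W

theorem c384 : lp7 (fun s => chk (uent L384 s)) 0 = true := by decide +kernel
theorem p384 : PrV chk L384 := leafV c384

theorem c385 : lp7 (fun s => chk (uent L385 s)) 0 = true := by decide +kernel
theorem p385 : PrV chk L385 := leafV c385

theorem c386 : lp7 (fun s => chk (uent L386 s)) 0 = true := by decide +kernel
theorem p386 : PrV chk L386 := leafV c386

theorem c387 : lp7 (fun s => chk (uent L387 s)) 0 = true := by decide +kernel
theorem p387 : PrV chk L387 := leafV c387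

theorem c388 : lp7 (fun s => chk (uent L388 s)) 0 = true := by decide +kernel
theorem p388 : PrV chk L388 := leafV c388

theorem c389 : lp7 (fun s => chk (uent L389 s)) 0 = true := by decide +kernel
theorem p389 : PrV chk L389 := leafV c389

theorem c390 : lp7 (fun s => chk (uent L390 s)) 0 = true := by decide +kernel
theorem p390 : PrV chk L390 := leafV c390

theorem c391 : lp7 (fun s => chk (uent L391 s)) 0 = true := by decide +kernel
theorem p391 : PrV chk L391 := leafV c391

theorem c392 : lp7 (fun s => chk (uent L392 s)) 0 = true := by decide +kernel
theorem p392 : PrV chk L392 := leafV c392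

theorem c393 : lp7 (fun s => chk (uent L393 s)) 0 = true := by decide +kernel
theorem p393 : PrV chk L393 := leafV c393

theorem c394 : lp7 (fun s => chk (uent L394 s)) 0 = true := by decide +kernel
theorem p394 : PrV chk L394 := leafV c394

theorem c395 : lp7 (fun s => chk (uent L395 s)) 0 = true := by decide +kernel
theorem p395 : PrV chk L395 := leafV c395

theorem c396 : lp7 (fun s => chk (uent L396 s)) 0 = true := by decide +kernel
theorem p396 : PrV chk L396 := leafV c396

theorem c397 : lp7 (fun s => chk (uent L397 s)) 0 = true := by decide +kernel
theorem p397 : PrV chk L397 := leafV c397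

theorem c398 : lp7 (fun s => chk (uent L398 s)) 0 = true := by decide +kernel
theorem p398 : PrV chk L398 := leafV c398

theorem c399 : lp7 (fun s => chk (uent L399 s)) 0 = true := by decide +kernel
theorem p399 : PrV chk L399 := leafV c399

theorem c400 : lp7 (fun s => chk (uent L400 s)) 0 = true := by decide +kernel
theorem p400 : PrV chk L400 := leafV c400

theorem c401 : lp7 (fun s => chk (uent L401 s)) 0 = true := by decide +kernel
theorem p401 : PrV chk L401 := leafV c401

theorem c402 : lp7 (fun s => chk (uent L402 s)) 0 = true := by decide +kernel
theorem p402 : PrV chk L402 := leafV c402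

theorem c403 : lp7 (fun s => chk (uent L403 s)) 0 = true := by decide +kernel
theorem p403 : PrV chk L403 := leafV c403

theorem c404 : lp7 (fun s => chk (uent L404 s)) 0 = true := by decide +kernel
theorem p404 : PrV chk L404 := leafV c404

theorem c405 : lp7 (fun s => chk (uent L405 s)) 0 = true := by decide +kernel
theorem p405 : PrV chk L405 := leafV c405

theorem c406 : lp7 (fun s => chk (uent L406 s)) 0 = true := by decide +kernel
theorem p406 : PrV chk L406 := leafV c406

theorem c407 : lp7 (fun s => chk (uent L407 s)) 0 = true := by decide +kernel
theorem p407 : PrV chk L407 := leafV c407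

theorem c408 : lp7 (fun s => chk (uent L408 s)) 0 = true := by decide +kernel
theorem p408 : PrV chk L408 := leafV c408

theorem c409 : lp7 (fun s => chk (uent L409 s)) 0 = true := by decide +kernel
theorem p409 : PrV chk L409 := leafV c409

theorem c410 : lp7 (fun s => chk (uent L410 s)) 0 = true := by decide +kernel
theorem p410 : PrV chk L410 := leafV c410

theorem c411 : lp7 (fun s => chk (uent L411 s)) 0 = true := by decide +kernel
theorem p411 : PrV chk L411 := leafV c411

theorem c412 : lp7 (fun s => chk (uent L412 s)) 0 = true := by decide +kernel
theorem p412 : PrV chk L412 := leafV c412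

theorem c413 : lp7 (fun s => chk (uent L413 s)) 0 = true := by decide +kernel
theorem p413 : PrV chk L413 := leafV c413

theorem c414 : lp7 (fun s => chk (uent L414 s)) 0 = true := by decide +kernel
theorem p414 : PrV chk L414 := leafV c414

theorem c415 : lp7 (fun s => chk (uent L415 s)) 0 = true := by decide +kernel
theorem p415 : PrV chk L415 := leafV c415

theorem c416 : lp7 (fun s => chk (uent L416 s)) 0 = true := by decide +kernel
theorem p416 : PrV chk L416 := leafV c416

theorem c417 : lp7 (fun s => chk (uent L417 s)) 0 = true := by decide +kernel
theorem p417 : PrV chk L417 := leafV c417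

theorem c418 : lp7 (fun s => chk (uent L418 s)) 0 = true := by decide +kernel
theorem p418 : PrV chk L418 := leafV c418

theorem c419 : lp7 (fun s => chk (uent L419 s)) 0 = true := by decide +kernel
theorem p419 : PrV chk L419 := leafV c419

theorem c420 : lp7 (fun s => chk (uent L420 s)) 0 = true := by decide +kernel
theorem p420 : PrV chk L420 := leafV c420

theorem c421 : lp7 (fun s => chk (uent L421 s)) 0 = true := by decide +kernel
theorem p421 : PrV chk L421 := leafV c421

theorem c422 : lp7 (fun s => chk (uent L422 s)) 0 = true := by decide +kernel
theorem p422 : PrV chk L422 := leafV c422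

theorem c423 : lp7 (fun s => chk (uent L423 s)) 0 = true := by decide +kernel
theorem p423 : PrV chk L423 := leafV c423

theorem c424 : lp7 (fun s => chk (uent L424 s)) 0 = true := by decide +kernel
theorem p424 : PrV chk L424 := leafV c424

theorem c425 : lp7 (fun s => chk (uent L425 s)) 0 = true := by decide +kernel
theorem p425 : PrV chk L425 := leafV c425

theorem c426 : lp7 (fun s => chk (uent L426 s)) 0 = true := by decide +kernel
theorem p426 : PrV chk L426 := leafV c426

theorem c427 : lp7 (fun s => chk (uent L427 s)) 0 = true := by decide +kernel
theorem p427 : PrV chk L427 := leafV c427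

theorem c428 : lp7 (fun s => chk (uent L428 s)) 0 = true := by decide +kernel
theorem p428 : PrV chk L428 := leafV c428

theorem c429 : lp7 (fun s => chk (uent L429 s)) 0 = true := by decide +kernel
theorem p429 : PrV chk L429 := leafV c429

theorem c430 : lp7 (fun s => chk (uent L430 s)) 0 = true := by decide +kernel
theorem p430 : PrV chk L430 := leafV c430

theorem c431 : lp7 (fun s => chk (uent L431 s)) 0 = true := by decide +kernel
theorem p431 : PrV chk L431 := leafV c431

theorem c432 : lp7 (fun s => chk (uent L432 s)) 0 = true := by decide +kernel
theorem p432 : PrV chk L432 := leafV c432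

theorem c433 : lp7 (fun s => chk (uent L433 s)) 0 = true := by decide +kernel
theorem p433 : PrV chk L433 := leafV c433

theorem c434 : lp7 (fun s => chk (uent L434 s)) 0 = true := by decide +kernel
theorem p434 : PrV chk L434 := leafV c434

theorem c435 : lp7 (fun s => chk (uent L435 s)) 0 = true := by decide +kernel
theorem p435 : PrV chk L435 := leafV c435

theorem c436 : lp7 (fun s => chk (uent L436 s)) 0 = true := by decide +kernel
theorem p436 : PrV chk L436 := leafV c436

theorem c437 : lp7 (fun s => chk (uent L437 s)) 0 = true := by decide +kernel
theorem p437 : PrV chk L437 := leafV c437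

theorem c438 : lp7 (fun s => chk (uent L438 s)) 0 = true := by decide +kernel
theorem p438 : PrV chk L438 := leafV c438

theorem c439 : lp7 (fun s => chk (uent L439 s)) 0 = true := by decide +kernel
theorem p439 : PrV chk L439 := leafV c439

theorem c440 : lp7 (fun s => chk (uent L440 s)) 0 = true := by decide +kernel
theorem p440 : PrV chk L440 := leafV c440

theorem c441 : lp7 (fun s => chk (uent L441 s)) 0 = true := by decide +kernel
theorem p441 : PrV chk L441 := leafV c441

theorem c442 : lp7 (fun s => chk (uent L442 s)) 0 = true := by decide +kernel
theorem p442 : PrV chk L442 := leafV c442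

theorem c443 : lp7 (fun s => chk (uent L443 s)) 0 = true := by decide +kernel
theorem p443 : PrV chk L443 := leafV c443

theorem c444 : lp7 (fun s => chk (uent L444 s)) 0 = true := by decide +kernel
theorem p444 : PrV chk L444 := leafV c444

theorem c445 : lp7 (fun s => chk (uent L445 s)) 0 = true := by decide +kernel
theorem p445 : PrV chk L445 := leafV c445

theorem c446 : lp7 (fun s => chk (uent L446 s)) 0 = true := by decide +kernel
theorem p446 : PrV chk L446 := leafV c446

theorem c447 : lp7 (fun s => chk (uent L447 s)) 0 = true := by decide +kernel
theorem p447 : PrV chk L447 := leafV c447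

theorem c448 : lp7 (fun s => chk (uent L448 s)) 0 = true := by decide +kernel
theorem p448 : PrV chk L448 := leafV c448

theorem c449 : lp7 (fun s => chk (uent L449 s)) 0 = true := by decide +kernel
theorem p449 : PrV chk L449 := leafV c449

theorem c450 : lp7 (fun s => chk (uent L450 s)) 0 = true := by decide +kernel
theorem p450 : PrV chk L450 := leafV c450

theorem c451 : lp7 (fun s => chk (uent L451 s)) 0 = true := by decide +kernel
theorem p451 : PrV chk L451 := leafV c451

theorem c452 : lp7 (fun s => chk (uent L452 s)) 0 = true := by decide +kernel
theorem p452 : PrV chk L452 := leafV c452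

theorem c453 : lp7 (fun s => chk (uent L453 s)) 0 = true := by decide +kernel
theorem p453 : PrV chk L453 := leafV c453

theorem c454 : lp7 (fun s => chk (uent L454 s)) 0 = true := by decide +kernel
theorem p454 : PrV chk L454 := leafV c454

theorem c455 : lp7 (fun s => chk (uent L455 s)) 0 = true := by decide +kernel
theorem p455 : PrV chk L455 := leafV c455

theorem c456 : lp7 (fun s => chk (uent L456 s)) 0 = true := by decide +kernel
theorem p456 : PrV chk L456 := leafV c456

theorem c457 : lp7 (fun s => chk (uent L457 s)) 0 = true := by decide +kernel
theorem p457 : PrV chk L457 := leafV c457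

theorem c458 : lp7 (fun s => chk (uent L458 s)) 0 = true := by decide +kernel
theorem p458 : PrV chk L458 := leafV c458

theorem c459 : lp7 (fun s => chk (uent L459 s)) 0 = true := by decide +kernel
theorem p459 : PrV chk L459 := leafV c459

theorem c460 : lp7 (fun s => chk (uent L460 s)) 0 = true := by decide +kernel
theorem p460 : PrV chk L460 := leafV c460

theorem c461 : lp7 (fun s => chk (uent L461 s)) 0 = true := by decide +kernel
theorem p461 : PrV chk L461 := leafV c461

theorem c462 : lp7 (fun s => chk (uent L462 s)) 0 = true := by decide +kernel
theorem p462 : PrV chk L462 := leafV c462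

theorem c463 : lp7 (fun s => chk (uent L463 s)) 0 = true := by decide +kernel
theorem p463 : PrV chk L463 := leafV c463

theorem c464 : lp7 (fun s => chk (uent L464 s)) 0 = true := by decide +kernel
theorem p464 : PrV chk L464 := leafV c464

theorem c465 : lp7 (fun s => chk (uent L465 s)) 0 = true := by decide +kernel
theorem p465 : PrV chk L465 := leafV c465

theorem c466 : lp7 (fun s => chk (uent L466 s)) 0 = true := by decide +kernel
theorem p466 : PrV chk L466 := leafV c466

theorem c467 : lp7 (fun s => chk (uent L467 s)) 0 = true := by decide +kernel
theorem p467 : PrV chk L467 := leafV c467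

theorem c468 : lp7 (fun s => chk (uent L468 s)) 0 = true := by decide +kernel
theorem p468 : PrV chk L468 := leafV c468

theorem c469 : lp7 (fun s => chk (uent L469 s)) 0 = true := by decide +kernel
theorem p469 : PrV chk L469 := leafV c469

theorem c470 : lp7 (fun s => chk (uent L470 s)) 0 = true := by decide +kernel
theorem p470 : PrV chk L470 := leafV c470

theorem c471 : lp7 (fun s => chk (uent L471 s)) 0 = true := by decide +kernel
theorem p471 : PrV chk L471 := leafV c471

theorem c472 : lp7 (fun s => chk (uent L472 s)) 0 = true := by decide +kernel
theorem p472 : PrV chk L472 := leafV c472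

theorem c473 : lp7 (fun s => chk (uent L473 s)) 0 = true := by decide +kernel
theorem p473 : PrV chk L473 := leafV c473

theorem c474 : lp7 (fun s => chk (uent L474 s)) 0 = true := by decide +kernel
theorem p474 : PrV chk L474 := leafV c474

theorem c475 : lp7 (fun s => chk (uent L475 s)) 0 = true := by decide +kernel
theorem p475 : PrV chk L475 := leafV c475

theorem c476 : lp7 (fun s => chk (uent L476 s)) 0 = true := by decide +kernel
theorem p476 : PrV chk L476 := leafV c476

theorem c477 : lp7 (fun s => chk (uent L477 s)) 0 = true := by decide +kernel
theorem p477 : PrV chk L477 := leafV c477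

theorem c478 : lp7 (fun s => chk (uent L478 s)) 0 = true := by decide +kernel
theorem p478 : PrV chk L478 := leafV c478

theorem c479 : lp7 (fun s => chk (uent L479 s)) 0 = true := by decide +kernel
theorem p479 : PrV chk L479 := leafV c479

theorem c480 : lp7 (fun s => chk (uent L480 s)) 0 = true := by decide +kernel
theorem p480 : PrV chk L480 := leafV c480

theorem c481 : lp7 (fun s => chk (uent L481 s)) 0 = true := by decide +kernel
theorem p481 : PrV chk L481 := leafV c481

theorem c482 : lp7 (fun s => chk (uent L482 s)) 0 = true := by decide +kernel
theorem p482 : PrV chk L482 := leafV c482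

theorem c483 : lp7 (fun s => chk (uent L483 s)) 0 = true := by decide +kernel
theorem p483 : PrV chk L483 := leafV c483

theorem c484 : lp7 (fun s => chk (uent L484 s)) 0 = true := by decide +kernel
theorem p484 : PrV chk L484 := leafV c484

theorem c485 : lp7 (fun s => chk (uent L485 s)) 0 = true := by decide +kernel
theorem p485 : PrV chk L485 := leafV c485

theorem c486 : lp7 (fun s => chk (uent L486 s)) 0 = true := by decide +kernel
theorem p486 : PrV chk L486 := leafV c486

theorem c487 : lp7 (fun s => chk (uent L487 s)) 0 = true := by decide +kernel
theorem p487 : PrV chk L487 := leafV c487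

theorem c488 : lp7 (fun s => chk (uent L488 s)) 0 = true := by decide +kernel
theorem p488 : PrV chk L488 := leafV c488

theorem c489 : lp7 (fun s => chk (uent L489 s)) 0 = true := by decide +kernel
theorem p489 : PrV chk L489 := leafV c489

theorem c490 : lp7 (fun s => chk (uent L490 s)) 0 = true := by decide +kernel
theorem p490 : PrV chk L490 := leafV c490

theorem c491 : lp7 (fun s => chk (uent L491 s)) 0 = true := by decide +kernel
theorem p491 : PrV chk L491 := leafV c491

theorem c492 : lp7 (fun s => chk (uent L492 s)) 0 = true := by decide +kernel
theorem p492 : PrV chk L492 := leafV c492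

theorem c493 : lp7 (fun s => chk (uent L493 s)) 0 = true := by decide +kernel
theorem p493 : PrV chk L493 := leafV c493

theorem c494 : lp7 (fun s => chk (uent L494 s)) 0 = true := by decide +kernel
theorem p494 : PrV chk L494 := leafV c494

theorem c495 : lp7 (fun s => chk (uent L495 s)) 0 = true := by decide +kernel
theorem p495 : PrV chk L495 := leafV c495

theorem c496 : lp7 (fun s => chk (uent L496 s)) 0 = true := by decide +kernel
theorem p496 : PrV chk L496 := leafV c496

theorem c497 : lp7 (fun s => chk (uent L497 s)) 0 = true := by decide +kernel
theorem p497 : PrV chk L497 := leafV c497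

theorem c498 : lp7 (fun s => chk (uent L498 s)) 0 = true := by decide +kernel
theorem p498 : PrV chk L498 := leafV c498

theorem c499 : lp7 (fun s => chk (uent L499 s)) 0 = true := by decide +kernel
theorem p499 : PrV chk L499 := leafV c499

theorem c500 : lp7 (fun s => chk (uent L500 s)) 0 = true := by decide +kernel
theorem p500 : PrV chk L500 := leafV c500

theorem c501 : lp7 (fun s => chk (uent L501 s)) 0 = true := by decide +kernel
theorem p501 : PrV chk L501 := leafV c501

theorem c502 : lp7 (fun s => chk (uent L502 s)) 0 = true := by decide +kernel
theorem p502 : PrV chk L502 := leafV c502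

theorem c503 : lp7 (fun s => chk (uent L503 s)) 0 = true := by decide +kernel
theorem p503 : PrV chk L503 := leafV c503

theorem c504 : lp7 (fun s => chk (uent L504 s)) 0 = true := by decide +kernel
theorem p504 : PrV chk L504 := leafV c504

theorem c505 : lp7 (fun s => chk (uent L505 s)) 0 = true := by decide +kernel
theorem p505 : PrV chk L505 := leafV c505

theorem c506 : lp7 (fun s => chk (uent L506 s)) 0 = true := by decide +kernel
theorem p506 : PrV chk L506 := leafV c506

theorem c507 : lp7 (fun s => chk (uent L507 s)) 0 = true := by decide +kernel
theorem p507 : PrV chk L507 := leafV c507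

theorem c508 : lp7 (fun s => chk (uent L508 s)) 0 = true := by decide +kernel
theorem p508 : PrV chk L508 := leafV c508

theorem c509 : lp7 (fun s => chk (uent L509 s)) 0 = true := by decide +kernel
theorem p509 : PrV chk L509 := leafV c509

theorem c510 : lp7 (fun s => chk (uent L510 s)) 0 = true := by decide +kernel
theorem p510 : PrV chk L510 := leafV c510

theorem c511 : lp7 (fun s => chk (uent L511 s)) 0 = true := by decide +kernel
theorem p511 : PrV chk L511 := leafV c511

theorem c512 : lp7 (fun s => chk (uent L512 s)) 0 = true := by decide +kernel
theorem p512 : PrV chk L512 := leafV c512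

theorem c513 : lp7 (fun s => chk (uent L513 s)) 0 = true := by decide +kernel
theorem p513 : PrV chk L513 := leafV c513

theorem c514 : lp7 (fun s => chk (uent L514 s)) 0 = true := by decide +kernel
theorem p514 : PrV chk L514 := leafV c514

theorem c515 : lp7 (fun s => chk (uent L515 s)) 0 = true := by decide +kernel
theorem p515 : PrV chk L515 := leafV c515

theorem c516 : lp7 (fun s => chk (uent L516 s)) 0 = true := by decide +kernel
theorem p516 : PrV chk L516 := leafV c516

theorem c517 : lp7 (fun s => chk (uent L517 s)) 0 = true := by decide +kernel
theorem p517 : PrV chk L517 := leafV c517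

theorem c518 : lp7 (fun s => chk (uent L518 s)) 0 = true := by decide +kernel
theorem p518 : PrV chk L518 := leafV c518

theorem c519 : lp7 (fun s => chk (uent L519 s)) 0 = true := by decide +kernel
theorem p519 : PrV chk L519 := leafV c519

theorem c520 : lp7 (fun s => chk (uent L520 s)) 0 = true := by decide +kernel
theorem p520 : PrV chk L520 := leafV c520

theorem c521 : lp7 (fun s => chk (uent L521 s)) 0 = true := by decide +kernel
theorem p521 : PrV chk L521 := leafV c521

theorem c522 : lp7 (fun s => chk (uent L522 s)) 0 = true := by decide +kernel
theorem p522 : PrV chk L522 := leafV c522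

theorem c523 : lp7 (fun s => chk (uent L523 s)) 0 = true := by decide +kernel
theorem p523 : PrV chk L523 := leafV c523

theorem c524 : lp7 (fun s => chk (uent L524 s)) 0 = true := by decide +kernel
theorem p524 : PrV chk L524 := leafV c524

theorem c525 : lp7 (fun s => chk (uent L525 s)) 0 = true := by decide +kernel
theorem p525 : PrV chk L525 := leafV c525

theorem c526 : lp7 (fun s => chk (uent L526 s)) 0 = true := by decide +kernel
theorem p526 : PrV chk L526 := leafV c526

theorem c527 : lp7 (fun s => chk (uent L527 s)) 0 = true := by decide +kernel
theorem p527 : PrV chk L527 := leafV c527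

theorem c528 : lp7 (fun s => chk (uent L528 s)) 0 = true := by decide +kernel
theorem p528 : PrV chk L528 := leafV c528

theorem c529 : lp7 (fun s => chk (uent L529 s)) 0 = true := by decide +kernel
theorem p529 : PrV chk L529 := leafV c529

theorem c530 : lp7 (fun s => chk (uent L530 s)) 0 = true := by decide +kernel
theorem p530 : PrV chk L530 := leafV c530

theorem c531 : lp7 (fun s => chk (uent L531 s)) 0 = true := by decide +kernel
theorem p531 : PrV chk L531 := leafV c531

theorem c532 : lp7 (fun s => chk (uent L532 s)) 0 = true := by decide +kernel
theorem p532 : PrV chk L532 := leafV c532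

theorem c533 : lp7 (fun s => chk (uent L533 s)) 0 = true := by decide +kernel
theorem p533 : PrV chk L533 := leafV c533

theorem c534 : lp7 (fun s => chk (uent L534 s)) 0 = true := by decide +kernel
theorem p534 : PrV chk L534 := leafV c534

theorem c535 : lp7 (fun s => chk (uent L535 s)) 0 = true := by decide +kernel
theorem p535 : PrV chk L535 := leafV c535

theorem c536 : lp7 (fun s => chk (uent L536 s)) 0 = true := by decide +kernel
theorem p536 : PrV chk L536 := leafV c536

theorem c537 : lp7 (fun s => chk (uent L537 s)) 0 = true := by decide +kernel
theorem p537 : PrV chk L537 := leafV c537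

theorem c538 : lp7 (fun s => chk (uent L538 s)) 0 = true := by decide +kernel
theorem p538 : PrV chk L538 := leafV c538

theorem c539 : lp7 (fun s => chk (uent L539 s)) 0 = true := by decide +kernel
theorem p539 : PrV chk L539 := leafV c539

theorem c540 : lp7 (fun s => chk (uent L540 s)) 0 = true := by decide +kernel
theorem p540 : PrV chk L540 := leafV c540

theorem c541 : lp7 (fun s => chk (uent L541 s)) 0 = true := by decide +kernel
theorem p541 : PrV chk L541 := leafV c541

theorem c542 : lp7 (fun s => chk (uent L542 s)) 0 = true := by decide +kernel
theorem p542 : PrV chk L542 := leafV c542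

theorem c543 : lp7 (fun s => chk (uent L543 s)) 0 = true := by decide +kernel
theorem p543 : PrV chk L543 := leafV c543

theorem c544 : lp7 (fun s => chk (uent L544 s)) 0 = true := by decide +kernel
theorem p544 : PrV chk L544 := leafV c544

theorem c545 : lp7 (fun s => chk (uent L545 s)) 0 = true := by decide +kernel
theorem p545 : PrV chk L545 := leafV c545

theorem c546 : lp7 (fun s => chk (uent L546 s)) 0 = true := by decide +kernel
theorem p546 : PrV chk L546 := leafV c546

theorem c547 : lp7 (fun s => chk (uent L547 s)) 0 = true := by decide +kernel
theorem p547 : PrV chk L547 := leafV c547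

theorem c548 : lp7 (fun s => chk (uent L548 s)) 0 = true := by decide +kernel
theorem p548 : PrV chk L548 := leafV c548

theorem c549 : lp7 (fun s => chk (uent L549 s)) 0 = true := by decide +kernel
theorem p549 : PrV chk L549 := leafV c549

theorem c550 : lp7 (fun s => chk (uent L550 s)) 0 = true := by decide +kernel
theorem p550 : PrV chk L550 := leafV c550

theorem c551 : lp7 (fun s => chk (uent L551 s)) 0 = true := by decide +kernel
theorem p551 : PrV chk L551 := leafV c551

theorem c552 : lp7 (fun s => chk (uent L552 s)) 0 = true := by decide +kernel
theorem p552 : PrV chk L552 := leafV c552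

theorem c553 : lp7 (fun s => chk (uent L553 s)) 0 = true := by decide +kernel
theorem p553 : PrV chk L553 := leafV c553

theorem c554 : lp7 (fun s => chk (uent L554 s)) 0 = true := by decide +kernel
theorem p554 : PrV chk L554 := leafV c554

theorem c555 : lp7 (fun s => chk (uent L555 s)) 0 = true := by decide +kernel
theorem p555 : PrV chk L555 := leafV c555

theorem c556 : lp7 (fun s => chk (uent L556 s)) 0 = true := by decide +kernel
theorem p556 : PrV chk L556 := leafV c556

theorem c557 : lp7 (fun s => chk (uent L557 s)) 0 = true := by decide +kernel
theorem p557 : PrV chk L557 := leafV c557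

theorem c558 : lp7 (fun s => chk (uent L558 s)) 0 = true := by decide +kernel
theorem p558 : PrV chk L558 := leafV c558

theorem c559 : lp7 (fun s => chk (uent L559 s)) 0 = true := by decide +kernel
theorem p559 : PrV chk L559 := leafV c559

theorem c560 : lp7 (fun s => chk (uent L560 s)) 0 = true := by decide +kernel
theorem p560 : PrV chk L560 := leafV c560

theorem c561 : lp7 (fun s => chk (uent L561 s)) 0 = true := by decide +kernel
theorem p561 : PrV chk L561 := leafV c561

theorem c562 : lp7 (fun s => chk (uent L562 s)) 0 = true := by decide +kernel
theorem p562 : PrV chk L562 := leafV c562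

theorem c563 : lp7 (fun s => chk (uent L563 s)) 0 = true := by decide +kernel
theorem p563 : PrV chk L563 := leafV c563

theorem c564 : lp7 (fun s => chk (uent L564 s)) 0 = true := by decide +kernel
theorem p564 : PrV chk L564 := leafV c564

theorem c565 : lp7 (fun s => chk (uent L565 s)) 0 = true := by decide +kernel
theorem p565 : PrV chk L565 := leafV c565

theorem c566 : lp7 (fun s => chk (uent L566 s)) 0 = true := by decide +kernel
theorem p566 : PrV chk L566 := leafV c566

theorem c567 : lp7 (fun s => chk (uent L567 s)) 0 = true := by decide +kernel
theorem p567 : PrV chk L567 := leafV c567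

theorem c568 : lp7 (fun s => chk (uent L568 s)) 0 = true := by decide +kernel
theorem p568 : PrV chk L568 := leafV c568

theorem c569 : lp7 (fun s => chk (uent L569 s)) 0 = true := by decide +kernel
theorem p569 : PrV chk L569 := leafV c569

theorem c570 : lp7 (fun s => chk (uent L570 s)) 0 = true := by decide +kernel
theorem p570 : PrV chk L570 := leafV c570

theorem c571 : lp7 (fun s => chk (uent L571 s)) 0 = true := by decide +kernel
theorem p571 : PrV chk L571 := leafV c571

theorem c572 : lp7 (fun s => chk (uent L572 s)) 0 = true := by decide +kernel
theorem p572 : PrV chk L572 := leafV c572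

theorem c573 : lp7 (fun s => chk (uent L573 s)) 0 = true := by decide +kernel
theorem p573 : PrV chk L573 := leafV c573

theorem c574 : lp7 (fun s => chk (uent L574 s)) 0 = true := by decide +kernel
theorem p574 : PrV chk L574 := leafV c574

theorem c575 : lp7 (fun s => chk (uent L575 s)) 0 = true := by decide +kernel
theorem p575 : PrV chk L575 := leafV c575

end Pool.Agent.ad013a.W
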