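import Pool.Agent.H.MP_ad013a_pr.h63w.A.T
import Pool.Agent.H.MP_ad013a_pr.h63w.VLoop

namespace Pool.Agent.ad013a.W

theorem c3840 : lp7 (fun s => chk (uent L3840 s)) 0 = true := by decide +kernel
theorem p3840 : PrV chk L3840 := leafV c3840

theorem c3841 : lp7 (fun s => chk (uent L3841 s)) 0 = true := by decide +kernel
theorem p3841 : PrV chk L3841 := leafV c3841

theorem c3842 : lp7 (fun s => chk (uent L3842 s)) 0 = true := by decide +kernel
theorem p3842 : PrV chk L3842 := leafV c3842

theorem c3843 : lp7 (fun s => chk (uent L3843 s)) 0 = true := by decide +kernel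
theorem p3843 : PrV chk L3843 := leafV c3843

theorem c3844 : lp7 (fun s => chk (uent L3844 s)) 0 = true := by decide +kernel
theorem p3844 : PrV chk L3844 := leafV c3844

theorem c3845 : lp7 (fun s => chk (uent L3845 s)) 0 = true := by decide +kernel
theorem p3845 : PrV chk L3845 := leafV c3845

theorem c3846 : lp7 (fun s => chk (uent L3846 s)) 0 = true := by decide +kernel
theorem p3846 : PrV chk L3846 := leafV c3846

theorem c3847 : lp7 (fun s => chk (uent L3847 s)) 0 = true := by decide +kernel
theorem p3847 : PrV chk L3847 := leafV c3847

theorem c3848 : lp7 (fun s => chk (uent L3848 s)) 0 = true := by decide +kernel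
theorem p3848 : PrV chk L3848 := leafV c3848

theorem c3849 : lp7 (fun s => chk (uent L3849 s)) 0 = true := by decide +kernel
theorem p3849 : PrV chk L3849 := leafV c3849

theorem c3850 : lp7 (fun s => chk (uent L3850 s)) 0 = true := by decide +kernel
theorem p3850 : PrV chk L3850 := leafV c3850

theorem c3851 : lp7 (fun s => chk (uent L3851 s)) 0 = true := by decide +kernel
theorem p3851 : PrV chk L3851 := leafV c3851

theorem c3852 : lp7 (fun s => chk (uent L3852 s)) 0 = true := by decide +kernel
theorem p3852 : PrV chk L3852 := leafV c3852

theorem c3853 : lp7 (fun s => chk (uent L3853 s)) 0 = true := by decide +kernel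
theorem p3853 : PrV chk L3853 := leafV c3853

theorem c3854 : lp7 (fun s => chk (uent L3854 s)) 0 = true := by decide +kernel
theorem p3854 : PrV chk L3854 := leafV c3854

theorem c3855 : lp7 (fun s => chk (uent L3855 s)) 0 = true := by decide +kernel
theorem p3855 : PrV chk L3855 := leafV c3855

theorem c3856 : lp7 (fun s => chk (uent L3856 s)) 0 = true := by decide +kernel
theorem p3856 : PrV chk L3856 := leafV c3856

theorem c3857 : lp7 (fun s => chk (uent L3857 s)) 0 = true := by decide +kernel
theorem p3857 : PrV chk L3857 := leafV c3857

theorem c3858 : lp7 (fun s => chk (uent L3858 s)) 0 = true := by decide +kernel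
theorem p3858 : PrV chk L3858 := leafV c3858

theorem c3859 : lp7 (fun s => chk (uent L3859 s)) 0 = true := by decide +kernel
theorem p3859 : PrV chk L3859 := leafV c3859

theorem c3860 : lp7 (fun s => chk (uent L3860 s)) 0 = true := by decide +kernel
theorem p3860 : PrV chk L3860 := leafV c3860

theorem c3861 : lp7 (fun s => chk (uent L3861 s)) 0 = true := by decide +kernel
theorem p3861 : PrV chk L3861 := leafV c3861

theorem c3862 : lp7 (fun s => chk (uent L3862 s)) 0 = true := by decide +kernel
theorem p3862 : PrV chk L3862 := leafV c3862

theorem c3863 : lp7 (fun s => chk (uent L3863 s)) 0 = true := by decide +kernel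
theorem p3863 : PrV chk L3863 := leafV c3863

theorem c3864 : lp7 (fun s => chk (uent L3864 s)) 0 = true := by decide +kernel
theorem p3864 : PrV chk L3864 := leafV c3864

theorem c3865 : lp7 (fun s => chk (uent L3865 s)) 0 = true := by decide +kernel
theorem p3865 : PrV chk L3865 := leafV c3865

theorem c3866 : lp7 (fun s => chk (uent L3866 s)) 0 = true := by decide +kernel
theorem p3866 : PrV chk L3866 := leafV c3866

theorem c3867 : lp7 (fun s => chk (uent L3867 s)) 0 = true := by decide +kernel
theorem p3867 : PrV chk L3867 := leafV c3867

theorem c3868 : lp7 (fun s => chk (uent L3868 s)) 0 = true := by decide +kernel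
theorem p3868 : PrV chk L3868 := leafV c3868

theorem c3869 : lp7 (fun s => chk (uent L3869 s)) 0 = true := by decide +kernel
theorem p3869 : PrV chk L3869 := leafV c3869

theorem c3870 : lp7 (fun s => chk (uent L3870 s)) 0 = true := by decide +kernel
theorem p3870 : PrV chk L3870 := leafV c3870

theorem c3871 : lp7 (fun s => chk (uent L3871 s)) 0 = true := by decide +kernel
theorem p3871 : PrV chk L3871 := leafV c3871

theorem c3872 : lp7 (fun s => chk (uent L3872 s)) 0 = true := by decide +kernel
theorem p3872 : PrV chk L3872 := leafV c3872

theorem c3873 : lp7 (fun s => chk (uent L3873 s)) 0 = true := by decide +kernel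
theorem p3873 : PrV chk L3873 := leafV c3873

theorem c3874 : lp7 (fun s => chk (uent L3874 s)) 0 = true := by decide +kernel
theorem p3874 : PrV chk L3874 := leafV c3874

theorem c3875 : lp7 (fun s => chk (uent L3875 s)) 0 = true := by decide +kernel
theorem p3875 : PrV chk L3875 := leafV c3875

theorem c3876 : lp7 (fun s => chk (uent L3876 s)) 0 = true := by decide +kernel
theorem p3876 : PrV chk L3876 := leafV c3876

theorem c3877 : lp7 (fun s => chk (uent L3877 s)) 0 = true := by decide +kernel
theorem p3877 : PrV chk L3877 := leafV c3877

theorem c3878 : lp7 (fun s => chk (uent L3878 s)) 0 = true := by decide +kernel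
theorem p3878 : PrV chk L3878 := leafV c3878

theorem c3879 : lp7 (fun s => chk (uent L3879 s)) 0 = true := by decide +kernel
theorem p3879 : PrV chk L3879 := leafV c3879

theorem c3880 : lp7 (fun s => chk (uent L3880 s)) 0 = true := by decide +kernel
theorem p3880 : PrV chk L3880 := leafV c3880

theorem c3881 : lp7 (fun s => chk (uent L3881 s)) 0 = true := by decide +kernel
theorem p3881 : PrV chk L3881 := leafV c3881

theorem c3882 : lp7 (fun s => chk (uent L3882 s)) 0 = true := by decide +kernel
theorem p3882 : PrV chk L3882 := leafV c3882

theorem c3883 : lp7 (fun s => chk (uent L3883 s)) 0 = true := by decide +kernel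
theorem p3883 : PrV chk L3883 := leafV c3883

theorem c3884 : lp7 (fun s => chk (uent L3884 s)) 0 = true := by decide +kernel
theorem p3884 : PrV chk L3884 := leafV c3884

theorem c3885 : lp7 (fun s => chk (uent L3885 s)) 0 = true := by decide +kernel
theorem p3885 : PrV chk L3885 := leafV c3885

theorem c3886 : lp7 (fun s => chk (uent L3886 s)) 0 = true := by decide +kernel
theorem p3886 : PrV chk L3886 := leafV c3886

theorem c3887 : lp7 (fun s => chk (uent L3887 s)) 0 = true := by decide +kernel
theorem p3887 : PrV chk L3887 := leafV c3887

theorem c3888 : lp7 (fun s => chk (uent L3888 s)) 0 = true := by decide +kernel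
theorem p3888 : PrV chk L3888 := leafV c3888

theorem c3889 : lp7 (fun s => chk (uent L3889 s)) 0 = true := by decide +kernel
theorem p3889 : PrV chk L3889 := leafV c3889

theorem c3890 : lp7 (fun s => chk (uent L3890 s)) 0 = true := by decide +kernel
theorem p3890 : PrV chk L3890 := leafV c3890

theorem c3891 : lp7 (fun s => chk (uent L3891 s)) 0 = true := by decide +kernel
theorem p3891 : PrV chk L3891 := leafV c3891

theorem c3892 : lp7 (fun s => chk (uent L3892 s)) 0 = true := by decide +kernel
theorem p3892 : PrV chk L3892 := leafV c3892

theorem c3893 : lp7 (fun s => chk (uent L3893 s)) 0 = true := by decide +kernel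
theorem p3893 : PrV chk L3893 := leafV c3893

theorem c3894 : lp7 (fun s => chk (uent L3894 s)) 0 = true := by decide +kernel
theorem p3894 : PrV chk L3894 := leafV c3894

theorem c3895 : lp7 (fun s => chk (uent L3895 s)) 0 = true := by decide +kernel
theorem p3895 : PrV chk L3895 := leafV c3895

theorem c3896 : lp7 (fun s => chk (uent L3896 s)) 0 = true := by decide +kernel
theorem p3896 : PrV chk L3896 := leafV c3896

theorem c3897 : lp7 (fun s => chk (uent L3897 s)) 0 = true := by decide +kernel
theorem p3897 : PrV chk L3897 := leafV c3897

theorem c3898 : lp7 (fun s => chk (uent L3898 s)) 0 = true := by decide +kernel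
theorem p3898 : PrV chk L3898 := leafV c3898

theorem c3899 : lp7 (fun s => chk (uent L3899 s)) 0 = true := by decide +kernel
theorem p3899 : PrV chk L3899 := leafV c3899

theorem c3900 : lp7 (fun s => chk (uent L3900 s)) 0 = true := by decide +kernel
theorem p3900 : PrV chk L3900 := leafV c3900

theorem c3901 : lp7 (fun s => chk (uent L3901 s)) 0 = true := by decide +kernel
theorem p3901 : PrV chk L3901 := leafV c3901

theorem c3902 : lp7 (fun s => chk (uent L3902 s)) 0 = true := by decide +kernel
theorem p3902 : PrV chk L3902 := leafV c3902

theorem c3903 : lp7 (fun s => chk (uent L3903 s)) 0 = true := by decide +kernel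
theorem p3903 : PrV chk L3903 := leafV c3903

theorem c3904 : lp7 (fun s => chk (uent L3904 s)) 0 = true := by decide +kernel
theorem p3904 : PrV chk L3904 := leafV c3904

theorem c3905 : lp7 (fun s => chk (uent L3905 s)) 0 = true := by decide +kernel
theorem p3905 : PrV chk L3905 := leafV c3905

theorem c3906 : lp7 (fun s => chk (uent L3906 s)) 0 = true := by decide +kernel
theorem p3906 : PrV chk L3906 := leafV c3906

theorem c3907 : lp7 (fun s => chk (uent L3907 s)) 0 = true := by decide +kernel
theorem p3907 : PrV chk L3907 := leafV c3907

theorem c3908 : lp7 (fun s => chk (uent L3908 s)) 0 = true := by decide +kernel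
theorem p3908 : PrV chk L3908 := leafV c3908

theorem c3909 : lp7 (fun s => chk (uent L3909 s)) 0 = true := by decide +kernel
theorem p3909 : PrV chk L3909 := leafV c3909

theorem c3910 : lp7 (fun s => chk (uent L3910 s)) 0 = true := by decide +kernel
theorem p3910 : PrV chk L3910 := leafV c3910

theorem c3911 : lp7 (fun s => chk (uent L3911 s)) 0 = true := by decide +kernel
theorem p3911 : PrV chk L3911 := leafV c3911

theorem c3912 : lp7 (fun s => chk (uent L3912 s)) 0 = true := by decide +kernel
theorem p3912 : PrV chk L3912 := leafV c3912

theorem c3913 : lp7 (fun s => chk (uent L3913 s)) 0 = true := by decide +kernel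
theorem p3913 : PrV chk L3913 := leafV c3913

theorem c3914 : lp7 (fun s => chk (uent L3914 s)) 0 = true := by decide +kernel
theorem p3914 : PrV chk L3914 := leafV c3914

theorem c3915 : lp7 (fun s => chk (uent L3915 s)) 0 = true := by decide +kernel
theorem p3915 : PrV chk L3915 := leafV c3915

theorem c3916 : lp7 (fun s => chk (uent L3916 s)) 0 = true := by decide +kernel
theorem p3916 : PrV chk L3916 := leafV c3916

theorem c3917 : lp7 (fun s => chk (uent L3917 s)) 0 = true := by decide +kernel
theorem p3917 : PrV chk L3917 := leafV c3917

theorem c3918 : lp7 (fun s => chk (uent L3918 s)) 0 = true := by decide +kernel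
theorem p3918 : PrV chk L3918 := leafV c3918

theorem c3919 : lp7 (fun s => chk (uent L3919 s)) 0 = true := by decide +kernel
theorem p3919 : PrV chk L3919 := leafV c3919

theorem c3920 : lp7 (fun s => chk (uent L3920 s)) 0 = true := by decide +kernel
theorem p3920 : PrV chk L3920 := leafV c3920

theorem c3921 : lp7 (fun s => chk (uent L3921 s)) 0 = true := by decide +kernel
theorem p3921 : PrV chk L3921 := leafV c3921

theorem c3922 : lp7 (fun s => chk (uent L3922 s)) 0 = true := by decide +kernel
theorem p3922 : PrV chk L3922 := leafV c3922

theorem c3923 : lp7 (fun s => chk (uent L3923 s)) 0 = true := by decide +kernel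
theorem p3923 : PrV chk L3923 := leafV c3923

theorem c3924 : lp7 (fun s => chk (uent L3924 s)) 0 = true := by decide +kernel
theorem p3924 : PrV chk L3924 := leafV c3924

theorem c3925 : lp7 (fun s => chk (uent L3925 s)) 0 = true := by decide +kernel
theorem p3925 : PrV chk L3925 := leafV c3925

theorem c3926 : lp7 (fun s => chk (uent L3926 s)) 0 = true := by decide +kernel
theorem p3926 : PrV chk L3926 := leafV c3926

theorem c3927 : lp7 (fun s => chk (uent L3927 s)) 0 = true := by decide +kernel
theorem p3927 : PrV chk L3927 := leafV c3927

theorem c3928 : lp7 (fun s => chk (uent L3928 s)) 0 = true := by decide +kernel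
theorem p3928 : PrV chk L3928 := leafV c3928

theorem c3929 : lp7 (fun s => chk (uent L3929 s)) 0 = true := by decide +kernel
theorem p3929 : PrV chk L3929 := leafV c3929

theorem c3930 : lp7 (fun s => chk (uent L3930 s)) 0 = true := by decide +kernel
theorem p3930 : PrV chk L3930 := leafV c3930

theorem c3931 : lp7 (fun s => chk (uent L3931 s)) 0 = true := by decide +kernel
theorem p3931 : PrV chk L3931 := leafV c3931

theorem c3932 : lp7 (fun s => chk (uent L3932 s)) 0 = true := by decide +kernel
theorem p3932 : PrV chk L3932 := leafV c3932

theorem c3933 : lp7 (fun s => chk (uent L3933 s)) 0 = true := by decide +kernel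
theorem p3933 : PrV chk L3933 := leafV c3933

theorem c3934 : lp7 (fun s => chk (uent L3934 s)) 0 = true := by decide +kernel
theorem p3934 : PrV chk L3934 := leafV c3934

theorem c3935 : lp7 (fun s => chk (uent L3935 s)) 0 = true := by decide +kernel
theorem p3935 : PrV chk L3935 := leafV c3935

theorem c3936 : lp7 (fun s => chk (uent L3936 s)) 0 = true := by decide +kernel
theorem p3936 : PrV chk L3936 := leafV c3936

theorem c3937 : lp7 (fun s => chk (uent L3937 s)) 0 = true := by decide +kernel
theorem p3937 : PrV chk L3937 := leafV c3937

theorem c3938 : lp7 (fun s => chk (uent L3938 s)) 0 = true := by decide +kernel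
theorem p3938 : PrV chk L3938 := leafV c3938

theorem c3939 : lp7 (fun s => chk (uent L3939 s)) 0 = true := by decide +kernel
theorem p3939 : PrV chk L3939 := leafV c3939

theorem c3940 : lp7 (fun s => chk (uent L3940 s)) 0 = true := by decide +kernel
theorem p3940 : PrV chk L3940 := leafV c3940

theorem c3941 : lp7 (fun s => chk (uent L3941 s)) 0 = true := by decide +kernel
theorem p3941 : PrV chk L3941 := leafV c3941

theorem c3942 : lp7 (fun s => chk (uent L3942 s)) 0 = true := by decide +kernel
theorem p3942 : PrV chk L3942 := leafV c3942

theorem c3943 : lp7 (fun s => chk (uent L3943 s)) 0 = true := by decide +kernel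
theorem p3943 : PrV chk L3943 := leafV c3943

theorem c3944 : lp7 (fun s => chk (uent L3944 s)) 0 = true := by decide +kernel
theorem p3944 : PrV chk L3944 := leafV c3944

theorem c3945 : lp7 (fun s => chk (uent L3945 s)) 0 = true := by decide +kernel
theorem p3945 : PrV chk L3945 := leafV c3945

theorem c3946 : lp7 (fun s => chk (uent L3946 s)) 0 = true := by decide +kernel
theorem p3946 : PrV chk L3946 := leafV c3946

theorem c3947 : lp7 (fun s => chk (uent L3947 s)) 0 = true := by decide +kernel
theorem p3947 : PrV chk L3947 := leafV c3947

theorem c3948 : lp7 (fun s => chk (uent L3948 s)) 0 = true := by decide +kernel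
theorem p3948 : PrV chk L3948 := leafV c3948

theorem c3949 : lp7 (fun s => chk (uent L3949 s)) 0 = true := by decide +kernel
theorem p3949 : PrV chk L3949 := leafV c3949

theorem c3950 : lp7 (fun s => chk (uent L3950 s)) 0 = true := by decide +kernel
theorem p3950 : PrV chk L3950 := leafV c3950

theorem c3951 : lp7 (fun s => chk (uent L3951 s)) 0 = true := by decide +kernel
theorem p3951 : PrV chk L3951 := leafV c3951

theorem c3952 : lp7 (fun s => chk (uent L3952 s)) 0 = true := by decide +kernel
theorem p3952 : PrV chk L3952 := leafV c3952

theorem c3953 : lp7 (fun s => chk (uent L3953 s)) 0 = true := by decide +kernel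
theorem p3953 : PrV chk L3953 := leafV c3953

theorem c3954 : lp7 (fun s => chk (uent L3954 s)) 0 = true := by decide +kernel
theorem p3954 : PrV chk L3954 := leafV c3954

theorem c3955 : lp7 (fun s => chk (uent L3955 s)) 0 = true := by decide +kernel
theorem p3955 : PrV chk L3955 := leafV c3955

theorem c3956 : lp7 (fun s => chk (uent L3956 s)) 0 = true := by decide +kernel
theorem p3956 : PrV chk L3956 := leafV c3956

theorem c3957 : lp7 (fun s => chk (uent L3957 s)) 0 = true := by decide +kernel
theorem p3957 : PrV chk L3957 := leafV c3957

theorem c3958 : lp7 (fun s => chk (uent L3958 s)) 0 = true := by decide +kernel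
theorem p3958 : PrV chk L3958 := leafV c3958

theorem c3959 : lp7 (fun s => chk (uent L3959 s)) 0 = true := by decide +kernel
theorem p3959 : PrV chk L3959 := leafV c3959

theorem c3960 : lp7 (fun s => chk (uent L3960 s)) 0 = true := by decide +kernel
theorem p3960 : PrV chk L3960 := leafV c3960

theorem c3961 : lp7 (fun s => chk (uent L3961 s)) 0 = true := by decide +kernel
theorem p3961 : PrV chk L3961 := leafV c3961

theorem c3962 : lp7 (fun s => chk (uent L3962 s)) 0 = true := by decide +kernel
theorem p3962 : PrV chk L3962 := leafV c3962

theorem c3963 : lp7 (fun s => chk (uent L3963 s)) 0 = true := by decide +kernel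
theorem p3963 : PrV chk L3963 := leafV c3963

theorem c3964 : lp7 (fun s => chk (uent L3964 s)) 0 = true := by decide +kernel
theorem p3964 : PrV chk L3964 := leafV c3964

theorem c3965 : lp7 (fun s => chk (uent L3965 s)) 0 = true := by decide +kernel
theorem p3965 : PrV chk L3965 := leafV c3965

theorem c3966 : lp7 (fun s => chk (uent L3966 s)) 0 = true := by decide +kernel
theorem p3966 : PrV chk L3966 := leafV c3966

theorem c3967 : lp7 (fun s => chk (uent L3967 s)) 0 = true := by decide +kernel
theorem p3967 : PrV chk L3967 := leafV c3967

theorem c3968 : lp7 (fun s => chk (uent L3968 s)) 0 = true := by decide +kernel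
theorem p3968 : PrV chk L3968 := leafV c3968

theorem c3969 : lp7 (fun s => chk (uent L3969 s)) 0 = true := by decide +kernel
theorem p3969 : PrV chk L3969 := leafV c3969

theorem c3970 : lp7 (fun s => chk (uent L3970 s)) 0 = true := by decide +kernel
theorem p3970 : PrV chk L3970 := leafV c3970

theorem c3971 : lp7 (fun s => chk (uent L3971 s)) 0 = true := by decide +kernel
theorem p3971 : PrV chk L3971 := leafV c3971

theorem c3972 : lp7 (fun s => chk (uent L3972 s)) 0 = true := by decide +kernel
theorem p3972 : PrV chk L3972 := leafV c3972

theorem c3973 : lp7 (fun s => chk (uent L3973 s)) 0 = true := by decide +kernel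
theorem p3973 : PrV chk L3973 := leafV c3973

theorem c3974 : lp7 (fun s => chk (uent L3974 s)) 0 = true := by decide +kernel
theorem p3974 : PrV chk L3974 := leafV c3974

theorem c3975 : lp7 (fun s => chk (uent L3975 s)) 0 = true := by decide +kernel
theorem p3975 : PrV chk L3975 := leafV c3975

theorem c3976 : lp7 (fun s => chk (uent L3976 s)) 0 = true := by decide +kernel
theorem p3976 : PrV chk L3976 := leafV c3976

theorem c3977 : lp7 (fun s => chk (uent L3977 s)) 0 = true := by decide +kernel
theorem p3977 : PrV chk L3977 := leafV c3977

theorem c3978 : lp7 (fun s => chk (uent L3978 s)) 0 = true := by decide +kernel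
theorem p3978 : PrV chk L3978 := leafV c3978

theorem c3979 : lp7 (fun s => chk (uent L3979 s)) 0 = true := by decide +kernel
theorem p3979 : PrV chk L3979 := leafV c3979

theorem c3980 : lp7 (fun s => chk (uent L3980 s)) 0 = true := by decide +kernel
theorem p3980 : PrV chk L3980 := leafV c3980

theorem c3981 : lp7 (fun s => chk (uent L3981 s)) 0 = true := by decide +kernel
theorem p3981 : PrV chk L3981 := leafV c3981

theorem c3982 : lp7 (fun s => chk (uent L3982 s)) 0 = true := by decide +kernel
theorem p3982 : PrV chk L3982 := leafV c3982

theorem c3983 : lp7 (fun s => chk (uent L3983 s)) 0 = true := by decide +kernel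
theorem p3983 : PrV chk L3983 := leafV c3983

theorem c3984 : lp7 (fun s => chk (uent L3984 s)) 0 = true := by decide +kernel
theorem p3984 : PrV chk L3984 := leafV c3984

theorem c3985 : lp7 (fun s => chk (uent L3985 s)) 0 = true := by decide +kernel
theorem p3985 : PrV chk L3985 := leafV c3985

theorem c3986 : lp7 (fun s => chk (uent L3986 s)) 0 = true := by decide +kernel
theorem p3986 : PrV chk L3986 := leafV c3986

theorem c3987 : lp7 (fun s => chk (uent L3987 s)) 0 = true := by decide +kernel
theorem p3987 : PrV chk L3987 := leafV c3987

theorem c3988 : lp7 (fun s => chk (uent L3988 s)) 0 = true := by decide +kernel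
theorem p3988 : PrV chk L3988 := leafV c3988

theorem c3989 : lp7 (fun s => chk (uent L3989 s)) 0 = true := by decide +kernel
theorem p3989 : PrV chk L3989 := leafV c3989

theorem c3990 : lp7 (fun s => chk (uent L3990 s)) 0 = true := by decide +kernel
theorem p3990 : PrV chk L3990 := leafV c3990

theorem c3991 : lp7 (fun s => chk (uent L3991 s)) 0 = true := by decide +kernel
theorem p3991 : PrV chk L3991 := leafV c3991

theorem c3992 : lp7 (fun s => chk (uent L3992 s)) 0 = true := by decide +kernel
theorem p3992 : PrV chk L3992 := leafV c3992

theorem c3993 : lp7 (fun s => chk (uent L3993 s)) 0 = true := by decide +kernel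
theorem p3993 : PrV chk L3993 := leafV c3993

theorem c3994 : lp7 (fun s => chk (uent L3994 s)) 0 = true := by decide +kernel
theorem p3994 : PrV chk L3994 := leafV c3994

theorem c3995 : lp7 (fun s => chk (uent L3995 s)) 0 = true := by decide +kernel
theorem p3995 : PrV chk L3995 := leafV c3995

theorem c3996 : lp7 (fun s => chk (uent L3996 s)) 0 = true := by decide +kernel
theorem p3996 : PrV chk L3996 := leafV c3996

theorem c3997 : lp7 (fun s => chk (uent L3997 s)) 0 = true := by decide +kernel
theorem p3997 : PrV chk L3997 := leafV c3997

theorem c3998 : lp7 (fun s => chk (uent L3998 s)) 0 = true := by decide +kernel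
theorem p3998 : PrV chk L3998 := leafV c3998

theorem c3999 : lp7 (fun s => chk (uent L3999 s)) 0 = true := by decide +kernel
theorem p3999 : PrV chk L3999 := leafV c3999

theorem c4000 : lp7 (fun s => chk (uent L4000 s)) 0 = true := by decide +kernel
theorem p4000 : PrV chk L4000 := leafV c4000

theorem c4001 : lp7 (fun s => chk (uent L4001 s)) 0 = true := by decide +kernel
theorem p4001 : PrV chk L4001 := leafV c4001

theorem c4002 : lp7 (fun s => chk (uent L4002 s)) 0 = true := by decide +kernel
theorem p4002 : PrV chk L4002 := leafV c4002

theorem c4003 : lp7 (fun s => chk (uent L4003 s)) 0 = true := by decide +kernel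
theorem p4003 : PrV chk L4003 := leafV c4003

theorem c4004 : lp7 (fun s => chk (uent L4004 s)) 0 = true := by decide +kernel
theorem p4004 : PrV chk L4004 := leafV c4004

theorem c4005 : lp7 (fun s => chk (uent L4005 s)) 0 = true := by decide +kernel
theorem p4005 : PrV chk L4005 := leafV c4005

theorem c4006 : lp7 (fun s => chk (uent L4006 s)) 0 = true := by decide +kernel
theorem p4006 : PrV chk L4006 := leafV c4006

theorem c4007 : lp7 (fun s => chk (uent L4007 s)) 0 = true := by decide +kernel
theorem p4007 : PrV chk L4007 := leafV c4007

theorem c4008 : lp7 (fun s => chk (uent L4008 s)) 0 = true := by decide +kernel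
theorem p4008 : PrV chk L4008 := leafV c4008

theorem c4009 : lp7 (fun s => chk (uent L4009 s)) 0 = true := by decide +kernel
theorem p4009 : PrV chk L4009 := leafV c4009

theorem c4010 : lp7 (fun s => chk (uent L4010 s)) 0 = true := by decide +kernel
theorem p4010 : PrV chk L4010 := leafV c4010

theorem c4011 : lp7 (fun s => chk (uent L4011 s)) 0 = true := by decide +kernel
theorem p4011 : PrV chk L4011 := leafV c4011

theorem c4012 : lp7 (fun s => chk (uent L4012 s)) 0 = true := by decide +kernel
theorem p4012 : PrV chk L4012 := leafV c4012

theorem c4013 : lp7 (fun s => chk (uent L4013 s)) 0 = true := by decide +kernel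
theorem p4013 : PrV chk L4013 := leafV c4013

theorem c4014 : lp7 (fun s => chk (uent L4014 s)) 0 = true := by decide +kernel
theorem p4014 : PrV chk L4014 := leafV c4014

theorem c4015 : lp7 (fun s => chk (uent L4015 s)) 0 = true := by decide +kernel
theorem p4015 : PrV chk L4015 := leafV c4015

theorem c4016 : lp7 (fun s => chk (uent L4016 s)) 0 = true := by decide +kernel
theorem p4016 : PrV chk L4016 := leafV c4016

theorem c4017 : lp7 (fun s => chk (uent L4017 s)) 0 = true := by decide +kernel
theorem p4017 : PrV chk L4017 := leafV c4017

theorem c4018 : lp7 (fun s => chk (uent L4018 s)) 0 = true := by decide +kernel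
theorem p4018 : PrV chk L4018 := leafV c4018

theorem c4019 : lp7 (fun s => chk (uent L4019 s)) 0 = true := by decide +kernel
theorem p4019 : PrV chk L4019 := leafV c4019

theorem c4020 : lp7 (fun s => chk (uent L4020 s)) 0 = true := by decide +kernel
theorem p4020 : PrV chk L4020 := leafV c4020

theorem c4021 : lp7 (fun s => chk (uent L4021 s)) 0 = true := by decide +kernel
theorem p4021 : PrV chk L4021 := leafV c4021

theorem c4022 : lp7 (fun s => chk (uent L4022 s)) 0 = true := by decide +kernel
theorem p4022 : PrV chk L4022 := leafV c4022

theorem c4023 : lp7 (fun s => chk (uent L4023 s)) 0 = true := by decide +kernel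
theorem p4023 : PrV chk L4023 := leafV c4023

theorem c4024 : lp7 (fun s => chk (uent L4024 s)) 0 = true := by decide +kernel
theorem p4024 : PrV chk L4024 := leafV c4024

theorem c4025 : lp7 (fun s => chk (uent L4025 s)) 0 = true := by decide +kernel
theorem p4025 : PrV chk L4025 := leafV c4025

theorem c4026 : lp7 (fun s => chk (uent L4026 s)) 0 = true := by decide +kernel
theorem p4026 : PrV chk L4026 := leafV c4026

theorem c4027 : lp7 (fun s => chk (uent L4027 s)) 0 = true := by decide +kernel
theorem p4027 : PrV chk L4027 := leafV c4027

theorem c4028 : lp7 (fun s => chk (uent L4028 s)) 0 = true := by decide +kernel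
theorem p4028 : PrV chk L4028 := leafV c4028

theorem c4029 : lp7 (fun s => chk (uent L4029 s)) 0 = true := by decide +kernel
theorem p4029 : PrV chk L4029 := leafV c4029

theorem c4030 : lp7 (fun s => chk (uent L4030 s)) 0 = true := by decide +kernel
theorem p4030 : PrV chk L4030 := leafV c4030

theorem c4031 : lp7 (fun s => chk (uent L4031 s)) 0 = true := by decide +kernel
theorem p4031 : PrV chk L4031 := leafV c4031

end Pool.Agent.ad013a.W
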