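import Pool.Agent.H.MP_ad013a_pr.h63w.A.T
import Pool.Agent.H.MP_ad013a_pr.h63w.VLoop

namespace Pool.Agent.ad013a.W

theorem c4032 : lp7 (fun s => chk (uent L4032 s)) 0 = true := by decide +kernel
theorem p4032 : PrV chk L4032 := leafV c4032

theorem c4033 : lp7 (fun s => chk (uent L4033 s)) 0 = true := by decide +kernel
theorem p4033 : PrV chk L4033 := leafV c4033

theorem c4034 : lp7 (fun s => chk (uent L4034 s)) 0 = true := by decide +kernel
theorem p4034 : PrV chk L4034 := leafV c4034

theorem c4035 : lp7 (fun s => chk (uent L4035 s)) 0 = true := by decide +kernel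
theorem p4035 : PrV chk L4035 := leafV c4035

theorem c4036 : lp7 (fun s => chk (uent L4036 s)) 0 = true := by decide +kernel
theorem p4036 : PrV chk L4036 := leafV c4036

theorem c4037 : lp7 (fun s => chk (uent L4037 s)) 0 = true := by decide +kernel
theorem p4037 : PrV chk L4037 := leafV c4037

theorem c4038 : lp7 (fun s => chk (uent L4038 s)) 0 = true := by decide +kernel
theorem p4038 : PrV chk L4038 := leafV c4038

theorem c4039 : lp7 (fun s => chk (uent L4039 s)) 0 = true := by decide +kernel
theorem p4039 : PrV chk L4039 := leafV c4039

theorem c4040 : lp7 (fun s => chk (uent L4040 s)) 0 = true := by decide +kernel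
theorem p4040 : PrV chk L4040 := leafV c4040

theorem c4041 : lp7 (fun s => chk (uent L4041 s)) 0 = true := by decide +kernel
theorem p4041 : PrV chk L4041 := leafV c4041

theorem c4042 : lp7 (fun s => chk (uent L4042 s)) 0 = true := by decide +kernel
theorem p4042 : PrV chk L4042 := leafV c4042

theorem c4043 : lp7 (fun s => chk (uent L4043 s)) 0 = true := by decide +kernel
theorem p4043 : PrV chk L4043 := leafV c4043

theorem c4044 : lp7 (fun s => chk (uent L4044 s)) 0 = true := by decide +kernel
theorem p4044 : PrV chk L4044 := leafV c4044

theorem c4045 : lp7 (fun s => chk (uent L4045 s)) 0 = true := by decide +kernel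
theorem p4045 : PrV chk L4045 := leafV c4045

theorem c4046 : lp7 (fun s => chk (uent L4046 s)) 0 = true := by decide +kernel
theorem p4046 : PrV chk L4046 := leafV c4046

theorem c4047 : lp7 (fun s => chk (uent L4047 s)) 0 = true := by decide +kernel
theorem p4047 : PrV chk L4047 := leafV c4047

theorem c4048 : lp7 (fun s => chk (uent L4048 s)) 0 = true := by decide +kernel
theorem p4048 : PrV chk L4048 := leafV c4048

theorem c4049 : lp7 (fun s => chk (uent L4049 s)) 0 = true := by decide +kernel
theorem p4049 : PrV chk L4049 := leafV c4049

theorem c4050 : lp7 (fun s => chk (uent L4050 s)) 0 = true := by decide +kernel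
theorem p4050 : PrV chk L4050 := leafV c4050

theorem c4051 : lp7 (fun s => chk (uent L4051 s)) 0 = true := by decide +kernel
theorem p4051 : PrV chk L4051 := leafV c4051

theorem c4052 : lp7 (fun s => chk (uent L4052 s)) 0 = true := by decide +kernel
theorem p4052 : PrV chk L4052 := leafV c4052

theorem c4053 : lp7 (fun s => chk (uent L4053 s)) 0 = true := by decide +kernel
theorem p4053 : PrV chk L4053 := leafV c4053

theorem c4054 : lp7 (fun s => chk (uent L4054 s)) 0 = true := by decide +kernel
theorem p4054 : PrV chk L4054 := leafV c4054

theorem c4055 : lp7 (fun s => chk (uent L4055 s)) 0 = true := by decide +kernel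
theorem p4055 : PrV chk L4055 := leafV c4055

theorem c4056 : lp7 (fun s => chk (uent L4056 s)) 0 = true := by decide +kernel
theorem p4056 : PrV chk L4056 := leafV c4056

theorem c4057 : lp7 (fun s => chk (uent L4057 s)) 0 = true := by decide +kernel
theorem p4057 : PrV chk L4057 := leafV c4057

theorem c4058 : lp7 (fun s => chk (uent L4058 s)) 0 = true := by decide +kernel
theorem p4058 : PrV chk L4058 := leafV c4058

theorem c4059 : lp7 (fun s => chk (uent L4059 s)) 0 = true := by decide +kernel
theorem p4059 : PrV chk L4059 := leafV c4059

theorem c4060 : lp7 (fun s => chk (uent L4060 s)) 0 = true := by decide +kernel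
theorem p4060 : PrV chk L4060 := leafV c4060

theorem c4061 : lp7 (fun s => chk (uent L4061 s)) 0 = true := by decide +kernel
theorem p4061 : PrV chk L4061 := leafV c4061

theorem c4062 : lp7 (fun s => chk (uent L4062 s)) 0 = true := by decide +kernel
theorem p4062 : PrV chk L4062 := leafV c4062

theorem c4063 : lp7 (fun s => chk (uent L4063 s)) 0 = true := by decide +kernel
theorem p4063 : PrV chk L4063 := leafV c4063

theorem c4064 : lp7 (fun s => chk (uent L4064 s)) 0 = true := by decide +kernel
theorem p4064 : PrV chk L4064 := leafV c4064

theorem c4065 : lp7 (fun s => chk (uent L4065 s)) 0 = true := by decide +kernel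
theorem p4065 : PrV chk L4065 := leafV c4065

theorem c4066 : lp7 (fun s => chk (uent L4066 s)) 0 = true := by decide +kernel
theorem p4066 : PrV chk L4066 := leafV c4066

theorem c4067 : lp7 (fun s => chk (uent L4067 s)) 0 = true := by decide +kernel
theorem p4067 : PrV chk L4067 := leafV c4067

theorem c4068 : lp7 (fun s => chk (uent L4068 s)) 0 = true := by decide +kernel
theorem p4068 : PrV chk L4068 := leafV c4068

theorem c4069 : lp7 (fun s => chk (uent L4069 s)) 0 = true := by decide +kernel
theorem p4069 : PrV chk L4069 := leafV c4069

theorem c4070 : lp7 (fun s => chk (uent L4070 s)) 0 = true := by decide +kernel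
theorem p4070 : PrV chk L4070 := leafV c4070

theorem c4071 : lp7 (fun s => chk (uent L4071 s)) 0 = true := by decide +kernel
theorem p4071 : PrV chk L4071 := leafV c4071

theorem c4072 : lp7 (fun s => chk (uent L4072 s)) 0 = true := by decide +kernel
theorem p4072 : PrV chk L4072 := leafV c4072

theorem c4073 : lp7 (fun s => chk (uent L4073 s)) 0 = true := by decide +kernel
theorem p4073 : PrV chk L4073 := leafV c4073

theorem c4074 : lp7 (fun s => chk (uent L4074 s)) 0 = true := by decide +kernel
theorem p4074 : PrV chk L4074 := leafV c4074

theorem c4075 : lp7 (fun s => chk (uent L4075 s)) 0 = true := by decide +kernel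
theorem p4075 : PrV chk L4075 := leafV c4075

theorem c4076 : lp7 (fun s => chk (uent L4076 s)) 0 = true := by decide +kernel
theorem p4076 : PrV chk L4076 := leafV c4076

theorem c4077 : lp7 (fun s => chk (uent L4077 s)) 0 = true := by decide +kernel
theorem p4077 : PrV chk L4077 := leafV c4077

theorem c4078 : lp7 (fun s => chk (uent L4078 s)) 0 = true := by decide +kernel
theorem p4078 : PrV chk L4078 := leafV c4078

theorem c4079 : lp7 (fun s => chk (uent L4079 s)) 0 = true := by decide +kernel
theorem p4079 : PrV chk L4079 := leafV c4079

theorem c4080 : lp7 (fun s => chk (uent L4080 s)) 0 = true := by decide +kernel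
theorem p4080 : PrV chk L4080 := leafV c4080

theorem c4081 : lp7 (fun s => chk (uent L4081 s)) 0 = true := by decide +kernel
theorem p4081 : PrV chk L4081 := leafV c4081

theorem c4082 : lp7 (fun s => chk (uent L4082 s)) 0 = true := by decide +kernel
theorem p4082 : PrV chk L4082 := leafV c4082

theorem c4083 : lp7 (fun s => chk (uent L4083 s)) 0 = true := by decide +kernel
theorem p4083 : PrV chk L4083 := leafV c4083

theorem c4084 : lp7 (fun s => chk (uent L4084 s)) 0 = true := by decide +kernel
theorem p4084 : PrV chk L4084 := leafV c4084

theorem c4085 : lp7 (fun s => chk (uent L4085 s)) 0 = true := by decide +kernel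
theorem p4085 : PrV chk L4085 := leafV c4085

theorem c4086 : lp7 (fun s => chk (uent L4086 s)) 0 = true := by decide +kernel
theorem p4086 : PrV chk L4086 := leafV c4086

theorem c4087 : lp7 (fun s => chk (uent L4087 s)) 0 = true := by decide +kernel
theorem p4087 : PrV chk L4087 := leafV c4087

theorem c4088 : lp7 (fun s => chk (uent L4088 s)) 0 = true := by decide +kernel
theorem p4088 : PrV chk L4088 := leafV c4088

theorem c4089 : lp7 (fun s => chk (uent L4089 s)) 0 = true := by decide +kernel
theorem p4089 : PrV chk L4089 := leafV c4089

theorem c4090 : lp7 (fun s => chk (uent L4090 s)) 0 = true := by decide +kernel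
theorem p4090 : PrV chk L4090 := leafV c4090

theorem c4091 : lp7 (fun s => chk (uent L4091 s)) 0 = true := by decide +kernel
theorem p4091 : PrV chk L4091 := leafV c4091

theorem c4092 : lp7 (fun s => chk (uent L4092 s)) 0 = true := by decide +kernel
theorem p4092 : PrV chk L4092 := leafV c4092

theorem c4093 : lp7 (fun s => chk (uent L4093 s)) 0 = true := by decide +kernel
theorem p4093 : PrV chk L4093 := leafV c4093

theorem c4094 : lp7 (fun s => chk (uent L4094 s)) 0 = true := by decide +kernel
theorem p4094 : PrV chk L4094 := leafV c4094

theorem c4095 : lp7 (fun s => chk (uent L4095 s)) 0 = true := by decide +kernel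
theorem p4095 : PrV chk L4095 := leafV c4095

theorem c4096 : lp7 (fun s => chk (uent L4096 s)) 0 = true := by decide +kernel
theorem p4096 : PrV chk L4096 := leafV c4096

theorem c4097 : lp7 (fun s => chk (uent L4097 s)) 0 = true := by decide +kernel
theorem p4097 : PrV chk L4097 := leafV c4097

theorem c4098 : lp7 (fun s => chk (uent L4098 s)) 0 = true := by decide +kernel
theorem p4098 : PrV chk L4098 := leafV c4098

theorem c4099 : lp7 (fun s => chk (uent L4099 s)) 0 = true := by decide +kernel
theorem p4099 : PrV chk L4099 := leafV c4099

theorem c4100 : lp7 (fun s => chk (uent L4100 s)) 0 = true := by decide +kernel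
theorem p4100 : PrV chk L4100 := leafV c4100

theorem c4101 : lp7 (fun s => chk (uent L4101 s)) 0 = true := by decide +kernel
theorem p4101 : PrV chk L4101 := leafV c4101

theorem c4102 : lp7 (fun s => chk (uent L4102 s)) 0 = true := by decide +kernel
theorem p4102 : PrV chk L4102 := leafV c4102

theorem c4103 : lp7 (fun s => chk (uent L4103 s)) 0 = true := by decide +kernel
theorem p4103 : PrV chk L4103 := leafV c4103

theorem c4104 : lp7 (fun s => chk (uent L4104 s)) 0 = true := by decide +kernel
theorem p4104 : PrV chk L4104 := leafV c4104

theorem c4105 : lp7 (fun s => chk (uent L4105 s)) 0 = true := by decide +kernel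
theorem p4105 : PrV chk L4105 := leafV c4105

theorem c4106 : lp7 (fun s => chk (uent L4106 s)) 0 = true := by decide +kernel
theorem p4106 : PrV chk L4106 := leafV c4106

theorem c4107 : lp7 (fun s => chk (uent L4107 s)) 0 = true := by decide +kernel
theorem p4107 : PrV chk L4107 := leafV c4107

theorem c4108 : lp7 (fun s => chk (uent L4108 s)) 0 = true := by decide +kernel
theorem p4108 : PrV chk L4108 := leafV c4108

theorem c4109 : lp7 (fun s => chk (uent L4109 s)) 0 = true := by decide +kernel
theorem p4109 : PrV chk L4109 := leafV c4109

theorem c4110 : lp7 (fun s => chk (uent L4110 s)) 0 = true := by decide +kernel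
theorem p4110 : PrV chk L4110 := leafV c4110

theorem c4111 : lp7 (fun s => chk (uent L4111 s)) 0 = true := by decide +kernel
theorem p4111 : PrV chk L4111 := leafV c4111

theorem c4112 : lp7 (fun s => chk (uent L4112 s)) 0 = true := by decide +kernel
theorem p4112 : PrV chk L4112 := leafV c4112

theorem c4113 : lp7 (fun s => chk (uent L4113 s)) 0 = true := by decide +kernel
theorem p4113 : PrV chk L4113 := leafV c4113

theorem c4114 : lp7 (fun s => chk (uent L4114 s)) 0 = true := by decide +kernel
theorem p4114 : PrV chk L4114 := leafV c4114

theorem c4115 : lp7 (fun s => chk (uent L4115 s)) 0 = true := by decide +kernel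
theorem p4115 : PrV chk L4115 := leafV c4115

theorem c4116 : lp7 (fun s => chk (uent L4116 s)) 0 = true := by decide +kernel
theorem p4116 : PrV chk L4116 := leafV c4116

theorem c4117 : lp7 (fun s => chk (uent L4117 s)) 0 = true := by decide +kernel
theorem p4117 : PrV chk L4117 := leafV c4117

theorem c4118 : lp7 (fun s => chk (uent L4118 s)) 0 = true := by decide +kernel
theorem p4118 : PrV chk L4118 := leafV c4118

theorem c4119 : lp7 (fun s => chk (uent L4119 s)) 0 = true := by decide +kernel
theorem p4119 : PrV chk L4119 := leafV c4119

theorem c4120 : lp7 (fun s => chk (uent L4120 s)) 0 = true := by decide +kernel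
theorem p4120 : PrV chk L4120 := leafV c4120

theorem c4121 : lp7 (fun s => chk (uent L4121 s)) 0 = true := by decide +kernel
theorem p4121 : PrV chk L4121 := leafV c4121

theorem c4122 : lp7 (fun s => chk (uent L4122 s)) 0 = true := by decide +kernel
theorem p4122 : PrV chk L4122 := leafV c4122

theorem c4123 : lp7 (fun s => chk (uent L4123 s)) 0 = true := by decide +kernel
theorem p4123 : PrV chk L4123 := leafV c4123

theorem c4124 : lp7 (fun s => chk (uent L4124 s)) 0 = true := by decide +kernel
theorem p4124 : PrV chk L4124 := leafV c4124

theorem c4125 : lp7 (fun s => chk (uent L4125 s)) 0 = true := by decide +kernel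
theorem p4125 : PrV chk L4125 := leafV c4125

theorem c4126 : lp7 (fun s => chk (uent L4126 s)) 0 = true := by decide +kernel
theorem p4126 : PrV chk L4126 := leafV c4126

theorem c4127 : lp7 (fun s => chk (uent L4127 s)) 0 = true := by decide +kernel
theorem p4127 : PrV chk L4127 := leafV c4127

theorem c4128 : lp7 (fun s => chk (uent L4128 s)) 0 = true := by decide +kernel
theorem p4128 : PrV chk L4128 := leafV c4128

theorem c4129 : lp7 (fun s => chk (uent L4129 s)) 0 = true := by decide +kernel
theorem p4129 : PrV chk L4129 := leafV c4129

theorem c4130 : lp7 (fun s => chk (uent L4130 s)) 0 = true := by decide +kernel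
theorem p4130 : PrV chk L4130 := leafV c4130

theorem c4131 : lp7 (fun s => chk (uent L4131 s)) 0 = true := by decide +kernel
theorem p4131 : PrV chk L4131 := leafV c4131

theorem c4132 : lp7 (fun s => chk (uent L4132 s)) 0 = true := by decide +kernel
theorem p4132 : PrV chk L4132 := leafV c4132

theorem c4133 : lp7 (fun s => chk (uent L4133 s)) 0 = true := by decide +kernel
theorem p4133 : PrV chk L4133 := leafV c4133

theorem c4134 : lp7 (fun s => chk (uent L4134 s)) 0 = true := by decide +kernel
theorem p4134 : PrV chk L4134 := leafV c4134

theorem c4135 : lp7 (fun s => chk (uent L4135 s)) 0 = true := by decide +kernel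
theorem p4135 : PrV chk L4135 := leafV c4135

theorem c4136 : lp7 (fun s => chk (uent L4136 s)) 0 = true := by decide +kernel
theorem p4136 : PrV chk L4136 := leafV c4136

theorem c4137 : lp7 (fun s => chk (uent L4137 s)) 0 = true := by decide +kernel
theorem p4137 : PrV chk L4137 := leafV c4137

theorem c4138 : lp7 (fun s => chk (uent L4138 s)) 0 = true := by decide +kernel
theorem p4138 : PrV chk L4138 := leafV c4138

theorem c4139 : lp7 (fun s => chk (uent L4139 s)) 0 = true := by decide +kernel
theorem p4139 : PrV chk L4139 := leafV c4139

theorem c4140 : lp7 (fun s => chk (uent L4140 s)) 0 = true := by decide +kernel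
theorem p4140 : PrV chk L4140 := leafV c4140

theorem c4141 : lp7 (fun s => chk (uent L4141 s)) 0 = true := by decide +kernel
theorem p4141 : PrV chk L4141 := leafV c4141

theorem c4142 : lp7 (fun s => chk (uent L4142 s)) 0 = true := by decide +kernel
theorem p4142 : PrV chk L4142 := leafV c4142

theorem c4143 : lp7 (fun s => chk (uent L4143 s)) 0 = true := by decide +kernel
theorem p4143 : PrV chk L4143 := leafV c4143

theorem c4144 : lp7 (fun s => chk (uent L4144 s)) 0 = true := by decide +kernel
theorem p4144 : PrV chk L4144 := leafV c4144

theorem c4145 : lp7 (fun s => chk (uent L4145 s)) 0 = true := by decide +kernel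
theorem p4145 : PrV chk L4145 := leafV c4145

theorem c4146 : lp7 (fun s => chk (uent L4146 s)) 0 = true := by decide +kernel
theorem p4146 : PrV chk L4146 := leafV c4146

theorem c4147 : lp7 (fun s => chk (uent L4147 s)) 0 = true := by decide +kernel
theorem p4147 : PrV chk L4147 := leafV c4147

theorem c4148 : lp7 (fun s => chk (uent L4148 s)) 0 = true := by decide +kernel
theorem p4148 : PrV chk L4148 := leafV c4148

theorem c4149 : lp7 (fun s => chk (uent L4149 s)) 0 = true := by decide +kernel
theorem p4149 : PrV chk L4149 := leafV c4149

theorem c4150 : lp7 (fun s => chk (uent L4150 s)) 0 = true := by decide +kernel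
theorem p4150 : PrV chk L4150 := leafV c4150

theorem c4151 : lp7 (fun s => chk (uent L4151 s)) 0 = true := by decide +kernel
theorem p4151 : PrV chk L4151 := leafV c4151

theorem c4152 : lp7 (fun s => chk (uent L4152 s)) 0 = true := by decide +kernel
theorem p4152 : PrV chk L4152 := leafV c4152

theorem c4153 : lp7 (fun s => chk (uent L4153 s)) 0 = true := by decide +kernel
theorem p4153 : PrV chk L4153 := leafV c4153

theorem c4154 : lp7 (fun s => chk (uent L4154 s)) 0 = true := by decide +kernel
theorem p4154 : PrV chk L4154 := leafV c4154

theorem c4155 : lp7 (fun s => chk (uent L4155 s)) 0 = true := by decide +kernel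
theorem p4155 : PrV chk L4155 := leafV c4155

theorem c4156 : lp7 (fun s => chk (uent L4156 s)) 0 = true := by decide +kernel
theorem p4156 : PrV chk L4156 := leafV c4156

theorem c4157 : lp7 (fun s => chk (uent L4157 s)) 0 = true := by decide +kernel
theorem p4157 : PrV chk L4157 := leafV c4157

theorem c4158 : lp7 (fun s => chk (uent L4158 s)) 0 = true := by decide +kernel
theorem p4158 : PrV chk L4158 := leafV c4158

theorem c4159 : lp7 (fun s => chk (uent L4159 s)) 0 = true := by decide +kernel
theorem p4159 : PrV chk L4159 := leafV c4159

theorem c4160 : lp7 (fun s => chk (uent L4160 s)) 0 = true := by decide +kernel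
theorem p4160 : PrV chk L4160 := leafV c4160

theorem c4161 : lp7 (fun s => chk (uent L4161 s)) 0 = true := by decide +kernel
theorem p4161 : PrV chk L4161 := leafV c4161

theorem c4162 : lp7 (fun s => chk (uent L4162 s)) 0 = true := by decide +kernel
theorem p4162 : PrV chk L4162 := leafV c4162

theorem c4163 : lp7 (fun s => chk (uent L4163 s)) 0 = true := by decide +kernel
theorem p4163 : PrV chk L4163 := leafV c4163

theorem c4164 : lp7 (fun s => chk (uent L4164 s)) 0 = true := by decide +kernel
theorem p4164 : PrV chk L4164 := leafV c4164

theorem c4165 : lp7 (fun s => chk (uent L4165 s)) 0 = true := by decide +kernel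
theorem p4165 : PrV chk L4165 := leafV c4165

theorem c4166 : lp7 (fun s => chk (uent L4166 s)) 0 = true := by decide +kernel
theorem p4166 : PrV chk L4166 := leafV c4166

theorem c4167 : lp7 (fun s => chk (uent L4167 s)) 0 = true := by decide +kernel
theorem p4167 : PrV chk L4167 := leafV c4167

theorem c4168 : lp7 (fun s => chk (uent L4168 s)) 0 = true := by decide +kernel
theorem p4168 : PrV chk L4168 := leafV c4168

theorem c4169 : lp7 (fun s => chk (uent L4169 s)) 0 = true := by decide +kernel
theorem p4169 : PrV chk L4169 := leafV c4169

theorem c4170 : lp7 (fun s => chk (uent L4170 s)) 0 = true := by decide +kernel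
theorem p4170 : PrV chk L4170 := leafV c4170

theorem c4171 : lp7 (fun s => chk (uent L4171 s)) 0 = true := by decide +kernel
theorem p4171 : PrV chk L4171 := leafV c4171

theorem c4172 : lp7 (fun s => chk (uent L4172 s)) 0 = true := by decide +kernel
theorem p4172 : PrV chk L4172 := leafV c4172

theorem c4173 : lp7 (fun s => chk (uent L4173 s)) 0 = true := by decide +kernel
theorem p4173 : PrV chk L4173 := leafV c4173

theorem c4174 : lp7 (fun s => chk (uent L4174 s)) 0 = true := by decide +kernel
theorem p4174 : PrV chk L4174 := leafV c4174

theorem c4175 : lp7 (fun s => chk (uent L4175 s)) 0 = true := by decide +kernel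
theorem p4175 : PrV chk L4175 := leafV c4175

theorem c4176 : lp7 (fun s => chk (uent L4176 s)) 0 = true := by decide +kernel
theorem p4176 : PrV chk L4176 := leafV c4176

theorem c4177 : lp7 (fun s => chk (uent L4177 s)) 0 = true := by decide +kernel
theorem p4177 : PrV chk L4177 := leafV c4177

theorem c4178 : lp7 (fun s => chk (uent L4178 s)) 0 = true := by decide +kernel
theorem p4178 : PrV chk L4178 := leafV c4178

theorem c4179 : lp7 (fun s => chk (uent L4179 s)) 0 = true := by decide +kernel
theorem p4179 : PrV chk L4179 := leafV c4179

theorem c4180 : lp7 (fun s => chk (uent L4180 s)) 0 = true := by decide +kernel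
theorem p4180 : PrV chk L4180 := leafV c4180

theorem c4181 : lp7 (fun s => chk (uent L4181 s)) 0 = true := by decide +kernel
theorem p4181 : PrV chk L4181 := leafV c4181

theorem c4182 : lp7 (fun s => chk (uent L4182 s)) 0 = true := by decide +kernel
theorem p4182 : PrV chk L4182 := leafV c4182

theorem c4183 : lp7 (fun s => chk (uent L4183 s)) 0 = true := by decide +kernel
theorem p4183 : PrV chk L4183 := leafV c4183

theorem c4184 : lp7 (fun s => chk (uent L4184 s)) 0 = true := by decide +kernel
theorem p4184 : PrV chk L4184 := leafV c4184

theorem c4185 : lp7 (fun s => chk (uent L4185 s)) 0 = true := by decide +kernel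
theorem p4185 : PrV chk L4185 := leafV c4185

theorem c4186 : lp7 (fun s => chk (uent L4186 s)) 0 = true := by decide +kernel
theorem p4186 : PrV chk L4186 := leafV c4186

theorem c4187 : lp7 (fun s => chk (uent L4187 s)) 0 = true := by decide +kernel
theorem p4187 : PrV chk L4187 := leafV c4187

theorem c4188 : lp7 (fun s => chk (uent L4188 s)) 0 = true := by decide +kernel
theorem p4188 : PrV chk L4188 := leafV c4188

theorem c4189 : lp7 (fun s => chk (uent L4189 s)) 0 = true := by decide +kernel
theorem p4189 : PrV chk L4189 := leafV c4189

theorem c4190 : lp7 (fun s => chk (uent L4190 s)) 0 = true := by decide +kernel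
theorem p4190 : PrV chk L4190 := leafV c4190

theorem c4191 : lp7 (fun s => chk (uent L4191 s)) 0 = true := by decide +kernel
theorem p4191 : PrV chk L4191 := leafV c4191

theorem c4192 : lp7 (fun s => chk (uent L4192 s)) 0 = true := by decide +kernel
theorem p4192 : PrV chk L4192 := leafV c4192

theorem c4193 : lp7 (fun s => chk (uent L4193 s)) 0 = true := by decide +kernel
theorem p4193 : PrV chk L4193 := leafV c4193

theorem c4194 : lp7 (fun s => chk (uent L4194 s)) 0 = true := by decide +kernel
theorem p4194 : PrV chk L4194 := leafV c4194

theorem c4195 : lp7 (fun s => chk (uent L4195 s)) 0 = true := by decide +kernel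
theorem p4195 : PrV chk L4195 := leafV c4195

theorem c4196 : lp7 (fun s => chk (uent L4196 s)) 0 = true := by decide +kernel
theorem p4196 : PrV chk L4196 := leafV c4196

theorem c4197 : lp7 (fun s => chk (uent L4197 s)) 0 = true := by decide +kernel
theorem p4197 : PrV chk L4197 := leafV c4197

theorem c4198 : lp7 (fun s => chk (uent L4198 s)) 0 = true := by decide +kernel
theorem p4198 : PrV chk L4198 := leafV c4198

theorem c4199 : lp7 (fun s => chk (uent L4199 s)) 0 = true := by decide +kernel
theorem p4199 : PrV chk L4199 := leafV c4199

theorem c4200 : lp7 (fun s => chk (uent L4200 s)) 0 = true := by decide +kernel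
theorem p4200 : PrV chk L4200 := leafV c4200

theorem c4201 : lp7 (fun s => chk (uent L4201 s)) 0 = true := by decide +kernel
theorem p4201 : PrV chk L4201 := leafV c4201

theorem c4202 : lp7 (fun s => chk (uent L4202 s)) 0 = true := by decide +kernel
theorem p4202 : PrV chk L4202 := leafV c4202

theorem c4203 : lp7 (fun s => chk (uent L4203 s)) 0 = true := by decide +kernel
theorem p4203 : PrV chk L4203 := leafV c4203

theorem c4204 : lp7 (fun s => chk (uent L4204 s)) 0 = true := by decide +kernel
theorem p4204 : PrV chk L4204 := leafV c4204

theorem c4205 : lp7 (fun s => chk (uent L4205 s)) 0 = true := by decide +kernel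
theorem p4205 : PrV chk L4205 := leafV c4205

theorem c4206 : lp7 (fun s => chk (uent L4206 s)) 0 = true := by decide +kernel
theorem p4206 : PrV chk L4206 := leafV c4206

theorem c4207 : lp7 (fun s => chk (uent L4207 s)) 0 = true := by decide +kernel
theorem p4207 : PrV chk L4207 := leafV c4207

theorem c4208 : lp7 (fun s => chk (uent L4208 s)) 0 = true := by decide +kernel
theorem p4208 : PrV chk L4208 := leafV c4208

theorem c4209 : lp7 (fun s => chk (uent L4209 s)) 0 = true := by decide +kernel
theorem p4209 : PrV chk L4209 := leafV c4209

theorem c4210 : lp7 (fun s => chk (uent L4210 s)) 0 = true := by decide +kernel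
theorem p4210 : PrV chk L4210 := leafV c4210

theorem c4211 : lp7 (fun s => chk (uent L4211 s)) 0 = true := by decide +kernel
theorem p4211 : PrV chk L4211 := leafV c4211

theorem c4212 : lp7 (fun s => chk (uent L4212 s)) 0 = true := by decide +kernel
theorem p4212 : PrV chk L4212 := leafV c4212

theorem c4213 : lp7 (fun s => chk (uent L4213 s)) 0 = true := by decide +kernel
theorem p4213 : PrV chk L4213 := leafV c4213

theorem c4214 : lp7 (fun s => chk (uent L4214 s)) 0 = true := by decide +kernel
theorem p4214 : PrV chk L4214 := leafV c4214

theorem c4215 : lp7 (fun s => chk (uent L4215 s)) 0 = true := by decide +kernel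
theorem p4215 : PrV chk L4215 := leafV c4215

theorem c4216 : lp7 (fun s => chk (uent L4216 s)) 0 = true := by decide +kernel
theorem p4216 : PrV chk L4216 := leafV c4216

theorem c4217 : lp7 (fun s => chk (uent L4217 s)) 0 = true := by decide +kernel
theorem p4217 : PrV chk L4217 := leafV c4217

theorem c4218 : lp7 (fun s => chk (uent L4218 s)) 0 = true := by decide +kernel
theorem p4218 : PrV chk L4218 := leafV c4218

theorem c4219 : lp7 (fun s => chk (uent L4219 s)) 0 = true := by decide +kernel
theorem p4219 : PrV chk L4219 := leafV c4219

theorem c4220 : lp7 (fun s => chk (uent L4220 s)) 0 = true := by decide +kernel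
theorem p4220 : PrV chk L4220 := leafV c4220

theorem c4221 : lp7 (fun s => chk (uent L4221 s)) 0 = true := by decide +kernel
theorem p4221 : PrV chk L4221 := leafV c4221

theorem c4222 : lp7 (fun s => chk (uent L4222 s)) 0 = true := by decide +kernel
theorem p4222 : PrV chk L4222 := leafV c4222

theorem c4223 : lp7 (fun s => chk (uent L4223 s)) 0 = true := by decide +kernel
theorem p4223 : PrV chk L4223 := leafV c4223

end Pool.Agent.ad013a.W
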