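import Pool.Agent.H.MP_ad013a_pr.h63w.A.T
import Pool.Agent.H.MP_ad013a_pr.h63w.VLoop

namespace Pool.Agent.ad013a.W

theorem c4224 : lp7 (fun s => chk (uent L4224 s)) 0 = true := by decide +kernel
theorem p4224 : PrV chk L4224 := leafV c4224

theorem c4225 : lp7 (fun s => chk (uent L4225 s)) 0 = true := by decide +kernel
theorem p4225 : PrV chk L4225 := leafV c4225

theorem c4226 : lp7 (fun s => chk (uent L4226 s)) 0 = true := by decide +kernel
theorem p4226 : PrV chk L4226 := leafV c4226

theorem c4227 : lp7 (fun s => chk (uent L4227 s)) 0 = true := by decide +kernel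
theorem p4227 : PrV chk L4227 := leafV c4227

theorem c4228 : lp7 (fun s => chk (uent L4228 s)) 0 = true := by decide +kernel
theorem p4228 : PrV chk L4228 := leafV c4228

theorem c4229 : lp7 (fun s => chk (uent L4229 s)) 0 = true := by decide +kernel
theorem p4229 : PrV chk L4229 := leafV c4229

theorem c4230 : lp7 (fun s => chk (uent L4230 s)) 0 = true := by decide +kernel
theorem p4230 : PrV chk L4230 := leafV c4230

theorem c4231 : lp7 (fun s => chk (uent L4231 s)) 0 = true := by decide +kernel
theorem p4231 : PrV chk L4231 := leafV c4231

theorem c4232 : lp7 (fun s => chk (uent L4232 s)) 0 = true := by decide +kernel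
theorem p4232 : PrV chk L4232 := leafV c4232

theorem c4233 : lp7 (fun s => chk (uent L4233 s)) 0 = true := by decide +kernel
theorem p4233 : PrV chk L4233 := leafV c4233

theorem c4234 : lp7 (fun s => chk (uent L4234 s)) 0 = true := by decide +kernel
theorem p4234 : PrV chk L4234 := leafV c4234

theorem c4235 : lp7 (fun s => chk (uent L4235 s)) 0 = true := by decide +kernel
theorem p4235 : PrV chk L4235 := leafV c4235

theorem c4236 : lp7 (fun s => chk (uent L4236 s)) 0 = true := by decide +kernel
theorem p4236 : PrV chk L4236 := leafV c4236

theorem c4237 : lp7 (fun s => chk (uent L4237 s)) 0 = true := by decide +kernel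
theorem p4237 : PrV chk L4237 := leafV c4237

theorem c4238 : lp7 (fun s => chk (uent L4238 s)) 0 = true := by decide +kernel
theorem p4238 : PrV chk L4238 := leafV c4238

theorem c4239 : lp7 (fun s => chk (uent L4239 s)) 0 = true := by decide +kernel
theorem p4239 : PrV chk L4239 := leafV c4239

theorem c4240 : lp7 (fun s => chk (uent L4240 s)) 0 = true := by decide +kernel
theorem p4240 : PrV chk L4240 := leafV c4240

theorem c4241 : lp7 (fun s => chk (uent L4241 s)) 0 = true := by decide +kernel
theorem p4241 : PrV chk L4241 := leafV c4241

theorem c4242 : lp7 (fun s => chk (uent L4242 s)) 0 = true := by decide +kernel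
theorem p4242 : PrV chk L4242 := leafV c4242

theorem c4243 : lp7 (fun s => chk (uent L4243 s)) 0 = true := by decide +kernel
theorem p4243 : PrV chk L4243 := leafV c4243

theorem c4244 : lp7 (fun s => chk (uent L4244 s)) 0 = true := by decide +kernel
theorem p4244 : PrV chk L4244 := leafV c4244

theorem c4245 : lp7 (fun s => chk (uent L4245 s)) 0 = true := by decide +kernel
theorem p4245 : PrV chk L4245 := leafV c4245

theorem c4246 : lp7 (fun s => chk (uent L4246 s)) 0 = true := by decide +kernel
theorem p4246 : PrV chk L4246 := leafV c4246

theorem c4247 : lp7 (fun s => chk (uent L4247 s)) 0 = true := by decide +kernel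
theorem p4247 : PrV chk L4247 := leafV c4247

theorem c4248 : lp7 (fun s => chk (uent L4248 s)) 0 = true := by decide +kernel
theorem p4248 : PrV chk L4248 := leafV c4248

theorem c4249 : lp7 (fun s => chk (uent L4249 s)) 0 = true := by decide +kernel
theorem p4249 : PrV chk L4249 := leafV c4249

theorem c4250 : lp7 (fun s => chk (uent L4250 s)) 0 = true := by decide +kernel
theorem p4250 : PrV chk L4250 := leafV c4250

theorem c4251 : lp7 (fun s => chk (uent L4251 s)) 0 = true := by decide +kernel
theorem p4251 : PrV chk L4251 := leafV c4251

theorem c4252 : lp7 (fun s => chk (uent L4252 s)) 0 = true := by decide +kernel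
theorem p4252 : PrV chk L4252 := leafV c4252

theorem c4253 : lp7 (fun s => chk (uent L4253 s)) 0 = true := by decide +kernel
theorem p4253 : PrV chk L4253 := leafV c4253

theorem c4254 : lp7 (fun s => chk (uent L4254 s)) 0 = true := by decide +kernel
theorem p4254 : PrV chk L4254 := leafV c4254

theorem c4255 : lp7 (fun s => chk (uent L4255 s)) 0 = true := by decide +kernel
theorem p4255 : PrV chk L4255 := leafV c4255

theorem c4256 : lp7 (fun s => chk (uent L4256 s)) 0 = true := by decide +kernel
theorem p4256 : PrV chk L4256 := leafV c4256

theorem c4257 : lp7 (fun s => chk (uent L4257 s)) 0 = true := by decide +kernel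
theorem p4257 : PrV chk L4257 := leafV c4257

theorem c4258 : lp7 (fun s => chk (uent L4258 s)) 0 = true := by decide +kernel
theorem p4258 : PrV chk L4258 := leafV c4258

theorem c4259 : lp7 (fun s => chk (uent L4259 s)) 0 = true := by decide +kernel
theorem p4259 : PrV chk L4259 := leafV c4259

theorem c4260 : lp7 (fun s => chk (uent L4260 s)) 0 = true := by decide +kernel
theorem p4260 : PrV chk L4260 := leafV c4260

theorem c4261 : lp7 (fun s => chk (uent L4261 s)) 0 = true := by decide +kernel
theorem p4261 : PrV chk L4261 := leafV c4261

theorem c4262 : lp7 (fun s => chk (uent L4262 s)) 0 = true := by decide +kernel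
theorem p4262 : PrV chk L4262 := leafV c4262

theorem c4263 : lp7 (fun s => chk (uent L4263 s)) 0 = true := by decide +kernel
theorem p4263 : PrV chk L4263 := leafV c4263

theorem c4264 : lp7 (fun s => chk (uent L4264 s)) 0 = true := by decide +kernel
theorem p4264 : PrV chk L4264 := leafV c4264

theorem c4265 : lp7 (fun s => chk (uent L4265 s)) 0 = true := by decide +kernel
theorem p4265 : PrV chk L4265 := leafV c4265

theorem c4266 : lp7 (fun s => chk (uent L4266 s)) 0 = true := by decide +kernel
theorem p4266 : PrV chk L4266 := leafV c4266

theorem c4267 : lp7 (fun s => chk (uent L4267 s)) 0 = true := by decide +kernel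
theorem p4267 : PrV chk L4267 := leafV c4267

theorem c4268 : lp7 (fun s => chk (uent L4268 s)) 0 = true := by decide +kernel
theorem p4268 : PrV chk L4268 := leafV c4268

theorem c4269 : lp7 (fun s => chk (uent L4269 s)) 0 = true := by decide +kernel
theorem p4269 : PrV chk L4269 := leafV c4269

theorem c4270 : lp7 (fun s => chk (uent L4270 s)) 0 = true := by decide +kernel
theorem p4270 : PrV chk L4270 := leafV c4270

theorem c4271 : lp7 (fun s => chk (uent L4271 s)) 0 = true := by decide +kernel
theorem p4271 : PrV chk L4271 := leafV c4271

theorem c4272 : lp7 (fun s => chk (uent L4272 s)) 0 = true := by decide +kernel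
theorem p4272 : PrV chk L4272 := leafV c4272

theorem c4273 : lp7 (fun s => chk (uent L4273 s)) 0 = true := by decide +kernel
theorem p4273 : PrV chk L4273 := leafV c4273

theorem c4274 : lp7 (fun s => chk (uent L4274 s)) 0 = true := by decide +kernel
theorem p4274 : PrV chk L4274 := leafV c4274

theorem c4275 : lp7 (fun s => chk (uent L4275 s)) 0 = true := by decide +kernel
theorem p4275 : PrV chk L4275 := leafV c4275

theorem c4276 : lp7 (fun s => chk (uent L4276 s)) 0 = true := by decide +kernel
theorem p4276 : PrV chk L4276 := leafV c4276

theorem c4277 : lp7 (fun s => chk (uent L4277 s)) 0 = true := by decide +kernel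
theorem p4277 : PrV chk L4277 := leafV c4277

theorem c4278 : lp7 (fun s => chk (uent L4278 s)) 0 = true := by decide +kernel
theorem p4278 : PrV chk L4278 := leafV c4278

theorem c4279 : lp7 (fun s => chk (uent L4279 s)) 0 = true := by decide +kernel
theorem p4279 : PrV chk L4279 := leafV c4279

theorem c4280 : lp7 (fun s => chk (uent L4280 s)) 0 = true := by decide +kernel
theorem p4280 : PrV chk L4280 := leafV c4280

theorem c4281 : lp7 (fun s => chk (uent L4281 s)) 0 = true := by decide +kernel
theorem p4281 : PrV chk L4281 := leafV c4281

theorem c4282 : lp7 (fun s => chk (uent L4282 s)) 0 = true := by decide +kernel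
theorem p4282 : PrV chk L4282 := leafV c4282

theorem c4283 : lp7 (fun s => chk (uent L4283 s)) 0 = true := by decide +kernel
theorem p4283 : PrV chk L4283 := leafV c4283

theorem c4284 : lp7 (fun s => chk (uent L4284 s)) 0 = true := by decide +kernel
theorem p4284 : PrV chk L4284 := leafV c4284

theorem c4285 : lp7 (fun s => chk (uent L4285 s)) 0 = true := by decide +kernel
theorem p4285 : PrV chk L4285 := leafV c4285

theorem c4286 : lp7 (fun s => chk (uent L4286 s)) 0 = true := by decide +kernel
theorem p4286 : PrV chk L4286 := leafV c4286

theorem c4287 : lp7 (fun s => chk (uent L4287 s)) 0 = true := by decide +kernel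
theorem p4287 : PrV chk L4287 := leafV c4287

theorem c4288 : lp7 (fun s => chk (uent L4288 s)) 0 = true := by decide +kernel
theorem p4288 : PrV chk L4288 := leafV c4288

theorem c4289 : lp7 (fun s => chk (uent L4289 s)) 0 = true := by decide +kernel
theorem p4289 : PrV chk L4289 := leafV c4289

theorem c4290 : lp7 (fun s => chk (uent L4290 s)) 0 = true := by decide +kernel
theorem p4290 : PrV chk L4290 := leafV c4290

theorem c4291 : lp7 (fun s => chk (uent L4291 s)) 0 = true := by decide +kernel
theorem p4291 : PrV chk L4291 := leafV c4291

theorem c4292 : lp7 (fun s => chk (uent L4292 s)) 0 = true := by decide +kernel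
theorem p4292 : PrV chk L4292 := leafV c4292

theorem c4293 : lp7 (fun s => chk (uent L4293 s)) 0 = true := by decide +kernel
theorem p4293 : PrV chk L4293 := leafV c4293

theorem c4294 : lp7 (fun s => chk (uent L4294 s)) 0 = true := by decide +kernel
theorem p4294 : PrV chk L4294 := leafV c4294

theorem c4295 : lp7 (fun s => chk (uent L4295 s)) 0 = true := by decide +kernel
theorem p4295 : PrV chk L4295 := leafV c4295

theorem c4296 : lp7 (fun s => chk (uent L4296 s)) 0 = true := by decide +kernel
theorem p4296 : PrV chk L4296 := leafV c4296

theorem c4297 : lp7 (fun s => chk (uent L4297 s)) 0 = true := by decide +kernel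
theorem p4297 : PrV chk L4297 := leafV c4297

theorem c4298 : lp7 (fun s => chk (uent L4298 s)) 0 = true := by decide +kernel
theorem p4298 : PrV chk L4298 := leafV c4298

theorem c4299 : lp7 (fun s => chk (uent L4299 s)) 0 = true := by decide +kernel
theorem p4299 : PrV chk L4299 := leafV c4299

theorem c4300 : lp7 (fun s => chk (uent L4300 s)) 0 = true := by decide +kernel
theorem p4300 : PrV chk L4300 := leafV c4300

theorem c4301 : lp7 (fun s => chk (uent L4301 s)) 0 = true := by decide +kernel
theorem p4301 : PrV chk L4301 := leafV c4301

theorem c4302 : lp7 (fun s => chk (uent L4302 s)) 0 = true := by decide +kernel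
theorem p4302 : PrV chk L4302 := leafV c4302

theorem c4303 : lp7 (fun s => chk (uent L4303 s)) 0 = true := by decide +kernel
theorem p4303 : PrV chk L4303 := leafV c4303

theorem c4304 : lp7 (fun s => chk (uent L4304 s)) 0 = true := by decide +kernel
theorem p4304 : PrV chk L4304 := leafV c4304

theorem c4305 : lp7 (fun s => chk (uent L4305 s)) 0 = true := by decide +kernel
theorem p4305 : PrV chk L4305 := leafV c4305

theorem c4306 : lp7 (fun s => chk (uent L4306 s)) 0 = true := by decide +kernel
theorem p4306 : PrV chk L4306 := leafV c4306

theorem c4307 : lp7 (fun s => chk (uent L4307 s)) 0 = true := by decide +kernel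
theorem p4307 : PrV chk L4307 := leafV c4307

theorem c4308 : lp7 (fun s => chk (uent L4308 s)) 0 = true := by decide +kernel
theorem p4308 : PrV chk L4308 := leafV c4308

theorem c4309 : lp7 (fun s => chk (uent L4309 s)) 0 = true := by decide +kernel
theorem p4309 : PrV chk L4309 := leafV c4309

theorem c4310 : lp7 (fun s => chk (uent L4310 s)) 0 = true := by decide +kernel
theorem p4310 : PrV chk L4310 := leafV c4310

theorem c4311 : lp7 (fun s => chk (uent L4311 s)) 0 = true := by decide +kernel
theorem p4311 : PrV chk L4311 := leafV c4311

theorem c4312 : lp7 (fun s => chk (uent L4312 s)) 0 = true := by decide +kernel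
theorem p4312 : PrV chk L4312 := leafV c4312

theorem c4313 : lp7 (fun s => chk (uent L4313 s)) 0 = true := by decide +kernel
theorem p4313 : PrV chk L4313 := leafV c4313

theorem c4314 : lp7 (fun s => chk (uent L4314 s)) 0 = true := by decide +kernel
theorem p4314 : PrV chk L4314 := leafV c4314

theorem c4315 : lp7 (fun s => chk (uent L4315 s)) 0 = true := by decide +kernel
theorem p4315 : PrV chk L4315 := leafV c4315

theorem c4316 : lp7 (fun s => chk (uent L4316 s)) 0 = true := by decide +kernel
theorem p4316 : PrV chk L4316 := leafV c4316

theorem c4317 : lp7 (fun s => chk (uent L4317 s)) 0 = true := by decide +kernel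
theorem p4317 : PrV chk L4317 := leafV c4317

theorem c4318 : lp7 (fun s => chk (uent L4318 s)) 0 = true := by decide +kernel
theorem p4318 : PrV chk L4318 := leafV c4318

theorem c4319 : lp7 (fun s => chk (uent L4319 s)) 0 = true := by decide +kernel
theorem p4319 : PrV chk L4319 := leafV c4319

theorem c4320 : lp7 (fun s => chk (uent L4320 s)) 0 = true := by decide +kernel
theorem p4320 : PrV chk L4320 := leafV c4320

theorem c4321 : lp7 (fun s => chk (uent L4321 s)) 0 = true := by decide +kernel
theorem p4321 : PrV chk L4321 := leafV c4321

theorem c4322 : lp7 (fun s => chk (uent L4322 s)) 0 = true := by decide +kernel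
theorem p4322 : PrV chk L4322 := leafV c4322

theorem c4323 : lp7 (fun s => chk (uent L4323 s)) 0 = true := by decide +kernel
theorem p4323 : PrV chk L4323 := leafV c4323

theorem c4324 : lp7 (fun s => chk (uent L4324 s)) 0 = true := by decide +kernel
theorem p4324 : PrV chk L4324 := leafV c4324

theorem c4325 : lp7 (fun s => chk (uent L4325 s)) 0 = true := by decide +kernel
theorem p4325 : PrV chk L4325 := leafV c4325

theorem c4326 : lp7 (fun s => chk (uent L4326 s)) 0 = true := by decide +kernel
theorem p4326 : PrV chk L4326 := leafV c4326

theorem c4327 : lp7 (fun s => chk (uent L4327 s)) 0 = true := by decide +kernel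
theorem p4327 : PrV chk L4327 := leafV c4327

theorem c4328 : lp7 (fun s => chk (uent L4328 s)) 0 = true := by decide +kernel
theorem p4328 : PrV chk L4328 := leafV c4328

theorem c4329 : lp7 (fun s => chk (uent L4329 s)) 0 = true := by decide +kernel
theorem p4329 : PrV chk L4329 := leafV c4329

theorem c4330 : lp7 (fun s => chk (uent L4330 s)) 0 = true := by decide +kernel
theorem p4330 : PrV chk L4330 := leafV c4330

theorem c4331 : lp7 (fun s => chk (uent L4331 s)) 0 = true := by decide +kernel
theorem p4331 : PrV chk L4331 := leafV c4331

theorem c4332 : lp7 (fun s => chk (uent L4332 s)) 0 = true := by decide +kernel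
theorem p4332 : PrV chk L4332 := leafV c4332

theorem c4333 : lp7 (fun s => chk (uent L4333 s)) 0 = true := by decide +kernel
theorem p4333 : PrV chk L4333 := leafV c4333

theorem c4334 : lp7 (fun s => chk (uent L4334 s)) 0 = true := by decide +kernel
theorem p4334 : PrV chk L4334 := leafV c4334

theorem c4335 : lp7 (fun s => chk (uent L4335 s)) 0 = true := by decide +kernel
theorem p4335 : PrV chk L4335 := leafV c4335

theorem c4336 : lp7 (fun s => chk (uent L4336 s)) 0 = true := by decide +kernel
theorem p4336 : PrV chk L4336 := leafV c4336

theorem c4337 : lp7 (fun s => chk (uent L4337 s)) 0 = true := by decide +kernel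
theorem p4337 : PrV chk L4337 := leafV c4337

theorem c4338 : lp7 (fun s => chk (uent L4338 s)) 0 = true := by decide +kernel
theorem p4338 : PrV chk L4338 := leafV c4338

theorem c4339 : lp7 (fun s => chk (uent L4339 s)) 0 = true := by decide +kernel
theorem p4339 : PrV chk L4339 := leafV c4339

theorem c4340 : lp7 (fun s => chk (uent L4340 s)) 0 = true := by decide +kernel
theorem p4340 : PrV chk L4340 := leafV c4340

theorem c4341 : lp7 (fun s => chk (uent L4341 s)) 0 = true := by decide +kernel
theorem p4341 : PrV chk L4341 := leafV c4341

theorem c4342 : lp7 (fun s => chk (uent L4342 s)) 0 = true := by decide +kernel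
theorem p4342 : PrV chk L4342 := leafV c4342

theorem c4343 : lp7 (fun s => chk (uent L4343 s)) 0 = true := by decide +kernel
theorem p4343 : PrV chk L4343 := leafV c4343

theorem c4344 : lp7 (fun s => chk (uent L4344 s)) 0 = true := by decide +kernel
theorem p4344 : PrV chk L4344 := leafV c4344

theorem c4345 : lp7 (fun s => chk (uent L4345 s)) 0 = true := by decide +kernel
theorem p4345 : PrV chk L4345 := leafV c4345

theorem c4346 : lp7 (fun s => chk (uent L4346 s)) 0 = true := by decide +kernel
theorem p4346 : PrV chk L4346 := leafV c4346

theorem c4347 : lp7 (fun s => chk (uent L4347 s)) 0 = true := by decide +kernel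
theorem p4347 : PrV chk L4347 := leafV c4347

theorem c4348 : lp7 (fun s => chk (uent L4348 s)) 0 = true := by decide +kernel
theorem p4348 : PrV chk L4348 := leafV c4348

theorem c4349 : lp7 (fun s => chk (uent L4349 s)) 0 = true := by decide +kernel
theorem p4349 : PrV chk L4349 := leafV c4349

theorem c4350 : lp7 (fun s => chk (uent L4350 s)) 0 = true := by decide +kernel
theorem p4350 : PrV chk L4350 := leafV c4350

theorem c4351 : lp7 (fun s => chk (uent L4351 s)) 0 = true := by decide +kernel
theorem p4351 : PrV chk L4351 := leafV c4351

theorem c4352 : lp7 (fun s => chk (uent L4352 s)) 0 = true := by decide +kernel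
theorem p4352 : PrV chk L4352 := leafV c4352

theorem c4353 : lp7 (fun s => chk (uent L4353 s)) 0 = true := by decide +kernel
theorem p4353 : PrV chk L4353 := leafV c4353

theorem c4354 : lp7 (fun s => chk (uent L4354 s)) 0 = true := by decide +kernel
theorem p4354 : PrV chk L4354 := leafV c4354

theorem c4355 : lp7 (fun s => chk (uent L4355 s)) 0 = true := by decide +kernel
theorem p4355 : PrV chk L4355 := leafV c4355

theorem c4356 : lp7 (fun s => chk (uent L4356 s)) 0 = true := by decide +kernel
theorem p4356 : PrV chk L4356 := leafV c4356

theorem c4357 : lp7 (fun s => chk (uent L4357 s)) 0 = true := by decide +kernel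
theorem p4357 : PrV chk L4357 := leafV c4357

theorem c4358 : lp7 (fun s => chk (uent L4358 s)) 0 = true := by decide +kernel
theorem p4358 : PrV chk L4358 := leafV c4358

theorem c4359 : lp7 (fun s => chk (uent L4359 s)) 0 = true := by decide +kernel
theorem p4359 : PrV chk L4359 := leafV c4359

theorem c4360 : lp7 (fun s => chk (uent L4360 s)) 0 = true := by decide +kernel
theorem p4360 : PrV chk L4360 := leafV c4360

theorem c4361 : lp7 (fun s => chk (uent L4361 s)) 0 = true := by decide +kernel
theorem p4361 : PrV chk L4361 := leafV c4361

theorem c4362 : lp7 (fun s => chk (uent L4362 s)) 0 = true := by decide +kernel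
theorem p4362 : PrV chk L4362 := leafV c4362

theorem c4363 : lp7 (fun s => chk (uent L4363 s)) 0 = true := by decide +kernel
theorem p4363 : PrV chk L4363 := leafV c4363

theorem c4364 : lp7 (fun s => chk (uent L4364 s)) 0 = true := by decide +kernel
theorem p4364 : PrV chk L4364 := leafV c4364

theorem c4365 : lp7 (fun s => chk (uent L4365 s)) 0 = true := by decide +kernel
theorem p4365 : PrV chk L4365 := leafV c4365

theorem c4366 : lp7 (fun s => chk (uent L4366 s)) 0 = true := by decide +kernel
theorem p4366 : PrV chk L4366 := leafV c4366

theorem c4367 : lp7 (fun s => chk (uent L4367 s)) 0 = true := by decide +kernel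
theorem p4367 : PrV chk L4367 := leafV c4367

theorem c4368 : lp7 (fun s => chk (uent L4368 s)) 0 = true := by decide +kernel
theorem p4368 : PrV chk L4368 := leafV c4368

theorem c4369 : lp7 (fun s => chk (uent L4369 s)) 0 = true := by decide +kernel
theorem p4369 : PrV chk L4369 := leafV c4369

theorem c4370 : lp7 (fun s => chk (uent L4370 s)) 0 = true := by decide +kernel
theorem p4370 : PrV chk L4370 := leafV c4370

theorem c4371 : lp7 (fun s => chk (uent L4371 s)) 0 = true := by decide +kernel
theorem p4371 : PrV chk L4371 := leafV c4371

theorem c4372 : lp7 (fun s => chk (uent L4372 s)) 0 = true := by decide +kernel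
theorem p4372 : PrV chk L4372 := leafV c4372

theorem c4373 : lp7 (fun s => chk (uent L4373 s)) 0 = true := by decide +kernel
theorem p4373 : PrV chk L4373 := leafV c4373

theorem c4374 : lp7 (fun s => chk (uent L4374 s)) 0 = true := by decide +kernel
theorem p4374 : PrV chk L4374 := leafV c4374

theorem c4375 : lp7 (fun s => chk (uent L4375 s)) 0 = true := by decide +kernel
theorem p4375 : PrV chk L4375 := leafV c4375

theorem c4376 : lp7 (fun s => chk (uent L4376 s)) 0 = true := by decide +kernel
theorem p4376 : PrV chk L4376 := leafV c4376

theorem c4377 : lp7 (fun s => chk (uent L4377 s)) 0 = true := by decide +kernel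
theorem p4377 : PrV chk L4377 := leafV c4377

theorem c4378 : lp7 (fun s => chk (uent L4378 s)) 0 = true := by decide +kernel
theorem p4378 : PrV chk L4378 := leafV c4378

theorem c4379 : lp7 (fun s => chk (uent L4379 s)) 0 = true := by decide +kernel
theorem p4379 : PrV chk L4379 := leafV c4379

theorem c4380 : lp7 (fun s => chk (uent L4380 s)) 0 = true := by decide +kernel
theorem p4380 : PrV chk L4380 := leafV c4380

theorem c4381 : lp7 (fun s => chk (uent L4381 s)) 0 = true := by decide +kernel
theorem p4381 : PrV chk L4381 := leafV c4381

theorem c4382 : lp7 (fun s => chk (uent L4382 s)) 0 = true := by decide +kernel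
theorem p4382 : PrV chk L4382 := leafV c4382

theorem c4383 : lp7 (fun s => chk (uent L4383 s)) 0 = true := by decide +kernel
theorem p4383 : PrV chk L4383 := leafV c4383

theorem c4384 : lp7 (fun s => chk (uent L4384 s)) 0 = true := by decide +kernel
theorem p4384 : PrV chk L4384 := leafV c4384

theorem c4385 : lp7 (fun s => chk (uent L4385 s)) 0 = true := by decide +kernel
theorem p4385 : PrV chk L4385 := leafV c4385

theorem c4386 : lp7 (fun s => chk (uent L4386 s)) 0 = true := by decide +kernel
theorem p4386 : PrV chk L4386 := leafV c4386

theorem c4387 : lp7 (fun s => chk (uent L4387 s)) 0 = true := by decide +kernel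
theorem p4387 : PrV chk L4387 := leafV c4387

theorem c4388 : lp7 (fun s => chk (uent L4388 s)) 0 = true := by decide +kernel
theorem p4388 : PrV chk L4388 := leafV c4388

theorem c4389 : lp7 (fun s => chk (uent L4389 s)) 0 = true := by decide +kernel
theorem p4389 : PrV chk L4389 := leafV c4389

theorem c4390 : lp7 (fun s => chk (uent L4390 s)) 0 = true := by decide +kernel
theorem p4390 : PrV chk L4390 := leafV c4390

theorem c4391 : lp7 (fun s => chk (uent L4391 s)) 0 = true := by decide +kernel
theorem p4391 : PrV chk L4391 := leafV c4391

theorem c4392 : lp7 (fun s => chk (uent L4392 s)) 0 = true := by decide +kernel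
theorem p4392 : PrV chk L4392 := leafV c4392

theorem c4393 : lp7 (fun s => chk (uent L4393 s)) 0 = true := by decide +kernel
theorem p4393 : PrV chk L4393 := leafV c4393

theorem c4394 : lp7 (fun s => chk (uent L4394 s)) 0 = true := by decide +kernel
theorem p4394 : PrV chk L4394 := leafV c4394

theorem c4395 : lp7 (fun s => chk (uent L4395 s)) 0 = true := by decide +kernel
theorem p4395 : PrV chk L4395 := leafV c4395

theorem c4396 : lp7 (fun s => chk (uent L4396 s)) 0 = true := by decide +kernel
theorem p4396 : PrV chk L4396 := leafV c4396

theorem c4397 : lp7 (fun s => chk (uent L4397 s)) 0 = true := by decide +kernel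
theorem p4397 : PrV chk L4397 := leafV c4397

theorem c4398 : lp7 (fun s => chk (uent L4398 s)) 0 = true := by decide +kernel
theorem p4398 : PrV chk L4398 := leafV c4398

theorem c4399 : lp7 (fun s => chk (uent L4399 s)) 0 = true := by decide +kernel
theorem p4399 : PrV chk L4399 := leafV c4399

theorem c4400 : lp7 (fun s => chk (uent L4400 s)) 0 = true := by decide +kernel
theorem p4400 : PrV chk L4400 := leafV c4400

theorem c4401 : lp7 (fun s => chk (uent L4401 s)) 0 = true := by decide +kernel
theorem p4401 : PrV chk L4401 := leafV c4401

theorem c4402 : lp7 (fun s => chk (uent L4402 s)) 0 = true := by decide +kernel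
theorem p4402 : PrV chk L4402 := leafV c4402

theorem c4403 : lp7 (fun s => chk (uent L4403 s)) 0 = true := by decide +kernel
theorem p4403 : PrV chk L4403 := leafV c4403

theorem c4404 : lp7 (fun s => chk (uent L4404 s)) 0 = true := by decide +kernel
theorem p4404 : PrV chk L4404 := leafV c4404

theorem c4405 : lp7 (fun s => chk (uent L4405 s)) 0 = true := by decide +kernel
theorem p4405 : PrV chk L4405 := leafV c4405

theorem c4406 : lp7 (fun s => chk (uent L4406 s)) 0 = true := by decide +kernel
theorem p4406 : PrV chk L4406 := leafV c4406

theorem c4407 : lp7 (fun s => chk (uent L4407 s)) 0 = true := by decide +kernel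
theorem p4407 : PrV chk L4407 := leafV c4407

theorem c4408 : lp7 (fun s => chk (uent L4408 s)) 0 = true := by decide +kernel
theorem p4408 : PrV chk L4408 := leafV c4408

theorem c4409 : lp7 (fun s => chk (uent L4409 s)) 0 = true := by decide +kernel
theorem p4409 : PrV chk L4409 := leafV c4409

theorem c4410 : lp7 (fun s => chk (uent L4410 s)) 0 = true := by decide +kernel
theorem p4410 : PrV chk L4410 := leafV c4410

theorem c4411 : lp7 (fun s => chk (uent L4411 s)) 0 = true := by decide +kernel
theorem p4411 : PrV chk L4411 := leafV c4411

theorem c4412 : lp7 (fun s => chk (uent L4412 s)) 0 = true := by decide +kernel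
theorem p4412 : PrV chk L4412 := leafV c4412

theorem c4413 : lp7 (fun s => chk (uent L4413 s)) 0 = true := by decide +kernel
theorem p4413 : PrV chk L4413 := leafV c4413

theorem c4414 : lp7 (fun s => chk (uent L4414 s)) 0 = true := by decide +kernel
theorem p4414 : PrV chk L4414 := leafV c4414

theorem c4415 : lp7 (fun s => chk (uent L4415 s)) 0 = true := by decide +kernel
theorem p4415 : PrV chk L4415 := leafV c4415

end Pool.Agent.ad013a.W
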