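import Pool.Agent.H.MP_ad013a_pr.h63w.A.T
import Pool.Agent.H.MP_ad013a_pr.h63w.VLoop

namespace Pool.Agent.ad013a.W

theorem c4608 : lp7 (fun s => chk (uent L4608 s)) 0 = true := by decide +kernel
theorem p4608 : PrV chk L4608 := leafV c4608

theorem c4609 : lp7 (fun s => chk (uent L4609 s)) 0 = true := by decide +kernel
theorem p4609 : PrV chk L4609 := leafV c4609

theorem c4610 : lp7 (fun s => chk (uent L4610 s)) 0 = true := by decide +kernel
theorem p4610 : PrV chk L4610 := leafV c4610

theorem c4611 : lp7 (fun s => chk (uent L4611 s)) 0 = true := by decide +kernel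
theorem p4611 : PrV chk L4611 := leafV c4611

theorem c4612 : lp7 (fun s => chk (uent L4612 s)) 0 = true := by decide +kernel
theorem p4612 : PrV chk L4612 := leafV c4612

theorem c4613 : lp7 (fun s => chk (uent L4613 s)) 0 = true := by decide +kernel
theorem p4613 : PrV chk L4613 := leafV c4613

theorem c4614 : lp7 (fun s => chk (uent L4614 s)) 0 = true := by decide +kernel
theorem p4614 : PrV chk L4614 := leafV c4614

theorem c4615 : lp7 (fun s => chk (uent L4615 s)) 0 = true := by decide +kernel
theorem p4615 : PrV chk L4615 := leafV c4615

theorem c4616 : lp7 (fun s => chk (uent L4616 s)) 0 = true := by decide +kernel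
theorem p4616 : PrV chk L4616 := leafV c4616

theorem c4617 : lp7 (fun s => chk (uent L4617 s)) 0 = true := by decide +kernel
theorem p4617 : PrV chk L4617 := leafV c4617

theorem c4618 : lp7 (fun s => chk (uent L4618 s)) 0 = true := by decide +kernel
theorem p4618 : PrV chk L4618 := leafV c4618

theorem c4619 : lp7 (fun s => chk (uent L4619 s)) 0 = true := by decide +kernel
theorem p4619 : PrV chk L4619 := leafV c4619

theorem c4620 : lp7 (fun s => chk (uent L4620 s)) 0 = true := by decide +kernel
theorem p4620 : PrV chk L4620 := leafV c4620

theorem c4621 : lp7 (fun s => chk (uent L4621 s)) 0 = true := by decide +kernel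
theorem p4621 : PrV chk L4621 := leafV c4621

theorem c4622 : lp7 (fun s => chk (uent L4622 s)) 0 = true := by decide +kernel
theorem p4622 : PrV chk L4622 := leafV c4622

theorem c4623 : lp7 (fun s => chk (uent L4623 s)) 0 = true := by decide +kernel
theorem p4623 : PrV chk L4623 := leafV c4623

theorem c4624 : lp7 (fun s => chk (uent L4624 s)) 0 = true := by decide +kernel
theorem p4624 : PrV chk L4624 := leafV c4624

theorem c4625 : lp7 (fun s => chk (uent L4625 s)) 0 = true := by decide +kernel
theorem p4625 : PrV chk L4625 := leafV c4625

theorem c4626 : lp7 (fun s => chk (uent L4626 s)) 0 = true := by decide +kernel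
theorem p4626 : PrV chk L4626 := leafV c4626

theorem c4627 : lp7 (fun s => chk (uent L4627 s)) 0 = true := by decide +kernel
theorem p4627 : PrV chk L4627 := leafV c4627

theorem c4628 : lp7 (fun s => chk (uent L4628 s)) 0 = true := by decide +kernel
theorem p4628 : PrV chk L4628 := leafV c4628

theorem c4629 : lp7 (fun s => chk (uent L4629 s)) 0 = true := by decide +kernel
theorem p4629 : PrV chk L4629 := leafV c4629

theorem c4630 : lp7 (fun s => chk (uent L4630 s)) 0 = true := by decide +kernel
theorem p4630 : PrV chk L4630 := leafV c4630

theorem c4631 : lp7 (fun s => chk (uent L4631 s)) 0 = true := by decide +kernel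
theorem p4631 : PrV chk L4631 := leafV c4631

theorem c4632 : lp7 (fun s => chk (uent L4632 s)) 0 = true := by decide +kernel
theorem p4632 : PrV chk L4632 := leafV c4632

theorem c4633 : lp7 (fun s => chk (uent L4633 s)) 0 = true := by decide +kernel
theorem p4633 : PrV chk L4633 := leafV c4633

theorem c4634 : lp7 (fun s => chk (uent L4634 s)) 0 = true := by decide +kernel
theorem p4634 : PrV chk L4634 := leafV c4634

theorem c4635 : lp7 (fun s => chk (uent L4635 s)) 0 = true := by decide +kernel
theorem p4635 : PrV chk L4635 := leafV c4635

theorem c4636 : lp7 (fun s => chk (uent L4636 s)) 0 = true := by decide +kernel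
theorem p4636 : PrV chk L4636 := leafV c4636

theorem c4637 : lp7 (fun s => chk (uent L4637 s)) 0 = true := by decide +kernel
theorem p4637 : PrV chk L4637 := leafV c4637

theorem c4638 : lp7 (fun s => chk (uent L4638 s)) 0 = true := by decide +kernel
theorem p4638 : PrV chk L4638 := leafV c4638

theorem c4639 : lp7 (fun s => chk (uent L4639 s)) 0 = true := by decide +kernel
theorem p4639 : PrV chk L4639 := leafV c4639

theorem c4640 : lp7 (fun s => chk (uent L4640 s)) 0 = true := by decide +kernel
theorem p4640 : PrV chk L4640 := leafV c4640

theorem c4641 : lp7 (fun s => chk (uent L4641 s)) 0 = true := by decide +kernel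
theorem p4641 : PrV chk L4641 := leafV c4641

theorem c4642 : lp7 (fun s => chk (uent L4642 s)) 0 = true := by decide +kernel
theorem p4642 : PrV chk L4642 := leafV c4642

theorem c4643 : lp7 (fun s => chk (uent L4643 s)) 0 = true := by decide +kernel
theorem p4643 : PrV chk L4643 := leafV c4643

theorem c4644 : lp7 (fun s => chk (uent L4644 s)) 0 = true := by decide +kernel
theorem p4644 : PrV chk L4644 := leafV c4644

theorem c4645 : lp7 (fun s => chk (uent L4645 s)) 0 = true := by decide +kernel
theorem p4645 : PrV chk L4645 := leafV c4645

theorem c4646 : lp7 (fun s => chk (uent L4646 s)) 0 = true := by decide +kernel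
theorem p4646 : PrV chk L4646 := leafV c4646

theorem c4647 : lp7 (fun s => chk (uent L4647 s)) 0 = true := by decide +kernel
theorem p4647 : PrV chk L4647 := leafV c4647

theorem c4648 : lp7 (fun s => chk (uent L4648 s)) 0 = true := by decide +kernel
theorem p4648 : PrV chk L4648 := leafV c4648

theorem c4649 : lp7 (fun s => chk (uent L4649 s)) 0 = true := by decide +kernel
theorem p4649 : PrV chk L4649 := leafV c4649

theorem c4650 : lp7 (fun s => chk (uent L4650 s)) 0 = true := by decide +kernel
theorem p4650 : PrV chk L4650 := leafV c4650

theorem c4651 : lp7 (fun s => chk (uent L4651 s)) 0 = true := by decide +kernel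
theorem p4651 : PrV chk L4651 := leafV c4651

theorem c4652 : lp7 (fun s => chk (uent L4652 s)) 0 = true := by decide +kernel
theorem p4652 : PrV chk L4652 := leafV c4652

theorem c4653 : lp7 (fun s => chk (uent L4653 s)) 0 = true := by decide +kernel
theorem p4653 : PrV chk L4653 := leafV c4653

theorem c4654 : lp7 (fun s => chk (uent L4654 s)) 0 = true := by decide +kernel
theorem p4654 : PrV chk L4654 := leafV c4654

theorem c4655 : lp7 (fun s => chk (uent L4655 s)) 0 = true := by decide +kernel
theorem p4655 : PrV chk L4655 := leafV c4655

theorem c4656 : lp7 (fun s => chk (uent L4656 s)) 0 = true := by decide +kernel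
theorem p4656 : PrV chk L4656 := leafV c4656

theorem c4657 : lp7 (fun s => chk (uent L4657 s)) 0 = true := by decide +kernel
theorem p4657 : PrV chk L4657 := leafV c4657

theorem c4658 : lp7 (fun s => chk (uent L4658 s)) 0 = true := by decide +kernel
theorem p4658 : PrV chk L4658 := leafV c4658

theorem c4659 : lp7 (fun s => chk (uent L4659 s)) 0 = true := by decide +kernel
theorem p4659 : PrV chk L4659 := leafV c4659

theorem c4660 : lp7 (fun s => chk (uent L4660 s)) 0 = true := by decide +kernel
theorem p4660 : PrV chk L4660 := leafV c4660

theorem c4661 : lp7 (fun s => chk (uent L4661 s)) 0 = true := by decide +kernel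
theorem p4661 : PrV chk L4661 := leafV c4661

theorem c4662 : lp7 (fun s => chk (uent L4662 s)) 0 = true := by decide +kernel
theorem p4662 : PrV chk L4662 := leafV c4662

theorem c4663 : lp7 (fun s => chk (uent L4663 s)) 0 = true := by decide +kernel
theorem p4663 : PrV chk L4663 := leafV c4663

theorem c4664 : lp7 (fun s => chk (uent L4664 s)) 0 = true := by decide +kernel
theorem p4664 : PrV chk L4664 := leafV c4664

theorem c4665 : lp7 (fun s => chk (uent L4665 s)) 0 = true := by decide +kernel
theorem p4665 : PrV chk L4665 := leafV c4665

theorem c4666 : lp7 (fun s => chk (uent L4666 s)) 0 = true := by decide +kernel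
theorem p4666 : PrV chk L4666 := leafV c4666

theorem c4667 : lp7 (fun s => chk (uent L4667 s)) 0 = true := by decide +kernel
theorem p4667 : PrV chk L4667 := leafV c4667

theorem c4668 : lp7 (fun s => chk (uent L4668 s)) 0 = true := by decide +kernel
theorem p4668 : PrV chk L4668 := leafV c4668

theorem c4669 : lp7 (fun s => chk (uent L4669 s)) 0 = true := by decide +kernel
theorem p4669 : PrV chk L4669 := leafV c4669

theorem c4670 : lp7 (fun s => chk (uent L4670 s)) 0 = true := by decide +kernel
theorem p4670 : PrV chk L4670 := leafV c4670

theorem c4671 : lp7 (fun s => chk (uent L4671 s)) 0 = true := by decide +kernel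
theorem p4671 : PrV chk L4671 := leafV c4671

theorem c4672 : lp7 (fun s => chk (uent L4672 s)) 0 = true := by decide +kernel
theorem p4672 : PrV chk L4672 := leafV c4672

theorem c4673 : lp7 (fun s => chk (uent L4673 s)) 0 = true := by decide +kernel
theorem p4673 : PrV chk L4673 := leafV c4673

theorem c4674 : lp7 (fun s => chk (uent L4674 s)) 0 = true := by decide +kernel
theorem p4674 : PrV chk L4674 := leafV c4674

theorem c4675 : lp7 (fun s => chk (uent L4675 s)) 0 = true := by decide +kernel
theorem p4675 : PrV chk L4675 := leafV c4675

theorem c4676 : lp7 (fun s => chk (uent L4676 s)) 0 = true := by decide +kernel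
theorem p4676 : PrV chk L4676 := leafV c4676

theorem c4677 : lp7 (fun s => chk (uent L4677 s)) 0 = true := by decide +kernel
theorem p4677 : PrV chk L4677 := leafV c4677

theorem c4678 : lp7 (fun s => chk (uent L4678 s)) 0 = true := by decide +kernel
theorem p4678 : PrV chk L4678 := leafV c4678

theorem c4679 : lp7 (fun s => chk (uent L4679 s)) 0 = true := by decide +kernel
theorem p4679 : PrV chk L4679 := leafV c4679

theorem c4680 : lp7 (fun s => chk (uent L4680 s)) 0 = true := by decide +kernel
theorem p4680 : PrV chk L4680 := leafV c4680

theorem c4681 : lp7 (fun s => chk (uent L4681 s)) 0 = true := by decide +kernel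
theorem p4681 : PrV chk L4681 := leafV c4681

theorem c4682 : lp7 (fun s => chk (uent L4682 s)) 0 = true := by decide +kernel
theorem p4682 : PrV chk L4682 := leafV c4682

theorem c4683 : lp7 (fun s => chk (uent L4683 s)) 0 = true := by decide +kernel
theorem p4683 : PrV chk L4683 := leafV c4683

theorem c4684 : lp7 (fun s => chk (uent L4684 s)) 0 = true := by decide +kernel
theorem p4684 : PrV chk L4684 := leafV c4684

theorem c4685 : lp7 (fun s => chk (uent L4685 s)) 0 = true := by decide +kernel
theorem p4685 : PrV chk L4685 := leafV c4685

theorem c4686 : lp7 (fun s => chk (uent L4686 s)) 0 = true := by decide +kernel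
theorem p4686 : PrV chk L4686 := leafV c4686

theorem c4687 : lp7 (fun s => chk (uent L4687 s)) 0 = true := by decide +kernel
theorem p4687 : PrV chk L4687 := leafV c4687

theorem c4688 : lp7 (fun s => chk (uent L4688 s)) 0 = true := by decide +kernel
theorem p4688 : PrV chk L4688 := leafV c4688

theorem c4689 : lp7 (fun s => chk (uent L4689 s)) 0 = true := by decide +kernel
theorem p4689 : PrV chk L4689 := leafV c4689

theorem c4690 : lp7 (fun s => chk (uent L4690 s)) 0 = true := by decide +kernel
theorem p4690 : PrV chk L4690 := leafV c4690

theorem c4691 : lp7 (fun s => chk (uent L4691 s)) 0 = true := by decide +kernel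
theorem p4691 : PrV chk L4691 := leafV c4691

theorem c4692 : lp7 (fun s => chk (uent L4692 s)) 0 = true := by decide +kernel
theorem p4692 : PrV chk L4692 := leafV c4692

theorem c4693 : lp7 (fun s => chk (uent L4693 s)) 0 = true := by decide +kernel
theorem p4693 : PrV chk L4693 := leafV c4693

theorem c4694 : lp7 (fun s => chk (uent L4694 s)) 0 = true := by decide +kernel
theorem p4694 : PrV chk L4694 := leafV c4694

theorem c4695 : lp7 (fun s => chk (uent L4695 s)) 0 = true := by decide +kernel
theorem p4695 : PrV chk L4695 := leafV c4695

theorem c4696 : lp7 (fun s => chk (uent L4696 s)) 0 = true := by decide +kernel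
theorem p4696 : PrV chk L4696 := leafV c4696

theorem c4697 : lp7 (fun s => chk (uent L4697 s)) 0 = true := by decide +kernel
theorem p4697 : PrV chk L4697 := leafV c4697

theorem c4698 : lp7 (fun s => chk (uent L4698 s)) 0 = true := by decide +kernel
theorem p4698 : PrV chk L4698 := leafV c4698

theorem c4699 : lp7 (fun s => chk (uent L4699 s)) 0 = true := by decide +kernel
theorem p4699 : PrV chk L4699 := leafV c4699

theorem c4700 : lp7 (fun s => chk (uent L4700 s)) 0 = true := by decide +kernel
theorem p4700 : PrV chk L4700 := leafV c4700

theorem c4701 : lp7 (fun s => chk (uent L4701 s)) 0 = true := by decide +kernel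
theorem p4701 : PrV chk L4701 := leafV c4701

theorem c4702 : lp7 (fun s => chk (uent L4702 s)) 0 = true := by decide +kernel
theorem p4702 : PrV chk L4702 := leafV c4702

theorem c4703 : lp7 (fun s => chk (uent L4703 s)) 0 = true := by decide +kernel
theorem p4703 : PrV chk L4703 := leafV c4703

theorem c4704 : lp7 (fun s => chk (uent L4704 s)) 0 = true := by decide +kernel
theorem p4704 : PrV chk L4704 := leafV c4704

theorem c4705 : lp7 (fun s => chk (uent L4705 s)) 0 = true := by decide +kernel
theorem p4705 : PrV chk L4705 := leafV c4705

theorem c4706 : lp7 (fun s => chk (uent L4706 s)) 0 = true := by decide +kernel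
theorem p4706 : PrV chk L4706 := leafV c4706

theorem c4707 : lp7 (fun s => chk (uent L4707 s)) 0 = true := by decide +kernel
theorem p4707 : PrV chk L4707 := leafV c4707

theorem c4708 : lp7 (fun s => chk (uent L4708 s)) 0 = true := by decide +kernel
theorem p4708 : PrV chk L4708 := leafV c4708

theorem c4709 : lp7 (fun s => chk (uent L4709 s)) 0 = true := by decide +kernel
theorem p4709 : PrV chk L4709 := leafV c4709

theorem c4710 : lp7 (fun s => chk (uent L4710 s)) 0 = true := by decide +kernel
theorem p4710 : PrV chk L4710 := leafV c4710

theorem c4711 : lp7 (fun s => chk (uent L4711 s)) 0 = true := by decide +kernel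
theorem p4711 : PrV chk L4711 := leafV c4711

theorem c4712 : lp7 (fun s => chk (uent L4712 s)) 0 = true := by decide +kernel
theorem p4712 : PrV chk L4712 := leafV c4712

theorem c4713 : lp7 (fun s => chk (uent L4713 s)) 0 = true := by decide +kernel
theorem p4713 : PrV chk L4713 := leafV c4713

theorem c4714 : lp7 (fun s => chk (uent L4714 s)) 0 = true := by decide +kernel
theorem p4714 : PrV chk L4714 := leafV c4714

theorem c4715 : lp7 (fun s => chk (uent L4715 s)) 0 = true := by decide +kernel
theorem p4715 : PrV chk L4715 := leafV c4715

theorem c4716 : lp7 (fun s => chk (uent L4716 s)) 0 = true := by decide +kernel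
theorem p4716 : PrV chk L4716 := leafV c4716

theorem c4717 : lp7 (fun s => chk (uent L4717 s)) 0 = true := by decide +kernel
theorem p4717 : PrV chk L4717 := leafV c4717

theorem c4718 : lp7 (fun s => chk (uent L4718 s)) 0 = true := by decide +kernel
theorem p4718 : PrV chk L4718 := leafV c4718

theorem c4719 : lp7 (fun s => chk (uent L4719 s)) 0 = true := by decide +kernel
theorem p4719 : PrV chk L4719 := leafV c4719

theorem c4720 : lp7 (fun s => chk (uent L4720 s)) 0 = true := by decide +kernel
theorem p4720 : PrV chk L4720 := leafV c4720

theorem c4721 : lp7 (fun s => chk (uent L4721 s)) 0 = true := by decide +kernel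
theorem p4721 : PrV chk L4721 := leafV c4721

theorem c4722 : lp7 (fun s => chk (uent L4722 s)) 0 = true := by decide +kernel
theorem p4722 : PrV chk L4722 := leafV c4722

theorem c4723 : lp7 (fun s => chk (uent L4723 s)) 0 = true := by decide +kernel
theorem p4723 : PrV chk L4723 := leafV c4723

theorem c4724 : lp7 (fun s => chk (uent L4724 s)) 0 = true := by decide +kernel
theorem p4724 : PrV chk L4724 := leafV c4724

theorem c4725 : lp7 (fun s => chk (uent L4725 s)) 0 = true := by decide +kernel
theorem p4725 : PrV chk L4725 := leafV c4725

theorem c4726 : lp7 (fun s => chk (uent L4726 s)) 0 = true := by decide +kernel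
theorem p4726 : PrV chk L4726 := leafV c4726

theorem c4727 : lp7 (fun s => chk (uent L4727 s)) 0 = true := by decide +kernel
theorem p4727 : PrV chk L4727 := leafV c4727

theorem c4728 : lp7 (fun s => chk (uent L4728 s)) 0 = true := by decide +kernel
theorem p4728 : PrV chk L4728 := leafV c4728

theorem c4729 : lp7 (fun s => chk (uent L4729 s)) 0 = true := by decide +kernel
theorem p4729 : PrV chk L4729 := leafV c4729

theorem c4730 : lp7 (fun s => chk (uent L4730 s)) 0 = true := by decide +kernel
theorem p4730 : PrV chk L4730 := leafV c4730

theorem c4731 : lp7 (fun s => chk (uent L4731 s)) 0 = true := by decide +kernel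
theorem p4731 : PrV chk L4731 := leafV c4731

theorem c4732 : lp7 (fun s => chk (uent L4732 s)) 0 = true := by decide +kernel
theorem p4732 : PrV chk L4732 := leafV c4732

theorem c4733 : lp7 (fun s => chk (uent L4733 s)) 0 = true := by decide +kernel
theorem p4733 : PrV chk L4733 := leafV c4733

theorem c4734 : lp7 (fun s => chk (uent L4734 s)) 0 = true := by decide +kernel
theorem p4734 : PrV chk L4734 := leafV c4734

theorem c4735 : lp7 (fun s => chk (uent L4735 s)) 0 = true := by decide +kernel
theorem p4735 : PrV chk L4735 := leafV c4735

theorem c4736 : lp7 (fun s => chk (uent L4736 s)) 0 = true := by decide +kernel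
theorem p4736 : PrV chk L4736 := leafV c4736

theorem c4737 : lp7 (fun s => chk (uent L4737 s)) 0 = true := by decide +kernel
theorem p4737 : PrV chk L4737 := leafV c4737

theorem c4738 : lp7 (fun s => chk (uent L4738 s)) 0 = true := by decide +kernel
theorem p4738 : PrV chk L4738 := leafV c4738

theorem c4739 : lp7 (fun s => chk (uent L4739 s)) 0 = true := by decide +kernel
theorem p4739 : PrV chk L4739 := leafV c4739

theorem c4740 : lp7 (fun s => chk (uent L4740 s)) 0 = true := by decide +kernel
theorem p4740 : PrV chk L4740 := leafV c4740

theorem c4741 : lp7 (fun s => chk (uent L4741 s)) 0 = true := by decide +kernel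
theorem p4741 : PrV chk L4741 := leafV c4741

theorem c4742 : lp7 (fun s => chk (uent L4742 s)) 0 = true := by decide +kernel
theorem p4742 : PrV chk L4742 := leafV c4742

theorem c4743 : lp7 (fun s => chk (uent L4743 s)) 0 = true := by decide +kernel
theorem p4743 : PrV chk L4743 := leafV c4743

theorem c4744 : lp7 (fun s => chk (uent L4744 s)) 0 = true := by decide +kernel
theorem p4744 : PrV chk L4744 := leafV c4744

theorem c4745 : lp7 (fun s => chk (uent L4745 s)) 0 = true := by decide +kernel
theorem p4745 : PrV chk L4745 := leafV c4745

theorem c4746 : lp7 (fun s => chk (uent L4746 s)) 0 = true := by decide +kernel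
theorem p4746 : PrV chk L4746 := leafV c4746

theorem c4747 : lp7 (fun s => chk (uent L4747 s)) 0 = true := by decide +kernel
theorem p4747 : PrV chk L4747 := leafV c4747

theorem c4748 : lp7 (fun s => chk (uent L4748 s)) 0 = true := by decide +kernel
theorem p4748 : PrV chk L4748 := leafV c4748

theorem c4749 : lp7 (fun s => chk (uent L4749 s)) 0 = true := by decide +kernel
theorem p4749 : PrV chk L4749 := leafV c4749

theorem c4750 : lp7 (fun s => chk (uent L4750 s)) 0 = true := by decide +kernel
theorem p4750 : PrV chk L4750 := leafV c4750

theorem c4751 : lp7 (fun s => chk (uent L4751 s)) 0 = true := by decide +kernel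
theorem p4751 : PrV chk L4751 := leafV c4751

theorem c4752 : lp7 (fun s => chk (uent L4752 s)) 0 = true := by decide +kernel
theorem p4752 : PrV chk L4752 := leafV c4752

theorem c4753 : lp7 (fun s => chk (uent L4753 s)) 0 = true := by decide +kernel
theorem p4753 : PrV chk L4753 := leafV c4753

theorem c4754 : lp7 (fun s => chk (uent L4754 s)) 0 = true := by decide +kernel
theorem p4754 : PrV chk L4754 := leafV c4754

theorem c4755 : lp7 (fun s => chk (uent L4755 s)) 0 = true := by decide +kernel
theorem p4755 : PrV chk L4755 := leafV c4755

theorem c4756 : lp7 (fun s => chk (uent L4756 s)) 0 = true := by decide +kernel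
theorem p4756 : PrV chk L4756 := leafV c4756

theorem c4757 : lp7 (fun s => chk (uent L4757 s)) 0 = true := by decide +kernel
theorem p4757 : PrV chk L4757 := leafV c4757

theorem c4758 : lp7 (fun s => chk (uent L4758 s)) 0 = true := by decide +kernel
theorem p4758 : PrV chk L4758 := leafV c4758

theorem c4759 : lp7 (fun s => chk (uent L4759 s)) 0 = true := by decide +kernel
theorem p4759 : PrV chk L4759 := leafV c4759

theorem c4760 : lp7 (fun s => chk (uent L4760 s)) 0 = true := by decide +kernel
theorem p4760 : PrV chk L4760 := leafV c4760

theorem c4761 : lp7 (fun s => chk (uent L4761 s)) 0 = true := by decide +kernel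
theorem p4761 : PrV chk L4761 := leafV c4761

theorem c4762 : lp7 (fun s => chk (uent L4762 s)) 0 = true := by decide +kernel
theorem p4762 : PrV chk L4762 := leafV c4762

theorem c4763 : lp7 (fun s => chk (uent L4763 s)) 0 = true := by decide +kernel
theorem p4763 : PrV chk L4763 := leafV c4763

theorem c4764 : lp7 (fun s => chk (uent L4764 s)) 0 = true := by decide +kernel
theorem p4764 : PrV chk L4764 := leafV c4764

theorem c4765 : lp7 (fun s => chk (uent L4765 s)) 0 = true := by decide +kernel
theorem p4765 : PrV chk L4765 := leafV c4765

theorem c4766 : lp7 (fun s => chk (uent L4766 s)) 0 = true := by decide +kernel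
theorem p4766 : PrV chk L4766 := leafV c4766

theorem c4767 : lp7 (fun s => chk (uent L4767 s)) 0 = true := by decide +kernel
theorem p4767 : PrV chk L4767 := leafV c4767

theorem c4768 : lp7 (fun s => chk (uent L4768 s)) 0 = true := by decide +kernel
theorem p4768 : PrV chk L4768 := leafV c4768

theorem c4769 : lp7 (fun s => chk (uent L4769 s)) 0 = true := by decide +kernel
theorem p4769 : PrV chk L4769 := leafV c4769

theorem c4770 : lp7 (fun s => chk (uent L4770 s)) 0 = true := by decide +kernel
theorem p4770 : PrV chk L4770 := leafV c4770

theorem c4771 : lp7 (fun s => chk (uent L4771 s)) 0 = true := by decide +kernel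
theorem p4771 : PrV chk L4771 := leafV c4771

theorem c4772 : lp7 (fun s => chk (uent L4772 s)) 0 = true := by decide +kernel
theorem p4772 : PrV chk L4772 := leafV c4772

theorem c4773 : lp7 (fun s => chk (uent L4773 s)) 0 = true := by decide +kernel
theorem p4773 : PrV chk L4773 := leafV c4773

theorem c4774 : lp7 (fun s => chk (uent L4774 s)) 0 = true := by decide +kernel
theorem p4774 : PrV chk L4774 := leafV c4774

theorem c4775 : lp7 (fun s => chk (uent L4775 s)) 0 = true := by decide +kernel
theorem p4775 : PrV chk L4775 := leafV c4775

theorem c4776 : lp7 (fun s => chk (uent L4776 s)) 0 = true := by decide +kernel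
theorem p4776 : PrV chk L4776 := leafV c4776

theorem c4777 : lp7 (fun s => chk (uent L4777 s)) 0 = true := by decide +kernel
theorem p4777 : PrV chk L4777 := leafV c4777

theorem c4778 : lp7 (fun s => chk (uent L4778 s)) 0 = true := by decide +kernel
theorem p4778 : PrV chk L4778 := leafV c4778

theorem c4779 : lp7 (fun s => chk (uent L4779 s)) 0 = true := by decide +kernel
theorem p4779 : PrV chk L4779 := leafV c4779

theorem c4780 : lp7 (fun s => chk (uent L4780 s)) 0 = true := by decide +kernel
theorem p4780 : PrV chk L4780 := leafV c4780

theorem c4781 : lp7 (fun s => chk (uent L4781 s)) 0 = true := by decide +kernel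
theorem p4781 : PrV chk L4781 := leafV c4781

theorem c4782 : lp7 (fun s => chk (uent L4782 s)) 0 = true := by decide +kernel
theorem p4782 : PrV chk L4782 := leafV c4782

theorem c4783 : lp7 (fun s => chk (uent L4783 s)) 0 = true := by decide +kernel
theorem p4783 : PrV chk L4783 := leafV c4783

theorem c4784 : lp7 (fun s => chk (uent L4784 s)) 0 = true := by decide +kernel
theorem p4784 : PrV chk L4784 := leafV c4784

theorem c4785 : lp7 (fun s => chk (uent L4785 s)) 0 = true := by decide +kernel
theorem p4785 : PrV chk L4785 := leafV c4785

theorem c4786 : lp7 (fun s => chk (uent L4786 s)) 0 = true := by decide +kernel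
theorem p4786 : PrV chk L4786 := leafV c4786

theorem c4787 : lp7 (fun s => chk (uent L4787 s)) 0 = true := by decide +kernel
theorem p4787 : PrV chk L4787 := leafV c4787

theorem c4788 : lp7 (fun s => chk (uent L4788 s)) 0 = true := by decide +kernel
theorem p4788 : PrV chk L4788 := leafV c4788

theorem c4789 : lp7 (fun s => chk (uent L4789 s)) 0 = true := by decide +kernel
theorem p4789 : PrV chk L4789 := leafV c4789

theorem c4790 : lp7 (fun s => chk (uent L4790 s)) 0 = true := by decide +kernel
theorem p4790 : PrV chk L4790 := leafV c4790

theorem c4791 : lp7 (fun s => chk (uent L4791 s)) 0 = true := by decide +kernel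
theorem p4791 : PrV chk L4791 := leafV c4791

theorem c4792 : lp7 (fun s => chk (uent L4792 s)) 0 = true := by decide +kernel
theorem p4792 : PrV chk L4792 := leafV c4792

theorem c4793 : lp7 (fun s => chk (uent L4793 s)) 0 = true := by decide +kernel
theorem p4793 : PrV chk L4793 := leafV c4793

theorem c4794 : lp7 (fun s => chk (uent L4794 s)) 0 = true := by decide +kernel
theorem p4794 : PrV chk L4794 := leafV c4794

theorem c4795 : lp7 (fun s => chk (uent L4795 s)) 0 = true := by decide +kernel
theorem p4795 : PrV chk L4795 := leafV c4795

theorem c4796 : lp7 (fun s => chk (uent L4796 s)) 0 = true := by decide +kernel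
theorem p4796 : PrV chk L4796 := leafV c4796

theorem c4797 : lp7 (fun s => chk (uent L4797 s)) 0 = true := by decide +kernel
theorem p4797 : PrV chk L4797 := leafV c4797

theorem c4798 : lp7 (fun s => chk (uent L4798 s)) 0 = true := by decide +kernel
theorem p4798 : PrV chk L4798 := leafV c4798

theorem c4799 : lp7 (fun s => chk (uent L4799 s)) 0 = true := by decide +kernel
theorem p4799 : PrV chk L4799 := leafV c4799

end Pool.Agent.ad013a.W
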