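import Pool.Agent.H.MP_ad013a_pr.h63w.A.T
import Pool.Agent.H.MP_ad013a_pr.h63w.VLoop

namespace Pool.Agent.ad013a.W

theorem c4800 : lp7 (fun s => chk (uent L4800 s)) 0 = true := by decide +kernel
theorem p4800 : PrV chk L4800 := leafV c4800

theorem c4801 : lp7 (fun s => chk (uent L4801 s)) 0 = true := by decide +kernel
theorem p4801 : PrV chk L4801 := leafV c4801

theorem c4802 : lp7 (fun s => chk (uent L4802 s)) 0 = true := by decide +kernel
theorem p4802 : PrV chk L4802 := leafV c4802

theorem c4803 : lp7 (fun s => chk (uent L4803 s)) 0 = true := by decide +kernel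
theorem p4803 : PrV chk L4803 := leafV c4803

theorem c4804 : lp7 (fun s => chk (uent L4804 s)) 0 = true := by decide +kernel
theorem p4804 : PrV chk L4804 := leafV c4804

theorem c4805 : lp7 (fun s => chk (uent L4805 s)) 0 = true := by decide +kernel
theorem p4805 : PrV chk L4805 := leafV c4805

theorem c4806 : lp7 (fun s => chk (uent L4806 s)) 0 = true := by decide +kernel
theorem p4806 : PrV chk L4806 := leafV c4806

theorem c4807 : lp7 (fun s => chk (uent L4807 s)) 0 = true := by decide +kernel
theorem p4807 : PrV chk L4807 := leafV c4807

theorem c4808 : lp7 (fun s => chk (uent L4808 s)) 0 = true := by decide +kernel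
theorem p4808 : PrV chk L4808 := leafV c4808

theorem c4809 : lp7 (fun s => chk (uent L4809 s)) 0 = true := by decide +kernel
theorem p4809 : PrV chk L4809 := leafV c4809

theorem c4810 : lp7 (fun s => chk (uent L4810 s)) 0 = true := by decide +kernel
theorem p4810 : PrV chk L4810 := leafV c4810

theorem c4811 : lp7 (fun s => chk (uent L4811 s)) 0 = true := by decide +kernel
theorem p4811 : PrV chk L4811 := leafV c4811

theorem c4812 : lp7 (fun s => chk (uent L4812 s)) 0 = true := by decide +kernel
theorem p4812 : PrV chk L4812 := leafV c4812

theorem c4813 : lp7 (fun s => chk (uent L4813 s)) 0 = true := by decide +kernel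
theorem p4813 : PrV chk L4813 := leafV c4813

theorem c4814 : lp7 (fun s => chk (uent L4814 s)) 0 = true := by decide +kernel
theorem p4814 : PrV chk L4814 := leafV c4814

theorem c4815 : lp7 (fun s => chk (uent L4815 s)) 0 = true := by decide +kernel
theorem p4815 : PrV chk L4815 := leafV c4815

theorem c4816 : lp7 (fun s => chk (uent L4816 s)) 0 = true := by decide +kernel
theorem p4816 : PrV chk L4816 := leafV c4816

theorem c4817 : lp7 (fun s => chk (uent L4817 s)) 0 = true := by decide +kernel
theorem p4817 : PrV chk L4817 := leafV c4817

theorem c4818 : lp7 (fun s => chk (uent L4818 s)) 0 = true := by decide +kernel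
theorem p4818 : PrV chk L4818 := leafV c4818

theorem c4819 : lp7 (fun s => chk (uent L4819 s)) 0 = true := by decide +kernel
theorem p4819 : PrV chk L4819 := leafV c4819

theorem c4820 : lp7 (fun s => chk (uent L4820 s)) 0 = true := by decide +kernel
theorem p4820 : PrV chk L4820 := leafV c4820

theorem c4821 : lp7 (fun s => chk (uent L4821 s)) 0 = true := by decide +kernel
theorem p4821 : PrV chk L4821 := leafV c4821

theorem c4822 : lp7 (fun s => chk (uent L4822 s)) 0 = true := by decide +kernel
theorem p4822 : PrV chk L4822 := leafV c4822

theorem c4823 : lp7 (fun s => chk (uent L4823 s)) 0 = true := by decide +kernel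
theorem p4823 : PrV chk L4823 := leafV c4823

theorem c4824 : lp7 (fun s => chk (uent L4824 s)) 0 = true := by decide +kernel
theorem p4824 : PrV chk L4824 := leafV c4824

theorem c4825 : lp7 (fun s => chk (uent L4825 s)) 0 = true := by decide +kernel
theorem p4825 : PrV chk L4825 := leafV c4825

theorem c4826 : lp7 (fun s => chk (uent L4826 s)) 0 = true := by decide +kernel
theorem p4826 : PrV chk L4826 := leafV c4826

theorem c4827 : lp7 (fun s => chk (uent L4827 s)) 0 = true := by decide +kernel
theorem p4827 : PrV chk L4827 := leafV c4827

theorem c4828 : lp7 (fun s => chk (uent L4828 s)) 0 = true := by decide +kernel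
theorem p4828 : PrV chk L4828 := leafV c4828

theorem c4829 : lp7 (fun s => chk (uent L4829 s)) 0 = true := by decide +kernel
theorem p4829 : PrV chk L4829 := leafV c4829

theorem c4830 : lp7 (fun s => chk (uent L4830 s)) 0 = true := by decide +kernel
theorem p4830 : PrV chk L4830 := leafV c4830

theorem c4831 : lp7 (fun s => chk (uent L4831 s)) 0 = true := by decide +kernel
theorem p4831 : PrV chk L4831 := leafV c4831

theorem c4832 : lp7 (fun s => chk (uent L4832 s)) 0 = true := by decide +kernel
theorem p4832 : PrV chk L4832 := leafV c4832

theorem c4833 : lp7 (fun s => chk (uent L4833 s)) 0 = true := by decide +kernel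
theorem p4833 : PrV chk L4833 := leafV c4833

theorem c4834 : lp7 (fun s => chk (uent L4834 s)) 0 = true := by decide +kernel
theorem p4834 : PrV chk L4834 := leafV c4834

theorem c4835 : lp7 (fun s => chk (uent L4835 s)) 0 = true := by decide +kernel
theorem p4835 : PrV chk L4835 := leafV c4835

theorem c4836 : lp7 (fun s => chk (uent L4836 s)) 0 = true := by decide +kernel
theorem p4836 : PrV chk L4836 := leafV c4836

theorem c4837 : lp7 (fun s => chk (uent L4837 s)) 0 = true := by decide +kernel
theorem p4837 : PrV chk L4837 := leafV c4837

theorem c4838 : lp7 (fun s => chk (uent L4838 s)) 0 = true := by decide +kernel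
theorem p4838 : PrV chk L4838 := leafV c4838

theorem c4839 : lp7 (fun s => chk (uent L4839 s)) 0 = true := by decide +kernel
theorem p4839 : PrV chk L4839 := leafV c4839

theorem c4840 : lp7 (fun s => chk (uent L4840 s)) 0 = true := by decide +kernel
theorem p4840 : PrV chk L4840 := leafV c4840

theorem c4841 : lp7 (fun s => chk (uent L4841 s)) 0 = true := by decide +kernel
theorem p4841 : PrV chk L4841 := leafV c4841

theorem c4842 : lp7 (fun s => chk (uent L4842 s)) 0 = true := by decide +kernel
theorem p4842 : PrV chk L4842 := leafV c4842

theorem c4843 : lp7 (fun s => chk (uent L4843 s)) 0 = true := by decide +kernel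
theorem p4843 : PrV chk L4843 := leafV c4843

theorem c4844 : lp7 (fun s => chk (uent L4844 s)) 0 = true := by decide +kernel
theorem p4844 : PrV chk L4844 := leafV c4844

theorem c4845 : lp7 (fun s => chk (uent L4845 s)) 0 = true := by decide +kernel
theorem p4845 : PrV chk L4845 := leafV c4845

theorem c4846 : lp7 (fun s => chk (uent L4846 s)) 0 = true := by decide +kernel
theorem p4846 : PrV chk L4846 := leafV c4846

theorem c4847 : lp7 (fun s => chk (uent L4847 s)) 0 = true := by decide +kernel
theorem p4847 : PrV chk L4847 := leafV c4847

theorem c4848 : lp7 (fun s => chk (uent L4848 s)) 0 = true := by decide +kernel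
theorem p4848 : PrV chk L4848 := leafV c4848

theorem c4849 : lp7 (fun s => chk (uent L4849 s)) 0 = true := by decide +kernel
theorem p4849 : PrV chk L4849 := leafV c4849

theorem c4850 : lp7 (fun s => chk (uent L4850 s)) 0 = true := by decide +kernel
theorem p4850 : PrV chk L4850 := leafV c4850

theorem c4851 : lp7 (fun s => chk (uent L4851 s)) 0 = true := by decide +kernel
theorem p4851 : PrV chk L4851 := leafV c4851

theorem c4852 : lp7 (fun s => chk (uent L4852 s)) 0 = true := by decide +kernel
theorem p4852 : PrV chk L4852 := leafV c4852

theorem c4853 : lp7 (fun s => chk (uent L4853 s)) 0 = true := by decide +kernel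
theorem p4853 : PrV chk L4853 := leafV c4853

theorem c4854 : lp7 (fun s => chk (uent L4854 s)) 0 = true := by decide +kernel
theorem p4854 : PrV chk L4854 := leafV c4854

theorem c4855 : lp7 (fun s => chk (uent L4855 s)) 0 = true := by decide +kernel
theorem p4855 : PrV chk L4855 := leafV c4855

theorem c4856 : lp7 (fun s => chk (uent L4856 s)) 0 = true := by decide +kernel
theorem p4856 : PrV chk L4856 := leafV c4856

theorem c4857 : lp7 (fun s => chk (uent L4857 s)) 0 = true := by decide +kernel
theorem p4857 : PrV chk L4857 := leafV c4857

theorem c4858 : lp7 (fun s => chk (uent L4858 s)) 0 = true := by decide +kernel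
theorem p4858 : PrV chk L4858 := leafV c4858

theorem c4859 : lp7 (fun s => chk (uent L4859 s)) 0 = true := by decide +kernel
theorem p4859 : PrV chk L4859 := leafV c4859

theorem c4860 : lp7 (fun s => chk (uent L4860 s)) 0 = true := by decide +kernel
theorem p4860 : PrV chk L4860 := leafV c4860

theorem c4861 : lp7 (fun s => chk (uent L4861 s)) 0 = true := by decide +kernel
theorem p4861 : PrV chk L4861 := leafV c4861

theorem c4862 : lp7 (fun s => chk (uent L4862 s)) 0 = true := by decide +kernel
theorem p4862 : PrV chk L4862 := leafV c4862

theorem c4863 : lp7 (fun s => chk (uent L4863 s)) 0 = true := by decide +kernel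
theorem p4863 : PrV chk L4863 := leafV c4863

theorem c4864 : lp7 (fun s => chk (uent L4864 s)) 0 = true := by decide +kernel
theorem p4864 : PrV chk L4864 := leafV c4864

theorem c4865 : lp7 (fun s => chk (uent L4865 s)) 0 = true := by decide +kernel
theorem p4865 : PrV chk L4865 := leafV c4865

theorem c4866 : lp7 (fun s => chk (uent L4866 s)) 0 = true := by decide +kernel
theorem p4866 : PrV chk L4866 := leafV c4866

theorem c4867 : lp7 (fun s => chk (uent L4867 s)) 0 = true := by decide +kernel
theorem p4867 : PrV chk L4867 := leafV c4867

theorem c4868 : lp7 (fun s => chk (uent L4868 s)) 0 = true := by decide +kernel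
theorem p4868 : PrV chk L4868 := leafV c4868

theorem c4869 : lp7 (fun s => chk (uent L4869 s)) 0 = true := by decide +kernel
theorem p4869 : PrV chk L4869 := leafV c4869

theorem c4870 : lp7 (fun s => chk (uent L4870 s)) 0 = true := by decide +kernel
theorem p4870 : PrV chk L4870 := leafV c4870

theorem c4871 : lp7 (fun s => chk (uent L4871 s)) 0 = true := by decide +kernel
theorem p4871 : PrV chk L4871 := leafV c4871

theorem c4872 : lp7 (fun s => chk (uent L4872 s)) 0 = true := by decide +kernel
theorem p4872 : PrV chk L4872 := leafV c4872

theorem c4873 : lp7 (fun s => chk (uent L4873 s)) 0 = true := by decide +kernel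
theorem p4873 : PrV chk L4873 := leafV c4873

theorem c4874 : lp7 (fun s => chk (uent L4874 s)) 0 = true := by decide +kernel
theorem p4874 : PrV chk L4874 := leafV c4874

theorem c4875 : lp7 (fun s => chk (uent L4875 s)) 0 = true := by decide +kernel
theorem p4875 : PrV chk L4875 := leafV c4875

theorem c4876 : lp7 (fun s => chk (uent L4876 s)) 0 = true := by decide +kernel
theorem p4876 : PrV chk L4876 := leafV c4876

theorem c4877 : lp7 (fun s => chk (uent L4877 s)) 0 = true := by decide +kernel
theorem p4877 : PrV chk L4877 := leafV c4877

theorem c4878 : lp7 (fun s => chk (uent L4878 s)) 0 = true := by decide +kernel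
theorem p4878 : PrV chk L4878 := leafV c4878

theorem c4879 : lp7 (fun s => chk (uent L4879 s)) 0 = true := by decide +kernel
theorem p4879 : PrV chk L4879 := leafV c4879

theorem c4880 : lp7 (fun s => chk (uent L4880 s)) 0 = true := by decide +kernel
theorem p4880 : PrV chk L4880 := leafV c4880

theorem c4881 : lp7 (fun s => chk (uent L4881 s)) 0 = true := by decide +kernel
theorem p4881 : PrV chk L4881 := leafV c4881

theorem c4882 : lp7 (fun s => chk (uent L4882 s)) 0 = true := by decide +kernel
theorem p4882 : PrV chk L4882 := leafV c4882

theorem c4883 : lp7 (fun s => chk (uent L4883 s)) 0 = true := by decide +kernel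
theorem p4883 : PrV chk L4883 := leafV c4883

theorem c4884 : lp7 (fun s => chk (uent L4884 s)) 0 = true := by decide +kernel
theorem p4884 : PrV chk L4884 := leafV c4884

theorem c4885 : lp7 (fun s => chk (uent L4885 s)) 0 = true := by decide +kernel
theorem p4885 : PrV chk L4885 := leafV c4885

theorem c4886 : lp7 (fun s => chk (uent L4886 s)) 0 = true := by decide +kernel
theorem p4886 : PrV chk L4886 := leafV c4886

theorem c4887 : lp7 (fun s => chk (uent L4887 s)) 0 = true := by decide +kernel
theorem p4887 : PrV chk L4887 := leafV c4887

theorem c4888 : lp7 (fun s => chk (uent L4888 s)) 0 = true := by decide +kernel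
theorem p4888 : PrV chk L4888 := leafV c4888

theorem c4889 : lp7 (fun s => chk (uent L4889 s)) 0 = true := by decide +kernel
theorem p4889 : PrV chk L4889 := leafV c4889

theorem c4890 : lp7 (fun s => chk (uent L4890 s)) 0 = true := by decide +kernel
theorem p4890 : PrV chk L4890 := leafV c4890

theorem c4891 : lp7 (fun s => chk (uent L4891 s)) 0 = true := by decide +kernel
theorem p4891 : PrV chk L4891 := leafV c4891

theorem c4892 : lp7 (fun s => chk (uent L4892 s)) 0 = true := by decide +kernel
theorem p4892 : PrV chk L4892 := leafV c4892

theorem c4893 : lp7 (fun s => chk (uent L4893 s)) 0 = true := by decide +kernel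
theorem p4893 : PrV chk L4893 := leafV c4893

theorem c4894 : lp7 (fun s => chk (uent L4894 s)) 0 = true := by decide +kernel
theorem p4894 : PrV chk L4894 := leafV c4894

theorem c4895 : lp7 (fun s => chk (uent L4895 s)) 0 = true := by decide +kernel
theorem p4895 : PrV chk L4895 := leafV c4895

theorem c4896 : lp7 (fun s => chk (uent L4896 s)) 0 = true := by decide +kernel
theorem p4896 : PrV chk L4896 := leafV c4896

theorem c4897 : lp7 (fun s => chk (uent L4897 s)) 0 = true := by decide +kernel
theorem p4897 : PrV chk L4897 := leafV c4897

theorem c4898 : lp7 (fun s => chk (uent L4898 s)) 0 = true := by decide +kernel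
theorem p4898 : PrV chk L4898 := leafV c4898

theorem c4899 : lp7 (fun s => chk (uent L4899 s)) 0 = true := by decide +kernel
theorem p4899 : PrV chk L4899 := leafV c4899

theorem c4900 : lp7 (fun s => chk (uent L4900 s)) 0 = true := by decide +kernel
theorem p4900 : PrV chk L4900 := leafV c4900

theorem c4901 : lp7 (fun s => chk (uent L4901 s)) 0 = true := by decide +kernel
theorem p4901 : PrV chk L4901 := leafV c4901

theorem c4902 : lp7 (fun s => chk (uent L4902 s)) 0 = true := by decide +kernel
theorem p4902 : PrV chk L4902 := leafV c4902

theorem c4903 : lp7 (fun s => chk (uent L4903 s)) 0 = true := by decide +kernel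
theorem p4903 : PrV chk L4903 := leafV c4903

theorem c4904 : lp7 (fun s => chk (uent L4904 s)) 0 = true := by decide +kernel
theorem p4904 : PrV chk L4904 := leafV c4904

theorem c4905 : lp7 (fun s => chk (uent L4905 s)) 0 = true := by decide +kernel
theorem p4905 : PrV chk L4905 := leafV c4905

theorem c4906 : lp7 (fun s => chk (uent L4906 s)) 0 = true := by decide +kernel
theorem p4906 : PrV chk L4906 := leafV c4906

theorem c4907 : lp7 (fun s => chk (uent L4907 s)) 0 = true := by decide +kernel
theorem p4907 : PrV chk L4907 := leafV c4907

theorem c4908 : lp7 (fun s => chk (uent L4908 s)) 0 = true := by decide +kernel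
theorem p4908 : PrV chk L4908 := leafV c4908

theorem c4909 : lp7 (fun s => chk (uent L4909 s)) 0 = true := by decide +kernel
theorem p4909 : PrV chk L4909 := leafV c4909

theorem c4910 : lp7 (fun s => chk (uent L4910 s)) 0 = true := by decide +kernel
theorem p4910 : PrV chk L4910 := leafV c4910

theorem c4911 : lp7 (fun s => chk (uent L4911 s)) 0 = true := by decide +kernel
theorem p4911 : PrV chk L4911 := leafV c4911

theorem c4912 : lp7 (fun s => chk (uent L4912 s)) 0 = true := by decide +kernel
theorem p4912 : PrV chk L4912 := leafV c4912

theorem c4913 : lp7 (fun s => chk (uent L4913 s)) 0 = true := by decide +kernel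
theorem p4913 : PrV chk L4913 := leafV c4913

theorem c4914 : lp7 (fun s => chk (uent L4914 s)) 0 = true := by decide +kernel
theorem p4914 : PrV chk L4914 := leafV c4914

theorem c4915 : lp7 (fun s => chk (uent L4915 s)) 0 = true := by decide +kernel
theorem p4915 : PrV chk L4915 := leafV c4915

theorem c4916 : lp7 (fun s => chk (uent L4916 s)) 0 = true := by decide +kernel
theorem p4916 : PrV chk L4916 := leafV c4916

theorem c4917 : lp7 (fun s => chk (uent L4917 s)) 0 = true := by decide +kernel
theorem p4917 : PrV chk L4917 := leafV c4917

theorem c4918 : lp7 (fun s => chk (uent L4918 s)) 0 = true := by decide +kernel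
theorem p4918 : PrV chk L4918 := leafV c4918

theorem c4919 : lp7 (fun s => chk (uent L4919 s)) 0 = true := by decide +kernel
theorem p4919 : PrV chk L4919 := leafV c4919

theorem c4920 : lp7 (fun s => chk (uent L4920 s)) 0 = true := by decide +kernel
theorem p4920 : PrV chk L4920 := leafV c4920

theorem c4921 : lp7 (fun s => chk (uent L4921 s)) 0 = true := by decide +kernel
theorem p4921 : PrV chk L4921 := leafV c4921

theorem c4922 : lp7 (fun s => chk (uent L4922 s)) 0 = true := by decide +kernel
theorem p4922 : PrV chk L4922 := leafV c4922

theorem c4923 : lp7 (fun s => chk (uent L4923 s)) 0 = true := by decide +kernel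
theorem p4923 : PrV chk L4923 := leafV c4923

theorem c4924 : lp7 (fun s => chk (uent L4924 s)) 0 = true := by decide +kernel
theorem p4924 : PrV chk L4924 := leafV c4924

theorem c4925 : lp7 (fun s => chk (uent L4925 s)) 0 = true := by decide +kernel
theorem p4925 : PrV chk L4925 := leafV c4925

theorem c4926 : lp7 (fun s => chk (uent L4926 s)) 0 = true := by decide +kernel
theorem p4926 : PrV chk L4926 := leafV c4926

theorem c4927 : lp7 (fun s => chk (uent L4927 s)) 0 = true := by decide +kernel
theorem p4927 : PrV chk L4927 := leafV c4927

theorem c4928 : lp7 (fun s => chk (uent L4928 s)) 0 = true := by decide +kernel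
theorem p4928 : PrV chk L4928 := leafV c4928

theorem c4929 : lp7 (fun s => chk (uent L4929 s)) 0 = true := by decide +kernel
theorem p4929 : PrV chk L4929 := leafV c4929

theorem c4930 : lp7 (fun s => chk (uent L4930 s)) 0 = true := by decide +kernel
theorem p4930 : PrV chk L4930 := leafV c4930

theorem c4931 : lp7 (fun s => chk (uent L4931 s)) 0 = true := by decide +kernel
theorem p4931 : PrV chk L4931 := leafV c4931

theorem c4932 : lp7 (fun s => chk (uent L4932 s)) 0 = true := by decide +kernel
theorem p4932 : PrV chk L4932 := leafV c4932

theorem c4933 : lp7 (fun s => chk (uent L4933 s)) 0 = true := by decide +kernel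
theorem p4933 : PrV chk L4933 := leafV c4933

theorem c4934 : lp7 (fun s => chk (uent L4934 s)) 0 = true := by decide +kernel
theorem p4934 : PrV chk L4934 := leafV c4934

theorem c4935 : lp7 (fun s => chk (uent L4935 s)) 0 = true := by decide +kernel
theorem p4935 : PrV chk L4935 := leafV c4935

theorem c4936 : lp7 (fun s => chk (uent L4936 s)) 0 = true := by decide +kernel
theorem p4936 : PrV chk L4936 := leafV c4936

theorem c4937 : lp7 (fun s => chk (uent L4937 s)) 0 = true := by decide +kernel
theorem p4937 : PrV chk L4937 := leafV c4937

theorem c4938 : lp7 (fun s => chk (uent L4938 s)) 0 = true := by decide +kernel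
theorem p4938 : PrV chk L4938 := leafV c4938

theorem c4939 : lp7 (fun s => chk (uent L4939 s)) 0 = true := by decide +kernel
theorem p4939 : PrV chk L4939 := leafV c4939

theorem c4940 : lp7 (fun s => chk (uent L4940 s)) 0 = true := by decide +kernel
theorem p4940 : PrV chk L4940 := leafV c4940

theorem c4941 : lp7 (fun s => chk (uent L4941 s)) 0 = true := by decide +kernel
theorem p4941 : PrV chk L4941 := leafV c4941

theorem c4942 : lp7 (fun s => chk (uent L4942 s)) 0 = true := by decide +kernel
theorem p4942 : PrV chk L4942 := leafV c4942

theorem c4943 : lp7 (fun s => chk (uent L4943 s)) 0 = true := by decide +kernel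
theorem p4943 : PrV chk L4943 := leafV c4943

theorem c4944 : lp7 (fun s => chk (uent L4944 s)) 0 = true := by decide +kernel
theorem p4944 : PrV chk L4944 := leafV c4944

theorem c4945 : lp7 (fun s => chk (uent L4945 s)) 0 = true := by decide +kernel
theorem p4945 : PrV chk L4945 := leafV c4945

theorem c4946 : lp7 (fun s => chk (uent L4946 s)) 0 = true := by decide +kernel
theorem p4946 : PrV chk L4946 := leafV c4946

theorem c4947 : lp7 (fun s => chk (uent L4947 s)) 0 = true := by decide +kernel
theorem p4947 : PrV chk L4947 := leafV c4947

theorem c4948 : lp7 (fun s => chk (uent L4948 s)) 0 = true := by decide +kernel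
theorem p4948 : PrV chk L4948 := leafV c4948

theorem c4949 : lp7 (fun s => chk (uent L4949 s)) 0 = true := by decide +kernel
theorem p4949 : PrV chk L4949 := leafV c4949

theorem c4950 : lp7 (fun s => chk (uent L4950 s)) 0 = true := by decide +kernel
theorem p4950 : PrV chk L4950 := leafV c4950

theorem c4951 : lp7 (fun s => chk (uent L4951 s)) 0 = true := by decide +kernel
theorem p4951 : PrV chk L4951 := leafV c4951

theorem c4952 : lp7 (fun s => chk (uent L4952 s)) 0 = true := by decide +kernel
theorem p4952 : PrV chk L4952 := leafV c4952

theorem c4953 : lp7 (fun s => chk (uent L4953 s)) 0 = true := by decide +kernel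
theorem p4953 : PrV chk L4953 := leafV c4953

theorem c4954 : lp7 (fun s => chk (uent L4954 s)) 0 = true := by decide +kernel
theorem p4954 : PrV chk L4954 := leafV c4954

theorem c4955 : lp7 (fun s => chk (uent L4955 s)) 0 = true := by decide +kernel
theorem p4955 : PrV chk L4955 := leafV c4955

theorem c4956 : lp7 (fun s => chk (uent L4956 s)) 0 = true := by decide +kernel
theorem p4956 : PrV chk L4956 := leafV c4956

theorem c4957 : lp7 (fun s => chk (uent L4957 s)) 0 = true := by decide +kernel
theorem p4957 : PrV chk L4957 := leafV c4957

theorem c4958 : lp7 (fun s => chk (uent L4958 s)) 0 = true := by decide +kernel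
theorem p4958 : PrV chk L4958 := leafV c4958

theorem c4959 : lp7 (fun s => chk (uent L4959 s)) 0 = true := by decide +kernel
theorem p4959 : PrV chk L4959 := leafV c4959

theorem c4960 : lp7 (fun s => chk (uent L4960 s)) 0 = true := by decide +kernel
theorem p4960 : PrV chk L4960 := leafV c4960

theorem c4961 : lp7 (fun s => chk (uent L4961 s)) 0 = true := by decide +kernel
theorem p4961 : PrV chk L4961 := leafV c4961

theorem c4962 : lp7 (fun s => chk (uent L4962 s)) 0 = true := by decide +kernel
theorem p4962 : PrV chk L4962 := leafV c4962

theorem c4963 : lp7 (fun s => chk (uent L4963 s)) 0 = true := by decide +kernel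
theorem p4963 : PrV chk L4963 := leafV c4963

theorem c4964 : lp7 (fun s => chk (uent L4964 s)) 0 = true := by decide +kernel
theorem p4964 : PrV chk L4964 := leafV c4964

theorem c4965 : lp7 (fun s => chk (uent L4965 s)) 0 = true := by decide +kernel
theorem p4965 : PrV chk L4965 := leafV c4965

theorem c4966 : lp7 (fun s => chk (uent L4966 s)) 0 = true := by decide +kernel
theorem p4966 : PrV chk L4966 := leafV c4966

theorem c4967 : lp7 (fun s => chk (uent L4967 s)) 0 = true := by decide +kernel
theorem p4967 : PrV chk L4967 := leafV c4967

theorem c4968 : lp7 (fun s => chk (uent L4968 s)) 0 = true := by decide +kernel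
theorem p4968 : PrV chk L4968 := leafV c4968

theorem c4969 : lp7 (fun s => chk (uent L4969 s)) 0 = true := by decide +kernel
theorem p4969 : PrV chk L4969 := leafV c4969

theorem c4970 : lp7 (fun s => chk (uent L4970 s)) 0 = true := by decide +kernel
theorem p4970 : PrV chk L4970 := leafV c4970

theorem c4971 : lp7 (fun s => chk (uent L4971 s)) 0 = true := by decide +kernel
theorem p4971 : PrV chk L4971 := leafV c4971

theorem c4972 : lp7 (fun s => chk (uent L4972 s)) 0 = true := by decide +kernel
theorem p4972 : PrV chk L4972 := leafV c4972

theorem c4973 : lp7 (fun s => chk (uent L4973 s)) 0 = true := by decide +kernel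
theorem p4973 : PrV chk L4973 := leafV c4973

theorem c4974 : lp7 (fun s => chk (uent L4974 s)) 0 = true := by decide +kernel
theorem p4974 : PrV chk L4974 := leafV c4974

theorem c4975 : lp7 (fun s => chk (uent L4975 s)) 0 = true := by decide +kernel
theorem p4975 : PrV chk L4975 := leafV c4975

theorem c4976 : lp7 (fun s => chk (uent L4976 s)) 0 = true := by decide +kernel
theorem p4976 : PrV chk L4976 := leafV c4976

theorem c4977 : lp7 (fun s => chk (uent L4977 s)) 0 = true := by decide +kernel
theorem p4977 : PrV chk L4977 := leafV c4977

theorem c4978 : lp7 (fun s => chk (uent L4978 s)) 0 = true := by decide +kernel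
theorem p4978 : PrV chk L4978 := leafV c4978

theorem c4979 : lp7 (fun s => chk (uent L4979 s)) 0 = true := by decide +kernel
theorem p4979 : PrV chk L4979 := leafV c4979

theorem c4980 : lp7 (fun s => chk (uent L4980 s)) 0 = true := by decide +kernel
theorem p4980 : PrV chk L4980 := leafV c4980

theorem c4981 : lp7 (fun s => chk (uent L4981 s)) 0 = true := by decide +kernel
theorem p4981 : PrV chk L4981 := leafV c4981

theorem c4982 : lp7 (fun s => chk (uent L4982 s)) 0 = true := by decide +kernel
theorem p4982 : PrV chk L4982 := leafV c4982

theorem c4983 : lp7 (fun s => chk (uent L4983 s)) 0 = true := by decide +kernel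
theorem p4983 : PrV chk L4983 := leafV c4983

theorem c4984 : lp7 (fun s => chk (uent L4984 s)) 0 = true := by decide +kernel
theorem p4984 : PrV chk L4984 := leafV c4984

theorem c4985 : lp7 (fun s => chk (uent L4985 s)) 0 = true := by decide +kernel
theorem p4985 : PrV chk L4985 := leafV c4985

theorem c4986 : lp7 (fun s => chk (uent L4986 s)) 0 = true := by decide +kernel
theorem p4986 : PrV chk L4986 := leafV c4986

theorem c4987 : lp7 (fun s => chk (uent L4987 s)) 0 = true := by decide +kernel
theorem p4987 : PrV chk L4987 := leafV c4987

theorem c4988 : lp7 (fun s => chk (uent L4988 s)) 0 = true := by decide +kernel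
theorem p4988 : PrV chk L4988 := leafV c4988

theorem c4989 : lp7 (fun s => chk (uent L4989 s)) 0 = true := by decide +kernel
theorem p4989 : PrV chk L4989 := leafV c4989

theorem c4990 : lp7 (fun s => chk (uent L4990 s)) 0 = true := by decide +kernel
theorem p4990 : PrV chk L4990 := leafV c4990

theorem c4991 : lp7 (fun s => chk (uent L4991 s)) 0 = true := by decide +kernel
theorem p4991 : PrV chk L4991 := leafV c4991

end Pool.Agent.ad013a.W
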