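import Pool.Agent.H.MP_ad013a_pr.h63w.A.T
import Pool.Agent.H.MP_ad013a_pr.h63w.VLoop

namespace Pool.Agent.ad013a.W

theorem c4992 : lp7 (fun s => chk (uent L4992 s)) 0 = true := by decide +kernel
theorem p4992 : PrV chk L4992 := leafV c4992

theorem c4993 : lp7 (fun s => chk (uent L4993 s)) 0 = true := by decide +kernel
theorem p4993 : PrV chk L4993 := leafV c4993

theorem c4994 : lp7 (fun s => chk (uent L4994 s)) 0 = true := by decide +kernel
theorem p4994 : PrV chk L4994 := leafV c4994

theorem c4995 : lp7 (fun s => chk (uent L4995 s)) 0 = true := by decide +kernel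
theorem p4995 : PrV chk L4995 := leafV c4995

theorem c4996 : lp7 (fun s => chk (uent L4996 s)) 0 = true := by decide +kernel
theorem p4996 : PrV chk L4996 := leafV c4996

theorem c4997 : lp7 (fun s => chk (uent L4997 s)) 0 = true := by decide +kernel
theorem p4997 : PrV chk L4997 := leafV c4997

theorem c4998 : lp7 (fun s => chk (uent L4998 s)) 0 = true := by decide +kernel
theorem p4998 : PrV chk L4998 := leafV c4998

theorem c4999 : lp7 (fun s => chk (uent L4999 s)) 0 = true := by decide +kernel
theorem p4999 : PrV chk L4999 := leafV c4999

theorem c5000 : lp7 (fun s => chk (uent L5000 s)) 0 = true := by decide +kernel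
theorem p5000 : PrV chk L5000 := leafV c5000

theorem c5001 : lp7 (fun s => chk (uent L5001 s)) 0 = true := by decide +kernel
theorem p5001 : PrV chk L5001 := leafV c5001

theorem c5002 : lp7 (fun s => chk (uent L5002 s)) 0 = true := by decide +kernel
theorem p5002 : PrV chk L5002 := leafV c5002

theorem c5003 : lp7 (fun s => chk (uent L5003 s)) 0 = true := by decide +kernel
theorem p5003 : PrV chk L5003 := leafV c5003

theorem c5004 : lp7 (fun s => chk (uent L5004 s)) 0 = true := by decide +kernel
theorem p5004 : PrV chk L5004 := leafV c5004

theorem c5005 : lp7 (fun s => chk (uent L5005 s)) 0 = true := by decide +kernel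
theorem p5005 : PrV chk L5005 := leafV c5005

theorem c5006 : lp7 (fun s => chk (uent L5006 s)) 0 = true := by decide +kernel
theorem p5006 : PrV chk L5006 := leafV c5006

theorem c5007 : lp7 (fun s => chk (uent L5007 s)) 0 = true := by decide +kernel
theorem p5007 : PrV chk L5007 := leafV c5007

theorem c5008 : lp7 (fun s => chk (uent L5008 s)) 0 = true := by decide +kernel
theorem p5008 : PrV chk L5008 := leafV c5008

theorem c5009 : lp7 (fun s => chk (uent L5009 s)) 0 = true := by decide +kernel
theorem p5009 : PrV chk L5009 := leafV c5009

theorem c5010 : lp7 (fun s => chk (uent L5010 s)) 0 = true := by decide +kernel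
theorem p5010 : PrV chk L5010 := leafV c5010

theorem c5011 : lp7 (fun s => chk (uent L5011 s)) 0 = true := by decide +kernel
theorem p5011 : PrV chk L5011 := leafV c5011

theorem c5012 : lp7 (fun s => chk (uent L5012 s)) 0 = true := by decide +kernel
theorem p5012 : PrV chk L5012 := leafV c5012

theorem c5013 : lp7 (fun s => chk (uent L5013 s)) 0 = true := by decide +kernel
theorem p5013 : PrV chk L5013 := leafV c5013

theorem c5014 : lp7 (fun s => chk (uent L5014 s)) 0 = true := by decide +kernel
theorem p5014 : PrV chk L5014 := leafV c5014

theorem c5015 : lp7 (fun s => chk (uent L5015 s)) 0 = true := by decide +kernel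
theorem p5015 : PrV chk L5015 := leafV c5015

theorem c5016 : lp7 (fun s => chk (uent L5016 s)) 0 = true := by decide +kernel
theorem p5016 : PrV chk L5016 := leafV c5016

theorem c5017 : lp7 (fun s => chk (uent L5017 s)) 0 = true := by decide +kernel
theorem p5017 : PrV chk L5017 := leafV c5017

theorem c5018 : lp7 (fun s => chk (uent L5018 s)) 0 = true := by decide +kernel
theorem p5018 : PrV chk L5018 := leafV c5018

theorem c5019 : lp7 (fun s => chk (uent L5019 s)) 0 = true := by decide +kernel
theorem p5019 : PrV chk L5019 := leafV c5019

theorem c5020 : lp7 (fun s => chk (uent L5020 s)) 0 = true := by decide +kernel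
theorem p5020 : PrV chk L5020 := leafV c5020

theorem c5021 : lp7 (fun s => chk (uent L5021 s)) 0 = true := by decide +kernel
theorem p5021 : PrV chk L5021 := leafV c5021

theorem c5022 : lp7 (fun s => chk (uent L5022 s)) 0 = true := by decide +kernel
theorem p5022 : PrV chk L5022 := leafV c5022

theorem c5023 : lp7 (fun s => chk (uent L5023 s)) 0 = true := by decide +kernel
theorem p5023 : PrV chk L5023 := leafV c5023

theorem c5024 : lp7 (fun s => chk (uent L5024 s)) 0 = true := by decide +kernel
theorem p5024 : PrV chk L5024 := leafV c5024

theorem c5025 : lp7 (fun s => chk (uent L5025 s)) 0 = true := by decide +kernel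
theorem p5025 : PrV chk L5025 := leafV c5025

theorem c5026 : lp7 (fun s => chk (uent L5026 s)) 0 = true := by decide +kernel
theorem p5026 : PrV chk L5026 := leafV c5026

theorem c5027 : lp7 (fun s => chk (uent L5027 s)) 0 = true := by decide +kernel
theorem p5027 : PrV chk L5027 := leafV c5027

theorem c5028 : lp7 (fun s => chk (uent L5028 s)) 0 = true := by decide +kernel
theorem p5028 : PrV chk L5028 := leafV c5028

theorem c5029 : lp7 (fun s => chk (uent L5029 s)) 0 = true := by decide +kernel
theorem p5029 : PrV chk L5029 := leafV c5029

theorem c5030 : lp7 (fun s => chk (uent L5030 s)) 0 = true := by decide +kernel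
theorem p5030 : PrV chk L5030 := leafV c5030

theorem c5031 : lp7 (fun s => chk (uent L5031 s)) 0 = true := by decide +kernel
theorem p5031 : PrV chk L5031 := leafV c5031

theorem c5032 : lp7 (fun s => chk (uent L5032 s)) 0 = true := by decide +kernel
theorem p5032 : PrV chk L5032 := leafV c5032

theorem c5033 : lp7 (fun s => chk (uent L5033 s)) 0 = true := by decide +kernel
theorem p5033 : PrV chk L5033 := leafV c5033

theorem c5034 : lp7 (fun s => chk (uent L5034 s)) 0 = true := by decide +kernel
theorem p5034 : PrV chk L5034 := leafV c5034

theorem c5035 : lp7 (fun s => chk (uent L5035 s)) 0 = true := by decide +kernel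
theorem p5035 : PrV chk L5035 := leafV c5035

theorem c5036 : lp7 (fun s => chk (uent L5036 s)) 0 = true := by decide +kernel
theorem p5036 : PrV chk L5036 := leafV c5036

theorem c5037 : lp7 (fun s => chk (uent L5037 s)) 0 = true := by decide +kernel
theorem p5037 : PrV chk L5037 := leafV c5037

theorem c5038 : lp7 (fun s => chk (uent L5038 s)) 0 = true := by decide +kernel
theorem p5038 : PrV chk L5038 := leafV c5038

theorem c5039 : lp7 (fun s => chk (uent L5039 s)) 0 = true := by decide +kernel
theorem p5039 : PrV chk L5039 := leafV c5039

theorem c5040 : lp7 (fun s => chk (uent L5040 s)) 0 = true := by decide +kernel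
theorem p5040 : PrV chk L5040 := leafV c5040

theorem c5041 : lp7 (fun s => chk (uent L5041 s)) 0 = true := by decide +kernel
theorem p5041 : PrV chk L5041 := leafV c5041

theorem c5042 : lp7 (fun s => chk (uent L5042 s)) 0 = true := by decide +kernel
theorem p5042 : PrV chk L5042 := leafV c5042

theorem c5043 : lp7 (fun s => chk (uent L5043 s)) 0 = true := by decide +kernel
theorem p5043 : PrV chk L5043 := leafV c5043

theorem c5044 : lp7 (fun s => chk (uent L5044 s)) 0 = true := by decide +kernel
theorem p5044 : PrV chk L5044 := leafV c5044

theorem c5045 : lp7 (fun s => chk (uent L5045 s)) 0 = true := by decide +kernel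
theorem p5045 : PrV chk L5045 := leafV c5045

theorem c5046 : lp7 (fun s => chk (uent L5046 s)) 0 = true := by decide +kernel
theorem p5046 : PrV chk L5046 := leafV c5046

theorem c5047 : lp7 (fun s => chk (uent L5047 s)) 0 = true := by decide +kernel
theorem p5047 : PrV chk L5047 := leafV c5047

theorem c5048 : lp7 (fun s => chk (uent L5048 s)) 0 = true := by decide +kernel
theorem p5048 : PrV chk L5048 := leafV c5048

theorem c5049 : lp7 (fun s => chk (uent L5049 s)) 0 = true := by decide +kernel
theorem p5049 : PrV chk L5049 := leafV c5049

theorem c5050 : lp7 (fun s => chk (uent L5050 s)) 0 = true := by decide +kernel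
theorem p5050 : PrV chk L5050 := leafV c5050

theorem c5051 : lp7 (fun s => chk (uent L5051 s)) 0 = true := by decide +kernel
theorem p5051 : PrV chk L5051 := leafV c5051

theorem c5052 : lp7 (fun s => chk (uent L5052 s)) 0 = true := by decide +kernel
theorem p5052 : PrV chk L5052 := leafV c5052

theorem c5053 : lp7 (fun s => chk (uent L5053 s)) 0 = true := by decide +kernel
theorem p5053 : PrV chk L5053 := leafV c5053

theorem c5054 : lp7 (fun s => chk (uent L5054 s)) 0 = true := by decide +kernel
theorem p5054 : PrV chk L5054 := leafV c5054

theorem c5055 : lp7 (fun s => chk (uent L5055 s)) 0 = true := by decide +kernel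
theorem p5055 : PrV chk L5055 := leafV c5055

theorem c5056 : lp7 (fun s => chk (uent L5056 s)) 0 = true := by decide +kernel
theorem p5056 : PrV chk L5056 := leafV c5056

theorem c5057 : lp7 (fun s => chk (uent L5057 s)) 0 = true := by decide +kernel
theorem p5057 : PrV chk L5057 := leafV c5057

theorem c5058 : lp7 (fun s => chk (uent L5058 s)) 0 = true := by decide +kernel
theorem p5058 : PrV chk L5058 := leafV c5058

theorem c5059 : lp7 (fun s => chk (uent L5059 s)) 0 = true := by decide +kernel
theorem p5059 : PrV chk L5059 := leafV c5059

theorem c5060 : lp7 (fun s => chk (uent L5060 s)) 0 = true := by decide +kernel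
theorem p5060 : PrV chk L5060 := leafV c5060

theorem c5061 : lp7 (fun s => chk (uent L5061 s)) 0 = true := by decide +kernel
theorem p5061 : PrV chk L5061 := leafV c5061

theorem c5062 : lp7 (fun s => chk (uent L5062 s)) 0 = true := by decide +kernel
theorem p5062 : PrV chk L5062 := leafV c5062

theorem c5063 : lp7 (fun s => chk (uent L5063 s)) 0 = true := by decide +kernel
theorem p5063 : PrV chk L5063 := leafV c5063

theorem c5064 : lp7 (fun s => chk (uent L5064 s)) 0 = true := by decide +kernel
theorem p5064 : PrV chk L5064 := leafV c5064

theorem c5065 : lp7 (fun s => chk (uent L5065 s)) 0 = true := by decide +kernel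
theorem p5065 : PrV chk L5065 := leafV c5065

theorem c5066 : lp7 (fun s => chk (uent L5066 s)) 0 = true := by decide +kernel
theorem p5066 : PrV chk L5066 := leafV c5066

theorem c5067 : lp7 (fun s => chk (uent L5067 s)) 0 = true := by decide +kernel
theorem p5067 : PrV chk L5067 := leafV c5067

theorem c5068 : lp7 (fun s => chk (uent L5068 s)) 0 = true := by decide +kernel
theorem p5068 : PrV chk L5068 := leafV c5068

theorem c5069 : lp7 (fun s => chk (uent L5069 s)) 0 = true := by decide +kernel
theorem p5069 : PrV chk L5069 := leafV c5069

theorem c5070 : lp7 (fun s => chk (uent L5070 s)) 0 = true := by decide +kernel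
theorem p5070 : PrV chk L5070 := leafV c5070

theorem c5071 : lp7 (fun s => chk (uent L5071 s)) 0 = true := by decide +kernel
theorem p5071 : PrV chk L5071 := leafV c5071

theorem c5072 : lp7 (fun s => chk (uent L5072 s)) 0 = true := by decide +kernel
theorem p5072 : PrV chk L5072 := leafV c5072

theorem c5073 : lp7 (fun s => chk (uent L5073 s)) 0 = true := by decide +kernel
theorem p5073 : PrV chk L5073 := leafV c5073

theorem c5074 : lp7 (fun s => chk (uent L5074 s)) 0 = true := by decide +kernel
theorem p5074 : PrV chk L5074 := leafV c5074

theorem c5075 : lp7 (fun s => chk (uent L5075 s)) 0 = true := by decide +kernel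
theorem p5075 : PrV chk L5075 := leafV c5075

theorem c5076 : lp7 (fun s => chk (uent L5076 s)) 0 = true := by decide +kernel
theorem p5076 : PrV chk L5076 := leafV c5076

theorem c5077 : lp7 (fun s => chk (uent L5077 s)) 0 = true := by decide +kernel
theorem p5077 : PrV chk L5077 := leafV c5077

theorem c5078 : lp7 (fun s => chk (uent L5078 s)) 0 = true := by decide +kernel
theorem p5078 : PrV chk L5078 := leafV c5078

theorem c5079 : lp7 (fun s => chk (uent L5079 s)) 0 = true := by decide +kernel
theorem p5079 : PrV chk L5079 := leafV c5079

theorem c5080 : lp7 (fun s => chk (uent L5080 s)) 0 = true := by decide +kernel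
theorem p5080 : PrV chk L5080 := leafV c5080

theorem c5081 : lp7 (fun s => chk (uent L5081 s)) 0 = true := by decide +kernel
theorem p5081 : PrV chk L5081 := leafV c5081

theorem c5082 : lp7 (fun s => chk (uent L5082 s)) 0 = true := by decide +kernel
theorem p5082 : PrV chk L5082 := leafV c5082

theorem c5083 : lp7 (fun s => chk (uent L5083 s)) 0 = true := by decide +kernel
theorem p5083 : PrV chk L5083 := leafV c5083

theorem c5084 : lp7 (fun s => chk (uent L5084 s)) 0 = true := by decide +kernel
theorem p5084 : PrV chk L5084 := leafV c5084

theorem c5085 : lp7 (fun s => chk (uent L5085 s)) 0 = true := by decide +kernel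
theorem p5085 : PrV chk L5085 := leafV c5085

theorem c5086 : lp7 (fun s => chk (uent L5086 s)) 0 = true := by decide +kernel
theorem p5086 : PrV chk L5086 := leafV c5086

theorem c5087 : lp7 (fun s => chk (uent L5087 s)) 0 = true := by decide +kernel
theorem p5087 : PrV chk L5087 := leafV c5087

theorem c5088 : lp7 (fun s => chk (uent L5088 s)) 0 = true := by decide +kernel
theorem p5088 : PrV chk L5088 := leafV c5088

theorem c5089 : lp7 (fun s => chk (uent L5089 s)) 0 = true := by decide +kernel
theorem p5089 : PrV chk L5089 := leafV c5089

theorem c5090 : lp7 (fun s => chk (uent L5090 s)) 0 = true := by decide +kernel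
theorem p5090 : PrV chk L5090 := leafV c5090

theorem c5091 : lp7 (fun s => chk (uent L5091 s)) 0 = true := by decide +kernel
theorem p5091 : PrV chk L5091 := leafV c5091

theorem c5092 : lp7 (fun s => chk (uent L5092 s)) 0 = true := by decide +kernel
theorem p5092 : PrV chk L5092 := leafV c5092

theorem c5093 : lp7 (fun s => chk (uent L5093 s)) 0 = true := by decide +kernel
theorem p5093 : PrV chk L5093 := leafV c5093

theorem c5094 : lp7 (fun s => chk (uent L5094 s)) 0 = true := by decide +kernel
theorem p5094 : PrV chk L5094 := leafV c5094

theorem c5095 : lp7 (fun s => chk (uent L5095 s)) 0 = true := by decide +kernel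
theorem p5095 : PrV chk L5095 := leafV c5095

theorem c5096 : lp7 (fun s => chk (uent L5096 s)) 0 = true := by decide +kernel
theorem p5096 : PrV chk L5096 := leafV c5096

theorem c5097 : lp7 (fun s => chk (uent L5097 s)) 0 = true := by decide +kernel
theorem p5097 : PrV chk L5097 := leafV c5097

theorem c5098 : lp7 (fun s => chk (uent L5098 s)) 0 = true := by decide +kernel
theorem p5098 : PrV chk L5098 := leafV c5098

theorem c5099 : lp7 (fun s => chk (uent L5099 s)) 0 = true := by decide +kernel
theorem p5099 : PrV chk L5099 := leafV c5099

theorem c5100 : lp7 (fun s => chk (uent L5100 s)) 0 = true := by decide +kernel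
theorem p5100 : PrV chk L5100 := leafV c5100

theorem c5101 : lp7 (fun s => chk (uent L5101 s)) 0 = true := by decide +kernel
theorem p5101 : PrV chk L5101 := leafV c5101

theorem c5102 : lp7 (fun s => chk (uent L5102 s)) 0 = true := by decide +kernel
theorem p5102 : PrV chk L5102 := leafV c5102

theorem c5103 : lp7 (fun s => chk (uent L5103 s)) 0 = true := by decide +kernel
theorem p5103 : PrV chk L5103 := leafV c5103

theorem c5104 : lp7 (fun s => chk (uent L5104 s)) 0 = true := by decide +kernel
theorem p5104 : PrV chk L5104 := leafV c5104

theorem c5105 : lp7 (fun s => chk (uent L5105 s)) 0 = true := by decide +kernel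
theorem p5105 : PrV chk L5105 := leafV c5105

theorem c5106 : lp7 (fun s => chk (uent L5106 s)) 0 = true := by decide +kernel
theorem p5106 : PrV chk L5106 := leafV c5106

theorem c5107 : lp7 (fun s => chk (uent L5107 s)) 0 = true := by decide +kernel
theorem p5107 : PrV chk L5107 := leafV c5107

theorem c5108 : lp7 (fun s => chk (uent L5108 s)) 0 = true := by decide +kernel
theorem p5108 : PrV chk L5108 := leafV c5108

theorem c5109 : lp7 (fun s => chk (uent L5109 s)) 0 = true := by decide +kernel
theorem p5109 : PrV chk L5109 := leafV c5109

theorem c5110 : lp7 (fun s => chk (uent L5110 s)) 0 = true := by decide +kernel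
theorem p5110 : PrV chk L5110 := leafV c5110

theorem c5111 : lp7 (fun s => chk (uent L5111 s)) 0 = true := by decide +kernel
theorem p5111 : PrV chk L5111 := leafV c5111

theorem c5112 : lp7 (fun s => chk (uent L5112 s)) 0 = true := by decide +kernel
theorem p5112 : PrV chk L5112 := leafV c5112

theorem c5113 : lp7 (fun s => chk (uent L5113 s)) 0 = true := by decide +kernel
theorem p5113 : PrV chk L5113 := leafV c5113

theorem c5114 : lp7 (fun s => chk (uent L5114 s)) 0 = true := by decide +kernel
theorem p5114 : PrV chk L5114 := leafV c5114

theorem c5115 : lp7 (fun s => chk (uent L5115 s)) 0 = true := by decide +kernel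
theorem p5115 : PrV chk L5115 := leafV c5115

theorem c5116 : lp7 (fun s => chk (uent L5116 s)) 0 = true := by decide +kernel
theorem p5116 : PrV chk L5116 := leafV c5116

theorem c5117 : lp7 (fun s => chk (uent L5117 s)) 0 = true := by decide +kernel
theorem p5117 : PrV chk L5117 := leafV c5117

theorem c5118 : lp7 (fun s => chk (uent L5118 s)) 0 = true := by decide +kernel
theorem p5118 : PrV chk L5118 := leafV c5118

theorem c5119 : lp7 (fun s => chk (uent L5119 s)) 0 = true := by decide +kernel
theorem p5119 : PrV chk L5119 := leafV c5119

theorem c5120 : lp7 (fun s => chk (uent L5120 s)) 0 = true := by decide +kernel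
theorem p5120 : PrV chk L5120 := leafV c5120

theorem c5121 : lp7 (fun s => chk (uent L5121 s)) 0 = true := by decide +kernel
theorem p5121 : PrV chk L5121 := leafV c5121

theorem c5122 : lp7 (fun s => chk (uent L5122 s)) 0 = true := by decide +kernel
theorem p5122 : PrV chk L5122 := leafV c5122

theorem c5123 : lp7 (fun s => chk (uent L5123 s)) 0 = true := by decide +kernel
theorem p5123 : PrV chk L5123 := leafV c5123

theorem c5124 : lp7 (fun s => chk (uent L5124 s)) 0 = true := by decide +kernel
theorem p5124 : PrV chk L5124 := leafV c5124

theorem c5125 : lp7 (fun s => chk (uent L5125 s)) 0 = true := by decide +kernel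
theorem p5125 : PrV chk L5125 := leafV c5125

theorem c5126 : lp7 (fun s => chk (uent L5126 s)) 0 = true := by decide +kernel
theorem p5126 : PrV chk L5126 := leafV c5126

theorem c5127 : lp7 (fun s => chk (uent L5127 s)) 0 = true := by decide +kernel
theorem p5127 : PrV chk L5127 := leafV c5127

theorem c5128 : lp7 (fun s => chk (uent L5128 s)) 0 = true := by decide +kernel
theorem p5128 : PrV chk L5128 := leafV c5128

theorem c5129 : lp7 (fun s => chk (uent L5129 s)) 0 = true := by decide +kernel
theorem p5129 : PrV chk L5129 := leafV c5129

theorem c5130 : lp7 (fun s => chk (uent L5130 s)) 0 = true := by decide +kernel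
theorem p5130 : PrV chk L5130 := leafV c5130

theorem c5131 : lp7 (fun s => chk (uent L5131 s)) 0 = true := by decide +kernel
theorem p5131 : PrV chk L5131 := leafV c5131

theorem c5132 : lp7 (fun s => chk (uent L5132 s)) 0 = true := by decide +kernel
theorem p5132 : PrV chk L5132 := leafV c5132

theorem c5133 : lp7 (fun s => chk (uent L5133 s)) 0 = true := by decide +kernel
theorem p5133 : PrV chk L5133 := leafV c5133

theorem c5134 : lp7 (fun s => chk (uent L5134 s)) 0 = true := by decide +kernel
theorem p5134 : PrV chk L5134 := leafV c5134

theorem c5135 : lp7 (fun s => chk (uent L5135 s)) 0 = true := by decide +kernel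
theorem p5135 : PrV chk L5135 := leafV c5135

theorem c5136 : lp7 (fun s => chk (uent L5136 s)) 0 = true := by decide +kernel
theorem p5136 : PrV chk L5136 := leafV c5136

theorem c5137 : lp7 (fun s => chk (uent L5137 s)) 0 = true := by decide +kernel
theorem p5137 : PrV chk L5137 := leafV c5137

theorem c5138 : lp7 (fun s => chk (uent L5138 s)) 0 = true := by decide +kernel
theorem p5138 : PrV chk L5138 := leafV c5138

theorem c5139 : lp7 (fun s => chk (uent L5139 s)) 0 = true := by decide +kernel
theorem p5139 : PrV chk L5139 := leafV c5139

theorem c5140 : lp7 (fun s => chk (uent L5140 s)) 0 = true := by decide +kernel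
theorem p5140 : PrV chk L5140 := leafV c5140

theorem c5141 : lp7 (fun s => chk (uent L5141 s)) 0 = true := by decide +kernel
theorem p5141 : PrV chk L5141 := leafV c5141

theorem c5142 : lp7 (fun s => chk (uent L5142 s)) 0 = true := by decide +kernel
theorem p5142 : PrV chk L5142 := leafV c5142

theorem c5143 : lp7 (fun s => chk (uent L5143 s)) 0 = true := by decide +kernel
theorem p5143 : PrV chk L5143 := leafV c5143

theorem c5144 : lp7 (fun s => chk (uent L5144 s)) 0 = true := by decide +kernel
theorem p5144 : PrV chk L5144 := leafV c5144

theorem c5145 : lp7 (fun s => chk (uent L5145 s)) 0 = true := by decide +kernel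
theorem p5145 : PrV chk L5145 := leafV c5145

theorem c5146 : lp7 (fun s => chk (uent L5146 s)) 0 = true := by decide +kernel
theorem p5146 : PrV chk L5146 := leafV c5146

theorem c5147 : lp7 (fun s => chk (uent L5147 s)) 0 = true := by decide +kernel
theorem p5147 : PrV chk L5147 := leafV c5147

theorem c5148 : lp7 (fun s => chk (uent L5148 s)) 0 = true := by decide +kernel
theorem p5148 : PrV chk L5148 := leafV c5148

theorem c5149 : lp7 (fun s => chk (uent L5149 s)) 0 = true := by decide +kernel
theorem p5149 : PrV chk L5149 := leafV c5149

theorem c5150 : lp7 (fun s => chk (uent L5150 s)) 0 = true := by decide +kernel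
theorem p5150 : PrV chk L5150 := leafV c5150

theorem c5151 : lp7 (fun s => chk (uent L5151 s)) 0 = true := by decide +kernel
theorem p5151 : PrV chk L5151 := leafV c5151

theorem c5152 : lp7 (fun s => chk (uent L5152 s)) 0 = true := by decide +kernel
theorem p5152 : PrV chk L5152 := leafV c5152

theorem c5153 : lp7 (fun s => chk (uent L5153 s)) 0 = true := by decide +kernel
theorem p5153 : PrV chk L5153 := leafV c5153

theorem c5154 : lp7 (fun s => chk (uent L5154 s)) 0 = true := by decide +kernel
theorem p5154 : PrV chk L5154 := leafV c5154

theorem c5155 : lp7 (fun s => chk (uent L5155 s)) 0 = true := by decide +kernel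
theorem p5155 : PrV chk L5155 := leafV c5155

theorem c5156 : lp7 (fun s => chk (uent L5156 s)) 0 = true := by decide +kernel
theorem p5156 : PrV chk L5156 := leafV c5156

theorem c5157 : lp7 (fun s => chk (uent L5157 s)) 0 = true := by decide +kernel
theorem p5157 : PrV chk L5157 := leafV c5157

theorem c5158 : lp7 (fun s => chk (uent L5158 s)) 0 = true := by decide +kernel
theorem p5158 : PrV chk L5158 := leafV c5158

theorem c5159 : lp7 (fun s => chk (uent L5159 s)) 0 = true := by decide +kernel
theorem p5159 : PrV chk L5159 := leafV c5159

theorem c5160 : lp7 (fun s => chk (uent L5160 s)) 0 = true := by decide +kernel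
theorem p5160 : PrV chk L5160 := leafV c5160

theorem c5161 : lp7 (fun s => chk (uent L5161 s)) 0 = true := by decide +kernel
theorem p5161 : PrV chk L5161 := leafV c5161

theorem c5162 : lp7 (fun s => chk (uent L5162 s)) 0 = true := by decide +kernel
theorem p5162 : PrV chk L5162 := leafV c5162

theorem c5163 : lp7 (fun s => chk (uent L5163 s)) 0 = true := by decide +kernel
theorem p5163 : PrV chk L5163 := leafV c5163

theorem c5164 : lp7 (fun s => chk (uent L5164 s)) 0 = true := by decide +kernel
theorem p5164 : PrV chk L5164 := leafV c5164

theorem c5165 : lp7 (fun s => chk (uent L5165 s)) 0 = true := by decide +kernel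
theorem p5165 : PrV chk L5165 := leafV c5165

theorem c5166 : lp7 (fun s => chk (uent L5166 s)) 0 = true := by decide +kernel
theorem p5166 : PrV chk L5166 := leafV c5166

theorem c5167 : lp7 (fun s => chk (uent L5167 s)) 0 = true := by decide +kernel
theorem p5167 : PrV chk L5167 := leafV c5167

theorem c5168 : lp7 (fun s => chk (uent L5168 s)) 0 = true := by decide +kernel
theorem p5168 : PrV chk L5168 := leafV c5168

theorem c5169 : lp7 (fun s => chk (uent L5169 s)) 0 = true := by decide +kernel
theorem p5169 : PrV chk L5169 := leafV c5169

theorem c5170 : lp7 (fun s => chk (uent L5170 s)) 0 = true := by decide +kernel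
theorem p5170 : PrV chk L5170 := leafV c5170

theorem c5171 : lp7 (fun s => chk (uent L5171 s)) 0 = true := by decide +kernel
theorem p5171 : PrV chk L5171 := leafV c5171

theorem c5172 : lp7 (fun s => chk (uent L5172 s)) 0 = true := by decide +kernel
theorem p5172 : PrV chk L5172 := leafV c5172

theorem c5173 : lp7 (fun s => chk (uent L5173 s)) 0 = true := by decide +kernel
theorem p5173 : PrV chk L5173 := leafV c5173

theorem c5174 : lp7 (fun s => chk (uent L5174 s)) 0 = true := by decide +kernel
theorem p5174 : PrV chk L5174 := leafV c5174

theorem c5175 : lp7 (fun s => chk (uent L5175 s)) 0 = true := by decide +kernel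
theorem p5175 : PrV chk L5175 := leafV c5175

theorem c5176 : lp7 (fun s => chk (uent L5176 s)) 0 = true := by decide +kernel
theorem p5176 : PrV chk L5176 := leafV c5176

theorem c5177 : lp7 (fun s => chk (uent L5177 s)) 0 = true := by decide +kernel
theorem p5177 : PrV chk L5177 := leafV c5177

theorem c5178 : lp7 (fun s => chk (uent L5178 s)) 0 = true := by decide +kernel
theorem p5178 : PrV chk L5178 := leafV c5178

theorem c5179 : lp7 (fun s => chk (uent L5179 s)) 0 = true := by decide +kernel
theorem p5179 : PrV chk L5179 := leafV c5179

theorem c5180 : lp7 (fun s => chk (uent L5180 s)) 0 = true := by decide +kernel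
theorem p5180 : PrV chk L5180 := leafV c5180

theorem c5181 : lp7 (fun s => chk (uent L5181 s)) 0 = true := by decide +kernel
theorem p5181 : PrV chk L5181 := leafV c5181

theorem c5182 : lp7 (fun s => chk (uent L5182 s)) 0 = true := by decide +kernel
theorem p5182 : PrV chk L5182 := leafV c5182

theorem c5183 : lp7 (fun s => chk (uent L5183 s)) 0 = true := by decide +kernel
theorem p5183 : PrV chk L5183 := leafV c5183

end Pool.Agent.ad013a.W
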