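import Pool.Agent.H.MP_ad013a_pr.h63w.A.T
import Pool.Agent.H.MP_ad013a_pr.h63w.VLoop

namespace Pool.Agent.ad013a.W

theorem c5184 : lp7 (fun s => chk (uent L5184 s)) 0 = true := by decide +kernel
theorem p5184 : PrV chk L5184 := leafV c5184

theorem c5185 : lp7 (fun s => chk (uent L5185 s)) 0 = true := by decide +kernel
theorem p5185 : PrV chk L5185 := leafV c5185

theorem c5186 : lp7 (fun s => chk (uent L5186 s)) 0 = true := by decide +kernel
theorem p5186 : PrV chk L5186 := leafV c5186

theorem c5187 : lp7 (fun s => chk (uent L5187 s)) 0 = true := by decide +kernel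
theorem p5187 : PrV chk L5187 := leafV c5187

theorem c5188 : lp7 (fun s => chk (uent L5188 s)) 0 = true := by decide +kernel
theorem p5188 : PrV chk L5188 := leafV c5188

theorem c5189 : lp7 (fun s => chk (uent L5189 s)) 0 = true := by decide +kernel
theorem p5189 : PrV chk L5189 := leafV c5189

theorem c5190 : lp7 (fun s => chk (uent L5190 s)) 0 = true := by decide +kernel
theorem p5190 : PrV chk L5190 := leafV c5190

theorem c5191 : lp7 (fun s => chk (uent L5191 s)) 0 = true := by decide +kernel
theorem p5191 : PrV chk L5191 := leafV c5191

theorem c5192 : lp7 (fun s => chk (uent L5192 s)) 0 = true := by decide +kernel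
theorem p5192 : PrV chk L5192 := leafV c5192

theorem c5193 : lp7 (fun s => chk (uent L5193 s)) 0 = true := by decide +kernel
theorem p5193 : PrV chk L5193 := leafV c5193

theorem c5194 : lp7 (fun s => chk (uent L5194 s)) 0 = true := by decide +kernel
theorem p5194 : PrV chk L5194 := leafV c5194

theorem c5195 : lp7 (fun s => chk (uent L5195 s)) 0 = true := by decide +kernel
theorem p5195 : PrV chk L5195 := leafV c5195

theorem c5196 : lp7 (fun s => chk (uent L5196 s)) 0 = true := by decide +kernel
theorem p5196 : PrV chk L5196 := leafV c5196

theorem c5197 : lp7 (fun s => chk (uent L5197 s)) 0 = true := by decide +kernel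
theorem p5197 : PrV chk L5197 := leafV c5197

theorem c5198 : lp7 (fun s => chk (uent L5198 s)) 0 = true := by decide +kernel
theorem p5198 : PrV chk L5198 := leafV c5198

theorem c5199 : lp7 (fun s => chk (uent L5199 s)) 0 = true := by decide +kernel
theorem p5199 : PrV chk L5199 := leafV c5199

theorem c5200 : lp7 (fun s => chk (uent L5200 s)) 0 = true := by decide +kernel
theorem p5200 : PrV chk L5200 := leafV c5200

theorem c5201 : lp7 (fun s => chk (uent L5201 s)) 0 = true := by decide +kernel
theorem p5201 : PrV chk L5201 := leafV c5201

theorem c5202 : lp7 (fun s => chk (uent L5202 s)) 0 = true := by decide +kernel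
theorem p5202 : PrV chk L5202 := leafV c5202

theorem c5203 : lp7 (fun s => chk (uent L5203 s)) 0 = true := by decide +kernel
theorem p5203 : PrV chk L5203 := leafV c5203

theorem c5204 : lp7 (fun s => chk (uent L5204 s)) 0 = true := by decide +kernel
theorem p5204 : PrV chk L5204 := leafV c5204

theorem c5205 : lp7 (fun s => chk (uent L5205 s)) 0 = true := by decide +kernel
theorem p5205 : PrV chk L5205 := leafV c5205

theorem c5206 : lp7 (fun s => chk (uent L5206 s)) 0 = true := by decide +kernel
theorem p5206 : PrV chk L5206 := leafV c5206

theorem c5207 : lp7 (fun s => chk (uent L5207 s)) 0 = true := by decide +kernel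
theorem p5207 : PrV chk L5207 := leafV c5207

theorem c5208 : lp7 (fun s => chk (uent L5208 s)) 0 = true := by decide +kernel
theorem p5208 : PrV chk L5208 := leafV c5208

theorem c5209 : lp7 (fun s => chk (uent L5209 s)) 0 = true := by decide +kernel
theorem p5209 : PrV chk L5209 := leafV c5209

theorem c5210 : lp7 (fun s => chk (uent L5210 s)) 0 = true := by decide +kernel
theorem p5210 : PrV chk L5210 := leafV c5210

theorem c5211 : lp7 (fun s => chk (uent L5211 s)) 0 = true := by decide +kernel
theorem p5211 : PrV chk L5211 := leafV c5211

theorem c5212 : lp7 (fun s => chk (uent L5212 s)) 0 = true := by decide +kernel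
theorem p5212 : PrV chk L5212 := leafV c5212

theorem c5213 : lp7 (fun s => chk (uent L5213 s)) 0 = true := by decide +kernel
theorem p5213 : PrV chk L5213 := leafV c5213

theorem c5214 : lp7 (fun s => chk (uent L5214 s)) 0 = true := by decide +kernel
theorem p5214 : PrV chk L5214 := leafV c5214

theorem c5215 : lp7 (fun s => chk (uent L5215 s)) 0 = true := by decide +kernel
theorem p5215 : PrV chk L5215 := leafV c5215

theorem c5216 : lp7 (fun s => chk (uent L5216 s)) 0 = true := by decide +kernel
theorem p5216 : PrV chk L5216 := leafV c5216

theorem c5217 : lp7 (fun s => chk (uent L5217 s)) 0 = true := by decide +kernel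
theorem p5217 : PrV chk L5217 := leafV c5217

theorem c5218 : lp7 (fun s => chk (uent L5218 s)) 0 = true := by decide +kernel
theorem p5218 : PrV chk L5218 := leafV c5218

theorem c5219 : lp7 (fun s => chk (uent L5219 s)) 0 = true := by decide +kernel
theorem p5219 : PrV chk L5219 := leafV c5219

theorem c5220 : lp7 (fun s => chk (uent L5220 s)) 0 = true := by decide +kernel
theorem p5220 : PrV chk L5220 := leafV c5220

theorem c5221 : lp7 (fun s => chk (uent L5221 s)) 0 = true := by decide +kernel
theorem p5221 : PrV chk L5221 := leafV c5221

theorem c5222 : lp7 (fun s => chk (uent L5222 s)) 0 = true := by decide +kernel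
theorem p5222 : PrV chk L5222 := leafV c5222

theorem c5223 : lp7 (fun s => chk (uent L5223 s)) 0 = true := by decide +kernel
theorem p5223 : PrV chk L5223 := leafV c5223

theorem c5224 : lp7 (fun s => chk (uent L5224 s)) 0 = true := by decide +kernel
theorem p5224 : PrV chk L5224 := leafV c5224

theorem c5225 : lp7 (fun s => chk (uent L5225 s)) 0 = true := by decide +kernel
theorem p5225 : PrV chk L5225 := leafV c5225

theorem c5226 : lp7 (fun s => chk (uent L5226 s)) 0 = true := by decide +kernel
theorem p5226 : PrV chk L5226 := leafV c5226

theorem c5227 : lp7 (fun s => chk (uent L5227 s)) 0 = true := by decide +kernel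
theorem p5227 : PrV chk L5227 := leafV c5227

theorem c5228 : lp7 (fun s => chk (uent L5228 s)) 0 = true := by decide +kernel
theorem p5228 : PrV chk L5228 := leafV c5228

theorem c5229 : lp7 (fun s => chk (uent L5229 s)) 0 = true := by decide +kernel
theorem p5229 : PrV chk L5229 := leafV c5229

theorem c5230 : lp7 (fun s => chk (uent L5230 s)) 0 = true := by decide +kernel
theorem p5230 : PrV chk L5230 := leafV c5230

theorem c5231 : lp7 (fun s => chk (uent L5231 s)) 0 = true := by decide +kernel
theorem p5231 : PrV chk L5231 := leafV c5231

theorem c5232 : lp7 (fun s => chk (uent L5232 s)) 0 = true := by decide +kernel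
theorem p5232 : PrV chk L5232 := leafV c5232

theorem c5233 : lp7 (fun s => chk (uent L5233 s)) 0 = true := by decide +kernel
theorem p5233 : PrV chk L5233 := leafV c5233

theorem c5234 : lp7 (fun s => chk (uent L5234 s)) 0 = true := by decide +kernel
theorem p5234 : PrV chk L5234 := leafV c5234

theorem c5235 : lp7 (fun s => chk (uent L5235 s)) 0 = true := by decide +kernel
theorem p5235 : PrV chk L5235 := leafV c5235

theorem c5236 : lp7 (fun s => chk (uent L5236 s)) 0 = true := by decide +kernel
theorem p5236 : PrV chk L5236 := leafV c5236

theorem c5237 : lp7 (fun s => chk (uent L5237 s)) 0 = true := by decide +kernel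
theorem p5237 : PrV chk L5237 := leafV c5237

theorem c5238 : lp7 (fun s => chk (uent L5238 s)) 0 = true := by decide +kernel
theorem p5238 : PrV chk L5238 := leafV c5238

theorem c5239 : lp7 (fun s => chk (uent L5239 s)) 0 = true := by decide +kernel
theorem p5239 : PrV chk L5239 := leafV c5239

theorem c5240 : lp7 (fun s => chk (uent L5240 s)) 0 = true := by decide +kernel
theorem p5240 : PrV chk L5240 := leafV c5240

theorem c5241 : lp7 (fun s => chk (uent L5241 s)) 0 = true := by decide +kernel
theorem p5241 : PrV chk L5241 := leafV c5241

theorem c5242 : lp7 (fun s => chk (uent L5242 s)) 0 = true := by decide +kernel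
theorem p5242 : PrV chk L5242 := leafV c5242

theorem c5243 : lp7 (fun s => chk (uent L5243 s)) 0 = true := by decide +kernel
theorem p5243 : PrV chk L5243 := leafV c5243

theorem c5244 : lp7 (fun s => chk (uent L5244 s)) 0 = true := by decide +kernel
theorem p5244 : PrV chk L5244 := leafV c5244

theorem c5245 : lp7 (fun s => chk (uent L5245 s)) 0 = true := by decide +kernel
theorem p5245 : PrV chk L5245 := leafV c5245

theorem c5246 : lp7 (fun s => chk (uent L5246 s)) 0 = true := by decide +kernel
theorem p5246 : PrV chk L5246 := leafV c5246

theorem c5247 : lp7 (fun s => chk (uent L5247 s)) 0 = true := by decide +kernel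
theorem p5247 : PrV chk L5247 := leafV c5247

theorem c5248 : lp7 (fun s => chk (uent L5248 s)) 0 = true := by decide +kernel
theorem p5248 : PrV chk L5248 := leafV c5248

theorem c5249 : lp7 (fun s => chk (uent L5249 s)) 0 = true := by decide +kernel
theorem p5249 : PrV chk L5249 := leafV c5249

theorem c5250 : lp7 (fun s => chk (uent L5250 s)) 0 = true := by decide +kernel
theorem p5250 : PrV chk L5250 := leafV c5250

theorem c5251 : lp7 (fun s => chk (uent L5251 s)) 0 = true := by decide +kernel
theorem p5251 : PrV chk L5251 := leafV c5251

theorem c5252 : lp7 (fun s => chk (uent L5252 s)) 0 = true := by decide +kernel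
theorem p5252 : PrV chk L5252 := leafV c5252

theorem c5253 : lp7 (fun s => chk (uent L5253 s)) 0 = true := by decide +kernel
theorem p5253 : PrV chk L5253 := leafV c5253

theorem c5254 : lp7 (fun s => chk (uent L5254 s)) 0 = true := by decide +kernel
theorem p5254 : PrV chk L5254 := leafV c5254

theorem c5255 : lp7 (fun s => chk (uent L5255 s)) 0 = true := by decide +kernel
theorem p5255 : PrV chk L5255 := leafV c5255

theorem c5256 : lp7 (fun s => chk (uent L5256 s)) 0 = true := by decide +kernel
theorem p5256 : PrV chk L5256 := leafV c5256

theorem c5257 : lp7 (fun s => chk (uent L5257 s)) 0 = true := by decide +kernel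
theorem p5257 : PrV chk L5257 := leafV c5257

theorem c5258 : lp7 (fun s => chk (uent L5258 s)) 0 = true := by decide +kernel
theorem p5258 : PrV chk L5258 := leafV c5258

theorem c5259 : lp7 (fun s => chk (uent L5259 s)) 0 = true := by decide +kernel
theorem p5259 : PrV chk L5259 := leafV c5259

theorem c5260 : lp7 (fun s => chk (uent L5260 s)) 0 = true := by decide +kernel
theorem p5260 : PrV chk L5260 := leafV c5260

theorem c5261 : lp7 (fun s => chk (uent L5261 s)) 0 = true := by decide +kernel
theorem p5261 : PrV chk L5261 := leafV c5261

theorem c5262 : lp7 (fun s => chk (uent L5262 s)) 0 = true := by decide +kernel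
theorem p5262 : PrV chk L5262 := leafV c5262

theorem c5263 : lp7 (fun s => chk (uent L5263 s)) 0 = true := by decide +kernel
theorem p5263 : PrV chk L5263 := leafV c5263

theorem c5264 : lp7 (fun s => chk (uent L5264 s)) 0 = true := by decide +kernel
theorem p5264 : PrV chk L5264 := leafV c5264

theorem c5265 : lp7 (fun s => chk (uent L5265 s)) 0 = true := by decide +kernel
theorem p5265 : PrV chk L5265 := leafV c5265

theorem c5266 : lp7 (fun s => chk (uent L5266 s)) 0 = true := by decide +kernel
theorem p5266 : PrV chk L5266 := leafV c5266

theorem c5267 : lp7 (fun s => chk (uent L5267 s)) 0 = true := by decide +kernel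
theorem p5267 : PrV chk L5267 := leafV c5267

theorem c5268 : lp7 (fun s => chk (uent L5268 s)) 0 = true := by decide +kernel
theorem p5268 : PrV chk L5268 := leafV c5268

theorem c5269 : lp7 (fun s => chk (uent L5269 s)) 0 = true := by decide +kernel
theorem p5269 : PrV chk L5269 := leafV c5269

theorem c5270 : lp7 (fun s => chk (uent L5270 s)) 0 = true := by decide +kernel
theorem p5270 : PrV chk L5270 := leafV c5270

theorem c5271 : lp7 (fun s => chk (uent L5271 s)) 0 = true := by decide +kernel
theorem p5271 : PrV chk L5271 := leafV c5271

theorem c5272 : lp7 (fun s => chk (uent L5272 s)) 0 = true := by decide +kernel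
theorem p5272 : PrV chk L5272 := leafV c5272

theorem c5273 : lp7 (fun s => chk (uent L5273 s)) 0 = true := by decide +kernel
theorem p5273 : PrV chk L5273 := leafV c5273

theorem c5274 : lp7 (fun s => chk (uent L5274 s)) 0 = true := by decide +kernel
theorem p5274 : PrV chk L5274 := leafV c5274

theorem c5275 : lp7 (fun s => chk (uent L5275 s)) 0 = true := by decide +kernel
theorem p5275 : PrV chk L5275 := leafV c5275

theorem c5276 : lp7 (fun s => chk (uent L5276 s)) 0 = true := by decide +kernel
theorem p5276 : PrV chk L5276 := leafV c5276

theorem c5277 : lp7 (fun s => chk (uent L5277 s)) 0 = true := by decide +kernel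
theorem p5277 : PrV chk L5277 := leafV c5277

theorem c5278 : lp7 (fun s => chk (uent L5278 s)) 0 = true := by decide +kernel
theorem p5278 : PrV chk L5278 := leafV c5278

theorem c5279 : lp7 (fun s => chk (uent L5279 s)) 0 = true := by decide +kernel
theorem p5279 : PrV chk L5279 := leafV c5279

theorem c5280 : lp7 (fun s => chk (uent L5280 s)) 0 = true := by decide +kernel
theorem p5280 : PrV chk L5280 := leafV c5280

theorem c5281 : lp7 (fun s => chk (uent L5281 s)) 0 = true := by decide +kernel
theorem p5281 : PrV chk L5281 := leafV c5281

theorem c5282 : lp7 (fun s => chk (uent L5282 s)) 0 = true := by decide +kernel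
theorem p5282 : PrV chk L5282 := leafV c5282

theorem c5283 : lp7 (fun s => chk (uent L5283 s)) 0 = true := by decide +kernel
theorem p5283 : PrV chk L5283 := leafV c5283

theorem c5284 : lp7 (fun s => chk (uent L5284 s)) 0 = true := by decide +kernel
theorem p5284 : PrV chk L5284 := leafV c5284

theorem c5285 : lp7 (fun s => chk (uent L5285 s)) 0 = true := by decide +kernel
theorem p5285 : PrV chk L5285 := leafV c5285

theorem c5286 : lp7 (fun s => chk (uent L5286 s)) 0 = true := by decide +kernel
theorem p5286 : PrV chk L5286 := leafV c5286

theorem c5287 : lp7 (fun s => chk (uent L5287 s)) 0 = true := by decide +kernel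
theorem p5287 : PrV chk L5287 := leafV c5287

theorem c5288 : lp7 (fun s => chk (uent L5288 s)) 0 = true := by decide +kernel
theorem p5288 : PrV chk L5288 := leafV c5288

theorem c5289 : lp7 (fun s => chk (uent L5289 s)) 0 = true := by decide +kernel
theorem p5289 : PrV chk L5289 := leafV c5289

theorem c5290 : lp7 (fun s => chk (uent L5290 s)) 0 = true := by decide +kernel
theorem p5290 : PrV chk L5290 := leafV c5290

theorem c5291 : lp7 (fun s => chk (uent L5291 s)) 0 = true := by decide +kernel
theorem p5291 : PrV chk L5291 := leafV c5291

theorem c5292 : lp7 (fun s => chk (uent L5292 s)) 0 = true := by decide +kernel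
theorem p5292 : PrV chk L5292 := leafV c5292

theorem c5293 : lp7 (fun s => chk (uent L5293 s)) 0 = true := by decide +kernel
theorem p5293 : PrV chk L5293 := leafV c5293

theorem c5294 : lp7 (fun s => chk (uent L5294 s)) 0 = true := by decide +kernel
theorem p5294 : PrV chk L5294 := leafV c5294

theorem c5295 : lp7 (fun s => chk (uent L5295 s)) 0 = true := by decide +kernel
theorem p5295 : PrV chk L5295 := leafV c5295

theorem c5296 : lp7 (fun s => chk (uent L5296 s)) 0 = true := by decide +kernel
theorem p5296 : PrV chk L5296 := leafV c5296

theorem c5297 : lp7 (fun s => chk (uent L5297 s)) 0 = true := by decide +kernel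
theorem p5297 : PrV chk L5297 := leafV c5297

theorem c5298 : lp7 (fun s => chk (uent L5298 s)) 0 = true := by decide +kernel
theorem p5298 : PrV chk L5298 := leafV c5298

theorem c5299 : lp7 (fun s => chk (uent L5299 s)) 0 = true := by decide +kernel
theorem p5299 : PrV chk L5299 := leafV c5299

theorem c5300 : lp7 (fun s => chk (uent L5300 s)) 0 = true := by decide +kernel
theorem p5300 : PrV chk L5300 := leafV c5300

theorem c5301 : lp7 (fun s => chk (uent L5301 s)) 0 = true := by decide +kernel
theorem p5301 : PrV chk L5301 := leafV c5301

theorem c5302 : lp7 (fun s => chk (uent L5302 s)) 0 = true := by decide +kernel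
theorem p5302 : PrV chk L5302 := leafV c5302

theorem c5303 : lp7 (fun s => chk (uent L5303 s)) 0 = true := by decide +kernel
theorem p5303 : PrV chk L5303 := leafV c5303

theorem c5304 : lp7 (fun s => chk (uent L5304 s)) 0 = true := by decide +kernel
theorem p5304 : PrV chk L5304 := leafV c5304

theorem c5305 : lp7 (fun s => chk (uent L5305 s)) 0 = true := by decide +kernel
theorem p5305 : PrV chk L5305 := leafV c5305

theorem c5306 : lp7 (fun s => chk (uent L5306 s)) 0 = true := by decide +kernel
theorem p5306 : PrV chk L5306 := leafV c5306

theorem c5307 : lp7 (fun s => chk (uent L5307 s)) 0 = true := by decide +kernel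
theorem p5307 : PrV chk L5307 := leafV c5307

theorem c5308 : lp7 (fun s => chk (uent L5308 s)) 0 = true := by decide +kernel
theorem p5308 : PrV chk L5308 := leafV c5308

theorem c5309 : lp7 (fun s => chk (uent L5309 s)) 0 = true := by decide +kernel
theorem p5309 : PrV chk L5309 := leafV c5309

theorem c5310 : lp7 (fun s => chk (uent L5310 s)) 0 = true := by decide +kernel
theorem p5310 : PrV chk L5310 := leafV c5310

theorem c5311 : lp7 (fun s => chk (uent L5311 s)) 0 = true := by decide +kernel
theorem p5311 : PrV chk L5311 := leafV c5311

theorem c5312 : lp7 (fun s => chk (uent L5312 s)) 0 = true := by decide +kernel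
theorem p5312 : PrV chk L5312 := leafV c5312

theorem c5313 : lp7 (fun s => chk (uent L5313 s)) 0 = true := by decide +kernel
theorem p5313 : PrV chk L5313 := leafV c5313

theorem c5314 : lp7 (fun s => chk (uent L5314 s)) 0 = true := by decide +kernel
theorem p5314 : PrV chk L5314 := leafV c5314

theorem c5315 : lp7 (fun s => chk (uent L5315 s)) 0 = true := by decide +kernel
theorem p5315 : PrV chk L5315 := leafV c5315

theorem c5316 : lp7 (fun s => chk (uent L5316 s)) 0 = true := by decide +kernel
theorem p5316 : PrV chk L5316 := leafV c5316

theorem c5317 : lp7 (fun s => chk (uent L5317 s)) 0 = true := by decide +kernel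
theorem p5317 : PrV chk L5317 := leafV c5317

theorem c5318 : lp7 (fun s => chk (uent L5318 s)) 0 = true := by decide +kernel
theorem p5318 : PrV chk L5318 := leafV c5318

theorem c5319 : lp7 (fun s => chk (uent L5319 s)) 0 = true := by decide +kernel
theorem p5319 : PrV chk L5319 := leafV c5319

theorem c5320 : lp7 (fun s => chk (uent L5320 s)) 0 = true := by decide +kernel
theorem p5320 : PrV chk L5320 := leafV c5320

theorem c5321 : lp7 (fun s => chk (uent L5321 s)) 0 = true := by decide +kernel
theorem p5321 : PrV chk L5321 := leafV c5321

theorem c5322 : lp7 (fun s => chk (uent L5322 s)) 0 = true := by decide +kernel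
theorem p5322 : PrV chk L5322 := leafV c5322

theorem c5323 : lp7 (fun s => chk (uent L5323 s)) 0 = true := by decide +kernel
theorem p5323 : PrV chk L5323 := leafV c5323

theorem c5324 : lp7 (fun s => chk (uent L5324 s)) 0 = true := by decide +kernel
theorem p5324 : PrV chk L5324 := leafV c5324

theorem c5325 : lp7 (fun s => chk (uent L5325 s)) 0 = true := by decide +kernel
theorem p5325 : PrV chk L5325 := leafV c5325

theorem c5326 : lp7 (fun s => chk (uent L5326 s)) 0 = true := by decide +kernel
theorem p5326 : PrV chk L5326 := leafV c5326

theorem c5327 : lp7 (fun s => chk (uent L5327 s)) 0 = true := by decide +kernel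
theorem p5327 : PrV chk L5327 := leafV c5327

theorem c5328 : lp7 (fun s => chk (uent L5328 s)) 0 = true := by decide +kernel
theorem p5328 : PrV chk L5328 := leafV c5328

theorem c5329 : lp7 (fun s => chk (uent L5329 s)) 0 = true := by decide +kernel
theorem p5329 : PrV chk L5329 := leafV c5329

theorem c5330 : lp7 (fun s => chk (uent L5330 s)) 0 = true := by decide +kernel
theorem p5330 : PrV chk L5330 := leafV c5330

theorem c5331 : lp7 (fun s => chk (uent L5331 s)) 0 = true := by decide +kernel
theorem p5331 : PrV chk L5331 := leafV c5331

theorem c5332 : lp7 (fun s => chk (uent L5332 s)) 0 = true := by decide +kernel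
theorem p5332 : PrV chk L5332 := leafV c5332

theorem c5333 : lp7 (fun s => chk (uent L5333 s)) 0 = true := by decide +kernel
theorem p5333 : PrV chk L5333 := leafV c5333

theorem c5334 : lp7 (fun s => chk (uent L5334 s)) 0 = true := by decide +kernel
theorem p5334 : PrV chk L5334 := leafV c5334

theorem c5335 : lp7 (fun s => chk (uent L5335 s)) 0 = true := by decide +kernel
theorem p5335 : PrV chk L5335 := leafV c5335

theorem c5336 : lp7 (fun s => chk (uent L5336 s)) 0 = true := by decide +kernel
theorem p5336 : PrV chk L5336 := leafV c5336

theorem c5337 : lp7 (fun s => chk (uent L5337 s)) 0 = true := by decide +kernel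
theorem p5337 : PrV chk L5337 := leafV c5337

theorem c5338 : lp7 (fun s => chk (uent L5338 s)) 0 = true := by decide +kernel
theorem p5338 : PrV chk L5338 := leafV c5338

theorem c5339 : lp7 (fun s => chk (uent L5339 s)) 0 = true := by decide +kernel
theorem p5339 : PrV chk L5339 := leafV c5339

theorem c5340 : lp7 (fun s => chk (uent L5340 s)) 0 = true := by decide +kernel
theorem p5340 : PrV chk L5340 := leafV c5340

theorem c5341 : lp7 (fun s => chk (uent L5341 s)) 0 = true := by decide +kernel
theorem p5341 : PrV chk L5341 := leafV c5341

theorem c5342 : lp7 (fun s => chk (uent L5342 s)) 0 = true := by decide +kernel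
theorem p5342 : PrV chk L5342 := leafV c5342

theorem c5343 : lp7 (fun s => chk (uent L5343 s)) 0 = true := by decide +kernel
theorem p5343 : PrV chk L5343 := leafV c5343

theorem c5344 : lp7 (fun s => chk (uent L5344 s)) 0 = true := by decide +kernel
theorem p5344 : PrV chk L5344 := leafV c5344

theorem c5345 : lp7 (fun s => chk (uent L5345 s)) 0 = true := by decide +kernel
theorem p5345 : PrV chk L5345 := leafV c5345

theorem c5346 : lp7 (fun s => chk (uent L5346 s)) 0 = true := by decide +kernel
theorem p5346 : PrV chk L5346 := leafV c5346

theorem c5347 : lp7 (fun s => chk (uent L5347 s)) 0 = true := by decide +kernel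
theorem p5347 : PrV chk L5347 := leafV c5347

theorem c5348 : lp7 (fun s => chk (uent L5348 s)) 0 = true := by decide +kernel
theorem p5348 : PrV chk L5348 := leafV c5348

theorem c5349 : lp7 (fun s => chk (uent L5349 s)) 0 = true := by decide +kernel
theorem p5349 : PrV chk L5349 := leafV c5349

theorem c5350 : lp7 (fun s => chk (uent L5350 s)) 0 = true := by decide +kernel
theorem p5350 : PrV chk L5350 := leafV c5350

theorem c5351 : lp7 (fun s => chk (uent L5351 s)) 0 = true := by decide +kernel
theorem p5351 : PrV chk L5351 := leafV c5351

theorem c5352 : lp7 (fun s => chk (uent L5352 s)) 0 = true := by decide +kernel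
theorem p5352 : PrV chk L5352 := leafV c5352

theorem c5353 : lp7 (fun s => chk (uent L5353 s)) 0 = true := by decide +kernel
theorem p5353 : PrV chk L5353 := leafV c5353

theorem c5354 : lp7 (fun s => chk (uent L5354 s)) 0 = true := by decide +kernel
theorem p5354 : PrV chk L5354 := leafV c5354

theorem c5355 : lp7 (fun s => chk (uent L5355 s)) 0 = true := by decide +kernel
theorem p5355 : PrV chk L5355 := leafV c5355

theorem c5356 : lp7 (fun s => chk (uent L5356 s)) 0 = true := by decide +kernel
theorem p5356 : PrV chk L5356 := leafV c5356

theorem c5357 : lp7 (fun s => chk (uent L5357 s)) 0 = true := by decide +kernel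
theorem p5357 : PrV chk L5357 := leafV c5357

theorem c5358 : lp7 (fun s => chk (uent L5358 s)) 0 = true := by decide +kernel
theorem p5358 : PrV chk L5358 := leafV c5358

theorem c5359 : lp7 (fun s => chk (uent L5359 s)) 0 = true := by decide +kernel
theorem p5359 : PrV chk L5359 := leafV c5359

theorem c5360 : lp7 (fun s => chk (uent L5360 s)) 0 = true := by decide +kernel
theorem p5360 : PrV chk L5360 := leafV c5360

theorem c5361 : lp7 (fun s => chk (uent L5361 s)) 0 = true := by decide +kernel
theorem p5361 : PrV chk L5361 := leafV c5361

theorem c5362 : lp7 (fun s => chk (uent L5362 s)) 0 = true := by decide +kernel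
theorem p5362 : PrV chk L5362 := leafV c5362

theorem c5363 : lp7 (fun s => chk (uent L5363 s)) 0 = true := by decide +kernel
theorem p5363 : PrV chk L5363 := leafV c5363

theorem c5364 : lp7 (fun s => chk (uent L5364 s)) 0 = true := by decide +kernel
theorem p5364 : PrV chk L5364 := leafV c5364

theorem c5365 : lp7 (fun s => chk (uent L5365 s)) 0 = true := by decide +kernel
theorem p5365 : PrV chk L5365 := leafV c5365

theorem c5366 : lp7 (fun s => chk (uent L5366 s)) 0 = true := by decide +kernel
theorem p5366 : PrV chk L5366 := leafV c5366

theorem c5367 : lp7 (fun s => chk (uent L5367 s)) 0 = true := by decide +kernel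
theorem p5367 : PrV chk L5367 := leafV c5367

theorem c5368 : lp7 (fun s => chk (uent L5368 s)) 0 = true := by decide +kernel
theorem p5368 : PrV chk L5368 := leafV c5368

theorem c5369 : lp7 (fun s => chk (uent L5369 s)) 0 = true := by decide +kernel
theorem p5369 : PrV chk L5369 := leafV c5369

theorem c5370 : lp7 (fun s => chk (uent L5370 s)) 0 = true := by decide +kernel
theorem p5370 : PrV chk L5370 := leafV c5370

theorem c5371 : lp7 (fun s => chk (uent L5371 s)) 0 = true := by decide +kernel
theorem p5371 : PrV chk L5371 := leafV c5371

theorem c5372 : lp7 (fun s => chk (uent L5372 s)) 0 = true := by decide +kernel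
theorem p5372 : PrV chk L5372 := leafV c5372

theorem c5373 : lp7 (fun s => chk (uent L5373 s)) 0 = true := by decide +kernel
theorem p5373 : PrV chk L5373 := leafV c5373

theorem c5374 : lp7 (fun s => chk (uent L5374 s)) 0 = true := by decide +kernel
theorem p5374 : PrV chk L5374 := leafV c5374

theorem c5375 : lp7 (fun s => chk (uent L5375 s)) 0 = true := by decide +kernel
theorem p5375 : PrV chk L5375 := leafV c5375

end Pool.Agent.ad013a.W
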