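import Pool.Agent.H.MP_ad013a_pr.h63w.A.T
import Pool.Agent.H.MP_ad013a_pr.h63w.VLoop

namespace Pool.Agent.ad013a.W

theorem c5376 : lp7 (fun s => chk (uent L5376 s)) 0 = true := by decide +kernel
theorem p5376 : PrV chk L5376 := leafV c5376

theorem c5377 : lp7 (fun s => chk (uent L5377 s)) 0 = true := by decide +kernel
theorem p5377 : PrV chk L5377 := leafV c5377

theorem c5378 : lp7 (fun s => chk (uent L5378 s)) 0 = true := by decide +kernel
theorem p5378 : PrV chk L5378 := leafV c5378

theorem c5379 : lp7 (fun s => chk (uent L5379 s)) 0 = true := by decide +kernel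
theorem p5379 : PrV chk L5379 := leafV c5379

theorem c5380 : lp7 (fun s => chk (uent L5380 s)) 0 = true := by decide +kernel
theorem p5380 : PrV chk L5380 := leafV c5380

theorem c5381 : lp7 (fun s => chk (uent L5381 s)) 0 = true := by decide +kernel
theorem p5381 : PrV chk L5381 := leafV c5381

theorem c5382 : lp7 (fun s => chk (uent L5382 s)) 0 = true := by decide +kernel
theorem p5382 : PrV chk L5382 := leafV c5382

theorem c5383 : lp7 (fun s => chk (uent L5383 s)) 0 = true := by decide +kernel
theorem p5383 : PrV chk L5383 := leafV c5383

theorem c5384 : lp7 (fun s => chk (uent L5384 s)) 0 = true := by decide +kernel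
theorem p5384 : PrV chk L5384 := leafV c5384

theorem c5385 : lp7 (fun s => chk (uent L5385 s)) 0 = true := by decide +kernel
theorem p5385 : PrV chk L5385 := leafV c5385

theorem c5386 : lp7 (fun s => chk (uent L5386 s)) 0 = true := by decide +kernel
theorem p5386 : PrV chk L5386 := leafV c5386

theorem c5387 : lp7 (fun s => chk (uent L5387 s)) 0 = true := by decide +kernel
theorem p5387 : PrV chk L5387 := leafV c5387

theorem c5388 : lp7 (fun s => chk (uent L5388 s)) 0 = true := by decide +kernel
theorem p5388 : PrV chk L5388 := leafV c5388

theorem c5389 : lp7 (fun s => chk (uent L5389 s)) 0 = true := by decide +kernel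
theorem p5389 : PrV chk L5389 := leafV c5389

theorem c5390 : lp7 (fun s => chk (uent L5390 s)) 0 = true := by decide +kernel
theorem p5390 : PrV chk L5390 := leafV c5390

theorem c5391 : lp7 (fun s => chk (uent L5391 s)) 0 = true := by decide +kernel
theorem p5391 : PrV chk L5391 := leafV c5391

theorem c5392 : lp7 (fun s => chk (uent L5392 s)) 0 = true := by decide +kernel
theorem p5392 : PrV chk L5392 := leafV c5392

theorem c5393 : lp7 (fun s => chk (uent L5393 s)) 0 = true := by decide +kernel
theorem p5393 : PrV chk L5393 := leafV c5393

theorem c5394 : lp7 (fun s => chk (uent L5394 s)) 0 = true := by decide +kernel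
theorem p5394 : PrV chk L5394 := leafV c5394

theorem c5395 : lp7 (fun s => chk (uent L5395 s)) 0 = true := by decide +kernel
theorem p5395 : PrV chk L5395 := leafV c5395

theorem c5396 : lp7 (fun s => chk (uent L5396 s)) 0 = true := by decide +kernel
theorem p5396 : PrV chk L5396 := leafV c5396

theorem c5397 : lp7 (fun s => chk (uent L5397 s)) 0 = true := by decide +kernel
theorem p5397 : PrV chk L5397 := leafV c5397

theorem c5398 : lp7 (fun s => chk (uent L5398 s)) 0 = true := by decide +kernel
theorem p5398 : PrV chk L5398 := leafV c5398

theorem c5399 : lp7 (fun s => chk (uent L5399 s)) 0 = true := by decide +kernel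
theorem p5399 : PrV chk L5399 := leafV c5399

theorem c5400 : lp7 (fun s => chk (uent L5400 s)) 0 = true := by decide +kernel
theorem p5400 : PrV chk L5400 := leafV c5400

theorem c5401 : lp7 (fun s => chk (uent L5401 s)) 0 = true := by decide +kernel
theorem p5401 : PrV chk L5401 := leafV c5401

theorem c5402 : lp7 (fun s => chk (uent L5402 s)) 0 = true := by decide +kernel
theorem p5402 : PrV chk L5402 := leafV c5402

theorem c5403 : lp7 (fun s => chk (uent L5403 s)) 0 = true := by decide +kernel
theorem p5403 : PrV chk L5403 := leafV c5403

theorem c5404 : lp7 (fun s => chk (uent L5404 s)) 0 = true := by decide +kernel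
theorem p5404 : PrV chk L5404 := leafV c5404

theorem c5405 : lp7 (fun s => chk (uent L5405 s)) 0 = true := by decide +kernel
theorem p5405 : PrV chk L5405 := leafV c5405

theorem c5406 : lp7 (fun s => chk (uent L5406 s)) 0 = true := by decide +kernel
theorem p5406 : PrV chk L5406 := leafV c5406

theorem c5407 : lp7 (fun s => chk (uent L5407 s)) 0 = true := by decide +kernel
theorem p5407 : PrV chk L5407 := leafV c5407

theorem c5408 : lp7 (fun s => chk (uent L5408 s)) 0 = true := by decide +kernel
theorem p5408 : PrV chk L5408 := leafV c5408

theorem c5409 : lp7 (fun s => chk (uent L5409 s)) 0 = true := by decide +kernel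
theorem p5409 : PrV chk L5409 := leafV c5409

theorem c5410 : lp7 (fun s => chk (uent L5410 s)) 0 = true := by decide +kernel
theorem p5410 : PrV chk L5410 := leafV c5410

theorem c5411 : lp7 (fun s => chk (uent L5411 s)) 0 = true := by decide +kernel
theorem p5411 : PrV chk L5411 := leafV c5411

theorem c5412 : lp7 (fun s => chk (uent L5412 s)) 0 = true := by decide +kernel
theorem p5412 : PrV chk L5412 := leafV c5412

theorem c5413 : lp7 (fun s => chk (uent L5413 s)) 0 = true := by decide +kernel
theorem p5413 : PrV chk L5413 := leafV c5413

theorem c5414 : lp7 (fun s => chk (uent L5414 s)) 0 = true := by decide +kernel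
theorem p5414 : PrV chk L5414 := leafV c5414

theorem c5415 : lp7 (fun s => chk (uent L5415 s)) 0 = true := by decide +kernel
theorem p5415 : PrV chk L5415 := leafV c5415

theorem c5416 : lp7 (fun s => chk (uent L5416 s)) 0 = true := by decide +kernel
theorem p5416 : PrV chk L5416 := leafV c5416

theorem c5417 : lp7 (fun s => chk (uent L5417 s)) 0 = true := by decide +kernel
theorem p5417 : PrV chk L5417 := leafV c5417

theorem c5418 : lp7 (fun s => chk (uent L5418 s)) 0 = true := by decide +kernel
theorem p5418 : PrV chk L5418 := leafV c5418

theorem c5419 : lp7 (fun s => chk (uent L5419 s)) 0 = true := by decide +kernel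
theorem p5419 : PrV chk L5419 := leafV c5419

theorem c5420 : lp7 (fun s => chk (uent L5420 s)) 0 = true := by decide +kernel
theorem p5420 : PrV chk L5420 := leafV c5420

theorem c5421 : lp7 (fun s => chk (uent L5421 s)) 0 = true := by decide +kernel
theorem p5421 : PrV chk L5421 := leafV c5421

theorem c5422 : lp7 (fun s => chk (uent L5422 s)) 0 = true := by decide +kernel
theorem p5422 : PrV chk L5422 := leafV c5422

theorem c5423 : lp7 (fun s => chk (uent L5423 s)) 0 = true := by decide +kernel
theorem p5423 : PrV chk L5423 := leafV c5423

theorem c5424 : lp7 (fun s => chk (uent L5424 s)) 0 = true := by decide +kernel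
theorem p5424 : PrV chk L5424 := leafV c5424

theorem c5425 : lp7 (fun s => chk (uent L5425 s)) 0 = true := by decide +kernel
theorem p5425 : PrV chk L5425 := leafV c5425

theorem c5426 : lp7 (fun s => chk (uent L5426 s)) 0 = true := by decide +kernel
theorem p5426 : PrV chk L5426 := leafV c5426

theorem c5427 : lp7 (fun s => chk (uent L5427 s)) 0 = true := by decide +kernel
theorem p5427 : PrV chk L5427 := leafV c5427

theorem c5428 : lp7 (fun s => chk (uent L5428 s)) 0 = true := by decide +kernel
theorem p5428 : PrV chk L5428 := leafV c5428

theorem c5429 : lp7 (fun s => chk (uent L5429 s)) 0 = true := by decide +kernel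
theorem p5429 : PrV chk L5429 := leafV c5429

theorem c5430 : lp7 (fun s => chk (uent L5430 s)) 0 = true := by decide +kernel
theorem p5430 : PrV chk L5430 := leafV c5430

theorem c5431 : lp7 (fun s => chk (uent L5431 s)) 0 = true := by decide +kernel
theorem p5431 : PrV chk L5431 := leafV c5431

theorem c5432 : lp7 (fun s => chk (uent L5432 s)) 0 = true := by decide +kernel
theorem p5432 : PrV chk L5432 := leafV c5432

theorem c5433 : lp7 (fun s => chk (uent L5433 s)) 0 = true := by decide +kernel
theorem p5433 : PrV chk L5433 := leafV c5433

theorem c5434 : lp7 (fun s => chk (uent L5434 s)) 0 = true := by decide +kernel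
theorem p5434 : PrV chk L5434 := leafV c5434

theorem c5435 : lp7 (fun s => chk (uent L5435 s)) 0 = true := by decide +kernel
theorem p5435 : PrV chk L5435 := leafV c5435

theorem c5436 : lp7 (fun s => chk (uent L5436 s)) 0 = true := by decide +kernel
theorem p5436 : PrV chk L5436 := leafV c5436

theorem c5437 : lp7 (fun s => chk (uent L5437 s)) 0 = true := by decide +kernel
theorem p5437 : PrV chk L5437 := leafV c5437

theorem c5438 : lp7 (fun s => chk (uent L5438 s)) 0 = true := by decide +kernel
theorem p5438 : PrV chk L5438 := leafV c5438

theorem c5439 : lp7 (fun s => chk (uent L5439 s)) 0 = true := by decide +kernel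
theorem p5439 : PrV chk L5439 := leafV c5439

theorem c5440 : lp7 (fun s => chk (uent L5440 s)) 0 = true := by decide +kernel
theorem p5440 : PrV chk L5440 := leafV c5440

theorem c5441 : lp7 (fun s => chk (uent L5441 s)) 0 = true := by decide +kernel
theorem p5441 : PrV chk L5441 := leafV c5441

theorem c5442 : lp7 (fun s => chk (uent L5442 s)) 0 = true := by decide +kernel
theorem p5442 : PrV chk L5442 := leafV c5442

theorem c5443 : lp7 (fun s => chk (uent L5443 s)) 0 = true := by decide +kernel
theorem p5443 : PrV chk L5443 := leafV c5443

theorem c5444 : lp7 (fun s => chk (uent L5444 s)) 0 = true := by decide +kernel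
theorem p5444 : PrV chk L5444 := leafV c5444

theorem c5445 : lp7 (fun s => chk (uent L5445 s)) 0 = true := by decide +kernel
theorem p5445 : PrV chk L5445 := leafV c5445

theorem c5446 : lp7 (fun s => chk (uent L5446 s)) 0 = true := by decide +kernel
theorem p5446 : PrV chk L5446 := leafV c5446

theorem c5447 : lp7 (fun s => chk (uent L5447 s)) 0 = true := by decide +kernel
theorem p5447 : PrV chk L5447 := leafV c5447

theorem c5448 : lp7 (fun s => chk (uent L5448 s)) 0 = true := by decide +kernel
theorem p5448 : PrV chk L5448 := leafV c5448

theorem c5449 : lp7 (fun s => chk (uent L5449 s)) 0 = true := by decide +kernel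
theorem p5449 : PrV chk L5449 := leafV c5449

theorem c5450 : lp7 (fun s => chk (uent L5450 s)) 0 = true := by decide +kernel
theorem p5450 : PrV chk L5450 := leafV c5450

theorem c5451 : lp7 (fun s => chk (uent L5451 s)) 0 = true := by decide +kernel
theorem p5451 : PrV chk L5451 := leafV c5451

theorem c5452 : lp7 (fun s => chk (uent L5452 s)) 0 = true := by decide +kernel
theorem p5452 : PrV chk L5452 := leafV c5452

theorem c5453 : lp7 (fun s => chk (uent L5453 s)) 0 = true := by decide +kernel
theorem p5453 : PrV chk L5453 := leafV c5453

theorem c5454 : lp7 (fun s => chk (uent L5454 s)) 0 = true := by decide +kernel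
theorem p5454 : PrV chk L5454 := leafV c5454

theorem c5455 : lp7 (fun s => chk (uent L5455 s)) 0 = true := by decide +kernel
theorem p5455 : PrV chk L5455 := leafV c5455

theorem c5456 : lp7 (fun s => chk (uent L5456 s)) 0 = true := by decide +kernel
theorem p5456 : PrV chk L5456 := leafV c5456

theorem c5457 : lp7 (fun s => chk (uent L5457 s)) 0 = true := by decide +kernel
theorem p5457 : PrV chk L5457 := leafV c5457

theorem c5458 : lp7 (fun s => chk (uent L5458 s)) 0 = true := by decide +kernel
theorem p5458 : PrV chk L5458 := leafV c5458

theorem c5459 : lp7 (fun s => chk (uent L5459 s)) 0 = true := by decide +kernel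
theorem p5459 : PrV chk L5459 := leafV c5459

theorem c5460 : lp7 (fun s => chk (uent L5460 s)) 0 = true := by decide +kernel
theorem p5460 : PrV chk L5460 := leafV c5460

theorem c5461 : lp7 (fun s => chk (uent L5461 s)) 0 = true := by decide +kernel
theorem p5461 : PrV chk L5461 := leafV c5461

theorem c5462 : lp7 (fun s => chk (uent L5462 s)) 0 = true := by decide +kernel
theorem p5462 : PrV chk L5462 := leafV c5462

theorem c5463 : lp7 (fun s => chk (uent L5463 s)) 0 = true := by decide +kernel
theorem p5463 : PrV chk L5463 := leafV c5463

theorem c5464 : lp7 (fun s => chk (uent L5464 s)) 0 = true := by decide +kernel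
theorem p5464 : PrV chk L5464 := leafV c5464

theorem c5465 : lp7 (fun s => chk (uent L5465 s)) 0 = true := by decide +kernel
theorem p5465 : PrV chk L5465 := leafV c5465

theorem c5466 : lp7 (fun s => chk (uent L5466 s)) 0 = true := by decide +kernel
theorem p5466 : PrV chk L5466 := leafV c5466

theorem c5467 : lp7 (fun s => chk (uent L5467 s)) 0 = true := by decide +kernel
theorem p5467 : PrV chk L5467 := leafV c5467

theorem c5468 : lp7 (fun s => chk (uent L5468 s)) 0 = true := by decide +kernel
theorem p5468 : PrV chk L5468 := leafV c5468

theorem c5469 : lp7 (fun s => chk (uent L5469 s)) 0 = true := by decide +kernel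
theorem p5469 : PrV chk L5469 := leafV c5469

theorem c5470 : lp7 (fun s => chk (uent L5470 s)) 0 = true := by decide +kernel
theorem p5470 : PrV chk L5470 := leafV c5470

theorem c5471 : lp7 (fun s => chk (uent L5471 s)) 0 = true := by decide +kernel
theorem p5471 : PrV chk L5471 := leafV c5471

theorem c5472 : lp7 (fun s => chk (uent L5472 s)) 0 = true := by decide +kernel
theorem p5472 : PrV chk L5472 := leafV c5472

theorem c5473 : lp7 (fun s => chk (uent L5473 s)) 0 = true := by decide +kernel
theorem p5473 : PrV chk L5473 := leafV c5473

theorem c5474 : lp7 (fun s => chk (uent L5474 s)) 0 = true := by decide +kernel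
theorem p5474 : PrV chk L5474 := leafV c5474

theorem c5475 : lp7 (fun s => chk (uent L5475 s)) 0 = true := by decide +kernel
theorem p5475 : PrV chk L5475 := leafV c5475

theorem c5476 : lp7 (fun s => chk (uent L5476 s)) 0 = true := by decide +kernel
theorem p5476 : PrV chk L5476 := leafV c5476

theorem c5477 : lp7 (fun s => chk (uent L5477 s)) 0 = true := by decide +kernel
theorem p5477 : PrV chk L5477 := leafV c5477

theorem c5478 : lp7 (fun s => chk (uent L5478 s)) 0 = true := by decide +kernel
theorem p5478 : PrV chk L5478 := leafV c5478

theorem c5479 : lp7 (fun s => chk (uent L5479 s)) 0 = true := by decide +kernel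
theorem p5479 : PrV chk L5479 := leafV c5479

theorem c5480 : lp7 (fun s => chk (uent L5480 s)) 0 = true := by decide +kernel
theorem p5480 : PrV chk L5480 := leafV c5480

theorem c5481 : lp7 (fun s => chk (uent L5481 s)) 0 = true := by decide +kernel
theorem p5481 : PrV chk L5481 := leafV c5481

theorem c5482 : lp7 (fun s => chk (uent L5482 s)) 0 = true := by decide +kernel
theorem p5482 : PrV chk L5482 := leafV c5482

theorem c5483 : lp7 (fun s => chk (uent L5483 s)) 0 = true := by decide +kernel
theorem p5483 : PrV chk L5483 := leafV c5483

theorem c5484 : lp7 (fun s => chk (uent L5484 s)) 0 = true := by decide +kernel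
theorem p5484 : PrV chk L5484 := leafV c5484

theorem c5485 : lp7 (fun s => chk (uent L5485 s)) 0 = true := by decide +kernel
theorem p5485 : PrV chk L5485 := leafV c5485

theorem c5486 : lp7 (fun s => chk (uent L5486 s)) 0 = true := by decide +kernel
theorem p5486 : PrV chk L5486 := leafV c5486

theorem c5487 : lp7 (fun s => chk (uent L5487 s)) 0 = true := by decide +kernel
theorem p5487 : PrV chk L5487 := leafV c5487

theorem c5488 : lp7 (fun s => chk (uent L5488 s)) 0 = true := by decide +kernel
theorem p5488 : PrV chk L5488 := leafV c5488

theorem c5489 : lp7 (fun s => chk (uent L5489 s)) 0 = true := by decide +kernel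
theorem p5489 : PrV chk L5489 := leafV c5489

theorem c5490 : lp7 (fun s => chk (uent L5490 s)) 0 = true := by decide +kernel
theorem p5490 : PrV chk L5490 := leafV c5490

theorem c5491 : lp7 (fun s => chk (uent L5491 s)) 0 = true := by decide +kernel
theorem p5491 : PrV chk L5491 := leafV c5491

theorem c5492 : lp7 (fun s => chk (uent L5492 s)) 0 = true := by decide +kernel
theorem p5492 : PrV chk L5492 := leafV c5492

theorem c5493 : lp7 (fun s => chk (uent L5493 s)) 0 = true := by decide +kernel
theorem p5493 : PrV chk L5493 := leafV c5493

theorem c5494 : lp7 (fun s => chk (uent L5494 s)) 0 = true := by decide +kernel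
theorem p5494 : PrV chk L5494 := leafV c5494

theorem c5495 : lp7 (fun s => chk (uent L5495 s)) 0 = true := by decide +kernel
theorem p5495 : PrV chk L5495 := leafV c5495

theorem c5496 : lp7 (fun s => chk (uent L5496 s)) 0 = true := by decide +kernel
theorem p5496 : PrV chk L5496 := leafV c5496

theorem c5497 : lp7 (fun s => chk (uent L5497 s)) 0 = true := by decide +kernel
theorem p5497 : PrV chk L5497 := leafV c5497

theorem c5498 : lp7 (fun s => chk (uent L5498 s)) 0 = true := by decide +kernel
theorem p5498 : PrV chk L5498 := leafV c5498

theorem c5499 : lp7 (fun s => chk (uent L5499 s)) 0 = true := by decide +kernel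
theorem p5499 : PrV chk L5499 := leafV c5499

theorem c5500 : lp7 (fun s => chk (uent L5500 s)) 0 = true := by decide +kernel
theorem p5500 : PrV chk L5500 := leafV c5500

theorem c5501 : lp7 (fun s => chk (uent L5501 s)) 0 = true := by decide +kernel
theorem p5501 : PrV chk L5501 := leafV c5501

theorem c5502 : lp7 (fun s => chk (uent L5502 s)) 0 = true := by decide +kernel
theorem p5502 : PrV chk L5502 := leafV c5502

theorem c5503 : lp7 (fun s => chk (uent L5503 s)) 0 = true := by decide +kernel
theorem p5503 : PrV chk L5503 := leafV c5503

theorem c5504 : lp7 (fun s => chk (uent L5504 s)) 0 = true := by decide +kernel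
theorem p5504 : PrV chk L5504 := leafV c5504

theorem c5505 : lp7 (fun s => chk (uent L5505 s)) 0 = true := by decide +kernel
theorem p5505 : PrV chk L5505 := leafV c5505

theorem c5506 : lp7 (fun s => chk (uent L5506 s)) 0 = true := by decide +kernel
theorem p5506 : PrV chk L5506 := leafV c5506

theorem c5507 : lp7 (fun s => chk (uent L5507 s)) 0 = true := by decide +kernel
theorem p5507 : PrV chk L5507 := leafV c5507

theorem c5508 : lp7 (fun s => chk (uent L5508 s)) 0 = true := by decide +kernel
theorem p5508 : PrV chk L5508 := leafV c5508

theorem c5509 : lp7 (fun s => chk (uent L5509 s)) 0 = true := by decide +kernel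
theorem p5509 : PrV chk L5509 := leafV c5509

theorem c5510 : lp7 (fun s => chk (uent L5510 s)) 0 = true := by decide +kernel
theorem p5510 : PrV chk L5510 := leafV c5510

theorem c5511 : lp7 (fun s => chk (uent L5511 s)) 0 = true := by decide +kernel
theorem p5511 : PrV chk L5511 := leafV c5511

theorem c5512 : lp7 (fun s => chk (uent L5512 s)) 0 = true := by decide +kernel
theorem p5512 : PrV chk L5512 := leafV c5512

theorem c5513 : lp7 (fun s => chk (uent L5513 s)) 0 = true := by decide +kernel
theorem p5513 : PrV chk L5513 := leafV c5513

theorem c5514 : lp7 (fun s => chk (uent L5514 s)) 0 = true := by decide +kernel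
theorem p5514 : PrV chk L5514 := leafV c5514

theorem c5515 : lp7 (fun s => chk (uent L5515 s)) 0 = true := by decide +kernel
theorem p5515 : PrV chk L5515 := leafV c5515

theorem c5516 : lp7 (fun s => chk (uent L5516 s)) 0 = true := by decide +kernel
theorem p5516 : PrV chk L5516 := leafV c5516

theorem c5517 : lp7 (fun s => chk (uent L5517 s)) 0 = true := by decide +kernel
theorem p5517 : PrV chk L5517 := leafV c5517

theorem c5518 : lp7 (fun s => chk (uent L5518 s)) 0 = true := by decide +kernel
theorem p5518 : PrV chk L5518 := leafV c5518

theorem c5519 : lp7 (fun s => chk (uent L5519 s)) 0 = true := by decide +kernel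
theorem p5519 : PrV chk L5519 := leafV c5519

theorem c5520 : lp7 (fun s => chk (uent L5520 s)) 0 = true := by decide +kernel
theorem p5520 : PrV chk L5520 := leafV c5520

theorem c5521 : lp7 (fun s => chk (uent L5521 s)) 0 = true := by decide +kernel
theorem p5521 : PrV chk L5521 := leafV c5521

theorem c5522 : lp7 (fun s => chk (uent L5522 s)) 0 = true := by decide +kernel
theorem p5522 : PrV chk L5522 := leafV c5522

theorem c5523 : lp7 (fun s => chk (uent L5523 s)) 0 = true := by decide +kernel
theorem p5523 : PrV chk L5523 := leafV c5523

theorem c5524 : lp7 (fun s => chk (uent L5524 s)) 0 = true := by decide +kernel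
theorem p5524 : PrV chk L5524 := leafV c5524

theorem c5525 : lp7 (fun s => chk (uent L5525 s)) 0 = true := by decide +kernel
theorem p5525 : PrV chk L5525 := leafV c5525

theorem c5526 : lp7 (fun s => chk (uent L5526 s)) 0 = true := by decide +kernel
theorem p5526 : PrV chk L5526 := leafV c5526

theorem c5527 : lp7 (fun s => chk (uent L5527 s)) 0 = true := by decide +kernel
theorem p5527 : PrV chk L5527 := leafV c5527

theorem c5528 : lp7 (fun s => chk (uent L5528 s)) 0 = true := by decide +kernel
theorem p5528 : PrV chk L5528 := leafV c5528

theorem c5529 : lp7 (fun s => chk (uent L5529 s)) 0 = true := by decide +kernel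
theorem p5529 : PrV chk L5529 := leafV c5529

theorem c5530 : lp7 (fun s => chk (uent L5530 s)) 0 = true := by decide +kernel
theorem p5530 : PrV chk L5530 := leafV c5530

theorem c5531 : lp7 (fun s => chk (uent L5531 s)) 0 = true := by decide +kernel
theorem p5531 : PrV chk L5531 := leafV c5531

theorem c5532 : lp7 (fun s => chk (uent L5532 s)) 0 = true := by decide +kernel
theorem p5532 : PrV chk L5532 := leafV c5532

theorem c5533 : lp7 (fun s => chk (uent L5533 s)) 0 = true := by decide +kernel
theorem p5533 : PrV chk L5533 := leafV c5533

theorem c5534 : lp7 (fun s => chk (uent L5534 s)) 0 = true := by decide +kernel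
theorem p5534 : PrV chk L5534 := leafV c5534

theorem c5535 : lp7 (fun s => chk (uent L5535 s)) 0 = true := by decide +kernel
theorem p5535 : PrV chk L5535 := leafV c5535

theorem c5536 : lp7 (fun s => chk (uent L5536 s)) 0 = true := by decide +kernel
theorem p5536 : PrV chk L5536 := leafV c5536

theorem c5537 : lp7 (fun s => chk (uent L5537 s)) 0 = true := by decide +kernel
theorem p5537 : PrV chk L5537 := leafV c5537

theorem c5538 : lp7 (fun s => chk (uent L5538 s)) 0 = true := by decide +kernel
theorem p5538 : PrV chk L5538 := leafV c5538

theorem c5539 : lp7 (fun s => chk (uent L5539 s)) 0 = true := by decide +kernel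
theorem p5539 : PrV chk L5539 := leafV c5539

theorem c5540 : lp7 (fun s => chk (uent L5540 s)) 0 = true := by decide +kernel
theorem p5540 : PrV chk L5540 := leafV c5540

theorem c5541 : lp7 (fun s => chk (uent L5541 s)) 0 = true := by decide +kernel
theorem p5541 : PrV chk L5541 := leafV c5541

theorem c5542 : lp7 (fun s => chk (uent L5542 s)) 0 = true := by decide +kernel
theorem p5542 : PrV chk L5542 := leafV c5542

theorem c5543 : lp7 (fun s => chk (uent L5543 s)) 0 = true := by decide +kernel
theorem p5543 : PrV chk L5543 := leafV c5543

theorem c5544 : lp7 (fun s => chk (uent L5544 s)) 0 = true := by decide +kernel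
theorem p5544 : PrV chk L5544 := leafV c5544

theorem c5545 : lp7 (fun s => chk (uent L5545 s)) 0 = true := by decide +kernel
theorem p5545 : PrV chk L5545 := leafV c5545

theorem c5546 : lp7 (fun s => chk (uent L5546 s)) 0 = true := by decide +kernel
theorem p5546 : PrV chk L5546 := leafV c5546

theorem c5547 : lp7 (fun s => chk (uent L5547 s)) 0 = true := by decide +kernel
theorem p5547 : PrV chk L5547 := leafV c5547

theorem c5548 : lp7 (fun s => chk (uent L5548 s)) 0 = true := by decide +kernel
theorem p5548 : PrV chk L5548 := leafV c5548

theorem c5549 : lp7 (fun s => chk (uent L5549 s)) 0 = true := by decide +kernel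
theorem p5549 : PrV chk L5549 := leafV c5549

theorem c5550 : lp7 (fun s => chk (uent L5550 s)) 0 = true := by decide +kernel
theorem p5550 : PrV chk L5550 := leafV c5550

theorem c5551 : lp7 (fun s => chk (uent L5551 s)) 0 = true := by decide +kernel
theorem p5551 : PrV chk L5551 := leafV c5551

theorem c5552 : lp7 (fun s => chk (uent L5552 s)) 0 = true := by decide +kernel
theorem p5552 : PrV chk L5552 := leafV c5552

theorem c5553 : lp7 (fun s => chk (uent L5553 s)) 0 = true := by decide +kernel
theorem p5553 : PrV chk L5553 := leafV c5553

theorem c5554 : lp7 (fun s => chk (uent L5554 s)) 0 = true := by decide +kernel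
theorem p5554 : PrV chk L5554 := leafV c5554

theorem c5555 : lp7 (fun s => chk (uent L5555 s)) 0 = true := by decide +kernel
theorem p5555 : PrV chk L5555 := leafV c5555

theorem c5556 : lp7 (fun s => chk (uent L5556 s)) 0 = true := by decide +kernel
theorem p5556 : PrV chk L5556 := leafV c5556

theorem c5557 : lp7 (fun s => chk (uent L5557 s)) 0 = true := by decide +kernel
theorem p5557 : PrV chk L5557 := leafV c5557

theorem c5558 : lp7 (fun s => chk (uent L5558 s)) 0 = true := by decide +kernel
theorem p5558 : PrV chk L5558 := leafV c5558

theorem c5559 : lp7 (fun s => chk (uent L5559 s)) 0 = true := by decide +kernel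
theorem p5559 : PrV chk L5559 := leafV c5559

theorem c5560 : lp7 (fun s => chk (uent L5560 s)) 0 = true := by decide +kernel
theorem p5560 : PrV chk L5560 := leafV c5560

theorem c5561 : lp7 (fun s => chk (uent L5561 s)) 0 = true := by decide +kernel
theorem p5561 : PrV chk L5561 := leafV c5561

theorem c5562 : lp7 (fun s => chk (uent L5562 s)) 0 = true := by decide +kernel
theorem p5562 : PrV chk L5562 := leafV c5562

theorem c5563 : lp7 (fun s => chk (uent L5563 s)) 0 = true := by decide +kernel
theorem p5563 : PrV chk L5563 := leafV c5563

theorem c5564 : lp7 (fun s => chk (uent L5564 s)) 0 = true := by decide +kernel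
theorem p5564 : PrV chk L5564 := leafV c5564

theorem c5565 : lp7 (fun s => chk (uent L5565 s)) 0 = true := by decide +kernel
theorem p5565 : PrV chk L5565 := leafV c5565

theorem c5566 : lp7 (fun s => chk (uent L5566 s)) 0 = true := by decide +kernel
theorem p5566 : PrV chk L5566 := leafV c5566

theorem c5567 : lp7 (fun s => chk (uent L5567 s)) 0 = true := by decide +kernel
theorem p5567 : PrV chk L5567 := leafV c5567

end Pool.Agent.ad013a.W
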