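import Pool.Agent.H.MP_ad013a_pr.h63w.A.T
import Pool.Agent.H.MP_ad013a_pr.h63w.VLoop

namespace Pool.Agent.ad013a.W

theorem c5568 : lp7 (fun s => chk (uent L5568 s)) 0 = true := by decide +kernel
theorem p5568 : PrV chk L5568 := leafV c5568

theorem c5569 : lp7 (fun s => chk (uent L5569 s)) 0 = true := by decide +kernel
theorem p5569 : PrV chk L5569 := leafV c5569

theorem c5570 : lp7 (fun s => chk (uent L5570 s)) 0 = true := by decide +kernel
theorem p5570 : PrV chk L5570 := leafV c5570

theorem c5571 : lp7 (fun s => chk (uent L5571 s)) 0 = true := by decide +kernel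
theorem p5571 : PrV chk L5571 := leafV c5571

theorem c5572 : lp7 (fun s => chk (uent L5572 s)) 0 = true := by decide +kernel
theorem p5572 : PrV chk L5572 := leafV c5572

theorem c5573 : lp7 (fun s => chk (uent L5573 s)) 0 = true := by decide +kernel
theorem p5573 : PrV chk L5573 := leafV c5573

theorem c5574 : lp7 (fun s => chk (uent L5574 s)) 0 = true := by decide +kernel
theorem p5574 : PrV chk L5574 := leafV c5574

theorem c5575 : lp7 (fun s => chk (uent L5575 s)) 0 = true := by decide +kernel
theorem p5575 : PrV chk L5575 := leafV c5575

theorem c5576 : lp7 (fun s => chk (uent L5576 s)) 0 = true := by decide +kernel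
theorem p5576 : PrV chk L5576 := leafV c5576

theorem c5577 : lp7 (fun s => chk (uent L5577 s)) 0 = true := by decide +kernel
theorem p5577 : PrV chk L5577 := leafV c5577

theorem c5578 : lp7 (fun s => chk (uent L5578 s)) 0 = true := by decide +kernel
theorem p5578 : PrV chk L5578 := leafV c5578

theorem c5579 : lp7 (fun s => chk (uent L5579 s)) 0 = true := by decide +kernel
theorem p5579 : PrV chk L5579 := leafV c5579

theorem c5580 : lp7 (fun s => chk (uent L5580 s)) 0 = true := by decide +kernel
theorem p5580 : PrV chk L5580 := leafV c5580

theorem c5581 : lp7 (fun s => chk (uent L5581 s)) 0 = true := by decide +kernel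
theorem p5581 : PrV chk L5581 := leafV c5581

theorem c5582 : lp7 (fun s => chk (uent L5582 s)) 0 = true := by decide +kernel
theorem p5582 : PrV chk L5582 := leafV c5582

theorem c5583 : lp7 (fun s => chk (uent L5583 s)) 0 = true := by decide +kernel
theorem p5583 : PrV chk L5583 := leafV c5583

theorem c5584 : lp7 (fun s => chk (uent L5584 s)) 0 = true := by decide +kernel
theorem p5584 : PrV chk L5584 := leafV c5584

theorem c5585 : lp7 (fun s => chk (uent L5585 s)) 0 = true := by decide +kernel
theorem p5585 : PrV chk L5585 := leafV c5585

theorem c5586 : lp7 (fun s => chk (uent L5586 s)) 0 = true := by decide +kernel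
theorem p5586 : PrV chk L5586 := leafV c5586

theorem c5587 : lp7 (fun s => chk (uent L5587 s)) 0 = true := by decide +kernel
theorem p5587 : PrV chk L5587 := leafV c5587

theorem c5588 : lp7 (fun s => chk (uent L5588 s)) 0 = true := by decide +kernel
theorem p5588 : PrV chk L5588 := leafV c5588

theorem c5589 : lp7 (fun s => chk (uent L5589 s)) 0 = true := by decide +kernel
theorem p5589 : PrV chk L5589 := leafV c5589

theorem c5590 : lp7 (fun s => chk (uent L5590 s)) 0 = true := by decide +kernel
theorem p5590 : PrV chk L5590 := leafV c5590

theorem c5591 : lp7 (fun s => chk (uent L5591 s)) 0 = true := by decide +kernel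
theorem p5591 : PrV chk L5591 := leafV c5591

theorem c5592 : lp7 (fun s => chk (uent L5592 s)) 0 = true := by decide +kernel
theorem p5592 : PrV chk L5592 := leafV c5592

theorem c5593 : lp7 (fun s => chk (uent L5593 s)) 0 = true := by decide +kernel
theorem p5593 : PrV chk L5593 := leafV c5593

theorem c5594 : lp7 (fun s => chk (uent L5594 s)) 0 = true := by decide +kernel
theorem p5594 : PrV chk L5594 := leafV c5594

theorem c5595 : lp7 (fun s => chk (uent L5595 s)) 0 = true := by decide +kernel
theorem p5595 : PrV chk L5595 := leafV c5595

theorem c5596 : lp7 (fun s => chk (uent L5596 s)) 0 = true := by decide +kernel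
theorem p5596 : PrV chk L5596 := leafV c5596

theorem c5597 : lp7 (fun s => chk (uent L5597 s)) 0 = true := by decide +kernel
theorem p5597 : PrV chk L5597 := leafV c5597

theorem c5598 : lp7 (fun s => chk (uent L5598 s)) 0 = true := by decide +kernel
theorem p5598 : PrV chk L5598 := leafV c5598

theorem c5599 : lp7 (fun s => chk (uent L5599 s)) 0 = true := by decide +kernel
theorem p5599 : PrV chk L5599 := leafV c5599

theorem c5600 : lp7 (fun s => chk (uent L5600 s)) 0 = true := by decide +kernel
theorem p5600 : PrV chk L5600 := leafV c5600

theorem c5601 : lp7 (fun s => chk (uent L5601 s)) 0 = true := by decide +kernel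
theorem p5601 : PrV chk L5601 := leafV c5601

theorem c5602 : lp7 (fun s => chk (uent L5602 s)) 0 = true := by decide +kernel
theorem p5602 : PrV chk L5602 := leafV c5602

theorem c5603 : lp7 (fun s => chk (uent L5603 s)) 0 = true := by decide +kernel
theorem p5603 : PrV chk L5603 := leafV c5603

theorem c5604 : lp7 (fun s => chk (uent L5604 s)) 0 = true := by decide +kernel
theorem p5604 : PrV chk L5604 := leafV c5604

theorem c5605 : lp7 (fun s => chk (uent L5605 s)) 0 = true := by decide +kernel
theorem p5605 : PrV chk L5605 := leafV c5605

theorem c5606 : lp7 (fun s => chk (uent L5606 s)) 0 = true := by decide +kernel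
theorem p5606 : PrV chk L5606 := leafV c5606

theorem c5607 : lp7 (fun s => chk (uent L5607 s)) 0 = true := by decide +kernel
theorem p5607 : PrV chk L5607 := leafV c5607

theorem c5608 : lp7 (fun s => chk (uent L5608 s)) 0 = true := by decide +kernel
theorem p5608 : PrV chk L5608 := leafV c5608

theorem c5609 : lp7 (fun s => chk (uent L5609 s)) 0 = true := by decide +kernel
theorem p5609 : PrV chk L5609 := leafV c5609

theorem c5610 : lp7 (fun s => chk (uent L5610 s)) 0 = true := by decide +kernel
theorem p5610 : PrV chk L5610 := leafV c5610

theorem c5611 : lp7 (fun s => chk (uent L5611 s)) 0 = true := by decide +kernel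
theorem p5611 : PrV chk L5611 := leafV c5611

theorem c5612 : lp7 (fun s => chk (uent L5612 s)) 0 = true := by decide +kernel
theorem p5612 : PrV chk L5612 := leafV c5612

theorem c5613 : lp7 (fun s => chk (uent L5613 s)) 0 = true := by decide +kernel
theorem p5613 : PrV chk L5613 := leafV c5613

theorem c5614 : lp7 (fun s => chk (uent L5614 s)) 0 = true := by decide +kernel
theorem p5614 : PrV chk L5614 := leafV c5614

theorem c5615 : lp7 (fun s => chk (uent L5615 s)) 0 = true := by decide +kernel
theorem p5615 : PrV chk L5615 := leafV c5615

theorem c5616 : lp7 (fun s => chk (uent L5616 s)) 0 = true := by decide +kernel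
theorem p5616 : PrV chk L5616 := leafV c5616

theorem c5617 : lp7 (fun s => chk (uent L5617 s)) 0 = true := by decide +kernel
theorem p5617 : PrV chk L5617 := leafV c5617

theorem c5618 : lp7 (fun s => chk (uent L5618 s)) 0 = true := by decide +kernel
theorem p5618 : PrV chk L5618 := leafV c5618

theorem c5619 : lp7 (fun s => chk (uent L5619 s)) 0 = true := by decide +kernel
theorem p5619 : PrV chk L5619 := leafV c5619

theorem c5620 : lp7 (fun s => chk (uent L5620 s)) 0 = true := by decide +kernel
theorem p5620 : PrV chk L5620 := leafV c5620

theorem c5621 : lp7 (fun s => chk (uent L5621 s)) 0 = true := by decide +kernel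
theorem p5621 : PrV chk L5621 := leafV c5621

theorem c5622 : lp7 (fun s => chk (uent L5622 s)) 0 = true := by decide +kernel
theorem p5622 : PrV chk L5622 := leafV c5622

theorem c5623 : lp7 (fun s => chk (uent L5623 s)) 0 = true := by decide +kernel
theorem p5623 : PrV chk L5623 := leafV c5623

theorem c5624 : lp7 (fun s => chk (uent L5624 s)) 0 = true := by decide +kernel
theorem p5624 : PrV chk L5624 := leafV c5624

theorem c5625 : lp7 (fun s => chk (uent L5625 s)) 0 = true := by decide +kernel
theorem p5625 : PrV chk L5625 := leafV c5625

theorem c5626 : lp7 (fun s => chk (uent L5626 s)) 0 = true := by decide +kernel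
theorem p5626 : PrV chk L5626 := leafV c5626

theorem c5627 : lp7 (fun s => chk (uent L5627 s)) 0 = true := by decide +kernel
theorem p5627 : PrV chk L5627 := leafV c5627

theorem c5628 : lp7 (fun s => chk (uent L5628 s)) 0 = true := by decide +kernel
theorem p5628 : PrV chk L5628 := leafV c5628

theorem c5629 : lp7 (fun s => chk (uent L5629 s)) 0 = true := by decide +kernel
theorem p5629 : PrV chk L5629 := leafV c5629

theorem c5630 : lp7 (fun s => chk (uent L5630 s)) 0 = true := by decide +kernel
theorem p5630 : PrV chk L5630 := leafV c5630

theorem c5631 : lp7 (fun s => chk (uent L5631 s)) 0 = true := by decide +kernel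
theorem p5631 : PrV chk L5631 := leafV c5631

theorem c5632 : lp7 (fun s => chk (uent L5632 s)) 0 = true := by decide +kernel
theorem p5632 : PrV chk L5632 := leafV c5632

theorem c5633 : lp7 (fun s => chk (uent L5633 s)) 0 = true := by decide +kernel
theorem p5633 : PrV chk L5633 := leafV c5633

theorem c5634 : lp7 (fun s => chk (uent L5634 s)) 0 = true := by decide +kernel
theorem p5634 : PrV chk L5634 := leafV c5634

theorem c5635 : lp7 (fun s => chk (uent L5635 s)) 0 = true := by decide +kernel
theorem p5635 : PrV chk L5635 := leafV c5635

theorem c5636 : lp7 (fun s => chk (uent L5636 s)) 0 = true := by decide +kernel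
theorem p5636 : PrV chk L5636 := leafV c5636

theorem c5637 : lp7 (fun s => chk (uent L5637 s)) 0 = true := by decide +kernel
theorem p5637 : PrV chk L5637 := leafV c5637

theorem c5638 : lp7 (fun s => chk (uent L5638 s)) 0 = true := by decide +kernel
theorem p5638 : PrV chk L5638 := leafV c5638

theorem c5639 : lp7 (fun s => chk (uent L5639 s)) 0 = true := by decide +kernel
theorem p5639 : PrV chk L5639 := leafV c5639

theorem c5640 : lp7 (fun s => chk (uent L5640 s)) 0 = true := by decide +kernel
theorem p5640 : PrV chk L5640 := leafV c5640

theorem c5641 : lp7 (fun s => chk (uent L5641 s)) 0 = true := by decide +kernel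
theorem p5641 : PrV chk L5641 := leafV c5641

theorem c5642 : lp7 (fun s => chk (uent L5642 s)) 0 = true := by decide +kernel
theorem p5642 : PrV chk L5642 := leafV c5642

theorem c5643 : lp7 (fun s => chk (uent L5643 s)) 0 = true := by decide +kernel
theorem p5643 : PrV chk L5643 := leafV c5643

theorem c5644 : lp7 (fun s => chk (uent L5644 s)) 0 = true := by decide +kernel
theorem p5644 : PrV chk L5644 := leafV c5644

theorem c5645 : lp7 (fun s => chk (uent L5645 s)) 0 = true := by decide +kernel
theorem p5645 : PrV chk L5645 := leafV c5645

theorem c5646 : lp7 (fun s => chk (uent L5646 s)) 0 = true := by decide +kernel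
theorem p5646 : PrV chk L5646 := leafV c5646

theorem c5647 : lp7 (fun s => chk (uent L5647 s)) 0 = true := by decide +kernel
theorem p5647 : PrV chk L5647 := leafV c5647

theorem c5648 : lp7 (fun s => chk (uent L5648 s)) 0 = true := by decide +kernel
theorem p5648 : PrV chk L5648 := leafV c5648

theorem c5649 : lp7 (fun s => chk (uent L5649 s)) 0 = true := by decide +kernel
theorem p5649 : PrV chk L5649 := leafV c5649

theorem c5650 : lp7 (fun s => chk (uent L5650 s)) 0 = true := by decide +kernel
theorem p5650 : PrV chk L5650 := leafV c5650

theorem c5651 : lp7 (fun s => chk (uent L5651 s)) 0 = true := by decide +kernel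
theorem p5651 : PrV chk L5651 := leafV c5651

theorem c5652 : lp7 (fun s => chk (uent L5652 s)) 0 = true := by decide +kernel
theorem p5652 : PrV chk L5652 := leafV c5652

theorem c5653 : lp7 (fun s => chk (uent L5653 s)) 0 = true := by decide +kernel
theorem p5653 : PrV chk L5653 := leafV c5653

theorem c5654 : lp7 (fun s => chk (uent L5654 s)) 0 = true := by decide +kernel
theorem p5654 : PrV chk L5654 := leafV c5654

theorem c5655 : lp7 (fun s => chk (uent L5655 s)) 0 = true := by decide +kernel
theorem p5655 : PrV chk L5655 := leafV c5655

theorem c5656 : lp7 (fun s => chk (uent L5656 s)) 0 = true := by decide +kernel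
theorem p5656 : PrV chk L5656 := leafV c5656

theorem c5657 : lp7 (fun s => chk (uent L5657 s)) 0 = true := by decide +kernel
theorem p5657 : PrV chk L5657 := leafV c5657

theorem c5658 : lp7 (fun s => chk (uent L5658 s)) 0 = true := by decide +kernel
theorem p5658 : PrV chk L5658 := leafV c5658

theorem c5659 : lp7 (fun s => chk (uent L5659 s)) 0 = true := by decide +kernel
theorem p5659 : PrV chk L5659 := leafV c5659

theorem c5660 : lp7 (fun s => chk (uent L5660 s)) 0 = true := by decide +kernel
theorem p5660 : PrV chk L5660 := leafV c5660

theorem c5661 : lp7 (fun s => chk (uent L5661 s)) 0 = true := by decide +kernel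
theorem p5661 : PrV chk L5661 := leafV c5661

theorem c5662 : lp7 (fun s => chk (uent L5662 s)) 0 = true := by decide +kernel
theorem p5662 : PrV chk L5662 := leafV c5662

theorem c5663 : lp7 (fun s => chk (uent L5663 s)) 0 = true := by decide +kernel
theorem p5663 : PrV chk L5663 := leafV c5663

theorem c5664 : lp7 (fun s => chk (uent L5664 s)) 0 = true := by decide +kernel
theorem p5664 : PrV chk L5664 := leafV c5664

theorem c5665 : lp7 (fun s => chk (uent L5665 s)) 0 = true := by decide +kernel
theorem p5665 : PrV chk L5665 := leafV c5665

theorem c5666 : lp7 (fun s => chk (uent L5666 s)) 0 = true := by decide +kernel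
theorem p5666 : PrV chk L5666 := leafV c5666

theorem c5667 : lp7 (fun s => chk (uent L5667 s)) 0 = true := by decide +kernel
theorem p5667 : PrV chk L5667 := leafV c5667

theorem c5668 : lp7 (fun s => chk (uent L5668 s)) 0 = true := by decide +kernel
theorem p5668 : PrV chk L5668 := leafV c5668

theorem c5669 : lp7 (fun s => chk (uent L5669 s)) 0 = true := by decide +kernel
theorem p5669 : PrV chk L5669 := leafV c5669

theorem c5670 : lp7 (fun s => chk (uent L5670 s)) 0 = true := by decide +kernel
theorem p5670 : PrV chk L5670 := leafV c5670

theorem c5671 : lp7 (fun s => chk (uent L5671 s)) 0 = true := by decide +kernel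
theorem p5671 : PrV chk L5671 := leafV c5671

theorem c5672 : lp7 (fun s => chk (uent L5672 s)) 0 = true := by decide +kernel
theorem p5672 : PrV chk L5672 := leafV c5672

theorem c5673 : lp7 (fun s => chk (uent L5673 s)) 0 = true := by decide +kernel
theorem p5673 : PrV chk L5673 := leafV c5673

theorem c5674 : lp7 (fun s => chk (uent L5674 s)) 0 = true := by decide +kernel
theorem p5674 : PrV chk L5674 := leafV c5674

theorem c5675 : lp7 (fun s => chk (uent L5675 s)) 0 = true := by decide +kernel
theorem p5675 : PrV chk L5675 := leafV c5675

theorem c5676 : lp7 (fun s => chk (uent L5676 s)) 0 = true := by decide +kernel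
theorem p5676 : PrV chk L5676 := leafV c5676

theorem c5677 : lp7 (fun s => chk (uent L5677 s)) 0 = true := by decide +kernel
theorem p5677 : PrV chk L5677 := leafV c5677

theorem c5678 : lp7 (fun s => chk (uent L5678 s)) 0 = true := by decide +kernel
theorem p5678 : PrV chk L5678 := leafV c5678

theorem c5679 : lp7 (fun s => chk (uent L5679 s)) 0 = true := by decide +kernel
theorem p5679 : PrV chk L5679 := leafV c5679

theorem c5680 : lp7 (fun s => chk (uent L5680 s)) 0 = true := by decide +kernel
theorem p5680 : PrV chk L5680 := leafV c5680

theorem c5681 : lp7 (fun s => chk (uent L5681 s)) 0 = true := by decide +kernel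
theorem p5681 : PrV chk L5681 := leafV c5681

theorem c5682 : lp7 (fun s => chk (uent L5682 s)) 0 = true := by decide +kernel
theorem p5682 : PrV chk L5682 := leafV c5682

theorem c5683 : lp7 (fun s => chk (uent L5683 s)) 0 = true := by decide +kernel
theorem p5683 : PrV chk L5683 := leafV c5683

theorem c5684 : lp7 (fun s => chk (uent L5684 s)) 0 = true := by decide +kernel
theorem p5684 : PrV chk L5684 := leafV c5684

theorem c5685 : lp7 (fun s => chk (uent L5685 s)) 0 = true := by decide +kernel
theorem p5685 : PrV chk L5685 := leafV c5685

theorem c5686 : lp7 (fun s => chk (uent L5686 s)) 0 = true := by decide +kernel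
theorem p5686 : PrV chk L5686 := leafV c5686

theorem c5687 : lp7 (fun s => chk (uent L5687 s)) 0 = true := by decide +kernel
theorem p5687 : PrV chk L5687 := leafV c5687

theorem c5688 : lp7 (fun s => chk (uent L5688 s)) 0 = true := by decide +kernel
theorem p5688 : PrV chk L5688 := leafV c5688

theorem c5689 : lp7 (fun s => chk (uent L5689 s)) 0 = true := by decide +kernel
theorem p5689 : PrV chk L5689 := leafV c5689

theorem c5690 : lp7 (fun s => chk (uent L5690 s)) 0 = true := by decide +kernel
theorem p5690 : PrV chk L5690 := leafV c5690

theorem c5691 : lp7 (fun s => chk (uent L5691 s)) 0 = true := by decide +kernel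
theorem p5691 : PrV chk L5691 := leafV c5691

theorem c5692 : lp7 (fun s => chk (uent L5692 s)) 0 = true := by decide +kernel
theorem p5692 : PrV chk L5692 := leafV c5692

theorem c5693 : lp7 (fun s => chk (uent L5693 s)) 0 = true := by decide +kernel
theorem p5693 : PrV chk L5693 := leafV c5693

theorem c5694 : lp7 (fun s => chk (uent L5694 s)) 0 = true := by decide +kernel
theorem p5694 : PrV chk L5694 := leafV c5694

theorem c5695 : lp7 (fun s => chk (uent L5695 s)) 0 = true := by decide +kernel
theorem p5695 : PrV chk L5695 := leafV c5695

theorem c5696 : lp7 (fun s => chk (uent L5696 s)) 0 = true := by decide +kernel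
theorem p5696 : PrV chk L5696 := leafV c5696

theorem c5697 : lp7 (fun s => chk (uent L5697 s)) 0 = true := by decide +kernel
theorem p5697 : PrV chk L5697 := leafV c5697

theorem c5698 : lp7 (fun s => chk (uent L5698 s)) 0 = true := by decide +kernel
theorem p5698 : PrV chk L5698 := leafV c5698

theorem c5699 : lp7 (fun s => chk (uent L5699 s)) 0 = true := by decide +kernel
theorem p5699 : PrV chk L5699 := leafV c5699

theorem c5700 : lp7 (fun s => chk (uent L5700 s)) 0 = true := by decide +kernel
theorem p5700 : PrV chk L5700 := leafV c5700

theorem c5701 : lp7 (fun s => chk (uent L5701 s)) 0 = true := by decide +kernel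
theorem p5701 : PrV chk L5701 := leafV c5701

theorem c5702 : lp7 (fun s => chk (uent L5702 s)) 0 = true := by decide +kernel
theorem p5702 : PrV chk L5702 := leafV c5702

theorem c5703 : lp7 (fun s => chk (uent L5703 s)) 0 = true := by decide +kernel
theorem p5703 : PrV chk L5703 := leafV c5703

theorem c5704 : lp7 (fun s => chk (uent L5704 s)) 0 = true := by decide +kernel
theorem p5704 : PrV chk L5704 := leafV c5704

theorem c5705 : lp7 (fun s => chk (uent L5705 s)) 0 = true := by decide +kernel
theorem p5705 : PrV chk L5705 := leafV c5705

theorem c5706 : lp7 (fun s => chk (uent L5706 s)) 0 = true := by decide +kernel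
theorem p5706 : PrV chk L5706 := leafV c5706

theorem c5707 : lp7 (fun s => chk (uent L5707 s)) 0 = true := by decide +kernel
theorem p5707 : PrV chk L5707 := leafV c5707

theorem c5708 : lp7 (fun s => chk (uent L5708 s)) 0 = true := by decide +kernel
theorem p5708 : PrV chk L5708 := leafV c5708

theorem c5709 : lp7 (fun s => chk (uent L5709 s)) 0 = true := by decide +kernel
theorem p5709 : PrV chk L5709 := leafV c5709

theorem c5710 : lp7 (fun s => chk (uent L5710 s)) 0 = true := by decide +kernel
theorem p5710 : PrV chk L5710 := leafV c5710

theorem c5711 : lp7 (fun s => chk (uent L5711 s)) 0 = true := by decide +kernel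
theorem p5711 : PrV chk L5711 := leafV c5711

theorem c5712 : lp7 (fun s => chk (uent L5712 s)) 0 = true := by decide +kernel
theorem p5712 : PrV chk L5712 := leafV c5712

theorem c5713 : lp7 (fun s => chk (uent L5713 s)) 0 = true := by decide +kernel
theorem p5713 : PrV chk L5713 := leafV c5713

theorem c5714 : lp7 (fun s => chk (uent L5714 s)) 0 = true := by decide +kernel
theorem p5714 : PrV chk L5714 := leafV c5714

theorem c5715 : lp7 (fun s => chk (uent L5715 s)) 0 = true := by decide +kernel
theorem p5715 : PrV chk L5715 := leafV c5715

theorem c5716 : lp7 (fun s => chk (uent L5716 s)) 0 = true := by decide +kernel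
theorem p5716 : PrV chk L5716 := leafV c5716

theorem c5717 : lp7 (fun s => chk (uent L5717 s)) 0 = true := by decide +kernel
theorem p5717 : PrV chk L5717 := leafV c5717

theorem c5718 : lp7 (fun s => chk (uent L5718 s)) 0 = true := by decide +kernel
theorem p5718 : PrV chk L5718 := leafV c5718

theorem c5719 : lp7 (fun s => chk (uent L5719 s)) 0 = true := by decide +kernel
theorem p5719 : PrV chk L5719 := leafV c5719

theorem c5720 : lp7 (fun s => chk (uent L5720 s)) 0 = true := by decide +kernel
theorem p5720 : PrV chk L5720 := leafV c5720

theorem c5721 : lp7 (fun s => chk (uent L5721 s)) 0 = true := by decide +kernel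
theorem p5721 : PrV chk L5721 := leafV c5721

theorem c5722 : lp7 (fun s => chk (uent L5722 s)) 0 = true := by decide +kernel
theorem p5722 : PrV chk L5722 := leafV c5722

theorem c5723 : lp7 (fun s => chk (uent L5723 s)) 0 = true := by decide +kernel
theorem p5723 : PrV chk L5723 := leafV c5723

theorem c5724 : lp7 (fun s => chk (uent L5724 s)) 0 = true := by decide +kernel
theorem p5724 : PrV chk L5724 := leafV c5724

theorem c5725 : lp7 (fun s => chk (uent L5725 s)) 0 = true := by decide +kernel
theorem p5725 : PrV chk L5725 := leafV c5725

theorem c5726 : lp7 (fun s => chk (uent L5726 s)) 0 = true := by decide +kernel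
theorem p5726 : PrV chk L5726 := leafV c5726

theorem c5727 : lp7 (fun s => chk (uent L5727 s)) 0 = true := by decide +kernel
theorem p5727 : PrV chk L5727 := leafV c5727

theorem c5728 : lp7 (fun s => chk (uent L5728 s)) 0 = true := by decide +kernel
theorem p5728 : PrV chk L5728 := leafV c5728

theorem c5729 : lp7 (fun s => chk (uent L5729 s)) 0 = true := by decide +kernel
theorem p5729 : PrV chk L5729 := leafV c5729

theorem c5730 : lp7 (fun s => chk (uent L5730 s)) 0 = true := by decide +kernel
theorem p5730 : PrV chk L5730 := leafV c5730

theorem c5731 : lp7 (fun s => chk (uent L5731 s)) 0 = true := by decide +kernel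
theorem p5731 : PrV chk L5731 := leafV c5731

theorem c5732 : lp7 (fun s => chk (uent L5732 s)) 0 = true := by decide +kernel
theorem p5732 : PrV chk L5732 := leafV c5732

theorem c5733 : lp7 (fun s => chk (uent L5733 s)) 0 = true := by decide +kernel
theorem p5733 : PrV chk L5733 := leafV c5733

theorem c5734 : lp7 (fun s => chk (uent L5734 s)) 0 = true := by decide +kernel
theorem p5734 : PrV chk L5734 := leafV c5734

theorem c5735 : lp7 (fun s => chk (uent L5735 s)) 0 = true := by decide +kernel
theorem p5735 : PrV chk L5735 := leafV c5735

theorem c5736 : lp7 (fun s => chk (uent L5736 s)) 0 = true := by decide +kernel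
theorem p5736 : PrV chk L5736 := leafV c5736

theorem c5737 : lp7 (fun s => chk (uent L5737 s)) 0 = true := by decide +kernel
theorem p5737 : PrV chk L5737 := leafV c5737

theorem c5738 : lp7 (fun s => chk (uent L5738 s)) 0 = true := by decide +kernel
theorem p5738 : PrV chk L5738 := leafV c5738

theorem c5739 : lp7 (fun s => chk (uent L5739 s)) 0 = true := by decide +kernel
theorem p5739 : PrV chk L5739 := leafV c5739

theorem c5740 : lp7 (fun s => chk (uent L5740 s)) 0 = true := by decide +kernel
theorem p5740 : PrV chk L5740 := leafV c5740

theorem c5741 : lp7 (fun s => chk (uent L5741 s)) 0 = true := by decide +kernel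
theorem p5741 : PrV chk L5741 := leafV c5741

theorem c5742 : lp7 (fun s => chk (uent L5742 s)) 0 = true := by decide +kernel
theorem p5742 : PrV chk L5742 := leafV c5742

theorem c5743 : lp7 (fun s => chk (uent L5743 s)) 0 = true := by decide +kernel
theorem p5743 : PrV chk L5743 := leafV c5743

theorem c5744 : lp7 (fun s => chk (uent L5744 s)) 0 = true := by decide +kernel
theorem p5744 : PrV chk L5744 := leafV c5744

theorem c5745 : lp7 (fun s => chk (uent L5745 s)) 0 = true := by decide +kernel
theorem p5745 : PrV chk L5745 := leafV c5745

theorem c5746 : lp7 (fun s => chk (uent L5746 s)) 0 = true := by decide +kernel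
theorem p5746 : PrV chk L5746 := leafV c5746

theorem c5747 : lp7 (fun s => chk (uent L5747 s)) 0 = true := by decide +kernel
theorem p5747 : PrV chk L5747 := leafV c5747

theorem c5748 : lp7 (fun s => chk (uent L5748 s)) 0 = true := by decide +kernel
theorem p5748 : PrV chk L5748 := leafV c5748

theorem c5749 : lp7 (fun s => chk (uent L5749 s)) 0 = true := by decide +kernel
theorem p5749 : PrV chk L5749 := leafV c5749

theorem c5750 : lp7 (fun s => chk (uent L5750 s)) 0 = true := by decide +kernel
theorem p5750 : PrV chk L5750 := leafV c5750

theorem c5751 : lp7 (fun s => chk (uent L5751 s)) 0 = true := by decide +kernel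
theorem p5751 : PrV chk L5751 := leafV c5751

theorem c5752 : lp7 (fun s => chk (uent L5752 s)) 0 = true := by decide +kernel
theorem p5752 : PrV chk L5752 := leafV c5752

theorem c5753 : lp7 (fun s => chk (uent L5753 s)) 0 = true := by decide +kernel
theorem p5753 : PrV chk L5753 := leafV c5753

theorem c5754 : lp7 (fun s => chk (uent L5754 s)) 0 = true := by decide +kernel
theorem p5754 : PrV chk L5754 := leafV c5754

theorem c5755 : lp7 (fun s => chk (uent L5755 s)) 0 = true := by decide +kernel
theorem p5755 : PrV chk L5755 := leafV c5755

theorem c5756 : lp7 (fun s => chk (uent L5756 s)) 0 = true := by decide +kernel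
theorem p5756 : PrV chk L5756 := leafV c5756

theorem c5757 : lp7 (fun s => chk (uent L5757 s)) 0 = true := by decide +kernel
theorem p5757 : PrV chk L5757 := leafV c5757

theorem c5758 : lp7 (fun s => chk (uent L5758 s)) 0 = true := by decide +kernel
theorem p5758 : PrV chk L5758 := leafV c5758

theorem c5759 : lp7 (fun s => chk (uent L5759 s)) 0 = true := by decide +kernel
theorem p5759 : PrV chk L5759 := leafV c5759

end Pool.Agent.ad013a.W
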