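import Pool.Agent.H.MP_ad013a_pr.h63w.A.T
import Pool.Agent.H.MP_ad013a_pr.h63w.VLoop

namespace Pool.Agent.ad013a.W

theorem c576 : lp7 (fun s => chk (uent L576 s)) 0 = true := by decide +kernel
theorem p576 : PrV chk L576 := leafV c576

theorem c577 : lp7 (fun s => chk (uent L577 s)) 0 = true := by decide +kernel
theorem p577 : PrV chk L577 := leafV c577

theorem c578 : lp7 (fun s => chk (uent L578 s)) 0 = true := by decide +kernel
theorem p578 : PrV chk L578 := leafV c578

theorem c579 : lp7 (fun s => chk (uent L579 s)) 0 = true := by decide +kernel
theorem p579 : PrV chk L579 := leafV c579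

theorem c580 : lp7 (fun s => chk (uent L580 s)) 0 = true := by decide +kernel
theorem p580 : PrV chk L580 := leafV c580

theorem c581 : lp7 (fun s => chk (uent L581 s)) 0 = true := by decide +kernel
theorem p581 : PrV chk L581 := leafV c581

theorem c582 : lp7 (fun s => chk (uent L582 s)) 0 = true := by decide +kernel
theorem p582 : PrV chk L582 := leafV c582

theorem c583 : lp7 (fun s => chk (uent L583 s)) 0 = true := by decide +kernel
theorem p583 : PrV chk L583 := leafV c583

theorem c584 : lp7 (fun s => chk (uent L584 s)) 0 = true := by decide +kernel
theorem p584 : PrV chk L584 := leafV c584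

theorem c585 : lp7 (fun s => chk (uent L585 s)) 0 = true := by decide +kernel
theorem p585 : PrV chk L585 := leafV c585

theorem c586 : lp7 (fun s => chk (uent L586 s)) 0 = true := by decide +kernel
theorem p586 : PrV chk L586 := leafV c586

theorem c587 : lp7 (fun s => chk (uent L587 s)) 0 = true := by decide +kernel
theorem p587 : PrV chk L587 := leafV c587

theorem c588 : lp7 (fun s => chk (uent L588 s)) 0 = true := by decide +kernel
theorem p588 : PrV chk L588 := leafV c588

theorem c589 : lp7 (fun s => chk (uent L589 s)) 0 = true := by decide +kernel
theorem p589 : PrV chk L589 := leafV c589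

theorem c590 : lp7 (fun s => chk (uent L590 s)) 0 = true := by decide +kernel
theorem p590 : PrV chk L590 := leafV c590

theorem c591 : lp7 (fun s => chk (uent L591 s)) 0 = true := by decide +kernel
theorem p591 : PrV chk L591 := leafV c591

theorem c592 : lp7 (fun s => chk (uent L592 s)) 0 = true := by decide +kernel
theorem p592 : PrV chk L592 := leafV c592

theorem c593 : lp7 (fun s => chk (uent L593 s)) 0 = true := by decide +kernel
theorem p593 : PrV chk L593 := leafV c593

theorem c594 : lp7 (fun s => chk (uent L594 s)) 0 = true := by decide +kernel
theorem p594 : PrV chk L594 := leafV c594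

theorem c595 : lp7 (fun s => chk (uent L595 s)) 0 = true := by decide +kernel
theorem p595 : PrV chk L595 := leafV c595

theorem c596 : lp7 (fun s => chk (uent L596 s)) 0 = true := by decide +kernel
theorem p596 : PrV chk L596 := leafV c596

theorem c597 : lp7 (fun s => chk (uent L597 s)) 0 = true := by decide +kernel
theorem p597 : PrV chk L597 := leafV c597

theorem c598 : lp7 (fun s => chk (uent L598 s)) 0 = true := by decide +kernel
theorem p598 : PrV chk L598 := leafV c598

theorem c599 : lp7 (fun s => chk (uent L599 s)) 0 = true := by decide +kernel
theorem p599 : PrV chk L599 := leafV c599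

theorem c600 : lp7 (fun s => chk (uent L600 s)) 0 = true := by decide +kernel
theorem p600 : PrV chk L600 := leafV c600

theorem c601 : lp7 (fun s => chk (uent L601 s)) 0 = true := by decide +kernel
theorem p601 : PrV chk L601 := leafV c601

theorem c602 : lp7 (fun s => chk (uent L602 s)) 0 = true := by decide +kernel
theorem p602 : PrV chk L602 := leafV c602

theorem c603 : lp7 (fun s => chk (uent L603 s)) 0 = true := by decide +kernel
theorem p603 : PrV chk L603 := leafV c603

theorem c604 : lp7 (fun s => chk (uent L604 s)) 0 = true := by decide +kernel
theorem p604 : PrV chk L604 := leafV c604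

theorem c605 : lp7 (fun s => chk (uent L605 s)) 0 = true := by decide +kernel
theorem p605 : PrV chk L605 := leafV c605

theorem c606 : lp7 (fun s => chk (uent L606 s)) 0 = true := by decide +kernel
theorem p606 : PrV chk L606 := leafV c606

theorem c607 : lp7 (fun s => chk (uent L607 s)) 0 = true := by decide +kernel
theorem p607 : PrV chk L607 := leafV c607

theorem c608 : lp7 (fun s => chk (uent L608 s)) 0 = true := by decide +kernel
theorem p608 : PrV chk L608 := leafV c608

theorem c609 : lp7 (fun s => chk (uent L609 s)) 0 = true := by decide +kernel
theorem p609 : PrV chk L609 := leafV c609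

theorem c610 : lp7 (fun s => chk (uent L610 s)) 0 = true := by decide +kernel
theorem p610 : PrV chk L610 := leafV c610

theorem c611 : lp7 (fun s => chk (uent L611 s)) 0 = true := by decide +kernel
theorem p611 : PrV chk L611 := leafV c611

theorem c612 : lp7 (fun s => chk (uent L612 s)) 0 = true := by decide +kernel
theorem p612 : PrV chk L612 := leafV c612

theorem c613 : lp7 (fun s => chk (uent L613 s)) 0 = true := by decide +kernel
theorem p613 : PrV chk L613 := leafV c613

theorem c614 : lp7 (fun s => chk (uent L614 s)) 0 = true := by decide +kernel
theorem p614 : PrV chk L614 := leafV c614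

theorem c615 : lp7 (fun s => chk (uent L615 s)) 0 = true := by decide +kernel
theorem p615 : PrV chk L615 := leafV c615

theorem c616 : lp7 (fun s => chk (uent L616 s)) 0 = true := by decide +kernel
theorem p616 : PrV chk L616 := leafV c616

theorem c617 : lp7 (fun s => chk (uent L617 s)) 0 = true := by decide +kernel
theorem p617 : PrV chk L617 := leafV c617

theorem c618 : lp7 (fun s => chk (uent L618 s)) 0 = true := by decide +kernel
theorem p618 : PrV chk L618 := leafV c618

theorem c619 : lp7 (fun s => chk (uent L619 s)) 0 = true := by decide +kernel
theorem p619 : PrV chk L619 := leafV c619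

theorem c620 : lp7 (fun s => chk (uent L620 s)) 0 = true := by decide +kernel
theorem p620 : PrV chk L620 := leafV c620

theorem c621 : lp7 (fun s => chk (uent L621 s)) 0 = true := by decide +kernel
theorem p621 : PrV chk L621 := leafV c621

theorem c622 : lp7 (fun s => chk (uent L622 s)) 0 = true := by decide +kernel
theorem p622 : PrV chk L622 := leafV c622

theorem c623 : lp7 (fun s => chk (uent L623 s)) 0 = true := by decide +kernel
theorem p623 : PrV chk L623 := leafV c623

theorem c624 : lp7 (fun s => chk (uent L624 s)) 0 = true := by decide +kernel
theorem p624 : PrV chk L624 := leafV c624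

theorem c625 : lp7 (fun s => chk (uent L625 s)) 0 = true := by decide +kernel
theorem p625 : PrV chk L625 := leafV c625

theorem c626 : lp7 (fun s => chk (uent L626 s)) 0 = true := by decide +kernel
theorem p626 : PrV chk L626 := leafV c626

theorem c627 : lp7 (fun s => chk (uent L627 s)) 0 = true := by decide +kernel
theorem p627 : PrV chk L627 := leafV c627

theorem c628 : lp7 (fun s => chk (uent L628 s)) 0 = true := by decide +kernel
theorem p628 : PrV chk L628 := leafV c628

theorem c629 : lp7 (fun s => chk (uent L629 s)) 0 = true := by decide +kernel
theorem p629 : PrV chk L629 := leafV c629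

theorem c630 : lp7 (fun s => chk (uent L630 s)) 0 = true := by decide +kernel
theorem p630 : PrV chk L630 := leafV c630

theorem c631 : lp7 (fun s => chk (uent L631 s)) 0 = true := by decide +kernel
theorem p631 : PrV chk L631 := leafV c631

theorem c632 : lp7 (fun s => chk (uent L632 s)) 0 = true := by decide +kernel
theorem p632 : PrV chk L632 := leafV c632

theorem c633 : lp7 (fun s => chk (uent L633 s)) 0 = true := by decide +kernel
theorem p633 : PrV chk L633 := leafV c633

theorem c634 : lp7 (fun s => chk (uent L634 s)) 0 = true := by decide +kernel
theorem p634 : PrV chk L634 := leafV c634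

theorem c635 : lp7 (fun s => chk (uent L635 s)) 0 = true := by decide +kernel
theorem p635 : PrV chk L635 := leafV c635

theorem c636 : lp7 (fun s => chk (uent L636 s)) 0 = true := by decide +kernel
theorem p636 : PrV chk L636 := leafV c636

theorem c637 : lp7 (fun s => chk (uent L637 s)) 0 = true := by decide +kernel
theorem p637 : PrV chk L637 := leafV c637

theorem c638 : lp7 (fun s => chk (uent L638 s)) 0 = true := by decide +kernel
theorem p638 : PrV chk L638 := leafV c638

theorem c639 : lp7 (fun s => chk (uent L639 s)) 0 = true := by decide +kernel
theorem p639 : PrV chk L639 := leafV c639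

theorem c640 : lp7 (fun s => chk (uent L640 s)) 0 = true := by decide +kernel
theorem p640 : PrV chk L640 := leafV c640

theorem c641 : lp7 (fun s => chk (uent L641 s)) 0 = true := by decide +kernel
theorem p641 : PrV chk L641 := leafV c641

theorem c642 : lp7 (fun s => chk (uent L642 s)) 0 = true := by decide +kernel
theorem p642 : PrV chk L642 := leafV c642

theorem c643 : lp7 (fun s => chk (uent L643 s)) 0 = true := by decide +kernel
theorem p643 : PrV chk L643 := leafV c643

theorem c644 : lp7 (fun s => chk (uent L644 s)) 0 = true := by decide +kernel
theorem p644 : PrV chk L644 := leafV c644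

theorem c645 : lp7 (fun s => chk (uent L645 s)) 0 = true := by decide +kernel
theorem p645 : PrV chk L645 := leafV c645

theorem c646 : lp7 (fun s => chk (uent L646 s)) 0 = true := by decide +kernel
theorem p646 : PrV chk L646 := leafV c646

theorem c647 : lp7 (fun s => chk (uent L647 s)) 0 = true := by decide +kernel
theorem p647 : PrV chk L647 := leafV c647

theorem c648 : lp7 (fun s => chk (uent L648 s)) 0 = true := by decide +kernel
theorem p648 : PrV chk L648 := leafV c648

theorem c649 : lp7 (fun s => chk (uent L649 s)) 0 = true := by decide +kernel
theorem p649 : PrV chk L649 := leafV c649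

theorem c650 : lp7 (fun s => chk (uent L650 s)) 0 = true := by decide +kernel
theorem p650 : PrV chk L650 := leafV c650

theorem c651 : lp7 (fun s => chk (uent L651 s)) 0 = true := by decide +kernel
theorem p651 : PrV chk L651 := leafV c651

theorem c652 : lp7 (fun s => chk (uent L652 s)) 0 = true := by decide +kernel
theorem p652 : PrV chk L652 := leafV c652

theorem c653 : lp7 (fun s => chk (uent L653 s)) 0 = true := by decide +kernel
theorem p653 : PrV chk L653 := leafV c653

theorem c654 : lp7 (fun s => chk (uent L654 s)) 0 = true := by decide +kernel
theorem p654 : PrV chk L654 := leafV c654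

theorem c655 : lp7 (fun s => chk (uent L655 s)) 0 = true := by decide +kernel
theorem p655 : PrV chk L655 := leafV c655

theorem c656 : lp7 (fun s => chk (uent L656 s)) 0 = true := by decide +kernel
theorem p656 : PrV chk L656 := leafV c656

theorem c657 : lp7 (fun s => chk (uent L657 s)) 0 = true := by decide +kernel
theorem p657 : PrV chk L657 := leafV c657

theorem c658 : lp7 (fun s => chk (uent L658 s)) 0 = true := by decide +kernel
theorem p658 : PrV chk L658 := leafV c658

theorem c659 : lp7 (fun s => chk (uent L659 s)) 0 = true := by decide +kernel
theorem p659 : PrV chk L659 := leafV c659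

theorem c660 : lp7 (fun s => chk (uent L660 s)) 0 = true := by decide +kernel
theorem p660 : PrV chk L660 := leafV c660

theorem c661 : lp7 (fun s => chk (uent L661 s)) 0 = true := by decide +kernel
theorem p661 : PrV chk L661 := leafV c661

theorem c662 : lp7 (fun s => chk (uent L662 s)) 0 = true := by decide +kernel
theorem p662 : PrV chk L662 := leafV c662

theorem c663 : lp7 (fun s => chk (uent L663 s)) 0 = true := by decide +kernel
theorem p663 : PrV chk L663 := leafV c663

theorem c664 : lp7 (fun s => chk (uent L664 s)) 0 = true := by decide +kernel
theorem p664 : PrV chk L664 := leafV c664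

theorem c665 : lp7 (fun s => chk (uent L665 s)) 0 = true := by decide +kernel
theorem p665 : PrV chk L665 := leafV c665

theorem c666 : lp7 (fun s => chk (uent L666 s)) 0 = true := by decide +kernel
theorem p666 : PrV chk L666 := leafV c666

theorem c667 : lp7 (fun s => chk (uent L667 s)) 0 = true := by decide +kernel
theorem p667 : PrV chk L667 := leafV c667

theorem c668 : lp7 (fun s => chk (uent L668 s)) 0 = true := by decide +kernel
theorem p668 : PrV chk L668 := leafV c668

theorem c669 : lp7 (fun s => chk (uent L669 s)) 0 = true := by decide +kernel
theorem p669 : PrV chk L669 := leafV c669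

theorem c670 : lp7 (fun s => chk (uent L670 s)) 0 = true := by decide +kernel
theorem p670 : PrV chk L670 := leafV c670

theorem c671 : lp7 (fun s => chk (uent L671 s)) 0 = true := by decide +kernel
theorem p671 : PrV chk L671 := leafV c671

theorem c672 : lp7 (fun s => chk (uent L672 s)) 0 = true := by decide +kernel
theorem p672 : PrV chk L672 := leafV c672

theorem c673 : lp7 (fun s => chk (uent L673 s)) 0 = true := by decide +kernel
theorem p673 : PrV chk L673 := leafV c673

theorem c674 : lp7 (fun s => chk (uent L674 s)) 0 = true := by decide +kernel
theorem p674 : PrV chk L674 := leafV c674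

theorem c675 : lp7 (fun s => chk (uent L675 s)) 0 = true := by decide +kernel
theorem p675 : PrV chk L675 := leafV c675

theorem c676 : lp7 (fun s => chk (uent L676 s)) 0 = true := by decide +kernel
theorem p676 : PrV chk L676 := leafV c676

theorem c677 : lp7 (fun s => chk (uent L677 s)) 0 = true := by decide +kernel
theorem p677 : PrV chk L677 := leafV c677

theorem c678 : lp7 (fun s => chk (uent L678 s)) 0 = true := by decide +kernel
theorem p678 : PrV chk L678 := leafV c678

theorem c679 : lp7 (fun s => chk (uent L679 s)) 0 = true := by decide +kernel
theorem p679 : PrV chk L679 := leafV c679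

theorem c680 : lp7 (fun s => chk (uent L680 s)) 0 = true := by decide +kernel
theorem p680 : PrV chk L680 := leafV c680

theorem c681 : lp7 (fun s => chk (uent L681 s)) 0 = true := by decide +kernel
theorem p681 : PrV chk L681 := leafV c681

theorem c682 : lp7 (fun s => chk (uent L682 s)) 0 = true := by decide +kernel
theorem p682 : PrV chk L682 := leafV c682

theorem c683 : lp7 (fun s => chk (uent L683 s)) 0 = true := by decide +kernel
theorem p683 : PrV chk L683 := leafV c683

theorem c684 : lp7 (fun s => chk (uent L684 s)) 0 = true := by decide +kernel
theorem p684 : PrV chk L684 := leafV c684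

theorem c685 : lp7 (fun s => chk (uent L685 s)) 0 = true := by decide +kernel
theorem p685 : PrV chk L685 := leafV c685

theorem c686 : lp7 (fun s => chk (uent L686 s)) 0 = true := by decide +kernel
theorem p686 : PrV chk L686 := leafV c686

theorem c687 : lp7 (fun s => chk (uent L687 s)) 0 = true := by decide +kernel
theorem p687 : PrV chk L687 := leafV c687

theorem c688 : lp7 (fun s => chk (uent L688 s)) 0 = true := by decide +kernel
theorem p688 : PrV chk L688 := leafV c688

theorem c689 : lp7 (fun s => chk (uent L689 s)) 0 = true := by decide +kernel
theorem p689 : PrV chk L689 := leafV c689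

theorem c690 : lp7 (fun s => chk (uent L690 s)) 0 = true := by decide +kernel
theorem p690 : PrV chk L690 := leafV c690

theorem c691 : lp7 (fun s => chk (uent L691 s)) 0 = true := by decide +kernel
theorem p691 : PrV chk L691 := leafV c691

theorem c692 : lp7 (fun s => chk (uent L692 s)) 0 = true := by decide +kernel
theorem p692 : PrV chk L692 := leafV c692

theorem c693 : lp7 (fun s => chk (uent L693 s)) 0 = true := by decide +kernel
theorem p693 : PrV chk L693 := leafV c693

theorem c694 : lp7 (fun s => chk (uent L694 s)) 0 = true := by decide +kernel
theorem p694 : PrV chk L694 := leafV c694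

theorem c695 : lp7 (fun s => chk (uent L695 s)) 0 = true := by decide +kernel
theorem p695 : PrV chk L695 := leafV c695

theorem c696 : lp7 (fun s => chk (uent L696 s)) 0 = true := by decide +kernel
theorem p696 : PrV chk L696 := leafV c696

theorem c697 : lp7 (fun s => chk (uent L697 s)) 0 = true := by decide +kernel
theorem p697 : PrV chk L697 := leafV c697

theorem c698 : lp7 (fun s => chk (uent L698 s)) 0 = true := by decide +kernel
theorem p698 : PrV chk L698 := leafV c698

theorem c699 : lp7 (fun s => chk (uent L699 s)) 0 = true := by decide +kernel
theorem p699 : PrV chk L699 := leafV c699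

theorem c700 : lp7 (fun s => chk (uent L700 s)) 0 = true := by decide +kernel
theorem p700 : PrV chk L700 := leafV c700

theorem c701 : lp7 (fun s => chk (uent L701 s)) 0 = true := by decide +kernel
theorem p701 : PrV chk L701 := leafV c701

theorem c702 : lp7 (fun s => chk (uent L702 s)) 0 = true := by decide +kernel
theorem p702 : PrV chk L702 := leafV c702

theorem c703 : lp7 (fun s => chk (uent L703 s)) 0 = true := by decide +kernel
theorem p703 : PrV chk L703 := leafV c703

theorem c704 : lp7 (fun s => chk (uent L704 s)) 0 = true := by decide +kernel
theorem p704 : PrV chk L704 := leafV c704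

theorem c705 : lp7 (fun s => chk (uent L705 s)) 0 = true := by decide +kernel
theorem p705 : PrV chk L705 := leafV c705

theorem c706 : lp7 (fun s => chk (uent L706 s)) 0 = true := by decide +kernel
theorem p706 : PrV chk L706 := leafV c706

theorem c707 : lp7 (fun s => chk (uent L707 s)) 0 = true := by decide +kernel
theorem p707 : PrV chk L707 := leafV c707

theorem c708 : lp7 (fun s => chk (uent L708 s)) 0 = true := by decide +kernel
theorem p708 : PrV chk L708 := leafV c708

theorem c709 : lp7 (fun s => chk (uent L709 s)) 0 = true := by decide +kernel
theorem p709 : PrV chk L709 := leafV c709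

theorem c710 : lp7 (fun s => chk (uent L710 s)) 0 = true := by decide +kernel
theorem p710 : PrV chk L710 := leafV c710

theorem c711 : lp7 (fun s => chk (uent L711 s)) 0 = true := by decide +kernel
theorem p711 : PrV chk L711 := leafV c711

theorem c712 : lp7 (fun s => chk (uent L712 s)) 0 = true := by decide +kernel
theorem p712 : PrV chk L712 := leafV c712

theorem c713 : lp7 (fun s => chk (uent L713 s)) 0 = true := by decide +kernel
theorem p713 : PrV chk L713 := leafV c713

theorem c714 : lp7 (fun s => chk (uent L714 s)) 0 = true := by decide +kernel
theorem p714 : PrV chk L714 := leafV c714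

theorem c715 : lp7 (fun s => chk (uent L715 s)) 0 = true := by decide +kernel
theorem p715 : PrV chk L715 := leafV c715

theorem c716 : lp7 (fun s => chk (uent L716 s)) 0 = true := by decide +kernel
theorem p716 : PrV chk L716 := leafV c716

theorem c717 : lp7 (fun s => chk (uent L717 s)) 0 = true := by decide +kernel
theorem p717 : PrV chk L717 := leafV c717

theorem c718 : lp7 (fun s => chk (uent L718 s)) 0 = true := by decide +kernel
theorem p718 : PrV chk L718 := leafV c718

theorem c719 : lp7 (fun s => chk (uent L719 s)) 0 = true := by decide +kernel
theorem p719 : PrV chk L719 := leafV c719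

theorem c720 : lp7 (fun s => chk (uent L720 s)) 0 = true := by decide +kernel
theorem p720 : PrV chk L720 := leafV c720

theorem c721 : lp7 (fun s => chk (uent L721 s)) 0 = true := by decide +kernel
theorem p721 : PrV chk L721 := leafV c721

theorem c722 : lp7 (fun s => chk (uent L722 s)) 0 = true := by decide +kernel
theorem p722 : PrV chk L722 := leafV c722

theorem c723 : lp7 (fun s => chk (uent L723 s)) 0 = true := by decide +kernel
theorem p723 : PrV chk L723 := leafV c723

theorem c724 : lp7 (fun s => chk (uent L724 s)) 0 = true := by decide +kernel
theorem p724 : PrV chk L724 := leafV c724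

theorem c725 : lp7 (fun s => chk (uent L725 s)) 0 = true := by decide +kernel
theorem p725 : PrV chk L725 := leafV c725

theorem c726 : lp7 (fun s => chk (uent L726 s)) 0 = true := by decide +kernel
theorem p726 : PrV chk L726 := leafV c726

theorem c727 : lp7 (fun s => chk (uent L727 s)) 0 = true := by decide +kernel
theorem p727 : PrV chk L727 := leafV c727

theorem c728 : lp7 (fun s => chk (uent L728 s)) 0 = true := by decide +kernel
theorem p728 : PrV chk L728 := leafV c728

theorem c729 : lp7 (fun s => chk (uent L729 s)) 0 = true := by decide +kernel
theorem p729 : PrV chk L729 := leafV c729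

theorem c730 : lp7 (fun s => chk (uent L730 s)) 0 = true := by decide +kernel
theorem p730 : PrV chk L730 := leafV c730

theorem c731 : lp7 (fun s => chk (uent L731 s)) 0 = true := by decide +kernel
theorem p731 : PrV chk L731 := leafV c731

theorem c732 : lp7 (fun s => chk (uent L732 s)) 0 = true := by decide +kernel
theorem p732 : PrV chk L732 := leafV c732

theorem c733 : lp7 (fun s => chk (uent L733 s)) 0 = true := by decide +kernel
theorem p733 : PrV chk L733 := leafV c733

theorem c734 : lp7 (fun s => chk (uent L734 s)) 0 = true := by decide +kernel
theorem p734 : PrV chk L734 := leafV c734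

theorem c735 : lp7 (fun s => chk (uent L735 s)) 0 = true := by decide +kernel
theorem p735 : PrV chk L735 := leafV c735

theorem c736 : lp7 (fun s => chk (uent L736 s)) 0 = true := by decide +kernel
theorem p736 : PrV chk L736 := leafV c736

theorem c737 : lp7 (fun s => chk (uent L737 s)) 0 = true := by decide +kernel
theorem p737 : PrV chk L737 := leafV c737

theorem c738 : lp7 (fun s => chk (uent L738 s)) 0 = true := by decide +kernel
theorem p738 : PrV chk L738 := leafV c738

theorem c739 : lp7 (fun s => chk (uent L739 s)) 0 = true := by decide +kernel
theorem p739 : PrV chk L739 := leafV c739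

theorem c740 : lp7 (fun s => chk (uent L740 s)) 0 = true := by decide +kernel
theorem p740 : PrV chk L740 := leafV c740

theorem c741 : lp7 (fun s => chk (uent L741 s)) 0 = true := by decide +kernel
theorem p741 : PrV chk L741 := leafV c741

theorem c742 : lp7 (fun s => chk (uent L742 s)) 0 = true := by decide +kernel
theorem p742 : PrV chk L742 := leafV c742

theorem c743 : lp7 (fun s => chk (uent L743 s)) 0 = true := by decide +kernel
theorem p743 : PrV chk L743 := leafV c743

theorem c744 : lp7 (fun s => chk (uent L744 s)) 0 = true := by decide +kernel
theorem p744 : PrV chk L744 := leafV c744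

theorem c745 : lp7 (fun s => chk (uent L745 s)) 0 = true := by decide +kernel
theorem p745 : PrV chk L745 := leafV c745

theorem c746 : lp7 (fun s => chk (uent L746 s)) 0 = true := by decide +kernel
theorem p746 : PrV chk L746 := leafV c746

theorem c747 : lp7 (fun s => chk (uent L747 s)) 0 = true := by decide +kernel
theorem p747 : PrV chk L747 := leafV c747

theorem c748 : lp7 (fun s => chk (uent L748 s)) 0 = true := by decide +kernel
theorem p748 : PrV chk L748 := leafV c748

theorem c749 : lp7 (fun s => chk (uent L749 s)) 0 = true := by decide +kernel
theorem p749 : PrV chk L749 := leafV c749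

theorem c750 : lp7 (fun s => chk (uent L750 s)) 0 = true := by decide +kernel
theorem p750 : PrV chk L750 := leafV c750

theorem c751 : lp7 (fun s => chk (uent L751 s)) 0 = true := by decide +kernel
theorem p751 : PrV chk L751 := leafV c751

theorem c752 : lp7 (fun s => chk (uent L752 s)) 0 = true := by decide +kernel
theorem p752 : PrV chk L752 := leafV c752

theorem c753 : lp7 (fun s => chk (uent L753 s)) 0 = true := by decide +kernel
theorem p753 : PrV chk L753 := leafV c753

theorem c754 : lp7 (fun s => chk (uent L754 s)) 0 = true := by decide +kernel
theorem p754 : PrV chk L754 := leafV c754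

theorem c755 : lp7 (fun s => chk (uent L755 s)) 0 = true := by decide +kernel
theorem p755 : PrV chk L755 := leafV c755

theorem c756 : lp7 (fun s => chk (uent L756 s)) 0 = true := by decide +kernel
theorem p756 : PrV chk L756 := leafV c756

theorem c757 : lp7 (fun s => chk (uent L757 s)) 0 = true := by decide +kernel
theorem p757 : PrV chk L757 := leafV c757

theorem c758 : lp7 (fun s => chk (uent L758 s)) 0 = true := by decide +kernel
theorem p758 : PrV chk L758 := leafV c758

theorem c759 : lp7 (fun s => chk (uent L759 s)) 0 = true := by decide +kernel
theorem p759 : PrV chk L759 := leafV c759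

theorem c760 : lp7 (fun s => chk (uent L760 s)) 0 = true := by decide +kernel
theorem p760 : PrV chk L760 := leafV c760

theorem c761 : lp7 (fun s => chk (uent L761 s)) 0 = true := by decide +kernel
theorem p761 : PrV chk L761 := leafV c761

theorem c762 : lp7 (fun s => chk (uent L762 s)) 0 = true := by decide +kernel
theorem p762 : PrV chk L762 := leafV c762

theorem c763 : lp7 (fun s => chk (uent L763 s)) 0 = true := by decide +kernel
theorem p763 : PrV chk L763 := leafV c763

theorem c764 : lp7 (fun s => chk (uent L764 s)) 0 = true := by decide +kernel
theorem p764 : PrV chk L764 := leafV c764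

theorem c765 : lp7 (fun s => chk (uent L765 s)) 0 = true := by decide +kernel
theorem p765 : PrV chk L765 := leafV c765

theorem c766 : lp7 (fun s => chk (uent L766 s)) 0 = true := by decide +kernel
theorem p766 : PrV chk L766 := leafV c766

theorem c767 : lp7 (fun s => chk (uent L767 s)) 0 = true := by decide +kernel
theorem p767 : PrV chk L767 := leafV c767

end Pool.Agent.ad013a.W
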