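import Pool.Agent.H.MP_ad013a_pr.h63w.A.T
import Pool.Agent.H.MP_ad013a_pr.h63w.VLoop

namespace Pool.Agent.ad013a.W

theorem c5760 : lp7 (fun s => chk (uent L5760 s)) 0 = true := by decide +kernel
theorem p5760 : PrV chk L5760 := leafV c5760

theorem c5761 : lp7 (fun s => chk (uent L5761 s)) 0 = true := by decide +kernel
theorem p5761 : PrV chk L5761 := leafV c5761

theorem c5762 : lp7 (fun s => chk (uent L5762 s)) 0 = true := by decide +kernel
theorem p5762 : PrV chk L5762 := leafV c5762

theorem c5763 : lp7 (fun s => chk (uent L5763 s)) 0 = true := by decide +kernel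
theorem p5763 : PrV chk L5763 := leafV c5763

theorem c5764 : lp7 (fun s => chk (uent L5764 s)) 0 = true := by decide +kernel
theorem p5764 : PrV chk L5764 := leafV c5764

theorem c5765 : lp7 (fun s => chk (uent L5765 s)) 0 = true := by decide +kernel
theorem p5765 : PrV chk L5765 := leafV c5765

theorem c5766 : lp7 (fun s => chk (uent L5766 s)) 0 = true := by decide +kernel
theorem p5766 : PrV chk L5766 := leafV c5766

theorem c5767 : lp7 (fun s => chk (uent L5767 s)) 0 = true := by decide +kernel
theorem p5767 : PrV chk L5767 := leafV c5767

theorem c5768 : lp7 (fun s => chk (uent L5768 s)) 0 = true := by decide +kernel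
theorem p5768 : PrV chk L5768 := leafV c5768

theorem c5769 : lp7 (fun s => chk (uent L5769 s)) 0 = true := by decide +kernel
theorem p5769 : PrV chk L5769 := leafV c5769

theorem c5770 : lp7 (fun s => chk (uent L5770 s)) 0 = true := by decide +kernel
theorem p5770 : PrV chk L5770 := leafV c5770

theorem c5771 : lp7 (fun s => chk (uent L5771 s)) 0 = true := by decide +kernel
theorem p5771 : PrV chk L5771 := leafV c5771

theorem c5772 : lp7 (fun s => chk (uent L5772 s)) 0 = true := by decide +kernel
theorem p5772 : PrV chk L5772 := leafV c5772

theorem c5773 : lp7 (fun s => chk (uent L5773 s)) 0 = true := by decide +kernel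
theorem p5773 : PrV chk L5773 := leafV c5773

theorem c5774 : lp7 (fun s => chk (uent L5774 s)) 0 = true := by decide +kernel
theorem p5774 : PrV chk L5774 := leafV c5774

theorem c5775 : lp7 (fun s => chk (uent L5775 s)) 0 = true := by decide +kernel
theorem p5775 : PrV chk L5775 := leafV c5775

theorem c5776 : lp7 (fun s => chk (uent L5776 s)) 0 = true := by decide +kernel
theorem p5776 : PrV chk L5776 := leafV c5776

theorem c5777 : lp7 (fun s => chk (uent L5777 s)) 0 = true := by decide +kernel
theorem p5777 : PrV chk L5777 := leafV c5777

theorem c5778 : lp7 (fun s => chk (uent L5778 s)) 0 = true := by decide +kernel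
theorem p5778 : PrV chk L5778 := leafV c5778

theorem c5779 : lp7 (fun s => chk (uent L5779 s)) 0 = true := by decide +kernel
theorem p5779 : PrV chk L5779 := leafV c5779

theorem c5780 : lp7 (fun s => chk (uent L5780 s)) 0 = true := by decide +kernel
theorem p5780 : PrV chk L5780 := leafV c5780

theorem c5781 : lp7 (fun s => chk (uent L5781 s)) 0 = true := by decide +kernel
theorem p5781 : PrV chk L5781 := leafV c5781

theorem c5782 : lp7 (fun s => chk (uent L5782 s)) 0 = true := by decide +kernel
theorem p5782 : PrV chk L5782 := leafV c5782

theorem c5783 : lp7 (fun s => chk (uent L5783 s)) 0 = true := by decide +kernel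
theorem p5783 : PrV chk L5783 := leafV c5783

theorem c5784 : lp7 (fun s => chk (uent L5784 s)) 0 = true := by decide +kernel
theorem p5784 : PrV chk L5784 := leafV c5784

theorem c5785 : lp7 (fun s => chk (uent L5785 s)) 0 = true := by decide +kernel
theorem p5785 : PrV chk L5785 := leafV c5785

theorem c5786 : lp7 (fun s => chk (uent L5786 s)) 0 = true := by decide +kernel
theorem p5786 : PrV chk L5786 := leafV c5786

theorem c5787 : lp7 (fun s => chk (uent L5787 s)) 0 = true := by decide +kernel
theorem p5787 : PrV chk L5787 := leafV c5787

theorem c5788 : lp7 (fun s => chk (uent L5788 s)) 0 = true := by decide +kernel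
theorem p5788 : PrV chk L5788 := leafV c5788

theorem c5789 : lp7 (fun s => chk (uent L5789 s)) 0 = true := by decide +kernel
theorem p5789 : PrV chk L5789 := leafV c5789

theorem c5790 : lp7 (fun s => chk (uent L5790 s)) 0 = true := by decide +kernel
theorem p5790 : PrV chk L5790 := leafV c5790

theorem c5791 : lp7 (fun s => chk (uent L5791 s)) 0 = true := by decide +kernel
theorem p5791 : PrV chk L5791 := leafV c5791

theorem c5792 : lp7 (fun s => chk (uent L5792 s)) 0 = true := by decide +kernel
theorem p5792 : PrV chk L5792 := leafV c5792

theorem c5793 : lp7 (fun s => chk (uent L5793 s)) 0 = true := by decide +kernel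
theorem p5793 : PrV chk L5793 := leafV c5793

theorem c5794 : lp7 (fun s => chk (uent L5794 s)) 0 = true := by decide +kernel
theorem p5794 : PrV chk L5794 := leafV c5794

theorem c5795 : lp7 (fun s => chk (uent L5795 s)) 0 = true := by decide +kernel
theorem p5795 : PrV chk L5795 := leafV c5795

theorem c5796 : lp7 (fun s => chk (uent L5796 s)) 0 = true := by decide +kernel
theorem p5796 : PrV chk L5796 := leafV c5796

theorem c5797 : lp7 (fun s => chk (uent L5797 s)) 0 = true := by decide +kernel
theorem p5797 : PrV chk L5797 := leafV c5797

theorem c5798 : lp7 (fun s => chk (uent L5798 s)) 0 = true := by decide +kernel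
theorem p5798 : PrV chk L5798 := leafV c5798

theorem c5799 : lp7 (fun s => chk (uent L5799 s)) 0 = true := by decide +kernel
theorem p5799 : PrV chk L5799 := leafV c5799

theorem c5800 : lp7 (fun s => chk (uent L5800 s)) 0 = true := by decide +kernel
theorem p5800 : PrV chk L5800 := leafV c5800

theorem c5801 : lp7 (fun s => chk (uent L5801 s)) 0 = true := by decide +kernel
theorem p5801 : PrV chk L5801 := leafV c5801

theorem c5802 : lp7 (fun s => chk (uent L5802 s)) 0 = true := by decide +kernel
theorem p5802 : PrV chk L5802 := leafV c5802

theorem c5803 : lp7 (fun s => chk (uent L5803 s)) 0 = true := by decide +kernel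
theorem p5803 : PrV chk L5803 := leafV c5803

theorem c5804 : lp7 (fun s => chk (uent L5804 s)) 0 = true := by decide +kernel
theorem p5804 : PrV chk L5804 := leafV c5804

theorem c5805 : lp7 (fun s => chk (uent L5805 s)) 0 = true := by decide +kernel
theorem p5805 : PrV chk L5805 := leafV c5805

theorem c5806 : lp7 (fun s => chk (uent L5806 s)) 0 = true := by decide +kernel
theorem p5806 : PrV chk L5806 := leafV c5806

theorem c5807 : lp7 (fun s => chk (uent L5807 s)) 0 = true := by decide +kernel
theorem p5807 : PrV chk L5807 := leafV c5807

theorem c5808 : lp7 (fun s => chk (uent L5808 s)) 0 = true := by decide +kernel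
theorem p5808 : PrV chk L5808 := leafV c5808

theorem c5809 : lp7 (fun s => chk (uent L5809 s)) 0 = true := by decide +kernel
theorem p5809 : PrV chk L5809 := leafV c5809

theorem c5810 : lp7 (fun s => chk (uent L5810 s)) 0 = true := by decide +kernel
theorem p5810 : PrV chk L5810 := leafV c5810

theorem c5811 : lp7 (fun s => chk (uent L5811 s)) 0 = true := by decide +kernel
theorem p5811 : PrV chk L5811 := leafV c5811

theorem c5812 : lp7 (fun s => chk (uent L5812 s)) 0 = true := by decide +kernel
theorem p5812 : PrV chk L5812 := leafV c5812

theorem c5813 : lp7 (fun s => chk (uent L5813 s)) 0 = true := by decide +kernel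
theorem p5813 : PrV chk L5813 := leafV c5813

theorem c5814 : lp7 (fun s => chk (uent L5814 s)) 0 = true := by decide +kernel
theorem p5814 : PrV chk L5814 := leafV c5814

theorem c5815 : lp7 (fun s => chk (uent L5815 s)) 0 = true := by decide +kernel
theorem p5815 : PrV chk L5815 := leafV c5815

theorem c5816 : lp7 (fun s => chk (uent L5816 s)) 0 = true := by decide +kernel
theorem p5816 : PrV chk L5816 := leafV c5816

theorem c5817 : lp7 (fun s => chk (uent L5817 s)) 0 = true := by decide +kernel
theorem p5817 : PrV chk L5817 := leafV c5817

theorem c5818 : lp7 (fun s => chk (uent L5818 s)) 0 = true := by decide +kernel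
theorem p5818 : PrV chk L5818 := leafV c5818

theorem c5819 : lp7 (fun s => chk (uent L5819 s)) 0 = true := by decide +kernel
theorem p5819 : PrV chk L5819 := leafV c5819

theorem c5820 : lp7 (fun s => chk (uent L5820 s)) 0 = true := by decide +kernel
theorem p5820 : PrV chk L5820 := leafV c5820

theorem c5821 : lp7 (fun s => chk (uent L5821 s)) 0 = true := by decide +kernel
theorem p5821 : PrV chk L5821 := leafV c5821

theorem c5822 : lp7 (fun s => chk (uent L5822 s)) 0 = true := by decide +kernel
theorem p5822 : PrV chk L5822 := leafV c5822

theorem c5823 : lp7 (fun s => chk (uent L5823 s)) 0 = true := by decide +kernel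
theorem p5823 : PrV chk L5823 := leafV c5823

theorem c5824 : lp7 (fun s => chk (uent L5824 s)) 0 = true := by decide +kernel
theorem p5824 : PrV chk L5824 := leafV c5824

theorem c5825 : lp7 (fun s => chk (uent L5825 s)) 0 = true := by decide +kernel
theorem p5825 : PrV chk L5825 := leafV c5825

theorem c5826 : lp7 (fun s => chk (uent L5826 s)) 0 = true := by decide +kernel
theorem p5826 : PrV chk L5826 := leafV c5826

theorem c5827 : lp7 (fun s => chk (uent L5827 s)) 0 = true := by decide +kernel
theorem p5827 : PrV chk L5827 := leafV c5827

theorem c5828 : lp7 (fun s => chk (uent L5828 s)) 0 = true := by decide +kernel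
theorem p5828 : PrV chk L5828 := leafV c5828

theorem c5829 : lp7 (fun s => chk (uent L5829 s)) 0 = true := by decide +kernel
theorem p5829 : PrV chk L5829 := leafV c5829

theorem c5830 : lp7 (fun s => chk (uent L5830 s)) 0 = true := by decide +kernel
theorem p5830 : PrV chk L5830 := leafV c5830

theorem c5831 : lp7 (fun s => chk (uent L5831 s)) 0 = true := by decide +kernel
theorem p5831 : PrV chk L5831 := leafV c5831

theorem c5832 : lp7 (fun s => chk (uent L5832 s)) 0 = true := by decide +kernel
theorem p5832 : PrV chk L5832 := leafV c5832

theorem c5833 : lp7 (fun s => chk (uent L5833 s)) 0 = true := by decide +kernel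
theorem p5833 : PrV chk L5833 := leafV c5833

theorem c5834 : lp7 (fun s => chk (uent L5834 s)) 0 = true := by decide +kernel
theorem p5834 : PrV chk L5834 := leafV c5834

theorem c5835 : lp7 (fun s => chk (uent L5835 s)) 0 = true := by decide +kernel
theorem p5835 : PrV chk L5835 := leafV c5835

theorem c5836 : lp7 (fun s => chk (uent L5836 s)) 0 = true := by decide +kernel
theorem p5836 : PrV chk L5836 := leafV c5836

theorem c5837 : lp7 (fun s => chk (uent L5837 s)) 0 = true := by decide +kernel
theorem p5837 : PrV chk L5837 := leafV c5837

theorem c5838 : lp7 (fun s => chk (uent L5838 s)) 0 = true := by decide +kernel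
theorem p5838 : PrV chk L5838 := leafV c5838

theorem c5839 : lp7 (fun s => chk (uent L5839 s)) 0 = true := by decide +kernel
theorem p5839 : PrV chk L5839 := leafV c5839

theorem c5840 : lp7 (fun s => chk (uent L5840 s)) 0 = true := by decide +kernel
theorem p5840 : PrV chk L5840 := leafV c5840

theorem c5841 : lp7 (fun s => chk (uent L5841 s)) 0 = true := by decide +kernel
theorem p5841 : PrV chk L5841 := leafV c5841

theorem c5842 : lp7 (fun s => chk (uent L5842 s)) 0 = true := by decide +kernel
theorem p5842 : PrV chk L5842 := leafV c5842

theorem c5843 : lp7 (fun s => chk (uent L5843 s)) 0 = true := by decide +kernel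
theorem p5843 : PrV chk L5843 := leafV c5843

theorem c5844 : lp7 (fun s => chk (uent L5844 s)) 0 = true := by decide +kernel
theorem p5844 : PrV chk L5844 := leafV c5844

theorem c5845 : lp7 (fun s => chk (uent L5845 s)) 0 = true := by decide +kernel
theorem p5845 : PrV chk L5845 := leafV c5845

theorem c5846 : lp7 (fun s => chk (uent L5846 s)) 0 = true := by decide +kernel
theorem p5846 : PrV chk L5846 := leafV c5846

theorem c5847 : lp7 (fun s => chk (uent L5847 s)) 0 = true := by decide +kernel
theorem p5847 : PrV chk L5847 := leafV c5847

theorem c5848 : lp7 (fun s => chk (uent L5848 s)) 0 = true := by decide +kernel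
theorem p5848 : PrV chk L5848 := leafV c5848

theorem c5849 : lp7 (fun s => chk (uent L5849 s)) 0 = true := by decide +kernel
theorem p5849 : PrV chk L5849 := leafV c5849

theorem c5850 : lp7 (fun s => chk (uent L5850 s)) 0 = true := by decide +kernel
theorem p5850 : PrV chk L5850 := leafV c5850

theorem c5851 : lp7 (fun s => chk (uent L5851 s)) 0 = true := by decide +kernel
theorem p5851 : PrV chk L5851 := leafV c5851

theorem c5852 : lp7 (fun s => chk (uent L5852 s)) 0 = true := by decide +kernel
theorem p5852 : PrV chk L5852 := leafV c5852

theorem c5853 : lp7 (fun s => chk (uent L5853 s)) 0 = true := by decide +kernel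
theorem p5853 : PrV chk L5853 := leafV c5853

theorem c5854 : lp7 (fun s => chk (uent L5854 s)) 0 = true := by decide +kernel
theorem p5854 : PrV chk L5854 := leafV c5854

theorem c5855 : lp7 (fun s => chk (uent L5855 s)) 0 = true := by decide +kernel
theorem p5855 : PrV chk L5855 := leafV c5855

theorem c5856 : lp7 (fun s => chk (uent L5856 s)) 0 = true := by decide +kernel
theorem p5856 : PrV chk L5856 := leafV c5856

theorem c5857 : lp7 (fun s => chk (uent L5857 s)) 0 = true := by decide +kernel
theorem p5857 : PrV chk L5857 := leafV c5857

theorem c5858 : lp7 (fun s => chk (uent L5858 s)) 0 = true := by decide +kernel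
theorem p5858 : PrV chk L5858 := leafV c5858

theorem c5859 : lp7 (fun s => chk (uent L5859 s)) 0 = true := by decide +kernel
theorem p5859 : PrV chk L5859 := leafV c5859

theorem c5860 : lp7 (fun s => chk (uent L5860 s)) 0 = true := by decide +kernel
theorem p5860 : PrV chk L5860 := leafV c5860

theorem c5861 : lp7 (fun s => chk (uent L5861 s)) 0 = true := by decide +kernel
theorem p5861 : PrV chk L5861 := leafV c5861

theorem c5862 : lp7 (fun s => chk (uent L5862 s)) 0 = true := by decide +kernel
theorem p5862 : PrV chk L5862 := leafV c5862

theorem c5863 : lp7 (fun s => chk (uent L5863 s)) 0 = true := by decide +kernel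
theorem p5863 : PrV chk L5863 := leafV c5863

theorem c5864 : lp7 (fun s => chk (uent L5864 s)) 0 = true := by decide +kernel
theorem p5864 : PrV chk L5864 := leafV c5864

theorem c5865 : lp7 (fun s => chk (uent L5865 s)) 0 = true := by decide +kernel
theorem p5865 : PrV chk L5865 := leafV c5865

theorem c5866 : lp7 (fun s => chk (uent L5866 s)) 0 = true := by decide +kernel
theorem p5866 : PrV chk L5866 := leafV c5866

theorem c5867 : lp7 (fun s => chk (uent L5867 s)) 0 = true := by decide +kernel
theorem p5867 : PrV chk L5867 := leafV c5867

theorem c5868 : lp7 (fun s => chk (uent L5868 s)) 0 = true := by decide +kernel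
theorem p5868 : PrV chk L5868 := leafV c5868

theorem c5869 : lp7 (fun s => chk (uent L5869 s)) 0 = true := by decide +kernel
theorem p5869 : PrV chk L5869 := leafV c5869

theorem c5870 : lp7 (fun s => chk (uent L5870 s)) 0 = true := by decide +kernel
theorem p5870 : PrV chk L5870 := leafV c5870

theorem c5871 : lp7 (fun s => chk (uent L5871 s)) 0 = true := by decide +kernel
theorem p5871 : PrV chk L5871 := leafV c5871

theorem c5872 : lp7 (fun s => chk (uent L5872 s)) 0 = true := by decide +kernel
theorem p5872 : PrV chk L5872 := leafV c5872

theorem c5873 : lp7 (fun s => chk (uent L5873 s)) 0 = true := by decide +kernel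
theorem p5873 : PrV chk L5873 := leafV c5873

theorem c5874 : lp7 (fun s => chk (uent L5874 s)) 0 = true := by decide +kernel
theorem p5874 : PrV chk L5874 := leafV c5874

theorem c5875 : lp7 (fun s => chk (uent L5875 s)) 0 = true := by decide +kernel
theorem p5875 : PrV chk L5875 := leafV c5875

theorem c5876 : lp7 (fun s => chk (uent L5876 s)) 0 = true := by decide +kernel
theorem p5876 : PrV chk L5876 := leafV c5876

theorem c5877 : lp7 (fun s => chk (uent L5877 s)) 0 = true := by decide +kernel
theorem p5877 : PrV chk L5877 := leafV c5877

theorem c5878 : lp7 (fun s => chk (uent L5878 s)) 0 = true := by decide +kernel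
theorem p5878 : PrV chk L5878 := leafV c5878

theorem c5879 : lp7 (fun s => chk (uent L5879 s)) 0 = true := by decide +kernel
theorem p5879 : PrV chk L5879 := leafV c5879

theorem c5880 : lp7 (fun s => chk (uent L5880 s)) 0 = true := by decide +kernel
theorem p5880 : PrV chk L5880 := leafV c5880

theorem c5881 : lp7 (fun s => chk (uent L5881 s)) 0 = true := by decide +kernel
theorem p5881 : PrV chk L5881 := leafV c5881

theorem c5882 : lp7 (fun s => chk (uent L5882 s)) 0 = true := by decide +kernel
theorem p5882 : PrV chk L5882 := leafV c5882

theorem c5883 : lp7 (fun s => chk (uent L5883 s)) 0 = true := by decide +kernel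
theorem p5883 : PrV chk L5883 := leafV c5883

theorem c5884 : lp7 (fun s => chk (uent L5884 s)) 0 = true := by decide +kernel
theorem p5884 : PrV chk L5884 := leafV c5884

theorem c5885 : lp7 (fun s => chk (uent L5885 s)) 0 = true := by decide +kernel
theorem p5885 : PrV chk L5885 := leafV c5885

theorem c5886 : lp7 (fun s => chk (uent L5886 s)) 0 = true := by decide +kernel
theorem p5886 : PrV chk L5886 := leafV c5886

theorem c5887 : lp7 (fun s => chk (uent L5887 s)) 0 = true := by decide +kernel
theorem p5887 : PrV chk L5887 := leafV c5887

theorem c5888 : lp7 (fun s => chk (uent L5888 s)) 0 = true := by decide +kernel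
theorem p5888 : PrV chk L5888 := leafV c5888

theorem c5889 : lp7 (fun s => chk (uent L5889 s)) 0 = true := by decide +kernel
theorem p5889 : PrV chk L5889 := leafV c5889

theorem c5890 : lp7 (fun s => chk (uent L5890 s)) 0 = true := by decide +kernel
theorem p5890 : PrV chk L5890 := leafV c5890

theorem c5891 : lp7 (fun s => chk (uent L5891 s)) 0 = true := by decide +kernel
theorem p5891 : PrV chk L5891 := leafV c5891

theorem c5892 : lp7 (fun s => chk (uent L5892 s)) 0 = true := by decide +kernel
theorem p5892 : PrV chk L5892 := leafV c5892

theorem c5893 : lp7 (fun s => chk (uent L5893 s)) 0 = true := by decide +kernel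
theorem p5893 : PrV chk L5893 := leafV c5893

theorem c5894 : lp7 (fun s => chk (uent L5894 s)) 0 = true := by decide +kernel
theorem p5894 : PrV chk L5894 := leafV c5894

theorem c5895 : lp7 (fun s => chk (uent L5895 s)) 0 = true := by decide +kernel
theorem p5895 : PrV chk L5895 := leafV c5895

theorem c5896 : lp7 (fun s => chk (uent L5896 s)) 0 = true := by decide +kernel
theorem p5896 : PrV chk L5896 := leafV c5896

theorem c5897 : lp7 (fun s => chk (uent L5897 s)) 0 = true := by decide +kernel
theorem p5897 : PrV chk L5897 := leafV c5897

theorem c5898 : lp7 (fun s => chk (uent L5898 s)) 0 = true := by decide +kernel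
theorem p5898 : PrV chk L5898 := leafV c5898

theorem c5899 : lp7 (fun s => chk (uent L5899 s)) 0 = true := by decide +kernel
theorem p5899 : PrV chk L5899 := leafV c5899

theorem c5900 : lp7 (fun s => chk (uent L5900 s)) 0 = true := by decide +kernel
theorem p5900 : PrV chk L5900 := leafV c5900

theorem c5901 : lp7 (fun s => chk (uent L5901 s)) 0 = true := by decide +kernel
theorem p5901 : PrV chk L5901 := leafV c5901

theorem c5902 : lp7 (fun s => chk (uent L5902 s)) 0 = true := by decide +kernel
theorem p5902 : PrV chk L5902 := leafV c5902

theorem c5903 : lp7 (fun s => chk (uent L5903 s)) 0 = true := by decide +kernel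
theorem p5903 : PrV chk L5903 := leafV c5903

theorem c5904 : lp7 (fun s => chk (uent L5904 s)) 0 = true := by decide +kernel
theorem p5904 : PrV chk L5904 := leafV c5904

theorem c5905 : lp7 (fun s => chk (uent L5905 s)) 0 = true := by decide +kernel
theorem p5905 : PrV chk L5905 := leafV c5905

theorem c5906 : lp7 (fun s => chk (uent L5906 s)) 0 = true := by decide +kernel
theorem p5906 : PrV chk L5906 := leafV c5906

theorem c5907 : lp7 (fun s => chk (uent L5907 s)) 0 = true := by decide +kernel
theorem p5907 : PrV chk L5907 := leafV c5907

theorem c5908 : lp7 (fun s => chk (uent L5908 s)) 0 = true := by decide +kernel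
theorem p5908 : PrV chk L5908 := leafV c5908

theorem c5909 : lp7 (fun s => chk (uent L5909 s)) 0 = true := by decide +kernel
theorem p5909 : PrV chk L5909 := leafV c5909

theorem c5910 : lp7 (fun s => chk (uent L5910 s)) 0 = true := by decide +kernel
theorem p5910 : PrV chk L5910 := leafV c5910

theorem c5911 : lp7 (fun s => chk (uent L5911 s)) 0 = true := by decide +kernel
theorem p5911 : PrV chk L5911 := leafV c5911

theorem c5912 : lp7 (fun s => chk (uent L5912 s)) 0 = true := by decide +kernel
theorem p5912 : PrV chk L5912 := leafV c5912

theorem c5913 : lp7 (fun s => chk (uent L5913 s)) 0 = true := by decide +kernel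
theorem p5913 : PrV chk L5913 := leafV c5913

theorem c5914 : lp7 (fun s => chk (uent L5914 s)) 0 = true := by decide +kernel
theorem p5914 : PrV chk L5914 := leafV c5914

theorem c5915 : lp7 (fun s => chk (uent L5915 s)) 0 = true := by decide +kernel
theorem p5915 : PrV chk L5915 := leafV c5915

theorem c5916 : lp7 (fun s => chk (uent L5916 s)) 0 = true := by decide +kernel
theorem p5916 : PrV chk L5916 := leafV c5916

theorem c5917 : lp7 (fun s => chk (uent L5917 s)) 0 = true := by decide +kernel
theorem p5917 : PrV chk L5917 := leafV c5917

theorem c5918 : lp7 (fun s => chk (uent L5918 s)) 0 = true := by decide +kernel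
theorem p5918 : PrV chk L5918 := leafV c5918

theorem c5919 : lp7 (fun s => chk (uent L5919 s)) 0 = true := by decide +kernel
theorem p5919 : PrV chk L5919 := leafV c5919

theorem c5920 : lp7 (fun s => chk (uent L5920 s)) 0 = true := by decide +kernel
theorem p5920 : PrV chk L5920 := leafV c5920

theorem c5921 : lp7 (fun s => chk (uent L5921 s)) 0 = true := by decide +kernel
theorem p5921 : PrV chk L5921 := leafV c5921

theorem c5922 : lp7 (fun s => chk (uent L5922 s)) 0 = true := by decide +kernel
theorem p5922 : PrV chk L5922 := leafV c5922

theorem c5923 : lp7 (fun s => chk (uent L5923 s)) 0 = true := by decide +kernel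
theorem p5923 : PrV chk L5923 := leafV c5923

theorem c5924 : lp7 (fun s => chk (uent L5924 s)) 0 = true := by decide +kernel
theorem p5924 : PrV chk L5924 := leafV c5924

theorem c5925 : lp7 (fun s => chk (uent L5925 s)) 0 = true := by decide +kernel
theorem p5925 : PrV chk L5925 := leafV c5925

theorem c5926 : lp7 (fun s => chk (uent L5926 s)) 0 = true := by decide +kernel
theorem p5926 : PrV chk L5926 := leafV c5926

theorem c5927 : lp7 (fun s => chk (uent L5927 s)) 0 = true := by decide +kernel
theorem p5927 : PrV chk L5927 := leafV c5927

theorem c5928 : lp7 (fun s => chk (uent L5928 s)) 0 = true := by decide +kernel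
theorem p5928 : PrV chk L5928 := leafV c5928

theorem c5929 : lp7 (fun s => chk (uent L5929 s)) 0 = true := by decide +kernel
theorem p5929 : PrV chk L5929 := leafV c5929

theorem c5930 : lp7 (fun s => chk (uent L5930 s)) 0 = true := by decide +kernel
theorem p5930 : PrV chk L5930 := leafV c5930

theorem c5931 : lp7 (fun s => chk (uent L5931 s)) 0 = true := by decide +kernel
theorem p5931 : PrV chk L5931 := leafV c5931

theorem c5932 : lp7 (fun s => chk (uent L5932 s)) 0 = true := by decide +kernel
theorem p5932 : PrV chk L5932 := leafV c5932

theorem c5933 : lp7 (fun s => chk (uent L5933 s)) 0 = true := by decide +kernel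
theorem p5933 : PrV chk L5933 := leafV c5933

theorem c5934 : lp7 (fun s => chk (uent L5934 s)) 0 = true := by decide +kernel
theorem p5934 : PrV chk L5934 := leafV c5934

theorem c5935 : lp7 (fun s => chk (uent L5935 s)) 0 = true := by decide +kernel
theorem p5935 : PrV chk L5935 := leafV c5935

theorem c5936 : lp7 (fun s => chk (uent L5936 s)) 0 = true := by decide +kernel
theorem p5936 : PrV chk L5936 := leafV c5936

theorem c5937 : lp7 (fun s => chk (uent L5937 s)) 0 = true := by decide +kernel
theorem p5937 : PrV chk L5937 := leafV c5937

theorem c5938 : lp7 (fun s => chk (uent L5938 s)) 0 = true := by decide +kernel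
theorem p5938 : PrV chk L5938 := leafV c5938

theorem c5939 : lp7 (fun s => chk (uent L5939 s)) 0 = true := by decide +kernel
theorem p5939 : PrV chk L5939 := leafV c5939

theorem c5940 : lp7 (fun s => chk (uent L5940 s)) 0 = true := by decide +kernel
theorem p5940 : PrV chk L5940 := leafV c5940

theorem c5941 : lp7 (fun s => chk (uent L5941 s)) 0 = true := by decide +kernel
theorem p5941 : PrV chk L5941 := leafV c5941

theorem c5942 : lp7 (fun s => chk (uent L5942 s)) 0 = true := by decide +kernel
theorem p5942 : PrV chk L5942 := leafV c5942

theorem c5943 : lp7 (fun s => chk (uent L5943 s)) 0 = true := by decide +kernel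
theorem p5943 : PrV chk L5943 := leafV c5943

theorem c5944 : lp7 (fun s => chk (uent L5944 s)) 0 = true := by decide +kernel
theorem p5944 : PrV chk L5944 := leafV c5944

theorem c5945 : lp7 (fun s => chk (uent L5945 s)) 0 = true := by decide +kernel
theorem p5945 : PrV chk L5945 := leafV c5945

theorem c5946 : lp7 (fun s => chk (uent L5946 s)) 0 = true := by decide +kernel
theorem p5946 : PrV chk L5946 := leafV c5946

theorem c5947 : lp7 (fun s => chk (uent L5947 s)) 0 = true := by decide +kernel
theorem p5947 : PrV chk L5947 := leafV c5947

theorem c5948 : lp7 (fun s => chk (uent L5948 s)) 0 = true := by decide +kernel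
theorem p5948 : PrV chk L5948 := leafV c5948

theorem c5949 : lp7 (fun s => chk (uent L5949 s)) 0 = true := by decide +kernel
theorem p5949 : PrV chk L5949 := leafV c5949

theorem c5950 : lp7 (fun s => chk (uent L5950 s)) 0 = true := by decide +kernel
theorem p5950 : PrV chk L5950 := leafV c5950

theorem c5951 : lp7 (fun s => chk (uent L5951 s)) 0 = true := by decide +kernel
theorem p5951 : PrV chk L5951 := leafV c5951

end Pool.Agent.ad013a.W
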