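import Pool.Agent.H.MP_ad013a_pr.h63w.A.T
import Pool.Agent.H.MP_ad013a_pr.h63w.VLoop

namespace Pool.Agent.ad013a.W

theorem c5952 : lp7 (fun s => chk (uent L5952 s)) 0 = true := by decide +kernel
theorem p5952 : PrV chk L5952 := leafV c5952

theorem c5953 : lp7 (fun s => chk (uent L5953 s)) 0 = true := by decide +kernel
theorem p5953 : PrV chk L5953 := leafV c5953

theorem c5954 : lp7 (fun s => chk (uent L5954 s)) 0 = true := by decide +kernel
theorem p5954 : PrV chk L5954 := leafV c5954

theorem c5955 : lp7 (fun s => chk (uent L5955 s)) 0 = true := by decide +kernel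
theorem p5955 : PrV chk L5955 := leafV c5955

theorem c5956 : lp7 (fun s => chk (uent L5956 s)) 0 = true := by decide +kernel
theorem p5956 : PrV chk L5956 := leafV c5956

theorem c5957 : lp7 (fun s => chk (uent L5957 s)) 0 = true := by decide +kernel
theorem p5957 : PrV chk L5957 := leafV c5957

theorem c5958 : lp7 (fun s => chk (uent L5958 s)) 0 = true := by decide +kernel
theorem p5958 : PrV chk L5958 := leafV c5958

theorem c5959 : lp7 (fun s => chk (uent L5959 s)) 0 = true := by decide +kernel
theorem p5959 : PrV chk L5959 := leafV c5959

theorem c5960 : lp7 (fun s => chk (uent L5960 s)) 0 = true := by decide +kernel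
theorem p5960 : PrV chk L5960 := leafV c5960

theorem c5961 : lp7 (fun s => chk (uent L5961 s)) 0 = true := by decide +kernel
theorem p5961 : PrV chk L5961 := leafV c5961

theorem c5962 : lp7 (fun s => chk (uent L5962 s)) 0 = true := by decide +kernel
theorem p5962 : PrV chk L5962 := leafV c5962

theorem c5963 : lp7 (fun s => chk (uent L5963 s)) 0 = true := by decide +kernel
theorem p5963 : PrV chk L5963 := leafV c5963

theorem c5964 : lp7 (fun s => chk (uent L5964 s)) 0 = true := by decide +kernel
theorem p5964 : PrV chk L5964 := leafV c5964

theorem c5965 : lp7 (fun s => chk (uent L5965 s)) 0 = true := by decide +kernel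
theorem p5965 : PrV chk L5965 := leafV c5965

theorem c5966 : lp7 (fun s => chk (uent L5966 s)) 0 = true := by decide +kernel
theorem p5966 : PrV chk L5966 := leafV c5966

theorem c5967 : lp7 (fun s => chk (uent L5967 s)) 0 = true := by decide +kernel
theorem p5967 : PrV chk L5967 := leafV c5967

theorem c5968 : lp7 (fun s => chk (uent L5968 s)) 0 = true := by decide +kernel
theorem p5968 : PrV chk L5968 := leafV c5968

theorem c5969 : lp7 (fun s => chk (uent L5969 s)) 0 = true := by decide +kernel
theorem p5969 : PrV chk L5969 := leafV c5969

theorem c5970 : lp7 (fun s => chk (uent L5970 s)) 0 = true := by decide +kernel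
theorem p5970 : PrV chk L5970 := leafV c5970

theorem c5971 : lp7 (fun s => chk (uent L5971 s)) 0 = true := by decide +kernel
theorem p5971 : PrV chk L5971 := leafV c5971

theorem c5972 : lp7 (fun s => chk (uent L5972 s)) 0 = true := by decide +kernel
theorem p5972 : PrV chk L5972 := leafV c5972

theorem c5973 : lp7 (fun s => chk (uent L5973 s)) 0 = true := by decide +kernel
theorem p5973 : PrV chk L5973 := leafV c5973

theorem c5974 : lp7 (fun s => chk (uent L5974 s)) 0 = true := by decide +kernel
theorem p5974 : PrV chk L5974 := leafV c5974

theorem c5975 : lp7 (fun s => chk (uent L5975 s)) 0 = true := by decide +kernel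
theorem p5975 : PrV chk L5975 := leafV c5975

theorem c5976 : lp7 (fun s => chk (uent L5976 s)) 0 = true := by decide +kernel
theorem p5976 : PrV chk L5976 := leafV c5976

theorem c5977 : lp7 (fun s => chk (uent L5977 s)) 0 = true := by decide +kernel
theorem p5977 : PrV chk L5977 := leafV c5977

theorem c5978 : lp7 (fun s => chk (uent L5978 s)) 0 = true := by decide +kernel
theorem p5978 : PrV chk L5978 := leafV c5978

theorem c5979 : lp7 (fun s => chk (uent L5979 s)) 0 = true := by decide +kernel
theorem p5979 : PrV chk L5979 := leafV c5979

theorem c5980 : lp7 (fun s => chk (uent L5980 s)) 0 = true := by decide +kernel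
theorem p5980 : PrV chk L5980 := leafV c5980

theorem c5981 : lp7 (fun s => chk (uent L5981 s)) 0 = true := by decide +kernel
theorem p5981 : PrV chk L5981 := leafV c5981

theorem c5982 : lp7 (fun s => chk (uent L5982 s)) 0 = true := by decide +kernel
theorem p5982 : PrV chk L5982 := leafV c5982

theorem c5983 : lp7 (fun s => chk (uent L5983 s)) 0 = true := by decide +kernel
theorem p5983 : PrV chk L5983 := leafV c5983

theorem c5984 : lp7 (fun s => chk (uent L5984 s)) 0 = true := by decide +kernel
theorem p5984 : PrV chk L5984 := leafV c5984

theorem c5985 : lp7 (fun s => chk (uent L5985 s)) 0 = true := by decide +kernel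
theorem p5985 : PrV chk L5985 := leafV c5985

theorem c5986 : lp7 (fun s => chk (uent L5986 s)) 0 = true := by decide +kernel
theorem p5986 : PrV chk L5986 := leafV c5986

theorem c5987 : lp7 (fun s => chk (uent L5987 s)) 0 = true := by decide +kernel
theorem p5987 : PrV chk L5987 := leafV c5987

theorem c5988 : lp7 (fun s => chk (uent L5988 s)) 0 = true := by decide +kernel
theorem p5988 : PrV chk L5988 := leafV c5988

theorem c5989 : lp7 (fun s => chk (uent L5989 s)) 0 = true := by decide +kernel
theorem p5989 : PrV chk L5989 := leafV c5989

theorem c5990 : lp7 (fun s => chk (uent L5990 s)) 0 = true := by decide +kernel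
theorem p5990 : PrV chk L5990 := leafV c5990

theorem c5991 : lp7 (fun s => chk (uent L5991 s)) 0 = true := by decide +kernel
theorem p5991 : PrV chk L5991 := leafV c5991

theorem c5992 : lp7 (fun s => chk (uent L5992 s)) 0 = true := by decide +kernel
theorem p5992 : PrV chk L5992 := leafV c5992

theorem c5993 : lp7 (fun s => chk (uent L5993 s)) 0 = true := by decide +kernel
theorem p5993 : PrV chk L5993 := leafV c5993

theorem c5994 : lp7 (fun s => chk (uent L5994 s)) 0 = true := by decide +kernel
theorem p5994 : PrV chk L5994 := leafV c5994

theorem c5995 : lp7 (fun s => chk (uent L5995 s)) 0 = true := by decide +kernel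
theorem p5995 : PrV chk L5995 := leafV c5995

theorem c5996 : lp7 (fun s => chk (uent L5996 s)) 0 = true := by decide +kernel
theorem p5996 : PrV chk L5996 := leafV c5996

theorem c5997 : lp7 (fun s => chk (uent L5997 s)) 0 = true := by decide +kernel
theorem p5997 : PrV chk L5997 := leafV c5997

theorem c5998 : lp7 (fun s => chk (uent L5998 s)) 0 = true := by decide +kernel
theorem p5998 : PrV chk L5998 := leafV c5998

theorem c5999 : lp7 (fun s => chk (uent L5999 s)) 0 = true := by decide +kernel
theorem p5999 : PrV chk L5999 := leafV c5999

theorem c6000 : lp7 (fun s => chk (uent L6000 s)) 0 = true := by decide +kernel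
theorem p6000 : PrV chk L6000 := leafV c6000

theorem c6001 : lp7 (fun s => chk (uent L6001 s)) 0 = true := by decide +kernel
theorem p6001 : PrV chk L6001 := leafV c6001

theorem c6002 : lp7 (fun s => chk (uent L6002 s)) 0 = true := by decide +kernel
theorem p6002 : PrV chk L6002 := leafV c6002

theorem c6003 : lp7 (fun s => chk (uent L6003 s)) 0 = true := by decide +kernel
theorem p6003 : PrV chk L6003 := leafV c6003

theorem c6004 : lp7 (fun s => chk (uent L6004 s)) 0 = true := by decide +kernel
theorem p6004 : PrV chk L6004 := leafV c6004

theorem c6005 : lp7 (fun s => chk (uent L6005 s)) 0 = true := by decide +kernel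
theorem p6005 : PrV chk L6005 := leafV c6005

theorem c6006 : lp7 (fun s => chk (uent L6006 s)) 0 = true := by decide +kernel
theorem p6006 : PrV chk L6006 := leafV c6006

theorem c6007 : lp7 (fun s => chk (uent L6007 s)) 0 = true := by decide +kernel
theorem p6007 : PrV chk L6007 := leafV c6007

theorem c6008 : lp7 (fun s => chk (uent L6008 s)) 0 = true := by decide +kernel
theorem p6008 : PrV chk L6008 := leafV c6008

theorem c6009 : lp7 (fun s => chk (uent L6009 s)) 0 = true := by decide +kernel
theorem p6009 : PrV chk L6009 := leafV c6009

theorem c6010 : lp7 (fun s => chk (uent L6010 s)) 0 = true := by decide +kernel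
theorem p6010 : PrV chk L6010 := leafV c6010

theorem c6011 : lp7 (fun s => chk (uent L6011 s)) 0 = true := by decide +kernel
theorem p6011 : PrV chk L6011 := leafV c6011

theorem c6012 : lp7 (fun s => chk (uent L6012 s)) 0 = true := by decide +kernel
theorem p6012 : PrV chk L6012 := leafV c6012

theorem c6013 : lp7 (fun s => chk (uent L6013 s)) 0 = true := by decide +kernel
theorem p6013 : PrV chk L6013 := leafV c6013

theorem c6014 : lp7 (fun s => chk (uent L6014 s)) 0 = true := by decide +kernel
theorem p6014 : PrV chk L6014 := leafV c6014

theorem c6015 : lp7 (fun s => chk (uent L6015 s)) 0 = true := by decide +kernel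
theorem p6015 : PrV chk L6015 := leafV c6015

theorem c6016 : lp7 (fun s => chk (uent L6016 s)) 0 = true := by decide +kernel
theorem p6016 : PrV chk L6016 := leafV c6016

theorem c6017 : lp7 (fun s => chk (uent L6017 s)) 0 = true := by decide +kernel
theorem p6017 : PrV chk L6017 := leafV c6017

theorem c6018 : lp7 (fun s => chk (uent L6018 s)) 0 = true := by decide +kernel
theorem p6018 : PrV chk L6018 := leafV c6018

theorem c6019 : lp7 (fun s => chk (uent L6019 s)) 0 = true := by decide +kernel
theorem p6019 : PrV chk L6019 := leafV c6019

theorem c6020 : lp7 (fun s => chk (uent L6020 s)) 0 = true := by decide +kernel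
theorem p6020 : PrV chk L6020 := leafV c6020

theorem c6021 : lp7 (fun s => chk (uent L6021 s)) 0 = true := by decide +kernel
theorem p6021 : PrV chk L6021 := leafV c6021

theorem c6022 : lp7 (fun s => chk (uent L6022 s)) 0 = true := by decide +kernel
theorem p6022 : PrV chk L6022 := leafV c6022

theorem c6023 : lp7 (fun s => chk (uent L6023 s)) 0 = true := by decide +kernel
theorem p6023 : PrV chk L6023 := leafV c6023

theorem c6024 : lp7 (fun s => chk (uent L6024 s)) 0 = true := by decide +kernel
theorem p6024 : PrV chk L6024 := leafV c6024

theorem c6025 : lp7 (fun s => chk (uent L6025 s)) 0 = true := by decide +kernel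
theorem p6025 : PrV chk L6025 := leafV c6025

theorem c6026 : lp7 (fun s => chk (uent L6026 s)) 0 = true := by decide +kernel
theorem p6026 : PrV chk L6026 := leafV c6026

theorem c6027 : lp7 (fun s => chk (uent L6027 s)) 0 = true := by decide +kernel
theorem p6027 : PrV chk L6027 := leafV c6027

theorem c6028 : lp7 (fun s => chk (uent L6028 s)) 0 = true := by decide +kernel
theorem p6028 : PrV chk L6028 := leafV c6028

theorem c6029 : lp7 (fun s => chk (uent L6029 s)) 0 = true := by decide +kernel
theorem p6029 : PrV chk L6029 := leafV c6029

theorem c6030 : lp7 (fun s => chk (uent L6030 s)) 0 = true := by decide +kernel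
theorem p6030 : PrV chk L6030 := leafV c6030

theorem c6031 : lp7 (fun s => chk (uent L6031 s)) 0 = true := by decide +kernel
theorem p6031 : PrV chk L6031 := leafV c6031

theorem c6032 : lp7 (fun s => chk (uent L6032 s)) 0 = true := by decide +kernel
theorem p6032 : PrV chk L6032 := leafV c6032

theorem c6033 : lp7 (fun s => chk (uent L6033 s)) 0 = true := by decide +kernel
theorem p6033 : PrV chk L6033 := leafV c6033

theorem c6034 : lp7 (fun s => chk (uent L6034 s)) 0 = true := by decide +kernel
theorem p6034 : PrV chk L6034 := leafV c6034

theorem c6035 : lp7 (fun s => chk (uent L6035 s)) 0 = true := by decide +kernel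
theorem p6035 : PrV chk L6035 := leafV c6035

theorem c6036 : lp7 (fun s => chk (uent L6036 s)) 0 = true := by decide +kernel
theorem p6036 : PrV chk L6036 := leafV c6036

theorem c6037 : lp7 (fun s => chk (uent L6037 s)) 0 = true := by decide +kernel
theorem p6037 : PrV chk L6037 := leafV c6037

theorem c6038 : lp7 (fun s => chk (uent L6038 s)) 0 = true := by decide +kernel
theorem p6038 : PrV chk L6038 := leafV c6038

theorem c6039 : lp7 (fun s => chk (uent L6039 s)) 0 = true := by decide +kernel
theorem p6039 : PrV chk L6039 := leafV c6039

theorem c6040 : lp7 (fun s => chk (uent L6040 s)) 0 = true := by decide +kernel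
theorem p6040 : PrV chk L6040 := leafV c6040

theorem c6041 : lp7 (fun s => chk (uent L6041 s)) 0 = true := by decide +kernel
theorem p6041 : PrV chk L6041 := leafV c6041

theorem c6042 : lp7 (fun s => chk (uent L6042 s)) 0 = true := by decide +kernel
theorem p6042 : PrV chk L6042 := leafV c6042

theorem c6043 : lp7 (fun s => chk (uent L6043 s)) 0 = true := by decide +kernel
theorem p6043 : PrV chk L6043 := leafV c6043

theorem c6044 : lp7 (fun s => chk (uent L6044 s)) 0 = true := by decide +kernel
theorem p6044 : PrV chk L6044 := leafV c6044

theorem c6045 : lp7 (fun s => chk (uent L6045 s)) 0 = true := by decide +kernel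
theorem p6045 : PrV chk L6045 := leafV c6045

theorem c6046 : lp7 (fun s => chk (uent L6046 s)) 0 = true := by decide +kernel
theorem p6046 : PrV chk L6046 := leafV c6046

theorem c6047 : lp7 (fun s => chk (uent L6047 s)) 0 = true := by decide +kernel
theorem p6047 : PrV chk L6047 := leafV c6047

theorem c6048 : lp7 (fun s => chk (uent L6048 s)) 0 = true := by decide +kernel
theorem p6048 : PrV chk L6048 := leafV c6048

theorem c6049 : lp7 (fun s => chk (uent L6049 s)) 0 = true := by decide +kernel
theorem p6049 : PrV chk L6049 := leafV c6049

theorem c6050 : lp7 (fun s => chk (uent L6050 s)) 0 = true := by decide +kernel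
theorem p6050 : PrV chk L6050 := leafV c6050

theorem c6051 : lp7 (fun s => chk (uent L6051 s)) 0 = true := by decide +kernel
theorem p6051 : PrV chk L6051 := leafV c6051

theorem c6052 : lp7 (fun s => chk (uent L6052 s)) 0 = true := by decide +kernel
theorem p6052 : PrV chk L6052 := leafV c6052

theorem c6053 : lp7 (fun s => chk (uent L6053 s)) 0 = true := by decide +kernel
theorem p6053 : PrV chk L6053 := leafV c6053

theorem c6054 : lp7 (fun s => chk (uent L6054 s)) 0 = true := by decide +kernel
theorem p6054 : PrV chk L6054 := leafV c6054

theorem c6055 : lp7 (fun s => chk (uent L6055 s)) 0 = true := by decide +kernel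
theorem p6055 : PrV chk L6055 := leafV c6055

theorem c6056 : lp7 (fun s => chk (uent L6056 s)) 0 = true := by decide +kernel
theorem p6056 : PrV chk L6056 := leafV c6056

theorem c6057 : lp7 (fun s => chk (uent L6057 s)) 0 = true := by decide +kernel
theorem p6057 : PrV chk L6057 := leafV c6057

theorem c6058 : lp7 (fun s => chk (uent L6058 s)) 0 = true := by decide +kernel
theorem p6058 : PrV chk L6058 := leafV c6058

theorem c6059 : lp7 (fun s => chk (uent L6059 s)) 0 = true := by decide +kernel
theorem p6059 : PrV chk L6059 := leafV c6059

theorem c6060 : lp7 (fun s => chk (uent L6060 s)) 0 = true := by decide +kernel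
theorem p6060 : PrV chk L6060 := leafV c6060

theorem c6061 : lp7 (fun s => chk (uent L6061 s)) 0 = true := by decide +kernel
theorem p6061 : PrV chk L6061 := leafV c6061

theorem c6062 : lp7 (fun s => chk (uent L6062 s)) 0 = true := by decide +kernel
theorem p6062 : PrV chk L6062 := leafV c6062

theorem c6063 : lp7 (fun s => chk (uent L6063 s)) 0 = true := by decide +kernel
theorem p6063 : PrV chk L6063 := leafV c6063

theorem c6064 : lp7 (fun s => chk (uent L6064 s)) 0 = true := by decide +kernel
theorem p6064 : PrV chk L6064 := leafV c6064

theorem c6065 : lp7 (fun s => chk (uent L6065 s)) 0 = true := by decide +kernel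
theorem p6065 : PrV chk L6065 := leafV c6065

theorem c6066 : lp7 (fun s => chk (uent L6066 s)) 0 = true := by decide +kernel
theorem p6066 : PrV chk L6066 := leafV c6066

theorem c6067 : lp7 (fun s => chk (uent L6067 s)) 0 = true := by decide +kernel
theorem p6067 : PrV chk L6067 := leafV c6067

theorem c6068 : lp7 (fun s => chk (uent L6068 s)) 0 = true := by decide +kernel
theorem p6068 : PrV chk L6068 := leafV c6068

theorem c6069 : lp7 (fun s => chk (uent L6069 s)) 0 = true := by decide +kernel
theorem p6069 : PrV chk L6069 := leafV c6069

theorem c6070 : lp7 (fun s => chk (uent L6070 s)) 0 = true := by decide +kernel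
theorem p6070 : PrV chk L6070 := leafV c6070

theorem c6071 : lp7 (fun s => chk (uent L6071 s)) 0 = true := by decide +kernel
theorem p6071 : PrV chk L6071 := leafV c6071

theorem c6072 : lp7 (fun s => chk (uent L6072 s)) 0 = true := by decide +kernel
theorem p6072 : PrV chk L6072 := leafV c6072

theorem c6073 : lp7 (fun s => chk (uent L6073 s)) 0 = true := by decide +kernel
theorem p6073 : PrV chk L6073 := leafV c6073

theorem c6074 : lp7 (fun s => chk (uent L6074 s)) 0 = true := by decide +kernel
theorem p6074 : PrV chk L6074 := leafV c6074

theorem c6075 : lp7 (fun s => chk (uent L6075 s)) 0 = true := by decide +kernel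
theorem p6075 : PrV chk L6075 := leafV c6075

theorem c6076 : lp7 (fun s => chk (uent L6076 s)) 0 = true := by decide +kernel
theorem p6076 : PrV chk L6076 := leafV c6076

theorem c6077 : lp7 (fun s => chk (uent L6077 s)) 0 = true := by decide +kernel
theorem p6077 : PrV chk L6077 := leafV c6077

theorem c6078 : lp7 (fun s => chk (uent L6078 s)) 0 = true := by decide +kernel
theorem p6078 : PrV chk L6078 := leafV c6078

theorem c6079 : lp7 (fun s => chk (uent L6079 s)) 0 = true := by decide +kernel
theorem p6079 : PrV chk L6079 := leafV c6079

theorem c6080 : lp7 (fun s => chk (uent L6080 s)) 0 = true := by decide +kernel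
theorem p6080 : PrV chk L6080 := leafV c6080

theorem c6081 : lp7 (fun s => chk (uent L6081 s)) 0 = true := by decide +kernel
theorem p6081 : PrV chk L6081 := leafV c6081

theorem c6082 : lp7 (fun s => chk (uent L6082 s)) 0 = true := by decide +kernel
theorem p6082 : PrV chk L6082 := leafV c6082

theorem c6083 : lp7 (fun s => chk (uent L6083 s)) 0 = true := by decide +kernel
theorem p6083 : PrV chk L6083 := leafV c6083

theorem c6084 : lp7 (fun s => chk (uent L6084 s)) 0 = true := by decide +kernel
theorem p6084 : PrV chk L6084 := leafV c6084

theorem c6085 : lp7 (fun s => chk (uent L6085 s)) 0 = true := by decide +kernel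
theorem p6085 : PrV chk L6085 := leafV c6085

theorem c6086 : lp7 (fun s => chk (uent L6086 s)) 0 = true := by decide +kernel
theorem p6086 : PrV chk L6086 := leafV c6086

theorem c6087 : lp7 (fun s => chk (uent L6087 s)) 0 = true := by decide +kernel
theorem p6087 : PrV chk L6087 := leafV c6087

theorem c6088 : lp7 (fun s => chk (uent L6088 s)) 0 = true := by decide +kernel
theorem p6088 : PrV chk L6088 := leafV c6088

theorem c6089 : lp7 (fun s => chk (uent L6089 s)) 0 = true := by decide +kernel
theorem p6089 : PrV chk L6089 := leafV c6089

theorem c6090 : lp7 (fun s => chk (uent L6090 s)) 0 = true := by decide +kernel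
theorem p6090 : PrV chk L6090 := leafV c6090

theorem c6091 : lp7 (fun s => chk (uent L6091 s)) 0 = true := by decide +kernel
theorem p6091 : PrV chk L6091 := leafV c6091

theorem c6092 : lp7 (fun s => chk (uent L6092 s)) 0 = true := by decide +kernel
theorem p6092 : PrV chk L6092 := leafV c6092

theorem c6093 : lp7 (fun s => chk (uent L6093 s)) 0 = true := by decide +kernel
theorem p6093 : PrV chk L6093 := leafV c6093

theorem c6094 : lp7 (fun s => chk (uent L6094 s)) 0 = true := by decide +kernel
theorem p6094 : PrV chk L6094 := leafV c6094

theorem c6095 : lp7 (fun s => chk (uent L6095 s)) 0 = true := by decide +kernel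
theorem p6095 : PrV chk L6095 := leafV c6095

theorem c6096 : lp7 (fun s => chk (uent L6096 s)) 0 = true := by decide +kernel
theorem p6096 : PrV chk L6096 := leafV c6096

theorem c6097 : lp7 (fun s => chk (uent L6097 s)) 0 = true := by decide +kernel
theorem p6097 : PrV chk L6097 := leafV c6097

theorem c6098 : lp7 (fun s => chk (uent L6098 s)) 0 = true := by decide +kernel
theorem p6098 : PrV chk L6098 := leafV c6098

theorem c6099 : lp7 (fun s => chk (uent L6099 s)) 0 = true := by decide +kernel
theorem p6099 : PrV chk L6099 := leafV c6099

theorem c6100 : lp7 (fun s => chk (uent L6100 s)) 0 = true := by decide +kernel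
theorem p6100 : PrV chk L6100 := leafV c6100

theorem c6101 : lp7 (fun s => chk (uent L6101 s)) 0 = true := by decide +kernel
theorem p6101 : PrV chk L6101 := leafV c6101

theorem c6102 : lp7 (fun s => chk (uent L6102 s)) 0 = true := by decide +kernel
theorem p6102 : PrV chk L6102 := leafV c6102

theorem c6103 : lp7 (fun s => chk (uent L6103 s)) 0 = true := by decide +kernel
theorem p6103 : PrV chk L6103 := leafV c6103

theorem c6104 : lp7 (fun s => chk (uent L6104 s)) 0 = true := by decide +kernel
theorem p6104 : PrV chk L6104 := leafV c6104

theorem c6105 : lp7 (fun s => chk (uent L6105 s)) 0 = true := by decide +kernel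
theorem p6105 : PrV chk L6105 := leafV c6105

theorem c6106 : lp7 (fun s => chk (uent L6106 s)) 0 = true := by decide +kernel
theorem p6106 : PrV chk L6106 := leafV c6106

theorem c6107 : lp7 (fun s => chk (uent L6107 s)) 0 = true := by decide +kernel
theorem p6107 : PrV chk L6107 := leafV c6107

theorem c6108 : lp7 (fun s => chk (uent L6108 s)) 0 = true := by decide +kernel
theorem p6108 : PrV chk L6108 := leafV c6108

theorem c6109 : lp7 (fun s => chk (uent L6109 s)) 0 = true := by decide +kernel
theorem p6109 : PrV chk L6109 := leafV c6109

theorem c6110 : lp7 (fun s => chk (uent L6110 s)) 0 = true := by decide +kernel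
theorem p6110 : PrV chk L6110 := leafV c6110

theorem c6111 : lp7 (fun s => chk (uent L6111 s)) 0 = true := by decide +kernel
theorem p6111 : PrV chk L6111 := leafV c6111

theorem c6112 : lp7 (fun s => chk (uent L6112 s)) 0 = true := by decide +kernel
theorem p6112 : PrV chk L6112 := leafV c6112

theorem c6113 : lp7 (fun s => chk (uent L6113 s)) 0 = true := by decide +kernel
theorem p6113 : PrV chk L6113 := leafV c6113

theorem c6114 : lp7 (fun s => chk (uent L6114 s)) 0 = true := by decide +kernel
theorem p6114 : PrV chk L6114 := leafV c6114

theorem c6115 : lp7 (fun s => chk (uent L6115 s)) 0 = true := by decide +kernel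
theorem p6115 : PrV chk L6115 := leafV c6115

theorem c6116 : lp7 (fun s => chk (uent L6116 s)) 0 = true := by decide +kernel
theorem p6116 : PrV chk L6116 := leafV c6116

theorem c6117 : lp7 (fun s => chk (uent L6117 s)) 0 = true := by decide +kernel
theorem p6117 : PrV chk L6117 := leafV c6117

theorem c6118 : lp7 (fun s => chk (uent L6118 s)) 0 = true := by decide +kernel
theorem p6118 : PrV chk L6118 := leafV c6118

theorem c6119 : lp7 (fun s => chk (uent L6119 s)) 0 = true := by decide +kernel
theorem p6119 : PrV chk L6119 := leafV c6119

theorem c6120 : lp7 (fun s => chk (uent L6120 s)) 0 = true := by decide +kernel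
theorem p6120 : PrV chk L6120 := leafV c6120

theorem c6121 : lp7 (fun s => chk (uent L6121 s)) 0 = true := by decide +kernel
theorem p6121 : PrV chk L6121 := leafV c6121

theorem c6122 : lp7 (fun s => chk (uent L6122 s)) 0 = true := by decide +kernel
theorem p6122 : PrV chk L6122 := leafV c6122

theorem c6123 : lp7 (fun s => chk (uent L6123 s)) 0 = true := by decide +kernel
theorem p6123 : PrV chk L6123 := leafV c6123

theorem c6124 : lp7 (fun s => chk (uent L6124 s)) 0 = true := by decide +kernel
theorem p6124 : PrV chk L6124 := leafV c6124

theorem c6125 : lp7 (fun s => chk (uent L6125 s)) 0 = true := by decide +kernel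
theorem p6125 : PrV chk L6125 := leafV c6125

theorem c6126 : lp7 (fun s => chk (uent L6126 s)) 0 = true := by decide +kernel
theorem p6126 : PrV chk L6126 := leafV c6126

theorem c6127 : lp7 (fun s => chk (uent L6127 s)) 0 = true := by decide +kernel
theorem p6127 : PrV chk L6127 := leafV c6127

theorem c6128 : lp7 (fun s => chk (uent L6128 s)) 0 = true := by decide +kernel
theorem p6128 : PrV chk L6128 := leafV c6128

theorem c6129 : lp7 (fun s => chk (uent L6129 s)) 0 = true := by decide +kernel
theorem p6129 : PrV chk L6129 := leafV c6129

theorem c6130 : lp7 (fun s => chk (uent L6130 s)) 0 = true := by decide +kernel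
theorem p6130 : PrV chk L6130 := leafV c6130

theorem c6131 : lp7 (fun s => chk (uent L6131 s)) 0 = true := by decide +kernel
theorem p6131 : PrV chk L6131 := leafV c6131

theorem c6132 : lp7 (fun s => chk (uent L6132 s)) 0 = true := by decide +kernel
theorem p6132 : PrV chk L6132 := leafV c6132

theorem c6133 : lp7 (fun s => chk (uent L6133 s)) 0 = true := by decide +kernel
theorem p6133 : PrV chk L6133 := leafV c6133

theorem c6134 : lp7 (fun s => chk (uent L6134 s)) 0 = true := by decide +kernel
theorem p6134 : PrV chk L6134 := leafV c6134

theorem c6135 : lp7 (fun s => chk (uent L6135 s)) 0 = true := by decide +kernel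
theorem p6135 : PrV chk L6135 := leafV c6135

theorem c6136 : lp7 (fun s => chk (uent L6136 s)) 0 = true := by decide +kernel
theorem p6136 : PrV chk L6136 := leafV c6136

theorem c6137 : lp7 (fun s => chk (uent L6137 s)) 0 = true := by decide +kernel
theorem p6137 : PrV chk L6137 := leafV c6137

theorem c6138 : lp7 (fun s => chk (uent L6138 s)) 0 = true := by decide +kernel
theorem p6138 : PrV chk L6138 := leafV c6138

theorem c6139 : lp7 (fun s => chk (uent L6139 s)) 0 = true := by decide +kernel
theorem p6139 : PrV chk L6139 := leafV c6139

theorem c6140 : lp7 (fun s => chk (uent L6140 s)) 0 = true := by decide +kernel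
theorem p6140 : PrV chk L6140 := leafV c6140

theorem c6141 : lp7 (fun s => chk (uent L6141 s)) 0 = true := by decide +kernel
theorem p6141 : PrV chk L6141 := leafV c6141

theorem c6142 : lp7 (fun s => chk (uent L6142 s)) 0 = true := by decide +kernel
theorem p6142 : PrV chk L6142 := leafV c6142

theorem c6143 : lp7 (fun s => chk (uent L6143 s)) 0 = true := by decide +kernel
theorem p6143 : PrV chk L6143 := leafV c6143

end Pool.Agent.ad013a.W
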