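import Pool.Agent.H.MP_ad013a_pr.h63w.A.T
import Pool.Agent.H.MP_ad013a_pr.h63w.VLoop

namespace Pool.Agent.ad013a.W

theorem c6144 : lp7 (fun s => chk (uent L6144 s)) 0 = true := by decide +kernel
theorem p6144 : PrV chk L6144 := leafV c6144

theorem c6145 : lp7 (fun s => chk (uent L6145 s)) 0 = true := by decide +kernel
theorem p6145 : PrV chk L6145 := leafV c6145

theorem c6146 : lp7 (fun s => chk (uent L6146 s)) 0 = true := by decide +kernel
theorem p6146 : PrV chk L6146 := leafV c6146

theorem c6147 : lp7 (fun s => chk (uent L6147 s)) 0 = true := by decide +kernel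
theorem p6147 : PrV chk L6147 := leafV c6147

theorem c6148 : lp7 (fun s => chk (uent L6148 s)) 0 = true := by decide +kernel
theorem p6148 : PrV chk L6148 := leafV c6148

theorem c6149 : lp7 (fun s => chk (uent L6149 s)) 0 = true := by decide +kernel
theorem p6149 : PrV chk L6149 := leafV c6149

theorem c6150 : lp7 (fun s => chk (uent L6150 s)) 0 = true := by decide +kernel
theorem p6150 : PrV chk L6150 := leafV c6150

theorem c6151 : lp7 (fun s => chk (uent L6151 s)) 0 = true := by decide +kernel
theorem p6151 : PrV chk L6151 := leafV c6151

theorem c6152 : lp7 (fun s => chk (uent L6152 s)) 0 = true := by decide +kernel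
theorem p6152 : PrV chk L6152 := leafV c6152

theorem c6153 : lp7 (fun s => chk (uent L6153 s)) 0 = true := by decide +kernel
theorem p6153 : PrV chk L6153 := leafV c6153

theorem c6154 : lp7 (fun s => chk (uent L6154 s)) 0 = true := by decide +kernel
theorem p6154 : PrV chk L6154 := leafV c6154

theorem c6155 : lp7 (fun s => chk (uent L6155 s)) 0 = true := by decide +kernel
theorem p6155 : PrV chk L6155 := leafV c6155

theorem c6156 : lp7 (fun s => chk (uent L6156 s)) 0 = true := by decide +kernel
theorem p6156 : PrV chk L6156 := leafV c6156

theorem c6157 : lp7 (fun s => chk (uent L6157 s)) 0 = true := by decide +kernel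
theorem p6157 : PrV chk L6157 := leafV c6157

theorem c6158 : lp7 (fun s => chk (uent L6158 s)) 0 = true := by decide +kernel
theorem p6158 : PrV chk L6158 := leafV c6158

theorem c6159 : lp7 (fun s => chk (uent L6159 s)) 0 = true := by decide +kernel
theorem p6159 : PrV chk L6159 := leafV c6159

theorem c6160 : lp7 (fun s => chk (uent L6160 s)) 0 = true := by decide +kernel
theorem p6160 : PrV chk L6160 := leafV c6160

theorem c6161 : lp7 (fun s => chk (uent L6161 s)) 0 = true := by decide +kernel
theorem p6161 : PrV chk L6161 := leafV c6161

theorem c6162 : lp7 (fun s => chk (uent L6162 s)) 0 = true := by decide +kernel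
theorem p6162 : PrV chk L6162 := leafV c6162

theorem c6163 : lp7 (fun s => chk (uent L6163 s)) 0 = true := by decide +kernel
theorem p6163 : PrV chk L6163 := leafV c6163

theorem c6164 : lp7 (fun s => chk (uent L6164 s)) 0 = true := by decide +kernel
theorem p6164 : PrV chk L6164 := leafV c6164

theorem c6165 : lp7 (fun s => chk (uent L6165 s)) 0 = true := by decide +kernel
theorem p6165 : PrV chk L6165 := leafV c6165

theorem c6166 : lp7 (fun s => chk (uent L6166 s)) 0 = true := by decide +kernel
theorem p6166 : PrV chk L6166 := leafV c6166

theorem c6167 : lp7 (fun s => chk (uent L6167 s)) 0 = true := by decide +kernel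
theorem p6167 : PrV chk L6167 := leafV c6167

theorem c6168 : lp7 (fun s => chk (uent L6168 s)) 0 = true := by decide +kernel
theorem p6168 : PrV chk L6168 := leafV c6168

theorem c6169 : lp7 (fun s => chk (uent L6169 s)) 0 = true := by decide +kernel
theorem p6169 : PrV chk L6169 := leafV c6169

theorem c6170 : lp7 (fun s => chk (uent L6170 s)) 0 = true := by decide +kernel
theorem p6170 : PrV chk L6170 := leafV c6170

theorem c6171 : lp7 (fun s => chk (uent L6171 s)) 0 = true := by decide +kernel
theorem p6171 : PrV chk L6171 := leafV c6171

theorem c6172 : lp7 (fun s => chk (uent L6172 s)) 0 = true := by decide +kernel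
theorem p6172 : PrV chk L6172 := leafV c6172

theorem c6173 : lp7 (fun s => chk (uent L6173 s)) 0 = true := by decide +kernel
theorem p6173 : PrV chk L6173 := leafV c6173

theorem c6174 : lp7 (fun s => chk (uent L6174 s)) 0 = true := by decide +kernel
theorem p6174 : PrV chk L6174 := leafV c6174

theorem c6175 : lp7 (fun s => chk (uent L6175 s)) 0 = true := by decide +kernel
theorem p6175 : PrV chk L6175 := leafV c6175

theorem c6176 : lp7 (fun s => chk (uent L6176 s)) 0 = true := by decide +kernel
theorem p6176 : PrV chk L6176 := leafV c6176

theorem c6177 : lp7 (fun s => chk (uent L6177 s)) 0 = true := by decide +kernel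
theorem p6177 : PrV chk L6177 := leafV c6177

theorem c6178 : lp7 (fun s => chk (uent L6178 s)) 0 = true := by decide +kernel
theorem p6178 : PrV chk L6178 := leafV c6178

theorem c6179 : lp7 (fun s => chk (uent L6179 s)) 0 = true := by decide +kernel
theorem p6179 : PrV chk L6179 := leafV c6179

theorem c6180 : lp7 (fun s => chk (uent L6180 s)) 0 = true := by decide +kernel
theorem p6180 : PrV chk L6180 := leafV c6180

theorem c6181 : lp7 (fun s => chk (uent L6181 s)) 0 = true := by decide +kernel
theorem p6181 : PrV chk L6181 := leafV c6181

theorem c6182 : lp7 (fun s => chk (uent L6182 s)) 0 = true := by decide +kernel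
theorem p6182 : PrV chk L6182 := leafV c6182

theorem c6183 : lp7 (fun s => chk (uent L6183 s)) 0 = true := by decide +kernel
theorem p6183 : PrV chk L6183 := leafV c6183

theorem c6184 : lp7 (fun s => chk (uent L6184 s)) 0 = true := by decide +kernel
theorem p6184 : PrV chk L6184 := leafV c6184

theorem c6185 : lp7 (fun s => chk (uent L6185 s)) 0 = true := by decide +kernel
theorem p6185 : PrV chk L6185 := leafV c6185

theorem c6186 : lp7 (fun s => chk (uent L6186 s)) 0 = true := by decide +kernel
theorem p6186 : PrV chk L6186 := leafV c6186

theorem c6187 : lp7 (fun s => chk (uent L6187 s)) 0 = true := by decide +kernel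
theorem p6187 : PrV chk L6187 := leafV c6187

theorem c6188 : lp7 (fun s => chk (uent L6188 s)) 0 = true := by decide +kernel
theorem p6188 : PrV chk L6188 := leafV c6188

theorem c6189 : lp7 (fun s => chk (uent L6189 s)) 0 = true := by decide +kernel
theorem p6189 : PrV chk L6189 := leafV c6189

theorem c6190 : lp7 (fun s => chk (uent L6190 s)) 0 = true := by decide +kernel
theorem p6190 : PrV chk L6190 := leafV c6190

theorem c6191 : lp7 (fun s => chk (uent L6191 s)) 0 = true := by decide +kernel
theorem p6191 : PrV chk L6191 := leafV c6191

theorem c6192 : lp7 (fun s => chk (uent L6192 s)) 0 = true := by decide +kernel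
theorem p6192 : PrV chk L6192 := leafV c6192

theorem c6193 : lp7 (fun s => chk (uent L6193 s)) 0 = true := by decide +kernel
theorem p6193 : PrV chk L6193 := leafV c6193

theorem c6194 : lp7 (fun s => chk (uent L6194 s)) 0 = true := by decide +kernel
theorem p6194 : PrV chk L6194 := leafV c6194

theorem c6195 : lp7 (fun s => chk (uent L6195 s)) 0 = true := by decide +kernel
theorem p6195 : PrV chk L6195 := leafV c6195

theorem c6196 : lp7 (fun s => chk (uent L6196 s)) 0 = true := by decide +kernel
theorem p6196 : PrV chk L6196 := leafV c6196

theorem c6197 : lp7 (fun s => chk (uent L6197 s)) 0 = true := by decide +kernel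
theorem p6197 : PrV chk L6197 := leafV c6197

theorem c6198 : lp7 (fun s => chk (uent L6198 s)) 0 = true := by decide +kernel
theorem p6198 : PrV chk L6198 := leafV c6198

theorem c6199 : lp7 (fun s => chk (uent L6199 s)) 0 = true := by decide +kernel
theorem p6199 : PrV chk L6199 := leafV c6199

theorem c6200 : lp7 (fun s => chk (uent L6200 s)) 0 = true := by decide +kernel
theorem p6200 : PrV chk L6200 := leafV c6200

theorem c6201 : lp7 (fun s => chk (uent L6201 s)) 0 = true := by decide +kernel
theorem p6201 : PrV chk L6201 := leafV c6201

theorem c6202 : lp7 (fun s => chk (uent L6202 s)) 0 = true := by decide +kernel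
theorem p6202 : PrV chk L6202 := leafV c6202

theorem c6203 : lp7 (fun s => chk (uent L6203 s)) 0 = true := by decide +kernel
theorem p6203 : PrV chk L6203 := leafV c6203

theorem c6204 : lp7 (fun s => chk (uent L6204 s)) 0 = true := by decide +kernel
theorem p6204 : PrV chk L6204 := leafV c6204

theorem c6205 : lp7 (fun s => chk (uent L6205 s)) 0 = true := by decide +kernel
theorem p6205 : PrV chk L6205 := leafV c6205

theorem c6206 : lp7 (fun s => chk (uent L6206 s)) 0 = true := by decide +kernel
theorem p6206 : PrV chk L6206 := leafV c6206

theorem c6207 : lp7 (fun s => chk (uent L6207 s)) 0 = true := by decide +kernel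
theorem p6207 : PrV chk L6207 := leafV c6207

theorem c6208 : lp7 (fun s => chk (uent L6208 s)) 0 = true := by decide +kernel
theorem p6208 : PrV chk L6208 := leafV c6208

theorem c6209 : lp7 (fun s => chk (uent L6209 s)) 0 = true := by decide +kernel
theorem p6209 : PrV chk L6209 := leafV c6209

theorem c6210 : lp7 (fun s => chk (uent L6210 s)) 0 = true := by decide +kernel
theorem p6210 : PrV chk L6210 := leafV c6210

theorem c6211 : lp7 (fun s => chk (uent L6211 s)) 0 = true := by decide +kernel
theorem p6211 : PrV chk L6211 := leafV c6211

theorem c6212 : lp7 (fun s => chk (uent L6212 s)) 0 = true := by decide +kernel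
theorem p6212 : PrV chk L6212 := leafV c6212

theorem c6213 : lp7 (fun s => chk (uent L6213 s)) 0 = true := by decide +kernel
theorem p6213 : PrV chk L6213 := leafV c6213

theorem c6214 : lp7 (fun s => chk (uent L6214 s)) 0 = true := by decide +kernel
theorem p6214 : PrV chk L6214 := leafV c6214

theorem c6215 : lp7 (fun s => chk (uent L6215 s)) 0 = true := by decide +kernel
theorem p6215 : PrV chk L6215 := leafV c6215

theorem c6216 : lp7 (fun s => chk (uent L6216 s)) 0 = true := by decide +kernel
theorem p6216 : PrV chk L6216 := leafV c6216

theorem c6217 : lp7 (fun s => chk (uent L6217 s)) 0 = true := by decide +kernel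
theorem p6217 : PrV chk L6217 := leafV c6217

theorem c6218 : lp7 (fun s => chk (uent L6218 s)) 0 = true := by decide +kernel
theorem p6218 : PrV chk L6218 := leafV c6218

theorem c6219 : lp7 (fun s => chk (uent L6219 s)) 0 = true := by decide +kernel
theorem p6219 : PrV chk L6219 := leafV c6219

theorem c6220 : lp7 (fun s => chk (uent L6220 s)) 0 = true := by decide +kernel
theorem p6220 : PrV chk L6220 := leafV c6220

theorem c6221 : lp7 (fun s => chk (uent L6221 s)) 0 = true := by decide +kernel
theorem p6221 : PrV chk L6221 := leafV c6221

theorem c6222 : lp7 (fun s => chk (uent L6222 s)) 0 = true := by decide +kernel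
theorem p6222 : PrV chk L6222 := leafV c6222

theorem c6223 : lp7 (fun s => chk (uent L6223 s)) 0 = true := by decide +kernel
theorem p6223 : PrV chk L6223 := leafV c6223

theorem c6224 : lp7 (fun s => chk (uent L6224 s)) 0 = true := by decide +kernel
theorem p6224 : PrV chk L6224 := leafV c6224

theorem c6225 : lp7 (fun s => chk (uent L6225 s)) 0 = true := by decide +kernel
theorem p6225 : PrV chk L6225 := leafV c6225

theorem c6226 : lp7 (fun s => chk (uent L6226 s)) 0 = true := by decide +kernel
theorem p6226 : PrV chk L6226 := leafV c6226

theorem c6227 : lp7 (fun s => chk (uent L6227 s)) 0 = true := by decide +kernel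
theorem p6227 : PrV chk L6227 := leafV c6227

theorem c6228 : lp7 (fun s => chk (uent L6228 s)) 0 = true := by decide +kernel
theorem p6228 : PrV chk L6228 := leafV c6228

theorem c6229 : lp7 (fun s => chk (uent L6229 s)) 0 = true := by decide +kernel
theorem p6229 : PrV chk L6229 := leafV c6229

theorem c6230 : lp7 (fun s => chk (uent L6230 s)) 0 = true := by decide +kernel
theorem p6230 : PrV chk L6230 := leafV c6230

theorem c6231 : lp7 (fun s => chk (uent L6231 s)) 0 = true := by decide +kernel
theorem p6231 : PrV chk L6231 := leafV c6231

theorem c6232 : lp7 (fun s => chk (uent L6232 s)) 0 = true := by decide +kernel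
theorem p6232 : PrV chk L6232 := leafV c6232

theorem c6233 : lp7 (fun s => chk (uent L6233 s)) 0 = true := by decide +kernel
theorem p6233 : PrV chk L6233 := leafV c6233

theorem c6234 : lp7 (fun s => chk (uent L6234 s)) 0 = true := by decide +kernel
theorem p6234 : PrV chk L6234 := leafV c6234

theorem c6235 : lp7 (fun s => chk (uent L6235 s)) 0 = true := by decide +kernel
theorem p6235 : PrV chk L6235 := leafV c6235

theorem c6236 : lp7 (fun s => chk (uent L6236 s)) 0 = true := by decide +kernel
theorem p6236 : PrV chk L6236 := leafV c6236

theorem c6237 : lp7 (fun s => chk (uent L6237 s)) 0 = true := by decide +kernel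
theorem p6237 : PrV chk L6237 := leafV c6237

theorem c6238 : lp7 (fun s => chk (uent L6238 s)) 0 = true := by decide +kernel
theorem p6238 : PrV chk L6238 := leafV c6238

theorem c6239 : lp7 (fun s => chk (uent L6239 s)) 0 = true := by decide +kernel
theorem p6239 : PrV chk L6239 := leafV c6239

theorem c6240 : lp7 (fun s => chk (uent L6240 s)) 0 = true := by decide +kernel
theorem p6240 : PrV chk L6240 := leafV c6240

theorem c6241 : lp7 (fun s => chk (uent L6241 s)) 0 = true := by decide +kernel
theorem p6241 : PrV chk L6241 := leafV c6241

theorem c6242 : lp7 (fun s => chk (uent L6242 s)) 0 = true := by decide +kernel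
theorem p6242 : PrV chk L6242 := leafV c6242

theorem c6243 : lp7 (fun s => chk (uent L6243 s)) 0 = true := by decide +kernel
theorem p6243 : PrV chk L6243 := leafV c6243

theorem c6244 : lp7 (fun s => chk (uent L6244 s)) 0 = true := by decide +kernel
theorem p6244 : PrV chk L6244 := leafV c6244

theorem c6245 : lp7 (fun s => chk (uent L6245 s)) 0 = true := by decide +kernel
theorem p6245 : PrV chk L6245 := leafV c6245

theorem c6246 : lp7 (fun s => chk (uent L6246 s)) 0 = true := by decide +kernel
theorem p6246 : PrV chk L6246 := leafV c6246

theorem c6247 : lp7 (fun s => chk (uent L6247 s)) 0 = true := by decide +kernel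
theorem p6247 : PrV chk L6247 := leafV c6247

theorem c6248 : lp7 (fun s => chk (uent L6248 s)) 0 = true := by decide +kernel
theorem p6248 : PrV chk L6248 := leafV c6248

theorem c6249 : lp7 (fun s => chk (uent L6249 s)) 0 = true := by decide +kernel
theorem p6249 : PrV chk L6249 := leafV c6249

theorem c6250 : lp7 (fun s => chk (uent L6250 s)) 0 = true := by decide +kernel
theorem p6250 : PrV chk L6250 := leafV c6250

theorem c6251 : lp7 (fun s => chk (uent L6251 s)) 0 = true := by decide +kernel
theorem p6251 : PrV chk L6251 := leafV c6251

theorem c6252 : lp7 (fun s => chk (uent L6252 s)) 0 = true := by decide +kernel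
theorem p6252 : PrV chk L6252 := leafV c6252

theorem c6253 : lp7 (fun s => chk (uent L6253 s)) 0 = true := by decide +kernel
theorem p6253 : PrV chk L6253 := leafV c6253

theorem c6254 : lp7 (fun s => chk (uent L6254 s)) 0 = true := by decide +kernel
theorem p6254 : PrV chk L6254 := leafV c6254

theorem c6255 : lp7 (fun s => chk (uent L6255 s)) 0 = true := by decide +kernel
theorem p6255 : PrV chk L6255 := leafV c6255

theorem c6256 : lp7 (fun s => chk (uent L6256 s)) 0 = true := by decide +kernel
theorem p6256 : PrV chk L6256 := leafV c6256

theorem c6257 : lp7 (fun s => chk (uent L6257 s)) 0 = true := by decide +kernel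
theorem p6257 : PrV chk L6257 := leafV c6257

theorem c6258 : lp7 (fun s => chk (uent L6258 s)) 0 = true := by decide +kernel
theorem p6258 : PrV chk L6258 := leafV c6258

theorem c6259 : lp7 (fun s => chk (uent L6259 s)) 0 = true := by decide +kernel
theorem p6259 : PrV chk L6259 := leafV c6259

theorem c6260 : lp7 (fun s => chk (uent L6260 s)) 0 = true := by decide +kernel
theorem p6260 : PrV chk L6260 := leafV c6260

theorem c6261 : lp7 (fun s => chk (uent L6261 s)) 0 = true := by decide +kernel
theorem p6261 : PrV chk L6261 := leafV c6261

theorem c6262 : lp7 (fun s => chk (uent L6262 s)) 0 = true := by decide +kernel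
theorem p6262 : PrV chk L6262 := leafV c6262

theorem c6263 : lp7 (fun s => chk (uent L6263 s)) 0 = true := by decide +kernel
theorem p6263 : PrV chk L6263 := leafV c6263

theorem c6264 : lp7 (fun s => chk (uent L6264 s)) 0 = true := by decide +kernel
theorem p6264 : PrV chk L6264 := leafV c6264

theorem c6265 : lp7 (fun s => chk (uent L6265 s)) 0 = true := by decide +kernel
theorem p6265 : PrV chk L6265 := leafV c6265

theorem c6266 : lp7 (fun s => chk (uent L6266 s)) 0 = true := by decide +kernel
theorem p6266 : PrV chk L6266 := leafV c6266

theorem c6267 : lp7 (fun s => chk (uent L6267 s)) 0 = true := by decide +kernel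
theorem p6267 : PrV chk L6267 := leafV c6267

theorem c6268 : lp7 (fun s => chk (uent L6268 s)) 0 = true := by decide +kernel
theorem p6268 : PrV chk L6268 := leafV c6268

theorem c6269 : lp7 (fun s => chk (uent L6269 s)) 0 = true := by decide +kernel
theorem p6269 : PrV chk L6269 := leafV c6269

theorem c6270 : lp7 (fun s => chk (uent L6270 s)) 0 = true := by decide +kernel
theorem p6270 : PrV chk L6270 := leafV c6270

theorem c6271 : lp7 (fun s => chk (uent L6271 s)) 0 = true := by decide +kernel
theorem p6271 : PrV chk L6271 := leafV c6271

theorem c6272 : lp7 (fun s => chk (uent L6272 s)) 0 = true := by decide +kernel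
theorem p6272 : PrV chk L6272 := leafV c6272

theorem c6273 : lp7 (fun s => chk (uent L6273 s)) 0 = true := by decide +kernel
theorem p6273 : PrV chk L6273 := leafV c6273

theorem c6274 : lp7 (fun s => chk (uent L6274 s)) 0 = true := by decide +kernel
theorem p6274 : PrV chk L6274 := leafV c6274

theorem c6275 : lp7 (fun s => chk (uent L6275 s)) 0 = true := by decide +kernel
theorem p6275 : PrV chk L6275 := leafV c6275

theorem c6276 : lp7 (fun s => chk (uent L6276 s)) 0 = true := by decide +kernel
theorem p6276 : PrV chk L6276 := leafV c6276

theorem c6277 : lp7 (fun s => chk (uent L6277 s)) 0 = true := by decide +kernel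
theorem p6277 : PrV chk L6277 := leafV c6277

theorem c6278 : lp7 (fun s => chk (uent L6278 s)) 0 = true := by decide +kernel
theorem p6278 : PrV chk L6278 := leafV c6278

theorem c6279 : lp7 (fun s => chk (uent L6279 s)) 0 = true := by decide +kernel
theorem p6279 : PrV chk L6279 := leafV c6279

theorem c6280 : lp7 (fun s => chk (uent L6280 s)) 0 = true := by decide +kernel
theorem p6280 : PrV chk L6280 := leafV c6280

theorem c6281 : lp7 (fun s => chk (uent L6281 s)) 0 = true := by decide +kernel
theorem p6281 : PrV chk L6281 := leafV c6281

theorem c6282 : lp7 (fun s => chk (uent L6282 s)) 0 = true := by decide +kernel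
theorem p6282 : PrV chk L6282 := leafV c6282

theorem c6283 : lp7 (fun s => chk (uent L6283 s)) 0 = true := by decide +kernel
theorem p6283 : PrV chk L6283 := leafV c6283

theorem c6284 : lp7 (fun s => chk (uent L6284 s)) 0 = true := by decide +kernel
theorem p6284 : PrV chk L6284 := leafV c6284

theorem c6285 : lp7 (fun s => chk (uent L6285 s)) 0 = true := by decide +kernel
theorem p6285 : PrV chk L6285 := leafV c6285

theorem c6286 : lp7 (fun s => chk (uent L6286 s)) 0 = true := by decide +kernel
theorem p6286 : PrV chk L6286 := leafV c6286

theorem c6287 : lp7 (fun s => chk (uent L6287 s)) 0 = true := by decide +kernel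
theorem p6287 : PrV chk L6287 := leafV c6287

theorem c6288 : lp7 (fun s => chk (uent L6288 s)) 0 = true := by decide +kernel
theorem p6288 : PrV chk L6288 := leafV c6288

theorem c6289 : lp7 (fun s => chk (uent L6289 s)) 0 = true := by decide +kernel
theorem p6289 : PrV chk L6289 := leafV c6289

theorem c6290 : lp7 (fun s => chk (uent L6290 s)) 0 = true := by decide +kernel
theorem p6290 : PrV chk L6290 := leafV c6290

theorem c6291 : lp7 (fun s => chk (uent L6291 s)) 0 = true := by decide +kernel
theorem p6291 : PrV chk L6291 := leafV c6291

theorem c6292 : lp7 (fun s => chk (uent L6292 s)) 0 = true := by decide +kernel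
theorem p6292 : PrV chk L6292 := leafV c6292

theorem c6293 : lp7 (fun s => chk (uent L6293 s)) 0 = true := by decide +kernel
theorem p6293 : PrV chk L6293 := leafV c6293

theorem c6294 : lp7 (fun s => chk (uent L6294 s)) 0 = true := by decide +kernel
theorem p6294 : PrV chk L6294 := leafV c6294

theorem c6295 : lp7 (fun s => chk (uent L6295 s)) 0 = true := by decide +kernel
theorem p6295 : PrV chk L6295 := leafV c6295

theorem c6296 : lp7 (fun s => chk (uent L6296 s)) 0 = true := by decide +kernel
theorem p6296 : PrV chk L6296 := leafV c6296

theorem c6297 : lp7 (fun s => chk (uent L6297 s)) 0 = true := by decide +kernel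
theorem p6297 : PrV chk L6297 := leafV c6297

theorem c6298 : lp7 (fun s => chk (uent L6298 s)) 0 = true := by decide +kernel
theorem p6298 : PrV chk L6298 := leafV c6298

theorem c6299 : lp7 (fun s => chk (uent L6299 s)) 0 = true := by decide +kernel
theorem p6299 : PrV chk L6299 := leafV c6299

theorem c6300 : lp7 (fun s => chk (uent L6300 s)) 0 = true := by decide +kernel
theorem p6300 : PrV chk L6300 := leafV c6300

theorem c6301 : lp7 (fun s => chk (uent L6301 s)) 0 = true := by decide +kernel
theorem p6301 : PrV chk L6301 := leafV c6301

theorem c6302 : lp7 (fun s => chk (uent L6302 s)) 0 = true := by decide +kernel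
theorem p6302 : PrV chk L6302 := leafV c6302

theorem c6303 : lp7 (fun s => chk (uent L6303 s)) 0 = true := by decide +kernel
theorem p6303 : PrV chk L6303 := leafV c6303

theorem c6304 : lp7 (fun s => chk (uent L6304 s)) 0 = true := by decide +kernel
theorem p6304 : PrV chk L6304 := leafV c6304

theorem c6305 : lp7 (fun s => chk (uent L6305 s)) 0 = true := by decide +kernel
theorem p6305 : PrV chk L6305 := leafV c6305

theorem c6306 : lp7 (fun s => chk (uent L6306 s)) 0 = true := by decide +kernel
theorem p6306 : PrV chk L6306 := leafV c6306

theorem c6307 : lp7 (fun s => chk (uent L6307 s)) 0 = true := by decide +kernel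
theorem p6307 : PrV chk L6307 := leafV c6307

theorem c6308 : lp7 (fun s => chk (uent L6308 s)) 0 = true := by decide +kernel
theorem p6308 : PrV chk L6308 := leafV c6308

theorem c6309 : lp7 (fun s => chk (uent L6309 s)) 0 = true := by decide +kernel
theorem p6309 : PrV chk L6309 := leafV c6309

theorem c6310 : lp7 (fun s => chk (uent L6310 s)) 0 = true := by decide +kernel
theorem p6310 : PrV chk L6310 := leafV c6310

theorem c6311 : lp7 (fun s => chk (uent L6311 s)) 0 = true := by decide +kernel
theorem p6311 : PrV chk L6311 := leafV c6311

theorem c6312 : lp7 (fun s => chk (uent L6312 s)) 0 = true := by decide +kernel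
theorem p6312 : PrV chk L6312 := leafV c6312

theorem c6313 : lp7 (fun s => chk (uent L6313 s)) 0 = true := by decide +kernel
theorem p6313 : PrV chk L6313 := leafV c6313

theorem c6314 : lp7 (fun s => chk (uent L6314 s)) 0 = true := by decide +kernel
theorem p6314 : PrV chk L6314 := leafV c6314

theorem c6315 : lp7 (fun s => chk (uent L6315 s)) 0 = true := by decide +kernel
theorem p6315 : PrV chk L6315 := leafV c6315

theorem c6316 : lp7 (fun s => chk (uent L6316 s)) 0 = true := by decide +kernel
theorem p6316 : PrV chk L6316 := leafV c6316

theorem c6317 : lp7 (fun s => chk (uent L6317 s)) 0 = true := by decide +kernel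
theorem p6317 : PrV chk L6317 := leafV c6317

theorem c6318 : lp7 (fun s => chk (uent L6318 s)) 0 = true := by decide +kernel
theorem p6318 : PrV chk L6318 := leafV c6318

theorem c6319 : lp7 (fun s => chk (uent L6319 s)) 0 = true := by decide +kernel
theorem p6319 : PrV chk L6319 := leafV c6319

theorem c6320 : lp7 (fun s => chk (uent L6320 s)) 0 = true := by decide +kernel
theorem p6320 : PrV chk L6320 := leafV c6320

theorem c6321 : lp7 (fun s => chk (uent L6321 s)) 0 = true := by decide +kernel
theorem p6321 : PrV chk L6321 := leafV c6321

theorem c6322 : lp7 (fun s => chk (uent L6322 s)) 0 = true := by decide +kernel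
theorem p6322 : PrV chk L6322 := leafV c6322

theorem c6323 : lp7 (fun s => chk (uent L6323 s)) 0 = true := by decide +kernel
theorem p6323 : PrV chk L6323 := leafV c6323

theorem c6324 : lp7 (fun s => chk (uent L6324 s)) 0 = true := by decide +kernel
theorem p6324 : PrV chk L6324 := leafV c6324

theorem c6325 : lp7 (fun s => chk (uent L6325 s)) 0 = true := by decide +kernel
theorem p6325 : PrV chk L6325 := leafV c6325

theorem c6326 : lp7 (fun s => chk (uent L6326 s)) 0 = true := by decide +kernel
theorem p6326 : PrV chk L6326 := leafV c6326

theorem c6327 : lp7 (fun s => chk (uent L6327 s)) 0 = true := by decide +kernel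
theorem p6327 : PrV chk L6327 := leafV c6327

theorem c6328 : lp7 (fun s => chk (uent L6328 s)) 0 = true := by decide +kernel
theorem p6328 : PrV chk L6328 := leafV c6328

theorem c6329 : lp7 (fun s => chk (uent L6329 s)) 0 = true := by decide +kernel
theorem p6329 : PrV chk L6329 := leafV c6329

theorem c6330 : lp7 (fun s => chk (uent L6330 s)) 0 = true := by decide +kernel
theorem p6330 : PrV chk L6330 := leafV c6330

theorem c6331 : lp7 (fun s => chk (uent L6331 s)) 0 = true := by decide +kernel
theorem p6331 : PrV chk L6331 := leafV c6331

theorem c6332 : lp7 (fun s => chk (uent L6332 s)) 0 = true := by decide +kernel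
theorem p6332 : PrV chk L6332 := leafV c6332

theorem c6333 : lp7 (fun s => chk (uent L6333 s)) 0 = true := by decide +kernel
theorem p6333 : PrV chk L6333 := leafV c6333

theorem c6334 : lp7 (fun s => chk (uent L6334 s)) 0 = true := by decide +kernel
theorem p6334 : PrV chk L6334 := leafV c6334

theorem c6335 : lp7 (fun s => chk (uent L6335 s)) 0 = true := by decide +kernel
theorem p6335 : PrV chk L6335 := leafV c6335

end Pool.Agent.ad013a.W
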