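import Pool.Agent.H.MP_ad013a_pr.h63w.A.T
import Pool.Agent.H.MP_ad013a_pr.h63w.VLoop

namespace Pool.Agent.ad013a.W

theorem c6336 : lp7 (fun s => chk (uent L6336 s)) 0 = true := by decide +kernel
theorem p6336 : PrV chk L6336 := leafV c6336

theorem c6337 : lp7 (fun s => chk (uent L6337 s)) 0 = true := by decide +kernel
theorem p6337 : PrV chk L6337 := leafV c6337

theorem c6338 : lp7 (fun s => chk (uent L6338 s)) 0 = true := by decide +kernel
theorem p6338 : PrV chk L6338 := leafV c6338

theorem c6339 : lp7 (fun s => chk (uent L6339 s)) 0 = true := by decide +kernel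
theorem p6339 : PrV chk L6339 := leafV c6339

theorem c6340 : lp7 (fun s => chk (uent L6340 s)) 0 = true := by decide +kernel
theorem p6340 : PrV chk L6340 := leafV c6340

theorem c6341 : lp7 (fun s => chk (uent L6341 s)) 0 = true := by decide +kernel
theorem p6341 : PrV chk L6341 := leafV c6341

theorem c6342 : lp7 (fun s => chk (uent L6342 s)) 0 = true := by decide +kernel
theorem p6342 : PrV chk L6342 := leafV c6342

theorem c6343 : lp7 (fun s => chk (uent L6343 s)) 0 = true := by decide +kernel
theorem p6343 : PrV chk L6343 := leafV c6343

theorem c6344 : lp7 (fun s => chk (uent L6344 s)) 0 = true := by decide +kernel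
theorem p6344 : PrV chk L6344 := leafV c6344

theorem c6345 : lp7 (fun s => chk (uent L6345 s)) 0 = true := by decide +kernel
theorem p6345 : PrV chk L6345 := leafV c6345

theorem c6346 : lp7 (fun s => chk (uent L6346 s)) 0 = true := by decide +kernel
theorem p6346 : PrV chk L6346 := leafV c6346

theorem c6347 : lp7 (fun s => chk (uent L6347 s)) 0 = true := by decide +kernel
theorem p6347 : PrV chk L6347 := leafV c6347

theorem c6348 : lp7 (fun s => chk (uent L6348 s)) 0 = true := by decide +kernel
theorem p6348 : PrV chk L6348 := leafV c6348

theorem c6349 : lp7 (fun s => chk (uent L6349 s)) 0 = true := by decide +kernel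
theorem p6349 : PrV chk L6349 := leafV c6349

theorem c6350 : lp7 (fun s => chk (uent L6350 s)) 0 = true := by decide +kernel
theorem p6350 : PrV chk L6350 := leafV c6350

theorem c6351 : lp7 (fun s => chk (uent L6351 s)) 0 = true := by decide +kernel
theorem p6351 : PrV chk L6351 := leafV c6351

theorem c6352 : lp7 (fun s => chk (uent L6352 s)) 0 = true := by decide +kernel
theorem p6352 : PrV chk L6352 := leafV c6352

theorem c6353 : lp7 (fun s => chk (uent L6353 s)) 0 = true := by decide +kernel
theorem p6353 : PrV chk L6353 := leafV c6353

theorem c6354 : lp7 (fun s => chk (uent L6354 s)) 0 = true := by decide +kernel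
theorem p6354 : PrV chk L6354 := leafV c6354

theorem c6355 : lp7 (fun s => chk (uent L6355 s)) 0 = true := by decide +kernel
theorem p6355 : PrV chk L6355 := leafV c6355

theorem c6356 : lp7 (fun s => chk (uent L6356 s)) 0 = true := by decide +kernel
theorem p6356 : PrV chk L6356 := leafV c6356

theorem c6357 : lp7 (fun s => chk (uent L6357 s)) 0 = true := by decide +kernel
theorem p6357 : PrV chk L6357 := leafV c6357

theorem c6358 : lp7 (fun s => chk (uent L6358 s)) 0 = true := by decide +kernel
theorem p6358 : PrV chk L6358 := leafV c6358

theorem c6359 : lp7 (fun s => chk (uent L6359 s)) 0 = true := by decide +kernel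
theorem p6359 : PrV chk L6359 := leafV c6359

theorem c6360 : lp7 (fun s => chk (uent L6360 s)) 0 = true := by decide +kernel
theorem p6360 : PrV chk L6360 := leafV c6360

theorem c6361 : lp7 (fun s => chk (uent L6361 s)) 0 = true := by decide +kernel
theorem p6361 : PrV chk L6361 := leafV c6361

theorem c6362 : lp7 (fun s => chk (uent L6362 s)) 0 = true := by decide +kernel
theorem p6362 : PrV chk L6362 := leafV c6362

theorem c6363 : lp7 (fun s => chk (uent L6363 s)) 0 = true := by decide +kernel
theorem p6363 : PrV chk L6363 := leafV c6363

theorem c6364 : lp7 (fun s => chk (uent L6364 s)) 0 = true := by decide +kernel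
theorem p6364 : PrV chk L6364 := leafV c6364

theorem c6365 : lp7 (fun s => chk (uent L6365 s)) 0 = true := by decide +kernel
theorem p6365 : PrV chk L6365 := leafV c6365

theorem c6366 : lp7 (fun s => chk (uent L6366 s)) 0 = true := by decide +kernel
theorem p6366 : PrV chk L6366 := leafV c6366

theorem c6367 : lp7 (fun s => chk (uent L6367 s)) 0 = true := by decide +kernel
theorem p6367 : PrV chk L6367 := leafV c6367

theorem c6368 : lp7 (fun s => chk (uent L6368 s)) 0 = true := by decide +kernel
theorem p6368 : PrV chk L6368 := leafV c6368

theorem c6369 : lp7 (fun s => chk (uent L6369 s)) 0 = true := by decide +kernel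
theorem p6369 : PrV chk L6369 := leafV c6369

theorem c6370 : lp7 (fun s => chk (uent L6370 s)) 0 = true := by decide +kernel
theorem p6370 : PrV chk L6370 := leafV c6370

theorem c6371 : lp7 (fun s => chk (uent L6371 s)) 0 = true := by decide +kernel
theorem p6371 : PrV chk L6371 := leafV c6371

theorem c6372 : lp7 (fun s => chk (uent L6372 s)) 0 = true := by decide +kernel
theorem p6372 : PrV chk L6372 := leafV c6372

theorem c6373 : lp7 (fun s => chk (uent L6373 s)) 0 = true := by decide +kernel
theorem p6373 : PrV chk L6373 := leafV c6373

theorem c6374 : lp7 (fun s => chk (uent L6374 s)) 0 = true := by decide +kernel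
theorem p6374 : PrV chk L6374 := leafV c6374

theorem c6375 : lp7 (fun s => chk (uent L6375 s)) 0 = true := by decide +kernel
theorem p6375 : PrV chk L6375 := leafV c6375

theorem c6376 : lp7 (fun s => chk (uent L6376 s)) 0 = true := by decide +kernel
theorem p6376 : PrV chk L6376 := leafV c6376

theorem c6377 : lp7 (fun s => chk (uent L6377 s)) 0 = true := by decide +kernel
theorem p6377 : PrV chk L6377 := leafV c6377

theorem c6378 : lp7 (fun s => chk (uent L6378 s)) 0 = true := by decide +kernel
theorem p6378 : PrV chk L6378 := leafV c6378

theorem c6379 : lp7 (fun s => chk (uent L6379 s)) 0 = true := by decide +kernel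
theorem p6379 : PrV chk L6379 := leafV c6379

theorem c6380 : lp7 (fun s => chk (uent L6380 s)) 0 = true := by decide +kernel
theorem p6380 : PrV chk L6380 := leafV c6380

theorem c6381 : lp7 (fun s => chk (uent L6381 s)) 0 = true := by decide +kernel
theorem p6381 : PrV chk L6381 := leafV c6381

theorem c6382 : lp7 (fun s => chk (uent L6382 s)) 0 = true := by decide +kernel
theorem p6382 : PrV chk L6382 := leafV c6382

theorem c6383 : lp7 (fun s => chk (uent L6383 s)) 0 = true := by decide +kernel
theorem p6383 : PrV chk L6383 := leafV c6383

theorem c6384 : lp7 (fun s => chk (uent L6384 s)) 0 = true := by decide +kernel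
theorem p6384 : PrV chk L6384 := leafV c6384

theorem c6385 : lp7 (fun s => chk (uent L6385 s)) 0 = true := by decide +kernel
theorem p6385 : PrV chk L6385 := leafV c6385

theorem c6386 : lp7 (fun s => chk (uent L6386 s)) 0 = true := by decide +kernel
theorem p6386 : PrV chk L6386 := leafV c6386

theorem c6387 : lp7 (fun s => chk (uent L6387 s)) 0 = true := by decide +kernel
theorem p6387 : PrV chk L6387 := leafV c6387

theorem c6388 : lp7 (fun s => chk (uent L6388 s)) 0 = true := by decide +kernel
theorem p6388 : PrV chk L6388 := leafV c6388

theorem c6389 : lp7 (fun s => chk (uent L6389 s)) 0 = true := by decide +kernel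
theorem p6389 : PrV chk L6389 := leafV c6389

theorem c6390 : lp7 (fun s => chk (uent L6390 s)) 0 = true := by decide +kernel
theorem p6390 : PrV chk L6390 := leafV c6390

theorem c6391 : lp7 (fun s => chk (uent L6391 s)) 0 = true := by decide +kernel
theorem p6391 : PrV chk L6391 := leafV c6391

theorem c6392 : lp7 (fun s => chk (uent L6392 s)) 0 = true := by decide +kernel
theorem p6392 : PrV chk L6392 := leafV c6392

theorem c6393 : lp7 (fun s => chk (uent L6393 s)) 0 = true := by decide +kernel
theorem p6393 : PrV chk L6393 := leafV c6393

theorem c6394 : lp7 (fun s => chk (uent L6394 s)) 0 = true := by decide +kernel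
theorem p6394 : PrV chk L6394 := leafV c6394

theorem c6395 : lp7 (fun s => chk (uent L6395 s)) 0 = true := by decide +kernel
theorem p6395 : PrV chk L6395 := leafV c6395

theorem c6396 : lp7 (fun s => chk (uent L6396 s)) 0 = true := by decide +kernel
theorem p6396 : PrV chk L6396 := leafV c6396

theorem c6397 : lp7 (fun s => chk (uent L6397 s)) 0 = true := by decide +kernel
theorem p6397 : PrV chk L6397 := leafV c6397

theorem c6398 : lp7 (fun s => chk (uent L6398 s)) 0 = true := by decide +kernel
theorem p6398 : PrV chk L6398 := leafV c6398

theorem c6399 : lp7 (fun s => chk (uent L6399 s)) 0 = true := by decide +kernel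
theorem p6399 : PrV chk L6399 := leafV c6399

theorem c6400 : lp7 (fun s => chk (uent L6400 s)) 0 = true := by decide +kernel
theorem p6400 : PrV chk L6400 := leafV c6400

theorem c6401 : lp7 (fun s => chk (uent L6401 s)) 0 = true := by decide +kernel
theorem p6401 : PrV chk L6401 := leafV c6401

theorem c6402 : lp7 (fun s => chk (uent L6402 s)) 0 = true := by decide +kernel
theorem p6402 : PrV chk L6402 := leafV c6402

theorem c6403 : lp7 (fun s => chk (uent L6403 s)) 0 = true := by decide +kernel
theorem p6403 : PrV chk L6403 := leafV c6403

theorem c6404 : lp7 (fun s => chk (uent L6404 s)) 0 = true := by decide +kernel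
theorem p6404 : PrV chk L6404 := leafV c6404

theorem c6405 : lp7 (fun s => chk (uent L6405 s)) 0 = true := by decide +kernel
theorem p6405 : PrV chk L6405 := leafV c6405

theorem c6406 : lp7 (fun s => chk (uent L6406 s)) 0 = true := by decide +kernel
theorem p6406 : PrV chk L6406 := leafV c6406

theorem c6407 : lp7 (fun s => chk (uent L6407 s)) 0 = true := by decide +kernel
theorem p6407 : PrV chk L6407 := leafV c6407

theorem c6408 : lp7 (fun s => chk (uent L6408 s)) 0 = true := by decide +kernel
theorem p6408 : PrV chk L6408 := leafV c6408

theorem c6409 : lp7 (fun s => chk (uent L6409 s)) 0 = true := by decide +kernel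
theorem p6409 : PrV chk L6409 := leafV c6409

theorem c6410 : lp7 (fun s => chk (uent L6410 s)) 0 = true := by decide +kernel
theorem p6410 : PrV chk L6410 := leafV c6410

theorem c6411 : lp7 (fun s => chk (uent L6411 s)) 0 = true := by decide +kernel
theorem p6411 : PrV chk L6411 := leafV c6411

theorem c6412 : lp7 (fun s => chk (uent L6412 s)) 0 = true := by decide +kernel
theorem p6412 : PrV chk L6412 := leafV c6412

theorem c6413 : lp7 (fun s => chk (uent L6413 s)) 0 = true := by decide +kernel
theorem p6413 : PrV chk L6413 := leafV c6413

theorem c6414 : lp7 (fun s => chk (uent L6414 s)) 0 = true := by decide +kernel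
theorem p6414 : PrV chk L6414 := leafV c6414

theorem c6415 : lp7 (fun s => chk (uent L6415 s)) 0 = true := by decide +kernel
theorem p6415 : PrV chk L6415 := leafV c6415

theorem c6416 : lp7 (fun s => chk (uent L6416 s)) 0 = true := by decide +kernel
theorem p6416 : PrV chk L6416 := leafV c6416

theorem c6417 : lp7 (fun s => chk (uent L6417 s)) 0 = true := by decide +kernel
theorem p6417 : PrV chk L6417 := leafV c6417

theorem c6418 : lp7 (fun s => chk (uent L6418 s)) 0 = true := by decide +kernel
theorem p6418 : PrV chk L6418 := leafV c6418

theorem c6419 : lp7 (fun s => chk (uent L6419 s)) 0 = true := by decide +kernel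
theorem p6419 : PrV chk L6419 := leafV c6419

theorem c6420 : lp7 (fun s => chk (uent L6420 s)) 0 = true := by decide +kernel
theorem p6420 : PrV chk L6420 := leafV c6420

theorem c6421 : lp7 (fun s => chk (uent L6421 s)) 0 = true := by decide +kernel
theorem p6421 : PrV chk L6421 := leafV c6421

theorem c6422 : lp7 (fun s => chk (uent L6422 s)) 0 = true := by decide +kernel
theorem p6422 : PrV chk L6422 := leafV c6422

theorem c6423 : lp7 (fun s => chk (uent L6423 s)) 0 = true := by decide +kernel
theorem p6423 : PrV chk L6423 := leafV c6423

theorem c6424 : lp7 (fun s => chk (uent L6424 s)) 0 = true := by decide +kernel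
theorem p6424 : PrV chk L6424 := leafV c6424

theorem c6425 : lp7 (fun s => chk (uent L6425 s)) 0 = true := by decide +kernel
theorem p6425 : PrV chk L6425 := leafV c6425

theorem c6426 : lp7 (fun s => chk (uent L6426 s)) 0 = true := by decide +kernel
theorem p6426 : PrV chk L6426 := leafV c6426

theorem c6427 : lp7 (fun s => chk (uent L6427 s)) 0 = true := by decide +kernel
theorem p6427 : PrV chk L6427 := leafV c6427

theorem c6428 : lp7 (fun s => chk (uent L6428 s)) 0 = true := by decide +kernel
theorem p6428 : PrV chk L6428 := leafV c6428

theorem c6429 : lp7 (fun s => chk (uent L6429 s)) 0 = true := by decide +kernel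
theorem p6429 : PrV chk L6429 := leafV c6429

theorem c6430 : lp7 (fun s => chk (uent L6430 s)) 0 = true := by decide +kernel
theorem p6430 : PrV chk L6430 := leafV c6430

theorem c6431 : lp7 (fun s => chk (uent L6431 s)) 0 = true := by decide +kernel
theorem p6431 : PrV chk L6431 := leafV c6431

theorem c6432 : lp7 (fun s => chk (uent L6432 s)) 0 = true := by decide +kernel
theorem p6432 : PrV chk L6432 := leafV c6432

theorem c6433 : lp7 (fun s => chk (uent L6433 s)) 0 = true := by decide +kernel
theorem p6433 : PrV chk L6433 := leafV c6433

theorem c6434 : lp7 (fun s => chk (uent L6434 s)) 0 = true := by decide +kernel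
theorem p6434 : PrV chk L6434 := leafV c6434

theorem c6435 : lp7 (fun s => chk (uent L6435 s)) 0 = true := by decide +kernel
theorem p6435 : PrV chk L6435 := leafV c6435

theorem c6436 : lp7 (fun s => chk (uent L6436 s)) 0 = true := by decide +kernel
theorem p6436 : PrV chk L6436 := leafV c6436

theorem c6437 : lp7 (fun s => chk (uent L6437 s)) 0 = true := by decide +kernel
theorem p6437 : PrV chk L6437 := leafV c6437

theorem c6438 : lp7 (fun s => chk (uent L6438 s)) 0 = true := by decide +kernel
theorem p6438 : PrV chk L6438 := leafV c6438

theorem c6439 : lp7 (fun s => chk (uent L6439 s)) 0 = true := by decide +kernel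
theorem p6439 : PrV chk L6439 := leafV c6439

theorem c6440 : lp7 (fun s => chk (uent L6440 s)) 0 = true := by decide +kernel
theorem p6440 : PrV chk L6440 := leafV c6440

theorem c6441 : lp7 (fun s => chk (uent L6441 s)) 0 = true := by decide +kernel
theorem p6441 : PrV chk L6441 := leafV c6441

theorem c6442 : lp7 (fun s => chk (uent L6442 s)) 0 = true := by decide +kernel
theorem p6442 : PrV chk L6442 := leafV c6442

theorem c6443 : lp7 (fun s => chk (uent L6443 s)) 0 = true := by decide +kernel
theorem p6443 : PrV chk L6443 := leafV c6443

theorem c6444 : lp7 (fun s => chk (uent L6444 s)) 0 = true := by decide +kernel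
theorem p6444 : PrV chk L6444 := leafV c6444

theorem c6445 : lp7 (fun s => chk (uent L6445 s)) 0 = true := by decide +kernel
theorem p6445 : PrV chk L6445 := leafV c6445

theorem c6446 : lp7 (fun s => chk (uent L6446 s)) 0 = true := by decide +kernel
theorem p6446 : PrV chk L6446 := leafV c6446

theorem c6447 : lp7 (fun s => chk (uent L6447 s)) 0 = true := by decide +kernel
theorem p6447 : PrV chk L6447 := leafV c6447

theorem c6448 : lp7 (fun s => chk (uent L6448 s)) 0 = true := by decide +kernel
theorem p6448 : PrV chk L6448 := leafV c6448

theorem c6449 : lp7 (fun s => chk (uent L6449 s)) 0 = true := by decide +kernel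
theorem p6449 : PrV chk L6449 := leafV c6449

theorem c6450 : lp7 (fun s => chk (uent L6450 s)) 0 = true := by decide +kernel
theorem p6450 : PrV chk L6450 := leafV c6450

theorem c6451 : lp7 (fun s => chk (uent L6451 s)) 0 = true := by decide +kernel
theorem p6451 : PrV chk L6451 := leafV c6451

theorem c6452 : lp7 (fun s => chk (uent L6452 s)) 0 = true := by decide +kernel
theorem p6452 : PrV chk L6452 := leafV c6452

theorem c6453 : lp7 (fun s => chk (uent L6453 s)) 0 = true := by decide +kernel
theorem p6453 : PrV chk L6453 := leafV c6453

theorem c6454 : lp7 (fun s => chk (uent L6454 s)) 0 = true := by decide +kernel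
theorem p6454 : PrV chk L6454 := leafV c6454

theorem c6455 : lp7 (fun s => chk (uent L6455 s)) 0 = true := by decide +kernel
theorem p6455 : PrV chk L6455 := leafV c6455

theorem c6456 : lp7 (fun s => chk (uent L6456 s)) 0 = true := by decide +kernel
theorem p6456 : PrV chk L6456 := leafV c6456

theorem c6457 : lp7 (fun s => chk (uent L6457 s)) 0 = true := by decide +kernel
theorem p6457 : PrV chk L6457 := leafV c6457

theorem c6458 : lp7 (fun s => chk (uent L6458 s)) 0 = true := by decide +kernel
theorem p6458 : PrV chk L6458 := leafV c6458

theorem c6459 : lp7 (fun s => chk (uent L6459 s)) 0 = true := by decide +kernel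
theorem p6459 : PrV chk L6459 := leafV c6459

theorem c6460 : lp7 (fun s => chk (uent L6460 s)) 0 = true := by decide +kernel
theorem p6460 : PrV chk L6460 := leafV c6460

theorem c6461 : lp7 (fun s => chk (uent L6461 s)) 0 = true := by decide +kernel
theorem p6461 : PrV chk L6461 := leafV c6461

theorem c6462 : lp7 (fun s => chk (uent L6462 s)) 0 = true := by decide +kernel
theorem p6462 : PrV chk L6462 := leafV c6462

theorem c6463 : lp7 (fun s => chk (uent L6463 s)) 0 = true := by decide +kernel
theorem p6463 : PrV chk L6463 := leafV c6463

theorem c6464 : lp7 (fun s => chk (uent L6464 s)) 0 = true := by decide +kernel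
theorem p6464 : PrV chk L6464 := leafV c6464

theorem c6465 : lp7 (fun s => chk (uent L6465 s)) 0 = true := by decide +kernel
theorem p6465 : PrV chk L6465 := leafV c6465

theorem c6466 : lp7 (fun s => chk (uent L6466 s)) 0 = true := by decide +kernel
theorem p6466 : PrV chk L6466 := leafV c6466

theorem c6467 : lp7 (fun s => chk (uent L6467 s)) 0 = true := by decide +kernel
theorem p6467 : PrV chk L6467 := leafV c6467

theorem c6468 : lp7 (fun s => chk (uent L6468 s)) 0 = true := by decide +kernel
theorem p6468 : PrV chk L6468 := leafV c6468

theorem c6469 : lp7 (fun s => chk (uent L6469 s)) 0 = true := by decide +kernel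
theorem p6469 : PrV chk L6469 := leafV c6469

theorem c6470 : lp7 (fun s => chk (uent L6470 s)) 0 = true := by decide +kernel
theorem p6470 : PrV chk L6470 := leafV c6470

theorem c6471 : lp7 (fun s => chk (uent L6471 s)) 0 = true := by decide +kernel
theorem p6471 : PrV chk L6471 := leafV c6471

theorem c6472 : lp7 (fun s => chk (uent L6472 s)) 0 = true := by decide +kernel
theorem p6472 : PrV chk L6472 := leafV c6472

theorem c6473 : lp7 (fun s => chk (uent L6473 s)) 0 = true := by decide +kernel
theorem p6473 : PrV chk L6473 := leafV c6473

theorem c6474 : lp7 (fun s => chk (uent L6474 s)) 0 = true := by decide +kernel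
theorem p6474 : PrV chk L6474 := leafV c6474

theorem c6475 : lp7 (fun s => chk (uent L6475 s)) 0 = true := by decide +kernel
theorem p6475 : PrV chk L6475 := leafV c6475

theorem c6476 : lp7 (fun s => chk (uent L6476 s)) 0 = true := by decide +kernel
theorem p6476 : PrV chk L6476 := leafV c6476

theorem c6477 : lp7 (fun s => chk (uent L6477 s)) 0 = true := by decide +kernel
theorem p6477 : PrV chk L6477 := leafV c6477

theorem c6478 : lp7 (fun s => chk (uent L6478 s)) 0 = true := by decide +kernel
theorem p6478 : PrV chk L6478 := leafV c6478

theorem c6479 : lp7 (fun s => chk (uent L6479 s)) 0 = true := by decide +kernel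
theorem p6479 : PrV chk L6479 := leafV c6479

theorem c6480 : lp7 (fun s => chk (uent L6480 s)) 0 = true := by decide +kernel
theorem p6480 : PrV chk L6480 := leafV c6480

theorem c6481 : lp7 (fun s => chk (uent L6481 s)) 0 = true := by decide +kernel
theorem p6481 : PrV chk L6481 := leafV c6481

theorem c6482 : lp7 (fun s => chk (uent L6482 s)) 0 = true := by decide +kernel
theorem p6482 : PrV chk L6482 := leafV c6482

theorem c6483 : lp7 (fun s => chk (uent L6483 s)) 0 = true := by decide +kernel
theorem p6483 : PrV chk L6483 := leafV c6483

theorem c6484 : lp7 (fun s => chk (uent L6484 s)) 0 = true := by decide +kernel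
theorem p6484 : PrV chk L6484 := leafV c6484

theorem c6485 : lp7 (fun s => chk (uent L6485 s)) 0 = true := by decide +kernel
theorem p6485 : PrV chk L6485 := leafV c6485

theorem c6486 : lp7 (fun s => chk (uent L6486 s)) 0 = true := by decide +kernel
theorem p6486 : PrV chk L6486 := leafV c6486

theorem c6487 : lp7 (fun s => chk (uent L6487 s)) 0 = true := by decide +kernel
theorem p6487 : PrV chk L6487 := leafV c6487

theorem c6488 : lp7 (fun s => chk (uent L6488 s)) 0 = true := by decide +kernel
theorem p6488 : PrV chk L6488 := leafV c6488

theorem c6489 : lp7 (fun s => chk (uent L6489 s)) 0 = true := by decide +kernel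
theorem p6489 : PrV chk L6489 := leafV c6489

theorem c6490 : lp7 (fun s => chk (uent L6490 s)) 0 = true := by decide +kernel
theorem p6490 : PrV chk L6490 := leafV c6490

theorem c6491 : lp7 (fun s => chk (uent L6491 s)) 0 = true := by decide +kernel
theorem p6491 : PrV chk L6491 := leafV c6491

theorem c6492 : lp7 (fun s => chk (uent L6492 s)) 0 = true := by decide +kernel
theorem p6492 : PrV chk L6492 := leafV c6492

theorem c6493 : lp7 (fun s => chk (uent L6493 s)) 0 = true := by decide +kernel
theorem p6493 : PrV chk L6493 := leafV c6493

theorem c6494 : lp7 (fun s => chk (uent L6494 s)) 0 = true := by decide +kernel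
theorem p6494 : PrV chk L6494 := leafV c6494

theorem c6495 : lp7 (fun s => chk (uent L6495 s)) 0 = true := by decide +kernel
theorem p6495 : PrV chk L6495 := leafV c6495

theorem c6496 : lp7 (fun s => chk (uent L6496 s)) 0 = true := by decide +kernel
theorem p6496 : PrV chk L6496 := leafV c6496

theorem c6497 : lp7 (fun s => chk (uent L6497 s)) 0 = true := by decide +kernel
theorem p6497 : PrV chk L6497 := leafV c6497

theorem c6498 : lp7 (fun s => chk (uent L6498 s)) 0 = true := by decide +kernel
theorem p6498 : PrV chk L6498 := leafV c6498

theorem c6499 : lp7 (fun s => chk (uent L6499 s)) 0 = true := by decide +kernel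
theorem p6499 : PrV chk L6499 := leafV c6499

theorem c6500 : lp7 (fun s => chk (uent L6500 s)) 0 = true := by decide +kernel
theorem p6500 : PrV chk L6500 := leafV c6500

theorem c6501 : lp7 (fun s => chk (uent L6501 s)) 0 = true := by decide +kernel
theorem p6501 : PrV chk L6501 := leafV c6501

theorem c6502 : lp7 (fun s => chk (uent L6502 s)) 0 = true := by decide +kernel
theorem p6502 : PrV chk L6502 := leafV c6502

theorem c6503 : lp7 (fun s => chk (uent L6503 s)) 0 = true := by decide +kernel
theorem p6503 : PrV chk L6503 := leafV c6503

theorem c6504 : lp7 (fun s => chk (uent L6504 s)) 0 = true := by decide +kernel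
theorem p6504 : PrV chk L6504 := leafV c6504

theorem c6505 : lp7 (fun s => chk (uent L6505 s)) 0 = true := by decide +kernel
theorem p6505 : PrV chk L6505 := leafV c6505

theorem c6506 : lp7 (fun s => chk (uent L6506 s)) 0 = true := by decide +kernel
theorem p6506 : PrV chk L6506 := leafV c6506

theorem c6507 : lp7 (fun s => chk (uent L6507 s)) 0 = true := by decide +kernel
theorem p6507 : PrV chk L6507 := leafV c6507

theorem c6508 : lp7 (fun s => chk (uent L6508 s)) 0 = true := by decide +kernel
theorem p6508 : PrV chk L6508 := leafV c6508

theorem c6509 : lp7 (fun s => chk (uent L6509 s)) 0 = true := by decide +kernel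
theorem p6509 : PrV chk L6509 := leafV c6509

theorem c6510 : lp7 (fun s => chk (uent L6510 s)) 0 = true := by decide +kernel
theorem p6510 : PrV chk L6510 := leafV c6510

theorem c6511 : lp7 (fun s => chk (uent L6511 s)) 0 = true := by decide +kernel
theorem p6511 : PrV chk L6511 := leafV c6511

theorem c6512 : lp7 (fun s => chk (uent L6512 s)) 0 = true := by decide +kernel
theorem p6512 : PrV chk L6512 := leafV c6512

theorem c6513 : lp7 (fun s => chk (uent L6513 s)) 0 = true := by decide +kernel
theorem p6513 : PrV chk L6513 := leafV c6513

theorem c6514 : lp7 (fun s => chk (uent L6514 s)) 0 = true := by decide +kernel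
theorem p6514 : PrV chk L6514 := leafV c6514

theorem c6515 : lp7 (fun s => chk (uent L6515 s)) 0 = true := by decide +kernel
theorem p6515 : PrV chk L6515 := leafV c6515

theorem c6516 : lp7 (fun s => chk (uent L6516 s)) 0 = true := by decide +kernel
theorem p6516 : PrV chk L6516 := leafV c6516

theorem c6517 : lp7 (fun s => chk (uent L6517 s)) 0 = true := by decide +kernel
theorem p6517 : PrV chk L6517 := leafV c6517

theorem c6518 : lp7 (fun s => chk (uent L6518 s)) 0 = true := by decide +kernel
theorem p6518 : PrV chk L6518 := leafV c6518

theorem c6519 : lp7 (fun s => chk (uent L6519 s)) 0 = true := by decide +kernel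
theorem p6519 : PrV chk L6519 := leafV c6519

theorem c6520 : lp7 (fun s => chk (uent L6520 s)) 0 = true := by decide +kernel
theorem p6520 : PrV chk L6520 := leafV c6520

theorem c6521 : lp7 (fun s => chk (uent L6521 s)) 0 = true := by decide +kernel
theorem p6521 : PrV chk L6521 := leafV c6521

theorem c6522 : lp7 (fun s => chk (uent L6522 s)) 0 = true := by decide +kernel
theorem p6522 : PrV chk L6522 := leafV c6522

theorem c6523 : lp7 (fun s => chk (uent L6523 s)) 0 = true := by decide +kernel
theorem p6523 : PrV chk L6523 := leafV c6523

theorem c6524 : lp7 (fun s => chk (uent L6524 s)) 0 = true := by decide +kernel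
theorem p6524 : PrV chk L6524 := leafV c6524

theorem c6525 : lp7 (fun s => chk (uent L6525 s)) 0 = true := by decide +kernel
theorem p6525 : PrV chk L6525 := leafV c6525

theorem c6526 : lp7 (fun s => chk (uent L6526 s)) 0 = true := by decide +kernel
theorem p6526 : PrV chk L6526 := leafV c6526

theorem c6527 : lp7 (fun s => chk (uent L6527 s)) 0 = true := by decide +kernel
theorem p6527 : PrV chk L6527 := leafV c6527

end Pool.Agent.ad013a.W
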