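import Pool.Agent.H.MP_ad013a_pr.h63w.A.T
import Pool.Agent.H.MP_ad013a_pr.h63w.VLoop

namespace Pool.Agent.ad013a.W

theorem c6528 : lp7 (fun s => chk (uent L6528 s)) 0 = true := by decide +kernel
theorem p6528 : PrV chk L6528 := leafV c6528

theorem c6529 : lp7 (fun s => chk (uent L6529 s)) 0 = true := by decide +kernel
theorem p6529 : PrV chk L6529 := leafV c6529

theorem c6530 : lp7 (fun s => chk (uent L6530 s)) 0 = true := by decide +kernel
theorem p6530 : PrV chk L6530 := leafV c6530

theorem c6531 : lp7 (fun s => chk (uent L6531 s)) 0 = true := by decide +kernel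
theorem p6531 : PrV chk L6531 := leafV c6531

theorem c6532 : lp7 (fun s => chk (uent L6532 s)) 0 = true := by decide +kernel
theorem p6532 : PrV chk L6532 := leafV c6532

theorem c6533 : lp7 (fun s => chk (uent L6533 s)) 0 = true := by decide +kernel
theorem p6533 : PrV chk L6533 := leafV c6533

theorem c6534 : lp7 (fun s => chk (uent L6534 s)) 0 = true := by decide +kernel
theorem p6534 : PrV chk L6534 := leafV c6534

theorem c6535 : lp7 (fun s => chk (uent L6535 s)) 0 = true := by decide +kernel
theorem p6535 : PrV chk L6535 := leafV c6535

theorem c6536 : lp7 (fun s => chk (uent L6536 s)) 0 = true := by decide +kernel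
theorem p6536 : PrV chk L6536 := leafV c6536

theorem c6537 : lp7 (fun s => chk (uent L6537 s)) 0 = true := by decide +kernel
theorem p6537 : PrV chk L6537 := leafV c6537

theorem c6538 : lp7 (fun s => chk (uent L6538 s)) 0 = true := by decide +kernel
theorem p6538 : PrV chk L6538 := leafV c6538

theorem c6539 : lp7 (fun s => chk (uent L6539 s)) 0 = true := by decide +kernel
theorem p6539 : PrV chk L6539 := leafV c6539

theorem c6540 : lp7 (fun s => chk (uent L6540 s)) 0 = true := by decide +kernel
theorem p6540 : PrV chk L6540 := leafV c6540

theorem c6541 : lp7 (fun s => chk (uent L6541 s)) 0 = true := by decide +kernel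
theorem p6541 : PrV chk L6541 := leafV c6541

theorem c6542 : lp7 (fun s => chk (uent L6542 s)) 0 = true := by decide +kernel
theorem p6542 : PrV chk L6542 := leafV c6542

theorem c6543 : lp7 (fun s => chk (uent L6543 s)) 0 = true := by decide +kernel
theorem p6543 : PrV chk L6543 := leafV c6543

theorem c6544 : lp7 (fun s => chk (uent L6544 s)) 0 = true := by decide +kernel
theorem p6544 : PrV chk L6544 := leafV c6544

theorem c6545 : lp7 (fun s => chk (uent L6545 s)) 0 = true := by decide +kernel
theorem p6545 : PrV chk L6545 := leafV c6545

theorem c6546 : lp7 (fun s => chk (uent L6546 s)) 0 = true := by decide +kernel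
theorem p6546 : PrV chk L6546 := leafV c6546

theorem c6547 : lp7 (fun s => chk (uent L6547 s)) 0 = true := by decide +kernel
theorem p6547 : PrV chk L6547 := leafV c6547

theorem c6548 : lp7 (fun s => chk (uent L6548 s)) 0 = true := by decide +kernel
theorem p6548 : PrV chk L6548 := leafV c6548

theorem c6549 : lp7 (fun s => chk (uent L6549 s)) 0 = true := by decide +kernel
theorem p6549 : PrV chk L6549 := leafV c6549

theorem c6550 : lp7 (fun s => chk (uent L6550 s)) 0 = true := by decide +kernel
theorem p6550 : PrV chk L6550 := leafV c6550

theorem c6551 : lp7 (fun s => chk (uent L6551 s)) 0 = true := by decide +kernel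
theorem p6551 : PrV chk L6551 := leafV c6551

theorem c6552 : lp7 (fun s => chk (uent L6552 s)) 0 = true := by decide +kernel
theorem p6552 : PrV chk L6552 := leafV c6552

theorem c6553 : lp7 (fun s => chk (uent L6553 s)) 0 = true := by decide +kernel
theorem p6553 : PrV chk L6553 := leafV c6553

theorem c6554 : lp7 (fun s => chk (uent L6554 s)) 0 = true := by decide +kernel
theorem p6554 : PrV chk L6554 := leafV c6554

theorem c6555 : lp7 (fun s => chk (uent L6555 s)) 0 = true := by decide +kernel
theorem p6555 : PrV chk L6555 := leafV c6555

theorem c6556 : lp7 (fun s => chk (uent L6556 s)) 0 = true := by decide +kernel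
theorem p6556 : PrV chk L6556 := leafV c6556

theorem c6557 : lp7 (fun s => chk (uent L6557 s)) 0 = true := by decide +kernel
theorem p6557 : PrV chk L6557 := leafV c6557

theorem c6558 : lp7 (fun s => chk (uent L6558 s)) 0 = true := by decide +kernel
theorem p6558 : PrV chk L6558 := leafV c6558

theorem c6559 : lp7 (fun s => chk (uent L6559 s)) 0 = true := by decide +kernel
theorem p6559 : PrV chk L6559 := leafV c6559

theorem c6560 : lp7 (fun s => chk (uent L6560 s)) 0 = true := by decide +kernel
theorem p6560 : PrV chk L6560 := leafV c6560

theorem c6561 : lp7 (fun s => chk (uent L6561 s)) 0 = true := by decide +kernel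
theorem p6561 : PrV chk L6561 := leafV c6561

theorem c6562 : lp7 (fun s => chk (uent L6562 s)) 0 = true := by decide +kernel
theorem p6562 : PrV chk L6562 := leafV c6562

theorem c6563 : lp7 (fun s => chk (uent L6563 s)) 0 = true := by decide +kernel
theorem p6563 : PrV chk L6563 := leafV c6563

theorem c6564 : lp7 (fun s => chk (uent L6564 s)) 0 = true := by decide +kernel
theorem p6564 : PrV chk L6564 := leafV c6564

theorem c6565 : lp7 (fun s => chk (uent L6565 s)) 0 = true := by decide +kernel
theorem p6565 : PrV chk L6565 := leafV c6565

theorem c6566 : lp7 (fun s => chk (uent L6566 s)) 0 = true := by decide +kernel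
theorem p6566 : PrV chk L6566 := leafV c6566

theorem c6567 : lp7 (fun s => chk (uent L6567 s)) 0 = true := by decide +kernel
theorem p6567 : PrV chk L6567 := leafV c6567

theorem c6568 : lp7 (fun s => chk (uent L6568 s)) 0 = true := by decide +kernel
theorem p6568 : PrV chk L6568 := leafV c6568

theorem c6569 : lp7 (fun s => chk (uent L6569 s)) 0 = true := by decide +kernel
theorem p6569 : PrV chk L6569 := leafV c6569

theorem c6570 : lp7 (fun s => chk (uent L6570 s)) 0 = true := by decide +kernel
theorem p6570 : PrV chk L6570 := leafV c6570

theorem c6571 : lp7 (fun s => chk (uent L6571 s)) 0 = true := by decide +kernel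
theorem p6571 : PrV chk L6571 := leafV c6571

theorem c6572 : lp7 (fun s => chk (uent L6572 s)) 0 = true := by decide +kernel
theorem p6572 : PrV chk L6572 := leafV c6572

theorem c6573 : lp7 (fun s => chk (uent L6573 s)) 0 = true := by decide +kernel
theorem p6573 : PrV chk L6573 := leafV c6573

theorem c6574 : lp7 (fun s => chk (uent L6574 s)) 0 = true := by decide +kernel
theorem p6574 : PrV chk L6574 := leafV c6574

theorem c6575 : lp7 (fun s => chk (uent L6575 s)) 0 = true := by decide +kernel
theorem p6575 : PrV chk L6575 := leafV c6575

theorem c6576 : lp7 (fun s => chk (uent L6576 s)) 0 = true := by decide +kernel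
theorem p6576 : PrV chk L6576 := leafV c6576

theorem c6577 : lp7 (fun s => chk (uent L6577 s)) 0 = true := by decide +kernel
theorem p6577 : PrV chk L6577 := leafV c6577

theorem c6578 : lp7 (fun s => chk (uent L6578 s)) 0 = true := by decide +kernel
theorem p6578 : PrV chk L6578 := leafV c6578

theorem c6579 : lp7 (fun s => chk (uent L6579 s)) 0 = true := by decide +kernel
theorem p6579 : PrV chk L6579 := leafV c6579

theorem c6580 : lp7 (fun s => chk (uent L6580 s)) 0 = true := by decide +kernel
theorem p6580 : PrV chk L6580 := leafV c6580

theorem c6581 : lp7 (fun s => chk (uent L6581 s)) 0 = true := by decide +kernel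
theorem p6581 : PrV chk L6581 := leafV c6581

theorem c6582 : lp7 (fun s => chk (uent L6582 s)) 0 = true := by decide +kernel
theorem p6582 : PrV chk L6582 := leafV c6582

theorem c6583 : lp7 (fun s => chk (uent L6583 s)) 0 = true := by decide +kernel
theorem p6583 : PrV chk L6583 := leafV c6583

theorem c6584 : lp7 (fun s => chk (uent L6584 s)) 0 = true := by decide +kernel
theorem p6584 : PrV chk L6584 := leafV c6584

theorem c6585 : lp7 (fun s => chk (uent L6585 s)) 0 = true := by decide +kernel
theorem p6585 : PrV chk L6585 := leafV c6585

theorem c6586 : lp7 (fun s => chk (uent L6586 s)) 0 = true := by decide +kernel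
theorem p6586 : PrV chk L6586 := leafV c6586

theorem c6587 : lp7 (fun s => chk (uent L6587 s)) 0 = true := by decide +kernel
theorem p6587 : PrV chk L6587 := leafV c6587

theorem c6588 : lp7 (fun s => chk (uent L6588 s)) 0 = true := by decide +kernel
theorem p6588 : PrV chk L6588 := leafV c6588

theorem c6589 : lp7 (fun s => chk (uent L6589 s)) 0 = true := by decide +kernel
theorem p6589 : PrV chk L6589 := leafV c6589

theorem c6590 : lp7 (fun s => chk (uent L6590 s)) 0 = true := by decide +kernel
theorem p6590 : PrV chk L6590 := leafV c6590

theorem c6591 : lp7 (fun s => chk (uent L6591 s)) 0 = true := by decide +kernel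
theorem p6591 : PrV chk L6591 := leafV c6591

theorem c6592 : lp7 (fun s => chk (uent L6592 s)) 0 = true := by decide +kernel
theorem p6592 : PrV chk L6592 := leafV c6592

theorem c6593 : lp7 (fun s => chk (uent L6593 s)) 0 = true := by decide +kernel
theorem p6593 : PrV chk L6593 := leafV c6593

theorem c6594 : lp7 (fun s => chk (uent L6594 s)) 0 = true := by decide +kernel
theorem p6594 : PrV chk L6594 := leafV c6594

theorem c6595 : lp7 (fun s => chk (uent L6595 s)) 0 = true := by decide +kernel
theorem p6595 : PrV chk L6595 := leafV c6595

theorem c6596 : lp7 (fun s => chk (uent L6596 s)) 0 = true := by decide +kernel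
theorem p6596 : PrV chk L6596 := leafV c6596

theorem c6597 : lp7 (fun s => chk (uent L6597 s)) 0 = true := by decide +kernel
theorem p6597 : PrV chk L6597 := leafV c6597

theorem c6598 : lp7 (fun s => chk (uent L6598 s)) 0 = true := by decide +kernel
theorem p6598 : PrV chk L6598 := leafV c6598

theorem c6599 : lp7 (fun s => chk (uent L6599 s)) 0 = true := by decide +kernel
theorem p6599 : PrV chk L6599 := leafV c6599

theorem c6600 : lp7 (fun s => chk (uent L6600 s)) 0 = true := by decide +kernel
theorem p6600 : PrV chk L6600 := leafV c6600

theorem c6601 : lp7 (fun s => chk (uent L6601 s)) 0 = true := by decide +kernel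
theorem p6601 : PrV chk L6601 := leafV c6601

theorem c6602 : lp7 (fun s => chk (uent L6602 s)) 0 = true := by decide +kernel
theorem p6602 : PrV chk L6602 := leafV c6602

theorem c6603 : lp7 (fun s => chk (uent L6603 s)) 0 = true := by decide +kernel
theorem p6603 : PrV chk L6603 := leafV c6603

theorem c6604 : lp7 (fun s => chk (uent L6604 s)) 0 = true := by decide +kernel
theorem p6604 : PrV chk L6604 := leafV c6604

theorem c6605 : lp7 (fun s => chk (uent L6605 s)) 0 = true := by decide +kernel
theorem p6605 : PrV chk L6605 := leafV c6605

theorem c6606 : lp7 (fun s => chk (uent L6606 s)) 0 = true := by decide +kernel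
theorem p6606 : PrV chk L6606 := leafV c6606

theorem c6607 : lp7 (fun s => chk (uent L6607 s)) 0 = true := by decide +kernel
theorem p6607 : PrV chk L6607 := leafV c6607

theorem c6608 : lp7 (fun s => chk (uent L6608 s)) 0 = true := by decide +kernel
theorem p6608 : PrV chk L6608 := leafV c6608

theorem c6609 : lp7 (fun s => chk (uent L6609 s)) 0 = true := by decide +kernel
theorem p6609 : PrV chk L6609 := leafV c6609

theorem c6610 : lp7 (fun s => chk (uent L6610 s)) 0 = true := by decide +kernel
theorem p6610 : PrV chk L6610 := leafV c6610

theorem c6611 : lp7 (fun s => chk (uent L6611 s)) 0 = true := by decide +kernel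
theorem p6611 : PrV chk L6611 := leafV c6611

theorem c6612 : lp7 (fun s => chk (uent L6612 s)) 0 = true := by decide +kernel
theorem p6612 : PrV chk L6612 := leafV c6612

theorem c6613 : lp7 (fun s => chk (uent L6613 s)) 0 = true := by decide +kernel
theorem p6613 : PrV chk L6613 := leafV c6613

theorem c6614 : lp7 (fun s => chk (uent L6614 s)) 0 = true := by decide +kernel
theorem p6614 : PrV chk L6614 := leafV c6614

theorem c6615 : lp7 (fun s => chk (uent L6615 s)) 0 = true := by decide +kernel
theorem p6615 : PrV chk L6615 := leafV c6615

theorem c6616 : lp7 (fun s => chk (uent L6616 s)) 0 = true := by decide +kernel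
theorem p6616 : PrV chk L6616 := leafV c6616

theorem c6617 : lp7 (fun s => chk (uent L6617 s)) 0 = true := by decide +kernel
theorem p6617 : PrV chk L6617 := leafV c6617

theorem c6618 : lp7 (fun s => chk (uent L6618 s)) 0 = true := by decide +kernel
theorem p6618 : PrV chk L6618 := leafV c6618

theorem c6619 : lp7 (fun s => chk (uent L6619 s)) 0 = true := by decide +kernel
theorem p6619 : PrV chk L6619 := leafV c6619

theorem c6620 : lp7 (fun s => chk (uent L6620 s)) 0 = true := by decide +kernel
theorem p6620 : PrV chk L6620 := leafV c6620

theorem c6621 : lp7 (fun s => chk (uent L6621 s)) 0 = true := by decide +kernel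
theorem p6621 : PrV chk L6621 := leafV c6621

theorem c6622 : lp7 (fun s => chk (uent L6622 s)) 0 = true := by decide +kernel
theorem p6622 : PrV chk L6622 := leafV c6622

theorem c6623 : lp7 (fun s => chk (uent L6623 s)) 0 = true := by decide +kernel
theorem p6623 : PrV chk L6623 := leafV c6623

theorem c6624 : lp7 (fun s => chk (uent L6624 s)) 0 = true := by decide +kernel
theorem p6624 : PrV chk L6624 := leafV c6624

theorem c6625 : lp7 (fun s => chk (uent L6625 s)) 0 = true := by decide +kernel
theorem p6625 : PrV chk L6625 := leafV c6625

theorem c6626 : lp7 (fun s => chk (uent L6626 s)) 0 = true := by decide +kernel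
theorem p6626 : PrV chk L6626 := leafV c6626

theorem c6627 : lp7 (fun s => chk (uent L6627 s)) 0 = true := by decide +kernel
theorem p6627 : PrV chk L6627 := leafV c6627

theorem c6628 : lp7 (fun s => chk (uent L6628 s)) 0 = true := by decide +kernel
theorem p6628 : PrV chk L6628 := leafV c6628

theorem c6629 : lp7 (fun s => chk (uent L6629 s)) 0 = true := by decide +kernel
theorem p6629 : PrV chk L6629 := leafV c6629

theorem c6630 : lp7 (fun s => chk (uent L6630 s)) 0 = true := by decide +kernel
theorem p6630 : PrV chk L6630 := leafV c6630

theorem c6631 : lp7 (fun s => chk (uent L6631 s)) 0 = true := by decide +kernel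
theorem p6631 : PrV chk L6631 := leafV c6631

theorem c6632 : lp7 (fun s => chk (uent L6632 s)) 0 = true := by decide +kernel
theorem p6632 : PrV chk L6632 := leafV c6632

theorem c6633 : lp7 (fun s => chk (uent L6633 s)) 0 = true := by decide +kernel
theorem p6633 : PrV chk L6633 := leafV c6633

theorem c6634 : lp7 (fun s => chk (uent L6634 s)) 0 = true := by decide +kernel
theorem p6634 : PrV chk L6634 := leafV c6634

theorem c6635 : lp7 (fun s => chk (uent L6635 s)) 0 = true := by decide +kernel
theorem p6635 : PrV chk L6635 := leafV c6635

theorem c6636 : lp7 (fun s => chk (uent L6636 s)) 0 = true := by decide +kernel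
theorem p6636 : PrV chk L6636 := leafV c6636

theorem c6637 : lp7 (fun s => chk (uent L6637 s)) 0 = true := by decide +kernel
theorem p6637 : PrV chk L6637 := leafV c6637

theorem c6638 : lp7 (fun s => chk (uent L6638 s)) 0 = true := by decide +kernel
theorem p6638 : PrV chk L6638 := leafV c6638

theorem c6639 : lp7 (fun s => chk (uent L6639 s)) 0 = true := by decide +kernel
theorem p6639 : PrV chk L6639 := leafV c6639

theorem c6640 : lp7 (fun s => chk (uent L6640 s)) 0 = true := by decide +kernel
theorem p6640 : PrV chk L6640 := leafV c6640

theorem c6641 : lp7 (fun s => chk (uent L6641 s)) 0 = true := by decide +kernel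
theorem p6641 : PrV chk L6641 := leafV c6641

theorem c6642 : lp7 (fun s => chk (uent L6642 s)) 0 = true := by decide +kernel
theorem p6642 : PrV chk L6642 := leafV c6642

theorem c6643 : lp7 (fun s => chk (uent L6643 s)) 0 = true := by decide +kernel
theorem p6643 : PrV chk L6643 := leafV c6643

theorem c6644 : lp7 (fun s => chk (uent L6644 s)) 0 = true := by decide +kernel
theorem p6644 : PrV chk L6644 := leafV c6644

theorem c6645 : lp7 (fun s => chk (uent L6645 s)) 0 = true := by decide +kernel
theorem p6645 : PrV chk L6645 := leafV c6645

theorem c6646 : lp7 (fun s => chk (uent L6646 s)) 0 = true := by decide +kernel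
theorem p6646 : PrV chk L6646 := leafV c6646

theorem c6647 : lp7 (fun s => chk (uent L6647 s)) 0 = true := by decide +kernel
theorem p6647 : PrV chk L6647 := leafV c6647

theorem c6648 : lp7 (fun s => chk (uent L6648 s)) 0 = true := by decide +kernel
theorem p6648 : PrV chk L6648 := leafV c6648

theorem c6649 : lp7 (fun s => chk (uent L6649 s)) 0 = true := by decide +kernel
theorem p6649 : PrV chk L6649 := leafV c6649

theorem c6650 : lp7 (fun s => chk (uent L6650 s)) 0 = true := by decide +kernel
theorem p6650 : PrV chk L6650 := leafV c6650

theorem c6651 : lp7 (fun s => chk (uent L6651 s)) 0 = true := by decide +kernel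
theorem p6651 : PrV chk L6651 := leafV c6651

theorem c6652 : lp7 (fun s => chk (uent L6652 s)) 0 = true := by decide +kernel
theorem p6652 : PrV chk L6652 := leafV c6652

theorem c6653 : lp7 (fun s => chk (uent L6653 s)) 0 = true := by decide +kernel
theorem p6653 : PrV chk L6653 := leafV c6653

theorem c6654 : lp7 (fun s => chk (uent L6654 s)) 0 = true := by decide +kernel
theorem p6654 : PrV chk L6654 := leafV c6654

theorem c6655 : lp7 (fun s => chk (uent L6655 s)) 0 = true := by decide +kernel
theorem p6655 : PrV chk L6655 := leafV c6655

theorem c6656 : lp7 (fun s => chk (uent L6656 s)) 0 = true := by decide +kernel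
theorem p6656 : PrV chk L6656 := leafV c6656

theorem c6657 : lp7 (fun s => chk (uent L6657 s)) 0 = true := by decide +kernel
theorem p6657 : PrV chk L6657 := leafV c6657

theorem c6658 : lp7 (fun s => chk (uent L6658 s)) 0 = true := by decide +kernel
theorem p6658 : PrV chk L6658 := leafV c6658

theorem c6659 : lp7 (fun s => chk (uent L6659 s)) 0 = true := by decide +kernel
theorem p6659 : PrV chk L6659 := leafV c6659

theorem c6660 : lp7 (fun s => chk (uent L6660 s)) 0 = true := by decide +kernel
theorem p6660 : PrV chk L6660 := leafV c6660

theorem c6661 : lp7 (fun s => chk (uent L6661 s)) 0 = true := by decide +kernel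
theorem p6661 : PrV chk L6661 := leafV c6661

theorem c6662 : lp7 (fun s => chk (uent L6662 s)) 0 = true := by decide +kernel
theorem p6662 : PrV chk L6662 := leafV c6662

theorem c6663 : lp7 (fun s => chk (uent L6663 s)) 0 = true := by decide +kernel
theorem p6663 : PrV chk L6663 := leafV c6663

theorem c6664 : lp7 (fun s => chk (uent L6664 s)) 0 = true := by decide +kernel
theorem p6664 : PrV chk L6664 := leafV c6664

theorem c6665 : lp7 (fun s => chk (uent L6665 s)) 0 = true := by decide +kernel
theorem p6665 : PrV chk L6665 := leafV c6665

theorem c6666 : lp7 (fun s => chk (uent L6666 s)) 0 = true := by decide +kernel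
theorem p6666 : PrV chk L6666 := leafV c6666

theorem c6667 : lp7 (fun s => chk (uent L6667 s)) 0 = true := by decide +kernel
theorem p6667 : PrV chk L6667 := leafV c6667

theorem c6668 : lp7 (fun s => chk (uent L6668 s)) 0 = true := by decide +kernel
theorem p6668 : PrV chk L6668 := leafV c6668

theorem c6669 : lp7 (fun s => chk (uent L6669 s)) 0 = true := by decide +kernel
theorem p6669 : PrV chk L6669 := leafV c6669

theorem c6670 : lp7 (fun s => chk (uent L6670 s)) 0 = true := by decide +kernel
theorem p6670 : PrV chk L6670 := leafV c6670

theorem c6671 : lp7 (fun s => chk (uent L6671 s)) 0 = true := by decide +kernel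
theorem p6671 : PrV chk L6671 := leafV c6671

theorem c6672 : lp7 (fun s => chk (uent L6672 s)) 0 = true := by decide +kernel
theorem p6672 : PrV chk L6672 := leafV c6672

theorem c6673 : lp7 (fun s => chk (uent L6673 s)) 0 = true := by decide +kernel
theorem p6673 : PrV chk L6673 := leafV c6673

theorem c6674 : lp7 (fun s => chk (uent L6674 s)) 0 = true := by decide +kernel
theorem p6674 : PrV chk L6674 := leafV c6674

theorem c6675 : lp7 (fun s => chk (uent L6675 s)) 0 = true := by decide +kernel
theorem p6675 : PrV chk L6675 := leafV c6675

theorem c6676 : lp7 (fun s => chk (uent L6676 s)) 0 = true := by decide +kernel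
theorem p6676 : PrV chk L6676 := leafV c6676

theorem c6677 : lp7 (fun s => chk (uent L6677 s)) 0 = true := by decide +kernel
theorem p6677 : PrV chk L6677 := leafV c6677

theorem c6678 : lp7 (fun s => chk (uent L6678 s)) 0 = true := by decide +kernel
theorem p6678 : PrV chk L6678 := leafV c6678

theorem c6679 : lp7 (fun s => chk (uent L6679 s)) 0 = true := by decide +kernel
theorem p6679 : PrV chk L6679 := leafV c6679

theorem c6680 : lp7 (fun s => chk (uent L6680 s)) 0 = true := by decide +kernel
theorem p6680 : PrV chk L6680 := leafV c6680

theorem c6681 : lp7 (fun s => chk (uent L6681 s)) 0 = true := by decide +kernel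
theorem p6681 : PrV chk L6681 := leafV c6681

theorem c6682 : lp7 (fun s => chk (uent L6682 s)) 0 = true := by decide +kernel
theorem p6682 : PrV chk L6682 := leafV c6682

theorem c6683 : lp7 (fun s => chk (uent L6683 s)) 0 = true := by decide +kernel
theorem p6683 : PrV chk L6683 := leafV c6683

theorem c6684 : lp7 (fun s => chk (uent L6684 s)) 0 = true := by decide +kernel
theorem p6684 : PrV chk L6684 := leafV c6684

theorem c6685 : lp7 (fun s => chk (uent L6685 s)) 0 = true := by decide +kernel
theorem p6685 : PrV chk L6685 := leafV c6685

theorem c6686 : lp7 (fun s => chk (uent L6686 s)) 0 = true := by decide +kernel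
theorem p6686 : PrV chk L6686 := leafV c6686

theorem c6687 : lp7 (fun s => chk (uent L6687 s)) 0 = true := by decide +kernel
theorem p6687 : PrV chk L6687 := leafV c6687

theorem c6688 : lp7 (fun s => chk (uent L6688 s)) 0 = true := by decide +kernel
theorem p6688 : PrV chk L6688 := leafV c6688

theorem c6689 : lp7 (fun s => chk (uent L6689 s)) 0 = true := by decide +kernel
theorem p6689 : PrV chk L6689 := leafV c6689

theorem c6690 : lp7 (fun s => chk (uent L6690 s)) 0 = true := by decide +kernel
theorem p6690 : PrV chk L6690 := leafV c6690

theorem c6691 : lp7 (fun s => chk (uent L6691 s)) 0 = true := by decide +kernel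
theorem p6691 : PrV chk L6691 := leafV c6691

theorem c6692 : lp7 (fun s => chk (uent L6692 s)) 0 = true := by decide +kernel
theorem p6692 : PrV chk L6692 := leafV c6692

theorem c6693 : lp7 (fun s => chk (uent L6693 s)) 0 = true := by decide +kernel
theorem p6693 : PrV chk L6693 := leafV c6693

theorem c6694 : lp7 (fun s => chk (uent L6694 s)) 0 = true := by decide +kernel
theorem p6694 : PrV chk L6694 := leafV c6694

theorem c6695 : lp7 (fun s => chk (uent L6695 s)) 0 = true := by decide +kernel
theorem p6695 : PrV chk L6695 := leafV c6695

theorem c6696 : lp7 (fun s => chk (uent L6696 s)) 0 = true := by decide +kernel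
theorem p6696 : PrV chk L6696 := leafV c6696

theorem c6697 : lp7 (fun s => chk (uent L6697 s)) 0 = true := by decide +kernel
theorem p6697 : PrV chk L6697 := leafV c6697

theorem c6698 : lp7 (fun s => chk (uent L6698 s)) 0 = true := by decide +kernel
theorem p6698 : PrV chk L6698 := leafV c6698

theorem c6699 : lp7 (fun s => chk (uent L6699 s)) 0 = true := by decide +kernel
theorem p6699 : PrV chk L6699 := leafV c6699

theorem c6700 : lp7 (fun s => chk (uent L6700 s)) 0 = true := by decide +kernel
theorem p6700 : PrV chk L6700 := leafV c6700

theorem c6701 : lp7 (fun s => chk (uent L6701 s)) 0 = true := by decide +kernel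
theorem p6701 : PrV chk L6701 := leafV c6701

theorem c6702 : lp7 (fun s => chk (uent L6702 s)) 0 = true := by decide +kernel
theorem p6702 : PrV chk L6702 := leafV c6702

theorem c6703 : lp7 (fun s => chk (uent L6703 s)) 0 = true := by decide +kernel
theorem p6703 : PrV chk L6703 := leafV c6703

theorem c6704 : lp7 (fun s => chk (uent L6704 s)) 0 = true := by decide +kernel
theorem p6704 : PrV chk L6704 := leafV c6704

theorem c6705 : lp7 (fun s => chk (uent L6705 s)) 0 = true := by decide +kernel
theorem p6705 : PrV chk L6705 := leafV c6705

theorem c6706 : lp7 (fun s => chk (uent L6706 s)) 0 = true := by decide +kernel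
theorem p6706 : PrV chk L6706 := leafV c6706

theorem c6707 : lp7 (fun s => chk (uent L6707 s)) 0 = true := by decide +kernel
theorem p6707 : PrV chk L6707 := leafV c6707

theorem c6708 : lp7 (fun s => chk (uent L6708 s)) 0 = true := by decide +kernel
theorem p6708 : PrV chk L6708 := leafV c6708

theorem c6709 : lp7 (fun s => chk (uent L6709 s)) 0 = true := by decide +kernel
theorem p6709 : PrV chk L6709 := leafV c6709

theorem c6710 : lp7 (fun s => chk (uent L6710 s)) 0 = true := by decide +kernel
theorem p6710 : PrV chk L6710 := leafV c6710

theorem c6711 : lp7 (fun s => chk (uent L6711 s)) 0 = true := by decide +kernel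
theorem p6711 : PrV chk L6711 := leafV c6711

theorem c6712 : lp7 (fun s => chk (uent L6712 s)) 0 = true := by decide +kernel
theorem p6712 : PrV chk L6712 := leafV c6712

theorem c6713 : lp7 (fun s => chk (uent L6713 s)) 0 = true := by decide +kernel
theorem p6713 : PrV chk L6713 := leafV c6713

theorem c6714 : lp7 (fun s => chk (uent L6714 s)) 0 = true := by decide +kernel
theorem p6714 : PrV chk L6714 := leafV c6714

theorem c6715 : lp7 (fun s => chk (uent L6715 s)) 0 = true := by decide +kernel
theorem p6715 : PrV chk L6715 := leafV c6715

theorem c6716 : lp7 (fun s => chk (uent L6716 s)) 0 = true := by decide +kernel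
theorem p6716 : PrV chk L6716 := leafV c6716

theorem c6717 : lp7 (fun s => chk (uent L6717 s)) 0 = true := by decide +kernel
theorem p6717 : PrV chk L6717 := leafV c6717

theorem c6718 : lp7 (fun s => chk (uent L6718 s)) 0 = true := by decide +kernel
theorem p6718 : PrV chk L6718 := leafV c6718

theorem c6719 : lp7 (fun s => chk (uent L6719 s)) 0 = true := by decide +kernel
theorem p6719 : PrV chk L6719 := leafV c6719

end Pool.Agent.ad013a.W
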