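import Pool.Agent.H.MP_ad013a_pr.h63w.A.T
import Pool.Agent.H.MP_ad013a_pr.h63w.VLoop

namespace Pool.Agent.ad013a.W

theorem c6912 : lp7 (fun s => chk (uent L6912 s)) 0 = true := by decide +kernel
theorem p6912 : PrV chk L6912 := leafV c6912

theorem c6913 : lp7 (fun s => chk (uent L6913 s)) 0 = true := by decide +kernel
theorem p6913 : PrV chk L6913 := leafV c6913

theorem c6914 : lp7 (fun s => chk (uent L6914 s)) 0 = true := by decide +kernel
theorem p6914 : PrV chk L6914 := leafV c6914

theorem c6915 : lp7 (fun s => chk (uent L6915 s)) 0 = true := by decide +kernel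
theorem p6915 : PrV chk L6915 := leafV c6915

theorem c6916 : lp7 (fun s => chk (uent L6916 s)) 0 = true := by decide +kernel
theorem p6916 : PrV chk L6916 := leafV c6916

theorem c6917 : lp7 (fun s => chk (uent L6917 s)) 0 = true := by decide +kernel
theorem p6917 : PrV chk L6917 := leafV c6917

theorem c6918 : lp7 (fun s => chk (uent L6918 s)) 0 = true := by decide +kernel
theorem p6918 : PrV chk L6918 := leafV c6918

theorem c6919 : lp7 (fun s => chk (uent L6919 s)) 0 = true := by decide +kernel
theorem p6919 : PrV chk L6919 := leafV c6919

theorem c6920 : lp7 (fun s => chk (uent L6920 s)) 0 = true := by decide +kernel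
theorem p6920 : PrV chk L6920 := leafV c6920

theorem c6921 : lp7 (fun s => chk (uent L6921 s)) 0 = true := by decide +kernel
theorem p6921 : PrV chk L6921 := leafV c6921

theorem c6922 : lp7 (fun s => chk (uent L6922 s)) 0 = true := by decide +kernel
theorem p6922 : PrV chk L6922 := leafV c6922

theorem c6923 : lp7 (fun s => chk (uent L6923 s)) 0 = true := by decide +kernel
theorem p6923 : PrV chk L6923 := leafV c6923

theorem c6924 : lp7 (fun s => chk (uent L6924 s)) 0 = true := by decide +kernel
theorem p6924 : PrV chk L6924 := leafV c6924

theorem c6925 : lp7 (fun s => chk (uent L6925 s)) 0 = true := by decide +kernel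
theorem p6925 : PrV chk L6925 := leafV c6925

theorem c6926 : lp7 (fun s => chk (uent L6926 s)) 0 = true := by decide +kernel
theorem p6926 : PrV chk L6926 := leafV c6926

theorem c6927 : lp7 (fun s => chk (uent L6927 s)) 0 = true := by decide +kernel
theorem p6927 : PrV chk L6927 := leafV c6927

theorem c6928 : lp7 (fun s => chk (uent L6928 s)) 0 = true := by decide +kernel
theorem p6928 : PrV chk L6928 := leafV c6928

theorem c6929 : lp7 (fun s => chk (uent L6929 s)) 0 = true := by decide +kernel
theorem p6929 : PrV chk L6929 := leafV c6929

theorem c6930 : lp7 (fun s => chk (uent L6930 s)) 0 = true := by decide +kernel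
theorem p6930 : PrV chk L6930 := leafV c6930

theorem c6931 : lp7 (fun s => chk (uent L6931 s)) 0 = true := by decide +kernel
theorem p6931 : PrV chk L6931 := leafV c6931

theorem c6932 : lp7 (fun s => chk (uent L6932 s)) 0 = true := by decide +kernel
theorem p6932 : PrV chk L6932 := leafV c6932

theorem c6933 : lp7 (fun s => chk (uent L6933 s)) 0 = true := by decide +kernel
theorem p6933 : PrV chk L6933 := leafV c6933

theorem c6934 : lp7 (fun s => chk (uent L6934 s)) 0 = true := by decide +kernel
theorem p6934 : PrV chk L6934 := leafV c6934

theorem c6935 : lp7 (fun s => chk (uent L6935 s)) 0 = true := by decide +kernel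
theorem p6935 : PrV chk L6935 := leafV c6935

theorem c6936 : lp7 (fun s => chk (uent L6936 s)) 0 = true := by decide +kernel
theorem p6936 : PrV chk L6936 := leafV c6936

theorem c6937 : lp7 (fun s => chk (uent L6937 s)) 0 = true := by decide +kernel
theorem p6937 : PrV chk L6937 := leafV c6937

theorem c6938 : lp7 (fun s => chk (uent L6938 s)) 0 = true := by decide +kernel
theorem p6938 : PrV chk L6938 := leafV c6938

theorem c6939 : lp7 (fun s => chk (uent L6939 s)) 0 = true := by decide +kernel
theorem p6939 : PrV chk L6939 := leafV c6939

theorem c6940 : lp7 (fun s => chk (uent L6940 s)) 0 = true := by decide +kernel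
theorem p6940 : PrV chk L6940 := leafV c6940

theorem c6941 : lp7 (fun s => chk (uent L6941 s)) 0 = true := by decide +kernel
theorem p6941 : PrV chk L6941 := leafV c6941

theorem c6942 : lp7 (fun s => chk (uent L6942 s)) 0 = true := by decide +kernel
theorem p6942 : PrV chk L6942 := leafV c6942

theorem c6943 : lp7 (fun s => chk (uent L6943 s)) 0 = true := by decide +kernel
theorem p6943 : PrV chk L6943 := leafV c6943

theorem c6944 : lp7 (fun s => chk (uent L6944 s)) 0 = true := by decide +kernel
theorem p6944 : PrV chk L6944 := leafV c6944

theorem c6945 : lp7 (fun s => chk (uent L6945 s)) 0 = true := by decide +kernel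
theorem p6945 : PrV chk L6945 := leafV c6945

theorem c6946 : lp7 (fun s => chk (uent L6946 s)) 0 = true := by decide +kernel
theorem p6946 : PrV chk L6946 := leafV c6946

theorem c6947 : lp7 (fun s => chk (uent L6947 s)) 0 = true := by decide +kernel
theorem p6947 : PrV chk L6947 := leafV c6947

theorem c6948 : lp7 (fun s => chk (uent L6948 s)) 0 = true := by decide +kernel
theorem p6948 : PrV chk L6948 := leafV c6948

theorem c6949 : lp7 (fun s => chk (uent L6949 s)) 0 = true := by decide +kernel
theorem p6949 : PrV chk L6949 := leafV c6949

theorem c6950 : lp7 (fun s => chk (uent L6950 s)) 0 = true := by decide +kernel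
theorem p6950 : PrV chk L6950 := leafV c6950

theorem c6951 : lp7 (fun s => chk (uent L6951 s)) 0 = true := by decide +kernel
theorem p6951 : PrV chk L6951 := leafV c6951

theorem c6952 : lp7 (fun s => chk (uent L6952 s)) 0 = true := by decide +kernel
theorem p6952 : PrV chk L6952 := leafV c6952

theorem c6953 : lp7 (fun s => chk (uent L6953 s)) 0 = true := by decide +kernel
theorem p6953 : PrV chk L6953 := leafV c6953

theorem c6954 : lp7 (fun s => chk (uent L6954 s)) 0 = true := by decide +kernel
theorem p6954 : PrV chk L6954 := leafV c6954

theorem c6955 : lp7 (fun s => chk (uent L6955 s)) 0 = true := by decide +kernel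
theorem p6955 : PrV chk L6955 := leafV c6955

theorem c6956 : lp7 (fun s => chk (uent L6956 s)) 0 = true := by decide +kernel
theorem p6956 : PrV chk L6956 := leafV c6956

theorem c6957 : lp7 (fun s => chk (uent L6957 s)) 0 = true := by decide +kernel
theorem p6957 : PrV chk L6957 := leafV c6957

theorem c6958 : lp7 (fun s => chk (uent L6958 s)) 0 = true := by decide +kernel
theorem p6958 : PrV chk L6958 := leafV c6958

theorem c6959 : lp7 (fun s => chk (uent L6959 s)) 0 = true := by decide +kernel
theorem p6959 : PrV chk L6959 := leafV c6959

theorem c6960 : lp7 (fun s => chk (uent L6960 s)) 0 = true := by decide +kernel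
theorem p6960 : PrV chk L6960 := leafV c6960

theorem c6961 : lp7 (fun s => chk (uent L6961 s)) 0 = true := by decide +kernel
theorem p6961 : PrV chk L6961 := leafV c6961

theorem c6962 : lp7 (fun s => chk (uent L6962 s)) 0 = true := by decide +kernel
theorem p6962 : PrV chk L6962 := leafV c6962

theorem c6963 : lp7 (fun s => chk (uent L6963 s)) 0 = true := by decide +kernel
theorem p6963 : PrV chk L6963 := leafV c6963

theorem c6964 : lp7 (fun s => chk (uent L6964 s)) 0 = true := by decide +kernel
theorem p6964 : PrV chk L6964 := leafV c6964

theorem c6965 : lp7 (fun s => chk (uent L6965 s)) 0 = true := by decide +kernel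
theorem p6965 : PrV chk L6965 := leafV c6965

theorem c6966 : lp7 (fun s => chk (uent L6966 s)) 0 = true := by decide +kernel
theorem p6966 : PrV chk L6966 := leafV c6966

theorem c6967 : lp7 (fun s => chk (uent L6967 s)) 0 = true := by decide +kernel
theorem p6967 : PrV chk L6967 := leafV c6967

theorem c6968 : lp7 (fun s => chk (uent L6968 s)) 0 = true := by decide +kernel
theorem p6968 : PrV chk L6968 := leafV c6968

theorem c6969 : lp7 (fun s => chk (uent L6969 s)) 0 = true := by decide +kernel
theorem p6969 : PrV chk L6969 := leafV c6969

theorem c6970 : lp7 (fun s => chk (uent L6970 s)) 0 = true := by decide +kernel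
theorem p6970 : PrV chk L6970 := leafV c6970

theorem c6971 : lp7 (fun s => chk (uent L6971 s)) 0 = true := by decide +kernel
theorem p6971 : PrV chk L6971 := leafV c6971

theorem c6972 : lp7 (fun s => chk (uent L6972 s)) 0 = true := by decide +kernel
theorem p6972 : PrV chk L6972 := leafV c6972

theorem c6973 : lp7 (fun s => chk (uent L6973 s)) 0 = true := by decide +kernel
theorem p6973 : PrV chk L6973 := leafV c6973

theorem c6974 : lp7 (fun s => chk (uent L6974 s)) 0 = true := by decide +kernel
theorem p6974 : PrV chk L6974 := leafV c6974

theorem c6975 : lp7 (fun s => chk (uent L6975 s)) 0 = true := by decide +kernel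
theorem p6975 : PrV chk L6975 := leafV c6975

theorem c6976 : lp7 (fun s => chk (uent L6976 s)) 0 = true := by decide +kernel
theorem p6976 : PrV chk L6976 := leafV c6976

theorem c6977 : lp7 (fun s => chk (uent L6977 s)) 0 = true := by decide +kernel
theorem p6977 : PrV chk L6977 := leafV c6977

theorem c6978 : lp7 (fun s => chk (uent L6978 s)) 0 = true := by decide +kernel
theorem p6978 : PrV chk L6978 := leafV c6978

theorem c6979 : lp7 (fun s => chk (uent L6979 s)) 0 = true := by decide +kernel
theorem p6979 : PrV chk L6979 := leafV c6979

theorem c6980 : lp7 (fun s => chk (uent L6980 s)) 0 = true := by decide +kernel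
theorem p6980 : PrV chk L6980 := leafV c6980

theorem c6981 : lp7 (fun s => chk (uent L6981 s)) 0 = true := by decide +kernel
theorem p6981 : PrV chk L6981 := leafV c6981

theorem c6982 : lp7 (fun s => chk (uent L6982 s)) 0 = true := by decide +kernel
theorem p6982 : PrV chk L6982 := leafV c6982

theorem c6983 : lp7 (fun s => chk (uent L6983 s)) 0 = true := by decide +kernel
theorem p6983 : PrV chk L6983 := leafV c6983

theorem c6984 : lp7 (fun s => chk (uent L6984 s)) 0 = true := by decide +kernel
theorem p6984 : PrV chk L6984 := leafV c6984

theorem c6985 : lp7 (fun s => chk (uent L6985 s)) 0 = true := by decide +kernel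
theorem p6985 : PrV chk L6985 := leafV c6985

theorem c6986 : lp7 (fun s => chk (uent L6986 s)) 0 = true := by decide +kernel
theorem p6986 : PrV chk L6986 := leafV c6986

theorem c6987 : lp7 (fun s => chk (uent L6987 s)) 0 = true := by decide +kernel
theorem p6987 : PrV chk L6987 := leafV c6987

theorem c6988 : lp7 (fun s => chk (uent L6988 s)) 0 = true := by decide +kernel
theorem p6988 : PrV chk L6988 := leafV c6988

theorem c6989 : lp7 (fun s => chk (uent L6989 s)) 0 = true := by decide +kernel
theorem p6989 : PrV chk L6989 := leafV c6989

theorem c6990 : lp7 (fun s => chk (uent L6990 s)) 0 = true := by decide +kernel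
theorem p6990 : PrV chk L6990 := leafV c6990

theorem c6991 : lp7 (fun s => chk (uent L6991 s)) 0 = true := by decide +kernel
theorem p6991 : PrV chk L6991 := leafV c6991

theorem c6992 : lp7 (fun s => chk (uent L6992 s)) 0 = true := by decide +kernel
theorem p6992 : PrV chk L6992 := leafV c6992

theorem c6993 : lp7 (fun s => chk (uent L6993 s)) 0 = true := by decide +kernel
theorem p6993 : PrV chk L6993 := leafV c6993

theorem c6994 : lp7 (fun s => chk (uent L6994 s)) 0 = true := by decide +kernel
theorem p6994 : PrV chk L6994 := leafV c6994

theorem c6995 : lp7 (fun s => chk (uent L6995 s)) 0 = true := by decide +kernel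
theorem p6995 : PrV chk L6995 := leafV c6995

theorem c6996 : lp7 (fun s => chk (uent L6996 s)) 0 = true := by decide +kernel
theorem p6996 : PrV chk L6996 := leafV c6996

theorem c6997 : lp7 (fun s => chk (uent L6997 s)) 0 = true := by decide +kernel
theorem p6997 : PrV chk L6997 := leafV c6997

theorem c6998 : lp7 (fun s => chk (uent L6998 s)) 0 = true := by decide +kernel
theorem p6998 : PrV chk L6998 := leafV c6998

theorem c6999 : lp7 (fun s => chk (uent L6999 s)) 0 = true := by decide +kernel
theorem p6999 : PrV chk L6999 := leafV c6999

theorem c7000 : lp7 (fun s => chk (uent L7000 s)) 0 = true := by decide +kernel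
theorem p7000 : PrV chk L7000 := leafV c7000

theorem c7001 : lp7 (fun s => chk (uent L7001 s)) 0 = true := by decide +kernel
theorem p7001 : PrV chk L7001 := leafV c7001

theorem c7002 : lp7 (fun s => chk (uent L7002 s)) 0 = true := by decide +kernel
theorem p7002 : PrV chk L7002 := leafV c7002

theorem c7003 : lp7 (fun s => chk (uent L7003 s)) 0 = true := by decide +kernel
theorem p7003 : PrV chk L7003 := leafV c7003

theorem c7004 : lp7 (fun s => chk (uent L7004 s)) 0 = true := by decide +kernel
theorem p7004 : PrV chk L7004 := leafV c7004

theorem c7005 : lp7 (fun s => chk (uent L7005 s)) 0 = true := by decide +kernel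
theorem p7005 : PrV chk L7005 := leafV c7005

theorem c7006 : lp7 (fun s => chk (uent L7006 s)) 0 = true := by decide +kernel
theorem p7006 : PrV chk L7006 := leafV c7006

theorem c7007 : lp7 (fun s => chk (uent L7007 s)) 0 = true := by decide +kernel
theorem p7007 : PrV chk L7007 := leafV c7007

theorem c7008 : lp7 (fun s => chk (uent L7008 s)) 0 = true := by decide +kernel
theorem p7008 : PrV chk L7008 := leafV c7008

theorem c7009 : lp7 (fun s => chk (uent L7009 s)) 0 = true := by decide +kernel
theorem p7009 : PrV chk L7009 := leafV c7009

theorem c7010 : lp7 (fun s => chk (uent L7010 s)) 0 = true := by decide +kernel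
theorem p7010 : PrV chk L7010 := leafV c7010

theorem c7011 : lp7 (fun s => chk (uent L7011 s)) 0 = true := by decide +kernel
theorem p7011 : PrV chk L7011 := leafV c7011

theorem c7012 : lp7 (fun s => chk (uent L7012 s)) 0 = true := by decide +kernel
theorem p7012 : PrV chk L7012 := leafV c7012

theorem c7013 : lp7 (fun s => chk (uent L7013 s)) 0 = true := by decide +kernel
theorem p7013 : PrV chk L7013 := leafV c7013

theorem c7014 : lp7 (fun s => chk (uent L7014 s)) 0 = true := by decide +kernel
theorem p7014 : PrV chk L7014 := leafV c7014

theorem c7015 : lp7 (fun s => chk (uent L7015 s)) 0 = true := by decide +kernel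
theorem p7015 : PrV chk L7015 := leafV c7015

theorem c7016 : lp7 (fun s => chk (uent L7016 s)) 0 = true := by decide +kernel
theorem p7016 : PrV chk L7016 := leafV c7016

theorem c7017 : lp7 (fun s => chk (uent L7017 s)) 0 = true := by decide +kernel
theorem p7017 : PrV chk L7017 := leafV c7017

theorem c7018 : lp7 (fun s => chk (uent L7018 s)) 0 = true := by decide +kernel
theorem p7018 : PrV chk L7018 := leafV c7018

theorem c7019 : lp7 (fun s => chk (uent L7019 s)) 0 = true := by decide +kernel
theorem p7019 : PrV chk L7019 := leafV c7019

theorem c7020 : lp7 (fun s => chk (uent L7020 s)) 0 = true := by decide +kernel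
theorem p7020 : PrV chk L7020 := leafV c7020

theorem c7021 : lp7 (fun s => chk (uent L7021 s)) 0 = true := by decide +kernel
theorem p7021 : PrV chk L7021 := leafV c7021

theorem c7022 : lp7 (fun s => chk (uent L7022 s)) 0 = true := by decide +kernel
theorem p7022 : PrV chk L7022 := leafV c7022

theorem c7023 : lp7 (fun s => chk (uent L7023 s)) 0 = true := by decide +kernel
theorem p7023 : PrV chk L7023 := leafV c7023

theorem c7024 : lp7 (fun s => chk (uent L7024 s)) 0 = true := by decide +kernel
theorem p7024 : PrV chk L7024 := leafV c7024

theorem c7025 : lp7 (fun s => chk (uent L7025 s)) 0 = true := by decide +kernel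
theorem p7025 : PrV chk L7025 := leafV c7025

theorem c7026 : lp7 (fun s => chk (uent L7026 s)) 0 = true := by decide +kernel
theorem p7026 : PrV chk L7026 := leafV c7026

theorem c7027 : lp7 (fun s => chk (uent L7027 s)) 0 = true := by decide +kernel
theorem p7027 : PrV chk L7027 := leafV c7027

theorem c7028 : lp7 (fun s => chk (uent L7028 s)) 0 = true := by decide +kernel
theorem p7028 : PrV chk L7028 := leafV c7028

theorem c7029 : lp7 (fun s => chk (uent L7029 s)) 0 = true := by decide +kernel
theorem p7029 : PrV chk L7029 := leafV c7029

theorem c7030 : lp7 (fun s => chk (uent L7030 s)) 0 = true := by decide +kernel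
theorem p7030 : PrV chk L7030 := leafV c7030

theorem c7031 : lp7 (fun s => chk (uent L7031 s)) 0 = true := by decide +kernel
theorem p7031 : PrV chk L7031 := leafV c7031

theorem c7032 : lp7 (fun s => chk (uent L7032 s)) 0 = true := by decide +kernel
theorem p7032 : PrV chk L7032 := leafV c7032

theorem c7033 : lp7 (fun s => chk (uent L7033 s)) 0 = true := by decide +kernel
theorem p7033 : PrV chk L7033 := leafV c7033

theorem c7034 : lp7 (fun s => chk (uent L7034 s)) 0 = true := by decide +kernel
theorem p7034 : PrV chk L7034 := leafV c7034

theorem c7035 : lp7 (fun s => chk (uent L7035 s)) 0 = true := by decide +kernel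
theorem p7035 : PrV chk L7035 := leafV c7035

theorem c7036 : lp7 (fun s => chk (uent L7036 s)) 0 = true := by decide +kernel
theorem p7036 : PrV chk L7036 := leafV c7036

theorem c7037 : lp7 (fun s => chk (uent L7037 s)) 0 = true := by decide +kernel
theorem p7037 : PrV chk L7037 := leafV c7037

theorem c7038 : lp7 (fun s => chk (uent L7038 s)) 0 = true := by decide +kernel
theorem p7038 : PrV chk L7038 := leafV c7038

theorem c7039 : lp7 (fun s => chk (uent L7039 s)) 0 = true := by decide +kernel
theorem p7039 : PrV chk L7039 := leafV c7039

theorem c7040 : lp7 (fun s => chk (uent L7040 s)) 0 = true := by decide +kernel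
theorem p7040 : PrV chk L7040 := leafV c7040

theorem c7041 : lp7 (fun s => chk (uent L7041 s)) 0 = true := by decide +kernel
theorem p7041 : PrV chk L7041 := leafV c7041

theorem c7042 : lp7 (fun s => chk (uent L7042 s)) 0 = true := by decide +kernel
theorem p7042 : PrV chk L7042 := leafV c7042

theorem c7043 : lp7 (fun s => chk (uent L7043 s)) 0 = true := by decide +kernel
theorem p7043 : PrV chk L7043 := leafV c7043

theorem c7044 : lp7 (fun s => chk (uent L7044 s)) 0 = true := by decide +kernel
theorem p7044 : PrV chk L7044 := leafV c7044

theorem c7045 : lp7 (fun s => chk (uent L7045 s)) 0 = true := by decide +kernel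
theorem p7045 : PrV chk L7045 := leafV c7045

theorem c7046 : lp7 (fun s => chk (uent L7046 s)) 0 = true := by decide +kernel
theorem p7046 : PrV chk L7046 := leafV c7046

theorem c7047 : lp7 (fun s => chk (uent L7047 s)) 0 = true := by decide +kernel
theorem p7047 : PrV chk L7047 := leafV c7047

theorem c7048 : lp7 (fun s => chk (uent L7048 s)) 0 = true := by decide +kernel
theorem p7048 : PrV chk L7048 := leafV c7048

theorem c7049 : lp7 (fun s => chk (uent L7049 s)) 0 = true := by decide +kernel
theorem p7049 : PrV chk L7049 := leafV c7049

theorem c7050 : lp7 (fun s => chk (uent L7050 s)) 0 = true := by decide +kernel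
theorem p7050 : PrV chk L7050 := leafV c7050

theorem c7051 : lp7 (fun s => chk (uent L7051 s)) 0 = true := by decide +kernel
theorem p7051 : PrV chk L7051 := leafV c7051

theorem c7052 : lp7 (fun s => chk (uent L7052 s)) 0 = true := by decide +kernel
theorem p7052 : PrV chk L7052 := leafV c7052

theorem c7053 : lp7 (fun s => chk (uent L7053 s)) 0 = true := by decide +kernel
theorem p7053 : PrV chk L7053 := leafV c7053

theorem c7054 : lp7 (fun s => chk (uent L7054 s)) 0 = true := by decide +kernel
theorem p7054 : PrV chk L7054 := leafV c7054

theorem c7055 : lp7 (fun s => chk (uent L7055 s)) 0 = true := by decide +kernel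
theorem p7055 : PrV chk L7055 := leafV c7055

theorem c7056 : lp7 (fun s => chk (uent L7056 s)) 0 = true := by decide +kernel
theorem p7056 : PrV chk L7056 := leafV c7056

theorem c7057 : lp7 (fun s => chk (uent L7057 s)) 0 = true := by decide +kernel
theorem p7057 : PrV chk L7057 := leafV c7057

theorem c7058 : lp7 (fun s => chk (uent L7058 s)) 0 = true := by decide +kernel
theorem p7058 : PrV chk L7058 := leafV c7058

theorem c7059 : lp7 (fun s => chk (uent L7059 s)) 0 = true := by decide +kernel
theorem p7059 : PrV chk L7059 := leafV c7059

theorem c7060 : lp7 (fun s => chk (uent L7060 s)) 0 = true := by decide +kernel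
theorem p7060 : PrV chk L7060 := leafV c7060

theorem c7061 : lp7 (fun s => chk (uent L7061 s)) 0 = true := by decide +kernel
theorem p7061 : PrV chk L7061 := leafV c7061

theorem c7062 : lp7 (fun s => chk (uent L7062 s)) 0 = true := by decide +kernel
theorem p7062 : PrV chk L7062 := leafV c7062

theorem c7063 : lp7 (fun s => chk (uent L7063 s)) 0 = true := by decide +kernel
theorem p7063 : PrV chk L7063 := leafV c7063

theorem c7064 : lp7 (fun s => chk (uent L7064 s)) 0 = true := by decide +kernel
theorem p7064 : PrV chk L7064 := leafV c7064

theorem c7065 : lp7 (fun s => chk (uent L7065 s)) 0 = true := by decide +kernel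
theorem p7065 : PrV chk L7065 := leafV c7065

theorem c7066 : lp7 (fun s => chk (uent L7066 s)) 0 = true := by decide +kernel
theorem p7066 : PrV chk L7066 := leafV c7066

theorem c7067 : lp7 (fun s => chk (uent L7067 s)) 0 = true := by decide +kernel
theorem p7067 : PrV chk L7067 := leafV c7067

theorem c7068 : lp7 (fun s => chk (uent L7068 s)) 0 = true := by decide +kernel
theorem p7068 : PrV chk L7068 := leafV c7068

theorem c7069 : lp7 (fun s => chk (uent L7069 s)) 0 = true := by decide +kernel
theorem p7069 : PrV chk L7069 := leafV c7069

theorem c7070 : lp7 (fun s => chk (uent L7070 s)) 0 = true := by decide +kernel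
theorem p7070 : PrV chk L7070 := leafV c7070

theorem c7071 : lp7 (fun s => chk (uent L7071 s)) 0 = true := by decide +kernel
theorem p7071 : PrV chk L7071 := leafV c7071

theorem c7072 : lp7 (fun s => chk (uent L7072 s)) 0 = true := by decide +kernel
theorem p7072 : PrV chk L7072 := leafV c7072

theorem c7073 : lp7 (fun s => chk (uent L7073 s)) 0 = true := by decide +kernel
theorem p7073 : PrV chk L7073 := leafV c7073

theorem c7074 : lp7 (fun s => chk (uent L7074 s)) 0 = true := by decide +kernel
theorem p7074 : PrV chk L7074 := leafV c7074

theorem c7075 : lp7 (fun s => chk (uent L7075 s)) 0 = true := by decide +kernel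
theorem p7075 : PrV chk L7075 := leafV c7075

theorem c7076 : lp7 (fun s => chk (uent L7076 s)) 0 = true := by decide +kernel
theorem p7076 : PrV chk L7076 := leafV c7076

theorem c7077 : lp7 (fun s => chk (uent L7077 s)) 0 = true := by decide +kernel
theorem p7077 : PrV chk L7077 := leafV c7077

theorem c7078 : lp7 (fun s => chk (uent L7078 s)) 0 = true := by decide +kernel
theorem p7078 : PrV chk L7078 := leafV c7078

theorem c7079 : lp7 (fun s => chk (uent L7079 s)) 0 = true := by decide +kernel
theorem p7079 : PrV chk L7079 := leafV c7079

theorem c7080 : lp7 (fun s => chk (uent L7080 s)) 0 = true := by decide +kernel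
theorem p7080 : PrV chk L7080 := leafV c7080

theorem c7081 : lp7 (fun s => chk (uent L7081 s)) 0 = true := by decide +kernel
theorem p7081 : PrV chk L7081 := leafV c7081

theorem c7082 : lp7 (fun s => chk (uent L7082 s)) 0 = true := by decide +kernel
theorem p7082 : PrV chk L7082 := leafV c7082

theorem c7083 : lp7 (fun s => chk (uent L7083 s)) 0 = true := by decide +kernel
theorem p7083 : PrV chk L7083 := leafV c7083

theorem c7084 : lp7 (fun s => chk (uent L7084 s)) 0 = true := by decide +kernel
theorem p7084 : PrV chk L7084 := leafV c7084

theorem c7085 : lp7 (fun s => chk (uent L7085 s)) 0 = true := by decide +kernel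
theorem p7085 : PrV chk L7085 := leafV c7085

theorem c7086 : lp7 (fun s => chk (uent L7086 s)) 0 = true := by decide +kernel
theorem p7086 : PrV chk L7086 := leafV c7086

theorem c7087 : lp7 (fun s => chk (uent L7087 s)) 0 = true := by decide +kernel
theorem p7087 : PrV chk L7087 := leafV c7087

theorem c7088 : lp7 (fun s => chk (uent L7088 s)) 0 = true := by decide +kernel
theorem p7088 : PrV chk L7088 := leafV c7088

theorem c7089 : lp7 (fun s => chk (uent L7089 s)) 0 = true := by decide +kernel
theorem p7089 : PrV chk L7089 := leafV c7089

theorem c7090 : lp7 (fun s => chk (uent L7090 s)) 0 = true := by decide +kernel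
theorem p7090 : PrV chk L7090 := leafV c7090

theorem c7091 : lp7 (fun s => chk (uent L7091 s)) 0 = true := by decide +kernel
theorem p7091 : PrV chk L7091 := leafV c7091

theorem c7092 : lp7 (fun s => chk (uent L7092 s)) 0 = true := by decide +kernel
theorem p7092 : PrV chk L7092 := leafV c7092

theorem c7093 : lp7 (fun s => chk (uent L7093 s)) 0 = true := by decide +kernel
theorem p7093 : PrV chk L7093 := leafV c7093

theorem c7094 : lp7 (fun s => chk (uent L7094 s)) 0 = true := by decide +kernel
theorem p7094 : PrV chk L7094 := leafV c7094

theorem c7095 : lp7 (fun s => chk (uent L7095 s)) 0 = true := by decide +kernel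
theorem p7095 : PrV chk L7095 := leafV c7095

theorem c7096 : lp7 (fun s => chk (uent L7096 s)) 0 = true := by decide +kernel
theorem p7096 : PrV chk L7096 := leafV c7096

theorem c7097 : lp7 (fun s => chk (uent L7097 s)) 0 = true := by decide +kernel
theorem p7097 : PrV chk L7097 := leafV c7097

theorem c7098 : lp7 (fun s => chk (uent L7098 s)) 0 = true := by decide +kernel
theorem p7098 : PrV chk L7098 := leafV c7098

theorem c7099 : lp7 (fun s => chk (uent L7099 s)) 0 = true := by decide +kernel
theorem p7099 : PrV chk L7099 := leafV c7099

theorem c7100 : lp7 (fun s => chk (uent L7100 s)) 0 = true := by decide +kernel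
theorem p7100 : PrV chk L7100 := leafV c7100

theorem c7101 : lp7 (fun s => chk (uent L7101 s)) 0 = true := by decide +kernel
theorem p7101 : PrV chk L7101 := leafV c7101

theorem c7102 : lp7 (fun s => chk (uent L7102 s)) 0 = true := by decide +kernel
theorem p7102 : PrV chk L7102 := leafV c7102

theorem c7103 : lp7 (fun s => chk (uent L7103 s)) 0 = true := by decide +kernel
theorem p7103 : PrV chk L7103 := leafV c7103

end Pool.Agent.ad013a.W
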