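import Pool.Agent.H.MP_ad013a_pr.h63w.A.T
import Pool.Agent.H.MP_ad013a_pr.h63w.VLoop

namespace Pool.Agent.ad013a.W

theorem c7104 : lp7 (fun s => chk (uent L7104 s)) 0 = true := by decide +kernel
theorem p7104 : PrV chk L7104 := leafV c7104

theorem c7105 : lp7 (fun s => chk (uent L7105 s)) 0 = true := by decide +kernel
theorem p7105 : PrV chk L7105 := leafV c7105

theorem c7106 : lp7 (fun s => chk (uent L7106 s)) 0 = true := by decide +kernel
theorem p7106 : PrV chk L7106 := leafV c7106

theorem c7107 : lp7 (fun s => chk (uent L7107 s)) 0 = true := by decide +kernel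
theorem p7107 : PrV chk L7107 := leafV c7107

theorem c7108 : lp7 (fun s => chk (uent L7108 s)) 0 = true := by decide +kernel
theorem p7108 : PrV chk L7108 := leafV c7108

theorem c7109 : lp7 (fun s => chk (uent L7109 s)) 0 = true := by decide +kernel
theorem p7109 : PrV chk L7109 := leafV c7109

theorem c7110 : lp7 (fun s => chk (uent L7110 s)) 0 = true := by decide +kernel
theorem p7110 : PrV chk L7110 := leafV c7110

theorem c7111 : lp7 (fun s => chk (uent L7111 s)) 0 = true := by decide +kernel
theorem p7111 : PrV chk L7111 := leafV c7111

theorem c7112 : lp7 (fun s => chk (uent L7112 s)) 0 = true := by decide +kernel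
theorem p7112 : PrV chk L7112 := leafV c7112

theorem c7113 : lp7 (fun s => chk (uent L7113 s)) 0 = true := by decide +kernel
theorem p7113 : PrV chk L7113 := leafV c7113

theorem c7114 : lp7 (fun s => chk (uent L7114 s)) 0 = true := by decide +kernel
theorem p7114 : PrV chk L7114 := leafV c7114

theorem c7115 : lp7 (fun s => chk (uent L7115 s)) 0 = true := by decide +kernel
theorem p7115 : PrV chk L7115 := leafV c7115

theorem c7116 : lp7 (fun s => chk (uent L7116 s)) 0 = true := by decide +kernel
theorem p7116 : PrV chk L7116 := leafV c7116

theorem c7117 : lp7 (fun s => chk (uent L7117 s)) 0 = true := by decide +kernel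
theorem p7117 : PrV chk L7117 := leafV c7117

theorem c7118 : lp7 (fun s => chk (uent L7118 s)) 0 = true := by decide +kernel
theorem p7118 : PrV chk L7118 := leafV c7118

theorem c7119 : lp7 (fun s => chk (uent L7119 s)) 0 = true := by decide +kernel
theorem p7119 : PrV chk L7119 := leafV c7119

theorem c7120 : lp7 (fun s => chk (uent L7120 s)) 0 = true := by decide +kernel
theorem p7120 : PrV chk L7120 := leafV c7120

theorem c7121 : lp7 (fun s => chk (uent L7121 s)) 0 = true := by decide +kernel
theorem p7121 : PrV chk L7121 := leafV c7121

theorem c7122 : lp7 (fun s => chk (uent L7122 s)) 0 = true := by decide +kernel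
theorem p7122 : PrV chk L7122 := leafV c7122

theorem c7123 : lp7 (fun s => chk (uent L7123 s)) 0 = true := by decide +kernel
theorem p7123 : PrV chk L7123 := leafV c7123

theorem c7124 : lp7 (fun s => chk (uent L7124 s)) 0 = true := by decide +kernel
theorem p7124 : PrV chk L7124 := leafV c7124

theorem c7125 : lp7 (fun s => chk (uent L7125 s)) 0 = true := by decide +kernel
theorem p7125 : PrV chk L7125 := leafV c7125

theorem c7126 : lp7 (fun s => chk (uent L7126 s)) 0 = true := by decide +kernel
theorem p7126 : PrV chk L7126 := leafV c7126

theorem c7127 : lp7 (fun s => chk (uent L7127 s)) 0 = true := by decide +kernel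
theorem p7127 : PrV chk L7127 := leafV c7127

theorem c7128 : lp7 (fun s => chk (uent L7128 s)) 0 = true := by decide +kernel
theorem p7128 : PrV chk L7128 := leafV c7128

theorem c7129 : lp7 (fun s => chk (uent L7129 s)) 0 = true := by decide +kernel
theorem p7129 : PrV chk L7129 := leafV c7129

theorem c7130 : lp7 (fun s => chk (uent L7130 s)) 0 = true := by decide +kernel
theorem p7130 : PrV chk L7130 := leafV c7130

theorem c7131 : lp7 (fun s => chk (uent L7131 s)) 0 = true := by decide +kernel
theorem p7131 : PrV chk L7131 := leafV c7131

theorem c7132 : lp7 (fun s => chk (uent L7132 s)) 0 = true := by decide +kernel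
theorem p7132 : PrV chk L7132 := leafV c7132

theorem c7133 : lp7 (fun s => chk (uent L7133 s)) 0 = true := by decide +kernel
theorem p7133 : PrV chk L7133 := leafV c7133

theorem c7134 : lp7 (fun s => chk (uent L7134 s)) 0 = true := by decide +kernel
theorem p7134 : PrV chk L7134 := leafV c7134

theorem c7135 : lp7 (fun s => chk (uent L7135 s)) 0 = true := by decide +kernel
theorem p7135 : PrV chk L7135 := leafV c7135

theorem c7136 : lp7 (fun s => chk (uent L7136 s)) 0 = true := by decide +kernel
theorem p7136 : PrV chk L7136 := leafV c7136

theorem c7137 : lp7 (fun s => chk (uent L7137 s)) 0 = true := by decide +kernel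
theorem p7137 : PrV chk L7137 := leafV c7137

theorem c7138 : lp7 (fun s => chk (uent L7138 s)) 0 = true := by decide +kernel
theorem p7138 : PrV chk L7138 := leafV c7138

theorem c7139 : lp7 (fun s => chk (uent L7139 s)) 0 = true := by decide +kernel
theorem p7139 : PrV chk L7139 := leafV c7139

theorem c7140 : lp7 (fun s => chk (uent L7140 s)) 0 = true := by decide +kernel
theorem p7140 : PrV chk L7140 := leafV c7140

theorem c7141 : lp7 (fun s => chk (uent L7141 s)) 0 = true := by decide +kernel
theorem p7141 : PrV chk L7141 := leafV c7141

theorem c7142 : lp7 (fun s => chk (uent L7142 s)) 0 = true := by decide +kernel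
theorem p7142 : PrV chk L7142 := leafV c7142

theorem c7143 : lp7 (fun s => chk (uent L7143 s)) 0 = true := by decide +kernel
theorem p7143 : PrV chk L7143 := leafV c7143

theorem c7144 : lp7 (fun s => chk (uent L7144 s)) 0 = true := by decide +kernel
theorem p7144 : PrV chk L7144 := leafV c7144

theorem c7145 : lp7 (fun s => chk (uent L7145 s)) 0 = true := by decide +kernel
theorem p7145 : PrV chk L7145 := leafV c7145

theorem c7146 : lp7 (fun s => chk (uent L7146 s)) 0 = true := by decide +kernel
theorem p7146 : PrV chk L7146 := leafV c7146

theorem c7147 : lp7 (fun s => chk (uent L7147 s)) 0 = true := by decide +kernel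
theorem p7147 : PrV chk L7147 := leafV c7147

theorem c7148 : lp7 (fun s => chk (uent L7148 s)) 0 = true := by decide +kernel
theorem p7148 : PrV chk L7148 := leafV c7148

theorem c7149 : lp7 (fun s => chk (uent L7149 s)) 0 = true := by decide +kernel
theorem p7149 : PrV chk L7149 := leafV c7149

theorem c7150 : lp7 (fun s => chk (uent L7150 s)) 0 = true := by decide +kernel
theorem p7150 : PrV chk L7150 := leafV c7150

theorem c7151 : lp7 (fun s => chk (uent L7151 s)) 0 = true := by decide +kernel
theorem p7151 : PrV chk L7151 := leafV c7151

theorem c7152 : lp7 (fun s => chk (uent L7152 s)) 0 = true := by decide +kernel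
theorem p7152 : PrV chk L7152 := leafV c7152

theorem c7153 : lp7 (fun s => chk (uent L7153 s)) 0 = true := by decide +kernel
theorem p7153 : PrV chk L7153 := leafV c7153

theorem c7154 : lp7 (fun s => chk (uent L7154 s)) 0 = true := by decide +kernel
theorem p7154 : PrV chk L7154 := leafV c7154

theorem c7155 : lp7 (fun s => chk (uent L7155 s)) 0 = true := by decide +kernel
theorem p7155 : PrV chk L7155 := leafV c7155

theorem c7156 : lp7 (fun s => chk (uent L7156 s)) 0 = true := by decide +kernel
theorem p7156 : PrV chk L7156 := leafV c7156

theorem c7157 : lp7 (fun s => chk (uent L7157 s)) 0 = true := by decide +kernel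
theorem p7157 : PrV chk L7157 := leafV c7157

theorem c7158 : lp7 (fun s => chk (uent L7158 s)) 0 = true := by decide +kernel
theorem p7158 : PrV chk L7158 := leafV c7158

theorem c7159 : lp7 (fun s => chk (uent L7159 s)) 0 = true := by decide +kernel
theorem p7159 : PrV chk L7159 := leafV c7159

theorem c7160 : lp7 (fun s => chk (uent L7160 s)) 0 = true := by decide +kernel
theorem p7160 : PrV chk L7160 := leafV c7160

theorem c7161 : lp7 (fun s => chk (uent L7161 s)) 0 = true := by decide +kernel
theorem p7161 : PrV chk L7161 := leafV c7161

theorem c7162 : lp7 (fun s => chk (uent L7162 s)) 0 = true := by decide +kernel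
theorem p7162 : PrV chk L7162 := leafV c7162

theorem c7163 : lp7 (fun s => chk (uent L7163 s)) 0 = true := by decide +kernel
theorem p7163 : PrV chk L7163 := leafV c7163

theorem c7164 : lp7 (fun s => chk (uent L7164 s)) 0 = true := by decide +kernel
theorem p7164 : PrV chk L7164 := leafV c7164

theorem c7165 : lp7 (fun s => chk (uent L7165 s)) 0 = true := by decide +kernel
theorem p7165 : PrV chk L7165 := leafV c7165

theorem c7166 : lp7 (fun s => chk (uent L7166 s)) 0 = true := by decide +kernel
theorem p7166 : PrV chk L7166 := leafV c7166

theorem c7167 : lp7 (fun s => chk (uent L7167 s)) 0 = true := by decide +kernel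
theorem p7167 : PrV chk L7167 := leafV c7167

theorem c7168 : lp7 (fun s => chk (uent L7168 s)) 0 = true := by decide +kernel
theorem p7168 : PrV chk L7168 := leafV c7168

theorem c7169 : lp7 (fun s => chk (uent L7169 s)) 0 = true := by decide +kernel
theorem p7169 : PrV chk L7169 := leafV c7169

theorem c7170 : lp7 (fun s => chk (uent L7170 s)) 0 = true := by decide +kernel
theorem p7170 : PrV chk L7170 := leafV c7170

theorem c7171 : lp7 (fun s => chk (uent L7171 s)) 0 = true := by decide +kernel
theorem p7171 : PrV chk L7171 := leafV c7171

theorem c7172 : lp7 (fun s => chk (uent L7172 s)) 0 = true := by decide +kernel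
theorem p7172 : PrV chk L7172 := leafV c7172

theorem c7173 : lp7 (fun s => chk (uent L7173 s)) 0 = true := by decide +kernel
theorem p7173 : PrV chk L7173 := leafV c7173

theorem c7174 : lp7 (fun s => chk (uent L7174 s)) 0 = true := by decide +kernel
theorem p7174 : PrV chk L7174 := leafV c7174

theorem c7175 : lp7 (fun s => chk (uent L7175 s)) 0 = true := by decide +kernel
theorem p7175 : PrV chk L7175 := leafV c7175

theorem c7176 : lp7 (fun s => chk (uent L7176 s)) 0 = true := by decide +kernel
theorem p7176 : PrV chk L7176 := leafV c7176

end Pool.Agent.ad013a.W
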