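import Pool.Agent.H.MP_ad013a_pr.h63w.A.T
import Pool.Agent.H.MP_ad013a_pr.h63w.VLoop

namespace Pool.Agent.ad013a.W

theorem c768 : lp7 (fun s => chk (uent L768 s)) 0 = true := by decide +kernel
theorem p768 : PrV chk L768 := leafV c768

theorem c769 : lp7 (fun s => chk (uent L769 s)) 0 = true := by decide +kernel
theorem p769 : PrV chk L769 := leafV c769

theorem c770 : lp7 (fun s => chk (uent L770 s)) 0 = true := by decide +kernel
theorem p770 : PrV chk L770 := leafV c770

theorem c771 : lp7 (fun s => chk (uent L771 s)) 0 = true := by decide +kernel
theorem p771 : PrV chk L771 := leafV c771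

theorem c772 : lp7 (fun s => chk (uent L772 s)) 0 = true := by decide +kernel
theorem p772 : PrV chk L772 := leafV c772

theorem c773 : lp7 (fun s => chk (uent L773 s)) 0 = true := by decide +kernel
theorem p773 : PrV chk L773 := leafV c773

theorem c774 : lp7 (fun s => chk (uent L774 s)) 0 = true := by decide +kernel
theorem p774 : PrV chk L774 := leafV c774

theorem c775 : lp7 (fun s => chk (uent L775 s)) 0 = true := by decide +kernel
theorem p775 : PrV chk L775 := leafV c775

theorem c776 : lp7 (fun s => chk (uent L776 s)) 0 = true := by decide +kernel
theorem p776 : PrV chk L776 := leafV c776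

theorem c777 : lp7 (fun s => chk (uent L777 s)) 0 = true := by decide +kernel
theorem p777 : PrV chk L777 := leafV c777

theorem c778 : lp7 (fun s => chk (uent L778 s)) 0 = true := by decide +kernel
theorem p778 : PrV chk L778 := leafV c778

theorem c779 : lp7 (fun s => chk (uent L779 s)) 0 = true := by decide +kernel
theorem p779 : PrV chk L779 := leafV c779

theorem c780 : lp7 (fun s => chk (uent L780 s)) 0 = true := by decide +kernel
theorem p780 : PrV chk L780 := leafV c780

theorem c781 : lp7 (fun s => chk (uent L781 s)) 0 = true := by decide +kernel
theorem p781 : PrV chk L781 := leafV c781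

theorem c782 : lp7 (fun s => chk (uent L782 s)) 0 = true := by decide +kernel
theorem p782 : PrV chk L782 := leafV c782

theorem c783 : lp7 (fun s => chk (uent L783 s)) 0 = true := by decide +kernel
theorem p783 : PrV chk L783 := leafV c783

theorem c784 : lp7 (fun s => chk (uent L784 s)) 0 = true := by decide +kernel
theorem p784 : PrV chk L784 := leafV c784

theorem c785 : lp7 (fun s => chk (uent L785 s)) 0 = true := by decide +kernel
theorem p785 : PrV chk L785 := leafV c785

theorem c786 : lp7 (fun s => chk (uent L786 s)) 0 = true := by decide +kernel
theorem p786 : PrV chk L786 := leafV c786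

theorem c787 : lp7 (fun s => chk (uent L787 s)) 0 = true := by decide +kernel
theorem p787 : PrV chk L787 := leafV c787

theorem c788 : lp7 (fun s => chk (uent L788 s)) 0 = true := by decide +kernel
theorem p788 : PrV chk L788 := leafV c788

theorem c789 : lp7 (fun s => chk (uent L789 s)) 0 = true := by decide +kernel
theorem p789 : PrV chk L789 := leafV c789

theorem c790 : lp7 (fun s => chk (uent L790 s)) 0 = true := by decide +kernel
theorem p790 : PrV chk L790 := leafV c790

theorem c791 : lp7 (fun s => chk (uent L791 s)) 0 = true := by decide +kernel
theorem p791 : PrV chk L791 := leafV c791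

theorem c792 : lp7 (fun s => chk (uent L792 s)) 0 = true := by decide +kernel
theorem p792 : PrV chk L792 := leafV c792

theorem c793 : lp7 (fun s => chk (uent L793 s)) 0 = true := by decide +kernel
theorem p793 : PrV chk L793 := leafV c793

theorem c794 : lp7 (fun s => chk (uent L794 s)) 0 = true := by decide +kernel
theorem p794 : PrV chk L794 := leafV c794

theorem c795 : lp7 (fun s => chk (uent L795 s)) 0 = true := by decide +kernel
theorem p795 : PrV chk L795 := leafV c795

theorem c796 : lp7 (fun s => chk (uent L796 s)) 0 = true := by decide +kernel
theorem p796 : PrV chk L796 := leafV c796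

theorem c797 : lp7 (fun s => chk (uent L797 s)) 0 = true := by decide +kernel
theorem p797 : PrV chk L797 := leafV c797

theorem c798 : lp7 (fun s => chk (uent L798 s)) 0 = true := by decide +kernel
theorem p798 : PrV chk L798 := leafV c798

theorem c799 : lp7 (fun s => chk (uent L799 s)) 0 = true := by decide +kernel
theorem p799 : PrV chk L799 := leafV c799

theorem c800 : lp7 (fun s => chk (uent L800 s)) 0 = true := by decide +kernel
theorem p800 : PrV chk L800 := leafV c800

theorem c801 : lp7 (fun s => chk (uent L801 s)) 0 = true := by decide +kernel
theorem p801 : PrV chk L801 := leafV c801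

theorem c802 : lp7 (fun s => chk (uent L802 s)) 0 = true := by decide +kernel
theorem p802 : PrV chk L802 := leafV c802

theorem c803 : lp7 (fun s => chk (uent L803 s)) 0 = true := by decide +kernel
theorem p803 : PrV chk L803 := leafV c803

theorem c804 : lp7 (fun s => chk (uent L804 s)) 0 = true := by decide +kernel
theorem p804 : PrV chk L804 := leafV c804

theorem c805 : lp7 (fun s => chk (uent L805 s)) 0 = true := by decide +kernel
theorem p805 : PrV chk L805 := leafV c805

theorem c806 : lp7 (fun s => chk (uent L806 s)) 0 = true := by decide +kernel
theorem p806 : PrV chk L806 := leafV c806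

theorem c807 : lp7 (fun s => chk (uent L807 s)) 0 = true := by decide +kernel
theorem p807 : PrV chk L807 := leafV c807

theorem c808 : lp7 (fun s => chk (uent L808 s)) 0 = true := by decide +kernel
theorem p808 : PrV chk L808 := leafV c808

theorem c809 : lp7 (fun s => chk (uent L809 s)) 0 = true := by decide +kernel
theorem p809 : PrV chk L809 := leafV c809

theorem c810 : lp7 (fun s => chk (uent L810 s)) 0 = true := by decide +kernel
theorem p810 : PrV chk L810 := leafV c810

theorem c811 : lp7 (fun s => chk (uent L811 s)) 0 = true := by decide +kernel
theorem p811 : PrV chk L811 := leafV c811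

theorem c812 : lp7 (fun s => chk (uent L812 s)) 0 = true := by decide +kernel
theorem p812 : PrV chk L812 := leafV c812

theorem c813 : lp7 (fun s => chk (uent L813 s)) 0 = true := by decide +kernel
theorem p813 : PrV chk L813 := leafV c813

theorem c814 : lp7 (fun s => chk (uent L814 s)) 0 = true := by decide +kernel
theorem p814 : PrV chk L814 := leafV c814

theorem c815 : lp7 (fun s => chk (uent L815 s)) 0 = true := by decide +kernel
theorem p815 : PrV chk L815 := leafV c815

theorem c816 : lp7 (fun s => chk (uent L816 s)) 0 = true := by decide +kernel
theorem p816 : PrV chk L816 := leafV c816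

theorem c817 : lp7 (fun s => chk (uent L817 s)) 0 = true := by decide +kernel
theorem p817 : PrV chk L817 := leafV c817

theorem c818 : lp7 (fun s => chk (uent L818 s)) 0 = true := by decide +kernel
theorem p818 : PrV chk L818 := leafV c818

theorem c819 : lp7 (fun s => chk (uent L819 s)) 0 = true := by decide +kernel
theorem p819 : PrV chk L819 := leafV c819

theorem c820 : lp7 (fun s => chk (uent L820 s)) 0 = true := by decide +kernel
theorem p820 : PrV chk L820 := leafV c820

theorem c821 : lp7 (fun s => chk (uent L821 s)) 0 = true := by decide +kernel
theorem p821 : PrV chk L821 := leafV c821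

theorem c822 : lp7 (fun s => chk (uent L822 s)) 0 = true := by decide +kernel
theorem p822 : PrV chk L822 := leafV c822

theorem c823 : lp7 (fun s => chk (uent L823 s)) 0 = true := by decide +kernel
theorem p823 : PrV chk L823 := leafV c823

theorem c824 : lp7 (fun s => chk (uent L824 s)) 0 = true := by decide +kernel
theorem p824 : PrV chk L824 := leafV c824

theorem c825 : lp7 (fun s => chk (uent L825 s)) 0 = true := by decide +kernel
theorem p825 : PrV chk L825 := leafV c825

theorem c826 : lp7 (fun s => chk (uent L826 s)) 0 = true := by decide +kernel
theorem p826 : PrV chk L826 := leafV c826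

theorem c827 : lp7 (fun s => chk (uent L827 s)) 0 = true := by decide +kernel
theorem p827 : PrV chk L827 := leafV c827

theorem c828 : lp7 (fun s => chk (uent L828 s)) 0 = true := by decide +kernel
theorem p828 : PrV chk L828 := leafV c828

theorem c829 : lp7 (fun s => chk (uent L829 s)) 0 = true := by decide +kernel
theorem p829 : PrV chk L829 := leafV c829

theorem c830 : lp7 (fun s => chk (uent L830 s)) 0 = true := by decide +kernel
theorem p830 : PrV chk L830 := leafV c830

theorem c831 : lp7 (fun s => chk (uent L831 s)) 0 = true := by decide +kernel
theorem p831 : PrV chk L831 := leafV c831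

theorem c832 : lp7 (fun s => chk (uent L832 s)) 0 = true := by decide +kernel
theorem p832 : PrV chk L832 := leafV c832

theorem c833 : lp7 (fun s => chk (uent L833 s)) 0 = true := by decide +kernel
theorem p833 : PrV chk L833 := leafV c833

theorem c834 : lp7 (fun s => chk (uent L834 s)) 0 = true := by decide +kernel
theorem p834 : PrV chk L834 := leafV c834

theorem c835 : lp7 (fun s => chk (uent L835 s)) 0 = true := by decide +kernel
theorem p835 : PrV chk L835 := leafV c835

theorem c836 : lp7 (fun s => chk (uent L836 s)) 0 = true := by decide +kernel
theorem p836 : PrV chk L836 := leafV c836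

theorem c837 : lp7 (fun s => chk (uent L837 s)) 0 = true := by decide +kernel
theorem p837 : PrV chk L837 := leafV c837

theorem c838 : lp7 (fun s => chk (uent L838 s)) 0 = true := by decide +kernel
theorem p838 : PrV chk L838 := leafV c838

theorem c839 : lp7 (fun s => chk (uent L839 s)) 0 = true := by decide +kernel
theorem p839 : PrV chk L839 := leafV c839

theorem c840 : lp7 (fun s => chk (uent L840 s)) 0 = true := by decide +kernel
theorem p840 : PrV chk L840 := leafV c840

theorem c841 : lp7 (fun s => chk (uent L841 s)) 0 = true := by decide +kernel
theorem p841 : PrV chk L841 := leafV c841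

theorem c842 : lp7 (fun s => chk (uent L842 s)) 0 = true := by decide +kernel
theorem p842 : PrV chk L842 := leafV c842

theorem c843 : lp7 (fun s => chk (uent L843 s)) 0 = true := by decide +kernel
theorem p843 : PrV chk L843 := leafV c843

theorem c844 : lp7 (fun s => chk (uent L844 s)) 0 = true := by decide +kernel
theorem p844 : PrV chk L844 := leafV c844

theorem c845 : lp7 (fun s => chk (uent L845 s)) 0 = true := by decide +kernel
theorem p845 : PrV chk L845 := leafV c845

theorem c846 : lp7 (fun s => chk (uent L846 s)) 0 = true := by decide +kernel
theorem p846 : PrV chk L846 := leafV c846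

theorem c847 : lp7 (fun s => chk (uent L847 s)) 0 = true := by decide +kernel
theorem p847 : PrV chk L847 := leafV c847

theorem c848 : lp7 (fun s => chk (uent L848 s)) 0 = true := by decide +kernel
theorem p848 : PrV chk L848 := leafV c848

theorem c849 : lp7 (fun s => chk (uent L849 s)) 0 = true := by decide +kernel
theorem p849 : PrV chk L849 := leafV c849

theorem c850 : lp7 (fun s => chk (uent L850 s)) 0 = true := by decide +kernel
theorem p850 : PrV chk L850 := leafV c850

theorem c851 : lp7 (fun s => chk (uent L851 s)) 0 = true := by decide +kernel
theorem p851 : PrV chk L851 := leafV c851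

theorem c852 : lp7 (fun s => chk (uent L852 s)) 0 = true := by decide +kernel
theorem p852 : PrV chk L852 := leafV c852

theorem c853 : lp7 (fun s => chk (uent L853 s)) 0 = true := by decide +kernel
theorem p853 : PrV chk L853 := leafV c853

theorem c854 : lp7 (fun s => chk (uent L854 s)) 0 = true := by decide +kernel
theorem p854 : PrV chk L854 := leafV c854

theorem c855 : lp7 (fun s => chk (uent L855 s)) 0 = true := by decide +kernel
theorem p855 : PrV chk L855 := leafV c855

theorem c856 : lp7 (fun s => chk (uent L856 s)) 0 = true := by decide +kernel
theorem p856 : PrV chk L856 := leafV c856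

theorem c857 : lp7 (fun s => chk (uent L857 s)) 0 = true := by decide +kernel
theorem p857 : PrV chk L857 := leafV c857

theorem c858 : lp7 (fun s => chk (uent L858 s)) 0 = true := by decide +kernel
theorem p858 : PrV chk L858 := leafV c858

theorem c859 : lp7 (fun s => chk (uent L859 s)) 0 = true := by decide +kernel
theorem p859 : PrV chk L859 := leafV c859

theorem c860 : lp7 (fun s => chk (uent L860 s)) 0 = true := by decide +kernel
theorem p860 : PrV chk L860 := leafV c860

theorem c861 : lp7 (fun s => chk (uent L861 s)) 0 = true := by decide +kernel
theorem p861 : PrV chk L861 := leafV c861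

theorem c862 : lp7 (fun s => chk (uent L862 s)) 0 = true := by decide +kernel
theorem p862 : PrV chk L862 := leafV c862

theorem c863 : lp7 (fun s => chk (uent L863 s)) 0 = true := by decide +kernel
theorem p863 : PrV chk L863 := leafV c863

theorem c864 : lp7 (fun s => chk (uent L864 s)) 0 = true := by decide +kernel
theorem p864 : PrV chk L864 := leafV c864

theorem c865 : lp7 (fun s => chk (uent L865 s)) 0 = true := by decide +kernel
theorem p865 : PrV chk L865 := leafV c865

theorem c866 : lp7 (fun s => chk (uent L866 s)) 0 = true := by decide +kernel
theorem p866 : PrV chk L866 := leafV c866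

theorem c867 : lp7 (fun s => chk (uent L867 s)) 0 = true := by decide +kernel
theorem p867 : PrV chk L867 := leafV c867

theorem c868 : lp7 (fun s => chk (uent L868 s)) 0 = true := by decide +kernel
theorem p868 : PrV chk L868 := leafV c868

theorem c869 : lp7 (fun s => chk (uent L869 s)) 0 = true := by decide +kernel
theorem p869 : PrV chk L869 := leafV c869

theorem c870 : lp7 (fun s => chk (uent L870 s)) 0 = true := by decide +kernel
theorem p870 : PrV chk L870 := leafV c870

theorem c871 : lp7 (fun s => chk (uent L871 s)) 0 = true := by decide +kernel
theorem p871 : PrV chk L871 := leafV c871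

theorem c872 : lp7 (fun s => chk (uent L872 s)) 0 = true := by decide +kernel
theorem p872 : PrV chk L872 := leafV c872

theorem c873 : lp7 (fun s => chk (uent L873 s)) 0 = true := by decide +kernel
theorem p873 : PrV chk L873 := leafV c873

theorem c874 : lp7 (fun s => chk (uent L874 s)) 0 = true := by decide +kernel
theorem p874 : PrV chk L874 := leafV c874

theorem c875 : lp7 (fun s => chk (uent L875 s)) 0 = true := by decide +kernel
theorem p875 : PrV chk L875 := leafV c875

theorem c876 : lp7 (fun s => chk (uent L876 s)) 0 = true := by decide +kernel
theorem p876 : PrV chk L876 := leafV c876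

theorem c877 : lp7 (fun s => chk (uent L877 s)) 0 = true := by decide +kernel
theorem p877 : PrV chk L877 := leafV c877

theorem c878 : lp7 (fun s => chk (uent L878 s)) 0 = true := by decide +kernel
theorem p878 : PrV chk L878 := leafV c878

theorem c879 : lp7 (fun s => chk (uent L879 s)) 0 = true := by decide +kernel
theorem p879 : PrV chk L879 := leafV c879

theorem c880 : lp7 (fun s => chk (uent L880 s)) 0 = true := by decide +kernel
theorem p880 : PrV chk L880 := leafV c880

theorem c881 : lp7 (fun s => chk (uent L881 s)) 0 = true := by decide +kernel
theorem p881 : PrV chk L881 := leafV c881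

theorem c882 : lp7 (fun s => chk (uent L882 s)) 0 = true := by decide +kernel
theorem p882 : PrV chk L882 := leafV c882

theorem c883 : lp7 (fun s => chk (uent L883 s)) 0 = true := by decide +kernel
theorem p883 : PrV chk L883 := leafV c883

theorem c884 : lp7 (fun s => chk (uent L884 s)) 0 = true := by decide +kernel
theorem p884 : PrV chk L884 := leafV c884

theorem c885 : lp7 (fun s => chk (uent L885 s)) 0 = true := by decide +kernel
theorem p885 : PrV chk L885 := leafV c885

theorem c886 : lp7 (fun s => chk (uent L886 s)) 0 = true := by decide +kernel
theorem p886 : PrV chk L886 := leafV c886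

theorem c887 : lp7 (fun s => chk (uent L887 s)) 0 = true := by decide +kernel
theorem p887 : PrV chk L887 := leafV c887

theorem c888 : lp7 (fun s => chk (uent L888 s)) 0 = true := by decide +kernel
theorem p888 : PrV chk L888 := leafV c888

theorem c889 : lp7 (fun s => chk (uent L889 s)) 0 = true := by decide +kernel
theorem p889 : PrV chk L889 := leafV c889

theorem c890 : lp7 (fun s => chk (uent L890 s)) 0 = true := by decide +kernel
theorem p890 : PrV chk L890 := leafV c890

theorem c891 : lp7 (fun s => chk (uent L891 s)) 0 = true := by decide +kernel
theorem p891 : PrV chk L891 := leafV c891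

theorem c892 : lp7 (fun s => chk (uent L892 s)) 0 = true := by decide +kernel
theorem p892 : PrV chk L892 := leafV c892

theorem c893 : lp7 (fun s => chk (uent L893 s)) 0 = true := by decide +kernel
theorem p893 : PrV chk L893 := leafV c893

theorem c894 : lp7 (fun s => chk (uent L894 s)) 0 = true := by decide +kernel
theorem p894 : PrV chk L894 := leafV c894

theorem c895 : lp7 (fun s => chk (uent L895 s)) 0 = true := by decide +kernel
theorem p895 : PrV chk L895 := leafV c895

theorem c896 : lp7 (fun s => chk (uent L896 s)) 0 = true := by decide +kernel
theorem p896 : PrV chk L896 := leafV c896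

theorem c897 : lp7 (fun s => chk (uent L897 s)) 0 = true := by decide +kernel
theorem p897 : PrV chk L897 := leafV c897

theorem c898 : lp7 (fun s => chk (uent L898 s)) 0 = true := by decide +kernel
theorem p898 : PrV chk L898 := leafV c898

theorem c899 : lp7 (fun s => chk (uent L899 s)) 0 = true := by decide +kernel
theorem p899 : PrV chk L899 := leafV c899

theorem c900 : lp7 (fun s => chk (uent L900 s)) 0 = true := by decide +kernel
theorem p900 : PrV chk L900 := leafV c900

theorem c901 : lp7 (fun s => chk (uent L901 s)) 0 = true := by decide +kernel
theorem p901 : PrV chk L901 := leafV c901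

theorem c902 : lp7 (fun s => chk (uent L902 s)) 0 = true := by decide +kernel
theorem p902 : PrV chk L902 := leafV c902

theorem c903 : lp7 (fun s => chk (uent L903 s)) 0 = true := by decide +kernel
theorem p903 : PrV chk L903 := leafV c903

theorem c904 : lp7 (fun s => chk (uent L904 s)) 0 = true := by decide +kernel
theorem p904 : PrV chk L904 := leafV c904

theorem c905 : lp7 (fun s => chk (uent L905 s)) 0 = true := by decide +kernel
theorem p905 : PrV chk L905 := leafV c905

theorem c906 : lp7 (fun s => chk (uent L906 s)) 0 = true := by decide +kernel
theorem p906 : PrV chk L906 := leafV c906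

theorem c907 : lp7 (fun s => chk (uent L907 s)) 0 = true := by decide +kernel
theorem p907 : PrV chk L907 := leafV c907

theorem c908 : lp7 (fun s => chk (uent L908 s)) 0 = true := by decide +kernel
theorem p908 : PrV chk L908 := leafV c908

theorem c909 : lp7 (fun s => chk (uent L909 s)) 0 = true := by decide +kernel
theorem p909 : PrV chk L909 := leafV c909

theorem c910 : lp7 (fun s => chk (uent L910 s)) 0 = true := by decide +kernel
theorem p910 : PrV chk L910 := leafV c910

theorem c911 : lp7 (fun s => chk (uent L911 s)) 0 = true := by decide +kernel
theorem p911 : PrV chk L911 := leafV c911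

theorem c912 : lp7 (fun s => chk (uent L912 s)) 0 = true := by decide +kernel
theorem p912 : PrV chk L912 := leafV c912

theorem c913 : lp7 (fun s => chk (uent L913 s)) 0 = true := by decide +kernel
theorem p913 : PrV chk L913 := leafV c913

theorem c914 : lp7 (fun s => chk (uent L914 s)) 0 = true := by decide +kernel
theorem p914 : PrV chk L914 := leafV c914

theorem c915 : lp7 (fun s => chk (uent L915 s)) 0 = true := by decide +kernel
theorem p915 : PrV chk L915 := leafV c915

theorem c916 : lp7 (fun s => chk (uent L916 s)) 0 = true := by decide +kernel
theorem p916 : PrV chk L916 := leafV c916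

theorem c917 : lp7 (fun s => chk (uent L917 s)) 0 = true := by decide +kernel
theorem p917 : PrV chk L917 := leafV c917

theorem c918 : lp7 (fun s => chk (uent L918 s)) 0 = true := by decide +kernel
theorem p918 : PrV chk L918 := leafV c918

theorem c919 : lp7 (fun s => chk (uent L919 s)) 0 = true := by decide +kernel
theorem p919 : PrV chk L919 := leafV c919

theorem c920 : lp7 (fun s => chk (uent L920 s)) 0 = true := by decide +kernel
theorem p920 : PrV chk L920 := leafV c920

theorem c921 : lp7 (fun s => chk (uent L921 s)) 0 = true := by decide +kernel
theorem p921 : PrV chk L921 := leafV c921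

theorem c922 : lp7 (fun s => chk (uent L922 s)) 0 = true := by decide +kernel
theorem p922 : PrV chk L922 := leafV c922

theorem c923 : lp7 (fun s => chk (uent L923 s)) 0 = true := by decide +kernel
theorem p923 : PrV chk L923 := leafV c923

theorem c924 : lp7 (fun s => chk (uent L924 s)) 0 = true := by decide +kernel
theorem p924 : PrV chk L924 := leafV c924

theorem c925 : lp7 (fun s => chk (uent L925 s)) 0 = true := by decide +kernel
theorem p925 : PrV chk L925 := leafV c925

theorem c926 : lp7 (fun s => chk (uent L926 s)) 0 = true := by decide +kernel
theorem p926 : PrV chk L926 := leafV c926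

theorem c927 : lp7 (fun s => chk (uent L927 s)) 0 = true := by decide +kernel
theorem p927 : PrV chk L927 := leafV c927

theorem c928 : lp7 (fun s => chk (uent L928 s)) 0 = true := by decide +kernel
theorem p928 : PrV chk L928 := leafV c928

theorem c929 : lp7 (fun s => chk (uent L929 s)) 0 = true := by decide +kernel
theorem p929 : PrV chk L929 := leafV c929

theorem c930 : lp7 (fun s => chk (uent L930 s)) 0 = true := by decide +kernel
theorem p930 : PrV chk L930 := leafV c930

theorem c931 : lp7 (fun s => chk (uent L931 s)) 0 = true := by decide +kernel
theorem p931 : PrV chk L931 := leafV c931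

theorem c932 : lp7 (fun s => chk (uent L932 s)) 0 = true := by decide +kernel
theorem p932 : PrV chk L932 := leafV c932

theorem c933 : lp7 (fun s => chk (uent L933 s)) 0 = true := by decide +kernel
theorem p933 : PrV chk L933 := leafV c933

theorem c934 : lp7 (fun s => chk (uent L934 s)) 0 = true := by decide +kernel
theorem p934 : PrV chk L934 := leafV c934

theorem c935 : lp7 (fun s => chk (uent L935 s)) 0 = true := by decide +kernel
theorem p935 : PrV chk L935 := leafV c935

theorem c936 : lp7 (fun s => chk (uent L936 s)) 0 = true := by decide +kernel
theorem p936 : PrV chk L936 := leafV c936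

theorem c937 : lp7 (fun s => chk (uent L937 s)) 0 = true := by decide +kernel
theorem p937 : PrV chk L937 := leafV c937

theorem c938 : lp7 (fun s => chk (uent L938 s)) 0 = true := by decide +kernel
theorem p938 : PrV chk L938 := leafV c938

theorem c939 : lp7 (fun s => chk (uent L939 s)) 0 = true := by decide +kernel
theorem p939 : PrV chk L939 := leafV c939

theorem c940 : lp7 (fun s => chk (uent L940 s)) 0 = true := by decide +kernel
theorem p940 : PrV chk L940 := leafV c940

theorem c941 : lp7 (fun s => chk (uent L941 s)) 0 = true := by decide +kernel
theorem p941 : PrV chk L941 := leafV c941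

theorem c942 : lp7 (fun s => chk (uent L942 s)) 0 = true := by decide +kernel
theorem p942 : PrV chk L942 := leafV c942

theorem c943 : lp7 (fun s => chk (uent L943 s)) 0 = true := by decide +kernel
theorem p943 : PrV chk L943 := leafV c943

theorem c944 : lp7 (fun s => chk (uent L944 s)) 0 = true := by decide +kernel
theorem p944 : PrV chk L944 := leafV c944

theorem c945 : lp7 (fun s => chk (uent L945 s)) 0 = true := by decide +kernel
theorem p945 : PrV chk L945 := leafV c945

theorem c946 : lp7 (fun s => chk (uent L946 s)) 0 = true := by decide +kernel
theorem p946 : PrV chk L946 := leafV c946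

theorem c947 : lp7 (fun s => chk (uent L947 s)) 0 = true := by decide +kernel
theorem p947 : PrV chk L947 := leafV c947

theorem c948 : lp7 (fun s => chk (uent L948 s)) 0 = true := by decide +kernel
theorem p948 : PrV chk L948 := leafV c948

theorem c949 : lp7 (fun s => chk (uent L949 s)) 0 = true := by decide +kernel
theorem p949 : PrV chk L949 := leafV c949

theorem c950 : lp7 (fun s => chk (uent L950 s)) 0 = true := by decide +kernel
theorem p950 : PrV chk L950 := leafV c950

theorem c951 : lp7 (fun s => chk (uent L951 s)) 0 = true := by decide +kernel
theorem p951 : PrV chk L951 := leafV c951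

theorem c952 : lp7 (fun s => chk (uent L952 s)) 0 = true := by decide +kernel
theorem p952 : PrV chk L952 := leafV c952

theorem c953 : lp7 (fun s => chk (uent L953 s)) 0 = true := by decide +kernel
theorem p953 : PrV chk L953 := leafV c953

theorem c954 : lp7 (fun s => chk (uent L954 s)) 0 = true := by decide +kernel
theorem p954 : PrV chk L954 := leafV c954

theorem c955 : lp7 (fun s => chk (uent L955 s)) 0 = true := by decide +kernel
theorem p955 : PrV chk L955 := leafV c955

theorem c956 : lp7 (fun s => chk (uent L956 s)) 0 = true := by decide +kernel
theorem p956 : PrV chk L956 := leafV c956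

theorem c957 : lp7 (fun s => chk (uent L957 s)) 0 = true := by decide +kernel
theorem p957 : PrV chk L957 := leafV c957

theorem c958 : lp7 (fun s => chk (uent L958 s)) 0 = true := by decide +kernel
theorem p958 : PrV chk L958 := leafV c958

theorem c959 : lp7 (fun s => chk (uent L959 s)) 0 = true := by decide +kernel
theorem p959 : PrV chk L959 := leafV c959

end Pool.Agent.ad013a.W
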