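import Pool.Agent.H.MP_ad013a_pr.h63w.A.T
import Pool.Agent.H.MP_ad013a_pr.h63w.VLoop

namespace Pool.Agent.ad013a.W

theorem c960 : lp7 (fun s => chk (uent L960 s)) 0 = true := by decide +kernel
theorem p960 : PrV chk L960 := leafV c960

theorem c961 : lp7 (fun s => chk (uent L961 s)) 0 = true := by decide +kernel
theorem p961 : PrV chk L961 := leafV c961

theorem c962 : lp7 (fun s => chk (uent L962 s)) 0 = true := by decide +kernel
theorem p962 : PrV chk L962 := leafV c962

theorem c963 : lp7 (fun s => chk (uent L963 s)) 0 = true := by decide +kernel
theorem p963 : PrV chk L963 := leafV c963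

theorem c964 : lp7 (fun s => chk (uent L964 s)) 0 = true := by decide +kernel
theorem p964 : PrV chk L964 := leafV c964

theorem c965 : lp7 (fun s => chk (uent L965 s)) 0 = true := by decide +kernel
theorem p965 : PrV chk L965 := leafV c965

theorem c966 : lp7 (fun s => chk (uent L966 s)) 0 = true := by decide +kernel
theorem p966 : PrV chk L966 := leafV c966

theorem c967 : lp7 (fun s => chk (uent L967 s)) 0 = true := by decide +kernel
theorem p967 : PrV chk L967 := leafV c967

theorem c968 : lp7 (fun s => chk (uent L968 s)) 0 = true := by decide +kernel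
theorem p968 : PrV chk L968 := leafV c968

theorem c969 : lp7 (fun s => chk (uent L969 s)) 0 = true := by decide +kernel
theorem p969 : PrV chk L969 := leafV c969

theorem c970 : lp7 (fun s => chk (uent L970 s)) 0 = true := by decide +kernel
theorem p970 : PrV chk L970 := leafV c970

theorem c971 : lp7 (fun s => chk (uent L971 s)) 0 = true := by decide +kernel
theorem p971 : PrV chk L971 := leafV c971

theorem c972 : lp7 (fun s => chk (uent L972 s)) 0 = true := by decide +kernel
theorem p972 : PrV chk L972 := leafV c972

theorem c973 : lp7 (fun s => chk (uent L973 s)) 0 = true := by decide +kernel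
theorem p973 : PrV chk L973 := leafV c973

theorem c974 : lp7 (fun s => chk (uent L974 s)) 0 = true := by decide +kernel
theorem p974 : PrV chk L974 := leafV c974

theorem c975 : lp7 (fun s => chk (uent L975 s)) 0 = true := by decide +kernel
theorem p975 : PrV chk L975 := leafV c975

theorem c976 : lp7 (fun s => chk (uent L976 s)) 0 = true := by decide +kernel
theorem p976 : PrV chk L976 := leafV c976

theorem c977 : lp7 (fun s => chk (uent L977 s)) 0 = true := by decide +kernel
theorem p977 : PrV chk L977 := leafV c977

theorem c978 : lp7 (fun s => chk (uent L978 s)) 0 = true := by decide +kernel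
theorem p978 : PrV chk L978 := leafV c978

theorem c979 : lp7 (fun s => chk (uent L979 s)) 0 = true := by decide +kernel
theorem p979 : PrV chk L979 := leafV c979

theorem c980 : lp7 (fun s => chk (uent L980 s)) 0 = true := by decide +kernel
theorem p980 : PrV chk L980 := leafV c980

theorem c981 : lp7 (fun s => chk (uent L981 s)) 0 = true := by decide +kernel
theorem p981 : PrV chk L981 := leafV c981

theorem c982 : lp7 (fun s => chk (uent L982 s)) 0 = true := by decide +kernel
theorem p982 : PrV chk L982 := leafV c982

theorem c983 : lp7 (fun s => chk (uent L983 s)) 0 = true := by decide +kernel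
theorem p983 : PrV chk L983 := leafV c983

theorem c984 : lp7 (fun s => chk (uent L984 s)) 0 = true := by decide +kernel
theorem p984 : PrV chk L984 := leafV c984

theorem c985 : lp7 (fun s => chk (uent L985 s)) 0 = true := by decide +kernel
theorem p985 : PrV chk L985 := leafV c985

theorem c986 : lp7 (fun s => chk (uent L986 s)) 0 = true := by decide +kernel
theorem p986 : PrV chk L986 := leafV c986

theorem c987 : lp7 (fun s => chk (uent L987 s)) 0 = true := by decide +kernel
theorem p987 : PrV chk L987 := leafV c987

theorem c988 : lp7 (fun s => chk (uent L988 s)) 0 = true := by decide +kernel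
theorem p988 : PrV chk L988 := leafV c988

theorem c989 : lp7 (fun s => chk (uent L989 s)) 0 = true := by decide +kernel
theorem p989 : PrV chk L989 := leafV c989

theorem c990 : lp7 (fun s => chk (uent L990 s)) 0 = true := by decide +kernel
theorem p990 : PrV chk L990 := leafV c990

theorem c991 : lp7 (fun s => chk (uent L991 s)) 0 = true := by decide +kernel
theorem p991 : PrV chk L991 := leafV c991

theorem c992 : lp7 (fun s => chk (uent L992 s)) 0 = true := by decide +kernel
theorem p992 : PrV chk L992 := leafV c992

theorem c993 : lp7 (fun s => chk (uent L993 s)) 0 = true := by decide +kernel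
theorem p993 : PrV chk L993 := leafV c993

theorem c994 : lp7 (fun s => chk (uent L994 s)) 0 = true := by decide +kernel
theorem p994 : PrV chk L994 := leafV c994

theorem c995 : lp7 (fun s => chk (uent L995 s)) 0 = true := by decide +kernel
theorem p995 : PrV chk L995 := leafV c995

theorem c996 : lp7 (fun s => chk (uent L996 s)) 0 = true := by decide +kernel
theorem p996 : PrV chk L996 := leafV c996

theorem c997 : lp7 (fun s => chk (uent L997 s)) 0 = true := by decide +kernel
theorem p997 : PrV chk L997 := leafV c997

theorem c998 : lp7 (fun s => chk (uent L998 s)) 0 = true := by decide +kernel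
theorem p998 : PrV chk L998 := leafV c998

theorem c999 : lp7 (fun s => chk (uent L999 s)) 0 = true := by decide +kernel
theorem p999 : PrV chk L999 := leafV c999

theorem c1000 : lp7 (fun s => chk (uent L1000 s)) 0 = true := by decide +kernel
theorem p1000 : PrV chk L1000 := leafV c1000

theorem c1001 : lp7 (fun s => chk (uent L1001 s)) 0 = true := by decide +kernel
theorem p1001 : PrV chk L1001 := leafV c1001

theorem c1002 : lp7 (fun s => chk (uent L1002 s)) 0 = true := by decide +kernel
theorem p1002 : PrV chk L1002 := leafV c1002

theorem c1003 : lp7 (fun s => chk (uent L1003 s)) 0 = true := by decide +kernel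
theorem p1003 : PrV chk L1003 := leafV c1003

theorem c1004 : lp7 (fun s => chk (uent L1004 s)) 0 = true := by decide +kernel
theorem p1004 : PrV chk L1004 := leafV c1004

theorem c1005 : lp7 (fun s => chk (uent L1005 s)) 0 = true := by decide +kernel
theorem p1005 : PrV chk L1005 := leafV c1005

theorem c1006 : lp7 (fun s => chk (uent L1006 s)) 0 = true := by decide +kernel
theorem p1006 : PrV chk L1006 := leafV c1006

theorem c1007 : lp7 (fun s => chk (uent L1007 s)) 0 = true := by decide +kernel
theorem p1007 : PrV chk L1007 := leafV c1007

theorem c1008 : lp7 (fun s => chk (uent L1008 s)) 0 = true := by decide +kernel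
theorem p1008 : PrV chk L1008 := leafV c1008

theorem c1009 : lp7 (fun s => chk (uent L1009 s)) 0 = true := by decide +kernel
theorem p1009 : PrV chk L1009 := leafV c1009

theorem c1010 : lp7 (fun s => chk (uent L1010 s)) 0 = true := by decide +kernel
theorem p1010 : PrV chk L1010 := leafV c1010

theorem c1011 : lp7 (fun s => chk (uent L1011 s)) 0 = true := by decide +kernel
theorem p1011 : PrV chk L1011 := leafV c1011

theorem c1012 : lp7 (fun s => chk (uent L1012 s)) 0 = true := by decide +kernel
theorem p1012 : PrV chk L1012 := leafV c1012

theorem c1013 : lp7 (fun s => chk (uent L1013 s)) 0 = true := by decide +kernel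
theorem p1013 : PrV chk L1013 := leafV c1013

theorem c1014 : lp7 (fun s => chk (uent L1014 s)) 0 = true := by decide +kernel
theorem p1014 : PrV chk L1014 := leafV c1014

theorem c1015 : lp7 (fun s => chk (uent L1015 s)) 0 = true := by decide +kernel
theorem p1015 : PrV chk L1015 := leafV c1015

theorem c1016 : lp7 (fun s => chk (uent L1016 s)) 0 = true := by decide +kernel
theorem p1016 : PrV chk L1016 := leafV c1016

theorem c1017 : lp7 (fun s => chk (uent L1017 s)) 0 = true := by decide +kernel
theorem p1017 : PrV chk L1017 := leafV c1017

theorem c1018 : lp7 (fun s => chk (uent L1018 s)) 0 = true := by decide +kernel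
theorem p1018 : PrV chk L1018 := leafV c1018

theorem c1019 : lp7 (fun s => chk (uent L1019 s)) 0 = true := by decide +kernel
theorem p1019 : PrV chk L1019 := leafV c1019

theorem c1020 : lp7 (fun s => chk (uent L1020 s)) 0 = true := by decide +kernel
theorem p1020 : PrV chk L1020 := leafV c1020

theorem c1021 : lp7 (fun s => chk (uent L1021 s)) 0 = true := by decide +kernel
theorem p1021 : PrV chk L1021 := leafV c1021

theorem c1022 : lp7 (fun s => chk (uent L1022 s)) 0 = true := by decide +kernel
theorem p1022 : PrV chk L1022 := leafV c1022

theorem c1023 : lp7 (fun s => chk (uent L1023 s)) 0 = true := by decide +kernel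
theorem p1023 : PrV chk L1023 := leafV c1023

theorem c1024 : lp7 (fun s => chk (uent L1024 s)) 0 = true := by decide +kernel
theorem p1024 : PrV chk L1024 := leafV c1024

theorem c1025 : lp7 (fun s => chk (uent L1025 s)) 0 = true := by decide +kernel
theorem p1025 : PrV chk L1025 := leafV c1025

theorem c1026 : lp7 (fun s => chk (uent L1026 s)) 0 = true := by decide +kernel
theorem p1026 : PrV chk L1026 := leafV c1026

theorem c1027 : lp7 (fun s => chk (uent L1027 s)) 0 = true := by decide +kernel
theorem p1027 : PrV chk L1027 := leafV c1027

theorem c1028 : lp7 (fun s => chk (uent L1028 s)) 0 = true := by decide +kernel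
theorem p1028 : PrV chk L1028 := leafV c1028

theorem c1029 : lp7 (fun s => chk (uent L1029 s)) 0 = true := by decide +kernel
theorem p1029 : PrV chk L1029 := leafV c1029

theorem c1030 : lp7 (fun s => chk (uent L1030 s)) 0 = true := by decide +kernel
theorem p1030 : PrV chk L1030 := leafV c1030

theorem c1031 : lp7 (fun s => chk (uent L1031 s)) 0 = true := by decide +kernel
theorem p1031 : PrV chk L1031 := leafV c1031

theorem c1032 : lp7 (fun s => chk (uent L1032 s)) 0 = true := by decide +kernel
theorem p1032 : PrV chk L1032 := leafV c1032

theorem c1033 : lp7 (fun s => chk (uent L1033 s)) 0 = true := by decide +kernel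
theorem p1033 : PrV chk L1033 := leafV c1033

theorem c1034 : lp7 (fun s => chk (uent L1034 s)) 0 = true := by decide +kernel
theorem p1034 : PrV chk L1034 := leafV c1034

theorem c1035 : lp7 (fun s => chk (uent L1035 s)) 0 = true := by decide +kernel
theorem p1035 : PrV chk L1035 := leafV c1035

theorem c1036 : lp7 (fun s => chk (uent L1036 s)) 0 = true := by decide +kernel
theorem p1036 : PrV chk L1036 := leafV c1036

theorem c1037 : lp7 (fun s => chk (uent L1037 s)) 0 = true := by decide +kernel
theorem p1037 : PrV chk L1037 := leafV c1037

theorem c1038 : lp7 (fun s => chk (uent L1038 s)) 0 = true := by decide +kernel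
theorem p1038 : PrV chk L1038 := leafV c1038

theorem c1039 : lp7 (fun s => chk (uent L1039 s)) 0 = true := by decide +kernel
theorem p1039 : PrV chk L1039 := leafV c1039

theorem c1040 : lp7 (fun s => chk (uent L1040 s)) 0 = true := by decide +kernel
theorem p1040 : PrV chk L1040 := leafV c1040

theorem c1041 : lp7 (fun s => chk (uent L1041 s)) 0 = true := by decide +kernel
theorem p1041 : PrV chk L1041 := leafV c1041

theorem c1042 : lp7 (fun s => chk (uent L1042 s)) 0 = true := by decide +kernel
theorem p1042 : PrV chk L1042 := leafV c1042

theorem c1043 : lp7 (fun s => chk (uent L1043 s)) 0 = true := by decide +kernel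
theorem p1043 : PrV chk L1043 := leafV c1043

theorem c1044 : lp7 (fun s => chk (uent L1044 s)) 0 = true := by decide +kernel
theorem p1044 : PrV chk L1044 := leafV c1044

theorem c1045 : lp7 (fun s => chk (uent L1045 s)) 0 = true := by decide +kernel
theorem p1045 : PrV chk L1045 := leafV c1045

theorem c1046 : lp7 (fun s => chk (uent L1046 s)) 0 = true := by decide +kernel
theorem p1046 : PrV chk L1046 := leafV c1046

theorem c1047 : lp7 (fun s => chk (uent L1047 s)) 0 = true := by decide +kernel
theorem p1047 : PrV chk L1047 := leafV c1047

theorem c1048 : lp7 (fun s => chk (uent L1048 s)) 0 = true := by decide +kernel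
theorem p1048 : PrV chk L1048 := leafV c1048

theorem c1049 : lp7 (fun s => chk (uent L1049 s)) 0 = true := by decide +kernel
theorem p1049 : PrV chk L1049 := leafV c1049

theorem c1050 : lp7 (fun s => chk (uent L1050 s)) 0 = true := by decide +kernel
theorem p1050 : PrV chk L1050 := leafV c1050

theorem c1051 : lp7 (fun s => chk (uent L1051 s)) 0 = true := by decide +kernel
theorem p1051 : PrV chk L1051 := leafV c1051

theorem c1052 : lp7 (fun s => chk (uent L1052 s)) 0 = true := by decide +kernel
theorem p1052 : PrV chk L1052 := leafV c1052

theorem c1053 : lp7 (fun s => chk (uent L1053 s)) 0 = true := by decide +kernel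
theorem p1053 : PrV chk L1053 := leafV c1053

theorem c1054 : lp7 (fun s => chk (uent L1054 s)) 0 = true := by decide +kernel
theorem p1054 : PrV chk L1054 := leafV c1054

theorem c1055 : lp7 (fun s => chk (uent L1055 s)) 0 = true := by decide +kernel
theorem p1055 : PrV chk L1055 := leafV c1055

theorem c1056 : lp7 (fun s => chk (uent L1056 s)) 0 = true := by decide +kernel
theorem p1056 : PrV chk L1056 := leafV c1056

theorem c1057 : lp7 (fun s => chk (uent L1057 s)) 0 = true := by decide +kernel
theorem p1057 : PrV chk L1057 := leafV c1057

theorem c1058 : lp7 (fun s => chk (uent L1058 s)) 0 = true := by decide +kernel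
theorem p1058 : PrV chk L1058 := leafV c1058

theorem c1059 : lp7 (fun s => chk (uent L1059 s)) 0 = true := by decide +kernel
theorem p1059 : PrV chk L1059 := leafV c1059

theorem c1060 : lp7 (fun s => chk (uent L1060 s)) 0 = true := by decide +kernel
theorem p1060 : PrV chk L1060 := leafV c1060

theorem c1061 : lp7 (fun s => chk (uent L1061 s)) 0 = true := by decide +kernel
theorem p1061 : PrV chk L1061 := leafV c1061

theorem c1062 : lp7 (fun s => chk (uent L1062 s)) 0 = true := by decide +kernel
theorem p1062 : PrV chk L1062 := leafV c1062

theorem c1063 : lp7 (fun s => chk (uent L1063 s)) 0 = true := by decide +kernel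
theorem p1063 : PrV chk L1063 := leafV c1063

theorem c1064 : lp7 (fun s => chk (uent L1064 s)) 0 = true := by decide +kernel
theorem p1064 : PrV chk L1064 := leafV c1064

theorem c1065 : lp7 (fun s => chk (uent L1065 s)) 0 = true := by decide +kernel
theorem p1065 : PrV chk L1065 := leafV c1065

theorem c1066 : lp7 (fun s => chk (uent L1066 s)) 0 = true := by decide +kernel
theorem p1066 : PrV chk L1066 := leafV c1066

theorem c1067 : lp7 (fun s => chk (uent L1067 s)) 0 = true := by decide +kernel
theorem p1067 : PrV chk L1067 := leafV c1067

theorem c1068 : lp7 (fun s => chk (uent L1068 s)) 0 = true := by decide +kernel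
theorem p1068 : PrV chk L1068 := leafV c1068

theorem c1069 : lp7 (fun s => chk (uent L1069 s)) 0 = true := by decide +kernel
theorem p1069 : PrV chk L1069 := leafV c1069

theorem c1070 : lp7 (fun s => chk (uent L1070 s)) 0 = true := by decide +kernel
theorem p1070 : PrV chk L1070 := leafV c1070

theorem c1071 : lp7 (fun s => chk (uent L1071 s)) 0 = true := by decide +kernel
theorem p1071 : PrV chk L1071 := leafV c1071

theorem c1072 : lp7 (fun s => chk (uent L1072 s)) 0 = true := by decide +kernel
theorem p1072 : PrV chk L1072 := leafV c1072

theorem c1073 : lp7 (fun s => chk (uent L1073 s)) 0 = true := by decide +kernel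
theorem p1073 : PrV chk L1073 := leafV c1073

theorem c1074 : lp7 (fun s => chk (uent L1074 s)) 0 = true := by decide +kernel
theorem p1074 : PrV chk L1074 := leafV c1074

theorem c1075 : lp7 (fun s => chk (uent L1075 s)) 0 = true := by decide +kernel
theorem p1075 : PrV chk L1075 := leafV c1075

theorem c1076 : lp7 (fun s => chk (uent L1076 s)) 0 = true := by decide +kernel
theorem p1076 : PrV chk L1076 := leafV c1076

theorem c1077 : lp7 (fun s => chk (uent L1077 s)) 0 = true := by decide +kernel
theorem p1077 : PrV chk L1077 := leafV c1077

theorem c1078 : lp7 (fun s => chk (uent L1078 s)) 0 = true := by decide +kernel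
theorem p1078 : PrV chk L1078 := leafV c1078

theorem c1079 : lp7 (fun s => chk (uent L1079 s)) 0 = true := by decide +kernel
theorem p1079 : PrV chk L1079 := leafV c1079

theorem c1080 : lp7 (fun s => chk (uent L1080 s)) 0 = true := by decide +kernel
theorem p1080 : PrV chk L1080 := leafV c1080

theorem c1081 : lp7 (fun s => chk (uent L1081 s)) 0 = true := by decide +kernel
theorem p1081 : PrV chk L1081 := leafV c1081

theorem c1082 : lp7 (fun s => chk (uent L1082 s)) 0 = true := by decide +kernel
theorem p1082 : PrV chk L1082 := leafV c1082

theorem c1083 : lp7 (fun s => chk (uent L1083 s)) 0 = true := by decide +kernel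
theorem p1083 : PrV chk L1083 := leafV c1083

theorem c1084 : lp7 (fun s => chk (uent L1084 s)) 0 = true := by decide +kernel
theorem p1084 : PrV chk L1084 := leafV c1084

theorem c1085 : lp7 (fun s => chk (uent L1085 s)) 0 = true := by decide +kernel
theorem p1085 : PrV chk L1085 := leafV c1085

theorem c1086 : lp7 (fun s => chk (uent L1086 s)) 0 = true := by decide +kernel
theorem p1086 : PrV chk L1086 := leafV c1086

theorem c1087 : lp7 (fun s => chk (uent L1087 s)) 0 = true := by decide +kernel
theorem p1087 : PrV chk L1087 := leafV c1087

theorem c1088 : lp7 (fun s => chk (uent L1088 s)) 0 = true := by decide +kernel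
theorem p1088 : PrV chk L1088 := leafV c1088

theorem c1089 : lp7 (fun s => chk (uent L1089 s)) 0 = true := by decide +kernel
theorem p1089 : PrV chk L1089 := leafV c1089

theorem c1090 : lp7 (fun s => chk (uent L1090 s)) 0 = true := by decide +kernel
theorem p1090 : PrV chk L1090 := leafV c1090

theorem c1091 : lp7 (fun s => chk (uent L1091 s)) 0 = true := by decide +kernel
theorem p1091 : PrV chk L1091 := leafV c1091

theorem c1092 : lp7 (fun s => chk (uent L1092 s)) 0 = true := by decide +kernel
theorem p1092 : PrV chk L1092 := leafV c1092

theorem c1093 : lp7 (fun s => chk (uent L1093 s)) 0 = true := by decide +kernel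
theorem p1093 : PrV chk L1093 := leafV c1093

theorem c1094 : lp7 (fun s => chk (uent L1094 s)) 0 = true := by decide +kernel
theorem p1094 : PrV chk L1094 := leafV c1094

theorem c1095 : lp7 (fun s => chk (uent L1095 s)) 0 = true := by decide +kernel
theorem p1095 : PrV chk L1095 := leafV c1095

theorem c1096 : lp7 (fun s => chk (uent L1096 s)) 0 = true := by decide +kernel
theorem p1096 : PrV chk L1096 := leafV c1096

theorem c1097 : lp7 (fun s => chk (uent L1097 s)) 0 = true := by decide +kernel
theorem p1097 : PrV chk L1097 := leafV c1097

theorem c1098 : lp7 (fun s => chk (uent L1098 s)) 0 = true := by decide +kernel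
theorem p1098 : PrV chk L1098 := leafV c1098

theorem c1099 : lp7 (fun s => chk (uent L1099 s)) 0 = true := by decide +kernel
theorem p1099 : PrV chk L1099 := leafV c1099

theorem c1100 : lp7 (fun s => chk (uent L1100 s)) 0 = true := by decide +kernel
theorem p1100 : PrV chk L1100 := leafV c1100

theorem c1101 : lp7 (fun s => chk (uent L1101 s)) 0 = true := by decide +kernel
theorem p1101 : PrV chk L1101 := leafV c1101

theorem c1102 : lp7 (fun s => chk (uent L1102 s)) 0 = true := by decide +kernel
theorem p1102 : PrV chk L1102 := leafV c1102

theorem c1103 : lp7 (fun s => chk (uent L1103 s)) 0 = true := by decide +kernel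
theorem p1103 : PrV chk L1103 := leafV c1103

theorem c1104 : lp7 (fun s => chk (uent L1104 s)) 0 = true := by decide +kernel
theorem p1104 : PrV chk L1104 := leafV c1104

theorem c1105 : lp7 (fun s => chk (uent L1105 s)) 0 = true := by decide +kernel
theorem p1105 : PrV chk L1105 := leafV c1105

theorem c1106 : lp7 (fun s => chk (uent L1106 s)) 0 = true := by decide +kernel
theorem p1106 : PrV chk L1106 := leafV c1106

theorem c1107 : lp7 (fun s => chk (uent L1107 s)) 0 = true := by decide +kernel
theorem p1107 : PrV chk L1107 := leafV c1107

theorem c1108 : lp7 (fun s => chk (uent L1108 s)) 0 = true := by decide +kernel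
theorem p1108 : PrV chk L1108 := leafV c1108

theorem c1109 : lp7 (fun s => chk (uent L1109 s)) 0 = true := by decide +kernel
theorem p1109 : PrV chk L1109 := leafV c1109

theorem c1110 : lp7 (fun s => chk (uent L1110 s)) 0 = true := by decide +kernel
theorem p1110 : PrV chk L1110 := leafV c1110

theorem c1111 : lp7 (fun s => chk (uent L1111 s)) 0 = true := by decide +kernel
theorem p1111 : PrV chk L1111 := leafV c1111

theorem c1112 : lp7 (fun s => chk (uent L1112 s)) 0 = true := by decide +kernel
theorem p1112 : PrV chk L1112 := leafV c1112

theorem c1113 : lp7 (fun s => chk (uent L1113 s)) 0 = true := by decide +kernel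
theorem p1113 : PrV chk L1113 := leafV c1113

theorem c1114 : lp7 (fun s => chk (uent L1114 s)) 0 = true := by decide +kernel
theorem p1114 : PrV chk L1114 := leafV c1114

theorem c1115 : lp7 (fun s => chk (uent L1115 s)) 0 = true := by decide +kernel
theorem p1115 : PrV chk L1115 := leafV c1115

theorem c1116 : lp7 (fun s => chk (uent L1116 s)) 0 = true := by decide +kernel
theorem p1116 : PrV chk L1116 := leafV c1116

theorem c1117 : lp7 (fun s => chk (uent L1117 s)) 0 = true := by decide +kernel
theorem p1117 : PrV chk L1117 := leafV c1117

theorem c1118 : lp7 (fun s => chk (uent L1118 s)) 0 = true := by decide +kernel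
theorem p1118 : PrV chk L1118 := leafV c1118

theorem c1119 : lp7 (fun s => chk (uent L1119 s)) 0 = true := by decide +kernel
theorem p1119 : PrV chk L1119 := leafV c1119

theorem c1120 : lp7 (fun s => chk (uent L1120 s)) 0 = true := by decide +kernel
theorem p1120 : PrV chk L1120 := leafV c1120

theorem c1121 : lp7 (fun s => chk (uent L1121 s)) 0 = true := by decide +kernel
theorem p1121 : PrV chk L1121 := leafV c1121

theorem c1122 : lp7 (fun s => chk (uent L1122 s)) 0 = true := by decide +kernel
theorem p1122 : PrV chk L1122 := leafV c1122

theorem c1123 : lp7 (fun s => chk (uent L1123 s)) 0 = true := by decide +kernel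
theorem p1123 : PrV chk L1123 := leafV c1123

theorem c1124 : lp7 (fun s => chk (uent L1124 s)) 0 = true := by decide +kernel
theorem p1124 : PrV chk L1124 := leafV c1124

theorem c1125 : lp7 (fun s => chk (uent L1125 s)) 0 = true := by decide +kernel
theorem p1125 : PrV chk L1125 := leafV c1125

theorem c1126 : lp7 (fun s => chk (uent L1126 s)) 0 = true := by decide +kernel
theorem p1126 : PrV chk L1126 := leafV c1126

theorem c1127 : lp7 (fun s => chk (uent L1127 s)) 0 = true := by decide +kernel
theorem p1127 : PrV chk L1127 := leafV c1127

theorem c1128 : lp7 (fun s => chk (uent L1128 s)) 0 = true := by decide +kernel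
theorem p1128 : PrV chk L1128 := leafV c1128

theorem c1129 : lp7 (fun s => chk (uent L1129 s)) 0 = true := by decide +kernel
theorem p1129 : PrV chk L1129 := leafV c1129

theorem c1130 : lp7 (fun s => chk (uent L1130 s)) 0 = true := by decide +kernel
theorem p1130 : PrV chk L1130 := leafV c1130

theorem c1131 : lp7 (fun s => chk (uent L1131 s)) 0 = true := by decide +kernel
theorem p1131 : PrV chk L1131 := leafV c1131

theorem c1132 : lp7 (fun s => chk (uent L1132 s)) 0 = true := by decide +kernel
theorem p1132 : PrV chk L1132 := leafV c1132

theorem c1133 : lp7 (fun s => chk (uent L1133 s)) 0 = true := by decide +kernel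
theorem p1133 : PrV chk L1133 := leafV c1133

theorem c1134 : lp7 (fun s => chk (uent L1134 s)) 0 = true := by decide +kernel
theorem p1134 : PrV chk L1134 := leafV c1134

theorem c1135 : lp7 (fun s => chk (uent L1135 s)) 0 = true := by decide +kernel
theorem p1135 : PrV chk L1135 := leafV c1135

theorem c1136 : lp7 (fun s => chk (uent L1136 s)) 0 = true := by decide +kernel
theorem p1136 : PrV chk L1136 := leafV c1136

theorem c1137 : lp7 (fun s => chk (uent L1137 s)) 0 = true := by decide +kernel
theorem p1137 : PrV chk L1137 := leafV c1137

theorem c1138 : lp7 (fun s => chk (uent L1138 s)) 0 = true := by decide +kernel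
theorem p1138 : PrV chk L1138 := leafV c1138

theorem c1139 : lp7 (fun s => chk (uent L1139 s)) 0 = true := by decide +kernel
theorem p1139 : PrV chk L1139 := leafV c1139

theorem c1140 : lp7 (fun s => chk (uent L1140 s)) 0 = true := by decide +kernel
theorem p1140 : PrV chk L1140 := leafV c1140

theorem c1141 : lp7 (fun s => chk (uent L1141 s)) 0 = true := by decide +kernel
theorem p1141 : PrV chk L1141 := leafV c1141

theorem c1142 : lp7 (fun s => chk (uent L1142 s)) 0 = true := by decide +kernel
theorem p1142 : PrV chk L1142 := leafV c1142

theorem c1143 : lp7 (fun s => chk (uent L1143 s)) 0 = true := by decide +kernel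
theorem p1143 : PrV chk L1143 := leafV c1143

theorem c1144 : lp7 (fun s => chk (uent L1144 s)) 0 = true := by decide +kernel
theorem p1144 : PrV chk L1144 := leafV c1144

theorem c1145 : lp7 (fun s => chk (uent L1145 s)) 0 = true := by decide +kernel
theorem p1145 : PrV chk L1145 := leafV c1145

theorem c1146 : lp7 (fun s => chk (uent L1146 s)) 0 = true := by decide +kernel
theorem p1146 : PrV chk L1146 := leafV c1146

theorem c1147 : lp7 (fun s => chk (uent L1147 s)) 0 = true := by decide +kernel
theorem p1147 : PrV chk L1147 := leafV c1147

theorem c1148 : lp7 (fun s => chk (uent L1148 s)) 0 = true := by decide +kernel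
theorem p1148 : PrV chk L1148 := leafV c1148

theorem c1149 : lp7 (fun s => chk (uent L1149 s)) 0 = true := by decide +kernel
theorem p1149 : PrV chk L1149 := leafV c1149

theorem c1150 : lp7 (fun s => chk (uent L1150 s)) 0 = true := by decide +kernel
theorem p1150 : PrV chk L1150 := leafV c1150

theorem c1151 : lp7 (fun s => chk (uent L1151 s)) 0 = true := by decide +kernel
theorem p1151 : PrV chk L1151 := leafV c1151

end Pool.Agent.ad013a.W
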