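import Pool.Agent.H.MP_ad013a_pr.h63w.A.T
import Pool.Agent.H.MP_ad013a_pr.h63w.VLoop

namespace Pool.Agent.ad013a.W

theorem c1152 : lp7 (fun s => chk (uent L1152 s)) 0 = true := by decide +kernel
theorem p1152 : PrV chk L1152 := leafV c1152

theorem c1153 : lp7 (fun s => chk (uent L1153 s)) 0 = true := by decide +kernel
theorem p1153 : PrV chk L1153 := leafV c1153

theorem c1154 : lp7 (fun s => chk (uent L1154 s)) 0 = true := by decide +kernel
theorem p1154 : PrV chk L1154 := leafV c1154

theorem c1155 : lp7 (fun s => chk (uent L1155 s)) 0 = true := by decide +kernel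
theorem p1155 : PrV chk L1155 := leafV c1155

theorem c1156 : lp7 (fun s => chk (uent L1156 s)) 0 = true := by decide +kernel
theorem p1156 : PrV chk L1156 := leafV c1156

theorem c1157 : lp7 (fun s => chk (uent L1157 s)) 0 = true := by decide +kernel
theorem p1157 : PrV chk L1157 := leafV c1157

theorem c1158 : lp7 (fun s => chk (uent L1158 s)) 0 = true := by decide +kernel
theorem p1158 : PrV chk L1158 := leafV c1158

theorem c1159 : lp7 (fun s => chk (uent L1159 s)) 0 = true := by decide +kernel
theorem p1159 : PrV chk L1159 := leafV c1159

theorem c1160 : lp7 (fun s => chk (uent L1160 s)) 0 = true := by decide +kernel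
theorem p1160 : PrV chk L1160 := leafV c1160

theorem c1161 : lp7 (fun s => chk (uent L1161 s)) 0 = true := by decide +kernel
theorem p1161 : PrV chk L1161 := leafV c1161

theorem c1162 : lp7 (fun s => chk (uent L1162 s)) 0 = true := by decide +kernel
theorem p1162 : PrV chk L1162 := leafV c1162

theorem c1163 : lp7 (fun s => chk (uent L1163 s)) 0 = true := by decide +kernel
theorem p1163 : PrV chk L1163 := leafV c1163

theorem c1164 : lp7 (fun s => chk (uent L1164 s)) 0 = true := by decide +kernel
theorem p1164 : PrV chk L1164 := leafV c1164

theorem c1165 : lp7 (fun s => chk (uent L1165 s)) 0 = true := by decide +kernel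
theorem p1165 : PrV chk L1165 := leafV c1165

theorem c1166 : lp7 (fun s => chk (uent L1166 s)) 0 = true := by decide +kernel
theorem p1166 : PrV chk L1166 := leafV c1166

theorem c1167 : lp7 (fun s => chk (uent L1167 s)) 0 = true := by decide +kernel
theorem p1167 : PrV chk L1167 := leafV c1167

theorem c1168 : lp7 (fun s => chk (uent L1168 s)) 0 = true := by decide +kernel
theorem p1168 : PrV chk L1168 := leafV c1168

theorem c1169 : lp7 (fun s => chk (uent L1169 s)) 0 = true := by decide +kernel
theorem p1169 : PrV chk L1169 := leafV c1169

theorem c1170 : lp7 (fun s => chk (uent L1170 s)) 0 = true := by decide +kernel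
theorem p1170 : PrV chk L1170 := leafV c1170

theorem c1171 : lp7 (fun s => chk (uent L1171 s)) 0 = true := by decide +kernel
theorem p1171 : PrV chk L1171 := leafV c1171

theorem c1172 : lp7 (fun s => chk (uent L1172 s)) 0 = true := by decide +kernel
theorem p1172 : PrV chk L1172 := leafV c1172

theorem c1173 : lp7 (fun s => chk (uent L1173 s)) 0 = true := by decide +kernel
theorem p1173 : PrV chk L1173 := leafV c1173

theorem c1174 : lp7 (fun s => chk (uent L1174 s)) 0 = true := by decide +kernel
theorem p1174 : PrV chk L1174 := leafV c1174

theorem c1175 : lp7 (fun s => chk (uent L1175 s)) 0 = true := by decide +kernel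
theorem p1175 : PrV chk L1175 := leafV c1175

theorem c1176 : lp7 (fun s => chk (uent L1176 s)) 0 = true := by decide +kernel
theorem p1176 : PrV chk L1176 := leafV c1176

theorem c1177 : lp7 (fun s => chk (uent L1177 s)) 0 = true := by decide +kernel
theorem p1177 : PrV chk L1177 := leafV c1177

theorem c1178 : lp7 (fun s => chk (uent L1178 s)) 0 = true := by decide +kernel
theorem p1178 : PrV chk L1178 := leafV c1178

theorem c1179 : lp7 (fun s => chk (uent L1179 s)) 0 = true := by decide +kernel
theorem p1179 : PrV chk L1179 := leafV c1179

theorem c1180 : lp7 (fun s => chk (uent L1180 s)) 0 = true := by decide +kernel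
theorem p1180 : PrV chk L1180 := leafV c1180

theorem c1181 : lp7 (fun s => chk (uent L1181 s)) 0 = true := by decide +kernel
theorem p1181 : PrV chk L1181 := leafV c1181

theorem c1182 : lp7 (fun s => chk (uent L1182 s)) 0 = true := by decide +kernel
theorem p1182 : PrV chk L1182 := leafV c1182

theorem c1183 : lp7 (fun s => chk (uent L1183 s)) 0 = true := by decide +kernel
theorem p1183 : PrV chk L1183 := leafV c1183

theorem c1184 : lp7 (fun s => chk (uent L1184 s)) 0 = true := by decide +kernel
theorem p1184 : PrV chk L1184 := leafV c1184

theorem c1185 : lp7 (fun s => chk (uent L1185 s)) 0 = true := by decide +kernel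
theorem p1185 : PrV chk L1185 := leafV c1185

theorem c1186 : lp7 (fun s => chk (uent L1186 s)) 0 = true := by decide +kernel
theorem p1186 : PrV chk L1186 := leafV c1186

theorem c1187 : lp7 (fun s => chk (uent L1187 s)) 0 = true := by decide +kernel
theorem p1187 : PrV chk L1187 := leafV c1187

theorem c1188 : lp7 (fun s => chk (uent L1188 s)) 0 = true := by decide +kernel
theorem p1188 : PrV chk L1188 := leafV c1188

theorem c1189 : lp7 (fun s => chk (uent L1189 s)) 0 = true := by decide +kernel
theorem p1189 : PrV chk L1189 := leafV c1189

theorem c1190 : lp7 (fun s => chk (uent L1190 s)) 0 = true := by decide +kernel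
theorem p1190 : PrV chk L1190 := leafV c1190

theorem c1191 : lp7 (fun s => chk (uent L1191 s)) 0 = true := by decide +kernel
theorem p1191 : PrV chk L1191 := leafV c1191

theorem c1192 : lp7 (fun s => chk (uent L1192 s)) 0 = true := by decide +kernel
theorem p1192 : PrV chk L1192 := leafV c1192

theorem c1193 : lp7 (fun s => chk (uent L1193 s)) 0 = true := by decide +kernel
theorem p1193 : PrV chk L1193 := leafV c1193

theorem c1194 : lp7 (fun s => chk (uent L1194 s)) 0 = true := by decide +kernel
theorem p1194 : PrV chk L1194 := leafV c1194

theorem c1195 : lp7 (fun s => chk (uent L1195 s)) 0 = true := by decide +kernel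
theorem p1195 : PrV chk L1195 := leafV c1195

theorem c1196 : lp7 (fun s => chk (uent L1196 s)) 0 = true := by decide +kernel
theorem p1196 : PrV chk L1196 := leafV c1196

theorem c1197 : lp7 (fun s => chk (uent L1197 s)) 0 = true := by decide +kernel
theorem p1197 : PrV chk L1197 := leafV c1197

theorem c1198 : lp7 (fun s => chk (uent L1198 s)) 0 = true := by decide +kernel
theorem p1198 : PrV chk L1198 := leafV c1198

theorem c1199 : lp7 (fun s => chk (uent L1199 s)) 0 = true := by decide +kernel
theorem p1199 : PrV chk L1199 := leafV c1199

theorem c1200 : lp7 (fun s => chk (uent L1200 s)) 0 = true := by decide +kernel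
theorem p1200 : PrV chk L1200 := leafV c1200

theorem c1201 : lp7 (fun s => chk (uent L1201 s)) 0 = true := by decide +kernel
theorem p1201 : PrV chk L1201 := leafV c1201

theorem c1202 : lp7 (fun s => chk (uent L1202 s)) 0 = true := by decide +kernel
theorem p1202 : PrV chk L1202 := leafV c1202

theorem c1203 : lp7 (fun s => chk (uent L1203 s)) 0 = true := by decide +kernel
theorem p1203 : PrV chk L1203 := leafV c1203

theorem c1204 : lp7 (fun s => chk (uent L1204 s)) 0 = true := by decide +kernel
theorem p1204 : PrV chk L1204 := leafV c1204

theorem c1205 : lp7 (fun s => chk (uent L1205 s)) 0 = true := by decide +kernel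
theorem p1205 : PrV chk L1205 := leafV c1205

theorem c1206 : lp7 (fun s => chk (uent L1206 s)) 0 = true := by decide +kernel
theorem p1206 : PrV chk L1206 := leafV c1206

theorem c1207 : lp7 (fun s => chk (uent L1207 s)) 0 = true := by decide +kernel
theorem p1207 : PrV chk L1207 := leafV c1207

theorem c1208 : lp7 (fun s => chk (uent L1208 s)) 0 = true := by decide +kernel
theorem p1208 : PrV chk L1208 := leafV c1208

theorem c1209 : lp7 (fun s => chk (uent L1209 s)) 0 = true := by decide +kernel
theorem p1209 : PrV chk L1209 := leafV c1209

theorem c1210 : lp7 (fun s => chk (uent L1210 s)) 0 = true := by decide +kernel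
theorem p1210 : PrV chk L1210 := leafV c1210

theorem c1211 : lp7 (fun s => chk (uent L1211 s)) 0 = true := by decide +kernel
theorem p1211 : PrV chk L1211 := leafV c1211

theorem c1212 : lp7 (fun s => chk (uent L1212 s)) 0 = true := by decide +kernel
theorem p1212 : PrV chk L1212 := leafV c1212

theorem c1213 : lp7 (fun s => chk (uent L1213 s)) 0 = true := by decide +kernel
theorem p1213 : PrV chk L1213 := leafV c1213

theorem c1214 : lp7 (fun s => chk (uent L1214 s)) 0 = true := by decide +kernel
theorem p1214 : PrV chk L1214 := leafV c1214

theorem c1215 : lp7 (fun s => chk (uent L1215 s)) 0 = true := by decide +kernel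
theorem p1215 : PrV chk L1215 := leafV c1215

theorem c1216 : lp7 (fun s => chk (uent L1216 s)) 0 = true := by decide +kernel
theorem p1216 : PrV chk L1216 := leafV c1216

theorem c1217 : lp7 (fun s => chk (uent L1217 s)) 0 = true := by decide +kernel
theorem p1217 : PrV chk L1217 := leafV c1217

theorem c1218 : lp7 (fun s => chk (uent L1218 s)) 0 = true := by decide +kernel
theorem p1218 : PrV chk L1218 := leafV c1218

theorem c1219 : lp7 (fun s => chk (uent L1219 s)) 0 = true := by decide +kernel
theorem p1219 : PrV chk L1219 := leafV c1219

theorem c1220 : lp7 (fun s => chk (uent L1220 s)) 0 = true := by decide +kernel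
theorem p1220 : PrV chk L1220 := leafV c1220

theorem c1221 : lp7 (fun s => chk (uent L1221 s)) 0 = true := by decide +kernel
theorem p1221 : PrV chk L1221 := leafV c1221

theorem c1222 : lp7 (fun s => chk (uent L1222 s)) 0 = true := by decide +kernel
theorem p1222 : PrV chk L1222 := leafV c1222

theorem c1223 : lp7 (fun s => chk (uent L1223 s)) 0 = true := by decide +kernel
theorem p1223 : PrV chk L1223 := leafV c1223

theorem c1224 : lp7 (fun s => chk (uent L1224 s)) 0 = true := by decide +kernel
theorem p1224 : PrV chk L1224 := leafV c1224

theorem c1225 : lp7 (fun s => chk (uent L1225 s)) 0 = true := by decide +kernel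
theorem p1225 : PrV chk L1225 := leafV c1225

theorem c1226 : lp7 (fun s => chk (uent L1226 s)) 0 = true := by decide +kernel
theorem p1226 : PrV chk L1226 := leafV c1226

theorem c1227 : lp7 (fun s => chk (uent L1227 s)) 0 = true := by decide +kernel
theorem p1227 : PrV chk L1227 := leafV c1227

theorem c1228 : lp7 (fun s => chk (uent L1228 s)) 0 = true := by decide +kernel
theorem p1228 : PrV chk L1228 := leafV c1228

theorem c1229 : lp7 (fun s => chk (uent L1229 s)) 0 = true := by decide +kernel
theorem p1229 : PrV chk L1229 := leafV c1229

theorem c1230 : lp7 (fun s => chk (uent L1230 s)) 0 = true := by decide +kernel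
theorem p1230 : PrV chk L1230 := leafV c1230

theorem c1231 : lp7 (fun s => chk (uent L1231 s)) 0 = true := by decide +kernel
theorem p1231 : PrV chk L1231 := leafV c1231

theorem c1232 : lp7 (fun s => chk (uent L1232 s)) 0 = true := by decide +kernel
theorem p1232 : PrV chk L1232 := leafV c1232

theorem c1233 : lp7 (fun s => chk (uent L1233 s)) 0 = true := by decide +kernel
theorem p1233 : PrV chk L1233 := leafV c1233

theorem c1234 : lp7 (fun s => chk (uent L1234 s)) 0 = true := by decide +kernel
theorem p1234 : PrV chk L1234 := leafV c1234

theorem c1235 : lp7 (fun s => chk (uent L1235 s)) 0 = true := by decide +kernel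
theorem p1235 : PrV chk L1235 := leafV c1235

theorem c1236 : lp7 (fun s => chk (uent L1236 s)) 0 = true := by decide +kernel
theorem p1236 : PrV chk L1236 := leafV c1236

theorem c1237 : lp7 (fun s => chk (uent L1237 s)) 0 = true := by decide +kernel
theorem p1237 : PrV chk L1237 := leafV c1237

theorem c1238 : lp7 (fun s => chk (uent L1238 s)) 0 = true := by decide +kernel
theorem p1238 : PrV chk L1238 := leafV c1238

theorem c1239 : lp7 (fun s => chk (uent L1239 s)) 0 = true := by decide +kernel
theorem p1239 : PrV chk L1239 := leafV c1239

theorem c1240 : lp7 (fun s => chk (uent L1240 s)) 0 = true := by decide +kernel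
theorem p1240 : PrV chk L1240 := leafV c1240

theorem c1241 : lp7 (fun s => chk (uent L1241 s)) 0 = true := by decide +kernel
theorem p1241 : PrV chk L1241 := leafV c1241

theorem c1242 : lp7 (fun s => chk (uent L1242 s)) 0 = true := by decide +kernel
theorem p1242 : PrV chk L1242 := leafV c1242

theorem c1243 : lp7 (fun s => chk (uent L1243 s)) 0 = true := by decide +kernel
theorem p1243 : PrV chk L1243 := leafV c1243

theorem c1244 : lp7 (fun s => chk (uent L1244 s)) 0 = true := by decide +kernel
theorem p1244 : PrV chk L1244 := leafV c1244

theorem c1245 : lp7 (fun s => chk (uent L1245 s)) 0 = true := by decide +kernel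
theorem p1245 : PrV chk L1245 := leafV c1245

theorem c1246 : lp7 (fun s => chk (uent L1246 s)) 0 = true := by decide +kernel
theorem p1246 : PrV chk L1246 := leafV c1246

theorem c1247 : lp7 (fun s => chk (uent L1247 s)) 0 = true := by decide +kernel
theorem p1247 : PrV chk L1247 := leafV c1247

theorem c1248 : lp7 (fun s => chk (uent L1248 s)) 0 = true := by decide +kernel
theorem p1248 : PrV chk L1248 := leafV c1248

theorem c1249 : lp7 (fun s => chk (uent L1249 s)) 0 = true := by decide +kernel
theorem p1249 : PrV chk L1249 := leafV c1249

theorem c1250 : lp7 (fun s => chk (uent L1250 s)) 0 = true := by decide +kernel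
theorem p1250 : PrV chk L1250 := leafV c1250

theorem c1251 : lp7 (fun s => chk (uent L1251 s)) 0 = true := by decide +kernel
theorem p1251 : PrV chk L1251 := leafV c1251

theorem c1252 : lp7 (fun s => chk (uent L1252 s)) 0 = true := by decide +kernel
theorem p1252 : PrV chk L1252 := leafV c1252

theorem c1253 : lp7 (fun s => chk (uent L1253 s)) 0 = true := by decide +kernel
theorem p1253 : PrV chk L1253 := leafV c1253

theorem c1254 : lp7 (fun s => chk (uent L1254 s)) 0 = true := by decide +kernel
theorem p1254 : PrV chk L1254 := leafV c1254

theorem c1255 : lp7 (fun s => chk (uent L1255 s)) 0 = true := by decide +kernel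
theorem p1255 : PrV chk L1255 := leafV c1255

theorem c1256 : lp7 (fun s => chk (uent L1256 s)) 0 = true := by decide +kernel
theorem p1256 : PrV chk L1256 := leafV c1256

theorem c1257 : lp7 (fun s => chk (uent L1257 s)) 0 = true := by decide +kernel
theorem p1257 : PrV chk L1257 := leafV c1257

theorem c1258 : lp7 (fun s => chk (uent L1258 s)) 0 = true := by decide +kernel
theorem p1258 : PrV chk L1258 := leafV c1258

theorem c1259 : lp7 (fun s => chk (uent L1259 s)) 0 = true := by decide +kernel
theorem p1259 : PrV chk L1259 := leafV c1259

theorem c1260 : lp7 (fun s => chk (uent L1260 s)) 0 = true := by decide +kernel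
theorem p1260 : PrV chk L1260 := leafV c1260

theorem c1261 : lp7 (fun s => chk (uent L1261 s)) 0 = true := by decide +kernel
theorem p1261 : PrV chk L1261 := leafV c1261

theorem c1262 : lp7 (fun s => chk (uent L1262 s)) 0 = true := by decide +kernel
theorem p1262 : PrV chk L1262 := leafV c1262

theorem c1263 : lp7 (fun s => chk (uent L1263 s)) 0 = true := by decide +kernel
theorem p1263 : PrV chk L1263 := leafV c1263

theorem c1264 : lp7 (fun s => chk (uent L1264 s)) 0 = true := by decide +kernel
theorem p1264 : PrV chk L1264 := leafV c1264

theorem c1265 : lp7 (fun s => chk (uent L1265 s)) 0 = true := by decide +kernel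
theorem p1265 : PrV chk L1265 := leafV c1265

theorem c1266 : lp7 (fun s => chk (uent L1266 s)) 0 = true := by decide +kernel
theorem p1266 : PrV chk L1266 := leafV c1266

theorem c1267 : lp7 (fun s => chk (uent L1267 s)) 0 = true := by decide +kernel
theorem p1267 : PrV chk L1267 := leafV c1267

theorem c1268 : lp7 (fun s => chk (uent L1268 s)) 0 = true := by decide +kernel
theorem p1268 : PrV chk L1268 := leafV c1268

theorem c1269 : lp7 (fun s => chk (uent L1269 s)) 0 = true := by decide +kernel
theorem p1269 : PrV chk L1269 := leafV c1269

theorem c1270 : lp7 (fun s => chk (uent L1270 s)) 0 = true := by decide +kernel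
theorem p1270 : PrV chk L1270 := leafV c1270

theorem c1271 : lp7 (fun s => chk (uent L1271 s)) 0 = true := by decide +kernel
theorem p1271 : PrV chk L1271 := leafV c1271

theorem c1272 : lp7 (fun s => chk (uent L1272 s)) 0 = true := by decide +kernel
theorem p1272 : PrV chk L1272 := leafV c1272

theorem c1273 : lp7 (fun s => chk (uent L1273 s)) 0 = true := by decide +kernel
theorem p1273 : PrV chk L1273 := leafV c1273

theorem c1274 : lp7 (fun s => chk (uent L1274 s)) 0 = true := by decide +kernel
theorem p1274 : PrV chk L1274 := leafV c1274

theorem c1275 : lp7 (fun s => chk (uent L1275 s)) 0 = true := by decide +kernel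
theorem p1275 : PrV chk L1275 := leafV c1275

theorem c1276 : lp7 (fun s => chk (uent L1276 s)) 0 = true := by decide +kernel
theorem p1276 : PrV chk L1276 := leafV c1276

theorem c1277 : lp7 (fun s => chk (uent L1277 s)) 0 = true := by decide +kernel
theorem p1277 : PrV chk L1277 := leafV c1277

theorem c1278 : lp7 (fun s => chk (uent L1278 s)) 0 = true := by decide +kernel
theorem p1278 : PrV chk L1278 := leafV c1278

theorem c1279 : lp7 (fun s => chk (uent L1279 s)) 0 = true := by decide +kernel
theorem p1279 : PrV chk L1279 := leafV c1279

theorem c1280 : lp7 (fun s => chk (uent L1280 s)) 0 = true := by decide +kernel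
theorem p1280 : PrV chk L1280 := leafV c1280

theorem c1281 : lp7 (fun s => chk (uent L1281 s)) 0 = true := by decide +kernel
theorem p1281 : PrV chk L1281 := leafV c1281

theorem c1282 : lp7 (fun s => chk (uent L1282 s)) 0 = true := by decide +kernel
theorem p1282 : PrV chk L1282 := leafV c1282

theorem c1283 : lp7 (fun s => chk (uent L1283 s)) 0 = true := by decide +kernel
theorem p1283 : PrV chk L1283 := leafV c1283

theorem c1284 : lp7 (fun s => chk (uent L1284 s)) 0 = true := by decide +kernel
theorem p1284 : PrV chk L1284 := leafV c1284

theorem c1285 : lp7 (fun s => chk (uent L1285 s)) 0 = true := by decide +kernel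
theorem p1285 : PrV chk L1285 := leafV c1285

theorem c1286 : lp7 (fun s => chk (uent L1286 s)) 0 = true := by decide +kernel
theorem p1286 : PrV chk L1286 := leafV c1286

theorem c1287 : lp7 (fun s => chk (uent L1287 s)) 0 = true := by decide +kernel
theorem p1287 : PrV chk L1287 := leafV c1287

theorem c1288 : lp7 (fun s => chk (uent L1288 s)) 0 = true := by decide +kernel
theorem p1288 : PrV chk L1288 := leafV c1288

theorem c1289 : lp7 (fun s => chk (uent L1289 s)) 0 = true := by decide +kernel
theorem p1289 : PrV chk L1289 := leafV c1289

theorem c1290 : lp7 (fun s => chk (uent L1290 s)) 0 = true := by decide +kernel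
theorem p1290 : PrV chk L1290 := leafV c1290

theorem c1291 : lp7 (fun s => chk (uent L1291 s)) 0 = true := by decide +kernel
theorem p1291 : PrV chk L1291 := leafV c1291

theorem c1292 : lp7 (fun s => chk (uent L1292 s)) 0 = true := by decide +kernel
theorem p1292 : PrV chk L1292 := leafV c1292

theorem c1293 : lp7 (fun s => chk (uent L1293 s)) 0 = true := by decide +kernel
theorem p1293 : PrV chk L1293 := leafV c1293

theorem c1294 : lp7 (fun s => chk (uent L1294 s)) 0 = true := by decide +kernel
theorem p1294 : PrV chk L1294 := leafV c1294

theorem c1295 : lp7 (fun s => chk (uent L1295 s)) 0 = true := by decide +kernel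
theorem p1295 : PrV chk L1295 := leafV c1295

theorem c1296 : lp7 (fun s => chk (uent L1296 s)) 0 = true := by decide +kernel
theorem p1296 : PrV chk L1296 := leafV c1296

theorem c1297 : lp7 (fun s => chk (uent L1297 s)) 0 = true := by decide +kernel
theorem p1297 : PrV chk L1297 := leafV c1297

theorem c1298 : lp7 (fun s => chk (uent L1298 s)) 0 = true := by decide +kernel
theorem p1298 : PrV chk L1298 := leafV c1298

theorem c1299 : lp7 (fun s => chk (uent L1299 s)) 0 = true := by decide +kernel
theorem p1299 : PrV chk L1299 := leafV c1299

theorem c1300 : lp7 (fun s => chk (uent L1300 s)) 0 = true := by decide +kernel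
theorem p1300 : PrV chk L1300 := leafV c1300

theorem c1301 : lp7 (fun s => chk (uent L1301 s)) 0 = true := by decide +kernel
theorem p1301 : PrV chk L1301 := leafV c1301

theorem c1302 : lp7 (fun s => chk (uent L1302 s)) 0 = true := by decide +kernel
theorem p1302 : PrV chk L1302 := leafV c1302

theorem c1303 : lp7 (fun s => chk (uent L1303 s)) 0 = true := by decide +kernel
theorem p1303 : PrV chk L1303 := leafV c1303

theorem c1304 : lp7 (fun s => chk (uent L1304 s)) 0 = true := by decide +kernel
theorem p1304 : PrV chk L1304 := leafV c1304

theorem c1305 : lp7 (fun s => chk (uent L1305 s)) 0 = true := by decide +kernel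
theorem p1305 : PrV chk L1305 := leafV c1305

theorem c1306 : lp7 (fun s => chk (uent L1306 s)) 0 = true := by decide +kernel
theorem p1306 : PrV chk L1306 := leafV c1306

theorem c1307 : lp7 (fun s => chk (uent L1307 s)) 0 = true := by decide +kernel
theorem p1307 : PrV chk L1307 := leafV c1307

theorem c1308 : lp7 (fun s => chk (uent L1308 s)) 0 = true := by decide +kernel
theorem p1308 : PrV chk L1308 := leafV c1308

theorem c1309 : lp7 (fun s => chk (uent L1309 s)) 0 = true := by decide +kernel
theorem p1309 : PrV chk L1309 := leafV c1309

theorem c1310 : lp7 (fun s => chk (uent L1310 s)) 0 = true := by decide +kernel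
theorem p1310 : PrV chk L1310 := leafV c1310

theorem c1311 : lp7 (fun s => chk (uent L1311 s)) 0 = true := by decide +kernel
theorem p1311 : PrV chk L1311 := leafV c1311

theorem c1312 : lp7 (fun s => chk (uent L1312 s)) 0 = true := by decide +kernel
theorem p1312 : PrV chk L1312 := leafV c1312

theorem c1313 : lp7 (fun s => chk (uent L1313 s)) 0 = true := by decide +kernel
theorem p1313 : PrV chk L1313 := leafV c1313

theorem c1314 : lp7 (fun s => chk (uent L1314 s)) 0 = true := by decide +kernel
theorem p1314 : PrV chk L1314 := leafV c1314

theorem c1315 : lp7 (fun s => chk (uent L1315 s)) 0 = true := by decide +kernel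
theorem p1315 : PrV chk L1315 := leafV c1315

theorem c1316 : lp7 (fun s => chk (uent L1316 s)) 0 = true := by decide +kernel
theorem p1316 : PrV chk L1316 := leafV c1316

theorem c1317 : lp7 (fun s => chk (uent L1317 s)) 0 = true := by decide +kernel
theorem p1317 : PrV chk L1317 := leafV c1317

theorem c1318 : lp7 (fun s => chk (uent L1318 s)) 0 = true := by decide +kernel
theorem p1318 : PrV chk L1318 := leafV c1318

theorem c1319 : lp7 (fun s => chk (uent L1319 s)) 0 = true := by decide +kernel
theorem p1319 : PrV chk L1319 := leafV c1319

theorem c1320 : lp7 (fun s => chk (uent L1320 s)) 0 = true := by decide +kernel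
theorem p1320 : PrV chk L1320 := leafV c1320

theorem c1321 : lp7 (fun s => chk (uent L1321 s)) 0 = true := by decide +kernel
theorem p1321 : PrV chk L1321 := leafV c1321

theorem c1322 : lp7 (fun s => chk (uent L1322 s)) 0 = true := by decide +kernel
theorem p1322 : PrV chk L1322 := leafV c1322

theorem c1323 : lp7 (fun s => chk (uent L1323 s)) 0 = true := by decide +kernel
theorem p1323 : PrV chk L1323 := leafV c1323

theorem c1324 : lp7 (fun s => chk (uent L1324 s)) 0 = true := by decide +kernel
theorem p1324 : PrV chk L1324 := leafV c1324

theorem c1325 : lp7 (fun s => chk (uent L1325 s)) 0 = true := by decide +kernel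
theorem p1325 : PrV chk L1325 := leafV c1325

theorem c1326 : lp7 (fun s => chk (uent L1326 s)) 0 = true := by decide +kernel
theorem p1326 : PrV chk L1326 := leafV c1326

theorem c1327 : lp7 (fun s => chk (uent L1327 s)) 0 = true := by decide +kernel
theorem p1327 : PrV chk L1327 := leafV c1327

theorem c1328 : lp7 (fun s => chk (uent L1328 s)) 0 = true := by decide +kernel
theorem p1328 : PrV chk L1328 := leafV c1328

theorem c1329 : lp7 (fun s => chk (uent L1329 s)) 0 = true := by decide +kernel
theorem p1329 : PrV chk L1329 := leafV c1329

theorem c1330 : lp7 (fun s => chk (uent L1330 s)) 0 = true := by decide +kernel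
theorem p1330 : PrV chk L1330 := leafV c1330

theorem c1331 : lp7 (fun s => chk (uent L1331 s)) 0 = true := by decide +kernel
theorem p1331 : PrV chk L1331 := leafV c1331

theorem c1332 : lp7 (fun s => chk (uent L1332 s)) 0 = true := by decide +kernel
theorem p1332 : PrV chk L1332 := leafV c1332

theorem c1333 : lp7 (fun s => chk (uent L1333 s)) 0 = true := by decide +kernel
theorem p1333 : PrV chk L1333 := leafV c1333

theorem c1334 : lp7 (fun s => chk (uent L1334 s)) 0 = true := by decide +kernel
theorem p1334 : PrV chk L1334 := leafV c1334

theorem c1335 : lp7 (fun s => chk (uent L1335 s)) 0 = true := by decide +kernel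
theorem p1335 : PrV chk L1335 := leafV c1335

theorem c1336 : lp7 (fun s => chk (uent L1336 s)) 0 = true := by decide +kernel
theorem p1336 : PrV chk L1336 := leafV c1336

theorem c1337 : lp7 (fun s => chk (uent L1337 s)) 0 = true := by decide +kernel
theorem p1337 : PrV chk L1337 := leafV c1337

theorem c1338 : lp7 (fun s => chk (uent L1338 s)) 0 = true := by decide +kernel
theorem p1338 : PrV chk L1338 := leafV c1338

theorem c1339 : lp7 (fun s => chk (uent L1339 s)) 0 = true := by decide +kernel
theorem p1339 : PrV chk L1339 := leafV c1339

theorem c1340 : lp7 (fun s => chk (uent L1340 s)) 0 = true := by decide +kernel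
theorem p1340 : PrV chk L1340 := leafV c1340

theorem c1341 : lp7 (fun s => chk (uent L1341 s)) 0 = true := by decide +kernel
theorem p1341 : PrV chk L1341 := leafV c1341

theorem c1342 : lp7 (fun s => chk (uent L1342 s)) 0 = true := by decide +kernel
theorem p1342 : PrV chk L1342 := leafV c1342

theorem c1343 : lp7 (fun s => chk (uent L1343 s)) 0 = true := by decide +kernel
theorem p1343 : PrV chk L1343 := leafV c1343

end Pool.Agent.ad013a.W
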