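import Pool.Agent.H.MP_ad013a_pr.h63w.A.T
import Pool.Agent.H.MP_ad013a_pr.h63w.VLoop

namespace Pool.Agent.ad013a.W

theorem c1344 : lp7 (fun s => chk (uent L1344 s)) 0 = true := by decide +kernel
theorem p1344 : PrV chk L1344 := leafV c1344

theorem c1345 : lp7 (fun s => chk (uent L1345 s)) 0 = true := by decide +kernel
theorem p1345 : PrV chk L1345 := leafV c1345

theorem c1346 : lp7 (fun s => chk (uent L1346 s)) 0 = true := by decide +kernel
theorem p1346 : PrV chk L1346 := leafV c1346

theorem c1347 : lp7 (fun s => chk (uent L1347 s)) 0 = true := by decide +kernel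
theorem p1347 : PrV chk L1347 := leafV c1347

theorem c1348 : lp7 (fun s => chk (uent L1348 s)) 0 = true := by decide +kernel
theorem p1348 : PrV chk L1348 := leafV c1348

theorem c1349 : lp7 (fun s => chk (uent L1349 s)) 0 = true := by decide +kernel
theorem p1349 : PrV chk L1349 := leafV c1349

theorem c1350 : lp7 (fun s => chk (uent L1350 s)) 0 = true := by decide +kernel
theorem p1350 : PrV chk L1350 := leafV c1350

theorem c1351 : lp7 (fun s => chk (uent L1351 s)) 0 = true := by decide +kernel
theorem p1351 : PrV chk L1351 := leafV c1351

theorem c1352 : lp7 (fun s => chk (uent L1352 s)) 0 = true := by decide +kernel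
theorem p1352 : PrV chk L1352 := leafV c1352

theorem c1353 : lp7 (fun s => chk (uent L1353 s)) 0 = true := by decide +kernel
theorem p1353 : PrV chk L1353 := leafV c1353

theorem c1354 : lp7 (fun s => chk (uent L1354 s)) 0 = true := by decide +kernel
theorem p1354 : PrV chk L1354 := leafV c1354

theorem c1355 : lp7 (fun s => chk (uent L1355 s)) 0 = true := by decide +kernel
theorem p1355 : PrV chk L1355 := leafV c1355

theorem c1356 : lp7 (fun s => chk (uent L1356 s)) 0 = true := by decide +kernel
theorem p1356 : PrV chk L1356 := leafV c1356

theorem c1357 : lp7 (fun s => chk (uent L1357 s)) 0 = true := by decide +kernel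
theorem p1357 : PrV chk L1357 := leafV c1357

theorem c1358 : lp7 (fun s => chk (uent L1358 s)) 0 = true := by decide +kernel
theorem p1358 : PrV chk L1358 := leafV c1358

theorem c1359 : lp7 (fun s => chk (uent L1359 s)) 0 = true := by decide +kernel
theorem p1359 : PrV chk L1359 := leafV c1359

theorem c1360 : lp7 (fun s => chk (uent L1360 s)) 0 = true := by decide +kernel
theorem p1360 : PrV chk L1360 := leafV c1360

theorem c1361 : lp7 (fun s => chk (uent L1361 s)) 0 = true := by decide +kernel
theorem p1361 : PrV chk L1361 := leafV c1361

theorem c1362 : lp7 (fun s => chk (uent L1362 s)) 0 = true := by decide +kernel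
theorem p1362 : PrV chk L1362 := leafV c1362

theorem c1363 : lp7 (fun s => chk (uent L1363 s)) 0 = true := by decide +kernel
theorem p1363 : PrV chk L1363 := leafV c1363

theorem c1364 : lp7 (fun s => chk (uent L1364 s)) 0 = true := by decide +kernel
theorem p1364 : PrV chk L1364 := leafV c1364

theorem c1365 : lp7 (fun s => chk (uent L1365 s)) 0 = true := by decide +kernel
theorem p1365 : PrV chk L1365 := leafV c1365

theorem c1366 : lp7 (fun s => chk (uent L1366 s)) 0 = true := by decide +kernel
theorem p1366 : PrV chk L1366 := leafV c1366

theorem c1367 : lp7 (fun s => chk (uent L1367 s)) 0 = true := by decide +kernel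
theorem p1367 : PrV chk L1367 := leafV c1367

theorem c1368 : lp7 (fun s => chk (uent L1368 s)) 0 = true := by decide +kernel
theorem p1368 : PrV chk L1368 := leafV c1368

theorem c1369 : lp7 (fun s => chk (uent L1369 s)) 0 = true := by decide +kernel
theorem p1369 : PrV chk L1369 := leafV c1369

theorem c1370 : lp7 (fun s => chk (uent L1370 s)) 0 = true := by decide +kernel
theorem p1370 : PrV chk L1370 := leafV c1370

theorem c1371 : lp7 (fun s => chk (uent L1371 s)) 0 = true := by decide +kernel
theorem p1371 : PrV chk L1371 := leafV c1371

theorem c1372 : lp7 (fun s => chk (uent L1372 s)) 0 = true := by decide +kernel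
theorem p1372 : PrV chk L1372 := leafV c1372

theorem c1373 : lp7 (fun s => chk (uent L1373 s)) 0 = true := by decide +kernel
theorem p1373 : PrV chk L1373 := leafV c1373

theorem c1374 : lp7 (fun s => chk (uent L1374 s)) 0 = true := by decide +kernel
theorem p1374 : PrV chk L1374 := leafV c1374

theorem c1375 : lp7 (fun s => chk (uent L1375 s)) 0 = true := by decide +kernel
theorem p1375 : PrV chk L1375 := leafV c1375

theorem c1376 : lp7 (fun s => chk (uent L1376 s)) 0 = true := by decide +kernel
theorem p1376 : PrV chk L1376 := leafV c1376

theorem c1377 : lp7 (fun s => chk (uent L1377 s)) 0 = true := by decide +kernel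
theorem p1377 : PrV chk L1377 := leafV c1377

theorem c1378 : lp7 (fun s => chk (uent L1378 s)) 0 = true := by decide +kernel
theorem p1378 : PrV chk L1378 := leafV c1378

theorem c1379 : lp7 (fun s => chk (uent L1379 s)) 0 = true := by decide +kernel
theorem p1379 : PrV chk L1379 := leafV c1379

theorem c1380 : lp7 (fun s => chk (uent L1380 s)) 0 = true := by decide +kernel
theorem p1380 : PrV chk L1380 := leafV c1380

theorem c1381 : lp7 (fun s => chk (uent L1381 s)) 0 = true := by decide +kernel
theorem p1381 : PrV chk L1381 := leafV c1381

theorem c1382 : lp7 (fun s => chk (uent L1382 s)) 0 = true := by decide +kernel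
theorem p1382 : PrV chk L1382 := leafV c1382

theorem c1383 : lp7 (fun s => chk (uent L1383 s)) 0 = true := by decide +kernel
theorem p1383 : PrV chk L1383 := leafV c1383

theorem c1384 : lp7 (fun s => chk (uent L1384 s)) 0 = true := by decide +kernel
theorem p1384 : PrV chk L1384 := leafV c1384

theorem c1385 : lp7 (fun s => chk (uent L1385 s)) 0 = true := by decide +kernel
theorem p1385 : PrV chk L1385 := leafV c1385

theorem c1386 : lp7 (fun s => chk (uent L1386 s)) 0 = true := by decide +kernel
theorem p1386 : PrV chk L1386 := leafV c1386

theorem c1387 : lp7 (fun s => chk (uent L1387 s)) 0 = true := by decide +kernel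
theorem p1387 : PrV chk L1387 := leafV c1387

theorem c1388 : lp7 (fun s => chk (uent L1388 s)) 0 = true := by decide +kernel
theorem p1388 : PrV chk L1388 := leafV c1388

theorem c1389 : lp7 (fun s => chk (uent L1389 s)) 0 = true := by decide +kernel
theorem p1389 : PrV chk L1389 := leafV c1389

theorem c1390 : lp7 (fun s => chk (uent L1390 s)) 0 = true := by decide +kernel
theorem p1390 : PrV chk L1390 := leafV c1390

theorem c1391 : lp7 (fun s => chk (uent L1391 s)) 0 = true := by decide +kernel
theorem p1391 : PrV chk L1391 := leafV c1391

theorem c1392 : lp7 (fun s => chk (uent L1392 s)) 0 = true := by decide +kernel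
theorem p1392 : PrV chk L1392 := leafV c1392

theorem c1393 : lp7 (fun s => chk (uent L1393 s)) 0 = true := by decide +kernel
theorem p1393 : PrV chk L1393 := leafV c1393

theorem c1394 : lp7 (fun s => chk (uent L1394 s)) 0 = true := by decide +kernel
theorem p1394 : PrV chk L1394 := leafV c1394

theorem c1395 : lp7 (fun s => chk (uent L1395 s)) 0 = true := by decide +kernel
theorem p1395 : PrV chk L1395 := leafV c1395

theorem c1396 : lp7 (fun s => chk (uent L1396 s)) 0 = true := by decide +kernel
theorem p1396 : PrV chk L1396 := leafV c1396

theorem c1397 : lp7 (fun s => chk (uent L1397 s)) 0 = true := by decide +kernel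
theorem p1397 : PrV chk L1397 := leafV c1397

theorem c1398 : lp7 (fun s => chk (uent L1398 s)) 0 = true := by decide +kernel
theorem p1398 : PrV chk L1398 := leafV c1398

theorem c1399 : lp7 (fun s => chk (uent L1399 s)) 0 = true := by decide +kernel
theorem p1399 : PrV chk L1399 := leafV c1399

theorem c1400 : lp7 (fun s => chk (uent L1400 s)) 0 = true := by decide +kernel
theorem p1400 : PrV chk L1400 := leafV c1400

theorem c1401 : lp7 (fun s => chk (uent L1401 s)) 0 = true := by decide +kernel
theorem p1401 : PrV chk L1401 := leafV c1401

theorem c1402 : lp7 (fun s => chk (uent L1402 s)) 0 = true := by decide +kernel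
theorem p1402 : PrV chk L1402 := leafV c1402

theorem c1403 : lp7 (fun s => chk (uent L1403 s)) 0 = true := by decide +kernel
theorem p1403 : PrV chk L1403 := leafV c1403

theorem c1404 : lp7 (fun s => chk (uent L1404 s)) 0 = true := by decide +kernel
theorem p1404 : PrV chk L1404 := leafV c1404

theorem c1405 : lp7 (fun s => chk (uent L1405 s)) 0 = true := by decide +kernel
theorem p1405 : PrV chk L1405 := leafV c1405

theorem c1406 : lp7 (fun s => chk (uent L1406 s)) 0 = true := by decide +kernel
theorem p1406 : PrV chk L1406 := leafV c1406

theorem c1407 : lp7 (fun s => chk (uent L1407 s)) 0 = true := by decide +kernel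
theorem p1407 : PrV chk L1407 := leafV c1407

theorem c1408 : lp7 (fun s => chk (uent L1408 s)) 0 = true := by decide +kernel
theorem p1408 : PrV chk L1408 := leafV c1408

theorem c1409 : lp7 (fun s => chk (uent L1409 s)) 0 = true := by decide +kernel
theorem p1409 : PrV chk L1409 := leafV c1409

theorem c1410 : lp7 (fun s => chk (uent L1410 s)) 0 = true := by decide +kernel
theorem p1410 : PrV chk L1410 := leafV c1410

theorem c1411 : lp7 (fun s => chk (uent L1411 s)) 0 = true := by decide +kernel
theorem p1411 : PrV chk L1411 := leafV c1411

theorem c1412 : lp7 (fun s => chk (uent L1412 s)) 0 = true := by decide +kernel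
theorem p1412 : PrV chk L1412 := leafV c1412

theorem c1413 : lp7 (fun s => chk (uent L1413 s)) 0 = true := by decide +kernel
theorem p1413 : PrV chk L1413 := leafV c1413

theorem c1414 : lp7 (fun s => chk (uent L1414 s)) 0 = true := by decide +kernel
theorem p1414 : PrV chk L1414 := leafV c1414

theorem c1415 : lp7 (fun s => chk (uent L1415 s)) 0 = true := by decide +kernel
theorem p1415 : PrV chk L1415 := leafV c1415

theorem c1416 : lp7 (fun s => chk (uent L1416 s)) 0 = true := by decide +kernel
theorem p1416 : PrV chk L1416 := leafV c1416

theorem c1417 : lp7 (fun s => chk (uent L1417 s)) 0 = true := by decide +kernel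
theorem p1417 : PrV chk L1417 := leafV c1417

theorem c1418 : lp7 (fun s => chk (uent L1418 s)) 0 = true := by decide +kernel
theorem p1418 : PrV chk L1418 := leafV c1418

theorem c1419 : lp7 (fun s => chk (uent L1419 s)) 0 = true := by decide +kernel
theorem p1419 : PrV chk L1419 := leafV c1419

theorem c1420 : lp7 (fun s => chk (uent L1420 s)) 0 = true := by decide +kernel
theorem p1420 : PrV chk L1420 := leafV c1420

theorem c1421 : lp7 (fun s => chk (uent L1421 s)) 0 = true := by decide +kernel
theorem p1421 : PrV chk L1421 := leafV c1421

theorem c1422 : lp7 (fun s => chk (uent L1422 s)) 0 = true := by decide +kernel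
theorem p1422 : PrV chk L1422 := leafV c1422

theorem c1423 : lp7 (fun s => chk (uent L1423 s)) 0 = true := by decide +kernel
theorem p1423 : PrV chk L1423 := leafV c1423

theorem c1424 : lp7 (fun s => chk (uent L1424 s)) 0 = true := by decide +kernel
theorem p1424 : PrV chk L1424 := leafV c1424

theorem c1425 : lp7 (fun s => chk (uent L1425 s)) 0 = true := by decide +kernel
theorem p1425 : PrV chk L1425 := leafV c1425

theorem c1426 : lp7 (fun s => chk (uent L1426 s)) 0 = true := by decide +kernel
theorem p1426 : PrV chk L1426 := leafV c1426

theorem c1427 : lp7 (fun s => chk (uent L1427 s)) 0 = true := by decide +kernel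
theorem p1427 : PrV chk L1427 := leafV c1427

theorem c1428 : lp7 (fun s => chk (uent L1428 s)) 0 = true := by decide +kernel
theorem p1428 : PrV chk L1428 := leafV c1428

theorem c1429 : lp7 (fun s => chk (uent L1429 s)) 0 = true := by decide +kernel
theorem p1429 : PrV chk L1429 := leafV c1429

theorem c1430 : lp7 (fun s => chk (uent L1430 s)) 0 = true := by decide +kernel
theorem p1430 : PrV chk L1430 := leafV c1430

theorem c1431 : lp7 (fun s => chk (uent L1431 s)) 0 = true := by decide +kernel
theorem p1431 : PrV chk L1431 := leafV c1431

theorem c1432 : lp7 (fun s => chk (uent L1432 s)) 0 = true := by decide +kernel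
theorem p1432 : PrV chk L1432 := leafV c1432

theorem c1433 : lp7 (fun s => chk (uent L1433 s)) 0 = true := by decide +kernel
theorem p1433 : PrV chk L1433 := leafV c1433

theorem c1434 : lp7 (fun s => chk (uent L1434 s)) 0 = true := by decide +kernel
theorem p1434 : PrV chk L1434 := leafV c1434

theorem c1435 : lp7 (fun s => chk (uent L1435 s)) 0 = true := by decide +kernel
theorem p1435 : PrV chk L1435 := leafV c1435

theorem c1436 : lp7 (fun s => chk (uent L1436 s)) 0 = true := by decide +kernel
theorem p1436 : PrV chk L1436 := leafV c1436

theorem c1437 : lp7 (fun s => chk (uent L1437 s)) 0 = true := by decide +kernel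
theorem p1437 : PrV chk L1437 := leafV c1437

theorem c1438 : lp7 (fun s => chk (uent L1438 s)) 0 = true := by decide +kernel
theorem p1438 : PrV chk L1438 := leafV c1438

theorem c1439 : lp7 (fun s => chk (uent L1439 s)) 0 = true := by decide +kernel
theorem p1439 : PrV chk L1439 := leafV c1439

theorem c1440 : lp7 (fun s => chk (uent L1440 s)) 0 = true := by decide +kernel
theorem p1440 : PrV chk L1440 := leafV c1440

theorem c1441 : lp7 (fun s => chk (uent L1441 s)) 0 = true := by decide +kernel
theorem p1441 : PrV chk L1441 := leafV c1441

theorem c1442 : lp7 (fun s => chk (uent L1442 s)) 0 = true := by decide +kernel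
theorem p1442 : PrV chk L1442 := leafV c1442

theorem c1443 : lp7 (fun s => chk (uent L1443 s)) 0 = true := by decide +kernel
theorem p1443 : PrV chk L1443 := leafV c1443

theorem c1444 : lp7 (fun s => chk (uent L1444 s)) 0 = true := by decide +kernel
theorem p1444 : PrV chk L1444 := leafV c1444

theorem c1445 : lp7 (fun s => chk (uent L1445 s)) 0 = true := by decide +kernel
theorem p1445 : PrV chk L1445 := leafV c1445

theorem c1446 : lp7 (fun s => chk (uent L1446 s)) 0 = true := by decide +kernel
theorem p1446 : PrV chk L1446 := leafV c1446

theorem c1447 : lp7 (fun s => chk (uent L1447 s)) 0 = true := by decide +kernel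
theorem p1447 : PrV chk L1447 := leafV c1447

theorem c1448 : lp7 (fun s => chk (uent L1448 s)) 0 = true := by decide +kernel
theorem p1448 : PrV chk L1448 := leafV c1448

theorem c1449 : lp7 (fun s => chk (uent L1449 s)) 0 = true := by decide +kernel
theorem p1449 : PrV chk L1449 := leafV c1449

theorem c1450 : lp7 (fun s => chk (uent L1450 s)) 0 = true := by decide +kernel
theorem p1450 : PrV chk L1450 := leafV c1450

theorem c1451 : lp7 (fun s => chk (uent L1451 s)) 0 = true := by decide +kernel
theorem p1451 : PrV chk L1451 := leafV c1451

theorem c1452 : lp7 (fun s => chk (uent L1452 s)) 0 = true := by decide +kernel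
theorem p1452 : PrV chk L1452 := leafV c1452

theorem c1453 : lp7 (fun s => chk (uent L1453 s)) 0 = true := by decide +kernel
theorem p1453 : PrV chk L1453 := leafV c1453

theorem c1454 : lp7 (fun s => chk (uent L1454 s)) 0 = true := by decide +kernel
theorem p1454 : PrV chk L1454 := leafV c1454

theorem c1455 : lp7 (fun s => chk (uent L1455 s)) 0 = true := by decide +kernel
theorem p1455 : PrV chk L1455 := leafV c1455

theorem c1456 : lp7 (fun s => chk (uent L1456 s)) 0 = true := by decide +kernel
theorem p1456 : PrV chk L1456 := leafV c1456

theorem c1457 : lp7 (fun s => chk (uent L1457 s)) 0 = true := by decide +kernel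
theorem p1457 : PrV chk L1457 := leafV c1457

theorem c1458 : lp7 (fun s => chk (uent L1458 s)) 0 = true := by decide +kernel
theorem p1458 : PrV chk L1458 := leafV c1458

theorem c1459 : lp7 (fun s => chk (uent L1459 s)) 0 = true := by decide +kernel
theorem p1459 : PrV chk L1459 := leafV c1459

theorem c1460 : lp7 (fun s => chk (uent L1460 s)) 0 = true := by decide +kernel
theorem p1460 : PrV chk L1460 := leafV c1460

theorem c1461 : lp7 (fun s => chk (uent L1461 s)) 0 = true := by decide +kernel
theorem p1461 : PrV chk L1461 := leafV c1461

theorem c1462 : lp7 (fun s => chk (uent L1462 s)) 0 = true := by decide +kernel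
theorem p1462 : PrV chk L1462 := leafV c1462

theorem c1463 : lp7 (fun s => chk (uent L1463 s)) 0 = true := by decide +kernel
theorem p1463 : PrV chk L1463 := leafV c1463

theorem c1464 : lp7 (fun s => chk (uent L1464 s)) 0 = true := by decide +kernel
theorem p1464 : PrV chk L1464 := leafV c1464

theorem c1465 : lp7 (fun s => chk (uent L1465 s)) 0 = true := by decide +kernel
theorem p1465 : PrV chk L1465 := leafV c1465

theorem c1466 : lp7 (fun s => chk (uent L1466 s)) 0 = true := by decide +kernel
theorem p1466 : PrV chk L1466 := leafV c1466

theorem c1467 : lp7 (fun s => chk (uent L1467 s)) 0 = true := by decide +kernel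
theorem p1467 : PrV chk L1467 := leafV c1467

theorem c1468 : lp7 (fun s => chk (uent L1468 s)) 0 = true := by decide +kernel
theorem p1468 : PrV chk L1468 := leafV c1468

theorem c1469 : lp7 (fun s => chk (uent L1469 s)) 0 = true := by decide +kernel
theorem p1469 : PrV chk L1469 := leafV c1469

theorem c1470 : lp7 (fun s => chk (uent L1470 s)) 0 = true := by decide +kernel
theorem p1470 : PrV chk L1470 := leafV c1470

theorem c1471 : lp7 (fun s => chk (uent L1471 s)) 0 = true := by decide +kernel
theorem p1471 : PrV chk L1471 := leafV c1471

theorem c1472 : lp7 (fun s => chk (uent L1472 s)) 0 = true := by decide +kernel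
theorem p1472 : PrV chk L1472 := leafV c1472

theorem c1473 : lp7 (fun s => chk (uent L1473 s)) 0 = true := by decide +kernel
theorem p1473 : PrV chk L1473 := leafV c1473

theorem c1474 : lp7 (fun s => chk (uent L1474 s)) 0 = true := by decide +kernel
theorem p1474 : PrV chk L1474 := leafV c1474

theorem c1475 : lp7 (fun s => chk (uent L1475 s)) 0 = true := by decide +kernel
theorem p1475 : PrV chk L1475 := leafV c1475

theorem c1476 : lp7 (fun s => chk (uent L1476 s)) 0 = true := by decide +kernel
theorem p1476 : PrV chk L1476 := leafV c1476

theorem c1477 : lp7 (fun s => chk (uent L1477 s)) 0 = true := by decide +kernel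
theorem p1477 : PrV chk L1477 := leafV c1477

theorem c1478 : lp7 (fun s => chk (uent L1478 s)) 0 = true := by decide +kernel
theorem p1478 : PrV chk L1478 := leafV c1478

theorem c1479 : lp7 (fun s => chk (uent L1479 s)) 0 = true := by decide +kernel
theorem p1479 : PrV chk L1479 := leafV c1479

theorem c1480 : lp7 (fun s => chk (uent L1480 s)) 0 = true := by decide +kernel
theorem p1480 : PrV chk L1480 := leafV c1480

theorem c1481 : lp7 (fun s => chk (uent L1481 s)) 0 = true := by decide +kernel
theorem p1481 : PrV chk L1481 := leafV c1481

theorem c1482 : lp7 (fun s => chk (uent L1482 s)) 0 = true := by decide +kernel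
theorem p1482 : PrV chk L1482 := leafV c1482

theorem c1483 : lp7 (fun s => chk (uent L1483 s)) 0 = true := by decide +kernel
theorem p1483 : PrV chk L1483 := leafV c1483

theorem c1484 : lp7 (fun s => chk (uent L1484 s)) 0 = true := by decide +kernel
theorem p1484 : PrV chk L1484 := leafV c1484

theorem c1485 : lp7 (fun s => chk (uent L1485 s)) 0 = true := by decide +kernel
theorem p1485 : PrV chk L1485 := leafV c1485

theorem c1486 : lp7 (fun s => chk (uent L1486 s)) 0 = true := by decide +kernel
theorem p1486 : PrV chk L1486 := leafV c1486

theorem c1487 : lp7 (fun s => chk (uent L1487 s)) 0 = true := by decide +kernel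
theorem p1487 : PrV chk L1487 := leafV c1487

theorem c1488 : lp7 (fun s => chk (uent L1488 s)) 0 = true := by decide +kernel
theorem p1488 : PrV chk L1488 := leafV c1488

theorem c1489 : lp7 (fun s => chk (uent L1489 s)) 0 = true := by decide +kernel
theorem p1489 : PrV chk L1489 := leafV c1489

theorem c1490 : lp7 (fun s => chk (uent L1490 s)) 0 = true := by decide +kernel
theorem p1490 : PrV chk L1490 := leafV c1490

theorem c1491 : lp7 (fun s => chk (uent L1491 s)) 0 = true := by decide +kernel
theorem p1491 : PrV chk L1491 := leafV c1491

theorem c1492 : lp7 (fun s => chk (uent L1492 s)) 0 = true := by decide +kernel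
theorem p1492 : PrV chk L1492 := leafV c1492

theorem c1493 : lp7 (fun s => chk (uent L1493 s)) 0 = true := by decide +kernel
theorem p1493 : PrV chk L1493 := leafV c1493

theorem c1494 : lp7 (fun s => chk (uent L1494 s)) 0 = true := by decide +kernel
theorem p1494 : PrV chk L1494 := leafV c1494

theorem c1495 : lp7 (fun s => chk (uent L1495 s)) 0 = true := by decide +kernel
theorem p1495 : PrV chk L1495 := leafV c1495

theorem c1496 : lp7 (fun s => chk (uent L1496 s)) 0 = true := by decide +kernel
theorem p1496 : PrV chk L1496 := leafV c1496

theorem c1497 : lp7 (fun s => chk (uent L1497 s)) 0 = true := by decide +kernel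
theorem p1497 : PrV chk L1497 := leafV c1497

theorem c1498 : lp7 (fun s => chk (uent L1498 s)) 0 = true := by decide +kernel
theorem p1498 : PrV chk L1498 := leafV c1498

theorem c1499 : lp7 (fun s => chk (uent L1499 s)) 0 = true := by decide +kernel
theorem p1499 : PrV chk L1499 := leafV c1499

theorem c1500 : lp7 (fun s => chk (uent L1500 s)) 0 = true := by decide +kernel
theorem p1500 : PrV chk L1500 := leafV c1500

theorem c1501 : lp7 (fun s => chk (uent L1501 s)) 0 = true := by decide +kernel
theorem p1501 : PrV chk L1501 := leafV c1501

theorem c1502 : lp7 (fun s => chk (uent L1502 s)) 0 = true := by decide +kernel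
theorem p1502 : PrV chk L1502 := leafV c1502

theorem c1503 : lp7 (fun s => chk (uent L1503 s)) 0 = true := by decide +kernel
theorem p1503 : PrV chk L1503 := leafV c1503

theorem c1504 : lp7 (fun s => chk (uent L1504 s)) 0 = true := by decide +kernel
theorem p1504 : PrV chk L1504 := leafV c1504

theorem c1505 : lp7 (fun s => chk (uent L1505 s)) 0 = true := by decide +kernel
theorem p1505 : PrV chk L1505 := leafV c1505

theorem c1506 : lp7 (fun s => chk (uent L1506 s)) 0 = true := by decide +kernel
theorem p1506 : PrV chk L1506 := leafV c1506

theorem c1507 : lp7 (fun s => chk (uent L1507 s)) 0 = true := by decide +kernel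
theorem p1507 : PrV chk L1507 := leafV c1507

theorem c1508 : lp7 (fun s => chk (uent L1508 s)) 0 = true := by decide +kernel
theorem p1508 : PrV chk L1508 := leafV c1508

theorem c1509 : lp7 (fun s => chk (uent L1509 s)) 0 = true := by decide +kernel
theorem p1509 : PrV chk L1509 := leafV c1509

theorem c1510 : lp7 (fun s => chk (uent L1510 s)) 0 = true := by decide +kernel
theorem p1510 : PrV chk L1510 := leafV c1510

theorem c1511 : lp7 (fun s => chk (uent L1511 s)) 0 = true := by decide +kernel
theorem p1511 : PrV chk L1511 := leafV c1511

theorem c1512 : lp7 (fun s => chk (uent L1512 s)) 0 = true := by decide +kernel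
theorem p1512 : PrV chk L1512 := leafV c1512

theorem c1513 : lp7 (fun s => chk (uent L1513 s)) 0 = true := by decide +kernel
theorem p1513 : PrV chk L1513 := leafV c1513

theorem c1514 : lp7 (fun s => chk (uent L1514 s)) 0 = true := by decide +kernel
theorem p1514 : PrV chk L1514 := leafV c1514

theorem c1515 : lp7 (fun s => chk (uent L1515 s)) 0 = true := by decide +kernel
theorem p1515 : PrV chk L1515 := leafV c1515

theorem c1516 : lp7 (fun s => chk (uent L1516 s)) 0 = true := by decide +kernel
theorem p1516 : PrV chk L1516 := leafV c1516

theorem c1517 : lp7 (fun s => chk (uent L1517 s)) 0 = true := by decide +kernel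
theorem p1517 : PrV chk L1517 := leafV c1517

theorem c1518 : lp7 (fun s => chk (uent L1518 s)) 0 = true := by decide +kernel
theorem p1518 : PrV chk L1518 := leafV c1518

theorem c1519 : lp7 (fun s => chk (uent L1519 s)) 0 = true := by decide +kernel
theorem p1519 : PrV chk L1519 := leafV c1519

theorem c1520 : lp7 (fun s => chk (uent L1520 s)) 0 = true := by decide +kernel
theorem p1520 : PrV chk L1520 := leafV c1520

theorem c1521 : lp7 (fun s => chk (uent L1521 s)) 0 = true := by decide +kernel
theorem p1521 : PrV chk L1521 := leafV c1521

theorem c1522 : lp7 (fun s => chk (uent L1522 s)) 0 = true := by decide +kernel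
theorem p1522 : PrV chk L1522 := leafV c1522

theorem c1523 : lp7 (fun s => chk (uent L1523 s)) 0 = true := by decide +kernel
theorem p1523 : PrV chk L1523 := leafV c1523

theorem c1524 : lp7 (fun s => chk (uent L1524 s)) 0 = true := by decide +kernel
theorem p1524 : PrV chk L1524 := leafV c1524

theorem c1525 : lp7 (fun s => chk (uent L1525 s)) 0 = true := by decide +kernel
theorem p1525 : PrV chk L1525 := leafV c1525

theorem c1526 : lp7 (fun s => chk (uent L1526 s)) 0 = true := by decide +kernel
theorem p1526 : PrV chk L1526 := leafV c1526

theorem c1527 : lp7 (fun s => chk (uent L1527 s)) 0 = true := by decide +kernel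
theorem p1527 : PrV chk L1527 := leafV c1527

theorem c1528 : lp7 (fun s => chk (uent L1528 s)) 0 = true := by decide +kernel
theorem p1528 : PrV chk L1528 := leafV c1528

theorem c1529 : lp7 (fun s => chk (uent L1529 s)) 0 = true := by decide +kernel
theorem p1529 : PrV chk L1529 := leafV c1529

theorem c1530 : lp7 (fun s => chk (uent L1530 s)) 0 = true := by decide +kernel
theorem p1530 : PrV chk L1530 := leafV c1530

theorem c1531 : lp7 (fun s => chk (uent L1531 s)) 0 = true := by decide +kernel
theorem p1531 : PrV chk L1531 := leafV c1531

theorem c1532 : lp7 (fun s => chk (uent L1532 s)) 0 = true := by decide +kernel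
theorem p1532 : PrV chk L1532 := leafV c1532

theorem c1533 : lp7 (fun s => chk (uent L1533 s)) 0 = true := by decide +kernel
theorem p1533 : PrV chk L1533 := leafV c1533

theorem c1534 : lp7 (fun s => chk (uent L1534 s)) 0 = true := by decide +kernel
theorem p1534 : PrV chk L1534 := leafV c1534

theorem c1535 : lp7 (fun s => chk (uent L1535 s)) 0 = true := by decide +kernel
theorem p1535 : PrV chk L1535 := leafV c1535

end Pool.Agent.ad013a.W
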