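import Pool.Agent.H.MP_ad013a_pr.h63w.A.T
import Pool.Agent.H.MP_ad013a_pr.h63w.VLoop

namespace Pool.Agent.ad013a.W

theorem c1536 : lp7 (fun s => chk (uent L1536 s)) 0 = true := by decide +kernel
theorem p1536 : PrV chk L1536 := leafV c1536

theorem c1537 : lp7 (fun s => chk (uent L1537 s)) 0 = true := by decide +kernel
theorem p1537 : PrV chk L1537 := leafV c1537

theorem c1538 : lp7 (fun s => chk (uent L1538 s)) 0 = true := by decide +kernel
theorem p1538 : PrV chk L1538 := leafV c1538

theorem c1539 : lp7 (fun s => chk (uent L1539 s)) 0 = true := by decide +kernel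
theorem p1539 : PrV chk L1539 := leafV c1539

theorem c1540 : lp7 (fun s => chk (uent L1540 s)) 0 = true := by decide +kernel
theorem p1540 : PrV chk L1540 := leafV c1540

theorem c1541 : lp7 (fun s => chk (uent L1541 s)) 0 = true := by decide +kernel
theorem p1541 : PrV chk L1541 := leafV c1541

theorem c1542 : lp7 (fun s => chk (uent L1542 s)) 0 = true := by decide +kernel
theorem p1542 : PrV chk L1542 := leafV c1542

theorem c1543 : lp7 (fun s => chk (uent L1543 s)) 0 = true := by decide +kernel
theorem p1543 : PrV chk L1543 := leafV c1543

theorem c1544 : lp7 (fun s => chk (uent L1544 s)) 0 = true := by decide +kernel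
theorem p1544 : PrV chk L1544 := leafV c1544

theorem c1545 : lp7 (fun s => chk (uent L1545 s)) 0 = true := by decide +kernel
theorem p1545 : PrV chk L1545 := leafV c1545

theorem c1546 : lp7 (fun s => chk (uent L1546 s)) 0 = true := by decide +kernel
theorem p1546 : PrV chk L1546 := leafV c1546

theorem c1547 : lp7 (fun s => chk (uent L1547 s)) 0 = true := by decide +kernel
theorem p1547 : PrV chk L1547 := leafV c1547

theorem c1548 : lp7 (fun s => chk (uent L1548 s)) 0 = true := by decide +kernel
theorem p1548 : PrV chk L1548 := leafV c1548

theorem c1549 : lp7 (fun s => chk (uent L1549 s)) 0 = true := by decide +kernel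
theorem p1549 : PrV chk L1549 := leafV c1549

theorem c1550 : lp7 (fun s => chk (uent L1550 s)) 0 = true := by decide +kernel
theorem p1550 : PrV chk L1550 := leafV c1550

theorem c1551 : lp7 (fun s => chk (uent L1551 s)) 0 = true := by decide +kernel
theorem p1551 : PrV chk L1551 := leafV c1551

theorem c1552 : lp7 (fun s => chk (uent L1552 s)) 0 = true := by decide +kernel
theorem p1552 : PrV chk L1552 := leafV c1552

theorem c1553 : lp7 (fun s => chk (uent L1553 s)) 0 = true := by decide +kernel
theorem p1553 : PrV chk L1553 := leafV c1553

theorem c1554 : lp7 (fun s => chk (uent L1554 s)) 0 = true := by decide +kernel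
theorem p1554 : PrV chk L1554 := leafV c1554

theorem c1555 : lp7 (fun s => chk (uent L1555 s)) 0 = true := by decide +kernel
theorem p1555 : PrV chk L1555 := leafV c1555

theorem c1556 : lp7 (fun s => chk (uent L1556 s)) 0 = true := by decide +kernel
theorem p1556 : PrV chk L1556 := leafV c1556

theorem c1557 : lp7 (fun s => chk (uent L1557 s)) 0 = true := by decide +kernel
theorem p1557 : PrV chk L1557 := leafV c1557

theorem c1558 : lp7 (fun s => chk (uent L1558 s)) 0 = true := by decide +kernel
theorem p1558 : PrV chk L1558 := leafV c1558

theorem c1559 : lp7 (fun s => chk (uent L1559 s)) 0 = true := by decide +kernel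
theorem p1559 : PrV chk L1559 := leafV c1559

theorem c1560 : lp7 (fun s => chk (uent L1560 s)) 0 = true := by decide +kernel
theorem p1560 : PrV chk L1560 := leafV c1560

theorem c1561 : lp7 (fun s => chk (uent L1561 s)) 0 = true := by decide +kernel
theorem p1561 : PrV chk L1561 := leafV c1561

theorem c1562 : lp7 (fun s => chk (uent L1562 s)) 0 = true := by decide +kernel
theorem p1562 : PrV chk L1562 := leafV c1562

theorem c1563 : lp7 (fun s => chk (uent L1563 s)) 0 = true := by decide +kernel
theorem p1563 : PrV chk L1563 := leafV c1563

theorem c1564 : lp7 (fun s => chk (uent L1564 s)) 0 = true := by decide +kernel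
theorem p1564 : PrV chk L1564 := leafV c1564

theorem c1565 : lp7 (fun s => chk (uent L1565 s)) 0 = true := by decide +kernel
theorem p1565 : PrV chk L1565 := leafV c1565

theorem c1566 : lp7 (fun s => chk (uent L1566 s)) 0 = true := by decide +kernel
theorem p1566 : PrV chk L1566 := leafV c1566

theorem c1567 : lp7 (fun s => chk (uent L1567 s)) 0 = true := by decide +kernel
theorem p1567 : PrV chk L1567 := leafV c1567

theorem c1568 : lp7 (fun s => chk (uent L1568 s)) 0 = true := by decide +kernel
theorem p1568 : PrV chk L1568 := leafV c1568

theorem c1569 : lp7 (fun s => chk (uent L1569 s)) 0 = true := by decide +kernel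
theorem p1569 : PrV chk L1569 := leafV c1569

theorem c1570 : lp7 (fun s => chk (uent L1570 s)) 0 = true := by decide +kernel
theorem p1570 : PrV chk L1570 := leafV c1570

theorem c1571 : lp7 (fun s => chk (uent L1571 s)) 0 = true := by decide +kernel
theorem p1571 : PrV chk L1571 := leafV c1571

theorem c1572 : lp7 (fun s => chk (uent L1572 s)) 0 = true := by decide +kernel
theorem p1572 : PrV chk L1572 := leafV c1572

theorem c1573 : lp7 (fun s => chk (uent L1573 s)) 0 = true := by decide +kernel
theorem p1573 : PrV chk L1573 := leafV c1573

theorem c1574 : lp7 (fun s => chk (uent L1574 s)) 0 = true := by decide +kernel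
theorem p1574 : PrV chk L1574 := leafV c1574

theorem c1575 : lp7 (fun s => chk (uent L1575 s)) 0 = true := by decide +kernel
theorem p1575 : PrV chk L1575 := leafV c1575

theorem c1576 : lp7 (fun s => chk (uent L1576 s)) 0 = true := by decide +kernel
theorem p1576 : PrV chk L1576 := leafV c1576

theorem c1577 : lp7 (fun s => chk (uent L1577 s)) 0 = true := by decide +kernel
theorem p1577 : PrV chk L1577 := leafV c1577

theorem c1578 : lp7 (fun s => chk (uent L1578 s)) 0 = true := by decide +kernel
theorem p1578 : PrV chk L1578 := leafV c1578

theorem c1579 : lp7 (fun s => chk (uent L1579 s)) 0 = true := by decide +kernel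
theorem p1579 : PrV chk L1579 := leafV c1579

theorem c1580 : lp7 (fun s => chk (uent L1580 s)) 0 = true := by decide +kernel
theorem p1580 : PrV chk L1580 := leafV c1580

theorem c1581 : lp7 (fun s => chk (uent L1581 s)) 0 = true := by decide +kernel
theorem p1581 : PrV chk L1581 := leafV c1581

theorem c1582 : lp7 (fun s => chk (uent L1582 s)) 0 = true := by decide +kernel
theorem p1582 : PrV chk L1582 := leafV c1582

theorem c1583 : lp7 (fun s => chk (uent L1583 s)) 0 = true := by decide +kernel
theorem p1583 : PrV chk L1583 := leafV c1583

theorem c1584 : lp7 (fun s => chk (uent L1584 s)) 0 = true := by decide +kernel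
theorem p1584 : PrV chk L1584 := leafV c1584

theorem c1585 : lp7 (fun s => chk (uent L1585 s)) 0 = true := by decide +kernel
theorem p1585 : PrV chk L1585 := leafV c1585

theorem c1586 : lp7 (fun s => chk (uent L1586 s)) 0 = true := by decide +kernel
theorem p1586 : PrV chk L1586 := leafV c1586

theorem c1587 : lp7 (fun s => chk (uent L1587 s)) 0 = true := by decide +kernel
theorem p1587 : PrV chk L1587 := leafV c1587

theorem c1588 : lp7 (fun s => chk (uent L1588 s)) 0 = true := by decide +kernel
theorem p1588 : PrV chk L1588 := leafV c1588

theorem c1589 : lp7 (fun s => chk (uent L1589 s)) 0 = true := by decide +kernel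
theorem p1589 : PrV chk L1589 := leafV c1589

theorem c1590 : lp7 (fun s => chk (uent L1590 s)) 0 = true := by decide +kernel
theorem p1590 : PrV chk L1590 := leafV c1590

theorem c1591 : lp7 (fun s => chk (uent L1591 s)) 0 = true := by decide +kernel
theorem p1591 : PrV chk L1591 := leafV c1591

theorem c1592 : lp7 (fun s => chk (uent L1592 s)) 0 = true := by decide +kernel
theorem p1592 : PrV chk L1592 := leafV c1592

theorem c1593 : lp7 (fun s => chk (uent L1593 s)) 0 = true := by decide +kernel
theorem p1593 : PrV chk L1593 := leafV c1593

theorem c1594 : lp7 (fun s => chk (uent L1594 s)) 0 = true := by decide +kernel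
theorem p1594 : PrV chk L1594 := leafV c1594

theorem c1595 : lp7 (fun s => chk (uent L1595 s)) 0 = true := by decide +kernel
theorem p1595 : PrV chk L1595 := leafV c1595

theorem c1596 : lp7 (fun s => chk (uent L1596 s)) 0 = true := by decide +kernel
theorem p1596 : PrV chk L1596 := leafV c1596

theorem c1597 : lp7 (fun s => chk (uent L1597 s)) 0 = true := by decide +kernel
theorem p1597 : PrV chk L1597 := leafV c1597

theorem c1598 : lp7 (fun s => chk (uent L1598 s)) 0 = true := by decide +kernel
theorem p1598 : PrV chk L1598 := leafV c1598

theorem c1599 : lp7 (fun s => chk (uent L1599 s)) 0 = true := by decide +kernel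
theorem p1599 : PrV chk L1599 := leafV c1599

theorem c1600 : lp7 (fun s => chk (uent L1600 s)) 0 = true := by decide +kernel
theorem p1600 : PrV chk L1600 := leafV c1600

theorem c1601 : lp7 (fun s => chk (uent L1601 s)) 0 = true := by decide +kernel
theorem p1601 : PrV chk L1601 := leafV c1601

theorem c1602 : lp7 (fun s => chk (uent L1602 s)) 0 = true := by decide +kernel
theorem p1602 : PrV chk L1602 := leafV c1602

theorem c1603 : lp7 (fun s => chk (uent L1603 s)) 0 = true := by decide +kernel
theorem p1603 : PrV chk L1603 := leafV c1603

theorem c1604 : lp7 (fun s => chk (uent L1604 s)) 0 = true := by decide +kernel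
theorem p1604 : PrV chk L1604 := leafV c1604

theorem c1605 : lp7 (fun s => chk (uent L1605 s)) 0 = true := by decide +kernel
theorem p1605 : PrV chk L1605 := leafV c1605

theorem c1606 : lp7 (fun s => chk (uent L1606 s)) 0 = true := by decide +kernel
theorem p1606 : PrV chk L1606 := leafV c1606

theorem c1607 : lp7 (fun s => chk (uent L1607 s)) 0 = true := by decide +kernel
theorem p1607 : PrV chk L1607 := leafV c1607

theorem c1608 : lp7 (fun s => chk (uent L1608 s)) 0 = true := by decide +kernel
theorem p1608 : PrV chk L1608 := leafV c1608

theorem c1609 : lp7 (fun s => chk (uent L1609 s)) 0 = true := by decide +kernel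
theorem p1609 : PrV chk L1609 := leafV c1609

theorem c1610 : lp7 (fun s => chk (uent L1610 s)) 0 = true := by decide +kernel
theorem p1610 : PrV chk L1610 := leafV c1610

theorem c1611 : lp7 (fun s => chk (uent L1611 s)) 0 = true := by decide +kernel
theorem p1611 : PrV chk L1611 := leafV c1611

theorem c1612 : lp7 (fun s => chk (uent L1612 s)) 0 = true := by decide +kernel
theorem p1612 : PrV chk L1612 := leafV c1612

theorem c1613 : lp7 (fun s => chk (uent L1613 s)) 0 = true := by decide +kernel
theorem p1613 : PrV chk L1613 := leafV c1613

theorem c1614 : lp7 (fun s => chk (uent L1614 s)) 0 = true := by decide +kernel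
theorem p1614 : PrV chk L1614 := leafV c1614

theorem c1615 : lp7 (fun s => chk (uent L1615 s)) 0 = true := by decide +kernel
theorem p1615 : PrV chk L1615 := leafV c1615

theorem c1616 : lp7 (fun s => chk (uent L1616 s)) 0 = true := by decide +kernel
theorem p1616 : PrV chk L1616 := leafV c1616

theorem c1617 : lp7 (fun s => chk (uent L1617 s)) 0 = true := by decide +kernel
theorem p1617 : PrV chk L1617 := leafV c1617

theorem c1618 : lp7 (fun s => chk (uent L1618 s)) 0 = true := by decide +kernel
theorem p1618 : PrV chk L1618 := leafV c1618

theorem c1619 : lp7 (fun s => chk (uent L1619 s)) 0 = true := by decide +kernel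
theorem p1619 : PrV chk L1619 := leafV c1619

theorem c1620 : lp7 (fun s => chk (uent L1620 s)) 0 = true := by decide +kernel
theorem p1620 : PrV chk L1620 := leafV c1620

theorem c1621 : lp7 (fun s => chk (uent L1621 s)) 0 = true := by decide +kernel
theorem p1621 : PrV chk L1621 := leafV c1621

theorem c1622 : lp7 (fun s => chk (uent L1622 s)) 0 = true := by decide +kernel
theorem p1622 : PrV chk L1622 := leafV c1622

theorem c1623 : lp7 (fun s => chk (uent L1623 s)) 0 = true := by decide +kernel
theorem p1623 : PrV chk L1623 := leafV c1623

theorem c1624 : lp7 (fun s => chk (uent L1624 s)) 0 = true := by decide +kernel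
theorem p1624 : PrV chk L1624 := leafV c1624

theorem c1625 : lp7 (fun s => chk (uent L1625 s)) 0 = true := by decide +kernel
theorem p1625 : PrV chk L1625 := leafV c1625

theorem c1626 : lp7 (fun s => chk (uent L1626 s)) 0 = true := by decide +kernel
theorem p1626 : PrV chk L1626 := leafV c1626

theorem c1627 : lp7 (fun s => chk (uent L1627 s)) 0 = true := by decide +kernel
theorem p1627 : PrV chk L1627 := leafV c1627

theorem c1628 : lp7 (fun s => chk (uent L1628 s)) 0 = true := by decide +kernel
theorem p1628 : PrV chk L1628 := leafV c1628

theorem c1629 : lp7 (fun s => chk (uent L1629 s)) 0 = true := by decide +kernel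
theorem p1629 : PrV chk L1629 := leafV c1629

theorem c1630 : lp7 (fun s => chk (uent L1630 s)) 0 = true := by decide +kernel
theorem p1630 : PrV chk L1630 := leafV c1630

theorem c1631 : lp7 (fun s => chk (uent L1631 s)) 0 = true := by decide +kernel
theorem p1631 : PrV chk L1631 := leafV c1631

theorem c1632 : lp7 (fun s => chk (uent L1632 s)) 0 = true := by decide +kernel
theorem p1632 : PrV chk L1632 := leafV c1632

theorem c1633 : lp7 (fun s => chk (uent L1633 s)) 0 = true := by decide +kernel
theorem p1633 : PrV chk L1633 := leafV c1633

theorem c1634 : lp7 (fun s => chk (uent L1634 s)) 0 = true := by decide +kernel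
theorem p1634 : PrV chk L1634 := leafV c1634

theorem c1635 : lp7 (fun s => chk (uent L1635 s)) 0 = true := by decide +kernel
theorem p1635 : PrV chk L1635 := leafV c1635

theorem c1636 : lp7 (fun s => chk (uent L1636 s)) 0 = true := by decide +kernel
theorem p1636 : PrV chk L1636 := leafV c1636

theorem c1637 : lp7 (fun s => chk (uent L1637 s)) 0 = true := by decide +kernel
theorem p1637 : PrV chk L1637 := leafV c1637

theorem c1638 : lp7 (fun s => chk (uent L1638 s)) 0 = true := by decide +kernel
theorem p1638 : PrV chk L1638 := leafV c1638

theorem c1639 : lp7 (fun s => chk (uent L1639 s)) 0 = true := by decide +kernel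
theorem p1639 : PrV chk L1639 := leafV c1639

theorem c1640 : lp7 (fun s => chk (uent L1640 s)) 0 = true := by decide +kernel
theorem p1640 : PrV chk L1640 := leafV c1640

theorem c1641 : lp7 (fun s => chk (uent L1641 s)) 0 = true := by decide +kernel
theorem p1641 : PrV chk L1641 := leafV c1641

theorem c1642 : lp7 (fun s => chk (uent L1642 s)) 0 = true := by decide +kernel
theorem p1642 : PrV chk L1642 := leafV c1642

theorem c1643 : lp7 (fun s => chk (uent L1643 s)) 0 = true := by decide +kernel
theorem p1643 : PrV chk L1643 := leafV c1643

theorem c1644 : lp7 (fun s => chk (uent L1644 s)) 0 = true := by decide +kernel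
theorem p1644 : PrV chk L1644 := leafV c1644

theorem c1645 : lp7 (fun s => chk (uent L1645 s)) 0 = true := by decide +kernel
theorem p1645 : PrV chk L1645 := leafV c1645

theorem c1646 : lp7 (fun s => chk (uent L1646 s)) 0 = true := by decide +kernel
theorem p1646 : PrV chk L1646 := leafV c1646

theorem c1647 : lp7 (fun s => chk (uent L1647 s)) 0 = true := by decide +kernel
theorem p1647 : PrV chk L1647 := leafV c1647

theorem c1648 : lp7 (fun s => chk (uent L1648 s)) 0 = true := by decide +kernel
theorem p1648 : PrV chk L1648 := leafV c1648

theorem c1649 : lp7 (fun s => chk (uent L1649 s)) 0 = true := by decide +kernel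
theorem p1649 : PrV chk L1649 := leafV c1649

theorem c1650 : lp7 (fun s => chk (uent L1650 s)) 0 = true := by decide +kernel
theorem p1650 : PrV chk L1650 := leafV c1650

theorem c1651 : lp7 (fun s => chk (uent L1651 s)) 0 = true := by decide +kernel
theorem p1651 : PrV chk L1651 := leafV c1651

theorem c1652 : lp7 (fun s => chk (uent L1652 s)) 0 = true := by decide +kernel
theorem p1652 : PrV chk L1652 := leafV c1652

theorem c1653 : lp7 (fun s => chk (uent L1653 s)) 0 = true := by decide +kernel
theorem p1653 : PrV chk L1653 := leafV c1653

theorem c1654 : lp7 (fun s => chk (uent L1654 s)) 0 = true := by decide +kernel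
theorem p1654 : PrV chk L1654 := leafV c1654

theorem c1655 : lp7 (fun s => chk (uent L1655 s)) 0 = true := by decide +kernel
theorem p1655 : PrV chk L1655 := leafV c1655

theorem c1656 : lp7 (fun s => chk (uent L1656 s)) 0 = true := by decide +kernel
theorem p1656 : PrV chk L1656 := leafV c1656

theorem c1657 : lp7 (fun s => chk (uent L1657 s)) 0 = true := by decide +kernel
theorem p1657 : PrV chk L1657 := leafV c1657

theorem c1658 : lp7 (fun s => chk (uent L1658 s)) 0 = true := by decide +kernel
theorem p1658 : PrV chk L1658 := leafV c1658

theorem c1659 : lp7 (fun s => chk (uent L1659 s)) 0 = true := by decide +kernel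
theorem p1659 : PrV chk L1659 := leafV c1659

theorem c1660 : lp7 (fun s => chk (uent L1660 s)) 0 = true := by decide +kernel
theorem p1660 : PrV chk L1660 := leafV c1660

theorem c1661 : lp7 (fun s => chk (uent L1661 s)) 0 = true := by decide +kernel
theorem p1661 : PrV chk L1661 := leafV c1661

theorem c1662 : lp7 (fun s => chk (uent L1662 s)) 0 = true := by decide +kernel
theorem p1662 : PrV chk L1662 := leafV c1662

theorem c1663 : lp7 (fun s => chk (uent L1663 s)) 0 = true := by decide +kernel
theorem p1663 : PrV chk L1663 := leafV c1663

theorem c1664 : lp7 (fun s => chk (uent L1664 s)) 0 = true := by decide +kernel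
theorem p1664 : PrV chk L1664 := leafV c1664

theorem c1665 : lp7 (fun s => chk (uent L1665 s)) 0 = true := by decide +kernel
theorem p1665 : PrV chk L1665 := leafV c1665

theorem c1666 : lp7 (fun s => chk (uent L1666 s)) 0 = true := by decide +kernel
theorem p1666 : PrV chk L1666 := leafV c1666

theorem c1667 : lp7 (fun s => chk (uent L1667 s)) 0 = true := by decide +kernel
theorem p1667 : PrV chk L1667 := leafV c1667

theorem c1668 : lp7 (fun s => chk (uent L1668 s)) 0 = true := by decide +kernel
theorem p1668 : PrV chk L1668 := leafV c1668

theorem c1669 : lp7 (fun s => chk (uent L1669 s)) 0 = true := by decide +kernel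
theorem p1669 : PrV chk L1669 := leafV c1669

theorem c1670 : lp7 (fun s => chk (uent L1670 s)) 0 = true := by decide +kernel
theorem p1670 : PrV chk L1670 := leafV c1670

theorem c1671 : lp7 (fun s => chk (uent L1671 s)) 0 = true := by decide +kernel
theorem p1671 : PrV chk L1671 := leafV c1671

theorem c1672 : lp7 (fun s => chk (uent L1672 s)) 0 = true := by decide +kernel
theorem p1672 : PrV chk L1672 := leafV c1672

theorem c1673 : lp7 (fun s => chk (uent L1673 s)) 0 = true := by decide +kernel
theorem p1673 : PrV chk L1673 := leafV c1673

theorem c1674 : lp7 (fun s => chk (uent L1674 s)) 0 = true := by decide +kernel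
theorem p1674 : PrV chk L1674 := leafV c1674

theorem c1675 : lp7 (fun s => chk (uent L1675 s)) 0 = true := by decide +kernel
theorem p1675 : PrV chk L1675 := leafV c1675

theorem c1676 : lp7 (fun s => chk (uent L1676 s)) 0 = true := by decide +kernel
theorem p1676 : PrV chk L1676 := leafV c1676

theorem c1677 : lp7 (fun s => chk (uent L1677 s)) 0 = true := by decide +kernel
theorem p1677 : PrV chk L1677 := leafV c1677

theorem c1678 : lp7 (fun s => chk (uent L1678 s)) 0 = true := by decide +kernel
theorem p1678 : PrV chk L1678 := leafV c1678

theorem c1679 : lp7 (fun s => chk (uent L1679 s)) 0 = true := by decide +kernel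
theorem p1679 : PrV chk L1679 := leafV c1679

theorem c1680 : lp7 (fun s => chk (uent L1680 s)) 0 = true := by decide +kernel
theorem p1680 : PrV chk L1680 := leafV c1680

theorem c1681 : lp7 (fun s => chk (uent L1681 s)) 0 = true := by decide +kernel
theorem p1681 : PrV chk L1681 := leafV c1681

theorem c1682 : lp7 (fun s => chk (uent L1682 s)) 0 = true := by decide +kernel
theorem p1682 : PrV chk L1682 := leafV c1682

theorem c1683 : lp7 (fun s => chk (uent L1683 s)) 0 = true := by decide +kernel
theorem p1683 : PrV chk L1683 := leafV c1683

theorem c1684 : lp7 (fun s => chk (uent L1684 s)) 0 = true := by decide +kernel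
theorem p1684 : PrV chk L1684 := leafV c1684

theorem c1685 : lp7 (fun s => chk (uent L1685 s)) 0 = true := by decide +kernel
theorem p1685 : PrV chk L1685 := leafV c1685

theorem c1686 : lp7 (fun s => chk (uent L1686 s)) 0 = true := by decide +kernel
theorem p1686 : PrV chk L1686 := leafV c1686

theorem c1687 : lp7 (fun s => chk (uent L1687 s)) 0 = true := by decide +kernel
theorem p1687 : PrV chk L1687 := leafV c1687

theorem c1688 : lp7 (fun s => chk (uent L1688 s)) 0 = true := by decide +kernel
theorem p1688 : PrV chk L1688 := leafV c1688

theorem c1689 : lp7 (fun s => chk (uent L1689 s)) 0 = true := by decide +kernel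
theorem p1689 : PrV chk L1689 := leafV c1689

theorem c1690 : lp7 (fun s => chk (uent L1690 s)) 0 = true := by decide +kernel
theorem p1690 : PrV chk L1690 := leafV c1690

theorem c1691 : lp7 (fun s => chk (uent L1691 s)) 0 = true := by decide +kernel
theorem p1691 : PrV chk L1691 := leafV c1691

theorem c1692 : lp7 (fun s => chk (uent L1692 s)) 0 = true := by decide +kernel
theorem p1692 : PrV chk L1692 := leafV c1692

theorem c1693 : lp7 (fun s => chk (uent L1693 s)) 0 = true := by decide +kernel
theorem p1693 : PrV chk L1693 := leafV c1693

theorem c1694 : lp7 (fun s => chk (uent L1694 s)) 0 = true := by decide +kernel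
theorem p1694 : PrV chk L1694 := leafV c1694

theorem c1695 : lp7 (fun s => chk (uent L1695 s)) 0 = true := by decide +kernel
theorem p1695 : PrV chk L1695 := leafV c1695

theorem c1696 : lp7 (fun s => chk (uent L1696 s)) 0 = true := by decide +kernel
theorem p1696 : PrV chk L1696 := leafV c1696

theorem c1697 : lp7 (fun s => chk (uent L1697 s)) 0 = true := by decide +kernel
theorem p1697 : PrV chk L1697 := leafV c1697

theorem c1698 : lp7 (fun s => chk (uent L1698 s)) 0 = true := by decide +kernel
theorem p1698 : PrV chk L1698 := leafV c1698

theorem c1699 : lp7 (fun s => chk (uent L1699 s)) 0 = true := by decide +kernel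
theorem p1699 : PrV chk L1699 := leafV c1699

theorem c1700 : lp7 (fun s => chk (uent L1700 s)) 0 = true := by decide +kernel
theorem p1700 : PrV chk L1700 := leafV c1700

theorem c1701 : lp7 (fun s => chk (uent L1701 s)) 0 = true := by decide +kernel
theorem p1701 : PrV chk L1701 := leafV c1701

theorem c1702 : lp7 (fun s => chk (uent L1702 s)) 0 = true := by decide +kernel
theorem p1702 : PrV chk L1702 := leafV c1702

theorem c1703 : lp7 (fun s => chk (uent L1703 s)) 0 = true := by decide +kernel
theorem p1703 : PrV chk L1703 := leafV c1703

theorem c1704 : lp7 (fun s => chk (uent L1704 s)) 0 = true := by decide +kernel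
theorem p1704 : PrV chk L1704 := leafV c1704

theorem c1705 : lp7 (fun s => chk (uent L1705 s)) 0 = true := by decide +kernel
theorem p1705 : PrV chk L1705 := leafV c1705

theorem c1706 : lp7 (fun s => chk (uent L1706 s)) 0 = true := by decide +kernel
theorem p1706 : PrV chk L1706 := leafV c1706

theorem c1707 : lp7 (fun s => chk (uent L1707 s)) 0 = true := by decide +kernel
theorem p1707 : PrV chk L1707 := leafV c1707

theorem c1708 : lp7 (fun s => chk (uent L1708 s)) 0 = true := by decide +kernel
theorem p1708 : PrV chk L1708 := leafV c1708

theorem c1709 : lp7 (fun s => chk (uent L1709 s)) 0 = true := by decide +kernel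
theorem p1709 : PrV chk L1709 := leafV c1709

theorem c1710 : lp7 (fun s => chk (uent L1710 s)) 0 = true := by decide +kernel
theorem p1710 : PrV chk L1710 := leafV c1710

theorem c1711 : lp7 (fun s => chk (uent L1711 s)) 0 = true := by decide +kernel
theorem p1711 : PrV chk L1711 := leafV c1711

theorem c1712 : lp7 (fun s => chk (uent L1712 s)) 0 = true := by decide +kernel
theorem p1712 : PrV chk L1712 := leafV c1712

theorem c1713 : lp7 (fun s => chk (uent L1713 s)) 0 = true := by decide +kernel
theorem p1713 : PrV chk L1713 := leafV c1713

theorem c1714 : lp7 (fun s => chk (uent L1714 s)) 0 = true := by decide +kernel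
theorem p1714 : PrV chk L1714 := leafV c1714

theorem c1715 : lp7 (fun s => chk (uent L1715 s)) 0 = true := by decide +kernel
theorem p1715 : PrV chk L1715 := leafV c1715

theorem c1716 : lp7 (fun s => chk (uent L1716 s)) 0 = true := by decide +kernel
theorem p1716 : PrV chk L1716 := leafV c1716

theorem c1717 : lp7 (fun s => chk (uent L1717 s)) 0 = true := by decide +kernel
theorem p1717 : PrV chk L1717 := leafV c1717

theorem c1718 : lp7 (fun s => chk (uent L1718 s)) 0 = true := by decide +kernel
theorem p1718 : PrV chk L1718 := leafV c1718

theorem c1719 : lp7 (fun s => chk (uent L1719 s)) 0 = true := by decide +kernel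
theorem p1719 : PrV chk L1719 := leafV c1719

theorem c1720 : lp7 (fun s => chk (uent L1720 s)) 0 = true := by decide +kernel
theorem p1720 : PrV chk L1720 := leafV c1720

theorem c1721 : lp7 (fun s => chk (uent L1721 s)) 0 = true := by decide +kernel
theorem p1721 : PrV chk L1721 := leafV c1721

theorem c1722 : lp7 (fun s => chk (uent L1722 s)) 0 = true := by decide +kernel
theorem p1722 : PrV chk L1722 := leafV c1722

theorem c1723 : lp7 (fun s => chk (uent L1723 s)) 0 = true := by decide +kernel
theorem p1723 : PrV chk L1723 := leafV c1723

theorem c1724 : lp7 (fun s => chk (uent L1724 s)) 0 = true := by decide +kernel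
theorem p1724 : PrV chk L1724 := leafV c1724

theorem c1725 : lp7 (fun s => chk (uent L1725 s)) 0 = true := by decide +kernel
theorem p1725 : PrV chk L1725 := leafV c1725

theorem c1726 : lp7 (fun s => chk (uent L1726 s)) 0 = true := by decide +kernel
theorem p1726 : PrV chk L1726 := leafV c1726

theorem c1727 : lp7 (fun s => chk (uent L1727 s)) 0 = true := by decide +kernel
theorem p1727 : PrV chk L1727 := leafV c1727

end Pool.Agent.ad013a.W
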