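import Pool.Agent.H.MP_ad013a_pr.h63w.A.T
import Pool.Agent.H.MP_ad013a_pr.h63w.VLoop

namespace Pool.Agent.ad013a.W

theorem c1728 : lp7 (fun s => chk (uent L1728 s)) 0 = true := by decide +kernel
theorem p1728 : PrV chk L1728 := leafV c1728

theorem c1729 : lp7 (fun s => chk (uent L1729 s)) 0 = true := by decide +kernel
theorem p1729 : PrV chk L1729 := leafV c1729

theorem c1730 : lp7 (fun s => chk (uent L1730 s)) 0 = true := by decide +kernel
theorem p1730 : PrV chk L1730 := leafV c1730

theorem c1731 : lp7 (fun s => chk (uent L1731 s)) 0 = true := by decide +kernel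
theorem p1731 : PrV chk L1731 := leafV c1731

theorem c1732 : lp7 (fun s => chk (uent L1732 s)) 0 = true := by decide +kernel
theorem p1732 : PrV chk L1732 := leafV c1732

theorem c1733 : lp7 (fun s => chk (uent L1733 s)) 0 = true := by decide +kernel
theorem p1733 : PrV chk L1733 := leafV c1733

theorem c1734 : lp7 (fun s => chk (uent L1734 s)) 0 = true := by decide +kernel
theorem p1734 : PrV chk L1734 := leafV c1734

theorem c1735 : lp7 (fun s => chk (uent L1735 s)) 0 = true := by decide +kernel
theorem p1735 : PrV chk L1735 := leafV c1735

theorem c1736 : lp7 (fun s => chk (uent L1736 s)) 0 = true := by decide +kernel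
theorem p1736 : PrV chk L1736 := leafV c1736

theorem c1737 : lp7 (fun s => chk (uent L1737 s)) 0 = true := by decide +kernel
theorem p1737 : PrV chk L1737 := leafV c1737

theorem c1738 : lp7 (fun s => chk (uent L1738 s)) 0 = true := by decide +kernel
theorem p1738 : PrV chk L1738 := leafV c1738

theorem c1739 : lp7 (fun s => chk (uent L1739 s)) 0 = true := by decide +kernel
theorem p1739 : PrV chk L1739 := leafV c1739

theorem c1740 : lp7 (fun s => chk (uent L1740 s)) 0 = true := by decide +kernel
theorem p1740 : PrV chk L1740 := leafV c1740

theorem c1741 : lp7 (fun s => chk (uent L1741 s)) 0 = true := by decide +kernel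
theorem p1741 : PrV chk L1741 := leafV c1741

theorem c1742 : lp7 (fun s => chk (uent L1742 s)) 0 = true := by decide +kernel
theorem p1742 : PrV chk L1742 := leafV c1742

theorem c1743 : lp7 (fun s => chk (uent L1743 s)) 0 = true := by decide +kernel
theorem p1743 : PrV chk L1743 := leafV c1743

theorem c1744 : lp7 (fun s => chk (uent L1744 s)) 0 = true := by decide +kernel
theorem p1744 : PrV chk L1744 := leafV c1744

theorem c1745 : lp7 (fun s => chk (uent L1745 s)) 0 = true := by decide +kernel
theorem p1745 : PrV chk L1745 := leafV c1745

theorem c1746 : lp7 (fun s => chk (uent L1746 s)) 0 = true := by decide +kernel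
theorem p1746 : PrV chk L1746 := leafV c1746

theorem c1747 : lp7 (fun s => chk (uent L1747 s)) 0 = true := by decide +kernel
theorem p1747 : PrV chk L1747 := leafV c1747

theorem c1748 : lp7 (fun s => chk (uent L1748 s)) 0 = true := by decide +kernel
theorem p1748 : PrV chk L1748 := leafV c1748

theorem c1749 : lp7 (fun s => chk (uent L1749 s)) 0 = true := by decide +kernel
theorem p1749 : PrV chk L1749 := leafV c1749

theorem c1750 : lp7 (fun s => chk (uent L1750 s)) 0 = true := by decide +kernel
theorem p1750 : PrV chk L1750 := leafV c1750

theorem c1751 : lp7 (fun s => chk (uent L1751 s)) 0 = true := by decide +kernel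
theorem p1751 : PrV chk L1751 := leafV c1751

theorem c1752 : lp7 (fun s => chk (uent L1752 s)) 0 = true := by decide +kernel
theorem p1752 : PrV chk L1752 := leafV c1752

theorem c1753 : lp7 (fun s => chk (uent L1753 s)) 0 = true := by decide +kernel
theorem p1753 : PrV chk L1753 := leafV c1753

theorem c1754 : lp7 (fun s => chk (uent L1754 s)) 0 = true := by decide +kernel
theorem p1754 : PrV chk L1754 := leafV c1754

theorem c1755 : lp7 (fun s => chk (uent L1755 s)) 0 = true := by decide +kernel
theorem p1755 : PrV chk L1755 := leafV c1755

theorem c1756 : lp7 (fun s => chk (uent L1756 s)) 0 = true := by decide +kernel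
theorem p1756 : PrV chk L1756 := leafV c1756

theorem c1757 : lp7 (fun s => chk (uent L1757 s)) 0 = true := by decide +kernel
theorem p1757 : PrV chk L1757 := leafV c1757

theorem c1758 : lp7 (fun s => chk (uent L1758 s)) 0 = true := by decide +kernel
theorem p1758 : PrV chk L1758 := leafV c1758

theorem c1759 : lp7 (fun s => chk (uent L1759 s)) 0 = true := by decide +kernel
theorem p1759 : PrV chk L1759 := leafV c1759

theorem c1760 : lp7 (fun s => chk (uent L1760 s)) 0 = true := by decide +kernel
theorem p1760 : PrV chk L1760 := leafV c1760

theorem c1761 : lp7 (fun s => chk (uent L1761 s)) 0 = true := by decide +kernel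
theorem p1761 : PrV chk L1761 := leafV c1761

theorem c1762 : lp7 (fun s => chk (uent L1762 s)) 0 = true := by decide +kernel
theorem p1762 : PrV chk L1762 := leafV c1762

theorem c1763 : lp7 (fun s => chk (uent L1763 s)) 0 = true := by decide +kernel
theorem p1763 : PrV chk L1763 := leafV c1763

theorem c1764 : lp7 (fun s => chk (uent L1764 s)) 0 = true := by decide +kernel
theorem p1764 : PrV chk L1764 := leafV c1764

theorem c1765 : lp7 (fun s => chk (uent L1765 s)) 0 = true := by decide +kernel
theorem p1765 : PrV chk L1765 := leafV c1765

theorem c1766 : lp7 (fun s => chk (uent L1766 s)) 0 = true := by decide +kernel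
theorem p1766 : PrV chk L1766 := leafV c1766

theorem c1767 : lp7 (fun s => chk (uent L1767 s)) 0 = true := by decide +kernel
theorem p1767 : PrV chk L1767 := leafV c1767

theorem c1768 : lp7 (fun s => chk (uent L1768 s)) 0 = true := by decide +kernel
theorem p1768 : PrV chk L1768 := leafV c1768

theorem c1769 : lp7 (fun s => chk (uent L1769 s)) 0 = true := by decide +kernel
theorem p1769 : PrV chk L1769 := leafV c1769

theorem c1770 : lp7 (fun s => chk (uent L1770 s)) 0 = true := by decide +kernel
theorem p1770 : PrV chk L1770 := leafV c1770

theorem c1771 : lp7 (fun s => chk (uent L1771 s)) 0 = true := by decide +kernel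
theorem p1771 : PrV chk L1771 := leafV c1771

theorem c1772 : lp7 (fun s => chk (uent L1772 s)) 0 = true := by decide +kernel
theorem p1772 : PrV chk L1772 := leafV c1772

theorem c1773 : lp7 (fun s => chk (uent L1773 s)) 0 = true := by decide +kernel
theorem p1773 : PrV chk L1773 := leafV c1773

theorem c1774 : lp7 (fun s => chk (uent L1774 s)) 0 = true := by decide +kernel
theorem p1774 : PrV chk L1774 := leafV c1774

theorem c1775 : lp7 (fun s => chk (uent L1775 s)) 0 = true := by decide +kernel
theorem p1775 : PrV chk L1775 := leafV c1775

theorem c1776 : lp7 (fun s => chk (uent L1776 s)) 0 = true := by decide +kernel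
theorem p1776 : PrV chk L1776 := leafV c1776

theorem c1777 : lp7 (fun s => chk (uent L1777 s)) 0 = true := by decide +kernel
theorem p1777 : PrV chk L1777 := leafV c1777

theorem c1778 : lp7 (fun s => chk (uent L1778 s)) 0 = true := by decide +kernel
theorem p1778 : PrV chk L1778 := leafV c1778

theorem c1779 : lp7 (fun s => chk (uent L1779 s)) 0 = true := by decide +kernel
theorem p1779 : PrV chk L1779 := leafV c1779

theorem c1780 : lp7 (fun s => chk (uent L1780 s)) 0 = true := by decide +kernel
theorem p1780 : PrV chk L1780 := leafV c1780

theorem c1781 : lp7 (fun s => chk (uent L1781 s)) 0 = true := by decide +kernel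
theorem p1781 : PrV chk L1781 := leafV c1781

theorem c1782 : lp7 (fun s => chk (uent L1782 s)) 0 = true := by decide +kernel
theorem p1782 : PrV chk L1782 := leafV c1782

theorem c1783 : lp7 (fun s => chk (uent L1783 s)) 0 = true := by decide +kernel
theorem p1783 : PrV chk L1783 := leafV c1783

theorem c1784 : lp7 (fun s => chk (uent L1784 s)) 0 = true := by decide +kernel
theorem p1784 : PrV chk L1784 := leafV c1784

theorem c1785 : lp7 (fun s => chk (uent L1785 s)) 0 = true := by decide +kernel
theorem p1785 : PrV chk L1785 := leafV c1785

theorem c1786 : lp7 (fun s => chk (uent L1786 s)) 0 = true := by decide +kernel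
theorem p1786 : PrV chk L1786 := leafV c1786

theorem c1787 : lp7 (fun s => chk (uent L1787 s)) 0 = true := by decide +kernel
theorem p1787 : PrV chk L1787 := leafV c1787

theorem c1788 : lp7 (fun s => chk (uent L1788 s)) 0 = true := by decide +kernel
theorem p1788 : PrV chk L1788 := leafV c1788

theorem c1789 : lp7 (fun s => chk (uent L1789 s)) 0 = true := by decide +kernel
theorem p1789 : PrV chk L1789 := leafV c1789

theorem c1790 : lp7 (fun s => chk (uent L1790 s)) 0 = true := by decide +kernel
theorem p1790 : PrV chk L1790 := leafV c1790

theorem c1791 : lp7 (fun s => chk (uent L1791 s)) 0 = true := by decide +kernel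
theorem p1791 : PrV chk L1791 := leafV c1791

theorem c1792 : lp7 (fun s => chk (uent L1792 s)) 0 = true := by decide +kernel
theorem p1792 : PrV chk L1792 := leafV c1792

theorem c1793 : lp7 (fun s => chk (uent L1793 s)) 0 = true := by decide +kernel
theorem p1793 : PrV chk L1793 := leafV c1793

theorem c1794 : lp7 (fun s => chk (uent L1794 s)) 0 = true := by decide +kernel
theorem p1794 : PrV chk L1794 := leafV c1794

theorem c1795 : lp7 (fun s => chk (uent L1795 s)) 0 = true := by decide +kernel
theorem p1795 : PrV chk L1795 := leafV c1795

theorem c1796 : lp7 (fun s => chk (uent L1796 s)) 0 = true := by decide +kernel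
theorem p1796 : PrV chk L1796 := leafV c1796

theorem c1797 : lp7 (fun s => chk (uent L1797 s)) 0 = true := by decide +kernel
theorem p1797 : PrV chk L1797 := leafV c1797

theorem c1798 : lp7 (fun s => chk (uent L1798 s)) 0 = true := by decide +kernel
theorem p1798 : PrV chk L1798 := leafV c1798

theorem c1799 : lp7 (fun s => chk (uent L1799 s)) 0 = true := by decide +kernel
theorem p1799 : PrV chk L1799 := leafV c1799

theorem c1800 : lp7 (fun s => chk (uent L1800 s)) 0 = true := by decide +kernel
theorem p1800 : PrV chk L1800 := leafV c1800

theorem c1801 : lp7 (fun s => chk (uent L1801 s)) 0 = true := by decide +kernel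
theorem p1801 : PrV chk L1801 := leafV c1801

theorem c1802 : lp7 (fun s => chk (uent L1802 s)) 0 = true := by decide +kernel
theorem p1802 : PrV chk L1802 := leafV c1802

theorem c1803 : lp7 (fun s => chk (uent L1803 s)) 0 = true := by decide +kernel
theorem p1803 : PrV chk L1803 := leafV c1803

theorem c1804 : lp7 (fun s => chk (uent L1804 s)) 0 = true := by decide +kernel
theorem p1804 : PrV chk L1804 := leafV c1804

theorem c1805 : lp7 (fun s => chk (uent L1805 s)) 0 = true := by decide +kernel
theorem p1805 : PrV chk L1805 := leafV c1805

theorem c1806 : lp7 (fun s => chk (uent L1806 s)) 0 = true := by decide +kernel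
theorem p1806 : PrV chk L1806 := leafV c1806

theorem c1807 : lp7 (fun s => chk (uent L1807 s)) 0 = true := by decide +kernel
theorem p1807 : PrV chk L1807 := leafV c1807

theorem c1808 : lp7 (fun s => chk (uent L1808 s)) 0 = true := by decide +kernel
theorem p1808 : PrV chk L1808 := leafV c1808

theorem c1809 : lp7 (fun s => chk (uent L1809 s)) 0 = true := by decide +kernel
theorem p1809 : PrV chk L1809 := leafV c1809

theorem c1810 : lp7 (fun s => chk (uent L1810 s)) 0 = true := by decide +kernel
theorem p1810 : PrV chk L1810 := leafV c1810

theorem c1811 : lp7 (fun s => chk (uent L1811 s)) 0 = true := by decide +kernel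
theorem p1811 : PrV chk L1811 := leafV c1811

theorem c1812 : lp7 (fun s => chk (uent L1812 s)) 0 = true := by decide +kernel
theorem p1812 : PrV chk L1812 := leafV c1812

theorem c1813 : lp7 (fun s => chk (uent L1813 s)) 0 = true := by decide +kernel
theorem p1813 : PrV chk L1813 := leafV c1813

theorem c1814 : lp7 (fun s => chk (uent L1814 s)) 0 = true := by decide +kernel
theorem p1814 : PrV chk L1814 := leafV c1814

theorem c1815 : lp7 (fun s => chk (uent L1815 s)) 0 = true := by decide +kernel
theorem p1815 : PrV chk L1815 := leafV c1815

theorem c1816 : lp7 (fun s => chk (uent L1816 s)) 0 = true := by decide +kernel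
theorem p1816 : PrV chk L1816 := leafV c1816

theorem c1817 : lp7 (fun s => chk (uent L1817 s)) 0 = true := by decide +kernel
theorem p1817 : PrV chk L1817 := leafV c1817

theorem c1818 : lp7 (fun s => chk (uent L1818 s)) 0 = true := by decide +kernel
theorem p1818 : PrV chk L1818 := leafV c1818

theorem c1819 : lp7 (fun s => chk (uent L1819 s)) 0 = true := by decide +kernel
theorem p1819 : PrV chk L1819 := leafV c1819

theorem c1820 : lp7 (fun s => chk (uent L1820 s)) 0 = true := by decide +kernel
theorem p1820 : PrV chk L1820 := leafV c1820

theorem c1821 : lp7 (fun s => chk (uent L1821 s)) 0 = true := by decide +kernel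
theorem p1821 : PrV chk L1821 := leafV c1821

theorem c1822 : lp7 (fun s => chk (uent L1822 s)) 0 = true := by decide +kernel
theorem p1822 : PrV chk L1822 := leafV c1822

theorem c1823 : lp7 (fun s => chk (uent L1823 s)) 0 = true := by decide +kernel
theorem p1823 : PrV chk L1823 := leafV c1823

theorem c1824 : lp7 (fun s => chk (uent L1824 s)) 0 = true := by decide +kernel
theorem p1824 : PrV chk L1824 := leafV c1824

theorem c1825 : lp7 (fun s => chk (uent L1825 s)) 0 = true := by decide +kernel
theorem p1825 : PrV chk L1825 := leafV c1825

theorem c1826 : lp7 (fun s => chk (uent L1826 s)) 0 = true := by decide +kernel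
theorem p1826 : PrV chk L1826 := leafV c1826

theorem c1827 : lp7 (fun s => chk (uent L1827 s)) 0 = true := by decide +kernel
theorem p1827 : PrV chk L1827 := leafV c1827

theorem c1828 : lp7 (fun s => chk (uent L1828 s)) 0 = true := by decide +kernel
theorem p1828 : PrV chk L1828 := leafV c1828

theorem c1829 : lp7 (fun s => chk (uent L1829 s)) 0 = true := by decide +kernel
theorem p1829 : PrV chk L1829 := leafV c1829

theorem c1830 : lp7 (fun s => chk (uent L1830 s)) 0 = true := by decide +kernel
theorem p1830 : PrV chk L1830 := leafV c1830

theorem c1831 : lp7 (fun s => chk (uent L1831 s)) 0 = true := by decide +kernel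
theorem p1831 : PrV chk L1831 := leafV c1831

theorem c1832 : lp7 (fun s => chk (uent L1832 s)) 0 = true := by decide +kernel
theorem p1832 : PrV chk L1832 := leafV c1832

theorem c1833 : lp7 (fun s => chk (uent L1833 s)) 0 = true := by decide +kernel
theorem p1833 : PrV chk L1833 := leafV c1833

theorem c1834 : lp7 (fun s => chk (uent L1834 s)) 0 = true := by decide +kernel
theorem p1834 : PrV chk L1834 := leafV c1834

theorem c1835 : lp7 (fun s => chk (uent L1835 s)) 0 = true := by decide +kernel
theorem p1835 : PrV chk L1835 := leafV c1835

theorem c1836 : lp7 (fun s => chk (uent L1836 s)) 0 = true := by decide +kernel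
theorem p1836 : PrV chk L1836 := leafV c1836

theorem c1837 : lp7 (fun s => chk (uent L1837 s)) 0 = true := by decide +kernel
theorem p1837 : PrV chk L1837 := leafV c1837

theorem c1838 : lp7 (fun s => chk (uent L1838 s)) 0 = true := by decide +kernel
theorem p1838 : PrV chk L1838 := leafV c1838

theorem c1839 : lp7 (fun s => chk (uent L1839 s)) 0 = true := by decide +kernel
theorem p1839 : PrV chk L1839 := leafV c1839

theorem c1840 : lp7 (fun s => chk (uent L1840 s)) 0 = true := by decide +kernel
theorem p1840 : PrV chk L1840 := leafV c1840

theorem c1841 : lp7 (fun s => chk (uent L1841 s)) 0 = true := by decide +kernel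
theorem p1841 : PrV chk L1841 := leafV c1841

theorem c1842 : lp7 (fun s => chk (uent L1842 s)) 0 = true := by decide +kernel
theorem p1842 : PrV chk L1842 := leafV c1842

theorem c1843 : lp7 (fun s => chk (uent L1843 s)) 0 = true := by decide +kernel
theorem p1843 : PrV chk L1843 := leafV c1843

theorem c1844 : lp7 (fun s => chk (uent L1844 s)) 0 = true := by decide +kernel
theorem p1844 : PrV chk L1844 := leafV c1844

theorem c1845 : lp7 (fun s => chk (uent L1845 s)) 0 = true := by decide +kernel
theorem p1845 : PrV chk L1845 := leafV c1845

theorem c1846 : lp7 (fun s => chk (uent L1846 s)) 0 = true := by decide +kernel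
theorem p1846 : PrV chk L1846 := leafV c1846

theorem c1847 : lp7 (fun s => chk (uent L1847 s)) 0 = true := by decide +kernel
theorem p1847 : PrV chk L1847 := leafV c1847

theorem c1848 : lp7 (fun s => chk (uent L1848 s)) 0 = true := by decide +kernel
theorem p1848 : PrV chk L1848 := leafV c1848

theorem c1849 : lp7 (fun s => chk (uent L1849 s)) 0 = true := by decide +kernel
theorem p1849 : PrV chk L1849 := leafV c1849

theorem c1850 : lp7 (fun s => chk (uent L1850 s)) 0 = true := by decide +kernel
theorem p1850 : PrV chk L1850 := leafV c1850

theorem c1851 : lp7 (fun s => chk (uent L1851 s)) 0 = true := by decide +kernel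
theorem p1851 : PrV chk L1851 := leafV c1851

theorem c1852 : lp7 (fun s => chk (uent L1852 s)) 0 = true := by decide +kernel
theorem p1852 : PrV chk L1852 := leafV c1852

theorem c1853 : lp7 (fun s => chk (uent L1853 s)) 0 = true := by decide +kernel
theorem p1853 : PrV chk L1853 := leafV c1853

theorem c1854 : lp7 (fun s => chk (uent L1854 s)) 0 = true := by decide +kernel
theorem p1854 : PrV chk L1854 := leafV c1854

theorem c1855 : lp7 (fun s => chk (uent L1855 s)) 0 = true := by decide +kernel
theorem p1855 : PrV chk L1855 := leafV c1855

theorem c1856 : lp7 (fun s => chk (uent L1856 s)) 0 = true := by decide +kernel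
theorem p1856 : PrV chk L1856 := leafV c1856

theorem c1857 : lp7 (fun s => chk (uent L1857 s)) 0 = true := by decide +kernel
theorem p1857 : PrV chk L1857 := leafV c1857

theorem c1858 : lp7 (fun s => chk (uent L1858 s)) 0 = true := by decide +kernel
theorem p1858 : PrV chk L1858 := leafV c1858

theorem c1859 : lp7 (fun s => chk (uent L1859 s)) 0 = true := by decide +kernel
theorem p1859 : PrV chk L1859 := leafV c1859

theorem c1860 : lp7 (fun s => chk (uent L1860 s)) 0 = true := by decide +kernel
theorem p1860 : PrV chk L1860 := leafV c1860

theorem c1861 : lp7 (fun s => chk (uent L1861 s)) 0 = true := by decide +kernel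
theorem p1861 : PrV chk L1861 := leafV c1861

theorem c1862 : lp7 (fun s => chk (uent L1862 s)) 0 = true := by decide +kernel
theorem p1862 : PrV chk L1862 := leafV c1862

theorem c1863 : lp7 (fun s => chk (uent L1863 s)) 0 = true := by decide +kernel
theorem p1863 : PrV chk L1863 := leafV c1863

theorem c1864 : lp7 (fun s => chk (uent L1864 s)) 0 = true := by decide +kernel
theorem p1864 : PrV chk L1864 := leafV c1864

theorem c1865 : lp7 (fun s => chk (uent L1865 s)) 0 = true := by decide +kernel
theorem p1865 : PrV chk L1865 := leafV c1865

theorem c1866 : lp7 (fun s => chk (uent L1866 s)) 0 = true := by decide +kernel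
theorem p1866 : PrV chk L1866 := leafV c1866

theorem c1867 : lp7 (fun s => chk (uent L1867 s)) 0 = true := by decide +kernel
theorem p1867 : PrV chk L1867 := leafV c1867

theorem c1868 : lp7 (fun s => chk (uent L1868 s)) 0 = true := by decide +kernel
theorem p1868 : PrV chk L1868 := leafV c1868

theorem c1869 : lp7 (fun s => chk (uent L1869 s)) 0 = true := by decide +kernel
theorem p1869 : PrV chk L1869 := leafV c1869

theorem c1870 : lp7 (fun s => chk (uent L1870 s)) 0 = true := by decide +kernel
theorem p1870 : PrV chk L1870 := leafV c1870

theorem c1871 : lp7 (fun s => chk (uent L1871 s)) 0 = true := by decide +kernel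
theorem p1871 : PrV chk L1871 := leafV c1871

theorem c1872 : lp7 (fun s => chk (uent L1872 s)) 0 = true := by decide +kernel
theorem p1872 : PrV chk L1872 := leafV c1872

theorem c1873 : lp7 (fun s => chk (uent L1873 s)) 0 = true := by decide +kernel
theorem p1873 : PrV chk L1873 := leafV c1873

theorem c1874 : lp7 (fun s => chk (uent L1874 s)) 0 = true := by decide +kernel
theorem p1874 : PrV chk L1874 := leafV c1874

theorem c1875 : lp7 (fun s => chk (uent L1875 s)) 0 = true := by decide +kernel
theorem p1875 : PrV chk L1875 := leafV c1875

theorem c1876 : lp7 (fun s => chk (uent L1876 s)) 0 = true := by decide +kernel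
theorem p1876 : PrV chk L1876 := leafV c1876

theorem c1877 : lp7 (fun s => chk (uent L1877 s)) 0 = true := by decide +kernel
theorem p1877 : PrV chk L1877 := leafV c1877

theorem c1878 : lp7 (fun s => chk (uent L1878 s)) 0 = true := by decide +kernel
theorem p1878 : PrV chk L1878 := leafV c1878

theorem c1879 : lp7 (fun s => chk (uent L1879 s)) 0 = true := by decide +kernel
theorem p1879 : PrV chk L1879 := leafV c1879

theorem c1880 : lp7 (fun s => chk (uent L1880 s)) 0 = true := by decide +kernel
theorem p1880 : PrV chk L1880 := leafV c1880

theorem c1881 : lp7 (fun s => chk (uent L1881 s)) 0 = true := by decide +kernel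
theorem p1881 : PrV chk L1881 := leafV c1881

theorem c1882 : lp7 (fun s => chk (uent L1882 s)) 0 = true := by decide +kernel
theorem p1882 : PrV chk L1882 := leafV c1882

theorem c1883 : lp7 (fun s => chk (uent L1883 s)) 0 = true := by decide +kernel
theorem p1883 : PrV chk L1883 := leafV c1883

theorem c1884 : lp7 (fun s => chk (uent L1884 s)) 0 = true := by decide +kernel
theorem p1884 : PrV chk L1884 := leafV c1884

theorem c1885 : lp7 (fun s => chk (uent L1885 s)) 0 = true := by decide +kernel
theorem p1885 : PrV chk L1885 := leafV c1885

theorem c1886 : lp7 (fun s => chk (uent L1886 s)) 0 = true := by decide +kernel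
theorem p1886 : PrV chk L1886 := leafV c1886

theorem c1887 : lp7 (fun s => chk (uent L1887 s)) 0 = true := by decide +kernel
theorem p1887 : PrV chk L1887 := leafV c1887

theorem c1888 : lp7 (fun s => chk (uent L1888 s)) 0 = true := by decide +kernel
theorem p1888 : PrV chk L1888 := leafV c1888

theorem c1889 : lp7 (fun s => chk (uent L1889 s)) 0 = true := by decide +kernel
theorem p1889 : PrV chk L1889 := leafV c1889

theorem c1890 : lp7 (fun s => chk (uent L1890 s)) 0 = true := by decide +kernel
theorem p1890 : PrV chk L1890 := leafV c1890

theorem c1891 : lp7 (fun s => chk (uent L1891 s)) 0 = true := by decide +kernel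
theorem p1891 : PrV chk L1891 := leafV c1891

theorem c1892 : lp7 (fun s => chk (uent L1892 s)) 0 = true := by decide +kernel
theorem p1892 : PrV chk L1892 := leafV c1892

theorem c1893 : lp7 (fun s => chk (uent L1893 s)) 0 = true := by decide +kernel
theorem p1893 : PrV chk L1893 := leafV c1893

theorem c1894 : lp7 (fun s => chk (uent L1894 s)) 0 = true := by decide +kernel
theorem p1894 : PrV chk L1894 := leafV c1894

theorem c1895 : lp7 (fun s => chk (uent L1895 s)) 0 = true := by decide +kernel
theorem p1895 : PrV chk L1895 := leafV c1895

theorem c1896 : lp7 (fun s => chk (uent L1896 s)) 0 = true := by decide +kernel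
theorem p1896 : PrV chk L1896 := leafV c1896

theorem c1897 : lp7 (fun s => chk (uent L1897 s)) 0 = true := by decide +kernel
theorem p1897 : PrV chk L1897 := leafV c1897

theorem c1898 : lp7 (fun s => chk (uent L1898 s)) 0 = true := by decide +kernel
theorem p1898 : PrV chk L1898 := leafV c1898

theorem c1899 : lp7 (fun s => chk (uent L1899 s)) 0 = true := by decide +kernel
theorem p1899 : PrV chk L1899 := leafV c1899

theorem c1900 : lp7 (fun s => chk (uent L1900 s)) 0 = true := by decide +kernel
theorem p1900 : PrV chk L1900 := leafV c1900

theorem c1901 : lp7 (fun s => chk (uent L1901 s)) 0 = true := by decide +kernel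
theorem p1901 : PrV chk L1901 := leafV c1901

theorem c1902 : lp7 (fun s => chk (uent L1902 s)) 0 = true := by decide +kernel
theorem p1902 : PrV chk L1902 := leafV c1902

theorem c1903 : lp7 (fun s => chk (uent L1903 s)) 0 = true := by decide +kernel
theorem p1903 : PrV chk L1903 := leafV c1903

theorem c1904 : lp7 (fun s => chk (uent L1904 s)) 0 = true := by decide +kernel
theorem p1904 : PrV chk L1904 := leafV c1904

theorem c1905 : lp7 (fun s => chk (uent L1905 s)) 0 = true := by decide +kernel
theorem p1905 : PrV chk L1905 := leafV c1905

theorem c1906 : lp7 (fun s => chk (uent L1906 s)) 0 = true := by decide +kernel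
theorem p1906 : PrV chk L1906 := leafV c1906

theorem c1907 : lp7 (fun s => chk (uent L1907 s)) 0 = true := by decide +kernel
theorem p1907 : PrV chk L1907 := leafV c1907

theorem c1908 : lp7 (fun s => chk (uent L1908 s)) 0 = true := by decide +kernel
theorem p1908 : PrV chk L1908 := leafV c1908

theorem c1909 : lp7 (fun s => chk (uent L1909 s)) 0 = true := by decide +kernel
theorem p1909 : PrV chk L1909 := leafV c1909

theorem c1910 : lp7 (fun s => chk (uent L1910 s)) 0 = true := by decide +kernel
theorem p1910 : PrV chk L1910 := leafV c1910

theorem c1911 : lp7 (fun s => chk (uent L1911 s)) 0 = true := by decide +kernel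
theorem p1911 : PrV chk L1911 := leafV c1911

theorem c1912 : lp7 (fun s => chk (uent L1912 s)) 0 = true := by decide +kernel
theorem p1912 : PrV chk L1912 := leafV c1912

theorem c1913 : lp7 (fun s => chk (uent L1913 s)) 0 = true := by decide +kernel
theorem p1913 : PrV chk L1913 := leafV c1913

theorem c1914 : lp7 (fun s => chk (uent L1914 s)) 0 = true := by decide +kernel
theorem p1914 : PrV chk L1914 := leafV c1914

theorem c1915 : lp7 (fun s => chk (uent L1915 s)) 0 = true := by decide +kernel
theorem p1915 : PrV chk L1915 := leafV c1915

theorem c1916 : lp7 (fun s => chk (uent L1916 s)) 0 = true := by decide +kernel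
theorem p1916 : PrV chk L1916 := leafV c1916

theorem c1917 : lp7 (fun s => chk (uent L1917 s)) 0 = true := by decide +kernel
theorem p1917 : PrV chk L1917 := leafV c1917

theorem c1918 : lp7 (fun s => chk (uent L1918 s)) 0 = true := by decide +kernel
theorem p1918 : PrV chk L1918 := leafV c1918

theorem c1919 : lp7 (fun s => chk (uent L1919 s)) 0 = true := by decide +kernel
theorem p1919 : PrV chk L1919 := leafV c1919

end Pool.Agent.ad013a.W
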