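import Pool.Agent.H.MP_ad013a_pr.h63w.A.C0
import Pool.Agent.H.MP_ad013a_pr.h63w.A.C1
import Pool.Agent.H.MP_ad013a_pr.h63w.A.C2
import Pool.Agent.H.MP_ad013a_pr.h63w.A.C3
import Pool.Agent.H.MP_ad013a_pr.h63w.A.C4
import Pool.Agent.H.MP_ad013a_pr.h63w.A.C5
import Pool.Agent.H.MP_ad013a_pr.h63w.A.C6
import Pool.Agent.H.MP_ad013a_pr.h63w.A.C7
import Pool.Agent.H.MP_ad013a_pr.h63w.A.C8
import Pool.Agent.H.MP_ad013a_pr.h63w.A.C9
import Pool.Agent.H.MP_ad013a_pr.h63w.A.C10
import Pool.Agent.H.MP_ad013a_pr.h63w.A.C11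
import Pool.Agent.H.MP_ad013a_pr.h63w.A.C12
import Pool.Agent.H.MP_ad013a_pr.h63w.A.C13
import Pool.Agent.H.MP_ad013a_pr.h63w.A.C14
import Pool.Agent.H.MP_ad013a_pr.h63w.A.C15
import Pool.Agent.H.MP_ad013a_pr.h63w.A.C16
import Pool.Agent.H.MP_ad013a_pr.h63w.A.C17
import Pool.Agent.H.MP_ad013a_pr.h63w.A.C18
import Pool.Agent.H.MP_ad013a_pr.h63w.A.C19
import Pool.Agent.H.MP_ad013a_pr.h63w.A.C20
import Pool.Agent.H.MP_ad013a_pr.h63w.A.C21
import Pool.Agent.H.MP_ad013a_pr.h63w.A.C22
import Pool.Agent.H.MP_ad013a_pr.h63w.A.C23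
import Pool.Agent.H.MP_ad013a_pr.h63w.A.C24
import Pool.Agent.H.MP_ad013a_pr.h63w.A.C25
import Pool.Agent.H.MP_ad013a_pr.h63w.A.C26
import Pool.Agent.H.MP_ad013a_pr.h63w.A.C27
import Pool.Agent.H.MP_ad013a_pr.h63w.A.C28
import Pool.Agent.H.MP_ad013a_pr.h63w.A.C29
import Pool.Agent.H.MP_ad013a_pr.h63w.A.C30
import Pool.Agent.H.MP_ad013a_pr.h63w.A.C31
import Pool.Agent.H.MP_ad013a_pr.h63w.A.C32
import Pool.Agent.H.MP_ad013a_pr.h63w.A.C33
import Pool.Agent.H.MP_ad013a_pr.h63w.A.C34
import Pool.Agent.H.MP_ad013a_pr.h63w.A.C35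
import Pool.Agent.H.MP_ad013a_pr.h63w.A.C36
import Pool.Agent.H.MP_ad013a_pr.h63w.A.C37

namespace Pool.Agent.ad013a.W

theorem A0_0_ok (i : Nat) : PrV chk (A0_0 i) := by
 unfold A0_0
 exact
 (brec_all (PrV chk)
 (brec_all (PrV chk)
  (brec_all (PrV chk)
   (brec_all (PrV chk)
    p0
    p1)
   (brec_all (PrV chk)
    p2
    p3))
  (brec_all (PrV chk)
   (brec_all (PrV chk)
    p4
    p5)
   (brec_all (PrV chk)
    p6
    p7)))
 (brec_all (PrV chk)
  (brec_all (PrV chk)
   (brec_all (PrV chk)
    p8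
    p9)
   (brec_all (PrV chk)
    p10
    p11))
  (brec_all (PrV chk)
   (brec_all (PrV chk)
    p12
    p13)
   (brec_all (PrV chk)
    p14
    p15))))

theorem A0_1_ok (i : Nat) : PrV chk (A0_1 i) := by
 unfold A0_1
 exact
 (brec_all (PrV chk)
 (brec_all (PrV chk)
  (brec_all (PrV chk)
   (brec_all (PrV chk)
    p16
    p17)
   (brec_all (PrV chk)
    p18
    p19))
  (brec_all (PrV chk)
   (brec_all (PrV chk)
    p20
    p21)
   (brec_all (PrV chk)
    p22
    p23)))
 (brec_all (PrV chk)
  (brec_all (PrV chk)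
   (brec_all (PrV chk)
    p24
    p25)
   (brec_all (PrV chk)
    p26
    p27))
  (brec_all (PrV chk)
   (brec_all (PrV chk)
    p28
    p29)
   (brec_all (PrV chk)
    p30
    p31))))

theorem A0_2_ok (i : Nat) : PrV chk (A0_2 i) := by
 unfold A0_2
 exact
 (brec_all (PrV chk)
 (brec_all (PrV chk)
  (brec_all (PrV chk)
   (brec_all (PrV chk)
    p32
    p33)
   (brec_all (PrV chk)
    p34
    p35))
  (brec_all (PrV chk)
   (brec_all (PrV chk)
    p36
    p37)
   (brec_all (PrV chk)
    p38
    p39)))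
 (brec_all (PrV chk)
  (brec_all (PrV chk)
   (brec_all (PrV chk)
    p40
    p41)
   (brec_all (PrV chk)
    p42
    p43))
  (brec_all (PrV chk)
   (brec_all (PrV chk)
    p44
    p45)
   (brec_all (PrV chk)
    p46
    p47))))

theorem A0_3_ok (i : Nat) : PrV chk (A0_3 i) := by
 unfold A0_3
 exact
 (brec_all (PrV chk)
 (brec_all (PrV chk)
  (brec_all (PrV chk)
   (brec_all (PrV chk)
    p48
    p49)
   (brec_all (PrV chk)
    p50
    p51))
  (brec_all (PrV chk)
   (brec_all (PrV chk)
    p52
    p53)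
   (brec_all (PrV chk)
    p54
    p55)))
 (brec_all (PrV chk)
  (brec_all (PrV chk)
   (brec_all (PrV chk)
    p56
    p57)
   (brec_all (PrV chk)
    p58
    p59))
  (brec_all (PrV chk)
   (brec_all (PrV chk)
    p60
    p61)
   (brec_all (PrV chk)
    p62
    p63))))

theorem A0_4_ok (i : Nat) : PrV chk (A0_4 i) := by
 unfold A0_4
 exact
 (brec_all (PrV chk)
 (brec_all (PrV chk)
  (brec_all (PrV chk)
   (brec_all (PrV chk)
    p64
    p65)
   (brec_all (PrV chk)
    p66
    p67))
  (brec_all (PrV chk)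
   (brec_all (PrV chk)
    p68
    p69)
   (brec_all (PrV chk)
    p70
    p71)))
 (brec_all (PrV chk)
  (brec_all (PrV chk)
   (brec_all (PrV chk)
    p72
    p73)
   (brec_all (PrV chk)
    p74
    p75))
  (brec_all (PrV chk)
   (brec_all (PrV chk)
    p76
    p77)
   (brec_all (PrV chk)
    p78
    p79))))

theorem A0_5_ok (i : Nat) : PrV chk (A0_5 i) := by
 unfold A0_5
 exact
 (brec_all (PrV chk)
 (brec_all (PrV chk)
  (brec_all (PrV chk)
   (brec_all (PrV chk)
    p80
    p81)
   (brec_all (PrV chk)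
    p82
    p83))
  (brec_all (PrV chk)
   (brec_all (PrV chk)
    p84
    p85)
   (brec_all (PrV chk)
    p86
    p87)))
 (brec_all (PrV chk)
  (brec_all (PrV chk)
   (brec_all (PrV chk)
    p88
    p89)
   (brec_all (PrV chk)
    p90
    p91))
  (brec_all (PrV chk)
   (brec_all (PrV chk)
    p92
    p93)
   (brec_all (PrV chk)
    p94
    p95))))

theorem A0_6_ok (i : Nat) : PrV chk (A0_6 i) := by
 unfold A0_6
 exact
 (brec_all (PrV chk)
 (brec_all (PrV chk)
  (brec_all (PrV chk)
   (brec_all (PrV chk)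
    p96
    p97)
   (brec_all (PrV chk)
    p98
    p99))
  (brec_all (PrV chk)
   (brec_all (PrV chk)
    p100
    p101)
   (brec_all (PrV chk)
    p102
    p103)))
 (brec_all (PrV chk)
  (brec_all (PrV chk)
   (brec_all (PrV chk)
    p104
    p105)
   (brec_all (PrV chk)
    p106
    p107))
  (brec_all (PrV chk)
   (brec_all (PrV chk)
    p108
    p109)
   (brec_all (PrV chk)
    p110
    p111))))

theorem A0_7_ok (i : Nat) : PrV chk (A0_7 i) := by
 unfold A0_7
 exact
 (brec_all (PrV chk)
 (brec_all (PrV chk)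
  (brec_all (PrV chk)
   (brec_all (PrV chk)
    p112
    p113)
   (brec_all (PrV chk)
    p114
    p115))
  (brec_all (PrV chk)
   (brec_all (PrV chk)
    p116
    p117)
   (brec_all (PrV chk)
    p118
    p119)))
 (brec_all (PrV chk)
  (brec_all (PrV chk)
   (brec_all (PrV chk)
    p120
    p121)
   (brec_all (PrV chk)
    p122
    p123))
  (brec_all (PrV chk)
   (brec_all (PrV chk)
    p124
    p125)
   (brec_all (PrV chk)
    p126
    p127))))

theorem A0_8_ok (i : Nat) : PrV chk (A0_8 i) := by
 unfold A0_8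
 exact
 (brec_all (PrV chk)
 (brec_all (PrV chk)
  (brec_all (PrV chk)
   (brec_all (PrV chk)
    p128
    p129)
   (brec_all (PrV chk)
    p130
    p131))
  (brec_all (PrV chk)
   (brec_all (PrV chk)
    p132
    p133)
   (brec_all (PrV chk)
    p134
    p135)))
 (brec_all (PrV chk)
  (brec_all (PrV chk)
   (brec_all (PrV chk)
    p136
    p137)
   (brec_all (PrV chk)
    p138
    p139))
  (brec_all (PrV chk)
   (brec_all (PrV chk)
    p140
    p141)
   (brec_all (PrV chk)
    p142
    p143))))

theorem A0_9_ok (i : Nat) : PrV chk (A0_9 i) := by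
 unfold A0_9
 exact
 (brec_all (PrV chk)
 (brec_all (PrV chk)
  (brec_all (PrV chk)
   (brec_all (PrV chk)
    p144
    p145)
   (brec_all (PrV chk)
    p146
    p147))
  (brec_all (PrV chk)
   (brec_all (PrV chk)
    p148
    p149)
   (brec_all (PrV chk)
    p150
    p151)))
 (brec_all (PrV chk)
  (brec_all (PrV chk)
   (brec_all (PrV chk)
    p152
    p153)
   (brec_all (PrV chk)
    p154
    p155))
  (brec_all (PrV chk)
   (brec_all (PrV chk)
    p156
    p157)
   (brec_all (PrV chk)
    p158
    p159))))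

theorem A0_10_ok (i : Nat) : PrV chk (A0_10 i) := by
 unfold A0_10
 exact
 (brec_all (PrV chk)
 (brec_all (PrV chk)
  (brec_all (PrV chk)
   (brec_all (PrV chk)
    p160
    p161)
   (brec_all (PrV chk)
    p162
    p163))
  (brec_all (PrV chk)
   (brec_all (PrV chk)
    p164
    p165)
   (brec_all (PrV chk)
    p166
    p167)))
 (brec_all (PrV chk)
  (brec_all (PrV chk)
   (brec_all (PrV chk)
    p168
    p169)
   (brec_all (PrV chk)
    p170
    p171))
  (brec_all (PrV chk)
   (brec_all (PrV chk)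
    p172
    p173)
   (brec_all (PrV chk)
    p174
    p175))))

theorem A0_11_ok (i : Nat) : PrV chk (A0_11 i) := by
 unfold A0_11
 exact
 (brec_all (PrV chk)
 (brec_all (PrV chk)
  (brec_all (PrV chk)
   (brec_all (PrV chk)
    p176
    p177)
   (brec_all (PrV chk)
    p178
    p179))
  (brec_all (PrV chk)
   (brec_all (PrV chk)
    p180
    p181)
   (brec_all (PrV chk)
    p182
    p183)))
 (brec_all (PrV chk)
  (brec_all (PrV chk)
   (brec_all (PrV chk)
    p184
    p185)
   (brec_all (PrV chk)
    p186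
    p187))
  (brec_all (PrV chk)
   (brec_all (PrV chk)
    p188
    p189)
   (brec_all (PrV chk)
    p190
    p191))))

theorem A0_12_ok (i : Nat) : PrV chk (A0_12 i) := by
 unfold A0_12
 exact
 (brec_all (PrV chk)
 (brec_all (PrV chk)
  (brec_all (PrV chk)
   (brec_all (PrV chk)
    p192
    p193)
   (brec_all (PrV chk)
    p194
    p195))
  (brec_all (PrV chk)
   (brec_all (PrV chk)
    p196
    p197)
   (brec_all (PrV chk)
    p198
    p199)))
 (brec_all (PrV chk)
  (brec_all (PrV chk)
   (brec_all (PrV chk)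
    p200
    p201)
   (brec_all (PrV chk)
    p202
    p203))
  (brec_all (PrV chk)
   (brec_all (PrV chk)
    p204
    p205)
   (brec_all (PrV chk)
    p206
    p207))))

theorem A0_13_ok (i : Nat) : PrV chk (A0_13 i) := by
 unfold A0_13
 exact
 (brec_all (PrV chk)
 (brec_all (PrV chk)
  (brec_all (PrV chk)
   (brec_all (PrV chk)
    p208
    p209)
   (brec_all (PrV chk)
    p210
    p211))
  (brec_all (PrV chk)
   (brec_all (PrV chk)
    p212
    p213)
   (brec_all (PrV chk)
    p214
    p215)))
 (brec_all (PrV chk)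
  (brec_all (PrV chk)
   (brec_all (PrV chk)
    p216
    p217)
   (brec_all (PrV chk)
    p218
    p219))
  (brec_all (PrV chk)
   (brec_all (PrV chk)
    p220
    p221)
   (brec_all (PrV chk)
    p222
    p223))))

theorem A0_14_ok (i : Nat) : PrV chk (A0_14 i) := by
 unfold A0_14
 exact
 (brec_all (PrV chk)
 (brec_all (PrV chk)
  (brec_all (PrV chk)
   (brec_all (PrV chk)
    p224
    p225)
   (brec_all (PrV chk)
    p226
    p227))
  (brec_all (PrV chk)
   (brec_all (PrV chk)
    p228
    p229)
   (brec_all (PrV chk)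
    p230
    p231)))
 (brec_all (PrV chk)
  (brec_all (PrV chk)
   (brec_all (PrV chk)
    p232
    p233)
   (brec_all (PrV chk)
    p234
    p235))
  (brec_all (PrV chk)
   (brec_all (PrV chk)
    p236
    p237)
   (brec_all (PrV chk)
    p238
    p239))))

theorem A0_15_ok (i : Nat) : PrV chk (A0_15 i) := by
 unfold A0_15
 exact
 (brec_all (PrV chk)
 (brec_all (PrV chk)
  (brec_all (PrV chk)
   (brec_all (PrV chk)
    p240
    p241)
   (brec_all (PrV chk)
    p242
    p243))
  (brec_all (PrV chk)
   (brec_all (PrV chk)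
    p244
    p245)
   (brec_all (PrV chk)
    p246
    p247)))
 (brec_all (PrV chk)
  (brec_all (PrV chk)
   (brec_all (PrV chk)
    p248
    p249)
   (brec_all (PrV chk)
    p250
    p251))
  (brec_all (PrV chk)
   (brec_all (PrV chk)
    p252
    p253)
   (brec_all (PrV chk)
    p254
    p255))))

theorem A0_16_ok (i : Nat) : PrV chk (A0_16 i) := by
 unfold A0_16
 exact
 (brec_all (PrV chk)
 (brec_all (PrV chk)
  (brec_all (PrV chk)
   (brec_all (PrV chk)
    p256
    p257)
   (brec_all (PrV chk)
    p258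
    p259))
  (brec_all (PrV chk)
   (brec_all (PrV chk)
    p260
    p261)
   (brec_all (PrV chk)
    p262
    p263)))
 (brec_all (PrV chk)
  (brec_all (PrV chk)
   (brec_all (PrV chk)
    p264
    p265)
   (brec_all (PrV chk)
    p266
    p267))
  (brec_all (PrV chk)
   (brec_all (PrV chk)
    p268
    p269)
   (brec_all (PrV chk)
    p270
    p271))))

theorem A0_17_ok (i : Nat) : PrV chk (A0_17 i) := by
 unfold A0_17
 exact
 (brec_all (PrV chk)
 (brec_all (PrV chk)
  (brec_all (PrV chk)
   (brec_all (PrV chk)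
    p272
    p273)
   (brec_all (PrV chk)
    p274
    p275))
  (brec_all (PrV chk)
   (brec_all (PrV chk)
    p276
    p277)
   (brec_all (PrV chk)
    p278
    p279)))
 (brec_all (PrV chk)
  (brec_all (PrV chk)
   (brec_all (PrV chk)
    p280
    p281)
   (brec_all (PrV chk)
    p282
    p283))
  (brec_all (PrV chk)
   (brec_all (PrV chk)
    p284
    p285)
   (brec_all (PrV chk)
    p286
    p287))))

theorem A0_18_ok (i : Nat) : PrV chk (A0_18 i) := by
 unfold A0_18
 exact
 (brec_all (PrV chk)
 (brec_all (PrV chk)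
  (brec_all (PrV chk)
   (brec_all (PrV chk)
    p288
    p289)
   (brec_all (PrV chk)
    p290
    p291))
  (brec_all (PrV chk)
   (brec_all (PrV chk)
    p292
    p293)
   (brec_all (PrV chk)
    p294
    p295)))
 (brec_all (PrV chk)
  (brec_all (PrV chk)
   (brec_all (PrV chk)
    p296
    p297)
   (brec_all (PrV chk)
    p298
    p299))
  (brec_all (PrV chk)
   (brec_all (PrV chk)
    p300
    p301)
   (brec_all (PrV chk)
    p302
    p303))))

theorem A0_19_ok (i : Nat) : PrV chk (A0_19 i) := by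
 unfold A0_19
 exact
 (brec_all (PrV chk)
 (brec_all (PrV chk)
  (brec_all (PrV chk)
   (brec_all (PrV chk)
    p304
    p305)
   (brec_all (PrV chk)
    p306
    p307))
  (brec_all (PrV chk)
   (brec_all (PrV chk)
    p308
    p309)
   (brec_all (PrV chk)
    p310
    p311)))
 (brec_all (PrV chk)
  (brec_all (PrV chk)
   (brec_all (PrV chk)
    p312
    p313)
   (brec_all (PrV chk)
    p314
    p315))
  (brec_all (PrV chk)
   (brec_all (PrV chk)
    p316
    p317)
   (brec_all (PrV chk)
    p318
    p319))))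

theorem A0_20_ok (i : Nat) : PrV chk (A0_20 i) := by
 unfold A0_20
 exact
 (brec_all (PrV chk)
 (brec_all (PrV chk)
  (brec_all (PrV chk)
   (brec_all (PrV chk)
    p320
    p321)
   (brec_all (PrV chk)
    p322
    p323))
  (brec_all (PrV chk)
   (brec_all (PrV chk)
    p324
    p325)
   (brec_all (PrV chk)
    p326
    p327)))
 (brec_all (PrV chk)
  (brec_all (PrV chk)
   (brec_all (PrV chk)
    p328
    p329)
   (brec_all (PrV chk)
    p330
    p331))
  (brec_all (PrV chk)
   (brec_all (PrV chk)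
    p332
    p333)
   (brec_all (PrV chk)
    p334
    p335))))

theorem A0_21_ok (i : Nat) : PrV chk (A0_21 i) := by
 unfold A0_21
 exact
 (brec_all (PrV chk)
 (brec_all (PrV chk)
  (brec_all (PrV chk)
   (brec_all (PrV chk)
    p336
    p337)
   (brec_all (PrV chk)
    p338
    p339))
  (brec_all (PrV chk)
   (brec_all (PrV chk)
    p340
    p341)
   (brec_all (PrV chk)
    p342
    p343)))
 (brec_all (PrV chk)
  (brec_all (PrV chk)
   (brec_all (PrV chk)
    p344
    p345)
   (brec_all (PrV chk)
    p346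
    p347))
  (brec_all (PrV chk)
   (brec_all (PrV chk)
    p348
    p349)
   (brec_all (PrV chk)
    p350
    p351))))

theorem A0_22_ok (i : Nat) : PrV chk (A0_22 i) := by
 unfold A0_22
 exact
 (brec_all (PrV chk)
 (brec_all (PrV chk)
  (brec_all (PrV chk)
   (brec_all (PrV chk)
    p352
    p353)
   (brec_all (PrV chk)
    p354
    p355))
  (brec_all (PrV chk)
   (brec_all (PrV chk)
    p356
    p357)
   (brec_all (PrV chk)
    p358
    p359)))
 (brec_all (PrV chk)
  (brec_all (PrV chk)
   (brec_all (PrV chk)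
    p360
    p361)
   (brec_all (PrV chk)
    p362
    p363))
  (brec_all (PrV chk)
   (brec_all (PrV chk)
    p364
    p365)
   (brec_all (PrV chk)
    p366
    p367))))

theorem A0_23_ok (i : Nat) : PrV chk (A0_23 i) := by
 unfold A0_23
 exact
 (brec_all (PrV chk)
 (brec_all (PrV chk)
  (brec_all (PrV chk)
   (brec_all (PrV chk)
    p368
    p369)
   (brec_all (PrV chk)
    p370
    p371))
  (brec_all (PrV chk)
   (brec_all (PrV chk)
    p372
    p373)
   (brec_all (PrV chk)
    p374
    p375)))
 (brec_all (PrV chk)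
  (brec_all (PrV chk)
   (brec_all (PrV chk)
    p376
    p377)
   (brec_all (PrV chk)
    p378
    p379))
  (brec_all (PrV chk)
   (brec_all (PrV chk)
    p380
    p381)
   (brec_all (PrV chk)
    p382
    p383))))

theorem A0_24_ok (i : Nat) : PrV chk (A0_24 i) := by
 unfold A0_24
 exact
 (brec_all (PrV chk)
 (brec_all (PrV chk)
  (brec_all (PrV chk)
   (brec_all (PrV chk)
    p384
    p385)
   (brec_all (PrV chk)
    p386
    p387))
  (brec_all (PrV chk)
   (brec_all (PrV chk)
    p388
    p389)
   (brec_all (PrV chk)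
    p390
    p391)))
 (brec_all (PrV chk)
  (brec_all (PrV chk)
   (brec_all (PrV chk)
    p392
    p393)
   (brec_all (PrV chk)
    p394
    p395))
  (brec_all (PrV chk)
   (brec_all (PrV chk)
    p396
    p397)
   (brec_all (PrV chk)
    p398
    p399))))

theorem A0_25_ok (i : Nat) : PrV chk (A0_25 i) := by
 unfold A0_25
 exact
 (brec_all (PrV chk)
 (brec_all (PrV chk)
  (brec_all (PrV chk)
   (brec_all (PrV chk)
    p400
    p401)
   (brec_all (PrV chk)
    p402
    p403))
  (brec_all (PrV chk)
   (brec_all (PrV chk)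
    p404
    p405)
   (brec_all (PrV chk)
    p406
    p407)))
 (brec_all (PrV chk)
  (brec_all (PrV chk)
   (brec_all (PrV chk)
    p408
    p409)
   (brec_all (PrV chk)
    p410
    p411))
  (brec_all (PrV chk)
   (brec_all (PrV chk)
    p412
    p413)
   (brec_all (PrV chk)
    p414
    p415))))

theorem A0_26_ok (i : Nat) : PrV chk (A0_26 i) := by
 unfold A0_26
 exact
 (brec_all (PrV chk)
 (brec_all (PrV chk)
  (brec_all (PrV chk)
   (brec_all (PrV chk)
    p416
    p417)
   (brec_all (PrV chk)
    p418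
    p419))
  (brec_all (PrV chk)
   (brec_all (PrV chk)
    p420
    p421)
   (brec_all (PrV chk)
    p422
    p423)))
 (brec_all (PrV chk)
  (brec_all (PrV chk)
   (brec_all (PrV chk)
    p424
    p425)
   (brec_all (PrV chk)
    p426
    p427))
  (brec_all (PrV chk)
   (brec_all (PrV chk)
    p428
    p429)
   (brec_all (PrV chk)
    p430
    p431))))

theorem A0_27_ok (i : Nat) : PrV chk (A0_27 i) := by
 unfold A0_27
 exact
 (brec_all (PrV chk)
 (brec_all (PrV chk)
  (brec_all (PrV chk)
   (brec_all (PrV chk)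
    p432
    p433)
   (brec_all (PrV chk)
    p434
    p435))
  (brec_all (PrV chk)
   (brec_all (PrV chk)
    p436
    p437)
   (brec_all (PrV chk)
    p438
    p439)))
 (brec_all (PrV chk)
  (brec_all (PrV chk)
   (brec_all (PrV chk)
    p440
    p441)
   (brec_all (PrV chk)
    p442
    p443))
  (brec_all (PrV chk)
   (brec_all (PrV chk)
    p444
    p445)
   (brec_all (PrV chk)
    p446
    p447))))

theorem A0_28_ok (i : Nat) : PrV chk (A0_28 i) := by
 unfold A0_28
 exact
 (brec_all (PrV chk)
 (brec_all (PrV chk)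
  (brec_all (PrV chk)
   (brec_all (PrV chk)
    p448
    p449)
   (brec_all (PrV chk)
    p450
    p451))
  (brec_all (PrV chk)
   (brec_all (PrV chk)
    p452
    p453)
   (brec_all (PrV chk)
    p454
    p455)))
 (brec_all (PrV chk)
  (brec_all (PrV chk)
   (brec_all (PrV chk)
    p456
    p457)
   (brec_all (PrV chk)
    p458
    p459))
  (brec_all (PrV chk)
   (brec_all (PrV chk)
    p460
    p461)
   (brec_all (PrV chk)
    p462
    p463))))

theorem A0_29_ok (i : Nat) : PrV chk (A0_29 i) := by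
 unfold A0_29
 exact
 (brec_all (PrV chk)
 (brec_all (PrV chk)
  (brec_all (PrV chk)
   (brec_all (PrV chk)
    p464
    p465)
   (brec_all (PrV chk)
    p466
    p467))
  (brec_all (PrV chk)
   (brec_all (PrV chk)
    p468
    p469)
   (brec_all (PrV chk)
    p470
    p471)))
 (brec_all (PrV chk)
  (brec_all (PrV chk)
   (brec_all (PrV chk)
    p472
    p473)
   (brec_all (PrV chk)
    p474
    p475))
  (brec_all (PrV chk)
   (brec_all (PrV chk)
    p476
    p477)
   (brec_all (PrV chk)
    p478
    p479))))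

theorem A0_30_ok (i : Nat) : PrV chk (A0_30 i) := by
 unfold A0_30
 exact
 (brec_all (PrV chk)
 (brec_all (PrV chk)
  (brec_all (PrV chk)
   (brec_all (PrV chk)
    p480
    p481)
   (brec_all (PrV chk)
    p482
    p483))
  (brec_all (PrV chk)
   (brec_all (PrV chk)
    p484
    p485)
   (brec_all (PrV chk)
    p486
    p487)))
 (brec_all (PrV chk)
  (brec_all (PrV chk)
   (brec_all (PrV chk)
    p488
    p489)
   (brec_all (PrV chk)
    p490
    p491))
  (brec_all (PrV chk)
   (brec_all (PrV chk)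
    p492
    p493)
   (brec_all (PrV chk)
    p494
    p495))))

theorem A0_31_ok (i : Nat) : PrV chk (A0_31 i) := by
 unfold A0_31
 exact
 (brec_all (PrV chk)
 (brec_all (PrV chk)
  (brec_all (PrV chk)
   (brec_all (PrV chk)
    p496
    p497)
   (brec_all (PrV chk)
    p498
    p499))
  (brec_all (PrV chk)
   (brec_all (PrV chk)
    p500
    p501)
   (brec_all (PrV chk)
    p502
    p503)))
 (brec_all (PrV chk)
  (brec_all (PrV chk)
   (brec_all (PrV chk)
    p504
    p505)
   (brec_all (PrV chk)
    p506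
    p507))
  (brec_all (PrV chk)
   (brec_all (PrV chk)
    p508
    p509)
   (brec_all (PrV chk)
    p510
    p511))))

theorem A0_32_ok (i : Nat) : PrV chk (A0_32 i) := by
 unfold A0_32
 exact
 (brec_all (PrV chk)
 (brec_all (PrV chk)
  (brec_all (PrV chk)
   (brec_all (PrV chk)
    p512
    p513)
   (brec_all (PrV chk)
    p514
    p515))
  (brec_all (PrV chk)
   (brec_all (PrV chk)
    p516
    p517)
   (brec_all (PrV chk)
    p518
    p519)))
 (brec_all (PrV chk)
  (brec_all (PrV chk)
   (brec_all (PrV chk)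
    p520
    p521)
   (brec_all (PrV chk)
    p522
    p523))
  (brec_all (PrV chk)
   (brec_all (PrV chk)
    p524
    p525)
   (brec_all (PrV chk)
    p526
    p527))))

theorem A0_33_ok (i : Nat) : PrV chk (A0_33 i) := by
 unfold A0_33
 exact
 (brec_all (PrV chk)
 (brec_all (PrV chk)
  (brec_all (PrV chk)
   (brec_all (PrV chk)
    p528
    p529)
   (brec_all (PrV chk)
    p530
    p531))
  (brec_all (PrV chk)
   (brec_all (PrV chk)
    p532
    p533)
   (brec_all (PrV chk)
    p534
    p535)))
 (brec_all (PrV chk)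
  (brec_all (PrV chk)
   (brec_all (PrV chk)
    p536
    p537)
   (brec_all (PrV chk)
    p538
    p539))
  (brec_all (PrV chk)
   (brec_all (PrV chk)
    p540
    p541)
   (brec_all (PrV chk)
    p542
    p543))))

theorem A0_34_ok (i : Nat) : PrV chk (A0_34 i) := by
 unfold A0_34
 exact
 (brec_all (PrV chk)
 (brec_all (PrV chk)
  (brec_all (PrV chk)
   (brec_all (PrV chk)
    p544
    p545)
   (brec_all (PrV chk)
    p546
    p547))
  (brec_all (PrV chk)
   (brec_all (PrV chk)
    p548
    p549)
   (brec_all (PrV chk)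
    p550
    p551)))
 (brec_all (PrV chk)
  (brec_all (PrV chk)
   (brec_all (PrV chk)
    p552
    p553)
   (brec_all (PrV chk)
    p554
    p555))
  (brec_all (PrV chk)
   (brec_all (PrV chk)
    p556
    p557)
   (brec_all (PrV chk)
    p558
    p559))))

theorem A0_35_ok (i : Nat) : PrV chk (A0_35 i) := by
 unfold A0_35
 exact
 (brec_all (PrV chk)
 (brec_all (PrV chk)
  (brec_all (PrV chk)
   (brec_all (PrV chk)
    p560
    p561)
   (brec_all (PrV chk)
    p562
    p563))
  (brec_all (PrV chk)
   (brec_all (PrV chk)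
    p564
    p565)
   (brec_all (PrV chk)
    p566
    p567)))
 (brec_all (PrV chk)
  (brec_all (PrV chk)
   (brec_all (PrV chk)
    p568
    p569)
   (brec_all (PrV chk)
    p570
    p571))
  (brec_all (PrV chk)
   (brec_all (PrV chk)
    p572
    p573)
   (brec_all (PrV chk)
    p574
    p575))))

theorem A0_36_ok (i : Nat) : PrV chk (A0_36 i) := by
 unfold A0_36
 exact
 (brec_all (PrV chk)
 (brec_all (PrV chk)
  (brec_all (PrV chk)
   (brec_all (PrV chk)
    p576
    p577)
   (brec_all (PrV chk)
    p578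
    p579))
  (brec_all (PrV chk)
   (brec_all (PrV chk)
    p580
    p581)
   (brec_all (PrV chk)
    p582
    p583)))
 (brec_all (PrV chk)
  (brec_all (PrV chk)
   (brec_all (PrV chk)
    p584
    p585)
   (brec_all (PrV chk)
    p586
    p587))
  (brec_all (PrV chk)
   (brec_all (PrV chk)
    p588
    p589)
   (brec_all (PrV chk)
    p590
    p591))))

theorem A0_37_ok (i : Nat) : PrV chk (A0_37 i) := by
 unfold A0_37
 exact
 (brec_all (PrV chk)
 (brec_all (PrV chk)
  (brec_all (PrV chk)
   (brec_all (PrV chk)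
    p592
    p593)
   (brec_all (PrV chk)
    p594
    p595))
  (brec_all (PrV chk)
   (brec_all (PrV chk)
    p596
    p597)
   (brec_all (PrV chk)
    p598
    p599)))
 (brec_all (PrV chk)
  (brec_all (PrV chk)
   (brec_all (PrV chk)
    p600
    p601)
   (brec_all (PrV chk)
    p602
    p603))
  (brec_all (PrV chk)
   (brec_all (PrV chk)
    p604
    p605)
   (brec_all (PrV chk)
    p606
    p607))))

theorem A0_38_ok (i : Nat) : PrV chk (A0_38 i) := by
 unfold A0_38
 exact
 (brec_all (PrV chk)
 (brec_all (PrV chk)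
  (brec_all (PrV chk)
   (brec_all (PrV chk)
    p608
    p609)
   (brec_all (PrV chk)
    p610
    p611))
  (brec_all (PrV chk)
   (brec_all (PrV chk)
    p612
    p613)
   (brec_all (PrV chk)
    p614
    p615)))
 (brec_all (PrV chk)
  (brec_all (PrV chk)
   (brec_all (PrV chk)
    p616
    p617)
   (brec_all (PrV chk)
    p618
    p619))
  (brec_all (PrV chk)
   (brec_all (PrV chk)
    p620
    p621)
   (brec_all (PrV chk)
    p622
    p623))))

theorem A0_39_ok (i : Nat) : PrV chk (A0_39 i) := by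
 unfold A0_39
 exact
 (brec_all (PrV chk)
 (brec_all (PrV chk)
  (brec_all (PrV chk)
   (brec_all (PrV chk)
    p624
    p625)
   (brec_all (PrV chk)
    p626
    p627))
  (brec_all (PrV chk)
   (brec_all (PrV chk)
    p628
    p629)
   (brec_all (PrV chk)
    p630
    p631)))
 (brec_all (PrV chk)
  (brec_all (PrV chk)
   (brec_all (PrV chk)
    p632
    p633)
   (brec_all (PrV chk)
    p634
    p635))
  (brec_all (PrV chk)
   (brec_all (PrV chk)
    p636
    p637)
   (brec_all (PrV chk)
    p638
    p639))))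

theorem A0_40_ok (i : Nat) : PrV chk (A0_40 i) := by
 unfold A0_40
 exact
 (brec_all (PrV chk)
 (brec_all (PrV chk)
  (brec_all (PrV chk)
   (brec_all (PrV chk)
    p640
    p641)
   (brec_all (PrV chk)
    p642
    p643))
  (brec_all (PrV chk)
   (brec_all (PrV chk)
    p644
    p645)
   (brec_all (PrV chk)
    p646
    p647)))
 (brec_all (PrV chk)
  (brec_all (PrV chk)
   (brec_all (PrV chk)
    p648
    p649)
   (brec_all (PrV chk)
    p650
    p651))
  (brec_all (PrV chk)
   (brec_all (PrV chk)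
    p652
    p653)
   (brec_all (PrV chk)
    p654
    p655))))

theorem A0_41_ok (i : Nat) : PrV chk (A0_41 i) := by
 unfold A0_41
 exact
 (brec_all (PrV chk)
 (brec_all (PrV chk)
  (brec_all (PrV chk)
   (brec_all (PrV chk)
    p656
    p657)
   (brec_all (PrV chk)
    p658
    p659))
  (brec_all (PrV chk)
   (brec_all (PrV chk)
    p660
    p661)
   (brec_all (PrV chk)
    p662
    p663)))
 (brec_all (PrV chk)
  (brec_all (PrV chk)
   (brec_all (PrV chk)
    p664
    p665)
   (brec_all (PrV chk)
    p666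
    p667))
  (brec_all (PrV chk)
   (brec_all (PrV chk)
    p668
    p669)
   (brec_all (PrV chk)
    p670
    p671))))

theorem A0_42_ok (i : Nat) : PrV chk (A0_42 i) := by
 unfold A0_42
 exact
 (brec_all (PrV chk)
 (brec_all (PrV chk)
  (brec_all (PrV chk)
   (brec_all (PrV chk)
    p672
    p673)
   (brec_all (PrV chk)
    p674
    p675))
  (brec_all (PrV chk)
   (brec_all (PrV chk)
    p676
    p677)
   (brec_all (PrV chk)
    p678
    p679)))
 (brec_all (PrV chk)
  (brec_all (PrV chk)
   (brec_all (PrV chk)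
    p680
    p681)
   (brec_all (PrV chk)
    p682
    p683))
  (brec_all (PrV chk)
   (brec_all (PrV chk)
    p684
    p685)
   (brec_all (PrV chk)
    p686
    p687))))

theorem A0_43_ok (i : Nat) : PrV chk (A0_43 i) := by
 unfold A0_43
 exact
 (brec_all (PrV chk)
 (brec_all (PrV chk)
  (brec_all (PrV chk)
   (brec_all (PrV chk)
    p688
    p689)
   (brec_all (PrV chk)
    p690
    p691))
  (brec_all (PrV chk)
   (brec_all (PrV chk)
    p692
    p693)
   (brec_all (PrV chk)
    p694
    p695)))
 (brec_all (PrV chk)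
  (brec_all (PrV chk)
   (brec_all (PrV chk)
    p696
    p697)
   (brec_all (PrV chk)
    p698
    p699))
  (brec_all (PrV chk)
   (brec_all (PrV chk)
    p700
    p701)
   (brec_all (PrV chk)
    p702
    p703))))

theorem A0_44_ok (i : Nat) : PrV chk (A0_44 i) := by
 unfold A0_44
 exact
 (brec_all (PrV chk)
 (brec_all (PrV chk)
  (brec_all (PrV chk)
   (brec_all (PrV chk)
    p704
    p705)
   (brec_all (PrV chk)
    p706
    p707))
  (brec_all (PrV chk)
   (brec_all (PrV chk)
    p708
    p709)
   (brec_all (PrV chk)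
    p710
    p711)))
 (brec_all (PrV chk)
  (brec_all (PrV chk)
   (brec_all (PrV chk)
    p712
    p713)
   (brec_all (PrV chk)
    p714
    p715))
  (brec_all (PrV chk)
   (brec_all (PrV chk)
    p716
    p717)
   (brec_all (PrV chk)
    p718
    p719))))

theorem A0_45_ok (i : Nat) : PrV chk (A0_45 i) := by
 unfold A0_45
 exact
 (brec_all (PrV chk)
 (brec_all (PrV chk)
  (brec_all (PrV chk)
   (brec_all (PrV chk)
    p720
    p721)
   (brec_all (PrV chk)
    p722
    p723))
  (brec_all (PrV chk)
   (brec_all (PrV chk)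
    p724
    p725)
   (brec_all (PrV chk)
    p726
    p727)))
 (brec_all (PrV chk)
  (brec_all (PrV chk)
   (brec_all (PrV chk)
    p728
    p729)
   (brec_all (PrV chk)
    p730
    p731))
  (brec_all (PrV chk)
   (brec_all (PrV chk)
    p732
    p733)
   (brec_all (PrV chk)
    p734
    p735))))

theorem A0_46_ok (i : Nat) : PrV chk (A0_46 i) := by
 unfold A0_46
 exact
 (brec_all (PrV chk)
 (brec_all (PrV chk)
  (brec_all (PrV chk)
   (brec_all (PrV chk)
    p736
    p737)
   (brec_all (PrV chk)
    p738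
    p739))
  (brec_all (PrV chk)
   (brec_all (PrV chk)
    p740
    p741)
   (brec_all (PrV chk)
    p742
    p743)))
 (brec_all (PrV chk)
  (brec_all (PrV chk)
   (brec_all (PrV chk)
    p744
    p745)
   (brec_all (PrV chk)
    p746
    p747))
  (brec_all (PrV chk)
   (brec_all (PrV chk)
    p748
    p749)
   (brec_all (PrV chk)
    p750
    p751))))

theorem A0_47_ok (i : Nat) : PrV chk (A0_47 i) := by
 unfold A0_47
 exact
 (brec_all (PrV chk)
 (brec_all (PrV chk)
  (brec_all (PrV chk)
   (brec_all (PrV chk)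
    p752
    p753)
   (brec_all (PrV chk)
    p754
    p755))
  (brec_all (PrV chk)
   (brec_all (PrV chk)
    p756
    p757)
   (brec_all (PrV chk)
    p758
    p759)))
 (brec_all (PrV chk)
  (brec_all (PrV chk)
   (brec_all (PrV chk)
    p760
    p761)
   (brec_all (PrV chk)
    p762
    p763))
  (brec_all (PrV chk)
   (brec_all (PrV chk)
    p764
    p765)
   (brec_all (PrV chk)
    p766
    p767))))

theorem A0_48_ok (i : Nat) : PrV chk (A0_48 i) := by
 unfold A0_48
 exact
 (brec_all (PrV chk)
 (brec_all (PrV chk)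
  (brec_all (PrV chk)
   (brec_all (PrV chk)
    p768
    p769)
   (brec_all (PrV chk)
    p770
    p771))
  (brec_all (PrV chk)
   (brec_all (PrV chk)
    p772
    p773)
   (brec_all (PrV chk)
    p774
    p775)))
 (brec_all (PrV chk)
  (brec_all (PrV chk)
   (brec_all (PrV chk)
    p776
    p777)
   (brec_all (PrV chk)
    p778
    p779))
  (brec_all (PrV chk)
   (brec_all (PrV chk)
    p780
    p781)
   (brec_all (PrV chk)
    p782
    p783))))

theorem A0_49_ok (i : Nat) : PrV chk (A0_49 i) := by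
 unfold A0_49
 exact
 (brec_all (PrV chk)
 (brec_all (PrV chk)
  (brec_all (PrV chk)
   (brec_all (PrV chk)
    p784
    p785)
   (brec_all (PrV chk)
    p786
    p787))
  (brec_all (PrV chk)
   (brec_all (PrV chk)
    p788
    p789)
   (brec_all (PrV chk)
    p790
    p791)))
 (brec_all (PrV chk)
  (brec_all (PrV chk)
   (brec_all (PrV chk)
    p792
    p793)
   (brec_all (PrV chk)
    p794
    p795))
  (brec_all (PrV chk)
   (brec_all (PrV chk)
    p796
    p797)
   (brec_all (PrV chk)
    p798
    p799))))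

theorem A0_50_ok (i : Nat) : PrV chk (A0_50 i) := by
 unfold A0_50
 exact
 (brec_all (PrV chk)
 (brec_all (PrV chk)
  (brec_all (PrV chk)
   (brec_all (PrV chk)
    p800
    p801)
   (brec_all (PrV chk)
    p802
    p803))
  (brec_all (PrV chk)
   (brec_all (PrV chk)
    p804
    p805)
   (brec_all (PrV chk)
    p806
    p807)))
 (brec_all (PrV chk)
  (brec_all (PrV chk)
   (brec_all (PrV chk)
    p808
    p809)
   (brec_all (PrV chk)
    p810
    p811))
  (brec_all (PrV chk)
   (brec_all (PrV chk)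
    p812
    p813)
   (brec_all (PrV chk)
    p814
    p815))))

theorem A0_51_ok (i : Nat) : PrV chk (A0_51 i) := by
 unfold A0_51
 exact
 (brec_all (PrV chk)
 (brec_all (PrV chk)
  (brec_all (PrV chk)
   (brec_all (PrV chk)
    p816
    p817)
   (brec_all (PrV chk)
    p818
    p819))
  (brec_all (PrV chk)
   (brec_all (PrV chk)
    p820
    p821)
   (brec_all (PrV chk)
    p822
    p823)))
 (brec_all (PrV chk)
  (brec_all (PrV chk)
   (brec_all (PrV chk)
    p824
    p825)
   (brec_all (PrV chk)
    p826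
    p827))
  (brec_all (PrV chk)
   (brec_all (PrV chk)
    p828
    p829)
   (brec_all (PrV chk)
    p830
    p831))))

theorem A0_52_ok (i : Nat) : PrV chk (A0_52 i) := by
 unfold A0_52
 exact
 (brec_all (PrV chk)
 (brec_all (PrV chk)
  (brec_all (PrV chk)
   (brec_all (PrV chk)
    p832
    p833)
   (brec_all (PrV chk)
    p834
    p835))
  (brec_all (PrV chk)
   (brec_all (PrV chk)
    p836
    p837)
   (brec_all (PrV chk)
    p838
    p839)))
 (brec_all (PrV chk)
  (brec_all (PrV chk)
   (brec_all (PrV chk)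
    p840
    p841)
   (brec_all (PrV chk)
    p842
    p843))
  (brec_all (PrV chk)
   (brec_all (PrV chk)
    p844
    p845)
   (brec_all (PrV chk)
    p846
    p847))))

theorem A0_53_ok (i : Nat) : PrV chk (A0_53 i) := by
 unfold A0_53
 exact
 (brec_all (PrV chk)
 (brec_all (PrV chk)
  (brec_all (PrV chk)
   (brec_all (PrV chk)
    p848
    p849)
   (brec_all (PrV chk)
    p850
    p851))
  (brec_all (PrV chk)
   (brec_all (PrV chk)
    p852
    p853)
   (brec_all (PrV chk)
    p854
    p855)))
 (brec_all (PrV chk)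
  (brec_all (PrV chk)
   (brec_all (PrV chk)
    p856
    p857)
   (brec_all (PrV chk)
    p858
    p859))
  (brec_all (PrV chk)
   (brec_all (PrV chk)
    p860
    p861)
   (brec_all (PrV chk)
    p862
    p863))))

theorem A0_54_ok (i : Nat) : PrV chk (A0_54 i) := by
 unfold A0_54
 exact
 (brec_all (PrV chk)
 (brec_all (PrV chk)
  (brec_all (PrV chk)
   (brec_all (PrV chk)
    p864
    p865)
   (brec_all (PrV chk)
    p866
    p867))
  (brec_all (PrV chk)
   (brec_all (PrV chk)
    p868
    p869)
   (brec_all (PrV chk)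
    p870
    p871)))
 (brec_all (PrV chk)
  (brec_all (PrV chk)
   (brec_all (PrV chk)
    p872
    p873)
   (brec_all (PrV chk)
    p874
    p875))
  (brec_all (PrV chk)
   (brec_all (PrV chk)
    p876
    p877)
   (brec_all (PrV chk)
    p878
    p879))))

theorem A0_55_ok (i : Nat) : PrV chk (A0_55 i) := by
 unfold A0_55
 exact
 (brec_all (PrV chk)
 (brec_all (PrV chk)
  (brec_all (PrV chk)
   (brec_all (PrV chk)
    p880
    p881)
   (brec_all (PrV chk)
    p882
    p883))
  (brec_all (PrV chk)
   (brec_all (PrV chk)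
    p884
    p885)
   (brec_all (PrV chk)
    p886
    p887)))
 (brec_all (PrV chk)
  (brec_all (PrV chk)
   (brec_all (PrV chk)
    p888
    p889)
   (brec_all (PrV chk)
    p890
    p891))
  (brec_all (PrV chk)
   (brec_all (PrV chk)
    p892
    p893)
   (brec_all (PrV chk)
    p894
    p895))))

theorem A0_56_ok (i : Nat) : PrV chk (A0_56 i) := by
 unfold A0_56
 exact
 (brec_all (PrV chk)
 (brec_all (PrV chk)
  (brec_all (PrV chk)
   (brec_all (PrV chk)
    p896
    p897)
   (brec_all (PrV chk)
    p898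
    p899))
  (brec_all (PrV chk)
   (brec_all (PrV chk)
    p900
    p901)
   (brec_all (PrV chk)
    p902
    p903)))
 (brec_all (PrV chk)
  (brec_all (PrV chk)
   (brec_all (PrV chk)
    p904
    p905)
   (brec_all (PrV chk)
    p906
    p907))
  (brec_all (PrV chk)
   (brec_all (PrV chk)
    p908
    p909)
   (brec_all (PrV chk)
    p910
    p911))))

theorem A0_57_ok (i : Nat) : PrV chk (A0_57 i) := by
 unfold A0_57
 exact
 (brec_all (PrV chk)
 (brec_all (PrV chk)
  (brec_all (PrV chk)
   (brec_all (PrV chk)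
    p912
    p913)
   (brec_all (PrV chk)
    p914
    p915))
  (brec_all (PrV chk)
   (brec_all (PrV chk)
    p916
    p917)
   (brec_all (PrV chk)
    p918
    p919)))
 (brec_all (PrV chk)
  (brec_all (PrV chk)
   (brec_all (PrV chk)
    p920
    p921)
   (brec_all (PrV chk)
    p922
    p923))
  (brec_all (PrV chk)
   (brec_all (PrV chk)
    p924
    p925)
   (brec_all (PrV chk)
    p926
    p927))))

theorem A0_58_ok (i : Nat) : PrV chk (A0_58 i) := by
 unfold A0_58
 exact
 (brec_all (PrV chk)
 (brec_all (PrV chk)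
  (brec_all (PrV chk)
   (brec_all (PrV chk)
    p928
    p929)
   (brec_all (PrV chk)
    p930
    p931))
  (brec_all (PrV chk)
   (brec_all (PrV chk)
    p932
    p933)
   (brec_all (PrV chk)
    p934
    p935)))
 (brec_all (PrV chk)
  (brec_all (PrV chk)
   (brec_all (PrV chk)
    p936
    p937)
   (brec_all (PrV chk)
    p938
    p939))
  (brec_all (PrV chk)
   (brec_all (PrV chk)
    p940
    p941)
   (brec_all (PrV chk)
    p942
    p943))))

theorem A0_59_ok (i : Nat) : PrV chk (A0_59 i) := by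
 unfold A0_59
 exact
 (brec_all (PrV chk)
 (brec_all (PrV chk)
  (brec_all (PrV chk)
   (brec_all (PrV chk)
    p944
    p945)
   (brec_all (PrV chk)
    p946
    p947))
  (brec_all (PrV chk)
   (brec_all (PrV chk)
    p948
    p949)
   (brec_all (PrV chk)
    p950
    p951)))
 (brec_all (PrV chk)
  (brec_all (PrV chk)
   (brec_all (PrV chk)
    p952
    p953)
   (brec_all (PrV chk)
    p954
    p955))
  (brec_all (PrV chk)
   (brec_all (PrV chk)
    p956
    p957)
   (brec_all (PrV chk)
    p958
    p959))))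

theorem A0_60_ok (i : Nat) : PrV chk (A0_60 i) := by
 unfold A0_60
 exact
 (brec_all (PrV chk)
 (brec_all (PrV chk)
  (brec_all (PrV chk)
   (brec_all (PrV chk)
    p960
    p961)
   (brec_all (PrV chk)
    p962
    p963))
  (brec_all (PrV chk)
   (brec_all (PrV chk)
    p964
    p965)
   (brec_all (PrV chk)
    p966
    p967)))
 (brec_all (PrV chk)
  (brec_all (PrV chk)
   (brec_all (PrV chk)
    p968
    p969)
   (brec_all (PrV chk)
    p970
    p971))
  (brec_all (PrV chk)
   (brec_all (PrV chk)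
    p972
    p973)
   (brec_all (PrV chk)
    p974
    p975))))

theorem A0_61_ok (i : Nat) : PrV chk (A0_61 i) := by
 unfold A0_61
 exact
 (brec_all (PrV chk)
 (brec_all (PrV chk)
  (brec_all (PrV chk)
   (brec_all (PrV chk)
    p976
    p977)
   (brec_all (PrV chk)
    p978
    p979))
  (brec_all (PrV chk)
   (brec_all (PrV chk)
    p980
    p981)
   (brec_all (PrV chk)
    p982
    p983)))
 (brec_all (PrV chk)
  (brec_all (PrV chk)
   (brec_all (PrV chk)
    p984
    p985)
   (brec_all (PrV chk)
    p986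
    p987))
  (brec_all (PrV chk)
   (brec_all (PrV chk)
    p988
    p989)
   (brec_all (PrV chk)
    p990
    p991))))

theorem A0_62_ok (i : Nat) : PrV chk (A0_62 i) := by
 unfold A0_62
 exact
 (brec_all (PrV chk)
 (brec_all (PrV chk)
  (brec_all (PrV chk)
   (brec_all (PrV chk)
    p992
    p993)
   (brec_all (PrV chk)
    p994
    p995))
  (brec_all (PrV chk)
   (brec_all (PrV chk)
    p996
    p997)
   (brec_all (PrV chk)
    p998
    p999)))
 (brec_all (PrV chk)
  (brec_all (PrV chk)
   (brec_all (PrV chk)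
    p1000
    p1001)
   (brec_all (PrV chk)
    p1002
    p1003))
  (brec_all (PrV chk)
   (brec_all (PrV chk)
    p1004
    p1005)
   (brec_all (PrV chk)
    p1006
    p1007))))

theorem A0_63_ok (i : Nat) : PrV chk (A0_63 i) := by
 unfold A0_63
 exact
 (brec_all (PrV chk)
 (brec_all (PrV chk)
  (brec_all (PrV chk)
   (brec_all (PrV chk)
    p1008
    p1009)
   (brec_all (PrV chk)
    p1010
    p1011))
  (brec_all (PrV chk)
   (brec_all (PrV chk)
    p1012
    p1013)
   (brec_all (PrV chk)
    p1014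
    p1015)))
 (brec_all (PrV chk)
  (brec_all (PrV chk)
   (brec_all (PrV chk)
    p1016
    p1017)
   (brec_all (PrV chk)
    p1018
    p1019))
  (brec_all (PrV chk)
   (brec_all (PrV chk)
    p1020
    p1021)
   (brec_all (PrV chk)
    p1022
    p1023))))

theorem A0_64_ok (i : Nat) : PrV chk (A0_64 i) := by
 unfold A0_64
 exact
 (brec_all (PrV chk)
 (brec_all (PrV chk)
  (brec_all (PrV chk)
   (brec_all (PrV chk)
    p1024
    p1025)
   (brec_all (PrV chk)
    p1026
    p1027))
  (brec_all (PrV chk)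
   (brec_all (PrV chk)
    p1028
    p1029)
   (brec_all (PrV chk)
    p1030
    p1031)))
 (brec_all (PrV chk)
  (brec_all (PrV chk)
   (brec_all (PrV chk)
    p1032
    p1033)
   (brec_all (PrV chk)
    p1034
    p1035))
  (brec_all (PrV chk)
   (brec_all (PrV chk)
    p1036
    p1037)
   (brec_all (PrV chk)
    p1038
    p1039))))

theorem A0_65_ok (i : Nat) : PrV chk (A0_65 i) := by
 unfold A0_65
 exact
 (brec_all (PrV chk)
 (brec_all (PrV chk)
  (brec_all (PrV chk)
   (brec_all (PrV chk)
    p1040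
    p1041)
   (brec_all (PrV chk)
    p1042
    p1043))
  (brec_all (PrV chk)
   (brec_all (PrV chk)
    p1044
    p1045)
   (brec_all (PrV chk)
    p1046
    p1047)))
 (brec_all (PrV chk)
  (brec_all (PrV chk)
   (brec_all (PrV chk)
    p1048
    p1049)
   (brec_all (PrV chk)
    p1050
    p1051))
  (brec_all (PrV chk)
   (brec_all (PrV chk)
    p1052
    p1053)
   (brec_all (PrV chk)
    p1054
    p1055))))

theorem A0_66_ok (i : Nat) : PrV chk (A0_66 i) := by
 unfold A0_66
 exact
 (brec_all (PrV chk)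
 (brec_all (PrV chk)
  (brec_all (PrV chk)
   (brec_all (PrV chk)
    p1056
    p1057)
   (brec_all (PrV chk)
    p1058
    p1059))
  (brec_all (PrV chk)
   (brec_all (PrV chk)
    p1060
    p1061)
   (brec_all (PrV chk)
    p1062
    p1063)))
 (brec_all (PrV chk)
  (brec_all (PrV chk)
   (brec_all (PrV chk)
    p1064
    p1065)
   (brec_all (PrV chk)
    p1066
    p1067))
  (brec_all (PrV chk)
   (brec_all (PrV chk)
    p1068
    p1069)
   (brec_all (PrV chk)
    p1070
    p1071))))

theorem A0_67_ok (i : Nat) : PrV chk (A0_67 i) := by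
 unfold A0_67
 exact
 (brec_all (PrV chk)
 (brec_all (PrV chk)
  (brec_all (PrV chk)
   (brec_all (PrV chk)
    p1072
    p1073)
   (brec_all (PrV chk)
    p1074
    p1075))
  (brec_all (PrV chk)
   (brec_all (PrV chk)
    p1076
    p1077)
   (brec_all (PrV chk)
    p1078
    p1079)))
 (brec_all (PrV chk)
  (brec_all (PrV chk)
   (brec_all (PrV chk)
    p1080
    p1081)
   (brec_all (PrV chk)
    p1082
    p1083))
  (brec_all (PrV chk)
   (brec_all (PrV chk)
    p1084
    p1085)
   (brec_all (PrV chk)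
    p1086
    p1087))))

theorem A0_68_ok (i : Nat) : PrV chk (A0_68 i) := by
 unfold A0_68
 exact
 (brec_all (PrV chk)
 (brec_all (PrV chk)
  (brec_all (PrV chk)
   (brec_all (PrV chk)
    p1088
    p1089)
   (brec_all (PrV chk)
    p1090
    p1091))
  (brec_all (PrV chk)
   (brec_all (PrV chk)
    p1092
    p1093)
   (brec_all (PrV chk)
    p1094
    p1095)))
 (brec_all (PrV chk)
  (brec_all (PrV chk)
   (brec_all (PrV chk)
    p1096
    p1097)
   (brec_all (PrV chk)
    p1098
    p1099))
  (brec_all (PrV chk)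
   (brec_all (PrV chk)
    p1100
    p1101)
   (brec_all (PrV chk)
    p1102
    p1103))))

theorem A0_69_ok (i : Nat) : PrV chk (A0_69 i) := by
 unfold A0_69
 exact
 (brec_all (PrV chk)
 (brec_all (PrV chk)
  (brec_all (PrV chk)
   (brec_all (PrV chk)
    p1104
    p1105)
   (brec_all (PrV chk)
    p1106
    p1107))
  (brec_all (PrV chk)
   (brec_all (PrV chk)
    p1108
    p1109)
   (brec_all (PrV chk)
    p1110
    p1111)))
 (brec_all (PrV chk)
  (brec_all (PrV chk)
   (brec_all (PrV chk)
    p1112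
    p1113)
   (brec_all (PrV chk)
    p1114
    p1115))
  (brec_all (PrV chk)
   (brec_all (PrV chk)
    p1116
    p1117)
   (brec_all (PrV chk)
    p1118
    p1119))))

theorem A0_70_ok (i : Nat) : PrV chk (A0_70 i) := by
 unfold A0_70
 exact
 (brec_all (PrV chk)
 (brec_all (PrV chk)
  (brec_all (PrV chk)
   (brec_all (PrV chk)
    p1120
    p1121)
   (brec_all (PrV chk)
    p1122
    p1123))
  (brec_all (PrV chk)
   (brec_all (PrV chk)
    p1124
    p1125)
   (brec_all (PrV chk)
    p1126
    p1127)))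
 (brec_all (PrV chk)
  (brec_all (PrV chk)
   (brec_all (PrV chk)
    p1128
    p1129)
   (brec_all (PrV chk)
    p1130
    p1131))
  (brec_all (PrV chk)
   (brec_all (PrV chk)
    p1132
    p1133)
   (brec_all (PrV chk)
    p1134
    p1135))))

theorem A0_71_ok (i : Nat) : PrV chk (A0_71 i) := by
 unfold A0_71
 exact
 (brec_all (PrV chk)
 (brec_all (PrV chk)
  (brec_all (PrV chk)
   (brec_all (PrV chk)
    p1136
    p1137)
   (brec_all (PrV chk)
    p1138
    p1139))
  (brec_all (PrV chk)
   (brec_all (PrV chk)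
    p1140
    p1141)
   (brec_all (PrV chk)
    p1142
    p1143)))
 (brec_all (PrV chk)
  (brec_all (PrV chk)
   (brec_all (PrV chk)
    p1144
    p1145)
   (brec_all (PrV chk)
    p1146
    p1147))
  (brec_all (PrV chk)
   (brec_all (PrV chk)
    p1148
    p1149)
   (brec_all (PrV chk)
    p1150
    p1151))))

theorem A0_72_ok (i : Nat) : PrV chk (A0_72 i) := by
 unfold A0_72
 exact
 (brec_all (PrV chk)
 (brec_all (PrV chk)
  (brec_all (PrV chk)
   (brec_all (PrV chk)
    p1152
    p1153)
   (brec_all (PrV chk)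
    p1154
    p1155))
  (brec_all (PrV chk)
   (brec_all (PrV chk)
    p1156
    p1157)
   (brec_all (PrV chk)
    p1158
    p1159)))
 (brec_all (PrV chk)
  (brec_all (PrV chk)
   (brec_all (PrV chk)
    p1160
    p1161)
   (brec_all (PrV chk)
    p1162
    p1163))
  (brec_all (PrV chk)
   (brec_all (PrV chk)
    p1164
    p1165)
   (brec_all (PrV chk)
    p1166
    p1167))))

theorem A0_73_ok (i : Nat) : PrV chk (A0_73 i) := by
 unfold A0_73
 exact
 (brec_all (PrV chk)
 (brec_all (PrV chk)
  (brec_all (PrV chk)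
   (brec_all (PrV chk)
    p1168
    p1169)
   (brec_all (PrV chk)
    p1170
    p1171))
  (brec_all (PrV chk)
   (brec_all (PrV chk)
    p1172
    p1173)
   (brec_all (PrV chk)
    p1174
    p1175)))
 (brec_all (PrV chk)
  (brec_all (PrV chk)
   (brec_all (PrV chk)
    p1176
    p1177)
   (brec_all (PrV chk)
    p1178
    p1179))
  (brec_all (PrV chk)
   (brec_all (PrV chk)
    p1180
    p1181)
   (brec_all (PrV chk)
    p1182
    p1183))))

theorem A0_74_ok (i : Nat) : PrV chk (A0_74 i) := by
 unfold A0_74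
 exact
 (brec_all (PrV chk)
 (brec_all (PrV chk)
  (brec_all (PrV chk)
   (brec_all (PrV chk)
    p1184
    p1185)
   (brec_all (PrV chk)
    p1186
    p1187))
  (brec_all (PrV chk)
   (brec_all (PrV chk)
    p1188
    p1189)
   (brec_all (PrV chk)
    p1190
    p1191)))
 (brec_all (PrV chk)
  (brec_all (PrV chk)
   (brec_all (PrV chk)
    p1192
    p1193)
   (brec_all (PrV chk)
    p1194
    p1195))
  (brec_all (PrV chk)
   (brec_all (PrV chk)
    p1196
    p1197)
   (brec_all (PrV chk)
    p1198
    p1199))))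

theorem A0_75_ok (i : Nat) : PrV chk (A0_75 i) := by
 unfold A0_75
 exact
 (brec_all (PrV chk)
 (brec_all (PrV chk)
  (brec_all (PrV chk)
   (brec_all (PrV chk)
    p1200
    p1201)
   (brec_all (PrV chk)
    p1202
    p1203))
  (brec_all (PrV chk)
   (brec_all (PrV chk)
    p1204
    p1205)
   (brec_all (PrV chk)
    p1206
    p1207)))
 (brec_all (PrV chk)
  (brec_all (PrV chk)
   (brec_all (PrV chk)
    p1208
    p1209)
   (brec_all (PrV chk)
    p1210
    p1211))
  (brec_all (PrV chk)
   (brec_all (PrV chk)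
    p1212
    p1213)
   (brec_all (PrV chk)
    p1214
    p1215))))

theorem A0_76_ok (i : Nat) : PrV chk (A0_76 i) := by
 unfold A0_76
 exact
 (brec_all (PrV chk)
 (brec_all (PrV chk)
  (brec_all (PrV chk)
   (brec_all (PrV chk)
    p1216
    p1217)
   (brec_all (PrV chk)
    p1218
    p1219))
  (brec_all (PrV chk)
   (brec_all (PrV chk)
    p1220
    p1221)
   (brec_all (PrV chk)
    p1222
    p1223)))
 (brec_all (PrV chk)
  (brec_all (PrV chk)
   (brec_all (PrV chk)
    p1224
    p1225)
   (brec_all (PrV chk)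
    p1226
    p1227))
  (brec_all (PrV chk)
   (brec_all (PrV chk)
    p1228
    p1229)
   (brec_all (PrV chk)
    p1230
    p1231))))

theorem A0_77_ok (i : Nat) : PrV chk (A0_77 i) := by
 unfold A0_77
 exact
 (brec_all (PrV chk)
 (brec_all (PrV chk)
  (brec_all (PrV chk)
   (brec_all (PrV chk)
    p1232
    p1233)
   (brec_all (PrV chk)
    p1234
    p1235))
  (brec_all (PrV chk)
   (brec_all (PrV chk)
    p1236
    p1237)
   (brec_all (PrV chk)
    p1238
    p1239)))
 (brec_all (PrV chk)
  (brec_all (PrV chk)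
   (brec_all (PrV chk)
    p1240
    p1241)
   (brec_all (PrV chk)
    p1242
    p1243))
  (brec_all (PrV chk)
   (brec_all (PrV chk)
    p1244
    p1245)
   (brec_all (PrV chk)
    p1246
    p1247))))

theorem A0_78_ok (i : Nat) : PrV chk (A0_78 i) := by
 unfold A0_78
 exact
 (brec_all (PrV chk)
 (brec_all (PrV chk)
  (brec_all (PrV chk)
   (brec_all (PrV chk)
    p1248
    p1249)
   (brec_all (PrV chk)
    p1250
    p1251))
  (brec_all (PrV chk)
   (brec_all (PrV chk)
    p1252
    p1253)
   (brec_all (PrV chk)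
    p1254
    p1255)))
 (brec_all (PrV chk)
  (brec_all (PrV chk)
   (brec_all (PrV chk)
    p1256
    p1257)
   (brec_all (PrV chk)
    p1258
    p1259))
  (brec_all (PrV chk)
   (brec_all (PrV chk)
    p1260
    p1261)
   (brec_all (PrV chk)
    p1262
    p1263))))

theorem A0_79_ok (i : Nat) : PrV chk (A0_79 i) := by
 unfold A0_79
 exact
 (brec_all (PrV chk)
 (brec_all (PrV chk)
  (brec_all (PrV chk)
   (brec_all (PrV chk)
    p1264
    p1265)
   (brec_all (PrV chk)
    p1266
    p1267))
  (brec_all (PrV chk)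
   (brec_all (PrV chk)
    p1268
    p1269)
   (brec_all (PrV chk)
    p1270
    p1271)))
 (brec_all (PrV chk)
  (brec_all (PrV chk)
   (brec_all (PrV chk)
    p1272
    p1273)
   (brec_all (PrV chk)
    p1274
    p1275))
  (brec_all (PrV chk)
   (brec_all (PrV chk)
    p1276
    p1277)
   (brec_all (PrV chk)
    p1278
    p1279))))

theorem A0_80_ok (i : Nat) : PrV chk (A0_80 i) := by
 unfold A0_80
 exact
 (brec_all (PrV chk)
 (brec_all (PrV chk)
  (brec_all (PrV chk)
   (brec_all (PrV chk)
    p1280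
    p1281)
   (brec_all (PrV chk)
    p1282
    p1283))
  (brec_all (PrV chk)
   (brec_all (PrV chk)
    p1284
    p1285)
   (brec_all (PrV chk)
    p1286
    p1287)))
 (brec_all (PrV chk)
  (brec_all (PrV chk)
   (brec_all (PrV chk)
    p1288
    p1289)
   (brec_all (PrV chk)
    p1290
    p1291))
  (brec_all (PrV chk)
   (brec_all (PrV chk)
    p1292
    p1293)
   (brec_all (PrV chk)
    p1294
    p1295))))

theorem A0_81_ok (i : Nat) : PrV chk (A0_81 i) := by
 unfold A0_81
 exact
 (brec_all (PrV chk)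
 (brec_all (PrV chk)
  (brec_all (PrV chk)
   (brec_all (PrV chk)
    p1296
    p1297)
   (brec_all (PrV chk)
    p1298
    p1299))
  (brec_all (PrV chk)
   (brec_all (PrV chk)
    p1300
    p1301)
   (brec_all (PrV chk)
    p1302
    p1303)))
 (brec_all (PrV chk)
  (brec_all (PrV chk)
   (brec_all (PrV chk)
    p1304
    p1305)
   (brec_all (PrV chk)
    p1306
    p1307))
  (brec_all (PrV chk)
   (brec_all (PrV chk)
    p1308
    p1309)
   (brec_all (PrV chk)
    p1310
    p1311))))

theorem A0_82_ok (i : Nat) : PrV chk (A0_82 i) := by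
 unfold A0_82
 exact
 (brec_all (PrV chk)
 (brec_all (PrV chk)
  (brec_all (PrV chk)
   (brec_all (PrV chk)
    p1312
    p1313)
   (brec_all (PrV chk)
    p1314
    p1315))
  (brec_all (PrV chk)
   (brec_all (PrV chk)
    p1316
    p1317)
   (brec_all (PrV chk)
    p1318
    p1319)))
 (brec_all (PrV chk)
  (brec_all (PrV chk)
   (brec_all (PrV chk)
    p1320
    p1321)
   (brec_all (PrV chk)
    p1322
    p1323))
  (brec_all (PrV chk)
   (brec_all (PrV chk)
    p1324
    p1325)
   (brec_all (PrV chk)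
    p1326
    p1327))))

theorem A0_83_ok (i : Nat) : PrV chk (A0_83 i) := by
 unfold A0_83
 exact
 (brec_all (PrV chk)
 (brec_all (PrV chk)
  (brec_all (PrV chk)
   (brec_all (PrV chk)
    p1328
    p1329)
   (brec_all (PrV chk)
    p1330
    p1331))
  (brec_all (PrV chk)
   (brec_all (PrV chk)
    p1332
    p1333)
   (brec_all (PrV chk)
    p1334
    p1335)))
 (brec_all (PrV chk)
  (brec_all (PrV chk)
   (brec_all (PrV chk)
    p1336
    p1337)
   (brec_all (PrV chk)
    p1338
    p1339))
  (brec_all (PrV chk)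
   (brec_all (PrV chk)
    p1340
    p1341)
   (brec_all (PrV chk)
    p1342
    p1343))))

theorem A0_84_ok (i : Nat) : PrV chk (A0_84 i) := by
 unfold A0_84
 exact
 (brec_all (PrV chk)
 (brec_all (PrV chk)
  (brec_all (PrV chk)
   (brec_all (PrV chk)
    p1344
    p1345)
   (brec_all (PrV chk)
    p1346
    p1347))
  (brec_all (PrV chk)
   (brec_all (PrV chk)
    p1348
    p1349)
   (brec_all (PrV chk)
    p1350
    p1351)))
 (brec_all (PrV chk)
  (brec_all (PrV chk)
   (brec_all (PrV chk)
    p1352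
    p1353)
   (brec_all (PrV chk)
    p1354
    p1355))
  (brec_all (PrV chk)
   (brec_all (PrV chk)
    p1356
    p1357)
   (brec_all (PrV chk)
    p1358
    p1359))))

theorem A0_85_ok (i : Nat) : PrV chk (A0_85 i) := by
 unfold A0_85
 exact
 (brec_all (PrV chk)
 (brec_all (PrV chk)
  (brec_all (PrV chk)
   (brec_all (PrV chk)
    p1360
    p1361)
   (brec_all (PrV chk)
    p1362
    p1363))
  (brec_all (PrV chk)
   (brec_all (PrV chk)
    p1364
    p1365)
   (brec_all (PrV chk)
    p1366
    p1367)))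
 (brec_all (PrV chk)
  (brec_all (PrV chk)
   (brec_all (PrV chk)
    p1368
    p1369)
   (brec_all (PrV chk)
    p1370
    p1371))
  (brec_all (PrV chk)
   (brec_all (PrV chk)
    p1372
    p1373)
   (brec_all (PrV chk)
    p1374
    p1375))))

theorem A0_86_ok (i : Nat) : PrV chk (A0_86 i) := by
 unfold A0_86
 exact
 (brec_all (PrV chk)
 (brec_all (PrV chk)
  (brec_all (PrV chk)
   (brec_all (PrV chk)
    p1376
    p1377)
   (brec_all (PrV chk)
    p1378
    p1379))
  (brec_all (PrV chk)
   (brec_all (PrV chk)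
    p1380
    p1381)
   (brec_all (PrV chk)
    p1382
    p1383)))
 (brec_all (PrV chk)
  (brec_all (PrV chk)
   (brec_all (PrV chk)
    p1384
    p1385)
   (brec_all (PrV chk)
    p1386
    p1387))
  (brec_all (PrV chk)
   (brec_all (PrV chk)
    p1388
    p1389)
   (brec_all (PrV chk)
    p1390
    p1391))))

theorem A0_87_ok (i : Nat) : PrV chk (A0_87 i) := by
 unfold A0_87
 exact
 (brec_all (PrV chk)
 (brec_all (PrV chk)
  (brec_all (PrV chk)
   (brec_all (PrV chk)
    p1392
    p1393)
   (brec_all (PrV chk)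
    p1394
    p1395))
  (brec_all (PrV chk)
   (brec_all (PrV chk)
    p1396
    p1397)
   (brec_all (PrV chk)
    p1398
    p1399)))
 (brec_all (PrV chk)
  (brec_all (PrV chk)
   (brec_all (PrV chk)
    p1400
    p1401)
   (brec_all (PrV chk)
    p1402
    p1403))
  (brec_all (PrV chk)
   (brec_all (PrV chk)
    p1404
    p1405)
   (brec_all (PrV chk)
    p1406
    p1407))))

theorem A0_88_ok (i : Nat) : PrV chk (A0_88 i) := by
 unfold A0_88
 exact
 (brec_all (PrV chk)
 (brec_all (PrV chk)
  (brec_all (PrV chk)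
   (brec_all (PrV chk)
    p1408
    p1409)
   (brec_all (PrV chk)
    p1410
    p1411))
  (brec_all (PrV chk)
   (brec_all (PrV chk)
    p1412
    p1413)
   (brec_all (PrV chk)
    p1414
    p1415)))
 (brec_all (PrV chk)
  (brec_all (PrV chk)
   (brec_all (PrV chk)
    p1416
    p1417)
   (brec_all (PrV chk)
    p1418
    p1419))
  (brec_all (PrV chk)
   (brec_all (PrV chk)
    p1420
    p1421)
   (brec_all (PrV chk)
    p1422
    p1423))))

theorem A0_89_ok (i : Nat) : PrV chk (A0_89 i) := by
 unfold A0_89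
 exact
 (brec_all (PrV chk)
 (brec_all (PrV chk)
  (brec_all (PrV chk)
   (brec_all (PrV chk)
    p1424
    p1425)
   (brec_all (PrV chk)
    p1426
    p1427))
  (brec_all (PrV chk)
   (brec_all (PrV chk)
    p1428
    p1429)
   (brec_all (PrV chk)
    p1430
    p1431)))
 (brec_all (PrV chk)
  (brec_all (PrV chk)
   (brec_all (PrV chk)
    p1432
    p1433)
   (brec_all (PrV chk)
    p1434
    p1435))
  (brec_all (PrV chk)
   (brec_all (PrV chk)
    p1436
    p1437)
   (brec_all (PrV chk)
    p1438
    p1439))))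

theorem A0_90_ok (i : Nat) : PrV chk (A0_90 i) := by
 unfold A0_90
 exact
 (brec_all (PrV chk)
 (brec_all (PrV chk)
  (brec_all (PrV chk)
   (brec_all (PrV chk)
    p1440
    p1441)
   (brec_all (PrV chk)
    p1442
    p1443))
  (brec_all (PrV chk)
   (brec_all (PrV chk)
    p1444
    p1445)
   (brec_all (PrV chk)
    p1446
    p1447)))
 (brec_all (PrV chk)
  (brec_all (PrV chk)
   (brec_all (PrV chk)
    p1448
    p1449)
   (brec_all (PrV chk)
    p1450
    p1451))
  (brec_all (PrV chk)
   (brec_all (PrV chk)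
    p1452
    p1453)
   (brec_all (PrV chk)
    p1454
    p1455))))

theorem A0_91_ok (i : Nat) : PrV chk (A0_91 i) := by
 unfold A0_91
 exact
 (brec_all (PrV chk)
 (brec_all (PrV chk)
  (brec_all (PrV chk)
   (brec_all (PrV chk)
    p1456
    p1457)
   (brec_all (PrV chk)
    p1458
    p1459))
  (brec_all (PrV chk)
   (brec_all (PrV chk)
    p1460
    p1461)
   (brec_all (PrV chk)
    p1462
    p1463)))
 (brec_all (PrV chk)
  (brec_all (PrV chk)
   (brec_all (PrV chk)
    p1464
    p1465)
   (brec_all (PrV chk)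
    p1466
    p1467))
  (brec_all (PrV chk)
   (brec_all (PrV chk)
    p1468
    p1469)
   (brec_all (PrV chk)
    p1470
    p1471))))

theorem A0_92_ok (i : Nat) : PrV chk (A0_92 i) := by
 unfold A0_92
 exact
 (brec_all (PrV chk)
 (brec_all (PrV chk)
  (brec_all (PrV chk)
   (brec_all (PrV chk)
    p1472
    p1473)
   (brec_all (PrV chk)
    p1474
    p1475))
  (brec_all (PrV chk)
   (brec_all (PrV chk)
    p1476
    p1477)
   (brec_all (PrV chk)
    p1478
    p1479)))
 (brec_all (PrV chk)
  (brec_all (PrV chk)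
   (brec_all (PrV chk)
    p1480
    p1481)
   (brec_all (PrV chk)
    p1482
    p1483))
  (brec_all (PrV chk)
   (brec_all (PrV chk)
    p1484
    p1485)
   (brec_all (PrV chk)
    p1486
    p1487))))

theorem A0_93_ok (i : Nat) : PrV chk (A0_93 i) := by
 unfold A0_93
 exact
 (brec_all (PrV chk)
 (brec_all (PrV chk)
  (brec_all (PrV chk)
   (brec_all (PrV chk)
    p1488
    p1489)
   (brec_all (PrV chk)
    p1490
    p1491))
  (brec_all (PrV chk)
   (brec_all (PrV chk)
    p1492
    p1493)
   (brec_all (PrV chk)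
    p1494
    p1495)))
 (brec_all (PrV chk)
  (brec_all (PrV chk)
   (brec_all (PrV chk)
    p1496
    p1497)
   (brec_all (PrV chk)
    p1498
    p1499))
  (brec_all (PrV chk)
   (brec_all (PrV chk)
    p1500
    p1501)
   (brec_all (PrV chk)
    p1502
    p1503))))

theorem A0_94_ok (i : Nat) : PrV chk (A0_94 i) := by
 unfold A0_94
 exact
 (brec_all (PrV chk)
 (brec_all (PrV chk)
  (brec_all (PrV chk)
   (brec_all (PrV chk)
    p1504
    p1505)
   (brec_all (PrV chk)
    p1506
    p1507))
  (brec_all (PrV chk)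
   (brec_all (PrV chk)
    p1508
    p1509)
   (brec_all (PrV chk)
    p1510
    p1511)))
 (brec_all (PrV chk)
  (brec_all (PrV chk)
   (brec_all (PrV chk)
    p1512
    p1513)
   (brec_all (PrV chk)
    p1514
    p1515))
  (brec_all (PrV chk)
   (brec_all (PrV chk)
    p1516
    p1517)
   (brec_all (PrV chk)
    p1518
    p1519))))

theorem A0_95_ok (i : Nat) : PrV chk (A0_95 i) := by
 unfold A0_95
 exact
 (brec_all (PrV chk)
 (brec_all (PrV chk)
  (brec_all (PrV chk)
   (brec_all (PrV chk)
    p1520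
    p1521)
   (brec_all (PrV chk)
    p1522
    p1523))
  (brec_all (PrV chk)
   (brec_all (PrV chk)
    p1524
    p1525)
   (brec_all (PrV chk)
    p1526
    p1527)))
 (brec_all (PrV chk)
  (brec_all (PrV chk)
   (brec_all (PrV chk)
    p1528
    p1529)
   (brec_all (PrV chk)
    p1530
    p1531))
  (brec_all (PrV chk)
   (brec_all (PrV chk)
    p1532
    p1533)
   (brec_all (PrV chk)
    p1534
    p1535))))

theorem A0_96_ok (i : Nat) : PrV chk (A0_96 i) := by
 unfold A0_96
 exact
 (brec_all (PrV chk)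
 (brec_all (PrV chk)
  (brec_all (PrV chk)
   (brec_all (PrV chk)
    p1536
    p1537)
   (brec_all (PrV chk)
    p1538
    p1539))
  (brec_all (PrV chk)
   (brec_all (PrV chk)
    p1540
    p1541)
   (brec_all (PrV chk)
    p1542
    p1543)))
 (brec_all (PrV chk)
  (brec_all (PrV chk)
   (brec_all (PrV chk)
    p1544
    p1545)
   (brec_all (PrV chk)
    p1546
    p1547))
  (brec_all (PrV chk)
   (brec_all (PrV chk)
    p1548
    p1549)
   (brec_all (PrV chk)
    p1550
    p1551))))

theorem A0_97_ok (i : Nat) : PrV chk (A0_97 i) := by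
 unfold A0_97
 exact
 (brec_all (PrV chk)
 (brec_all (PrV chk)
  (brec_all (PrV chk)
   (brec_all (PrV chk)
    p1552
    p1553)
   (brec_all (PrV chk)
    p1554
    p1555))
  (brec_all (PrV chk)
   (brec_all (PrV chk)
    p1556
    p1557)
   (brec_all (PrV chk)
    p1558
    p1559)))
 (brec_all (PrV chk)
  (brec_all (PrV chk)
   (brec_all (PrV chk)
    p1560
    p1561)
   (brec_all (PrV chk)
    p1562
    p1563))
  (brec_all (PrV chk)
   (brec_all (PrV chk)
    p1564
    p1565)
   (brec_all (PrV chk)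
    p1566
    p1567))))

theorem A0_98_ok (i : Nat) : PrV chk (A0_98 i) := by
 unfold A0_98
 exact
 (brec_all (PrV chk)
 (brec_all (PrV chk)
  (brec_all (PrV chk)
   (brec_all (PrV chk)
    p1568
    p1569)
   (brec_all (PrV chk)
    p1570
    p1571))
  (brec_all (PrV chk)
   (brec_all (PrV chk)
    p1572
    p1573)
   (brec_all (PrV chk)
    p1574
    p1575)))
 (brec_all (PrV chk)
  (brec_all (PrV chk)
   (brec_all (PrV chk)
    p1576
    p1577)
   (brec_all (PrV chk)
    p1578
    p1579))
  (brec_all (PrV chk)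
   (brec_all (PrV chk)
    p1580
    p1581)
   (brec_all (PrV chk)
    p1582
    p1583))))

theorem A0_99_ok (i : Nat) : PrV chk (A0_99 i) := by
 unfold A0_99
 exact
 (brec_all (PrV chk)
 (brec_all (PrV chk)
  (brec_all (PrV chk)
   (brec_all (PrV chk)
    p1584
    p1585)
   (brec_all (PrV chk)
    p1586
    p1587))
  (brec_all (PrV chk)
   (brec_all (PrV chk)
    p1588
    p1589)
   (brec_all (PrV chk)
    p1590
    p1591)))
 (brec_all (PrV chk)
  (brec_all (PrV chk)
   (brec_all (PrV chk)
    p1592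
    p1593)
   (brec_all (PrV chk)
    p1594
    p1595))
  (brec_all (PrV chk)
   (brec_all (PrV chk)
    p1596
    p1597)
   (brec_all (PrV chk)
    p1598
    p1599))))

theorem A0_100_ok (i : Nat) : PrV chk (A0_100 i) := by
 unfold A0_100
 exact
 (brec_all (PrV chk)
 (brec_all (PrV chk)
  (brec_all (PrV chk)
   (brec_all (PrV chk)
    p1600
    p1601)
   (brec_all (PrV chk)
    p1602
    p1603))
  (brec_all (PrV chk)
   (brec_all (PrV chk)
    p1604
    p1605)
   (brec_all (PrV chk)
    p1606
    p1607)))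
 (brec_all (PrV chk)
  (brec_all (PrV chk)
   (brec_all (PrV chk)
    p1608
    p1609)
   (brec_all (PrV chk)
    p1610
    p1611))
  (brec_all (PrV chk)
   (brec_all (PrV chk)
    p1612
    p1613)
   (brec_all (PrV chk)
    p1614
    p1615))))

theorem A0_101_ok (i : Nat) : PrV chk (A0_101 i) := by
 unfold A0_101
 exact
 (brec_all (PrV chk)
 (brec_all (PrV chk)
  (brec_all (PrV chk)
   (brec_all (PrV chk)
    p1616
    p1617)
   (brec_all (PrV chk)
    p1618
    p1619))
  (brec_all (PrV chk)
   (brec_all (PrV chk)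
    p1620
    p1621)
   (brec_all (PrV chk)
    p1622
    p1623)))
 (brec_all (PrV chk)
  (brec_all (PrV chk)
   (brec_all (PrV chk)
    p1624
    p1625)
   (brec_all (PrV chk)
    p1626
    p1627))
  (brec_all (PrV chk)
   (brec_all (PrV chk)
    p1628
    p1629)
   (brec_all (PrV chk)
    p1630
    p1631))))

theorem A0_102_ok (i : Nat) : PrV chk (A0_102 i) := by
 unfold A0_102
 exact
 (brec_all (PrV chk)
 (brec_all (PrV chk)
  (brec_all (PrV chk)
   (brec_all (PrV chk)
    p1632
    p1633)
   (brec_all (PrV chk)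
    p1634
    p1635))
  (brec_all (PrV chk)
   (brec_all (PrV chk)
    p1636
    p1637)
   (brec_all (PrV chk)
    p1638
    p1639)))
 (brec_all (PrV chk)
  (brec_all (PrV chk)
   (brec_all (PrV chk)
    p1640
    p1641)
   (brec_all (PrV chk)
    p1642
    p1643))
  (brec_all (PrV chk)
   (brec_all (PrV chk)
    p1644
    p1645)
   (brec_all (PrV chk)
    p1646
    p1647))))

theorem A0_103_ok (i : Nat) : PrV chk (A0_103 i) := by
 unfold A0_103
 exact
 (brec_all (PrV chk)
 (brec_all (PrV chk)
  (brec_all (PrV chk)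
   (brec_all (PrV chk)
    p1648
    p1649)
   (brec_all (PrV chk)
    p1650
    p1651))
  (brec_all (PrV chk)
   (brec_all (PrV chk)
    p1652
    p1653)
   (brec_all (PrV chk)
    p1654
    p1655)))
 (brec_all (PrV chk)
  (brec_all (PrV chk)
   (brec_all (PrV chk)
    p1656
    p1657)
   (brec_all (PrV chk)
    p1658
    p1659))
  (brec_all (PrV chk)
   (brec_all (PrV chk)
    p1660
    p1661)
   (brec_all (PrV chk)
    p1662
    p1663))))

theorem A0_104_ok (i : Nat) : PrV chk (A0_104 i) := by
 unfold A0_104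
 exact
 (brec_all (PrV chk)
 (brec_all (PrV chk)
  (brec_all (PrV chk)
   (brec_all (PrV chk)
    p1664
    p1665)
   (brec_all (PrV chk)
    p1666
    p1667))
  (brec_all (PrV chk)
   (brec_all (PrV chk)
    p1668
    p1669)
   (brec_all (PrV chk)
    p1670
    p1671)))
 (brec_all (PrV chk)
  (brec_all (PrV chk)
   (brec_all (PrV chk)
    p1672
    p1673)
   (brec_all (PrV chk)
    p1674
    p1675))
  (brec_all (PrV chk)
   (brec_all (PrV chk)
    p1676
    p1677)
   (brec_all (PrV chk)
    p1678
    p1679))))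

theorem A0_105_ok (i : Nat) : PrV chk (A0_105 i) := by
 unfold A0_105
 exact
 (brec_all (PrV chk)
 (brec_all (PrV chk)
  (brec_all (PrV chk)
   (brec_all (PrV chk)
    p1680
    p1681)
   (brec_all (PrV chk)
    p1682
    p1683))
  (brec_all (PrV chk)
   (brec_all (PrV chk)
    p1684
    p1685)
   (brec_all (PrV chk)
    p1686
    p1687)))
 (brec_all (PrV chk)
  (brec_all (PrV chk)
   (brec_all (PrV chk)
    p1688
    p1689)
   (brec_all (PrV chk)
    p1690
    p1691))
  (brec_all (PrV chk)
   (brec_all (PrV chk)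
    p1692
    p1693)
   (brec_all (PrV chk)
    p1694
    p1695))))

theorem A0_106_ok (i : Nat) : PrV chk (A0_106 i) := by
 unfold A0_106
 exact
 (brec_all (PrV chk)
 (brec_all (PrV chk)
  (brec_all (PrV chk)
   (brec_all (PrV chk)
    p1696
    p1697)
   (brec_all (PrV chk)
    p1698
    p1699))
  (brec_all (PrV chk)
   (brec_all (PrV chk)
    p1700
    p1701)
   (brec_all (PrV chk)
    p1702
    p1703)))
 (brec_all (PrV chk)
  (brec_all (PrV chk)
   (brec_all (PrV chk)
    p1704
    p1705)
   (brec_all (PrV chk)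
    p1706
    p1707))
  (brec_all (PrV chk)
   (brec_all (PrV chk)
    p1708
    p1709)
   (brec_all (PrV chk)
    p1710
    p1711))))

theorem A0_107_ok (i : Nat) : PrV chk (A0_107 i) := by
 unfold A0_107
 exact
 (brec_all (PrV chk)
 (brec_all (PrV chk)
  (brec_all (PrV chk)
   (brec_all (PrV chk)
    p1712
    p1713)
   (brec_all (PrV chk)
    p1714
    p1715))
  (brec_all (PrV chk)
   (brec_all (PrV chk)
    p1716
    p1717)
   (brec_all (PrV chk)
    p1718
    p1719)))
 (brec_all (PrV chk)
  (brec_all (PrV chk)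
   (brec_all (PrV chk)
    p1720
    p1721)
   (brec_all (PrV chk)
    p1722
    p1723))
  (brec_all (PrV chk)
   (brec_all (PrV chk)
    p1724
    p1725)
   (brec_all (PrV chk)
    p1726
    p1727))))

theorem A0_108_ok (i : Nat) : PrV chk (A0_108 i) := by
 unfold A0_108
 exact
 (brec_all (PrV chk)
 (brec_all (PrV chk)
  (brec_all (PrV chk)
   (brec_all (PrV chk)
    p1728
    p1729)
   (brec_all (PrV chk)
    p1730
    p1731))
  (brec_all (PrV chk)
   (brec_all (PrV chk)
    p1732
    p1733)
   (brec_all (PrV chk)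
    p1734
    p1735)))
 (brec_all (PrV chk)
  (brec_all (PrV chk)
   (brec_all (PrV chk)
    p1736
    p1737)
   (brec_all (PrV chk)
    p1738
    p1739))
  (brec_all (PrV chk)
   (brec_all (PrV chk)
    p1740
    p1741)
   (brec_all (PrV chk)
    p1742
    p1743))))

theorem A0_109_ok (i : Nat) : PrV chk (A0_109 i) := by
 unfold A0_109
 exact
 (brec_all (PrV chk)
 (brec_all (PrV chk)
  (brec_all (PrV chk)
   (brec_all (PrV chk)
    p1744
    p1745)
   (brec_all (PrV chk)
    p1746
    p1747))
  (brec_all (PrV chk)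
   (brec_all (PrV chk)
    p1748
    p1749)
   (brec_all (PrV chk)
    p1750
    p1751)))
 (brec_all (PrV chk)
  (brec_all (PrV chk)
   (brec_all (PrV chk)
    p1752
    p1753)
   (brec_all (PrV chk)
    p1754
    p1755))
  (brec_all (PrV chk)
   (brec_all (PrV chk)
    p1756
    p1757)
   (brec_all (PrV chk)
    p1758
    p1759))))

theorem A0_110_ok (i : Nat) : PrV chk (A0_110 i) := by
 unfold A0_110
 exact
 (brec_all (PrV chk)
 (brec_all (PrV chk)
  (brec_all (PrV chk)
   (brec_all (PrV chk)
    p1760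
    p1761)
   (brec_all (PrV chk)
    p1762
    p1763))
  (brec_all (PrV chk)
   (brec_all (PrV chk)
    p1764
    p1765)
   (brec_all (PrV chk)
    p1766
    p1767)))
 (brec_all (PrV chk)
  (brec_all (PrV chk)
   (brec_all (PrV chk)
    p1768
    p1769)
   (brec_all (PrV chk)
    p1770
    p1771))
  (brec_all (PrV chk)
   (brec_all (PrV chk)
    p1772
    p1773)
   (brec_all (PrV chk)
    p1774
    p1775))))

theorem A0_111_ok (i : Nat) : PrV chk (A0_111 i) := by
 unfold A0_111
 exact
 (brec_all (PrV chk)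
 (brec_all (PrV chk)
  (brec_all (PrV chk)
   (brec_all (PrV chk)
    p1776
    p1777)
   (brec_all (PrV chk)
    p1778
    p1779))
  (brec_all (PrV chk)
   (brec_all (PrV chk)
    p1780
    p1781)
   (brec_all (PrV chk)
    p1782
    p1783)))
 (brec_all (PrV chk)
  (brec_all (PrV chk)
   (brec_all (PrV chk)
    p1784
    p1785)
   (brec_all (PrV chk)
    p1786
    p1787))
  (brec_all (PrV chk)
   (brec_all (PrV chk)
    p1788
    p1789)
   (brec_all (PrV chk)
    p1790
    p1791))))

theorem A0_112_ok (i : Nat) : PrV chk (A0_112 i) := by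
 unfold A0_112
 exact
 (brec_all (PrV chk)
 (brec_all (PrV chk)
  (brec_all (PrV chk)
   (brec_all (PrV chk)
    p1792
    p1793)
   (brec_all (PrV chk)
    p1794
    p1795))
  (brec_all (PrV chk)
   (brec_all (PrV chk)
    p1796
    p1797)
   (brec_all (PrV chk)
    p1798
    p1799)))
 (brec_all (PrV chk)
  (brec_all (PrV chk)
   (brec_all (PrV chk)
    p1800
    p1801)
   (brec_all (PrV chk)
    p1802
    p1803))
  (brec_all (PrV chk)
   (brec_all (PrV chk)
    p1804
    p1805)
   (brec_all (PrV chk)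
    p1806
    p1807))))

theorem A0_113_ok (i : Nat) : PrV chk (A0_113 i) := by
 unfold A0_113
 exact
 (brec_all (PrV chk)
 (brec_all (PrV chk)
  (brec_all (PrV chk)
   (brec_all (PrV chk)
    p1808
    p1809)
   (brec_all (PrV chk)
    p1810
    p1811))
  (brec_all (PrV chk)
   (brec_all (PrV chk)
    p1812
    p1813)
   (brec_all (PrV chk)
    p1814
    p1815)))
 (brec_all (PrV chk)
  (brec_all (PrV chk)
   (brec_all (PrV chk)
    p1816
    p1817)
   (brec_all (PrV chk)
    p1818
    p1819))
  (brec_all (PrV chk)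
   (brec_all (PrV chk)
    p1820
    p1821)
   (brec_all (PrV chk)
    p1822
    p1823))))

theorem A0_114_ok (i : Nat) : PrV chk (A0_114 i) := by
 unfold A0_114
 exact
 (brec_all (PrV chk)
 (brec_all (PrV chk)
  (brec_all (PrV chk)
   (brec_all (PrV chk)
    p1824
    p1825)
   (brec_all (PrV chk)
    p1826
    p1827))
  (brec_all (PrV chk)
   (brec_all (PrV chk)
    p1828
    p1829)
   (brec_all (PrV chk)
    p1830
    p1831)))
 (brec_all (PrV chk)
  (brec_all (PrV chk)
   (brec_all (PrV chk)
    p1832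
    p1833)
   (brec_all (PrV chk)
    p1834
    p1835))
  (brec_all (PrV chk)
   (brec_all (PrV chk)
    p1836
    p1837)
   (brec_all (PrV chk)
    p1838
    p1839))))

theorem A0_115_ok (i : Nat) : PrV chk (A0_115 i) := by
 unfold A0_115
 exact
 (brec_all (PrV chk)
 (brec_all (PrV chk)
  (brec_all (PrV chk)
   (brec_all (PrV chk)
    p1840
    p1841)
   (brec_all (PrV chk)
    p1842
    p1843))
  (brec_all (PrV chk)
   (brec_all (PrV chk)
    p1844
    p1845)
   (brec_all (PrV chk)
    p1846
    p1847)))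
 (brec_all (PrV chk)
  (brec_all (PrV chk)
   (brec_all (PrV chk)
    p1848
    p1849)
   (brec_all (PrV chk)
    p1850
    p1851))
  (brec_all (PrV chk)
   (brec_all (PrV chk)
    p1852
    p1853)
   (brec_all (PrV chk)
    p1854
    p1855))))

theorem A0_116_ok (i : Nat) : PrV chk (A0_116 i) := by
 unfold A0_116
 exact
 (brec_all (PrV chk)
 (brec_all (PrV chk)
  (brec_all (PrV chk)
   (brec_all (PrV chk)
    p1856
    p1857)
   (brec_all (PrV chk)
    p1858
    p1859))
  (brec_all (PrV chk)
   (brec_all (PrV chk)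
    p1860
    p1861)
   (brec_all (PrV chk)
    p1862
    p1863)))
 (brec_all (PrV chk)
  (brec_all (PrV chk)
   (brec_all (PrV chk)
    p1864
    p1865)
   (brec_all (PrV chk)
    p1866
    p1867))
  (brec_all (PrV chk)
   (brec_all (PrV chk)
    p1868
    p1869)
   (brec_all (PrV chk)
    p1870
    p1871))))

theorem A0_117_ok (i : Nat) : PrV chk (A0_117 i) := by
 unfold A0_117
 exact
 (brec_all (PrV chk)
 (brec_all (PrV chk)
  (brec_all (PrV chk)
   (brec_all (PrV chk)
    p1872
    p1873)
   (brec_all (PrV chk)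
    p1874
    p1875))
  (brec_all (PrV chk)
   (brec_all (PrV chk)
    p1876
    p1877)
   (brec_all (PrV chk)
    p1878
    p1879)))
 (brec_all (PrV chk)
  (brec_all (PrV chk)
   (brec_all (PrV chk)
    p1880
    p1881)
   (brec_all (PrV chk)
    p1882
    p1883))
  (brec_all (PrV chk)
   (brec_all (PrV chk)
    p1884
    p1885)
   (brec_all (PrV chk)
    p1886
    p1887))))

theorem A0_118_ok (i : Nat) : PrV chk (A0_118 i) := by
 unfold A0_118
 exact
 (brec_all (PrV chk)
 (brec_all (PrV chk)
  (brec_all (PrV chk)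
   (brec_all (PrV chk)
    p1888
    p1889)
   (brec_all (PrV chk)
    p1890
    p1891))
  (brec_all (PrV chk)
   (brec_all (PrV chk)
    p1892
    p1893)
   (brec_all (PrV chk)
    p1894
    p1895)))
 (brec_all (PrV chk)
  (brec_all (PrV chk)
   (brec_all (PrV chk)
    p1896
    p1897)
   (brec_all (PrV chk)
    p1898
    p1899))
  (brec_all (PrV chk)
   (brec_all (PrV chk)
    p1900
    p1901)
   (brec_all (PrV chk)
    p1902
    p1903))))

theorem A0_119_ok (i : Nat) : PrV chk (A0_119 i) := by
 unfold A0_119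
 exact
 (brec_all (PrV chk)
 (brec_all (PrV chk)
  (brec_all (PrV chk)
   (brec_all (PrV chk)
    p1904
    p1905)
   (brec_all (PrV chk)
    p1906
    p1907))
  (brec_all (PrV chk)
   (brec_all (PrV chk)
    p1908
    p1909)
   (brec_all (PrV chk)
    p1910
    p1911)))
 (brec_all (PrV chk)
  (brec_all (PrV chk)
   (brec_all (PrV chk)
    p1912
    p1913)
   (brec_all (PrV chk)
    p1914
    p1915))
  (brec_all (PrV chk)
   (brec_all (PrV chk)
    p1916
    p1917)
   (brec_all (PrV chk)
    p1918
    p1919))))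

theorem A0_120_ok (i : Nat) : PrV chk (A0_120 i) := by
 unfold A0_120
 exact
 (brec_all (PrV chk)
 (brec_all (PrV chk)
  (brec_all (PrV chk)
   (brec_all (PrV chk)
    p1920
    p1921)
   (brec_all (PrV chk)
    p1922
    p1923))
  (brec_all (PrV chk)
   (brec_all (PrV chk)
    p1924
    p1925)
   (brec_all (PrV chk)
    p1926
    p1927)))
 (brec_all (PrV chk)
  (brec_all (PrV chk)
   (brec_all (PrV chk)
    p1928
    p1929)
   (brec_all (PrV chk)
    p1930
    p1931))
  (brec_all (PrV chk)
   (brec_all (PrV chk)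
    p1932
    p1933)
   (brec_all (PrV chk)
    p1934
    p1935))))

theorem A0_121_ok (i : Nat) : PrV chk (A0_121 i) := by
 unfold A0_121
 exact
 (brec_all (PrV chk)
 (brec_all (PrV chk)
  (brec_all (PrV chk)
   (brec_all (PrV chk)
    p1936
    p1937)
   (brec_all (PrV chk)
    p1938
    p1939))
  (brec_all (PrV chk)
   (brec_all (PrV chk)
    p1940
    p1941)
   (brec_all (PrV chk)
    p1942
    p1943)))
 (brec_all (PrV chk)
  (brec_all (PrV chk)
   (brec_all (PrV chk)
    p1944
    p1945)
   (brec_all (PrV chk)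
    p1946
    p1947))
  (brec_all (PrV chk)
   (brec_all (PrV chk)
    p1948
    p1949)
   (brec_all (PrV chk)
    p1950
    p1951))))

theorem A0_122_ok (i : Nat) : PrV chk (A0_122 i) := by
 unfold A0_122
 exact
 (brec_all (PrV chk)
 (brec_all (PrV chk)
  (brec_all (PrV chk)
   (brec_all (PrV chk)
    p1952
    p1953)
   (brec_all (PrV chk)
    p1954
    p1955))
  (brec_all (PrV chk)
   (brec_all (PrV chk)
    p1956
    p1957)
   (brec_all (PrV chk)
    p1958
    p1959)))
 (brec_all (PrV chk)
  (brec_all (PrV chk)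
   (brec_all (PrV chk)
    p1960
    p1961)
   (brec_all (PrV chk)
    p1962
    p1963))
  (brec_all (PrV chk)
   (brec_all (PrV chk)
    p1964
    p1965)
   (brec_all (PrV chk)
    p1966
    p1967))))

theorem A0_123_ok (i : Nat) : PrV chk (A0_123 i) := by
 unfold A0_123
 exact
 (brec_all (PrV chk)
 (brec_all (PrV chk)
  (brec_all (PrV chk)
   (brec_all (PrV chk)
    p1968
    p1969)
   (brec_all (PrV chk)
    p1970
    p1971))
  (brec_all (PrV chk)
   (brec_all (PrV chk)
    p1972
    p1973)
   (brec_all (PrV chk)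
    p1974
    p1975)))
 (brec_all (PrV chk)
  (brec_all (PrV chk)
   (brec_all (PrV chk)
    p1976
    p1977)
   (brec_all (PrV chk)
    p1978
    p1979))
  (brec_all (PrV chk)
   (brec_all (PrV chk)
    p1980
    p1981)
   (brec_all (PrV chk)
    p1982
    p1983))))

theorem A0_124_ok (i : Nat) : PrV chk (A0_124 i) := by
 unfold A0_124
 exact
 (brec_all (PrV chk)
 (brec_all (PrV chk)
  (brec_all (PrV chk)
   (brec_all (PrV chk)
    p1984
    p1985)
   (brec_all (PrV chk)
    p1986
    p1987))
  (brec_all (PrV chk)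
   (brec_all (PrV chk)
    p1988
    p1989)
   (brec_all (PrV chk)
    p1990
    p1991)))
 (brec_all (PrV chk)
  (brec_all (PrV chk)
   (brec_all (PrV chk)
    p1992
    p1993)
   (brec_all (PrV chk)
    p1994
    p1995))
  (brec_all (PrV chk)
   (brec_all (PrV chk)
    p1996
    p1997)
   (brec_all (PrV chk)
    p1998
    p1999))))

theorem A0_125_ok (i : Nat) : PrV chk (A0_125 i) := by
 unfold A0_125
 exact
 (brec_all (PrV chk)
 (brec_all (PrV chk)
  (brec_all (PrV chk)
   (brec_all (PrV chk)
    p2000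
    p2001)
   (brec_all (PrV chk)
    p2002
    p2003))
  (brec_all (PrV chk)
   (brec_all (PrV chk)
    p2004
    p2005)
   (brec_all (PrV chk)
    p2006
    p2007)))
 (brec_all (PrV chk)
  (brec_all (PrV chk)
   (brec_all (PrV chk)
    p2008
    p2009)
   (brec_all (PrV chk)
    p2010
    p2011))
  (brec_all (PrV chk)
   (brec_all (PrV chk)
    p2012
    p2013)
   (brec_all (PrV chk)
    p2014
    p2015))))

theorem A0_126_ok (i : Nat) : PrV chk (A0_126 i) := by
 unfold A0_126
 exact
 (brec_all (PrV chk)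
 (brec_all (PrV chk)
  (brec_all (PrV chk)
   (brec_all (PrV chk)
    p2016
    p2017)
   (brec_all (PrV chk)
    p2018
    p2019))
  (brec_all (PrV chk)
   (brec_all (PrV chk)
    p2020
    p2021)
   (brec_all (PrV chk)
    p2022
    p2023)))
 (brec_all (PrV chk)
  (brec_all (PrV chk)
   (brec_all (PrV chk)
    p2024
    p2025)
   (brec_all (PrV chk)
    p2026
    p2027))
  (brec_all (PrV chk)
   (brec_all (PrV chk)
    p2028
    p2029)
   (brec_all (PrV chk)
    p2030
    p2031))))

theorem A0_127_ok (i : Nat) : PrV chk (A0_127 i) := by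
 unfold A0_127
 exact
 (brec_all (PrV chk)
 (brec_all (PrV chk)
  (brec_all (PrV chk)
   (brec_all (PrV chk)
    p2032
    p2033)
   (brec_all (PrV chk)
    p2034
    p2035))
  (brec_all (PrV chk)
   (brec_all (PrV chk)
    p2036
    p2037)
   (brec_all (PrV chk)
    p2038
    p2039)))
 (brec_all (PrV chk)
  (brec_all (PrV chk)
   (brec_all (PrV chk)
    p2040
    p2041)
   (brec_all (PrV chk)
    p2042
    p2043))
  (brec_all (PrV chk)
   (brec_all (PrV chk)
    p2044
    p2045)
   (brec_all (PrV chk)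
    p2046
    p2047))))

theorem A0_128_ok (i : Nat) : PrV chk (A0_128 i) := by
 unfold A0_128
 exact
 (brec_all (PrV chk)
 (brec_all (PrV chk)
  (brec_all (PrV chk)
   (brec_all (PrV chk)
    p2048
    p2049)
   (brec_all (PrV chk)
    p2050
    p2051))
  (brec_all (PrV chk)
   (brec_all (PrV chk)
    p2052
    p2053)
   (brec_all (PrV chk)
    p2054
    p2055)))
 (brec_all (PrV chk)
  (brec_all (PrV chk)
   (brec_all (PrV chk)
    p2056
    p2057)
   (brec_all (PrV chk)
    p2058
    p2059))
  (brec_all (PrV chk)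
   (brec_all (PrV chk)
    p2060
    p2061)
   (brec_all (PrV chk)
    p2062
    p2063))))

theorem A0_129_ok (i : Nat) : PrV chk (A0_129 i) := by
 unfold A0_129
 exact
 (brec_all (PrV chk)
 (brec_all (PrV chk)
  (brec_all (PrV chk)
   (brec_all (PrV chk)
    p2064
    p2065)
   (brec_all (PrV chk)
    p2066
    p2067))
  (brec_all (PrV chk)
   (brec_all (PrV chk)
    p2068
    p2069)
   (brec_all (PrV chk)
    p2070
    p2071)))
 (brec_all (PrV chk)
  (brec_all (PrV chk)
   (brec_all (PrV chk)
    p2072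
    p2073)
   (brec_all (PrV chk)
    p2074
    p2075))
  (brec_all (PrV chk)
   (brec_all (PrV chk)
    p2076
    p2077)
   (brec_all (PrV chk)
    p2078
    p2079))))

theorem A0_130_ok (i : Nat) : PrV chk (A0_130 i) := by
 unfold A0_130
 exact
 (brec_all (PrV chk)
 (brec_all (PrV chk)
  (brec_all (PrV chk)
   (brec_all (PrV chk)
    p2080
    p2081)
   (brec_all (PrV chk)
    p2082
    p2083))
  (brec_all (PrV chk)
   (brec_all (PrV chk)
    p2084
    p2085)
   (brec_all (PrV chk)
    p2086
    p2087)))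
 (brec_all (PrV chk)
  (brec_all (PrV chk)
   (brec_all (PrV chk)
    p2088
    p2089)
   (brec_all (PrV chk)
    p2090
    p2091))
  (brec_all (PrV chk)
   (brec_all (PrV chk)
    p2092
    p2093)
   (brec_all (PrV chk)
    p2094
    p2095))))

theorem A0_131_ok (i : Nat) : PrV chk (A0_131 i) := by
 unfold A0_131
 exact
 (brec_all (PrV chk)
 (brec_all (PrV chk)
  (brec_all (PrV chk)
   (brec_all (PrV chk)
    p2096
    p2097)
   (brec_all (PrV chk)
    p2098
    p2099))
  (brec_all (PrV chk)
   (brec_all (PrV chk)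
    p2100
    p2101)
   (brec_all (PrV chk)
    p2102
    p2103)))
 (brec_all (PrV chk)
  (brec_all (PrV chk)
   (brec_all (PrV chk)
    p2104
    p2105)
   (brec_all (PrV chk)
    p2106
    p2107))
  (brec_all (PrV chk)
   (brec_all (PrV chk)
    p2108
    p2109)
   (brec_all (PrV chk)
    p2110
    p2111))))

theorem A0_132_ok (i : Nat) : PrV chk (A0_132 i) := by
 unfold A0_132
 exact
 (brec_all (PrV chk)
 (brec_all (PrV chk)
  (brec_all (PrV chk)
   (brec_all (PrV chk)
    p2112
    p2113)
   (brec_all (PrV chk)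
    p2114
    p2115))
  (brec_all (PrV chk)
   (brec_all (PrV chk)
    p2116
    p2117)
   (brec_all (PrV chk)
    p2118
    p2119)))
 (brec_all (PrV chk)
  (brec_all (PrV chk)
   (brec_all (PrV chk)
    p2120
    p2121)
   (brec_all (PrV chk)
    p2122
    p2123))
  (brec_all (PrV chk)
   (brec_all (PrV chk)
    p2124
    p2125)
   (brec_all (PrV chk)
    p2126
    p2127))))

theorem A0_133_ok (i : Nat) : PrV chk (A0_133 i) := by
 unfold A0_133
 exact
 (brec_all (PrV chk)
 (brec_all (PrV chk)
  (brec_all (PrV chk)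
   (brec_all (PrV chk)
    p2128
    p2129)
   (brec_all (PrV chk)
    p2130
    p2131))
  (brec_all (PrV chk)
   (brec_all (PrV chk)
    p2132
    p2133)
   (brec_all (PrV chk)
    p2134
    p2135)))
 (brec_all (PrV chk)
  (brec_all (PrV chk)
   (brec_all (PrV chk)
    p2136
    p2137)
   (brec_all (PrV chk)
    p2138
    p2139))
  (brec_all (PrV chk)
   (brec_all (PrV chk)
    p2140
    p2141)
   (brec_all (PrV chk)
    p2142
    p2143))))

theorem A0_134_ok (i : Nat) : PrV chk (A0_134 i) := by
 unfold A0_134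
 exact
 (brec_all (PrV chk)
 (brec_all (PrV chk)
  (brec_all (PrV chk)
   (brec_all (PrV chk)
    p2144
    p2145)
   (brec_all (PrV chk)
    p2146
    p2147))
  (brec_all (PrV chk)
   (brec_all (PrV chk)
    p2148
    p2149)
   (brec_all (PrV chk)
    p2150
    p2151)))
 (brec_all (PrV chk)
  (brec_all (PrV chk)
   (brec_all (PrV chk)
    p2152
    p2153)
   (brec_all (PrV chk)
    p2154
    p2155))
  (brec_all (PrV chk)
   (brec_all (PrV chk)
    p2156
    p2157)
   (brec_all (PrV chk)
    p2158
    p2159))))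

theorem A0_135_ok (i : Nat) : PrV chk (A0_135 i) := by
 unfold A0_135
 exact
 (brec_all (PrV chk)
 (brec_all (PrV chk)
  (brec_all (PrV chk)
   (brec_all (PrV chk)
    p2160
    p2161)
   (brec_all (PrV chk)
    p2162
    p2163))
  (brec_all (PrV chk)
   (brec_all (PrV chk)
    p2164
    p2165)
   (brec_all (PrV chk)
    p2166
    p2167)))
 (brec_all (PrV chk)
  (brec_all (PrV chk)
   (brec_all (PrV chk)
    p2168
    p2169)
   (brec_all (PrV chk)
    p2170
    p2171))
  (brec_all (PrV chk)
   (brec_all (PrV chk)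
    p2172
    p2173)
   (brec_all (PrV chk)
    p2174
    p2175))))

theorem A0_136_ok (i : Nat) : PrV chk (A0_136 i) := by
 unfold A0_136
 exact
 (brec_all (PrV chk)
 (brec_all (PrV chk)
  (brec_all (PrV chk)
   (brec_all (PrV chk)
    p2176
    p2177)
   (brec_all (PrV chk)
    p2178
    p2179))
  (brec_all (PrV chk)
   (brec_all (PrV chk)
    p2180
    p2181)
   (brec_all (PrV chk)
    p2182
    p2183)))
 (brec_all (PrV chk)
  (brec_all (PrV chk)
   (brec_all (PrV chk)
    p2184
    p2185)
   (brec_all (PrV chk)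
    p2186
    p2187))
  (brec_all (PrV chk)
   (brec_all (PrV chk)
    p2188
    p2189)
   (brec_all (PrV chk)
    p2190
    p2191))))

theorem A0_137_ok (i : Nat) : PrV chk (A0_137 i) := by
 unfold A0_137
 exact
 (brec_all (PrV chk)
 (brec_all (PrV chk)
  (brec_all (PrV chk)
   (brec_all (PrV chk)
    p2192
    p2193)
   (brec_all (PrV chk)
    p2194
    p2195))
  (brec_all (PrV chk)
   (brec_all (PrV chk)
    p2196
    p2197)
   (brec_all (PrV chk)
    p2198
    p2199)))
 (brec_all (PrV chk)
  (brec_all (PrV chk)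
   (brec_all (PrV chk)
    p2200
    p2201)
   (brec_all (PrV chk)
    p2202
    p2203))
  (brec_all (PrV chk)
   (brec_all (PrV chk)
    p2204
    p2205)
   (brec_all (PrV chk)
    p2206
    p2207))))

theorem A0_138_ok (i : Nat) : PrV chk (A0_138 i) := by
 unfold A0_138
 exact
 (brec_all (PrV chk)
 (brec_all (PrV chk)
  (brec_all (PrV chk)
   (brec_all (PrV chk)
    p2208
    p2209)
   (brec_all (PrV chk)
    p2210
    p2211))
  (brec_all (PrV chk)
   (brec_all (PrV chk)
    p2212
    p2213)
   (brec_all (PrV chk)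
    p2214
    p2215)))
 (brec_all (PrV chk)
  (brec_all (PrV chk)
   (brec_all (PrV chk)
    p2216
    p2217)
   (brec_all (PrV chk)
    p2218
    p2219))
  (brec_all (PrV chk)
   (brec_all (PrV chk)
    p2220
    p2221)
   (brec_all (PrV chk)
    p2222
    p2223))))

theorem A0_139_ok (i : Nat) : PrV chk (A0_139 i) := by
 unfold A0_139
 exact
 (brec_all (PrV chk)
 (brec_all (PrV chk)
  (brec_all (PrV chk)
   (brec_all (PrV chk)
    p2224
    p2225)
   (brec_all (PrV chk)
    p2226
    p2227))
  (brec_all (PrV chk)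
   (brec_all (PrV chk)
    p2228
    p2229)
   (brec_all (PrV chk)
    p2230
    p2231)))
 (brec_all (PrV chk)
  (brec_all (PrV chk)
   (brec_all (PrV chk)
    p2232
    p2233)
   (brec_all (PrV chk)
    p2234
    p2235))
  (brec_all (PrV chk)
   (brec_all (PrV chk)
    p2236
    p2237)
   (brec_all (PrV chk)
    p2238
    p2239))))

theorem A0_140_ok (i : Nat) : PrV chk (A0_140 i) := by
 unfold A0_140
 exact
 (brec_all (PrV chk)
 (brec_all (PrV chk)
  (brec_all (PrV chk)
   (brec_all (PrV chk)
    p2240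
    p2241)
   (brec_all (PrV chk)
    p2242
    p2243))
  (brec_all (PrV chk)
   (brec_all (PrV chk)
    p2244
    p2245)
   (brec_all (PrV chk)
    p2246
    p2247)))
 (brec_all (PrV chk)
  (brec_all (PrV chk)
   (brec_all (PrV chk)
    p2248
    p2249)
   (brec_all (PrV chk)
    p2250
    p2251))
  (brec_all (PrV chk)
   (brec_all (PrV chk)
    p2252
    p2253)
   (brec_all (PrV chk)
    p2254
    p2255))))

theorem A0_141_ok (i : Nat) : PrV chk (A0_141 i) := by
 unfold A0_141
 exact
 (brec_all (PrV chk)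
 (brec_all (PrV chk)
  (brec_all (PrV chk)
   (brec_all (PrV chk)
    p2256
    p2257)
   (brec_all (PrV chk)
    p2258
    p2259))
  (brec_all (PrV chk)
   (brec_all (PrV chk)
    p2260
    p2261)
   (brec_all (PrV chk)
    p2262
    p2263)))
 (brec_all (PrV chk)
  (brec_all (PrV chk)
   (brec_all (PrV chk)
    p2264
    p2265)
   (brec_all (PrV chk)
    p2266
    p2267))
  (brec_all (PrV chk)
   (brec_all (PrV chk)
    p2268
    p2269)
   (brec_all (PrV chk)
    p2270
    p2271))))

theorem A0_142_ok (i : Nat) : PrV chk (A0_142 i) := by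
 unfold A0_142
 exact
 (brec_all (PrV chk)
 (brec_all (PrV chk)
  (brec_all (PrV chk)
   (brec_all (PrV chk)
    p2272
    p2273)
   (brec_all (PrV chk)
    p2274
    p2275))
  (brec_all (PrV chk)
   (brec_all (PrV chk)
    p2276
    p2277)
   (brec_all (PrV chk)
    p2278
    p2279)))
 (brec_all (PrV chk)
  (brec_all (PrV chk)
   (brec_all (PrV chk)
    p2280
    p2281)
   (brec_all (PrV chk)
    p2282
    p2283))
  (brec_all (PrV chk)
   (brec_all (PrV chk)
    p2284
    p2285)
   (brec_all (PrV chk)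
    p2286
    p2287))))

theorem A0_143_ok (i : Nat) : PrV chk (A0_143 i) := by
 unfold A0_143
 exact
 (brec_all (PrV chk)
 (brec_all (PrV chk)
  (brec_all (PrV chk)
   (brec_all (PrV chk)
    p2288
    p2289)
   (brec_all (PrV chk)
    p2290
    p2291))
  (brec_all (PrV chk)
   (brec_all (PrV chk)
    p2292
    p2293)
   (brec_all (PrV chk)
    p2294
    p2295)))
 (brec_all (PrV chk)
  (brec_all (PrV chk)
   (brec_all (PrV chk)
    p2296
    p2297)
   (brec_all (PrV chk)
    p2298
    p2299))
  (brec_all (PrV chk)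
   (brec_all (PrV chk)
    p2300
    p2301)
   (brec_all (PrV chk)
    p2302
    p2303))))

theorem A0_144_ok (i : Nat) : PrV chk (A0_144 i) := by
 unfold A0_144
 exact
 (brec_all (PrV chk)
 (brec_all (PrV chk)
  (brec_all (PrV chk)
   (brec_all (PrV chk)
    p2304
    p2305)
   (brec_all (PrV chk)
    p2306
    p2307))
  (brec_all (PrV chk)
   (brec_all (PrV chk)
    p2308
    p2309)
   (brec_all (PrV chk)
    p2310
    p2311)))
 (brec_all (PrV chk)
  (brec_all (PrV chk)
   (brec_all (PrV chk)
    p2312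
    p2313)
   (brec_all (PrV chk)
    p2314
    p2315))
  (brec_all (PrV chk)
   (brec_all (PrV chk)
    p2316
    p2317)
   (brec_all (PrV chk)
    p2318
    p2319))))

theorem A0_145_ok (i : Nat) : PrV chk (A0_145 i) := by
 unfold A0_145
 exact
 (brec_all (PrV chk)
 (brec_all (PrV chk)
  (brec_all (PrV chk)
   (brec_all (PrV chk)
    p2320
    p2321)
   (brec_all (PrV chk)
    p2322
    p2323))
  (brec_all (PrV chk)
   (brec_all (PrV chk)
    p2324
    p2325)
   (brec_all (PrV chk)
    p2326
    p2327)))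
 (brec_all (PrV chk)
  (brec_all (PrV chk)
   (brec_all (PrV chk)
    p2328
    p2329)
   (brec_all (PrV chk)
    p2330
    p2331))
  (brec_all (PrV chk)
   (brec_all (PrV chk)
    p2332
    p2333)
   (brec_all (PrV chk)
    p2334
    p2335))))

theorem A0_146_ok (i : Nat) : PrV chk (A0_146 i) := by
 unfold A0_146
 exact
 (brec_all (PrV chk)
 (brec_all (PrV chk)
  (brec_all (PrV chk)
   (brec_all (PrV chk)
    p2336
    p2337)
   (brec_all (PrV chk)
    p2338
    p2339))
  (brec_all (PrV chk)
   (brec_all (PrV chk)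
    p2340
    p2341)
   (brec_all (PrV chk)
    p2342
    p2343)))
 (brec_all (PrV chk)
  (brec_all (PrV chk)
   (brec_all (PrV chk)
    p2344
    p2345)
   (brec_all (PrV chk)
    p2346
    p2347))
  (brec_all (PrV chk)
   (brec_all (PrV chk)
    p2348
    p2349)
   (brec_all (PrV chk)
    p2350
    p2351))))

theorem A0_147_ok (i : Nat) : PrV chk (A0_147 i) := by
 unfold A0_147
 exact
 (brec_all (PrV chk)
 (brec_all (PrV chk)
  (brec_all (PrV chk)
   (brec_all (PrV chk)
    p2352
    p2353)
   (brec_all (PrV chk)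
    p2354
    p2355))
  (brec_all (PrV chk)
   (brec_all (PrV chk)
    p2356
    p2357)
   (brec_all (PrV chk)
    p2358
    p2359)))
 (brec_all (PrV chk)
  (brec_all (PrV chk)
   (brec_all (PrV chk)
    p2360
    p2361)
   (brec_all (PrV chk)
    p2362
    p2363))
  (brec_all (PrV chk)
   (brec_all (PrV chk)
    p2364
    p2365)
   (brec_all (PrV chk)
    p2366
    p2367))))

theorem A0_148_ok (i : Nat) : PrV chk (A0_148 i) := by
 unfold A0_148
 exact
 (brec_all (PrV chk)
 (brec_all (PrV chk)
  (brec_all (PrV chk)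
   (brec_all (PrV chk)
    p2368
    p2369)
   (brec_all (PrV chk)
    p2370
    p2371))
  (brec_all (PrV chk)
   (brec_all (PrV chk)
    p2372
    p2373)
   (brec_all (PrV chk)
    p2374
    p2375)))
 (brec_all (PrV chk)
  (brec_all (PrV chk)
   (brec_all (PrV chk)
    p2376
    p2377)
   (brec_all (PrV chk)
    p2378
    p2379))
  (brec_all (PrV chk)
   (brec_all (PrV chk)
    p2380
    p2381)
   (brec_all (PrV chk)
    p2382
    p2383))))

theorem A0_149_ok (i : Nat) : PrV chk (A0_149 i) := by
 unfold A0_149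
 exact
 (brec_all (PrV chk)
 (brec_all (PrV chk)
  (brec_all (PrV chk)
   (brec_all (PrV chk)
    p2384
    p2385)
   (brec_all (PrV chk)
    p2386
    p2387))
  (brec_all (PrV chk)
   (brec_all (PrV chk)
    p2388
    p2389)
   (brec_all (PrV chk)
    p2390
    p2391)))
 (brec_all (PrV chk)
  (brec_all (PrV chk)
   (brec_all (PrV chk)
    p2392
    p2393)
   (brec_all (PrV chk)
    p2394
    p2395))
  (brec_all (PrV chk)
   (brec_all (PrV chk)
    p2396
    p2397)
   (brec_all (PrV chk)
    p2398
    p2399))))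

theorem A0_150_ok (i : Nat) : PrV chk (A0_150 i) := by
 unfold A0_150
 exact
 (brec_all (PrV chk)
 (brec_all (PrV chk)
  (brec_all (PrV chk)
   (brec_all (PrV chk)
    p2400
    p2401)
   (brec_all (PrV chk)
    p2402
    p2403))
  (brec_all (PrV chk)
   (brec_all (PrV chk)
    p2404
    p2405)
   (brec_all (PrV chk)
    p2406
    p2407)))
 (brec_all (PrV chk)
  (brec_all (PrV chk)
   (brec_all (PrV chk)
    p2408
    p2409)
   (brec_all (PrV chk)
    p2410
    p2411))
  (brec_all (PrV chk)
   (brec_all (PrV chk)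
    p2412
    p2413)
   (brec_all (PrV chk)
    p2414
    p2415))))

theorem A0_151_ok (i : Nat) : PrV chk (A0_151 i) := by
 unfold A0_151
 exact
 (brec_all (PrV chk)
 (brec_all (PrV chk)
  (brec_all (PrV chk)
   (brec_all (PrV chk)
    p2416
    p2417)
   (brec_all (PrV chk)
    p2418
    p2419))
  (brec_all (PrV chk)
   (brec_all (PrV chk)
    p2420
    p2421)
   (brec_all (PrV chk)
    p2422
    p2423)))
 (brec_all (PrV chk)
  (brec_all (PrV chk)
   (brec_all (PrV chk)
    p2424
    p2425)
   (brec_all (PrV chk)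
    p2426
    p2427))
  (brec_all (PrV chk)
   (brec_all (PrV chk)
    p2428
    p2429)
   (brec_all (PrV chk)
    p2430
    p2431))))

theorem A0_152_ok (i : Nat) : PrV chk (A0_152 i) := by
 unfold A0_152
 exact
 (brec_all (PrV chk)
 (brec_all (PrV chk)
  (brec_all (PrV chk)
   (brec_all (PrV chk)
    p2432
    p2433)
   (brec_all (PrV chk)
    p2434
    p2435))
  (brec_all (PrV chk)
   (brec_all (PrV chk)
    p2436
    p2437)
   (brec_all (PrV chk)
    p2438
    p2439)))
 (brec_all (PrV chk)
  (brec_all (PrV chk)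
   (brec_all (PrV chk)
    p2440
    p2441)
   (brec_all (PrV chk)
    p2442
    p2443))
  (brec_all (PrV chk)
   (brec_all (PrV chk)
    p2444
    p2445)
   (brec_all (PrV chk)
    p2446
    p2447))))

theorem A0_153_ok (i : Nat) : PrV chk (A0_153 i) := by
 unfold A0_153
 exact
 (brec_all (PrV chk)
 (brec_all (PrV chk)
  (brec_all (PrV chk)
   (brec_all (PrV chk)
    p2448
    p2449)
   (brec_all (PrV chk)
    p2450
    p2451))
  (brec_all (PrV chk)
   (brec_all (PrV chk)
    p2452
    p2453)
   (brec_all (PrV chk)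
    p2454
    p2455)))
 (brec_all (PrV chk)
  (brec_all (PrV chk)
   (brec_all (PrV chk)
    p2456
    p2457)
   (brec_all (PrV chk)
    p2458
    p2459))
  (brec_all (PrV chk)
   (brec_all (PrV chk)
    p2460
    p2461)
   (brec_all (PrV chk)
    p2462
    p2463))))

theorem A0_154_ok (i : Nat) : PrV chk (A0_154 i) := by
 unfold A0_154
 exact
 (brec_all (PrV chk)
 (brec_all (PrV chk)
  (brec_all (PrV chk)
   (brec_all (PrV chk)
    p2464
    p2465)
   (brec_all (PrV chk)
    p2466
    p2467))
  (brec_all (PrV chk)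
   (brec_all (PrV chk)
    p2468
    p2469)
   (brec_all (PrV chk)
    p2470
    p2471)))
 (brec_all (PrV chk)
  (brec_all (PrV chk)
   (brec_all (PrV chk)
    p2472
    p2473)
   (brec_all (PrV chk)
    p2474
    p2475))
  (brec_all (PrV chk)
   (brec_all (PrV chk)
    p2476
    p2477)
   (brec_all (PrV chk)
    p2478
    p2479))))

theorem A0_155_ok (i : Nat) : PrV chk (A0_155 i) := by
 unfold A0_155
 exact
 (brec_all (PrV chk)
 (brec_all (PrV chk)
  (brec_all (PrV chk)
   (brec_all (PrV chk)
    p2480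
    p2481)
   (brec_all (PrV chk)
    p2482
    p2483))
  (brec_all (PrV chk)
   (brec_all (PrV chk)
    p2484
    p2485)
   (brec_all (PrV chk)
    p2486
    p2487)))
 (brec_all (PrV chk)
  (brec_all (PrV chk)
   (brec_all (PrV chk)
    p2488
    p2489)
   (brec_all (PrV chk)
    p2490
    p2491))
  (brec_all (PrV chk)
   (brec_all (PrV chk)
    p2492
    p2493)
   (brec_all (PrV chk)
    p2494
    p2495))))

theorem A0_156_ok (i : Nat) : PrV chk (A0_156 i) := by
 unfold A0_156
 exact
 (brec_all (PrV chk)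
 (brec_all (PrV chk)
  (brec_all (PrV chk)
   (brec_all (PrV chk)
    p2496
    p2497)
   (brec_all (PrV chk)
    p2498
    p2499))
  (brec_all (PrV chk)
   (brec_all (PrV chk)
    p2500
    p2501)
   (brec_all (PrV chk)
    p2502
    p2503)))
 (brec_all (PrV chk)
  (brec_all (PrV chk)
   (brec_all (PrV chk)
    p2504
    p2505)
   (brec_all (PrV chk)
    p2506
    p2507))
  (brec_all (PrV chk)
   (brec_all (PrV chk)
    p2508
    p2509)
   (brec_all (PrV chk)
    p2510
    p2511))))

theorem A0_157_ok (i : Nat) : PrV chk (A0_157 i) := by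
 unfold A0_157
 exact
 (brec_all (PrV chk)
 (brec_all (PrV chk)
  (brec_all (PrV chk)
   (brec_all (PrV chk)
    p2512
    p2513)
   (brec_all (PrV chk)
    p2514
    p2515))
  (brec_all (PrV chk)
   (brec_all (PrV chk)
    p2516
    p2517)
   (brec_all (PrV chk)
    p2518
    p2519)))
 (brec_all (PrV chk)
  (brec_all (PrV chk)
   (brec_all (PrV chk)
    p2520
    p2521)
   (brec_all (PrV chk)
    p2522
    p2523))
  (brec_all (PrV chk)
   (brec_all (PrV chk)
    p2524
    p2525)
   (brec_all (PrV chk)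
    p2526
    p2527))))

theorem A0_158_ok (i : Nat) : PrV chk (A0_158 i) := by
 unfold A0_158
 exact
 (brec_all (PrV chk)
 (brec_all (PrV chk)
  (brec_all (PrV chk)
   (brec_all (PrV chk)
    p2528
    p2529)
   (brec_all (PrV chk)
    p2530
    p2531))
  (brec_all (PrV chk)
   (brec_all (PrV chk)
    p2532
    p2533)
   (brec_all (PrV chk)
    p2534
    p2535)))
 (brec_all (PrV chk)
  (brec_all (PrV chk)
   (brec_all (PrV chk)
    p2536
    p2537)
   (brec_all (PrV chk)
    p2538
    p2539))
  (brec_all (PrV chk)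
   (brec_all (PrV chk)
    p2540
    p2541)
   (brec_all (PrV chk)
    p2542
    p2543))))

theorem A0_159_ok (i : Nat) : PrV chk (A0_159 i) := by
 unfold A0_159
 exact
 (brec_all (PrV chk)
 (brec_all (PrV chk)
  (brec_all (PrV chk)
   (brec_all (PrV chk)
    p2544
    p2545)
   (brec_all (PrV chk)
    p2546
    p2547))
  (brec_all (PrV chk)
   (brec_all (PrV chk)
    p2548
    p2549)
   (brec_all (PrV chk)
    p2550
    p2551)))
 (brec_all (PrV chk)
  (brec_all (PrV chk)
   (brec_all (PrV chk)
    p2552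
    p2553)
   (brec_all (PrV chk)
    p2554
    p2555))
  (brec_all (PrV chk)
   (brec_all (PrV chk)
    p2556
    p2557)
   (brec_all (PrV chk)
    p2558
    p2559))))

theorem A0_160_ok (i : Nat) : PrV chk (A0_160 i) := by
 unfold A0_160
 exact
 (brec_all (PrV chk)
 (brec_all (PrV chk)
  (brec_all (PrV chk)
   (brec_all (PrV chk)
    p2560
    p2561)
   (brec_all (PrV chk)
    p2562
    p2563))
  (brec_all (PrV chk)
   (brec_all (PrV chk)
    p2564
    p2565)
   (brec_all (PrV chk)
    p2566
    p2567)))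
 (brec_all (PrV chk)
  (brec_all (PrV chk)
   (brec_all (PrV chk)
    p2568
    p2569)
   (brec_all (PrV chk)
    p2570
    p2571))
  (brec_all (PrV chk)
   (brec_all (PrV chk)
    p2572
    p2573)
   (brec_all (PrV chk)
    p2574
    p2575))))

theorem A0_161_ok (i : Nat) : PrV chk (A0_161 i) := by
 unfold A0_161
 exact
 (brec_all (PrV chk)
 (brec_all (PrV chk)
  (brec_all (PrV chk)
   (brec_all (PrV chk)
    p2576
    p2577)
   (brec_all (PrV chk)
    p2578
    p2579))
  (brec_all (PrV chk)
   (brec_all (PrV chk)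
    p2580
    p2581)
   (brec_all (PrV chk)
    p2582
    p2583)))
 (brec_all (PrV chk)
  (brec_all (PrV chk)
   (brec_all (PrV chk)
    p2584
    p2585)
   (brec_all (PrV chk)
    p2586
    p2587))
  (brec_all (PrV chk)
   (brec_all (PrV chk)
    p2588
    p2589)
   (brec_all (PrV chk)
    p2590
    p2591))))

theorem A0_162_ok (i : Nat) : PrV chk (A0_162 i) := by
 unfold A0_162
 exact
 (brec_all (PrV chk)
 (brec_all (PrV chk)
  (brec_all (PrV chk)
   (brec_all (PrV chk)
    p2592
    p2593)
   (brec_all (PrV chk)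
    p2594
    p2595))
  (brec_all (PrV chk)
   (brec_all (PrV chk)
    p2596
    p2597)
   (brec_all (PrV chk)
    p2598
    p2599)))
 (brec_all (PrV chk)
  (brec_all (PrV chk)
   (brec_all (PrV chk)
    p2600
    p2601)
   (brec_all (PrV chk)
    p2602
    p2603))
  (brec_all (PrV chk)
   (brec_all (PrV chk)
    p2604
    p2605)
   (brec_all (PrV chk)
    p2606
    p2607))))

theorem A0_163_ok (i : Nat) : PrV chk (A0_163 i) := by
 unfold A0_163
 exact
 (brec_all (PrV chk)
 (brec_all (PrV chk)
  (brec_all (PrV chk)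
   (brec_all (PrV chk)
    p2608
    p2609)
   (brec_all (PrV chk)
    p2610
    p2611))
  (brec_all (PrV chk)
   (brec_all (PrV chk)
    p2612
    p2613)
   (brec_all (PrV chk)
    p2614
    p2615)))
 (brec_all (PrV chk)
  (brec_all (PrV chk)
   (brec_all (PrV chk)
    p2616
    p2617)
   (brec_all (PrV chk)
    p2618
    p2619))
  (brec_all (PrV chk)
   (brec_all (PrV chk)
    p2620
    p2621)
   (brec_all (PrV chk)
    p2622
    p2623))))

theorem A0_164_ok (i : Nat) : PrV chk (A0_164 i) := by
 unfold A0_164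
 exact
 (brec_all (PrV chk)
 (brec_all (PrV chk)
  (brec_all (PrV chk)
   (brec_all (PrV chk)
    p2624
    p2625)
   (brec_all (PrV chk)
    p2626
    p2627))
  (brec_all (PrV chk)
   (brec_all (PrV chk)
    p2628
    p2629)
   (brec_all (PrV chk)
    p2630
    p2631)))
 (brec_all (PrV chk)
  (brec_all (PrV chk)
   (brec_all (PrV chk)
    p2632
    p2633)
   (brec_all (PrV chk)
    p2634
    p2635))
  (brec_all (PrV chk)
   (brec_all (PrV chk)
    p2636
    p2637)
   (brec_all (PrV chk)
    p2638
    p2639))))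

theorem A0_165_ok (i : Nat) : PrV chk (A0_165 i) := by
 unfold A0_165
 exact
 (brec_all (PrV chk)
 (brec_all (PrV chk)
  (brec_all (PrV chk)
   (brec_all (PrV chk)
    p2640
    p2641)
   (brec_all (PrV chk)
    p2642
    p2643))
  (brec_all (PrV chk)
   (brec_all (PrV chk)
    p2644
    p2645)
   (brec_all (PrV chk)
    p2646
    p2647)))
 (brec_all (PrV chk)
  (brec_all (PrV chk)
   (brec_all (PrV chk)
    p2648
    p2649)
   (brec_all (PrV chk)
    p2650
    p2651))
  (brec_all (PrV chk)
   (brec_all (PrV chk)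
    p2652
    p2653)
   (brec_all (PrV chk)
    p2654
    p2655))))

theorem A0_166_ok (i : Nat) : PrV chk (A0_166 i) := by
 unfold A0_166
 exact
 (brec_all (PrV chk)
 (brec_all (PrV chk)
  (brec_all (PrV chk)
   (brec_all (PrV chk)
    p2656
    p2657)
   (brec_all (PrV chk)
    p2658
    p2659))
  (brec_all (PrV chk)
   (brec_all (PrV chk)
    p2660
    p2661)
   (brec_all (PrV chk)
    p2662
    p2663)))
 (brec_all (PrV chk)
  (brec_all (PrV chk)
   (brec_all (PrV chk)
    p2664
    p2665)
   (brec_all (PrV chk)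
    p2666
    p2667))
  (brec_all (PrV chk)
   (brec_all (PrV chk)
    p2668
    p2669)
   (brec_all (PrV chk)
    p2670
    p2671))))

theorem A0_167_ok (i : Nat) : PrV chk (A0_167 i) := by
 unfold A0_167
 exact
 (brec_all (PrV chk)
 (brec_all (PrV chk)
  (brec_all (PrV chk)
   (brec_all (PrV chk)
    p2672
    p2673)
   (brec_all (PrV chk)
    p2674
    p2675))
  (brec_all (PrV chk)
   (brec_all (PrV chk)
    p2676
    p2677)
   (brec_all (PrV chk)
    p2678
    p2679)))
 (brec_all (PrV chk)
  (brec_all (PrV chk)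
   (brec_all (PrV chk)
    p2680
    p2681)
   (brec_all (PrV chk)
    p2682
    p2683))
  (brec_all (PrV chk)
   (brec_all (PrV chk)
    p2684
    p2685)
   (brec_all (PrV chk)
    p2686
    p2687))))

theorem A0_168_ok (i : Nat) : PrV chk (A0_168 i) := by
 unfold A0_168
 exact
 (brec_all (PrV chk)
 (brec_all (PrV chk)
  (brec_all (PrV chk)
   (brec_all (PrV chk)
    p2688
    p2689)
   (brec_all (PrV chk)
    p2690
    p2691))
  (brec_all (PrV chk)
   (brec_all (PrV chk)
    p2692
    p2693)
   (brec_all (PrV chk)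
    p2694
    p2695)))
 (brec_all (PrV chk)
  (brec_all (PrV chk)
   (brec_all (PrV chk)
    p2696
    p2697)
   (brec_all (PrV chk)
    p2698
    p2699))
  (brec_all (PrV chk)
   (brec_all (PrV chk)
    p2700
    p2701)
   (brec_all (PrV chk)
    p2702
    p2703))))

theorem A0_169_ok (i : Nat) : PrV chk (A0_169 i) := by
 unfold A0_169
 exact
 (brec_all (PrV chk)
 (brec_all (PrV chk)
  (brec_all (PrV chk)
   (brec_all (PrV chk)
    p2704
    p2705)
   (brec_all (PrV chk)
    p2706
    p2707))
  (brec_all (PrV chk)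
   (brec_all (PrV chk)
    p2708
    p2709)
   (brec_all (PrV chk)
    p2710
    p2711)))
 (brec_all (PrV chk)
  (brec_all (PrV chk)
   (brec_all (PrV chk)
    p2712
    p2713)
   (brec_all (PrV chk)
    p2714
    p2715))
  (brec_all (PrV chk)
   (brec_all (PrV chk)
    p2716
    p2717)
   (brec_all (PrV chk)
    p2718
    p2719))))

theorem A0_170_ok (i : Nat) : PrV chk (A0_170 i) := by
 unfold A0_170
 exact
 (brec_all (PrV chk)
 (brec_all (PrV chk)
  (brec_all (PrV chk)
   (brec_all (PrV chk)
    p2720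
    p2721)
   (brec_all (PrV chk)
    p2722
    p2723))
  (brec_all (PrV chk)
   (brec_all (PrV chk)
    p2724
    p2725)
   (brec_all (PrV chk)
    p2726
    p2727)))
 (brec_all (PrV chk)
  (brec_all (PrV chk)
   (brec_all (PrV chk)
    p2728
    p2729)
   (brec_all (PrV chk)
    p2730
    p2731))
  (brec_all (PrV chk)
   (brec_all (PrV chk)
    p2732
    p2733)
   (brec_all (PrV chk)
    p2734
    p2735))))

theorem A0_171_ok (i : Nat) : PrV chk (A0_171 i) := by
 unfold A0_171
 exact
 (brec_all (PrV chk)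
 (brec_all (PrV chk)
  (brec_all (PrV chk)
   (brec_all (PrV chk)
    p2736
    p2737)
   (brec_all (PrV chk)
    p2738
    p2739))
  (brec_all (PrV chk)
   (brec_all (PrV chk)
    p2740
    p2741)
   (brec_all (PrV chk)
    p2742
    p2743)))
 (brec_all (PrV chk)
  (brec_all (PrV chk)
   (brec_all (PrV chk)
    p2744
    p2745)
   (brec_all (PrV chk)
    p2746
    p2747))
  (brec_all (PrV chk)
   (brec_all (PrV chk)
    p2748
    p2749)
   (brec_all (PrV chk)
    p2750
    p2751))))

theorem A0_172_ok (i : Nat) : PrV chk (A0_172 i) := by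
 unfold A0_172
 exact
 (brec_all (PrV chk)
 (brec_all (PrV chk)
  (brec_all (PrV chk)
   (brec_all (PrV chk)
    p2752
    p2753)
   (brec_all (PrV chk)
    p2754
    p2755))
  (brec_all (PrV chk)
   (brec_all (PrV chk)
    p2756
    p2757)
   (brec_all (PrV chk)
    p2758
    p2759)))
 (brec_all (PrV chk)
  (brec_all (PrV chk)
   (brec_all (PrV chk)
    p2760
    p2761)
   (brec_all (PrV chk)
    p2762
    p2763))
  (brec_all (PrV chk)
   (brec_all (PrV chk)
    p2764
    p2765)
   (brec_all (PrV chk)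
    p2766
    p2767))))

theorem A0_173_ok (i : Nat) : PrV chk (A0_173 i) := by
 unfold A0_173
 exact
 (brec_all (PrV chk)
 (brec_all (PrV chk)
  (brec_all (PrV chk)
   (brec_all (PrV chk)
    p2768
    p2769)
   (brec_all (PrV chk)
    p2770
    p2771))
  (brec_all (PrV chk)
   (brec_all (PrV chk)
    p2772
    p2773)
   (brec_all (PrV chk)
    p2774
    p2775)))
 (brec_all (PrV chk)
  (brec_all (PrV chk)
   (brec_all (PrV chk)
    p2776
    p2777)
   (brec_all (PrV chk)
    p2778
    p2779))
  (brec_all (PrV chk)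
   (brec_all (PrV chk)
    p2780
    p2781)
   (brec_all (PrV chk)
    p2782
    p2783))))

theorem A0_174_ok (i : Nat) : PrV chk (A0_174 i) := by
 unfold A0_174
 exact
 (brec_all (PrV chk)
 (brec_all (PrV chk)
  (brec_all (PrV chk)
   (brec_all (PrV chk)
    p2784
    p2785)
   (brec_all (PrV chk)
    p2786
    p2787))
  (brec_all (PrV chk)
   (brec_all (PrV chk)
    p2788
    p2789)
   (brec_all (PrV chk)
    p2790
    p2791)))
 (brec_all (PrV chk)
  (brec_all (PrV chk)
   (brec_all (PrV chk)
    p2792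
    p2793)
   (brec_all (PrV chk)
    p2794
    p2795))
  (brec_all (PrV chk)
   (brec_all (PrV chk)
    p2796
    p2797)
   (brec_all (PrV chk)
    p2798
    p2799))))

theorem A0_175_ok (i : Nat) : PrV chk (A0_175 i) := by
 unfold A0_175
 exact
 (brec_all (PrV chk)
 (brec_all (PrV chk)
  (brec_all (PrV chk)
   (brec_all (PrV chk)
    p2800
    p2801)
   (brec_all (PrV chk)
    p2802
    p2803))
  (brec_all (PrV chk)
   (brec_all (PrV chk)
    p2804
    p2805)
   (brec_all (PrV chk)
    p2806
    p2807)))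
 (brec_all (PrV chk)
  (brec_all (PrV chk)
   (brec_all (PrV chk)
    p2808
    p2809)
   (brec_all (PrV chk)
    p2810
    p2811))
  (brec_all (PrV chk)
   (brec_all (PrV chk)
    p2812
    p2813)
   (brec_all (PrV chk)
    p2814
    p2815))))

theorem A0_176_ok (i : Nat) : PrV chk (A0_176 i) := by
 unfold A0_176
 exact
 (brec_all (PrV chk)
 (brec_all (PrV chk)
  (brec_all (PrV chk)
   (brec_all (PrV chk)
    p2816
    p2817)
   (brec_all (PrV chk)
    p2818
    p2819))
  (brec_all (PrV chk)
   (brec_all (PrV chk)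
    p2820
    p2821)
   (brec_all (PrV chk)
    p2822
    p2823)))
 (brec_all (PrV chk)
  (brec_all (PrV chk)
   (brec_all (PrV chk)
    p2824
    p2825)
   (brec_all (PrV chk)
    p2826
    p2827))
  (brec_all (PrV chk)
   (brec_all (PrV chk)
    p2828
    p2829)
   (brec_all (PrV chk)
    p2830
    p2831))))

theorem A0_177_ok (i : Nat) : PrV chk (A0_177 i) := by
 unfold A0_177
 exact
 (brec_all (PrV chk)
 (brec_all (PrV chk)
  (brec_all (PrV chk)
   (brec_all (PrV chk)
    p2832
    p2833)
   (brec_all (PrV chk)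
    p2834
    p2835))
  (brec_all (PrV chk)
   (brec_all (PrV chk)
    p2836
    p2837)
   (brec_all (PrV chk)
    p2838
    p2839)))
 (brec_all (PrV chk)
  (brec_all (PrV chk)
   (brec_all (PrV chk)
    p2840
    p2841)
   (brec_all (PrV chk)
    p2842
    p2843))
  (brec_all (PrV chk)
   (brec_all (PrV chk)
    p2844
    p2845)
   (brec_all (PrV chk)
    p2846
    p2847))))

theorem A0_178_ok (i : Nat) : PrV chk (A0_178 i) := by
 unfold A0_178
 exact
 (brec_all (PrV chk)
 (brec_all (PrV chk)
  (brec_all (PrV chk)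
   (brec_all (PrV chk)
    p2848
    p2849)
   (brec_all (PrV chk)
    p2850
    p2851))
  (brec_all (PrV chk)
   (brec_all (PrV chk)
    p2852
    p2853)
   (brec_all (PrV chk)
    p2854
    p2855)))
 (brec_all (PrV chk)
  (brec_all (PrV chk)
   (brec_all (PrV chk)
    p2856
    p2857)
   (brec_all (PrV chk)
    p2858
    p2859))
  (brec_all (PrV chk)
   (brec_all (PrV chk)
    p2860
    p2861)
   (brec_all (PrV chk)
    p2862
    p2863))))

theorem A0_179_ok (i : Nat) : PrV chk (A0_179 i) := by
 unfold A0_179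
 exact
 (brec_all (PrV chk)
 (brec_all (PrV chk)
  (brec_all (PrV chk)
   (brec_all (PrV chk)
    p2864
    p2865)
   (brec_all (PrV chk)
    p2866
    p2867))
  (brec_all (PrV chk)
   (brec_all (PrV chk)
    p2868
    p2869)
   (brec_all (PrV chk)
    p2870
    p2871)))
 (brec_all (PrV chk)
  (brec_all (PrV chk)
   (brec_all (PrV chk)
    p2872
    p2873)
   (brec_all (PrV chk)
    p2874
    p2875))
  (brec_all (PrV chk)
   (brec_all (PrV chk)
    p2876
    p2877)
   (brec_all (PrV chk)
    p2878
    p2879))))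

theorem A0_180_ok (i : Nat) : PrV chk (A0_180 i) := by
 unfold A0_180
 exact
 (brec_all (PrV chk)
 (brec_all (PrV chk)
  (brec_all (PrV chk)
   (brec_all (PrV chk)
    p2880
    p2881)
   (brec_all (PrV chk)
    p2882
    p2883))
  (brec_all (PrV chk)
   (brec_all (PrV chk)
    p2884
    p2885)
   (brec_all (PrV chk)
    p2886
    p2887)))
 (brec_all (PrV chk)
  (brec_all (PrV chk)
   (brec_all (PrV chk)
    p2888
    p2889)
   (brec_all (PrV chk)
    p2890
    p2891))
  (brec_all (PrV chk)
   (brec_all (PrV chk)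
    p2892
    p2893)
   (brec_all (PrV chk)
    p2894
    p2895))))

theorem A0_181_ok (i : Nat) : PrV chk (A0_181 i) := by
 unfold A0_181
 exact
 (brec_all (PrV chk)
 (brec_all (PrV chk)
  (brec_all (PrV chk)
   (brec_all (PrV chk)
    p2896
    p2897)
   (brec_all (PrV chk)
    p2898
    p2899))
  (brec_all (PrV chk)
   (brec_all (PrV chk)
    p2900
    p2901)
   (brec_all (PrV chk)
    p2902
    p2903)))
 (brec_all (PrV chk)
  (brec_all (PrV chk)
   (brec_all (PrV chk)
    p2904
    p2905)
   (brec_all (PrV chk)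
    p2906
    p2907))
  (brec_all (PrV chk)
   (brec_all (PrV chk)
    p2908
    p2909)
   (brec_all (PrV chk)
    p2910
    p2911))))

theorem A0_182_ok (i : Nat) : PrV chk (A0_182 i) := by
 unfold A0_182
 exact
 (brec_all (PrV chk)
 (brec_all (PrV chk)
  (brec_all (PrV chk)
   (brec_all (PrV chk)
    p2912
    p2913)
   (brec_all (PrV chk)
    p2914
    p2915))
  (brec_all (PrV chk)
   (brec_all (PrV chk)
    p2916
    p2917)
   (brec_all (PrV chk)
    p2918
    p2919)))
 (brec_all (PrV chk)
  (brec_all (PrV chk)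
   (brec_all (PrV chk)
    p2920
    p2921)
   (brec_all (PrV chk)
    p2922
    p2923))
  (brec_all (PrV chk)
   (brec_all (PrV chk)
    p2924
    p2925)
   (brec_all (PrV chk)
    p2926
    p2927))))

theorem A0_183_ok (i : Nat) : PrV chk (A0_183 i) := by
 unfold A0_183
 exact
 (brec_all (PrV chk)
 (brec_all (PrV chk)
  (brec_all (PrV chk)
   (brec_all (PrV chk)
    p2928
    p2929)
   (brec_all (PrV chk)
    p2930
    p2931))
  (brec_all (PrV chk)
   (brec_all (PrV chk)
    p2932
    p2933)
   (brec_all (PrV chk)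
    p2934
    p2935)))
 (brec_all (PrV chk)
  (brec_all (PrV chk)
   (brec_all (PrV chk)
    p2936
    p2937)
   (brec_all (PrV chk)
    p2938
    p2939))
  (brec_all (PrV chk)
   (brec_all (PrV chk)
    p2940
    p2941)
   (brec_all (PrV chk)
    p2942
    p2943))))

theorem A0_184_ok (i : Nat) : PrV chk (A0_184 i) := by
 unfold A0_184
 exact
 (brec_all (PrV chk)
 (brec_all (PrV chk)
  (brec_all (PrV chk)
   (brec_all (PrV chk)
    p2944
    p2945)
   (brec_all (PrV chk)
    p2946
    p2947))
  (brec_all (PrV chk)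
   (brec_all (PrV chk)
    p2948
    p2949)
   (brec_all (PrV chk)
    p2950
    p2951)))
 (brec_all (PrV chk)
  (brec_all (PrV chk)
   (brec_all (PrV chk)
    p2952
    p2953)
   (brec_all (PrV chk)
    p2954
    p2955))
  (brec_all (PrV chk)
   (brec_all (PrV chk)
    p2956
    p2957)
   (brec_all (PrV chk)
    p2958
    p2959))))

theorem A0_185_ok (i : Nat) : PrV chk (A0_185 i) := by
 unfold A0_185
 exact
 (brec_all (PrV chk)
 (brec_all (PrV chk)
  (brec_all (PrV chk)
   (brec_all (PrV chk)
    p2960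
    p2961)
   (brec_all (PrV chk)
    p2962
    p2963))
  (brec_all (PrV chk)
   (brec_all (PrV chk)
    p2964
    p2965)
   (brec_all (PrV chk)
    p2966
    p2967)))
 (brec_all (PrV chk)
  (brec_all (PrV chk)
   (brec_all (PrV chk)
    p2968
    p2969)
   (brec_all (PrV chk)
    p2970
    p2971))
  (brec_all (PrV chk)
   (brec_all (PrV chk)
    p2972
    p2973)
   (brec_all (PrV chk)
    p2974
    p2975))))

theorem A0_186_ok (i : Nat) : PrV chk (A0_186 i) := by
 unfold A0_186
 exact
 (brec_all (PrV chk)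
 (brec_all (PrV chk)
  (brec_all (PrV chk)
   (brec_all (PrV chk)
    p2976
    p2977)
   (brec_all (PrV chk)
    p2978
    p2979))
  (brec_all (PrV chk)
   (brec_all (PrV chk)
    p2980
    p2981)
   (brec_all (PrV chk)
    p2982
    p2983)))
 (brec_all (PrV chk)
  (brec_all (PrV chk)
   (brec_all (PrV chk)
    p2984
    p2985)
   (brec_all (PrV chk)
    p2986
    p2987))
  (brec_all (PrV chk)
   (brec_all (PrV chk)
    p2988
    p2989)
   (brec_all (PrV chk)
    p2990
    p2991))))

theorem A0_187_ok (i : Nat) : PrV chk (A0_187 i) := by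
 unfold A0_187
 exact
 (brec_all (PrV chk)
 (brec_all (PrV chk)
  (brec_all (PrV chk)
   (brec_all (PrV chk)
    p2992
    p2993)
   (brec_all (PrV chk)
    p2994
    p2995))
  (brec_all (PrV chk)
   (brec_all (PrV chk)
    p2996
    p2997)
   (brec_all (PrV chk)
    p2998
    p2999)))
 (brec_all (PrV chk)
  (brec_all (PrV chk)
   (brec_all (PrV chk)
    p3000
    p3001)
   (brec_all (PrV chk)
    p3002
    p3003))
  (brec_all (PrV chk)
   (brec_all (PrV chk)
    p3004
    p3005)
   (brec_all (PrV chk)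
    p3006
    p3007))))

theorem A0_188_ok (i : Nat) : PrV chk (A0_188 i) := by
 unfold A0_188
 exact
 (brec_all (PrV chk)
 (brec_all (PrV chk)
  (brec_all (PrV chk)
   (brec_all (PrV chk)
    p3008
    p3009)
   (brec_all (PrV chk)
    p3010
    p3011))
  (brec_all (PrV chk)
   (brec_all (PrV chk)
    p3012
    p3013)
   (brec_all (PrV chk)
    p3014
    p3015)))
 (brec_all (PrV chk)
  (brec_all (PrV chk)
   (brec_all (PrV chk)
    p3016
    p3017)
   (brec_all (PrV chk)
    p3018
    p3019))
  (brec_all (PrV chk)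
   (brec_all (PrV chk)
    p3020
    p3021)
   (brec_all (PrV chk)
    p3022
    p3023))))

theorem A0_189_ok (i : Nat) : PrV chk (A0_189 i) := by
 unfold A0_189
 exact
 (brec_all (PrV chk)
 (brec_all (PrV chk)
  (brec_all (PrV chk)
   (brec_all (PrV chk)
    p3024
    p3025)
   (brec_all (PrV chk)
    p3026
    p3027))
  (brec_all (PrV chk)
   (brec_all (PrV chk)
    p3028
    p3029)
   (brec_all (PrV chk)
    p3030
    p3031)))
 (brec_all (PrV chk)
  (brec_all (PrV chk)
   (brec_all (PrV chk)
    p3032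
    p3033)
   (brec_all (PrV chk)
    p3034
    p3035))
  (brec_all (PrV chk)
   (brec_all (PrV chk)
    p3036
    p3037)
   (brec_all (PrV chk)
    p3038
    p3039))))

theorem A0_190_ok (i : Nat) : PrV chk (A0_190 i) := by
 unfold A0_190
 exact
 (brec_all (PrV chk)
 (brec_all (PrV chk)
  (brec_all (PrV chk)
   (brec_all (PrV chk)
    p3040
    p3041)
   (brec_all (PrV chk)
    p3042
    p3043))
  (brec_all (PrV chk)
   (brec_all (PrV chk)
    p3044
    p3045)
   (brec_all (PrV chk)
    p3046
    p3047)))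
 (brec_all (PrV chk)
  (brec_all (PrV chk)
   (brec_all (PrV chk)
    p3048
    p3049)
   (brec_all (PrV chk)
    p3050
    p3051))
  (brec_all (PrV chk)
   (brec_all (PrV chk)
    p3052
    p3053)
   (brec_all (PrV chk)
    p3054
    p3055))))

theorem A0_191_ok (i : Nat) : PrV chk (A0_191 i) := by
 unfold A0_191
 exact
 (brec_all (PrV chk)
 (brec_all (PrV chk)
  (brec_all (PrV chk)
   (brec_all (PrV chk)
    p3056
    p3057)
   (brec_all (PrV chk)
    p3058
    p3059))
  (brec_all (PrV chk)
   (brec_all (PrV chk)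
    p3060
    p3061)
   (brec_all (PrV chk)
    p3062
    p3063)))
 (brec_all (PrV chk)
  (brec_all (PrV chk)
   (brec_all (PrV chk)
    p3064
    p3065)
   (brec_all (PrV chk)
    p3066
    p3067))
  (brec_all (PrV chk)
   (brec_all (PrV chk)
    p3068
    p3069)
   (brec_all (PrV chk)
    p3070
    p3071))))

theorem A0_192_ok (i : Nat) : PrV chk (A0_192 i) := by
 unfold A0_192
 exact
 (brec_all (PrV chk)
 (brec_all (PrV chk)
  (brec_all (PrV chk)
   (brec_all (PrV chk)
    p3072
    p3073)
   (brec_all (PrV chk)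
    p3074
    p3075))
  (brec_all (PrV chk)
   (brec_all (PrV chk)
    p3076
    p3077)
   (brec_all (PrV chk)
    p3078
    p3079)))
 (brec_all (PrV chk)
  (brec_all (PrV chk)
   (brec_all (PrV chk)
    p3080
    p3081)
   (brec_all (PrV chk)
    p3082
    p3083))
  (brec_all (PrV chk)
   (brec_all (PrV chk)
    p3084
    p3085)
   (brec_all (PrV chk)
    p3086
    p3087))))

theorem A0_193_ok (i : Nat) : PrV chk (A0_193 i) := by
 unfold A0_193
 exact
 (brec_all (PrV chk)
 (brec_all (PrV chk)
  (brec_all (PrV chk)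
   (brec_all (PrV chk)
    p3088
    p3089)
   (brec_all (PrV chk)
    p3090
    p3091))
  (brec_all (PrV chk)
   (brec_all (PrV chk)
    p3092
    p3093)
   (brec_all (PrV chk)
    p3094
    p3095)))
 (brec_all (PrV chk)
  (brec_all (PrV chk)
   (brec_all (PrV chk)
    p3096
    p3097)
   (brec_all (PrV chk)
    p3098
    p3099))
  (brec_all (PrV chk)
   (brec_all (PrV chk)
    p3100
    p3101)
   (brec_all (PrV chk)
    p3102
    p3103))))

theorem A0_194_ok (i : Nat) : PrV chk (A0_194 i) := by
 unfold A0_194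
 exact
 (brec_all (PrV chk)
 (brec_all (PrV chk)
  (brec_all (PrV chk)
   (brec_all (PrV chk)
    p3104
    p3105)
   (brec_all (PrV chk)
    p3106
    p3107))
  (brec_all (PrV chk)
   (brec_all (PrV chk)
    p3108
    p3109)
   (brec_all (PrV chk)
    p3110
    p3111)))
 (brec_all (PrV chk)
  (brec_all (PrV chk)
   (brec_all (PrV chk)
    p3112
    p3113)
   (brec_all (PrV chk)
    p3114
    p3115))
  (brec_all (PrV chk)
   (brec_all (PrV chk)
    p3116
    p3117)
   (brec_all (PrV chk)
    p3118
    p3119))))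

theorem A0_195_ok (i : Nat) : PrV chk (A0_195 i) := by
 unfold A0_195
 exact
 (brec_all (PrV chk)
 (brec_all (PrV chk)
  (brec_all (PrV chk)
   (brec_all (PrV chk)
    p3120
    p3121)
   (brec_all (PrV chk)
    p3122
    p3123))
  (brec_all (PrV chk)
   (brec_all (PrV chk)
    p3124
    p3125)
   (brec_all (PrV chk)
    p3126
    p3127)))
 (brec_all (PrV chk)
  (brec_all (PrV chk)
   (brec_all (PrV chk)
    p3128
    p3129)
   (brec_all (PrV chk)
    p3130
    p3131))
  (brec_all (PrV chk)
   (brec_all (PrV chk)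
    p3132
    p3133)
   (brec_all (PrV chk)
    p3134
    p3135))))

theorem A0_196_ok (i : Nat) : PrV chk (A0_196 i) := by
 unfold A0_196
 exact
 (brec_all (PrV chk)
 (brec_all (PrV chk)
  (brec_all (PrV chk)
   (brec_all (PrV chk)
    p3136
    p3137)
   (brec_all (PrV chk)
    p3138
    p3139))
  (brec_all (PrV chk)
   (brec_all (PrV chk)
    p3140
    p3141)
   (brec_all (PrV chk)
    p3142
    p3143)))
 (brec_all (PrV chk)
  (brec_all (PrV chk)
   (brec_all (PrV chk)
    p3144
    p3145)
   (brec_all (PrV chk)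
    p3146
    p3147))
  (brec_all (PrV chk)
   (brec_all (PrV chk)
    p3148
    p3149)
   (brec_all (PrV chk)
    p3150
    p3151))))

theorem A0_197_ok (i : Nat) : PrV chk (A0_197 i) := by
 unfold A0_197
 exact
 (brec_all (PrV chk)
 (brec_all (PrV chk)
  (brec_all (PrV chk)
   (brec_all (PrV chk)
    p3152
    p3153)
   (brec_all (PrV chk)
    p3154
    p3155))
  (brec_all (PrV chk)
   (brec_all (PrV chk)
    p3156
    p3157)
   (brec_all (PrV chk)
    p3158
    p3159)))
 (brec_all (PrV chk)
  (brec_all (PrV chk)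
   (brec_all (PrV chk)
    p3160
    p3161)
   (brec_all (PrV chk)
    p3162
    p3163))
  (brec_all (PrV chk)
   (brec_all (PrV chk)
    p3164
    p3165)
   (brec_all (PrV chk)
    p3166
    p3167))))

theorem A0_198_ok (i : Nat) : PrV chk (A0_198 i) := by
 unfold A0_198
 exact
 (brec_all (PrV chk)
 (brec_all (PrV chk)
  (brec_all (PrV chk)
   (brec_all (PrV chk)
    p3168
    p3169)
   (brec_all (PrV chk)
    p3170
    p3171))
  (brec_all (PrV chk)
   (brec_all (PrV chk)
    p3172
    p3173)
   (brec_all (PrV chk)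
    p3174
    p3175)))
 (brec_all (PrV chk)
  (brec_all (PrV chk)
   (brec_all (PrV chk)
    p3176
    p3177)
   (brec_all (PrV chk)
    p3178
    p3179))
  (brec_all (PrV chk)
   (brec_all (PrV chk)
    p3180
    p3181)
   (brec_all (PrV chk)
    p3182
    p3183))))

theorem A0_199_ok (i : Nat) : PrV chk (A0_199 i) := by
 unfold A0_199
 exact
 (brec_all (PrV chk)
 (brec_all (PrV chk)
  (brec_all (PrV chk)
   (brec_all (PrV chk)
    p3184
    p3185)
   (brec_all (PrV chk)
    p3186
    p3187))
  (brec_all (PrV chk)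
   (brec_all (PrV chk)
    p3188
    p3189)
   (brec_all (PrV chk)
    p3190
    p3191)))
 (brec_all (PrV chk)
  (brec_all (PrV chk)
   (brec_all (PrV chk)
    p3192
    p3193)
   (brec_all (PrV chk)
    p3194
    p3195))
  (brec_all (PrV chk)
   (brec_all (PrV chk)
    p3196
    p3197)
   (brec_all (PrV chk)
    p3198
    p3199))))

theorem A0_200_ok (i : Nat) : PrV chk (A0_200 i) := by
 unfold A0_200
 exact
 (brec_all (PrV chk)
 (brec_all (PrV chk)
  (brec_all (PrV chk)
   (brec_all (PrV chk)
    p3200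
    p3201)
   (brec_all (PrV chk)
    p3202
    p3203))
  (brec_all (PrV chk)
   (brec_all (PrV chk)
    p3204
    p3205)
   (brec_all (PrV chk)
    p3206
    p3207)))
 (brec_all (PrV chk)
  (brec_all (PrV chk)
   (brec_all (PrV chk)
    p3208
    p3209)
   (brec_all (PrV chk)
    p3210
    p3211))
  (brec_all (PrV chk)
   (brec_all (PrV chk)
    p3212
    p3213)
   (brec_all (PrV chk)
    p3214
    p3215))))

theorem A0_201_ok (i : Nat) : PrV chk (A0_201 i) := by
 unfold A0_201
 exact
 (brec_all (PrV chk)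
 (brec_all (PrV chk)
  (brec_all (PrV chk)
   (brec_all (PrV chk)
    p3216
    p3217)
   (brec_all (PrV chk)
    p3218
    p3219))
  (brec_all (PrV chk)
   (brec_all (PrV chk)
    p3220
    p3221)
   (brec_all (PrV chk)
    p3222
    p3223)))
 (brec_all (PrV chk)
  (brec_all (PrV chk)
   (brec_all (PrV chk)
    p3224
    p3225)
   (brec_all (PrV chk)
    p3226
    p3227))
  (brec_all (PrV chk)
   (brec_all (PrV chk)
    p3228
    p3229)
   (brec_all (PrV chk)
    p3230
    p3231))))

theorem A0_202_ok (i : Nat) : PrV chk (A0_202 i) := by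
 unfold A0_202
 exact
 (brec_all (PrV chk)
 (brec_all (PrV chk)
  (brec_all (PrV chk)
   (brec_all (PrV chk)
    p3232
    p3233)
   (brec_all (PrV chk)
    p3234
    p3235))
  (brec_all (PrV chk)
   (brec_all (PrV chk)
    p3236
    p3237)
   (brec_all (PrV chk)
    p3238
    p3239)))
 (brec_all (PrV chk)
  (brec_all (PrV chk)
   (brec_all (PrV chk)
    p3240
    p3241)
   (brec_all (PrV chk)
    p3242
    p3243))
  (brec_all (PrV chk)
   (brec_all (PrV chk)
    p3244
    p3245)
   (brec_all (PrV chk)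
    p3246
    p3247))))

theorem A0_203_ok (i : Nat) : PrV chk (A0_203 i) := by
 unfold A0_203
 exact
 (brec_all (PrV chk)
 (brec_all (PrV chk)
  (brec_all (PrV chk)
   (brec_all (PrV chk)
    p3248
    p3249)
   (brec_all (PrV chk)
    p3250
    p3251))
  (brec_all (PrV chk)
   (brec_all (PrV chk)
    p3252
    p3253)
   (brec_all (PrV chk)
    p3254
    p3255)))
 (brec_all (PrV chk)
  (brec_all (PrV chk)
   (brec_all (PrV chk)
    p3256
    p3257)
   (brec_all (PrV chk)
    p3258
    p3259))
  (brec_all (PrV chk)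
   (brec_all (PrV chk)
    p3260
    p3261)
   (brec_all (PrV chk)
    p3262
    p3263))))

theorem A0_204_ok (i : Nat) : PrV chk (A0_204 i) := by
 unfold A0_204
 exact
 (brec_all (PrV chk)
 (brec_all (PrV chk)
  (brec_all (PrV chk)
   (brec_all (PrV chk)
    p3264
    p3265)
   (brec_all (PrV chk)
    p3266
    p3267))
  (brec_all (PrV chk)
   (brec_all (PrV chk)
    p3268
    p3269)
   (brec_all (PrV chk)
    p3270
    p3271)))
 (brec_all (PrV chk)
  (brec_all (PrV chk)
   (brec_all (PrV chk)
    p3272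
    p3273)
   (brec_all (PrV chk)
    p3274
    p3275))
  (brec_all (PrV chk)
   (brec_all (PrV chk)
    p3276
    p3277)
   (brec_all (PrV chk)
    p3278
    p3279))))

theorem A0_205_ok (i : Nat) : PrV chk (A0_205 i) := by
 unfold A0_205
 exact
 (brec_all (PrV chk)
 (brec_all (PrV chk)
  (brec_all (PrV chk)
   (brec_all (PrV chk)
    p3280
    p3281)
   (brec_all (PrV chk)
    p3282
    p3283))
  (brec_all (PrV chk)
   (brec_all (PrV chk)
    p3284
    p3285)
   (brec_all (PrV chk)
    p3286
    p3287)))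
 (brec_all (PrV chk)
  (brec_all (PrV chk)
   (brec_all (PrV chk)
    p3288
    p3289)
   (brec_all (PrV chk)
    p3290
    p3291))
  (brec_all (PrV chk)
   (brec_all (PrV chk)
    p3292
    p3293)
   (brec_all (PrV chk)
    p3294
    p3295))))

theorem A0_206_ok (i : Nat) : PrV chk (A0_206 i) := by
 unfold A0_206
 exact
 (brec_all (PrV chk)
 (brec_all (PrV chk)
  (brec_all (PrV chk)
   (brec_all (PrV chk)
    p3296
    p3297)
   (brec_all (PrV chk)
    p3298
    p3299))
  (brec_all (PrV chk)
   (brec_all (PrV chk)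
    p3300
    p3301)
   (brec_all (PrV chk)
    p3302
    p3303)))
 (brec_all (PrV chk)
  (brec_all (PrV chk)
   (brec_all (PrV chk)
    p3304
    p3305)
   (brec_all (PrV chk)
    p3306
    p3307))
  (brec_all (PrV chk)
   (brec_all (PrV chk)
    p3308
    p3309)
   (brec_all (PrV chk)
    p3310
    p3311))))

theorem A0_207_ok (i : Nat) : PrV chk (A0_207 i) := by
 unfold A0_207
 exact
 (brec_all (PrV chk)
 (brec_all (PrV chk)
  (brec_all (PrV chk)
   (brec_all (PrV chk)
    p3312
    p3313)
   (brec_all (PrV chk)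
    p3314
    p3315))
  (brec_all (PrV chk)
   (brec_all (PrV chk)
    p3316
    p3317)
   (brec_all (PrV chk)
    p3318
    p3319)))
 (brec_all (PrV chk)
  (brec_all (PrV chk)
   (brec_all (PrV chk)
    p3320
    p3321)
   (brec_all (PrV chk)
    p3322
    p3323))
  (brec_all (PrV chk)
   (brec_all (PrV chk)
    p3324
    p3325)
   (brec_all (PrV chk)
    p3326
    p3327))))

theorem A0_208_ok (i : Nat) : PrV chk (A0_208 i) := by
 unfold A0_208
 exact
 (brec_all (PrV chk)
 (brec_all (PrV chk)
  (brec_all (PrV chk)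
   (brec_all (PrV chk)
    p3328
    p3329)
   (brec_all (PrV chk)
    p3330
    p3331))
  (brec_all (PrV chk)
   (brec_all (PrV chk)
    p3332
    p3333)
   (brec_all (PrV chk)
    p3334
    p3335)))
 (brec_all (PrV chk)
  (brec_all (PrV chk)
   (brec_all (PrV chk)
    p3336
    p3337)
   (brec_all (PrV chk)
    p3338
    p3339))
  (brec_all (PrV chk)
   (brec_all (PrV chk)
    p3340
    p3341)
   (brec_all (PrV chk)
    p3342
    p3343))))

theorem A0_209_ok (i : Nat) : PrV chk (A0_209 i) := by
 unfold A0_209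
 exact
 (brec_all (PrV chk)
 (brec_all (PrV chk)
  (brec_all (PrV chk)
   (brec_all (PrV chk)
    p3344
    p3345)
   (brec_all (PrV chk)
    p3346
    p3347))
  (brec_all (PrV chk)
   (brec_all (PrV chk)
    p3348
    p3349)
   (brec_all (PrV chk)
    p3350
    p3351)))
 (brec_all (PrV chk)
  (brec_all (PrV chk)
   (brec_all (PrV chk)
    p3352
    p3353)
   (brec_all (PrV chk)
    p3354
    p3355))
  (brec_all (PrV chk)
   (brec_all (PrV chk)
    p3356
    p3357)
   (brec_all (PrV chk)
    p3358
    p3359))))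

theorem A0_210_ok (i : Nat) : PrV chk (A0_210 i) := by
 unfold A0_210
 exact
 (brec_all (PrV chk)
 (brec_all (PrV chk)
  (brec_all (PrV chk)
   (brec_all (PrV chk)
    p3360
    p3361)
   (brec_all (PrV chk)
    p3362
    p3363))
  (brec_all (PrV chk)
   (brec_all (PrV chk)
    p3364
    p3365)
   (brec_all (PrV chk)
    p3366
    p3367)))
 (brec_all (PrV chk)
  (brec_all (PrV chk)
   (brec_all (PrV chk)
    p3368
    p3369)
   (brec_all (PrV chk)
    p3370
    p3371))
  (brec_all (PrV chk)
   (brec_all (PrV chk)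
    p3372
    p3373)
   (brec_all (PrV chk)
    p3374
    p3375))))

theorem A0_211_ok (i : Nat) : PrV chk (A0_211 i) := by
 unfold A0_211
 exact
 (brec_all (PrV chk)
 (brec_all (PrV chk)
  (brec_all (PrV chk)
   (brec_all (PrV chk)
    p3376
    p3377)
   (brec_all (PrV chk)
    p3378
    p3379))
  (brec_all (PrV chk)
   (brec_all (PrV chk)
    p3380
    p3381)
   (brec_all (PrV chk)
    p3382
    p3383)))
 (brec_all (PrV chk)
  (brec_all (PrV chk)
   (brec_all (PrV chk)
    p3384
    p3385)
   (brec_all (PrV chk)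
    p3386
    p3387))
  (brec_all (PrV chk)
   (brec_all (PrV chk)
    p3388
    p3389)
   (brec_all (PrV chk)
    p3390
    p3391))))

theorem A0_212_ok (i : Nat) : PrV chk (A0_212 i) := by
 unfold A0_212
 exact
 (brec_all (PrV chk)
 (brec_all (PrV chk)
  (brec_all (PrV chk)
   (brec_all (PrV chk)
    p3392
    p3393)
   (brec_all (PrV chk)
    p3394
    p3395))
  (brec_all (PrV chk)
   (brec_all (PrV chk)
    p3396
    p3397)
   (brec_all (PrV chk)
    p3398
    p3399)))
 (brec_all (PrV chk)
  (brec_all (PrV chk)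
   (brec_all (PrV chk)
    p3400
    p3401)
   (brec_all (PrV chk)
    p3402
    p3403))
  (brec_all (PrV chk)
   (brec_all (PrV chk)
    p3404
    p3405)
   (brec_all (PrV chk)
    p3406
    p3407))))

theorem A0_213_ok (i : Nat) : PrV chk (A0_213 i) := by
 unfold A0_213
 exact
 (brec_all (PrV chk)
 (brec_all (PrV chk)
  (brec_all (PrV chk)
   (brec_all (PrV chk)
    p3408
    p3409)
   (brec_all (PrV chk)
    p3410
    p3411))
  (brec_all (PrV chk)
   (brec_all (PrV chk)
    p3412
    p3413)
   (brec_all (PrV chk)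
    p3414
    p3415)))
 (brec_all (PrV chk)
  (brec_all (PrV chk)
   (brec_all (PrV chk)
    p3416
    p3417)
   (brec_all (PrV chk)
    p3418
    p3419))
  (brec_all (PrV chk)
   (brec_all (PrV chk)
    p3420
    p3421)
   (brec_all (PrV chk)
    p3422
    p3423))))

theorem A0_214_ok (i : Nat) : PrV chk (A0_214 i) := by
 unfold A0_214
 exact
 (brec_all (PrV chk)
 (brec_all (PrV chk)
  (brec_all (PrV chk)
   (brec_all (PrV chk)
    p3424
    p3425)
   (brec_all (PrV chk)
    p3426
    p3427))
  (brec_all (PrV chk)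
   (brec_all (PrV chk)
    p3428
    p3429)
   (brec_all (PrV chk)
    p3430
    p3431)))
 (brec_all (PrV chk)
  (brec_all (PrV chk)
   (brec_all (PrV chk)
    p3432
    p3433)
   (brec_all (PrV chk)
    p3434
    p3435))
  (brec_all (PrV chk)
   (brec_all (PrV chk)
    p3436
    p3437)
   (brec_all (PrV chk)
    p3438
    p3439))))

theorem A0_215_ok (i : Nat) : PrV chk (A0_215 i) := by
 unfold A0_215
 exact
 (brec_all (PrV chk)
 (brec_all (PrV chk)
  (brec_all (PrV chk)
   (brec_all (PrV chk)
    p3440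
    p3441)
   (brec_all (PrV chk)
    p3442
    p3443))
  (brec_all (PrV chk)
   (brec_all (PrV chk)
    p3444
    p3445)
   (brec_all (PrV chk)
    p3446
    p3447)))
 (brec_all (PrV chk)
  (brec_all (PrV chk)
   (brec_all (PrV chk)
    p3448
    p3449)
   (brec_all (PrV chk)
    p3450
    p3451))
  (brec_all (PrV chk)
   (brec_all (PrV chk)
    p3452
    p3453)
   (brec_all (PrV chk)
    p3454
    p3455))))

theorem A0_216_ok (i : Nat) : PrV chk (A0_216 i) := by
 unfold A0_216
 exact
 (brec_all (PrV chk)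
 (brec_all (PrV chk)
  (brec_all (PrV chk)
   (brec_all (PrV chk)
    p3456
    p3457)
   (brec_all (PrV chk)
    p3458
    p3459))
  (brec_all (PrV chk)
   (brec_all (PrV chk)
    p3460
    p3461)
   (brec_all (PrV chk)
    p3462
    p3463)))
 (brec_all (PrV chk)
  (brec_all (PrV chk)
   (brec_all (PrV chk)
    p3464
    p3465)
   (brec_all (PrV chk)
    p3466
    p3467))
  (brec_all (PrV chk)
   (brec_all (PrV chk)
    p3468
    p3469)
   (brec_all (PrV chk)
    p3470
    p3471))))

theorem A0_217_ok (i : Nat) : PrV chk (A0_217 i) := by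
 unfold A0_217
 exact
 (brec_all (PrV chk)
 (brec_all (PrV chk)
  (brec_all (PrV chk)
   (brec_all (PrV chk)
    p3472
    p3473)
   (brec_all (PrV chk)
    p3474
    p3475))
  (brec_all (PrV chk)
   (brec_all (PrV chk)
    p3476
    p3477)
   (brec_all (PrV chk)
    p3478
    p3479)))
 (brec_all (PrV chk)
  (brec_all (PrV chk)
   (brec_all (PrV chk)
    p3480
    p3481)
   (brec_all (PrV chk)
    p3482
    p3483))
  (brec_all (PrV chk)
   (brec_all (PrV chk)
    p3484
    p3485)
   (brec_all (PrV chk)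
    p3486
    p3487))))

theorem A0_218_ok (i : Nat) : PrV chk (A0_218 i) := by
 unfold A0_218
 exact
 (brec_all (PrV chk)
 (brec_all (PrV chk)
  (brec_all (PrV chk)
   (brec_all (PrV chk)
    p3488
    p3489)
   (brec_all (PrV chk)
    p3490
    p3491))
  (brec_all (PrV chk)
   (brec_all (PrV chk)
    p3492
    p3493)
   (brec_all (PrV chk)
    p3494
    p3495)))
 (brec_all (PrV chk)
  (brec_all (PrV chk)
   (brec_all (PrV chk)
    p3496
    p3497)
   (brec_all (PrV chk)
    p3498
    p3499))
  (brec_all (PrV chk)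
   (brec_all (PrV chk)
    p3500
    p3501)
   (brec_all (PrV chk)
    p3502
    p3503))))

theorem A0_219_ok (i : Nat) : PrV chk (A0_219 i) := by
 unfold A0_219
 exact
 (brec_all (PrV chk)
 (brec_all (PrV chk)
  (brec_all (PrV chk)
   (brec_all (PrV chk)
    p3504
    p3505)
   (brec_all (PrV chk)
    p3506
    p3507))
  (brec_all (PrV chk)
   (brec_all (PrV chk)
    p3508
    p3509)
   (brec_all (PrV chk)
    p3510
    p3511)))
 (brec_all (PrV chk)
  (brec_all (PrV chk)
   (brec_all (PrV chk)
    p3512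
    p3513)
   (brec_all (PrV chk)
    p3514
    p3515))
  (brec_all (PrV chk)
   (brec_all (PrV chk)
    p3516
    p3517)
   (brec_all (PrV chk)
    p3518
    p3519))))

theorem A0_220_ok (i : Nat) : PrV chk (A0_220 i) := by
 unfold A0_220
 exact
 (brec_all (PrV chk)
 (brec_all (PrV chk)
  (brec_all (PrV chk)
   (brec_all (PrV chk)
    p3520
    p3521)
   (brec_all (PrV chk)
    p3522
    p3523))
  (brec_all (PrV chk)
   (brec_all (PrV chk)
    p3524
    p3525)
   (brec_all (PrV chk)
    p3526
    p3527)))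
 (brec_all (PrV chk)
  (brec_all (PrV chk)
   (brec_all (PrV chk)
    p3528
    p3529)
   (brec_all (PrV chk)
    p3530
    p3531))
  (brec_all (PrV chk)
   (brec_all (PrV chk)
    p3532
    p3533)
   (brec_all (PrV chk)
    p3534
    p3535))))

theorem A0_221_ok (i : Nat) : PrV chk (A0_221 i) := by
 unfold A0_221
 exact
 (brec_all (PrV chk)
 (brec_all (PrV chk)
  (brec_all (PrV chk)
   (brec_all (PrV chk)
    p3536
    p3537)
   (brec_all (PrV chk)
    p3538
    p3539))
  (brec_all (PrV chk)
   (brec_all (PrV chk)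
    p3540
    p3541)
   (brec_all (PrV chk)
    p3542
    p3543)))
 (brec_all (PrV chk)
  (brec_all (PrV chk)
   (brec_all (PrV chk)
    p3544
    p3545)
   (brec_all (PrV chk)
    p3546
    p3547))
  (brec_all (PrV chk)
   (brec_all (PrV chk)
    p3548
    p3549)
   (brec_all (PrV chk)
    p3550
    p3551))))

theorem A0_222_ok (i : Nat) : PrV chk (A0_222 i) := by
 unfold A0_222
 exact
 (brec_all (PrV chk)
 (brec_all (PrV chk)
  (brec_all (PrV chk)
   (brec_all (PrV chk)
    p3552
    p3553)
   (brec_all (PrV chk)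
    p3554
    p3555))
  (brec_all (PrV chk)
   (brec_all (PrV chk)
    p3556
    p3557)
   (brec_all (PrV chk)
    p3558
    p3559)))
 (brec_all (PrV chk)
  (brec_all (PrV chk)
   (brec_all (PrV chk)
    p3560
    p3561)
   (brec_all (PrV chk)
    p3562
    p3563))
  (brec_all (PrV chk)
   (brec_all (PrV chk)
    p3564
    p3565)
   (brec_all (PrV chk)
    p3566
    p3567))))

theorem A0_223_ok (i : Nat) : PrV chk (A0_223 i) := by
 unfold A0_223
 exact
 (brec_all (PrV chk)
 (brec_all (PrV chk)
  (brec_all (PrV chk)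
   (brec_all (PrV chk)
    p3568
    p3569)
   (brec_all (PrV chk)
    p3570
    p3571))
  (brec_all (PrV chk)
   (brec_all (PrV chk)
    p3572
    p3573)
   (brec_all (PrV chk)
    p3574
    p3575)))
 (brec_all (PrV chk)
  (brec_all (PrV chk)
   (brec_all (PrV chk)
    p3576
    p3577)
   (brec_all (PrV chk)
    p3578
    p3579))
  (brec_all (PrV chk)
   (brec_all (PrV chk)
    p3580
    p3581)
   (brec_all (PrV chk)
    p3582
    p3583))))

theorem A0_224_ok (i : Nat) : PrV chk (A0_224 i) := by
 unfold A0_224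
 exact
 (brec_all (PrV chk)
 (brec_all (PrV chk)
  (brec_all (PrV chk)
   (brec_all (PrV chk)
    p3584
    p3585)
   (brec_all (PrV chk)
    p3586
    p3587))
  (brec_all (PrV chk)
   (brec_all (PrV chk)
    p3588
    p3589)
   (brec_all (PrV chk)
    p3590
    p3591)))
 (brec_all (PrV chk)
  (brec_all (PrV chk)
   (brec_all (PrV chk)
    p3592
    p3593)
   (brec_all (PrV chk)
    p3594
    p3595))
  (brec_all (PrV chk)
   (brec_all (PrV chk)
    p3596
    p3597)
   (brec_all (PrV chk)
    p3598
    p3599))))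

theorem A0_225_ok (i : Nat) : PrV chk (A0_225 i) := by
 unfold A0_225
 exact
 (brec_all (PrV chk)
 (brec_all (PrV chk)
  (brec_all (PrV chk)
   (brec_all (PrV chk)
    p3600
    p3601)
   (brec_all (PrV chk)
    p3602
    p3603))
  (brec_all (PrV chk)
   (brec_all (PrV chk)
    p3604
    p3605)
   (brec_all (PrV chk)
    p3606
    p3607)))
 (brec_all (PrV chk)
  (brec_all (PrV chk)
   (brec_all (PrV chk)
    p3608
    p3609)
   (brec_all (PrV chk)
    p3610
    p3611))
  (brec_all (PrV chk)
   (brec_all (PrV chk)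
    p3612
    p3613)
   (brec_all (PrV chk)
    p3614
    p3615))))

theorem A0_226_ok (i : Nat) : PrV chk (A0_226 i) := by
 unfold A0_226
 exact
 (brec_all (PrV chk)
 (brec_all (PrV chk)
  (brec_all (PrV chk)
   (brec_all (PrV chk)
    p3616
    p3617)
   (brec_all (PrV chk)
    p3618
    p3619))
  (brec_all (PrV chk)
   (brec_all (PrV chk)
    p3620
    p3621)
   (brec_all (PrV chk)
    p3622
    p3623)))
 (brec_all (PrV chk)
  (brec_all (PrV chk)
   (brec_all (PrV chk)
    p3624
    p3625)
   (brec_all (PrV chk)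
    p3626
    p3627))
  (brec_all (PrV chk)
   (brec_all (PrV chk)
    p3628
    p3629)
   (brec_all (PrV chk)
    p3630
    p3631))))

theorem A0_227_ok (i : Nat) : PrV chk (A0_227 i) := by
 unfold A0_227
 exact
 (brec_all (PrV chk)
 (brec_all (PrV chk)
  (brec_all (PrV chk)
   (brec_all (PrV chk)
    p3632
    p3633)
   (brec_all (PrV chk)
    p3634
    p3635))
  (brec_all (PrV chk)
   (brec_all (PrV chk)
    p3636
    p3637)
   (brec_all (PrV chk)
    p3638
    p3639)))
 (brec_all (PrV chk)
  (brec_all (PrV chk)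
   (brec_all (PrV chk)
    p3640
    p3641)
   (brec_all (PrV chk)
    p3642
    p3643))
  (brec_all (PrV chk)
   (brec_all (PrV chk)
    p3644
    p3645)
   (brec_all (PrV chk)
    p3646
    p3647))))

theorem A0_228_ok (i : Nat) : PrV chk (A0_228 i) := by
 unfold A0_228
 exact
 (brec_all (PrV chk)
 (brec_all (PrV chk)
  (brec_all (PrV chk)
   (brec_all (PrV chk)
    p3648
    p3649)
   (brec_all (PrV chk)
    p3650
    p3651))
  (brec_all (PrV chk)
   (brec_all (PrV chk)
    p3652
    p3653)
   (brec_all (PrV chk)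
    p3654
    p3655)))
 (brec_all (PrV chk)
  (brec_all (PrV chk)
   (brec_all (PrV chk)
    p3656
    p3657)
   (brec_all (PrV chk)
    p3658
    p3659))
  (brec_all (PrV chk)
   (brec_all (PrV chk)
    p3660
    p3661)
   (brec_all (PrV chk)
    p3662
    p3663))))

theorem A0_229_ok (i : Nat) : PrV chk (A0_229 i) := by
 unfold A0_229
 exact
 (brec_all (PrV chk)
 (brec_all (PrV chk)
  (brec_all (PrV chk)
   (brec_all (PrV chk)
    p3664
    p3665)
   (brec_all (PrV chk)
    p3666
    p3667))
  (brec_all (PrV chk)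
   (brec_all (PrV chk)
    p3668
    p3669)
   (brec_all (PrV chk)
    p3670
    p3671)))
 (brec_all (PrV chk)
  (brec_all (PrV chk)
   (brec_all (PrV chk)
    p3672
    p3673)
   (brec_all (PrV chk)
    p3674
    p3675))
  (brec_all (PrV chk)
   (brec_all (PrV chk)
    p3676
    p3677)
   (brec_all (PrV chk)
    p3678
    p3679))))

theorem A0_230_ok (i : Nat) : PrV chk (A0_230 i) := by
 unfold A0_230
 exact
 (brec_all (PrV chk)
 (brec_all (PrV chk)
  (brec_all (PrV chk)
   (brec_all (PrV chk)
    p3680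
    p3681)
   (brec_all (PrV chk)
    p3682
    p3683))
  (brec_all (PrV chk)
   (brec_all (PrV chk)
    p3684
    p3685)
   (brec_all (PrV chk)
    p3686
    p3687)))
 (brec_all (PrV chk)
  (brec_all (PrV chk)
   (brec_all (PrV chk)
    p3688
    p3689)
   (brec_all (PrV chk)
    p3690
    p3691))
  (brec_all (PrV chk)
   (brec_all (PrV chk)
    p3692
    p3693)
   (brec_all (PrV chk)
    p3694
    p3695))))

theorem A0_231_ok (i : Nat) : PrV chk (A0_231 i) := by
 unfold A0_231
 exact
 (brec_all (PrV chk)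
 (brec_all (PrV chk)
  (brec_all (PrV chk)
   (brec_all (PrV chk)
    p3696
    p3697)
   (brec_all (PrV chk)
    p3698
    p3699))
  (brec_all (PrV chk)
   (brec_all (PrV chk)
    p3700
    p3701)
   (brec_all (PrV chk)
    p3702
    p3703)))
 (brec_all (PrV chk)
  (brec_all (PrV chk)
   (brec_all (PrV chk)
    p3704
    p3705)
   (brec_all (PrV chk)
    p3706
    p3707))
  (brec_all (PrV chk)
   (brec_all (PrV chk)
    p3708
    p3709)
   (brec_all (PrV chk)
    p3710
    p3711))))

theorem A0_232_ok (i : Nat) : PrV chk (A0_232 i) := by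
 unfold A0_232
 exact
 (brec_all (PrV chk)
 (brec_all (PrV chk)
  (brec_all (PrV chk)
   (brec_all (PrV chk)
    p3712
    p3713)
   (brec_all (PrV chk)
    p3714
    p3715))
  (brec_all (PrV chk)
   (brec_all (PrV chk)
    p3716
    p3717)
   (brec_all (PrV chk)
    p3718
    p3719)))
 (brec_all (PrV chk)
  (brec_all (PrV chk)
   (brec_all (PrV chk)
    p3720
    p3721)
   (brec_all (PrV chk)
    p3722
    p3723))
  (brec_all (PrV chk)
   (brec_all (PrV chk)
    p3724
    p3725)
   (brec_all (PrV chk)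
    p3726
    p3727))))

theorem A0_233_ok (i : Nat) : PrV chk (A0_233 i) := by
 unfold A0_233
 exact
 (brec_all (PrV chk)
 (brec_all (PrV chk)
  (brec_all (PrV chk)
   (brec_all (PrV chk)
    p3728
    p3729)
   (brec_all (PrV chk)
    p3730
    p3731))
  (brec_all (PrV chk)
   (brec_all (PrV chk)
    p3732
    p3733)
   (brec_all (PrV chk)
    p3734
    p3735)))
 (brec_all (PrV chk)
  (brec_all (PrV chk)
   (brec_all (PrV chk)
    p3736
    p3737)
   (brec_all (PrV chk)
    p3738
    p3739))
  (brec_all (PrV chk)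
   (brec_all (PrV chk)
    p3740
    p3741)
   (brec_all (PrV chk)
    p3742
    p3743))))

theorem A0_234_ok (i : Nat) : PrV chk (A0_234 i) := by
 unfold A0_234
 exact
 (brec_all (PrV chk)
 (brec_all (PrV chk)
  (brec_all (PrV chk)
   (brec_all (PrV chk)
    p3744
    p3745)
   (brec_all (PrV chk)
    p3746
    p3747))
  (brec_all (PrV chk)
   (brec_all (PrV chk)
    p3748
    p3749)
   (brec_all (PrV chk)
    p3750
    p3751)))
 (brec_all (PrV chk)
  (brec_all (PrV chk)
   (brec_all (PrV chk)
    p3752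
    p3753)
   (brec_all (PrV chk)
    p3754
    p3755))
  (brec_all (PrV chk)
   (brec_all (PrV chk)
    p3756
    p3757)
   (brec_all (PrV chk)
    p3758
    p3759))))

theorem A0_235_ok (i : Nat) : PrV chk (A0_235 i) := by
 unfold A0_235
 exact
 (brec_all (PrV chk)
 (brec_all (PrV chk)
  (brec_all (PrV chk)
   (brec_all (PrV chk)
    p3760
    p3761)
   (brec_all (PrV chk)
    p3762
    p3763))
  (brec_all (PrV chk)
   (brec_all (PrV chk)
    p3764
    p3765)
   (brec_all (PrV chk)
    p3766
    p3767)))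
 (brec_all (PrV chk)
  (brec_all (PrV chk)
   (brec_all (PrV chk)
    p3768
    p3769)
   (brec_all (PrV chk)
    p3770
    p3771))
  (brec_all (PrV chk)
   (brec_all (PrV chk)
    p3772
    p3773)
   (brec_all (PrV chk)
    p3774
    p3775))))

theorem A0_236_ok (i : Nat) : PrV chk (A0_236 i) := by
 unfold A0_236
 exact
 (brec_all (PrV chk)
 (brec_all (PrV chk)
  (brec_all (PrV chk)
   (brec_all (PrV chk)
    p3776
    p3777)
   (brec_all (PrV chk)
    p3778
    p3779))
  (brec_all (PrV chk)
   (brec_all (PrV chk)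
    p3780
    p3781)
   (brec_all (PrV chk)
    p3782
    p3783)))
 (brec_all (PrV chk)
  (brec_all (PrV chk)
   (brec_all (PrV chk)
    p3784
    p3785)
   (brec_all (PrV chk)
    p3786
    p3787))
  (brec_all (PrV chk)
   (brec_all (PrV chk)
    p3788
    p3789)
   (brec_all (PrV chk)
    p3790
    p3791))))

theorem A0_237_ok (i : Nat) : PrV chk (A0_237 i) := by
 unfold A0_237
 exact
 (brec_all (PrV chk)
 (brec_all (PrV chk)
  (brec_all (PrV chk)
   (brec_all (PrV chk)
    p3792
    p3793)
   (brec_all (PrV chk)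
    p3794
    p3795))
  (brec_all (PrV chk)
   (brec_all (PrV chk)
    p3796
    p3797)
   (brec_all (PrV chk)
    p3798
    p3799)))
 (brec_all (PrV chk)
  (brec_all (PrV chk)
   (brec_all (PrV chk)
    p3800
    p3801)
   (brec_all (PrV chk)
    p3802
    p3803))
  (brec_all (PrV chk)
   (brec_all (PrV chk)
    p3804
    p3805)
   (brec_all (PrV chk)
    p3806
    p3807))))

theorem A0_238_ok (i : Nat) : PrV chk (A0_238 i) := by
 unfold A0_238
 exact
 (brec_all (PrV chk)
 (brec_all (PrV chk)
  (brec_all (PrV chk)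
   (brec_all (PrV chk)
    p3808
    p3809)
   (brec_all (PrV chk)
    p3810
    p3811))
  (brec_all (PrV chk)
   (brec_all (PrV chk)
    p3812
    p3813)
   (brec_all (PrV chk)
    p3814
    p3815)))
 (brec_all (PrV chk)
  (brec_all (PrV chk)
   (brec_all (PrV chk)
    p3816
    p3817)
   (brec_all (PrV chk)
    p3818
    p3819))
  (brec_all (PrV chk)
   (brec_all (PrV chk)
    p3820
    p3821)
   (brec_all (PrV chk)
    p3822
    p3823))))

theorem A0_239_ok (i : Nat) : PrV chk (A0_239 i) := by
 unfold A0_239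
 exact
 (brec_all (PrV chk)
 (brec_all (PrV chk)
  (brec_all (PrV chk)
   (brec_all (PrV chk)
    p3824
    p3825)
   (brec_all (PrV chk)
    p3826
    p3827))
  (brec_all (PrV chk)
   (brec_all (PrV chk)
    p3828
    p3829)
   (brec_all (PrV chk)
    p3830
    p3831)))
 (brec_all (PrV chk)
  (brec_all (PrV chk)
   (brec_all (PrV chk)
    p3832
    p3833)
   (brec_all (PrV chk)
    p3834
    p3835))
  (brec_all (PrV chk)
   (brec_all (PrV chk)
    p3836
    p3837)
   (brec_all (PrV chk)
    p3838
    p3839))))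

theorem A0_240_ok (i : Nat) : PrV chk (A0_240 i) := by
 unfold A0_240
 exact
 (brec_all (PrV chk)
 (brec_all (PrV chk)
  (brec_all (PrV chk)
   (brec_all (PrV chk)
    p3840
    p3841)
   (brec_all (PrV chk)
    p3842
    p3843))
  (brec_all (PrV chk)
   (brec_all (PrV chk)
    p3844
    p3845)
   (brec_all (PrV chk)
    p3846
    p3847)))
 (brec_all (PrV chk)
  (brec_all (PrV chk)
   (brec_all (PrV chk)
    p3848
    p3849)
   (brec_all (PrV chk)
    p3850
    p3851))
  (brec_all (PrV chk)
   (brec_all (PrV chk)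
    p3852
    p3853)
   (brec_all (PrV chk)
    p3854
    p3855))))

theorem A0_241_ok (i : Nat) : PrV chk (A0_241 i) := by
 unfold A0_241
 exact
 (brec_all (PrV chk)
 (brec_all (PrV chk)
  (brec_all (PrV chk)
   (brec_all (PrV chk)
    p3856
    p3857)
   (brec_all (PrV chk)
    p3858
    p3859))
  (brec_all (PrV chk)
   (brec_all (PrV chk)
    p3860
    p3861)
   (brec_all (PrV chk)
    p3862
    p3863)))
 (brec_all (PrV chk)
  (brec_all (PrV chk)
   (brec_all (PrV chk)
    p3864
    p3865)
   (brec_all (PrV chk)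
    p3866
    p3867))
  (brec_all (PrV chk)
   (brec_all (PrV chk)
    p3868
    p3869)
   (brec_all (PrV chk)
    p3870
    p3871))))

theorem A0_242_ok (i : Nat) : PrV chk (A0_242 i) := by
 unfold A0_242
 exact
 (brec_all (PrV chk)
 (brec_all (PrV chk)
  (brec_all (PrV chk)
   (brec_all (PrV chk)
    p3872
    p3873)
   (brec_all (PrV chk)
    p3874
    p3875))
  (brec_all (PrV chk)
   (brec_all (PrV chk)
    p3876
    p3877)
   (brec_all (PrV chk)
    p3878
    p3879)))
 (brec_all (PrV chk)
  (brec_all (PrV chk)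
   (brec_all (PrV chk)
    p3880
    p3881)
   (brec_all (PrV chk)
    p3882
    p3883))
  (brec_all (PrV chk)
   (brec_all (PrV chk)
    p3884
    p3885)
   (brec_all (PrV chk)
    p3886
    p3887))))

theorem A0_243_ok (i : Nat) : PrV chk (A0_243 i) := by
 unfold A0_243
 exact
 (brec_all (PrV chk)
 (brec_all (PrV chk)
  (brec_all (PrV chk)
   (brec_all (PrV chk)
    p3888
    p3889)
   (brec_all (PrV chk)
    p3890
    p3891))
  (brec_all (PrV chk)
   (brec_all (PrV chk)
    p3892
    p3893)
   (brec_all (PrV chk)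
    p3894
    p3895)))
 (brec_all (PrV chk)
  (brec_all (PrV chk)
   (brec_all (PrV chk)
    p3896
    p3897)
   (brec_all (PrV chk)
    p3898
    p3899))
  (brec_all (PrV chk)
   (brec_all (PrV chk)
    p3900
    p3901)
   (brec_all (PrV chk)
    p3902
    p3903))))

theorem A0_244_ok (i : Nat) : PrV chk (A0_244 i) := by
 unfold A0_244
 exact
 (brec_all (PrV chk)
 (brec_all (PrV chk)
  (brec_all (PrV chk)
   (brec_all (PrV chk)
    p3904
    p3905)
   (brec_all (PrV chk)
    p3906
    p3907))
  (brec_all (PrV chk)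
   (brec_all (PrV chk)
    p3908
    p3909)
   (brec_all (PrV chk)
    p3910
    p3911)))
 (brec_all (PrV chk)
  (brec_all (PrV chk)
   (brec_all (PrV chk)
    p3912
    p3913)
   (brec_all (PrV chk)
    p3914
    p3915))
  (brec_all (PrV chk)
   (brec_all (PrV chk)
    p3916
    p3917)
   (brec_all (PrV chk)
    p3918
    p3919))))

theorem A0_245_ok (i : Nat) : PrV chk (A0_245 i) := by
 unfold A0_245
 exact
 (brec_all (PrV chk)
 (brec_all (PrV chk)
  (brec_all (PrV chk)
   (brec_all (PrV chk)
    p3920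
    p3921)
   (brec_all (PrV chk)
    p3922
    p3923))
  (brec_all (PrV chk)
   (brec_all (PrV chk)
    p3924
    p3925)
   (brec_all (PrV chk)
    p3926
    p3927)))
 (brec_all (PrV chk)
  (brec_all (PrV chk)
   (brec_all (PrV chk)
    p3928
    p3929)
   (brec_all (PrV chk)
    p3930
    p3931))
  (brec_all (PrV chk)
   (brec_all (PrV chk)
    p3932
    p3933)
   (brec_all (PrV chk)
    p3934
    p3935))))

theorem A0_246_ok (i : Nat) : PrV chk (A0_246 i) := by
 unfold A0_246
 exact
 (brec_all (PrV chk)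
 (brec_all (PrV chk)
  (brec_all (PrV chk)
   (brec_all (PrV chk)
    p3936
    p3937)
   (brec_all (PrV chk)
    p3938
    p3939))
  (brec_all (PrV chk)
   (brec_all (PrV chk)
    p3940
    p3941)
   (brec_all (PrV chk)
    p3942
    p3943)))
 (brec_all (PrV chk)
  (brec_all (PrV chk)
   (brec_all (PrV chk)
    p3944
    p3945)
   (brec_all (PrV chk)
    p3946
    p3947))
  (brec_all (PrV chk)
   (brec_all (PrV chk)
    p3948
    p3949)
   (brec_all (PrV chk)
    p3950
    p3951))))

theorem A0_247_ok (i : Nat) : PrV chk (A0_247 i) := by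
 unfold A0_247
 exact
 (brec_all (PrV chk)
 (brec_all (PrV chk)
  (brec_all (PrV chk)
   (brec_all (PrV chk)
    p3952
    p3953)
   (brec_all (PrV chk)
    p3954
    p3955))
  (brec_all (PrV chk)
   (brec_all (PrV chk)
    p3956
    p3957)
   (brec_all (PrV chk)
    p3958
    p3959)))
 (brec_all (PrV chk)
  (brec_all (PrV chk)
   (brec_all (PrV chk)
    p3960
    p3961)
   (brec_all (PrV chk)
    p3962
    p3963))
  (brec_all (PrV chk)
   (brec_all (PrV chk)
    p3964
    p3965)
   (brec_all (PrV chk)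
    p3966
    p3967))))

theorem A0_248_ok (i : Nat) : PrV chk (A0_248 i) := by
 unfold A0_248
 exact
 (brec_all (PrV chk)
 (brec_all (PrV chk)
  (brec_all (PrV chk)
   (brec_all (PrV chk)
    p3968
    p3969)
   (brec_all (PrV chk)
    p3970
    p3971))
  (brec_all (PrV chk)
   (brec_all (PrV chk)
    p3972
    p3973)
   (brec_all (PrV chk)
    p3974
    p3975)))
 (brec_all (PrV chk)
  (brec_all (PrV chk)
   (brec_all (PrV chk)
    p3976
    p3977)
   (brec_all (PrV chk)
    p3978
    p3979))
  (brec_all (PrV chk)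
   (brec_all (PrV chk)
    p3980
    p3981)
   (brec_all (PrV chk)
    p3982
    p3983))))

theorem A0_249_ok (i : Nat) : PrV chk (A0_249 i) := by
 unfold A0_249
 exact
 (brec_all (PrV chk)
 (brec_all (PrV chk)
  (brec_all (PrV chk)
   (brec_all (PrV chk)
    p3984
    p3985)
   (brec_all (PrV chk)
    p3986
    p3987))
  (brec_all (PrV chk)
   (brec_all (PrV chk)
    p3988
    p3989)
   (brec_all (PrV chk)
    p3990
    p3991)))
 (brec_all (PrV chk)
  (brec_all (PrV chk)
   (brec_all (PrV chk)
    p3992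
    p3993)
   (brec_all (PrV chk)
    p3994
    p3995))
  (brec_all (PrV chk)
   (brec_all (PrV chk)
    p3996
    p3997)
   (brec_all (PrV chk)
    p3998
    p3999))))

theorem A0_250_ok (i : Nat) : PrV chk (A0_250 i) := by
 unfold A0_250
 exact
 (brec_all (PrV chk)
 (brec_all (PrV chk)
  (brec_all (PrV chk)
   (brec_all (PrV chk)
    p4000
    p4001)
   (brec_all (PrV chk)
    p4002
    p4003))
  (brec_all (PrV chk)
   (brec_all (PrV chk)
    p4004
    p4005)
   (brec_all (PrV chk)
    p4006
    p4007)))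
 (brec_all (PrV chk)
  (brec_all (PrV chk)
   (brec_all (PrV chk)
    p4008
    p4009)
   (brec_all (PrV chk)
    p4010
    p4011))
  (brec_all (PrV chk)
   (brec_all (PrV chk)
    p4012
    p4013)
   (brec_all (PrV chk)
    p4014
    p4015))))

theorem A0_251_ok (i : Nat) : PrV chk (A0_251 i) := by
 unfold A0_251
 exact
 (brec_all (PrV chk)
 (brec_all (PrV chk)
  (brec_all (PrV chk)
   (brec_all (PrV chk)
    p4016
    p4017)
   (brec_all (PrV chk)
    p4018
    p4019))
  (brec_all (PrV chk)
   (brec_all (PrV chk)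
    p4020
    p4021)
   (brec_all (PrV chk)
    p4022
    p4023)))
 (brec_all (PrV chk)
  (brec_all (PrV chk)
   (brec_all (PrV chk)
    p4024
    p4025)
   (brec_all (PrV chk)
    p4026
    p4027))
  (brec_all (PrV chk)
   (brec_all (PrV chk)
    p4028
    p4029)
   (brec_all (PrV chk)
    p4030
    p4031))))

theorem A0_252_ok (i : Nat) : PrV chk (A0_252 i) := by
 unfold A0_252
 exact
 (brec_all (PrV chk)
 (brec_all (PrV chk)
  (brec_all (PrV chk)
   (brec_all (PrV chk)
    p4032
    p4033)
   (brec_all (PrV chk)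
    p4034
    p4035))
  (brec_all (PrV chk)
   (brec_all (PrV chk)
    p4036
    p4037)
   (brec_all (PrV chk)
    p4038
    p4039)))
 (brec_all (PrV chk)
  (brec_all (PrV chk)
   (brec_all (PrV chk)
    p4040
    p4041)
   (brec_all (PrV chk)
    p4042
    p4043))
  (brec_all (PrV chk)
   (brec_all (PrV chk)
    p4044
    p4045)
   (brec_all (PrV chk)
    p4046
    p4047))))

theorem A0_253_ok (i : Nat) : PrV chk (A0_253 i) := by
 unfold A0_253
 exact
 (brec_all (PrV chk)
 (brec_all (PrV chk)
  (brec_all (PrV chk)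
   (brec_all (PrV chk)
    p4048
    p4049)
   (brec_all (PrV chk)
    p4050
    p4051))
  (brec_all (PrV chk)
   (brec_all (PrV chk)
    p4052
    p4053)
   (brec_all (PrV chk)
    p4054
    p4055)))
 (brec_all (PrV chk)
  (brec_all (PrV chk)
   (brec_all (PrV chk)
    p4056
    p4057)
   (brec_all (PrV chk)
    p4058
    p4059))
  (brec_all (PrV chk)
   (brec_all (PrV chk)
    p4060
    p4061)
   (brec_all (PrV chk)
    p4062
    p4063))))

theorem A0_254_ok (i : Nat) : PrV chk (A0_254 i) := by
 unfold A0_254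
 exact
 (brec_all (PrV chk)
 (brec_all (PrV chk)
  (brec_all (PrV chk)
   (brec_all (PrV chk)
    p4064
    p4065)
   (brec_all (PrV chk)
    p4066
    p4067))
  (brec_all (PrV chk)
   (brec_all (PrV chk)
    p4068
    p4069)
   (brec_all (PrV chk)
    p4070
    p4071)))
 (brec_all (PrV chk)
  (brec_all (PrV chk)
   (brec_all (PrV chk)
    p4072
    p4073)
   (brec_all (PrV chk)
    p4074
    p4075))
  (brec_all (PrV chk)
   (brec_all (PrV chk)
    p4076
    p4077)
   (brec_all (PrV chk)
    p4078
    p4079))))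

theorem A0_255_ok (i : Nat) : PrV chk (A0_255 i) := by
 unfold A0_255
 exact
 (brec_all (PrV chk)
 (brec_all (PrV chk)
  (brec_all (PrV chk)
   (brec_all (PrV chk)
    p4080
    p4081)
   (brec_all (PrV chk)
    p4082
    p4083))
  (brec_all (PrV chk)
   (brec_all (PrV chk)
    p4084
    p4085)
   (brec_all (PrV chk)
    p4086
    p4087)))
 (brec_all (PrV chk)
  (brec_all (PrV chk)
   (brec_all (PrV chk)
    p4088
    p4089)
   (brec_all (PrV chk)
    p4090
    p4091))
  (brec_all (PrV chk)
   (brec_all (PrV chk)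
    p4092
    p4093)
   (brec_all (PrV chk)
    p4094
    p4095))))

theorem A0_256_ok (i : Nat) : PrV chk (A0_256 i) := by
 unfold A0_256
 exact
 (brec_all (PrV chk)
 (brec_all (PrV chk)
  (brec_all (PrV chk)
   (brec_all (PrV chk)
    p4096
    p4097)
   (brec_all (PrV chk)
    p4098
    p4099))
  (brec_all (PrV chk)
   (brec_all (PrV chk)
    p4100
    p4101)
   (brec_all (PrV chk)
    p4102
    p4103)))
 (brec_all (PrV chk)
  (brec_all (PrV chk)
   (brec_all (PrV chk)
    p4104
    p4105)
   (brec_all (PrV chk)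
    p4106
    p4107))
  (brec_all (PrV chk)
   (brec_all (PrV chk)
    p4108
    p4109)
   (brec_all (PrV chk)
    p4110
    p4111))))

theorem A0_257_ok (i : Nat) : PrV chk (A0_257 i) := by
 unfold A0_257
 exact
 (brec_all (PrV chk)
 (brec_all (PrV chk)
  (brec_all (PrV chk)
   (brec_all (PrV chk)
    p4112
    p4113)
   (brec_all (PrV chk)
    p4114
    p4115))
  (brec_all (PrV chk)
   (brec_all (PrV chk)
    p4116
    p4117)
   (brec_all (PrV chk)
    p4118
    p4119)))
 (brec_all (PrV chk)
  (brec_all (PrV chk)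
   (brec_all (PrV chk)
    p4120
    p4121)
   (brec_all (PrV chk)
    p4122
    p4123))
  (brec_all (PrV chk)
   (brec_all (PrV chk)
    p4124
    p4125)
   (brec_all (PrV chk)
    p4126
    p4127))))

theorem A0_258_ok (i : Nat) : PrV chk (A0_258 i) := by
 unfold A0_258
 exact
 (brec_all (PrV chk)
 (brec_all (PrV chk)
  (brec_all (PrV chk)
   (brec_all (PrV chk)
    p4128
    p4129)
   (brec_all (PrV chk)
    p4130
    p4131))
  (brec_all (PrV chk)
   (brec_all (PrV chk)
    p4132
    p4133)
   (brec_all (PrV chk)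
    p4134
    p4135)))
 (brec_all (PrV chk)
  (brec_all (PrV chk)
   (brec_all (PrV chk)
    p4136
    p4137)
   (brec_all (PrV chk)
    p4138
    p4139))
  (brec_all (PrV chk)
   (brec_all (PrV chk)
    p4140
    p4141)
   (brec_all (PrV chk)
    p4142
    p4143))))

theorem A0_259_ok (i : Nat) : PrV chk (A0_259 i) := by
 unfold A0_259
 exact
 (brec_all (PrV chk)
 (brec_all (PrV chk)
  (brec_all (PrV chk)
   (brec_all (PrV chk)
    p4144
    p4145)
   (brec_all (PrV chk)
    p4146
    p4147))
  (brec_all (PrV chk)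
   (brec_all (PrV chk)
    p4148
    p4149)
   (brec_all (PrV chk)
    p4150
    p4151)))
 (brec_all (PrV chk)
  (brec_all (PrV chk)
   (brec_all (PrV chk)
    p4152
    p4153)
   (brec_all (PrV chk)
    p4154
    p4155))
  (brec_all (PrV chk)
   (brec_all (PrV chk)
    p4156
    p4157)
   (brec_all (PrV chk)
    p4158
    p4159))))

theorem A0_260_ok (i : Nat) : PrV chk (A0_260 i) := by
 unfold A0_260
 exact
 (brec_all (PrV chk)
 (brec_all (PrV chk)
  (brec_all (PrV chk)
   (brec_all (PrV chk)
    p4160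
    p4161)
   (brec_all (PrV chk)
    p4162
    p4163))
  (brec_all (PrV chk)
   (brec_all (PrV chk)
    p4164
    p4165)
   (brec_all (PrV chk)
    p4166
    p4167)))
 (brec_all (PrV chk)
  (brec_all (PrV chk)
   (brec_all (PrV chk)
    p4168
    p4169)
   (brec_all (PrV chk)
    p4170
    p4171))
  (brec_all (PrV chk)
   (brec_all (PrV chk)
    p4172
    p4173)
   (brec_all (PrV chk)
    p4174
    p4175))))

theorem A0_261_ok (i : Nat) : PrV chk (A0_261 i) := by
 unfold A0_261
 exact
 (brec_all (PrV chk)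
 (brec_all (PrV chk)
  (brec_all (PrV chk)
   (brec_all (PrV chk)
    p4176
    p4177)
   (brec_all (PrV chk)
    p4178
    p4179))
  (brec_all (PrV chk)
   (brec_all (PrV chk)
    p4180
    p4181)
   (brec_all (PrV chk)
    p4182
    p4183)))
 (brec_all (PrV chk)
  (brec_all (PrV chk)
   (brec_all (PrV chk)
    p4184
    p4185)
   (brec_all (PrV chk)
    p4186
    p4187))
  (brec_all (PrV chk)
   (brec_all (PrV chk)
    p4188
    p4189)
   (brec_all (PrV chk)
    p4190
    p4191))))

theorem A0_262_ok (i : Nat) : PrV chk (A0_262 i) := by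
 unfold A0_262
 exact
 (brec_all (PrV chk)
 (brec_all (PrV chk)
  (brec_all (PrV chk)
   (brec_all (PrV chk)
    p4192
    p4193)
   (brec_all (PrV chk)
    p4194
    p4195))
  (brec_all (PrV chk)
   (brec_all (PrV chk)
    p4196
    p4197)
   (brec_all (PrV chk)
    p4198
    p4199)))
 (brec_all (PrV chk)
  (brec_all (PrV chk)
   (brec_all (PrV chk)
    p4200
    p4201)
   (brec_all (PrV chk)
    p4202
    p4203))
  (brec_all (PrV chk)
   (brec_all (PrV chk)
    p4204
    p4205)
   (brec_all (PrV chk)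
    p4206
    p4207))))

theorem A0_263_ok (i : Nat) : PrV chk (A0_263 i) := by
 unfold A0_263
 exact
 (brec_all (PrV chk)
 (brec_all (PrV chk)
  (brec_all (PrV chk)
   (brec_all (PrV chk)
    p4208
    p4209)
   (brec_all (PrV chk)
    p4210
    p4211))
  (brec_all (PrV chk)
   (brec_all (PrV chk)
    p4212
    p4213)
   (brec_all (PrV chk)
    p4214
    p4215)))
 (brec_all (PrV chk)
  (brec_all (PrV chk)
   (brec_all (PrV chk)
    p4216
    p4217)
   (brec_all (PrV chk)
    p4218
    p4219))
  (brec_all (PrV chk)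
   (brec_all (PrV chk)
    p4220
    p4221)
   (brec_all (PrV chk)
    p4222
    p4223))))

theorem A0_264_ok (i : Nat) : PrV chk (A0_264 i) := by
 unfold A0_264
 exact
 (brec_all (PrV chk)
 (brec_all (PrV chk)
  (brec_all (PrV chk)
   (brec_all (PrV chk)
    p4224
    p4225)
   (brec_all (PrV chk)
    p4226
    p4227))
  (brec_all (PrV chk)
   (brec_all (PrV chk)
    p4228
    p4229)
   (brec_all (PrV chk)
    p4230
    p4231)))
 (brec_all (PrV chk)
  (brec_all (PrV chk)
   (brec_all (PrV chk)
    p4232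
    p4233)
   (brec_all (PrV chk)
    p4234
    p4235))
  (brec_all (PrV chk)
   (brec_all (PrV chk)
    p4236
    p4237)
   (brec_all (PrV chk)
    p4238
    p4239))))

theorem A0_265_ok (i : Nat) : PrV chk (A0_265 i) := by
 unfold A0_265
 exact
 (brec_all (PrV chk)
 (brec_all (PrV chk)
  (brec_all (PrV chk)
   (brec_all (PrV chk)
    p4240
    p4241)
   (brec_all (PrV chk)
    p4242
    p4243))
  (brec_all (PrV chk)
   (brec_all (PrV chk)
    p4244
    p4245)
   (brec_all (PrV chk)
    p4246
    p4247)))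
 (brec_all (PrV chk)
  (brec_all (PrV chk)
   (brec_all (PrV chk)
    p4248
    p4249)
   (brec_all (PrV chk)
    p4250
    p4251))
  (brec_all (PrV chk)
   (brec_all (PrV chk)
    p4252
    p4253)
   (brec_all (PrV chk)
    p4254
    p4255))))

theorem A0_266_ok (i : Nat) : PrV chk (A0_266 i) := by
 unfold A0_266
 exact
 (brec_all (PrV chk)
 (brec_all (PrV chk)
  (brec_all (PrV chk)
   (brec_all (PrV chk)
    p4256
    p4257)
   (brec_all (PrV chk)
    p4258
    p4259))
  (brec_all (PrV chk)
   (brec_all (PrV chk)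
    p4260
    p4261)
   (brec_all (PrV chk)
    p4262
    p4263)))
 (brec_all (PrV chk)
  (brec_all (PrV chk)
   (brec_all (PrV chk)
    p4264
    p4265)
   (brec_all (PrV chk)
    p4266
    p4267))
  (brec_all (PrV chk)
   (brec_all (PrV chk)
    p4268
    p4269)
   (brec_all (PrV chk)
    p4270
    p4271))))

theorem A0_267_ok (i : Nat) : PrV chk (A0_267 i) := by
 unfold A0_267
 exact
 (brec_all (PrV chk)
 (brec_all (PrV chk)
  (brec_all (PrV chk)
   (brec_all (PrV chk)
    p4272
    p4273)
   (brec_all (PrV chk)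
    p4274
    p4275))
  (brec_all (PrV chk)
   (brec_all (PrV chk)
    p4276
    p4277)
   (brec_all (PrV chk)
    p4278
    p4279)))
 (brec_all (PrV chk)
  (brec_all (PrV chk)
   (brec_all (PrV chk)
    p4280
    p4281)
   (brec_all (PrV chk)
    p4282
    p4283))
  (brec_all (PrV chk)
   (brec_all (PrV chk)
    p4284
    p4285)
   (brec_all (PrV chk)
    p4286
    p4287))))

theorem A0_268_ok (i : Nat) : PrV chk (A0_268 i) := by
 unfold A0_268
 exact
 (brec_all (PrV chk)
 (brec_all (PrV chk)
  (brec_all (PrV chk)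
   (brec_all (PrV chk)
    p4288
    p4289)
   (brec_all (PrV chk)
    p4290
    p4291))
  (brec_all (PrV chk)
   (brec_all (PrV chk)
    p4292
    p4293)
   (brec_all (PrV chk)
    p4294
    p4295)))
 (brec_all (PrV chk)
  (brec_all (PrV chk)
   (brec_all (PrV chk)
    p4296
    p4297)
   (brec_all (PrV chk)
    p4298
    p4299))
  (brec_all (PrV chk)
   (brec_all (PrV chk)
    p4300
    p4301)
   (brec_all (PrV chk)
    p4302
    p4303))))

theorem A0_269_ok (i : Nat) : PrV chk (A0_269 i) := by
 unfold A0_269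
 exact
 (brec_all (PrV chk)
 (brec_all (PrV chk)
  (brec_all (PrV chk)
   (brec_all (PrV chk)
    p4304
    p4305)
   (brec_all (PrV chk)
    p4306
    p4307))
  (brec_all (PrV chk)
   (brec_all (PrV chk)
    p4308
    p4309)
   (brec_all (PrV chk)
    p4310
    p4311)))
 (brec_all (PrV chk)
  (brec_all (PrV chk)
   (brec_all (PrV chk)
    p4312
    p4313)
   (brec_all (PrV chk)
    p4314
    p4315))
  (brec_all (PrV chk)
   (brec_all (PrV chk)
    p4316
    p4317)
   (brec_all (PrV chk)
    p4318
    p4319))))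

theorem A0_270_ok (i : Nat) : PrV chk (A0_270 i) := by
 unfold A0_270
 exact
 (brec_all (PrV chk)
 (brec_all (PrV chk)
  (brec_all (PrV chk)
   (brec_all (PrV chk)
    p4320
    p4321)
   (brec_all (PrV chk)
    p4322
    p4323))
  (brec_all (PrV chk)
   (brec_all (PrV chk)
    p4324
    p4325)
   (brec_all (PrV chk)
    p4326
    p4327)))
 (brec_all (PrV chk)
  (brec_all (PrV chk)
   (brec_all (PrV chk)
    p4328
    p4329)
   (brec_all (PrV chk)
    p4330
    p4331))
  (brec_all (PrV chk)
   (brec_all (PrV chk)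
    p4332
    p4333)
   (brec_all (PrV chk)
    p4334
    p4335))))

theorem A0_271_ok (i : Nat) : PrV chk (A0_271 i) := by
 unfold A0_271
 exact
 (brec_all (PrV chk)
 (brec_all (PrV chk)
  (brec_all (PrV chk)
   (brec_all (PrV chk)
    p4336
    p4337)
   (brec_all (PrV chk)
    p4338
    p4339))
  (brec_all (PrV chk)
   (brec_all (PrV chk)
    p4340
    p4341)
   (brec_all (PrV chk)
    p4342
    p4343)))
 (brec_all (PrV chk)
  (brec_all (PrV chk)
   (brec_all (PrV chk)
    p4344
    p4345)
   (brec_all (PrV chk)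
    p4346
    p4347))
  (brec_all (PrV chk)
   (brec_all (PrV chk)
    p4348
    p4349)
   (brec_all (PrV chk)
    p4350
    p4351))))

theorem A0_272_ok (i : Nat) : PrV chk (A0_272 i) := by
 unfold A0_272
 exact
 (brec_all (PrV chk)
 (brec_all (PrV chk)
  (brec_all (PrV chk)
   (brec_all (PrV chk)
    p4352
    p4353)
   (brec_all (PrV chk)
    p4354
    p4355))
  (brec_all (PrV chk)
   (brec_all (PrV chk)
    p4356
    p4357)
   (brec_all (PrV chk)
    p4358
    p4359)))
 (brec_all (PrV chk)
  (brec_all (PrV chk)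
   (brec_all (PrV chk)
    p4360
    p4361)
   (brec_all (PrV chk)
    p4362
    p4363))
  (brec_all (PrV chk)
   (brec_all (PrV chk)
    p4364
    p4365)
   (brec_all (PrV chk)
    p4366
    p4367))))

theorem A0_273_ok (i : Nat) : PrV chk (A0_273 i) := by
 unfold A0_273
 exact
 (brec_all (PrV chk)
 (brec_all (PrV chk)
  (brec_all (PrV chk)
   (brec_all (PrV chk)
    p4368
    p4369)
   (brec_all (PrV chk)
    p4370
    p4371))
  (brec_all (PrV chk)
   (brec_all (PrV chk)
    p4372
    p4373)
   (brec_all (PrV chk)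
    p4374
    p4375)))
 (brec_all (PrV chk)
  (brec_all (PrV chk)
   (brec_all (PrV chk)
    p4376
    p4377)
   (brec_all (PrV chk)
    p4378
    p4379))
  (brec_all (PrV chk)
   (brec_all (PrV chk)
    p4380
    p4381)
   (brec_all (PrV chk)
    p4382
    p4383))))

theorem A0_274_ok (i : Nat) : PrV chk (A0_274 i) := by
 unfold A0_274
 exact
 (brec_all (PrV chk)
 (brec_all (PrV chk)
  (brec_all (PrV chk)
   (brec_all (PrV chk)
    p4384
    p4385)
   (brec_all (PrV chk)
    p4386
    p4387))
  (brec_all (PrV chk)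
   (brec_all (PrV chk)
    p4388
    p4389)
   (brec_all (PrV chk)
    p4390
    p4391)))
 (brec_all (PrV chk)
  (brec_all (PrV chk)
   (brec_all (PrV chk)
    p4392
    p4393)
   (brec_all (PrV chk)
    p4394
    p4395))
  (brec_all (PrV chk)
   (brec_all (PrV chk)
    p4396
    p4397)
   (brec_all (PrV chk)
    p4398
    p4399))))

theorem A0_275_ok (i : Nat) : PrV chk (A0_275 i) := by
 unfold A0_275
 exact
 (brec_all (PrV chk)
 (brec_all (PrV chk)
  (brec_all (PrV chk)
   (brec_all (PrV chk)
    p4400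
    p4401)
   (brec_all (PrV chk)
    p4402
    p4403))
  (brec_all (PrV chk)
   (brec_all (PrV chk)
    p4404
    p4405)
   (brec_all (PrV chk)
    p4406
    p4407)))
 (brec_all (PrV chk)
  (brec_all (PrV chk)
   (brec_all (PrV chk)
    p4408
    p4409)
   (brec_all (PrV chk)
    p4410
    p4411))
  (brec_all (PrV chk)
   (brec_all (PrV chk)
    p4412
    p4413)
   (brec_all (PrV chk)
    p4414
    p4415))))

theorem A0_276_ok (i : Nat) : PrV chk (A0_276 i) := by
 unfold A0_276
 exact
 (brec_all (PrV chk)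
 (brec_all (PrV chk)
  (brec_all (PrV chk)
   (brec_all (PrV chk)
    p4416
    p4417)
   (brec_all (PrV chk)
    p4418
    p4419))
  (brec_all (PrV chk)
   (brec_all (PrV chk)
    p4420
    p4421)
   (brec_all (PrV chk)
    p4422
    p4423)))
 (brec_all (PrV chk)
  (brec_all (PrV chk)
   (brec_all (PrV chk)
    p4424
    p4425)
   (brec_all (PrV chk)
    p4426
    p4427))
  (brec_all (PrV chk)
   (brec_all (PrV chk)
    p4428
    p4429)
   (brec_all (PrV chk)
    p4430
    p4431))))

theorem A0_277_ok (i : Nat) : PrV chk (A0_277 i) := by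
 unfold A0_277
 exact
 (brec_all (PrV chk)
 (brec_all (PrV chk)
  (brec_all (PrV chk)
   (brec_all (PrV chk)
    p4432
    p4433)
   (brec_all (PrV chk)
    p4434
    p4435))
  (brec_all (PrV chk)
   (brec_all (PrV chk)
    p4436
    p4437)
   (brec_all (PrV chk)
    p4438
    p4439)))
 (brec_all (PrV chk)
  (brec_all (PrV chk)
   (brec_all (PrV chk)
    p4440
    p4441)
   (brec_all (PrV chk)
    p4442
    p4443))
  (brec_all (PrV chk)
   (brec_all (PrV chk)
    p4444
    p4445)
   (brec_all (PrV chk)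
    p4446
    p4447))))

theorem A0_278_ok (i : Nat) : PrV chk (A0_278 i) := by
 unfold A0_278
 exact
 (brec_all (PrV chk)
 (brec_all (PrV chk)
  (brec_all (PrV chk)
   (brec_all (PrV chk)
    p4448
    p4449)
   (brec_all (PrV chk)
    p4450
    p4451))
  (brec_all (PrV chk)
   (brec_all (PrV chk)
    p4452
    p4453)
   (brec_all (PrV chk)
    p4454
    p4455)))
 (brec_all (PrV chk)
  (brec_all (PrV chk)
   (brec_all (PrV chk)
    p4456
    p4457)
   (brec_all (PrV chk)
    p4458
    p4459))
  (brec_all (PrV chk)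
   (brec_all (PrV chk)
    p4460
    p4461)
   (brec_all (PrV chk)
    p4462
    p4463))))

theorem A0_279_ok (i : Nat) : PrV chk (A0_279 i) := by
 unfold A0_279
 exact
 (brec_all (PrV chk)
 (brec_all (PrV chk)
  (brec_all (PrV chk)
   (brec_all (PrV chk)
    p4464
    p4465)
   (brec_all (PrV chk)
    p4466
    p4467))
  (brec_all (PrV chk)
   (brec_all (PrV chk)
    p4468
    p4469)
   (brec_all (PrV chk)
    p4470
    p4471)))
 (brec_all (PrV chk)
  (brec_all (PrV chk)
   (brec_all (PrV chk)
    p4472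
    p4473)
   (brec_all (PrV chk)
    p4474
    p4475))
  (brec_all (PrV chk)
   (brec_all (PrV chk)
    p4476
    p4477)
   (brec_all (PrV chk)
    p4478
    p4479))))

theorem A0_280_ok (i : Nat) : PrV chk (A0_280 i) := by
 unfold A0_280
 exact
 (brec_all (PrV chk)
 (brec_all (PrV chk)
  (brec_all (PrV chk)
   (brec_all (PrV chk)
    p4480
    p4481)
   (brec_all (PrV chk)
    p4482
    p4483))
  (brec_all (PrV chk)
   (brec_all (PrV chk)
    p4484
    p4485)
   (brec_all (PrV chk)
    p4486
    p4487)))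
 (brec_all (PrV chk)
  (brec_all (PrV chk)
   (brec_all (PrV chk)
    p4488
    p4489)
   (brec_all (PrV chk)
    p4490
    p4491))
  (brec_all (PrV chk)
   (brec_all (PrV chk)
    p4492
    p4493)
   (brec_all (PrV chk)
    p4494
    p4495))))

theorem A0_281_ok (i : Nat) : PrV chk (A0_281 i) := by
 unfold A0_281
 exact
 (brec_all (PrV chk)
 (brec_all (PrV chk)
  (brec_all (PrV chk)
   (brec_all (PrV chk)
    p4496
    p4497)
   (brec_all (PrV chk)
    p4498
    p4499))
  (brec_all (PrV chk)
   (brec_all (PrV chk)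
    p4500
    p4501)
   (brec_all (PrV chk)
    p4502
    p4503)))
 (brec_all (PrV chk)
  (brec_all (PrV chk)
   (brec_all (PrV chk)
    p4504
    p4505)
   (brec_all (PrV chk)
    p4506
    p4507))
  (brec_all (PrV chk)
   (brec_all (PrV chk)
    p4508
    p4509)
   (brec_all (PrV chk)
    p4510
    p4511))))

theorem A0_282_ok (i : Nat) : PrV chk (A0_282 i) := by
 unfold A0_282
 exact
 (brec_all (PrV chk)
 (brec_all (PrV chk)
  (brec_all (PrV chk)
   (brec_all (PrV chk)
    p4512
    p4513)
   (brec_all (PrV chk)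
    p4514
    p4515))
  (brec_all (PrV chk)
   (brec_all (PrV chk)
    p4516
    p4517)
   (brec_all (PrV chk)
    p4518
    p4519)))
 (brec_all (PrV chk)
  (brec_all (PrV chk)
   (brec_all (PrV chk)
    p4520
    p4521)
   (brec_all (PrV chk)
    p4522
    p4523))
  (brec_all (PrV chk)
   (brec_all (PrV chk)
    p4524
    p4525)
   (brec_all (PrV chk)
    p4526
    p4527))))

theorem A0_283_ok (i : Nat) : PrV chk (A0_283 i) := by
 unfold A0_283
 exact
 (brec_all (PrV chk)
 (brec_all (PrV chk)
  (brec_all (PrV chk)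
   (brec_all (PrV chk)
    p4528
    p4529)
   (brec_all (PrV chk)
    p4530
    p4531))
  (brec_all (PrV chk)
   (brec_all (PrV chk)
    p4532
    p4533)
   (brec_all (PrV chk)
    p4534
    p4535)))
 (brec_all (PrV chk)
  (brec_all (PrV chk)
   (brec_all (PrV chk)
    p4536
    p4537)
   (brec_all (PrV chk)
    p4538
    p4539))
  (brec_all (PrV chk)
   (brec_all (PrV chk)
    p4540
    p4541)
   (brec_all (PrV chk)
    p4542
    p4543))))

theorem A0_284_ok (i : Nat) : PrV chk (A0_284 i) := by
 unfold A0_284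
 exact
 (brec_all (PrV chk)
 (brec_all (PrV chk)
  (brec_all (PrV chk)
   (brec_all (PrV chk)
    p4544
    p4545)
   (brec_all (PrV chk)
    p4546
    p4547))
  (brec_all (PrV chk)
   (brec_all (PrV chk)
    p4548
    p4549)
   (brec_all (PrV chk)
    p4550
    p4551)))
 (brec_all (PrV chk)
  (brec_all (PrV chk)
   (brec_all (PrV chk)
    p4552
    p4553)
   (brec_all (PrV chk)
    p4554
    p4555))
  (brec_all (PrV chk)
   (brec_all (PrV chk)
    p4556
    p4557)
   (brec_all (PrV chk)
    p4558
    p4559))))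

theorem A0_285_ok (i : Nat) : PrV chk (A0_285 i) := by
 unfold A0_285
 exact
 (brec_all (PrV chk)
 (brec_all (PrV chk)
  (brec_all (PrV chk)
   (brec_all (PrV chk)
    p4560
    p4561)
   (brec_all (PrV chk)
    p4562
    p4563))
  (brec_all (PrV chk)
   (brec_all (PrV chk)
    p4564
    p4565)
   (brec_all (PrV chk)
    p4566
    p4567)))
 (brec_all (PrV chk)
  (brec_all (PrV chk)
   (brec_all (PrV chk)
    p4568
    p4569)
   (brec_all (PrV chk)
    p4570
    p4571))
  (brec_all (PrV chk)
   (brec_all (PrV chk)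
    p4572
    p4573)
   (brec_all (PrV chk)
    p4574
    p4575))))

theorem A0_286_ok (i : Nat) : PrV chk (A0_286 i) := by
 unfold A0_286
 exact
 (brec_all (PrV chk)
 (brec_all (PrV chk)
  (brec_all (PrV chk)
   (brec_all (PrV chk)
    p4576
    p4577)
   (brec_all (PrV chk)
    p4578
    p4579))
  (brec_all (PrV chk)
   (brec_all (PrV chk)
    p4580
    p4581)
   (brec_all (PrV chk)
    p4582
    p4583)))
 (brec_all (PrV chk)
  (brec_all (PrV chk)
   (brec_all (PrV chk)
    p4584
    p4585)
   (brec_all (PrV chk)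
    p4586
    p4587))
  (brec_all (PrV chk)
   (brec_all (PrV chk)
    p4588
    p4589)
   (brec_all (PrV chk)
    p4590
    p4591))))

theorem A0_287_ok (i : Nat) : PrV chk (A0_287 i) := by
 unfold A0_287
 exact
 (brec_all (PrV chk)
 (brec_all (PrV chk)
  (brec_all (PrV chk)
   (brec_all (PrV chk)
    p4592
    p4593)
   (brec_all (PrV chk)
    p4594
    p4595))
  (brec_all (PrV chk)
   (brec_all (PrV chk)
    p4596
    p4597)
   (brec_all (PrV chk)
    p4598
    p4599)))
 (brec_all (PrV chk)
  (brec_all (PrV chk)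
   (brec_all (PrV chk)
    p4600
    p4601)
   (brec_all (PrV chk)
    p4602
    p4603))
  (brec_all (PrV chk)
   (brec_all (PrV chk)
    p4604
    p4605)
   (brec_all (PrV chk)
    p4606
    p4607))))

theorem A0_288_ok (i : Nat) : PrV chk (A0_288 i) := by
 unfold A0_288
 exact
 (brec_all (PrV chk)
 (brec_all (PrV chk)
  (brec_all (PrV chk)
   (brec_all (PrV chk)
    p4608
    p4609)
   (brec_all (PrV chk)
    p4610
    p4611))
  (brec_all (PrV chk)
   (brec_all (PrV chk)
    p4612
    p4613)
   (brec_all (PrV chk)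
    p4614
    p4615)))
 (brec_all (PrV chk)
  (brec_all (PrV chk)
   (brec_all (PrV chk)
    p4616
    p4617)
   (brec_all (PrV chk)
    p4618
    p4619))
  (brec_all (PrV chk)
   (brec_all (PrV chk)
    p4620
    p4621)
   (brec_all (PrV chk)
    p4622
    p4623))))

theorem A0_289_ok (i : Nat) : PrV chk (A0_289 i) := by
 unfold A0_289
 exact
 (brec_all (PrV chk)
 (brec_all (PrV chk)
  (brec_all (PrV chk)
   (brec_all (PrV chk)
    p4624
    p4625)
   (brec_all (PrV chk)
    p4626
    p4627))
  (brec_all (PrV chk)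
   (brec_all (PrV chk)
    p4628
    p4629)
   (brec_all (PrV chk)
    p4630
    p4631)))
 (brec_all (PrV chk)
  (brec_all (PrV chk)
   (brec_all (PrV chk)
    p4632
    p4633)
   (brec_all (PrV chk)
    p4634
    p4635))
  (brec_all (PrV chk)
   (brec_all (PrV chk)
    p4636
    p4637)
   (brec_all (PrV chk)
    p4638
    p4639))))

theorem A0_290_ok (i : Nat) : PrV chk (A0_290 i) := by
 unfold A0_290
 exact
 (brec_all (PrV chk)
 (brec_all (PrV chk)
  (brec_all (PrV chk)
   (brec_all (PrV chk)
    p4640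
    p4641)
   (brec_all (PrV chk)
    p4642
    p4643))
  (brec_all (PrV chk)
   (brec_all (PrV chk)
    p4644
    p4645)
   (brec_all (PrV chk)
    p4646
    p4647)))
 (brec_all (PrV chk)
  (brec_all (PrV chk)
   (brec_all (PrV chk)
    p4648
    p4649)
   (brec_all (PrV chk)
    p4650
    p4651))
  (brec_all (PrV chk)
   (brec_all (PrV chk)
    p4652
    p4653)
   (brec_all (PrV chk)
    p4654
    p4655))))

theorem A0_291_ok (i : Nat) : PrV chk (A0_291 i) := by
 unfold A0_291
 exact
 (brec_all (PrV chk)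
 (brec_all (PrV chk)
  (brec_all (PrV chk)
   (brec_all (PrV chk)
    p4656
    p4657)
   (brec_all (PrV chk)
    p4658
    p4659))
  (brec_all (PrV chk)
   (brec_all (PrV chk)
    p4660
    p4661)
   (brec_all (PrV chk)
    p4662
    p4663)))
 (brec_all (PrV chk)
  (brec_all (PrV chk)
   (brec_all (PrV chk)
    p4664
    p4665)
   (brec_all (PrV chk)
    p4666
    p4667))
  (brec_all (PrV chk)
   (brec_all (PrV chk)
    p4668
    p4669)
   (brec_all (PrV chk)
    p4670
    p4671))))

theorem A0_292_ok (i : Nat) : PrV chk (A0_292 i) := by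
 unfold A0_292
 exact
 (brec_all (PrV chk)
 (brec_all (PrV chk)
  (brec_all (PrV chk)
   (brec_all (PrV chk)
    p4672
    p4673)
   (brec_all (PrV chk)
    p4674
    p4675))
  (brec_all (PrV chk)
   (brec_all (PrV chk)
    p4676
    p4677)
   (brec_all (PrV chk)
    p4678
    p4679)))
 (brec_all (PrV chk)
  (brec_all (PrV chk)
   (brec_all (PrV chk)
    p4680
    p4681)
   (brec_all (PrV chk)
    p4682
    p4683))
  (brec_all (PrV chk)
   (brec_all (PrV chk)
    p4684
    p4685)
   (brec_all (PrV chk)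
    p4686
    p4687))))

theorem A0_293_ok (i : Nat) : PrV chk (A0_293 i) := by
 unfold A0_293
 exact
 (brec_all (PrV chk)
 (brec_all (PrV chk)
  (brec_all (PrV chk)
   (brec_all (PrV chk)
    p4688
    p4689)
   (brec_all (PrV chk)
    p4690
    p4691))
  (brec_all (PrV chk)
   (brec_all (PrV chk)
    p4692
    p4693)
   (brec_all (PrV chk)
    p4694
    p4695)))
 (brec_all (PrV chk)
  (brec_all (PrV chk)
   (brec_all (PrV chk)
    p4696
    p4697)
   (brec_all (PrV chk)
    p4698
    p4699))
  (brec_all (PrV chk)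
   (brec_all (PrV chk)
    p4700
    p4701)
   (brec_all (PrV chk)
    p4702
    p4703))))

theorem A0_294_ok (i : Nat) : PrV chk (A0_294 i) := by
 unfold A0_294
 exact
 (brec_all (PrV chk)
 (brec_all (PrV chk)
  (brec_all (PrV chk)
   (brec_all (PrV chk)
    p4704
    p4705)
   (brec_all (PrV chk)
    p4706
    p4707))
  (brec_all (PrV chk)
   (brec_all (PrV chk)
    p4708
    p4709)
   (brec_all (PrV chk)
    p4710
    p4711)))
 (brec_all (PrV chk)
  (brec_all (PrV chk)
   (brec_all (PrV chk)
    p4712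
    p4713)
   (brec_all (PrV chk)
    p4714
    p4715))
  (brec_all (PrV chk)
   (brec_all (PrV chk)
    p4716
    p4717)
   (brec_all (PrV chk)
    p4718
    p4719))))

theorem A0_295_ok (i : Nat) : PrV chk (A0_295 i) := by
 unfold A0_295
 exact
 (brec_all (PrV chk)
 (brec_all (PrV chk)
  (brec_all (PrV chk)
   (brec_all (PrV chk)
    p4720
    p4721)
   (brec_all (PrV chk)
    p4722
    p4723))
  (brec_all (PrV chk)
   (brec_all (PrV chk)
    p4724
    p4725)
   (brec_all (PrV chk)
    p4726
    p4727)))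
 (brec_all (PrV chk)
  (brec_all (PrV chk)
   (brec_all (PrV chk)
    p4728
    p4729)
   (brec_all (PrV chk)
    p4730
    p4731))
  (brec_all (PrV chk)
   (brec_all (PrV chk)
    p4732
    p4733)
   (brec_all (PrV chk)
    p4734
    p4735))))

theorem A0_296_ok (i : Nat) : PrV chk (A0_296 i) := by
 unfold A0_296
 exact
 (brec_all (PrV chk)
 (brec_all (PrV chk)
  (brec_all (PrV chk)
   (brec_all (PrV chk)
    p4736
    p4737)
   (brec_all (PrV chk)
    p4738
    p4739))
  (brec_all (PrV chk)
   (brec_all (PrV chk)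
    p4740
    p4741)
   (brec_all (PrV chk)
    p4742
    p4743)))
 (brec_all (PrV chk)
  (brec_all (PrV chk)
   (brec_all (PrV chk)
    p4744
    p4745)
   (brec_all (PrV chk)
    p4746
    p4747))
  (brec_all (PrV chk)
   (brec_all (PrV chk)
    p4748
    p4749)
   (brec_all (PrV chk)
    p4750
    p4751))))

theorem A0_297_ok (i : Nat) : PrV chk (A0_297 i) := by
 unfold A0_297
 exact
 (brec_all (PrV chk)
 (brec_all (PrV chk)
  (brec_all (PrV chk)
   (brec_all (PrV chk)
    p4752
    p4753)
   (brec_all (PrV chk)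
    p4754
    p4755))
  (brec_all (PrV chk)
   (brec_all (PrV chk)
    p4756
    p4757)
   (brec_all (PrV chk)
    p4758
    p4759)))
 (brec_all (PrV chk)
  (brec_all (PrV chk)
   (brec_all (PrV chk)
    p4760
    p4761)
   (brec_all (PrV chk)
    p4762
    p4763))
  (brec_all (PrV chk)
   (brec_all (PrV chk)
    p4764
    p4765)
   (brec_all (PrV chk)
    p4766
    p4767))))

theorem A0_298_ok (i : Nat) : PrV chk (A0_298 i) := by
 unfold A0_298
 exact
 (brec_all (PrV chk)
 (brec_all (PrV chk)
  (brec_all (PrV chk)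
   (brec_all (PrV chk)
    p4768
    p4769)
   (brec_all (PrV chk)
    p4770
    p4771))
  (brec_all (PrV chk)
   (brec_all (PrV chk)
    p4772
    p4773)
   (brec_all (PrV chk)
    p4774
    p4775)))
 (brec_all (PrV chk)
  (brec_all (PrV chk)
   (brec_all (PrV chk)
    p4776
    p4777)
   (brec_all (PrV chk)
    p4778
    p4779))
  (brec_all (PrV chk)
   (brec_all (PrV chk)
    p4780
    p4781)
   (brec_all (PrV chk)
    p4782
    p4783))))

theorem A0_299_ok (i : Nat) : PrV chk (A0_299 i) := by
 unfold A0_299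
 exact
 (brec_all (PrV chk)
 (brec_all (PrV chk)
  (brec_all (PrV chk)
   (brec_all (PrV chk)
    p4784
    p4785)
   (brec_all (PrV chk)
    p4786
    p4787))
  (brec_all (PrV chk)
   (brec_all (PrV chk)
    p4788
    p4789)
   (brec_all (PrV chk)
    p4790
    p4791)))
 (brec_all (PrV chk)
  (brec_all (PrV chk)
   (brec_all (PrV chk)
    p4792
    p4793)
   (brec_all (PrV chk)
    p4794
    p4795))
  (brec_all (PrV chk)
   (brec_all (PrV chk)
    p4796
    p4797)
   (brec_all (PrV chk)
    p4798
    p4799))))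

theorem A0_300_ok (i : Nat) : PrV chk (A0_300 i) := by
 unfold A0_300
 exact
 (brec_all (PrV chk)
 (brec_all (PrV chk)
  (brec_all (PrV chk)
   (brec_all (PrV chk)
    p4800
    p4801)
   (brec_all (PrV chk)
    p4802
    p4803))
  (brec_all (PrV chk)
   (brec_all (PrV chk)
    p4804
    p4805)
   (brec_all (PrV chk)
    p4806
    p4807)))
 (brec_all (PrV chk)
  (brec_all (PrV chk)
   (brec_all (PrV chk)
    p4808
    p4809)
   (brec_all (PrV chk)
    p4810
    p4811))
  (brec_all (PrV chk)
   (brec_all (PrV chk)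
    p4812
    p4813)
   (brec_all (PrV chk)
    p4814
    p4815))))

theorem A0_301_ok (i : Nat) : PrV chk (A0_301 i) := by
 unfold A0_301
 exact
 (brec_all (PrV chk)
 (brec_all (PrV chk)
  (brec_all (PrV chk)
   (brec_all (PrV chk)
    p4816
    p4817)
   (brec_all (PrV chk)
    p4818
    p4819))
  (brec_all (PrV chk)
   (brec_all (PrV chk)
    p4820
    p4821)
   (brec_all (PrV chk)
    p4822
    p4823)))
 (brec_all (PrV chk)
  (brec_all (PrV chk)
   (brec_all (PrV chk)
    p4824
    p4825)
   (brec_all (PrV chk)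
    p4826
    p4827))
  (brec_all (PrV chk)
   (brec_all (PrV chk)
    p4828
    p4829)
   (brec_all (PrV chk)
    p4830
    p4831))))

theorem A0_302_ok (i : Nat) : PrV chk (A0_302 i) := by
 unfold A0_302
 exact
 (brec_all (PrV chk)
 (brec_all (PrV chk)
  (brec_all (PrV chk)
   (brec_all (PrV chk)
    p4832
    p4833)
   (brec_all (PrV chk)
    p4834
    p4835))
  (brec_all (PrV chk)
   (brec_all (PrV chk)
    p4836
    p4837)
   (brec_all (PrV chk)
    p4838
    p4839)))
 (brec_all (PrV chk)
  (brec_all (PrV chk)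
   (brec_all (PrV chk)
    p4840
    p4841)
   (brec_all (PrV chk)
    p4842
    p4843))
  (brec_all (PrV chk)
   (brec_all (PrV chk)
    p4844
    p4845)
   (brec_all (PrV chk)
    p4846
    p4847))))

theorem A0_303_ok (i : Nat) : PrV chk (A0_303 i) := by
 unfold A0_303
 exact
 (brec_all (PrV chk)
 (brec_all (PrV chk)
  (brec_all (PrV chk)
   (brec_all (PrV chk)
    p4848
    p4849)
   (brec_all (PrV chk)
    p4850
    p4851))
  (brec_all (PrV chk)
   (brec_all (PrV chk)
    p4852
    p4853)
   (brec_all (PrV chk)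
    p4854
    p4855)))
 (brec_all (PrV chk)
  (brec_all (PrV chk)
   (brec_all (PrV chk)
    p4856
    p4857)
   (brec_all (PrV chk)
    p4858
    p4859))
  (brec_all (PrV chk)
   (brec_all (PrV chk)
    p4860
    p4861)
   (brec_all (PrV chk)
    p4862
    p4863))))

theorem A0_304_ok (i : Nat) : PrV chk (A0_304 i) := by
 unfold A0_304
 exact
 (brec_all (PrV chk)
 (brec_all (PrV chk)
  (brec_all (PrV chk)
   (brec_all (PrV chk)
    p4864
    p4865)
   (brec_all (PrV chk)
    p4866
    p4867))
  (brec_all (PrV chk)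
   (brec_all (PrV chk)
    p4868
    p4869)
   (brec_all (PrV chk)
    p4870
    p4871)))
 (brec_all (PrV chk)
  (brec_all (PrV chk)
   (brec_all (PrV chk)
    p4872
    p4873)
   (brec_all (PrV chk)
    p4874
    p4875))
  (brec_all (PrV chk)
   (brec_all (PrV chk)
    p4876
    p4877)
   (brec_all (PrV chk)
    p4878
    p4879))))

theorem A0_305_ok (i : Nat) : PrV chk (A0_305 i) := by
 unfold A0_305
 exact
 (brec_all (PrV chk)
 (brec_all (PrV chk)
  (brec_all (PrV chk)
   (brec_all (PrV chk)
    p4880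
    p4881)
   (brec_all (PrV chk)
    p4882
    p4883))
  (brec_all (PrV chk)
   (brec_all (PrV chk)
    p4884
    p4885)
   (brec_all (PrV chk)
    p4886
    p4887)))
 (brec_all (PrV chk)
  (brec_all (PrV chk)
   (brec_all (PrV chk)
    p4888
    p4889)
   (brec_all (PrV chk)
    p4890
    p4891))
  (brec_all (PrV chk)
   (brec_all (PrV chk)
    p4892
    p4893)
   (brec_all (PrV chk)
    p4894
    p4895))))

theorem A0_306_ok (i : Nat) : PrV chk (A0_306 i) := by
 unfold A0_306
 exact
 (brec_all (PrV chk)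
 (brec_all (PrV chk)
  (brec_all (PrV chk)
   (brec_all (PrV chk)
    p4896
    p4897)
   (brec_all (PrV chk)
    p4898
    p4899))
  (brec_all (PrV chk)
   (brec_all (PrV chk)
    p4900
    p4901)
   (brec_all (PrV chk)
    p4902
    p4903)))
 (brec_all (PrV chk)
  (brec_all (PrV chk)
   (brec_all (PrV chk)
    p4904
    p4905)
   (brec_all (PrV chk)
    p4906
    p4907))
  (brec_all (PrV chk)
   (brec_all (PrV chk)
    p4908
    p4909)
   (brec_all (PrV chk)
    p4910
    p4911))))

theorem A0_307_ok (i : Nat) : PrV chk (A0_307 i) := by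
 unfold A0_307
 exact
 (brec_all (PrV chk)
 (brec_all (PrV chk)
  (brec_all (PrV chk)
   (brec_all (PrV chk)
    p4912
    p4913)
   (brec_all (PrV chk)
    p4914
    p4915))
  (brec_all (PrV chk)
   (brec_all (PrV chk)
    p4916
    p4917)
   (brec_all (PrV chk)
    p4918
    p4919)))
 (brec_all (PrV chk)
  (brec_all (PrV chk)
   (brec_all (PrV chk)
    p4920
    p4921)
   (brec_all (PrV chk)
    p4922
    p4923))
  (brec_all (PrV chk)
   (brec_all (PrV chk)
    p4924
    p4925)
   (brec_all (PrV chk)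
    p4926
    p4927))))

theorem A0_308_ok (i : Nat) : PrV chk (A0_308 i) := by
 unfold A0_308
 exact
 (brec_all (PrV chk)
 (brec_all (PrV chk)
  (brec_all (PrV chk)
   (brec_all (PrV chk)
    p4928
    p4929)
   (brec_all (PrV chk)
    p4930
    p4931))
  (brec_all (PrV chk)
   (brec_all (PrV chk)
    p4932
    p4933)
   (brec_all (PrV chk)
    p4934
    p4935)))
 (brec_all (PrV chk)
  (brec_all (PrV chk)
   (brec_all (PrV chk)
    p4936
    p4937)
   (brec_all (PrV chk)
    p4938
    p4939))
  (brec_all (PrV chk)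
   (brec_all (PrV chk)
    p4940
    p4941)
   (brec_all (PrV chk)
    p4942
    p4943))))

theorem A0_309_ok (i : Nat) : PrV chk (A0_309 i) := by
 unfold A0_309
 exact
 (brec_all (PrV chk)
 (brec_all (PrV chk)
  (brec_all (PrV chk)
   (brec_all (PrV chk)
    p4944
    p4945)
   (brec_all (PrV chk)
    p4946
    p4947))
  (brec_all (PrV chk)
   (brec_all (PrV chk)
    p4948
    p4949)
   (brec_all (PrV chk)
    p4950
    p4951)))
 (brec_all (PrV chk)
  (brec_all (PrV chk)
   (brec_all (PrV chk)
    p4952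
    p4953)
   (brec_all (PrV chk)
    p4954
    p4955))
  (brec_all (PrV chk)
   (brec_all (PrV chk)
    p4956
    p4957)
   (brec_all (PrV chk)
    p4958
    p4959))))

theorem A0_310_ok (i : Nat) : PrV chk (A0_310 i) := by
 unfold A0_310
 exact
 (brec_all (PrV chk)
 (brec_all (PrV chk)
  (brec_all (PrV chk)
   (brec_all (PrV chk)
    p4960
    p4961)
   (brec_all (PrV chk)
    p4962
    p4963))
  (brec_all (PrV chk)
   (brec_all (PrV chk)
    p4964
    p4965)
   (brec_all (PrV chk)
    p4966
    p4967)))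
 (brec_all (PrV chk)
  (brec_all (PrV chk)
   (brec_all (PrV chk)
    p4968
    p4969)
   (brec_all (PrV chk)
    p4970
    p4971))
  (brec_all (PrV chk)
   (brec_all (PrV chk)
    p4972
    p4973)
   (brec_all (PrV chk)
    p4974
    p4975))))

theorem A0_311_ok (i : Nat) : PrV chk (A0_311 i) := by
 unfold A0_311
 exact
 (brec_all (PrV chk)
 (brec_all (PrV chk)
  (brec_all (PrV chk)
   (brec_all (PrV chk)
    p4976
    p4977)
   (brec_all (PrV chk)
    p4978
    p4979))
  (brec_all (PrV chk)
   (brec_all (PrV chk)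
    p4980
    p4981)
   (brec_all (PrV chk)
    p4982
    p4983)))
 (brec_all (PrV chk)
  (brec_all (PrV chk)
   (brec_all (PrV chk)
    p4984
    p4985)
   (brec_all (PrV chk)
    p4986
    p4987))
  (brec_all (PrV chk)
   (brec_all (PrV chk)
    p4988
    p4989)
   (brec_all (PrV chk)
    p4990
    p4991))))

theorem A0_312_ok (i : Nat) : PrV chk (A0_312 i) := by
 unfold A0_312
 exact
 (brec_all (PrV chk)
 (brec_all (PrV chk)
  (brec_all (PrV chk)
   (brec_all (PrV chk)
    p4992
    p4993)
   (brec_all (PrV chk)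
    p4994
    p4995))
  (brec_all (PrV chk)
   (brec_all (PrV chk)
    p4996
    p4997)
   (brec_all (PrV chk)
    p4998
    p4999)))
 (brec_all (PrV chk)
  (brec_all (PrV chk)
   (brec_all (PrV chk)
    p5000
    p5001)
   (brec_all (PrV chk)
    p5002
    p5003))
  (brec_all (PrV chk)
   (brec_all (PrV chk)
    p5004
    p5005)
   (brec_all (PrV chk)
    p5006
    p5007))))

theorem A0_313_ok (i : Nat) : PrV chk (A0_313 i) := by
 unfold A0_313
 exact
 (brec_all (PrV chk)
 (brec_all (PrV chk)
  (brec_all (PrV chk)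
   (brec_all (PrV chk)
    p5008
    p5009)
   (brec_all (PrV chk)
    p5010
    p5011))
  (brec_all (PrV chk)
   (brec_all (PrV chk)
    p5012
    p5013)
   (brec_all (PrV chk)
    p5014
    p5015)))
 (brec_all (PrV chk)
  (brec_all (PrV chk)
   (brec_all (PrV chk)
    p5016
    p5017)
   (brec_all (PrV chk)
    p5018
    p5019))
  (brec_all (PrV chk)
   (brec_all (PrV chk)
    p5020
    p5021)
   (brec_all (PrV chk)
    p5022
    p5023))))

theorem A0_314_ok (i : Nat) : PrV chk (A0_314 i) := by
 unfold A0_314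
 exact
 (brec_all (PrV chk)
 (brec_all (PrV chk)
  (brec_all (PrV chk)
   (brec_all (PrV chk)
    p5024
    p5025)
   (brec_all (PrV chk)
    p5026
    p5027))
  (brec_all (PrV chk)
   (brec_all (PrV chk)
    p5028
    p5029)
   (brec_all (PrV chk)
    p5030
    p5031)))
 (brec_all (PrV chk)
  (brec_all (PrV chk)
   (brec_all (PrV chk)
    p5032
    p5033)
   (brec_all (PrV chk)
    p5034
    p5035))
  (brec_all (PrV chk)
   (brec_all (PrV chk)
    p5036
    p5037)
   (brec_all (PrV chk)
    p5038
    p5039))))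

theorem A0_315_ok (i : Nat) : PrV chk (A0_315 i) := by
 unfold A0_315
 exact
 (brec_all (PrV chk)
 (brec_all (PrV chk)
  (brec_all (PrV chk)
   (brec_all (PrV chk)
    p5040
    p5041)
   (brec_all (PrV chk)
    p5042
    p5043))
  (brec_all (PrV chk)
   (brec_all (PrV chk)
    p5044
    p5045)
   (brec_all (PrV chk)
    p5046
    p5047)))
 (brec_all (PrV chk)
  (brec_all (PrV chk)
   (brec_all (PrV chk)
    p5048
    p5049)
   (brec_all (PrV chk)
    p5050
    p5051))
  (brec_all (PrV chk)
   (brec_all (PrV chk)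
    p5052
    p5053)
   (brec_all (PrV chk)
    p5054
    p5055))))

theorem A0_316_ok (i : Nat) : PrV chk (A0_316 i) := by
 unfold A0_316
 exact
 (brec_all (PrV chk)
 (brec_all (PrV chk)
  (brec_all (PrV chk)
   (brec_all (PrV chk)
    p5056
    p5057)
   (brec_all (PrV chk)
    p5058
    p5059))
  (brec_all (PrV chk)
   (brec_all (PrV chk)
    p5060
    p5061)
   (brec_all (PrV chk)
    p5062
    p5063)))
 (brec_all (PrV chk)
  (brec_all (PrV chk)
   (brec_all (PrV chk)
    p5064
    p5065)
   (brec_all (PrV chk)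
    p5066
    p5067))
  (brec_all (PrV chk)
   (brec_all (PrV chk)
    p5068
    p5069)
   (brec_all (PrV chk)
    p5070
    p5071))))

theorem A0_317_ok (i : Nat) : PrV chk (A0_317 i) := by
 unfold A0_317
 exact
 (brec_all (PrV chk)
 (brec_all (PrV chk)
  (brec_all (PrV chk)
   (brec_all (PrV chk)
    p5072
    p5073)
   (brec_all (PrV chk)
    p5074
    p5075))
  (brec_all (PrV chk)
   (brec_all (PrV chk)
    p5076
    p5077)
   (brec_all (PrV chk)
    p5078
    p5079)))
 (brec_all (PrV chk)
  (brec_all (PrV chk)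
   (brec_all (PrV chk)
    p5080
    p5081)
   (brec_all (PrV chk)
    p5082
    p5083))
  (brec_all (PrV chk)
   (brec_all (PrV chk)
    p5084
    p5085)
   (brec_all (PrV chk)
    p5086
    p5087))))

theorem A0_318_ok (i : Nat) : PrV chk (A0_318 i) := by
 unfold A0_318
 exact
 (brec_all (PrV chk)
 (brec_all (PrV chk)
  (brec_all (PrV chk)
   (brec_all (PrV chk)
    p5088
    p5089)
   (brec_all (PrV chk)
    p5090
    p5091))
  (brec_all (PrV chk)
   (brec_all (PrV chk)
    p5092
    p5093)
   (brec_all (PrV chk)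
    p5094
    p5095)))
 (brec_all (PrV chk)
  (brec_all (PrV chk)
   (brec_all (PrV chk)
    p5096
    p5097)
   (brec_all (PrV chk)
    p5098
    p5099))
  (brec_all (PrV chk)
   (brec_all (PrV chk)
    p5100
    p5101)
   (brec_all (PrV chk)
    p5102
    p5103))))

theorem A0_319_ok (i : Nat) : PrV chk (A0_319 i) := by
 unfold A0_319
 exact
 (brec_all (PrV chk)
 (brec_all (PrV chk)
  (brec_all (PrV chk)
   (brec_all (PrV chk)
    p5104
    p5105)
   (brec_all (PrV chk)
    p5106
    p5107))
  (brec_all (PrV chk)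
   (brec_all (PrV chk)
    p5108
    p5109)
   (brec_all (PrV chk)
    p5110
    p5111)))
 (brec_all (PrV chk)
  (brec_all (PrV chk)
   (brec_all (PrV chk)
    p5112
    p5113)
   (brec_all (PrV chk)
    p5114
    p5115))
  (brec_all (PrV chk)
   (brec_all (PrV chk)
    p5116
    p5117)
   (brec_all (PrV chk)
    p5118
    p5119))))

theorem A0_320_ok (i : Nat) : PrV chk (A0_320 i) := by
 unfold A0_320
 exact
 (brec_all (PrV chk)
 (brec_all (PrV chk)
  (brec_all (PrV chk)
   (brec_all (PrV chk)
    p5120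
    p5121)
   (brec_all (PrV chk)
    p5122
    p5123))
  (brec_all (PrV chk)
   (brec_all (PrV chk)
    p5124
    p5125)
   (brec_all (PrV chk)
    p5126
    p5127)))
 (brec_all (PrV chk)
  (brec_all (PrV chk)
   (brec_all (PrV chk)
    p5128
    p5129)
   (brec_all (PrV chk)
    p5130
    p5131))
  (brec_all (PrV chk)
   (brec_all (PrV chk)
    p5132
    p5133)
   (brec_all (PrV chk)
    p5134
    p5135))))

theorem A0_321_ok (i : Nat) : PrV chk (A0_321 i) := by
 unfold A0_321
 exact
 (brec_all (PrV chk)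
 (brec_all (PrV chk)
  (brec_all (PrV chk)
   (brec_all (PrV chk)
    p5136
    p5137)
   (brec_all (PrV chk)
    p5138
    p5139))
  (brec_all (PrV chk)
   (brec_all (PrV chk)
    p5140
    p5141)
   (brec_all (PrV chk)
    p5142
    p5143)))
 (brec_all (PrV chk)
  (brec_all (PrV chk)
   (brec_all (PrV chk)
    p5144
    p5145)
   (brec_all (PrV chk)
    p5146
    p5147))
  (brec_all (PrV chk)
   (brec_all (PrV chk)
    p5148
    p5149)
   (brec_all (PrV chk)
    p5150
    p5151))))

theorem A0_322_ok (i : Nat) : PrV chk (A0_322 i) := by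
 unfold A0_322
 exact
 (brec_all (PrV chk)
 (brec_all (PrV chk)
  (brec_all (PrV chk)
   (brec_all (PrV chk)
    p5152
    p5153)
   (brec_all (PrV chk)
    p5154
    p5155))
  (brec_all (PrV chk)
   (brec_all (PrV chk)
    p5156
    p5157)
   (brec_all (PrV chk)
    p5158
    p5159)))
 (brec_all (PrV chk)
  (brec_all (PrV chk)
   (brec_all (PrV chk)
    p5160
    p5161)
   (brec_all (PrV chk)
    p5162
    p5163))
  (brec_all (PrV chk)
   (brec_all (PrV chk)
    p5164
    p5165)
   (brec_all (PrV chk)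
    p5166
    p5167))))

theorem A0_323_ok (i : Nat) : PrV chk (A0_323 i) := by
 unfold A0_323
 exact
 (brec_all (PrV chk)
 (brec_all (PrV chk)
  (brec_all (PrV chk)
   (brec_all (PrV chk)
    p5168
    p5169)
   (brec_all (PrV chk)
    p5170
    p5171))
  (brec_all (PrV chk)
   (brec_all (PrV chk)
    p5172
    p5173)
   (brec_all (PrV chk)
    p5174
    p5175)))
 (brec_all (PrV chk)
  (brec_all (PrV chk)
   (brec_all (PrV chk)
    p5176
    p5177)
   (brec_all (PrV chk)
    p5178
    p5179))
  (brec_all (PrV chk)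
   (brec_all (PrV chk)
    p5180
    p5181)
   (brec_all (PrV chk)
    p5182
    p5183))))

theorem A0_324_ok (i : Nat) : PrV chk (A0_324 i) := by
 unfold A0_324
 exact
 (brec_all (PrV chk)
 (brec_all (PrV chk)
  (brec_all (PrV chk)
   (brec_all (PrV chk)
    p5184
    p5185)
   (brec_all (PrV chk)
    p5186
    p5187))
  (brec_all (PrV chk)
   (brec_all (PrV chk)
    p5188
    p5189)
   (brec_all (PrV chk)
    p5190
    p5191)))
 (brec_all (PrV chk)
  (brec_all (PrV chk)
   (brec_all (PrV chk)
    p5192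
    p5193)
   (brec_all (PrV chk)
    p5194
    p5195))
  (brec_all (PrV chk)
   (brec_all (PrV chk)
    p5196
    p5197)
   (brec_all (PrV chk)
    p5198
    p5199))))

theorem A0_325_ok (i : Nat) : PrV chk (A0_325 i) := by
 unfold A0_325
 exact
 (brec_all (PrV chk)
 (brec_all (PrV chk)
  (brec_all (PrV chk)
   (brec_all (PrV chk)
    p5200
    p5201)
   (brec_all (PrV chk)
    p5202
    p5203))
  (brec_all (PrV chk)
   (brec_all (PrV chk)
    p5204
    p5205)
   (brec_all (PrV chk)
    p5206
    p5207)))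
 (brec_all (PrV chk)
  (brec_all (PrV chk)
   (brec_all (PrV chk)
    p5208
    p5209)
   (brec_all (PrV chk)
    p5210
    p5211))
  (brec_all (PrV chk)
   (brec_all (PrV chk)
    p5212
    p5213)
   (brec_all (PrV chk)
    p5214
    p5215))))

theorem A0_326_ok (i : Nat) : PrV chk (A0_326 i) := by
 unfold A0_326
 exact
 (brec_all (PrV chk)
 (brec_all (PrV chk)
  (brec_all (PrV chk)
   (brec_all (PrV chk)
    p5216
    p5217)
   (brec_all (PrV chk)
    p5218
    p5219))
  (brec_all (PrV chk)
   (brec_all (PrV chk)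
    p5220
    p5221)
   (brec_all (PrV chk)
    p5222
    p5223)))
 (brec_all (PrV chk)
  (brec_all (PrV chk)
   (brec_all (PrV chk)
    p5224
    p5225)
   (brec_all (PrV chk)
    p5226
    p5227))
  (brec_all (PrV chk)
   (brec_all (PrV chk)
    p5228
    p5229)
   (brec_all (PrV chk)
    p5230
    p5231))))

theorem A0_327_ok (i : Nat) : PrV chk (A0_327 i) := by
 unfold A0_327
 exact
 (brec_all (PrV chk)
 (brec_all (PrV chk)
  (brec_all (PrV chk)
   (brec_all (PrV chk)
    p5232
    p5233)
   (brec_all (PrV chk)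
    p5234
    p5235))
  (brec_all (PrV chk)
   (brec_all (PrV chk)
    p5236
    p5237)
   (brec_all (PrV chk)
    p5238
    p5239)))
 (brec_all (PrV chk)
  (brec_all (PrV chk)
   (brec_all (PrV chk)
    p5240
    p5241)
   (brec_all (PrV chk)
    p5242
    p5243))
  (brec_all (PrV chk)
   (brec_all (PrV chk)
    p5244
    p5245)
   (brec_all (PrV chk)
    p5246
    p5247))))

theorem A0_328_ok (i : Nat) : PrV chk (A0_328 i) := by
 unfold A0_328
 exact
 (brec_all (PrV chk)
 (brec_all (PrV chk)
  (brec_all (PrV chk)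
   (brec_all (PrV chk)
    p5248
    p5249)
   (brec_all (PrV chk)
    p5250
    p5251))
  (brec_all (PrV chk)
   (brec_all (PrV chk)
    p5252
    p5253)
   (brec_all (PrV chk)
    p5254
    p5255)))
 (brec_all (PrV chk)
  (brec_all (PrV chk)
   (brec_all (PrV chk)
    p5256
    p5257)
   (brec_all (PrV chk)
    p5258
    p5259))
  (brec_all (PrV chk)
   (brec_all (PrV chk)
    p5260
    p5261)
   (brec_all (PrV chk)
    p5262
    p5263))))

theorem A0_329_ok (i : Nat) : PrV chk (A0_329 i) := by
 unfold A0_329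
 exact
 (brec_all (PrV chk)
 (brec_all (PrV chk)
  (brec_all (PrV chk)
   (brec_all (PrV chk)
    p5264
    p5265)
   (brec_all (PrV chk)
    p5266
    p5267))
  (brec_all (PrV chk)
   (brec_all (PrV chk)
    p5268
    p5269)
   (brec_all (PrV chk)
    p5270
    p5271)))
 (brec_all (PrV chk)
  (brec_all (PrV chk)
   (brec_all (PrV chk)
    p5272
    p5273)
   (brec_all (PrV chk)
    p5274
    p5275))
  (brec_all (PrV chk)
   (brec_all (PrV chk)
    p5276
    p5277)
   (brec_all (PrV chk)
    p5278
    p5279))))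

theorem A0_330_ok (i : Nat) : PrV chk (A0_330 i) := by
 unfold A0_330
 exact
 (brec_all (PrV chk)
 (brec_all (PrV chk)
  (brec_all (PrV chk)
   (brec_all (PrV chk)
    p5280
    p5281)
   (brec_all (PrV chk)
    p5282
    p5283))
  (brec_all (PrV chk)
   (brec_all (PrV chk)
    p5284
    p5285)
   (brec_all (PrV chk)
    p5286
    p5287)))
 (brec_all (PrV chk)
  (brec_all (PrV chk)
   (brec_all (PrV chk)
    p5288
    p5289)
   (brec_all (PrV chk)
    p5290
    p5291))
  (brec_all (PrV chk)
   (brec_all (PrV chk)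
    p5292
    p5293)
   (brec_all (PrV chk)
    p5294
    p5295))))

theorem A0_331_ok (i : Nat) : PrV chk (A0_331 i) := by
 unfold A0_331
 exact
 (brec_all (PrV chk)
 (brec_all (PrV chk)
  (brec_all (PrV chk)
   (brec_all (PrV chk)
    p5296
    p5297)
   (brec_all (PrV chk)
    p5298
    p5299))
  (brec_all (PrV chk)
   (brec_all (PrV chk)
    p5300
    p5301)
   (brec_all (PrV chk)
    p5302
    p5303)))
 (brec_all (PrV chk)
  (brec_all (PrV chk)
   (brec_all (PrV chk)
    p5304
    p5305)
   (brec_all (PrV chk)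
    p5306
    p5307))
  (brec_all (PrV chk)
   (brec_all (PrV chk)
    p5308
    p5309)
   (brec_all (PrV chk)
    p5310
    p5311))))

theorem A0_332_ok (i : Nat) : PrV chk (A0_332 i) := by
 unfold A0_332
 exact
 (brec_all (PrV chk)
 (brec_all (PrV chk)
  (brec_all (PrV chk)
   (brec_all (PrV chk)
    p5312
    p5313)
   (brec_all (PrV chk)
    p5314
    p5315))
  (brec_all (PrV chk)
   (brec_all (PrV chk)
    p5316
    p5317)
   (brec_all (PrV chk)
    p5318
    p5319)))
 (brec_all (PrV chk)
  (brec_all (PrV chk)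
   (brec_all (PrV chk)
    p5320
    p5321)
   (brec_all (PrV chk)
    p5322
    p5323))
  (brec_all (PrV chk)
   (brec_all (PrV chk)
    p5324
    p5325)
   (brec_all (PrV chk)
    p5326
    p5327))))

theorem A0_333_ok (i : Nat) : PrV chk (A0_333 i) := by
 unfold A0_333
 exact
 (brec_all (PrV chk)
 (brec_all (PrV chk)
  (brec_all (PrV chk)
   (brec_all (PrV chk)
    p5328
    p5329)
   (brec_all (PrV chk)
    p5330
    p5331))
  (brec_all (PrV chk)
   (brec_all (PrV chk)
    p5332
    p5333)
   (brec_all (PrV chk)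
    p5334
    p5335)))
 (brec_all (PrV chk)
  (brec_all (PrV chk)
   (brec_all (PrV chk)
    p5336
    p5337)
   (brec_all (PrV chk)
    p5338
    p5339))
  (brec_all (PrV chk)
   (brec_all (PrV chk)
    p5340
    p5341)
   (brec_all (PrV chk)
    p5342
    p5343))))

theorem A0_334_ok (i : Nat) : PrV chk (A0_334 i) := by
 unfold A0_334
 exact
 (brec_all (PrV chk)
 (brec_all (PrV chk)
  (brec_all (PrV chk)
   (brec_all (PrV chk)
    p5344
    p5345)
   (brec_all (PrV chk)
    p5346
    p5347))
  (brec_all (PrV chk)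
   (brec_all (PrV chk)
    p5348
    p5349)
   (brec_all (PrV chk)
    p5350
    p5351)))
 (brec_all (PrV chk)
  (brec_all (PrV chk)
   (brec_all (PrV chk)
    p5352
    p5353)
   (brec_all (PrV chk)
    p5354
    p5355))
  (brec_all (PrV chk)
   (brec_all (PrV chk)
    p5356
    p5357)
   (brec_all (PrV chk)
    p5358
    p5359))))

theorem A0_335_ok (i : Nat) : PrV chk (A0_335 i) := by
 unfold A0_335
 exact
 (brec_all (PrV chk)
 (brec_all (PrV chk)
  (brec_all (PrV chk)
   (brec_all (PrV chk)
    p5360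
    p5361)
   (brec_all (PrV chk)
    p5362
    p5363))
  (brec_all (PrV chk)
   (brec_all (PrV chk)
    p5364
    p5365)
   (brec_all (PrV chk)
    p5366
    p5367)))
 (brec_all (PrV chk)
  (brec_all (PrV chk)
   (brec_all (PrV chk)
    p5368
    p5369)
   (brec_all (PrV chk)
    p5370
    p5371))
  (brec_all (PrV chk)
   (brec_all (PrV chk)
    p5372
    p5373)
   (brec_all (PrV chk)
    p5374
    p5375))))

theorem A0_336_ok (i : Nat) : PrV chk (A0_336 i) := by
 unfold A0_336
 exact
 (brec_all (PrV chk)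
 (brec_all (PrV chk)
  (brec_all (PrV chk)
   (brec_all (PrV chk)
    p5376
    p5377)
   (brec_all (PrV chk)
    p5378
    p5379))
  (brec_all (PrV chk)
   (brec_all (PrV chk)
    p5380
    p5381)
   (brec_all (PrV chk)
    p5382
    p5383)))
 (brec_all (PrV chk)
  (brec_all (PrV chk)
   (brec_all (PrV chk)
    p5384
    p5385)
   (brec_all (PrV chk)
    p5386
    p5387))
  (brec_all (PrV chk)
   (brec_all (PrV chk)
    p5388
    p5389)
   (brec_all (PrV chk)
    p5390
    p5391))))

theorem A0_337_ok (i : Nat) : PrV chk (A0_337 i) := by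
 unfold A0_337
 exact
 (brec_all (PrV chk)
 (brec_all (PrV chk)
  (brec_all (PrV chk)
   (brec_all (PrV chk)
    p5392
    p5393)
   (brec_all (PrV chk)
    p5394
    p5395))
  (brec_all (PrV chk)
   (brec_all (PrV chk)
    p5396
    p5397)
   (brec_all (PrV chk)
    p5398
    p5399)))
 (brec_all (PrV chk)
  (brec_all (PrV chk)
   (brec_all (PrV chk)
    p5400
    p5401)
   (brec_all (PrV chk)
    p5402
    p5403))
  (brec_all (PrV chk)
   (brec_all (PrV chk)
    p5404
    p5405)
   (brec_all (PrV chk)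
    p5406
    p5407))))

theorem A0_338_ok (i : Nat) : PrV chk (A0_338 i) := by
 unfold A0_338
 exact
 (brec_all (PrV chk)
 (brec_all (PrV chk)
  (brec_all (PrV chk)
   (brec_all (PrV chk)
    p5408
    p5409)
   (brec_all (PrV chk)
    p5410
    p5411))
  (brec_all (PrV chk)
   (brec_all (PrV chk)
    p5412
    p5413)
   (brec_all (PrV chk)
    p5414
    p5415)))
 (brec_all (PrV chk)
  (brec_all (PrV chk)
   (brec_all (PrV chk)
    p5416
    p5417)
   (brec_all (PrV chk)
    p5418
    p5419))
  (brec_all (PrV chk)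
   (brec_all (PrV chk)
    p5420
    p5421)
   (brec_all (PrV chk)
    p5422
    p5423))))

theorem A0_339_ok (i : Nat) : PrV chk (A0_339 i) := by
 unfold A0_339
 exact
 (brec_all (PrV chk)
 (brec_all (PrV chk)
  (brec_all (PrV chk)
   (brec_all (PrV chk)
    p5424
    p5425)
   (brec_all (PrV chk)
    p5426
    p5427))
  (brec_all (PrV chk)
   (brec_all (PrV chk)
    p5428
    p5429)
   (brec_all (PrV chk)
    p5430
    p5431)))
 (brec_all (PrV chk)
  (brec_all (PrV chk)
   (brec_all (PrV chk)
    p5432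
    p5433)
   (brec_all (PrV chk)
    p5434
    p5435))
  (brec_all (PrV chk)
   (brec_all (PrV chk)
    p5436
    p5437)
   (brec_all (PrV chk)
    p5438
    p5439))))

theorem A0_340_ok (i : Nat) : PrV chk (A0_340 i) := by
 unfold A0_340
 exact
 (brec_all (PrV chk)
 (brec_all (PrV chk)
  (brec_all (PrV chk)
   (brec_all (PrV chk)
    p5440
    p5441)
   (brec_all (PrV chk)
    p5442
    p5443))
  (brec_all (PrV chk)
   (brec_all (PrV chk)
    p5444
    p5445)
   (brec_all (PrV chk)
    p5446
    p5447)))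
 (brec_all (PrV chk)
  (brec_all (PrV chk)
   (brec_all (PrV chk)
    p5448
    p5449)
   (brec_all (PrV chk)
    p5450
    p5451))
  (brec_all (PrV chk)
   (brec_all (PrV chk)
    p5452
    p5453)
   (brec_all (PrV chk)
    p5454
    p5455))))

theorem A0_341_ok (i : Nat) : PrV chk (A0_341 i) := by
 unfold A0_341
 exact
 (brec_all (PrV chk)
 (brec_all (PrV chk)
  (brec_all (PrV chk)
   (brec_all (PrV chk)
    p5456
    p5457)
   (brec_all (PrV chk)
    p5458
    p5459))
  (brec_all (PrV chk)
   (brec_all (PrV chk)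
    p5460
    p5461)
   (brec_all (PrV chk)
    p5462
    p5463)))
 (brec_all (PrV chk)
  (brec_all (PrV chk)
   (brec_all (PrV chk)
    p5464
    p5465)
   (brec_all (PrV chk)
    p5466
    p5467))
  (brec_all (PrV chk)
   (brec_all (PrV chk)
    p5468
    p5469)
   (brec_all (PrV chk)
    p5470
    p5471))))

theorem A0_342_ok (i : Nat) : PrV chk (A0_342 i) := by
 unfold A0_342
 exact
 (brec_all (PrV chk)
 (brec_all (PrV chk)
  (brec_all (PrV chk)
   (brec_all (PrV chk)
    p5472
    p5473)
   (brec_all (PrV chk)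
    p5474
    p5475))
  (brec_all (PrV chk)
   (brec_all (PrV chk)
    p5476
    p5477)
   (brec_all (PrV chk)
    p5478
    p5479)))
 (brec_all (PrV chk)
  (brec_all (PrV chk)
   (brec_all (PrV chk)
    p5480
    p5481)
   (brec_all (PrV chk)
    p5482
    p5483))
  (brec_all (PrV chk)
   (brec_all (PrV chk)
    p5484
    p5485)
   (brec_all (PrV chk)
    p5486
    p5487))))

theorem A0_343_ok (i : Nat) : PrV chk (A0_343 i) := by
 unfold A0_343
 exact
 (brec_all (PrV chk)
 (brec_all (PrV chk)
  (brec_all (PrV chk)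
   (brec_all (PrV chk)
    p5488
    p5489)
   (brec_all (PrV chk)
    p5490
    p5491))
  (brec_all (PrV chk)
   (brec_all (PrV chk)
    p5492
    p5493)
   (brec_all (PrV chk)
    p5494
    p5495)))
 (brec_all (PrV chk)
  (brec_all (PrV chk)
   (brec_all (PrV chk)
    p5496
    p5497)
   (brec_all (PrV chk)
    p5498
    p5499))
  (brec_all (PrV chk)
   (brec_all (PrV chk)
    p5500
    p5501)
   (brec_all (PrV chk)
    p5502
    p5503))))

theorem A0_344_ok (i : Nat) : PrV chk (A0_344 i) := by
 unfold A0_344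
 exact
 (brec_all (PrV chk)
 (brec_all (PrV chk)
  (brec_all (PrV chk)
   (brec_all (PrV chk)
    p5504
    p5505)
   (brec_all (PrV chk)
    p5506
    p5507))
  (brec_all (PrV chk)
   (brec_all (PrV chk)
    p5508
    p5509)
   (brec_all (PrV chk)
    p5510
    p5511)))
 (brec_all (PrV chk)
  (brec_all (PrV chk)
   (brec_all (PrV chk)
    p5512
    p5513)
   (brec_all (PrV chk)
    p5514
    p5515))
  (brec_all (PrV chk)
   (brec_all (PrV chk)
    p5516
    p5517)
   (brec_all (PrV chk)
    p5518
    p5519))))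

theorem A0_345_ok (i : Nat) : PrV chk (A0_345 i) := by
 unfold A0_345
 exact
 (brec_all (PrV chk)
 (brec_all (PrV chk)
  (brec_all (PrV chk)
   (brec_all (PrV chk)
    p5520
    p5521)
   (brec_all (PrV chk)
    p5522
    p5523))
  (brec_all (PrV chk)
   (brec_all (PrV chk)
    p5524
    p5525)
   (brec_all (PrV chk)
    p5526
    p5527)))
 (brec_all (PrV chk)
  (brec_all (PrV chk)
   (brec_all (PrV chk)
    p5528
    p5529)
   (brec_all (PrV chk)
    p5530
    p5531))
  (brec_all (PrV chk)
   (brec_all (PrV chk)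
    p5532
    p5533)
   (brec_all (PrV chk)
    p5534
    p5535))))

theorem A0_346_ok (i : Nat) : PrV chk (A0_346 i) := by
 unfold A0_346
 exact
 (brec_all (PrV chk)
 (brec_all (PrV chk)
  (brec_all (PrV chk)
   (brec_all (PrV chk)
    p5536
    p5537)
   (brec_all (PrV chk)
    p5538
    p5539))
  (brec_all (PrV chk)
   (brec_all (PrV chk)
    p5540
    p5541)
   (brec_all (PrV chk)
    p5542
    p5543)))
 (brec_all (PrV chk)
  (brec_all (PrV chk)
   (brec_all (PrV chk)
    p5544
    p5545)
   (brec_all (PrV chk)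
    p5546
    p5547))
  (brec_all (PrV chk)
   (brec_all (PrV chk)
    p5548
    p5549)
   (brec_all (PrV chk)
    p5550
    p5551))))

theorem A0_347_ok (i : Nat) : PrV chk (A0_347 i) := by
 unfold A0_347
 exact
 (brec_all (PrV chk)
 (brec_all (PrV chk)
  (brec_all (PrV chk)
   (brec_all (PrV chk)
    p5552
    p5553)
   (brec_all (PrV chk)
    p5554
    p5555))
  (brec_all (PrV chk)
   (brec_all (PrV chk)
    p5556
    p5557)
   (brec_all (PrV chk)
    p5558
    p5559)))
 (brec_all (PrV chk)
  (brec_all (PrV chk)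
   (brec_all (PrV chk)
    p5560
    p5561)
   (brec_all (PrV chk)
    p5562
    p5563))
  (brec_all (PrV chk)
   (brec_all (PrV chk)
    p5564
    p5565)
   (brec_all (PrV chk)
    p5566
    p5567))))

theorem A0_348_ok (i : Nat) : PrV chk (A0_348 i) := by
 unfold A0_348
 exact
 (brec_all (PrV chk)
 (brec_all (PrV chk)
  (brec_all (PrV chk)
   (brec_all (PrV chk)
    p5568
    p5569)
   (brec_all (PrV chk)
    p5570
    p5571))
  (brec_all (PrV chk)
   (brec_all (PrV chk)
    p5572
    p5573)
   (brec_all (PrV chk)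
    p5574
    p5575)))
 (brec_all (PrV chk)
  (brec_all (PrV chk)
   (brec_all (PrV chk)
    p5576
    p5577)
   (brec_all (PrV chk)
    p5578
    p5579))
  (brec_all (PrV chk)
   (brec_all (PrV chk)
    p5580
    p5581)
   (brec_all (PrV chk)
    p5582
    p5583))))

theorem A0_349_ok (i : Nat) : PrV chk (A0_349 i) := by
 unfold A0_349
 exact
 (brec_all (PrV chk)
 (brec_all (PrV chk)
  (brec_all (PrV chk)
   (brec_all (PrV chk)
    p5584
    p5585)
   (brec_all (PrV chk)
    p5586
    p5587))
  (brec_all (PrV chk)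
   (brec_all (PrV chk)
    p5588
    p5589)
   (brec_all (PrV chk)
    p5590
    p5591)))
 (brec_all (PrV chk)
  (brec_all (PrV chk)
   (brec_all (PrV chk)
    p5592
    p5593)
   (brec_all (PrV chk)
    p5594
    p5595))
  (brec_all (PrV chk)
   (brec_all (PrV chk)
    p5596
    p5597)
   (brec_all (PrV chk)
    p5598
    p5599))))

theorem A0_350_ok (i : Nat) : PrV chk (A0_350 i) := by
 unfold A0_350
 exact
 (brec_all (PrV chk)
 (brec_all (PrV chk)
  (brec_all (PrV chk)
   (brec_all (PrV chk)
    p5600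
    p5601)
   (brec_all (PrV chk)
    p5602
    p5603))
  (brec_all (PrV chk)
   (brec_all (PrV chk)
    p5604
    p5605)
   (brec_all (PrV chk)
    p5606
    p5607)))
 (brec_all (PrV chk)
  (brec_all (PrV chk)
   (brec_all (PrV chk)
    p5608
    p5609)
   (brec_all (PrV chk)
    p5610
    p5611))
  (brec_all (PrV chk)
   (brec_all (PrV chk)
    p5612
    p5613)
   (brec_all (PrV chk)
    p5614
    p5615))))

theorem A0_351_ok (i : Nat) : PrV chk (A0_351 i) := by
 unfold A0_351
 exact
 (brec_all (PrV chk)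
 (brec_all (PrV chk)
  (brec_all (PrV chk)
   (brec_all (PrV chk)
    p5616
    p5617)
   (brec_all (PrV chk)
    p5618
    p5619))
  (brec_all (PrV chk)
   (brec_all (PrV chk)
    p5620
    p5621)
   (brec_all (PrV chk)
    p5622
    p5623)))
 (brec_all (PrV chk)
  (brec_all (PrV chk)
   (brec_all (PrV chk)
    p5624
    p5625)
   (brec_all (PrV chk)
    p5626
    p5627))
  (brec_all (PrV chk)
   (brec_all (PrV chk)
    p5628
    p5629)
   (brec_all (PrV chk)
    p5630
    p5631))))

theorem A0_352_ok (i : Nat) : PrV chk (A0_352 i) := by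
 unfold A0_352
 exact
 (brec_all (PrV chk)
 (brec_all (PrV chk)
  (brec_all (PrV chk)
   (brec_all (PrV chk)
    p5632
    p5633)
   (brec_all (PrV chk)
    p5634
    p5635))
  (brec_all (PrV chk)
   (brec_all (PrV chk)
    p5636
    p5637)
   (brec_all (PrV chk)
    p5638
    p5639)))
 (brec_all (PrV chk)
  (brec_all (PrV chk)
   (brec_all (PrV chk)
    p5640
    p5641)
   (brec_all (PrV chk)
    p5642
    p5643))
  (brec_all (PrV chk)
   (brec_all (PrV chk)
    p5644
    p5645)
   (brec_all (PrV chk)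
    p5646
    p5647))))

theorem A0_353_ok (i : Nat) : PrV chk (A0_353 i) := by
 unfold A0_353
 exact
 (brec_all (PrV chk)
 (brec_all (PrV chk)
  (brec_all (PrV chk)
   (brec_all (PrV chk)
    p5648
    p5649)
   (brec_all (PrV chk)
    p5650
    p5651))
  (brec_all (PrV chk)
   (brec_all (PrV chk)
    p5652
    p5653)
   (brec_all (PrV chk)
    p5654
    p5655)))
 (brec_all (PrV chk)
  (brec_all (PrV chk)
   (brec_all (PrV chk)
    p5656
    p5657)
   (brec_all (PrV chk)
    p5658
    p5659))
  (brec_all (PrV chk)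
   (brec_all (PrV chk)
    p5660
    p5661)
   (brec_all (PrV chk)
    p5662
    p5663))))

theorem A0_354_ok (i : Nat) : PrV chk (A0_354 i) := by
 unfold A0_354
 exact
 (brec_all (PrV chk)
 (brec_all (PrV chk)
  (brec_all (PrV chk)
   (brec_all (PrV chk)
    p5664
    p5665)
   (brec_all (PrV chk)
    p5666
    p5667))
  (brec_all (PrV chk)
   (brec_all (PrV chk)
    p5668
    p5669)
   (brec_all (PrV chk)
    p5670
    p5671)))
 (brec_all (PrV chk)
  (brec_all (PrV chk)
   (brec_all (PrV chk)
    p5672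
    p5673)
   (brec_all (PrV chk)
    p5674
    p5675))
  (brec_all (PrV chk)
   (brec_all (PrV chk)
    p5676
    p5677)
   (brec_all (PrV chk)
    p5678
    p5679))))

theorem A0_355_ok (i : Nat) : PrV chk (A0_355 i) := by
 unfold A0_355
 exact
 (brec_all (PrV chk)
 (brec_all (PrV chk)
  (brec_all (PrV chk)
   (brec_all (PrV chk)
    p5680
    p5681)
   (brec_all (PrV chk)
    p5682
    p5683))
  (brec_all (PrV chk)
   (brec_all (PrV chk)
    p5684
    p5685)
   (brec_all (PrV chk)
    p5686
    p5687)))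
 (brec_all (PrV chk)
  (brec_all (PrV chk)
   (brec_all (PrV chk)
    p5688
    p5689)
   (brec_all (PrV chk)
    p5690
    p5691))
  (brec_all (PrV chk)
   (brec_all (PrV chk)
    p5692
    p5693)
   (brec_all (PrV chk)
    p5694
    p5695))))

theorem A0_356_ok (i : Nat) : PrV chk (A0_356 i) := by
 unfold A0_356
 exact
 (brec_all (PrV chk)
 (brec_all (PrV chk)
  (brec_all (PrV chk)
   (brec_all (PrV chk)
    p5696
    p5697)
   (brec_all (PrV chk)
    p5698
    p5699))
  (brec_all (PrV chk)
   (brec_all (PrV chk)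
    p5700
    p5701)
   (brec_all (PrV chk)
    p5702
    p5703)))
 (brec_all (PrV chk)
  (brec_all (PrV chk)
   (brec_all (PrV chk)
    p5704
    p5705)
   (brec_all (PrV chk)
    p5706
    p5707))
  (brec_all (PrV chk)
   (brec_all (PrV chk)
    p5708
    p5709)
   (brec_all (PrV chk)
    p5710
    p5711))))

theorem A0_357_ok (i : Nat) : PrV chk (A0_357 i) := by
 unfold A0_357
 exact
 (brec_all (PrV chk)
 (brec_all (PrV chk)
  (brec_all (PrV chk)
   (brec_all (PrV chk)
    p5712
    p5713)
   (brec_all (PrV chk)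
    p5714
    p5715))
  (brec_all (PrV chk)
   (brec_all (PrV chk)
    p5716
    p5717)
   (brec_all (PrV chk)
    p5718
    p5719)))
 (brec_all (PrV chk)
  (brec_all (PrV chk)
   (brec_all (PrV chk)
    p5720
    p5721)
   (brec_all (PrV chk)
    p5722
    p5723))
  (brec_all (PrV chk)
   (brec_all (PrV chk)
    p5724
    p5725)
   (brec_all (PrV chk)
    p5726
    p5727))))

theorem A0_358_ok (i : Nat) : PrV chk (A0_358 i) := by
 unfold A0_358
 exact
 (brec_all (PrV chk)
 (brec_all (PrV chk)
  (brec_all (PrV chk)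
   (brec_all (PrV chk)
    p5728
    p5729)
   (brec_all (PrV chk)
    p5730
    p5731))
  (brec_all (PrV chk)
   (brec_all (PrV chk)
    p5732
    p5733)
   (brec_all (PrV chk)
    p5734
    p5735)))
 (brec_all (PrV chk)
  (brec_all (PrV chk)
   (brec_all (PrV chk)
    p5736
    p5737)
   (brec_all (PrV chk)
    p5738
    p5739))
  (brec_all (PrV chk)
   (brec_all (PrV chk)
    p5740
    p5741)
   (brec_all (PrV chk)
    p5742
    p5743))))

theorem A0_359_ok (i : Nat) : PrV chk (A0_359 i) := by
 unfold A0_359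
 exact
 (brec_all (PrV chk)
 (brec_all (PrV chk)
  (brec_all (PrV chk)
   (brec_all (PrV chk)
    p5744
    p5745)
   (brec_all (PrV chk)
    p5746
    p5747))
  (brec_all (PrV chk)
   (brec_all (PrV chk)
    p5748
    p5749)
   (brec_all (PrV chk)
    p5750
    p5751)))
 (brec_all (PrV chk)
  (brec_all (PrV chk)
   (brec_all (PrV chk)
    p5752
    p5753)
   (brec_all (PrV chk)
    p5754
    p5755))
  (brec_all (PrV chk)
   (brec_all (PrV chk)
    p5756
    p5757)
   (brec_all (PrV chk)
    p5758
    p5759))))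

theorem A0_360_ok (i : Nat) : PrV chk (A0_360 i) := by
 unfold A0_360
 exact
 (brec_all (PrV chk)
 (brec_all (PrV chk)
  (brec_all (PrV chk)
   (brec_all (PrV chk)
    p5760
    p5761)
   (brec_all (PrV chk)
    p5762
    p5763))
  (brec_all (PrV chk)
   (brec_all (PrV chk)
    p5764
    p5765)
   (brec_all (PrV chk)
    p5766
    p5767)))
 (brec_all (PrV chk)
  (brec_all (PrV chk)
   (brec_all (PrV chk)
    p5768
    p5769)
   (brec_all (PrV chk)
    p5770
    p5771))
  (brec_all (PrV chk)
   (brec_all (PrV chk)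
    p5772
    p5773)
   (brec_all (PrV chk)
    p5774
    p5775))))

theorem A0_361_ok (i : Nat) : PrV chk (A0_361 i) := by
 unfold A0_361
 exact
 (brec_all (PrV chk)
 (brec_all (PrV chk)
  (brec_all (PrV chk)
   (brec_all (PrV chk)
    p5776
    p5777)
   (brec_all (PrV chk)
    p5778
    p5779))
  (brec_all (PrV chk)
   (brec_all (PrV chk)
    p5780
    p5781)
   (brec_all (PrV chk)
    p5782
    p5783)))
 (brec_all (PrV chk)
  (brec_all (PrV chk)
   (brec_all (PrV chk)
    p5784
    p5785)
   (brec_all (PrV chk)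
    p5786
    p5787))
  (brec_all (PrV chk)
   (brec_all (PrV chk)
    p5788
    p5789)
   (brec_all (PrV chk)
    p5790
    p5791))))

theorem A0_362_ok (i : Nat) : PrV chk (A0_362 i) := by
 unfold A0_362
 exact
 (brec_all (PrV chk)
 (brec_all (PrV chk)
  (brec_all (PrV chk)
   (brec_all (PrV chk)
    p5792
    p5793)
   (brec_all (PrV chk)
    p5794
    p5795))
  (brec_all (PrV chk)
   (brec_all (PrV chk)
    p5796
    p5797)
   (brec_all (PrV chk)
    p5798
    p5799)))
 (brec_all (PrV chk)
  (brec_all (PrV chk)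
   (brec_all (PrV chk)
    p5800
    p5801)
   (brec_all (PrV chk)
    p5802
    p5803))
  (brec_all (PrV chk)
   (brec_all (PrV chk)
    p5804
    p5805)
   (brec_all (PrV chk)
    p5806
    p5807))))

theorem A0_363_ok (i : Nat) : PrV chk (A0_363 i) := by
 unfold A0_363
 exact
 (brec_all (PrV chk)
 (brec_all (PrV chk)
  (brec_all (PrV chk)
   (brec_all (PrV chk)
    p5808
    p5809)
   (brec_all (PrV chk)
    p5810
    p5811))
  (brec_all (PrV chk)
   (brec_all (PrV chk)
    p5812
    p5813)
   (brec_all (PrV chk)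
    p5814
    p5815)))
 (brec_all (PrV chk)
  (brec_all (PrV chk)
   (brec_all (PrV chk)
    p5816
    p5817)
   (brec_all (PrV chk)
    p5818
    p5819))
  (brec_all (PrV chk)
   (brec_all (PrV chk)
    p5820
    p5821)
   (brec_all (PrV chk)
    p5822
    p5823))))

theorem A0_364_ok (i : Nat) : PrV chk (A0_364 i) := by
 unfold A0_364
 exact
 (brec_all (PrV chk)
 (brec_all (PrV chk)
  (brec_all (PrV chk)
   (brec_all (PrV chk)
    p5824
    p5825)
   (brec_all (PrV chk)
    p5826
    p5827))
  (brec_all (PrV chk)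
   (brec_all (PrV chk)
    p5828
    p5829)
   (brec_all (PrV chk)
    p5830
    p5831)))
 (brec_all (PrV chk)
  (brec_all (PrV chk)
   (brec_all (PrV chk)
    p5832
    p5833)
   (brec_all (PrV chk)
    p5834
    p5835))
  (brec_all (PrV chk)
   (brec_all (PrV chk)
    p5836
    p5837)
   (brec_all (PrV chk)
    p5838
    p5839))))

theorem A0_365_ok (i : Nat) : PrV chk (A0_365 i) := by
 unfold A0_365
 exact
 (brec_all (PrV chk)
 (brec_all (PrV chk)
  (brec_all (PrV chk)
   (brec_all (PrV chk)
    p5840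
    p5841)
   (brec_all (PrV chk)
    p5842
    p5843))
  (brec_all (PrV chk)
   (brec_all (PrV chk)
    p5844
    p5845)
   (brec_all (PrV chk)
    p5846
    p5847)))
 (brec_all (PrV chk)
  (brec_all (PrV chk)
   (brec_all (PrV chk)
    p5848
    p5849)
   (brec_all (PrV chk)
    p5850
    p5851))
  (brec_all (PrV chk)
   (brec_all (PrV chk)
    p5852
    p5853)
   (brec_all (PrV chk)
    p5854
    p5855))))

theorem A0_366_ok (i : Nat) : PrV chk (A0_366 i) := by
 unfold A0_366
 exact
 (brec_all (PrV chk)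
 (brec_all (PrV chk)
  (brec_all (PrV chk)
   (brec_all (PrV chk)
    p5856
    p5857)
   (brec_all (PrV chk)
    p5858
    p5859))
  (brec_all (PrV chk)
   (brec_all (PrV chk)
    p5860
    p5861)
   (brec_all (PrV chk)
    p5862
    p5863)))
 (brec_all (PrV chk)
  (brec_all (PrV chk)
   (brec_all (PrV chk)
    p5864
    p5865)
   (brec_all (PrV chk)
    p5866
    p5867))
  (brec_all (PrV chk)
   (brec_all (PrV chk)
    p5868
    p5869)
   (brec_all (PrV chk)
    p5870
    p5871))))

theorem A0_367_ok (i : Nat) : PrV chk (A0_367 i) := by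
 unfold A0_367
 exact
 (brec_all (PrV chk)
 (brec_all (PrV chk)
  (brec_all (PrV chk)
   (brec_all (PrV chk)
    p5872
    p5873)
   (brec_all (PrV chk)
    p5874
    p5875))
  (brec_all (PrV chk)
   (brec_all (PrV chk)
    p5876
    p5877)
   (brec_all (PrV chk)
    p5878
    p5879)))
 (brec_all (PrV chk)
  (brec_all (PrV chk)
   (brec_all (PrV chk)
    p5880
    p5881)
   (brec_all (PrV chk)
    p5882
    p5883))
  (brec_all (PrV chk)
   (brec_all (PrV chk)
    p5884
    p5885)
   (brec_all (PrV chk)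
    p5886
    p5887))))

theorem A0_368_ok (i : Nat) : PrV chk (A0_368 i) := by
 unfold A0_368
 exact
 (brec_all (PrV chk)
 (brec_all (PrV chk)
  (brec_all (PrV chk)
   (brec_all (PrV chk)
    p5888
    p5889)
   (brec_all (PrV chk)
    p5890
    p5891))
  (brec_all (PrV chk)
   (brec_all (PrV chk)
    p5892
    p5893)
   (brec_all (PrV chk)
    p5894
    p5895)))
 (brec_all (PrV chk)
  (brec_all (PrV chk)
   (brec_all (PrV chk)
    p5896
    p5897)
   (brec_all (PrV chk)
    p5898
    p5899))
  (brec_all (PrV chk)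
   (brec_all (PrV chk)
    p5900
    p5901)
   (brec_all (PrV chk)
    p5902
    p5903))))

theorem A0_369_ok (i : Nat) : PrV chk (A0_369 i) := by
 unfold A0_369
 exact
 (brec_all (PrV chk)
 (brec_all (PrV chk)
  (brec_all (PrV chk)
   (brec_all (PrV chk)
    p5904
    p5905)
   (brec_all (PrV chk)
    p5906
    p5907))
  (brec_all (PrV chk)
   (brec_all (PrV chk)
    p5908
    p5909)
   (brec_all (PrV chk)
    p5910
    p5911)))
 (brec_all (PrV chk)
  (brec_all (PrV chk)
   (brec_all (PrV chk)
    p5912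
    p5913)
   (brec_all (PrV chk)
    p5914
    p5915))
  (brec_all (PrV chk)
   (brec_all (PrV chk)
    p5916
    p5917)
   (brec_all (PrV chk)
    p5918
    p5919))))

theorem A0_370_ok (i : Nat) : PrV chk (A0_370 i) := by
 unfold A0_370
 exact
 (brec_all (PrV chk)
 (brec_all (PrV chk)
  (brec_all (PrV chk)
   (brec_all (PrV chk)
    p5920
    p5921)
   (brec_all (PrV chk)
    p5922
    p5923))
  (brec_all (PrV chk)
   (brec_all (PrV chk)
    p5924
    p5925)
   (brec_all (PrV chk)
    p5926
    p5927)))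
 (brec_all (PrV chk)
  (brec_all (PrV chk)
   (brec_all (PrV chk)
    p5928
    p5929)
   (brec_all (PrV chk)
    p5930
    p5931))
  (brec_all (PrV chk)
   (brec_all (PrV chk)
    p5932
    p5933)
   (brec_all (PrV chk)
    p5934
    p5935))))

theorem A0_371_ok (i : Nat) : PrV chk (A0_371 i) := by
 unfold A0_371
 exact
 (brec_all (PrV chk)
 (brec_all (PrV chk)
  (brec_all (PrV chk)
   (brec_all (PrV chk)
    p5936
    p5937)
   (brec_all (PrV chk)
    p5938
    p5939))
  (brec_all (PrV chk)
   (brec_all (PrV chk)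
    p5940
    p5941)
   (brec_all (PrV chk)
    p5942
    p5943)))
 (brec_all (PrV chk)
  (brec_all (PrV chk)
   (brec_all (PrV chk)
    p5944
    p5945)
   (brec_all (PrV chk)
    p5946
    p5947))
  (brec_all (PrV chk)
   (brec_all (PrV chk)
    p5948
    p5949)
   (brec_all (PrV chk)
    p5950
    p5951))))

theorem A0_372_ok (i : Nat) : PrV chk (A0_372 i) := by
 unfold A0_372
 exact
 (brec_all (PrV chk)
 (brec_all (PrV chk)
  (brec_all (PrV chk)
   (brec_all (PrV chk)
    p5952
    p5953)
   (brec_all (PrV chk)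
    p5954
    p5955))
  (brec_all (PrV chk)
   (brec_all (PrV chk)
    p5956
    p5957)
   (brec_all (PrV chk)
    p5958
    p5959)))
 (brec_all (PrV chk)
  (brec_all (PrV chk)
   (brec_all (PrV chk)
    p5960
    p5961)
   (brec_all (PrV chk)
    p5962
    p5963))
  (brec_all (PrV chk)
   (brec_all (PrV chk)
    p5964
    p5965)
   (brec_all (PrV chk)
    p5966
    p5967))))

theorem A0_373_ok (i : Nat) : PrV chk (A0_373 i) := by
 unfold A0_373
 exact
 (brec_all (PrV chk)
 (brec_all (PrV chk)
  (brec_all (PrV chk)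
   (brec_all (PrV chk)
    p5968
    p5969)
   (brec_all (PrV chk)
    p5970
    p5971))
  (brec_all (PrV chk)
   (brec_all (PrV chk)
    p5972
    p5973)
   (brec_all (PrV chk)
    p5974
    p5975)))
 (brec_all (PrV chk)
  (brec_all (PrV chk)
   (brec_all (PrV chk)
    p5976
    p5977)
   (brec_all (PrV chk)
    p5978
    p5979))
  (brec_all (PrV chk)
   (brec_all (PrV chk)
    p5980
    p5981)
   (brec_all (PrV chk)
    p5982
    p5983))))

theorem A0_374_ok (i : Nat) : PrV chk (A0_374 i) := by
 unfold A0_374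
 exact
 (brec_all (PrV chk)
 (brec_all (PrV chk)
  (brec_all (PrV chk)
   (brec_all (PrV chk)
    p5984
    p5985)
   (brec_all (PrV chk)
    p5986
    p5987))
  (brec_all (PrV chk)
   (brec_all (PrV chk)
    p5988
    p5989)
   (brec_all (PrV chk)
    p5990
    p5991)))
 (brec_all (PrV chk)
  (brec_all (PrV chk)
   (brec_all (PrV chk)
    p5992
    p5993)
   (brec_all (PrV chk)
    p5994
    p5995))
  (brec_all (PrV chk)
   (brec_all (PrV chk)
    p5996
    p5997)
   (brec_all (PrV chk)
    p5998
    p5999))))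

theorem A0_375_ok (i : Nat) : PrV chk (A0_375 i) := by
 unfold A0_375
 exact
 (brec_all (PrV chk)
 (brec_all (PrV chk)
  (brec_all (PrV chk)
   (brec_all (PrV chk)
    p6000
    p6001)
   (brec_all (PrV chk)
    p6002
    p6003))
  (brec_all (PrV chk)
   (brec_all (PrV chk)
    p6004
    p6005)
   (brec_all (PrV chk)
    p6006
    p6007)))
 (brec_all (PrV chk)
  (brec_all (PrV chk)
   (brec_all (PrV chk)
    p6008
    p6009)
   (brec_all (PrV chk)
    p6010
    p6011))
  (brec_all (PrV chk)
   (brec_all (PrV chk)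
    p6012
    p6013)
   (brec_all (PrV chk)
    p6014
    p6015))))

theorem A0_376_ok (i : Nat) : PrV chk (A0_376 i) := by
 unfold A0_376
 exact
 (brec_all (PrV chk)
 (brec_all (PrV chk)
  (brec_all (PrV chk)
   (brec_all (PrV chk)
    p6016
    p6017)
   (brec_all (PrV chk)
    p6018
    p6019))
  (brec_all (PrV chk)
   (brec_all (PrV chk)
    p6020
    p6021)
   (brec_all (PrV chk)
    p6022
    p6023)))
 (brec_all (PrV chk)
  (brec_all (PrV chk)
   (brec_all (PrV chk)
    p6024
    p6025)
   (brec_all (PrV chk)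
    p6026
    p6027))
  (brec_all (PrV chk)
   (brec_all (PrV chk)
    p6028
    p6029)
   (brec_all (PrV chk)
    p6030
    p6031))))

theorem A0_377_ok (i : Nat) : PrV chk (A0_377 i) := by
 unfold A0_377
 exact
 (brec_all (PrV chk)
 (brec_all (PrV chk)
  (brec_all (PrV chk)
   (brec_all (PrV chk)
    p6032
    p6033)
   (brec_all (PrV chk)
    p6034
    p6035))
  (brec_all (PrV chk)
   (brec_all (PrV chk)
    p6036
    p6037)
   (brec_all (PrV chk)
    p6038
    p6039)))
 (brec_all (PrV chk)
  (brec_all (PrV chk)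
   (brec_all (PrV chk)
    p6040
    p6041)
   (brec_all (PrV chk)
    p6042
    p6043))
  (brec_all (PrV chk)
   (brec_all (PrV chk)
    p6044
    p6045)
   (brec_all (PrV chk)
    p6046
    p6047))))

theorem A0_378_ok (i : Nat) : PrV chk (A0_378 i) := by
 unfold A0_378
 exact
 (brec_all (PrV chk)
 (brec_all (PrV chk)
  (brec_all (PrV chk)
   (brec_all (PrV chk)
    p6048
    p6049)
   (brec_all (PrV chk)
    p6050
    p6051))
  (brec_all (PrV chk)
   (brec_all (PrV chk)
    p6052
    p6053)
   (brec_all (PrV chk)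
    p6054
    p6055)))
 (brec_all (PrV chk)
  (brec_all (PrV chk)
   (brec_all (PrV chk)
    p6056
    p6057)
   (brec_all (PrV chk)
    p6058
    p6059))
  (brec_all (PrV chk)
   (brec_all (PrV chk)
    p6060
    p6061)
   (brec_all (PrV chk)
    p6062
    p6063))))

theorem A0_379_ok (i : Nat) : PrV chk (A0_379 i) := by
 unfold A0_379
 exact
 (brec_all (PrV chk)
 (brec_all (PrV chk)
  (brec_all (PrV chk)
   (brec_all (PrV chk)
    p6064
    p6065)
   (brec_all (PrV chk)
    p6066
    p6067))
  (brec_all (PrV chk)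
   (brec_all (PrV chk)
    p6068
    p6069)
   (brec_all (PrV chk)
    p6070
    p6071)))
 (brec_all (PrV chk)
  (brec_all (PrV chk)
   (brec_all (PrV chk)
    p6072
    p6073)
   (brec_all (PrV chk)
    p6074
    p6075))
  (brec_all (PrV chk)
   (brec_all (PrV chk)
    p6076
    p6077)
   (brec_all (PrV chk)
    p6078
    p6079))))

theorem A0_380_ok (i : Nat) : PrV chk (A0_380 i) := by
 unfold A0_380
 exact
 (brec_all (PrV chk)
 (brec_all (PrV chk)
  (brec_all (PrV chk)
   (brec_all (PrV chk)
    p6080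
    p6081)
   (brec_all (PrV chk)
    p6082
    p6083))
  (brec_all (PrV chk)
   (brec_all (PrV chk)
    p6084
    p6085)
   (brec_all (PrV chk)
    p6086
    p6087)))
 (brec_all (PrV chk)
  (brec_all (PrV chk)
   (brec_all (PrV chk)
    p6088
    p6089)
   (brec_all (PrV chk)
    p6090
    p6091))
  (brec_all (PrV chk)
   (brec_all (PrV chk)
    p6092
    p6093)
   (brec_all (PrV chk)
    p6094
    p6095))))

theorem A0_381_ok (i : Nat) : PrV chk (A0_381 i) := by
 unfold A0_381
 exact
 (brec_all (PrV chk)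
 (brec_all (PrV chk)
  (brec_all (PrV chk)
   (brec_all (PrV chk)
    p6096
    p6097)
   (brec_all (PrV chk)
    p6098
    p6099))
  (brec_all (PrV chk)
   (brec_all (PrV chk)
    p6100
    p6101)
   (brec_all (PrV chk)
    p6102
    p6103)))
 (brec_all (PrV chk)
  (brec_all (PrV chk)
   (brec_all (PrV chk)
    p6104
    p6105)
   (brec_all (PrV chk)
    p6106
    p6107))
  (brec_all (PrV chk)
   (brec_all (PrV chk)
    p6108
    p6109)
   (brec_all (PrV chk)
    p6110
    p6111))))

theorem A0_382_ok (i : Nat) : PrV chk (A0_382 i) := by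
 unfold A0_382
 exact
 (brec_all (PrV chk)
 (brec_all (PrV chk)
  (brec_all (PrV chk)
   (brec_all (PrV chk)
    p6112
    p6113)
   (brec_all (PrV chk)
    p6114
    p6115))
  (brec_all (PrV chk)
   (brec_all (PrV chk)
    p6116
    p6117)
   (brec_all (PrV chk)
    p6118
    p6119)))
 (brec_all (PrV chk)
  (brec_all (PrV chk)
   (brec_all (PrV chk)
    p6120
    p6121)
   (brec_all (PrV chk)
    p6122
    p6123))
  (brec_all (PrV chk)
   (brec_all (PrV chk)
    p6124
    p6125)
   (brec_all (PrV chk)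
    p6126
    p6127))))

theorem A0_383_ok (i : Nat) : PrV chk (A0_383 i) := by
 unfold A0_383
 exact
 (brec_all (PrV chk)
 (brec_all (PrV chk)
  (brec_all (PrV chk)
   (brec_all (PrV chk)
    p6128
    p6129)
   (brec_all (PrV chk)
    p6130
    p6131))
  (brec_all (PrV chk)
   (brec_all (PrV chk)
    p6132
    p6133)
   (brec_all (PrV chk)
    p6134
    p6135)))
 (brec_all (PrV chk)
  (brec_all (PrV chk)
   (brec_all (PrV chk)
    p6136
    p6137)
   (brec_all (PrV chk)
    p6138
    p6139))
  (brec_all (PrV chk)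
   (brec_all (PrV chk)
    p6140
    p6141)
   (brec_all (PrV chk)
    p6142
    p6143))))

theorem A0_384_ok (i : Nat) : PrV chk (A0_384 i) := by
 unfold A0_384
 exact
 (brec_all (PrV chk)
 (brec_all (PrV chk)
  (brec_all (PrV chk)
   (brec_all (PrV chk)
    p6144
    p6145)
   (brec_all (PrV chk)
    p6146
    p6147))
  (brec_all (PrV chk)
   (brec_all (PrV chk)
    p6148
    p6149)
   (brec_all (PrV chk)
    p6150
    p6151)))
 (brec_all (PrV chk)
  (brec_all (PrV chk)
   (brec_all (PrV chk)
    p6152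
    p6153)
   (brec_all (PrV chk)
    p6154
    p6155))
  (brec_all (PrV chk)
   (brec_all (PrV chk)
    p6156
    p6157)
   (brec_all (PrV chk)
    p6158
    p6159))))

theorem A0_385_ok (i : Nat) : PrV chk (A0_385 i) := by
 unfold A0_385
 exact
 (brec_all (PrV chk)
 (brec_all (PrV chk)
  (brec_all (PrV chk)
   (brec_all (PrV chk)
    p6160
    p6161)
   (brec_all (PrV chk)
    p6162
    p6163))
  (brec_all (PrV chk)
   (brec_all (PrV chk)
    p6164
    p6165)
   (brec_all (PrV chk)
    p6166
    p6167)))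
 (brec_all (PrV chk)
  (brec_all (PrV chk)
   (brec_all (PrV chk)
    p6168
    p6169)
   (brec_all (PrV chk)
    p6170
    p6171))
  (brec_all (PrV chk)
   (brec_all (PrV chk)
    p6172
    p6173)
   (brec_all (PrV chk)
    p6174
    p6175))))

theorem A0_386_ok (i : Nat) : PrV chk (A0_386 i) := by
 unfold A0_386
 exact
 (brec_all (PrV chk)
 (brec_all (PrV chk)
  (brec_all (PrV chk)
   (brec_all (PrV chk)
    p6176
    p6177)
   (brec_all (PrV chk)
    p6178
    p6179))
  (brec_all (PrV chk)
   (brec_all (PrV chk)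
    p6180
    p6181)
   (brec_all (PrV chk)
    p6182
    p6183)))
 (brec_all (PrV chk)
  (brec_all (PrV chk)
   (brec_all (PrV chk)
    p6184
    p6185)
   (brec_all (PrV chk)
    p6186
    p6187))
  (brec_all (PrV chk)
   (brec_all (PrV chk)
    p6188
    p6189)
   (brec_all (PrV chk)
    p6190
    p6191))))

theorem A0_387_ok (i : Nat) : PrV chk (A0_387 i) := by
 unfold A0_387
 exact
 (brec_all (PrV chk)
 (brec_all (PrV chk)
  (brec_all (PrV chk)
   (brec_all (PrV chk)
    p6192
    p6193)
   (brec_all (PrV chk)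
    p6194
    p6195))
  (brec_all (PrV chk)
   (brec_all (PrV chk)
    p6196
    p6197)
   (brec_all (PrV chk)
    p6198
    p6199)))
 (brec_all (PrV chk)
  (brec_all (PrV chk)
   (brec_all (PrV chk)
    p6200
    p6201)
   (brec_all (PrV chk)
    p6202
    p6203))
  (brec_all (PrV chk)
   (brec_all (PrV chk)
    p6204
    p6205)
   (brec_all (PrV chk)
    p6206
    p6207))))

theorem A0_388_ok (i : Nat) : PrV chk (A0_388 i) := by
 unfold A0_388
 exact
 (brec_all (PrV chk)
 (brec_all (PrV chk)
  (brec_all (PrV chk)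
   (brec_all (PrV chk)
    p6208
    p6209)
   (brec_all (PrV chk)
    p6210
    p6211))
  (brec_all (PrV chk)
   (brec_all (PrV chk)
    p6212
    p6213)
   (brec_all (PrV chk)
    p6214
    p6215)))
 (brec_all (PrV chk)
  (brec_all (PrV chk)
   (brec_all (PrV chk)
    p6216
    p6217)
   (brec_all (PrV chk)
    p6218
    p6219))
  (brec_all (PrV chk)
   (brec_all (PrV chk)
    p6220
    p6221)
   (brec_all (PrV chk)
    p6222
    p6223))))

theorem A0_389_ok (i : Nat) : PrV chk (A0_389 i) := by
 unfold A0_389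
 exact
 (brec_all (PrV chk)
 (brec_all (PrV chk)
  (brec_all (PrV chk)
   (brec_all (PrV chk)
    p6224
    p6225)
   (brec_all (PrV chk)
    p6226
    p6227))
  (brec_all (PrV chk)
   (brec_all (PrV chk)
    p6228
    p6229)
   (brec_all (PrV chk)
    p6230
    p6231)))
 (brec_all (PrV chk)
  (brec_all (PrV chk)
   (brec_all (PrV chk)
    p6232
    p6233)
   (brec_all (PrV chk)
    p6234
    p6235))
  (brec_all (PrV chk)
   (brec_all (PrV chk)
    p6236
    p6237)
   (brec_all (PrV chk)
    p6238
    p6239))))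

theorem A0_390_ok (i : Nat) : PrV chk (A0_390 i) := by
 unfold A0_390
 exact
 (brec_all (PrV chk)
 (brec_all (PrV chk)
  (brec_all (PrV chk)
   (brec_all (PrV chk)
    p6240
    p6241)
   (brec_all (PrV chk)
    p6242
    p6243))
  (brec_all (PrV chk)
   (brec_all (PrV chk)
    p6244
    p6245)
   (brec_all (PrV chk)
    p6246
    p6247)))
 (brec_all (PrV chk)
  (brec_all (PrV chk)
   (brec_all (PrV chk)
    p6248
    p6249)
   (brec_all (PrV chk)
    p6250
    p6251))
  (brec_all (PrV chk)
   (brec_all (PrV chk)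
    p6252
    p6253)
   (brec_all (PrV chk)
    p6254
    p6255))))

theorem A0_391_ok (i : Nat) : PrV chk (A0_391 i) := by
 unfold A0_391
 exact
 (brec_all (PrV chk)
 (brec_all (PrV chk)
  (brec_all (PrV chk)
   (brec_all (PrV chk)
    p6256
    p6257)
   (brec_all (PrV chk)
    p6258
    p6259))
  (brec_all (PrV chk)
   (brec_all (PrV chk)
    p6260
    p6261)
   (brec_all (PrV chk)
    p6262
    p6263)))
 (brec_all (PrV chk)
  (brec_all (PrV chk)
   (brec_all (PrV chk)
    p6264
    p6265)
   (brec_all (PrV chk)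
    p6266
    p6267))
  (brec_all (PrV chk)
   (brec_all (PrV chk)
    p6268
    p6269)
   (brec_all (PrV chk)
    p6270
    p6271))))

theorem A0_392_ok (i : Nat) : PrV chk (A0_392 i) := by
 unfold A0_392
 exact
 (brec_all (PrV chk)
 (brec_all (PrV chk)
  (brec_all (PrV chk)
   (brec_all (PrV chk)
    p6272
    p6273)
   (brec_all (PrV chk)
    p6274
    p6275))
  (brec_all (PrV chk)
   (brec_all (PrV chk)
    p6276
    p6277)
   (brec_all (PrV chk)
    p6278
    p6279)))
 (brec_all (PrV chk)
  (brec_all (PrV chk)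
   (brec_all (PrV chk)
    p6280
    p6281)
   (brec_all (PrV chk)
    p6282
    p6283))
  (brec_all (PrV chk)
   (brec_all (PrV chk)
    p6284
    p6285)
   (brec_all (PrV chk)
    p6286
    p6287))))

theorem A0_393_ok (i : Nat) : PrV chk (A0_393 i) := by
 unfold A0_393
 exact
 (brec_all (PrV chk)
 (brec_all (PrV chk)
  (brec_all (PrV chk)
   (brec_all (PrV chk)
    p6288
    p6289)
   (brec_all (PrV chk)
    p6290
    p6291))
  (brec_all (PrV chk)
   (brec_all (PrV chk)
    p6292
    p6293)
   (brec_all (PrV chk)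
    p6294
    p6295)))
 (brec_all (PrV chk)
  (brec_all (PrV chk)
   (brec_all (PrV chk)
    p6296
    p6297)
   (brec_all (PrV chk)
    p6298
    p6299))
  (brec_all (PrV chk)
   (brec_all (PrV chk)
    p6300
    p6301)
   (brec_all (PrV chk)
    p6302
    p6303))))

theorem A0_394_ok (i : Nat) : PrV chk (A0_394 i) := by
 unfold A0_394
 exact
 (brec_all (PrV chk)
 (brec_all (PrV chk)
  (brec_all (PrV chk)
   (brec_all (PrV chk)
    p6304
    p6305)
   (brec_all (PrV chk)
    p6306
    p6307))
  (brec_all (PrV chk)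
   (brec_all (PrV chk)
    p6308
    p6309)
   (brec_all (PrV chk)
    p6310
    p6311)))
 (brec_all (PrV chk)
  (brec_all (PrV chk)
   (brec_all (PrV chk)
    p6312
    p6313)
   (brec_all (PrV chk)
    p6314
    p6315))
  (brec_all (PrV chk)
   (brec_all (PrV chk)
    p6316
    p6317)
   (brec_all (PrV chk)
    p6318
    p6319))))

theorem A0_395_ok (i : Nat) : PrV chk (A0_395 i) := by
 unfold A0_395
 exact
 (brec_all (PrV chk)
 (brec_all (PrV chk)
  (brec_all (PrV chk)
   (brec_all (PrV chk)
    p6320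
    p6321)
   (brec_all (PrV chk)
    p6322
    p6323))
  (brec_all (PrV chk)
   (brec_all (PrV chk)
    p6324
    p6325)
   (brec_all (PrV chk)
    p6326
    p6327)))
 (brec_all (PrV chk)
  (brec_all (PrV chk)
   (brec_all (PrV chk)
    p6328
    p6329)
   (brec_all (PrV chk)
    p6330
    p6331))
  (brec_all (PrV chk)
   (brec_all (PrV chk)
    p6332
    p6333)
   (brec_all (PrV chk)
    p6334
    p6335))))

theorem A0_396_ok (i : Nat) : PrV chk (A0_396 i) := by
 unfold A0_396
 exact
 (brec_all (PrV chk)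
 (brec_all (PrV chk)
  (brec_all (PrV chk)
   (brec_all (PrV chk)
    p6336
    p6337)
   (brec_all (PrV chk)
    p6338
    p6339))
  (brec_all (PrV chk)
   (brec_all (PrV chk)
    p6340
    p6341)
   (brec_all (PrV chk)
    p6342
    p6343)))
 (brec_all (PrV chk)
  (brec_all (PrV chk)
   (brec_all (PrV chk)
    p6344
    p6345)
   (brec_all (PrV chk)
    p6346
    p6347))
  (brec_all (PrV chk)
   (brec_all (PrV chk)
    p6348
    p6349)
   (brec_all (PrV chk)
    p6350
    p6351))))

theorem A0_397_ok (i : Nat) : PrV chk (A0_397 i) := by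
 unfold A0_397
 exact
 (brec_all (PrV chk)
 (brec_all (PrV chk)
  (brec_all (PrV chk)
   (brec_all (PrV chk)
    p6352
    p6353)
   (brec_all (PrV chk)
    p6354
    p6355))
  (brec_all (PrV chk)
   (brec_all (PrV chk)
    p6356
    p6357)
   (brec_all (PrV chk)
    p6358
    p6359)))
 (brec_all (PrV chk)
  (brec_all (PrV chk)
   (brec_all (PrV chk)
    p6360
    p6361)
   (brec_all (PrV chk)
    p6362
    p6363))
  (brec_all (PrV chk)
   (brec_all (PrV chk)
    p6364
    p6365)
   (brec_all (PrV chk)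
    p6366
    p6367))))

theorem A0_398_ok (i : Nat) : PrV chk (A0_398 i) := by
 unfold A0_398
 exact
 (brec_all (PrV chk)
 (brec_all (PrV chk)
  (brec_all (PrV chk)
   (brec_all (PrV chk)
    p6368
    p6369)
   (brec_all (PrV chk)
    p6370
    p6371))
  (brec_all (PrV chk)
   (brec_all (PrV chk)
    p6372
    p6373)
   (brec_all (PrV chk)
    p6374
    p6375)))
 (brec_all (PrV chk)
  (brec_all (PrV chk)
   (brec_all (PrV chk)
    p6376
    p6377)
   (brec_all (PrV chk)
    p6378
    p6379))
  (brec_all (PrV chk)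
   (brec_all (PrV chk)
    p6380
    p6381)
   (brec_all (PrV chk)
    p6382
    p6383))))

theorem A0_399_ok (i : Nat) : PrV chk (A0_399 i) := by
 unfold A0_399
 exact
 (brec_all (PrV chk)
 (brec_all (PrV chk)
  (brec_all (PrV chk)
   (brec_all (PrV chk)
    p6384
    p6385)
   (brec_all (PrV chk)
    p6386
    p6387))
  (brec_all (PrV chk)
   (brec_all (PrV chk)
    p6388
    p6389)
   (brec_all (PrV chk)
    p6390
    p6391)))
 (brec_all (PrV chk)
  (brec_all (PrV chk)
   (brec_all (PrV chk)
    p6392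
    p6393)
   (brec_all (PrV chk)
    p6394
    p6395))
  (brec_all (PrV chk)
   (brec_all (PrV chk)
    p6396
    p6397)
   (brec_all (PrV chk)
    p6398
    p6399))))

theorem A0_400_ok (i : Nat) : PrV chk (A0_400 i) := by
 unfold A0_400
 exact
 (brec_all (PrV chk)
 (brec_all (PrV chk)
  (brec_all (PrV chk)
   (brec_all (PrV chk)
    p6400
    p6401)
   (brec_all (PrV chk)
    p6402
    p6403))
  (brec_all (PrV chk)
   (brec_all (PrV chk)
    p6404
    p6405)
   (brec_all (PrV chk)
    p6406
    p6407)))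
 (brec_all (PrV chk)
  (brec_all (PrV chk)
   (brec_all (PrV chk)
    p6408
    p6409)
   (brec_all (PrV chk)
    p6410
    p6411))
  (brec_all (PrV chk)
   (brec_all (PrV chk)
    p6412
    p6413)
   (brec_all (PrV chk)
    p6414
    p6415))))

theorem A0_401_ok (i : Nat) : PrV chk (A0_401 i) := by
 unfold A0_401
 exact
 (brec_all (PrV chk)
 (brec_all (PrV chk)
  (brec_all (PrV chk)
   (brec_all (PrV chk)
    p6416
    p6417)
   (brec_all (PrV chk)
    p6418
    p6419))
  (brec_all (PrV chk)
   (brec_all (PrV chk)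
    p6420
    p6421)
   (brec_all (PrV chk)
    p6422
    p6423)))
 (brec_all (PrV chk)
  (brec_all (PrV chk)
   (brec_all (PrV chk)
    p6424
    p6425)
   (brec_all (PrV chk)
    p6426
    p6427))
  (brec_all (PrV chk)
   (brec_all (PrV chk)
    p6428
    p6429)
   (brec_all (PrV chk)
    p6430
    p6431))))

theorem A0_402_ok (i : Nat) : PrV chk (A0_402 i) := by
 unfold A0_402
 exact
 (brec_all (PrV chk)
 (brec_all (PrV chk)
  (brec_all (PrV chk)
   (brec_all (PrV chk)
    p6432
    p6433)
   (brec_all (PrV chk)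
    p6434
    p6435))
  (brec_all (PrV chk)
   (brec_all (PrV chk)
    p6436
    p6437)
   (brec_all (PrV chk)
    p6438
    p6439)))
 (brec_all (PrV chk)
  (brec_all (PrV chk)
   (brec_all (PrV chk)
    p6440
    p6441)
   (brec_all (PrV chk)
    p6442
    p6443))
  (brec_all (PrV chk)
   (brec_all (PrV chk)
    p6444
    p6445)
   (brec_all (PrV chk)
    p6446
    p6447))))

theorem A0_403_ok (i : Nat) : PrV chk (A0_403 i) := by
 unfold A0_403
 exact
 (brec_all (PrV chk)
 (brec_all (PrV chk)
  (brec_all (PrV chk)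
   (brec_all (PrV chk)
    p6448
    p6449)
   (brec_all (PrV chk)
    p6450
    p6451))
  (brec_all (PrV chk)
   (brec_all (PrV chk)
    p6452
    p6453)
   (brec_all (PrV chk)
    p6454
    p6455)))
 (brec_all (PrV chk)
  (brec_all (PrV chk)
   (brec_all (PrV chk)
    p6456
    p6457)
   (brec_all (PrV chk)
    p6458
    p6459))
  (brec_all (PrV chk)
   (brec_all (PrV chk)
    p6460
    p6461)
   (brec_all (PrV chk)
    p6462
    p6463))))

theorem A0_404_ok (i : Nat) : PrV chk (A0_404 i) := by
 unfold A0_404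
 exact
 (brec_all (PrV chk)
 (brec_all (PrV chk)
  (brec_all (PrV chk)
   (brec_all (PrV chk)
    p6464
    p6465)
   (brec_all (PrV chk)
    p6466
    p6467))
  (brec_all (PrV chk)
   (brec_all (PrV chk)
    p6468
    p6469)
   (brec_all (PrV chk)
    p6470
    p6471)))
 (brec_all (PrV chk)
  (brec_all (PrV chk)
   (brec_all (PrV chk)
    p6472
    p6473)
   (brec_all (PrV chk)
    p6474
    p6475))
  (brec_all (PrV chk)
   (brec_all (PrV chk)
    p6476
    p6477)
   (brec_all (PrV chk)
    p6478
    p6479))))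

theorem A0_405_ok (i : Nat) : PrV chk (A0_405 i) := by
 unfold A0_405
 exact
 (brec_all (PrV chk)
 (brec_all (PrV chk)
  (brec_all (PrV chk)
   (brec_all (PrV chk)
    p6480
    p6481)
   (brec_all (PrV chk)
    p6482
    p6483))
  (brec_all (PrV chk)
   (brec_all (PrV chk)
    p6484
    p6485)
   (brec_all (PrV chk)
    p6486
    p6487)))
 (brec_all (PrV chk)
  (brec_all (PrV chk)
   (brec_all (PrV chk)
    p6488
    p6489)
   (brec_all (PrV chk)
    p6490
    p6491))
  (brec_all (PrV chk)
   (brec_all (PrV chk)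
    p6492
    p6493)
   (brec_all (PrV chk)
    p6494
    p6495))))

theorem A0_406_ok (i : Nat) : PrV chk (A0_406 i) := by
 unfold A0_406
 exact
 (brec_all (PrV chk)
 (brec_all (PrV chk)
  (brec_all (PrV chk)
   (brec_all (PrV chk)
    p6496
    p6497)
   (brec_all (PrV chk)
    p6498
    p6499))
  (brec_all (PrV chk)
   (brec_all (PrV chk)
    p6500
    p6501)
   (brec_all (PrV chk)
    p6502
    p6503)))
 (brec_all (PrV chk)
  (brec_all (PrV chk)
   (brec_all (PrV chk)
    p6504
    p6505)
   (brec_all (PrV chk)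
    p6506
    p6507))
  (brec_all (PrV chk)
   (brec_all (PrV chk)
    p6508
    p6509)
   (brec_all (PrV chk)
    p6510
    p6511))))

theorem A0_407_ok (i : Nat) : PrV chk (A0_407 i) := by
 unfold A0_407
 exact
 (brec_all (PrV chk)
 (brec_all (PrV chk)
  (brec_all (PrV chk)
   (brec_all (PrV chk)
    p6512
    p6513)
   (brec_all (PrV chk)
    p6514
    p6515))
  (brec_all (PrV chk)
   (brec_all (PrV chk)
    p6516
    p6517)
   (brec_all (PrV chk)
    p6518
    p6519)))
 (brec_all (PrV chk)
  (brec_all (PrV chk)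
   (brec_all (PrV chk)
    p6520
    p6521)
   (brec_all (PrV chk)
    p6522
    p6523))
  (brec_all (PrV chk)
   (brec_all (PrV chk)
    p6524
    p6525)
   (brec_all (PrV chk)
    p6526
    p6527))))

theorem A0_408_ok (i : Nat) : PrV chk (A0_408 i) := by
 unfold A0_408
 exact
 (brec_all (PrV chk)
 (brec_all (PrV chk)
  (brec_all (PrV chk)
   (brec_all (PrV chk)
    p6528
    p6529)
   (brec_all (PrV chk)
    p6530
    p6531))
  (brec_all (PrV chk)
   (brec_all (PrV chk)
    p6532
    p6533)
   (brec_all (PrV chk)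
    p6534
    p6535)))
 (brec_all (PrV chk)
  (brec_all (PrV chk)
   (brec_all (PrV chk)
    p6536
    p6537)
   (brec_all (PrV chk)
    p6538
    p6539))
  (brec_all (PrV chk)
   (brec_all (PrV chk)
    p6540
    p6541)
   (brec_all (PrV chk)
    p6542
    p6543))))

theorem A0_409_ok (i : Nat) : PrV chk (A0_409 i) := by
 unfold A0_409
 exact
 (brec_all (PrV chk)
 (brec_all (PrV chk)
  (brec_all (PrV chk)
   (brec_all (PrV chk)
    p6544
    p6545)
   (brec_all (PrV chk)
    p6546
    p6547))
  (brec_all (PrV chk)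
   (brec_all (PrV chk)
    p6548
    p6549)
   (brec_all (PrV chk)
    p6550
    p6551)))
 (brec_all (PrV chk)
  (brec_all (PrV chk)
   (brec_all (PrV chk)
    p6552
    p6553)
   (brec_all (PrV chk)
    p6554
    p6555))
  (brec_all (PrV chk)
   (brec_all (PrV chk)
    p6556
    p6557)
   (brec_all (PrV chk)
    p6558
    p6559))))

theorem A0_410_ok (i : Nat) : PrV chk (A0_410 i) := by
 unfold A0_410
 exact
 (brec_all (PrV chk)
 (brec_all (PrV chk)
  (brec_all (PrV chk)
   (brec_all (PrV chk)
    p6560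
    p6561)
   (brec_all (PrV chk)
    p6562
    p6563))
  (brec_all (PrV chk)
   (brec_all (PrV chk)
    p6564
    p6565)
   (brec_all (PrV chk)
    p6566
    p6567)))
 (brec_all (PrV chk)
  (brec_all (PrV chk)
   (brec_all (PrV chk)
    p6568
    p6569)
   (brec_all (PrV chk)
    p6570
    p6571))
  (brec_all (PrV chk)
   (brec_all (PrV chk)
    p6572
    p6573)
   (brec_all (PrV chk)
    p6574
    p6575))))

theorem A0_411_ok (i : Nat) : PrV chk (A0_411 i) := by
 unfold A0_411
 exact
 (brec_all (PrV chk)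
 (brec_all (PrV chk)
  (brec_all (PrV chk)
   (brec_all (PrV chk)
    p6576
    p6577)
   (brec_all (PrV chk)
    p6578
    p6579))
  (brec_all (PrV chk)
   (brec_all (PrV chk)
    p6580
    p6581)
   (brec_all (PrV chk)
    p6582
    p6583)))
 (brec_all (PrV chk)
  (brec_all (PrV chk)
   (brec_all (PrV chk)
    p6584
    p6585)
   (brec_all (PrV chk)
    p6586
    p6587))
  (brec_all (PrV chk)
   (brec_all (PrV chk)
    p6588
    p6589)
   (brec_all (PrV chk)
    p6590
    p6591))))

theorem A0_412_ok (i : Nat) : PrV chk (A0_412 i) := by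
 unfold A0_412
 exact
 (brec_all (PrV chk)
 (brec_all (PrV chk)
  (brec_all (PrV chk)
   (brec_all (PrV chk)
    p6592
    p6593)
   (brec_all (PrV chk)
    p6594
    p6595))
  (brec_all (PrV chk)
   (brec_all (PrV chk)
    p6596
    p6597)
   (brec_all (PrV chk)
    p6598
    p6599)))
 (brec_all (PrV chk)
  (brec_all (PrV chk)
   (brec_all (PrV chk)
    p6600
    p6601)
   (brec_all (PrV chk)
    p6602
    p6603))
  (brec_all (PrV chk)
   (brec_all (PrV chk)
    p6604
    p6605)
   (brec_all (PrV chk)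
    p6606
    p6607))))

theorem A0_413_ok (i : Nat) : PrV chk (A0_413 i) := by
 unfold A0_413
 exact
 (brec_all (PrV chk)
 (brec_all (PrV chk)
  (brec_all (PrV chk)
   (brec_all (PrV chk)
    p6608
    p6609)
   (brec_all (PrV chk)
    p6610
    p6611))
  (brec_all (PrV chk)
   (brec_all (PrV chk)
    p6612
    p6613)
   (brec_all (PrV chk)
    p6614
    p6615)))
 (brec_all (PrV chk)
  (brec_all (PrV chk)
   (brec_all (PrV chk)
    p6616
    p6617)
   (brec_all (PrV chk)
    p6618
    p6619))
  (brec_all (PrV chk)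
   (brec_all (PrV chk)
    p6620
    p6621)
   (brec_all (PrV chk)
    p6622
    p6623))))

theorem A0_414_ok (i : Nat) : PrV chk (A0_414 i) := by
 unfold A0_414
 exact
 (brec_all (PrV chk)
 (brec_all (PrV chk)
  (brec_all (PrV chk)
   (brec_all (PrV chk)
    p6624
    p6625)
   (brec_all (PrV chk)
    p6626
    p6627))
  (brec_all (PrV chk)
   (brec_all (PrV chk)
    p6628
    p6629)
   (brec_all (PrV chk)
    p6630
    p6631)))
 (brec_all (PrV chk)
  (brec_all (PrV chk)
   (brec_all (PrV chk)
    p6632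
    p6633)
   (brec_all (PrV chk)
    p6634
    p6635))
  (brec_all (PrV chk)
   (brec_all (PrV chk)
    p6636
    p6637)
   (brec_all (PrV chk)
    p6638
    p6639))))

theorem A0_415_ok (i : Nat) : PrV chk (A0_415 i) := by
 unfold A0_415
 exact
 (brec_all (PrV chk)
 (brec_all (PrV chk)
  (brec_all (PrV chk)
   (brec_all (PrV chk)
    p6640
    p6641)
   (brec_all (PrV chk)
    p6642
    p6643))
  (brec_all (PrV chk)
   (brec_all (PrV chk)
    p6644
    p6645)
   (brec_all (PrV chk)
    p6646
    p6647)))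
 (brec_all (PrV chk)
  (brec_all (PrV chk)
   (brec_all (PrV chk)
    p6648
    p6649)
   (brec_all (PrV chk)
    p6650
    p6651))
  (brec_all (PrV chk)
   (brec_all (PrV chk)
    p6652
    p6653)
   (brec_all (PrV chk)
    p6654
    p6655))))

theorem A0_416_ok (i : Nat) : PrV chk (A0_416 i) := by
 unfold A0_416
 exact
 (brec_all (PrV chk)
 (brec_all (PrV chk)
  (brec_all (PrV chk)
   (brec_all (PrV chk)
    p6656
    p6657)
   (brec_all (PrV chk)
    p6658
    p6659))
  (brec_all (PrV chk)
   (brec_all (PrV chk)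
    p6660
    p6661)
   (brec_all (PrV chk)
    p6662
    p6663)))
 (brec_all (PrV chk)
  (brec_all (PrV chk)
   (brec_all (PrV chk)
    p6664
    p6665)
   (brec_all (PrV chk)
    p6666
    p6667))
  (brec_all (PrV chk)
   (brec_all (PrV chk)
    p6668
    p6669)
   (brec_all (PrV chk)
    p6670
    p6671))))

theorem A0_417_ok (i : Nat) : PrV chk (A0_417 i) := by
 unfold A0_417
 exact
 (brec_all (PrV chk)
 (brec_all (PrV chk)
  (brec_all (PrV chk)
   (brec_all (PrV chk)
    p6672
    p6673)
   (brec_all (PrV chk)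
    p6674
    p6675))
  (brec_all (PrV chk)
   (brec_all (PrV chk)
    p6676
    p6677)
   (brec_all (PrV chk)
    p6678
    p6679)))
 (brec_all (PrV chk)
  (brec_all (PrV chk)
   (brec_all (PrV chk)
    p6680
    p6681)
   (brec_all (PrV chk)
    p6682
    p6683))
  (brec_all (PrV chk)
   (brec_all (PrV chk)
    p6684
    p6685)
   (brec_all (PrV chk)
    p6686
    p6687))))

theorem A0_418_ok (i : Nat) : PrV chk (A0_418 i) := by
 unfold A0_418
 exact
 (brec_all (PrV chk)
 (brec_all (PrV chk)
  (brec_all (PrV chk)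
   (brec_all (PrV chk)
    p6688
    p6689)
   (brec_all (PrV chk)
    p6690
    p6691))
  (brec_all (PrV chk)
   (brec_all (PrV chk)
    p6692
    p6693)
   (brec_all (PrV chk)
    p6694
    p6695)))
 (brec_all (PrV chk)
  (brec_all (PrV chk)
   (brec_all (PrV chk)
    p6696
    p6697)
   (brec_all (PrV chk)
    p6698
    p6699))
  (brec_all (PrV chk)
   (brec_all (PrV chk)
    p6700
    p6701)
   (brec_all (PrV chk)
    p6702
    p6703))))

theorem A0_419_ok (i : Nat) : PrV chk (A0_419 i) := by
 unfold A0_419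
 exact
 (brec_all (PrV chk)
 (brec_all (PrV chk)
  (brec_all (PrV chk)
   (brec_all (PrV chk)
    p6704
    p6705)
   (brec_all (PrV chk)
    p6706
    p6707))
  (brec_all (PrV chk)
   (brec_all (PrV chk)
    p6708
    p6709)
   (brec_all (PrV chk)
    p6710
    p6711)))
 (brec_all (PrV chk)
  (brec_all (PrV chk)
   (brec_all (PrV chk)
    p6712
    p6713)
   (brec_all (PrV chk)
    p6714
    p6715))
  (brec_all (PrV chk)
   (brec_all (PrV chk)
    p6716
    p6717)
   (brec_all (PrV chk)
    p6718
    p6719))))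

theorem A0_420_ok (i : Nat) : PrV chk (A0_420 i) := by
 unfold A0_420
 exact
 (brec_all (PrV chk)
 (brec_all (PrV chk)
  (brec_all (PrV chk)
   (brec_all (PrV chk)
    p6720
    p6721)
   (brec_all (PrV chk)
    p6722
    p6723))
  (brec_all (PrV chk)
   (brec_all (PrV chk)
    p6724
    p6725)
   (brec_all (PrV chk)
    p6726
    p6727)))
 (brec_all (PrV chk)
  (brec_all (PrV chk)
   (brec_all (PrV chk)
    p6728
    p6729)
   (brec_all (PrV chk)
    p6730
    p6731))
  (brec_all (PrV chk)
   (brec_all (PrV chk)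
    p6732
    p6733)
   (brec_all (PrV chk)
    p6734
    p6735))))

theorem A0_421_ok (i : Nat) : PrV chk (A0_421 i) := by
 unfold A0_421
 exact
 (brec_all (PrV chk)
 (brec_all (PrV chk)
  (brec_all (PrV chk)
   (brec_all (PrV chk)
    p6736
    p6737)
   (brec_all (PrV chk)
    p6738
    p6739))
  (brec_all (PrV chk)
   (brec_all (PrV chk)
    p6740
    p6741)
   (brec_all (PrV chk)
    p6742
    p6743)))
 (brec_all (PrV chk)
  (brec_all (PrV chk)
   (brec_all (PrV chk)
    p6744
    p6745)
   (brec_all (PrV chk)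
    p6746
    p6747))
  (brec_all (PrV chk)
   (brec_all (PrV chk)
    p6748
    p6749)
   (brec_all (PrV chk)
    p6750
    p6751))))

theorem A0_422_ok (i : Nat) : PrV chk (A0_422 i) := by
 unfold A0_422
 exact
 (brec_all (PrV chk)
 (brec_all (PrV chk)
  (brec_all (PrV chk)
   (brec_all (PrV chk)
    p6752
    p6753)
   (brec_all (PrV chk)
    p6754
    p6755))
  (brec_all (PrV chk)
   (brec_all (PrV chk)
    p6756
    p6757)
   (brec_all (PrV chk)
    p6758
    p6759)))
 (brec_all (PrV chk)
  (brec_all (PrV chk)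
   (brec_all (PrV chk)
    p6760
    p6761)
   (brec_all (PrV chk)
    p6762
    p6763))
  (brec_all (PrV chk)
   (brec_all (PrV chk)
    p6764
    p6765)
   (brec_all (PrV chk)
    p6766
    p6767))))

theorem A0_423_ok (i : Nat) : PrV chk (A0_423 i) := by
 unfold A0_423
 exact
 (brec_all (PrV chk)
 (brec_all (PrV chk)
  (brec_all (PrV chk)
   (brec_all (PrV chk)
    p6768
    p6769)
   (brec_all (PrV chk)
    p6770
    p6771))
  (brec_all (PrV chk)
   (brec_all (PrV chk)
    p6772
    p6773)
   (brec_all (PrV chk)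
    p6774
    p6775)))
 (brec_all (PrV chk)
  (brec_all (PrV chk)
   (brec_all (PrV chk)
    p6776
    p6777)
   (brec_all (PrV chk)
    p6778
    p6779))
  (brec_all (PrV chk)
   (brec_all (PrV chk)
    p6780
    p6781)
   (brec_all (PrV chk)
    p6782
    p6783))))

theorem A0_424_ok (i : Nat) : PrV chk (A0_424 i) := by
 unfold A0_424
 exact
 (brec_all (PrV chk)
 (brec_all (PrV chk)
  (brec_all (PrV chk)
   (brec_all (PrV chk)
    p6784
    p6785)
   (brec_all (PrV chk)
    p6786
    p6787))
  (brec_all (PrV chk)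
   (brec_all (PrV chk)
    p6788
    p6789)
   (brec_all (PrV chk)
    p6790
    p6791)))
 (brec_all (PrV chk)
  (brec_all (PrV chk)
   (brec_all (PrV chk)
    p6792
    p6793)
   (brec_all (PrV chk)
    p6794
    p6795))
  (brec_all (PrV chk)
   (brec_all (PrV chk)
    p6796
    p6797)
   (brec_all (PrV chk)
    p6798
    p6799))))

theorem A0_425_ok (i : Nat) : PrV chk (A0_425 i) := by
 unfold A0_425
 exact
 (brec_all (PrV chk)
 (brec_all (PrV chk)
  (brec_all (PrV chk)
   (brec_all (PrV chk)
    p6800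
    p6801)
   (brec_all (PrV chk)
    p6802
    p6803))
  (brec_all (PrV chk)
   (brec_all (PrV chk)
    p6804
    p6805)
   (brec_all (PrV chk)
    p6806
    p6807)))
 (brec_all (PrV chk)
  (brec_all (PrV chk)
   (brec_all (PrV chk)
    p6808
    p6809)
   (brec_all (PrV chk)
    p6810
    p6811))
  (brec_all (PrV chk)
   (brec_all (PrV chk)
    p6812
    p6813)
   (brec_all (PrV chk)
    p6814
    p6815))))

theorem A0_426_ok (i : Nat) : PrV chk (A0_426 i) := by
 unfold A0_426
 exact
 (brec_all (PrV chk)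
 (brec_all (PrV chk)
  (brec_all (PrV chk)
   (brec_all (PrV chk)
    p6816
    p6817)
   (brec_all (PrV chk)
    p6818
    p6819))
  (brec_all (PrV chk)
   (brec_all (PrV chk)
    p6820
    p6821)
   (brec_all (PrV chk)
    p6822
    p6823)))
 (brec_all (PrV chk)
  (brec_all (PrV chk)
   (brec_all (PrV chk)
    p6824
    p6825)
   (brec_all (PrV chk)
    p6826
    p6827))
  (brec_all (PrV chk)
   (brec_all (PrV chk)
    p6828
    p6829)
   (brec_all (PrV chk)
    p6830
    p6831))))

theorem A0_427_ok (i : Nat) : PrV chk (A0_427 i) := by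
 unfold A0_427
 exact
 (brec_all (PrV chk)
 (brec_all (PrV chk)
  (brec_all (PrV chk)
   (brec_all (PrV chk)
    p6832
    p6833)
   (brec_all (PrV chk)
    p6834
    p6835))
  (brec_all (PrV chk)
   (brec_all (PrV chk)
    p6836
    p6837)
   (brec_all (PrV chk)
    p6838
    p6839)))
 (brec_all (PrV chk)
  (brec_all (PrV chk)
   (brec_all (PrV chk)
    p6840
    p6841)
   (brec_all (PrV chk)
    p6842
    p6843))
  (brec_all (PrV chk)
   (brec_all (PrV chk)
    p6844
    p6845)
   (brec_all (PrV chk)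
    p6846
    p6847))))

theorem A0_428_ok (i : Nat) : PrV chk (A0_428 i) := by
 unfold A0_428
 exact
 (brec_all (PrV chk)
 (brec_all (PrV chk)
  (brec_all (PrV chk)
   (brec_all (PrV chk)
    p6848
    p6849)
   (brec_all (PrV chk)
    p6850
    p6851))
  (brec_all (PrV chk)
   (brec_all (PrV chk)
    p6852
    p6853)
   (brec_all (PrV chk)
    p6854
    p6855)))
 (brec_all (PrV chk)
  (brec_all (PrV chk)
   (brec_all (PrV chk)
    p6856
    p6857)
   (brec_all (PrV chk)
    p6858
    p6859))
  (brec_all (PrV chk)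
   (brec_all (PrV chk)
    p6860
    p6861)
   (brec_all (PrV chk)
    p6862
    p6863))))

theorem A0_429_ok (i : Nat) : PrV chk (A0_429 i) := by
 unfold A0_429
 exact
 (brec_all (PrV chk)
 (brec_all (PrV chk)
  (brec_all (PrV chk)
   (brec_all (PrV chk)
    p6864
    p6865)
   (brec_all (PrV chk)
    p6866
    p6867))
  (brec_all (PrV chk)
   (brec_all (PrV chk)
    p6868
    p6869)
   (brec_all (PrV chk)
    p6870
    p6871)))
 (brec_all (PrV chk)
  (brec_all (PrV chk)
   (brec_all (PrV chk)
    p6872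
    p6873)
   (brec_all (PrV chk)
    p6874
    p6875))
  (brec_all (PrV chk)
   (brec_all (PrV chk)
    p6876
    p6877)
   (brec_all (PrV chk)
    p6878
    p6879))))

theorem A0_430_ok (i : Nat) : PrV chk (A0_430 i) := by
 unfold A0_430
 exact
 (brec_all (PrV chk)
 (brec_all (PrV chk)
  (brec_all (PrV chk)
   (brec_all (PrV chk)
    p6880
    p6881)
   (brec_all (PrV chk)
    p6882
    p6883))
  (brec_all (PrV chk)
   (brec_all (PrV chk)
    p6884
    p6885)
   (brec_all (PrV chk)
    p6886
    p6887)))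
 (brec_all (PrV chk)
  (brec_all (PrV chk)
   (brec_all (PrV chk)
    p6888
    p6889)
   (brec_all (PrV chk)
    p6890
    p6891))
  (brec_all (PrV chk)
   (brec_all (PrV chk)
    p6892
    p6893)
   (brec_all (PrV chk)
    p6894
    p6895))))

theorem A0_431_ok (i : Nat) : PrV chk (A0_431 i) := by
 unfold A0_431
 exact
 (brec_all (PrV chk)
 (brec_all (PrV chk)
  (brec_all (PrV chk)
   (brec_all (PrV chk)
    p6896
    p6897)
   (brec_all (PrV chk)
    p6898
    p6899))
  (brec_all (PrV chk)
   (brec_all (PrV chk)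
    p6900
    p6901)
   (brec_all (PrV chk)
    p6902
    p6903)))
 (brec_all (PrV chk)
  (brec_all (PrV chk)
   (brec_all (PrV chk)
    p6904
    p6905)
   (brec_all (PrV chk)
    p6906
    p6907))
  (brec_all (PrV chk)
   (brec_all (PrV chk)
    p6908
    p6909)
   (brec_all (PrV chk)
    p6910
    p6911))))

theorem A0_432_ok (i : Nat) : PrV chk (A0_432 i) := by
 unfold A0_432
 exact
 (brec_all (PrV chk)
 (brec_all (PrV chk)
  (brec_all (PrV chk)
   (brec_all (PrV chk)
    p6912
    p6913)
   (brec_all (PrV chk)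
    p6914
    p6915))
  (brec_all (PrV chk)
   (brec_all (PrV chk)
    p6916
    p6917)
   (brec_all (PrV chk)
    p6918
    p6919)))
 (brec_all (PrV chk)
  (brec_all (PrV chk)
   (brec_all (PrV chk)
    p6920
    p6921)
   (brec_all (PrV chk)
    p6922
    p6923))
  (brec_all (PrV chk)
   (brec_all (PrV chk)
    p6924
    p6925)
   (brec_all (PrV chk)
    p6926
    p6927))))

theorem A0_433_ok (i : Nat) : PrV chk (A0_433 i) := by
 unfold A0_433
 exact
 (brec_all (PrV chk)
 (brec_all (PrV chk)
  (brec_all (PrV chk)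
   (brec_all (PrV chk)
    p6928
    p6929)
   (brec_all (PrV chk)
    p6930
    p6931))
  (brec_all (PrV chk)
   (brec_all (PrV chk)
    p6932
    p6933)
   (brec_all (PrV chk)
    p6934
    p6935)))
 (brec_all (PrV chk)
  (brec_all (PrV chk)
   (brec_all (PrV chk)
    p6936
    p6937)
   (brec_all (PrV chk)
    p6938
    p6939))
  (brec_all (PrV chk)
   (brec_all (PrV chk)
    p6940
    p6941)
   (brec_all (PrV chk)
    p6942
    p6943))))

theorem A0_434_ok (i : Nat) : PrV chk (A0_434 i) := by
 unfold A0_434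
 exact
 (brec_all (PrV chk)
 (brec_all (PrV chk)
  (brec_all (PrV chk)
   (brec_all (PrV chk)
    p6944
    p6945)
   (brec_all (PrV chk)
    p6946
    p6947))
  (brec_all (PrV chk)
   (brec_all (PrV chk)
    p6948
    p6949)
   (brec_all (PrV chk)
    p6950
    p6951)))
 (brec_all (PrV chk)
  (brec_all (PrV chk)
   (brec_all (PrV chk)
    p6952
    p6953)
   (brec_all (PrV chk)
    p6954
    p6955))
  (brec_all (PrV chk)
   (brec_all (PrV chk)
    p6956
    p6957)
   (brec_all (PrV chk)
    p6958
    p6959))))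

theorem A0_435_ok (i : Nat) : PrV chk (A0_435 i) := by
 unfold A0_435
 exact
 (brec_all (PrV chk)
 (brec_all (PrV chk)
  (brec_all (PrV chk)
   (brec_all (PrV chk)
    p6960
    p6961)
   (brec_all (PrV chk)
    p6962
    p6963))
  (brec_all (PrV chk)
   (brec_all (PrV chk)
    p6964
    p6965)
   (brec_all (PrV chk)
    p6966
    p6967)))
 (brec_all (PrV chk)
  (brec_all (PrV chk)
   (brec_all (PrV chk)
    p6968
    p6969)
   (brec_all (PrV chk)
    p6970
    p6971))
  (brec_all (PrV chk)
   (brec_all (PrV chk)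
    p6972
    p6973)
   (brec_all (PrV chk)
    p6974
    p6975))))

theorem A0_436_ok (i : Nat) : PrV chk (A0_436 i) := by
 unfold A0_436
 exact
 (brec_all (PrV chk)
 (brec_all (PrV chk)
  (brec_all (PrV chk)
   (brec_all (PrV chk)
    p6976
    p6977)
   (brec_all (PrV chk)
    p6978
    p6979))
  (brec_all (PrV chk)
   (brec_all (PrV chk)
    p6980
    p6981)
   (brec_all (PrV chk)
    p6982
    p6983)))
 (brec_all (PrV chk)
  (brec_all (PrV chk)
   (brec_all (PrV chk)
    p6984
    p6985)
   (brec_all (PrV chk)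
    p6986
    p6987))
  (brec_all (PrV chk)
   (brec_all (PrV chk)
    p6988
    p6989)
   (brec_all (PrV chk)
    p6990
    p6991))))

theorem A0_437_ok (i : Nat) : PrV chk (A0_437 i) := by
 unfold A0_437
 exact
 (brec_all (PrV chk)
 (brec_all (PrV chk)
  (brec_all (PrV chk)
   (brec_all (PrV chk)
    p6992
    p6993)
   (brec_all (PrV chk)
    p6994
    p6995))
  (brec_all (PrV chk)
   (brec_all (PrV chk)
    p6996
    p6997)
   (brec_all (PrV chk)
    p6998
    p6999)))
 (brec_all (PrV chk)
  (brec_all (PrV chk)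
   (brec_all (PrV chk)
    p7000
    p7001)
   (brec_all (PrV chk)
    p7002
    p7003))
  (brec_all (PrV chk)
   (brec_all (PrV chk)
    p7004
    p7005)
   (brec_all (PrV chk)
    p7006
    p7007))))

theorem A0_438_ok (i : Nat) : PrV chk (A0_438 i) := by
 unfold A0_438
 exact
 (brec_all (PrV chk)
 (brec_all (PrV chk)
  (brec_all (PrV chk)
   (brec_all (PrV chk)
    p7008
    p7009)
   (brec_all (PrV chk)
    p7010
    p7011))
  (brec_all (PrV chk)
   (brec_all (PrV chk)
    p7012
    p7013)
   (brec_all (PrV chk)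
    p7014
    p7015)))
 (brec_all (PrV chk)
  (brec_all (PrV chk)
   (brec_all (PrV chk)
    p7016
    p7017)
   (brec_all (PrV chk)
    p7018
    p7019))
  (brec_all (PrV chk)
   (brec_all (PrV chk)
    p7020
    p7021)
   (brec_all (PrV chk)
    p7022
    p7023))))

theorem A0_439_ok (i : Nat) : PrV chk (A0_439 i) := by
 unfold A0_439
 exact
 (brec_all (PrV chk)
 (brec_all (PrV chk)
  (brec_all (PrV chk)
   (brec_all (PrV chk)
    p7024
    p7025)
   (brec_all (PrV chk)
    p7026
    p7027))
  (brec_all (PrV chk)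
   (brec_all (PrV chk)
    p7028
    p7029)
   (brec_all (PrV chk)
    p7030
    p7031)))
 (brec_all (PrV chk)
  (brec_all (PrV chk)
   (brec_all (PrV chk)
    p7032
    p7033)
   (brec_all (PrV chk)
    p7034
    p7035))
  (brec_all (PrV chk)
   (brec_all (PrV chk)
    p7036
    p7037)
   (brec_all (PrV chk)
    p7038
    p7039))))

theorem A0_440_ok (i : Nat) : PrV chk (A0_440 i) := by
 unfold A0_440
 exact
 (brec_all (PrV chk)
 (brec_all (PrV chk)
  (brec_all (PrV chk)
   (brec_all (PrV chk)
    p7040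
    p7041)
   (brec_all (PrV chk)
    p7042
    p7043))
  (brec_all (PrV chk)
   (brec_all (PrV chk)
    p7044
    p7045)
   (brec_all (PrV chk)
    p7046
    p7047)))
 (brec_all (PrV chk)
  (brec_all (PrV chk)
   (brec_all (PrV chk)
    p7048
    p7049)
   (brec_all (PrV chk)
    p7050
    p7051))
  (brec_all (PrV chk)
   (brec_all (PrV chk)
    p7052
    p7053)
   (brec_all (PrV chk)
    p7054
    p7055))))

theorem A0_441_ok (i : Nat) : PrV chk (A0_441 i) := by
 unfold A0_441
 exact
 (brec_all (PrV chk)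
 (brec_all (PrV chk)
  (brec_all (PrV chk)
   (brec_all (PrV chk)
    p7056
    p7057)
   (brec_all (PrV chk)
    p7058
    p7059))
  (brec_all (PrV chk)
   (brec_all (PrV chk)
    p7060
    p7061)
   (brec_all (PrV chk)
    p7062
    p7063)))
 (brec_all (PrV chk)
  (brec_all (PrV chk)
   (brec_all (PrV chk)
    p7064
    p7065)
   (brec_all (PrV chk)
    p7066
    p7067))
  (brec_all (PrV chk)
   (brec_all (PrV chk)
    p7068
    p7069)
   (brec_all (PrV chk)
    p7070
    p7071))))

theorem A0_442_ok (i : Nat) : PrV chk (A0_442 i) := by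
 unfold A0_442
 exact
 (brec_all (PrV chk)
 (brec_all (PrV chk)
  (brec_all (PrV chk)
   (brec_all (PrV chk)
    p7072
    p7073)
   (brec_all (PrV chk)
    p7074
    p7075))
  (brec_all (PrV chk)
   (brec_all (PrV chk)
    p7076
    p7077)
   (brec_all (PrV chk)
    p7078
    p7079)))
 (brec_all (PrV chk)
  (brec_all (PrV chk)
   (brec_all (PrV chk)
    p7080
    p7081)
   (brec_all (PrV chk)
    p7082
    p7083))
  (brec_all (PrV chk)
   (brec_all (PrV chk)
    p7084
    p7085)
   (brec_all (PrV chk)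
    p7086
    p7087))))

theorem A0_443_ok (i : Nat) : PrV chk (A0_443 i) := by
 unfold A0_443
 exact
 (brec_all (PrV chk)
 (brec_all (PrV chk)
  (brec_all (PrV chk)
   (brec_all (PrV chk)
    p7088
    p7089)
   (brec_all (PrV chk)
    p7090
    p7091))
  (brec_all (PrV chk)
   (brec_all (PrV chk)
    p7092
    p7093)
   (brec_all (PrV chk)
    p7094
    p7095)))
 (brec_all (PrV chk)
  (brec_all (PrV chk)
   (brec_all (PrV chk)
    p7096
    p7097)
   (brec_all (PrV chk)
    p7098
    p7099))
  (brec_all (PrV chk)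
   (brec_all (PrV chk)
    p7100
    p7101)
   (brec_all (PrV chk)
    p7102
    p7103))))

theorem A0_444_ok (i : Nat) : PrV chk (A0_444 i) := by
 unfold A0_444
 exact
 (brec_all (PrV chk)
 (brec_all (PrV chk)
  (brec_all (PrV chk)
   (brec_all (PrV chk)
    p7104
    p7105)
   (brec_all (PrV chk)
    p7106
    p7107))
  (brec_all (PrV chk)
   (brec_all (PrV chk)
    p7108
    p7109)
   (brec_all (PrV chk)
    p7110
    p7111)))
 (brec_all (PrV chk)
  (brec_all (PrV chk)
   (brec_all (PrV chk)
    p7112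
    p7113)
   (brec_all (PrV chk)
    p7114
    p7115))
  (brec_all (PrV chk)
   (brec_all (PrV chk)
    p7116
    p7117)
   (brec_all (PrV chk)
    p7118
    p7119))))

theorem A0_445_ok (i : Nat) : PrV chk (A0_445 i) := by
 unfold A0_445
 exact
 (brec_all (PrV chk)
 (brec_all (PrV chk)
  (brec_all (PrV chk)
   (brec_all (PrV chk)
    p7120
    p7121)
   (brec_all (PrV chk)
    p7122
    p7123))
  (brec_all (PrV chk)
   (brec_all (PrV chk)
    p7124
    p7125)
   (brec_all (PrV chk)
    p7126
    p7127)))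
 (brec_all (PrV chk)
  (brec_all (PrV chk)
   (brec_all (PrV chk)
    p7128
    p7129)
   (brec_all (PrV chk)
    p7130
    p7131))
  (brec_all (PrV chk)
   (brec_all (PrV chk)
    p7132
    p7133)
   (brec_all (PrV chk)
    p7134
    p7135))))

theorem A0_446_ok (i : Nat) : PrV chk (A0_446 i) := by
 unfold A0_446
 exact
 (brec_all (PrV chk)
 (brec_all (PrV chk)
  (brec_all (PrV chk)
   (brec_all (PrV chk)
    p7136
    p7137)
   (brec_all (PrV chk)
    p7138
    p7139))
  (brec_all (PrV chk)
   (brec_all (PrV chk)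
    p7140
    p7141)
   (brec_all (PrV chk)
    p7142
    p7143)))
 (brec_all (PrV chk)
  (brec_all (PrV chk)
   (brec_all (PrV chk)
    p7144
    p7145)
   (brec_all (PrV chk)
    p7146
    p7147))
  (brec_all (PrV chk)
   (brec_all (PrV chk)
    p7148
    p7149)
   (brec_all (PrV chk)
    p7150
    p7151))))

theorem A0_447_ok (i : Nat) : PrV chk (A0_447 i) := by
 unfold A0_447
 exact
 (brec_all (PrV chk)
 (brec_all (PrV chk)
  (brec_all (PrV chk)
   (brec_all (PrV chk)
    p7152
    p7153)
   (brec_all (PrV chk)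
    p7154
    p7155))
  (brec_all (PrV chk)
   (brec_all (PrV chk)
    p7156
    p7157)
   (brec_all (PrV chk)
    p7158
    p7159)))
 (brec_all (PrV chk)
  (brec_all (PrV chk)
   (brec_all (PrV chk)
    p7160
    p7161)
   (brec_all (PrV chk)
    p7162
    p7163))
  (brec_all (PrV chk)
   (brec_all (PrV chk)
    p7164
    p7165)
   (brec_all (PrV chk)
    p7166
    p7167))))

theorem A0_448_ok (i : Nat) : PrV chk (A0_448 i) := by
 unfold A0_448
 exact
 (brec_all (PrV chk)
 (brec_all (PrV chk)
  (brec_all (PrV chk)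
   (brec_all (PrV chk)
    p7168
    p7169)
   p7170)
  (brec_all (PrV chk)
   p7171
   p7172))
 (brec_all (PrV chk)
  (brec_all (PrV chk)
   p7173
   p7174)
  (brec_all (PrV chk)
   p7175
   p7176)))

theorem A1_0_ok (i : Nat) : PrV chk (A1_0 i) := by
 unfold A1_0
 exact
 (brec_all (PrV chk)
 (brec_all (PrV chk)
  (brec_all (PrV chk)
   (brec_all (PrV chk)
    (A0_0_ok i)
    (A0_1_ok i))
   (brec_all (PrV chk)
    (A0_2_ok i)
    (A0_3_ok i)))
  (brec_all (PrV chk)
   (brec_all (PrV chk)
    (A0_4_ok i)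
    (A0_5_ok i))
   (brec_all (PrV chk)
    (A0_6_ok i)
    (A0_7_ok i))))
 (brec_all (PrV chk)
  (brec_all (PrV chk)
   (brec_all (PrV chk)
    (A0_8_ok i)
    (A0_9_ok i))
   (brec_all (PrV chk)
    (A0_10_ok i)
    (A0_11_ok i)))
  (brec_all (PrV chk)
   (brec_all (PrV chk)
    (A0_12_ok i)
    (A0_13_ok i))
   (brec_all (PrV chk)
    (A0_14_ok i)
    (A0_15_ok i)))))

theorem A1_1_ok (i : Nat) : PrV chk (A1_1 i) := by
 unfold A1_1
 exact
 (brec_all (PrV chk)
 (brec_all (PrV chk)
  (brec_all (PrV chk)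
   (brec_all (PrV chk)
    (A0_16_ok i)
    (A0_17_ok i))
   (brec_all (PrV chk)
    (A0_18_ok i)
    (A0_19_ok i)))
  (brec_all (PrV chk)
   (brec_all (PrV chk)
    (A0_20_ok i)
    (A0_21_ok i))
   (brec_all (PrV chk)
    (A0_22_ok i)
    (A0_23_ok i))))
 (brec_all (PrV chk)
  (brec_all (PrV chk)
   (brec_all (PrV chk)
    (A0_24_ok i)
    (A0_25_ok i))
   (brec_all (PrV chk)
    (A0_26_ok i)
    (A0_27_ok i)))
  (brec_all (PrV chk)
   (brec_all (PrV chk)
    (A0_28_ok i)
    (A0_29_ok i))
   (brec_all (PrV chk)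
    (A0_30_ok i)
    (A0_31_ok i)))))

theorem A1_2_ok (i : Nat) : PrV chk (A1_2 i) := by
 unfold A1_2
 exact
 (brec_all (PrV chk)
 (brec_all (PrV chk)
  (brec_all (PrV chk)
   (brec_all (PrV chk)
    (A0_32_ok i)
    (A0_33_ok i))
   (brec_all (PrV chk)
    (A0_34_ok i)
    (A0_35_ok i)))
  (brec_all (PrV chk)
   (brec_all (PrV chk)
    (A0_36_ok i)
    (A0_37_ok i))
   (brec_all (PrV chk)
    (A0_38_ok i)
    (A0_39_ok i))))
 (brec_all (PrV chk)
  (brec_all (PrV chk)
   (brec_all (PrV chk)
    (A0_40_ok i)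
    (A0_41_ok i))
   (brec_all (PrV chk)
    (A0_42_ok i)
    (A0_43_ok i)))
  (brec_all (PrV chk)
   (brec_all (PrV chk)
    (A0_44_ok i)
    (A0_45_ok i))
   (brec_all (PrV chk)
    (A0_46_ok i)
    (A0_47_ok i)))))

theorem A1_3_ok (i : Nat) : PrV chk (A1_3 i) := by
 unfold A1_3
 exact
 (brec_all (PrV chk)
 (brec_all (PrV chk)
  (brec_all (PrV chk)
   (brec_all (PrV chk)
    (A0_48_ok i)
    (A0_49_ok i))
   (brec_all (PrV chk)
    (A0_50_ok i)
    (A0_51_ok i)))
  (brec_all (PrV chk)
   (brec_all (PrV chk)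
    (A0_52_ok i)
    (A0_53_ok i))
   (brec_all (PrV chk)
    (A0_54_ok i)
    (A0_55_ok i))))
 (brec_all (PrV chk)
  (brec_all (PrV chk)
   (brec_all (PrV chk)
    (A0_56_ok i)
    (A0_57_ok i))
   (brec_all (PrV chk)
    (A0_58_ok i)
    (A0_59_ok i)))
  (brec_all (PrV chk)
   (brec_all (PrV chk)
    (A0_60_ok i)
    (A0_61_ok i))
   (brec_all (PrV chk)
    (A0_62_ok i)
    (A0_63_ok i)))))

theorem A1_4_ok (i : Nat) : PrV chk (A1_4 i) := by
 unfold A1_4
 exact
 (brec_all (PrV chk)
 (brec_all (PrV chk)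
  (brec_all (PrV chk)
   (brec_all (PrV chk)
    (A0_64_ok i)
    (A0_65_ok i))
   (brec_all (PrV chk)
    (A0_66_ok i)
    (A0_67_ok i)))
  (brec_all (PrV chk)
   (brec_all (PrV chk)
    (A0_68_ok i)
    (A0_69_ok i))
   (brec_all (PrV chk)
    (A0_70_ok i)
    (A0_71_ok i))))
 (brec_all (PrV chk)
  (brec_all (PrV chk)
   (brec_all (PrV chk)
    (A0_72_ok i)
    (A0_73_ok i))
   (brec_all (PrV chk)
    (A0_74_ok i)
    (A0_75_ok i)))
  (brec_all (PrV chk)
   (brec_all (PrV chk)
    (A0_76_ok i)
    (A0_77_ok i))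
   (brec_all (PrV chk)
    (A0_78_ok i)
    (A0_79_ok i)))))

theorem A1_5_ok (i : Nat) : PrV chk (A1_5 i) := by
 unfold A1_5
 exact
 (brec_all (PrV chk)
 (brec_all (PrV chk)
  (brec_all (PrV chk)
   (brec_all (PrV chk)
    (A0_80_ok i)
    (A0_81_ok i))
   (brec_all (PrV chk)
    (A0_82_ok i)
    (A0_83_ok i)))
  (brec_all (PrV chk)
   (brec_all (PrV chk)
    (A0_84_ok i)
    (A0_85_ok i))
   (brec_all (PrV chk)
    (A0_86_ok i)
    (A0_87_ok i))))
 (brec_all (PrV chk)
  (brec_all (PrV chk)
   (brec_all (PrV chk)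
    (A0_88_ok i)
    (A0_89_ok i))
   (brec_all (PrV chk)
    (A0_90_ok i)
    (A0_91_ok i)))
  (brec_all (PrV chk)
   (brec_all (PrV chk)
    (A0_92_ok i)
    (A0_93_ok i))
   (brec_all (PrV chk)
    (A0_94_ok i)
    (A0_95_ok i)))))

theorem A1_6_ok (i : Nat) : PrV chk (A1_6 i) := by
 unfold A1_6
 exact
 (brec_all (PrV chk)
 (brec_all (PrV chk)
  (brec_all (PrV chk)
   (brec_all (PrV chk)
    (A0_96_ok i)
    (A0_97_ok i))
   (brec_all (PrV chk)
    (A0_98_ok i)
    (A0_99_ok i)))
  (brec_all (PrV chk)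
   (brec_all (PrV chk)
    (A0_100_ok i)
    (A0_101_ok i))
   (brec_all (PrV chk)
    (A0_102_ok i)
    (A0_103_ok i))))
 (brec_all (PrV chk)
  (brec_all (PrV chk)
   (brec_all (PrV chk)
    (A0_104_ok i)
    (A0_105_ok i))
   (brec_all (PrV chk)
    (A0_106_ok i)
    (A0_107_ok i)))
  (brec_all (PrV chk)
   (brec_all (PrV chk)
    (A0_108_ok i)
    (A0_109_ok i))
   (brec_all (PrV chk)
    (A0_110_ok i)
    (A0_111_ok i)))))

theorem A1_7_ok (i : Nat) : PrV chk (A1_7 i) := by
 unfold A1_7
 exact
 (brec_all (PrV chk)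
 (brec_all (PrV chk)
  (brec_all (PrV chk)
   (brec_all (PrV chk)
    (A0_112_ok i)
    (A0_113_ok i))
   (brec_all (PrV chk)
    (A0_114_ok i)
    (A0_115_ok i)))
  (brec_all (PrV chk)
   (brec_all (PrV chk)
    (A0_116_ok i)
    (A0_117_ok i))
   (brec_all (PrV chk)
    (A0_118_ok i)
    (A0_119_ok i))))
 (brec_all (PrV chk)
  (brec_all (PrV chk)
   (brec_all (PrV chk)
    (A0_120_ok i)
    (A0_121_ok i))
   (brec_all (PrV chk)
    (A0_122_ok i)
    (A0_123_ok i)))
  (brec_all (PrV chk)
   (brec_all (PrV chk)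
    (A0_124_ok i)
    (A0_125_ok i))
   (brec_all (PrV chk)
    (A0_126_ok i)
    (A0_127_ok i)))))

theorem A1_8_ok (i : Nat) : PrV chk (A1_8 i) := by
 unfold A1_8
 exact
 (brec_all (PrV chk)
 (brec_all (PrV chk)
  (brec_all (PrV chk)
   (brec_all (PrV chk)
    (A0_128_ok i)
    (A0_129_ok i))
   (brec_all (PrV chk)
    (A0_130_ok i)
    (A0_131_ok i)))
  (brec_all (PrV chk)
   (brec_all (PrV chk)
    (A0_132_ok i)
    (A0_133_ok i))
   (brec_all (PrV chk)
    (A0_134_ok i)
    (A0_135_ok i))))
 (brec_all (PrV chk)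
  (brec_all (PrV chk)
   (brec_all (PrV chk)
    (A0_136_ok i)
    (A0_137_ok i))
   (brec_all (PrV chk)
    (A0_138_ok i)
    (A0_139_ok i)))
  (brec_all (PrV chk)
   (brec_all (PrV chk)
    (A0_140_ok i)
    (A0_141_ok i))
   (brec_all (PrV chk)
    (A0_142_ok i)
    (A0_143_ok i)))))

theorem A1_9_ok (i : Nat) : PrV chk (A1_9 i) := by
 unfold A1_9
 exact
 (brec_all (PrV chk)
 (brec_all (PrV chk)
  (brec_all (PrV chk)
   (brec_all (PrV chk)
    (A0_144_ok i)
    (A0_145_ok i))
   (brec_all (PrV chk)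
    (A0_146_ok i)
    (A0_147_ok i)))
  (brec_all (PrV chk)
   (brec_all (PrV chk)
    (A0_148_ok i)
    (A0_149_ok i))
   (brec_all (PrV chk)
    (A0_150_ok i)
    (A0_151_ok i))))
 (brec_all (PrV chk)
  (brec_all (PrV chk)
   (brec_all (PrV chk)
    (A0_152_ok i)
    (A0_153_ok i))
   (brec_all (PrV chk)
    (A0_154_ok i)
    (A0_155_ok i)))
  (brec_all (PrV chk)
   (brec_all (PrV chk)
    (A0_156_ok i)
    (A0_157_ok i))
   (brec_all (PrV chk)
    (A0_158_ok i)
    (A0_159_ok i)))))

theorem A1_10_ok (i : Nat) : PrV chk (A1_10 i) := by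
 unfold A1_10
 exact
 (brec_all (PrV chk)
 (brec_all (PrV chk)
  (brec_all (PrV chk)
   (brec_all (PrV chk)
    (A0_160_ok i)
    (A0_161_ok i))
   (brec_all (PrV chk)
    (A0_162_ok i)
    (A0_163_ok i)))
  (brec_all (PrV chk)
   (brec_all (PrV chk)
    (A0_164_ok i)
    (A0_165_ok i))
   (brec_all (PrV chk)
    (A0_166_ok i)
    (A0_167_ok i))))
 (brec_all (PrV chk)
  (brec_all (PrV chk)
   (brec_all (PrV chk)
    (A0_168_ok i)
    (A0_169_ok i))
   (brec_all (PrV chk)
    (A0_170_ok i)
    (A0_171_ok i)))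
  (brec_all (PrV chk)
   (brec_all (PrV chk)
    (A0_172_ok i)
    (A0_173_ok i))
   (brec_all (PrV chk)
    (A0_174_ok i)
    (A0_175_ok i)))))

theorem A1_11_ok (i : Nat) : PrV chk (A1_11 i) := by
 unfold A1_11
 exact
 (brec_all (PrV chk)
 (brec_all (PrV chk)
  (brec_all (PrV chk)
   (brec_all (PrV chk)
    (A0_176_ok i)
    (A0_177_ok i))
   (brec_all (PrV chk)
    (A0_178_ok i)
    (A0_179_ok i)))
  (brec_all (PrV chk)
   (brec_all (PrV chk)
    (A0_180_ok i)
    (A0_181_ok i))
   (brec_all (PrV chk)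
    (A0_182_ok i)
    (A0_183_ok i))))
 (brec_all (PrV chk)
  (brec_all (PrV chk)
   (brec_all (PrV chk)
    (A0_184_ok i)
    (A0_185_ok i))
   (brec_all (PrV chk)
    (A0_186_ok i)
    (A0_187_ok i)))
  (brec_all (PrV chk)
   (brec_all (PrV chk)
    (A0_188_ok i)
    (A0_189_ok i))
   (brec_all (PrV chk)
    (A0_190_ok i)
    (A0_191_ok i)))))

theorem A1_12_ok (i : Nat) : PrV chk (A1_12 i) := by
 unfold A1_12
 exact
 (brec_all (PrV chk)
 (brec_all (PrV chk)
  (brec_all (PrV chk)
   (brec_all (PrV chk)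
    (A0_192_ok i)
    (A0_193_ok i))
   (brec_all (PrV chk)
    (A0_194_ok i)
    (A0_195_ok i)))
  (brec_all (PrV chk)
   (brec_all (PrV chk)
    (A0_196_ok i)
    (A0_197_ok i))
   (brec_all (PrV chk)
    (A0_198_ok i)
    (A0_199_ok i))))
 (brec_all (PrV chk)
  (brec_all (PrV chk)
   (brec_all (PrV chk)
    (A0_200_ok i)
    (A0_201_ok i))
   (brec_all (PrV chk)
    (A0_202_ok i)
    (A0_203_ok i)))
  (brec_all (PrV chk)
   (brec_all (PrV chk)
    (A0_204_ok i)
    (A0_205_ok i))
   (brec_all (PrV chk)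
    (A0_206_ok i)
    (A0_207_ok i)))))

theorem A1_13_ok (i : Nat) : PrV chk (A1_13 i) := by
 unfold A1_13
 exact
 (brec_all (PrV chk)
 (brec_all (PrV chk)
  (brec_all (PrV chk)
   (brec_all (PrV chk)
    (A0_208_ok i)
    (A0_209_ok i))
   (brec_all (PrV chk)
    (A0_210_ok i)
    (A0_211_ok i)))
  (brec_all (PrV chk)
   (brec_all (PrV chk)
    (A0_212_ok i)
    (A0_213_ok i))
   (brec_all (PrV chk)
    (A0_214_ok i)
    (A0_215_ok i))))
 (brec_all (PrV chk)
  (brec_all (PrV chk)
   (brec_all (PrV chk)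
    (A0_216_ok i)
    (A0_217_ok i))
   (brec_all (PrV chk)
    (A0_218_ok i)
    (A0_219_ok i)))
  (brec_all (PrV chk)
   (brec_all (PrV chk)
    (A0_220_ok i)
    (A0_221_ok i))
   (brec_all (PrV chk)
    (A0_222_ok i)
    (A0_223_ok i)))))

theorem A1_14_ok (i : Nat) : PrV chk (A1_14 i) := by
 unfold A1_14
 exact
 (brec_all (PrV chk)
 (brec_all (PrV chk)
  (brec_all (PrV chk)
   (brec_all (PrV chk)
    (A0_224_ok i)
    (A0_225_ok i))
   (brec_all (PrV chk)
    (A0_226_ok i)
    (A0_227_ok i)))
  (brec_all (PrV chk)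
   (brec_all (PrV chk)
    (A0_228_ok i)
    (A0_229_ok i))
   (brec_all (PrV chk)
    (A0_230_ok i)
    (A0_231_ok i))))
 (brec_all (PrV chk)
  (brec_all (PrV chk)
   (brec_all (PrV chk)
    (A0_232_ok i)
    (A0_233_ok i))
   (brec_all (PrV chk)
    (A0_234_ok i)
    (A0_235_ok i)))
  (brec_all (PrV chk)
   (brec_all (PrV chk)
    (A0_236_ok i)
    (A0_237_ok i))
   (brec_all (PrV chk)
    (A0_238_ok i)
    (A0_239_ok i)))))

theorem A1_15_ok (i : Nat) : PrV chk (A1_15 i) := by
 unfold A1_15
 exact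
 (brec_all (PrV chk)
 (brec_all (PrV chk)
  (brec_all (PrV chk)
   (brec_all (PrV chk)
    (A0_240_ok i)
    (A0_241_ok i))
   (brec_all (PrV chk)
    (A0_242_ok i)
    (A0_243_ok i)))
  (brec_all (PrV chk)
   (brec_all (PrV chk)
    (A0_244_ok i)
    (A0_245_ok i))
   (brec_all (PrV chk)
    (A0_246_ok i)
    (A0_247_ok i))))
 (brec_all (PrV chk)
  (brec_all (PrV chk)
   (brec_all (PrV chk)
    (A0_248_ok i)
    (A0_249_ok i))
   (brec_all (PrV chk)
    (A0_250_ok i)
    (A0_251_ok i)))
  (brec_all (PrV chk)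
   (brec_all (PrV chk)
    (A0_252_ok i)
    (A0_253_ok i))
   (brec_all (PrV chk)
    (A0_254_ok i)
    (A0_255_ok i)))))

theorem A1_16_ok (i : Nat) : PrV chk (A1_16 i) := by
 unfold A1_16
 exact
 (brec_all (PrV chk)
 (brec_all (PrV chk)
  (brec_all (PrV chk)
   (brec_all (PrV chk)
    (A0_256_ok i)
    (A0_257_ok i))
   (brec_all (PrV chk)
    (A0_258_ok i)
    (A0_259_ok i)))
  (brec_all (PrV chk)
   (brec_all (PrV chk)
    (A0_260_ok i)
    (A0_261_ok i))
   (brec_all (PrV chk)
    (A0_262_ok i)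
    (A0_263_ok i))))
 (brec_all (PrV chk)
  (brec_all (PrV chk)
   (brec_all (PrV chk)
    (A0_264_ok i)
    (A0_265_ok i))
   (brec_all (PrV chk)
    (A0_266_ok i)
    (A0_267_ok i)))
  (brec_all (PrV chk)
   (brec_all (PrV chk)
    (A0_268_ok i)
    (A0_269_ok i))
   (brec_all (PrV chk)
    (A0_270_ok i)
    (A0_271_ok i)))))

theorem A1_17_ok (i : Nat) : PrV chk (A1_17 i) := by
 unfold A1_17
 exact
 (brec_all (PrV chk)
 (brec_all (PrV chk)
  (brec_all (PrV chk)
   (brec_all (PrV chk)
    (A0_272_ok i)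
    (A0_273_ok i))
   (brec_all (PrV chk)
    (A0_274_ok i)
    (A0_275_ok i)))
  (brec_all (PrV chk)
   (brec_all (PrV chk)
    (A0_276_ok i)
    (A0_277_ok i))
   (brec_all (PrV chk)
    (A0_278_ok i)
    (A0_279_ok i))))
 (brec_all (PrV chk)
  (brec_all (PrV chk)
   (brec_all (PrV chk)
    (A0_280_ok i)
    (A0_281_ok i))
   (brec_all (PrV chk)
    (A0_282_ok i)
    (A0_283_ok i)))
  (brec_all (PrV chk)
   (brec_all (PrV chk)
    (A0_284_ok i)
    (A0_285_ok i))
   (brec_all (PrV chk)
    (A0_286_ok i)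
    (A0_287_ok i)))))

theorem A1_18_ok (i : Nat) : PrV chk (A1_18 i) := by
 unfold A1_18
 exact
 (brec_all (PrV chk)
 (brec_all (PrV chk)
  (brec_all (PrV chk)
   (brec_all (PrV chk)
    (A0_288_ok i)
    (A0_289_ok i))
   (brec_all (PrV chk)
    (A0_290_ok i)
    (A0_291_ok i)))
  (brec_all (PrV chk)
   (brec_all (PrV chk)
    (A0_292_ok i)
    (A0_293_ok i))
   (brec_all (PrV chk)
    (A0_294_ok i)
    (A0_295_ok i))))
 (brec_all (PrV chk)
  (brec_all (PrV chk)
   (brec_all (PrV chk)
    (A0_296_ok i)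
    (A0_297_ok i))
   (brec_all (PrV chk)
    (A0_298_ok i)
    (A0_299_ok i)))
  (brec_all (PrV chk)
   (brec_all (PrV chk)
    (A0_300_ok i)
    (A0_301_ok i))
   (brec_all (PrV chk)
    (A0_302_ok i)
    (A0_303_ok i)))))

theorem A1_19_ok (i : Nat) : PrV chk (A1_19 i) := by
 unfold A1_19
 exact
 (brec_all (PrV chk)
 (brec_all (PrV chk)
  (brec_all (PrV chk)
   (brec_all (PrV chk)
    (A0_304_ok i)
    (A0_305_ok i))
   (brec_all (PrV chk)
    (A0_306_ok i)
    (A0_307_ok i)))
  (brec_all (PrV chk)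
   (brec_all (PrV chk)
    (A0_308_ok i)
    (A0_309_ok i))
   (brec_all (PrV chk)
    (A0_310_ok i)
    (A0_311_ok i))))
 (brec_all (PrV chk)
  (brec_all (PrV chk)
   (brec_all (PrV chk)
    (A0_312_ok i)
    (A0_313_ok i))
   (brec_all (PrV chk)
    (A0_314_ok i)
    (A0_315_ok i)))
  (brec_all (PrV chk)
   (brec_all (PrV chk)
    (A0_316_ok i)
    (A0_317_ok i))
   (brec_all (PrV chk)
    (A0_318_ok i)
    (A0_319_ok i)))))

theorem A1_20_ok (i : Nat) : PrV chk (A1_20 i) := by
 unfold A1_20
 exact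
 (brec_all (PrV chk)
 (brec_all (PrV chk)
  (brec_all (PrV chk)
   (brec_all (PrV chk)
    (A0_320_ok i)
    (A0_321_ok i))
   (brec_all (PrV chk)
    (A0_322_ok i)
    (A0_323_ok i)))
  (brec_all (PrV chk)
   (brec_all (PrV chk)
    (A0_324_ok i)
    (A0_325_ok i))
   (brec_all (PrV chk)
    (A0_326_ok i)
    (A0_327_ok i))))
 (brec_all (PrV chk)
  (brec_all (PrV chk)
   (brec_all (PrV chk)
    (A0_328_ok i)
    (A0_329_ok i))
   (brec_all (PrV chk)
    (A0_330_ok i)
    (A0_331_ok i)))
  (brec_all (PrV chk)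
   (brec_all (PrV chk)
    (A0_332_ok i)
    (A0_333_ok i))
   (brec_all (PrV chk)
    (A0_334_ok i)
    (A0_335_ok i)))))

theorem A1_21_ok (i : Nat) : PrV chk (A1_21 i) := by
 unfold A1_21
 exact
 (brec_all (PrV chk)
 (brec_all (PrV chk)
  (brec_all (PrV chk)
   (brec_all (PrV chk)
    (A0_336_ok i)
    (A0_337_ok i))
   (brec_all (PrV chk)
    (A0_338_ok i)
    (A0_339_ok i)))
  (brec_all (PrV chk)
   (brec_all (PrV chk)
    (A0_340_ok i)
    (A0_341_ok i))
   (brec_all (PrV chk)
    (A0_342_ok i)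
    (A0_343_ok i))))
 (brec_all (PrV chk)
  (brec_all (PrV chk)
   (brec_all (PrV chk)
    (A0_344_ok i)
    (A0_345_ok i))
   (brec_all (PrV chk)
    (A0_346_ok i)
    (A0_347_ok i)))
  (brec_all (PrV chk)
   (brec_all (PrV chk)
    (A0_348_ok i)
    (A0_349_ok i))
   (brec_all (PrV chk)
    (A0_350_ok i)
    (A0_351_ok i)))))

theorem A1_22_ok (i : Nat) : PrV chk (A1_22 i) := by
 unfold A1_22
 exact
 (brec_all (PrV chk)
 (brec_all (PrV chk)
  (brec_all (PrV chk)
   (brec_all (PrV chk)
    (A0_352_ok i)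
    (A0_353_ok i))
   (brec_all (PrV chk)
    (A0_354_ok i)
    (A0_355_ok i)))
  (brec_all (PrV chk)
   (brec_all (PrV chk)
    (A0_356_ok i)
    (A0_357_ok i))
   (brec_all (PrV chk)
    (A0_358_ok i)
    (A0_359_ok i))))
 (brec_all (PrV chk)
  (brec_all (PrV chk)
   (brec_all (PrV chk)
    (A0_360_ok i)
    (A0_361_ok i))
   (brec_all (PrV chk)
    (A0_362_ok i)
    (A0_363_ok i)))
  (brec_all (PrV chk)
   (brec_all (PrV chk)
    (A0_364_ok i)
    (A0_365_ok i))
   (brec_all (PrV chk)
    (A0_366_ok i)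
    (A0_367_ok i)))))

theorem A1_23_ok (i : Nat) : PrV chk (A1_23 i) := by
 unfold A1_23
 exact
 (brec_all (PrV chk)
 (brec_all (PrV chk)
  (brec_all (PrV chk)
   (brec_all (PrV chk)
    (A0_368_ok i)
    (A0_369_ok i))
   (brec_all (PrV chk)
    (A0_370_ok i)
    (A0_371_ok i)))
  (brec_all (PrV chk)
   (brec_all (PrV chk)
    (A0_372_ok i)
    (A0_373_ok i))
   (brec_all (PrV chk)
    (A0_374_ok i)
    (A0_375_ok i))))
 (brec_all (PrV chk)
  (brec_all (PrV chk)
   (brec_all (PrV chk)
    (A0_376_ok i)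
    (A0_377_ok i))
   (brec_all (PrV chk)
    (A0_378_ok i)
    (A0_379_ok i)))
  (brec_all (PrV chk)
   (brec_all (PrV chk)
    (A0_380_ok i)
    (A0_381_ok i))
   (brec_all (PrV chk)
    (A0_382_ok i)
    (A0_383_ok i)))))

theorem A1_24_ok (i : Nat) : PrV chk (A1_24 i) := by
 unfold A1_24
 exact
 (brec_all (PrV chk)
 (brec_all (PrV chk)
  (brec_all (PrV chk)
   (brec_all (PrV chk)
    (A0_384_ok i)
    (A0_385_ok i))
   (brec_all (PrV chk)
    (A0_386_ok i)
    (A0_387_ok i)))
  (brec_all (PrV chk)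
   (brec_all (PrV chk)
    (A0_388_ok i)
    (A0_389_ok i))
   (brec_all (PrV chk)
    (A0_390_ok i)
    (A0_391_ok i))))
 (brec_all (PrV chk)
  (brec_all (PrV chk)
   (brec_all (PrV chk)
    (A0_392_ok i)
    (A0_393_ok i))
   (brec_all (PrV chk)
    (A0_394_ok i)
    (A0_395_ok i)))
  (brec_all (PrV chk)
   (brec_all (PrV chk)
    (A0_396_ok i)
    (A0_397_ok i))
   (brec_all (PrV chk)
    (A0_398_ok i)
    (A0_399_ok i)))))

theorem A1_25_ok (i : Nat) : PrV chk (A1_25 i) := by
 unfold A1_25
 exact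
 (brec_all (PrV chk)
 (brec_all (PrV chk)
  (brec_all (PrV chk)
   (brec_all (PrV chk)
    (A0_400_ok i)
    (A0_401_ok i))
   (brec_all (PrV chk)
    (A0_402_ok i)
    (A0_403_ok i)))
  (brec_all (PrV chk)
   (brec_all (PrV chk)
    (A0_404_ok i)
    (A0_405_ok i))
   (brec_all (PrV chk)
    (A0_406_ok i)
    (A0_407_ok i))))
 (brec_all (PrV chk)
  (brec_all (PrV chk)
   (brec_all (PrV chk)
    (A0_408_ok i)
    (A0_409_ok i))
   (brec_all (PrV chk)
    (A0_410_ok i)
    (A0_411_ok i)))
  (brec_all (PrV chk)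
   (brec_all (PrV chk)
    (A0_412_ok i)
    (A0_413_ok i))
   (brec_all (PrV chk)
    (A0_414_ok i)
    (A0_415_ok i)))))

theorem A1_26_ok (i : Nat) : PrV chk (A1_26 i) := by
 unfold A1_26
 exact
 (brec_all (PrV chk)
 (brec_all (PrV chk)
  (brec_all (PrV chk)
   (brec_all (PrV chk)
    (A0_416_ok i)
    (A0_417_ok i))
   (brec_all (PrV chk)
    (A0_418_ok i)
    (A0_419_ok i)))
  (brec_all (PrV chk)
   (brec_all (PrV chk)
    (A0_420_ok i)
    (A0_421_ok i))
   (brec_all (PrV chk)
    (A0_422_ok i)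
    (A0_423_ok i))))
 (brec_all (PrV chk)
  (brec_all (PrV chk)
   (brec_all (PrV chk)
    (A0_424_ok i)
    (A0_425_ok i))
   (brec_all (PrV chk)
    (A0_426_ok i)
    (A0_427_ok i)))
  (brec_all (PrV chk)
   (brec_all (PrV chk)
    (A0_428_ok i)
    (A0_429_ok i))
   (brec_all (PrV chk)
    (A0_430_ok i)
    (A0_431_ok i)))))

theorem A1_27_ok (i : Nat) : PrV chk (A1_27 i) := by
 unfold A1_27
 exact
 (brec_all (PrV chk)
 (brec_all (PrV chk)
  (brec_all (PrV chk)
   (brec_all (PrV chk)
    (A0_432_ok i)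
    (A0_433_ok i))
   (brec_all (PrV chk)
    (A0_434_ok i)
    (A0_435_ok i)))
  (brec_all (PrV chk)
   (brec_all (PrV chk)
    (A0_436_ok i)
    (A0_437_ok i))
   (brec_all (PrV chk)
    (A0_438_ok i)
    (A0_439_ok i))))
 (brec_all (PrV chk)
  (brec_all (PrV chk)
   (brec_all (PrV chk)
    (A0_440_ok i)
    (A0_441_ok i))
   (brec_all (PrV chk)
    (A0_442_ok i)
    (A0_443_ok i)))
  (brec_all (PrV chk)
   (brec_all (PrV chk)
    (A0_444_ok i)
    (A0_445_ok i))
   (brec_all (PrV chk)
    (A0_446_ok i)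
    (A0_447_ok i)))))

theorem A1_28_ok (i : Nat) : PrV chk (A1_28 i) := by
 unfold A1_28
 exact
 (A0_448_ok i)

theorem A2_0_ok (i : Nat) : PrV chk (A2_0 i) := by
 unfold A2_0
 exact
 (brec_all (PrV chk)
 (brec_all (PrV chk)
  (brec_all (PrV chk)
   (brec_all (PrV chk)
    (A1_0_ok i)
    (A1_1_ok i))
   (brec_all (PrV chk)
    (A1_2_ok i)
    (A1_3_ok i)))
  (brec_all (PrV chk)
   (brec_all (PrV chk)
    (A1_4_ok i)
    (A1_5_ok i))
   (brec_all (PrV chk)
    (A1_6_ok i)
    (A1_7_ok i))))
 (brec_all (PrV chk)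
  (brec_all (PrV chk)
   (brec_all (PrV chk)
    (A1_8_ok i)
    (A1_9_ok i))
   (brec_all (PrV chk)
    (A1_10_ok i)
    (A1_11_ok i)))
  (brec_all (PrV chk)
   (brec_all (PrV chk)
    (A1_12_ok i)
    (A1_13_ok i))
   (brec_all (PrV chk)
    (A1_14_ok i)
    (A1_15_ok i)))))

theorem A2_1_ok (i : Nat) : PrV chk (A2_1 i) := by
 unfold A2_1
 exact
 (brec_all (PrV chk)
 (brec_all (PrV chk)
  (brec_all (PrV chk)
   (brec_all (PrV chk)
    (A1_16_ok i)
    (A1_17_ok i))
   (brec_all (PrV chk)
    (A1_18_ok i)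
    (A1_19_ok i)))
  (brec_all (PrV chk)
   (brec_all (PrV chk)
    (A1_20_ok i)
    (A1_21_ok i))
   (A1_22_ok i)))
 (brec_all (PrV chk)
  (brec_all (PrV chk)
   (brec_all (PrV chk)
    (A1_23_ok i)
    (A1_24_ok i))
   (A1_25_ok i))
  (brec_all (PrV chk)
   (brec_all (PrV chk)
    (A1_26_ok i)
    (A1_27_ok i))
   (A1_28_ok i))))

theorem leaf_ok (i : Nat) : PrV chk (leaf i) := by
 unfold leaf
 exact
 (brec_all (PrV chk)
 (A2_0_ok i)
 (A2_1_ok i))

theorem all_ok (i : Nat) : chkX 23 10 106090000000 104040000000 2956953412680 4410000000 4000000000 118210587600 g (g i) = true := leaf_ok i i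

theorem start_ok : uD (g 0) = 0 ∧ fhx (g 0) = 0 ∧ flx (g 0) = 0 ∧ fnx (g 0) = 2 ∧
    fhy (g 0) = 0 ∧ fly (g 0) = 0 ∧ fny (g 0) = 2 := by decide +kernel

end Pool.Agent.ad013a.W
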