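import Pool.Agent.H.MP_ad013a_pr.h63w.A.T
import Pool.Agent.H.MP_ad013a_pr.h63w.VLoop

namespace Pool.Agent.ad013a.W

theorem c0 : lp7 (fun s => chk (uent L0 s)) 0 = true := by decide +kernel
theorem p0 : PrV chk L0 := leafV c0

theorem c1 : lp7 (fun s => chk (uent L1 s)) 0 = true := by decide +kernel
theorem p1 : PrV chk L1 := leafV c1

theorem c2 : lp7 (fun s => chk (uent L2 s)) 0 = true := by decide +kernel
theorem p2 : PrV chk L2 := leafV c2

theorem c3 : lp7 (fun s => chk (uent L3 s)) 0 = true := by decide +kernel
theorem p3 : PrV chk L3 := leafV c3

theorem c4 : lp7 (fun s => chk (uent L4 s)) 0 = true := by decide +kernel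
theorem p4 : PrV chk L4 := leafV c4

theorem c5 : lp7 (fun s => chk (uent L5 s)) 0 = true := by decide +kernel
theorem p5 : PrV chk L5 := leafV c5

theorem c6 : lp7 (fun s => chk (uent L6 s)) 0 = true := by decide +kernel
theorem p6 : PrV chk L6 := leafV c6

theorem c7 : lp7 (fun s => chk (uent L7 s)) 0 = true := by decide +kernel
theorem p7 : PrV chk L7 := leafV c7

theorem c8 : lp7 (fun s => chk (uent L8 s)) 0 = true := by decide +kernel
theorem p8 : PrV chk L8 := leafV c8

theorem c9 : lp7 (fun s => chk (uent L9 s)) 0 = true := by decide +kernel
theorem p9 : PrV chk L9 := leafV c9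

theorem c10 : lp7 (fun s => chk (uent L10 s)) 0 = true := by decide +kernel
theorem p10 : PrV chk L10 := leafV c10

theorem c11 : lp7 (fun s => chk (uent L11 s)) 0 = true := by decide +kernel
theorem p11 : PrV chk L11 := leafV c11

theorem c12 : lp7 (fun s => chk (uent L12 s)) 0 = true := by decide +kernel
theorem p12 : PrV chk L12 := leafV c12

theorem c13 : lp7 (fun s => chk (uent L13 s)) 0 = true := by decide +kernel
theorem p13 : PrV chk L13 := leafV c13

theorem c14 : lp7 (fun s => chk (uent L14 s)) 0 = true := by decide +kernel
theorem p14 : PrV chk L14 := leafV c14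

theorem c15 : lp7 (fun s => chk (uent L15 s)) 0 = true := by decide +kernel
theorem p15 : PrV chk L15 := leafV c15

theorem c16 : lp7 (fun s => chk (uent L16 s)) 0 = true := by decide +kernel
theorem p16 : PrV chk L16 := leafV c16

theorem c17 : lp7 (fun s => chk (uent L17 s)) 0 = true := by decide +kernel
theorem p17 : PrV chk L17 := leafV c17

theorem c18 : lp7 (fun s => chk (uent L18 s)) 0 = true := by decide +kernel
theorem p18 : PrV chk L18 := leafV c18

theorem c19 : lp7 (fun s => chk (uent L19 s)) 0 = true := by decide +kernel
theorem p19 : PrV chk L19 := leafV c19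

theorem c20 : lp7 (fun s => chk (uent L20 s)) 0 = true := by decide +kernel
theorem p20 : PrV chk L20 := leafV c20

theorem c21 : lp7 (fun s => chk (uent L21 s)) 0 = true := by decide +kernel
theorem p21 : PrV chk L21 := leafV c21

theorem c22 : lp7 (fun s => chk (uent L22 s)) 0 = true := by decide +kernel
theorem p22 : PrV chk L22 := leafV c22

theorem c23 : lp7 (fun s => chk (uent L23 s)) 0 = true := by decide +kernel
theorem p23 : PrV chk L23 := leafV c23

theorem c24 : lp7 (fun s => chk (uent L24 s)) 0 = true := by decide +kernel
theorem p24 : PrV chk L24 := leafV c24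

theorem c25 : lp7 (fun s => chk (uent L25 s)) 0 = true := by decide +kernel
theorem p25 : PrV chk L25 := leafV c25

theorem c26 : lp7 (fun s => chk (uent L26 s)) 0 = true := by decide +kernel
theorem p26 : PrV chk L26 := leafV c26

theorem c27 : lp7 (fun s => chk (uent L27 s)) 0 = true := by decide +kernel
theorem p27 : PrV chk L27 := leafV c27

theorem c28 : lp7 (fun s => chk (uent L28 s)) 0 = true := by decide +kernel
theorem p28 : PrV chk L28 := leafV c28

theorem c29 : lp7 (fun s => chk (uent L29 s)) 0 = true := by decide +kernel
theorem p29 : PrV chk L29 := leafV c29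

theorem c30 : lp7 (fun s => chk (uent L30 s)) 0 = true := by decide +kernel
theorem p30 : PrV chk L30 := leafV c30

theorem c31 : lp7 (fun s => chk (uent L31 s)) 0 = true := by decide +kernel
theorem p31 : PrV chk L31 := leafV c31

theorem c32 : lp7 (fun s => chk (uent L32 s)) 0 = true := by decide +kernel
theorem p32 : PrV chk L32 := leafV c32

theorem c33 : lp7 (fun s => chk (uent L33 s)) 0 = true := by decide +kernel
theorem p33 : PrV chk L33 := leafV c33

theorem c34 : lp7 (fun s => chk (uent L34 s)) 0 = true := by decide +kernel
theorem p34 : PrV chk L34 := leafV c34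

theorem c35 : lp7 (fun s => chk (uent L35 s)) 0 = true := by decide +kernel
theorem p35 : PrV chk L35 := leafV c35

theorem c36 : lp7 (fun s => chk (uent L36 s)) 0 = true := by decide +kernel
theorem p36 : PrV chk L36 := leafV c36

theorem c37 : lp7 (fun s => chk (uent L37 s)) 0 = true := by decide +kernel
theorem p37 : PrV chk L37 := leafV c37

theorem c38 : lp7 (fun s => chk (uent L38 s)) 0 = true := by decide +kernel
theorem p38 : PrV chk L38 := leafV c38

theorem c39 : lp7 (fun s => chk (uent L39 s)) 0 = true := by decide +kernel
theorem p39 : PrV chk L39 := leafV c39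

theorem c40 : lp7 (fun s => chk (uent L40 s)) 0 = true := by decide +kernel
theorem p40 : PrV chk L40 := leafV c40

theorem c41 : lp7 (fun s => chk (uent L41 s)) 0 = true := by decide +kernel
theorem p41 : PrV chk L41 := leafV c41

theorem c42 : lp7 (fun s => chk (uent L42 s)) 0 = true := by decide +kernel
theorem p42 : PrV chk L42 := leafV c42

theorem c43 : lp7 (fun s => chk (uent L43 s)) 0 = true := by decide +kernel
theorem p43 : PrV chk L43 := leafV c43

theorem c44 : lp7 (fun s => chk (uent L44 s)) 0 = true := by decide +kernel
theorem p44 : PrV chk L44 := leafV c44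

theorem c45 : lp7 (fun s => chk (uent L45 s)) 0 = true := by decide +kernel
theorem p45 : PrV chk L45 := leafV c45

theorem c46 : lp7 (fun s => chk (uent L46 s)) 0 = true := by decide +kernel
theorem p46 : PrV chk L46 := leafV c46

theorem c47 : lp7 (fun s => chk (uent L47 s)) 0 = true := by decide +kernel
theorem p47 : PrV chk L47 := leafV c47

theorem c48 : lp7 (fun s => chk (uent L48 s)) 0 = true := by decide +kernel
theorem p48 : PrV chk L48 := leafV c48

theorem c49 : lp7 (fun s => chk (uent L49 s)) 0 = true := by decide +kernel
theorem p49 : PrV chk L49 := leafV c49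

theorem c50 : lp7 (fun s => chk (uent L50 s)) 0 = true := by decide +kernel
theorem p50 : PrV chk L50 := leafV c50

theorem c51 : lp7 (fun s => chk (uent L51 s)) 0 = true := by decide +kernel
theorem p51 : PrV chk L51 := leafV c51

theorem c52 : lp7 (fun s => chk (uent L52 s)) 0 = true := by decide +kernel
theorem p52 : PrV chk L52 := leafV c52

theorem c53 : lp7 (fun s => chk (uent L53 s)) 0 = true := by decide +kernel
theorem p53 : PrV chk L53 := leafV c53

theorem c54 : lp7 (fun s => chk (uent L54 s)) 0 = true := by decide +kernel
theorem p54 : PrV chk L54 := leafV c54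

theorem c55 : lp7 (fun s => chk (uent L55 s)) 0 = true := by decide +kernel
theorem p55 : PrV chk L55 := leafV c55

theorem c56 : lp7 (fun s => chk (uent L56 s)) 0 = true := by decide +kernel
theorem p56 : PrV chk L56 := leafV c56

theorem c57 : lp7 (fun s => chk (uent L57 s)) 0 = true := by decide +kernel
theorem p57 : PrV chk L57 := leafV c57

theorem c58 : lp7 (fun s => chk (uent L58 s)) 0 = true := by decide +kernel
theorem p58 : PrV chk L58 := leafV c58

theorem c59 : lp7 (fun s => chk (uent L59 s)) 0 = true := by decide +kernel
theorem p59 : PrV chk L59 := leafV c59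

theorem c60 : lp7 (fun s => chk (uent L60 s)) 0 = true := by decide +kernel
theorem p60 : PrV chk L60 := leafV c60

theorem c61 : lp7 (fun s => chk (uent L61 s)) 0 = true := by decide +kernel
theorem p61 : PrV chk L61 := leafV c61

theorem c62 : lp7 (fun s => chk (uent L62 s)) 0 = true := by decide +kernel
theorem p62 : PrV chk L62 := leafV c62

theorem c63 : lp7 (fun s => chk (uent L63 s)) 0 = true := by decide +kernel
theorem p63 : PrV chk L63 := leafV c63

theorem c64 : lp7 (fun s => chk (uent L64 s)) 0 = true := by decide +kernel
theorem p64 : PrV chk L64 := leafV c64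

theorem c65 : lp7 (fun s => chk (uent L65 s)) 0 = true := by decide +kernel
theorem p65 : PrV chk L65 := leafV c65

theorem c66 : lp7 (fun s => chk (uent L66 s)) 0 = true := by decide +kernel
theorem p66 : PrV chk L66 := leafV c66

theorem c67 : lp7 (fun s => chk (uent L67 s)) 0 = true := by decide +kernel
theorem p67 : PrV chk L67 := leafV c67

theorem c68 : lp7 (fun s => chk (uent L68 s)) 0 = true := by decide +kernel
theorem p68 : PrV chk L68 := leafV c68

theorem c69 : lp7 (fun s => chk (uent L69 s)) 0 = true := by decide +kernel
theorem p69 : PrV chk L69 := leafV c69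

theorem c70 : lp7 (fun s => chk (uent L70 s)) 0 = true := by decide +kernel
theorem p70 : PrV chk L70 := leafV c70

theorem c71 : lp7 (fun s => chk (uent L71 s)) 0 = true := by decide +kernel
theorem p71 : PrV chk L71 := leafV c71

theorem c72 : lp7 (fun s => chk (uent L72 s)) 0 = true := by decide +kernel
theorem p72 : PrV chk L72 := leafV c72

theorem c73 : lp7 (fun s => chk (uent L73 s)) 0 = true := by decide +kernel
theorem p73 : PrV chk L73 := leafV c73

theorem c74 : lp7 (fun s => chk (uent L74 s)) 0 = true := by decide +kernel
theorem p74 : PrV chk L74 := leafV c74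

theorem c75 : lp7 (fun s => chk (uent L75 s)) 0 = true := by decide +kernel
theorem p75 : PrV chk L75 := leafV c75

theorem c76 : lp7 (fun s => chk (uent L76 s)) 0 = true := by decide +kernel
theorem p76 : PrV chk L76 := leafV c76

theorem c77 : lp7 (fun s => chk (uent L77 s)) 0 = true := by decide +kernel
theorem p77 : PrV chk L77 := leafV c77

theorem c78 : lp7 (fun s => chk (uent L78 s)) 0 = true := by decide +kernel
theorem p78 : PrV chk L78 := leafV c78

theorem c79 : lp7 (fun s => chk (uent L79 s)) 0 = true := by decide +kernel
theorem p79 : PrV chk L79 := leafV c79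

theorem c80 : lp7 (fun s => chk (uent L80 s)) 0 = true := by decide +kernel
theorem p80 : PrV chk L80 := leafV c80

theorem c81 : lp7 (fun s => chk (uent L81 s)) 0 = true := by decide +kernel
theorem p81 : PrV chk L81 := leafV c81

theorem c82 : lp7 (fun s => chk (uent L82 s)) 0 = true := by decide +kernel
theorem p82 : PrV chk L82 := leafV c82

theorem c83 : lp7 (fun s => chk (uent L83 s)) 0 = true := by decide +kernel
theorem p83 : PrV chk L83 := leafV c83

theorem c84 : lp7 (fun s => chk (uent L84 s)) 0 = true := by decide +kernel
theorem p84 : PrV chk L84 := leafV c84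

theorem c85 : lp7 (fun s => chk (uent L85 s)) 0 = true := by decide +kernel
theorem p85 : PrV chk L85 := leafV c85

theorem c86 : lp7 (fun s => chk (uent L86 s)) 0 = true := by decide +kernel
theorem p86 : PrV chk L86 := leafV c86

theorem c87 : lp7 (fun s => chk (uent L87 s)) 0 = true := by decide +kernel
theorem p87 : PrV chk L87 := leafV c87

theorem c88 : lp7 (fun s => chk (uent L88 s)) 0 = true := by decide +kernel
theorem p88 : PrV chk L88 := leafV c88

theorem c89 : lp7 (fun s => chk (uent L89 s)) 0 = true := by decide +kernel
theorem p89 : PrV chk L89 := leafV c89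

theorem c90 : lp7 (fun s => chk (uent L90 s)) 0 = true := by decide +kernel
theorem p90 : PrV chk L90 := leafV c90

theorem c91 : lp7 (fun s => chk (uent L91 s)) 0 = true := by decide +kernel
theorem p91 : PrV chk L91 := leafV c91

theorem c92 : lp7 (fun s => chk (uent L92 s)) 0 = true := by decide +kernel
theorem p92 : PrV chk L92 := leafV c92

theorem c93 : lp7 (fun s => chk (uent L93 s)) 0 = true := by decide +kernel
theorem p93 : PrV chk L93 := leafV c93

theorem c94 : lp7 (fun s => chk (uent L94 s)) 0 = true := by decide +kernel
theorem p94 : PrV chk L94 := leafV c94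

theorem c95 : lp7 (fun s => chk (uent L95 s)) 0 = true := by decide +kernel
theorem p95 : PrV chk L95 := leafV c95

theorem c96 : lp7 (fun s => chk (uent L96 s)) 0 = true := by decide +kernel
theorem p96 : PrV chk L96 := leafV c96

theorem c97 : lp7 (fun s => chk (uent L97 s)) 0 = true := by decide +kernel
theorem p97 : PrV chk L97 := leafV c97

theorem c98 : lp7 (fun s => chk (uent L98 s)) 0 = true := by decide +kernel
theorem p98 : PrV chk L98 := leafV c98

theorem c99 : lp7 (fun s => chk (uent L99 s)) 0 = true := by decide +kernel
theorem p99 : PrV chk L99 := leafV c99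

theorem c100 : lp7 (fun s => chk (uent L100 s)) 0 = true := by decide +kernel
theorem p100 : PrV chk L100 := leafV c100

theorem c101 : lp7 (fun s => chk (uent L101 s)) 0 = true := by decide +kernel
theorem p101 : PrV chk L101 := leafV c101

theorem c102 : lp7 (fun s => chk (uent L102 s)) 0 = true := by decide +kernel
theorem p102 : PrV chk L102 := leafV c102

theorem c103 : lp7 (fun s => chk (uent L103 s)) 0 = true := by decide +kernel
theorem p103 : PrV chk L103 := leafV c103

theorem c104 : lp7 (fun s => chk (uent L104 s)) 0 = true := by decide +kernel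
theorem p104 : PrV chk L104 := leafV c104

theorem c105 : lp7 (fun s => chk (uent L105 s)) 0 = true := by decide +kernel
theorem p105 : PrV chk L105 := leafV c105

theorem c106 : lp7 (fun s => chk (uent L106 s)) 0 = true := by decide +kernel
theorem p106 : PrV chk L106 := leafV c106

theorem c107 : lp7 (fun s => chk (uent L107 s)) 0 = true := by decide +kernel
theorem p107 : PrV chk L107 := leafV c107

theorem c108 : lp7 (fun s => chk (uent L108 s)) 0 = true := by decide +kernel
theorem p108 : PrV chk L108 := leafV c108

theorem c109 : lp7 (fun s => chk (uent L109 s)) 0 = true := by decide +kernel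
theorem p109 : PrV chk L109 := leafV c109

theorem c110 : lp7 (fun s => chk (uent L110 s)) 0 = true := by decide +kernel
theorem p110 : PrV chk L110 := leafV c110

theorem c111 : lp7 (fun s => chk (uent L111 s)) 0 = true := by decide +kernel
theorem p111 : PrV chk L111 := leafV c111

theorem c112 : lp7 (fun s => chk (uent L112 s)) 0 = true := by decide +kernel
theorem p112 : PrV chk L112 := leafV c112

theorem c113 : lp7 (fun s => chk (uent L113 s)) 0 = true := by decide +kernel
theorem p113 : PrV chk L113 := leafV c113

theorem c114 : lp7 (fun s => chk (uent L114 s)) 0 = true := by decide +kernel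
theorem p114 : PrV chk L114 := leafV c114

theorem c115 : lp7 (fun s => chk (uent L115 s)) 0 = true := by decide +kernel
theorem p115 : PrV chk L115 := leafV c115

theorem c116 : lp7 (fun s => chk (uent L116 s)) 0 = true := by decide +kernel
theorem p116 : PrV chk L116 := leafV c116

theorem c117 : lp7 (fun s => chk (uent L117 s)) 0 = true := by decide +kernel
theorem p117 : PrV chk L117 := leafV c117

theorem c118 : lp7 (fun s => chk (uent L118 s)) 0 = true := by decide +kernel
theorem p118 : PrV chk L118 := leafV c118

theorem c119 : lp7 (fun s => chk (uent L119 s)) 0 = true := by decide +kernel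
theorem p119 : PrV chk L119 := leafV c119

theorem c120 : lp7 (fun s => chk (uent L120 s)) 0 = true := by decide +kernel
theorem p120 : PrV chk L120 := leafV c120

theorem c121 : lp7 (fun s => chk (uent L121 s)) 0 = true := by decide +kernel
theorem p121 : PrV chk L121 := leafV c121

theorem c122 : lp7 (fun s => chk (uent L122 s)) 0 = true := by decide +kernel
theorem p122 : PrV chk L122 := leafV c122

theorem c123 : lp7 (fun s => chk (uent L123 s)) 0 = true := by decide +kernel
theorem p123 : PrV chk L123 := leafV c123

theorem c124 : lp7 (fun s => chk (uent L124 s)) 0 = true := by decide +kernel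
theorem p124 : PrV chk L124 := leafV c124

theorem c125 : lp7 (fun s => chk (uent L125 s)) 0 = true := by decide +kernel
theorem p125 : PrV chk L125 := leafV c125

theorem c126 : lp7 (fun s => chk (uent L126 s)) 0 = true := by decide +kernel
theorem p126 : PrV chk L126 := leafV c126

theorem c127 : lp7 (fun s => chk (uent L127 s)) 0 = true := by decide +kernel
theorem p127 : PrV chk L127 := leafV c127

theorem c128 : lp7 (fun s => chk (uent L128 s)) 0 = true := by decide +kernel
theorem p128 : PrV chk L128 := leafV c128

theorem c129 : lp7 (fun s => chk (uent L129 s)) 0 = true := by decide +kernel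
theorem p129 : PrV chk L129 := leafV c129

theorem c130 : lp7 (fun s => chk (uent L130 s)) 0 = true := by decide +kernel
theorem p130 : PrV chk L130 := leafV c130

theorem c131 : lp7 (fun s => chk (uent L131 s)) 0 = true := by decide +kernel
theorem p131 : PrV chk L131 := leafV c131

theorem c132 : lp7 (fun s => chk (uent L132 s)) 0 = true := by decide +kernel
theorem p132 : PrV chk L132 := leafV c132

theorem c133 : lp7 (fun s => chk (uent L133 s)) 0 = true := by decide +kernel
theorem p133 : PrV chk L133 := leafV c133

theorem c134 : lp7 (fun s => chk (uent L134 s)) 0 = true := by decide +kernel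
theorem p134 : PrV chk L134 := leafV c134

theorem c135 : lp7 (fun s => chk (uent L135 s)) 0 = true := by decide +kernel
theorem p135 : PrV chk L135 := leafV c135

theorem c136 : lp7 (fun s => chk (uent L136 s)) 0 = true := by decide +kernel
theorem p136 : PrV chk L136 := leafV c136

theorem c137 : lp7 (fun s => chk (uent L137 s)) 0 = true := by decide +kernel
theorem p137 : PrV chk L137 := leafV c137

theorem c138 : lp7 (fun s => chk (uent L138 s)) 0 = true := by decide +kernel
theorem p138 : PrV chk L138 := leafV c138

theorem c139 : lp7 (fun s => chk (uent L139 s)) 0 = true := by decide +kernel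
theorem p139 : PrV chk L139 := leafV c139

theorem c140 : lp7 (fun s => chk (uent L140 s)) 0 = true := by decide +kernel
theorem p140 : PrV chk L140 := leafV c140

theorem c141 : lp7 (fun s => chk (uent L141 s)) 0 = true := by decide +kernel
theorem p141 : PrV chk L141 := leafV c141

theorem c142 : lp7 (fun s => chk (uent L142 s)) 0 = true := by decide +kernel
theorem p142 : PrV chk L142 := leafV c142

theorem c143 : lp7 (fun s => chk (uent L143 s)) 0 = true := by decide +kernel
theorem p143 : PrV chk L143 := leafV c143

theorem c144 : lp7 (fun s => chk (uent L144 s)) 0 = true := by decide +kernel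
theorem p144 : PrV chk L144 := leafV c144

theorem c145 : lp7 (fun s => chk (uent L145 s)) 0 = true := by decide +kernel
theorem p145 : PrV chk L145 := leafV c145

theorem c146 : lp7 (fun s => chk (uent L146 s)) 0 = true := by decide +kernel
theorem p146 : PrV chk L146 := leafV c146

theorem c147 : lp7 (fun s => chk (uent L147 s)) 0 = true := by decide +kernel
theorem p147 : PrV chk L147 := leafV c147

theorem c148 : lp7 (fun s => chk (uent L148 s)) 0 = true := by decide +kernel
theorem p148 : PrV chk L148 := leafV c148

theorem c149 : lp7 (fun s => chk (uent L149 s)) 0 = true := by decide +kernel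
theorem p149 : PrV chk L149 := leafV c149

theorem c150 : lp7 (fun s => chk (uent L150 s)) 0 = true := by decide +kernel
theorem p150 : PrV chk L150 := leafV c150

theorem c151 : lp7 (fun s => chk (uent L151 s)) 0 = true := by decide +kernel
theorem p151 : PrV chk L151 := leafV c151

theorem c152 : lp7 (fun s => chk (uent L152 s)) 0 = true := by decide +kernel
theorem p152 : PrV chk L152 := leafV c152

theorem c153 : lp7 (fun s => chk (uent L153 s)) 0 = true := by decide +kernel
theorem p153 : PrV chk L153 := leafV c153

theorem c154 : lp7 (fun s => chk (uent L154 s)) 0 = true := by decide +kernel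
theorem p154 : PrV chk L154 := leafV c154

theorem c155 : lp7 (fun s => chk (uent L155 s)) 0 = true := by decide +kernel
theorem p155 : PrV chk L155 := leafV c155

theorem c156 : lp7 (fun s => chk (uent L156 s)) 0 = true := by decide +kernel
theorem p156 : PrV chk L156 := leafV c156

theorem c157 : lp7 (fun s => chk (uent L157 s)) 0 = true := by decide +kernel
theorem p157 : PrV chk L157 := leafV c157

theorem c158 : lp7 (fun s => chk (uent L158 s)) 0 = true := by decide +kernel
theorem p158 : PrV chk L158 := leafV c158

theorem c159 : lp7 (fun s => chk (uent L159 s)) 0 = true := by decide +kernel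
theorem p159 : PrV chk L159 := leafV c159

theorem c160 : lp7 (fun s => chk (uent L160 s)) 0 = true := by decide +kernel
theorem p160 : PrV chk L160 := leafV c160

theorem c161 : lp7 (fun s => chk (uent L161 s)) 0 = true := by decide +kernel
theorem p161 : PrV chk L161 := leafV c161

theorem c162 : lp7 (fun s => chk (uent L162 s)) 0 = true := by decide +kernel
theorem p162 : PrV chk L162 := leafV c162

theorem c163 : lp7 (fun s => chk (uent L163 s)) 0 = true := by decide +kernel
theorem p163 : PrV chk L163 := leafV c163

theorem c164 : lp7 (fun s => chk (uent L164 s)) 0 = true := by decide +kernel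
theorem p164 : PrV chk L164 := leafV c164

theorem c165 : lp7 (fun s => chk (uent L165 s)) 0 = true := by decide +kernel
theorem p165 : PrV chk L165 := leafV c165

theorem c166 : lp7 (fun s => chk (uent L166 s)) 0 = true := by decide +kernel
theorem p166 : PrV chk L166 := leafV c166

theorem c167 : lp7 (fun s => chk (uent L167 s)) 0 = true := by decide +kernel
theorem p167 : PrV chk L167 := leafV c167

theorem c168 : lp7 (fun s => chk (uent L168 s)) 0 = true := by decide +kernel
theorem p168 : PrV chk L168 := leafV c168

theorem c169 : lp7 (fun s => chk (uent L169 s)) 0 = true := by decide +kernel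
theorem p169 : PrV chk L169 := leafV c169

theorem c170 : lp7 (fun s => chk (uent L170 s)) 0 = true := by decide +kernel
theorem p170 : PrV chk L170 := leafV c170

theorem c171 : lp7 (fun s => chk (uent L171 s)) 0 = true := by decide +kernel
theorem p171 : PrV chk L171 := leafV c171

theorem c172 : lp7 (fun s => chk (uent L172 s)) 0 = true := by decide +kernel
theorem p172 : PrV chk L172 := leafV c172

theorem c173 : lp7 (fun s => chk (uent L173 s)) 0 = true := by decide +kernel
theorem p173 : PrV chk L173 := leafV c173

theorem c174 : lp7 (fun s => chk (uent L174 s)) 0 = true := by decide +kernel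
theorem p174 : PrV chk L174 := leafV c174

theorem c175 : lp7 (fun s => chk (uent L175 s)) 0 = true := by decide +kernel
theorem p175 : PrV chk L175 := leafV c175

theorem c176 : lp7 (fun s => chk (uent L176 s)) 0 = true := by decide +kernel
theorem p176 : PrV chk L176 := leafV c176

theorem c177 : lp7 (fun s => chk (uent L177 s)) 0 = true := by decide +kernel
theorem p177 : PrV chk L177 := leafV c177

theorem c178 : lp7 (fun s => chk (uent L178 s)) 0 = true := by decide +kernel
theorem p178 : PrV chk L178 := leafV c178

theorem c179 : lp7 (fun s => chk (uent L179 s)) 0 = true := by decide +kernel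
theorem p179 : PrV chk L179 := leafV c179

theorem c180 : lp7 (fun s => chk (uent L180 s)) 0 = true := by decide +kernel
theorem p180 : PrV chk L180 := leafV c180

theorem c181 : lp7 (fun s => chk (uent L181 s)) 0 = true := by decide +kernel
theorem p181 : PrV chk L181 := leafV c181

theorem c182 : lp7 (fun s => chk (uent L182 s)) 0 = true := by decide +kernel
theorem p182 : PrV chk L182 := leafV c182

theorem c183 : lp7 (fun s => chk (uent L183 s)) 0 = true := by decide +kernel
theorem p183 : PrV chk L183 := leafV c183

theorem c184 : lp7 (fun s => chk (uent L184 s)) 0 = true := by decide +kernel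
theorem p184 : PrV chk L184 := leafV c184

theorem c185 : lp7 (fun s => chk (uent L185 s)) 0 = true := by decide +kernel
theorem p185 : PrV chk L185 := leafV c185

theorem c186 : lp7 (fun s => chk (uent L186 s)) 0 = true := by decide +kernel
theorem p186 : PrV chk L186 := leafV c186

theorem c187 : lp7 (fun s => chk (uent L187 s)) 0 = true := by decide +kernel
theorem p187 : PrV chk L187 := leafV c187

theorem c188 : lp7 (fun s => chk (uent L188 s)) 0 = true := by decide +kernel
theorem p188 : PrV chk L188 := leafV c188

theorem c189 : lp7 (fun s => chk (uent L189 s)) 0 = true := by decide +kernel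
theorem p189 : PrV chk L189 := leafV c189

theorem c190 : lp7 (fun s => chk (uent L190 s)) 0 = true := by decide +kernel
theorem p190 : PrV chk L190 := leafV c190

theorem c191 : lp7 (fun s => chk (uent L191 s)) 0 = true := by decide +kernel
theorem p191 : PrV chk L191 := leafV c191

end Pool.Agent.ad013a.W
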