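import Pool.Agent.H.MP_ad013a_pr.h63w.A.T
import Pool.Agent.H.MP_ad013a_pr.h63w.VLoop

namespace Pool.Agent.ad013a.W

theorem c2112 : lp7 (fun s => chk (uent L2112 s)) 0 = true := by decide +kernel
theorem p2112 : PrV chk L2112 := leafV c2112

theorem c2113 : lp7 (fun s => chk (uent L2113 s)) 0 = true := by decide +kernel
theorem p2113 : PrV chk L2113 := leafV c2113

theorem c2114 : lp7 (fun s => chk (uent L2114 s)) 0 = true := by decide +kernel
theorem p2114 : PrV chk L2114 := leafV c2114

theorem c2115 : lp7 (fun s => chk (uent L2115 s)) 0 = true := by decide +kernel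
theorem p2115 : PrV chk L2115 := leafV c2115

theorem c2116 : lp7 (fun s => chk (uent L2116 s)) 0 = true := by decide +kernel
theorem p2116 : PrV chk L2116 := leafV c2116

theorem c2117 : lp7 (fun s => chk (uent L2117 s)) 0 = true := by decide +kernel
theorem p2117 : PrV chk L2117 := leafV c2117

theorem c2118 : lp7 (fun s => chk (uent L2118 s)) 0 = true := by decide +kernel
theorem p2118 : PrV chk L2118 := leafV c2118

theorem c2119 : lp7 (fun s => chk (uent L2119 s)) 0 = true := by decide +kernel
theorem p2119 : PrV chk L2119 := leafV c2119

theorem c2120 : lp7 (fun s => chk (uent L2120 s)) 0 = true := by decide +kernel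
theorem p2120 : PrV chk L2120 := leafV c2120

theorem c2121 : lp7 (fun s => chk (uent L2121 s)) 0 = true := by decide +kernel
theorem p2121 : PrV chk L2121 := leafV c2121

theorem c2122 : lp7 (fun s => chk (uent L2122 s)) 0 = true := by decide +kernel
theorem p2122 : PrV chk L2122 := leafV c2122

theorem c2123 : lp7 (fun s => chk (uent L2123 s)) 0 = true := by decide +kernel
theorem p2123 : PrV chk L2123 := leafV c2123

theorem c2124 : lp7 (fun s => chk (uent L2124 s)) 0 = true := by decide +kernel
theorem p2124 : PrV chk L2124 := leafV c2124

theorem c2125 : lp7 (fun s => chk (uent L2125 s)) 0 = true := by decide +kernel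
theorem p2125 : PrV chk L2125 := leafV c2125

theorem c2126 : lp7 (fun s => chk (uent L2126 s)) 0 = true := by decide +kernel
theorem p2126 : PrV chk L2126 := leafV c2126

theorem c2127 : lp7 (fun s => chk (uent L2127 s)) 0 = true := by decide +kernel
theorem p2127 : PrV chk L2127 := leafV c2127

theorem c2128 : lp7 (fun s => chk (uent L2128 s)) 0 = true := by decide +kernel
theorem p2128 : PrV chk L2128 := leafV c2128

theorem c2129 : lp7 (fun s => chk (uent L2129 s)) 0 = true := by decide +kernel
theorem p2129 : PrV chk L2129 := leafV c2129

theorem c2130 : lp7 (fun s => chk (uent L2130 s)) 0 = true := by decide +kernel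
theorem p2130 : PrV chk L2130 := leafV c2130

theorem c2131 : lp7 (fun s => chk (uent L2131 s)) 0 = true := by decide +kernel
theorem p2131 : PrV chk L2131 := leafV c2131

theorem c2132 : lp7 (fun s => chk (uent L2132 s)) 0 = true := by decide +kernel
theorem p2132 : PrV chk L2132 := leafV c2132

theorem c2133 : lp7 (fun s => chk (uent L2133 s)) 0 = true := by decide +kernel
theorem p2133 : PrV chk L2133 := leafV c2133

theorem c2134 : lp7 (fun s => chk (uent L2134 s)) 0 = true := by decide +kernel
theorem p2134 : PrV chk L2134 := leafV c2134

theorem c2135 : lp7 (fun s => chk (uent L2135 s)) 0 = true := by decide +kernel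
theorem p2135 : PrV chk L2135 := leafV c2135

theorem c2136 : lp7 (fun s => chk (uent L2136 s)) 0 = true := by decide +kernel
theorem p2136 : PrV chk L2136 := leafV c2136

theorem c2137 : lp7 (fun s => chk (uent L2137 s)) 0 = true := by decide +kernel
theorem p2137 : PrV chk L2137 := leafV c2137

theorem c2138 : lp7 (fun s => chk (uent L2138 s)) 0 = true := by decide +kernel
theorem p2138 : PrV chk L2138 := leafV c2138

theorem c2139 : lp7 (fun s => chk (uent L2139 s)) 0 = true := by decide +kernel
theorem p2139 : PrV chk L2139 := leafV c2139

theorem c2140 : lp7 (fun s => chk (uent L2140 s)) 0 = true := by decide +kernel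
theorem p2140 : PrV chk L2140 := leafV c2140

theorem c2141 : lp7 (fun s => chk (uent L2141 s)) 0 = true := by decide +kernel
theorem p2141 : PrV chk L2141 := leafV c2141

theorem c2142 : lp7 (fun s => chk (uent L2142 s)) 0 = true := by decide +kernel
theorem p2142 : PrV chk L2142 := leafV c2142

theorem c2143 : lp7 (fun s => chk (uent L2143 s)) 0 = true := by decide +kernel
theorem p2143 : PrV chk L2143 := leafV c2143

theorem c2144 : lp7 (fun s => chk (uent L2144 s)) 0 = true := by decide +kernel
theorem p2144 : PrV chk L2144 := leafV c2144

theorem c2145 : lp7 (fun s => chk (uent L2145 s)) 0 = true := by decide +kernel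
theorem p2145 : PrV chk L2145 := leafV c2145

theorem c2146 : lp7 (fun s => chk (uent L2146 s)) 0 = true := by decide +kernel
theorem p2146 : PrV chk L2146 := leafV c2146

theorem c2147 : lp7 (fun s => chk (uent L2147 s)) 0 = true := by decide +kernel
theorem p2147 : PrV chk L2147 := leafV c2147

theorem c2148 : lp7 (fun s => chk (uent L2148 s)) 0 = true := by decide +kernel
theorem p2148 : PrV chk L2148 := leafV c2148

theorem c2149 : lp7 (fun s => chk (uent L2149 s)) 0 = true := by decide +kernel
theorem p2149 : PrV chk L2149 := leafV c2149

theorem c2150 : lp7 (fun s => chk (uent L2150 s)) 0 = true := by decide +kernel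
theorem p2150 : PrV chk L2150 := leafV c2150

theorem c2151 : lp7 (fun s => chk (uent L2151 s)) 0 = true := by decide +kernel
theorem p2151 : PrV chk L2151 := leafV c2151

theorem c2152 : lp7 (fun s => chk (uent L2152 s)) 0 = true := by decide +kernel
theorem p2152 : PrV chk L2152 := leafV c2152

theorem c2153 : lp7 (fun s => chk (uent L2153 s)) 0 = true := by decide +kernel
theorem p2153 : PrV chk L2153 := leafV c2153

theorem c2154 : lp7 (fun s => chk (uent L2154 s)) 0 = true := by decide +kernel
theorem p2154 : PrV chk L2154 := leafV c2154

theorem c2155 : lp7 (fun s => chk (uent L2155 s)) 0 = true := by decide +kernel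
theorem p2155 : PrV chk L2155 := leafV c2155

theorem c2156 : lp7 (fun s => chk (uent L2156 s)) 0 = true := by decide +kernel
theorem p2156 : PrV chk L2156 := leafV c2156

theorem c2157 : lp7 (fun s => chk (uent L2157 s)) 0 = true := by decide +kernel
theorem p2157 : PrV chk L2157 := leafV c2157

theorem c2158 : lp7 (fun s => chk (uent L2158 s)) 0 = true := by decide +kernel
theorem p2158 : PrV chk L2158 := leafV c2158

theorem c2159 : lp7 (fun s => chk (uent L2159 s)) 0 = true := by decide +kernel
theorem p2159 : PrV chk L2159 := leafV c2159

theorem c2160 : lp7 (fun s => chk (uent L2160 s)) 0 = true := by decide +kernel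
theorem p2160 : PrV chk L2160 := leafV c2160

theorem c2161 : lp7 (fun s => chk (uent L2161 s)) 0 = true := by decide +kernel
theorem p2161 : PrV chk L2161 := leafV c2161

theorem c2162 : lp7 (fun s => chk (uent L2162 s)) 0 = true := by decide +kernel
theorem p2162 : PrV chk L2162 := leafV c2162

theorem c2163 : lp7 (fun s => chk (uent L2163 s)) 0 = true := by decide +kernel
theorem p2163 : PrV chk L2163 := leafV c2163

theorem c2164 : lp7 (fun s => chk (uent L2164 s)) 0 = true := by decide +kernel
theorem p2164 : PrV chk L2164 := leafV c2164

theorem c2165 : lp7 (fun s => chk (uent L2165 s)) 0 = true := by decide +kernel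
theorem p2165 : PrV chk L2165 := leafV c2165

theorem c2166 : lp7 (fun s => chk (uent L2166 s)) 0 = true := by decide +kernel
theorem p2166 : PrV chk L2166 := leafV c2166

theorem c2167 : lp7 (fun s => chk (uent L2167 s)) 0 = true := by decide +kernel
theorem p2167 : PrV chk L2167 := leafV c2167

theorem c2168 : lp7 (fun s => chk (uent L2168 s)) 0 = true := by decide +kernel
theorem p2168 : PrV chk L2168 := leafV c2168

theorem c2169 : lp7 (fun s => chk (uent L2169 s)) 0 = true := by decide +kernel
theorem p2169 : PrV chk L2169 := leafV c2169

theorem c2170 : lp7 (fun s => chk (uent L2170 s)) 0 = true := by decide +kernel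
theorem p2170 : PrV chk L2170 := leafV c2170

theorem c2171 : lp7 (fun s => chk (uent L2171 s)) 0 = true := by decide +kernel
theorem p2171 : PrV chk L2171 := leafV c2171

theorem c2172 : lp7 (fun s => chk (uent L2172 s)) 0 = true := by decide +kernel
theorem p2172 : PrV chk L2172 := leafV c2172

theorem c2173 : lp7 (fun s => chk (uent L2173 s)) 0 = true := by decide +kernel
theorem p2173 : PrV chk L2173 := leafV c2173

theorem c2174 : lp7 (fun s => chk (uent L2174 s)) 0 = true := by decide +kernel
theorem p2174 : PrV chk L2174 := leafV c2174

theorem c2175 : lp7 (fun s => chk (uent L2175 s)) 0 = true := by decide +kernel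
theorem p2175 : PrV chk L2175 := leafV c2175

theorem c2176 : lp7 (fun s => chk (uent L2176 s)) 0 = true := by decide +kernel
theorem p2176 : PrV chk L2176 := leafV c2176

theorem c2177 : lp7 (fun s => chk (uent L2177 s)) 0 = true := by decide +kernel
theorem p2177 : PrV chk L2177 := leafV c2177

theorem c2178 : lp7 (fun s => chk (uent L2178 s)) 0 = true := by decide +kernel
theorem p2178 : PrV chk L2178 := leafV c2178

theorem c2179 : lp7 (fun s => chk (uent L2179 s)) 0 = true := by decide +kernel
theorem p2179 : PrV chk L2179 := leafV c2179

theorem c2180 : lp7 (fun s => chk (uent L2180 s)) 0 = true := by decide +kernel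
theorem p2180 : PrV chk L2180 := leafV c2180

theorem c2181 : lp7 (fun s => chk (uent L2181 s)) 0 = true := by decide +kernel
theorem p2181 : PrV chk L2181 := leafV c2181

theorem c2182 : lp7 (fun s => chk (uent L2182 s)) 0 = true := by decide +kernel
theorem p2182 : PrV chk L2182 := leafV c2182

theorem c2183 : lp7 (fun s => chk (uent L2183 s)) 0 = true := by decide +kernel
theorem p2183 : PrV chk L2183 := leafV c2183

theorem c2184 : lp7 (fun s => chk (uent L2184 s)) 0 = true := by decide +kernel
theorem p2184 : PrV chk L2184 := leafV c2184

theorem c2185 : lp7 (fun s => chk (uent L2185 s)) 0 = true := by decide +kernel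
theorem p2185 : PrV chk L2185 := leafV c2185

theorem c2186 : lp7 (fun s => chk (uent L2186 s)) 0 = true := by decide +kernel
theorem p2186 : PrV chk L2186 := leafV c2186

theorem c2187 : lp7 (fun s => chk (uent L2187 s)) 0 = true := by decide +kernel
theorem p2187 : PrV chk L2187 := leafV c2187

theorem c2188 : lp7 (fun s => chk (uent L2188 s)) 0 = true := by decide +kernel
theorem p2188 : PrV chk L2188 := leafV c2188

theorem c2189 : lp7 (fun s => chk (uent L2189 s)) 0 = true := by decide +kernel
theorem p2189 : PrV chk L2189 := leafV c2189

theorem c2190 : lp7 (fun s => chk (uent L2190 s)) 0 = true := by decide +kernel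
theorem p2190 : PrV chk L2190 := leafV c2190

theorem c2191 : lp7 (fun s => chk (uent L2191 s)) 0 = true := by decide +kernel
theorem p2191 : PrV chk L2191 := leafV c2191

theorem c2192 : lp7 (fun s => chk (uent L2192 s)) 0 = true := by decide +kernel
theorem p2192 : PrV chk L2192 := leafV c2192

theorem c2193 : lp7 (fun s => chk (uent L2193 s)) 0 = true := by decide +kernel
theorem p2193 : PrV chk L2193 := leafV c2193

theorem c2194 : lp7 (fun s => chk (uent L2194 s)) 0 = true := by decide +kernel
theorem p2194 : PrV chk L2194 := leafV c2194

theorem c2195 : lp7 (fun s => chk (uent L2195 s)) 0 = true := by decide +kernel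
theorem p2195 : PrV chk L2195 := leafV c2195

theorem c2196 : lp7 (fun s => chk (uent L2196 s)) 0 = true := by decide +kernel
theorem p2196 : PrV chk L2196 := leafV c2196

theorem c2197 : lp7 (fun s => chk (uent L2197 s)) 0 = true := by decide +kernel
theorem p2197 : PrV chk L2197 := leafV c2197

theorem c2198 : lp7 (fun s => chk (uent L2198 s)) 0 = true := by decide +kernel
theorem p2198 : PrV chk L2198 := leafV c2198

theorem c2199 : lp7 (fun s => chk (uent L2199 s)) 0 = true := by decide +kernel
theorem p2199 : PrV chk L2199 := leafV c2199

theorem c2200 : lp7 (fun s => chk (uent L2200 s)) 0 = true := by decide +kernel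
theorem p2200 : PrV chk L2200 := leafV c2200

theorem c2201 : lp7 (fun s => chk (uent L2201 s)) 0 = true := by decide +kernel
theorem p2201 : PrV chk L2201 := leafV c2201

theorem c2202 : lp7 (fun s => chk (uent L2202 s)) 0 = true := by decide +kernel
theorem p2202 : PrV chk L2202 := leafV c2202

theorem c2203 : lp7 (fun s => chk (uent L2203 s)) 0 = true := by decide +kernel
theorem p2203 : PrV chk L2203 := leafV c2203

theorem c2204 : lp7 (fun s => chk (uent L2204 s)) 0 = true := by decide +kernel
theorem p2204 : PrV chk L2204 := leafV c2204

theorem c2205 : lp7 (fun s => chk (uent L2205 s)) 0 = true := by decide +kernel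
theorem p2205 : PrV chk L2205 := leafV c2205

theorem c2206 : lp7 (fun s => chk (uent L2206 s)) 0 = true := by decide +kernel
theorem p2206 : PrV chk L2206 := leafV c2206

theorem c2207 : lp7 (fun s => chk (uent L2207 s)) 0 = true := by decide +kernel
theorem p2207 : PrV chk L2207 := leafV c2207

theorem c2208 : lp7 (fun s => chk (uent L2208 s)) 0 = true := by decide +kernel
theorem p2208 : PrV chk L2208 := leafV c2208

theorem c2209 : lp7 (fun s => chk (uent L2209 s)) 0 = true := by decide +kernel
theorem p2209 : PrV chk L2209 := leafV c2209

theorem c2210 : lp7 (fun s => chk (uent L2210 s)) 0 = true := by decide +kernel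
theorem p2210 : PrV chk L2210 := leafV c2210

theorem c2211 : lp7 (fun s => chk (uent L2211 s)) 0 = true := by decide +kernel
theorem p2211 : PrV chk L2211 := leafV c2211

theorem c2212 : lp7 (fun s => chk (uent L2212 s)) 0 = true := by decide +kernel
theorem p2212 : PrV chk L2212 := leafV c2212

theorem c2213 : lp7 (fun s => chk (uent L2213 s)) 0 = true := by decide +kernel
theorem p2213 : PrV chk L2213 := leafV c2213

theorem c2214 : lp7 (fun s => chk (uent L2214 s)) 0 = true := by decide +kernel
theorem p2214 : PrV chk L2214 := leafV c2214

theorem c2215 : lp7 (fun s => chk (uent L2215 s)) 0 = true := by decide +kernel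
theorem p2215 : PrV chk L2215 := leafV c2215

theorem c2216 : lp7 (fun s => chk (uent L2216 s)) 0 = true := by decide +kernel
theorem p2216 : PrV chk L2216 := leafV c2216

theorem c2217 : lp7 (fun s => chk (uent L2217 s)) 0 = true := by decide +kernel
theorem p2217 : PrV chk L2217 := leafV c2217

theorem c2218 : lp7 (fun s => chk (uent L2218 s)) 0 = true := by decide +kernel
theorem p2218 : PrV chk L2218 := leafV c2218

theorem c2219 : lp7 (fun s => chk (uent L2219 s)) 0 = true := by decide +kernel
theorem p2219 : PrV chk L2219 := leafV c2219

theorem c2220 : lp7 (fun s => chk (uent L2220 s)) 0 = true := by decide +kernel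
theorem p2220 : PrV chk L2220 := leafV c2220

theorem c2221 : lp7 (fun s => chk (uent L2221 s)) 0 = true := by decide +kernel
theorem p2221 : PrV chk L2221 := leafV c2221

theorem c2222 : lp7 (fun s => chk (uent L2222 s)) 0 = true := by decide +kernel
theorem p2222 : PrV chk L2222 := leafV c2222

theorem c2223 : lp7 (fun s => chk (uent L2223 s)) 0 = true := by decide +kernel
theorem p2223 : PrV chk L2223 := leafV c2223

theorem c2224 : lp7 (fun s => chk (uent L2224 s)) 0 = true := by decide +kernel
theorem p2224 : PrV chk L2224 := leafV c2224

theorem c2225 : lp7 (fun s => chk (uent L2225 s)) 0 = true := by decide +kernel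
theorem p2225 : PrV chk L2225 := leafV c2225

theorem c2226 : lp7 (fun s => chk (uent L2226 s)) 0 = true := by decide +kernel
theorem p2226 : PrV chk L2226 := leafV c2226

theorem c2227 : lp7 (fun s => chk (uent L2227 s)) 0 = true := by decide +kernel
theorem p2227 : PrV chk L2227 := leafV c2227

theorem c2228 : lp7 (fun s => chk (uent L2228 s)) 0 = true := by decide +kernel
theorem p2228 : PrV chk L2228 := leafV c2228

theorem c2229 : lp7 (fun s => chk (uent L2229 s)) 0 = true := by decide +kernel
theorem p2229 : PrV chk L2229 := leafV c2229

theorem c2230 : lp7 (fun s => chk (uent L2230 s)) 0 = true := by decide +kernel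
theorem p2230 : PrV chk L2230 := leafV c2230

theorem c2231 : lp7 (fun s => chk (uent L2231 s)) 0 = true := by decide +kernel
theorem p2231 : PrV chk L2231 := leafV c2231

theorem c2232 : lp7 (fun s => chk (uent L2232 s)) 0 = true := by decide +kernel
theorem p2232 : PrV chk L2232 := leafV c2232

theorem c2233 : lp7 (fun s => chk (uent L2233 s)) 0 = true := by decide +kernel
theorem p2233 : PrV chk L2233 := leafV c2233

theorem c2234 : lp7 (fun s => chk (uent L2234 s)) 0 = true := by decide +kernel
theorem p2234 : PrV chk L2234 := leafV c2234

theorem c2235 : lp7 (fun s => chk (uent L2235 s)) 0 = true := by decide +kernel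
theorem p2235 : PrV chk L2235 := leafV c2235

theorem c2236 : lp7 (fun s => chk (uent L2236 s)) 0 = true := by decide +kernel
theorem p2236 : PrV chk L2236 := leafV c2236

theorem c2237 : lp7 (fun s => chk (uent L2237 s)) 0 = true := by decide +kernel
theorem p2237 : PrV chk L2237 := leafV c2237

theorem c2238 : lp7 (fun s => chk (uent L2238 s)) 0 = true := by decide +kernel
theorem p2238 : PrV chk L2238 := leafV c2238

theorem c2239 : lp7 (fun s => chk (uent L2239 s)) 0 = true := by decide +kernel
theorem p2239 : PrV chk L2239 := leafV c2239

theorem c2240 : lp7 (fun s => chk (uent L2240 s)) 0 = true := by decide +kernel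
theorem p2240 : PrV chk L2240 := leafV c2240

theorem c2241 : lp7 (fun s => chk (uent L2241 s)) 0 = true := by decide +kernel
theorem p2241 : PrV chk L2241 := leafV c2241

theorem c2242 : lp7 (fun s => chk (uent L2242 s)) 0 = true := by decide +kernel
theorem p2242 : PrV chk L2242 := leafV c2242

theorem c2243 : lp7 (fun s => chk (uent L2243 s)) 0 = true := by decide +kernel
theorem p2243 : PrV chk L2243 := leafV c2243

theorem c2244 : lp7 (fun s => chk (uent L2244 s)) 0 = true := by decide +kernel
theorem p2244 : PrV chk L2244 := leafV c2244

theorem c2245 : lp7 (fun s => chk (uent L2245 s)) 0 = true := by decide +kernel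
theorem p2245 : PrV chk L2245 := leafV c2245

theorem c2246 : lp7 (fun s => chk (uent L2246 s)) 0 = true := by decide +kernel
theorem p2246 : PrV chk L2246 := leafV c2246

theorem c2247 : lp7 (fun s => chk (uent L2247 s)) 0 = true := by decide +kernel
theorem p2247 : PrV chk L2247 := leafV c2247

theorem c2248 : lp7 (fun s => chk (uent L2248 s)) 0 = true := by decide +kernel
theorem p2248 : PrV chk L2248 := leafV c2248

theorem c2249 : lp7 (fun s => chk (uent L2249 s)) 0 = true := by decide +kernel
theorem p2249 : PrV chk L2249 := leafV c2249

theorem c2250 : lp7 (fun s => chk (uent L2250 s)) 0 = true := by decide +kernel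
theorem p2250 : PrV chk L2250 := leafV c2250

theorem c2251 : lp7 (fun s => chk (uent L2251 s)) 0 = true := by decide +kernel
theorem p2251 : PrV chk L2251 := leafV c2251

theorem c2252 : lp7 (fun s => chk (uent L2252 s)) 0 = true := by decide +kernel
theorem p2252 : PrV chk L2252 := leafV c2252

theorem c2253 : lp7 (fun s => chk (uent L2253 s)) 0 = true := by decide +kernel
theorem p2253 : PrV chk L2253 := leafV c2253

theorem c2254 : lp7 (fun s => chk (uent L2254 s)) 0 = true := by decide +kernel
theorem p2254 : PrV chk L2254 := leafV c2254

theorem c2255 : lp7 (fun s => chk (uent L2255 s)) 0 = true := by decide +kernel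
theorem p2255 : PrV chk L2255 := leafV c2255

theorem c2256 : lp7 (fun s => chk (uent L2256 s)) 0 = true := by decide +kernel
theorem p2256 : PrV chk L2256 := leafV c2256

theorem c2257 : lp7 (fun s => chk (uent L2257 s)) 0 = true := by decide +kernel
theorem p2257 : PrV chk L2257 := leafV c2257

theorem c2258 : lp7 (fun s => chk (uent L2258 s)) 0 = true := by decide +kernel
theorem p2258 : PrV chk L2258 := leafV c2258

theorem c2259 : lp7 (fun s => chk (uent L2259 s)) 0 = true := by decide +kernel
theorem p2259 : PrV chk L2259 := leafV c2259

theorem c2260 : lp7 (fun s => chk (uent L2260 s)) 0 = true := by decide +kernel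
theorem p2260 : PrV chk L2260 := leafV c2260

theorem c2261 : lp7 (fun s => chk (uent L2261 s)) 0 = true := by decide +kernel
theorem p2261 : PrV chk L2261 := leafV c2261

theorem c2262 : lp7 (fun s => chk (uent L2262 s)) 0 = true := by decide +kernel
theorem p2262 : PrV chk L2262 := leafV c2262

theorem c2263 : lp7 (fun s => chk (uent L2263 s)) 0 = true := by decide +kernel
theorem p2263 : PrV chk L2263 := leafV c2263

theorem c2264 : lp7 (fun s => chk (uent L2264 s)) 0 = true := by decide +kernel
theorem p2264 : PrV chk L2264 := leafV c2264

theorem c2265 : lp7 (fun s => chk (uent L2265 s)) 0 = true := by decide +kernel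
theorem p2265 : PrV chk L2265 := leafV c2265

theorem c2266 : lp7 (fun s => chk (uent L2266 s)) 0 = true := by decide +kernel
theorem p2266 : PrV chk L2266 := leafV c2266

theorem c2267 : lp7 (fun s => chk (uent L2267 s)) 0 = true := by decide +kernel
theorem p2267 : PrV chk L2267 := leafV c2267

theorem c2268 : lp7 (fun s => chk (uent L2268 s)) 0 = true := by decide +kernel
theorem p2268 : PrV chk L2268 := leafV c2268

theorem c2269 : lp7 (fun s => chk (uent L2269 s)) 0 = true := by decide +kernel
theorem p2269 : PrV chk L2269 := leafV c2269

theorem c2270 : lp7 (fun s => chk (uent L2270 s)) 0 = true := by decide +kernel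
theorem p2270 : PrV chk L2270 := leafV c2270

theorem c2271 : lp7 (fun s => chk (uent L2271 s)) 0 = true := by decide +kernel
theorem p2271 : PrV chk L2271 := leafV c2271

theorem c2272 : lp7 (fun s => chk (uent L2272 s)) 0 = true := by decide +kernel
theorem p2272 : PrV chk L2272 := leafV c2272

theorem c2273 : lp7 (fun s => chk (uent L2273 s)) 0 = true := by decide +kernel
theorem p2273 : PrV chk L2273 := leafV c2273

theorem c2274 : lp7 (fun s => chk (uent L2274 s)) 0 = true := by decide +kernel
theorem p2274 : PrV chk L2274 := leafV c2274

theorem c2275 : lp7 (fun s => chk (uent L2275 s)) 0 = true := by decide +kernel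
theorem p2275 : PrV chk L2275 := leafV c2275

theorem c2276 : lp7 (fun s => chk (uent L2276 s)) 0 = true := by decide +kernel
theorem p2276 : PrV chk L2276 := leafV c2276

theorem c2277 : lp7 (fun s => chk (uent L2277 s)) 0 = true := by decide +kernel
theorem p2277 : PrV chk L2277 := leafV c2277

theorem c2278 : lp7 (fun s => chk (uent L2278 s)) 0 = true := by decide +kernel
theorem p2278 : PrV chk L2278 := leafV c2278

theorem c2279 : lp7 (fun s => chk (uent L2279 s)) 0 = true := by decide +kernel
theorem p2279 : PrV chk L2279 := leafV c2279

theorem c2280 : lp7 (fun s => chk (uent L2280 s)) 0 = true := by decide +kernel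
theorem p2280 : PrV chk L2280 := leafV c2280

theorem c2281 : lp7 (fun s => chk (uent L2281 s)) 0 = true := by decide +kernel
theorem p2281 : PrV chk L2281 := leafV c2281

theorem c2282 : lp7 (fun s => chk (uent L2282 s)) 0 = true := by decide +kernel
theorem p2282 : PrV chk L2282 := leafV c2282

theorem c2283 : lp7 (fun s => chk (uent L2283 s)) 0 = true := by decide +kernel
theorem p2283 : PrV chk L2283 := leafV c2283

theorem c2284 : lp7 (fun s => chk (uent L2284 s)) 0 = true := by decide +kernel
theorem p2284 : PrV chk L2284 := leafV c2284

theorem c2285 : lp7 (fun s => chk (uent L2285 s)) 0 = true := by decide +kernel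
theorem p2285 : PrV chk L2285 := leafV c2285

theorem c2286 : lp7 (fun s => chk (uent L2286 s)) 0 = true := by decide +kernel
theorem p2286 : PrV chk L2286 := leafV c2286

theorem c2287 : lp7 (fun s => chk (uent L2287 s)) 0 = true := by decide +kernel
theorem p2287 : PrV chk L2287 := leafV c2287

theorem c2288 : lp7 (fun s => chk (uent L2288 s)) 0 = true := by decide +kernel
theorem p2288 : PrV chk L2288 := leafV c2288

theorem c2289 : lp7 (fun s => chk (uent L2289 s)) 0 = true := by decide +kernel
theorem p2289 : PrV chk L2289 := leafV c2289

theorem c2290 : lp7 (fun s => chk (uent L2290 s)) 0 = true := by decide +kernel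
theorem p2290 : PrV chk L2290 := leafV c2290

theorem c2291 : lp7 (fun s => chk (uent L2291 s)) 0 = true := by decide +kernel
theorem p2291 : PrV chk L2291 := leafV c2291

theorem c2292 : lp7 (fun s => chk (uent L2292 s)) 0 = true := by decide +kernel
theorem p2292 : PrV chk L2292 := leafV c2292

theorem c2293 : lp7 (fun s => chk (uent L2293 s)) 0 = true := by decide +kernel
theorem p2293 : PrV chk L2293 := leafV c2293

theorem c2294 : lp7 (fun s => chk (uent L2294 s)) 0 = true := by decide +kernel
theorem p2294 : PrV chk L2294 := leafV c2294

theorem c2295 : lp7 (fun s => chk (uent L2295 s)) 0 = true := by decide +kernel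
theorem p2295 : PrV chk L2295 := leafV c2295

theorem c2296 : lp7 (fun s => chk (uent L2296 s)) 0 = true := by decide +kernel
theorem p2296 : PrV chk L2296 := leafV c2296

theorem c2297 : lp7 (fun s => chk (uent L2297 s)) 0 = true := by decide +kernel
theorem p2297 : PrV chk L2297 := leafV c2297

theorem c2298 : lp7 (fun s => chk (uent L2298 s)) 0 = true := by decide +kernel
theorem p2298 : PrV chk L2298 := leafV c2298

theorem c2299 : lp7 (fun s => chk (uent L2299 s)) 0 = true := by decide +kernel
theorem p2299 : PrV chk L2299 := leafV c2299

theorem c2300 : lp7 (fun s => chk (uent L2300 s)) 0 = true := by decide +kernel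
theorem p2300 : PrV chk L2300 := leafV c2300

theorem c2301 : lp7 (fun s => chk (uent L2301 s)) 0 = true := by decide +kernel
theorem p2301 : PrV chk L2301 := leafV c2301

theorem c2302 : lp7 (fun s => chk (uent L2302 s)) 0 = true := by decide +kernel
theorem p2302 : PrV chk L2302 := leafV c2302

theorem c2303 : lp7 (fun s => chk (uent L2303 s)) 0 = true := by decide +kernel
theorem p2303 : PrV chk L2303 := leafV c2303

end Pool.Agent.ad013a.W
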