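import Pool.Agent.H.MP_ad013a_pr.h63w.A.T
import Pool.Agent.H.MP_ad013a_pr.h63w.VLoop

namespace Pool.Agent.ad013a.W

theorem c4416 : lp7 (fun s => chk (uent L4416 s)) 0 = true := by decide +kernel
theorem p4416 : PrV chk L4416 := leafV c4416

theorem c4417 : lp7 (fun s => chk (uent L4417 s)) 0 = true := by decide +kernel
theorem p4417 : PrV chk L4417 := leafV c4417

theorem c4418 : lp7 (fun s => chk (uent L4418 s)) 0 = true := by decide +kernel
theorem p4418 : PrV chk L4418 := leafV c4418

theorem c4419 : lp7 (fun s => chk (uent L4419 s)) 0 = true := by decide +kernel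
theorem p4419 : PrV chk L4419 := leafV c4419

theorem c4420 : lp7 (fun s => chk (uent L4420 s)) 0 = true := by decide +kernel
theorem p4420 : PrV chk L4420 := leafV c4420

theorem c4421 : lp7 (fun s => chk (uent L4421 s)) 0 = true := by decide +kernel
theorem p4421 : PrV chk L4421 := leafV c4421

theorem c4422 : lp7 (fun s => chk (uent L4422 s)) 0 = true := by decide +kernel
theorem p4422 : PrV chk L4422 := leafV c4422

theorem c4423 : lp7 (fun s => chk (uent L4423 s)) 0 = true := by decide +kernel
theorem p4423 : PrV chk L4423 := leafV c4423

theorem c4424 : lp7 (fun s => chk (uent L4424 s)) 0 = true := by decide +kernel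
theorem p4424 : PrV chk L4424 := leafV c4424

theorem c4425 : lp7 (fun s => chk (uent L4425 s)) 0 = true := by decide +kernel
theorem p4425 : PrV chk L4425 := leafV c4425

theorem c4426 : lp7 (fun s => chk (uent L4426 s)) 0 = true := by decide +kernel
theorem p4426 : PrV chk L4426 := leafV c4426

theorem c4427 : lp7 (fun s => chk (uent L4427 s)) 0 = true := by decide +kernel
theorem p4427 : PrV chk L4427 := leafV c4427

theorem c4428 : lp7 (fun s => chk (uent L4428 s)) 0 = true := by decide +kernel
theorem p4428 : PrV chk L4428 := leafV c4428

theorem c4429 : lp7 (fun s => chk (uent L4429 s)) 0 = true := by decide +kernel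
theorem p4429 : PrV chk L4429 := leafV c4429

theorem c4430 : lp7 (fun s => chk (uent L4430 s)) 0 = true := by decide +kernel
theorem p4430 : PrV chk L4430 := leafV c4430

theorem c4431 : lp7 (fun s => chk (uent L4431 s)) 0 = true := by decide +kernel
theorem p4431 : PrV chk L4431 := leafV c4431

theorem c4432 : lp7 (fun s => chk (uent L4432 s)) 0 = true := by decide +kernel
theorem p4432 : PrV chk L4432 := leafV c4432

theorem c4433 : lp7 (fun s => chk (uent L4433 s)) 0 = true := by decide +kernel
theorem p4433 : PrV chk L4433 := leafV c4433

theorem c4434 : lp7 (fun s => chk (uent L4434 s)) 0 = true := by decide +kernel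
theorem p4434 : PrV chk L4434 := leafV c4434

theorem c4435 : lp7 (fun s => chk (uent L4435 s)) 0 = true := by decide +kernel
theorem p4435 : PrV chk L4435 := leafV c4435

theorem c4436 : lp7 (fun s => chk (uent L4436 s)) 0 = true := by decide +kernel
theorem p4436 : PrV chk L4436 := leafV c4436

theorem c4437 : lp7 (fun s => chk (uent L4437 s)) 0 = true := by decide +kernel
theorem p4437 : PrV chk L4437 := leafV c4437

theorem c4438 : lp7 (fun s => chk (uent L4438 s)) 0 = true := by decide +kernel
theorem p4438 : PrV chk L4438 := leafV c4438

theorem c4439 : lp7 (fun s => chk (uent L4439 s)) 0 = true := by decide +kernel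
theorem p4439 : PrV chk L4439 := leafV c4439

theorem c4440 : lp7 (fun s => chk (uent L4440 s)) 0 = true := by decide +kernel
theorem p4440 : PrV chk L4440 := leafV c4440

theorem c4441 : lp7 (fun s => chk (uent L4441 s)) 0 = true := by decide +kernel
theorem p4441 : PrV chk L4441 := leafV c4441

theorem c4442 : lp7 (fun s => chk (uent L4442 s)) 0 = true := by decide +kernel
theorem p4442 : PrV chk L4442 := leafV c4442

theorem c4443 : lp7 (fun s => chk (uent L4443 s)) 0 = true := by decide +kernel
theorem p4443 : PrV chk L4443 := leafV c4443

theorem c4444 : lp7 (fun s => chk (uent L4444 s)) 0 = true := by decide +kernel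
theorem p4444 : PrV chk L4444 := leafV c4444

theorem c4445 : lp7 (fun s => chk (uent L4445 s)) 0 = true := by decide +kernel
theorem p4445 : PrV chk L4445 := leafV c4445

theorem c4446 : lp7 (fun s => chk (uent L4446 s)) 0 = true := by decide +kernel
theorem p4446 : PrV chk L4446 := leafV c4446

theorem c4447 : lp7 (fun s => chk (uent L4447 s)) 0 = true := by decide +kernel
theorem p4447 : PrV chk L4447 := leafV c4447

theorem c4448 : lp7 (fun s => chk (uent L4448 s)) 0 = true := by decide +kernel
theorem p4448 : PrV chk L4448 := leafV c4448

theorem c4449 : lp7 (fun s => chk (uent L4449 s)) 0 = true := by decide +kernel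
theorem p4449 : PrV chk L4449 := leafV c4449

theorem c4450 : lp7 (fun s => chk (uent L4450 s)) 0 = true := by decide +kernel
theorem p4450 : PrV chk L4450 := leafV c4450

theorem c4451 : lp7 (fun s => chk (uent L4451 s)) 0 = true := by decide +kernel
theorem p4451 : PrV chk L4451 := leafV c4451

theorem c4452 : lp7 (fun s => chk (uent L4452 s)) 0 = true := by decide +kernel
theorem p4452 : PrV chk L4452 := leafV c4452

theorem c4453 : lp7 (fun s => chk (uent L4453 s)) 0 = true := by decide +kernel
theorem p4453 : PrV chk L4453 := leafV c4453

theorem c4454 : lp7 (fun s => chk (uent L4454 s)) 0 = true := by decide +kernel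
theorem p4454 : PrV chk L4454 := leafV c4454

theorem c4455 : lp7 (fun s => chk (uent L4455 s)) 0 = true := by decide +kernel
theorem p4455 : PrV chk L4455 := leafV c4455

theorem c4456 : lp7 (fun s => chk (uent L4456 s)) 0 = true := by decide +kernel
theorem p4456 : PrV chk L4456 := leafV c4456

theorem c4457 : lp7 (fun s => chk (uent L4457 s)) 0 = true := by decide +kernel
theorem p4457 : PrV chk L4457 := leafV c4457

theorem c4458 : lp7 (fun s => chk (uent L4458 s)) 0 = true := by decide +kernel
theorem p4458 : PrV chk L4458 := leafV c4458

theorem c4459 : lp7 (fun s => chk (uent L4459 s)) 0 = true := by decide +kernel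
theorem p4459 : PrV chk L4459 := leafV c4459

theorem c4460 : lp7 (fun s => chk (uent L4460 s)) 0 = true := by decide +kernel
theorem p4460 : PrV chk L4460 := leafV c4460

theorem c4461 : lp7 (fun s => chk (uent L4461 s)) 0 = true := by decide +kernel
theorem p4461 : PrV chk L4461 := leafV c4461

theorem c4462 : lp7 (fun s => chk (uent L4462 s)) 0 = true := by decide +kernel
theorem p4462 : PrV chk L4462 := leafV c4462

theorem c4463 : lp7 (fun s => chk (uent L4463 s)) 0 = true := by decide +kernel
theorem p4463 : PrV chk L4463 := leafV c4463

theorem c4464 : lp7 (fun s => chk (uent L4464 s)) 0 = true := by decide +kernel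
theorem p4464 : PrV chk L4464 := leafV c4464

theorem c4465 : lp7 (fun s => chk (uent L4465 s)) 0 = true := by decide +kernel
theorem p4465 : PrV chk L4465 := leafV c4465

theorem c4466 : lp7 (fun s => chk (uent L4466 s)) 0 = true := by decide +kernel
theorem p4466 : PrV chk L4466 := leafV c4466

theorem c4467 : lp7 (fun s => chk (uent L4467 s)) 0 = true := by decide +kernel
theorem p4467 : PrV chk L4467 := leafV c4467

theorem c4468 : lp7 (fun s => chk (uent L4468 s)) 0 = true := by decide +kernel
theorem p4468 : PrV chk L4468 := leafV c4468

theorem c4469 : lp7 (fun s => chk (uent L4469 s)) 0 = true := by decide +kernel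
theorem p4469 : PrV chk L4469 := leafV c4469

theorem c4470 : lp7 (fun s => chk (uent L4470 s)) 0 = true := by decide +kernel
theorem p4470 : PrV chk L4470 := leafV c4470

theorem c4471 : lp7 (fun s => chk (uent L4471 s)) 0 = true := by decide +kernel
theorem p4471 : PrV chk L4471 := leafV c4471

theorem c4472 : lp7 (fun s => chk (uent L4472 s)) 0 = true := by decide +kernel
theorem p4472 : PrV chk L4472 := leafV c4472

theorem c4473 : lp7 (fun s => chk (uent L4473 s)) 0 = true := by decide +kernel
theorem p4473 : PrV chk L4473 := leafV c4473

theorem c4474 : lp7 (fun s => chk (uent L4474 s)) 0 = true := by decide +kernel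
theorem p4474 : PrV chk L4474 := leafV c4474

theorem c4475 : lp7 (fun s => chk (uent L4475 s)) 0 = true := by decide +kernel
theorem p4475 : PrV chk L4475 := leafV c4475

theorem c4476 : lp7 (fun s => chk (uent L4476 s)) 0 = true := by decide +kernel
theorem p4476 : PrV chk L4476 := leafV c4476

theorem c4477 : lp7 (fun s => chk (uent L4477 s)) 0 = true := by decide +kernel
theorem p4477 : PrV chk L4477 := leafV c4477

theorem c4478 : lp7 (fun s => chk (uent L4478 s)) 0 = true := by decide +kernel
theorem p4478 : PrV chk L4478 := leafV c4478

theorem c4479 : lp7 (fun s => chk (uent L4479 s)) 0 = true := by decide +kernel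
theorem p4479 : PrV chk L4479 := leafV c4479

theorem c4480 : lp7 (fun s => chk (uent L4480 s)) 0 = true := by decide +kernel
theorem p4480 : PrV chk L4480 := leafV c4480

theorem c4481 : lp7 (fun s => chk (uent L4481 s)) 0 = true := by decide +kernel
theorem p4481 : PrV chk L4481 := leafV c4481

theorem c4482 : lp7 (fun s => chk (uent L4482 s)) 0 = true := by decide +kernel
theorem p4482 : PrV chk L4482 := leafV c4482

theorem c4483 : lp7 (fun s => chk (uent L4483 s)) 0 = true := by decide +kernel
theorem p4483 : PrV chk L4483 := leafV c4483

theorem c4484 : lp7 (fun s => chk (uent L4484 s)) 0 = true := by decide +kernel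
theorem p4484 : PrV chk L4484 := leafV c4484

theorem c4485 : lp7 (fun s => chk (uent L4485 s)) 0 = true := by decide +kernel
theorem p4485 : PrV chk L4485 := leafV c4485

theorem c4486 : lp7 (fun s => chk (uent L4486 s)) 0 = true := by decide +kernel
theorem p4486 : PrV chk L4486 := leafV c4486

theorem c4487 : lp7 (fun s => chk (uent L4487 s)) 0 = true := by decide +kernel
theorem p4487 : PrV chk L4487 := leafV c4487

theorem c4488 : lp7 (fun s => chk (uent L4488 s)) 0 = true := by decide +kernel
theorem p4488 : PrV chk L4488 := leafV c4488

theorem c4489 : lp7 (fun s => chk (uent L4489 s)) 0 = true := by decide +kernel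
theorem p4489 : PrV chk L4489 := leafV c4489

theorem c4490 : lp7 (fun s => chk (uent L4490 s)) 0 = true := by decide +kernel
theorem p4490 : PrV chk L4490 := leafV c4490

theorem c4491 : lp7 (fun s => chk (uent L4491 s)) 0 = true := by decide +kernel
theorem p4491 : PrV chk L4491 := leafV c4491

theorem c4492 : lp7 (fun s => chk (uent L4492 s)) 0 = true := by decide +kernel
theorem p4492 : PrV chk L4492 := leafV c4492

theorem c4493 : lp7 (fun s => chk (uent L4493 s)) 0 = true := by decide +kernel
theorem p4493 : PrV chk L4493 := leafV c4493

theorem c4494 : lp7 (fun s => chk (uent L4494 s)) 0 = true := by decide +kernel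
theorem p4494 : PrV chk L4494 := leafV c4494

theorem c4495 : lp7 (fun s => chk (uent L4495 s)) 0 = true := by decide +kernel
theorem p4495 : PrV chk L4495 := leafV c4495

theorem c4496 : lp7 (fun s => chk (uent L4496 s)) 0 = true := by decide +kernel
theorem p4496 : PrV chk L4496 := leafV c4496

theorem c4497 : lp7 (fun s => chk (uent L4497 s)) 0 = true := by decide +kernel
theorem p4497 : PrV chk L4497 := leafV c4497

theorem c4498 : lp7 (fun s => chk (uent L4498 s)) 0 = true := by decide +kernel
theorem p4498 : PrV chk L4498 := leafV c4498

theorem c4499 : lp7 (fun s => chk (uent L4499 s)) 0 = true := by decide +kernel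
theorem p4499 : PrV chk L4499 := leafV c4499

theorem c4500 : lp7 (fun s => chk (uent L4500 s)) 0 = true := by decide +kernel
theorem p4500 : PrV chk L4500 := leafV c4500

theorem c4501 : lp7 (fun s => chk (uent L4501 s)) 0 = true := by decide +kernel
theorem p4501 : PrV chk L4501 := leafV c4501

theorem c4502 : lp7 (fun s => chk (uent L4502 s)) 0 = true := by decide +kernel
theorem p4502 : PrV chk L4502 := leafV c4502

theorem c4503 : lp7 (fun s => chk (uent L4503 s)) 0 = true := by decide +kernel
theorem p4503 : PrV chk L4503 := leafV c4503

theorem c4504 : lp7 (fun s => chk (uent L4504 s)) 0 = true := by decide +kernel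
theorem p4504 : PrV chk L4504 := leafV c4504

theorem c4505 : lp7 (fun s => chk (uent L4505 s)) 0 = true := by decide +kernel
theorem p4505 : PrV chk L4505 := leafV c4505

theorem c4506 : lp7 (fun s => chk (uent L4506 s)) 0 = true := by decide +kernel
theorem p4506 : PrV chk L4506 := leafV c4506

theorem c4507 : lp7 (fun s => chk (uent L4507 s)) 0 = true := by decide +kernel
theorem p4507 : PrV chk L4507 := leafV c4507

theorem c4508 : lp7 (fun s => chk (uent L4508 s)) 0 = true := by decide +kernel
theorem p4508 : PrV chk L4508 := leafV c4508

theorem c4509 : lp7 (fun s => chk (uent L4509 s)) 0 = true := by decide +kernel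
theorem p4509 : PrV chk L4509 := leafV c4509

theorem c4510 : lp7 (fun s => chk (uent L4510 s)) 0 = true := by decide +kernel
theorem p4510 : PrV chk L4510 := leafV c4510

theorem c4511 : lp7 (fun s => chk (uent L4511 s)) 0 = true := by decide +kernel
theorem p4511 : PrV chk L4511 := leafV c4511

theorem c4512 : lp7 (fun s => chk (uent L4512 s)) 0 = true := by decide +kernel
theorem p4512 : PrV chk L4512 := leafV c4512

theorem c4513 : lp7 (fun s => chk (uent L4513 s)) 0 = true := by decide +kernel
theorem p4513 : PrV chk L4513 := leafV c4513

theorem c4514 : lp7 (fun s => chk (uent L4514 s)) 0 = true := by decide +kernel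
theorem p4514 : PrV chk L4514 := leafV c4514

theorem c4515 : lp7 (fun s => chk (uent L4515 s)) 0 = true := by decide +kernel
theorem p4515 : PrV chk L4515 := leafV c4515

theorem c4516 : lp7 (fun s => chk (uent L4516 s)) 0 = true := by decide +kernel
theorem p4516 : PrV chk L4516 := leafV c4516

theorem c4517 : lp7 (fun s => chk (uent L4517 s)) 0 = true := by decide +kernel
theorem p4517 : PrV chk L4517 := leafV c4517

theorem c4518 : lp7 (fun s => chk (uent L4518 s)) 0 = true := by decide +kernel
theorem p4518 : PrV chk L4518 := leafV c4518

theorem c4519 : lp7 (fun s => chk (uent L4519 s)) 0 = true := by decide +kernel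
theorem p4519 : PrV chk L4519 := leafV c4519

theorem c4520 : lp7 (fun s => chk (uent L4520 s)) 0 = true := by decide +kernel
theorem p4520 : PrV chk L4520 := leafV c4520

theorem c4521 : lp7 (fun s => chk (uent L4521 s)) 0 = true := by decide +kernel
theorem p4521 : PrV chk L4521 := leafV c4521

theorem c4522 : lp7 (fun s => chk (uent L4522 s)) 0 = true := by decide +kernel
theorem p4522 : PrV chk L4522 := leafV c4522

theorem c4523 : lp7 (fun s => chk (uent L4523 s)) 0 = true := by decide +kernel
theorem p4523 : PrV chk L4523 := leafV c4523

theorem c4524 : lp7 (fun s => chk (uent L4524 s)) 0 = true := by decide +kernel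
theorem p4524 : PrV chk L4524 := leafV c4524

theorem c4525 : lp7 (fun s => chk (uent L4525 s)) 0 = true := by decide +kernel
theorem p4525 : PrV chk L4525 := leafV c4525

theorem c4526 : lp7 (fun s => chk (uent L4526 s)) 0 = true := by decide +kernel
theorem p4526 : PrV chk L4526 := leafV c4526

theorem c4527 : lp7 (fun s => chk (uent L4527 s)) 0 = true := by decide +kernel
theorem p4527 : PrV chk L4527 := leafV c4527

theorem c4528 : lp7 (fun s => chk (uent L4528 s)) 0 = true := by decide +kernel
theorem p4528 : PrV chk L4528 := leafV c4528

theorem c4529 : lp7 (fun s => chk (uent L4529 s)) 0 = true := by decide +kernel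
theorem p4529 : PrV chk L4529 := leafV c4529

theorem c4530 : lp7 (fun s => chk (uent L4530 s)) 0 = true := by decide +kernel
theorem p4530 : PrV chk L4530 := leafV c4530

theorem c4531 : lp7 (fun s => chk (uent L4531 s)) 0 = true := by decide +kernel
theorem p4531 : PrV chk L4531 := leafV c4531

theorem c4532 : lp7 (fun s => chk (uent L4532 s)) 0 = true := by decide +kernel
theorem p4532 : PrV chk L4532 := leafV c4532

theorem c4533 : lp7 (fun s => chk (uent L4533 s)) 0 = true := by decide +kernel
theorem p4533 : PrV chk L4533 := leafV c4533

theorem c4534 : lp7 (fun s => chk (uent L4534 s)) 0 = true := by decide +kernel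
theorem p4534 : PrV chk L4534 := leafV c4534

theorem c4535 : lp7 (fun s => chk (uent L4535 s)) 0 = true := by decide +kernel
theorem p4535 : PrV chk L4535 := leafV c4535

theorem c4536 : lp7 (fun s => chk (uent L4536 s)) 0 = true := by decide +kernel
theorem p4536 : PrV chk L4536 := leafV c4536

theorem c4537 : lp7 (fun s => chk (uent L4537 s)) 0 = true := by decide +kernel
theorem p4537 : PrV chk L4537 := leafV c4537

theorem c4538 : lp7 (fun s => chk (uent L4538 s)) 0 = true := by decide +kernel
theorem p4538 : PrV chk L4538 := leafV c4538

theorem c4539 : lp7 (fun s => chk (uent L4539 s)) 0 = true := by decide +kernel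
theorem p4539 : PrV chk L4539 := leafV c4539

theorem c4540 : lp7 (fun s => chk (uent L4540 s)) 0 = true := by decide +kernel
theorem p4540 : PrV chk L4540 := leafV c4540

theorem c4541 : lp7 (fun s => chk (uent L4541 s)) 0 = true := by decide +kernel
theorem p4541 : PrV chk L4541 := leafV c4541

theorem c4542 : lp7 (fun s => chk (uent L4542 s)) 0 = true := by decide +kernel
theorem p4542 : PrV chk L4542 := leafV c4542

theorem c4543 : lp7 (fun s => chk (uent L4543 s)) 0 = true := by decide +kernel
theorem p4543 : PrV chk L4543 := leafV c4543

theorem c4544 : lp7 (fun s => chk (uent L4544 s)) 0 = true := by decide +kernel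
theorem p4544 : PrV chk L4544 := leafV c4544

theorem c4545 : lp7 (fun s => chk (uent L4545 s)) 0 = true := by decide +kernel
theorem p4545 : PrV chk L4545 := leafV c4545

theorem c4546 : lp7 (fun s => chk (uent L4546 s)) 0 = true := by decide +kernel
theorem p4546 : PrV chk L4546 := leafV c4546

theorem c4547 : lp7 (fun s => chk (uent L4547 s)) 0 = true := by decide +kernel
theorem p4547 : PrV chk L4547 := leafV c4547

theorem c4548 : lp7 (fun s => chk (uent L4548 s)) 0 = true := by decide +kernel
theorem p4548 : PrV chk L4548 := leafV c4548

theorem c4549 : lp7 (fun s => chk (uent L4549 s)) 0 = true := by decide +kernel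
theorem p4549 : PrV chk L4549 := leafV c4549

theorem c4550 : lp7 (fun s => chk (uent L4550 s)) 0 = true := by decide +kernel
theorem p4550 : PrV chk L4550 := leafV c4550

theorem c4551 : lp7 (fun s => chk (uent L4551 s)) 0 = true := by decide +kernel
theorem p4551 : PrV chk L4551 := leafV c4551

theorem c4552 : lp7 (fun s => chk (uent L4552 s)) 0 = true := by decide +kernel
theorem p4552 : PrV chk L4552 := leafV c4552

theorem c4553 : lp7 (fun s => chk (uent L4553 s)) 0 = true := by decide +kernel
theorem p4553 : PrV chk L4553 := leafV c4553

theorem c4554 : lp7 (fun s => chk (uent L4554 s)) 0 = true := by decide +kernel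
theorem p4554 : PrV chk L4554 := leafV c4554

theorem c4555 : lp7 (fun s => chk (uent L4555 s)) 0 = true := by decide +kernel
theorem p4555 : PrV chk L4555 := leafV c4555

theorem c4556 : lp7 (fun s => chk (uent L4556 s)) 0 = true := by decide +kernel
theorem p4556 : PrV chk L4556 := leafV c4556

theorem c4557 : lp7 (fun s => chk (uent L4557 s)) 0 = true := by decide +kernel
theorem p4557 : PrV chk L4557 := leafV c4557

theorem c4558 : lp7 (fun s => chk (uent L4558 s)) 0 = true := by decide +kernel
theorem p4558 : PrV chk L4558 := leafV c4558

theorem c4559 : lp7 (fun s => chk (uent L4559 s)) 0 = true := by decide +kernel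
theorem p4559 : PrV chk L4559 := leafV c4559

theorem c4560 : lp7 (fun s => chk (uent L4560 s)) 0 = true := by decide +kernel
theorem p4560 : PrV chk L4560 := leafV c4560

theorem c4561 : lp7 (fun s => chk (uent L4561 s)) 0 = true := by decide +kernel
theorem p4561 : PrV chk L4561 := leafV c4561

theorem c4562 : lp7 (fun s => chk (uent L4562 s)) 0 = true := by decide +kernel
theorem p4562 : PrV chk L4562 := leafV c4562

theorem c4563 : lp7 (fun s => chk (uent L4563 s)) 0 = true := by decide +kernel
theorem p4563 : PrV chk L4563 := leafV c4563

theorem c4564 : lp7 (fun s => chk (uent L4564 s)) 0 = true := by decide +kernel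
theorem p4564 : PrV chk L4564 := leafV c4564

theorem c4565 : lp7 (fun s => chk (uent L4565 s)) 0 = true := by decide +kernel
theorem p4565 : PrV chk L4565 := leafV c4565

theorem c4566 : lp7 (fun s => chk (uent L4566 s)) 0 = true := by decide +kernel
theorem p4566 : PrV chk L4566 := leafV c4566

theorem c4567 : lp7 (fun s => chk (uent L4567 s)) 0 = true := by decide +kernel
theorem p4567 : PrV chk L4567 := leafV c4567

theorem c4568 : lp7 (fun s => chk (uent L4568 s)) 0 = true := by decide +kernel
theorem p4568 : PrV chk L4568 := leafV c4568

theorem c4569 : lp7 (fun s => chk (uent L4569 s)) 0 = true := by decide +kernel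
theorem p4569 : PrV chk L4569 := leafV c4569

theorem c4570 : lp7 (fun s => chk (uent L4570 s)) 0 = true := by decide +kernel
theorem p4570 : PrV chk L4570 := leafV c4570

theorem c4571 : lp7 (fun s => chk (uent L4571 s)) 0 = true := by decide +kernel
theorem p4571 : PrV chk L4571 := leafV c4571

theorem c4572 : lp7 (fun s => chk (uent L4572 s)) 0 = true := by decide +kernel
theorem p4572 : PrV chk L4572 := leafV c4572

theorem c4573 : lp7 (fun s => chk (uent L4573 s)) 0 = true := by decide +kernel
theorem p4573 : PrV chk L4573 := leafV c4573

theorem c4574 : lp7 (fun s => chk (uent L4574 s)) 0 = true := by decide +kernel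
theorem p4574 : PrV chk L4574 := leafV c4574

theorem c4575 : lp7 (fun s => chk (uent L4575 s)) 0 = true := by decide +kernel
theorem p4575 : PrV chk L4575 := leafV c4575

theorem c4576 : lp7 (fun s => chk (uent L4576 s)) 0 = true := by decide +kernel
theorem p4576 : PrV chk L4576 := leafV c4576

theorem c4577 : lp7 (fun s => chk (uent L4577 s)) 0 = true := by decide +kernel
theorem p4577 : PrV chk L4577 := leafV c4577

theorem c4578 : lp7 (fun s => chk (uent L4578 s)) 0 = true := by decide +kernel
theorem p4578 : PrV chk L4578 := leafV c4578

theorem c4579 : lp7 (fun s => chk (uent L4579 s)) 0 = true := by decide +kernel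
theorem p4579 : PrV chk L4579 := leafV c4579

theorem c4580 : lp7 (fun s => chk (uent L4580 s)) 0 = true := by decide +kernel
theorem p4580 : PrV chk L4580 := leafV c4580

theorem c4581 : lp7 (fun s => chk (uent L4581 s)) 0 = true := by decide +kernel
theorem p4581 : PrV chk L4581 := leafV c4581

theorem c4582 : lp7 (fun s => chk (uent L4582 s)) 0 = true := by decide +kernel
theorem p4582 : PrV chk L4582 := leafV c4582

theorem c4583 : lp7 (fun s => chk (uent L4583 s)) 0 = true := by decide +kernel
theorem p4583 : PrV chk L4583 := leafV c4583

theorem c4584 : lp7 (fun s => chk (uent L4584 s)) 0 = true := by decide +kernel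
theorem p4584 : PrV chk L4584 := leafV c4584

theorem c4585 : lp7 (fun s => chk (uent L4585 s)) 0 = true := by decide +kernel
theorem p4585 : PrV chk L4585 := leafV c4585

theorem c4586 : lp7 (fun s => chk (uent L4586 s)) 0 = true := by decide +kernel
theorem p4586 : PrV chk L4586 := leafV c4586

theorem c4587 : lp7 (fun s => chk (uent L4587 s)) 0 = true := by decide +kernel
theorem p4587 : PrV chk L4587 := leafV c4587

theorem c4588 : lp7 (fun s => chk (uent L4588 s)) 0 = true := by decide +kernel
theorem p4588 : PrV chk L4588 := leafV c4588

theorem c4589 : lp7 (fun s => chk (uent L4589 s)) 0 = true := by decide +kernel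
theorem p4589 : PrV chk L4589 := leafV c4589

theorem c4590 : lp7 (fun s => chk (uent L4590 s)) 0 = true := by decide +kernel
theorem p4590 : PrV chk L4590 := leafV c4590

theorem c4591 : lp7 (fun s => chk (uent L4591 s)) 0 = true := by decide +kernel
theorem p4591 : PrV chk L4591 := leafV c4591

theorem c4592 : lp7 (fun s => chk (uent L4592 s)) 0 = true := by decide +kernel
theorem p4592 : PrV chk L4592 := leafV c4592

theorem c4593 : lp7 (fun s => chk (uent L4593 s)) 0 = true := by decide +kernel
theorem p4593 : PrV chk L4593 := leafV c4593

theorem c4594 : lp7 (fun s => chk (uent L4594 s)) 0 = true := by decide +kernel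
theorem p4594 : PrV chk L4594 := leafV c4594

theorem c4595 : lp7 (fun s => chk (uent L4595 s)) 0 = true := by decide +kernel
theorem p4595 : PrV chk L4595 := leafV c4595

theorem c4596 : lp7 (fun s => chk (uent L4596 s)) 0 = true := by decide +kernel
theorem p4596 : PrV chk L4596 := leafV c4596

theorem c4597 : lp7 (fun s => chk (uent L4597 s)) 0 = true := by decide +kernel
theorem p4597 : PrV chk L4597 := leafV c4597

theorem c4598 : lp7 (fun s => chk (uent L4598 s)) 0 = true := by decide +kernel
theorem p4598 : PrV chk L4598 := leafV c4598

theorem c4599 : lp7 (fun s => chk (uent L4599 s)) 0 = true := by decide +kernel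
theorem p4599 : PrV chk L4599 := leafV c4599

theorem c4600 : lp7 (fun s => chk (uent L4600 s)) 0 = true := by decide +kernel
theorem p4600 : PrV chk L4600 := leafV c4600

theorem c4601 : lp7 (fun s => chk (uent L4601 s)) 0 = true := by decide +kernel
theorem p4601 : PrV chk L4601 := leafV c4601

theorem c4602 : lp7 (fun s => chk (uent L4602 s)) 0 = true := by decide +kernel
theorem p4602 : PrV chk L4602 := leafV c4602

theorem c4603 : lp7 (fun s => chk (uent L4603 s)) 0 = true := by decide +kernel
theorem p4603 : PrV chk L4603 := leafV c4603

theorem c4604 : lp7 (fun s => chk (uent L4604 s)) 0 = true := by decide +kernel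
theorem p4604 : PrV chk L4604 := leafV c4604

theorem c4605 : lp7 (fun s => chk (uent L4605 s)) 0 = true := by decide +kernel
theorem p4605 : PrV chk L4605 := leafV c4605

theorem c4606 : lp7 (fun s => chk (uent L4606 s)) 0 = true := by decide +kernel
theorem p4606 : PrV chk L4606 := leafV c4606

theorem c4607 : lp7 (fun s => chk (uent L4607 s)) 0 = true := by decide +kernel
theorem p4607 : PrV chk L4607 := leafV c4607

end Pool.Agent.ad013a.W
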