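import Pool.Agent.H.MP_ad013a_pr.h63w.A.T
import Pool.Agent.H.MP_ad013a_pr.h63w.VLoop

namespace Pool.Agent.ad013a.W

theorem c6720 : lp7 (fun s => chk (uent L6720 s)) 0 = true := by decide +kernel
theorem p6720 : PrV chk L6720 := leafV c6720

theorem c6721 : lp7 (fun s => chk (uent L6721 s)) 0 = true := by decide +kernel
theorem p6721 : PrV chk L6721 := leafV c6721

theorem c6722 : lp7 (fun s => chk (uent L6722 s)) 0 = true := by decide +kernel
theorem p6722 : PrV chk L6722 := leafV c6722

theorem c6723 : lp7 (fun s => chk (uent L6723 s)) 0 = true := by decide +kernel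
theorem p6723 : PrV chk L6723 := leafV c6723

theorem c6724 : lp7 (fun s => chk (uent L6724 s)) 0 = true := by decide +kernel
theorem p6724 : PrV chk L6724 := leafV c6724

theorem c6725 : lp7 (fun s => chk (uent L6725 s)) 0 = true := by decide +kernel
theorem p6725 : PrV chk L6725 := leafV c6725

theorem c6726 : lp7 (fun s => chk (uent L6726 s)) 0 = true := by decide +kernel
theorem p6726 : PrV chk L6726 := leafV c6726

theorem c6727 : lp7 (fun s => chk (uent L6727 s)) 0 = true := by decide +kernel
theorem p6727 : PrV chk L6727 := leafV c6727

theorem c6728 : lp7 (fun s => chk (uent L6728 s)) 0 = true := by decide +kernel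
theorem p6728 : PrV chk L6728 := leafV c6728

theorem c6729 : lp7 (fun s => chk (uent L6729 s)) 0 = true := by decide +kernel
theorem p6729 : PrV chk L6729 := leafV c6729

theorem c6730 : lp7 (fun s => chk (uent L6730 s)) 0 = true := by decide +kernel
theorem p6730 : PrV chk L6730 := leafV c6730

theorem c6731 : lp7 (fun s => chk (uent L6731 s)) 0 = true := by decide +kernel
theorem p6731 : PrV chk L6731 := leafV c6731

theorem c6732 : lp7 (fun s => chk (uent L6732 s)) 0 = true := by decide +kernel
theorem p6732 : PrV chk L6732 := leafV c6732

theorem c6733 : lp7 (fun s => chk (uent L6733 s)) 0 = true := by decide +kernel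
theorem p6733 : PrV chk L6733 := leafV c6733

theorem c6734 : lp7 (fun s => chk (uent L6734 s)) 0 = true := by decide +kernel
theorem p6734 : PrV chk L6734 := leafV c6734

theorem c6735 : lp7 (fun s => chk (uent L6735 s)) 0 = true := by decide +kernel
theorem p6735 : PrV chk L6735 := leafV c6735

theorem c6736 : lp7 (fun s => chk (uent L6736 s)) 0 = true := by decide +kernel
theorem p6736 : PrV chk L6736 := leafV c6736

theorem c6737 : lp7 (fun s => chk (uent L6737 s)) 0 = true := by decide +kernel
theorem p6737 : PrV chk L6737 := leafV c6737

theorem c6738 : lp7 (fun s => chk (uent L6738 s)) 0 = true := by decide +kernel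
theorem p6738 : PrV chk L6738 := leafV c6738

theorem c6739 : lp7 (fun s => chk (uent L6739 s)) 0 = true := by decide +kernel
theorem p6739 : PrV chk L6739 := leafV c6739

theorem c6740 : lp7 (fun s => chk (uent L6740 s)) 0 = true := by decide +kernel
theorem p6740 : PrV chk L6740 := leafV c6740

theorem c6741 : lp7 (fun s => chk (uent L6741 s)) 0 = true := by decide +kernel
theorem p6741 : PrV chk L6741 := leafV c6741

theorem c6742 : lp7 (fun s => chk (uent L6742 s)) 0 = true := by decide +kernel
theorem p6742 : PrV chk L6742 := leafV c6742

theorem c6743 : lp7 (fun s => chk (uent L6743 s)) 0 = true := by decide +kernel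
theorem p6743 : PrV chk L6743 := leafV c6743

theorem c6744 : lp7 (fun s => chk (uent L6744 s)) 0 = true := by decide +kernel
theorem p6744 : PrV chk L6744 := leafV c6744

theorem c6745 : lp7 (fun s => chk (uent L6745 s)) 0 = true := by decide +kernel
theorem p6745 : PrV chk L6745 := leafV c6745

theorem c6746 : lp7 (fun s => chk (uent L6746 s)) 0 = true := by decide +kernel
theorem p6746 : PrV chk L6746 := leafV c6746

theorem c6747 : lp7 (fun s => chk (uent L6747 s)) 0 = true := by decide +kernel
theorem p6747 : PrV chk L6747 := leafV c6747

theorem c6748 : lp7 (fun s => chk (uent L6748 s)) 0 = true := by decide +kernel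
theorem p6748 : PrV chk L6748 := leafV c6748

theorem c6749 : lp7 (fun s => chk (uent L6749 s)) 0 = true := by decide +kernel
theorem p6749 : PrV chk L6749 := leafV c6749

theorem c6750 : lp7 (fun s => chk (uent L6750 s)) 0 = true := by decide +kernel
theorem p6750 : PrV chk L6750 := leafV c6750

theorem c6751 : lp7 (fun s => chk (uent L6751 s)) 0 = true := by decide +kernel
theorem p6751 : PrV chk L6751 := leafV c6751

theorem c6752 : lp7 (fun s => chk (uent L6752 s)) 0 = true := by decide +kernel
theorem p6752 : PrV chk L6752 := leafV c6752

theorem c6753 : lp7 (fun s => chk (uent L6753 s)) 0 = true := by decide +kernel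
theorem p6753 : PrV chk L6753 := leafV c6753

theorem c6754 : lp7 (fun s => chk (uent L6754 s)) 0 = true := by decide +kernel
theorem p6754 : PrV chk L6754 := leafV c6754

theorem c6755 : lp7 (fun s => chk (uent L6755 s)) 0 = true := by decide +kernel
theorem p6755 : PrV chk L6755 := leafV c6755

theorem c6756 : lp7 (fun s => chk (uent L6756 s)) 0 = true := by decide +kernel
theorem p6756 : PrV chk L6756 := leafV c6756

theorem c6757 : lp7 (fun s => chk (uent L6757 s)) 0 = true := by decide +kernel
theorem p6757 : PrV chk L6757 := leafV c6757

theorem c6758 : lp7 (fun s => chk (uent L6758 s)) 0 = true := by decide +kernel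
theorem p6758 : PrV chk L6758 := leafV c6758

theorem c6759 : lp7 (fun s => chk (uent L6759 s)) 0 = true := by decide +kernel
theorem p6759 : PrV chk L6759 := leafV c6759

theorem c6760 : lp7 (fun s => chk (uent L6760 s)) 0 = true := by decide +kernel
theorem p6760 : PrV chk L6760 := leafV c6760

theorem c6761 : lp7 (fun s => chk (uent L6761 s)) 0 = true := by decide +kernel
theorem p6761 : PrV chk L6761 := leafV c6761

theorem c6762 : lp7 (fun s => chk (uent L6762 s)) 0 = true := by decide +kernel
theorem p6762 : PrV chk L6762 := leafV c6762

theorem c6763 : lp7 (fun s => chk (uent L6763 s)) 0 = true := by decide +kernel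
theorem p6763 : PrV chk L6763 := leafV c6763

theorem c6764 : lp7 (fun s => chk (uent L6764 s)) 0 = true := by decide +kernel
theorem p6764 : PrV chk L6764 := leafV c6764

theorem c6765 : lp7 (fun s => chk (uent L6765 s)) 0 = true := by decide +kernel
theorem p6765 : PrV chk L6765 := leafV c6765

theorem c6766 : lp7 (fun s => chk (uent L6766 s)) 0 = true := by decide +kernel
theorem p6766 : PrV chk L6766 := leafV c6766

theorem c6767 : lp7 (fun s => chk (uent L6767 s)) 0 = true := by decide +kernel
theorem p6767 : PrV chk L6767 := leafV c6767

theorem c6768 : lp7 (fun s => chk (uent L6768 s)) 0 = true := by decide +kernel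
theorem p6768 : PrV chk L6768 := leafV c6768

theorem c6769 : lp7 (fun s => chk (uent L6769 s)) 0 = true := by decide +kernel
theorem p6769 : PrV chk L6769 := leafV c6769

theorem c6770 : lp7 (fun s => chk (uent L6770 s)) 0 = true := by decide +kernel
theorem p6770 : PrV chk L6770 := leafV c6770

theorem c6771 : lp7 (fun s => chk (uent L6771 s)) 0 = true := by decide +kernel
theorem p6771 : PrV chk L6771 := leafV c6771

theorem c6772 : lp7 (fun s => chk (uent L6772 s)) 0 = true := by decide +kernel
theorem p6772 : PrV chk L6772 := leafV c6772

theorem c6773 : lp7 (fun s => chk (uent L6773 s)) 0 = true := by decide +kernel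
theorem p6773 : PrV chk L6773 := leafV c6773

theorem c6774 : lp7 (fun s => chk (uent L6774 s)) 0 = true := by decide +kernel
theorem p6774 : PrV chk L6774 := leafV c6774

theorem c6775 : lp7 (fun s => chk (uent L6775 s)) 0 = true := by decide +kernel
theorem p6775 : PrV chk L6775 := leafV c6775

theorem c6776 : lp7 (fun s => chk (uent L6776 s)) 0 = true := by decide +kernel
theorem p6776 : PrV chk L6776 := leafV c6776

theorem c6777 : lp7 (fun s => chk (uent L6777 s)) 0 = true := by decide +kernel
theorem p6777 : PrV chk L6777 := leafV c6777

theorem c6778 : lp7 (fun s => chk (uent L6778 s)) 0 = true := by decide +kernel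
theorem p6778 : PrV chk L6778 := leafV c6778

theorem c6779 : lp7 (fun s => chk (uent L6779 s)) 0 = true := by decide +kernel
theorem p6779 : PrV chk L6779 := leafV c6779

theorem c6780 : lp7 (fun s => chk (uent L6780 s)) 0 = true := by decide +kernel
theorem p6780 : PrV chk L6780 := leafV c6780

theorem c6781 : lp7 (fun s => chk (uent L6781 s)) 0 = true := by decide +kernel
theorem p6781 : PrV chk L6781 := leafV c6781

theorem c6782 : lp7 (fun s => chk (uent L6782 s)) 0 = true := by decide +kernel
theorem p6782 : PrV chk L6782 := leafV c6782

theorem c6783 : lp7 (fun s => chk (uent L6783 s)) 0 = true := by decide +kernel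
theorem p6783 : PrV chk L6783 := leafV c6783

theorem c6784 : lp7 (fun s => chk (uent L6784 s)) 0 = true := by decide +kernel
theorem p6784 : PrV chk L6784 := leafV c6784

theorem c6785 : lp7 (fun s => chk (uent L6785 s)) 0 = true := by decide +kernel
theorem p6785 : PrV chk L6785 := leafV c6785

theorem c6786 : lp7 (fun s => chk (uent L6786 s)) 0 = true := by decide +kernel
theorem p6786 : PrV chk L6786 := leafV c6786

theorem c6787 : lp7 (fun s => chk (uent L6787 s)) 0 = true := by decide +kernel
theorem p6787 : PrV chk L6787 := leafV c6787

theorem c6788 : lp7 (fun s => chk (uent L6788 s)) 0 = true := by decide +kernel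
theorem p6788 : PrV chk L6788 := leafV c6788

theorem c6789 : lp7 (fun s => chk (uent L6789 s)) 0 = true := by decide +kernel
theorem p6789 : PrV chk L6789 := leafV c6789

theorem c6790 : lp7 (fun s => chk (uent L6790 s)) 0 = true := by decide +kernel
theorem p6790 : PrV chk L6790 := leafV c6790

theorem c6791 : lp7 (fun s => chk (uent L6791 s)) 0 = true := by decide +kernel
theorem p6791 : PrV chk L6791 := leafV c6791

theorem c6792 : lp7 (fun s => chk (uent L6792 s)) 0 = true := by decide +kernel
theorem p6792 : PrV chk L6792 := leafV c6792

theorem c6793 : lp7 (fun s => chk (uent L6793 s)) 0 = true := by decide +kernel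
theorem p6793 : PrV chk L6793 := leafV c6793

theorem c6794 : lp7 (fun s => chk (uent L6794 s)) 0 = true := by decide +kernel
theorem p6794 : PrV chk L6794 := leafV c6794

theorem c6795 : lp7 (fun s => chk (uent L6795 s)) 0 = true := by decide +kernel
theorem p6795 : PrV chk L6795 := leafV c6795

theorem c6796 : lp7 (fun s => chk (uent L6796 s)) 0 = true := by decide +kernel
theorem p6796 : PrV chk L6796 := leafV c6796

theorem c6797 : lp7 (fun s => chk (uent L6797 s)) 0 = true := by decide +kernel
theorem p6797 : PrV chk L6797 := leafV c6797

theorem c6798 : lp7 (fun s => chk (uent L6798 s)) 0 = true := by decide +kernel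
theorem p6798 : PrV chk L6798 := leafV c6798

theorem c6799 : lp7 (fun s => chk (uent L6799 s)) 0 = true := by decide +kernel
theorem p6799 : PrV chk L6799 := leafV c6799

theorem c6800 : lp7 (fun s => chk (uent L6800 s)) 0 = true := by decide +kernel
theorem p6800 : PrV chk L6800 := leafV c6800

theorem c6801 : lp7 (fun s => chk (uent L6801 s)) 0 = true := by decide +kernel
theorem p6801 : PrV chk L6801 := leafV c6801

theorem c6802 : lp7 (fun s => chk (uent L6802 s)) 0 = true := by decide +kernel
theorem p6802 : PrV chk L6802 := leafV c6802

theorem c6803 : lp7 (fun s => chk (uent L6803 s)) 0 = true := by decide +kernel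
theorem p6803 : PrV chk L6803 := leafV c6803

theorem c6804 : lp7 (fun s => chk (uent L6804 s)) 0 = true := by decide +kernel
theorem p6804 : PrV chk L6804 := leafV c6804

theorem c6805 : lp7 (fun s => chk (uent L6805 s)) 0 = true := by decide +kernel
theorem p6805 : PrV chk L6805 := leafV c6805

theorem c6806 : lp7 (fun s => chk (uent L6806 s)) 0 = true := by decide +kernel
theorem p6806 : PrV chk L6806 := leafV c6806

theorem c6807 : lp7 (fun s => chk (uent L6807 s)) 0 = true := by decide +kernel
theorem p6807 : PrV chk L6807 := leafV c6807

theorem c6808 : lp7 (fun s => chk (uent L6808 s)) 0 = true := by decide +kernel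
theorem p6808 : PrV chk L6808 := leafV c6808

theorem c6809 : lp7 (fun s => chk (uent L6809 s)) 0 = true := by decide +kernel
theorem p6809 : PrV chk L6809 := leafV c6809

theorem c6810 : lp7 (fun s => chk (uent L6810 s)) 0 = true := by decide +kernel
theorem p6810 : PrV chk L6810 := leafV c6810

theorem c6811 : lp7 (fun s => chk (uent L6811 s)) 0 = true := by decide +kernel
theorem p6811 : PrV chk L6811 := leafV c6811

theorem c6812 : lp7 (fun s => chk (uent L6812 s)) 0 = true := by decide +kernel
theorem p6812 : PrV chk L6812 := leafV c6812

theorem c6813 : lp7 (fun s => chk (uent L6813 s)) 0 = true := by decide +kernel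
theorem p6813 : PrV chk L6813 := leafV c6813

theorem c6814 : lp7 (fun s => chk (uent L6814 s)) 0 = true := by decide +kernel
theorem p6814 : PrV chk L6814 := leafV c6814

theorem c6815 : lp7 (fun s => chk (uent L6815 s)) 0 = true := by decide +kernel
theorem p6815 : PrV chk L6815 := leafV c6815

theorem c6816 : lp7 (fun s => chk (uent L6816 s)) 0 = true := by decide +kernel
theorem p6816 : PrV chk L6816 := leafV c6816

theorem c6817 : lp7 (fun s => chk (uent L6817 s)) 0 = true := by decide +kernel
theorem p6817 : PrV chk L6817 := leafV c6817

theorem c6818 : lp7 (fun s => chk (uent L6818 s)) 0 = true := by decide +kernel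
theorem p6818 : PrV chk L6818 := leafV c6818

theorem c6819 : lp7 (fun s => chk (uent L6819 s)) 0 = true := by decide +kernel
theorem p6819 : PrV chk L6819 := leafV c6819

theorem c6820 : lp7 (fun s => chk (uent L6820 s)) 0 = true := by decide +kernel
theorem p6820 : PrV chk L6820 := leafV c6820

theorem c6821 : lp7 (fun s => chk (uent L6821 s)) 0 = true := by decide +kernel
theorem p6821 : PrV chk L6821 := leafV c6821

theorem c6822 : lp7 (fun s => chk (uent L6822 s)) 0 = true := by decide +kernel
theorem p6822 : PrV chk L6822 := leafV c6822

theorem c6823 : lp7 (fun s => chk (uent L6823 s)) 0 = true := by decide +kernel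
theorem p6823 : PrV chk L6823 := leafV c6823

theorem c6824 : lp7 (fun s => chk (uent L6824 s)) 0 = true := by decide +kernel
theorem p6824 : PrV chk L6824 := leafV c6824

theorem c6825 : lp7 (fun s => chk (uent L6825 s)) 0 = true := by decide +kernel
theorem p6825 : PrV chk L6825 := leafV c6825

theorem c6826 : lp7 (fun s => chk (uent L6826 s)) 0 = true := by decide +kernel
theorem p6826 : PrV chk L6826 := leafV c6826

theorem c6827 : lp7 (fun s => chk (uent L6827 s)) 0 = true := by decide +kernel
theorem p6827 : PrV chk L6827 := leafV c6827

theorem c6828 : lp7 (fun s => chk (uent L6828 s)) 0 = true := by decide +kernel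
theorem p6828 : PrV chk L6828 := leafV c6828

theorem c6829 : lp7 (fun s => chk (uent L6829 s)) 0 = true := by decide +kernel
theorem p6829 : PrV chk L6829 := leafV c6829

theorem c6830 : lp7 (fun s => chk (uent L6830 s)) 0 = true := by decide +kernel
theorem p6830 : PrV chk L6830 := leafV c6830

theorem c6831 : lp7 (fun s => chk (uent L6831 s)) 0 = true := by decide +kernel
theorem p6831 : PrV chk L6831 := leafV c6831

theorem c6832 : lp7 (fun s => chk (uent L6832 s)) 0 = true := by decide +kernel
theorem p6832 : PrV chk L6832 := leafV c6832

theorem c6833 : lp7 (fun s => chk (uent L6833 s)) 0 = true := by decide +kernel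
theorem p6833 : PrV chk L6833 := leafV c6833

theorem c6834 : lp7 (fun s => chk (uent L6834 s)) 0 = true := by decide +kernel
theorem p6834 : PrV chk L6834 := leafV c6834

theorem c6835 : lp7 (fun s => chk (uent L6835 s)) 0 = true := by decide +kernel
theorem p6835 : PrV chk L6835 := leafV c6835

theorem c6836 : lp7 (fun s => chk (uent L6836 s)) 0 = true := by decide +kernel
theorem p6836 : PrV chk L6836 := leafV c6836

theorem c6837 : lp7 (fun s => chk (uent L6837 s)) 0 = true := by decide +kernel
theorem p6837 : PrV chk L6837 := leafV c6837

theorem c6838 : lp7 (fun s => chk (uent L6838 s)) 0 = true := by decide +kernel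
theorem p6838 : PrV chk L6838 := leafV c6838

theorem c6839 : lp7 (fun s => chk (uent L6839 s)) 0 = true := by decide +kernel
theorem p6839 : PrV chk L6839 := leafV c6839

theorem c6840 : lp7 (fun s => chk (uent L6840 s)) 0 = true := by decide +kernel
theorem p6840 : PrV chk L6840 := leafV c6840

theorem c6841 : lp7 (fun s => chk (uent L6841 s)) 0 = true := by decide +kernel
theorem p6841 : PrV chk L6841 := leafV c6841

theorem c6842 : lp7 (fun s => chk (uent L6842 s)) 0 = true := by decide +kernel
theorem p6842 : PrV chk L6842 := leafV c6842

theorem c6843 : lp7 (fun s => chk (uent L6843 s)) 0 = true := by decide +kernel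
theorem p6843 : PrV chk L6843 := leafV c6843

theorem c6844 : lp7 (fun s => chk (uent L6844 s)) 0 = true := by decide +kernel
theorem p6844 : PrV chk L6844 := leafV c6844

theorem c6845 : lp7 (fun s => chk (uent L6845 s)) 0 = true := by decide +kernel
theorem p6845 : PrV chk L6845 := leafV c6845

theorem c6846 : lp7 (fun s => chk (uent L6846 s)) 0 = true := by decide +kernel
theorem p6846 : PrV chk L6846 := leafV c6846

theorem c6847 : lp7 (fun s => chk (uent L6847 s)) 0 = true := by decide +kernel
theorem p6847 : PrV chk L6847 := leafV c6847

theorem c6848 : lp7 (fun s => chk (uent L6848 s)) 0 = true := by decide +kernel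
theorem p6848 : PrV chk L6848 := leafV c6848

theorem c6849 : lp7 (fun s => chk (uent L6849 s)) 0 = true := by decide +kernel
theorem p6849 : PrV chk L6849 := leafV c6849

theorem c6850 : lp7 (fun s => chk (uent L6850 s)) 0 = true := by decide +kernel
theorem p6850 : PrV chk L6850 := leafV c6850

theorem c6851 : lp7 (fun s => chk (uent L6851 s)) 0 = true := by decide +kernel
theorem p6851 : PrV chk L6851 := leafV c6851

theorem c6852 : lp7 (fun s => chk (uent L6852 s)) 0 = true := by decide +kernel
theorem p6852 : PrV chk L6852 := leafV c6852

theorem c6853 : lp7 (fun s => chk (uent L6853 s)) 0 = true := by decide +kernel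
theorem p6853 : PrV chk L6853 := leafV c6853

theorem c6854 : lp7 (fun s => chk (uent L6854 s)) 0 = true := by decide +kernel
theorem p6854 : PrV chk L6854 := leafV c6854

theorem c6855 : lp7 (fun s => chk (uent L6855 s)) 0 = true := by decide +kernel
theorem p6855 : PrV chk L6855 := leafV c6855

theorem c6856 : lp7 (fun s => chk (uent L6856 s)) 0 = true := by decide +kernel
theorem p6856 : PrV chk L6856 := leafV c6856

theorem c6857 : lp7 (fun s => chk (uent L6857 s)) 0 = true := by decide +kernel
theorem p6857 : PrV chk L6857 := leafV c6857

theorem c6858 : lp7 (fun s => chk (uent L6858 s)) 0 = true := by decide +kernel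
theorem p6858 : PrV chk L6858 := leafV c6858

theorem c6859 : lp7 (fun s => chk (uent L6859 s)) 0 = true := by decide +kernel
theorem p6859 : PrV chk L6859 := leafV c6859

theorem c6860 : lp7 (fun s => chk (uent L6860 s)) 0 = true := by decide +kernel
theorem p6860 : PrV chk L6860 := leafV c6860

theorem c6861 : lp7 (fun s => chk (uent L6861 s)) 0 = true := by decide +kernel
theorem p6861 : PrV chk L6861 := leafV c6861

theorem c6862 : lp7 (fun s => chk (uent L6862 s)) 0 = true := by decide +kernel
theorem p6862 : PrV chk L6862 := leafV c6862

theorem c6863 : lp7 (fun s => chk (uent L6863 s)) 0 = true := by decide +kernel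
theorem p6863 : PrV chk L6863 := leafV c6863

theorem c6864 : lp7 (fun s => chk (uent L6864 s)) 0 = true := by decide +kernel
theorem p6864 : PrV chk L6864 := leafV c6864

theorem c6865 : lp7 (fun s => chk (uent L6865 s)) 0 = true := by decide +kernel
theorem p6865 : PrV chk L6865 := leafV c6865

theorem c6866 : lp7 (fun s => chk (uent L6866 s)) 0 = true := by decide +kernel
theorem p6866 : PrV chk L6866 := leafV c6866

theorem c6867 : lp7 (fun s => chk (uent L6867 s)) 0 = true := by decide +kernel
theorem p6867 : PrV chk L6867 := leafV c6867

theorem c6868 : lp7 (fun s => chk (uent L6868 s)) 0 = true := by decide +kernel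
theorem p6868 : PrV chk L6868 := leafV c6868

theorem c6869 : lp7 (fun s => chk (uent L6869 s)) 0 = true := by decide +kernel
theorem p6869 : PrV chk L6869 := leafV c6869

theorem c6870 : lp7 (fun s => chk (uent L6870 s)) 0 = true := by decide +kernel
theorem p6870 : PrV chk L6870 := leafV c6870

theorem c6871 : lp7 (fun s => chk (uent L6871 s)) 0 = true := by decide +kernel
theorem p6871 : PrV chk L6871 := leafV c6871

theorem c6872 : lp7 (fun s => chk (uent L6872 s)) 0 = true := by decide +kernel
theorem p6872 : PrV chk L6872 := leafV c6872

theorem c6873 : lp7 (fun s => chk (uent L6873 s)) 0 = true := by decide +kernel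
theorem p6873 : PrV chk L6873 := leafV c6873

theorem c6874 : lp7 (fun s => chk (uent L6874 s)) 0 = true := by decide +kernel
theorem p6874 : PrV chk L6874 := leafV c6874

theorem c6875 : lp7 (fun s => chk (uent L6875 s)) 0 = true := by decide +kernel
theorem p6875 : PrV chk L6875 := leafV c6875

theorem c6876 : lp7 (fun s => chk (uent L6876 s)) 0 = true := by decide +kernel
theorem p6876 : PrV chk L6876 := leafV c6876

theorem c6877 : lp7 (fun s => chk (uent L6877 s)) 0 = true := by decide +kernel
theorem p6877 : PrV chk L6877 := leafV c6877

theorem c6878 : lp7 (fun s => chk (uent L6878 s)) 0 = true := by decide +kernel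
theorem p6878 : PrV chk L6878 := leafV c6878

theorem c6879 : lp7 (fun s => chk (uent L6879 s)) 0 = true := by decide +kernel
theorem p6879 : PrV chk L6879 := leafV c6879

theorem c6880 : lp7 (fun s => chk (uent L6880 s)) 0 = true := by decide +kernel
theorem p6880 : PrV chk L6880 := leafV c6880

theorem c6881 : lp7 (fun s => chk (uent L6881 s)) 0 = true := by decide +kernel
theorem p6881 : PrV chk L6881 := leafV c6881

theorem c6882 : lp7 (fun s => chk (uent L6882 s)) 0 = true := by decide +kernel
theorem p6882 : PrV chk L6882 := leafV c6882

theorem c6883 : lp7 (fun s => chk (uent L6883 s)) 0 = true := by decide +kernel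
theorem p6883 : PrV chk L6883 := leafV c6883

theorem c6884 : lp7 (fun s => chk (uent L6884 s)) 0 = true := by decide +kernel
theorem p6884 : PrV chk L6884 := leafV c6884

theorem c6885 : lp7 (fun s => chk (uent L6885 s)) 0 = true := by decide +kernel
theorem p6885 : PrV chk L6885 := leafV c6885

theorem c6886 : lp7 (fun s => chk (uent L6886 s)) 0 = true := by decide +kernel
theorem p6886 : PrV chk L6886 := leafV c6886

theorem c6887 : lp7 (fun s => chk (uent L6887 s)) 0 = true := by decide +kernel
theorem p6887 : PrV chk L6887 := leafV c6887

theorem c6888 : lp7 (fun s => chk (uent L6888 s)) 0 = true := by decide +kernel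
theorem p6888 : PrV chk L6888 := leafV c6888

theorem c6889 : lp7 (fun s => chk (uent L6889 s)) 0 = true := by decide +kernel
theorem p6889 : PrV chk L6889 := leafV c6889

theorem c6890 : lp7 (fun s => chk (uent L6890 s)) 0 = true := by decide +kernel
theorem p6890 : PrV chk L6890 := leafV c6890

theorem c6891 : lp7 (fun s => chk (uent L6891 s)) 0 = true := by decide +kernel
theorem p6891 : PrV chk L6891 := leafV c6891

theorem c6892 : lp7 (fun s => chk (uent L6892 s)) 0 = true := by decide +kernel
theorem p6892 : PrV chk L6892 := leafV c6892

theorem c6893 : lp7 (fun s => chk (uent L6893 s)) 0 = true := by decide +kernel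
theorem p6893 : PrV chk L6893 := leafV c6893

theorem c6894 : lp7 (fun s => chk (uent L6894 s)) 0 = true := by decide +kernel
theorem p6894 : PrV chk L6894 := leafV c6894

theorem c6895 : lp7 (fun s => chk (uent L6895 s)) 0 = true := by decide +kernel
theorem p6895 : PrV chk L6895 := leafV c6895

theorem c6896 : lp7 (fun s => chk (uent L6896 s)) 0 = true := by decide +kernel
theorem p6896 : PrV chk L6896 := leafV c6896

theorem c6897 : lp7 (fun s => chk (uent L6897 s)) 0 = true := by decide +kernel
theorem p6897 : PrV chk L6897 := leafV c6897

theorem c6898 : lp7 (fun s => chk (uent L6898 s)) 0 = true := by decide +kernel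
theorem p6898 : PrV chk L6898 := leafV c6898

theorem c6899 : lp7 (fun s => chk (uent L6899 s)) 0 = true := by decide +kernel
theorem p6899 : PrV chk L6899 := leafV c6899

theorem c6900 : lp7 (fun s => chk (uent L6900 s)) 0 = true := by decide +kernel
theorem p6900 : PrV chk L6900 := leafV c6900

theorem c6901 : lp7 (fun s => chk (uent L6901 s)) 0 = true := by decide +kernel
theorem p6901 : PrV chk L6901 := leafV c6901

theorem c6902 : lp7 (fun s => chk (uent L6902 s)) 0 = true := by decide +kernel
theorem p6902 : PrV chk L6902 := leafV c6902

theorem c6903 : lp7 (fun s => chk (uent L6903 s)) 0 = true := by decide +kernel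
theorem p6903 : PrV chk L6903 := leafV c6903

theorem c6904 : lp7 (fun s => chk (uent L6904 s)) 0 = true := by decide +kernel
theorem p6904 : PrV chk L6904 := leafV c6904

theorem c6905 : lp7 (fun s => chk (uent L6905 s)) 0 = true := by decide +kernel
theorem p6905 : PrV chk L6905 := leafV c6905

theorem c6906 : lp7 (fun s => chk (uent L6906 s)) 0 = true := by decide +kernel
theorem p6906 : PrV chk L6906 := leafV c6906

theorem c6907 : lp7 (fun s => chk (uent L6907 s)) 0 = true := by decide +kernel
theorem p6907 : PrV chk L6907 := leafV c6907

theorem c6908 : lp7 (fun s => chk (uent L6908 s)) 0 = true := by decide +kernel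
theorem p6908 : PrV chk L6908 := leafV c6908

theorem c6909 : lp7 (fun s => chk (uent L6909 s)) 0 = true := by decide +kernel
theorem p6909 : PrV chk L6909 := leafV c6909

theorem c6910 : lp7 (fun s => chk (uent L6910 s)) 0 = true := by decide +kernel
theorem p6910 : PrV chk L6910 := leafV c6910

theorem c6911 : lp7 (fun s => chk (uent L6911 s)) 0 = true := by decide +kernel
theorem p6911 : PrV chk L6911 := leafV c6911

end Pool.Agent.ad013a.W
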