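import Pool.Agent.H.MP_ad013a_pr.h63w.WFlat
import Pool.Agent.H.MP_ad013a_pr.h63w.A.D0
import Pool.Agent.H.MP_ad013a_pr.h63w.A.D1
import Pool.Agent.H.MP_ad013a_pr.h63w.A.D2
import Pool.Agent.H.MP_ad013a_pr.h63w.A.D3
import Pool.Agent.H.MP_ad013a_pr.h63w.A.D4
import Pool.Agent.H.MP_ad013a_pr.h63w.A.D5
import Pool.Agent.H.MP_ad013a_pr.h63w.A.D6
import Pool.Agent.H.MP_ad013a_pr.h63w.A.D7
import Pool.Agent.H.MP_ad013a_pr.h63w.A.D8
import Pool.Agent.H.MP_ad013a_pr.h63w.A.D9
import Pool.Agent.H.MP_ad013a_pr.h63w.A.D10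
import Pool.Agent.H.MP_ad013a_pr.h63w.A.D11
import Pool.Agent.H.MP_ad013a_pr.h63w.A.D12
import Pool.Agent.H.MP_ad013a_pr.h63w.A.D13
import Pool.Agent.H.MP_ad013a_pr.h63w.A.D14
import Pool.Agent.H.MP_ad013a_pr.h63w.A.D15
import Pool.Agent.H.MP_ad013a_pr.h63w.A.D16
import Pool.Agent.H.MP_ad013a_pr.h63w.A.D17
import Pool.Agent.H.MP_ad013a_pr.h63w.A.D18
import Pool.Agent.H.MP_ad013a_pr.h63w.A.D19
import Pool.Agent.H.MP_ad013a_pr.h63w.A.D20
import Pool.Agent.H.MP_ad013a_pr.h63w.A.D21
import Pool.Agent.H.MP_ad013a_pr.h63w.A.D22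
import Pool.Agent.H.MP_ad013a_pr.h63w.A.D23
import Pool.Agent.H.MP_ad013a_pr.h63w.A.D24
import Pool.Agent.H.MP_ad013a_pr.h63w.A.D25
import Pool.Agent.H.MP_ad013a_pr.h63w.A.D26
import Pool.Agent.H.MP_ad013a_pr.h63w.A.D27
import Pool.Agent.H.MP_ad013a_pr.h63w.A.D28

namespace Pool.Agent.ad013a.W

/-- choice of a leaf -/
noncomputable def A0_0 (i : Nat) : Nat :=
 (Bool.rec (motive := fun _ => Nat)
 (Bool.rec (motive := fun _ => Nat)
  (Bool.rec (motive := fun _ => Nat)
   (Bool.rec (motive := fun _ => Nat)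
    L0
    L1
    (Nat.ble 128 i))
   (Bool.rec (motive := fun _ => Nat)
    L2
    L3
    (Nat.ble 384 i))
   (Nat.ble 256 i))
  (Bool.rec (motive := fun _ => Nat)
   (Bool.rec (motive := fun _ => Nat)
    L4
    L5
    (Nat.ble 640 i))
   (Bool.rec (motive := fun _ => Nat)
    L6
    L7
    (Nat.ble 896 i))
   (Nat.ble 768 i))
  (Nat.ble 512 i))
 (Bool.rec (motive := fun _ => Nat)
  (Bool.rec (motive := fun _ => Nat)
   (Bool.rec (motive := fun _ => Nat)
    L8
    L9
    (Nat.ble 1152 i))
   (Bool.rec (motive := fun _ => Nat)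
    L10
    L11
    (Nat.ble 1408 i))
   (Nat.ble 1280 i))
  (Bool.rec (motive := fun _ => Nat)
   (Bool.rec (motive := fun _ => Nat)
    L12
    L13
    (Nat.ble 1664 i))
   (Bool.rec (motive := fun _ => Nat)
    L14
    L15
    (Nat.ble 1920 i))
   (Nat.ble 1792 i))
  (Nat.ble 1536 i))
 (Nat.ble 1024 i))

/-- choice of a leaf -/
noncomputable def A0_1 (i : Nat) : Nat :=
 (Bool.rec (motive := fun _ => Nat)
 (Bool.rec (motive := fun _ => Nat)
  (Bool.rec (motive := fun _ => Nat)
   (Bool.rec (motive := fun _ => Nat)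
    L16
    L17
    (Nat.ble 2176 i))
   (Bool.rec (motive := fun _ => Nat)
    L18
    L19
    (Nat.ble 2432 i))
   (Nat.ble 2304 i))
  (Bool.rec (motive := fun _ => Nat)
   (Bool.rec (motive := fun _ => Nat)
    L20
    L21
    (Nat.ble 2688 i))
   (Bool.rec (motive := fun _ => Nat)
    L22
    L23
    (Nat.ble 2944 i))
   (Nat.ble 2816 i))
  (Nat.ble 2560 i))
 (Bool.rec (motive := fun _ => Nat)
  (Bool.rec (motive := fun _ => Nat)
   (Bool.rec (motive := fun _ => Nat)
    L24
    L25
    (Nat.ble 3200 i))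
   (Bool.rec (motive := fun _ => Nat)
    L26
    L27
    (Nat.ble 3456 i))
   (Nat.ble 3328 i))
  (Bool.rec (motive := fun _ => Nat)
   (Bool.rec (motive := fun _ => Nat)
    L28
    L29
    (Nat.ble 3712 i))
   (Bool.rec (motive := fun _ => Nat)
    L30
    L31
    (Nat.ble 3968 i))
   (Nat.ble 3840 i))
  (Nat.ble 3584 i))
 (Nat.ble 3072 i))

/-- choice of a leaf -/
noncomputable def A0_2 (i : Nat) : Nat :=
 (Bool.rec (motive := fun _ => Nat)
 (Bool.rec (motive := fun _ => Nat)
  (Bool.rec (motive := fun _ => Nat)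
   (Bool.rec (motive := fun _ => Nat)
    L32
    L33
    (Nat.ble 4224 i))
   (Bool.rec (motive := fun _ => Nat)
    L34
    L35
    (Nat.ble 4480 i))
   (Nat.ble 4352 i))
  (Bool.rec (motive := fun _ => Nat)
   (Bool.rec (motive := fun _ => Nat)
    L36
    L37
    (Nat.ble 4736 i))
   (Bool.rec (motive := fun _ => Nat)
    L38
    L39
    (Nat.ble 4992 i))
   (Nat.ble 4864 i))
  (Nat.ble 4608 i))
 (Bool.rec (motive := fun _ => Nat)
  (Bool.rec (motive := fun _ => Nat)
   (Bool.rec (motive := fun _ => Nat)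
    L40
    L41
    (Nat.ble 5248 i))
   (Bool.rec (motive := fun _ => Nat)
    L42
    L43
    (Nat.ble 5504 i))
   (Nat.ble 5376 i))
  (Bool.rec (motive := fun _ => Nat)
   (Bool.rec (motive := fun _ => Nat)
    L44
    L45
    (Nat.ble 5760 i))
   (Bool.rec (motive := fun _ => Nat)
    L46
    L47
    (Nat.ble 6016 i))
   (Nat.ble 5888 i))
  (Nat.ble 5632 i))
 (Nat.ble 5120 i))

/-- choice of a leaf -/
noncomputable def A0_3 (i : Nat) : Nat :=
 (Bool.rec (motive := fun _ => Nat)
 (Bool.rec (motive := fun _ => Nat)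
  (Bool.rec (motive := fun _ => Nat)
   (Bool.rec (motive := fun _ => Nat)
    L48
    L49
    (Nat.ble 6272 i))
   (Bool.rec (motive := fun _ => Nat)
    L50
    L51
    (Nat.ble 6528 i))
   (Nat.ble 6400 i))
  (Bool.rec (motive := fun _ => Nat)
   (Bool.rec (motive := fun _ => Nat)
    L52
    L53
    (Nat.ble 6784 i))
   (Bool.rec (motive := fun _ => Nat)
    L54
    L55
    (Nat.ble 7040 i))
   (Nat.ble 6912 i))
  (Nat.ble 6656 i))
 (Bool.rec (motive := fun _ => Nat)
  (Bool.rec (motive := fun _ => Nat)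
   (Bool.rec (motive := fun _ => Nat)
    L56
    L57
    (Nat.ble 7296 i))
   (Bool.rec (motive := fun _ => Nat)
    L58
    L59
    (Nat.ble 7552 i))
   (Nat.ble 7424 i))
  (Bool.rec (motive := fun _ => Nat)
   (Bool.rec (motive := fun _ => Nat)
    L60
    L61
    (Nat.ble 7808 i))
   (Bool.rec (motive := fun _ => Nat)
    L62
    L63
    (Nat.ble 8064 i))
   (Nat.ble 7936 i))
  (Nat.ble 7680 i))
 (Nat.ble 7168 i))

/-- choice of a leaf -/
noncomputable def A0_4 (i : Nat) : Nat :=
 (Bool.rec (motive := fun _ => Nat)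
 (Bool.rec (motive := fun _ => Nat)
  (Bool.rec (motive := fun _ => Nat)
   (Bool.rec (motive := fun _ => Nat)
    L64
    L65
    (Nat.ble 8320 i))
   (Bool.rec (motive := fun _ => Nat)
    L66
    L67
    (Nat.ble 8576 i))
   (Nat.ble 8448 i))
  (Bool.rec (motive := fun _ => Nat)
   (Bool.rec (motive := fun _ => Nat)
    L68
    L69
    (Nat.ble 8832 i))
   (Bool.rec (motive := fun _ => Nat)
    L70
    L71
    (Nat.ble 9088 i))
   (Nat.ble 8960 i))
  (Nat.ble 8704 i))
 (Bool.rec (motive := fun _ => Nat)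
  (Bool.rec (motive := fun _ => Nat)
   (Bool.rec (motive := fun _ => Nat)
    L72
    L73
    (Nat.ble 9344 i))
   (Bool.rec (motive := fun _ => Nat)
    L74
    L75
    (Nat.ble 9600 i))
   (Nat.ble 9472 i))
  (Bool.rec (motive := fun _ => Nat)
   (Bool.rec (motive := fun _ => Nat)
    L76
    L77
    (Nat.ble 9856 i))
   (Bool.rec (motive := fun _ => Nat)
    L78
    L79
    (Nat.ble 10112 i))
   (Nat.ble 9984 i))
  (Nat.ble 9728 i))
 (Nat.ble 9216 i))

/-- choice of a leaf -/
noncomputable def A0_5 (i : Nat) : Nat :=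
 (Bool.rec (motive := fun _ => Nat)
 (Bool.rec (motive := fun _ => Nat)
  (Bool.rec (motive := fun _ => Nat)
   (Bool.rec (motive := fun _ => Nat)
    L80
    L81
    (Nat.ble 10368 i))
   (Bool.rec (motive := fun _ => Nat)
    L82
    L83
    (Nat.ble 10624 i))
   (Nat.ble 10496 i))
  (Bool.rec (motive := fun _ => Nat)
   (Bool.rec (motive := fun _ => Nat)
    L84
    L85
    (Nat.ble 10880 i))
   (Bool.rec (motive := fun _ => Nat)
    L86
    L87
    (Nat.ble 11136 i))
   (Nat.ble 11008 i))
  (Nat.ble 10752 i))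
 (Bool.rec (motive := fun _ => Nat)
  (Bool.rec (motive := fun _ => Nat)
   (Bool.rec (motive := fun _ => Nat)
    L88
    L89
    (Nat.ble 11392 i))
   (Bool.rec (motive := fun _ => Nat)
    L90
    L91
    (Nat.ble 11648 i))
   (Nat.ble 11520 i))
  (Bool.rec (motive := fun _ => Nat)
   (Bool.rec (motive := fun _ => Nat)
    L92
    L93
    (Nat.ble 11904 i))
   (Bool.rec (motive := fun _ => Nat)
    L94
    L95
    (Nat.ble 12160 i))
   (Nat.ble 12032 i))
  (Nat.ble 11776 i))
 (Nat.ble 11264 i))

/-- choice of a leaf -/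
noncomputable def A0_6 (i : Nat) : Nat :=
 (Bool.rec (motive := fun _ => Nat)
 (Bool.rec (motive := fun _ => Nat)
  (Bool.rec (motive := fun _ => Nat)
   (Bool.rec (motive := fun _ => Nat)
    L96
    L97
    (Nat.ble 12416 i))
   (Bool.rec (motive := fun _ => Nat)
    L98
    L99
    (Nat.ble 12672 i))
   (Nat.ble 12544 i))
  (Bool.rec (motive := fun _ => Nat)
   (Bool.rec (motive := fun _ => Nat)
    L100
    L101
    (Nat.ble 12928 i))
   (Bool.rec (motive := fun _ => Nat)
    L102
    L103
    (Nat.ble 13184 i))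
   (Nat.ble 13056 i))
  (Nat.ble 12800 i))
 (Bool.rec (motive := fun _ => Nat)
  (Bool.rec (motive := fun _ => Nat)
   (Bool.rec (motive := fun _ => Nat)
    L104
    L105
    (Nat.ble 13440 i))
   (Bool.rec (motive := fun _ => Nat)
    L106
    L107
    (Nat.ble 13696 i))
   (Nat.ble 13568 i))
  (Bool.rec (motive := fun _ => Nat)
   (Bool.rec (motive := fun _ => Nat)
    L108
    L109
    (Nat.ble 13952 i))
   (Bool.rec (motive := fun _ => Nat)
    L110
    L111
    (Nat.ble 14208 i))
   (Nat.ble 14080 i))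
  (Nat.ble 13824 i))
 (Nat.ble 13312 i))

/-- choice of a leaf -/
noncomputable def A0_7 (i : Nat) : Nat :=
 (Bool.rec (motive := fun _ => Nat)
 (Bool.rec (motive := fun _ => Nat)
  (Bool.rec (motive := fun _ => Nat)
   (Bool.rec (motive := fun _ => Nat)
    L112
    L113
    (Nat.ble 14464 i))
   (Bool.rec (motive := fun _ => Nat)
    L114
    L115
    (Nat.ble 14720 i))
   (Nat.ble 14592 i))
  (Bool.rec (motive := fun _ => Nat)
   (Bool.rec (motive := fun _ => Nat)
    L116
    L117
    (Nat.ble 14976 i))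
   (Bool.rec (motive := fun _ => Nat)
    L118
    L119
    (Nat.ble 15232 i))
   (Nat.ble 15104 i))
  (Nat.ble 14848 i))
 (Bool.rec (motive := fun _ => Nat)
  (Bool.rec (motive := fun _ => Nat)
   (Bool.rec (motive := fun _ => Nat)
    L120
    L121
    (Nat.ble 15488 i))
   (Bool.rec (motive := fun _ => Nat)
    L122
    L123
    (Nat.ble 15744 i))
   (Nat.ble 15616 i))
  (Bool.rec (motive := fun _ => Nat)
   (Bool.rec (motive := fun _ => Nat)
    L124
    L125
    (Nat.ble 16000 i))
   (Bool.rec (motive := fun _ => Nat)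
    L126
    L127
    (Nat.ble 16256 i))
   (Nat.ble 16128 i))
  (Nat.ble 15872 i))
 (Nat.ble 15360 i))

/-- choice of a leaf -/
noncomputable def A0_8 (i : Nat) : Nat :=
 (Bool.rec (motive := fun _ => Nat)
 (Bool.rec (motive := fun _ => Nat)
  (Bool.rec (motive := fun _ => Nat)
   (Bool.rec (motive := fun _ => Nat)
    L128
    L129
    (Nat.ble 16512 i))
   (Bool.rec (motive := fun _ => Nat)
    L130
    L131
    (Nat.ble 16768 i))
   (Nat.ble 16640 i))
  (Bool.rec (motive := fun _ => Nat)
   (Bool.rec (motive := fun _ => Nat)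
    L132
    L133
    (Nat.ble 17024 i))
   (Bool.rec (motive := fun _ => Nat)
    L134
    L135
    (Nat.ble 17280 i))
   (Nat.ble 17152 i))
  (Nat.ble 16896 i))
 (Bool.rec (motive := fun _ => Nat)
  (Bool.rec (motive := fun _ => Nat)
   (Bool.rec (motive := fun _ => Nat)
    L136
    L137
    (Nat.ble 17536 i))
   (Bool.rec (motive := fun _ => Nat)
    L138
    L139
    (Nat.ble 17792 i))
   (Nat.ble 17664 i))
  (Bool.rec (motive := fun _ => Nat)
   (Bool.rec (motive := fun _ => Nat)
    L140
    L141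
    (Nat.ble 18048 i))
   (Bool.rec (motive := fun _ => Nat)
    L142
    L143
    (Nat.ble 18304 i))
   (Nat.ble 18176 i))
  (Nat.ble 17920 i))
 (Nat.ble 17408 i))

/-- choice of a leaf -/
noncomputable def A0_9 (i : Nat) : Nat :=
 (Bool.rec (motive := fun _ => Nat)
 (Bool.rec (motive := fun _ => Nat)
  (Bool.rec (motive := fun _ => Nat)
   (Bool.rec (motive := fun _ => Nat)
    L144
    L145
    (Nat.ble 18560 i))
   (Bool.rec (motive := fun _ => Nat)
    L146
    L147
    (Nat.ble 18816 i))
   (Nat.ble 18688 i))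
  (Bool.rec (motive := fun _ => Nat)
   (Bool.rec (motive := fun _ => Nat)
    L148
    L149
    (Nat.ble 19072 i))
   (Bool.rec (motive := fun _ => Nat)
    L150
    L151
    (Nat.ble 19328 i))
   (Nat.ble 19200 i))
  (Nat.ble 18944 i))
 (Bool.rec (motive := fun _ => Nat)
  (Bool.rec (motive := fun _ => Nat)
   (Bool.rec (motive := fun _ => Nat)
    L152
    L153
    (Nat.ble 19584 i))
   (Bool.rec (motive := fun _ => Nat)
    L154
    L155
    (Nat.ble 19840 i))
   (Nat.ble 19712 i))
  (Bool.rec (motive := fun _ => Nat)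
   (Bool.rec (motive := fun _ => Nat)
    L156
    L157
    (Nat.ble 20096 i))
   (Bool.rec (motive := fun _ => Nat)
    L158
    L159
    (Nat.ble 20352 i))
   (Nat.ble 20224 i))
  (Nat.ble 19968 i))
 (Nat.ble 19456 i))

/-- choice of a leaf -/
noncomputable def A0_10 (i : Nat) : Nat :=
 (Bool.rec (motive := fun _ => Nat)
 (Bool.rec (motive := fun _ => Nat)
  (Bool.rec (motive := fun _ => Nat)
   (Bool.rec (motive := fun _ => Nat)
    L160
    L161
    (Nat.ble 20608 i))
   (Bool.rec (motive := fun _ => Nat)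
    L162
    L163
    (Nat.ble 20864 i))
   (Nat.ble 20736 i))
  (Bool.rec (motive := fun _ => Nat)
   (Bool.rec (motive := fun _ => Nat)
    L164
    L165
    (Nat.ble 21120 i))
   (Bool.rec (motive := fun _ => Nat)
    L166
    L167
    (Nat.ble 21376 i))
   (Nat.ble 21248 i))
  (Nat.ble 20992 i))
 (Bool.rec (motive := fun _ => Nat)
  (Bool.rec (motive := fun _ => Nat)
   (Bool.rec (motive := fun _ => Nat)
    L168
    L169
    (Nat.ble 21632 i))
   (Bool.rec (motive := fun _ => Nat)
    L170
    L171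
    (Nat.ble 21888 i))
   (Nat.ble 21760 i))
  (Bool.rec (motive := fun _ => Nat)
   (Bool.rec (motive := fun _ => Nat)
    L172
    L173
    (Nat.ble 22144 i))
   (Bool.rec (motive := fun _ => Nat)
    L174
    L175
    (Nat.ble 22400 i))
   (Nat.ble 22272 i))
  (Nat.ble 22016 i))
 (Nat.ble 21504 i))

/-- choice of a leaf -/
noncomputable def A0_11 (i : Nat) : Nat :=
 (Bool.rec (motive := fun _ => Nat)
 (Bool.rec (motive := fun _ => Nat)
  (Bool.rec (motive := fun _ => Nat)
   (Bool.rec (motive := fun _ => Nat)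
    L176
    L177
    (Nat.ble 22656 i))
   (Bool.rec (motive := fun _ => Nat)
    L178
    L179
    (Nat.ble 22912 i))
   (Nat.ble 22784 i))
  (Bool.rec (motive := fun _ => Nat)
   (Bool.rec (motive := fun _ => Nat)
    L180
    L181
    (Nat.ble 23168 i))
   (Bool.rec (motive := fun _ => Nat)
    L182
    L183
    (Nat.ble 23424 i))
   (Nat.ble 23296 i))
  (Nat.ble 23040 i))
 (Bool.rec (motive := fun _ => Nat)
  (Bool.rec (motive := fun _ => Nat)
   (Bool.rec (motive := fun _ => Nat)
    L184
    L185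
    (Nat.ble 23680 i))
   (Bool.rec (motive := fun _ => Nat)
    L186
    L187
    (Nat.ble 23936 i))
   (Nat.ble 23808 i))
  (Bool.rec (motive := fun _ => Nat)
   (Bool.rec (motive := fun _ => Nat)
    L188
    L189
    (Nat.ble 24192 i))
   (Bool.rec (motive := fun _ => Nat)
    L190
    L191
    (Nat.ble 24448 i))
   (Nat.ble 24320 i))
  (Nat.ble 24064 i))
 (Nat.ble 23552 i))

/-- choice of a leaf -/
noncomputable def A0_12 (i : Nat) : Nat :=
 (Bool.rec (motive := fun _ => Nat)
 (Bool.rec (motive := fun _ => Nat)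
  (Bool.rec (motive := fun _ => Nat)
   (Bool.rec (motive := fun _ => Nat)
    L192
    L193
    (Nat.ble 24704 i))
   (Bool.rec (motive := fun _ => Nat)
    L194
    L195
    (Nat.ble 24960 i))
   (Nat.ble 24832 i))
  (Bool.rec (motive := fun _ => Nat)
   (Bool.rec (motive := fun _ => Nat)
    L196
    L197
    (Nat.ble 25216 i))
   (Bool.rec (motive := fun _ => Nat)
    L198
    L199
    (Nat.ble 25472 i))
   (Nat.ble 25344 i))
  (Nat.ble 25088 i))
 (Bool.rec (motive := fun _ => Nat)
  (Bool.rec (motive := fun _ => Nat)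
   (Bool.rec (motive := fun _ => Nat)
    L200
    L201
    (Nat.ble 25728 i))
   (Bool.rec (motive := fun _ => Nat)
    L202
    L203
    (Nat.ble 25984 i))
   (Nat.ble 25856 i))
  (Bool.rec (motive := fun _ => Nat)
   (Bool.rec (motive := fun _ => Nat)
    L204
    L205
    (Nat.ble 26240 i))
   (Bool.rec (motive := fun _ => Nat)
    L206
    L207
    (Nat.ble 26496 i))
   (Nat.ble 26368 i))
  (Nat.ble 26112 i))
 (Nat.ble 25600 i))

/-- choice of a leaf -/
noncomputable def A0_13 (i : Nat) : Nat :=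
 (Bool.rec (motive := fun _ => Nat)
 (Bool.rec (motive := fun _ => Nat)
  (Bool.rec (motive := fun _ => Nat)
   (Bool.rec (motive := fun _ => Nat)
    L208
    L209
    (Nat.ble 26752 i))
   (Bool.rec (motive := fun _ => Nat)
    L210
    L211
    (Nat.ble 27008 i))
   (Nat.ble 26880 i))
  (Bool.rec (motive := fun _ => Nat)
   (Bool.rec (motive := fun _ => Nat)
    L212
    L213
    (Nat.ble 27264 i))
   (Bool.rec (motive := fun _ => Nat)
    L214
    L215
    (Nat.ble 27520 i))
   (Nat.ble 27392 i))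
  (Nat.ble 27136 i))
 (Bool.rec (motive := fun _ => Nat)
  (Bool.rec (motive := fun _ => Nat)
   (Bool.rec (motive := fun _ => Nat)
    L216
    L217
    (Nat.ble 27776 i))
   (Bool.rec (motive := fun _ => Nat)
    L218
    L219
    (Nat.ble 28032 i))
   (Nat.ble 27904 i))
  (Bool.rec (motive := fun _ => Nat)
   (Bool.rec (motive := fun _ => Nat)
    L220
    L221
    (Nat.ble 28288 i))
   (Bool.rec (motive := fun _ => Nat)
    L222
    L223
    (Nat.ble 28544 i))
   (Nat.ble 28416 i))
  (Nat.ble 28160 i))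
 (Nat.ble 27648 i))

/-- choice of a leaf -/
noncomputable def A0_14 (i : Nat) : Nat :=
 (Bool.rec (motive := fun _ => Nat)
 (Bool.rec (motive := fun _ => Nat)
  (Bool.rec (motive := fun _ => Nat)
   (Bool.rec (motive := fun _ => Nat)
    L224
    L225
    (Nat.ble 28800 i))
   (Bool.rec (motive := fun _ => Nat)
    L226
    L227
    (Nat.ble 29056 i))
   (Nat.ble 28928 i))
  (Bool.rec (motive := fun _ => Nat)
   (Bool.rec (motive := fun _ => Nat)
    L228
    L229
    (Nat.ble 29312 i))
   (Bool.rec (motive := fun _ => Nat)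
    L230
    L231
    (Nat.ble 29568 i))
   (Nat.ble 29440 i))
  (Nat.ble 29184 i))
 (Bool.rec (motive := fun _ => Nat)
  (Bool.rec (motive := fun _ => Nat)
   (Bool.rec (motive := fun _ => Nat)
    L232
    L233
    (Nat.ble 29824 i))
   (Bool.rec (motive := fun _ => Nat)
    L234
    L235
    (Nat.ble 30080 i))
   (Nat.ble 29952 i))
  (Bool.rec (motive := fun _ => Nat)
   (Bool.rec (motive := fun _ => Nat)
    L236
    L237
    (Nat.ble 30336 i))
   (Bool.rec (motive := fun _ => Nat)
    L238
    L239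
    (Nat.ble 30592 i))
   (Nat.ble 30464 i))
  (Nat.ble 30208 i))
 (Nat.ble 29696 i))

/-- choice of a leaf -/
noncomputable def A0_15 (i : Nat) : Nat :=
 (Bool.rec (motive := fun _ => Nat)
 (Bool.rec (motive := fun _ => Nat)
  (Bool.rec (motive := fun _ => Nat)
   (Bool.rec (motive := fun _ => Nat)
    L240
    L241
    (Nat.ble 30848 i))
   (Bool.rec (motive := fun _ => Nat)
    L242
    L243
    (Nat.ble 31104 i))
   (Nat.ble 30976 i))
  (Bool.rec (motive := fun _ => Nat)
   (Bool.rec (motive := fun _ => Nat)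
    L244
    L245
    (Nat.ble 31360 i))
   (Bool.rec (motive := fun _ => Nat)
    L246
    L247
    (Nat.ble 31616 i))
   (Nat.ble 31488 i))
  (Nat.ble 31232 i))
 (Bool.rec (motive := fun _ => Nat)
  (Bool.rec (motive := fun _ => Nat)
   (Bool.rec (motive := fun _ => Nat)
    L248
    L249
    (Nat.ble 31872 i))
   (Bool.rec (motive := fun _ => Nat)
    L250
    L251
    (Nat.ble 32128 i))
   (Nat.ble 32000 i))
  (Bool.rec (motive := fun _ => Nat)
   (Bool.rec (motive := fun _ => Nat)
    L252
    L253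
    (Nat.ble 32384 i))
   (Bool.rec (motive := fun _ => Nat)
    L254
    L255
    (Nat.ble 32640 i))
   (Nat.ble 32512 i))
  (Nat.ble 32256 i))
 (Nat.ble 31744 i))

/-- choice of a leaf -/
noncomputable def A0_16 (i : Nat) : Nat :=
 (Bool.rec (motive := fun _ => Nat)
 (Bool.rec (motive := fun _ => Nat)
  (Bool.rec (motive := fun _ => Nat)
   (Bool.rec (motive := fun _ => Nat)
    L256
    L257
    (Nat.ble 32896 i))
   (Bool.rec (motive := fun _ => Nat)
    L258
    L259
    (Nat.ble 33152 i))
   (Nat.ble 33024 i))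
  (Bool.rec (motive := fun _ => Nat)
   (Bool.rec (motive := fun _ => Nat)
    L260
    L261
    (Nat.ble 33408 i))
   (Bool.rec (motive := fun _ => Nat)
    L262
    L263
    (Nat.ble 33664 i))
   (Nat.ble 33536 i))
  (Nat.ble 33280 i))
 (Bool.rec (motive := fun _ => Nat)
  (Bool.rec (motive := fun _ => Nat)
   (Bool.rec (motive := fun _ => Nat)
    L264
    L265
    (Nat.ble 33920 i))
   (Bool.rec (motive := fun _ => Nat)
    L266
    L267
    (Nat.ble 34176 i))
   (Nat.ble 34048 i))
  (Bool.rec (motive := fun _ => Nat)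
   (Bool.rec (motive := fun _ => Nat)
    L268
    L269
    (Nat.ble 34432 i))
   (Bool.rec (motive := fun _ => Nat)
    L270
    L271
    (Nat.ble 34688 i))
   (Nat.ble 34560 i))
  (Nat.ble 34304 i))
 (Nat.ble 33792 i))

/-- choice of a leaf -/
noncomputable def A0_17 (i : Nat) : Nat :=
 (Bool.rec (motive := fun _ => Nat)
 (Bool.rec (motive := fun _ => Nat)
  (Bool.rec (motive := fun _ => Nat)
   (Bool.rec (motive := fun _ => Nat)
    L272
    L273
    (Nat.ble 34944 i))
   (Bool.rec (motive := fun _ => Nat)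
    L274
    L275
    (Nat.ble 35200 i))
   (Nat.ble 35072 i))
  (Bool.rec (motive := fun _ => Nat)
   (Bool.rec (motive := fun _ => Nat)
    L276
    L277
    (Nat.ble 35456 i))
   (Bool.rec (motive := fun _ => Nat)
    L278
    L279
    (Nat.ble 35712 i))
   (Nat.ble 35584 i))
  (Nat.ble 35328 i))
 (Bool.rec (motive := fun _ => Nat)
  (Bool.rec (motive := fun _ => Nat)
   (Bool.rec (motive := fun _ => Nat)
    L280
    L281
    (Nat.ble 35968 i))
   (Bool.rec (motive := fun _ => Nat)
    L282
    L283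
    (Nat.ble 36224 i))
   (Nat.ble 36096 i))
  (Bool.rec (motive := fun _ => Nat)
   (Bool.rec (motive := fun _ => Nat)
    L284
    L285
    (Nat.ble 36480 i))
   (Bool.rec (motive := fun _ => Nat)
    L286
    L287
    (Nat.ble 36736 i))
   (Nat.ble 36608 i))
  (Nat.ble 36352 i))
 (Nat.ble 35840 i))

/-- choice of a leaf -/
noncomputable def A0_18 (i : Nat) : Nat :=
 (Bool.rec (motive := fun _ => Nat)
 (Bool.rec (motive := fun _ => Nat)
  (Bool.rec (motive := fun _ => Nat)
   (Bool.rec (motive := fun _ => Nat)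
    L288
    L289
    (Nat.ble 36992 i))
   (Bool.rec (motive := fun _ => Nat)
    L290
    L291
    (Nat.ble 37248 i))
   (Nat.ble 37120 i))
  (Bool.rec (motive := fun _ => Nat)
   (Bool.rec (motive := fun _ => Nat)
    L292
    L293
    (Nat.ble 37504 i))
   (Bool.rec (motive := fun _ => Nat)
    L294
    L295
    (Nat.ble 37760 i))
   (Nat.ble 37632 i))
  (Nat.ble 37376 i))
 (Bool.rec (motive := fun _ => Nat)
  (Bool.rec (motive := fun _ => Nat)
   (Bool.rec (motive := fun _ => Nat)
    L296
    L297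
    (Nat.ble 38016 i))
   (Bool.rec (motive := fun _ => Nat)
    L298
    L299
    (Nat.ble 38272 i))
   (Nat.ble 38144 i))
  (Bool.rec (motive := fun _ => Nat)
   (Bool.rec (motive := fun _ => Nat)
    L300
    L301
    (Nat.ble 38528 i))
   (Bool.rec (motive := fun _ => Nat)
    L302
    L303
    (Nat.ble 38784 i))
   (Nat.ble 38656 i))
  (Nat.ble 38400 i))
 (Nat.ble 37888 i))

/-- choice of a leaf -/
noncomputable def A0_19 (i : Nat) : Nat :=
 (Bool.rec (motive := fun _ => Nat)
 (Bool.rec (motive := fun _ => Nat)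
  (Bool.rec (motive := fun _ => Nat)
   (Bool.rec (motive := fun _ => Nat)
    L304
    L305
    (Nat.ble 39040 i))
   (Bool.rec (motive := fun _ => Nat)
    L306
    L307
    (Nat.ble 39296 i))
   (Nat.ble 39168 i))
  (Bool.rec (motive := fun _ => Nat)
   (Bool.rec (motive := fun _ => Nat)
    L308
    L309
    (Nat.ble 39552 i))
   (Bool.rec (motive := fun _ => Nat)
    L310
    L311
    (Nat.ble 39808 i))
   (Nat.ble 39680 i))
  (Nat.ble 39424 i))
 (Bool.rec (motive := fun _ => Nat)
  (Bool.rec (motive := fun _ => Nat)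
   (Bool.rec (motive := fun _ => Nat)
    L312
    L313
    (Nat.ble 40064 i))
   (Bool.rec (motive := fun _ => Nat)
    L314
    L315
    (Nat.ble 40320 i))
   (Nat.ble 40192 i))
  (Bool.rec (motive := fun _ => Nat)
   (Bool.rec (motive := fun _ => Nat)
    L316
    L317
    (Nat.ble 40576 i))
   (Bool.rec (motive := fun _ => Nat)
    L318
    L319
    (Nat.ble 40832 i))
   (Nat.ble 40704 i))
  (Nat.ble 40448 i))
 (Nat.ble 39936 i))

/-- choice of a leaf -/
noncomputable def A0_20 (i : Nat) : Nat :=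
 (Bool.rec (motive := fun _ => Nat)
 (Bool.rec (motive := fun _ => Nat)
  (Bool.rec (motive := fun _ => Nat)
   (Bool.rec (motive := fun _ => Nat)
    L320
    L321
    (Nat.ble 41088 i))
   (Bool.rec (motive := fun _ => Nat)
    L322
    L323
    (Nat.ble 41344 i))
   (Nat.ble 41216 i))
  (Bool.rec (motive := fun _ => Nat)
   (Bool.rec (motive := fun _ => Nat)
    L324
    L325
    (Nat.ble 41600 i))
   (Bool.rec (motive := fun _ => Nat)
    L326
    L327
    (Nat.ble 41856 i))
   (Nat.ble 41728 i))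
  (Nat.ble 41472 i))
 (Bool.rec (motive := fun _ => Nat)
  (Bool.rec (motive := fun _ => Nat)
   (Bool.rec (motive := fun _ => Nat)
    L328
    L329
    (Nat.ble 42112 i))
   (Bool.rec (motive := fun _ => Nat)
    L330
    L331
    (Nat.ble 42368 i))
   (Nat.ble 42240 i))
  (Bool.rec (motive := fun _ => Nat)
   (Bool.rec (motive := fun _ => Nat)
    L332
    L333
    (Nat.ble 42624 i))
   (Bool.rec (motive := fun _ => Nat)
    L334
    L335
    (Nat.ble 42880 i))
   (Nat.ble 42752 i))
  (Nat.ble 42496 i))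
 (Nat.ble 41984 i))

/-- choice of a leaf -/
noncomputable def A0_21 (i : Nat) : Nat :=
 (Bool.rec (motive := fun _ => Nat)
 (Bool.rec (motive := fun _ => Nat)
  (Bool.rec (motive := fun _ => Nat)
   (Bool.rec (motive := fun _ => Nat)
    L336
    L337
    (Nat.ble 43136 i))
   (Bool.rec (motive := fun _ => Nat)
    L338
    L339
    (Nat.ble 43392 i))
   (Nat.ble 43264 i))
  (Bool.rec (motive := fun _ => Nat)
   (Bool.rec (motive := fun _ => Nat)
    L340
    L341
    (Nat.ble 43648 i))
   (Bool.rec (motive := fun _ => Nat)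
    L342
    L343
    (Nat.ble 43904 i))
   (Nat.ble 43776 i))
  (Nat.ble 43520 i))
 (Bool.rec (motive := fun _ => Nat)
  (Bool.rec (motive := fun _ => Nat)
   (Bool.rec (motive := fun _ => Nat)
    L344
    L345
    (Nat.ble 44160 i))
   (Bool.rec (motive := fun _ => Nat)
    L346
    L347
    (Nat.ble 44416 i))
   (Nat.ble 44288 i))
  (Bool.rec (motive := fun _ => Nat)
   (Bool.rec (motive := fun _ => Nat)
    L348
    L349
    (Nat.ble 44672 i))
   (Bool.rec (motive := fun _ => Nat)
    L350
    L351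
    (Nat.ble 44928 i))
   (Nat.ble 44800 i))
  (Nat.ble 44544 i))
 (Nat.ble 44032 i))

/-- choice of a leaf -/
noncomputable def A0_22 (i : Nat) : Nat :=
 (Bool.rec (motive := fun _ => Nat)
 (Bool.rec (motive := fun _ => Nat)
  (Bool.rec (motive := fun _ => Nat)
   (Bool.rec (motive := fun _ => Nat)
    L352
    L353
    (Nat.ble 45184 i))
   (Bool.rec (motive := fun _ => Nat)
    L354
    L355
    (Nat.ble 45440 i))
   (Nat.ble 45312 i))
  (Bool.rec (motive := fun _ => Nat)
   (Bool.rec (motive := fun _ => Nat)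
    L356
    L357
    (Nat.ble 45696 i))
   (Bool.rec (motive := fun _ => Nat)
    L358
    L359
    (Nat.ble 45952 i))
   (Nat.ble 45824 i))
  (Nat.ble 45568 i))
 (Bool.rec (motive := fun _ => Nat)
  (Bool.rec (motive := fun _ => Nat)
   (Bool.rec (motive := fun _ => Nat)
    L360
    L361
    (Nat.ble 46208 i))
   (Bool.rec (motive := fun _ => Nat)
    L362
    L363
    (Nat.ble 46464 i))
   (Nat.ble 46336 i))
  (Bool.rec (motive := fun _ => Nat)
   (Bool.rec (motive := fun _ => Nat)
    L364
    L365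
    (Nat.ble 46720 i))
   (Bool.rec (motive := fun _ => Nat)
    L366
    L367
    (Nat.ble 46976 i))
   (Nat.ble 46848 i))
  (Nat.ble 46592 i))
 (Nat.ble 46080 i))

/-- choice of a leaf -/
noncomputable def A0_23 (i : Nat) : Nat :=
 (Bool.rec (motive := fun _ => Nat)
 (Bool.rec (motive := fun _ => Nat)
  (Bool.rec (motive := fun _ => Nat)
   (Bool.rec (motive := fun _ => Nat)
    L368
    L369
    (Nat.ble 47232 i))
   (Bool.rec (motive := fun _ => Nat)
    L370
    L371
    (Nat.ble 47488 i))
   (Nat.ble 47360 i))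
  (Bool.rec (motive := fun _ => Nat)
   (Bool.rec (motive := fun _ => Nat)
    L372
    L373
    (Nat.ble 47744 i))
   (Bool.rec (motive := fun _ => Nat)
    L374
    L375
    (Nat.ble 48000 i))
   (Nat.ble 47872 i))
  (Nat.ble 47616 i))
 (Bool.rec (motive := fun _ => Nat)
  (Bool.rec (motive := fun _ => Nat)
   (Bool.rec (motive := fun _ => Nat)
    L376
    L377
    (Nat.ble 48256 i))
   (Bool.rec (motive := fun _ => Nat)
    L378
    L379
    (Nat.ble 48512 i))
   (Nat.ble 48384 i))
  (Bool.rec (motive := fun _ => Nat)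
   (Bool.rec (motive := fun _ => Nat)
    L380
    L381
    (Nat.ble 48768 i))
   (Bool.rec (motive := fun _ => Nat)
    L382
    L383
    (Nat.ble 49024 i))
   (Nat.ble 48896 i))
  (Nat.ble 48640 i))
 (Nat.ble 48128 i))

/-- choice of a leaf -/
noncomputable def A0_24 (i : Nat) : Nat :=
 (Bool.rec (motive := fun _ => Nat)
 (Bool.rec (motive := fun _ => Nat)
  (Bool.rec (motive := fun _ => Nat)
   (Bool.rec (motive := fun _ => Nat)
    L384
    L385
    (Nat.ble 49280 i))
   (Bool.rec (motive := fun _ => Nat)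
    L386
    L387
    (Nat.ble 49536 i))
   (Nat.ble 49408 i))
  (Bool.rec (motive := fun _ => Nat)
   (Bool.rec (motive := fun _ => Nat)
    L388
    L389
    (Nat.ble 49792 i))
   (Bool.rec (motive := fun _ => Nat)
    L390
    L391
    (Nat.ble 50048 i))
   (Nat.ble 49920 i))
  (Nat.ble 49664 i))
 (Bool.rec (motive := fun _ => Nat)
  (Bool.rec (motive := fun _ => Nat)
   (Bool.rec (motive := fun _ => Nat)
    L392
    L393
    (Nat.ble 50304 i))
   (Bool.rec (motive := fun _ => Nat)
    L394
    L395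
    (Nat.ble 50560 i))
   (Nat.ble 50432 i))
  (Bool.rec (motive := fun _ => Nat)
   (Bool.rec (motive := fun _ => Nat)
    L396
    L397
    (Nat.ble 50816 i))
   (Bool.rec (motive := fun _ => Nat)
    L398
    L399
    (Nat.ble 51072 i))
   (Nat.ble 50944 i))
  (Nat.ble 50688 i))
 (Nat.ble 50176 i))

/-- choice of a leaf -/
noncomputable def A0_25 (i : Nat) : Nat :=
 (Bool.rec (motive := fun _ => Nat)
 (Bool.rec (motive := fun _ => Nat)
  (Bool.rec (motive := fun _ => Nat)
   (Bool.rec (motive := fun _ => Nat)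
    L400
    L401
    (Nat.ble 51328 i))
   (Bool.rec (motive := fun _ => Nat)
    L402
    L403
    (Nat.ble 51584 i))
   (Nat.ble 51456 i))
  (Bool.rec (motive := fun _ => Nat)
   (Bool.rec (motive := fun _ => Nat)
    L404
    L405
    (Nat.ble 51840 i))
   (Bool.rec (motive := fun _ => Nat)
    L406
    L407
    (Nat.ble 52096 i))
   (Nat.ble 51968 i))
  (Nat.ble 51712 i))
 (Bool.rec (motive := fun _ => Nat)
  (Bool.rec (motive := fun _ => Nat)
   (Bool.rec (motive := fun _ => Nat)
    L408
    L409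
    (Nat.ble 52352 i))
   (Bool.rec (motive := fun _ => Nat)
    L410
    L411
    (Nat.ble 52608 i))
   (Nat.ble 52480 i))
  (Bool.rec (motive := fun _ => Nat)
   (Bool.rec (motive := fun _ => Nat)
    L412
    L413
    (Nat.ble 52864 i))
   (Bool.rec (motive := fun _ => Nat)
    L414
    L415
    (Nat.ble 53120 i))
   (Nat.ble 52992 i))
  (Nat.ble 52736 i))
 (Nat.ble 52224 i))

/-- choice of a leaf -/
noncomputable def A0_26 (i : Nat) : Nat :=
 (Bool.rec (motive := fun _ => Nat)
 (Bool.rec (motive := fun _ => Nat)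
  (Bool.rec (motive := fun _ => Nat)
   (Bool.rec (motive := fun _ => Nat)
    L416
    L417
    (Nat.ble 53376 i))
   (Bool.rec (motive := fun _ => Nat)
    L418
    L419
    (Nat.ble 53632 i))
   (Nat.ble 53504 i))
  (Bool.rec (motive := fun _ => Nat)
   (Bool.rec (motive := fun _ => Nat)
    L420
    L421
    (Nat.ble 53888 i))
   (Bool.rec (motive := fun _ => Nat)
    L422
    L423
    (Nat.ble 54144 i))
   (Nat.ble 54016 i))
  (Nat.ble 53760 i))
 (Bool.rec (motive := fun _ => Nat)
  (Bool.rec (motive := fun _ => Nat)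
   (Bool.rec (motive := fun _ => Nat)
    L424
    L425
    (Nat.ble 54400 i))
   (Bool.rec (motive := fun _ => Nat)
    L426
    L427
    (Nat.ble 54656 i))
   (Nat.ble 54528 i))
  (Bool.rec (motive := fun _ => Nat)
   (Bool.rec (motive := fun _ => Nat)
    L428
    L429
    (Nat.ble 54912 i))
   (Bool.rec (motive := fun _ => Nat)
    L430
    L431
    (Nat.ble 55168 i))
   (Nat.ble 55040 i))
  (Nat.ble 54784 i))
 (Nat.ble 54272 i))

/-- choice of a leaf -/
noncomputable def A0_27 (i : Nat) : Nat :=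
 (Bool.rec (motive := fun _ => Nat)
 (Bool.rec (motive := fun _ => Nat)
  (Bool.rec (motive := fun _ => Nat)
   (Bool.rec (motive := fun _ => Nat)
    L432
    L433
    (Nat.ble 55424 i))
   (Bool.rec (motive := fun _ => Nat)
    L434
    L435
    (Nat.ble 55680 i))
   (Nat.ble 55552 i))
  (Bool.rec (motive := fun _ => Nat)
   (Bool.rec (motive := fun _ => Nat)
    L436
    L437
    (Nat.ble 55936 i))
   (Bool.rec (motive := fun _ => Nat)
    L438
    L439
    (Nat.ble 56192 i))
   (Nat.ble 56064 i))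
  (Nat.ble 55808 i))
 (Bool.rec (motive := fun _ => Nat)
  (Bool.rec (motive := fun _ => Nat)
   (Bool.rec (motive := fun _ => Nat)
    L440
    L441
    (Nat.ble 56448 i))
   (Bool.rec (motive := fun _ => Nat)
    L442
    L443
    (Nat.ble 56704 i))
   (Nat.ble 56576 i))
  (Bool.rec (motive := fun _ => Nat)
   (Bool.rec (motive := fun _ => Nat)
    L444
    L445
    (Nat.ble 56960 i))
   (Bool.rec (motive := fun _ => Nat)
    L446
    L447
    (Nat.ble 57216 i))
   (Nat.ble 57088 i))
  (Nat.ble 56832 i))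
 (Nat.ble 56320 i))

/-- choice of a leaf -/
noncomputable def A0_28 (i : Nat) : Nat :=
 (Bool.rec (motive := fun _ => Nat)
 (Bool.rec (motive := fun _ => Nat)
  (Bool.rec (motive := fun _ => Nat)
   (Bool.rec (motive := fun _ => Nat)
    L448
    L449
    (Nat.ble 57472 i))
   (Bool.rec (motive := fun _ => Nat)
    L450
    L451
    (Nat.ble 57728 i))
   (Nat.ble 57600 i))
  (Bool.rec (motive := fun _ => Nat)
   (Bool.rec (motive := fun _ => Nat)
    L452
    L453
    (Nat.ble 57984 i))
   (Bool.rec (motive := fun _ => Nat)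
    L454
    L455
    (Nat.ble 58240 i))
   (Nat.ble 58112 i))
  (Nat.ble 57856 i))
 (Bool.rec (motive := fun _ => Nat)
  (Bool.rec (motive := fun _ => Nat)
   (Bool.rec (motive := fun _ => Nat)
    L456
    L457
    (Nat.ble 58496 i))
   (Bool.rec (motive := fun _ => Nat)
    L458
    L459
    (Nat.ble 58752 i))
   (Nat.ble 58624 i))
  (Bool.rec (motive := fun _ => Nat)
   (Bool.rec (motive := fun _ => Nat)
    L460
    L461
    (Nat.ble 59008 i))
   (Bool.rec (motive := fun _ => Nat)
    L462
    L463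
    (Nat.ble 59264 i))
   (Nat.ble 59136 i))
  (Nat.ble 58880 i))
 (Nat.ble 58368 i))

/-- choice of a leaf -/
noncomputable def A0_29 (i : Nat) : Nat :=
 (Bool.rec (motive := fun _ => Nat)
 (Bool.rec (motive := fun _ => Nat)
  (Bool.rec (motive := fun _ => Nat)
   (Bool.rec (motive := fun _ => Nat)
    L464
    L465
    (Nat.ble 59520 i))
   (Bool.rec (motive := fun _ => Nat)
    L466
    L467
    (Nat.ble 59776 i))
   (Nat.ble 59648 i))
  (Bool.rec (motive := fun _ => Nat)
   (Bool.rec (motive := fun _ => Nat)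
    L468
    L469
    (Nat.ble 60032 i))
   (Bool.rec (motive := fun _ => Nat)
    L470
    L471
    (Nat.ble 60288 i))
   (Nat.ble 60160 i))
  (Nat.ble 59904 i))
 (Bool.rec (motive := fun _ => Nat)
  (Bool.rec (motive := fun _ => Nat)
   (Bool.rec (motive := fun _ => Nat)
    L472
    L473
    (Nat.ble 60544 i))
   (Bool.rec (motive := fun _ => Nat)
    L474
    L475
    (Nat.ble 60800 i))
   (Nat.ble 60672 i))
  (Bool.rec (motive := fun _ => Nat)
   (Bool.rec (motive := fun _ => Nat)
    L476
    L477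
    (Nat.ble 61056 i))
   (Bool.rec (motive := fun _ => Nat)
    L478
    L479
    (Nat.ble 61312 i))
   (Nat.ble 61184 i))
  (Nat.ble 60928 i))
 (Nat.ble 60416 i))

/-- choice of a leaf -/
noncomputable def A0_30 (i : Nat) : Nat :=
 (Bool.rec (motive := fun _ => Nat)
 (Bool.rec (motive := fun _ => Nat)
  (Bool.rec (motive := fun _ => Nat)
   (Bool.rec (motive := fun _ => Nat)
    L480
    L481
    (Nat.ble 61568 i))
   (Bool.rec (motive := fun _ => Nat)
    L482
    L483
    (Nat.ble 61824 i))
   (Nat.ble 61696 i))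
  (Bool.rec (motive := fun _ => Nat)
   (Bool.rec (motive := fun _ => Nat)
    L484
    L485
    (Nat.ble 62080 i))
   (Bool.rec (motive := fun _ => Nat)
    L486
    L487
    (Nat.ble 62336 i))
   (Nat.ble 62208 i))
  (Nat.ble 61952 i))
 (Bool.rec (motive := fun _ => Nat)
  (Bool.rec (motive := fun _ => Nat)
   (Bool.rec (motive := fun _ => Nat)
    L488
    L489
    (Nat.ble 62592 i))
   (Bool.rec (motive := fun _ => Nat)
    L490
    L491
    (Nat.ble 62848 i))
   (Nat.ble 62720 i))
  (Bool.rec (motive := fun _ => Nat)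
   (Bool.rec (motive := fun _ => Nat)
    L492
    L493
    (Nat.ble 63104 i))
   (Bool.rec (motive := fun _ => Nat)
    L494
    L495
    (Nat.ble 63360 i))
   (Nat.ble 63232 i))
  (Nat.ble 62976 i))
 (Nat.ble 62464 i))

/-- choice of a leaf -/
noncomputable def A0_31 (i : Nat) : Nat :=
 (Bool.rec (motive := fun _ => Nat)
 (Bool.rec (motive := fun _ => Nat)
  (Bool.rec (motive := fun _ => Nat)
   (Bool.rec (motive := fun _ => Nat)
    L496
    L497
    (Nat.ble 63616 i))
   (Bool.rec (motive := fun _ => Nat)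
    L498
    L499
    (Nat.ble 63872 i))
   (Nat.ble 63744 i))
  (Bool.rec (motive := fun _ => Nat)
   (Bool.rec (motive := fun _ => Nat)
    L500
    L501
    (Nat.ble 64128 i))
   (Bool.rec (motive := fun _ => Nat)
    L502
    L503
    (Nat.ble 64384 i))
   (Nat.ble 64256 i))
  (Nat.ble 64000 i))
 (Bool.rec (motive := fun _ => Nat)
  (Bool.rec (motive := fun _ => Nat)
   (Bool.rec (motive := fun _ => Nat)
    L504
    L505
    (Nat.ble 64640 i))
   (Bool.rec (motive := fun _ => Nat)
    L506
    L507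
    (Nat.ble 64896 i))
   (Nat.ble 64768 i))
  (Bool.rec (motive := fun _ => Nat)
   (Bool.rec (motive := fun _ => Nat)
    L508
    L509
    (Nat.ble 65152 i))
   (Bool.rec (motive := fun _ => Nat)
    L510
    L511
    (Nat.ble 65408 i))
   (Nat.ble 65280 i))
  (Nat.ble 65024 i))
 (Nat.ble 64512 i))

/-- choice of a leaf -/
noncomputable def A0_32 (i : Nat) : Nat :=
 (Bool.rec (motive := fun _ => Nat)
 (Bool.rec (motive := fun _ => Nat)
  (Bool.rec (motive := fun _ => Nat)
   (Bool.rec (motive := fun _ => Nat)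
    L512
    L513
    (Nat.ble 65664 i))
   (Bool.rec (motive := fun _ => Nat)
    L514
    L515
    (Nat.ble 65920 i))
   (Nat.ble 65792 i))
  (Bool.rec (motive := fun _ => Nat)
   (Bool.rec (motive := fun _ => Nat)
    L516
    L517
    (Nat.ble 66176 i))
   (Bool.rec (motive := fun _ => Nat)
    L518
    L519
    (Nat.ble 66432 i))
   (Nat.ble 66304 i))
  (Nat.ble 66048 i))
 (Bool.rec (motive := fun _ => Nat)
  (Bool.rec (motive := fun _ => Nat)
   (Bool.rec (motive := fun _ => Nat)
    L520
    L521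
    (Nat.ble 66688 i))
   (Bool.rec (motive := fun _ => Nat)
    L522
    L523
    (Nat.ble 66944 i))
   (Nat.ble 66816 i))
  (Bool.rec (motive := fun _ => Nat)
   (Bool.rec (motive := fun _ => Nat)
    L524
    L525
    (Nat.ble 67200 i))
   (Bool.rec (motive := fun _ => Nat)
    L526
    L527
    (Nat.ble 67456 i))
   (Nat.ble 67328 i))
  (Nat.ble 67072 i))
 (Nat.ble 66560 i))

/-- choice of a leaf -/
noncomputable def A0_33 (i : Nat) : Nat :=
 (Bool.rec (motive := fun _ => Nat)
 (Bool.rec (motive := fun _ => Nat)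
  (Bool.rec (motive := fun _ => Nat)
   (Bool.rec (motive := fun _ => Nat)
    L528
    L529
    (Nat.ble 67712 i))
   (Bool.rec (motive := fun _ => Nat)
    L530
    L531
    (Nat.ble 67968 i))
   (Nat.ble 67840 i))
  (Bool.rec (motive := fun _ => Nat)
   (Bool.rec (motive := fun _ => Nat)
    L532
    L533
    (Nat.ble 68224 i))
   (Bool.rec (motive := fun _ => Nat)
    L534
    L535
    (Nat.ble 68480 i))
   (Nat.ble 68352 i))
  (Nat.ble 68096 i))
 (Bool.rec (motive := fun _ => Nat)
  (Bool.rec (motive := fun _ => Nat)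
   (Bool.rec (motive := fun _ => Nat)
    L536
    L537
    (Nat.ble 68736 i))
   (Bool.rec (motive := fun _ => Nat)
    L538
    L539
    (Nat.ble 68992 i))
   (Nat.ble 68864 i))
  (Bool.rec (motive := fun _ => Nat)
   (Bool.rec (motive := fun _ => Nat)
    L540
    L541
    (Nat.ble 69248 i))
   (Bool.rec (motive := fun _ => Nat)
    L542
    L543
    (Nat.ble 69504 i))
   (Nat.ble 69376 i))
  (Nat.ble 69120 i))
 (Nat.ble 68608 i))

/-- choice of a leaf -/
noncomputable def A0_34 (i : Nat) : Nat :=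
 (Bool.rec (motive := fun _ => Nat)
 (Bool.rec (motive := fun _ => Nat)
  (Bool.rec (motive := fun _ => Nat)
   (Bool.rec (motive := fun _ => Nat)
    L544
    L545
    (Nat.ble 69760 i))
   (Bool.rec (motive := fun _ => Nat)
    L546
    L547
    (Nat.ble 70016 i))
   (Nat.ble 69888 i))
  (Bool.rec (motive := fun _ => Nat)
   (Bool.rec (motive := fun _ => Nat)
    L548
    L549
    (Nat.ble 70272 i))
   (Bool.rec (motive := fun _ => Nat)
    L550
    L551
    (Nat.ble 70528 i))
   (Nat.ble 70400 i))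
  (Nat.ble 70144 i))
 (Bool.rec (motive := fun _ => Nat)
  (Bool.rec (motive := fun _ => Nat)
   (Bool.rec (motive := fun _ => Nat)
    L552
    L553
    (Nat.ble 70784 i))
   (Bool.rec (motive := fun _ => Nat)
    L554
    L555
    (Nat.ble 71040 i))
   (Nat.ble 70912 i))
  (Bool.rec (motive := fun _ => Nat)
   (Bool.rec (motive := fun _ => Nat)
    L556
    L557
    (Nat.ble 71296 i))
   (Bool.rec (motive := fun _ => Nat)
    L558
    L559
    (Nat.ble 71552 i))
   (Nat.ble 71424 i))
  (Nat.ble 71168 i))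
 (Nat.ble 70656 i))

/-- choice of a leaf -/
noncomputable def A0_35 (i : Nat) : Nat :=
 (Bool.rec (motive := fun _ => Nat)
 (Bool.rec (motive := fun _ => Nat)
  (Bool.rec (motive := fun _ => Nat)
   (Bool.rec (motive := fun _ => Nat)
    L560
    L561
    (Nat.ble 71808 i))
   (Bool.rec (motive := fun _ => Nat)
    L562
    L563
    (Nat.ble 72064 i))
   (Nat.ble 71936 i))
  (Bool.rec (motive := fun _ => Nat)
   (Bool.rec (motive := fun _ => Nat)
    L564
    L565
    (Nat.ble 72320 i))
   (Bool.rec (motive := fun _ => Nat)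
    L566
    L567
    (Nat.ble 72576 i))
   (Nat.ble 72448 i))
  (Nat.ble 72192 i))
 (Bool.rec (motive := fun _ => Nat)
  (Bool.rec (motive := fun _ => Nat)
   (Bool.rec (motive := fun _ => Nat)
    L568
    L569
    (Nat.ble 72832 i))
   (Bool.rec (motive := fun _ => Nat)
    L570
    L571
    (Nat.ble 73088 i))
   (Nat.ble 72960 i))
  (Bool.rec (motive := fun _ => Nat)
   (Bool.rec (motive := fun _ => Nat)
    L572
    L573
    (Nat.ble 73344 i))
   (Bool.rec (motive := fun _ => Nat)
    L574
    L575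
    (Nat.ble 73600 i))
   (Nat.ble 73472 i))
  (Nat.ble 73216 i))
 (Nat.ble 72704 i))

/-- choice of a leaf -/
noncomputable def A0_36 (i : Nat) : Nat :=
 (Bool.rec (motive := fun _ => Nat)
 (Bool.rec (motive := fun _ => Nat)
  (Bool.rec (motive := fun _ => Nat)
   (Bool.rec (motive := fun _ => Nat)
    L576
    L577
    (Nat.ble 73856 i))
   (Bool.rec (motive := fun _ => Nat)
    L578
    L579
    (Nat.ble 74112 i))
   (Nat.ble 73984 i))
  (Bool.rec (motive := fun _ => Nat)
   (Bool.rec (motive := fun _ => Nat)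
    L580
    L581
    (Nat.ble 74368 i))
   (Bool.rec (motive := fun _ => Nat)
    L582
    L583
    (Nat.ble 74624 i))
   (Nat.ble 74496 i))
  (Nat.ble 74240 i))
 (Bool.rec (motive := fun _ => Nat)
  (Bool.rec (motive := fun _ => Nat)
   (Bool.rec (motive := fun _ => Nat)
    L584
    L585
    (Nat.ble 74880 i))
   (Bool.rec (motive := fun _ => Nat)
    L586
    L587
    (Nat.ble 75136 i))
   (Nat.ble 75008 i))
  (Bool.rec (motive := fun _ => Nat)
   (Bool.rec (motive := fun _ => Nat)
    L588
    L589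
    (Nat.ble 75392 i))
   (Bool.rec (motive := fun _ => Nat)
    L590
    L591
    (Nat.ble 75648 i))
   (Nat.ble 75520 i))
  (Nat.ble 75264 i))
 (Nat.ble 74752 i))

/-- choice of a leaf -/
noncomputable def A0_37 (i : Nat) : Nat :=
 (Bool.rec (motive := fun _ => Nat)
 (Bool.rec (motive := fun _ => Nat)
  (Bool.rec (motive := fun _ => Nat)
   (Bool.rec (motive := fun _ => Nat)
    L592
    L593
    (Nat.ble 75904 i))
   (Bool.rec (motive := fun _ => Nat)
    L594
    L595
    (Nat.ble 76160 i))
   (Nat.ble 76032 i))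
  (Bool.rec (motive := fun _ => Nat)
   (Bool.rec (motive := fun _ => Nat)
    L596
    L597
    (Nat.ble 76416 i))
   (Bool.rec (motive := fun _ => Nat)
    L598
    L599
    (Nat.ble 76672 i))
   (Nat.ble 76544 i))
  (Nat.ble 76288 i))
 (Bool.rec (motive := fun _ => Nat)
  (Bool.rec (motive := fun _ => Nat)
   (Bool.rec (motive := fun _ => Nat)
    L600
    L601
    (Nat.ble 76928 i))
   (Bool.rec (motive := fun _ => Nat)
    L602
    L603
    (Nat.ble 77184 i))
   (Nat.ble 77056 i))
  (Bool.rec (motive := fun _ => Nat)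
   (Bool.rec (motive := fun _ => Nat)
    L604
    L605
    (Nat.ble 77440 i))
   (Bool.rec (motive := fun _ => Nat)
    L606
    L607
    (Nat.ble 77696 i))
   (Nat.ble 77568 i))
  (Nat.ble 77312 i))
 (Nat.ble 76800 i))

/-- choice of a leaf -/
noncomputable def A0_38 (i : Nat) : Nat :=
 (Bool.rec (motive := fun _ => Nat)
 (Bool.rec (motive := fun _ => Nat)
  (Bool.rec (motive := fun _ => Nat)
   (Bool.rec (motive := fun _ => Nat)
    L608
    L609
    (Nat.ble 77952 i))
   (Bool.rec (motive := fun _ => Nat)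
    L610
    L611
    (Nat.ble 78208 i))
   (Nat.ble 78080 i))
  (Bool.rec (motive := fun _ => Nat)
   (Bool.rec (motive := fun _ => Nat)
    L612
    L613
    (Nat.ble 78464 i))
   (Bool.rec (motive := fun _ => Nat)
    L614
    L615
    (Nat.ble 78720 i))
   (Nat.ble 78592 i))
  (Nat.ble 78336 i))
 (Bool.rec (motive := fun _ => Nat)
  (Bool.rec (motive := fun _ => Nat)
   (Bool.rec (motive := fun _ => Nat)
    L616
    L617
    (Nat.ble 78976 i))
   (Bool.rec (motive := fun _ => Nat)
    L618
    L619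
    (Nat.ble 79232 i))
   (Nat.ble 79104 i))
  (Bool.rec (motive := fun _ => Nat)
   (Bool.rec (motive := fun _ => Nat)
    L620
    L621
    (Nat.ble 79488 i))
   (Bool.rec (motive := fun _ => Nat)
    L622
    L623
    (Nat.ble 79744 i))
   (Nat.ble 79616 i))
  (Nat.ble 79360 i))
 (Nat.ble 78848 i))

/-- choice of a leaf -/
noncomputable def A0_39 (i : Nat) : Nat :=
 (Bool.rec (motive := fun _ => Nat)
 (Bool.rec (motive := fun _ => Nat)
  (Bool.rec (motive := fun _ => Nat)
   (Bool.rec (motive := fun _ => Nat)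
    L624
    L625
    (Nat.ble 80000 i))
   (Bool.rec (motive := fun _ => Nat)
    L626
    L627
    (Nat.ble 80256 i))
   (Nat.ble 80128 i))
  (Bool.rec (motive := fun _ => Nat)
   (Bool.rec (motive := fun _ => Nat)
    L628
    L629
    (Nat.ble 80512 i))
   (Bool.rec (motive := fun _ => Nat)
    L630
    L631
    (Nat.ble 80768 i))
   (Nat.ble 80640 i))
  (Nat.ble 80384 i))
 (Bool.rec (motive := fun _ => Nat)
  (Bool.rec (motive := fun _ => Nat)
   (Bool.rec (motive := fun _ => Nat)
    L632
    L633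
    (Nat.ble 81024 i))
   (Bool.rec (motive := fun _ => Nat)
    L634
    L635
    (Nat.ble 81280 i))
   (Nat.ble 81152 i))
  (Bool.rec (motive := fun _ => Nat)
   (Bool.rec (motive := fun _ => Nat)
    L636
    L637
    (Nat.ble 81536 i))
   (Bool.rec (motive := fun _ => Nat)
    L638
    L639
    (Nat.ble 81792 i))
   (Nat.ble 81664 i))
  (Nat.ble 81408 i))
 (Nat.ble 80896 i))

/-- choice of a leaf -/
noncomputable def A0_40 (i : Nat) : Nat :=
 (Bool.rec (motive := fun _ => Nat)
 (Bool.rec (motive := fun _ => Nat)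
  (Bool.rec (motive := fun _ => Nat)
   (Bool.rec (motive := fun _ => Nat)
    L640
    L641
    (Nat.ble 82048 i))
   (Bool.rec (motive := fun _ => Nat)
    L642
    L643
    (Nat.ble 82304 i))
   (Nat.ble 82176 i))
  (Bool.rec (motive := fun _ => Nat)
   (Bool.rec (motive := fun _ => Nat)
    L644
    L645
    (Nat.ble 82560 i))
   (Bool.rec (motive := fun _ => Nat)
    L646
    L647
    (Nat.ble 82816 i))
   (Nat.ble 82688 i))
  (Nat.ble 82432 i))
 (Bool.rec (motive := fun _ => Nat)
  (Bool.rec (motive := fun _ => Nat)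
   (Bool.rec (motive := fun _ => Nat)
    L648
    L649
    (Nat.ble 83072 i))
   (Bool.rec (motive := fun _ => Nat)
    L650
    L651
    (Nat.ble 83328 i))
   (Nat.ble 83200 i))
  (Bool.rec (motive := fun _ => Nat)
   (Bool.rec (motive := fun _ => Nat)
    L652
    L653
    (Nat.ble 83584 i))
   (Bool.rec (motive := fun _ => Nat)
    L654
    L655
    (Nat.ble 83840 i))
   (Nat.ble 83712 i))
  (Nat.ble 83456 i))
 (Nat.ble 82944 i))

/-- choice of a leaf -/
noncomputable def A0_41 (i : Nat) : Nat :=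
 (Bool.rec (motive := fun _ => Nat)
 (Bool.rec (motive := fun _ => Nat)
  (Bool.rec (motive := fun _ => Nat)
   (Bool.rec (motive := fun _ => Nat)
    L656
    L657
    (Nat.ble 84096 i))
   (Bool.rec (motive := fun _ => Nat)
    L658
    L659
    (Nat.ble 84352 i))
   (Nat.ble 84224 i))
  (Bool.rec (motive := fun _ => Nat)
   (Bool.rec (motive := fun _ => Nat)
    L660
    L661
    (Nat.ble 84608 i))
   (Bool.rec (motive := fun _ => Nat)
    L662
    L663
    (Nat.ble 84864 i))
   (Nat.ble 84736 i))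
  (Nat.ble 84480 i))
 (Bool.rec (motive := fun _ => Nat)
  (Bool.rec (motive := fun _ => Nat)
   (Bool.rec (motive := fun _ => Nat)
    L664
    L665
    (Nat.ble 85120 i))
   (Bool.rec (motive := fun _ => Nat)
    L666
    L667
    (Nat.ble 85376 i))
   (Nat.ble 85248 i))
  (Bool.rec (motive := fun _ => Nat)
   (Bool.rec (motive := fun _ => Nat)
    L668
    L669
    (Nat.ble 85632 i))
   (Bool.rec (motive := fun _ => Nat)
    L670
    L671
    (Nat.ble 85888 i))
   (Nat.ble 85760 i))
  (Nat.ble 85504 i))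
 (Nat.ble 84992 i))

/-- choice of a leaf -/
noncomputable def A0_42 (i : Nat) : Nat :=
 (Bool.rec (motive := fun _ => Nat)
 (Bool.rec (motive := fun _ => Nat)
  (Bool.rec (motive := fun _ => Nat)
   (Bool.rec (motive := fun _ => Nat)
    L672
    L673
    (Nat.ble 86144 i))
   (Bool.rec (motive := fun _ => Nat)
    L674
    L675
    (Nat.ble 86400 i))
   (Nat.ble 86272 i))
  (Bool.rec (motive := fun _ => Nat)
   (Bool.rec (motive := fun _ => Nat)
    L676
    L677
    (Nat.ble 86656 i))
   (Bool.rec (motive := fun _ => Nat)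
    L678
    L679
    (Nat.ble 86912 i))
   (Nat.ble 86784 i))
  (Nat.ble 86528 i))
 (Bool.rec (motive := fun _ => Nat)
  (Bool.rec (motive := fun _ => Nat)
   (Bool.rec (motive := fun _ => Nat)
    L680
    L681
    (Nat.ble 87168 i))
   (Bool.rec (motive := fun _ => Nat)
    L682
    L683
    (Nat.ble 87424 i))
   (Nat.ble 87296 i))
  (Bool.rec (motive := fun _ => Nat)
   (Bool.rec (motive := fun _ => Nat)
    L684
    L685
    (Nat.ble 87680 i))
   (Bool.rec (motive := fun _ => Nat)
    L686
    L687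
    (Nat.ble 87936 i))
   (Nat.ble 87808 i))
  (Nat.ble 87552 i))
 (Nat.ble 87040 i))

/-- choice of a leaf -/
noncomputable def A0_43 (i : Nat) : Nat :=
 (Bool.rec (motive := fun _ => Nat)
 (Bool.rec (motive := fun _ => Nat)
  (Bool.rec (motive := fun _ => Nat)
   (Bool.rec (motive := fun _ => Nat)
    L688
    L689
    (Nat.ble 88192 i))
   (Bool.rec (motive := fun _ => Nat)
    L690
    L691
    (Nat.ble 88448 i))
   (Nat.ble 88320 i))
  (Bool.rec (motive := fun _ => Nat)
   (Bool.rec (motive := fun _ => Nat)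
    L692
    L693
    (Nat.ble 88704 i))
   (Bool.rec (motive := fun _ => Nat)
    L694
    L695
    (Nat.ble 88960 i))
   (Nat.ble 88832 i))
  (Nat.ble 88576 i))
 (Bool.rec (motive := fun _ => Nat)
  (Bool.rec (motive := fun _ => Nat)
   (Bool.rec (motive := fun _ => Nat)
    L696
    L697
    (Nat.ble 89216 i))
   (Bool.rec (motive := fun _ => Nat)
    L698
    L699
    (Nat.ble 89472 i))
   (Nat.ble 89344 i))
  (Bool.rec (motive := fun _ => Nat)
   (Bool.rec (motive := fun _ => Nat)
    L700
    L701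
    (Nat.ble 89728 i))
   (Bool.rec (motive := fun _ => Nat)
    L702
    L703
    (Nat.ble 89984 i))
   (Nat.ble 89856 i))
  (Nat.ble 89600 i))
 (Nat.ble 89088 i))

/-- choice of a leaf -/
noncomputable def A0_44 (i : Nat) : Nat :=
 (Bool.rec (motive := fun _ => Nat)
 (Bool.rec (motive := fun _ => Nat)
  (Bool.rec (motive := fun _ => Nat)
   (Bool.rec (motive := fun _ => Nat)
    L704
    L705
    (Nat.ble 90240 i))
   (Bool.rec (motive := fun _ => Nat)
    L706
    L707
    (Nat.ble 90496 i))
   (Nat.ble 90368 i))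
  (Bool.rec (motive := fun _ => Nat)
   (Bool.rec (motive := fun _ => Nat)
    L708
    L709
    (Nat.ble 90752 i))
   (Bool.rec (motive := fun _ => Nat)
    L710
    L711
    (Nat.ble 91008 i))
   (Nat.ble 90880 i))
  (Nat.ble 90624 i))
 (Bool.rec (motive := fun _ => Nat)
  (Bool.rec (motive := fun _ => Nat)
   (Bool.rec (motive := fun _ => Nat)
    L712
    L713
    (Nat.ble 91264 i))
   (Bool.rec (motive := fun _ => Nat)
    L714
    L715
    (Nat.ble 91520 i))
   (Nat.ble 91392 i))
  (Bool.rec (motive := fun _ => Nat)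
   (Bool.rec (motive := fun _ => Nat)
    L716
    L717
    (Nat.ble 91776 i))
   (Bool.rec (motive := fun _ => Nat)
    L718
    L719
    (Nat.ble 92032 i))
   (Nat.ble 91904 i))
  (Nat.ble 91648 i))
 (Nat.ble 91136 i))

/-- choice of a leaf -/
noncomputable def A0_45 (i : Nat) : Nat :=
 (Bool.rec (motive := fun _ => Nat)
 (Bool.rec (motive := fun _ => Nat)
  (Bool.rec (motive := fun _ => Nat)
   (Bool.rec (motive := fun _ => Nat)
    L720
    L721
    (Nat.ble 92288 i))
   (Bool.rec (motive := fun _ => Nat)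
    L722
    L723
    (Nat.ble 92544 i))
   (Nat.ble 92416 i))
  (Bool.rec (motive := fun _ => Nat)
   (Bool.rec (motive := fun _ => Nat)
    L724
    L725
    (Nat.ble 92800 i))
   (Bool.rec (motive := fun _ => Nat)
    L726
    L727
    (Nat.ble 93056 i))
   (Nat.ble 92928 i))
  (Nat.ble 92672 i))
 (Bool.rec (motive := fun _ => Nat)
  (Bool.rec (motive := fun _ => Nat)
   (Bool.rec (motive := fun _ => Nat)
    L728
    L729
    (Nat.ble 93312 i))
   (Bool.rec (motive := fun _ => Nat)
    L730
    L731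
    (Nat.ble 93568 i))
   (Nat.ble 93440 i))
  (Bool.rec (motive := fun _ => Nat)
   (Bool.rec (motive := fun _ => Nat)
    L732
    L733
    (Nat.ble 93824 i))
   (Bool.rec (motive := fun _ => Nat)
    L734
    L735
    (Nat.ble 94080 i))
   (Nat.ble 93952 i))
  (Nat.ble 93696 i))
 (Nat.ble 93184 i))

/-- choice of a leaf -/
noncomputable def A0_46 (i : Nat) : Nat :=
 (Bool.rec (motive := fun _ => Nat)
 (Bool.rec (motive := fun _ => Nat)
  (Bool.rec (motive := fun _ => Nat)
   (Bool.rec (motive := fun _ => Nat)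
    L736
    L737
    (Nat.ble 94336 i))
   (Bool.rec (motive := fun _ => Nat)
    L738
    L739
    (Nat.ble 94592 i))
   (Nat.ble 94464 i))
  (Bool.rec (motive := fun _ => Nat)
   (Bool.rec (motive := fun _ => Nat)
    L740
    L741
    (Nat.ble 94848 i))
   (Bool.rec (motive := fun _ => Nat)
    L742
    L743
    (Nat.ble 95104 i))
   (Nat.ble 94976 i))
  (Nat.ble 94720 i))
 (Bool.rec (motive := fun _ => Nat)
  (Bool.rec (motive := fun _ => Nat)
   (Bool.rec (motive := fun _ => Nat)
    L744
    L745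
    (Nat.ble 95360 i))
   (Bool.rec (motive := fun _ => Nat)
    L746
    L747
    (Nat.ble 95616 i))
   (Nat.ble 95488 i))
  (Bool.rec (motive := fun _ => Nat)
   (Bool.rec (motive := fun _ => Nat)
    L748
    L749
    (Nat.ble 95872 i))
   (Bool.rec (motive := fun _ => Nat)
    L750
    L751
    (Nat.ble 96128 i))
   (Nat.ble 96000 i))
  (Nat.ble 95744 i))
 (Nat.ble 95232 i))

/-- choice of a leaf -/
noncomputable def A0_47 (i : Nat) : Nat :=
 (Bool.rec (motive := fun _ => Nat)
 (Bool.rec (motive := fun _ => Nat)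
  (Bool.rec (motive := fun _ => Nat)
   (Bool.rec (motive := fun _ => Nat)
    L752
    L753
    (Nat.ble 96384 i))
   (Bool.rec (motive := fun _ => Nat)
    L754
    L755
    (Nat.ble 96640 i))
   (Nat.ble 96512 i))
  (Bool.rec (motive := fun _ => Nat)
   (Bool.rec (motive := fun _ => Nat)
    L756
    L757
    (Nat.ble 96896 i))
   (Bool.rec (motive := fun _ => Nat)
    L758
    L759
    (Nat.ble 97152 i))
   (Nat.ble 97024 i))
  (Nat.ble 96768 i))
 (Bool.rec (motive := fun _ => Nat)
  (Bool.rec (motive := fun _ => Nat)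
   (Bool.rec (motive := fun _ => Nat)
    L760
    L761
    (Nat.ble 97408 i))
   (Bool.rec (motive := fun _ => Nat)
    L762
    L763
    (Nat.ble 97664 i))
   (Nat.ble 97536 i))
  (Bool.rec (motive := fun _ => Nat)
   (Bool.rec (motive := fun _ => Nat)
    L764
    L765
    (Nat.ble 97920 i))
   (Bool.rec (motive := fun _ => Nat)
    L766
    L767
    (Nat.ble 98176 i))
   (Nat.ble 98048 i))
  (Nat.ble 97792 i))
 (Nat.ble 97280 i))

/-- choice of a leaf -/
noncomputable def A0_48 (i : Nat) : Nat :=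
 (Bool.rec (motive := fun _ => Nat)
 (Bool.rec (motive := fun _ => Nat)
  (Bool.rec (motive := fun _ => Nat)
   (Bool.rec (motive := fun _ => Nat)
    L768
    L769
    (Nat.ble 98432 i))
   (Bool.rec (motive := fun _ => Nat)
    L770
    L771
    (Nat.ble 98688 i))
   (Nat.ble 98560 i))
  (Bool.rec (motive := fun _ => Nat)
   (Bool.rec (motive := fun _ => Nat)
    L772
    L773
    (Nat.ble 98944 i))
   (Bool.rec (motive := fun _ => Nat)
    L774
    L775
    (Nat.ble 99200 i))
   (Nat.ble 99072 i))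
  (Nat.ble 98816 i))
 (Bool.rec (motive := fun _ => Nat)
  (Bool.rec (motive := fun _ => Nat)
   (Bool.rec (motive := fun _ => Nat)
    L776
    L777
    (Nat.ble 99456 i))
   (Bool.rec (motive := fun _ => Nat)
    L778
    L779
    (Nat.ble 99712 i))
   (Nat.ble 99584 i))
  (Bool.rec (motive := fun _ => Nat)
   (Bool.rec (motive := fun _ => Nat)
    L780
    L781
    (Nat.ble 99968 i))
   (Bool.rec (motive := fun _ => Nat)
    L782
    L783
    (Nat.ble 100224 i))
   (Nat.ble 100096 i))
  (Nat.ble 99840 i))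
 (Nat.ble 99328 i))

/-- choice of a leaf -/
noncomputable def A0_49 (i : Nat) : Nat :=
 (Bool.rec (motive := fun _ => Nat)
 (Bool.rec (motive := fun _ => Nat)
  (Bool.rec (motive := fun _ => Nat)
   (Bool.rec (motive := fun _ => Nat)
    L784
    L785
    (Nat.ble 100480 i))
   (Bool.rec (motive := fun _ => Nat)
    L786
    L787
    (Nat.ble 100736 i))
   (Nat.ble 100608 i))
  (Bool.rec (motive := fun _ => Nat)
   (Bool.rec (motive := fun _ => Nat)
    L788
    L789
    (Nat.ble 100992 i))
   (Bool.rec (motive := fun _ => Nat)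
    L790
    L791
    (Nat.ble 101248 i))
   (Nat.ble 101120 i))
  (Nat.ble 100864 i))
 (Bool.rec (motive := fun _ => Nat)
  (Bool.rec (motive := fun _ => Nat)
   (Bool.rec (motive := fun _ => Nat)
    L792
    L793
    (Nat.ble 101504 i))
   (Bool.rec (motive := fun _ => Nat)
    L794
    L795
    (Nat.ble 101760 i))
   (Nat.ble 101632 i))
  (Bool.rec (motive := fun _ => Nat)
   (Bool.rec (motive := fun _ => Nat)
    L796
    L797
    (Nat.ble 102016 i))
   (Bool.rec (motive := fun _ => Nat)
    L798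
    L799
    (Nat.ble 102272 i))
   (Nat.ble 102144 i))
  (Nat.ble 101888 i))
 (Nat.ble 101376 i))

/-- choice of a leaf -/
noncomputable def A0_50 (i : Nat) : Nat :=
 (Bool.rec (motive := fun _ => Nat)
 (Bool.rec (motive := fun _ => Nat)
  (Bool.rec (motive := fun _ => Nat)
   (Bool.rec (motive := fun _ => Nat)
    L800
    L801
    (Nat.ble 102528 i))
   (Bool.rec (motive := fun _ => Nat)
    L802
    L803
    (Nat.ble 102784 i))
   (Nat.ble 102656 i))
  (Bool.rec (motive := fun _ => Nat)
   (Bool.rec (motive := fun _ => Nat)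
    L804
    L805
    (Nat.ble 103040 i))
   (Bool.rec (motive := fun _ => Nat)
    L806
    L807
    (Nat.ble 103296 i))
   (Nat.ble 103168 i))
  (Nat.ble 102912 i))
 (Bool.rec (motive := fun _ => Nat)
  (Bool.rec (motive := fun _ => Nat)
   (Bool.rec (motive := fun _ => Nat)
    L808
    L809
    (Nat.ble 103552 i))
   (Bool.rec (motive := fun _ => Nat)
    L810
    L811
    (Nat.ble 103808 i))
   (Nat.ble 103680 i))
  (Bool.rec (motive := fun _ => Nat)
   (Bool.rec (motive := fun _ => Nat)
    L812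
    L813
    (Nat.ble 104064 i))
   (Bool.rec (motive := fun _ => Nat)
    L814
    L815
    (Nat.ble 104320 i))
   (Nat.ble 104192 i))
  (Nat.ble 103936 i))
 (Nat.ble 103424 i))

/-- choice of a leaf -/
noncomputable def A0_51 (i : Nat) : Nat :=
 (Bool.rec (motive := fun _ => Nat)
 (Bool.rec (motive := fun _ => Nat)
  (Bool.rec (motive := fun _ => Nat)
   (Bool.rec (motive := fun _ => Nat)
    L816
    L817
    (Nat.ble 104576 i))
   (Bool.rec (motive := fun _ => Nat)
    L818
    L819
    (Nat.ble 104832 i))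
   (Nat.ble 104704 i))
  (Bool.rec (motive := fun _ => Nat)
   (Bool.rec (motive := fun _ => Nat)
    L820
    L821
    (Nat.ble 105088 i))
   (Bool.rec (motive := fun _ => Nat)
    L822
    L823
    (Nat.ble 105344 i))
   (Nat.ble 105216 i))
  (Nat.ble 104960 i))
 (Bool.rec (motive := fun _ => Nat)
  (Bool.rec (motive := fun _ => Nat)
   (Bool.rec (motive := fun _ => Nat)
    L824
    L825
    (Nat.ble 105600 i))
   (Bool.rec (motive := fun _ => Nat)
    L826
    L827
    (Nat.ble 105856 i))
   (Nat.ble 105728 i))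
  (Bool.rec (motive := fun _ => Nat)
   (Bool.rec (motive := fun _ => Nat)
    L828
    L829
    (Nat.ble 106112 i))
   (Bool.rec (motive := fun _ => Nat)
    L830
    L831
    (Nat.ble 106368 i))
   (Nat.ble 106240 i))
  (Nat.ble 105984 i))
 (Nat.ble 105472 i))

/-- choice of a leaf -/
noncomputable def A0_52 (i : Nat) : Nat :=
 (Bool.rec (motive := fun _ => Nat)
 (Bool.rec (motive := fun _ => Nat)
  (Bool.rec (motive := fun _ => Nat)
   (Bool.rec (motive := fun _ => Nat)
    L832
    L833
    (Nat.ble 106624 i))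
   (Bool.rec (motive := fun _ => Nat)
    L834
    L835
    (Nat.ble 106880 i))
   (Nat.ble 106752 i))
  (Bool.rec (motive := fun _ => Nat)
   (Bool.rec (motive := fun _ => Nat)
    L836
    L837
    (Nat.ble 107136 i))
   (Bool.rec (motive := fun _ => Nat)
    L838
    L839
    (Nat.ble 107392 i))
   (Nat.ble 107264 i))
  (Nat.ble 107008 i))
 (Bool.rec (motive := fun _ => Nat)
  (Bool.rec (motive := fun _ => Nat)
   (Bool.rec (motive := fun _ => Nat)
    L840
    L841
    (Nat.ble 107648 i))
   (Bool.rec (motive := fun _ => Nat)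
    L842
    L843
    (Nat.ble 107904 i))
   (Nat.ble 107776 i))
  (Bool.rec (motive := fun _ => Nat)
   (Bool.rec (motive := fun _ => Nat)
    L844
    L845
    (Nat.ble 108160 i))
   (Bool.rec (motive := fun _ => Nat)
    L846
    L847
    (Nat.ble 108416 i))
   (Nat.ble 108288 i))
  (Nat.ble 108032 i))
 (Nat.ble 107520 i))

/-- choice of a leaf -/
noncomputable def A0_53 (i : Nat) : Nat :=
 (Bool.rec (motive := fun _ => Nat)
 (Bool.rec (motive := fun _ => Nat)
  (Bool.rec (motive := fun _ => Nat)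
   (Bool.rec (motive := fun _ => Nat)
    L848
    L849
    (Nat.ble 108672 i))
   (Bool.rec (motive := fun _ => Nat)
    L850
    L851
    (Nat.ble 108928 i))
   (Nat.ble 108800 i))
  (Bool.rec (motive := fun _ => Nat)
   (Bool.rec (motive := fun _ => Nat)
    L852
    L853
    (Nat.ble 109184 i))
   (Bool.rec (motive := fun _ => Nat)
    L854
    L855
    (Nat.ble 109440 i))
   (Nat.ble 109312 i))
  (Nat.ble 109056 i))
 (Bool.rec (motive := fun _ => Nat)
  (Bool.rec (motive := fun _ => Nat)
   (Bool.rec (motive := fun _ => Nat)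
    L856
    L857
    (Nat.ble 109696 i))
   (Bool.rec (motive := fun _ => Nat)
    L858
    L859
    (Nat.ble 109952 i))
   (Nat.ble 109824 i))
  (Bool.rec (motive := fun _ => Nat)
   (Bool.rec (motive := fun _ => Nat)
    L860
    L861
    (Nat.ble 110208 i))
   (Bool.rec (motive := fun _ => Nat)
    L862
    L863
    (Nat.ble 110464 i))
   (Nat.ble 110336 i))
  (Nat.ble 110080 i))
 (Nat.ble 109568 i))

/-- choice of a leaf -/
noncomputable def A0_54 (i : Nat) : Nat :=
 (Bool.rec (motive := fun _ => Nat)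
 (Bool.rec (motive := fun _ => Nat)
  (Bool.rec (motive := fun _ => Nat)
   (Bool.rec (motive := fun _ => Nat)
    L864
    L865
    (Nat.ble 110720 i))
   (Bool.rec (motive := fun _ => Nat)
    L866
    L867
    (Nat.ble 110976 i))
   (Nat.ble 110848 i))
  (Bool.rec (motive := fun _ => Nat)
   (Bool.rec (motive := fun _ => Nat)
    L868
    L869
    (Nat.ble 111232 i))
   (Bool.rec (motive := fun _ => Nat)
    L870
    L871
    (Nat.ble 111488 i))
   (Nat.ble 111360 i))
  (Nat.ble 111104 i))
 (Bool.rec (motive := fun _ => Nat)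
  (Bool.rec (motive := fun _ => Nat)
   (Bool.rec (motive := fun _ => Nat)
    L872
    L873
    (Nat.ble 111744 i))
   (Bool.rec (motive := fun _ => Nat)
    L874
    L875
    (Nat.ble 112000 i))
   (Nat.ble 111872 i))
  (Bool.rec (motive := fun _ => Nat)
   (Bool.rec (motive := fun _ => Nat)
    L876
    L877
    (Nat.ble 112256 i))
   (Bool.rec (motive := fun _ => Nat)
    L878
    L879
    (Nat.ble 112512 i))
   (Nat.ble 112384 i))
  (Nat.ble 112128 i))
 (Nat.ble 111616 i))

/-- choice of a leaf -/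
noncomputable def A0_55 (i : Nat) : Nat :=
 (Bool.rec (motive := fun _ => Nat)
 (Bool.rec (motive := fun _ => Nat)
  (Bool.rec (motive := fun _ => Nat)
   (Bool.rec (motive := fun _ => Nat)
    L880
    L881
    (Nat.ble 112768 i))
   (Bool.rec (motive := fun _ => Nat)
    L882
    L883
    (Nat.ble 113024 i))
   (Nat.ble 112896 i))
  (Bool.rec (motive := fun _ => Nat)
   (Bool.rec (motive := fun _ => Nat)
    L884
    L885
    (Nat.ble 113280 i))
   (Bool.rec (motive := fun _ => Nat)
    L886
    L887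
    (Nat.ble 113536 i))
   (Nat.ble 113408 i))
  (Nat.ble 113152 i))
 (Bool.rec (motive := fun _ => Nat)
  (Bool.rec (motive := fun _ => Nat)
   (Bool.rec (motive := fun _ => Nat)
    L888
    L889
    (Nat.ble 113792 i))
   (Bool.rec (motive := fun _ => Nat)
    L890
    L891
    (Nat.ble 114048 i))
   (Nat.ble 113920 i))
  (Bool.rec (motive := fun _ => Nat)
   (Bool.rec (motive := fun _ => Nat)
    L892
    L893
    (Nat.ble 114304 i))
   (Bool.rec (motive := fun _ => Nat)
    L894
    L895
    (Nat.ble 114560 i))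
   (Nat.ble 114432 i))
  (Nat.ble 114176 i))
 (Nat.ble 113664 i))

/-- choice of a leaf -/
noncomputable def A0_56 (i : Nat) : Nat :=
 (Bool.rec (motive := fun _ => Nat)
 (Bool.rec (motive := fun _ => Nat)
  (Bool.rec (motive := fun _ => Nat)
   (Bool.rec (motive := fun _ => Nat)
    L896
    L897
    (Nat.ble 114816 i))
   (Bool.rec (motive := fun _ => Nat)
    L898
    L899
    (Nat.ble 115072 i))
   (Nat.ble 114944 i))
  (Bool.rec (motive := fun _ => Nat)
   (Bool.rec (motive := fun _ => Nat)
    L900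
    L901
    (Nat.ble 115328 i))
   (Bool.rec (motive := fun _ => Nat)
    L902
    L903
    (Nat.ble 115584 i))
   (Nat.ble 115456 i))
  (Nat.ble 115200 i))
 (Bool.rec (motive := fun _ => Nat)
  (Bool.rec (motive := fun _ => Nat)
   (Bool.rec (motive := fun _ => Nat)
    L904
    L905
    (Nat.ble 115840 i))
   (Bool.rec (motive := fun _ => Nat)
    L906
    L907
    (Nat.ble 116096 i))
   (Nat.ble 115968 i))
  (Bool.rec (motive := fun _ => Nat)
   (Bool.rec (motive := fun _ => Nat)
    L908
    L909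
    (Nat.ble 116352 i))
   (Bool.rec (motive := fun _ => Nat)
    L910
    L911
    (Nat.ble 116608 i))
   (Nat.ble 116480 i))
  (Nat.ble 116224 i))
 (Nat.ble 115712 i))

/-- choice of a leaf -/
noncomputable def A0_57 (i : Nat) : Nat :=
 (Bool.rec (motive := fun _ => Nat)
 (Bool.rec (motive := fun _ => Nat)
  (Bool.rec (motive := fun _ => Nat)
   (Bool.rec (motive := fun _ => Nat)
    L912
    L913
    (Nat.ble 116864 i))
   (Bool.rec (motive := fun _ => Nat)
    L914
    L915
    (Nat.ble 117120 i))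
   (Nat.ble 116992 i))
  (Bool.rec (motive := fun _ => Nat)
   (Bool.rec (motive := fun _ => Nat)
    L916
    L917
    (Nat.ble 117376 i))
   (Bool.rec (motive := fun _ => Nat)
    L918
    L919
    (Nat.ble 117632 i))
   (Nat.ble 117504 i))
  (Nat.ble 117248 i))
 (Bool.rec (motive := fun _ => Nat)
  (Bool.rec (motive := fun _ => Nat)
   (Bool.rec (motive := fun _ => Nat)
    L920
    L921
    (Nat.ble 117888 i))
   (Bool.rec (motive := fun _ => Nat)
    L922
    L923
    (Nat.ble 118144 i))
   (Nat.ble 118016 i))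
  (Bool.rec (motive := fun _ => Nat)
   (Bool.rec (motive := fun _ => Nat)
    L924
    L925
    (Nat.ble 118400 i))
   (Bool.rec (motive := fun _ => Nat)
    L926
    L927
    (Nat.ble 118656 i))
   (Nat.ble 118528 i))
  (Nat.ble 118272 i))
 (Nat.ble 117760 i))

/-- choice of a leaf -/
noncomputable def A0_58 (i : Nat) : Nat :=
 (Bool.rec (motive := fun _ => Nat)
 (Bool.rec (motive := fun _ => Nat)
  (Bool.rec (motive := fun _ => Nat)
   (Bool.rec (motive := fun _ => Nat)
    L928
    L929
    (Nat.ble 118912 i))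
   (Bool.rec (motive := fun _ => Nat)
    L930
    L931
    (Nat.ble 119168 i))
   (Nat.ble 119040 i))
  (Bool.rec (motive := fun _ => Nat)
   (Bool.rec (motive := fun _ => Nat)
    L932
    L933
    (Nat.ble 119424 i))
   (Bool.rec (motive := fun _ => Nat)
    L934
    L935
    (Nat.ble 119680 i))
   (Nat.ble 119552 i))
  (Nat.ble 119296 i))
 (Bool.rec (motive := fun _ => Nat)
  (Bool.rec (motive := fun _ => Nat)
   (Bool.rec (motive := fun _ => Nat)
    L936
    L937
    (Nat.ble 119936 i))
   (Bool.rec (motive := fun _ => Nat)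
    L938
    L939
    (Nat.ble 120192 i))
   (Nat.ble 120064 i))
  (Bool.rec (motive := fun _ => Nat)
   (Bool.rec (motive := fun _ => Nat)
    L940
    L941
    (Nat.ble 120448 i))
   (Bool.rec (motive := fun _ => Nat)
    L942
    L943
    (Nat.ble 120704 i))
   (Nat.ble 120576 i))
  (Nat.ble 120320 i))
 (Nat.ble 119808 i))

/-- choice of a leaf -/
noncomputable def A0_59 (i : Nat) : Nat :=
 (Bool.rec (motive := fun _ => Nat)
 (Bool.rec (motive := fun _ => Nat)
  (Bool.rec (motive := fun _ => Nat)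
   (Bool.rec (motive := fun _ => Nat)
    L944
    L945
    (Nat.ble 120960 i))
   (Bool.rec (motive := fun _ => Nat)
    L946
    L947
    (Nat.ble 121216 i))
   (Nat.ble 121088 i))
  (Bool.rec (motive := fun _ => Nat)
   (Bool.rec (motive := fun _ => Nat)
    L948
    L949
    (Nat.ble 121472 i))
   (Bool.rec (motive := fun _ => Nat)
    L950
    L951
    (Nat.ble 121728 i))
   (Nat.ble 121600 i))
  (Nat.ble 121344 i))
 (Bool.rec (motive := fun _ => Nat)
  (Bool.rec (motive := fun _ => Nat)
   (Bool.rec (motive := fun _ => Nat)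
    L952
    L953
    (Nat.ble 121984 i))
   (Bool.rec (motive := fun _ => Nat)
    L954
    L955
    (Nat.ble 122240 i))
   (Nat.ble 122112 i))
  (Bool.rec (motive := fun _ => Nat)
   (Bool.rec (motive := fun _ => Nat)
    L956
    L957
    (Nat.ble 122496 i))
   (Bool.rec (motive := fun _ => Nat)
    L958
    L959
    (Nat.ble 122752 i))
   (Nat.ble 122624 i))
  (Nat.ble 122368 i))
 (Nat.ble 121856 i))

/-- choice of a leaf -/
noncomputable def A0_60 (i : Nat) : Nat :=
 (Bool.rec (motive := fun _ => Nat)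
 (Bool.rec (motive := fun _ => Nat)
  (Bool.rec (motive := fun _ => Nat)
   (Bool.rec (motive := fun _ => Nat)
    L960
    L961
    (Nat.ble 123008 i))
   (Bool.rec (motive := fun _ => Nat)
    L962
    L963
    (Nat.ble 123264 i))
   (Nat.ble 123136 i))
  (Bool.rec (motive := fun _ => Nat)
   (Bool.rec (motive := fun _ => Nat)
    L964
    L965
    (Nat.ble 123520 i))
   (Bool.rec (motive := fun _ => Nat)
    L966
    L967
    (Nat.ble 123776 i))
   (Nat.ble 123648 i))
  (Nat.ble 123392 i))
 (Bool.rec (motive := fun _ => Nat)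
  (Bool.rec (motive := fun _ => Nat)
   (Bool.rec (motive := fun _ => Nat)
    L968
    L969
    (Nat.ble 124032 i))
   (Bool.rec (motive := fun _ => Nat)
    L970
    L971
    (Nat.ble 124288 i))
   (Nat.ble 124160 i))
  (Bool.rec (motive := fun _ => Nat)
   (Bool.rec (motive := fun _ => Nat)
    L972
    L973
    (Nat.ble 124544 i))
   (Bool.rec (motive := fun _ => Nat)
    L974
    L975
    (Nat.ble 124800 i))
   (Nat.ble 124672 i))
  (Nat.ble 124416 i))
 (Nat.ble 123904 i))

/-- choice of a leaf -/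
noncomputable def A0_61 (i : Nat) : Nat :=
 (Bool.rec (motive := fun _ => Nat)
 (Bool.rec (motive := fun _ => Nat)
  (Bool.rec (motive := fun _ => Nat)
   (Bool.rec (motive := fun _ => Nat)
    L976
    L977
    (Nat.ble 125056 i))
   (Bool.rec (motive := fun _ => Nat)
    L978
    L979
    (Nat.ble 125312 i))
   (Nat.ble 125184 i))
  (Bool.rec (motive := fun _ => Nat)
   (Bool.rec (motive := fun _ => Nat)
    L980
    L981
    (Nat.ble 125568 i))
   (Bool.rec (motive := fun _ => Nat)
    L982
    L983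
    (Nat.ble 125824 i))
   (Nat.ble 125696 i))
  (Nat.ble 125440 i))
 (Bool.rec (motive := fun _ => Nat)
  (Bool.rec (motive := fun _ => Nat)
   (Bool.rec (motive := fun _ => Nat)
    L984
    L985
    (Nat.ble 126080 i))
   (Bool.rec (motive := fun _ => Nat)
    L986
    L987
    (Nat.ble 126336 i))
   (Nat.ble 126208 i))
  (Bool.rec (motive := fun _ => Nat)
   (Bool.rec (motive := fun _ => Nat)
    L988
    L989
    (Nat.ble 126592 i))
   (Bool.rec (motive := fun _ => Nat)
    L990
    L991
    (Nat.ble 126848 i))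
   (Nat.ble 126720 i))
  (Nat.ble 126464 i))
 (Nat.ble 125952 i))

/-- choice of a leaf -/
noncomputable def A0_62 (i : Nat) : Nat :=
 (Bool.rec (motive := fun _ => Nat)
 (Bool.rec (motive := fun _ => Nat)
  (Bool.rec (motive := fun _ => Nat)
   (Bool.rec (motive := fun _ => Nat)
    L992
    L993
    (Nat.ble 127104 i))
   (Bool.rec (motive := fun _ => Nat)
    L994
    L995
    (Nat.ble 127360 i))
   (Nat.ble 127232 i))
  (Bool.rec (motive := fun _ => Nat)
   (Bool.rec (motive := fun _ => Nat)
    L996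
    L997
    (Nat.ble 127616 i))
   (Bool.rec (motive := fun _ => Nat)
    L998
    L999
    (Nat.ble 127872 i))
   (Nat.ble 127744 i))
  (Nat.ble 127488 i))
 (Bool.rec (motive := fun _ => Nat)
  (Bool.rec (motive := fun _ => Nat)
   (Bool.rec (motive := fun _ => Nat)
    L1000
    L1001
    (Nat.ble 128128 i))
   (Bool.rec (motive := fun _ => Nat)
    L1002
    L1003
    (Nat.ble 128384 i))
   (Nat.ble 128256 i))
  (Bool.rec (motive := fun _ => Nat)
   (Bool.rec (motive := fun _ => Nat)
    L1004
    L1005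
    (Nat.ble 128640 i))
   (Bool.rec (motive := fun _ => Nat)
    L1006
    L1007
    (Nat.ble 128896 i))
   (Nat.ble 128768 i))
  (Nat.ble 128512 i))
 (Nat.ble 128000 i))

/-- choice of a leaf -/
noncomputable def A0_63 (i : Nat) : Nat :=
 (Bool.rec (motive := fun _ => Nat)
 (Bool.rec (motive := fun _ => Nat)
  (Bool.rec (motive := fun _ => Nat)
   (Bool.rec (motive := fun _ => Nat)
    L1008
    L1009
    (Nat.ble 129152 i))
   (Bool.rec (motive := fun _ => Nat)
    L1010
    L1011
    (Nat.ble 129408 i))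
   (Nat.ble 129280 i))
  (Bool.rec (motive := fun _ => Nat)
   (Bool.rec (motive := fun _ => Nat)
    L1012
    L1013
    (Nat.ble 129664 i))
   (Bool.rec (motive := fun _ => Nat)
    L1014
    L1015
    (Nat.ble 129920 i))
   (Nat.ble 129792 i))
  (Nat.ble 129536 i))
 (Bool.rec (motive := fun _ => Nat)
  (Bool.rec (motive := fun _ => Nat)
   (Bool.rec (motive := fun _ => Nat)
    L1016
    L1017
    (Nat.ble 130176 i))
   (Bool.rec (motive := fun _ => Nat)
    L1018
    L1019
    (Nat.ble 130432 i))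
   (Nat.ble 130304 i))
  (Bool.rec (motive := fun _ => Nat)
   (Bool.rec (motive := fun _ => Nat)
    L1020
    L1021
    (Nat.ble 130688 i))
   (Bool.rec (motive := fun _ => Nat)
    L1022
    L1023
    (Nat.ble 130944 i))
   (Nat.ble 130816 i))
  (Nat.ble 130560 i))
 (Nat.ble 130048 i))

/-- choice of a leaf -/
noncomputable def A0_64 (i : Nat) : Nat :=
 (Bool.rec (motive := fun _ => Nat)
 (Bool.rec (motive := fun _ => Nat)
  (Bool.rec (motive := fun _ => Nat)
   (Bool.rec (motive := fun _ => Nat)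
    L1024
    L1025
    (Nat.ble 131200 i))
   (Bool.rec (motive := fun _ => Nat)
    L1026
    L1027
    (Nat.ble 131456 i))
   (Nat.ble 131328 i))
  (Bool.rec (motive := fun _ => Nat)
   (Bool.rec (motive := fun _ => Nat)
    L1028
    L1029
    (Nat.ble 131712 i))
   (Bool.rec (motive := fun _ => Nat)
    L1030
    L1031
    (Nat.ble 131968 i))
   (Nat.ble 131840 i))
  (Nat.ble 131584 i))
 (Bool.rec (motive := fun _ => Nat)
  (Bool.rec (motive := fun _ => Nat)
   (Bool.rec (motive := fun _ => Nat)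
    L1032
    L1033
    (Nat.ble 132224 i))
   (Bool.rec (motive := fun _ => Nat)
    L1034
    L1035
    (Nat.ble 132480 i))
   (Nat.ble 132352 i))
  (Bool.rec (motive := fun _ => Nat)
   (Bool.rec (motive := fun _ => Nat)
    L1036
    L1037
    (Nat.ble 132736 i))
   (Bool.rec (motive := fun _ => Nat)
    L1038
    L1039
    (Nat.ble 132992 i))
   (Nat.ble 132864 i))
  (Nat.ble 132608 i))
 (Nat.ble 132096 i))

/-- choice of a leaf -/
noncomputable def A0_65 (i : Nat) : Nat :=
 (Bool.rec (motive := fun _ => Nat)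
 (Bool.rec (motive := fun _ => Nat)
  (Bool.rec (motive := fun _ => Nat)
   (Bool.rec (motive := fun _ => Nat)
    L1040
    L1041
    (Nat.ble 133248 i))
   (Bool.rec (motive := fun _ => Nat)
    L1042
    L1043
    (Nat.ble 133504 i))
   (Nat.ble 133376 i))
  (Bool.rec (motive := fun _ => Nat)
   (Bool.rec (motive := fun _ => Nat)
    L1044
    L1045
    (Nat.ble 133760 i))
   (Bool.rec (motive := fun _ => Nat)
    L1046
    L1047
    (Nat.ble 134016 i))
   (Nat.ble 133888 i))
  (Nat.ble 133632 i))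
 (Bool.rec (motive := fun _ => Nat)
  (Bool.rec (motive := fun _ => Nat)
   (Bool.rec (motive := fun _ => Nat)
    L1048
    L1049
    (Nat.ble 134272 i))
   (Bool.rec (motive := fun _ => Nat)
    L1050
    L1051
    (Nat.ble 134528 i))
   (Nat.ble 134400 i))
  (Bool.rec (motive := fun _ => Nat)
   (Bool.rec (motive := fun _ => Nat)
    L1052
    L1053
    (Nat.ble 134784 i))
   (Bool.rec (motive := fun _ => Nat)
    L1054
    L1055
    (Nat.ble 135040 i))
   (Nat.ble 134912 i))
  (Nat.ble 134656 i))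
 (Nat.ble 134144 i))

/-- choice of a leaf -/
noncomputable def A0_66 (i : Nat) : Nat :=
 (Bool.rec (motive := fun _ => Nat)
 (Bool.rec (motive := fun _ => Nat)
  (Bool.rec (motive := fun _ => Nat)
   (Bool.rec (motive := fun _ => Nat)
    L1056
    L1057
    (Nat.ble 135296 i))
   (Bool.rec (motive := fun _ => Nat)
    L1058
    L1059
    (Nat.ble 135552 i))
   (Nat.ble 135424 i))
  (Bool.rec (motive := fun _ => Nat)
   (Bool.rec (motive := fun _ => Nat)
    L1060
    L1061
    (Nat.ble 135808 i))
   (Bool.rec (motive := fun _ => Nat)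
    L1062
    L1063
    (Nat.ble 136064 i))
   (Nat.ble 135936 i))
  (Nat.ble 135680 i))
 (Bool.rec (motive := fun _ => Nat)
  (Bool.rec (motive := fun _ => Nat)
   (Bool.rec (motive := fun _ => Nat)
    L1064
    L1065
    (Nat.ble 136320 i))
   (Bool.rec (motive := fun _ => Nat)
    L1066
    L1067
    (Nat.ble 136576 i))
   (Nat.ble 136448 i))
  (Bool.rec (motive := fun _ => Nat)
   (Bool.rec (motive := fun _ => Nat)
    L1068
    L1069
    (Nat.ble 136832 i))
   (Bool.rec (motive := fun _ => Nat)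
    L1070
    L1071
    (Nat.ble 137088 i))
   (Nat.ble 136960 i))
  (Nat.ble 136704 i))
 (Nat.ble 136192 i))

/-- choice of a leaf -/
noncomputable def A0_67 (i : Nat) : Nat :=
 (Bool.rec (motive := fun _ => Nat)
 (Bool.rec (motive := fun _ => Nat)
  (Bool.rec (motive := fun _ => Nat)
   (Bool.rec (motive := fun _ => Nat)
    L1072
    L1073
    (Nat.ble 137344 i))
   (Bool.rec (motive := fun _ => Nat)
    L1074
    L1075
    (Nat.ble 137600 i))
   (Nat.ble 137472 i))
  (Bool.rec (motive := fun _ => Nat)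
   (Bool.rec (motive := fun _ => Nat)
    L1076
    L1077
    (Nat.ble 137856 i))
   (Bool.rec (motive := fun _ => Nat)
    L1078
    L1079
    (Nat.ble 138112 i))
   (Nat.ble 137984 i))
  (Nat.ble 137728 i))
 (Bool.rec (motive := fun _ => Nat)
  (Bool.rec (motive := fun _ => Nat)
   (Bool.rec (motive := fun _ => Nat)
    L1080
    L1081
    (Nat.ble 138368 i))
   (Bool.rec (motive := fun _ => Nat)
    L1082
    L1083
    (Nat.ble 138624 i))
   (Nat.ble 138496 i))
  (Bool.rec (motive := fun _ => Nat)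
   (Bool.rec (motive := fun _ => Nat)
    L1084
    L1085
    (Nat.ble 138880 i))
   (Bool.rec (motive := fun _ => Nat)
    L1086
    L1087
    (Nat.ble 139136 i))
   (Nat.ble 139008 i))
  (Nat.ble 138752 i))
 (Nat.ble 138240 i))

/-- choice of a leaf -/
noncomputable def A0_68 (i : Nat) : Nat :=
 (Bool.rec (motive := fun _ => Nat)
 (Bool.rec (motive := fun _ => Nat)
  (Bool.rec (motive := fun _ => Nat)
   (Bool.rec (motive := fun _ => Nat)
    L1088
    L1089
    (Nat.ble 139392 i))
   (Bool.rec (motive := fun _ => Nat)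
    L1090
    L1091
    (Nat.ble 139648 i))
   (Nat.ble 139520 i))
  (Bool.rec (motive := fun _ => Nat)
   (Bool.rec (motive := fun _ => Nat)
    L1092
    L1093
    (Nat.ble 139904 i))
   (Bool.rec (motive := fun _ => Nat)
    L1094
    L1095
    (Nat.ble 140160 i))
   (Nat.ble 140032 i))
  (Nat.ble 139776 i))
 (Bool.rec (motive := fun _ => Nat)
  (Bool.rec (motive := fun _ => Nat)
   (Bool.rec (motive := fun _ => Nat)
    L1096
    L1097
    (Nat.ble 140416 i))
   (Bool.rec (motive := fun _ => Nat)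
    L1098
    L1099
    (Nat.ble 140672 i))
   (Nat.ble 140544 i))
  (Bool.rec (motive := fun _ => Nat)
   (Bool.rec (motive := fun _ => Nat)
    L1100
    L1101
    (Nat.ble 140928 i))
   (Bool.rec (motive := fun _ => Nat)
    L1102
    L1103
    (Nat.ble 141184 i))
   (Nat.ble 141056 i))
  (Nat.ble 140800 i))
 (Nat.ble 140288 i))

/-- choice of a leaf -/
noncomputable def A0_69 (i : Nat) : Nat :=
 (Bool.rec (motive := fun _ => Nat)
 (Bool.rec (motive := fun _ => Nat)
  (Bool.rec (motive := fun _ => Nat)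
   (Bool.rec (motive := fun _ => Nat)
    L1104
    L1105
    (Nat.ble 141440 i))
   (Bool.rec (motive := fun _ => Nat)
    L1106
    L1107
    (Nat.ble 141696 i))
   (Nat.ble 141568 i))
  (Bool.rec (motive := fun _ => Nat)
   (Bool.rec (motive := fun _ => Nat)
    L1108
    L1109
    (Nat.ble 141952 i))
   (Bool.rec (motive := fun _ => Nat)
    L1110
    L1111
    (Nat.ble 142208 i))
   (Nat.ble 142080 i))
  (Nat.ble 141824 i))
 (Bool.rec (motive := fun _ => Nat)
  (Bool.rec (motive := fun _ => Nat)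
   (Bool.rec (motive := fun _ => Nat)
    L1112
    L1113
    (Nat.ble 142464 i))
   (Bool.rec (motive := fun _ => Nat)
    L1114
    L1115
    (Nat.ble 142720 i))
   (Nat.ble 142592 i))
  (Bool.rec (motive := fun _ => Nat)
   (Bool.rec (motive := fun _ => Nat)
    L1116
    L1117
    (Nat.ble 142976 i))
   (Bool.rec (motive := fun _ => Nat)
    L1118
    L1119
    (Nat.ble 143232 i))
   (Nat.ble 143104 i))
  (Nat.ble 142848 i))
 (Nat.ble 142336 i))

/-- choice of a leaf -/
noncomputable def A0_70 (i : Nat) : Nat :=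
 (Bool.rec (motive := fun _ => Nat)
 (Bool.rec (motive := fun _ => Nat)
  (Bool.rec (motive := fun _ => Nat)
   (Bool.rec (motive := fun _ => Nat)
    L1120
    L1121
    (Nat.ble 143488 i))
   (Bool.rec (motive := fun _ => Nat)
    L1122
    L1123
    (Nat.ble 143744 i))
   (Nat.ble 143616 i))
  (Bool.rec (motive := fun _ => Nat)
   (Bool.rec (motive := fun _ => Nat)
    L1124
    L1125
    (Nat.ble 144000 i))
   (Bool.rec (motive := fun _ => Nat)
    L1126
    L1127
    (Nat.ble 144256 i))
   (Nat.ble 144128 i))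
  (Nat.ble 143872 i))
 (Bool.rec (motive := fun _ => Nat)
  (Bool.rec (motive := fun _ => Nat)
   (Bool.rec (motive := fun _ => Nat)
    L1128
    L1129
    (Nat.ble 144512 i))
   (Bool.rec (motive := fun _ => Nat)
    L1130
    L1131
    (Nat.ble 144768 i))
   (Nat.ble 144640 i))
  (Bool.rec (motive := fun _ => Nat)
   (Bool.rec (motive := fun _ => Nat)
    L1132
    L1133
    (Nat.ble 145024 i))
   (Bool.rec (motive := fun _ => Nat)
    L1134
    L1135
    (Nat.ble 145280 i))
   (Nat.ble 145152 i))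
  (Nat.ble 144896 i))
 (Nat.ble 144384 i))

/-- choice of a leaf -/
noncomputable def A0_71 (i : Nat) : Nat :=
 (Bool.rec (motive := fun _ => Nat)
 (Bool.rec (motive := fun _ => Nat)
  (Bool.rec (motive := fun _ => Nat)
   (Bool.rec (motive := fun _ => Nat)
    L1136
    L1137
    (Nat.ble 145536 i))
   (Bool.rec (motive := fun _ => Nat)
    L1138
    L1139
    (Nat.ble 145792 i))
   (Nat.ble 145664 i))
  (Bool.rec (motive := fun _ => Nat)
   (Bool.rec (motive := fun _ => Nat)
    L1140
    L1141
    (Nat.ble 146048 i))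
   (Bool.rec (motive := fun _ => Nat)
    L1142
    L1143
    (Nat.ble 146304 i))
   (Nat.ble 146176 i))
  (Nat.ble 145920 i))
 (Bool.rec (motive := fun _ => Nat)
  (Bool.rec (motive := fun _ => Nat)
   (Bool.rec (motive := fun _ => Nat)
    L1144
    L1145
    (Nat.ble 146560 i))
   (Bool.rec (motive := fun _ => Nat)
    L1146
    L1147
    (Nat.ble 146816 i))
   (Nat.ble 146688 i))
  (Bool.rec (motive := fun _ => Nat)
   (Bool.rec (motive := fun _ => Nat)
    L1148
    L1149
    (Nat.ble 147072 i))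
   (Bool.rec (motive := fun _ => Nat)
    L1150
    L1151
    (Nat.ble 147328 i))
   (Nat.ble 147200 i))
  (Nat.ble 146944 i))
 (Nat.ble 146432 i))

/-- choice of a leaf -/
noncomputable def A0_72 (i : Nat) : Nat :=
 (Bool.rec (motive := fun _ => Nat)
 (Bool.rec (motive := fun _ => Nat)
  (Bool.rec (motive := fun _ => Nat)
   (Bool.rec (motive := fun _ => Nat)
    L1152
    L1153
    (Nat.ble 147584 i))
   (Bool.rec (motive := fun _ => Nat)
    L1154
    L1155
    (Nat.ble 147840 i))
   (Nat.ble 147712 i))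
  (Bool.rec (motive := fun _ => Nat)
   (Bool.rec (motive := fun _ => Nat)
    L1156
    L1157
    (Nat.ble 148096 i))
   (Bool.rec (motive := fun _ => Nat)
    L1158
    L1159
    (Nat.ble 148352 i))
   (Nat.ble 148224 i))
  (Nat.ble 147968 i))
 (Bool.rec (motive := fun _ => Nat)
  (Bool.rec (motive := fun _ => Nat)
   (Bool.rec (motive := fun _ => Nat)
    L1160
    L1161
    (Nat.ble 148608 i))
   (Bool.rec (motive := fun _ => Nat)
    L1162
    L1163
    (Nat.ble 148864 i))
   (Nat.ble 148736 i))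
  (Bool.rec (motive := fun _ => Nat)
   (Bool.rec (motive := fun _ => Nat)
    L1164
    L1165
    (Nat.ble 149120 i))
   (Bool.rec (motive := fun _ => Nat)
    L1166
    L1167
    (Nat.ble 149376 i))
   (Nat.ble 149248 i))
  (Nat.ble 148992 i))
 (Nat.ble 148480 i))

/-- choice of a leaf -/
noncomputable def A0_73 (i : Nat) : Nat :=
 (Bool.rec (motive := fun _ => Nat)
 (Bool.rec (motive := fun _ => Nat)
  (Bool.rec (motive := fun _ => Nat)
   (Bool.rec (motive := fun _ => Nat)
    L1168
    L1169
    (Nat.ble 149632 i))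
   (Bool.rec (motive := fun _ => Nat)
    L1170
    L1171
    (Nat.ble 149888 i))
   (Nat.ble 149760 i))
  (Bool.rec (motive := fun _ => Nat)
   (Bool.rec (motive := fun _ => Nat)
    L1172
    L1173
    (Nat.ble 150144 i))
   (Bool.rec (motive := fun _ => Nat)
    L1174
    L1175
    (Nat.ble 150400 i))
   (Nat.ble 150272 i))
  (Nat.ble 150016 i))
 (Bool.rec (motive := fun _ => Nat)
  (Bool.rec (motive := fun _ => Nat)
   (Bool.rec (motive := fun _ => Nat)
    L1176
    L1177
    (Nat.ble 150656 i))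
   (Bool.rec (motive := fun _ => Nat)
    L1178
    L1179
    (Nat.ble 150912 i))
   (Nat.ble 150784 i))
  (Bool.rec (motive := fun _ => Nat)
   (Bool.rec (motive := fun _ => Nat)
    L1180
    L1181
    (Nat.ble 151168 i))
   (Bool.rec (motive := fun _ => Nat)
    L1182
    L1183
    (Nat.ble 151424 i))
   (Nat.ble 151296 i))
  (Nat.ble 151040 i))
 (Nat.ble 150528 i))

/-- choice of a leaf -/
noncomputable def A0_74 (i : Nat) : Nat :=
 (Bool.rec (motive := fun _ => Nat)
 (Bool.rec (motive := fun _ => Nat)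
  (Bool.rec (motive := fun _ => Nat)
   (Bool.rec (motive := fun _ => Nat)
    L1184
    L1185
    (Nat.ble 151680 i))
   (Bool.rec (motive := fun _ => Nat)
    L1186
    L1187
    (Nat.ble 151936 i))
   (Nat.ble 151808 i))
  (Bool.rec (motive := fun _ => Nat)
   (Bool.rec (motive := fun _ => Nat)
    L1188
    L1189
    (Nat.ble 152192 i))
   (Bool.rec (motive := fun _ => Nat)
    L1190
    L1191
    (Nat.ble 152448 i))
   (Nat.ble 152320 i))
  (Nat.ble 152064 i))
 (Bool.rec (motive := fun _ => Nat)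
  (Bool.rec (motive := fun _ => Nat)
   (Bool.rec (motive := fun _ => Nat)
    L1192
    L1193
    (Nat.ble 152704 i))
   (Bool.rec (motive := fun _ => Nat)
    L1194
    L1195
    (Nat.ble 152960 i))
   (Nat.ble 152832 i))
  (Bool.rec (motive := fun _ => Nat)
   (Bool.rec (motive := fun _ => Nat)
    L1196
    L1197
    (Nat.ble 153216 i))
   (Bool.rec (motive := fun _ => Nat)
    L1198
    L1199
    (Nat.ble 153472 i))
   (Nat.ble 153344 i))
  (Nat.ble 153088 i))
 (Nat.ble 152576 i))

/-- choice of a leaf -/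
noncomputable def A0_75 (i : Nat) : Nat :=
 (Bool.rec (motive := fun _ => Nat)
 (Bool.rec (motive := fun _ => Nat)
  (Bool.rec (motive := fun _ => Nat)
   (Bool.rec (motive := fun _ => Nat)
    L1200
    L1201
    (Nat.ble 153728 i))
   (Bool.rec (motive := fun _ => Nat)
    L1202
    L1203
    (Nat.ble 153984 i))
   (Nat.ble 153856 i))
  (Bool.rec (motive := fun _ => Nat)
   (Bool.rec (motive := fun _ => Nat)
    L1204
    L1205
    (Nat.ble 154240 i))
   (Bool.rec (motive := fun _ => Nat)
    L1206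
    L1207
    (Nat.ble 154496 i))
   (Nat.ble 154368 i))
  (Nat.ble 154112 i))
 (Bool.rec (motive := fun _ => Nat)
  (Bool.rec (motive := fun _ => Nat)
   (Bool.rec (motive := fun _ => Nat)
    L1208
    L1209
    (Nat.ble 154752 i))
   (Bool.rec (motive := fun _ => Nat)
    L1210
    L1211
    (Nat.ble 155008 i))
   (Nat.ble 154880 i))
  (Bool.rec (motive := fun _ => Nat)
   (Bool.rec (motive := fun _ => Nat)
    L1212
    L1213
    (Nat.ble 155264 i))
   (Bool.rec (motive := fun _ => Nat)
    L1214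
    L1215
    (Nat.ble 155520 i))
   (Nat.ble 155392 i))
  (Nat.ble 155136 i))
 (Nat.ble 154624 i))

/-- choice of a leaf -/
noncomputable def A0_76 (i : Nat) : Nat :=
 (Bool.rec (motive := fun _ => Nat)
 (Bool.rec (motive := fun _ => Nat)
  (Bool.rec (motive := fun _ => Nat)
   (Bool.rec (motive := fun _ => Nat)
    L1216
    L1217
    (Nat.ble 155776 i))
   (Bool.rec (motive := fun _ => Nat)
    L1218
    L1219
    (Nat.ble 156032 i))
   (Nat.ble 155904 i))
  (Bool.rec (motive := fun _ => Nat)
   (Bool.rec (motive := fun _ => Nat)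
    L1220
    L1221
    (Nat.ble 156288 i))
   (Bool.rec (motive := fun _ => Nat)
    L1222
    L1223
    (Nat.ble 156544 i))
   (Nat.ble 156416 i))
  (Nat.ble 156160 i))
 (Bool.rec (motive := fun _ => Nat)
  (Bool.rec (motive := fun _ => Nat)
   (Bool.rec (motive := fun _ => Nat)
    L1224
    L1225
    (Nat.ble 156800 i))
   (Bool.rec (motive := fun _ => Nat)
    L1226
    L1227
    (Nat.ble 157056 i))
   (Nat.ble 156928 i))
  (Bool.rec (motive := fun _ => Nat)
   (Bool.rec (motive := fun _ => Nat)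
    L1228
    L1229
    (Nat.ble 157312 i))
   (Bool.rec (motive := fun _ => Nat)
    L1230
    L1231
    (Nat.ble 157568 i))
   (Nat.ble 157440 i))
  (Nat.ble 157184 i))
 (Nat.ble 156672 i))

/-- choice of a leaf -/
noncomputable def A0_77 (i : Nat) : Nat :=
 (Bool.rec (motive := fun _ => Nat)
 (Bool.rec (motive := fun _ => Nat)
  (Bool.rec (motive := fun _ => Nat)
   (Bool.rec (motive := fun _ => Nat)
    L1232
    L1233
    (Nat.ble 157824 i))
   (Bool.rec (motive := fun _ => Nat)
    L1234
    L1235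
    (Nat.ble 158080 i))
   (Nat.ble 157952 i))
  (Bool.rec (motive := fun _ => Nat)
   (Bool.rec (motive := fun _ => Nat)
    L1236
    L1237
    (Nat.ble 158336 i))
   (Bool.rec (motive := fun _ => Nat)
    L1238
    L1239
    (Nat.ble 158592 i))
   (Nat.ble 158464 i))
  (Nat.ble 158208 i))
 (Bool.rec (motive := fun _ => Nat)
  (Bool.rec (motive := fun _ => Nat)
   (Bool.rec (motive := fun _ => Nat)
    L1240
    L1241
    (Nat.ble 158848 i))
   (Bool.rec (motive := fun _ => Nat)
    L1242
    L1243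
    (Nat.ble 159104 i))
   (Nat.ble 158976 i))
  (Bool.rec (motive := fun _ => Nat)
   (Bool.rec (motive := fun _ => Nat)
    L1244
    L1245
    (Nat.ble 159360 i))
   (Bool.rec (motive := fun _ => Nat)
    L1246
    L1247
    (Nat.ble 159616 i))
   (Nat.ble 159488 i))
  (Nat.ble 159232 i))
 (Nat.ble 158720 i))

/-- choice of a leaf -/
noncomputable def A0_78 (i : Nat) : Nat :=
 (Bool.rec (motive := fun _ => Nat)
 (Bool.rec (motive := fun _ => Nat)
  (Bool.rec (motive := fun _ => Nat)
   (Bool.rec (motive := fun _ => Nat)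
    L1248
    L1249
    (Nat.ble 159872 i))
   (Bool.rec (motive := fun _ => Nat)
    L1250
    L1251
    (Nat.ble 160128 i))
   (Nat.ble 160000 i))
  (Bool.rec (motive := fun _ => Nat)
   (Bool.rec (motive := fun _ => Nat)
    L1252
    L1253
    (Nat.ble 160384 i))
   (Bool.rec (motive := fun _ => Nat)
    L1254
    L1255
    (Nat.ble 160640 i))
   (Nat.ble 160512 i))
  (Nat.ble 160256 i))
 (Bool.rec (motive := fun _ => Nat)
  (Bool.rec (motive := fun _ => Nat)
   (Bool.rec (motive := fun _ => Nat)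
    L1256
    L1257
    (Nat.ble 160896 i))
   (Bool.rec (motive := fun _ => Nat)
    L1258
    L1259
    (Nat.ble 161152 i))
   (Nat.ble 161024 i))
  (Bool.rec (motive := fun _ => Nat)
   (Bool.rec (motive := fun _ => Nat)
    L1260
    L1261
    (Nat.ble 161408 i))
   (Bool.rec (motive := fun _ => Nat)
    L1262
    L1263
    (Nat.ble 161664 i))
   (Nat.ble 161536 i))
  (Nat.ble 161280 i))
 (Nat.ble 160768 i))

/-- choice of a leaf -/
noncomputable def A0_79 (i : Nat) : Nat :=
 (Bool.rec (motive := fun _ => Nat)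
 (Bool.rec (motive := fun _ => Nat)
  (Bool.rec (motive := fun _ => Nat)
   (Bool.rec (motive := fun _ => Nat)
    L1264
    L1265
    (Nat.ble 161920 i))
   (Bool.rec (motive := fun _ => Nat)
    L1266
    L1267
    (Nat.ble 162176 i))
   (Nat.ble 162048 i))
  (Bool.rec (motive := fun _ => Nat)
   (Bool.rec (motive := fun _ => Nat)
    L1268
    L1269
    (Nat.ble 162432 i))
   (Bool.rec (motive := fun _ => Nat)
    L1270
    L1271
    (Nat.ble 162688 i))
   (Nat.ble 162560 i))
  (Nat.ble 162304 i))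
 (Bool.rec (motive := fun _ => Nat)
  (Bool.rec (motive := fun _ => Nat)
   (Bool.rec (motive := fun _ => Nat)
    L1272
    L1273
    (Nat.ble 162944 i))
   (Bool.rec (motive := fun _ => Nat)
    L1274
    L1275
    (Nat.ble 163200 i))
   (Nat.ble 163072 i))
  (Bool.rec (motive := fun _ => Nat)
   (Bool.rec (motive := fun _ => Nat)
    L1276
    L1277
    (Nat.ble 163456 i))
   (Bool.rec (motive := fun _ => Nat)
    L1278
    L1279
    (Nat.ble 163712 i))
   (Nat.ble 163584 i))
  (Nat.ble 163328 i))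
 (Nat.ble 162816 i))

/-- choice of a leaf -/
noncomputable def A0_80 (i : Nat) : Nat :=
 (Bool.rec (motive := fun _ => Nat)
 (Bool.rec (motive := fun _ => Nat)
  (Bool.rec (motive := fun _ => Nat)
   (Bool.rec (motive := fun _ => Nat)
    L1280
    L1281
    (Nat.ble 163968 i))
   (Bool.rec (motive := fun _ => Nat)
    L1282
    L1283
    (Nat.ble 164224 i))
   (Nat.ble 164096 i))
  (Bool.rec (motive := fun _ => Nat)
   (Bool.rec (motive := fun _ => Nat)
    L1284
    L1285
    (Nat.ble 164480 i))
   (Bool.rec (motive := fun _ => Nat)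
    L1286
    L1287
    (Nat.ble 164736 i))
   (Nat.ble 164608 i))
  (Nat.ble 164352 i))
 (Bool.rec (motive := fun _ => Nat)
  (Bool.rec (motive := fun _ => Nat)
   (Bool.rec (motive := fun _ => Nat)
    L1288
    L1289
    (Nat.ble 164992 i))
   (Bool.rec (motive := fun _ => Nat)
    L1290
    L1291
    (Nat.ble 165248 i))
   (Nat.ble 165120 i))
  (Bool.rec (motive := fun _ => Nat)
   (Bool.rec (motive := fun _ => Nat)
    L1292
    L1293
    (Nat.ble 165504 i))
   (Bool.rec (motive := fun _ => Nat)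
    L1294
    L1295
    (Nat.ble 165760 i))
   (Nat.ble 165632 i))
  (Nat.ble 165376 i))
 (Nat.ble 164864 i))

/-- choice of a leaf -/
noncomputable def A0_81 (i : Nat) : Nat :=
 (Bool.rec (motive := fun _ => Nat)
 (Bool.rec (motive := fun _ => Nat)
  (Bool.rec (motive := fun _ => Nat)
   (Bool.rec (motive := fun _ => Nat)
    L1296
    L1297
    (Nat.ble 166016 i))
   (Bool.rec (motive := fun _ => Nat)
    L1298
    L1299
    (Nat.ble 166272 i))
   (Nat.ble 166144 i))
  (Bool.rec (motive := fun _ => Nat)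
   (Bool.rec (motive := fun _ => Nat)
    L1300
    L1301
    (Nat.ble 166528 i))
   (Bool.rec (motive := fun _ => Nat)
    L1302
    L1303
    (Nat.ble 166784 i))
   (Nat.ble 166656 i))
  (Nat.ble 166400 i))
 (Bool.rec (motive := fun _ => Nat)
  (Bool.rec (motive := fun _ => Nat)
   (Bool.rec (motive := fun _ => Nat)
    L1304
    L1305
    (Nat.ble 167040 i))
   (Bool.rec (motive := fun _ => Nat)
    L1306
    L1307
    (Nat.ble 167296 i))
   (Nat.ble 167168 i))
  (Bool.rec (motive := fun _ => Nat)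
   (Bool.rec (motive := fun _ => Nat)
    L1308
    L1309
    (Nat.ble 167552 i))
   (Bool.rec (motive := fun _ => Nat)
    L1310
    L1311
    (Nat.ble 167808 i))
   (Nat.ble 167680 i))
  (Nat.ble 167424 i))
 (Nat.ble 166912 i))

/-- choice of a leaf -/
noncomputable def A0_82 (i : Nat) : Nat :=
 (Bool.rec (motive := fun _ => Nat)
 (Bool.rec (motive := fun _ => Nat)
  (Bool.rec (motive := fun _ => Nat)
   (Bool.rec (motive := fun _ => Nat)
    L1312
    L1313
    (Nat.ble 168064 i))
   (Bool.rec (motive := fun _ => Nat)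
    L1314
    L1315
    (Nat.ble 168320 i))
   (Nat.ble 168192 i))
  (Bool.rec (motive := fun _ => Nat)
   (Bool.rec (motive := fun _ => Nat)
    L1316
    L1317
    (Nat.ble 168576 i))
   (Bool.rec (motive := fun _ => Nat)
    L1318
    L1319
    (Nat.ble 168832 i))
   (Nat.ble 168704 i))
  (Nat.ble 168448 i))
 (Bool.rec (motive := fun _ => Nat)
  (Bool.rec (motive := fun _ => Nat)
   (Bool.rec (motive := fun _ => Nat)
    L1320
    L1321
    (Nat.ble 169088 i))
   (Bool.rec (motive := fun _ => Nat)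
    L1322
    L1323
    (Nat.ble 169344 i))
   (Nat.ble 169216 i))
  (Bool.rec (motive := fun _ => Nat)
   (Bool.rec (motive := fun _ => Nat)
    L1324
    L1325
    (Nat.ble 169600 i))
   (Bool.rec (motive := fun _ => Nat)
    L1326
    L1327
    (Nat.ble 169856 i))
   (Nat.ble 169728 i))
  (Nat.ble 169472 i))
 (Nat.ble 168960 i))

/-- choice of a leaf -/
noncomputable def A0_83 (i : Nat) : Nat :=
 (Bool.rec (motive := fun _ => Nat)
 (Bool.rec (motive := fun _ => Nat)
  (Bool.rec (motive := fun _ => Nat)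
   (Bool.rec (motive := fun _ => Nat)
    L1328
    L1329
    (Nat.ble 170112 i))
   (Bool.rec (motive := fun _ => Nat)
    L1330
    L1331
    (Nat.ble 170368 i))
   (Nat.ble 170240 i))
  (Bool.rec (motive := fun _ => Nat)
   (Bool.rec (motive := fun _ => Nat)
    L1332
    L1333
    (Nat.ble 170624 i))
   (Bool.rec (motive := fun _ => Nat)
    L1334
    L1335
    (Nat.ble 170880 i))
   (Nat.ble 170752 i))
  (Nat.ble 170496 i))
 (Bool.rec (motive := fun _ => Nat)
  (Bool.rec (motive := fun _ => Nat)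
   (Bool.rec (motive := fun _ => Nat)
    L1336
    L1337
    (Nat.ble 171136 i))
   (Bool.rec (motive := fun _ => Nat)
    L1338
    L1339
    (Nat.ble 171392 i))
   (Nat.ble 171264 i))
  (Bool.rec (motive := fun _ => Nat)
   (Bool.rec (motive := fun _ => Nat)
    L1340
    L1341
    (Nat.ble 171648 i))
   (Bool.rec (motive := fun _ => Nat)
    L1342
    L1343
    (Nat.ble 171904 i))
   (Nat.ble 171776 i))
  (Nat.ble 171520 i))
 (Nat.ble 171008 i))

/-- choice of a leaf -/
noncomputable def A0_84 (i : Nat) : Nat :=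
 (Bool.rec (motive := fun _ => Nat)
 (Bool.rec (motive := fun _ => Nat)
  (Bool.rec (motive := fun _ => Nat)
   (Bool.rec (motive := fun _ => Nat)
    L1344
    L1345
    (Nat.ble 172160 i))
   (Bool.rec (motive := fun _ => Nat)
    L1346
    L1347
    (Nat.ble 172416 i))
   (Nat.ble 172288 i))
  (Bool.rec (motive := fun _ => Nat)
   (Bool.rec (motive := fun _ => Nat)
    L1348
    L1349
    (Nat.ble 172672 i))
   (Bool.rec (motive := fun _ => Nat)
    L1350
    L1351
    (Nat.ble 172928 i))
   (Nat.ble 172800 i))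
  (Nat.ble 172544 i))
 (Bool.rec (motive := fun _ => Nat)
  (Bool.rec (motive := fun _ => Nat)
   (Bool.rec (motive := fun _ => Nat)
    L1352
    L1353
    (Nat.ble 173184 i))
   (Bool.rec (motive := fun _ => Nat)
    L1354
    L1355
    (Nat.ble 173440 i))
   (Nat.ble 173312 i))
  (Bool.rec (motive := fun _ => Nat)
   (Bool.rec (motive := fun _ => Nat)
    L1356
    L1357
    (Nat.ble 173696 i))
   (Bool.rec (motive := fun _ => Nat)
    L1358
    L1359
    (Nat.ble 173952 i))
   (Nat.ble 173824 i))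
  (Nat.ble 173568 i))
 (Nat.ble 173056 i))

/-- choice of a leaf -/
noncomputable def A0_85 (i : Nat) : Nat :=
 (Bool.rec (motive := fun _ => Nat)
 (Bool.rec (motive := fun _ => Nat)
  (Bool.rec (motive := fun _ => Nat)
   (Bool.rec (motive := fun _ => Nat)
    L1360
    L1361
    (Nat.ble 174208 i))
   (Bool.rec (motive := fun _ => Nat)
    L1362
    L1363
    (Nat.ble 174464 i))
   (Nat.ble 174336 i))
  (Bool.rec (motive := fun _ => Nat)
   (Bool.rec (motive := fun _ => Nat)
    L1364
    L1365
    (Nat.ble 174720 i))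
   (Bool.rec (motive := fun _ => Nat)
    L1366
    L1367
    (Nat.ble 174976 i))
   (Nat.ble 174848 i))
  (Nat.ble 174592 i))
 (Bool.rec (motive := fun _ => Nat)
  (Bool.rec (motive := fun _ => Nat)
   (Bool.rec (motive := fun _ => Nat)
    L1368
    L1369
    (Nat.ble 175232 i))
   (Bool.rec (motive := fun _ => Nat)
    L1370
    L1371
    (Nat.ble 175488 i))
   (Nat.ble 175360 i))
  (Bool.rec (motive := fun _ => Nat)
   (Bool.rec (motive := fun _ => Nat)
    L1372
    L1373
    (Nat.ble 175744 i))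
   (Bool.rec (motive := fun _ => Nat)
    L1374
    L1375
    (Nat.ble 176000 i))
   (Nat.ble 175872 i))
  (Nat.ble 175616 i))
 (Nat.ble 175104 i))

/-- choice of a leaf -/
noncomputable def A0_86 (i : Nat) : Nat :=
 (Bool.rec (motive := fun _ => Nat)
 (Bool.rec (motive := fun _ => Nat)
  (Bool.rec (motive := fun _ => Nat)
   (Bool.rec (motive := fun _ => Nat)
    L1376
    L1377
    (Nat.ble 176256 i))
   (Bool.rec (motive := fun _ => Nat)
    L1378
    L1379
    (Nat.ble 176512 i))
   (Nat.ble 176384 i))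
  (Bool.rec (motive := fun _ => Nat)
   (Bool.rec (motive := fun _ => Nat)
    L1380
    L1381
    (Nat.ble 176768 i))
   (Bool.rec (motive := fun _ => Nat)
    L1382
    L1383
    (Nat.ble 177024 i))
   (Nat.ble 176896 i))
  (Nat.ble 176640 i))
 (Bool.rec (motive := fun _ => Nat)
  (Bool.rec (motive := fun _ => Nat)
   (Bool.rec (motive := fun _ => Nat)
    L1384
    L1385
    (Nat.ble 177280 i))
   (Bool.rec (motive := fun _ => Nat)
    L1386
    L1387
    (Nat.ble 177536 i))
   (Nat.ble 177408 i))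
  (Bool.rec (motive := fun _ => Nat)
   (Bool.rec (motive := fun _ => Nat)
    L1388
    L1389
    (Nat.ble 177792 i))
   (Bool.rec (motive := fun _ => Nat)
    L1390
    L1391
    (Nat.ble 178048 i))
   (Nat.ble 177920 i))
  (Nat.ble 177664 i))
 (Nat.ble 177152 i))

/-- choice of a leaf -/
noncomputable def A0_87 (i : Nat) : Nat :=
 (Bool.rec (motive := fun _ => Nat)
 (Bool.rec (motive := fun _ => Nat)
  (Bool.rec (motive := fun _ => Nat)
   (Bool.rec (motive := fun _ => Nat)
    L1392
    L1393
    (Nat.ble 178304 i))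
   (Bool.rec (motive := fun _ => Nat)
    L1394
    L1395
    (Nat.ble 178560 i))
   (Nat.ble 178432 i))
  (Bool.rec (motive := fun _ => Nat)
   (Bool.rec (motive := fun _ => Nat)
    L1396
    L1397
    (Nat.ble 178816 i))
   (Bool.rec (motive := fun _ => Nat)
    L1398
    L1399
    (Nat.ble 179072 i))
   (Nat.ble 178944 i))
  (Nat.ble 178688 i))
 (Bool.rec (motive := fun _ => Nat)
  (Bool.rec (motive := fun _ => Nat)
   (Bool.rec (motive := fun _ => Nat)
    L1400
    L1401
    (Nat.ble 179328 i))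
   (Bool.rec (motive := fun _ => Nat)
    L1402
    L1403
    (Nat.ble 179584 i))
   (Nat.ble 179456 i))
  (Bool.rec (motive := fun _ => Nat)
   (Bool.rec (motive := fun _ => Nat)
    L1404
    L1405
    (Nat.ble 179840 i))
   (Bool.rec (motive := fun _ => Nat)
    L1406
    L1407
    (Nat.ble 180096 i))
   (Nat.ble 179968 i))
  (Nat.ble 179712 i))
 (Nat.ble 179200 i))

/-- choice of a leaf -/
noncomputable def A0_88 (i : Nat) : Nat :=
 (Bool.rec (motive := fun _ => Nat)
 (Bool.rec (motive := fun _ => Nat)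
  (Bool.rec (motive := fun _ => Nat)
   (Bool.rec (motive := fun _ => Nat)
    L1408
    L1409
    (Nat.ble 180352 i))
   (Bool.rec (motive := fun _ => Nat)
    L1410
    L1411
    (Nat.ble 180608 i))
   (Nat.ble 180480 i))
  (Bool.rec (motive := fun _ => Nat)
   (Bool.rec (motive := fun _ => Nat)
    L1412
    L1413
    (Nat.ble 180864 i))
   (Bool.rec (motive := fun _ => Nat)
    L1414
    L1415
    (Nat.ble 181120 i))
   (Nat.ble 180992 i))
  (Nat.ble 180736 i))
 (Bool.rec (motive := fun _ => Nat)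
  (Bool.rec (motive := fun _ => Nat)
   (Bool.rec (motive := fun _ => Nat)
    L1416
    L1417
    (Nat.ble 181376 i))
   (Bool.rec (motive := fun _ => Nat)
    L1418
    L1419
    (Nat.ble 181632 i))
   (Nat.ble 181504 i))
  (Bool.rec (motive := fun _ => Nat)
   (Bool.rec (motive := fun _ => Nat)
    L1420
    L1421
    (Nat.ble 181888 i))
   (Bool.rec (motive := fun _ => Nat)
    L1422
    L1423
    (Nat.ble 182144 i))
   (Nat.ble 182016 i))
  (Nat.ble 181760 i))
 (Nat.ble 181248 i))

/-- choice of a leaf -/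
noncomputable def A0_89 (i : Nat) : Nat :=
 (Bool.rec (motive := fun _ => Nat)
 (Bool.rec (motive := fun _ => Nat)
  (Bool.rec (motive := fun _ => Nat)
   (Bool.rec (motive := fun _ => Nat)
    L1424
    L1425
    (Nat.ble 182400 i))
   (Bool.rec (motive := fun _ => Nat)
    L1426
    L1427
    (Nat.ble 182656 i))
   (Nat.ble 182528 i))
  (Bool.rec (motive := fun _ => Nat)
   (Bool.rec (motive := fun _ => Nat)
    L1428
    L1429
    (Nat.ble 182912 i))
   (Bool.rec (motive := fun _ => Nat)
    L1430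
    L1431
    (Nat.ble 183168 i))
   (Nat.ble 183040 i))
  (Nat.ble 182784 i))
 (Bool.rec (motive := fun _ => Nat)
  (Bool.rec (motive := fun _ => Nat)
   (Bool.rec (motive := fun _ => Nat)
    L1432
    L1433
    (Nat.ble 183424 i))
   (Bool.rec (motive := fun _ => Nat)
    L1434
    L1435
    (Nat.ble 183680 i))
   (Nat.ble 183552 i))
  (Bool.rec (motive := fun _ => Nat)
   (Bool.rec (motive := fun _ => Nat)
    L1436
    L1437
    (Nat.ble 183936 i))
   (Bool.rec (motive := fun _ => Nat)
    L1438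
    L1439
    (Nat.ble 184192 i))
   (Nat.ble 184064 i))
  (Nat.ble 183808 i))
 (Nat.ble 183296 i))

/-- choice of a leaf -/
noncomputable def A0_90 (i : Nat) : Nat :=
 (Bool.rec (motive := fun _ => Nat)
 (Bool.rec (motive := fun _ => Nat)
  (Bool.rec (motive := fun _ => Nat)
   (Bool.rec (motive := fun _ => Nat)
    L1440
    L1441
    (Nat.ble 184448 i))
   (Bool.rec (motive := fun _ => Nat)
    L1442
    L1443
    (Nat.ble 184704 i))
   (Nat.ble 184576 i))
  (Bool.rec (motive := fun _ => Nat)
   (Bool.rec (motive := fun _ => Nat)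
    L1444
    L1445
    (Nat.ble 184960 i))
   (Bool.rec (motive := fun _ => Nat)
    L1446
    L1447
    (Nat.ble 185216 i))
   (Nat.ble 185088 i))
  (Nat.ble 184832 i))
 (Bool.rec (motive := fun _ => Nat)
  (Bool.rec (motive := fun _ => Nat)
   (Bool.rec (motive := fun _ => Nat)
    L1448
    L1449
    (Nat.ble 185472 i))
   (Bool.rec (motive := fun _ => Nat)
    L1450
    L1451
    (Nat.ble 185728 i))
   (Nat.ble 185600 i))
  (Bool.rec (motive := fun _ => Nat)
   (Bool.rec (motive := fun _ => Nat)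
    L1452
    L1453
    (Nat.ble 185984 i))
   (Bool.rec (motive := fun _ => Nat)
    L1454
    L1455
    (Nat.ble 186240 i))
   (Nat.ble 186112 i))
  (Nat.ble 185856 i))
 (Nat.ble 185344 i))

/-- choice of a leaf -/
noncomputable def A0_91 (i : Nat) : Nat :=
 (Bool.rec (motive := fun _ => Nat)
 (Bool.rec (motive := fun _ => Nat)
  (Bool.rec (motive := fun _ => Nat)
   (Bool.rec (motive := fun _ => Nat)
    L1456
    L1457
    (Nat.ble 186496 i))
   (Bool.rec (motive := fun _ => Nat)
    L1458
    L1459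
    (Nat.ble 186752 i))
   (Nat.ble 186624 i))
  (Bool.rec (motive := fun _ => Nat)
   (Bool.rec (motive := fun _ => Nat)
    L1460
    L1461
    (Nat.ble 187008 i))
   (Bool.rec (motive := fun _ => Nat)
    L1462
    L1463
    (Nat.ble 187264 i))
   (Nat.ble 187136 i))
  (Nat.ble 186880 i))
 (Bool.rec (motive := fun _ => Nat)
  (Bool.rec (motive := fun _ => Nat)
   (Bool.rec (motive := fun _ => Nat)
    L1464
    L1465
    (Nat.ble 187520 i))
   (Bool.rec (motive := fun _ => Nat)
    L1466
    L1467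
    (Nat.ble 187776 i))
   (Nat.ble 187648 i))
  (Bool.rec (motive := fun _ => Nat)
   (Bool.rec (motive := fun _ => Nat)
    L1468
    L1469
    (Nat.ble 188032 i))
   (Bool.rec (motive := fun _ => Nat)
    L1470
    L1471
    (Nat.ble 188288 i))
   (Nat.ble 188160 i))
  (Nat.ble 187904 i))
 (Nat.ble 187392 i))

/-- choice of a leaf -/
noncomputable def A0_92 (i : Nat) : Nat :=
 (Bool.rec (motive := fun _ => Nat)
 (Bool.rec (motive := fun _ => Nat)
  (Bool.rec (motive := fun _ => Nat)
   (Bool.rec (motive := fun _ => Nat)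
    L1472
    L1473
    (Nat.ble 188544 i))
   (Bool.rec (motive := fun _ => Nat)
    L1474
    L1475
    (Nat.ble 188800 i))
   (Nat.ble 188672 i))
  (Bool.rec (motive := fun _ => Nat)
   (Bool.rec (motive := fun _ => Nat)
    L1476
    L1477
    (Nat.ble 189056 i))
   (Bool.rec (motive := fun _ => Nat)
    L1478
    L1479
    (Nat.ble 189312 i))
   (Nat.ble 189184 i))
  (Nat.ble 188928 i))
 (Bool.rec (motive := fun _ => Nat)
  (Bool.rec (motive := fun _ => Nat)
   (Bool.rec (motive := fun _ => Nat)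
    L1480
    L1481
    (Nat.ble 189568 i))
   (Bool.rec (motive := fun _ => Nat)
    L1482
    L1483
    (Nat.ble 189824 i))
   (Nat.ble 189696 i))
  (Bool.rec (motive := fun _ => Nat)
   (Bool.rec (motive := fun _ => Nat)
    L1484
    L1485
    (Nat.ble 190080 i))
   (Bool.rec (motive := fun _ => Nat)
    L1486
    L1487
    (Nat.ble 190336 i))
   (Nat.ble 190208 i))
  (Nat.ble 189952 i))
 (Nat.ble 189440 i))

/-- choice of a leaf -/
noncomputable def A0_93 (i : Nat) : Nat :=
 (Bool.rec (motive := fun _ => Nat)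
 (Bool.rec (motive := fun _ => Nat)
  (Bool.rec (motive := fun _ => Nat)
   (Bool.rec (motive := fun _ => Nat)
    L1488
    L1489
    (Nat.ble 190592 i))
   (Bool.rec (motive := fun _ => Nat)
    L1490
    L1491
    (Nat.ble 190848 i))
   (Nat.ble 190720 i))
  (Bool.rec (motive := fun _ => Nat)
   (Bool.rec (motive := fun _ => Nat)
    L1492
    L1493
    (Nat.ble 191104 i))
   (Bool.rec (motive := fun _ => Nat)
    L1494
    L1495
    (Nat.ble 191360 i))
   (Nat.ble 191232 i))
  (Nat.ble 190976 i))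
 (Bool.rec (motive := fun _ => Nat)
  (Bool.rec (motive := fun _ => Nat)
   (Bool.rec (motive := fun _ => Nat)
    L1496
    L1497
    (Nat.ble 191616 i))
   (Bool.rec (motive := fun _ => Nat)
    L1498
    L1499
    (Nat.ble 191872 i))
   (Nat.ble 191744 i))
  (Bool.rec (motive := fun _ => Nat)
   (Bool.rec (motive := fun _ => Nat)
    L1500
    L1501
    (Nat.ble 192128 i))
   (Bool.rec (motive := fun _ => Nat)
    L1502
    L1503
    (Nat.ble 192384 i))
   (Nat.ble 192256 i))
  (Nat.ble 192000 i))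
 (Nat.ble 191488 i))

/-- choice of a leaf -/
noncomputable def A0_94 (i : Nat) : Nat :=
 (Bool.rec (motive := fun _ => Nat)
 (Bool.rec (motive := fun _ => Nat)
  (Bool.rec (motive := fun _ => Nat)
   (Bool.rec (motive := fun _ => Nat)
    L1504
    L1505
    (Nat.ble 192640 i))
   (Bool.rec (motive := fun _ => Nat)
    L1506
    L1507
    (Nat.ble 192896 i))
   (Nat.ble 192768 i))
  (Bool.rec (motive := fun _ => Nat)
   (Bool.rec (motive := fun _ => Nat)
    L1508
    L1509
    (Nat.ble 193152 i))
   (Bool.rec (motive := fun _ => Nat)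
    L1510
    L1511
    (Nat.ble 193408 i))
   (Nat.ble 193280 i))
  (Nat.ble 193024 i))
 (Bool.rec (motive := fun _ => Nat)
  (Bool.rec (motive := fun _ => Nat)
   (Bool.rec (motive := fun _ => Nat)
    L1512
    L1513
    (Nat.ble 193664 i))
   (Bool.rec (motive := fun _ => Nat)
    L1514
    L1515
    (Nat.ble 193920 i))
   (Nat.ble 193792 i))
  (Bool.rec (motive := fun _ => Nat)
   (Bool.rec (motive := fun _ => Nat)
    L1516
    L1517
    (Nat.ble 194176 i))
   (Bool.rec (motive := fun _ => Nat)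
    L1518
    L1519
    (Nat.ble 194432 i))
   (Nat.ble 194304 i))
  (Nat.ble 194048 i))
 (Nat.ble 193536 i))

/-- choice of a leaf -/
noncomputable def A0_95 (i : Nat) : Nat :=
 (Bool.rec (motive := fun _ => Nat)
 (Bool.rec (motive := fun _ => Nat)
  (Bool.rec (motive := fun _ => Nat)
   (Bool.rec (motive := fun _ => Nat)
    L1520
    L1521
    (Nat.ble 194688 i))
   (Bool.rec (motive := fun _ => Nat)
    L1522
    L1523
    (Nat.ble 194944 i))
   (Nat.ble 194816 i))
  (Bool.rec (motive := fun _ => Nat)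
   (Bool.rec (motive := fun _ => Nat)
    L1524
    L1525
    (Nat.ble 195200 i))
   (Bool.rec (motive := fun _ => Nat)
    L1526
    L1527
    (Nat.ble 195456 i))
   (Nat.ble 195328 i))
  (Nat.ble 195072 i))
 (Bool.rec (motive := fun _ => Nat)
  (Bool.rec (motive := fun _ => Nat)
   (Bool.rec (motive := fun _ => Nat)
    L1528
    L1529
    (Nat.ble 195712 i))
   (Bool.rec (motive := fun _ => Nat)
    L1530
    L1531
    (Nat.ble 195968 i))
   (Nat.ble 195840 i))
  (Bool.rec (motive := fun _ => Nat)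
   (Bool.rec (motive := fun _ => Nat)
    L1532
    L1533
    (Nat.ble 196224 i))
   (Bool.rec (motive := fun _ => Nat)
    L1534
    L1535
    (Nat.ble 196480 i))
   (Nat.ble 196352 i))
  (Nat.ble 196096 i))
 (Nat.ble 195584 i))

/-- choice of a leaf -/
noncomputable def A0_96 (i : Nat) : Nat :=
 (Bool.rec (motive := fun _ => Nat)
 (Bool.rec (motive := fun _ => Nat)
  (Bool.rec (motive := fun _ => Nat)
   (Bool.rec (motive := fun _ => Nat)
    L1536
    L1537
    (Nat.ble 196736 i))
   (Bool.rec (motive := fun _ => Nat)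
    L1538
    L1539
    (Nat.ble 196992 i))
   (Nat.ble 196864 i))
  (Bool.rec (motive := fun _ => Nat)
   (Bool.rec (motive := fun _ => Nat)
    L1540
    L1541
    (Nat.ble 197248 i))
   (Bool.rec (motive := fun _ => Nat)
    L1542
    L1543
    (Nat.ble 197504 i))
   (Nat.ble 197376 i))
  (Nat.ble 197120 i))
 (Bool.rec (motive := fun _ => Nat)
  (Bool.rec (motive := fun _ => Nat)
   (Bool.rec (motive := fun _ => Nat)
    L1544
    L1545
    (Nat.ble 197760 i))
   (Bool.rec (motive := fun _ => Nat)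
    L1546
    L1547
    (Nat.ble 198016 i))
   (Nat.ble 197888 i))
  (Bool.rec (motive := fun _ => Nat)
   (Bool.rec (motive := fun _ => Nat)
    L1548
    L1549
    (Nat.ble 198272 i))
   (Bool.rec (motive := fun _ => Nat)
    L1550
    L1551
    (Nat.ble 198528 i))
   (Nat.ble 198400 i))
  (Nat.ble 198144 i))
 (Nat.ble 197632 i))

/-- choice of a leaf -/
noncomputable def A0_97 (i : Nat) : Nat :=
 (Bool.rec (motive := fun _ => Nat)
 (Bool.rec (motive := fun _ => Nat)
  (Bool.rec (motive := fun _ => Nat)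
   (Bool.rec (motive := fun _ => Nat)
    L1552
    L1553
    (Nat.ble 198784 i))
   (Bool.rec (motive := fun _ => Nat)
    L1554
    L1555
    (Nat.ble 199040 i))
   (Nat.ble 198912 i))
  (Bool.rec (motive := fun _ => Nat)
   (Bool.rec (motive := fun _ => Nat)
    L1556
    L1557
    (Nat.ble 199296 i))
   (Bool.rec (motive := fun _ => Nat)
    L1558
    L1559
    (Nat.ble 199552 i))
   (Nat.ble 199424 i))
  (Nat.ble 199168 i))
 (Bool.rec (motive := fun _ => Nat)
  (Bool.rec (motive := fun _ => Nat)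
   (Bool.rec (motive := fun _ => Nat)
    L1560
    L1561
    (Nat.ble 199808 i))
   (Bool.rec (motive := fun _ => Nat)
    L1562
    L1563
    (Nat.ble 200064 i))
   (Nat.ble 199936 i))
  (Bool.rec (motive := fun _ => Nat)
   (Bool.rec (motive := fun _ => Nat)
    L1564
    L1565
    (Nat.ble 200320 i))
   (Bool.rec (motive := fun _ => Nat)
    L1566
    L1567
    (Nat.ble 200576 i))
   (Nat.ble 200448 i))
  (Nat.ble 200192 i))
 (Nat.ble 199680 i))

/-- choice of a leaf -/
noncomputable def A0_98 (i : Nat) : Nat :=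
 (Bool.rec (motive := fun _ => Nat)
 (Bool.rec (motive := fun _ => Nat)
  (Bool.rec (motive := fun _ => Nat)
   (Bool.rec (motive := fun _ => Nat)
    L1568
    L1569
    (Nat.ble 200832 i))
   (Bool.rec (motive := fun _ => Nat)
    L1570
    L1571
    (Nat.ble 201088 i))
   (Nat.ble 200960 i))
  (Bool.rec (motive := fun _ => Nat)
   (Bool.rec (motive := fun _ => Nat)
    L1572
    L1573
    (Nat.ble 201344 i))
   (Bool.rec (motive := fun _ => Nat)
    L1574
    L1575
    (Nat.ble 201600 i))
   (Nat.ble 201472 i))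
  (Nat.ble 201216 i))
 (Bool.rec (motive := fun _ => Nat)
  (Bool.rec (motive := fun _ => Nat)
   (Bool.rec (motive := fun _ => Nat)
    L1576
    L1577
    (Nat.ble 201856 i))
   (Bool.rec (motive := fun _ => Nat)
    L1578
    L1579
    (Nat.ble 202112 i))
   (Nat.ble 201984 i))
  (Bool.rec (motive := fun _ => Nat)
   (Bool.rec (motive := fun _ => Nat)
    L1580
    L1581
    (Nat.ble 202368 i))
   (Bool.rec (motive := fun _ => Nat)
    L1582
    L1583
    (Nat.ble 202624 i))
   (Nat.ble 202496 i))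
  (Nat.ble 202240 i))
 (Nat.ble 201728 i))

/-- choice of a leaf -/
noncomputable def A0_99 (i : Nat) : Nat :=
 (Bool.rec (motive := fun _ => Nat)
 (Bool.rec (motive := fun _ => Nat)
  (Bool.rec (motive := fun _ => Nat)
   (Bool.rec (motive := fun _ => Nat)
    L1584
    L1585
    (Nat.ble 202880 i))
   (Bool.rec (motive := fun _ => Nat)
    L1586
    L1587
    (Nat.ble 203136 i))
   (Nat.ble 203008 i))
  (Bool.rec (motive := fun _ => Nat)
   (Bool.rec (motive := fun _ => Nat)
    L1588
    L1589
    (Nat.ble 203392 i))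
   (Bool.rec (motive := fun _ => Nat)
    L1590
    L1591
    (Nat.ble 203648 i))
   (Nat.ble 203520 i))
  (Nat.ble 203264 i))
 (Bool.rec (motive := fun _ => Nat)
  (Bool.rec (motive := fun _ => Nat)
   (Bool.rec (motive := fun _ => Nat)
    L1592
    L1593
    (Nat.ble 203904 i))
   (Bool.rec (motive := fun _ => Nat)
    L1594
    L1595
    (Nat.ble 204160 i))
   (Nat.ble 204032 i))
  (Bool.rec (motive := fun _ => Nat)
   (Bool.rec (motive := fun _ => Nat)
    L1596
    L1597
    (Nat.ble 204416 i))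
   (Bool.rec (motive := fun _ => Nat)
    L1598
    L1599
    (Nat.ble 204672 i))
   (Nat.ble 204544 i))
  (Nat.ble 204288 i))
 (Nat.ble 203776 i))

/-- choice of a leaf -/
noncomputable def A0_100 (i : Nat) : Nat :=
 (Bool.rec (motive := fun _ => Nat)
 (Bool.rec (motive := fun _ => Nat)
  (Bool.rec (motive := fun _ => Nat)
   (Bool.rec (motive := fun _ => Nat)
    L1600
    L1601
    (Nat.ble 204928 i))
   (Bool.rec (motive := fun _ => Nat)
    L1602
    L1603
    (Nat.ble 205184 i))
   (Nat.ble 205056 i))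
  (Bool.rec (motive := fun _ => Nat)
   (Bool.rec (motive := fun _ => Nat)
    L1604
    L1605
    (Nat.ble 205440 i))
   (Bool.rec (motive := fun _ => Nat)
    L1606
    L1607
    (Nat.ble 205696 i))
   (Nat.ble 205568 i))
  (Nat.ble 205312 i))
 (Bool.rec (motive := fun _ => Nat)
  (Bool.rec (motive := fun _ => Nat)
   (Bool.rec (motive := fun _ => Nat)
    L1608
    L1609
    (Nat.ble 205952 i))
   (Bool.rec (motive := fun _ => Nat)
    L1610
    L1611
    (Nat.ble 206208 i))
   (Nat.ble 206080 i))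
  (Bool.rec (motive := fun _ => Nat)
   (Bool.rec (motive := fun _ => Nat)
    L1612
    L1613
    (Nat.ble 206464 i))
   (Bool.rec (motive := fun _ => Nat)
    L1614
    L1615
    (Nat.ble 206720 i))
   (Nat.ble 206592 i))
  (Nat.ble 206336 i))
 (Nat.ble 205824 i))

/-- choice of a leaf -/
noncomputable def A0_101 (i : Nat) : Nat :=
 (Bool.rec (motive := fun _ => Nat)
 (Bool.rec (motive := fun _ => Nat)
  (Bool.rec (motive := fun _ => Nat)
   (Bool.rec (motive := fun _ => Nat)
    L1616
    L1617
    (Nat.ble 206976 i))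
   (Bool.rec (motive := fun _ => Nat)
    L1618
    L1619
    (Nat.ble 207232 i))
   (Nat.ble 207104 i))
  (Bool.rec (motive := fun _ => Nat)
   (Bool.rec (motive := fun _ => Nat)
    L1620
    L1621
    (Nat.ble 207488 i))
   (Bool.rec (motive := fun _ => Nat)
    L1622
    L1623
    (Nat.ble 207744 i))
   (Nat.ble 207616 i))
  (Nat.ble 207360 i))
 (Bool.rec (motive := fun _ => Nat)
  (Bool.rec (motive := fun _ => Nat)
   (Bool.rec (motive := fun _ => Nat)
    L1624
    L1625
    (Nat.ble 208000 i))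
   (Bool.rec (motive := fun _ => Nat)
    L1626
    L1627
    (Nat.ble 208256 i))
   (Nat.ble 208128 i))
  (Bool.rec (motive := fun _ => Nat)
   (Bool.rec (motive := fun _ => Nat)
    L1628
    L1629
    (Nat.ble 208512 i))
   (Bool.rec (motive := fun _ => Nat)
    L1630
    L1631
    (Nat.ble 208768 i))
   (Nat.ble 208640 i))
  (Nat.ble 208384 i))
 (Nat.ble 207872 i))

/-- choice of a leaf -/
noncomputable def A0_102 (i : Nat) : Nat :=
 (Bool.rec (motive := fun _ => Nat)
 (Bool.rec (motive := fun _ => Nat)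
  (Bool.rec (motive := fun _ => Nat)
   (Bool.rec (motive := fun _ => Nat)
    L1632
    L1633
    (Nat.ble 209024 i))
   (Bool.rec (motive := fun _ => Nat)
    L1634
    L1635
    (Nat.ble 209280 i))
   (Nat.ble 209152 i))
  (Bool.rec (motive := fun _ => Nat)
   (Bool.rec (motive := fun _ => Nat)
    L1636
    L1637
    (Nat.ble 209536 i))
   (Bool.rec (motive := fun _ => Nat)
    L1638
    L1639
    (Nat.ble 209792 i))
   (Nat.ble 209664 i))
  (Nat.ble 209408 i))
 (Bool.rec (motive := fun _ => Nat)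
  (Bool.rec (motive := fun _ => Nat)
   (Bool.rec (motive := fun _ => Nat)
    L1640
    L1641
    (Nat.ble 210048 i))
   (Bool.rec (motive := fun _ => Nat)
    L1642
    L1643
    (Nat.ble 210304 i))
   (Nat.ble 210176 i))
  (Bool.rec (motive := fun _ => Nat)
   (Bool.rec (motive := fun _ => Nat)
    L1644
    L1645
    (Nat.ble 210560 i))
   (Bool.rec (motive := fun _ => Nat)
    L1646
    L1647
    (Nat.ble 210816 i))
   (Nat.ble 210688 i))
  (Nat.ble 210432 i))
 (Nat.ble 209920 i))

/-- choice of a leaf -/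
noncomputable def A0_103 (i : Nat) : Nat :=
 (Bool.rec (motive := fun _ => Nat)
 (Bool.rec (motive := fun _ => Nat)
  (Bool.rec (motive := fun _ => Nat)
   (Bool.rec (motive := fun _ => Nat)
    L1648
    L1649
    (Nat.ble 211072 i))
   (Bool.rec (motive := fun _ => Nat)
    L1650
    L1651
    (Nat.ble 211328 i))
   (Nat.ble 211200 i))
  (Bool.rec (motive := fun _ => Nat)
   (Bool.rec (motive := fun _ => Nat)
    L1652
    L1653
    (Nat.ble 211584 i))
   (Bool.rec (motive := fun _ => Nat)
    L1654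
    L1655
    (Nat.ble 211840 i))
   (Nat.ble 211712 i))
  (Nat.ble 211456 i))
 (Bool.rec (motive := fun _ => Nat)
  (Bool.rec (motive := fun _ => Nat)
   (Bool.rec (motive := fun _ => Nat)
    L1656
    L1657
    (Nat.ble 212096 i))
   (Bool.rec (motive := fun _ => Nat)
    L1658
    L1659
    (Nat.ble 212352 i))
   (Nat.ble 212224 i))
  (Bool.rec (motive := fun _ => Nat)
   (Bool.rec (motive := fun _ => Nat)
    L1660
    L1661
    (Nat.ble 212608 i))
   (Bool.rec (motive := fun _ => Nat)
    L1662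
    L1663
    (Nat.ble 212864 i))
   (Nat.ble 212736 i))
  (Nat.ble 212480 i))
 (Nat.ble 211968 i))

/-- choice of a leaf -/
noncomputable def A0_104 (i : Nat) : Nat :=
 (Bool.rec (motive := fun _ => Nat)
 (Bool.rec (motive := fun _ => Nat)
  (Bool.rec (motive := fun _ => Nat)
   (Bool.rec (motive := fun _ => Nat)
    L1664
    L1665
    (Nat.ble 213120 i))
   (Bool.rec (motive := fun _ => Nat)
    L1666
    L1667
    (Nat.ble 213376 i))
   (Nat.ble 213248 i))
  (Bool.rec (motive := fun _ => Nat)
   (Bool.rec (motive := fun _ => Nat)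
    L1668
    L1669
    (Nat.ble 213632 i))
   (Bool.rec (motive := fun _ => Nat)
    L1670
    L1671
    (Nat.ble 213888 i))
   (Nat.ble 213760 i))
  (Nat.ble 213504 i))
 (Bool.rec (motive := fun _ => Nat)
  (Bool.rec (motive := fun _ => Nat)
   (Bool.rec (motive := fun _ => Nat)
    L1672
    L1673
    (Nat.ble 214144 i))
   (Bool.rec (motive := fun _ => Nat)
    L1674
    L1675
    (Nat.ble 214400 i))
   (Nat.ble 214272 i))
  (Bool.rec (motive := fun _ => Nat)
   (Bool.rec (motive := fun _ => Nat)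
    L1676
    L1677
    (Nat.ble 214656 i))
   (Bool.rec (motive := fun _ => Nat)
    L1678
    L1679
    (Nat.ble 214912 i))
   (Nat.ble 214784 i))
  (Nat.ble 214528 i))
 (Nat.ble 214016 i))

/-- choice of a leaf -/
noncomputable def A0_105 (i : Nat) : Nat :=
 (Bool.rec (motive := fun _ => Nat)
 (Bool.rec (motive := fun _ => Nat)
  (Bool.rec (motive := fun _ => Nat)
   (Bool.rec (motive := fun _ => Nat)
    L1680
    L1681
    (Nat.ble 215168 i))
   (Bool.rec (motive := fun _ => Nat)
    L1682
    L1683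
    (Nat.ble 215424 i))
   (Nat.ble 215296 i))
  (Bool.rec (motive := fun _ => Nat)
   (Bool.rec (motive := fun _ => Nat)
    L1684
    L1685
    (Nat.ble 215680 i))
   (Bool.rec (motive := fun _ => Nat)
    L1686
    L1687
    (Nat.ble 215936 i))
   (Nat.ble 215808 i))
  (Nat.ble 215552 i))
 (Bool.rec (motive := fun _ => Nat)
  (Bool.rec (motive := fun _ => Nat)
   (Bool.rec (motive := fun _ => Nat)
    L1688
    L1689
    (Nat.ble 216192 i))
   (Bool.rec (motive := fun _ => Nat)
    L1690
    L1691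
    (Nat.ble 216448 i))
   (Nat.ble 216320 i))
  (Bool.rec (motive := fun _ => Nat)
   (Bool.rec (motive := fun _ => Nat)
    L1692
    L1693
    (Nat.ble 216704 i))
   (Bool.rec (motive := fun _ => Nat)
    L1694
    L1695
    (Nat.ble 216960 i))
   (Nat.ble 216832 i))
  (Nat.ble 216576 i))
 (Nat.ble 216064 i))

/-- choice of a leaf -/
noncomputable def A0_106 (i : Nat) : Nat :=
 (Bool.rec (motive := fun _ => Nat)
 (Bool.rec (motive := fun _ => Nat)
  (Bool.rec (motive := fun _ => Nat)
   (Bool.rec (motive := fun _ => Nat)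
    L1696
    L1697
    (Nat.ble 217216 i))
   (Bool.rec (motive := fun _ => Nat)
    L1698
    L1699
    (Nat.ble 217472 i))
   (Nat.ble 217344 i))
  (Bool.rec (motive := fun _ => Nat)
   (Bool.rec (motive := fun _ => Nat)
    L1700
    L1701
    (Nat.ble 217728 i))
   (Bool.rec (motive := fun _ => Nat)
    L1702
    L1703
    (Nat.ble 217984 i))
   (Nat.ble 217856 i))
  (Nat.ble 217600 i))
 (Bool.rec (motive := fun _ => Nat)
  (Bool.rec (motive := fun _ => Nat)
   (Bool.rec (motive := fun _ => Nat)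
    L1704
    L1705
    (Nat.ble 218240 i))
   (Bool.rec (motive := fun _ => Nat)
    L1706
    L1707
    (Nat.ble 218496 i))
   (Nat.ble 218368 i))
  (Bool.rec (motive := fun _ => Nat)
   (Bool.rec (motive := fun _ => Nat)
    L1708
    L1709
    (Nat.ble 218752 i))
   (Bool.rec (motive := fun _ => Nat)
    L1710
    L1711
    (Nat.ble 219008 i))
   (Nat.ble 218880 i))
  (Nat.ble 218624 i))
 (Nat.ble 218112 i))

/-- choice of a leaf -/
noncomputable def A0_107 (i : Nat) : Nat :=
 (Bool.rec (motive := fun _ => Nat)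
 (Bool.rec (motive := fun _ => Nat)
  (Bool.rec (motive := fun _ => Nat)
   (Bool.rec (motive := fun _ => Nat)
    L1712
    L1713
    (Nat.ble 219264 i))
   (Bool.rec (motive := fun _ => Nat)
    L1714
    L1715
    (Nat.ble 219520 i))
   (Nat.ble 219392 i))
  (Bool.rec (motive := fun _ => Nat)
   (Bool.rec (motive := fun _ => Nat)
    L1716
    L1717
    (Nat.ble 219776 i))
   (Bool.rec (motive := fun _ => Nat)
    L1718
    L1719
    (Nat.ble 220032 i))
   (Nat.ble 219904 i))
  (Nat.ble 219648 i))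
 (Bool.rec (motive := fun _ => Nat)
  (Bool.rec (motive := fun _ => Nat)
   (Bool.rec (motive := fun _ => Nat)
    L1720
    L1721
    (Nat.ble 220288 i))
   (Bool.rec (motive := fun _ => Nat)
    L1722
    L1723
    (Nat.ble 220544 i))
   (Nat.ble 220416 i))
  (Bool.rec (motive := fun _ => Nat)
   (Bool.rec (motive := fun _ => Nat)
    L1724
    L1725
    (Nat.ble 220800 i))
   (Bool.rec (motive := fun _ => Nat)
    L1726
    L1727
    (Nat.ble 221056 i))
   (Nat.ble 220928 i))
  (Nat.ble 220672 i))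
 (Nat.ble 220160 i))

/-- choice of a leaf -/
noncomputable def A0_108 (i : Nat) : Nat :=
 (Bool.rec (motive := fun _ => Nat)
 (Bool.rec (motive := fun _ => Nat)
  (Bool.rec (motive := fun _ => Nat)
   (Bool.rec (motive := fun _ => Nat)
    L1728
    L1729
    (Nat.ble 221312 i))
   (Bool.rec (motive := fun _ => Nat)
    L1730
    L1731
    (Nat.ble 221568 i))
   (Nat.ble 221440 i))
  (Bool.rec (motive := fun _ => Nat)
   (Bool.rec (motive := fun _ => Nat)
    L1732
    L1733
    (Nat.ble 221824 i))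
   (Bool.rec (motive := fun _ => Nat)
    L1734
    L1735
    (Nat.ble 222080 i))
   (Nat.ble 221952 i))
  (Nat.ble 221696 i))
 (Bool.rec (motive := fun _ => Nat)
  (Bool.rec (motive := fun _ => Nat)
   (Bool.rec (motive := fun _ => Nat)
    L1736
    L1737
    (Nat.ble 222336 i))
   (Bool.rec (motive := fun _ => Nat)
    L1738
    L1739
    (Nat.ble 222592 i))
   (Nat.ble 222464 i))
  (Bool.rec (motive := fun _ => Nat)
   (Bool.rec (motive := fun _ => Nat)
    L1740
    L1741
    (Nat.ble 222848 i))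
   (Bool.rec (motive := fun _ => Nat)
    L1742
    L1743
    (Nat.ble 223104 i))
   (Nat.ble 222976 i))
  (Nat.ble 222720 i))
 (Nat.ble 222208 i))

/-- choice of a leaf -/
noncomputable def A0_109 (i : Nat) : Nat :=
 (Bool.rec (motive := fun _ => Nat)
 (Bool.rec (motive := fun _ => Nat)
  (Bool.rec (motive := fun _ => Nat)
   (Bool.rec (motive := fun _ => Nat)
    L1744
    L1745
    (Nat.ble 223360 i))
   (Bool.rec (motive := fun _ => Nat)
    L1746
    L1747
    (Nat.ble 223616 i))
   (Nat.ble 223488 i))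
  (Bool.rec (motive := fun _ => Nat)
   (Bool.rec (motive := fun _ => Nat)
    L1748
    L1749
    (Nat.ble 223872 i))
   (Bool.rec (motive := fun _ => Nat)
    L1750
    L1751
    (Nat.ble 224128 i))
   (Nat.ble 224000 i))
  (Nat.ble 223744 i))
 (Bool.rec (motive := fun _ => Nat)
  (Bool.rec (motive := fun _ => Nat)
   (Bool.rec (motive := fun _ => Nat)
    L1752
    L1753
    (Nat.ble 224384 i))
   (Bool.rec (motive := fun _ => Nat)
    L1754
    L1755
    (Nat.ble 224640 i))
   (Nat.ble 224512 i))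
  (Bool.rec (motive := fun _ => Nat)
   (Bool.rec (motive := fun _ => Nat)
    L1756
    L1757
    (Nat.ble 224896 i))
   (Bool.rec (motive := fun _ => Nat)
    L1758
    L1759
    (Nat.ble 225152 i))
   (Nat.ble 225024 i))
  (Nat.ble 224768 i))
 (Nat.ble 224256 i))

/-- choice of a leaf -/
noncomputable def A0_110 (i : Nat) : Nat :=
 (Bool.rec (motive := fun _ => Nat)
 (Bool.rec (motive := fun _ => Nat)
  (Bool.rec (motive := fun _ => Nat)
   (Bool.rec (motive := fun _ => Nat)
    L1760
    L1761
    (Nat.ble 225408 i))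
   (Bool.rec (motive := fun _ => Nat)
    L1762
    L1763
    (Nat.ble 225664 i))
   (Nat.ble 225536 i))
  (Bool.rec (motive := fun _ => Nat)
   (Bool.rec (motive := fun _ => Nat)
    L1764
    L1765
    (Nat.ble 225920 i))
   (Bool.rec (motive := fun _ => Nat)
    L1766
    L1767
    (Nat.ble 226176 i))
   (Nat.ble 226048 i))
  (Nat.ble 225792 i))
 (Bool.rec (motive := fun _ => Nat)
  (Bool.rec (motive := fun _ => Nat)
   (Bool.rec (motive := fun _ => Nat)
    L1768
    L1769
    (Nat.ble 226432 i))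
   (Bool.rec (motive := fun _ => Nat)
    L1770
    L1771
    (Nat.ble 226688 i))
   (Nat.ble 226560 i))
  (Bool.rec (motive := fun _ => Nat)
   (Bool.rec (motive := fun _ => Nat)
    L1772
    L1773
    (Nat.ble 226944 i))
   (Bool.rec (motive := fun _ => Nat)
    L1774
    L1775
    (Nat.ble 227200 i))
   (Nat.ble 227072 i))
  (Nat.ble 226816 i))
 (Nat.ble 226304 i))

/-- choice of a leaf -/
noncomputable def A0_111 (i : Nat) : Nat :=
 (Bool.rec (motive := fun _ => Nat)
 (Bool.rec (motive := fun _ => Nat)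
  (Bool.rec (motive := fun _ => Nat)
   (Bool.rec (motive := fun _ => Nat)
    L1776
    L1777
    (Nat.ble 227456 i))
   (Bool.rec (motive := fun _ => Nat)
    L1778
    L1779
    (Nat.ble 227712 i))
   (Nat.ble 227584 i))
  (Bool.rec (motive := fun _ => Nat)
   (Bool.rec (motive := fun _ => Nat)
    L1780
    L1781
    (Nat.ble 227968 i))
   (Bool.rec (motive := fun _ => Nat)
    L1782
    L1783
    (Nat.ble 228224 i))
   (Nat.ble 228096 i))
  (Nat.ble 227840 i))
 (Bool.rec (motive := fun _ => Nat)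
  (Bool.rec (motive := fun _ => Nat)
   (Bool.rec (motive := fun _ => Nat)
    L1784
    L1785
    (Nat.ble 228480 i))
   (Bool.rec (motive := fun _ => Nat)
    L1786
    L1787
    (Nat.ble 228736 i))
   (Nat.ble 228608 i))
  (Bool.rec (motive := fun _ => Nat)
   (Bool.rec (motive := fun _ => Nat)
    L1788
    L1789
    (Nat.ble 228992 i))
   (Bool.rec (motive := fun _ => Nat)
    L1790
    L1791
    (Nat.ble 229248 i))
   (Nat.ble 229120 i))
  (Nat.ble 228864 i))
 (Nat.ble 228352 i))

/-- choice of a leaf -/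
noncomputable def A0_112 (i : Nat) : Nat :=
 (Bool.rec (motive := fun _ => Nat)
 (Bool.rec (motive := fun _ => Nat)
  (Bool.rec (motive := fun _ => Nat)
   (Bool.rec (motive := fun _ => Nat)
    L1792
    L1793
    (Nat.ble 229504 i))
   (Bool.rec (motive := fun _ => Nat)
    L1794
    L1795
    (Nat.ble 229760 i))
   (Nat.ble 229632 i))
  (Bool.rec (motive := fun _ => Nat)
   (Bool.rec (motive := fun _ => Nat)
    L1796
    L1797
    (Nat.ble 230016 i))
   (Bool.rec (motive := fun _ => Nat)
    L1798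
    L1799
    (Nat.ble 230272 i))
   (Nat.ble 230144 i))
  (Nat.ble 229888 i))
 (Bool.rec (motive := fun _ => Nat)
  (Bool.rec (motive := fun _ => Nat)
   (Bool.rec (motive := fun _ => Nat)
    L1800
    L1801
    (Nat.ble 230528 i))
   (Bool.rec (motive := fun _ => Nat)
    L1802
    L1803
    (Nat.ble 230784 i))
   (Nat.ble 230656 i))
  (Bool.rec (motive := fun _ => Nat)
   (Bool.rec (motive := fun _ => Nat)
    L1804
    L1805
    (Nat.ble 231040 i))
   (Bool.rec (motive := fun _ => Nat)
    L1806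
    L1807
    (Nat.ble 231296 i))
   (Nat.ble 231168 i))
  (Nat.ble 230912 i))
 (Nat.ble 230400 i))

/-- choice of a leaf -/
noncomputable def A0_113 (i : Nat) : Nat :=
 (Bool.rec (motive := fun _ => Nat)
 (Bool.rec (motive := fun _ => Nat)
  (Bool.rec (motive := fun _ => Nat)
   (Bool.rec (motive := fun _ => Nat)
    L1808
    L1809
    (Nat.ble 231552 i))
   (Bool.rec (motive := fun _ => Nat)
    L1810
    L1811
    (Nat.ble 231808 i))
   (Nat.ble 231680 i))
  (Bool.rec (motive := fun _ => Nat)
   (Bool.rec (motive := fun _ => Nat)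
    L1812
    L1813
    (Nat.ble 232064 i))
   (Bool.rec (motive := fun _ => Nat)
    L1814
    L1815
    (Nat.ble 232320 i))
   (Nat.ble 232192 i))
  (Nat.ble 231936 i))
 (Bool.rec (motive := fun _ => Nat)
  (Bool.rec (motive := fun _ => Nat)
   (Bool.rec (motive := fun _ => Nat)
    L1816
    L1817
    (Nat.ble 232576 i))
   (Bool.rec (motive := fun _ => Nat)
    L1818
    L1819
    (Nat.ble 232832 i))
   (Nat.ble 232704 i))
  (Bool.rec (motive := fun _ => Nat)
   (Bool.rec (motive := fun _ => Nat)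
    L1820
    L1821
    (Nat.ble 233088 i))
   (Bool.rec (motive := fun _ => Nat)
    L1822
    L1823
    (Nat.ble 233344 i))
   (Nat.ble 233216 i))
  (Nat.ble 232960 i))
 (Nat.ble 232448 i))

/-- choice of a leaf -/
noncomputable def A0_114 (i : Nat) : Nat :=
 (Bool.rec (motive := fun _ => Nat)
 (Bool.rec (motive := fun _ => Nat)
  (Bool.rec (motive := fun _ => Nat)
   (Bool.rec (motive := fun _ => Nat)
    L1824
    L1825
    (Nat.ble 233600 i))
   (Bool.rec (motive := fun _ => Nat)
    L1826
    L1827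
    (Nat.ble 233856 i))
   (Nat.ble 233728 i))
  (Bool.rec (motive := fun _ => Nat)
   (Bool.rec (motive := fun _ => Nat)
    L1828
    L1829
    (Nat.ble 234112 i))
   (Bool.rec (motive := fun _ => Nat)
    L1830
    L1831
    (Nat.ble 234368 i))
   (Nat.ble 234240 i))
  (Nat.ble 233984 i))
 (Bool.rec (motive := fun _ => Nat)
  (Bool.rec (motive := fun _ => Nat)
   (Bool.rec (motive := fun _ => Nat)
    L1832
    L1833
    (Nat.ble 234624 i))
   (Bool.rec (motive := fun _ => Nat)
    L1834
    L1835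
    (Nat.ble 234880 i))
   (Nat.ble 234752 i))
  (Bool.rec (motive := fun _ => Nat)
   (Bool.rec (motive := fun _ => Nat)
    L1836
    L1837
    (Nat.ble 235136 i))
   (Bool.rec (motive := fun _ => Nat)
    L1838
    L1839
    (Nat.ble 235392 i))
   (Nat.ble 235264 i))
  (Nat.ble 235008 i))
 (Nat.ble 234496 i))

/-- choice of a leaf -/
noncomputable def A0_115 (i : Nat) : Nat :=
 (Bool.rec (motive := fun _ => Nat)
 (Bool.rec (motive := fun _ => Nat)
  (Bool.rec (motive := fun _ => Nat)
   (Bool.rec (motive := fun _ => Nat)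
    L1840
    L1841
    (Nat.ble 235648 i))
   (Bool.rec (motive := fun _ => Nat)
    L1842
    L1843
    (Nat.ble 235904 i))
   (Nat.ble 235776 i))
  (Bool.rec (motive := fun _ => Nat)
   (Bool.rec (motive := fun _ => Nat)
    L1844
    L1845
    (Nat.ble 236160 i))
   (Bool.rec (motive := fun _ => Nat)
    L1846
    L1847
    (Nat.ble 236416 i))
   (Nat.ble 236288 i))
  (Nat.ble 236032 i))
 (Bool.rec (motive := fun _ => Nat)
  (Bool.rec (motive := fun _ => Nat)
   (Bool.rec (motive := fun _ => Nat)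
    L1848
    L1849
    (Nat.ble 236672 i))
   (Bool.rec (motive := fun _ => Nat)
    L1850
    L1851
    (Nat.ble 236928 i))
   (Nat.ble 236800 i))
  (Bool.rec (motive := fun _ => Nat)
   (Bool.rec (motive := fun _ => Nat)
    L1852
    L1853
    (Nat.ble 237184 i))
   (Bool.rec (motive := fun _ => Nat)
    L1854
    L1855
    (Nat.ble 237440 i))
   (Nat.ble 237312 i))
  (Nat.ble 237056 i))
 (Nat.ble 236544 i))

/-- choice of a leaf -/
noncomputable def A0_116 (i : Nat) : Nat :=
 (Bool.rec (motive := fun _ => Nat)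
 (Bool.rec (motive := fun _ => Nat)
  (Bool.rec (motive := fun _ => Nat)
   (Bool.rec (motive := fun _ => Nat)
    L1856
    L1857
    (Nat.ble 237696 i))
   (Bool.rec (motive := fun _ => Nat)
    L1858
    L1859
    (Nat.ble 237952 i))
   (Nat.ble 237824 i))
  (Bool.rec (motive := fun _ => Nat)
   (Bool.rec (motive := fun _ => Nat)
    L1860
    L1861
    (Nat.ble 238208 i))
   (Bool.rec (motive := fun _ => Nat)
    L1862
    L1863
    (Nat.ble 238464 i))
   (Nat.ble 238336 i))
  (Nat.ble 238080 i))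
 (Bool.rec (motive := fun _ => Nat)
  (Bool.rec (motive := fun _ => Nat)
   (Bool.rec (motive := fun _ => Nat)
    L1864
    L1865
    (Nat.ble 238720 i))
   (Bool.rec (motive := fun _ => Nat)
    L1866
    L1867
    (Nat.ble 238976 i))
   (Nat.ble 238848 i))
  (Bool.rec (motive := fun _ => Nat)
   (Bool.rec (motive := fun _ => Nat)
    L1868
    L1869
    (Nat.ble 239232 i))
   (Bool.rec (motive := fun _ => Nat)
    L1870
    L1871
    (Nat.ble 239488 i))
   (Nat.ble 239360 i))
  (Nat.ble 239104 i))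
 (Nat.ble 238592 i))

/-- choice of a leaf -/
noncomputable def A0_117 (i : Nat) : Nat :=
 (Bool.rec (motive := fun _ => Nat)
 (Bool.rec (motive := fun _ => Nat)
  (Bool.rec (motive := fun _ => Nat)
   (Bool.rec (motive := fun _ => Nat)
    L1872
    L1873
    (Nat.ble 239744 i))
   (Bool.rec (motive := fun _ => Nat)
    L1874
    L1875
    (Nat.ble 240000 i))
   (Nat.ble 239872 i))
  (Bool.rec (motive := fun _ => Nat)
   (Bool.rec (motive := fun _ => Nat)
    L1876
    L1877
    (Nat.ble 240256 i))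
   (Bool.rec (motive := fun _ => Nat)
    L1878
    L1879
    (Nat.ble 240512 i))
   (Nat.ble 240384 i))
  (Nat.ble 240128 i))
 (Bool.rec (motive := fun _ => Nat)
  (Bool.rec (motive := fun _ => Nat)
   (Bool.rec (motive := fun _ => Nat)
    L1880
    L1881
    (Nat.ble 240768 i))
   (Bool.rec (motive := fun _ => Nat)
    L1882
    L1883
    (Nat.ble 241024 i))
   (Nat.ble 240896 i))
  (Bool.rec (motive := fun _ => Nat)
   (Bool.rec (motive := fun _ => Nat)
    L1884
    L1885
    (Nat.ble 241280 i))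
   (Bool.rec (motive := fun _ => Nat)
    L1886
    L1887
    (Nat.ble 241536 i))
   (Nat.ble 241408 i))
  (Nat.ble 241152 i))
 (Nat.ble 240640 i))

/-- choice of a leaf -/
noncomputable def A0_118 (i : Nat) : Nat :=
 (Bool.rec (motive := fun _ => Nat)
 (Bool.rec (motive := fun _ => Nat)
  (Bool.rec (motive := fun _ => Nat)
   (Bool.rec (motive := fun _ => Nat)
    L1888
    L1889
    (Nat.ble 241792 i))
   (Bool.rec (motive := fun _ => Nat)
    L1890
    L1891
    (Nat.ble 242048 i))
   (Nat.ble 241920 i))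
  (Bool.rec (motive := fun _ => Nat)
   (Bool.rec (motive := fun _ => Nat)
    L1892
    L1893
    (Nat.ble 242304 i))
   (Bool.rec (motive := fun _ => Nat)
    L1894
    L1895
    (Nat.ble 242560 i))
   (Nat.ble 242432 i))
  (Nat.ble 242176 i))
 (Bool.rec (motive := fun _ => Nat)
  (Bool.rec (motive := fun _ => Nat)
   (Bool.rec (motive := fun _ => Nat)
    L1896
    L1897
    (Nat.ble 242816 i))
   (Bool.rec (motive := fun _ => Nat)
    L1898
    L1899
    (Nat.ble 243072 i))
   (Nat.ble 242944 i))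
  (Bool.rec (motive := fun _ => Nat)
   (Bool.rec (motive := fun _ => Nat)
    L1900
    L1901
    (Nat.ble 243328 i))
   (Bool.rec (motive := fun _ => Nat)
    L1902
    L1903
    (Nat.ble 243584 i))
   (Nat.ble 243456 i))
  (Nat.ble 243200 i))
 (Nat.ble 242688 i))

/-- choice of a leaf -/
noncomputable def A0_119 (i : Nat) : Nat :=
 (Bool.rec (motive := fun _ => Nat)
 (Bool.rec (motive := fun _ => Nat)
  (Bool.rec (motive := fun _ => Nat)
   (Bool.rec (motive := fun _ => Nat)
    L1904
    L1905
    (Nat.ble 243840 i))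
   (Bool.rec (motive := fun _ => Nat)
    L1906
    L1907
    (Nat.ble 244096 i))
   (Nat.ble 243968 i))
  (Bool.rec (motive := fun _ => Nat)
   (Bool.rec (motive := fun _ => Nat)
    L1908
    L1909
    (Nat.ble 244352 i))
   (Bool.rec (motive := fun _ => Nat)
    L1910
    L1911
    (Nat.ble 244608 i))
   (Nat.ble 244480 i))
  (Nat.ble 244224 i))
 (Bool.rec (motive := fun _ => Nat)
  (Bool.rec (motive := fun _ => Nat)
   (Bool.rec (motive := fun _ => Nat)
    L1912
    L1913
    (Nat.ble 244864 i))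
   (Bool.rec (motive := fun _ => Nat)
    L1914
    L1915
    (Nat.ble 245120 i))
   (Nat.ble 244992 i))
  (Bool.rec (motive := fun _ => Nat)
   (Bool.rec (motive := fun _ => Nat)
    L1916
    L1917
    (Nat.ble 245376 i))
   (Bool.rec (motive := fun _ => Nat)
    L1918
    L1919
    (Nat.ble 245632 i))
   (Nat.ble 245504 i))
  (Nat.ble 245248 i))
 (Nat.ble 244736 i))

/-- choice of a leaf -/
noncomputable def A0_120 (i : Nat) : Nat :=
 (Bool.rec (motive := fun _ => Nat)
 (Bool.rec (motive := fun _ => Nat)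
  (Bool.rec (motive := fun _ => Nat)
   (Bool.rec (motive := fun _ => Nat)
    L1920
    L1921
    (Nat.ble 245888 i))
   (Bool.rec (motive := fun _ => Nat)
    L1922
    L1923
    (Nat.ble 246144 i))
   (Nat.ble 246016 i))
  (Bool.rec (motive := fun _ => Nat)
   (Bool.rec (motive := fun _ => Nat)
    L1924
    L1925
    (Nat.ble 246400 i))
   (Bool.rec (motive := fun _ => Nat)
    L1926
    L1927
    (Nat.ble 246656 i))
   (Nat.ble 246528 i))
  (Nat.ble 246272 i))
 (Bool.rec (motive := fun _ => Nat)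
  (Bool.rec (motive := fun _ => Nat)
   (Bool.rec (motive := fun _ => Nat)
    L1928
    L1929
    (Nat.ble 246912 i))
   (Bool.rec (motive := fun _ => Nat)
    L1930
    L1931
    (Nat.ble 247168 i))
   (Nat.ble 247040 i))
  (Bool.rec (motive := fun _ => Nat)
   (Bool.rec (motive := fun _ => Nat)
    L1932
    L1933
    (Nat.ble 247424 i))
   (Bool.rec (motive := fun _ => Nat)
    L1934
    L1935
    (Nat.ble 247680 i))
   (Nat.ble 247552 i))
  (Nat.ble 247296 i))
 (Nat.ble 246784 i))

/-- choice of a leaf -/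
noncomputable def A0_121 (i : Nat) : Nat :=
 (Bool.rec (motive := fun _ => Nat)
 (Bool.rec (motive := fun _ => Nat)
  (Bool.rec (motive := fun _ => Nat)
   (Bool.rec (motive := fun _ => Nat)
    L1936
    L1937
    (Nat.ble 247936 i))
   (Bool.rec (motive := fun _ => Nat)
    L1938
    L1939
    (Nat.ble 248192 i))
   (Nat.ble 248064 i))
  (Bool.rec (motive := fun _ => Nat)
   (Bool.rec (motive := fun _ => Nat)
    L1940
    L1941
    (Nat.ble 248448 i))
   (Bool.rec (motive := fun _ => Nat)
    L1942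
    L1943
    (Nat.ble 248704 i))
   (Nat.ble 248576 i))
  (Nat.ble 248320 i))
 (Bool.rec (motive := fun _ => Nat)
  (Bool.rec (motive := fun _ => Nat)
   (Bool.rec (motive := fun _ => Nat)
    L1944
    L1945
    (Nat.ble 248960 i))
   (Bool.rec (motive := fun _ => Nat)
    L1946
    L1947
    (Nat.ble 249216 i))
   (Nat.ble 249088 i))
  (Bool.rec (motive := fun _ => Nat)
   (Bool.rec (motive := fun _ => Nat)
    L1948
    L1949
    (Nat.ble 249472 i))
   (Bool.rec (motive := fun _ => Nat)
    L1950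
    L1951
    (Nat.ble 249728 i))
   (Nat.ble 249600 i))
  (Nat.ble 249344 i))
 (Nat.ble 248832 i))

/-- choice of a leaf -/
noncomputable def A0_122 (i : Nat) : Nat :=
 (Bool.rec (motive := fun _ => Nat)
 (Bool.rec (motive := fun _ => Nat)
  (Bool.rec (motive := fun _ => Nat)
   (Bool.rec (motive := fun _ => Nat)
    L1952
    L1953
    (Nat.ble 249984 i))
   (Bool.rec (motive := fun _ => Nat)
    L1954
    L1955
    (Nat.ble 250240 i))
   (Nat.ble 250112 i))
  (Bool.rec (motive := fun _ => Nat)
   (Bool.rec (motive := fun _ => Nat)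
    L1956
    L1957
    (Nat.ble 250496 i))
   (Bool.rec (motive := fun _ => Nat)
    L1958
    L1959
    (Nat.ble 250752 i))
   (Nat.ble 250624 i))
  (Nat.ble 250368 i))
 (Bool.rec (motive := fun _ => Nat)
  (Bool.rec (motive := fun _ => Nat)
   (Bool.rec (motive := fun _ => Nat)
    L1960
    L1961
    (Nat.ble 251008 i))
   (Bool.rec (motive := fun _ => Nat)
    L1962
    L1963
    (Nat.ble 251264 i))
   (Nat.ble 251136 i))
  (Bool.rec (motive := fun _ => Nat)
   (Bool.rec (motive := fun _ => Nat)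
    L1964
    L1965
    (Nat.ble 251520 i))
   (Bool.rec (motive := fun _ => Nat)
    L1966
    L1967
    (Nat.ble 251776 i))
   (Nat.ble 251648 i))
  (Nat.ble 251392 i))
 (Nat.ble 250880 i))

/-- choice of a leaf -/
noncomputable def A0_123 (i : Nat) : Nat :=
 (Bool.rec (motive := fun _ => Nat)
 (Bool.rec (motive := fun _ => Nat)
  (Bool.rec (motive := fun _ => Nat)
   (Bool.rec (motive := fun _ => Nat)
    L1968
    L1969
    (Nat.ble 252032 i))
   (Bool.rec (motive := fun _ => Nat)
    L1970
    L1971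
    (Nat.ble 252288 i))
   (Nat.ble 252160 i))
  (Bool.rec (motive := fun _ => Nat)
   (Bool.rec (motive := fun _ => Nat)
    L1972
    L1973
    (Nat.ble 252544 i))
   (Bool.rec (motive := fun _ => Nat)
    L1974
    L1975
    (Nat.ble 252800 i))
   (Nat.ble 252672 i))
  (Nat.ble 252416 i))
 (Bool.rec (motive := fun _ => Nat)
  (Bool.rec (motive := fun _ => Nat)
   (Bool.rec (motive := fun _ => Nat)
    L1976
    L1977
    (Nat.ble 253056 i))
   (Bool.rec (motive := fun _ => Nat)
    L1978
    L1979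
    (Nat.ble 253312 i))
   (Nat.ble 253184 i))
  (Bool.rec (motive := fun _ => Nat)
   (Bool.rec (motive := fun _ => Nat)
    L1980
    L1981
    (Nat.ble 253568 i))
   (Bool.rec (motive := fun _ => Nat)
    L1982
    L1983
    (Nat.ble 253824 i))
   (Nat.ble 253696 i))
  (Nat.ble 253440 i))
 (Nat.ble 252928 i))

/-- choice of a leaf -/
noncomputable def A0_124 (i : Nat) : Nat :=
 (Bool.rec (motive := fun _ => Nat)
 (Bool.rec (motive := fun _ => Nat)
  (Bool.rec (motive := fun _ => Nat)
   (Bool.rec (motive := fun _ => Nat)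
    L1984
    L1985
    (Nat.ble 254080 i))
   (Bool.rec (motive := fun _ => Nat)
    L1986
    L1987
    (Nat.ble 254336 i))
   (Nat.ble 254208 i))
  (Bool.rec (motive := fun _ => Nat)
   (Bool.rec (motive := fun _ => Nat)
    L1988
    L1989
    (Nat.ble 254592 i))
   (Bool.rec (motive := fun _ => Nat)
    L1990
    L1991
    (Nat.ble 254848 i))
   (Nat.ble 254720 i))
  (Nat.ble 254464 i))
 (Bool.rec (motive := fun _ => Nat)
  (Bool.rec (motive := fun _ => Nat)
   (Bool.rec (motive := fun _ => Nat)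
    L1992
    L1993
    (Nat.ble 255104 i))
   (Bool.rec (motive := fun _ => Nat)
    L1994
    L1995
    (Nat.ble 255360 i))
   (Nat.ble 255232 i))
  (Bool.rec (motive := fun _ => Nat)
   (Bool.rec (motive := fun _ => Nat)
    L1996
    L1997
    (Nat.ble 255616 i))
   (Bool.rec (motive := fun _ => Nat)
    L1998
    L1999
    (Nat.ble 255872 i))
   (Nat.ble 255744 i))
  (Nat.ble 255488 i))
 (Nat.ble 254976 i))

/-- choice of a leaf -/
noncomputable def A0_125 (i : Nat) : Nat :=
 (Bool.rec (motive := fun _ => Nat)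
 (Bool.rec (motive := fun _ => Nat)
  (Bool.rec (motive := fun _ => Nat)
   (Bool.rec (motive := fun _ => Nat)
    L2000
    L2001
    (Nat.ble 256128 i))
   (Bool.rec (motive := fun _ => Nat)
    L2002
    L2003
    (Nat.ble 256384 i))
   (Nat.ble 256256 i))
  (Bool.rec (motive := fun _ => Nat)
   (Bool.rec (motive := fun _ => Nat)
    L2004
    L2005
    (Nat.ble 256640 i))
   (Bool.rec (motive := fun _ => Nat)
    L2006
    L2007
    (Nat.ble 256896 i))
   (Nat.ble 256768 i))
  (Nat.ble 256512 i))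
 (Bool.rec (motive := fun _ => Nat)
  (Bool.rec (motive := fun _ => Nat)
   (Bool.rec (motive := fun _ => Nat)
    L2008
    L2009
    (Nat.ble 257152 i))
   (Bool.rec (motive := fun _ => Nat)
    L2010
    L2011
    (Nat.ble 257408 i))
   (Nat.ble 257280 i))
  (Bool.rec (motive := fun _ => Nat)
   (Bool.rec (motive := fun _ => Nat)
    L2012
    L2013
    (Nat.ble 257664 i))
   (Bool.rec (motive := fun _ => Nat)
    L2014
    L2015
    (Nat.ble 257920 i))
   (Nat.ble 257792 i))
  (Nat.ble 257536 i))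
 (Nat.ble 257024 i))

/-- choice of a leaf -/
noncomputable def A0_126 (i : Nat) : Nat :=
 (Bool.rec (motive := fun _ => Nat)
 (Bool.rec (motive := fun _ => Nat)
  (Bool.rec (motive := fun _ => Nat)
   (Bool.rec (motive := fun _ => Nat)
    L2016
    L2017
    (Nat.ble 258176 i))
   (Bool.rec (motive := fun _ => Nat)
    L2018
    L2019
    (Nat.ble 258432 i))
   (Nat.ble 258304 i))
  (Bool.rec (motive := fun _ => Nat)
   (Bool.rec (motive := fun _ => Nat)
    L2020
    L2021
    (Nat.ble 258688 i))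
   (Bool.rec (motive := fun _ => Nat)
    L2022
    L2023
    (Nat.ble 258944 i))
   (Nat.ble 258816 i))
  (Nat.ble 258560 i))
 (Bool.rec (motive := fun _ => Nat)
  (Bool.rec (motive := fun _ => Nat)
   (Bool.rec (motive := fun _ => Nat)
    L2024
    L2025
    (Nat.ble 259200 i))
   (Bool.rec (motive := fun _ => Nat)
    L2026
    L2027
    (Nat.ble 259456 i))
   (Nat.ble 259328 i))
  (Bool.rec (motive := fun _ => Nat)
   (Bool.rec (motive := fun _ => Nat)
    L2028
    L2029
    (Nat.ble 259712 i))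
   (Bool.rec (motive := fun _ => Nat)
    L2030
    L2031
    (Nat.ble 259968 i))
   (Nat.ble 259840 i))
  (Nat.ble 259584 i))
 (Nat.ble 259072 i))

/-- choice of a leaf -/
noncomputable def A0_127 (i : Nat) : Nat :=
 (Bool.rec (motive := fun _ => Nat)
 (Bool.rec (motive := fun _ => Nat)
  (Bool.rec (motive := fun _ => Nat)
   (Bool.rec (motive := fun _ => Nat)
    L2032
    L2033
    (Nat.ble 260224 i))
   (Bool.rec (motive := fun _ => Nat)
    L2034
    L2035
    (Nat.ble 260480 i))
   (Nat.ble 260352 i))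
  (Bool.rec (motive := fun _ => Nat)
   (Bool.rec (motive := fun _ => Nat)
    L2036
    L2037
    (Nat.ble 260736 i))
   (Bool.rec (motive := fun _ => Nat)
    L2038
    L2039
    (Nat.ble 260992 i))
   (Nat.ble 260864 i))
  (Nat.ble 260608 i))
 (Bool.rec (motive := fun _ => Nat)
  (Bool.rec (motive := fun _ => Nat)
   (Bool.rec (motive := fun _ => Nat)
    L2040
    L2041
    (Nat.ble 261248 i))
   (Bool.rec (motive := fun _ => Nat)
    L2042
    L2043
    (Nat.ble 261504 i))
   (Nat.ble 261376 i))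
  (Bool.rec (motive := fun _ => Nat)
   (Bool.rec (motive := fun _ => Nat)
    L2044
    L2045
    (Nat.ble 261760 i))
   (Bool.rec (motive := fun _ => Nat)
    L2046
    L2047
    (Nat.ble 262016 i))
   (Nat.ble 261888 i))
  (Nat.ble 261632 i))
 (Nat.ble 261120 i))

/-- choice of a leaf -/
noncomputable def A0_128 (i : Nat) : Nat :=
 (Bool.rec (motive := fun _ => Nat)
 (Bool.rec (motive := fun _ => Nat)
  (Bool.rec (motive := fun _ => Nat)
   (Bool.rec (motive := fun _ => Nat)
    L2048
    L2049
    (Nat.ble 262272 i))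
   (Bool.rec (motive := fun _ => Nat)
    L2050
    L2051
    (Nat.ble 262528 i))
   (Nat.ble 262400 i))
  (Bool.rec (motive := fun _ => Nat)
   (Bool.rec (motive := fun _ => Nat)
    L2052
    L2053
    (Nat.ble 262784 i))
   (Bool.rec (motive := fun _ => Nat)
    L2054
    L2055
    (Nat.ble 263040 i))
   (Nat.ble 262912 i))
  (Nat.ble 262656 i))
 (Bool.rec (motive := fun _ => Nat)
  (Bool.rec (motive := fun _ => Nat)
   (Bool.rec (motive := fun _ => Nat)
    L2056
    L2057
    (Nat.ble 263296 i))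
   (Bool.rec (motive := fun _ => Nat)
    L2058
    L2059
    (Nat.ble 263552 i))
   (Nat.ble 263424 i))
  (Bool.rec (motive := fun _ => Nat)
   (Bool.rec (motive := fun _ => Nat)
    L2060
    L2061
    (Nat.ble 263808 i))
   (Bool.rec (motive := fun _ => Nat)
    L2062
    L2063
    (Nat.ble 264064 i))
   (Nat.ble 263936 i))
  (Nat.ble 263680 i))
 (Nat.ble 263168 i))

/-- choice of a leaf -/
noncomputable def A0_129 (i : Nat) : Nat :=
 (Bool.rec (motive := fun _ => Nat)
 (Bool.rec (motive := fun _ => Nat)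
  (Bool.rec (motive := fun _ => Nat)
   (Bool.rec (motive := fun _ => Nat)
    L2064
    L2065
    (Nat.ble 264320 i))
   (Bool.rec (motive := fun _ => Nat)
    L2066
    L2067
    (Nat.ble 264576 i))
   (Nat.ble 264448 i))
  (Bool.rec (motive := fun _ => Nat)
   (Bool.rec (motive := fun _ => Nat)
    L2068
    L2069
    (Nat.ble 264832 i))
   (Bool.rec (motive := fun _ => Nat)
    L2070
    L2071
    (Nat.ble 265088 i))
   (Nat.ble 264960 i))
  (Nat.ble 264704 i))
 (Bool.rec (motive := fun _ => Nat)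
  (Bool.rec (motive := fun _ => Nat)
   (Bool.rec (motive := fun _ => Nat)
    L2072
    L2073
    (Nat.ble 265344 i))
   (Bool.rec (motive := fun _ => Nat)
    L2074
    L2075
    (Nat.ble 265600 i))
   (Nat.ble 265472 i))
  (Bool.rec (motive := fun _ => Nat)
   (Bool.rec (motive := fun _ => Nat)
    L2076
    L2077
    (Nat.ble 265856 i))
   (Bool.rec (motive := fun _ => Nat)
    L2078
    L2079
    (Nat.ble 266112 i))
   (Nat.ble 265984 i))
  (Nat.ble 265728 i))
 (Nat.ble 265216 i))

/-- choice of a leaf -/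
noncomputable def A0_130 (i : Nat) : Nat :=
 (Bool.rec (motive := fun _ => Nat)
 (Bool.rec (motive := fun _ => Nat)
  (Bool.rec (motive := fun _ => Nat)
   (Bool.rec (motive := fun _ => Nat)
    L2080
    L2081
    (Nat.ble 266368 i))
   (Bool.rec (motive := fun _ => Nat)
    L2082
    L2083
    (Nat.ble 266624 i))
   (Nat.ble 266496 i))
  (Bool.rec (motive := fun _ => Nat)
   (Bool.rec (motive := fun _ => Nat)
    L2084
    L2085
    (Nat.ble 266880 i))
   (Bool.rec (motive := fun _ => Nat)
    L2086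
    L2087
    (Nat.ble 267136 i))
   (Nat.ble 267008 i))
  (Nat.ble 266752 i))
 (Bool.rec (motive := fun _ => Nat)
  (Bool.rec (motive := fun _ => Nat)
   (Bool.rec (motive := fun _ => Nat)
    L2088
    L2089
    (Nat.ble 267392 i))
   (Bool.rec (motive := fun _ => Nat)
    L2090
    L2091
    (Nat.ble 267648 i))
   (Nat.ble 267520 i))
  (Bool.rec (motive := fun _ => Nat)
   (Bool.rec (motive := fun _ => Nat)
    L2092
    L2093
    (Nat.ble 267904 i))
   (Bool.rec (motive := fun _ => Nat)
    L2094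
    L2095
    (Nat.ble 268160 i))
   (Nat.ble 268032 i))
  (Nat.ble 267776 i))
 (Nat.ble 267264 i))

/-- choice of a leaf -/
noncomputable def A0_131 (i : Nat) : Nat :=
 (Bool.rec (motive := fun _ => Nat)
 (Bool.rec (motive := fun _ => Nat)
  (Bool.rec (motive := fun _ => Nat)
   (Bool.rec (motive := fun _ => Nat)
    L2096
    L2097
    (Nat.ble 268416 i))
   (Bool.rec (motive := fun _ => Nat)
    L2098
    L2099
    (Nat.ble 268672 i))
   (Nat.ble 268544 i))
  (Bool.rec (motive := fun _ => Nat)
   (Bool.rec (motive := fun _ => Nat)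
    L2100
    L2101
    (Nat.ble 268928 i))
   (Bool.rec (motive := fun _ => Nat)
    L2102
    L2103
    (Nat.ble 269184 i))
   (Nat.ble 269056 i))
  (Nat.ble 268800 i))
 (Bool.rec (motive := fun _ => Nat)
  (Bool.rec (motive := fun _ => Nat)
   (Bool.rec (motive := fun _ => Nat)
    L2104
    L2105
    (Nat.ble 269440 i))
   (Bool.rec (motive := fun _ => Nat)
    L2106
    L2107
    (Nat.ble 269696 i))
   (Nat.ble 269568 i))
  (Bool.rec (motive := fun _ => Nat)
   (Bool.rec (motive := fun _ => Nat)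
    L2108
    L2109
    (Nat.ble 269952 i))
   (Bool.rec (motive := fun _ => Nat)
    L2110
    L2111
    (Nat.ble 270208 i))
   (Nat.ble 270080 i))
  (Nat.ble 269824 i))
 (Nat.ble 269312 i))

/-- choice of a leaf -/
noncomputable def A0_132 (i : Nat) : Nat :=
 (Bool.rec (motive := fun _ => Nat)
 (Bool.rec (motive := fun _ => Nat)
  (Bool.rec (motive := fun _ => Nat)
   (Bool.rec (motive := fun _ => Nat)
    L2112
    L2113
    (Nat.ble 270464 i))
   (Bool.rec (motive := fun _ => Nat)
    L2114
    L2115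
    (Nat.ble 270720 i))
   (Nat.ble 270592 i))
  (Bool.rec (motive := fun _ => Nat)
   (Bool.rec (motive := fun _ => Nat)
    L2116
    L2117
    (Nat.ble 270976 i))
   (Bool.rec (motive := fun _ => Nat)
    L2118
    L2119
    (Nat.ble 271232 i))
   (Nat.ble 271104 i))
  (Nat.ble 270848 i))
 (Bool.rec (motive := fun _ => Nat)
  (Bool.rec (motive := fun _ => Nat)
   (Bool.rec (motive := fun _ => Nat)
    L2120
    L2121
    (Nat.ble 271488 i))
   (Bool.rec (motive := fun _ => Nat)
    L2122
    L2123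
    (Nat.ble 271744 i))
   (Nat.ble 271616 i))
  (Bool.rec (motive := fun _ => Nat)
   (Bool.rec (motive := fun _ => Nat)
    L2124
    L2125
    (Nat.ble 272000 i))
   (Bool.rec (motive := fun _ => Nat)
    L2126
    L2127
    (Nat.ble 272256 i))
   (Nat.ble 272128 i))
  (Nat.ble 271872 i))
 (Nat.ble 271360 i))

/-- choice of a leaf -/
noncomputable def A0_133 (i : Nat) : Nat :=
 (Bool.rec (motive := fun _ => Nat)
 (Bool.rec (motive := fun _ => Nat)
  (Bool.rec (motive := fun _ => Nat)
   (Bool.rec (motive := fun _ => Nat)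
    L2128
    L2129
    (Nat.ble 272512 i))
   (Bool.rec (motive := fun _ => Nat)
    L2130
    L2131
    (Nat.ble 272768 i))
   (Nat.ble 272640 i))
  (Bool.rec (motive := fun _ => Nat)
   (Bool.rec (motive := fun _ => Nat)
    L2132
    L2133
    (Nat.ble 273024 i))
   (Bool.rec (motive := fun _ => Nat)
    L2134
    L2135
    (Nat.ble 273280 i))
   (Nat.ble 273152 i))
  (Nat.ble 272896 i))
 (Bool.rec (motive := fun _ => Nat)
  (Bool.rec (motive := fun _ => Nat)
   (Bool.rec (motive := fun _ => Nat)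
    L2136
    L2137
    (Nat.ble 273536 i))
   (Bool.rec (motive := fun _ => Nat)
    L2138
    L2139
    (Nat.ble 273792 i))
   (Nat.ble 273664 i))
  (Bool.rec (motive := fun _ => Nat)
   (Bool.rec (motive := fun _ => Nat)
    L2140
    L2141
    (Nat.ble 274048 i))
   (Bool.rec (motive := fun _ => Nat)
    L2142
    L2143
    (Nat.ble 274304 i))
   (Nat.ble 274176 i))
  (Nat.ble 273920 i))
 (Nat.ble 273408 i))

/-- choice of a leaf -/
noncomputable def A0_134 (i : Nat) : Nat :=
 (Bool.rec (motive := fun _ => Nat)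
 (Bool.rec (motive := fun _ => Nat)
  (Bool.rec (motive := fun _ => Nat)
   (Bool.rec (motive := fun _ => Nat)
    L2144
    L2145
    (Nat.ble 274560 i))
   (Bool.rec (motive := fun _ => Nat)
    L2146
    L2147
    (Nat.ble 274816 i))
   (Nat.ble 274688 i))
  (Bool.rec (motive := fun _ => Nat)
   (Bool.rec (motive := fun _ => Nat)
    L2148
    L2149
    (Nat.ble 275072 i))
   (Bool.rec (motive := fun _ => Nat)
    L2150
    L2151
    (Nat.ble 275328 i))
   (Nat.ble 275200 i))
  (Nat.ble 274944 i))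
 (Bool.rec (motive := fun _ => Nat)
  (Bool.rec (motive := fun _ => Nat)
   (Bool.rec (motive := fun _ => Nat)
    L2152
    L2153
    (Nat.ble 275584 i))
   (Bool.rec (motive := fun _ => Nat)
    L2154
    L2155
    (Nat.ble 275840 i))
   (Nat.ble 275712 i))
  (Bool.rec (motive := fun _ => Nat)
   (Bool.rec (motive := fun _ => Nat)
    L2156
    L2157
    (Nat.ble 276096 i))
   (Bool.rec (motive := fun _ => Nat)
    L2158
    L2159
    (Nat.ble 276352 i))
   (Nat.ble 276224 i))
  (Nat.ble 275968 i))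
 (Nat.ble 275456 i))

/-- choice of a leaf -/
noncomputable def A0_135 (i : Nat) : Nat :=
 (Bool.rec (motive := fun _ => Nat)
 (Bool.rec (motive := fun _ => Nat)
  (Bool.rec (motive := fun _ => Nat)
   (Bool.rec (motive := fun _ => Nat)
    L2160
    L2161
    (Nat.ble 276608 i))
   (Bool.rec (motive := fun _ => Nat)
    L2162
    L2163
    (Nat.ble 276864 i))
   (Nat.ble 276736 i))
  (Bool.rec (motive := fun _ => Nat)
   (Bool.rec (motive := fun _ => Nat)
    L2164
    L2165
    (Nat.ble 277120 i))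
   (Bool.rec (motive := fun _ => Nat)
    L2166
    L2167
    (Nat.ble 277376 i))
   (Nat.ble 277248 i))
  (Nat.ble 276992 i))
 (Bool.rec (motive := fun _ => Nat)
  (Bool.rec (motive := fun _ => Nat)
   (Bool.rec (motive := fun _ => Nat)
    L2168
    L2169
    (Nat.ble 277632 i))
   (Bool.rec (motive := fun _ => Nat)
    L2170
    L2171
    (Nat.ble 277888 i))
   (Nat.ble 277760 i))
  (Bool.rec (motive := fun _ => Nat)
   (Bool.rec (motive := fun _ => Nat)
    L2172
    L2173
    (Nat.ble 278144 i))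
   (Bool.rec (motive := fun _ => Nat)
    L2174
    L2175
    (Nat.ble 278400 i))
   (Nat.ble 278272 i))
  (Nat.ble 278016 i))
 (Nat.ble 277504 i))

/-- choice of a leaf -/
noncomputable def A0_136 (i : Nat) : Nat :=
 (Bool.rec (motive := fun _ => Nat)
 (Bool.rec (motive := fun _ => Nat)
  (Bool.rec (motive := fun _ => Nat)
   (Bool.rec (motive := fun _ => Nat)
    L2176
    L2177
    (Nat.ble 278656 i))
   (Bool.rec (motive := fun _ => Nat)
    L2178
    L2179
    (Nat.ble 278912 i))
   (Nat.ble 278784 i))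
  (Bool.rec (motive := fun _ => Nat)
   (Bool.rec (motive := fun _ => Nat)
    L2180
    L2181
    (Nat.ble 279168 i))
   (Bool.rec (motive := fun _ => Nat)
    L2182
    L2183
    (Nat.ble 279424 i))
   (Nat.ble 279296 i))
  (Nat.ble 279040 i))
 (Bool.rec (motive := fun _ => Nat)
  (Bool.rec (motive := fun _ => Nat)
   (Bool.rec (motive := fun _ => Nat)
    L2184
    L2185
    (Nat.ble 279680 i))
   (Bool.rec (motive := fun _ => Nat)
    L2186
    L2187
    (Nat.ble 279936 i))
   (Nat.ble 279808 i))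
  (Bool.rec (motive := fun _ => Nat)
   (Bool.rec (motive := fun _ => Nat)
    L2188
    L2189
    (Nat.ble 280192 i))
   (Bool.rec (motive := fun _ => Nat)
    L2190
    L2191
    (Nat.ble 280448 i))
   (Nat.ble 280320 i))
  (Nat.ble 280064 i))
 (Nat.ble 279552 i))

/-- choice of a leaf -/
noncomputable def A0_137 (i : Nat) : Nat :=
 (Bool.rec (motive := fun _ => Nat)
 (Bool.rec (motive := fun _ => Nat)
  (Bool.rec (motive := fun _ => Nat)
   (Bool.rec (motive := fun _ => Nat)
    L2192
    L2193
    (Nat.ble 280704 i))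
   (Bool.rec (motive := fun _ => Nat)
    L2194
    L2195
    (Nat.ble 280960 i))
   (Nat.ble 280832 i))
  (Bool.rec (motive := fun _ => Nat)
   (Bool.rec (motive := fun _ => Nat)
    L2196
    L2197
    (Nat.ble 281216 i))
   (Bool.rec (motive := fun _ => Nat)
    L2198
    L2199
    (Nat.ble 281472 i))
   (Nat.ble 281344 i))
  (Nat.ble 281088 i))
 (Bool.rec (motive := fun _ => Nat)
  (Bool.rec (motive := fun _ => Nat)
   (Bool.rec (motive := fun _ => Nat)
    L2200
    L2201
    (Nat.ble 281728 i))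
   (Bool.rec (motive := fun _ => Nat)
    L2202
    L2203
    (Nat.ble 281984 i))
   (Nat.ble 281856 i))
  (Bool.rec (motive := fun _ => Nat)
   (Bool.rec (motive := fun _ => Nat)
    L2204
    L2205
    (Nat.ble 282240 i))
   (Bool.rec (motive := fun _ => Nat)
    L2206
    L2207
    (Nat.ble 282496 i))
   (Nat.ble 282368 i))
  (Nat.ble 282112 i))
 (Nat.ble 281600 i))

/-- choice of a leaf -/
noncomputable def A0_138 (i : Nat) : Nat :=
 (Bool.rec (motive := fun _ => Nat)
 (Bool.rec (motive := fun _ => Nat)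
  (Bool.rec (motive := fun _ => Nat)
   (Bool.rec (motive := fun _ => Nat)
    L2208
    L2209
    (Nat.ble 282752 i))
   (Bool.rec (motive := fun _ => Nat)
    L2210
    L2211
    (Nat.ble 283008 i))
   (Nat.ble 282880 i))
  (Bool.rec (motive := fun _ => Nat)
   (Bool.rec (motive := fun _ => Nat)
    L2212
    L2213
    (Nat.ble 283264 i))
   (Bool.rec (motive := fun _ => Nat)
    L2214
    L2215
    (Nat.ble 283520 i))
   (Nat.ble 283392 i))
  (Nat.ble 283136 i))
 (Bool.rec (motive := fun _ => Nat)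
  (Bool.rec (motive := fun _ => Nat)
   (Bool.rec (motive := fun _ => Nat)
    L2216
    L2217
    (Nat.ble 283776 i))
   (Bool.rec (motive := fun _ => Nat)
    L2218
    L2219
    (Nat.ble 284032 i))
   (Nat.ble 283904 i))
  (Bool.rec (motive := fun _ => Nat)
   (Bool.rec (motive := fun _ => Nat)
    L2220
    L2221
    (Nat.ble 284288 i))
   (Bool.rec (motive := fun _ => Nat)
    L2222
    L2223
    (Nat.ble 284544 i))
   (Nat.ble 284416 i))
  (Nat.ble 284160 i))
 (Nat.ble 283648 i))

/-- choice of a leaf -/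
noncomputable def A0_139 (i : Nat) : Nat :=
 (Bool.rec (motive := fun _ => Nat)
 (Bool.rec (motive := fun _ => Nat)
  (Bool.rec (motive := fun _ => Nat)
   (Bool.rec (motive := fun _ => Nat)
    L2224
    L2225
    (Nat.ble 284800 i))
   (Bool.rec (motive := fun _ => Nat)
    L2226
    L2227
    (Nat.ble 285056 i))
   (Nat.ble 284928 i))
  (Bool.rec (motive := fun _ => Nat)
   (Bool.rec (motive := fun _ => Nat)
    L2228
    L2229
    (Nat.ble 285312 i))
   (Bool.rec (motive := fun _ => Nat)
    L2230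
    L2231
    (Nat.ble 285568 i))
   (Nat.ble 285440 i))
  (Nat.ble 285184 i))
 (Bool.rec (motive := fun _ => Nat)
  (Bool.rec (motive := fun _ => Nat)
   (Bool.rec (motive := fun _ => Nat)
    L2232
    L2233
    (Nat.ble 285824 i))
   (Bool.rec (motive := fun _ => Nat)
    L2234
    L2235
    (Nat.ble 286080 i))
   (Nat.ble 285952 i))
  (Bool.rec (motive := fun _ => Nat)
   (Bool.rec (motive := fun _ => Nat)
    L2236
    L2237
    (Nat.ble 286336 i))
   (Bool.rec (motive := fun _ => Nat)
    L2238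
    L2239
    (Nat.ble 286592 i))
   (Nat.ble 286464 i))
  (Nat.ble 286208 i))
 (Nat.ble 285696 i))

/-- choice of a leaf -/
noncomputable def A0_140 (i : Nat) : Nat :=
 (Bool.rec (motive := fun _ => Nat)
 (Bool.rec (motive := fun _ => Nat)
  (Bool.rec (motive := fun _ => Nat)
   (Bool.rec (motive := fun _ => Nat)
    L2240
    L2241
    (Nat.ble 286848 i))
   (Bool.rec (motive := fun _ => Nat)
    L2242
    L2243
    (Nat.ble 287104 i))
   (Nat.ble 286976 i))
  (Bool.rec (motive := fun _ => Nat)
   (Bool.rec (motive := fun _ => Nat)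
    L2244
    L2245
    (Nat.ble 287360 i))
   (Bool.rec (motive := fun _ => Nat)
    L2246
    L2247
    (Nat.ble 287616 i))
   (Nat.ble 287488 i))
  (Nat.ble 287232 i))
 (Bool.rec (motive := fun _ => Nat)
  (Bool.rec (motive := fun _ => Nat)
   (Bool.rec (motive := fun _ => Nat)
    L2248
    L2249
    (Nat.ble 287872 i))
   (Bool.rec (motive := fun _ => Nat)
    L2250
    L2251
    (Nat.ble 288128 i))
   (Nat.ble 288000 i))
  (Bool.rec (motive := fun _ => Nat)
   (Bool.rec (motive := fun _ => Nat)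
    L2252
    L2253
    (Nat.ble 288384 i))
   (Bool.rec (motive := fun _ => Nat)
    L2254
    L2255
    (Nat.ble 288640 i))
   (Nat.ble 288512 i))
  (Nat.ble 288256 i))
 (Nat.ble 287744 i))

/-- choice of a leaf -/
noncomputable def A0_141 (i : Nat) : Nat :=
 (Bool.rec (motive := fun _ => Nat)
 (Bool.rec (motive := fun _ => Nat)
  (Bool.rec (motive := fun _ => Nat)
   (Bool.rec (motive := fun _ => Nat)
    L2256
    L2257
    (Nat.ble 288896 i))
   (Bool.rec (motive := fun _ => Nat)
    L2258
    L2259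
    (Nat.ble 289152 i))
   (Nat.ble 289024 i))
  (Bool.rec (motive := fun _ => Nat)
   (Bool.rec (motive := fun _ => Nat)
    L2260
    L2261
    (Nat.ble 289408 i))
   (Bool.rec (motive := fun _ => Nat)
    L2262
    L2263
    (Nat.ble 289664 i))
   (Nat.ble 289536 i))
  (Nat.ble 289280 i))
 (Bool.rec (motive := fun _ => Nat)
  (Bool.rec (motive := fun _ => Nat)
   (Bool.rec (motive := fun _ => Nat)
    L2264
    L2265
    (Nat.ble 289920 i))
   (Bool.rec (motive := fun _ => Nat)
    L2266
    L2267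
    (Nat.ble 290176 i))
   (Nat.ble 290048 i))
  (Bool.rec (motive := fun _ => Nat)
   (Bool.rec (motive := fun _ => Nat)
    L2268
    L2269
    (Nat.ble 290432 i))
   (Bool.rec (motive := fun _ => Nat)
    L2270
    L2271
    (Nat.ble 290688 i))
   (Nat.ble 290560 i))
  (Nat.ble 290304 i))
 (Nat.ble 289792 i))

/-- choice of a leaf -/
noncomputable def A0_142 (i : Nat) : Nat :=
 (Bool.rec (motive := fun _ => Nat)
 (Bool.rec (motive := fun _ => Nat)
  (Bool.rec (motive := fun _ => Nat)
   (Bool.rec (motive := fun _ => Nat)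
    L2272
    L2273
    (Nat.ble 290944 i))
   (Bool.rec (motive := fun _ => Nat)
    L2274
    L2275
    (Nat.ble 291200 i))
   (Nat.ble 291072 i))
  (Bool.rec (motive := fun _ => Nat)
   (Bool.rec (motive := fun _ => Nat)
    L2276
    L2277
    (Nat.ble 291456 i))
   (Bool.rec (motive := fun _ => Nat)
    L2278
    L2279
    (Nat.ble 291712 i))
   (Nat.ble 291584 i))
  (Nat.ble 291328 i))
 (Bool.rec (motive := fun _ => Nat)
  (Bool.rec (motive := fun _ => Nat)
   (Bool.rec (motive := fun _ => Nat)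
    L2280
    L2281
    (Nat.ble 291968 i))
   (Bool.rec (motive := fun _ => Nat)
    L2282
    L2283
    (Nat.ble 292224 i))
   (Nat.ble 292096 i))
  (Bool.rec (motive := fun _ => Nat)
   (Bool.rec (motive := fun _ => Nat)
    L2284
    L2285
    (Nat.ble 292480 i))
   (Bool.rec (motive := fun _ => Nat)
    L2286
    L2287
    (Nat.ble 292736 i))
   (Nat.ble 292608 i))
  (Nat.ble 292352 i))
 (Nat.ble 291840 i))

/-- choice of a leaf -/
noncomputable def A0_143 (i : Nat) : Nat :=
 (Bool.rec (motive := fun _ => Nat)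
 (Bool.rec (motive := fun _ => Nat)
  (Bool.rec (motive := fun _ => Nat)
   (Bool.rec (motive := fun _ => Nat)
    L2288
    L2289
    (Nat.ble 292992 i))
   (Bool.rec (motive := fun _ => Nat)
    L2290
    L2291
    (Nat.ble 293248 i))
   (Nat.ble 293120 i))
  (Bool.rec (motive := fun _ => Nat)
   (Bool.rec (motive := fun _ => Nat)
    L2292
    L2293
    (Nat.ble 293504 i))
   (Bool.rec (motive := fun _ => Nat)
    L2294
    L2295
    (Nat.ble 293760 i))
   (Nat.ble 293632 i))
  (Nat.ble 293376 i))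
 (Bool.rec (motive := fun _ => Nat)
  (Bool.rec (motive := fun _ => Nat)
   (Bool.rec (motive := fun _ => Nat)
    L2296
    L2297
    (Nat.ble 294016 i))
   (Bool.rec (motive := fun _ => Nat)
    L2298
    L2299
    (Nat.ble 294272 i))
   (Nat.ble 294144 i))
  (Bool.rec (motive := fun _ => Nat)
   (Bool.rec (motive := fun _ => Nat)
    L2300
    L2301
    (Nat.ble 294528 i))
   (Bool.rec (motive := fun _ => Nat)
    L2302
    L2303
    (Nat.ble 294784 i))
   (Nat.ble 294656 i))
  (Nat.ble 294400 i))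
 (Nat.ble 293888 i))

/-- choice of a leaf -/
noncomputable def A0_144 (i : Nat) : Nat :=
 (Bool.rec (motive := fun _ => Nat)
 (Bool.rec (motive := fun _ => Nat)
  (Bool.rec (motive := fun _ => Nat)
   (Bool.rec (motive := fun _ => Nat)
    L2304
    L2305
    (Nat.ble 295040 i))
   (Bool.rec (motive := fun _ => Nat)
    L2306
    L2307
    (Nat.ble 295296 i))
   (Nat.ble 295168 i))
  (Bool.rec (motive := fun _ => Nat)
   (Bool.rec (motive := fun _ => Nat)
    L2308
    L2309
    (Nat.ble 295552 i))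
   (Bool.rec (motive := fun _ => Nat)
    L2310
    L2311
    (Nat.ble 295808 i))
   (Nat.ble 295680 i))
  (Nat.ble 295424 i))
 (Bool.rec (motive := fun _ => Nat)
  (Bool.rec (motive := fun _ => Nat)
   (Bool.rec (motive := fun _ => Nat)
    L2312
    L2313
    (Nat.ble 296064 i))
   (Bool.rec (motive := fun _ => Nat)
    L2314
    L2315
    (Nat.ble 296320 i))
   (Nat.ble 296192 i))
  (Bool.rec (motive := fun _ => Nat)
   (Bool.rec (motive := fun _ => Nat)
    L2316
    L2317
    (Nat.ble 296576 i))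
   (Bool.rec (motive := fun _ => Nat)
    L2318
    L2319
    (Nat.ble 296832 i))
   (Nat.ble 296704 i))
  (Nat.ble 296448 i))
 (Nat.ble 295936 i))

/-- choice of a leaf -/
noncomputable def A0_145 (i : Nat) : Nat :=
 (Bool.rec (motive := fun _ => Nat)
 (Bool.rec (motive := fun _ => Nat)
  (Bool.rec (motive := fun _ => Nat)
   (Bool.rec (motive := fun _ => Nat)
    L2320
    L2321
    (Nat.ble 297088 i))
   (Bool.rec (motive := fun _ => Nat)
    L2322
    L2323
    (Nat.ble 297344 i))
   (Nat.ble 297216 i))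
  (Bool.rec (motive := fun _ => Nat)
   (Bool.rec (motive := fun _ => Nat)
    L2324
    L2325
    (Nat.ble 297600 i))
   (Bool.rec (motive := fun _ => Nat)
    L2326
    L2327
    (Nat.ble 297856 i))
   (Nat.ble 297728 i))
  (Nat.ble 297472 i))
 (Bool.rec (motive := fun _ => Nat)
  (Bool.rec (motive := fun _ => Nat)
   (Bool.rec (motive := fun _ => Nat)
    L2328
    L2329
    (Nat.ble 298112 i))
   (Bool.rec (motive := fun _ => Nat)
    L2330
    L2331
    (Nat.ble 298368 i))
   (Nat.ble 298240 i))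
  (Bool.rec (motive := fun _ => Nat)
   (Bool.rec (motive := fun _ => Nat)
    L2332
    L2333
    (Nat.ble 298624 i))
   (Bool.rec (motive := fun _ => Nat)
    L2334
    L2335
    (Nat.ble 298880 i))
   (Nat.ble 298752 i))
  (Nat.ble 298496 i))
 (Nat.ble 297984 i))

/-- choice of a leaf -/
noncomputable def A0_146 (i : Nat) : Nat :=
 (Bool.rec (motive := fun _ => Nat)
 (Bool.rec (motive := fun _ => Nat)
  (Bool.rec (motive := fun _ => Nat)
   (Bool.rec (motive := fun _ => Nat)
    L2336
    L2337
    (Nat.ble 299136 i))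
   (Bool.rec (motive := fun _ => Nat)
    L2338
    L2339
    (Nat.ble 299392 i))
   (Nat.ble 299264 i))
  (Bool.rec (motive := fun _ => Nat)
   (Bool.rec (motive := fun _ => Nat)
    L2340
    L2341
    (Nat.ble 299648 i))
   (Bool.rec (motive := fun _ => Nat)
    L2342
    L2343
    (Nat.ble 299904 i))
   (Nat.ble 299776 i))
  (Nat.ble 299520 i))
 (Bool.rec (motive := fun _ => Nat)
  (Bool.rec (motive := fun _ => Nat)
   (Bool.rec (motive := fun _ => Nat)
    L2344
    L2345
    (Nat.ble 300160 i))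
   (Bool.rec (motive := fun _ => Nat)
    L2346
    L2347
    (Nat.ble 300416 i))
   (Nat.ble 300288 i))
  (Bool.rec (motive := fun _ => Nat)
   (Bool.rec (motive := fun _ => Nat)
    L2348
    L2349
    (Nat.ble 300672 i))
   (Bool.rec (motive := fun _ => Nat)
    L2350
    L2351
    (Nat.ble 300928 i))
   (Nat.ble 300800 i))
  (Nat.ble 300544 i))
 (Nat.ble 300032 i))

/-- choice of a leaf -/
noncomputable def A0_147 (i : Nat) : Nat :=
 (Bool.rec (motive := fun _ => Nat)
 (Bool.rec (motive := fun _ => Nat)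
  (Bool.rec (motive := fun _ => Nat)
   (Bool.rec (motive := fun _ => Nat)
    L2352
    L2353
    (Nat.ble 301184 i))
   (Bool.rec (motive := fun _ => Nat)
    L2354
    L2355
    (Nat.ble 301440 i))
   (Nat.ble 301312 i))
  (Bool.rec (motive := fun _ => Nat)
   (Bool.rec (motive := fun _ => Nat)
    L2356
    L2357
    (Nat.ble 301696 i))
   (Bool.rec (motive := fun _ => Nat)
    L2358
    L2359
    (Nat.ble 301952 i))
   (Nat.ble 301824 i))
  (Nat.ble 301568 i))
 (Bool.rec (motive := fun _ => Nat)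
  (Bool.rec (motive := fun _ => Nat)
   (Bool.rec (motive := fun _ => Nat)
    L2360
    L2361
    (Nat.ble 302208 i))
   (Bool.rec (motive := fun _ => Nat)
    L2362
    L2363
    (Nat.ble 302464 i))
   (Nat.ble 302336 i))
  (Bool.rec (motive := fun _ => Nat)
   (Bool.rec (motive := fun _ => Nat)
    L2364
    L2365
    (Nat.ble 302720 i))
   (Bool.rec (motive := fun _ => Nat)
    L2366
    L2367
    (Nat.ble 302976 i))
   (Nat.ble 302848 i))
  (Nat.ble 302592 i))
 (Nat.ble 302080 i))

/-- choice of a leaf -/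
noncomputable def A0_148 (i : Nat) : Nat :=
 (Bool.rec (motive := fun _ => Nat)
 (Bool.rec (motive := fun _ => Nat)
  (Bool.rec (motive := fun _ => Nat)
   (Bool.rec (motive := fun _ => Nat)
    L2368
    L2369
    (Nat.ble 303232 i))
   (Bool.rec (motive := fun _ => Nat)
    L2370
    L2371
    (Nat.ble 303488 i))
   (Nat.ble 303360 i))
  (Bool.rec (motive := fun _ => Nat)
   (Bool.rec (motive := fun _ => Nat)
    L2372
    L2373
    (Nat.ble 303744 i))
   (Bool.rec (motive := fun _ => Nat)
    L2374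
    L2375
    (Nat.ble 304000 i))
   (Nat.ble 303872 i))
  (Nat.ble 303616 i))
 (Bool.rec (motive := fun _ => Nat)
  (Bool.rec (motive := fun _ => Nat)
   (Bool.rec (motive := fun _ => Nat)
    L2376
    L2377
    (Nat.ble 304256 i))
   (Bool.rec (motive := fun _ => Nat)
    L2378
    L2379
    (Nat.ble 304512 i))
   (Nat.ble 304384 i))
  (Bool.rec (motive := fun _ => Nat)
   (Bool.rec (motive := fun _ => Nat)
    L2380
    L2381
    (Nat.ble 304768 i))
   (Bool.rec (motive := fun _ => Nat)
    L2382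
    L2383
    (Nat.ble 305024 i))
   (Nat.ble 304896 i))
  (Nat.ble 304640 i))
 (Nat.ble 304128 i))

/-- choice of a leaf -/
noncomputable def A0_149 (i : Nat) : Nat :=
 (Bool.rec (motive := fun _ => Nat)
 (Bool.rec (motive := fun _ => Nat)
  (Bool.rec (motive := fun _ => Nat)
   (Bool.rec (motive := fun _ => Nat)
    L2384
    L2385
    (Nat.ble 305280 i))
   (Bool.rec (motive := fun _ => Nat)
    L2386
    L2387
    (Nat.ble 305536 i))
   (Nat.ble 305408 i))
  (Bool.rec (motive := fun _ => Nat)
   (Bool.rec (motive := fun _ => Nat)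
    L2388
    L2389
    (Nat.ble 305792 i))
   (Bool.rec (motive := fun _ => Nat)
    L2390
    L2391
    (Nat.ble 306048 i))
   (Nat.ble 305920 i))
  (Nat.ble 305664 i))
 (Bool.rec (motive := fun _ => Nat)
  (Bool.rec (motive := fun _ => Nat)
   (Bool.rec (motive := fun _ => Nat)
    L2392
    L2393
    (Nat.ble 306304 i))
   (Bool.rec (motive := fun _ => Nat)
    L2394
    L2395
    (Nat.ble 306560 i))
   (Nat.ble 306432 i))
  (Bool.rec (motive := fun _ => Nat)
   (Bool.rec (motive := fun _ => Nat)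
    L2396
    L2397
    (Nat.ble 306816 i))
   (Bool.rec (motive := fun _ => Nat)
    L2398
    L2399
    (Nat.ble 307072 i))
   (Nat.ble 306944 i))
  (Nat.ble 306688 i))
 (Nat.ble 306176 i))

/-- choice of a leaf -/
noncomputable def A0_150 (i : Nat) : Nat :=
 (Bool.rec (motive := fun _ => Nat)
 (Bool.rec (motive := fun _ => Nat)
  (Bool.rec (motive := fun _ => Nat)
   (Bool.rec (motive := fun _ => Nat)
    L2400
    L2401
    (Nat.ble 307328 i))
   (Bool.rec (motive := fun _ => Nat)
    L2402
    L2403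
    (Nat.ble 307584 i))
   (Nat.ble 307456 i))
  (Bool.rec (motive := fun _ => Nat)
   (Bool.rec (motive := fun _ => Nat)
    L2404
    L2405
    (Nat.ble 307840 i))
   (Bool.rec (motive := fun _ => Nat)
    L2406
    L2407
    (Nat.ble 308096 i))
   (Nat.ble 307968 i))
  (Nat.ble 307712 i))
 (Bool.rec (motive := fun _ => Nat)
  (Bool.rec (motive := fun _ => Nat)
   (Bool.rec (motive := fun _ => Nat)
    L2408
    L2409
    (Nat.ble 308352 i))
   (Bool.rec (motive := fun _ => Nat)
    L2410
    L2411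
    (Nat.ble 308608 i))
   (Nat.ble 308480 i))
  (Bool.rec (motive := fun _ => Nat)
   (Bool.rec (motive := fun _ => Nat)
    L2412
    L2413
    (Nat.ble 308864 i))
   (Bool.rec (motive := fun _ => Nat)
    L2414
    L2415
    (Nat.ble 309120 i))
   (Nat.ble 308992 i))
  (Nat.ble 308736 i))
 (Nat.ble 308224 i))

/-- choice of a leaf -/
noncomputable def A0_151 (i : Nat) : Nat :=
 (Bool.rec (motive := fun _ => Nat)
 (Bool.rec (motive := fun _ => Nat)
  (Bool.rec (motive := fun _ => Nat)
   (Bool.rec (motive := fun _ => Nat)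
    L2416
    L2417
    (Nat.ble 309376 i))
   (Bool.rec (motive := fun _ => Nat)
    L2418
    L2419
    (Nat.ble 309632 i))
   (Nat.ble 309504 i))
  (Bool.rec (motive := fun _ => Nat)
   (Bool.rec (motive := fun _ => Nat)
    L2420
    L2421
    (Nat.ble 309888 i))
   (Bool.rec (motive := fun _ => Nat)
    L2422
    L2423
    (Nat.ble 310144 i))
   (Nat.ble 310016 i))
  (Nat.ble 309760 i))
 (Bool.rec (motive := fun _ => Nat)
  (Bool.rec (motive := fun _ => Nat)
   (Bool.rec (motive := fun _ => Nat)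
    L2424
    L2425
    (Nat.ble 310400 i))
   (Bool.rec (motive := fun _ => Nat)
    L2426
    L2427
    (Nat.ble 310656 i))
   (Nat.ble 310528 i))
  (Bool.rec (motive := fun _ => Nat)
   (Bool.rec (motive := fun _ => Nat)
    L2428
    L2429
    (Nat.ble 310912 i))
   (Bool.rec (motive := fun _ => Nat)
    L2430
    L2431
    (Nat.ble 311168 i))
   (Nat.ble 311040 i))
  (Nat.ble 310784 i))
 (Nat.ble 310272 i))

/-- choice of a leaf -/
noncomputable def A0_152 (i : Nat) : Nat :=
 (Bool.rec (motive := fun _ => Nat)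
 (Bool.rec (motive := fun _ => Nat)
  (Bool.rec (motive := fun _ => Nat)
   (Bool.rec (motive := fun _ => Nat)
    L2432
    L2433
    (Nat.ble 311424 i))
   (Bool.rec (motive := fun _ => Nat)
    L2434
    L2435
    (Nat.ble 311680 i))
   (Nat.ble 311552 i))
  (Bool.rec (motive := fun _ => Nat)
   (Bool.rec (motive := fun _ => Nat)
    L2436
    L2437
    (Nat.ble 311936 i))
   (Bool.rec (motive := fun _ => Nat)
    L2438
    L2439
    (Nat.ble 312192 i))
   (Nat.ble 312064 i))
  (Nat.ble 311808 i))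
 (Bool.rec (motive := fun _ => Nat)
  (Bool.rec (motive := fun _ => Nat)
   (Bool.rec (motive := fun _ => Nat)
    L2440
    L2441
    (Nat.ble 312448 i))
   (Bool.rec (motive := fun _ => Nat)
    L2442
    L2443
    (Nat.ble 312704 i))
   (Nat.ble 312576 i))
  (Bool.rec (motive := fun _ => Nat)
   (Bool.rec (motive := fun _ => Nat)
    L2444
    L2445
    (Nat.ble 312960 i))
   (Bool.rec (motive := fun _ => Nat)
    L2446
    L2447
    (Nat.ble 313216 i))
   (Nat.ble 313088 i))
  (Nat.ble 312832 i))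
 (Nat.ble 312320 i))

/-- choice of a leaf -/
noncomputable def A0_153 (i : Nat) : Nat :=
 (Bool.rec (motive := fun _ => Nat)
 (Bool.rec (motive := fun _ => Nat)
  (Bool.rec (motive := fun _ => Nat)
   (Bool.rec (motive := fun _ => Nat)
    L2448
    L2449
    (Nat.ble 313472 i))
   (Bool.rec (motive := fun _ => Nat)
    L2450
    L2451
    (Nat.ble 313728 i))
   (Nat.ble 313600 i))
  (Bool.rec (motive := fun _ => Nat)
   (Bool.rec (motive := fun _ => Nat)
    L2452
    L2453
    (Nat.ble 313984 i))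
   (Bool.rec (motive := fun _ => Nat)
    L2454
    L2455
    (Nat.ble 314240 i))
   (Nat.ble 314112 i))
  (Nat.ble 313856 i))
 (Bool.rec (motive := fun _ => Nat)
  (Bool.rec (motive := fun _ => Nat)
   (Bool.rec (motive := fun _ => Nat)
    L2456
    L2457
    (Nat.ble 314496 i))
   (Bool.rec (motive := fun _ => Nat)
    L2458
    L2459
    (Nat.ble 314752 i))
   (Nat.ble 314624 i))
  (Bool.rec (motive := fun _ => Nat)
   (Bool.rec (motive := fun _ => Nat)
    L2460
    L2461
    (Nat.ble 315008 i))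
   (Bool.rec (motive := fun _ => Nat)
    L2462
    L2463
    (Nat.ble 315264 i))
   (Nat.ble 315136 i))
  (Nat.ble 314880 i))
 (Nat.ble 314368 i))

/-- choice of a leaf -/
noncomputable def A0_154 (i : Nat) : Nat :=
 (Bool.rec (motive := fun _ => Nat)
 (Bool.rec (motive := fun _ => Nat)
  (Bool.rec (motive := fun _ => Nat)
   (Bool.rec (motive := fun _ => Nat)
    L2464
    L2465
    (Nat.ble 315520 i))
   (Bool.rec (motive := fun _ => Nat)
    L2466
    L2467
    (Nat.ble 315776 i))
   (Nat.ble 315648 i))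
  (Bool.rec (motive := fun _ => Nat)
   (Bool.rec (motive := fun _ => Nat)
    L2468
    L2469
    (Nat.ble 316032 i))
   (Bool.rec (motive := fun _ => Nat)
    L2470
    L2471
    (Nat.ble 316288 i))
   (Nat.ble 316160 i))
  (Nat.ble 315904 i))
 (Bool.rec (motive := fun _ => Nat)
  (Bool.rec (motive := fun _ => Nat)
   (Bool.rec (motive := fun _ => Nat)
    L2472
    L2473
    (Nat.ble 316544 i))
   (Bool.rec (motive := fun _ => Nat)
    L2474
    L2475
    (Nat.ble 316800 i))
   (Nat.ble 316672 i))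
  (Bool.rec (motive := fun _ => Nat)
   (Bool.rec (motive := fun _ => Nat)
    L2476
    L2477
    (Nat.ble 317056 i))
   (Bool.rec (motive := fun _ => Nat)
    L2478
    L2479
    (Nat.ble 317312 i))
   (Nat.ble 317184 i))
  (Nat.ble 316928 i))
 (Nat.ble 316416 i))

/-- choice of a leaf -/
noncomputable def A0_155 (i : Nat) : Nat :=
 (Bool.rec (motive := fun _ => Nat)
 (Bool.rec (motive := fun _ => Nat)
  (Bool.rec (motive := fun _ => Nat)
   (Bool.rec (motive := fun _ => Nat)
    L2480
    L2481
    (Nat.ble 317568 i))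
   (Bool.rec (motive := fun _ => Nat)
    L2482
    L2483
    (Nat.ble 317824 i))
   (Nat.ble 317696 i))
  (Bool.rec (motive := fun _ => Nat)
   (Bool.rec (motive := fun _ => Nat)
    L2484
    L2485
    (Nat.ble 318080 i))
   (Bool.rec (motive := fun _ => Nat)
    L2486
    L2487
    (Nat.ble 318336 i))
   (Nat.ble 318208 i))
  (Nat.ble 317952 i))
 (Bool.rec (motive := fun _ => Nat)
  (Bool.rec (motive := fun _ => Nat)
   (Bool.rec (motive := fun _ => Nat)
    L2488
    L2489
    (Nat.ble 318592 i))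
   (Bool.rec (motive := fun _ => Nat)
    L2490
    L2491
    (Nat.ble 318848 i))
   (Nat.ble 318720 i))
  (Bool.rec (motive := fun _ => Nat)
   (Bool.rec (motive := fun _ => Nat)
    L2492
    L2493
    (Nat.ble 319104 i))
   (Bool.rec (motive := fun _ => Nat)
    L2494
    L2495
    (Nat.ble 319360 i))
   (Nat.ble 319232 i))
  (Nat.ble 318976 i))
 (Nat.ble 318464 i))

/-- choice of a leaf -/
noncomputable def A0_156 (i : Nat) : Nat :=
 (Bool.rec (motive := fun _ => Nat)
 (Bool.rec (motive := fun _ => Nat)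
  (Bool.rec (motive := fun _ => Nat)
   (Bool.rec (motive := fun _ => Nat)
    L2496
    L2497
    (Nat.ble 319616 i))
   (Bool.rec (motive := fun _ => Nat)
    L2498
    L2499
    (Nat.ble 319872 i))
   (Nat.ble 319744 i))
  (Bool.rec (motive := fun _ => Nat)
   (Bool.rec (motive := fun _ => Nat)
    L2500
    L2501
    (Nat.ble 320128 i))
   (Bool.rec (motive := fun _ => Nat)
    L2502
    L2503
    (Nat.ble 320384 i))
   (Nat.ble 320256 i))
  (Nat.ble 320000 i))
 (Bool.rec (motive := fun _ => Nat)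
  (Bool.rec (motive := fun _ => Nat)
   (Bool.rec (motive := fun _ => Nat)
    L2504
    L2505
    (Nat.ble 320640 i))
   (Bool.rec (motive := fun _ => Nat)
    L2506
    L2507
    (Nat.ble 320896 i))
   (Nat.ble 320768 i))
  (Bool.rec (motive := fun _ => Nat)
   (Bool.rec (motive := fun _ => Nat)
    L2508
    L2509
    (Nat.ble 321152 i))
   (Bool.rec (motive := fun _ => Nat)
    L2510
    L2511
    (Nat.ble 321408 i))
   (Nat.ble 321280 i))
  (Nat.ble 321024 i))
 (Nat.ble 320512 i))

/-- choice of a leaf -/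
noncomputable def A0_157 (i : Nat) : Nat :=
 (Bool.rec (motive := fun _ => Nat)
 (Bool.rec (motive := fun _ => Nat)
  (Bool.rec (motive := fun _ => Nat)
   (Bool.rec (motive := fun _ => Nat)
    L2512
    L2513
    (Nat.ble 321664 i))
   (Bool.rec (motive := fun _ => Nat)
    L2514
    L2515
    (Nat.ble 321920 i))
   (Nat.ble 321792 i))
  (Bool.rec (motive := fun _ => Nat)
   (Bool.rec (motive := fun _ => Nat)
    L2516
    L2517
    (Nat.ble 322176 i))
   (Bool.rec (motive := fun _ => Nat)
    L2518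
    L2519
    (Nat.ble 322432 i))
   (Nat.ble 322304 i))
  (Nat.ble 322048 i))
 (Bool.rec (motive := fun _ => Nat)
  (Bool.rec (motive := fun _ => Nat)
   (Bool.rec (motive := fun _ => Nat)
    L2520
    L2521
    (Nat.ble 322688 i))
   (Bool.rec (motive := fun _ => Nat)
    L2522
    L2523
    (Nat.ble 322944 i))
   (Nat.ble 322816 i))
  (Bool.rec (motive := fun _ => Nat)
   (Bool.rec (motive := fun _ => Nat)
    L2524
    L2525
    (Nat.ble 323200 i))
   (Bool.rec (motive := fun _ => Nat)
    L2526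
    L2527
    (Nat.ble 323456 i))
   (Nat.ble 323328 i))
  (Nat.ble 323072 i))
 (Nat.ble 322560 i))

/-- choice of a leaf -/
noncomputable def A0_158 (i : Nat) : Nat :=
 (Bool.rec (motive := fun _ => Nat)
 (Bool.rec (motive := fun _ => Nat)
  (Bool.rec (motive := fun _ => Nat)
   (Bool.rec (motive := fun _ => Nat)
    L2528
    L2529
    (Nat.ble 323712 i))
   (Bool.rec (motive := fun _ => Nat)
    L2530
    L2531
    (Nat.ble 323968 i))
   (Nat.ble 323840 i))
  (Bool.rec (motive := fun _ => Nat)
   (Bool.rec (motive := fun _ => Nat)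
    L2532
    L2533
    (Nat.ble 324224 i))
   (Bool.rec (motive := fun _ => Nat)
    L2534
    L2535
    (Nat.ble 324480 i))
   (Nat.ble 324352 i))
  (Nat.ble 324096 i))
 (Bool.rec (motive := fun _ => Nat)
  (Bool.rec (motive := fun _ => Nat)
   (Bool.rec (motive := fun _ => Nat)
    L2536
    L2537
    (Nat.ble 324736 i))
   (Bool.rec (motive := fun _ => Nat)
    L2538
    L2539
    (Nat.ble 324992 i))
   (Nat.ble 324864 i))
  (Bool.rec (motive := fun _ => Nat)
   (Bool.rec (motive := fun _ => Nat)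
    L2540
    L2541
    (Nat.ble 325248 i))
   (Bool.rec (motive := fun _ => Nat)
    L2542
    L2543
    (Nat.ble 325504 i))
   (Nat.ble 325376 i))
  (Nat.ble 325120 i))
 (Nat.ble 324608 i))

/-- choice of a leaf -/
noncomputable def A0_159 (i : Nat) : Nat :=
 (Bool.rec (motive := fun _ => Nat)
 (Bool.rec (motive := fun _ => Nat)
  (Bool.rec (motive := fun _ => Nat)
   (Bool.rec (motive := fun _ => Nat)
    L2544
    L2545
    (Nat.ble 325760 i))
   (Bool.rec (motive := fun _ => Nat)
    L2546
    L2547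
    (Nat.ble 326016 i))
   (Nat.ble 325888 i))
  (Bool.rec (motive := fun _ => Nat)
   (Bool.rec (motive := fun _ => Nat)
    L2548
    L2549
    (Nat.ble 326272 i))
   (Bool.rec (motive := fun _ => Nat)
    L2550
    L2551
    (Nat.ble 326528 i))
   (Nat.ble 326400 i))
  (Nat.ble 326144 i))
 (Bool.rec (motive := fun _ => Nat)
  (Bool.rec (motive := fun _ => Nat)
   (Bool.rec (motive := fun _ => Nat)
    L2552
    L2553
    (Nat.ble 326784 i))
   (Bool.rec (motive := fun _ => Nat)
    L2554
    L2555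
    (Nat.ble 327040 i))
   (Nat.ble 326912 i))
  (Bool.rec (motive := fun _ => Nat)
   (Bool.rec (motive := fun _ => Nat)
    L2556
    L2557
    (Nat.ble 327296 i))
   (Bool.rec (motive := fun _ => Nat)
    L2558
    L2559
    (Nat.ble 327552 i))
   (Nat.ble 327424 i))
  (Nat.ble 327168 i))
 (Nat.ble 326656 i))

/-- choice of a leaf -/
noncomputable def A0_160 (i : Nat) : Nat :=
 (Bool.rec (motive := fun _ => Nat)
 (Bool.rec (motive := fun _ => Nat)
  (Bool.rec (motive := fun _ => Nat)
   (Bool.rec (motive := fun _ => Nat)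
    L2560
    L2561
    (Nat.ble 327808 i))
   (Bool.rec (motive := fun _ => Nat)
    L2562
    L2563
    (Nat.ble 328064 i))
   (Nat.ble 327936 i))
  (Bool.rec (motive := fun _ => Nat)
   (Bool.rec (motive := fun _ => Nat)
    L2564
    L2565
    (Nat.ble 328320 i))
   (Bool.rec (motive := fun _ => Nat)
    L2566
    L2567
    (Nat.ble 328576 i))
   (Nat.ble 328448 i))
  (Nat.ble 328192 i))
 (Bool.rec (motive := fun _ => Nat)
  (Bool.rec (motive := fun _ => Nat)
   (Bool.rec (motive := fun _ => Nat)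
    L2568
    L2569
    (Nat.ble 328832 i))
   (Bool.rec (motive := fun _ => Nat)
    L2570
    L2571
    (Nat.ble 329088 i))
   (Nat.ble 328960 i))
  (Bool.rec (motive := fun _ => Nat)
   (Bool.rec (motive := fun _ => Nat)
    L2572
    L2573
    (Nat.ble 329344 i))
   (Bool.rec (motive := fun _ => Nat)
    L2574
    L2575
    (Nat.ble 329600 i))
   (Nat.ble 329472 i))
  (Nat.ble 329216 i))
 (Nat.ble 328704 i))

/-- choice of a leaf -/
noncomputable def A0_161 (i : Nat) : Nat :=
 (Bool.rec (motive := fun _ => Nat)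
 (Bool.rec (motive := fun _ => Nat)
  (Bool.rec (motive := fun _ => Nat)
   (Bool.rec (motive := fun _ => Nat)
    L2576
    L2577
    (Nat.ble 329856 i))
   (Bool.rec (motive := fun _ => Nat)
    L2578
    L2579
    (Nat.ble 330112 i))
   (Nat.ble 329984 i))
  (Bool.rec (motive := fun _ => Nat)
   (Bool.rec (motive := fun _ => Nat)
    L2580
    L2581
    (Nat.ble 330368 i))
   (Bool.rec (motive := fun _ => Nat)
    L2582
    L2583
    (Nat.ble 330624 i))
   (Nat.ble 330496 i))
  (Nat.ble 330240 i))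
 (Bool.rec (motive := fun _ => Nat)
  (Bool.rec (motive := fun _ => Nat)
   (Bool.rec (motive := fun _ => Nat)
    L2584
    L2585
    (Nat.ble 330880 i))
   (Bool.rec (motive := fun _ => Nat)
    L2586
    L2587
    (Nat.ble 331136 i))
   (Nat.ble 331008 i))
  (Bool.rec (motive := fun _ => Nat)
   (Bool.rec (motive := fun _ => Nat)
    L2588
    L2589
    (Nat.ble 331392 i))
   (Bool.rec (motive := fun _ => Nat)
    L2590
    L2591
    (Nat.ble 331648 i))
   (Nat.ble 331520 i))
  (Nat.ble 331264 i))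
 (Nat.ble 330752 i))

/-- choice of a leaf -/
noncomputable def A0_162 (i : Nat) : Nat :=
 (Bool.rec (motive := fun _ => Nat)
 (Bool.rec (motive := fun _ => Nat)
  (Bool.rec (motive := fun _ => Nat)
   (Bool.rec (motive := fun _ => Nat)
    L2592
    L2593
    (Nat.ble 331904 i))
   (Bool.rec (motive := fun _ => Nat)
    L2594
    L2595
    (Nat.ble 332160 i))
   (Nat.ble 332032 i))
  (Bool.rec (motive := fun _ => Nat)
   (Bool.rec (motive := fun _ => Nat)
    L2596
    L2597
    (Nat.ble 332416 i))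
   (Bool.rec (motive := fun _ => Nat)
    L2598
    L2599
    (Nat.ble 332672 i))
   (Nat.ble 332544 i))
  (Nat.ble 332288 i))
 (Bool.rec (motive := fun _ => Nat)
  (Bool.rec (motive := fun _ => Nat)
   (Bool.rec (motive := fun _ => Nat)
    L2600
    L2601
    (Nat.ble 332928 i))
   (Bool.rec (motive := fun _ => Nat)
    L2602
    L2603
    (Nat.ble 333184 i))
   (Nat.ble 333056 i))
  (Bool.rec (motive := fun _ => Nat)
   (Bool.rec (motive := fun _ => Nat)
    L2604
    L2605
    (Nat.ble 333440 i))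
   (Bool.rec (motive := fun _ => Nat)
    L2606
    L2607
    (Nat.ble 333696 i))
   (Nat.ble 333568 i))
  (Nat.ble 333312 i))
 (Nat.ble 332800 i))

/-- choice of a leaf -/
noncomputable def A0_163 (i : Nat) : Nat :=
 (Bool.rec (motive := fun _ => Nat)
 (Bool.rec (motive := fun _ => Nat)
  (Bool.rec (motive := fun _ => Nat)
   (Bool.rec (motive := fun _ => Nat)
    L2608
    L2609
    (Nat.ble 333952 i))
   (Bool.rec (motive := fun _ => Nat)
    L2610
    L2611
    (Nat.ble 334208 i))
   (Nat.ble 334080 i))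
  (Bool.rec (motive := fun _ => Nat)
   (Bool.rec (motive := fun _ => Nat)
    L2612
    L2613
    (Nat.ble 334464 i))
   (Bool.rec (motive := fun _ => Nat)
    L2614
    L2615
    (Nat.ble 334720 i))
   (Nat.ble 334592 i))
  (Nat.ble 334336 i))
 (Bool.rec (motive := fun _ => Nat)
  (Bool.rec (motive := fun _ => Nat)
   (Bool.rec (motive := fun _ => Nat)
    L2616
    L2617
    (Nat.ble 334976 i))
   (Bool.rec (motive := fun _ => Nat)
    L2618
    L2619
    (Nat.ble 335232 i))
   (Nat.ble 335104 i))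
  (Bool.rec (motive := fun _ => Nat)
   (Bool.rec (motive := fun _ => Nat)
    L2620
    L2621
    (Nat.ble 335488 i))
   (Bool.rec (motive := fun _ => Nat)
    L2622
    L2623
    (Nat.ble 335744 i))
   (Nat.ble 335616 i))
  (Nat.ble 335360 i))
 (Nat.ble 334848 i))

/-- choice of a leaf -/
noncomputable def A0_164 (i : Nat) : Nat :=
 (Bool.rec (motive := fun _ => Nat)
 (Bool.rec (motive := fun _ => Nat)
  (Bool.rec (motive := fun _ => Nat)
   (Bool.rec (motive := fun _ => Nat)
    L2624
    L2625
    (Nat.ble 336000 i))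
   (Bool.rec (motive := fun _ => Nat)
    L2626
    L2627
    (Nat.ble 336256 i))
   (Nat.ble 336128 i))
  (Bool.rec (motive := fun _ => Nat)
   (Bool.rec (motive := fun _ => Nat)
    L2628
    L2629
    (Nat.ble 336512 i))
   (Bool.rec (motive := fun _ => Nat)
    L2630
    L2631
    (Nat.ble 336768 i))
   (Nat.ble 336640 i))
  (Nat.ble 336384 i))
 (Bool.rec (motive := fun _ => Nat)
  (Bool.rec (motive := fun _ => Nat)
   (Bool.rec (motive := fun _ => Nat)
    L2632
    L2633
    (Nat.ble 337024 i))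
   (Bool.rec (motive := fun _ => Nat)
    L2634
    L2635
    (Nat.ble 337280 i))
   (Nat.ble 337152 i))
  (Bool.rec (motive := fun _ => Nat)
   (Bool.rec (motive := fun _ => Nat)
    L2636
    L2637
    (Nat.ble 337536 i))
   (Bool.rec (motive := fun _ => Nat)
    L2638
    L2639
    (Nat.ble 337792 i))
   (Nat.ble 337664 i))
  (Nat.ble 337408 i))
 (Nat.ble 336896 i))

/-- choice of a leaf -/
noncomputable def A0_165 (i : Nat) : Nat :=
 (Bool.rec (motive := fun _ => Nat)
 (Bool.rec (motive := fun _ => Nat)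
  (Bool.rec (motive := fun _ => Nat)
   (Bool.rec (motive := fun _ => Nat)
    L2640
    L2641
    (Nat.ble 338048 i))
   (Bool.rec (motive := fun _ => Nat)
    L2642
    L2643
    (Nat.ble 338304 i))
   (Nat.ble 338176 i))
  (Bool.rec (motive := fun _ => Nat)
   (Bool.rec (motive := fun _ => Nat)
    L2644
    L2645
    (Nat.ble 338560 i))
   (Bool.rec (motive := fun _ => Nat)
    L2646
    L2647
    (Nat.ble 338816 i))
   (Nat.ble 338688 i))
  (Nat.ble 338432 i))
 (Bool.rec (motive := fun _ => Nat)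
  (Bool.rec (motive := fun _ => Nat)
   (Bool.rec (motive := fun _ => Nat)
    L2648
    L2649
    (Nat.ble 339072 i))
   (Bool.rec (motive := fun _ => Nat)
    L2650
    L2651
    (Nat.ble 339328 i))
   (Nat.ble 339200 i))
  (Bool.rec (motive := fun _ => Nat)
   (Bool.rec (motive := fun _ => Nat)
    L2652
    L2653
    (Nat.ble 339584 i))
   (Bool.rec (motive := fun _ => Nat)
    L2654
    L2655
    (Nat.ble 339840 i))
   (Nat.ble 339712 i))
  (Nat.ble 339456 i))
 (Nat.ble 338944 i))

/-- choice of a leaf -/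
noncomputable def A0_166 (i : Nat) : Nat :=
 (Bool.rec (motive := fun _ => Nat)
 (Bool.rec (motive := fun _ => Nat)
  (Bool.rec (motive := fun _ => Nat)
   (Bool.rec (motive := fun _ => Nat)
    L2656
    L2657
    (Nat.ble 340096 i))
   (Bool.rec (motive := fun _ => Nat)
    L2658
    L2659
    (Nat.ble 340352 i))
   (Nat.ble 340224 i))
  (Bool.rec (motive := fun _ => Nat)
   (Bool.rec (motive := fun _ => Nat)
    L2660
    L2661
    (Nat.ble 340608 i))
   (Bool.rec (motive := fun _ => Nat)
    L2662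
    L2663
    (Nat.ble 340864 i))
   (Nat.ble 340736 i))
  (Nat.ble 340480 i))
 (Bool.rec (motive := fun _ => Nat)
  (Bool.rec (motive := fun _ => Nat)
   (Bool.rec (motive := fun _ => Nat)
    L2664
    L2665
    (Nat.ble 341120 i))
   (Bool.rec (motive := fun _ => Nat)
    L2666
    L2667
    (Nat.ble 341376 i))
   (Nat.ble 341248 i))
  (Bool.rec (motive := fun _ => Nat)
   (Bool.rec (motive := fun _ => Nat)
    L2668
    L2669
    (Nat.ble 341632 i))
   (Bool.rec (motive := fun _ => Nat)
    L2670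
    L2671
    (Nat.ble 341888 i))
   (Nat.ble 341760 i))
  (Nat.ble 341504 i))
 (Nat.ble 340992 i))

/-- choice of a leaf -/
noncomputable def A0_167 (i : Nat) : Nat :=
 (Bool.rec (motive := fun _ => Nat)
 (Bool.rec (motive := fun _ => Nat)
  (Bool.rec (motive := fun _ => Nat)
   (Bool.rec (motive := fun _ => Nat)
    L2672
    L2673
    (Nat.ble 342144 i))
   (Bool.rec (motive := fun _ => Nat)
    L2674
    L2675
    (Nat.ble 342400 i))
   (Nat.ble 342272 i))
  (Bool.rec (motive := fun _ => Nat)
   (Bool.rec (motive := fun _ => Nat)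
    L2676
    L2677
    (Nat.ble 342656 i))
   (Bool.rec (motive := fun _ => Nat)
    L2678
    L2679
    (Nat.ble 342912 i))
   (Nat.ble 342784 i))
  (Nat.ble 342528 i))
 (Bool.rec (motive := fun _ => Nat)
  (Bool.rec (motive := fun _ => Nat)
   (Bool.rec (motive := fun _ => Nat)
    L2680
    L2681
    (Nat.ble 343168 i))
   (Bool.rec (motive := fun _ => Nat)
    L2682
    L2683
    (Nat.ble 343424 i))
   (Nat.ble 343296 i))
  (Bool.rec (motive := fun _ => Nat)
   (Bool.rec (motive := fun _ => Nat)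
    L2684
    L2685
    (Nat.ble 343680 i))
   (Bool.rec (motive := fun _ => Nat)
    L2686
    L2687
    (Nat.ble 343936 i))
   (Nat.ble 343808 i))
  (Nat.ble 343552 i))
 (Nat.ble 343040 i))

/-- choice of a leaf -/
noncomputable def A0_168 (i : Nat) : Nat :=
 (Bool.rec (motive := fun _ => Nat)
 (Bool.rec (motive := fun _ => Nat)
  (Bool.rec (motive := fun _ => Nat)
   (Bool.rec (motive := fun _ => Nat)
    L2688
    L2689
    (Nat.ble 344192 i))
   (Bool.rec (motive := fun _ => Nat)
    L2690
    L2691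
    (Nat.ble 344448 i))
   (Nat.ble 344320 i))
  (Bool.rec (motive := fun _ => Nat)
   (Bool.rec (motive := fun _ => Nat)
    L2692
    L2693
    (Nat.ble 344704 i))
   (Bool.rec (motive := fun _ => Nat)
    L2694
    L2695
    (Nat.ble 344960 i))
   (Nat.ble 344832 i))
  (Nat.ble 344576 i))
 (Bool.rec (motive := fun _ => Nat)
  (Bool.rec (motive := fun _ => Nat)
   (Bool.rec (motive := fun _ => Nat)
    L2696
    L2697
    (Nat.ble 345216 i))
   (Bool.rec (motive := fun _ => Nat)
    L2698
    L2699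
    (Nat.ble 345472 i))
   (Nat.ble 345344 i))
  (Bool.rec (motive := fun _ => Nat)
   (Bool.rec (motive := fun _ => Nat)
    L2700
    L2701
    (Nat.ble 345728 i))
   (Bool.rec (motive := fun _ => Nat)
    L2702
    L2703
    (Nat.ble 345984 i))
   (Nat.ble 345856 i))
  (Nat.ble 345600 i))
 (Nat.ble 345088 i))

/-- choice of a leaf -/
noncomputable def A0_169 (i : Nat) : Nat :=
 (Bool.rec (motive := fun _ => Nat)
 (Bool.rec (motive := fun _ => Nat)
  (Bool.rec (motive := fun _ => Nat)
   (Bool.rec (motive := fun _ => Nat)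
    L2704
    L2705
    (Nat.ble 346240 i))
   (Bool.rec (motive := fun _ => Nat)
    L2706
    L2707
    (Nat.ble 346496 i))
   (Nat.ble 346368 i))
  (Bool.rec (motive := fun _ => Nat)
   (Bool.rec (motive := fun _ => Nat)
    L2708
    L2709
    (Nat.ble 346752 i))
   (Bool.rec (motive := fun _ => Nat)
    L2710
    L2711
    (Nat.ble 347008 i))
   (Nat.ble 346880 i))
  (Nat.ble 346624 i))
 (Bool.rec (motive := fun _ => Nat)
  (Bool.rec (motive := fun _ => Nat)
   (Bool.rec (motive := fun _ => Nat)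
    L2712
    L2713
    (Nat.ble 347264 i))
   (Bool.rec (motive := fun _ => Nat)
    L2714
    L2715
    (Nat.ble 347520 i))
   (Nat.ble 347392 i))
  (Bool.rec (motive := fun _ => Nat)
   (Bool.rec (motive := fun _ => Nat)
    L2716
    L2717
    (Nat.ble 347776 i))
   (Bool.rec (motive := fun _ => Nat)
    L2718
    L2719
    (Nat.ble 348032 i))
   (Nat.ble 347904 i))
  (Nat.ble 347648 i))
 (Nat.ble 347136 i))

/-- choice of a leaf -/
noncomputable def A0_170 (i : Nat) : Nat :=
 (Bool.rec (motive := fun _ => Nat)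
 (Bool.rec (motive := fun _ => Nat)
  (Bool.rec (motive := fun _ => Nat)
   (Bool.rec (motive := fun _ => Nat)
    L2720
    L2721
    (Nat.ble 348288 i))
   (Bool.rec (motive := fun _ => Nat)
    L2722
    L2723
    (Nat.ble 348544 i))
   (Nat.ble 348416 i))
  (Bool.rec (motive := fun _ => Nat)
   (Bool.rec (motive := fun _ => Nat)
    L2724
    L2725
    (Nat.ble 348800 i))
   (Bool.rec (motive := fun _ => Nat)
    L2726
    L2727
    (Nat.ble 349056 i))
   (Nat.ble 348928 i))
  (Nat.ble 348672 i))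
 (Bool.rec (motive := fun _ => Nat)
  (Bool.rec (motive := fun _ => Nat)
   (Bool.rec (motive := fun _ => Nat)
    L2728
    L2729
    (Nat.ble 349312 i))
   (Bool.rec (motive := fun _ => Nat)
    L2730
    L2731
    (Nat.ble 349568 i))
   (Nat.ble 349440 i))
  (Bool.rec (motive := fun _ => Nat)
   (Bool.rec (motive := fun _ => Nat)
    L2732
    L2733
    (Nat.ble 349824 i))
   (Bool.rec (motive := fun _ => Nat)
    L2734
    L2735
    (Nat.ble 350080 i))
   (Nat.ble 349952 i))
  (Nat.ble 349696 i))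
 (Nat.ble 349184 i))

/-- choice of a leaf -/
noncomputable def A0_171 (i : Nat) : Nat :=
 (Bool.rec (motive := fun _ => Nat)
 (Bool.rec (motive := fun _ => Nat)
  (Bool.rec (motive := fun _ => Nat)
   (Bool.rec (motive := fun _ => Nat)
    L2736
    L2737
    (Nat.ble 350336 i))
   (Bool.rec (motive := fun _ => Nat)
    L2738
    L2739
    (Nat.ble 350592 i))
   (Nat.ble 350464 i))
  (Bool.rec (motive := fun _ => Nat)
   (Bool.rec (motive := fun _ => Nat)
    L2740
    L2741
    (Nat.ble 350848 i))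
   (Bool.rec (motive := fun _ => Nat)
    L2742
    L2743
    (Nat.ble 351104 i))
   (Nat.ble 350976 i))
  (Nat.ble 350720 i))
 (Bool.rec (motive := fun _ => Nat)
  (Bool.rec (motive := fun _ => Nat)
   (Bool.rec (motive := fun _ => Nat)
    L2744
    L2745
    (Nat.ble 351360 i))
   (Bool.rec (motive := fun _ => Nat)
    L2746
    L2747
    (Nat.ble 351616 i))
   (Nat.ble 351488 i))
  (Bool.rec (motive := fun _ => Nat)
   (Bool.rec (motive := fun _ => Nat)
    L2748
    L2749
    (Nat.ble 351872 i))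
   (Bool.rec (motive := fun _ => Nat)
    L2750
    L2751
    (Nat.ble 352128 i))
   (Nat.ble 352000 i))
  (Nat.ble 351744 i))
 (Nat.ble 351232 i))

/-- choice of a leaf -/
noncomputable def A0_172 (i : Nat) : Nat :=
 (Bool.rec (motive := fun _ => Nat)
 (Bool.rec (motive := fun _ => Nat)
  (Bool.rec (motive := fun _ => Nat)
   (Bool.rec (motive := fun _ => Nat)
    L2752
    L2753
    (Nat.ble 352384 i))
   (Bool.rec (motive := fun _ => Nat)
    L2754
    L2755
    (Nat.ble 352640 i))
   (Nat.ble 352512 i))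
  (Bool.rec (motive := fun _ => Nat)
   (Bool.rec (motive := fun _ => Nat)
    L2756
    L2757
    (Nat.ble 352896 i))
   (Bool.rec (motive := fun _ => Nat)
    L2758
    L2759
    (Nat.ble 353152 i))
   (Nat.ble 353024 i))
  (Nat.ble 352768 i))
 (Bool.rec (motive := fun _ => Nat)
  (Bool.rec (motive := fun _ => Nat)
   (Bool.rec (motive := fun _ => Nat)
    L2760
    L2761
    (Nat.ble 353408 i))
   (Bool.rec (motive := fun _ => Nat)
    L2762
    L2763
    (Nat.ble 353664 i))
   (Nat.ble 353536 i))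
  (Bool.rec (motive := fun _ => Nat)
   (Bool.rec (motive := fun _ => Nat)
    L2764
    L2765
    (Nat.ble 353920 i))
   (Bool.rec (motive := fun _ => Nat)
    L2766
    L2767
    (Nat.ble 354176 i))
   (Nat.ble 354048 i))
  (Nat.ble 353792 i))
 (Nat.ble 353280 i))

/-- choice of a leaf -/
noncomputable def A0_173 (i : Nat) : Nat :=
 (Bool.rec (motive := fun _ => Nat)
 (Bool.rec (motive := fun _ => Nat)
  (Bool.rec (motive := fun _ => Nat)
   (Bool.rec (motive := fun _ => Nat)
    L2768
    L2769
    (Nat.ble 354432 i))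
   (Bool.rec (motive := fun _ => Nat)
    L2770
    L2771
    (Nat.ble 354688 i))
   (Nat.ble 354560 i))
  (Bool.rec (motive := fun _ => Nat)
   (Bool.rec (motive := fun _ => Nat)
    L2772
    L2773
    (Nat.ble 354944 i))
   (Bool.rec (motive := fun _ => Nat)
    L2774
    L2775
    (Nat.ble 355200 i))
   (Nat.ble 355072 i))
  (Nat.ble 354816 i))
 (Bool.rec (motive := fun _ => Nat)
  (Bool.rec (motive := fun _ => Nat)
   (Bool.rec (motive := fun _ => Nat)
    L2776
    L2777
    (Nat.ble 355456 i))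
   (Bool.rec (motive := fun _ => Nat)
    L2778
    L2779
    (Nat.ble 355712 i))
   (Nat.ble 355584 i))
  (Bool.rec (motive := fun _ => Nat)
   (Bool.rec (motive := fun _ => Nat)
    L2780
    L2781
    (Nat.ble 355968 i))
   (Bool.rec (motive := fun _ => Nat)
    L2782
    L2783
    (Nat.ble 356224 i))
   (Nat.ble 356096 i))
  (Nat.ble 355840 i))
 (Nat.ble 355328 i))

/-- choice of a leaf -/
noncomputable def A0_174 (i : Nat) : Nat :=
 (Bool.rec (motive := fun _ => Nat)
 (Bool.rec (motive := fun _ => Nat)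
  (Bool.rec (motive := fun _ => Nat)
   (Bool.rec (motive := fun _ => Nat)
    L2784
    L2785
    (Nat.ble 356480 i))
   (Bool.rec (motive := fun _ => Nat)
    L2786
    L2787
    (Nat.ble 356736 i))
   (Nat.ble 356608 i))
  (Bool.rec (motive := fun _ => Nat)
   (Bool.rec (motive := fun _ => Nat)
    L2788
    L2789
    (Nat.ble 356992 i))
   (Bool.rec (motive := fun _ => Nat)
    L2790
    L2791
    (Nat.ble 357248 i))
   (Nat.ble 357120 i))
  (Nat.ble 356864 i))
 (Bool.rec (motive := fun _ => Nat)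
  (Bool.rec (motive := fun _ => Nat)
   (Bool.rec (motive := fun _ => Nat)
    L2792
    L2793
    (Nat.ble 357504 i))
   (Bool.rec (motive := fun _ => Nat)
    L2794
    L2795
    (Nat.ble 357760 i))
   (Nat.ble 357632 i))
  (Bool.rec (motive := fun _ => Nat)
   (Bool.rec (motive := fun _ => Nat)
    L2796
    L2797
    (Nat.ble 358016 i))
   (Bool.rec (motive := fun _ => Nat)
    L2798
    L2799
    (Nat.ble 358272 i))
   (Nat.ble 358144 i))
  (Nat.ble 357888 i))
 (Nat.ble 357376 i))

/-- choice of a leaf -/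
noncomputable def A0_175 (i : Nat) : Nat :=
 (Bool.rec (motive := fun _ => Nat)
 (Bool.rec (motive := fun _ => Nat)
  (Bool.rec (motive := fun _ => Nat)
   (Bool.rec (motive := fun _ => Nat)
    L2800
    L2801
    (Nat.ble 358528 i))
   (Bool.rec (motive := fun _ => Nat)
    L2802
    L2803
    (Nat.ble 358784 i))
   (Nat.ble 358656 i))
  (Bool.rec (motive := fun _ => Nat)
   (Bool.rec (motive := fun _ => Nat)
    L2804
    L2805
    (Nat.ble 359040 i))
   (Bool.rec (motive := fun _ => Nat)
    L2806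
    L2807
    (Nat.ble 359296 i))
   (Nat.ble 359168 i))
  (Nat.ble 358912 i))
 (Bool.rec (motive := fun _ => Nat)
  (Bool.rec (motive := fun _ => Nat)
   (Bool.rec (motive := fun _ => Nat)
    L2808
    L2809
    (Nat.ble 359552 i))
   (Bool.rec (motive := fun _ => Nat)
    L2810
    L2811
    (Nat.ble 359808 i))
   (Nat.ble 359680 i))
  (Bool.rec (motive := fun _ => Nat)
   (Bool.rec (motive := fun _ => Nat)
    L2812
    L2813
    (Nat.ble 360064 i))
   (Bool.rec (motive := fun _ => Nat)
    L2814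
    L2815
    (Nat.ble 360320 i))
   (Nat.ble 360192 i))
  (Nat.ble 359936 i))
 (Nat.ble 359424 i))

/-- choice of a leaf -/
noncomputable def A0_176 (i : Nat) : Nat :=
 (Bool.rec (motive := fun _ => Nat)
 (Bool.rec (motive := fun _ => Nat)
  (Bool.rec (motive := fun _ => Nat)
   (Bool.rec (motive := fun _ => Nat)
    L2816
    L2817
    (Nat.ble 360576 i))
   (Bool.rec (motive := fun _ => Nat)
    L2818
    L2819
    (Nat.ble 360832 i))
   (Nat.ble 360704 i))
  (Bool.rec (motive := fun _ => Nat)
   (Bool.rec (motive := fun _ => Nat)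
    L2820
    L2821
    (Nat.ble 361088 i))
   (Bool.rec (motive := fun _ => Nat)
    L2822
    L2823
    (Nat.ble 361344 i))
   (Nat.ble 361216 i))
  (Nat.ble 360960 i))
 (Bool.rec (motive := fun _ => Nat)
  (Bool.rec (motive := fun _ => Nat)
   (Bool.rec (motive := fun _ => Nat)
    L2824
    L2825
    (Nat.ble 361600 i))
   (Bool.rec (motive := fun _ => Nat)
    L2826
    L2827
    (Nat.ble 361856 i))
   (Nat.ble 361728 i))
  (Bool.rec (motive := fun _ => Nat)
   (Bool.rec (motive := fun _ => Nat)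
    L2828
    L2829
    (Nat.ble 362112 i))
   (Bool.rec (motive := fun _ => Nat)
    L2830
    L2831
    (Nat.ble 362368 i))
   (Nat.ble 362240 i))
  (Nat.ble 361984 i))
 (Nat.ble 361472 i))

/-- choice of a leaf -/
noncomputable def A0_177 (i : Nat) : Nat :=
 (Bool.rec (motive := fun _ => Nat)
 (Bool.rec (motive := fun _ => Nat)
  (Bool.rec (motive := fun _ => Nat)
   (Bool.rec (motive := fun _ => Nat)
    L2832
    L2833
    (Nat.ble 362624 i))
   (Bool.rec (motive := fun _ => Nat)
    L2834
    L2835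
    (Nat.ble 362880 i))
   (Nat.ble 362752 i))
  (Bool.rec (motive := fun _ => Nat)
   (Bool.rec (motive := fun _ => Nat)
    L2836
    L2837
    (Nat.ble 363136 i))
   (Bool.rec (motive := fun _ => Nat)
    L2838
    L2839
    (Nat.ble 363392 i))
   (Nat.ble 363264 i))
  (Nat.ble 363008 i))
 (Bool.rec (motive := fun _ => Nat)
  (Bool.rec (motive := fun _ => Nat)
   (Bool.rec (motive := fun _ => Nat)
    L2840
    L2841
    (Nat.ble 363648 i))
   (Bool.rec (motive := fun _ => Nat)
    L2842
    L2843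
    (Nat.ble 363904 i))
   (Nat.ble 363776 i))
  (Bool.rec (motive := fun _ => Nat)
   (Bool.rec (motive := fun _ => Nat)
    L2844
    L2845
    (Nat.ble 364160 i))
   (Bool.rec (motive := fun _ => Nat)
    L2846
    L2847
    (Nat.ble 364416 i))
   (Nat.ble 364288 i))
  (Nat.ble 364032 i))
 (Nat.ble 363520 i))

/-- choice of a leaf -/
noncomputable def A0_178 (i : Nat) : Nat :=
 (Bool.rec (motive := fun _ => Nat)
 (Bool.rec (motive := fun _ => Nat)
  (Bool.rec (motive := fun _ => Nat)
   (Bool.rec (motive := fun _ => Nat)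
    L2848
    L2849
    (Nat.ble 364672 i))
   (Bool.rec (motive := fun _ => Nat)
    L2850
    L2851
    (Nat.ble 364928 i))
   (Nat.ble 364800 i))
  (Bool.rec (motive := fun _ => Nat)
   (Bool.rec (motive := fun _ => Nat)
    L2852
    L2853
    (Nat.ble 365184 i))
   (Bool.rec (motive := fun _ => Nat)
    L2854
    L2855
    (Nat.ble 365440 i))
   (Nat.ble 365312 i))
  (Nat.ble 365056 i))
 (Bool.rec (motive := fun _ => Nat)
  (Bool.rec (motive := fun _ => Nat)
   (Bool.rec (motive := fun _ => Nat)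
    L2856
    L2857
    (Nat.ble 365696 i))
   (Bool.rec (motive := fun _ => Nat)
    L2858
    L2859
    (Nat.ble 365952 i))
   (Nat.ble 365824 i))
  (Bool.rec (motive := fun _ => Nat)
   (Bool.rec (motive := fun _ => Nat)
    L2860
    L2861
    (Nat.ble 366208 i))
   (Bool.rec (motive := fun _ => Nat)
    L2862
    L2863
    (Nat.ble 366464 i))
   (Nat.ble 366336 i))
  (Nat.ble 366080 i))
 (Nat.ble 365568 i))

/-- choice of a leaf -/
noncomputable def A0_179 (i : Nat) : Nat :=
 (Bool.rec (motive := fun _ => Nat)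
 (Bool.rec (motive := fun _ => Nat)
  (Bool.rec (motive := fun _ => Nat)
   (Bool.rec (motive := fun _ => Nat)
    L2864
    L2865
    (Nat.ble 366720 i))
   (Bool.rec (motive := fun _ => Nat)
    L2866
    L2867
    (Nat.ble 366976 i))
   (Nat.ble 366848 i))
  (Bool.rec (motive := fun _ => Nat)
   (Bool.rec (motive := fun _ => Nat)
    L2868
    L2869
    (Nat.ble 367232 i))
   (Bool.rec (motive := fun _ => Nat)
    L2870
    L2871
    (Nat.ble 367488 i))
   (Nat.ble 367360 i))
  (Nat.ble 367104 i))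
 (Bool.rec (motive := fun _ => Nat)
  (Bool.rec (motive := fun _ => Nat)
   (Bool.rec (motive := fun _ => Nat)
    L2872
    L2873
    (Nat.ble 367744 i))
   (Bool.rec (motive := fun _ => Nat)
    L2874
    L2875
    (Nat.ble 368000 i))
   (Nat.ble 367872 i))
  (Bool.rec (motive := fun _ => Nat)
   (Bool.rec (motive := fun _ => Nat)
    L2876
    L2877
    (Nat.ble 368256 i))
   (Bool.rec (motive := fun _ => Nat)
    L2878
    L2879
    (Nat.ble 368512 i))
   (Nat.ble 368384 i))
  (Nat.ble 368128 i))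
 (Nat.ble 367616 i))

/-- choice of a leaf -/
noncomputable def A0_180 (i : Nat) : Nat :=
 (Bool.rec (motive := fun _ => Nat)
 (Bool.rec (motive := fun _ => Nat)
  (Bool.rec (motive := fun _ => Nat)
   (Bool.rec (motive := fun _ => Nat)
    L2880
    L2881
    (Nat.ble 368768 i))
   (Bool.rec (motive := fun _ => Nat)
    L2882
    L2883
    (Nat.ble 369024 i))
   (Nat.ble 368896 i))
  (Bool.rec (motive := fun _ => Nat)
   (Bool.rec (motive := fun _ => Nat)
    L2884
    L2885
    (Nat.ble 369280 i))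
   (Bool.rec (motive := fun _ => Nat)
    L2886
    L2887
    (Nat.ble 369536 i))
   (Nat.ble 369408 i))
  (Nat.ble 369152 i))
 (Bool.rec (motive := fun _ => Nat)
  (Bool.rec (motive := fun _ => Nat)
   (Bool.rec (motive := fun _ => Nat)
    L2888
    L2889
    (Nat.ble 369792 i))
   (Bool.rec (motive := fun _ => Nat)
    L2890
    L2891
    (Nat.ble 370048 i))
   (Nat.ble 369920 i))
  (Bool.rec (motive := fun _ => Nat)
   (Bool.rec (motive := fun _ => Nat)
    L2892
    L2893
    (Nat.ble 370304 i))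
   (Bool.rec (motive := fun _ => Nat)
    L2894
    L2895
    (Nat.ble 370560 i))
   (Nat.ble 370432 i))
  (Nat.ble 370176 i))
 (Nat.ble 369664 i))

/-- choice of a leaf -/
noncomputable def A0_181 (i : Nat) : Nat :=
 (Bool.rec (motive := fun _ => Nat)
 (Bool.rec (motive := fun _ => Nat)
  (Bool.rec (motive := fun _ => Nat)
   (Bool.rec (motive := fun _ => Nat)
    L2896
    L2897
    (Nat.ble 370816 i))
   (Bool.rec (motive := fun _ => Nat)
    L2898
    L2899
    (Nat.ble 371072 i))
   (Nat.ble 370944 i))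
  (Bool.rec (motive := fun _ => Nat)
   (Bool.rec (motive := fun _ => Nat)
    L2900
    L2901
    (Nat.ble 371328 i))
   (Bool.rec (motive := fun _ => Nat)
    L2902
    L2903
    (Nat.ble 371584 i))
   (Nat.ble 371456 i))
  (Nat.ble 371200 i))
 (Bool.rec (motive := fun _ => Nat)
  (Bool.rec (motive := fun _ => Nat)
   (Bool.rec (motive := fun _ => Nat)
    L2904
    L2905
    (Nat.ble 371840 i))
   (Bool.rec (motive := fun _ => Nat)
    L2906
    L2907
    (Nat.ble 372096 i))
   (Nat.ble 371968 i))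
  (Bool.rec (motive := fun _ => Nat)
   (Bool.rec (motive := fun _ => Nat)
    L2908
    L2909
    (Nat.ble 372352 i))
   (Bool.rec (motive := fun _ => Nat)
    L2910
    L2911
    (Nat.ble 372608 i))
   (Nat.ble 372480 i))
  (Nat.ble 372224 i))
 (Nat.ble 371712 i))

/-- choice of a leaf -/
noncomputable def A0_182 (i : Nat) : Nat :=
 (Bool.rec (motive := fun _ => Nat)
 (Bool.rec (motive := fun _ => Nat)
  (Bool.rec (motive := fun _ => Nat)
   (Bool.rec (motive := fun _ => Nat)
    L2912
    L2913
    (Nat.ble 372864 i))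
   (Bool.rec (motive := fun _ => Nat)
    L2914
    L2915
    (Nat.ble 373120 i))
   (Nat.ble 372992 i))
  (Bool.rec (motive := fun _ => Nat)
   (Bool.rec (motive := fun _ => Nat)
    L2916
    L2917
    (Nat.ble 373376 i))
   (Bool.rec (motive := fun _ => Nat)
    L2918
    L2919
    (Nat.ble 373632 i))
   (Nat.ble 373504 i))
  (Nat.ble 373248 i))
 (Bool.rec (motive := fun _ => Nat)
  (Bool.rec (motive := fun _ => Nat)
   (Bool.rec (motive := fun _ => Nat)
    L2920
    L2921
    (Nat.ble 373888 i))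
   (Bool.rec (motive := fun _ => Nat)
    L2922
    L2923
    (Nat.ble 374144 i))
   (Nat.ble 374016 i))
  (Bool.rec (motive := fun _ => Nat)
   (Bool.rec (motive := fun _ => Nat)
    L2924
    L2925
    (Nat.ble 374400 i))
   (Bool.rec (motive := fun _ => Nat)
    L2926
    L2927
    (Nat.ble 374656 i))
   (Nat.ble 374528 i))
  (Nat.ble 374272 i))
 (Nat.ble 373760 i))

/-- choice of a leaf -/
noncomputable def A0_183 (i : Nat) : Nat :=
 (Bool.rec (motive := fun _ => Nat)
 (Bool.rec (motive := fun _ => Nat)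
  (Bool.rec (motive := fun _ => Nat)
   (Bool.rec (motive := fun _ => Nat)
    L2928
    L2929
    (Nat.ble 374912 i))
   (Bool.rec (motive := fun _ => Nat)
    L2930
    L2931
    (Nat.ble 375168 i))
   (Nat.ble 375040 i))
  (Bool.rec (motive := fun _ => Nat)
   (Bool.rec (motive := fun _ => Nat)
    L2932
    L2933
    (Nat.ble 375424 i))
   (Bool.rec (motive := fun _ => Nat)
    L2934
    L2935
    (Nat.ble 375680 i))
   (Nat.ble 375552 i))
  (Nat.ble 375296 i))
 (Bool.rec (motive := fun _ => Nat)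
  (Bool.rec (motive := fun _ => Nat)
   (Bool.rec (motive := fun _ => Nat)
    L2936
    L2937
    (Nat.ble 375936 i))
   (Bool.rec (motive := fun _ => Nat)
    L2938
    L2939
    (Nat.ble 376192 i))
   (Nat.ble 376064 i))
  (Bool.rec (motive := fun _ => Nat)
   (Bool.rec (motive := fun _ => Nat)
    L2940
    L2941
    (Nat.ble 376448 i))
   (Bool.rec (motive := fun _ => Nat)
    L2942
    L2943
    (Nat.ble 376704 i))
   (Nat.ble 376576 i))
  (Nat.ble 376320 i))
 (Nat.ble 375808 i))

/-- choice of a leaf -/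
noncomputable def A0_184 (i : Nat) : Nat :=
 (Bool.rec (motive := fun _ => Nat)
 (Bool.rec (motive := fun _ => Nat)
  (Bool.rec (motive := fun _ => Nat)
   (Bool.rec (motive := fun _ => Nat)
    L2944
    L2945
    (Nat.ble 376960 i))
   (Bool.rec (motive := fun _ => Nat)
    L2946
    L2947
    (Nat.ble 377216 i))
   (Nat.ble 377088 i))
  (Bool.rec (motive := fun _ => Nat)
   (Bool.rec (motive := fun _ => Nat)
    L2948
    L2949
    (Nat.ble 377472 i))
   (Bool.rec (motive := fun _ => Nat)
    L2950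
    L2951
    (Nat.ble 377728 i))
   (Nat.ble 377600 i))
  (Nat.ble 377344 i))
 (Bool.rec (motive := fun _ => Nat)
  (Bool.rec (motive := fun _ => Nat)
   (Bool.rec (motive := fun _ => Nat)
    L2952
    L2953
    (Nat.ble 377984 i))
   (Bool.rec (motive := fun _ => Nat)
    L2954
    L2955
    (Nat.ble 378240 i))
   (Nat.ble 378112 i))
  (Bool.rec (motive := fun _ => Nat)
   (Bool.rec (motive := fun _ => Nat)
    L2956
    L2957
    (Nat.ble 378496 i))
   (Bool.rec (motive := fun _ => Nat)
    L2958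
    L2959
    (Nat.ble 378752 i))
   (Nat.ble 378624 i))
  (Nat.ble 378368 i))
 (Nat.ble 377856 i))

/-- choice of a leaf -/
noncomputable def A0_185 (i : Nat) : Nat :=
 (Bool.rec (motive := fun _ => Nat)
 (Bool.rec (motive := fun _ => Nat)
  (Bool.rec (motive := fun _ => Nat)
   (Bool.rec (motive := fun _ => Nat)
    L2960
    L2961
    (Nat.ble 379008 i))
   (Bool.rec (motive := fun _ => Nat)
    L2962
    L2963
    (Nat.ble 379264 i))
   (Nat.ble 379136 i))
  (Bool.rec (motive := fun _ => Nat)
   (Bool.rec (motive := fun _ => Nat)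
    L2964
    L2965
    (Nat.ble 379520 i))
   (Bool.rec (motive := fun _ => Nat)
    L2966
    L2967
    (Nat.ble 379776 i))
   (Nat.ble 379648 i))
  (Nat.ble 379392 i))
 (Bool.rec (motive := fun _ => Nat)
  (Bool.rec (motive := fun _ => Nat)
   (Bool.rec (motive := fun _ => Nat)
    L2968
    L2969
    (Nat.ble 380032 i))
   (Bool.rec (motive := fun _ => Nat)
    L2970
    L2971
    (Nat.ble 380288 i))
   (Nat.ble 380160 i))
  (Bool.rec (motive := fun _ => Nat)
   (Bool.rec (motive := fun _ => Nat)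
    L2972
    L2973
    (Nat.ble 380544 i))
   (Bool.rec (motive := fun _ => Nat)
    L2974
    L2975
    (Nat.ble 380800 i))
   (Nat.ble 380672 i))
  (Nat.ble 380416 i))
 (Nat.ble 379904 i))

/-- choice of a leaf -/
noncomputable def A0_186 (i : Nat) : Nat :=
 (Bool.rec (motive := fun _ => Nat)
 (Bool.rec (motive := fun _ => Nat)
  (Bool.rec (motive := fun _ => Nat)
   (Bool.rec (motive := fun _ => Nat)
    L2976
    L2977
    (Nat.ble 381056 i))
   (Bool.rec (motive := fun _ => Nat)
    L2978
    L2979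
    (Nat.ble 381312 i))
   (Nat.ble 381184 i))
  (Bool.rec (motive := fun _ => Nat)
   (Bool.rec (motive := fun _ => Nat)
    L2980
    L2981
    (Nat.ble 381568 i))
   (Bool.rec (motive := fun _ => Nat)
    L2982
    L2983
    (Nat.ble 381824 i))
   (Nat.ble 381696 i))
  (Nat.ble 381440 i))
 (Bool.rec (motive := fun _ => Nat)
  (Bool.rec (motive := fun _ => Nat)
   (Bool.rec (motive := fun _ => Nat)
    L2984
    L2985
    (Nat.ble 382080 i))
   (Bool.rec (motive := fun _ => Nat)
    L2986
    L2987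
    (Nat.ble 382336 i))
   (Nat.ble 382208 i))
  (Bool.rec (motive := fun _ => Nat)
   (Bool.rec (motive := fun _ => Nat)
    L2988
    L2989
    (Nat.ble 382592 i))
   (Bool.rec (motive := fun _ => Nat)
    L2990
    L2991
    (Nat.ble 382848 i))
   (Nat.ble 382720 i))
  (Nat.ble 382464 i))
 (Nat.ble 381952 i))

/-- choice of a leaf -/
noncomputable def A0_187 (i : Nat) : Nat :=
 (Bool.rec (motive := fun _ => Nat)
 (Bool.rec (motive := fun _ => Nat)
  (Bool.rec (motive := fun _ => Nat)
   (Bool.rec (motive := fun _ => Nat)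
    L2992
    L2993
    (Nat.ble 383104 i))
   (Bool.rec (motive := fun _ => Nat)
    L2994
    L2995
    (Nat.ble 383360 i))
   (Nat.ble 383232 i))
  (Bool.rec (motive := fun _ => Nat)
   (Bool.rec (motive := fun _ => Nat)
    L2996
    L2997
    (Nat.ble 383616 i))
   (Bool.rec (motive := fun _ => Nat)
    L2998
    L2999
    (Nat.ble 383872 i))
   (Nat.ble 383744 i))
  (Nat.ble 383488 i))
 (Bool.rec (motive := fun _ => Nat)
  (Bool.rec (motive := fun _ => Nat)
   (Bool.rec (motive := fun _ => Nat)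
    L3000
    L3001
    (Nat.ble 384128 i))
   (Bool.rec (motive := fun _ => Nat)
    L3002
    L3003
    (Nat.ble 384384 i))
   (Nat.ble 384256 i))
  (Bool.rec (motive := fun _ => Nat)
   (Bool.rec (motive := fun _ => Nat)
    L3004
    L3005
    (Nat.ble 384640 i))
   (Bool.rec (motive := fun _ => Nat)
    L3006
    L3007
    (Nat.ble 384896 i))
   (Nat.ble 384768 i))
  (Nat.ble 384512 i))
 (Nat.ble 384000 i))

/-- choice of a leaf -/
noncomputable def A0_188 (i : Nat) : Nat :=
 (Bool.rec (motive := fun _ => Nat)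
 (Bool.rec (motive := fun _ => Nat)
  (Bool.rec (motive := fun _ => Nat)
   (Bool.rec (motive := fun _ => Nat)
    L3008
    L3009
    (Nat.ble 385152 i))
   (Bool.rec (motive := fun _ => Nat)
    L3010
    L3011
    (Nat.ble 385408 i))
   (Nat.ble 385280 i))
  (Bool.rec (motive := fun _ => Nat)
   (Bool.rec (motive := fun _ => Nat)
    L3012
    L3013
    (Nat.ble 385664 i))
   (Bool.rec (motive := fun _ => Nat)
    L3014
    L3015
    (Nat.ble 385920 i))
   (Nat.ble 385792 i))
  (Nat.ble 385536 i))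
 (Bool.rec (motive := fun _ => Nat)
  (Bool.rec (motive := fun _ => Nat)
   (Bool.rec (motive := fun _ => Nat)
    L3016
    L3017
    (Nat.ble 386176 i))
   (Bool.rec (motive := fun _ => Nat)
    L3018
    L3019
    (Nat.ble 386432 i))
   (Nat.ble 386304 i))
  (Bool.rec (motive := fun _ => Nat)
   (Bool.rec (motive := fun _ => Nat)
    L3020
    L3021
    (Nat.ble 386688 i))
   (Bool.rec (motive := fun _ => Nat)
    L3022
    L3023
    (Nat.ble 386944 i))
   (Nat.ble 386816 i))
  (Nat.ble 386560 i))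
 (Nat.ble 386048 i))

/-- choice of a leaf -/
noncomputable def A0_189 (i : Nat) : Nat :=
 (Bool.rec (motive := fun _ => Nat)
 (Bool.rec (motive := fun _ => Nat)
  (Bool.rec (motive := fun _ => Nat)
   (Bool.rec (motive := fun _ => Nat)
    L3024
    L3025
    (Nat.ble 387200 i))
   (Bool.rec (motive := fun _ => Nat)
    L3026
    L3027
    (Nat.ble 387456 i))
   (Nat.ble 387328 i))
  (Bool.rec (motive := fun _ => Nat)
   (Bool.rec (motive := fun _ => Nat)
    L3028
    L3029
    (Nat.ble 387712 i))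
   (Bool.rec (motive := fun _ => Nat)
    L3030
    L3031
    (Nat.ble 387968 i))
   (Nat.ble 387840 i))
  (Nat.ble 387584 i))
 (Bool.rec (motive := fun _ => Nat)
  (Bool.rec (motive := fun _ => Nat)
   (Bool.rec (motive := fun _ => Nat)
    L3032
    L3033
    (Nat.ble 388224 i))
   (Bool.rec (motive := fun _ => Nat)
    L3034
    L3035
    (Nat.ble 388480 i))
   (Nat.ble 388352 i))
  (Bool.rec (motive := fun _ => Nat)
   (Bool.rec (motive := fun _ => Nat)
    L3036
    L3037
    (Nat.ble 388736 i))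
   (Bool.rec (motive := fun _ => Nat)
    L3038
    L3039
    (Nat.ble 388992 i))
   (Nat.ble 388864 i))
  (Nat.ble 388608 i))
 (Nat.ble 388096 i))

/-- choice of a leaf -/
noncomputable def A0_190 (i : Nat) : Nat :=
 (Bool.rec (motive := fun _ => Nat)
 (Bool.rec (motive := fun _ => Nat)
  (Bool.rec (motive := fun _ => Nat)
   (Bool.rec (motive := fun _ => Nat)
    L3040
    L3041
    (Nat.ble 389248 i))
   (Bool.rec (motive := fun _ => Nat)
    L3042
    L3043
    (Nat.ble 389504 i))
   (Nat.ble 389376 i))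
  (Bool.rec (motive := fun _ => Nat)
   (Bool.rec (motive := fun _ => Nat)
    L3044
    L3045
    (Nat.ble 389760 i))
   (Bool.rec (motive := fun _ => Nat)
    L3046
    L3047
    (Nat.ble 390016 i))
   (Nat.ble 389888 i))
  (Nat.ble 389632 i))
 (Bool.rec (motive := fun _ => Nat)
  (Bool.rec (motive := fun _ => Nat)
   (Bool.rec (motive := fun _ => Nat)
    L3048
    L3049
    (Nat.ble 390272 i))
   (Bool.rec (motive := fun _ => Nat)
    L3050
    L3051
    (Nat.ble 390528 i))
   (Nat.ble 390400 i))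
  (Bool.rec (motive := fun _ => Nat)
   (Bool.rec (motive := fun _ => Nat)
    L3052
    L3053
    (Nat.ble 390784 i))
   (Bool.rec (motive := fun _ => Nat)
    L3054
    L3055
    (Nat.ble 391040 i))
   (Nat.ble 390912 i))
  (Nat.ble 390656 i))
 (Nat.ble 390144 i))

/-- choice of a leaf -/
noncomputable def A0_191 (i : Nat) : Nat :=
 (Bool.rec (motive := fun _ => Nat)
 (Bool.rec (motive := fun _ => Nat)
  (Bool.rec (motive := fun _ => Nat)
   (Bool.rec (motive := fun _ => Nat)
    L3056
    L3057
    (Nat.ble 391296 i))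
   (Bool.rec (motive := fun _ => Nat)
    L3058
    L3059
    (Nat.ble 391552 i))
   (Nat.ble 391424 i))
  (Bool.rec (motive := fun _ => Nat)
   (Bool.rec (motive := fun _ => Nat)
    L3060
    L3061
    (Nat.ble 391808 i))
   (Bool.rec (motive := fun _ => Nat)
    L3062
    L3063
    (Nat.ble 392064 i))
   (Nat.ble 391936 i))
  (Nat.ble 391680 i))
 (Bool.rec (motive := fun _ => Nat)
  (Bool.rec (motive := fun _ => Nat)
   (Bool.rec (motive := fun _ => Nat)
    L3064
    L3065
    (Nat.ble 392320 i))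
   (Bool.rec (motive := fun _ => Nat)
    L3066
    L3067
    (Nat.ble 392576 i))
   (Nat.ble 392448 i))
  (Bool.rec (motive := fun _ => Nat)
   (Bool.rec (motive := fun _ => Nat)
    L3068
    L3069
    (Nat.ble 392832 i))
   (Bool.rec (motive := fun _ => Nat)
    L3070
    L3071
    (Nat.ble 393088 i))
   (Nat.ble 392960 i))
  (Nat.ble 392704 i))
 (Nat.ble 392192 i))

/-- choice of a leaf -/
noncomputable def A0_192 (i : Nat) : Nat :=
 (Bool.rec (motive := fun _ => Nat)
 (Bool.rec (motive := fun _ => Nat)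
  (Bool.rec (motive := fun _ => Nat)
   (Bool.rec (motive := fun _ => Nat)
    L3072
    L3073
    (Nat.ble 393344 i))
   (Bool.rec (motive := fun _ => Nat)
    L3074
    L3075
    (Nat.ble 393600 i))
   (Nat.ble 393472 i))
  (Bool.rec (motive := fun _ => Nat)
   (Bool.rec (motive := fun _ => Nat)
    L3076
    L3077
    (Nat.ble 393856 i))
   (Bool.rec (motive := fun _ => Nat)
    L3078
    L3079
    (Nat.ble 394112 i))
   (Nat.ble 393984 i))
  (Nat.ble 393728 i))
 (Bool.rec (motive := fun _ => Nat)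
  (Bool.rec (motive := fun _ => Nat)
   (Bool.rec (motive := fun _ => Nat)
    L3080
    L3081
    (Nat.ble 394368 i))
   (Bool.rec (motive := fun _ => Nat)
    L3082
    L3083
    (Nat.ble 394624 i))
   (Nat.ble 394496 i))
  (Bool.rec (motive := fun _ => Nat)
   (Bool.rec (motive := fun _ => Nat)
    L3084
    L3085
    (Nat.ble 394880 i))
   (Bool.rec (motive := fun _ => Nat)
    L3086
    L3087
    (Nat.ble 395136 i))
   (Nat.ble 395008 i))
  (Nat.ble 394752 i))
 (Nat.ble 394240 i))

/-- choice of a leaf -/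
noncomputable def A0_193 (i : Nat) : Nat :=
 (Bool.rec (motive := fun _ => Nat)
 (Bool.rec (motive := fun _ => Nat)
  (Bool.rec (motive := fun _ => Nat)
   (Bool.rec (motive := fun _ => Nat)
    L3088
    L3089
    (Nat.ble 395392 i))
   (Bool.rec (motive := fun _ => Nat)
    L3090
    L3091
    (Nat.ble 395648 i))
   (Nat.ble 395520 i))
  (Bool.rec (motive := fun _ => Nat)
   (Bool.rec (motive := fun _ => Nat)
    L3092
    L3093
    (Nat.ble 395904 i))
   (Bool.rec (motive := fun _ => Nat)
    L3094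
    L3095
    (Nat.ble 396160 i))
   (Nat.ble 396032 i))
  (Nat.ble 395776 i))
 (Bool.rec (motive := fun _ => Nat)
  (Bool.rec (motive := fun _ => Nat)
   (Bool.rec (motive := fun _ => Nat)
    L3096
    L3097
    (Nat.ble 396416 i))
   (Bool.rec (motive := fun _ => Nat)
    L3098
    L3099
    (Nat.ble 396672 i))
   (Nat.ble 396544 i))
  (Bool.rec (motive := fun _ => Nat)
   (Bool.rec (motive := fun _ => Nat)
    L3100
    L3101
    (Nat.ble 396928 i))
   (Bool.rec (motive := fun _ => Nat)
    L3102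
    L3103
    (Nat.ble 397184 i))
   (Nat.ble 397056 i))
  (Nat.ble 396800 i))
 (Nat.ble 396288 i))

/-- choice of a leaf -/
noncomputable def A0_194 (i : Nat) : Nat :=
 (Bool.rec (motive := fun _ => Nat)
 (Bool.rec (motive := fun _ => Nat)
  (Bool.rec (motive := fun _ => Nat)
   (Bool.rec (motive := fun _ => Nat)
    L3104
    L3105
    (Nat.ble 397440 i))
   (Bool.rec (motive := fun _ => Nat)
    L3106
    L3107
    (Nat.ble 397696 i))
   (Nat.ble 397568 i))
  (Bool.rec (motive := fun _ => Nat)
   (Bool.rec (motive := fun _ => Nat)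
    L3108
    L3109
    (Nat.ble 397952 i))
   (Bool.rec (motive := fun _ => Nat)
    L3110
    L3111
    (Nat.ble 398208 i))
   (Nat.ble 398080 i))
  (Nat.ble 397824 i))
 (Bool.rec (motive := fun _ => Nat)
  (Bool.rec (motive := fun _ => Nat)
   (Bool.rec (motive := fun _ => Nat)
    L3112
    L3113
    (Nat.ble 398464 i))
   (Bool.rec (motive := fun _ => Nat)
    L3114
    L3115
    (Nat.ble 398720 i))
   (Nat.ble 398592 i))
  (Bool.rec (motive := fun _ => Nat)
   (Bool.rec (motive := fun _ => Nat)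
    L3116
    L3117
    (Nat.ble 398976 i))
   (Bool.rec (motive := fun _ => Nat)
    L3118
    L3119
    (Nat.ble 399232 i))
   (Nat.ble 399104 i))
  (Nat.ble 398848 i))
 (Nat.ble 398336 i))

/-- choice of a leaf -/
noncomputable def A0_195 (i : Nat) : Nat :=
 (Bool.rec (motive := fun _ => Nat)
 (Bool.rec (motive := fun _ => Nat)
  (Bool.rec (motive := fun _ => Nat)
   (Bool.rec (motive := fun _ => Nat)
    L3120
    L3121
    (Nat.ble 399488 i))
   (Bool.rec (motive := fun _ => Nat)
    L3122
    L3123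
    (Nat.ble 399744 i))
   (Nat.ble 399616 i))
  (Bool.rec (motive := fun _ => Nat)
   (Bool.rec (motive := fun _ => Nat)
    L3124
    L3125
    (Nat.ble 400000 i))
   (Bool.rec (motive := fun _ => Nat)
    L3126
    L3127
    (Nat.ble 400256 i))
   (Nat.ble 400128 i))
  (Nat.ble 399872 i))
 (Bool.rec (motive := fun _ => Nat)
  (Bool.rec (motive := fun _ => Nat)
   (Bool.rec (motive := fun _ => Nat)
    L3128
    L3129
    (Nat.ble 400512 i))
   (Bool.rec (motive := fun _ => Nat)
    L3130
    L3131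
    (Nat.ble 400768 i))
   (Nat.ble 400640 i))
  (Bool.rec (motive := fun _ => Nat)
   (Bool.rec (motive := fun _ => Nat)
    L3132
    L3133
    (Nat.ble 401024 i))
   (Bool.rec (motive := fun _ => Nat)
    L3134
    L3135
    (Nat.ble 401280 i))
   (Nat.ble 401152 i))
  (Nat.ble 400896 i))
 (Nat.ble 400384 i))

/-- choice of a leaf -/
noncomputable def A0_196 (i : Nat) : Nat :=
 (Bool.rec (motive := fun _ => Nat)
 (Bool.rec (motive := fun _ => Nat)
  (Bool.rec (motive := fun _ => Nat)
   (Bool.rec (motive := fun _ => Nat)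
    L3136
    L3137
    (Nat.ble 401536 i))
   (Bool.rec (motive := fun _ => Nat)
    L3138
    L3139
    (Nat.ble 401792 i))
   (Nat.ble 401664 i))
  (Bool.rec (motive := fun _ => Nat)
   (Bool.rec (motive := fun _ => Nat)
    L3140
    L3141
    (Nat.ble 402048 i))
   (Bool.rec (motive := fun _ => Nat)
    L3142
    L3143
    (Nat.ble 402304 i))
   (Nat.ble 402176 i))
  (Nat.ble 401920 i))
 (Bool.rec (motive := fun _ => Nat)
  (Bool.rec (motive := fun _ => Nat)
   (Bool.rec (motive := fun _ => Nat)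
    L3144
    L3145
    (Nat.ble 402560 i))
   (Bool.rec (motive := fun _ => Nat)
    L3146
    L3147
    (Nat.ble 402816 i))
   (Nat.ble 402688 i))
  (Bool.rec (motive := fun _ => Nat)
   (Bool.rec (motive := fun _ => Nat)
    L3148
    L3149
    (Nat.ble 403072 i))
   (Bool.rec (motive := fun _ => Nat)
    L3150
    L3151
    (Nat.ble 403328 i))
   (Nat.ble 403200 i))
  (Nat.ble 402944 i))
 (Nat.ble 402432 i))

/-- choice of a leaf -/
noncomputable def A0_197 (i : Nat) : Nat :=
 (Bool.rec (motive := fun _ => Nat)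
 (Bool.rec (motive := fun _ => Nat)
  (Bool.rec (motive := fun _ => Nat)
   (Bool.rec (motive := fun _ => Nat)
    L3152
    L3153
    (Nat.ble 403584 i))
   (Bool.rec (motive := fun _ => Nat)
    L3154
    L3155
    (Nat.ble 403840 i))
   (Nat.ble 403712 i))
  (Bool.rec (motive := fun _ => Nat)
   (Bool.rec (motive := fun _ => Nat)
    L3156
    L3157
    (Nat.ble 404096 i))
   (Bool.rec (motive := fun _ => Nat)
    L3158
    L3159
    (Nat.ble 404352 i))
   (Nat.ble 404224 i))
  (Nat.ble 403968 i))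
 (Bool.rec (motive := fun _ => Nat)
  (Bool.rec (motive := fun _ => Nat)
   (Bool.rec (motive := fun _ => Nat)
    L3160
    L3161
    (Nat.ble 404608 i))
   (Bool.rec (motive := fun _ => Nat)
    L3162
    L3163
    (Nat.ble 404864 i))
   (Nat.ble 404736 i))
  (Bool.rec (motive := fun _ => Nat)
   (Bool.rec (motive := fun _ => Nat)
    L3164
    L3165
    (Nat.ble 405120 i))
   (Bool.rec (motive := fun _ => Nat)
    L3166
    L3167
    (Nat.ble 405376 i))
   (Nat.ble 405248 i))
  (Nat.ble 404992 i))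
 (Nat.ble 404480 i))

/-- choice of a leaf -/
noncomputable def A0_198 (i : Nat) : Nat :=
 (Bool.rec (motive := fun _ => Nat)
 (Bool.rec (motive := fun _ => Nat)
  (Bool.rec (motive := fun _ => Nat)
   (Bool.rec (motive := fun _ => Nat)
    L3168
    L3169
    (Nat.ble 405632 i))
   (Bool.rec (motive := fun _ => Nat)
    L3170
    L3171
    (Nat.ble 405888 i))
   (Nat.ble 405760 i))
  (Bool.rec (motive := fun _ => Nat)
   (Bool.rec (motive := fun _ => Nat)
    L3172
    L3173
    (Nat.ble 406144 i))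
   (Bool.rec (motive := fun _ => Nat)
    L3174
    L3175
    (Nat.ble 406400 i))
   (Nat.ble 406272 i))
  (Nat.ble 406016 i))
 (Bool.rec (motive := fun _ => Nat)
  (Bool.rec (motive := fun _ => Nat)
   (Bool.rec (motive := fun _ => Nat)
    L3176
    L3177
    (Nat.ble 406656 i))
   (Bool.rec (motive := fun _ => Nat)
    L3178
    L3179
    (Nat.ble 406912 i))
   (Nat.ble 406784 i))
  (Bool.rec (motive := fun _ => Nat)
   (Bool.rec (motive := fun _ => Nat)
    L3180
    L3181
    (Nat.ble 407168 i))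
   (Bool.rec (motive := fun _ => Nat)
    L3182
    L3183
    (Nat.ble 407424 i))
   (Nat.ble 407296 i))
  (Nat.ble 407040 i))
 (Nat.ble 406528 i))

/-- choice of a leaf -/
noncomputable def A0_199 (i : Nat) : Nat :=
 (Bool.rec (motive := fun _ => Nat)
 (Bool.rec (motive := fun _ => Nat)
  (Bool.rec (motive := fun _ => Nat)
   (Bool.rec (motive := fun _ => Nat)
    L3184
    L3185
    (Nat.ble 407680 i))
   (Bool.rec (motive := fun _ => Nat)
    L3186
    L3187
    (Nat.ble 407936 i))
   (Nat.ble 407808 i))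
  (Bool.rec (motive := fun _ => Nat)
   (Bool.rec (motive := fun _ => Nat)
    L3188
    L3189
    (Nat.ble 408192 i))
   (Bool.rec (motive := fun _ => Nat)
    L3190
    L3191
    (Nat.ble 408448 i))
   (Nat.ble 408320 i))
  (Nat.ble 408064 i))
 (Bool.rec (motive := fun _ => Nat)
  (Bool.rec (motive := fun _ => Nat)
   (Bool.rec (motive := fun _ => Nat)
    L3192
    L3193
    (Nat.ble 408704 i))
   (Bool.rec (motive := fun _ => Nat)
    L3194
    L3195
    (Nat.ble 408960 i))
   (Nat.ble 408832 i))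
  (Bool.rec (motive := fun _ => Nat)
   (Bool.rec (motive := fun _ => Nat)
    L3196
    L3197
    (Nat.ble 409216 i))
   (Bool.rec (motive := fun _ => Nat)
    L3198
    L3199
    (Nat.ble 409472 i))
   (Nat.ble 409344 i))
  (Nat.ble 409088 i))
 (Nat.ble 408576 i))

/-- choice of a leaf -/
noncomputable def A0_200 (i : Nat) : Nat :=
 (Bool.rec (motive := fun _ => Nat)
 (Bool.rec (motive := fun _ => Nat)
  (Bool.rec (motive := fun _ => Nat)
   (Bool.rec (motive := fun _ => Nat)
    L3200
    L3201
    (Nat.ble 409728 i))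
   (Bool.rec (motive := fun _ => Nat)
    L3202
    L3203
    (Nat.ble 409984 i))
   (Nat.ble 409856 i))
  (Bool.rec (motive := fun _ => Nat)
   (Bool.rec (motive := fun _ => Nat)
    L3204
    L3205
    (Nat.ble 410240 i))
   (Bool.rec (motive := fun _ => Nat)
    L3206
    L3207
    (Nat.ble 410496 i))
   (Nat.ble 410368 i))
  (Nat.ble 410112 i))
 (Bool.rec (motive := fun _ => Nat)
  (Bool.rec (motive := fun _ => Nat)
   (Bool.rec (motive := fun _ => Nat)
    L3208
    L3209
    (Nat.ble 410752 i))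
   (Bool.rec (motive := fun _ => Nat)
    L3210
    L3211
    (Nat.ble 411008 i))
   (Nat.ble 410880 i))
  (Bool.rec (motive := fun _ => Nat)
   (Bool.rec (motive := fun _ => Nat)
    L3212
    L3213
    (Nat.ble 411264 i))
   (Bool.rec (motive := fun _ => Nat)
    L3214
    L3215
    (Nat.ble 411520 i))
   (Nat.ble 411392 i))
  (Nat.ble 411136 i))
 (Nat.ble 410624 i))

/-- choice of a leaf -/
noncomputable def A0_201 (i : Nat) : Nat :=
 (Bool.rec (motive := fun _ => Nat)
 (Bool.rec (motive := fun _ => Nat)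
  (Bool.rec (motive := fun _ => Nat)
   (Bool.rec (motive := fun _ => Nat)
    L3216
    L3217
    (Nat.ble 411776 i))
   (Bool.rec (motive := fun _ => Nat)
    L3218
    L3219
    (Nat.ble 412032 i))
   (Nat.ble 411904 i))
  (Bool.rec (motive := fun _ => Nat)
   (Bool.rec (motive := fun _ => Nat)
    L3220
    L3221
    (Nat.ble 412288 i))
   (Bool.rec (motive := fun _ => Nat)
    L3222
    L3223
    (Nat.ble 412544 i))
   (Nat.ble 412416 i))
  (Nat.ble 412160 i))
 (Bool.rec (motive := fun _ => Nat)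
  (Bool.rec (motive := fun _ => Nat)
   (Bool.rec (motive := fun _ => Nat)
    L3224
    L3225
    (Nat.ble 412800 i))
   (Bool.rec (motive := fun _ => Nat)
    L3226
    L3227
    (Nat.ble 413056 i))
   (Nat.ble 412928 i))
  (Bool.rec (motive := fun _ => Nat)
   (Bool.rec (motive := fun _ => Nat)
    L3228
    L3229
    (Nat.ble 413312 i))
   (Bool.rec (motive := fun _ => Nat)
    L3230
    L3231
    (Nat.ble 413568 i))
   (Nat.ble 413440 i))
  (Nat.ble 413184 i))
 (Nat.ble 412672 i))

/-- choice of a leaf -/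
noncomputable def A0_202 (i : Nat) : Nat :=
 (Bool.rec (motive := fun _ => Nat)
 (Bool.rec (motive := fun _ => Nat)
  (Bool.rec (motive := fun _ => Nat)
   (Bool.rec (motive := fun _ => Nat)
    L3232
    L3233
    (Nat.ble 413824 i))
   (Bool.rec (motive := fun _ => Nat)
    L3234
    L3235
    (Nat.ble 414080 i))
   (Nat.ble 413952 i))
  (Bool.rec (motive := fun _ => Nat)
   (Bool.rec (motive := fun _ => Nat)
    L3236
    L3237
    (Nat.ble 414336 i))
   (Bool.rec (motive := fun _ => Nat)
    L3238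
    L3239
    (Nat.ble 414592 i))
   (Nat.ble 414464 i))
  (Nat.ble 414208 i))
 (Bool.rec (motive := fun _ => Nat)
  (Bool.rec (motive := fun _ => Nat)
   (Bool.rec (motive := fun _ => Nat)
    L3240
    L3241
    (Nat.ble 414848 i))
   (Bool.rec (motive := fun _ => Nat)
    L3242
    L3243
    (Nat.ble 415104 i))
   (Nat.ble 414976 i))
  (Bool.rec (motive := fun _ => Nat)
   (Bool.rec (motive := fun _ => Nat)
    L3244
    L3245
    (Nat.ble 415360 i))
   (Bool.rec (motive := fun _ => Nat)
    L3246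
    L3247
    (Nat.ble 415616 i))
   (Nat.ble 415488 i))
  (Nat.ble 415232 i))
 (Nat.ble 414720 i))

/-- choice of a leaf -/
noncomputable def A0_203 (i : Nat) : Nat :=
 (Bool.rec (motive := fun _ => Nat)
 (Bool.rec (motive := fun _ => Nat)
  (Bool.rec (motive := fun _ => Nat)
   (Bool.rec (motive := fun _ => Nat)
    L3248
    L3249
    (Nat.ble 415872 i))
   (Bool.rec (motive := fun _ => Nat)
    L3250
    L3251
    (Nat.ble 416128 i))
   (Nat.ble 416000 i))
  (Bool.rec (motive := fun _ => Nat)
   (Bool.rec (motive := fun _ => Nat)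
    L3252
    L3253
    (Nat.ble 416384 i))
   (Bool.rec (motive := fun _ => Nat)
    L3254
    L3255
    (Nat.ble 416640 i))
   (Nat.ble 416512 i))
  (Nat.ble 416256 i))
 (Bool.rec (motive := fun _ => Nat)
  (Bool.rec (motive := fun _ => Nat)
   (Bool.rec (motive := fun _ => Nat)
    L3256
    L3257
    (Nat.ble 416896 i))
   (Bool.rec (motive := fun _ => Nat)
    L3258
    L3259
    (Nat.ble 417152 i))
   (Nat.ble 417024 i))
  (Bool.rec (motive := fun _ => Nat)
   (Bool.rec (motive := fun _ => Nat)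
    L3260
    L3261
    (Nat.ble 417408 i))
   (Bool.rec (motive := fun _ => Nat)
    L3262
    L3263
    (Nat.ble 417664 i))
   (Nat.ble 417536 i))
  (Nat.ble 417280 i))
 (Nat.ble 416768 i))

/-- choice of a leaf -/
noncomputable def A0_204 (i : Nat) : Nat :=
 (Bool.rec (motive := fun _ => Nat)
 (Bool.rec (motive := fun _ => Nat)
  (Bool.rec (motive := fun _ => Nat)
   (Bool.rec (motive := fun _ => Nat)
    L3264
    L3265
    (Nat.ble 417920 i))
   (Bool.rec (motive := fun _ => Nat)
    L3266
    L3267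
    (Nat.ble 418176 i))
   (Nat.ble 418048 i))
  (Bool.rec (motive := fun _ => Nat)
   (Bool.rec (motive := fun _ => Nat)
    L3268
    L3269
    (Nat.ble 418432 i))
   (Bool.rec (motive := fun _ => Nat)
    L3270
    L3271
    (Nat.ble 418688 i))
   (Nat.ble 418560 i))
  (Nat.ble 418304 i))
 (Bool.rec (motive := fun _ => Nat)
  (Bool.rec (motive := fun _ => Nat)
   (Bool.rec (motive := fun _ => Nat)
    L3272
    L3273
    (Nat.ble 418944 i))
   (Bool.rec (motive := fun _ => Nat)
    L3274
    L3275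
    (Nat.ble 419200 i))
   (Nat.ble 419072 i))
  (Bool.rec (motive := fun _ => Nat)
   (Bool.rec (motive := fun _ => Nat)
    L3276
    L3277
    (Nat.ble 419456 i))
   (Bool.rec (motive := fun _ => Nat)
    L3278
    L3279
    (Nat.ble 419712 i))
   (Nat.ble 419584 i))
  (Nat.ble 419328 i))
 (Nat.ble 418816 i))

/-- choice of a leaf -/
noncomputable def A0_205 (i : Nat) : Nat :=
 (Bool.rec (motive := fun _ => Nat)
 (Bool.rec (motive := fun _ => Nat)
  (Bool.rec (motive := fun _ => Nat)
   (Bool.rec (motive := fun _ => Nat)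
    L3280
    L3281
    (Nat.ble 419968 i))
   (Bool.rec (motive := fun _ => Nat)
    L3282
    L3283
    (Nat.ble 420224 i))
   (Nat.ble 420096 i))
  (Bool.rec (motive := fun _ => Nat)
   (Bool.rec (motive := fun _ => Nat)
    L3284
    L3285
    (Nat.ble 420480 i))
   (Bool.rec (motive := fun _ => Nat)
    L3286
    L3287
    (Nat.ble 420736 i))
   (Nat.ble 420608 i))
  (Nat.ble 420352 i))
 (Bool.rec (motive := fun _ => Nat)
  (Bool.rec (motive := fun _ => Nat)
   (Bool.rec (motive := fun _ => Nat)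
    L3288
    L3289
    (Nat.ble 420992 i))
   (Bool.rec (motive := fun _ => Nat)
    L3290
    L3291
    (Nat.ble 421248 i))
   (Nat.ble 421120 i))
  (Bool.rec (motive := fun _ => Nat)
   (Bool.rec (motive := fun _ => Nat)
    L3292
    L3293
    (Nat.ble 421504 i))
   (Bool.rec (motive := fun _ => Nat)
    L3294
    L3295
    (Nat.ble 421760 i))
   (Nat.ble 421632 i))
  (Nat.ble 421376 i))
 (Nat.ble 420864 i))

/-- choice of a leaf -/
noncomputable def A0_206 (i : Nat) : Nat :=
 (Bool.rec (motive := fun _ => Nat)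
 (Bool.rec (motive := fun _ => Nat)
  (Bool.rec (motive := fun _ => Nat)
   (Bool.rec (motive := fun _ => Nat)
    L3296
    L3297
    (Nat.ble 422016 i))
   (Bool.rec (motive := fun _ => Nat)
    L3298
    L3299
    (Nat.ble 422272 i))
   (Nat.ble 422144 i))
  (Bool.rec (motive := fun _ => Nat)
   (Bool.rec (motive := fun _ => Nat)
    L3300
    L3301
    (Nat.ble 422528 i))
   (Bool.rec (motive := fun _ => Nat)
    L3302
    L3303
    (Nat.ble 422784 i))
   (Nat.ble 422656 i))
  (Nat.ble 422400 i))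
 (Bool.rec (motive := fun _ => Nat)
  (Bool.rec (motive := fun _ => Nat)
   (Bool.rec (motive := fun _ => Nat)
    L3304
    L3305
    (Nat.ble 423040 i))
   (Bool.rec (motive := fun _ => Nat)
    L3306
    L3307
    (Nat.ble 423296 i))
   (Nat.ble 423168 i))
  (Bool.rec (motive := fun _ => Nat)
   (Bool.rec (motive := fun _ => Nat)
    L3308
    L3309
    (Nat.ble 423552 i))
   (Bool.rec (motive := fun _ => Nat)
    L3310
    L3311
    (Nat.ble 423808 i))
   (Nat.ble 423680 i))
  (Nat.ble 423424 i))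
 (Nat.ble 422912 i))

/-- choice of a leaf -/
noncomputable def A0_207 (i : Nat) : Nat :=
 (Bool.rec (motive := fun _ => Nat)
 (Bool.rec (motive := fun _ => Nat)
  (Bool.rec (motive := fun _ => Nat)
   (Bool.rec (motive := fun _ => Nat)
    L3312
    L3313
    (Nat.ble 424064 i))
   (Bool.rec (motive := fun _ => Nat)
    L3314
    L3315
    (Nat.ble 424320 i))
   (Nat.ble 424192 i))
  (Bool.rec (motive := fun _ => Nat)
   (Bool.rec (motive := fun _ => Nat)
    L3316
    L3317
    (Nat.ble 424576 i))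
   (Bool.rec (motive := fun _ => Nat)
    L3318
    L3319
    (Nat.ble 424832 i))
   (Nat.ble 424704 i))
  (Nat.ble 424448 i))
 (Bool.rec (motive := fun _ => Nat)
  (Bool.rec (motive := fun _ => Nat)
   (Bool.rec (motive := fun _ => Nat)
    L3320
    L3321
    (Nat.ble 425088 i))
   (Bool.rec (motive := fun _ => Nat)
    L3322
    L3323
    (Nat.ble 425344 i))
   (Nat.ble 425216 i))
  (Bool.rec (motive := fun _ => Nat)
   (Bool.rec (motive := fun _ => Nat)
    L3324
    L3325
    (Nat.ble 425600 i))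
   (Bool.rec (motive := fun _ => Nat)
    L3326
    L3327
    (Nat.ble 425856 i))
   (Nat.ble 425728 i))
  (Nat.ble 425472 i))
 (Nat.ble 424960 i))

/-- choice of a leaf -/
noncomputable def A0_208 (i : Nat) : Nat :=
 (Bool.rec (motive := fun _ => Nat)
 (Bool.rec (motive := fun _ => Nat)
  (Bool.rec (motive := fun _ => Nat)
   (Bool.rec (motive := fun _ => Nat)
    L3328
    L3329
    (Nat.ble 426112 i))
   (Bool.rec (motive := fun _ => Nat)
    L3330
    L3331
    (Nat.ble 426368 i))
   (Nat.ble 426240 i))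
  (Bool.rec (motive := fun _ => Nat)
   (Bool.rec (motive := fun _ => Nat)
    L3332
    L3333
    (Nat.ble 426624 i))
   (Bool.rec (motive := fun _ => Nat)
    L3334
    L3335
    (Nat.ble 426880 i))
   (Nat.ble 426752 i))
  (Nat.ble 426496 i))
 (Bool.rec (motive := fun _ => Nat)
  (Bool.rec (motive := fun _ => Nat)
   (Bool.rec (motive := fun _ => Nat)
    L3336
    L3337
    (Nat.ble 427136 i))
   (Bool.rec (motive := fun _ => Nat)
    L3338
    L3339
    (Nat.ble 427392 i))
   (Nat.ble 427264 i))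
  (Bool.rec (motive := fun _ => Nat)
   (Bool.rec (motive := fun _ => Nat)
    L3340
    L3341
    (Nat.ble 427648 i))
   (Bool.rec (motive := fun _ => Nat)
    L3342
    L3343
    (Nat.ble 427904 i))
   (Nat.ble 427776 i))
  (Nat.ble 427520 i))
 (Nat.ble 427008 i))

/-- choice of a leaf -/
noncomputable def A0_209 (i : Nat) : Nat :=
 (Bool.rec (motive := fun _ => Nat)
 (Bool.rec (motive := fun _ => Nat)
  (Bool.rec (motive := fun _ => Nat)
   (Bool.rec (motive := fun _ => Nat)
    L3344
    L3345
    (Nat.ble 428160 i))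
   (Bool.rec (motive := fun _ => Nat)
    L3346
    L3347
    (Nat.ble 428416 i))
   (Nat.ble 428288 i))
  (Bool.rec (motive := fun _ => Nat)
   (Bool.rec (motive := fun _ => Nat)
    L3348
    L3349
    (Nat.ble 428672 i))
   (Bool.rec (motive := fun _ => Nat)
    L3350
    L3351
    (Nat.ble 428928 i))
   (Nat.ble 428800 i))
  (Nat.ble 428544 i))
 (Bool.rec (motive := fun _ => Nat)
  (Bool.rec (motive := fun _ => Nat)
   (Bool.rec (motive := fun _ => Nat)
    L3352
    L3353
    (Nat.ble 429184 i))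
   (Bool.rec (motive := fun _ => Nat)
    L3354
    L3355
    (Nat.ble 429440 i))
   (Nat.ble 429312 i))
  (Bool.rec (motive := fun _ => Nat)
   (Bool.rec (motive := fun _ => Nat)
    L3356
    L3357
    (Nat.ble 429696 i))
   (Bool.rec (motive := fun _ => Nat)
    L3358
    L3359
    (Nat.ble 429952 i))
   (Nat.ble 429824 i))
  (Nat.ble 429568 i))
 (Nat.ble 429056 i))

/-- choice of a leaf -/
noncomputable def A0_210 (i : Nat) : Nat :=
 (Bool.rec (motive := fun _ => Nat)
 (Bool.rec (motive := fun _ => Nat)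
  (Bool.rec (motive := fun _ => Nat)
   (Bool.rec (motive := fun _ => Nat)
    L3360
    L3361
    (Nat.ble 430208 i))
   (Bool.rec (motive := fun _ => Nat)
    L3362
    L3363
    (Nat.ble 430464 i))
   (Nat.ble 430336 i))
  (Bool.rec (motive := fun _ => Nat)
   (Bool.rec (motive := fun _ => Nat)
    L3364
    L3365
    (Nat.ble 430720 i))
   (Bool.rec (motive := fun _ => Nat)
    L3366
    L3367
    (Nat.ble 430976 i))
   (Nat.ble 430848 i))
  (Nat.ble 430592 i))
 (Bool.rec (motive := fun _ => Nat)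
  (Bool.rec (motive := fun _ => Nat)
   (Bool.rec (motive := fun _ => Nat)
    L3368
    L3369
    (Nat.ble 431232 i))
   (Bool.rec (motive := fun _ => Nat)
    L3370
    L3371
    (Nat.ble 431488 i))
   (Nat.ble 431360 i))
  (Bool.rec (motive := fun _ => Nat)
   (Bool.rec (motive := fun _ => Nat)
    L3372
    L3373
    (Nat.ble 431744 i))
   (Bool.rec (motive := fun _ => Nat)
    L3374
    L3375
    (Nat.ble 432000 i))
   (Nat.ble 431872 i))
  (Nat.ble 431616 i))
 (Nat.ble 431104 i))

/-- choice of a leaf -/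
noncomputable def A0_211 (i : Nat) : Nat :=
 (Bool.rec (motive := fun _ => Nat)
 (Bool.rec (motive := fun _ => Nat)
  (Bool.rec (motive := fun _ => Nat)
   (Bool.rec (motive := fun _ => Nat)
    L3376
    L3377
    (Nat.ble 432256 i))
   (Bool.rec (motive := fun _ => Nat)
    L3378
    L3379
    (Nat.ble 432512 i))
   (Nat.ble 432384 i))
  (Bool.rec (motive := fun _ => Nat)
   (Bool.rec (motive := fun _ => Nat)
    L3380
    L3381
    (Nat.ble 432768 i))
   (Bool.rec (motive := fun _ => Nat)
    L3382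
    L3383
    (Nat.ble 433024 i))
   (Nat.ble 432896 i))
  (Nat.ble 432640 i))
 (Bool.rec (motive := fun _ => Nat)
  (Bool.rec (motive := fun _ => Nat)
   (Bool.rec (motive := fun _ => Nat)
    L3384
    L3385
    (Nat.ble 433280 i))
   (Bool.rec (motive := fun _ => Nat)
    L3386
    L3387
    (Nat.ble 433536 i))
   (Nat.ble 433408 i))
  (Bool.rec (motive := fun _ => Nat)
   (Bool.rec (motive := fun _ => Nat)
    L3388
    L3389
    (Nat.ble 433792 i))
   (Bool.rec (motive := fun _ => Nat)
    L3390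
    L3391
    (Nat.ble 434048 i))
   (Nat.ble 433920 i))
  (Nat.ble 433664 i))
 (Nat.ble 433152 i))

/-- choice of a leaf -/
noncomputable def A0_212 (i : Nat) : Nat :=
 (Bool.rec (motive := fun _ => Nat)
 (Bool.rec (motive := fun _ => Nat)
  (Bool.rec (motive := fun _ => Nat)
   (Bool.rec (motive := fun _ => Nat)
    L3392
    L3393
    (Nat.ble 434304 i))
   (Bool.rec (motive := fun _ => Nat)
    L3394
    L3395
    (Nat.ble 434560 i))
   (Nat.ble 434432 i))
  (Bool.rec (motive := fun _ => Nat)
   (Bool.rec (motive := fun _ => Nat)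
    L3396
    L3397
    (Nat.ble 434816 i))
   (Bool.rec (motive := fun _ => Nat)
    L3398
    L3399
    (Nat.ble 435072 i))
   (Nat.ble 434944 i))
  (Nat.ble 434688 i))
 (Bool.rec (motive := fun _ => Nat)
  (Bool.rec (motive := fun _ => Nat)
   (Bool.rec (motive := fun _ => Nat)
    L3400
    L3401
    (Nat.ble 435328 i))
   (Bool.rec (motive := fun _ => Nat)
    L3402
    L3403
    (Nat.ble 435584 i))
   (Nat.ble 435456 i))
  (Bool.rec (motive := fun _ => Nat)
   (Bool.rec (motive := fun _ => Nat)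
    L3404
    L3405
    (Nat.ble 435840 i))
   (Bool.rec (motive := fun _ => Nat)
    L3406
    L3407
    (Nat.ble 436096 i))
   (Nat.ble 435968 i))
  (Nat.ble 435712 i))
 (Nat.ble 435200 i))

/-- choice of a leaf -/
noncomputable def A0_213 (i : Nat) : Nat :=
 (Bool.rec (motive := fun _ => Nat)
 (Bool.rec (motive := fun _ => Nat)
  (Bool.rec (motive := fun _ => Nat)
   (Bool.rec (motive := fun _ => Nat)
    L3408
    L3409
    (Nat.ble 436352 i))
   (Bool.rec (motive := fun _ => Nat)
    L3410
    L3411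
    (Nat.ble 436608 i))
   (Nat.ble 436480 i))
  (Bool.rec (motive := fun _ => Nat)
   (Bool.rec (motive := fun _ => Nat)
    L3412
    L3413
    (Nat.ble 436864 i))
   (Bool.rec (motive := fun _ => Nat)
    L3414
    L3415
    (Nat.ble 437120 i))
   (Nat.ble 436992 i))
  (Nat.ble 436736 i))
 (Bool.rec (motive := fun _ => Nat)
  (Bool.rec (motive := fun _ => Nat)
   (Bool.rec (motive := fun _ => Nat)
    L3416
    L3417
    (Nat.ble 437376 i))
   (Bool.rec (motive := fun _ => Nat)
    L3418
    L3419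
    (Nat.ble 437632 i))
   (Nat.ble 437504 i))
  (Bool.rec (motive := fun _ => Nat)
   (Bool.rec (motive := fun _ => Nat)
    L3420
    L3421
    (Nat.ble 437888 i))
   (Bool.rec (motive := fun _ => Nat)
    L3422
    L3423
    (Nat.ble 438144 i))
   (Nat.ble 438016 i))
  (Nat.ble 437760 i))
 (Nat.ble 437248 i))

/-- choice of a leaf -/
noncomputable def A0_214 (i : Nat) : Nat :=
 (Bool.rec (motive := fun _ => Nat)
 (Bool.rec (motive := fun _ => Nat)
  (Bool.rec (motive := fun _ => Nat)
   (Bool.rec (motive := fun _ => Nat)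
    L3424
    L3425
    (Nat.ble 438400 i))
   (Bool.rec (motive := fun _ => Nat)
    L3426
    L3427
    (Nat.ble 438656 i))
   (Nat.ble 438528 i))
  (Bool.rec (motive := fun _ => Nat)
   (Bool.rec (motive := fun _ => Nat)
    L3428
    L3429
    (Nat.ble 438912 i))
   (Bool.rec (motive := fun _ => Nat)
    L3430
    L3431
    (Nat.ble 439168 i))
   (Nat.ble 439040 i))
  (Nat.ble 438784 i))
 (Bool.rec (motive := fun _ => Nat)
  (Bool.rec (motive := fun _ => Nat)
   (Bool.rec (motive := fun _ => Nat)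
    L3432
    L3433
    (Nat.ble 439424 i))
   (Bool.rec (motive := fun _ => Nat)
    L3434
    L3435
    (Nat.ble 439680 i))
   (Nat.ble 439552 i))
  (Bool.rec (motive := fun _ => Nat)
   (Bool.rec (motive := fun _ => Nat)
    L3436
    L3437
    (Nat.ble 439936 i))
   (Bool.rec (motive := fun _ => Nat)
    L3438
    L3439
    (Nat.ble 440192 i))
   (Nat.ble 440064 i))
  (Nat.ble 439808 i))
 (Nat.ble 439296 i))

/-- choice of a leaf -/
noncomputable def A0_215 (i : Nat) : Nat :=
 (Bool.rec (motive := fun _ => Nat)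
 (Bool.rec (motive := fun _ => Nat)
  (Bool.rec (motive := fun _ => Nat)
   (Bool.rec (motive := fun _ => Nat)
    L3440
    L3441
    (Nat.ble 440448 i))
   (Bool.rec (motive := fun _ => Nat)
    L3442
    L3443
    (Nat.ble 440704 i))
   (Nat.ble 440576 i))
  (Bool.rec (motive := fun _ => Nat)
   (Bool.rec (motive := fun _ => Nat)
    L3444
    L3445
    (Nat.ble 440960 i))
   (Bool.rec (motive := fun _ => Nat)
    L3446
    L3447
    (Nat.ble 441216 i))
   (Nat.ble 441088 i))
  (Nat.ble 440832 i))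
 (Bool.rec (motive := fun _ => Nat)
  (Bool.rec (motive := fun _ => Nat)
   (Bool.rec (motive := fun _ => Nat)
    L3448
    L3449
    (Nat.ble 441472 i))
   (Bool.rec (motive := fun _ => Nat)
    L3450
    L3451
    (Nat.ble 441728 i))
   (Nat.ble 441600 i))
  (Bool.rec (motive := fun _ => Nat)
   (Bool.rec (motive := fun _ => Nat)
    L3452
    L3453
    (Nat.ble 441984 i))
   (Bool.rec (motive := fun _ => Nat)
    L3454
    L3455
    (Nat.ble 442240 i))
   (Nat.ble 442112 i))
  (Nat.ble 441856 i))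
 (Nat.ble 441344 i))

/-- choice of a leaf -/
noncomputable def A0_216 (i : Nat) : Nat :=
 (Bool.rec (motive := fun _ => Nat)
 (Bool.rec (motive := fun _ => Nat)
  (Bool.rec (motive := fun _ => Nat)
   (Bool.rec (motive := fun _ => Nat)
    L3456
    L3457
    (Nat.ble 442496 i))
   (Bool.rec (motive := fun _ => Nat)
    L3458
    L3459
    (Nat.ble 442752 i))
   (Nat.ble 442624 i))
  (Bool.rec (motive := fun _ => Nat)
   (Bool.rec (motive := fun _ => Nat)
    L3460
    L3461
    (Nat.ble 443008 i))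
   (Bool.rec (motive := fun _ => Nat)
    L3462
    L3463
    (Nat.ble 443264 i))
   (Nat.ble 443136 i))
  (Nat.ble 442880 i))
 (Bool.rec (motive := fun _ => Nat)
  (Bool.rec (motive := fun _ => Nat)
   (Bool.rec (motive := fun _ => Nat)
    L3464
    L3465
    (Nat.ble 443520 i))
   (Bool.rec (motive := fun _ => Nat)
    L3466
    L3467
    (Nat.ble 443776 i))
   (Nat.ble 443648 i))
  (Bool.rec (motive := fun _ => Nat)
   (Bool.rec (motive := fun _ => Nat)
    L3468
    L3469
    (Nat.ble 444032 i))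
   (Bool.rec (motive := fun _ => Nat)
    L3470
    L3471
    (Nat.ble 444288 i))
   (Nat.ble 444160 i))
  (Nat.ble 443904 i))
 (Nat.ble 443392 i))

/-- choice of a leaf -/
noncomputable def A0_217 (i : Nat) : Nat :=
 (Bool.rec (motive := fun _ => Nat)
 (Bool.rec (motive := fun _ => Nat)
  (Bool.rec (motive := fun _ => Nat)
   (Bool.rec (motive := fun _ => Nat)
    L3472
    L3473
    (Nat.ble 444544 i))
   (Bool.rec (motive := fun _ => Nat)
    L3474
    L3475
    (Nat.ble 444800 i))
   (Nat.ble 444672 i))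
  (Bool.rec (motive := fun _ => Nat)
   (Bool.rec (motive := fun _ => Nat)
    L3476
    L3477
    (Nat.ble 445056 i))
   (Bool.rec (motive := fun _ => Nat)
    L3478
    L3479
    (Nat.ble 445312 i))
   (Nat.ble 445184 i))
  (Nat.ble 444928 i))
 (Bool.rec (motive := fun _ => Nat)
  (Bool.rec (motive := fun _ => Nat)
   (Bool.rec (motive := fun _ => Nat)
    L3480
    L3481
    (Nat.ble 445568 i))
   (Bool.rec (motive := fun _ => Nat)
    L3482
    L3483
    (Nat.ble 445824 i))
   (Nat.ble 445696 i))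
  (Bool.rec (motive := fun _ => Nat)
   (Bool.rec (motive := fun _ => Nat)
    L3484
    L3485
    (Nat.ble 446080 i))
   (Bool.rec (motive := fun _ => Nat)
    L3486
    L3487
    (Nat.ble 446336 i))
   (Nat.ble 446208 i))
  (Nat.ble 445952 i))
 (Nat.ble 445440 i))

/-- choice of a leaf -/
noncomputable def A0_218 (i : Nat) : Nat :=
 (Bool.rec (motive := fun _ => Nat)
 (Bool.rec (motive := fun _ => Nat)
  (Bool.rec (motive := fun _ => Nat)
   (Bool.rec (motive := fun _ => Nat)
    L3488
    L3489
    (Nat.ble 446592 i))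
   (Bool.rec (motive := fun _ => Nat)
    L3490
    L3491
    (Nat.ble 446848 i))
   (Nat.ble 446720 i))
  (Bool.rec (motive := fun _ => Nat)
   (Bool.rec (motive := fun _ => Nat)
    L3492
    L3493
    (Nat.ble 447104 i))
   (Bool.rec (motive := fun _ => Nat)
    L3494
    L3495
    (Nat.ble 447360 i))
   (Nat.ble 447232 i))
  (Nat.ble 446976 i))
 (Bool.rec (motive := fun _ => Nat)
  (Bool.rec (motive := fun _ => Nat)
   (Bool.rec (motive := fun _ => Nat)
    L3496
    L3497
    (Nat.ble 447616 i))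
   (Bool.rec (motive := fun _ => Nat)
    L3498
    L3499
    (Nat.ble 447872 i))
   (Nat.ble 447744 i))
  (Bool.rec (motive := fun _ => Nat)
   (Bool.rec (motive := fun _ => Nat)
    L3500
    L3501
    (Nat.ble 448128 i))
   (Bool.rec (motive := fun _ => Nat)
    L3502
    L3503
    (Nat.ble 448384 i))
   (Nat.ble 448256 i))
  (Nat.ble 448000 i))
 (Nat.ble 447488 i))

/-- choice of a leaf -/
noncomputable def A0_219 (i : Nat) : Nat :=
 (Bool.rec (motive := fun _ => Nat)
 (Bool.rec (motive := fun _ => Nat)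
  (Bool.rec (motive := fun _ => Nat)
   (Bool.rec (motive := fun _ => Nat)
    L3504
    L3505
    (Nat.ble 448640 i))
   (Bool.rec (motive := fun _ => Nat)
    L3506
    L3507
    (Nat.ble 448896 i))
   (Nat.ble 448768 i))
  (Bool.rec (motive := fun _ => Nat)
   (Bool.rec (motive := fun _ => Nat)
    L3508
    L3509
    (Nat.ble 449152 i))
   (Bool.rec (motive := fun _ => Nat)
    L3510
    L3511
    (Nat.ble 449408 i))
   (Nat.ble 449280 i))
  (Nat.ble 449024 i))
 (Bool.rec (motive := fun _ => Nat)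
  (Bool.rec (motive := fun _ => Nat)
   (Bool.rec (motive := fun _ => Nat)
    L3512
    L3513
    (Nat.ble 449664 i))
   (Bool.rec (motive := fun _ => Nat)
    L3514
    L3515
    (Nat.ble 449920 i))
   (Nat.ble 449792 i))
  (Bool.rec (motive := fun _ => Nat)
   (Bool.rec (motive := fun _ => Nat)
    L3516
    L3517
    (Nat.ble 450176 i))
   (Bool.rec (motive := fun _ => Nat)
    L3518
    L3519
    (Nat.ble 450432 i))
   (Nat.ble 450304 i))
  (Nat.ble 450048 i))
 (Nat.ble 449536 i))

/-- choice of a leaf -/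
noncomputable def A0_220 (i : Nat) : Nat :=
 (Bool.rec (motive := fun _ => Nat)
 (Bool.rec (motive := fun _ => Nat)
  (Bool.rec (motive := fun _ => Nat)
   (Bool.rec (motive := fun _ => Nat)
    L3520
    L3521
    (Nat.ble 450688 i))
   (Bool.rec (motive := fun _ => Nat)
    L3522
    L3523
    (Nat.ble 450944 i))
   (Nat.ble 450816 i))
  (Bool.rec (motive := fun _ => Nat)
   (Bool.rec (motive := fun _ => Nat)
    L3524
    L3525
    (Nat.ble 451200 i))
   (Bool.rec (motive := fun _ => Nat)
    L3526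
    L3527
    (Nat.ble 451456 i))
   (Nat.ble 451328 i))
  (Nat.ble 451072 i))
 (Bool.rec (motive := fun _ => Nat)
  (Bool.rec (motive := fun _ => Nat)
   (Bool.rec (motive := fun _ => Nat)
    L3528
    L3529
    (Nat.ble 451712 i))
   (Bool.rec (motive := fun _ => Nat)
    L3530
    L3531
    (Nat.ble 451968 i))
   (Nat.ble 451840 i))
  (Bool.rec (motive := fun _ => Nat)
   (Bool.rec (motive := fun _ => Nat)
    L3532
    L3533
    (Nat.ble 452224 i))
   (Bool.rec (motive := fun _ => Nat)
    L3534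
    L3535
    (Nat.ble 452480 i))
   (Nat.ble 452352 i))
  (Nat.ble 452096 i))
 (Nat.ble 451584 i))

/-- choice of a leaf -/
noncomputable def A0_221 (i : Nat) : Nat :=
 (Bool.rec (motive := fun _ => Nat)
 (Bool.rec (motive := fun _ => Nat)
  (Bool.rec (motive := fun _ => Nat)
   (Bool.rec (motive := fun _ => Nat)
    L3536
    L3537
    (Nat.ble 452736 i))
   (Bool.rec (motive := fun _ => Nat)
    L3538
    L3539
    (Nat.ble 452992 i))
   (Nat.ble 452864 i))
  (Bool.rec (motive := fun _ => Nat)
   (Bool.rec (motive := fun _ => Nat)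
    L3540
    L3541
    (Nat.ble 453248 i))
   (Bool.rec (motive := fun _ => Nat)
    L3542
    L3543
    (Nat.ble 453504 i))
   (Nat.ble 453376 i))
  (Nat.ble 453120 i))
 (Bool.rec (motive := fun _ => Nat)
  (Bool.rec (motive := fun _ => Nat)
   (Bool.rec (motive := fun _ => Nat)
    L3544
    L3545
    (Nat.ble 453760 i))
   (Bool.rec (motive := fun _ => Nat)
    L3546
    L3547
    (Nat.ble 454016 i))
   (Nat.ble 453888 i))
  (Bool.rec (motive := fun _ => Nat)
   (Bool.rec (motive := fun _ => Nat)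
    L3548
    L3549
    (Nat.ble 454272 i))
   (Bool.rec (motive := fun _ => Nat)
    L3550
    L3551
    (Nat.ble 454528 i))
   (Nat.ble 454400 i))
  (Nat.ble 454144 i))
 (Nat.ble 453632 i))

/-- choice of a leaf -/
noncomputable def A0_222 (i : Nat) : Nat :=
 (Bool.rec (motive := fun _ => Nat)
 (Bool.rec (motive := fun _ => Nat)
  (Bool.rec (motive := fun _ => Nat)
   (Bool.rec (motive := fun _ => Nat)
    L3552
    L3553
    (Nat.ble 454784 i))
   (Bool.rec (motive := fun _ => Nat)
    L3554
    L3555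
    (Nat.ble 455040 i))
   (Nat.ble 454912 i))
  (Bool.rec (motive := fun _ => Nat)
   (Bool.rec (motive := fun _ => Nat)
    L3556
    L3557
    (Nat.ble 455296 i))
   (Bool.rec (motive := fun _ => Nat)
    L3558
    L3559
    (Nat.ble 455552 i))
   (Nat.ble 455424 i))
  (Nat.ble 455168 i))
 (Bool.rec (motive := fun _ => Nat)
  (Bool.rec (motive := fun _ => Nat)
   (Bool.rec (motive := fun _ => Nat)
    L3560
    L3561
    (Nat.ble 455808 i))
   (Bool.rec (motive := fun _ => Nat)
    L3562
    L3563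
    (Nat.ble 456064 i))
   (Nat.ble 455936 i))
  (Bool.rec (motive := fun _ => Nat)
   (Bool.rec (motive := fun _ => Nat)
    L3564
    L3565
    (Nat.ble 456320 i))
   (Bool.rec (motive := fun _ => Nat)
    L3566
    L3567
    (Nat.ble 456576 i))
   (Nat.ble 456448 i))
  (Nat.ble 456192 i))
 (Nat.ble 455680 i))

/-- choice of a leaf -/
noncomputable def A0_223 (i : Nat) : Nat :=
 (Bool.rec (motive := fun _ => Nat)
 (Bool.rec (motive := fun _ => Nat)
  (Bool.rec (motive := fun _ => Nat)
   (Bool.rec (motive := fun _ => Nat)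
    L3568
    L3569
    (Nat.ble 456832 i))
   (Bool.rec (motive := fun _ => Nat)
    L3570
    L3571
    (Nat.ble 457088 i))
   (Nat.ble 456960 i))
  (Bool.rec (motive := fun _ => Nat)
   (Bool.rec (motive := fun _ => Nat)
    L3572
    L3573
    (Nat.ble 457344 i))
   (Bool.rec (motive := fun _ => Nat)
    L3574
    L3575
    (Nat.ble 457600 i))
   (Nat.ble 457472 i))
  (Nat.ble 457216 i))
 (Bool.rec (motive := fun _ => Nat)
  (Bool.rec (motive := fun _ => Nat)
   (Bool.rec (motive := fun _ => Nat)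
    L3576
    L3577
    (Nat.ble 457856 i))
   (Bool.rec (motive := fun _ => Nat)
    L3578
    L3579
    (Nat.ble 458112 i))
   (Nat.ble 457984 i))
  (Bool.rec (motive := fun _ => Nat)
   (Bool.rec (motive := fun _ => Nat)
    L3580
    L3581
    (Nat.ble 458368 i))
   (Bool.rec (motive := fun _ => Nat)
    L3582
    L3583
    (Nat.ble 458624 i))
   (Nat.ble 458496 i))
  (Nat.ble 458240 i))
 (Nat.ble 457728 i))

/-- choice of a leaf -/
noncomputable def A0_224 (i : Nat) : Nat :=
 (Bool.rec (motive := fun _ => Nat)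
 (Bool.rec (motive := fun _ => Nat)
  (Bool.rec (motive := fun _ => Nat)
   (Bool.rec (motive := fun _ => Nat)
    L3584
    L3585
    (Nat.ble 458880 i))
   (Bool.rec (motive := fun _ => Nat)
    L3586
    L3587
    (Nat.ble 459136 i))
   (Nat.ble 459008 i))
  (Bool.rec (motive := fun _ => Nat)
   (Bool.rec (motive := fun _ => Nat)
    L3588
    L3589
    (Nat.ble 459392 i))
   (Bool.rec (motive := fun _ => Nat)
    L3590
    L3591
    (Nat.ble 459648 i))
   (Nat.ble 459520 i))
  (Nat.ble 459264 i))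
 (Bool.rec (motive := fun _ => Nat)
  (Bool.rec (motive := fun _ => Nat)
   (Bool.rec (motive := fun _ => Nat)
    L3592
    L3593
    (Nat.ble 459904 i))
   (Bool.rec (motive := fun _ => Nat)
    L3594
    L3595
    (Nat.ble 460160 i))
   (Nat.ble 460032 i))
  (Bool.rec (motive := fun _ => Nat)
   (Bool.rec (motive := fun _ => Nat)
    L3596
    L3597
    (Nat.ble 460416 i))
   (Bool.rec (motive := fun _ => Nat)
    L3598
    L3599
    (Nat.ble 460672 i))
   (Nat.ble 460544 i))
  (Nat.ble 460288 i))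
 (Nat.ble 459776 i))

/-- choice of a leaf -/
noncomputable def A0_225 (i : Nat) : Nat :=
 (Bool.rec (motive := fun _ => Nat)
 (Bool.rec (motive := fun _ => Nat)
  (Bool.rec (motive := fun _ => Nat)
   (Bool.rec (motive := fun _ => Nat)
    L3600
    L3601
    (Nat.ble 460928 i))
   (Bool.rec (motive := fun _ => Nat)
    L3602
    L3603
    (Nat.ble 461184 i))
   (Nat.ble 461056 i))
  (Bool.rec (motive := fun _ => Nat)
   (Bool.rec (motive := fun _ => Nat)
    L3604
    L3605
    (Nat.ble 461440 i))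
   (Bool.rec (motive := fun _ => Nat)
    L3606
    L3607
    (Nat.ble 461696 i))
   (Nat.ble 461568 i))
  (Nat.ble 461312 i))
 (Bool.rec (motive := fun _ => Nat)
  (Bool.rec (motive := fun _ => Nat)
   (Bool.rec (motive := fun _ => Nat)
    L3608
    L3609
    (Nat.ble 461952 i))
   (Bool.rec (motive := fun _ => Nat)
    L3610
    L3611
    (Nat.ble 462208 i))
   (Nat.ble 462080 i))
  (Bool.rec (motive := fun _ => Nat)
   (Bool.rec (motive := fun _ => Nat)
    L3612
    L3613
    (Nat.ble 462464 i))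
   (Bool.rec (motive := fun _ => Nat)
    L3614
    L3615
    (Nat.ble 462720 i))
   (Nat.ble 462592 i))
  (Nat.ble 462336 i))
 (Nat.ble 461824 i))

/-- choice of a leaf -/
noncomputable def A0_226 (i : Nat) : Nat :=
 (Bool.rec (motive := fun _ => Nat)
 (Bool.rec (motive := fun _ => Nat)
  (Bool.rec (motive := fun _ => Nat)
   (Bool.rec (motive := fun _ => Nat)
    L3616
    L3617
    (Nat.ble 462976 i))
   (Bool.rec (motive := fun _ => Nat)
    L3618
    L3619
    (Nat.ble 463232 i))
   (Nat.ble 463104 i))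
  (Bool.rec (motive := fun _ => Nat)
   (Bool.rec (motive := fun _ => Nat)
    L3620
    L3621
    (Nat.ble 463488 i))
   (Bool.rec (motive := fun _ => Nat)
    L3622
    L3623
    (Nat.ble 463744 i))
   (Nat.ble 463616 i))
  (Nat.ble 463360 i))
 (Bool.rec (motive := fun _ => Nat)
  (Bool.rec (motive := fun _ => Nat)
   (Bool.rec (motive := fun _ => Nat)
    L3624
    L3625
    (Nat.ble 464000 i))
   (Bool.rec (motive := fun _ => Nat)
    L3626
    L3627
    (Nat.ble 464256 i))
   (Nat.ble 464128 i))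
  (Bool.rec (motive := fun _ => Nat)
   (Bool.rec (motive := fun _ => Nat)
    L3628
    L3629
    (Nat.ble 464512 i))
   (Bool.rec (motive := fun _ => Nat)
    L3630
    L3631
    (Nat.ble 464768 i))
   (Nat.ble 464640 i))
  (Nat.ble 464384 i))
 (Nat.ble 463872 i))

/-- choice of a leaf -/
noncomputable def A0_227 (i : Nat) : Nat :=
 (Bool.rec (motive := fun _ => Nat)
 (Bool.rec (motive := fun _ => Nat)
  (Bool.rec (motive := fun _ => Nat)
   (Bool.rec (motive := fun _ => Nat)
    L3632
    L3633
    (Nat.ble 465024 i))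
   (Bool.rec (motive := fun _ => Nat)
    L3634
    L3635
    (Nat.ble 465280 i))
   (Nat.ble 465152 i))
  (Bool.rec (motive := fun _ => Nat)
   (Bool.rec (motive := fun _ => Nat)
    L3636
    L3637
    (Nat.ble 465536 i))
   (Bool.rec (motive := fun _ => Nat)
    L3638
    L3639
    (Nat.ble 465792 i))
   (Nat.ble 465664 i))
  (Nat.ble 465408 i))
 (Bool.rec (motive := fun _ => Nat)
  (Bool.rec (motive := fun _ => Nat)
   (Bool.rec (motive := fun _ => Nat)
    L3640
    L3641
    (Nat.ble 466048 i))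
   (Bool.rec (motive := fun _ => Nat)
    L3642
    L3643
    (Nat.ble 466304 i))
   (Nat.ble 466176 i))
  (Bool.rec (motive := fun _ => Nat)
   (Bool.rec (motive := fun _ => Nat)
    L3644
    L3645
    (Nat.ble 466560 i))
   (Bool.rec (motive := fun _ => Nat)
    L3646
    L3647
    (Nat.ble 466816 i))
   (Nat.ble 466688 i))
  (Nat.ble 466432 i))
 (Nat.ble 465920 i))

/-- choice of a leaf -/
noncomputable def A0_228 (i : Nat) : Nat :=
 (Bool.rec (motive := fun _ => Nat)
 (Bool.rec (motive := fun _ => Nat)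
  (Bool.rec (motive := fun _ => Nat)
   (Bool.rec (motive := fun _ => Nat)
    L3648
    L3649
    (Nat.ble 467072 i))
   (Bool.rec (motive := fun _ => Nat)
    L3650
    L3651
    (Nat.ble 467328 i))
   (Nat.ble 467200 i))
  (Bool.rec (motive := fun _ => Nat)
   (Bool.rec (motive := fun _ => Nat)
    L3652
    L3653
    (Nat.ble 467584 i))
   (Bool.rec (motive := fun _ => Nat)
    L3654
    L3655
    (Nat.ble 467840 i))
   (Nat.ble 467712 i))
  (Nat.ble 467456 i))
 (Bool.rec (motive := fun _ => Nat)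
  (Bool.rec (motive := fun _ => Nat)
   (Bool.rec (motive := fun _ => Nat)
    L3656
    L3657
    (Nat.ble 468096 i))
   (Bool.rec (motive := fun _ => Nat)
    L3658
    L3659
    (Nat.ble 468352 i))
   (Nat.ble 468224 i))
  (Bool.rec (motive := fun _ => Nat)
   (Bool.rec (motive := fun _ => Nat)
    L3660
    L3661
    (Nat.ble 468608 i))
   (Bool.rec (motive := fun _ => Nat)
    L3662
    L3663
    (Nat.ble 468864 i))
   (Nat.ble 468736 i))
  (Nat.ble 468480 i))
 (Nat.ble 467968 i))

/-- choice of a leaf -/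
noncomputable def A0_229 (i : Nat) : Nat :=
 (Bool.rec (motive := fun _ => Nat)
 (Bool.rec (motive := fun _ => Nat)
  (Bool.rec (motive := fun _ => Nat)
   (Bool.rec (motive := fun _ => Nat)
    L3664
    L3665
    (Nat.ble 469120 i))
   (Bool.rec (motive := fun _ => Nat)
    L3666
    L3667
    (Nat.ble 469376 i))
   (Nat.ble 469248 i))
  (Bool.rec (motive := fun _ => Nat)
   (Bool.rec (motive := fun _ => Nat)
    L3668
    L3669
    (Nat.ble 469632 i))
   (Bool.rec (motive := fun _ => Nat)
    L3670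
    L3671
    (Nat.ble 469888 i))
   (Nat.ble 469760 i))
  (Nat.ble 469504 i))
 (Bool.rec (motive := fun _ => Nat)
  (Bool.rec (motive := fun _ => Nat)
   (Bool.rec (motive := fun _ => Nat)
    L3672
    L3673
    (Nat.ble 470144 i))
   (Bool.rec (motive := fun _ => Nat)
    L3674
    L3675
    (Nat.ble 470400 i))
   (Nat.ble 470272 i))
  (Bool.rec (motive := fun _ => Nat)
   (Bool.rec (motive := fun _ => Nat)
    L3676
    L3677
    (Nat.ble 470656 i))
   (Bool.rec (motive := fun _ => Nat)
    L3678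
    L3679
    (Nat.ble 470912 i))
   (Nat.ble 470784 i))
  (Nat.ble 470528 i))
 (Nat.ble 470016 i))

/-- choice of a leaf -/
noncomputable def A0_230 (i : Nat) : Nat :=
 (Bool.rec (motive := fun _ => Nat)
 (Bool.rec (motive := fun _ => Nat)
  (Bool.rec (motive := fun _ => Nat)
   (Bool.rec (motive := fun _ => Nat)
    L3680
    L3681
    (Nat.ble 471168 i))
   (Bool.rec (motive := fun _ => Nat)
    L3682
    L3683
    (Nat.ble 471424 i))
   (Nat.ble 471296 i))
  (Bool.rec (motive := fun _ => Nat)
   (Bool.rec (motive := fun _ => Nat)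
    L3684
    L3685
    (Nat.ble 471680 i))
   (Bool.rec (motive := fun _ => Nat)
    L3686
    L3687
    (Nat.ble 471936 i))
   (Nat.ble 471808 i))
  (Nat.ble 471552 i))
 (Bool.rec (motive := fun _ => Nat)
  (Bool.rec (motive := fun _ => Nat)
   (Bool.rec (motive := fun _ => Nat)
    L3688
    L3689
    (Nat.ble 472192 i))
   (Bool.rec (motive := fun _ => Nat)
    L3690
    L3691
    (Nat.ble 472448 i))
   (Nat.ble 472320 i))
  (Bool.rec (motive := fun _ => Nat)
   (Bool.rec (motive := fun _ => Nat)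
    L3692
    L3693
    (Nat.ble 472704 i))
   (Bool.rec (motive := fun _ => Nat)
    L3694
    L3695
    (Nat.ble 472960 i))
   (Nat.ble 472832 i))
  (Nat.ble 472576 i))
 (Nat.ble 472064 i))

/-- choice of a leaf -/
noncomputable def A0_231 (i : Nat) : Nat :=
 (Bool.rec (motive := fun _ => Nat)
 (Bool.rec (motive := fun _ => Nat)
  (Bool.rec (motive := fun _ => Nat)
   (Bool.rec (motive := fun _ => Nat)
    L3696
    L3697
    (Nat.ble 473216 i))
   (Bool.rec (motive := fun _ => Nat)
    L3698
    L3699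
    (Nat.ble 473472 i))
   (Nat.ble 473344 i))
  (Bool.rec (motive := fun _ => Nat)
   (Bool.rec (motive := fun _ => Nat)
    L3700
    L3701
    (Nat.ble 473728 i))
   (Bool.rec (motive := fun _ => Nat)
    L3702
    L3703
    (Nat.ble 473984 i))
   (Nat.ble 473856 i))
  (Nat.ble 473600 i))
 (Bool.rec (motive := fun _ => Nat)
  (Bool.rec (motive := fun _ => Nat)
   (Bool.rec (motive := fun _ => Nat)
    L3704
    L3705
    (Nat.ble 474240 i))
   (Bool.rec (motive := fun _ => Nat)
    L3706
    L3707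
    (Nat.ble 474496 i))
   (Nat.ble 474368 i))
  (Bool.rec (motive := fun _ => Nat)
   (Bool.rec (motive := fun _ => Nat)
    L3708
    L3709
    (Nat.ble 474752 i))
   (Bool.rec (motive := fun _ => Nat)
    L3710
    L3711
    (Nat.ble 475008 i))
   (Nat.ble 474880 i))
  (Nat.ble 474624 i))
 (Nat.ble 474112 i))

/-- choice of a leaf -/
noncomputable def A0_232 (i : Nat) : Nat :=
 (Bool.rec (motive := fun _ => Nat)
 (Bool.rec (motive := fun _ => Nat)
  (Bool.rec (motive := fun _ => Nat)
   (Bool.rec (motive := fun _ => Nat)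
    L3712
    L3713
    (Nat.ble 475264 i))
   (Bool.rec (motive := fun _ => Nat)
    L3714
    L3715
    (Nat.ble 475520 i))
   (Nat.ble 475392 i))
  (Bool.rec (motive := fun _ => Nat)
   (Bool.rec (motive := fun _ => Nat)
    L3716
    L3717
    (Nat.ble 475776 i))
   (Bool.rec (motive := fun _ => Nat)
    L3718
    L3719
    (Nat.ble 476032 i))
   (Nat.ble 475904 i))
  (Nat.ble 475648 i))
 (Bool.rec (motive := fun _ => Nat)
  (Bool.rec (motive := fun _ => Nat)
   (Bool.rec (motive := fun _ => Nat)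
    L3720
    L3721
    (Nat.ble 476288 i))
   (Bool.rec (motive := fun _ => Nat)
    L3722
    L3723
    (Nat.ble 476544 i))
   (Nat.ble 476416 i))
  (Bool.rec (motive := fun _ => Nat)
   (Bool.rec (motive := fun _ => Nat)
    L3724
    L3725
    (Nat.ble 476800 i))
   (Bool.rec (motive := fun _ => Nat)
    L3726
    L3727
    (Nat.ble 477056 i))
   (Nat.ble 476928 i))
  (Nat.ble 476672 i))
 (Nat.ble 476160 i))

/-- choice of a leaf -/
noncomputable def A0_233 (i : Nat) : Nat :=
 (Bool.rec (motive := fun _ => Nat)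
 (Bool.rec (motive := fun _ => Nat)
  (Bool.rec (motive := fun _ => Nat)
   (Bool.rec (motive := fun _ => Nat)
    L3728
    L3729
    (Nat.ble 477312 i))
   (Bool.rec (motive := fun _ => Nat)
    L3730
    L3731
    (Nat.ble 477568 i))
   (Nat.ble 477440 i))
  (Bool.rec (motive := fun _ => Nat)
   (Bool.rec (motive := fun _ => Nat)
    L3732
    L3733
    (Nat.ble 477824 i))
   (Bool.rec (motive := fun _ => Nat)
    L3734
    L3735
    (Nat.ble 478080 i))
   (Nat.ble 477952 i))
  (Nat.ble 477696 i))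
 (Bool.rec (motive := fun _ => Nat)
  (Bool.rec (motive := fun _ => Nat)
   (Bool.rec (motive := fun _ => Nat)
    L3736
    L3737
    (Nat.ble 478336 i))
   (Bool.rec (motive := fun _ => Nat)
    L3738
    L3739
    (Nat.ble 478592 i))
   (Nat.ble 478464 i))
  (Bool.rec (motive := fun _ => Nat)
   (Bool.rec (motive := fun _ => Nat)
    L3740
    L3741
    (Nat.ble 478848 i))
   (Bool.rec (motive := fun _ => Nat)
    L3742
    L3743
    (Nat.ble 479104 i))
   (Nat.ble 478976 i))
  (Nat.ble 478720 i))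
 (Nat.ble 478208 i))

/-- choice of a leaf -/
noncomputable def A0_234 (i : Nat) : Nat :=
 (Bool.rec (motive := fun _ => Nat)
 (Bool.rec (motive := fun _ => Nat)
  (Bool.rec (motive := fun _ => Nat)
   (Bool.rec (motive := fun _ => Nat)
    L3744
    L3745
    (Nat.ble 479360 i))
   (Bool.rec (motive := fun _ => Nat)
    L3746
    L3747
    (Nat.ble 479616 i))
   (Nat.ble 479488 i))
  (Bool.rec (motive := fun _ => Nat)
   (Bool.rec (motive := fun _ => Nat)
    L3748
    L3749
    (Nat.ble 479872 i))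
   (Bool.rec (motive := fun _ => Nat)
    L3750
    L3751
    (Nat.ble 480128 i))
   (Nat.ble 480000 i))
  (Nat.ble 479744 i))
 (Bool.rec (motive := fun _ => Nat)
  (Bool.rec (motive := fun _ => Nat)
   (Bool.rec (motive := fun _ => Nat)
    L3752
    L3753
    (Nat.ble 480384 i))
   (Bool.rec (motive := fun _ => Nat)
    L3754
    L3755
    (Nat.ble 480640 i))
   (Nat.ble 480512 i))
  (Bool.rec (motive := fun _ => Nat)
   (Bool.rec (motive := fun _ => Nat)
    L3756
    L3757
    (Nat.ble 480896 i))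
   (Bool.rec (motive := fun _ => Nat)
    L3758
    L3759
    (Nat.ble 481152 i))
   (Nat.ble 481024 i))
  (Nat.ble 480768 i))
 (Nat.ble 480256 i))

/-- choice of a leaf -/
noncomputable def A0_235 (i : Nat) : Nat :=
 (Bool.rec (motive := fun _ => Nat)
 (Bool.rec (motive := fun _ => Nat)
  (Bool.rec (motive := fun _ => Nat)
   (Bool.rec (motive := fun _ => Nat)
    L3760
    L3761
    (Nat.ble 481408 i))
   (Bool.rec (motive := fun _ => Nat)
    L3762
    L3763
    (Nat.ble 481664 i))
   (Nat.ble 481536 i))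
  (Bool.rec (motive := fun _ => Nat)
   (Bool.rec (motive := fun _ => Nat)
    L3764
    L3765
    (Nat.ble 481920 i))
   (Bool.rec (motive := fun _ => Nat)
    L3766
    L3767
    (Nat.ble 482176 i))
   (Nat.ble 482048 i))
  (Nat.ble 481792 i))
 (Bool.rec (motive := fun _ => Nat)
  (Bool.rec (motive := fun _ => Nat)
   (Bool.rec (motive := fun _ => Nat)
    L3768
    L3769
    (Nat.ble 482432 i))
   (Bool.rec (motive := fun _ => Nat)
    L3770
    L3771
    (Nat.ble 482688 i))
   (Nat.ble 482560 i))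
  (Bool.rec (motive := fun _ => Nat)
   (Bool.rec (motive := fun _ => Nat)
    L3772
    L3773
    (Nat.ble 482944 i))
   (Bool.rec (motive := fun _ => Nat)
    L3774
    L3775
    (Nat.ble 483200 i))
   (Nat.ble 483072 i))
  (Nat.ble 482816 i))
 (Nat.ble 482304 i))

/-- choice of a leaf -/
noncomputable def A0_236 (i : Nat) : Nat :=
 (Bool.rec (motive := fun _ => Nat)
 (Bool.rec (motive := fun _ => Nat)
  (Bool.rec (motive := fun _ => Nat)
   (Bool.rec (motive := fun _ => Nat)
    L3776
    L3777
    (Nat.ble 483456 i))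
   (Bool.rec (motive := fun _ => Nat)
    L3778
    L3779
    (Nat.ble 483712 i))
   (Nat.ble 483584 i))
  (Bool.rec (motive := fun _ => Nat)
   (Bool.rec (motive := fun _ => Nat)
    L3780
    L3781
    (Nat.ble 483968 i))
   (Bool.rec (motive := fun _ => Nat)
    L3782
    L3783
    (Nat.ble 484224 i))
   (Nat.ble 484096 i))
  (Nat.ble 483840 i))
 (Bool.rec (motive := fun _ => Nat)
  (Bool.rec (motive := fun _ => Nat)
   (Bool.rec (motive := fun _ => Nat)
    L3784
    L3785
    (Nat.ble 484480 i))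
   (Bool.rec (motive := fun _ => Nat)
    L3786
    L3787
    (Nat.ble 484736 i))
   (Nat.ble 484608 i))
  (Bool.rec (motive := fun _ => Nat)
   (Bool.rec (motive := fun _ => Nat)
    L3788
    L3789
    (Nat.ble 484992 i))
   (Bool.rec (motive := fun _ => Nat)
    L3790
    L3791
    (Nat.ble 485248 i))
   (Nat.ble 485120 i))
  (Nat.ble 484864 i))
 (Nat.ble 484352 i))

/-- choice of a leaf -/
noncomputable def A0_237 (i : Nat) : Nat :=
 (Bool.rec (motive := fun _ => Nat)
 (Bool.rec (motive := fun _ => Nat)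
  (Bool.rec (motive := fun _ => Nat)
   (Bool.rec (motive := fun _ => Nat)
    L3792
    L3793
    (Nat.ble 485504 i))
   (Bool.rec (motive := fun _ => Nat)
    L3794
    L3795
    (Nat.ble 485760 i))
   (Nat.ble 485632 i))
  (Bool.rec (motive := fun _ => Nat)
   (Bool.rec (motive := fun _ => Nat)
    L3796
    L3797
    (Nat.ble 486016 i))
   (Bool.rec (motive := fun _ => Nat)
    L3798
    L3799
    (Nat.ble 486272 i))
   (Nat.ble 486144 i))
  (Nat.ble 485888 i))
 (Bool.rec (motive := fun _ => Nat)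
  (Bool.rec (motive := fun _ => Nat)
   (Bool.rec (motive := fun _ => Nat)
    L3800
    L3801
    (Nat.ble 486528 i))
   (Bool.rec (motive := fun _ => Nat)
    L3802
    L3803
    (Nat.ble 486784 i))
   (Nat.ble 486656 i))
  (Bool.rec (motive := fun _ => Nat)
   (Bool.rec (motive := fun _ => Nat)
    L3804
    L3805
    (Nat.ble 487040 i))
   (Bool.rec (motive := fun _ => Nat)
    L3806
    L3807
    (Nat.ble 487296 i))
   (Nat.ble 487168 i))
  (Nat.ble 486912 i))
 (Nat.ble 486400 i))

/-- choice of a leaf -/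
noncomputable def A0_238 (i : Nat) : Nat :=
 (Bool.rec (motive := fun _ => Nat)
 (Bool.rec (motive := fun _ => Nat)
  (Bool.rec (motive := fun _ => Nat)
   (Bool.rec (motive := fun _ => Nat)
    L3808
    L3809
    (Nat.ble 487552 i))
   (Bool.rec (motive := fun _ => Nat)
    L3810
    L3811
    (Nat.ble 487808 i))
   (Nat.ble 487680 i))
  (Bool.rec (motive := fun _ => Nat)
   (Bool.rec (motive := fun _ => Nat)
    L3812
    L3813
    (Nat.ble 488064 i))
   (Bool.rec (motive := fun _ => Nat)
    L3814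
    L3815
    (Nat.ble 488320 i))
   (Nat.ble 488192 i))
  (Nat.ble 487936 i))
 (Bool.rec (motive := fun _ => Nat)
  (Bool.rec (motive := fun _ => Nat)
   (Bool.rec (motive := fun _ => Nat)
    L3816
    L3817
    (Nat.ble 488576 i))
   (Bool.rec (motive := fun _ => Nat)
    L3818
    L3819
    (Nat.ble 488832 i))
   (Nat.ble 488704 i))
  (Bool.rec (motive := fun _ => Nat)
   (Bool.rec (motive := fun _ => Nat)
    L3820
    L3821
    (Nat.ble 489088 i))
   (Bool.rec (motive := fun _ => Nat)
    L3822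
    L3823
    (Nat.ble 489344 i))
   (Nat.ble 489216 i))
  (Nat.ble 488960 i))
 (Nat.ble 488448 i))

/-- choice of a leaf -/
noncomputable def A0_239 (i : Nat) : Nat :=
 (Bool.rec (motive := fun _ => Nat)
 (Bool.rec (motive := fun _ => Nat)
  (Bool.rec (motive := fun _ => Nat)
   (Bool.rec (motive := fun _ => Nat)
    L3824
    L3825
    (Nat.ble 489600 i))
   (Bool.rec (motive := fun _ => Nat)
    L3826
    L3827
    (Nat.ble 489856 i))
   (Nat.ble 489728 i))
  (Bool.rec (motive := fun _ => Nat)
   (Bool.rec (motive := fun _ => Nat)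
    L3828
    L3829
    (Nat.ble 490112 i))
   (Bool.rec (motive := fun _ => Nat)
    L3830
    L3831
    (Nat.ble 490368 i))
   (Nat.ble 490240 i))
  (Nat.ble 489984 i))
 (Bool.rec (motive := fun _ => Nat)
  (Bool.rec (motive := fun _ => Nat)
   (Bool.rec (motive := fun _ => Nat)
    L3832
    L3833
    (Nat.ble 490624 i))
   (Bool.rec (motive := fun _ => Nat)
    L3834
    L3835
    (Nat.ble 490880 i))
   (Nat.ble 490752 i))
  (Bool.rec (motive := fun _ => Nat)
   (Bool.rec (motive := fun _ => Nat)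
    L3836
    L3837
    (Nat.ble 491136 i))
   (Bool.rec (motive := fun _ => Nat)
    L3838
    L3839
    (Nat.ble 491392 i))
   (Nat.ble 491264 i))
  (Nat.ble 491008 i))
 (Nat.ble 490496 i))

/-- choice of a leaf -/
noncomputable def A0_240 (i : Nat) : Nat :=
 (Bool.rec (motive := fun _ => Nat)
 (Bool.rec (motive := fun _ => Nat)
  (Bool.rec (motive := fun _ => Nat)
   (Bool.rec (motive := fun _ => Nat)
    L3840
    L3841
    (Nat.ble 491648 i))
   (Bool.rec (motive := fun _ => Nat)
    L3842
    L3843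
    (Nat.ble 491904 i))
   (Nat.ble 491776 i))
  (Bool.rec (motive := fun _ => Nat)
   (Bool.rec (motive := fun _ => Nat)
    L3844
    L3845
    (Nat.ble 492160 i))
   (Bool.rec (motive := fun _ => Nat)
    L3846
    L3847
    (Nat.ble 492416 i))
   (Nat.ble 492288 i))
  (Nat.ble 492032 i))
 (Bool.rec (motive := fun _ => Nat)
  (Bool.rec (motive := fun _ => Nat)
   (Bool.rec (motive := fun _ => Nat)
    L3848
    L3849
    (Nat.ble 492672 i))
   (Bool.rec (motive := fun _ => Nat)
    L3850
    L3851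
    (Nat.ble 492928 i))
   (Nat.ble 492800 i))
  (Bool.rec (motive := fun _ => Nat)
   (Bool.rec (motive := fun _ => Nat)
    L3852
    L3853
    (Nat.ble 493184 i))
   (Bool.rec (motive := fun _ => Nat)
    L3854
    L3855
    (Nat.ble 493440 i))
   (Nat.ble 493312 i))
  (Nat.ble 493056 i))
 (Nat.ble 492544 i))

/-- choice of a leaf -/
noncomputable def A0_241 (i : Nat) : Nat :=
 (Bool.rec (motive := fun _ => Nat)
 (Bool.rec (motive := fun _ => Nat)
  (Bool.rec (motive := fun _ => Nat)
   (Bool.rec (motive := fun _ => Nat)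
    L3856
    L3857
    (Nat.ble 493696 i))
   (Bool.rec (motive := fun _ => Nat)
    L3858
    L3859
    (Nat.ble 493952 i))
   (Nat.ble 493824 i))
  (Bool.rec (motive := fun _ => Nat)
   (Bool.rec (motive := fun _ => Nat)
    L3860
    L3861
    (Nat.ble 494208 i))
   (Bool.rec (motive := fun _ => Nat)
    L3862
    L3863
    (Nat.ble 494464 i))
   (Nat.ble 494336 i))
  (Nat.ble 494080 i))
 (Bool.rec (motive := fun _ => Nat)
  (Bool.rec (motive := fun _ => Nat)
   (Bool.rec (motive := fun _ => Nat)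
    L3864
    L3865
    (Nat.ble 494720 i))
   (Bool.rec (motive := fun _ => Nat)
    L3866
    L3867
    (Nat.ble 494976 i))
   (Nat.ble 494848 i))
  (Bool.rec (motive := fun _ => Nat)
   (Bool.rec (motive := fun _ => Nat)
    L3868
    L3869
    (Nat.ble 495232 i))
   (Bool.rec (motive := fun _ => Nat)
    L3870
    L3871
    (Nat.ble 495488 i))
   (Nat.ble 495360 i))
  (Nat.ble 495104 i))
 (Nat.ble 494592 i))

/-- choice of a leaf -/
noncomputable def A0_242 (i : Nat) : Nat :=
 (Bool.rec (motive := fun _ => Nat)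
 (Bool.rec (motive := fun _ => Nat)
  (Bool.rec (motive := fun _ => Nat)
   (Bool.rec (motive := fun _ => Nat)
    L3872
    L3873
    (Nat.ble 495744 i))
   (Bool.rec (motive := fun _ => Nat)
    L3874
    L3875
    (Nat.ble 496000 i))
   (Nat.ble 495872 i))
  (Bool.rec (motive := fun _ => Nat)
   (Bool.rec (motive := fun _ => Nat)
    L3876
    L3877
    (Nat.ble 496256 i))
   (Bool.rec (motive := fun _ => Nat)
    L3878
    L3879
    (Nat.ble 496512 i))
   (Nat.ble 496384 i))
  (Nat.ble 496128 i))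
 (Bool.rec (motive := fun _ => Nat)
  (Bool.rec (motive := fun _ => Nat)
   (Bool.rec (motive := fun _ => Nat)
    L3880
    L3881
    (Nat.ble 496768 i))
   (Bool.rec (motive := fun _ => Nat)
    L3882
    L3883
    (Nat.ble 497024 i))
   (Nat.ble 496896 i))
  (Bool.rec (motive := fun _ => Nat)
   (Bool.rec (motive := fun _ => Nat)
    L3884
    L3885
    (Nat.ble 497280 i))
   (Bool.rec (motive := fun _ => Nat)
    L3886
    L3887
    (Nat.ble 497536 i))
   (Nat.ble 497408 i))
  (Nat.ble 497152 i))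
 (Nat.ble 496640 i))

/-- choice of a leaf -/
noncomputable def A0_243 (i : Nat) : Nat :=
 (Bool.rec (motive := fun _ => Nat)
 (Bool.rec (motive := fun _ => Nat)
  (Bool.rec (motive := fun _ => Nat)
   (Bool.rec (motive := fun _ => Nat)
    L3888
    L3889
    (Nat.ble 497792 i))
   (Bool.rec (motive := fun _ => Nat)
    L3890
    L3891
    (Nat.ble 498048 i))
   (Nat.ble 497920 i))
  (Bool.rec (motive := fun _ => Nat)
   (Bool.rec (motive := fun _ => Nat)
    L3892
    L3893
    (Nat.ble 498304 i))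
   (Bool.rec (motive := fun _ => Nat)
    L3894
    L3895
    (Nat.ble 498560 i))
   (Nat.ble 498432 i))
  (Nat.ble 498176 i))
 (Bool.rec (motive := fun _ => Nat)
  (Bool.rec (motive := fun _ => Nat)
   (Bool.rec (motive := fun _ => Nat)
    L3896
    L3897
    (Nat.ble 498816 i))
   (Bool.rec (motive := fun _ => Nat)
    L3898
    L3899
    (Nat.ble 499072 i))
   (Nat.ble 498944 i))
  (Bool.rec (motive := fun _ => Nat)
   (Bool.rec (motive := fun _ => Nat)
    L3900
    L3901
    (Nat.ble 499328 i))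
   (Bool.rec (motive := fun _ => Nat)
    L3902
    L3903
    (Nat.ble 499584 i))
   (Nat.ble 499456 i))
  (Nat.ble 499200 i))
 (Nat.ble 498688 i))

/-- choice of a leaf -/
noncomputable def A0_244 (i : Nat) : Nat :=
 (Bool.rec (motive := fun _ => Nat)
 (Bool.rec (motive := fun _ => Nat)
  (Bool.rec (motive := fun _ => Nat)
   (Bool.rec (motive := fun _ => Nat)
    L3904
    L3905
    (Nat.ble 499840 i))
   (Bool.rec (motive := fun _ => Nat)
    L3906
    L3907
    (Nat.ble 500096 i))
   (Nat.ble 499968 i))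
  (Bool.rec (motive := fun _ => Nat)
   (Bool.rec (motive := fun _ => Nat)
    L3908
    L3909
    (Nat.ble 500352 i))
   (Bool.rec (motive := fun _ => Nat)
    L3910
    L3911
    (Nat.ble 500608 i))
   (Nat.ble 500480 i))
  (Nat.ble 500224 i))
 (Bool.rec (motive := fun _ => Nat)
  (Bool.rec (motive := fun _ => Nat)
   (Bool.rec (motive := fun _ => Nat)
    L3912
    L3913
    (Nat.ble 500864 i))
   (Bool.rec (motive := fun _ => Nat)
    L3914
    L3915
    (Nat.ble 501120 i))
   (Nat.ble 500992 i))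
  (Bool.rec (motive := fun _ => Nat)
   (Bool.rec (motive := fun _ => Nat)
    L3916
    L3917
    (Nat.ble 501376 i))
   (Bool.rec (motive := fun _ => Nat)
    L3918
    L3919
    (Nat.ble 501632 i))
   (Nat.ble 501504 i))
  (Nat.ble 501248 i))
 (Nat.ble 500736 i))

/-- choice of a leaf -/
noncomputable def A0_245 (i : Nat) : Nat :=
 (Bool.rec (motive := fun _ => Nat)
 (Bool.rec (motive := fun _ => Nat)
  (Bool.rec (motive := fun _ => Nat)
   (Bool.rec (motive := fun _ => Nat)
    L3920
    L3921
    (Nat.ble 501888 i))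
   (Bool.rec (motive := fun _ => Nat)
    L3922
    L3923
    (Nat.ble 502144 i))
   (Nat.ble 502016 i))
  (Bool.rec (motive := fun _ => Nat)
   (Bool.rec (motive := fun _ => Nat)
    L3924
    L3925
    (Nat.ble 502400 i))
   (Bool.rec (motive := fun _ => Nat)
    L3926
    L3927
    (Nat.ble 502656 i))
   (Nat.ble 502528 i))
  (Nat.ble 502272 i))
 (Bool.rec (motive := fun _ => Nat)
  (Bool.rec (motive := fun _ => Nat)
   (Bool.rec (motive := fun _ => Nat)
    L3928
    L3929
    (Nat.ble 502912 i))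
   (Bool.rec (motive := fun _ => Nat)
    L3930
    L3931
    (Nat.ble 503168 i))
   (Nat.ble 503040 i))
  (Bool.rec (motive := fun _ => Nat)
   (Bool.rec (motive := fun _ => Nat)
    L3932
    L3933
    (Nat.ble 503424 i))
   (Bool.rec (motive := fun _ => Nat)
    L3934
    L3935
    (Nat.ble 503680 i))
   (Nat.ble 503552 i))
  (Nat.ble 503296 i))
 (Nat.ble 502784 i))

/-- choice of a leaf -/
noncomputable def A0_246 (i : Nat) : Nat :=
 (Bool.rec (motive := fun _ => Nat)
 (Bool.rec (motive := fun _ => Nat)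
  (Bool.rec (motive := fun _ => Nat)
   (Bool.rec (motive := fun _ => Nat)
    L3936
    L3937
    (Nat.ble 503936 i))
   (Bool.rec (motive := fun _ => Nat)
    L3938
    L3939
    (Nat.ble 504192 i))
   (Nat.ble 504064 i))
  (Bool.rec (motive := fun _ => Nat)
   (Bool.rec (motive := fun _ => Nat)
    L3940
    L3941
    (Nat.ble 504448 i))
   (Bool.rec (motive := fun _ => Nat)
    L3942
    L3943
    (Nat.ble 504704 i))
   (Nat.ble 504576 i))
  (Nat.ble 504320 i))
 (Bool.rec (motive := fun _ => Nat)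
  (Bool.rec (motive := fun _ => Nat)
   (Bool.rec (motive := fun _ => Nat)
    L3944
    L3945
    (Nat.ble 504960 i))
   (Bool.rec (motive := fun _ => Nat)
    L3946
    L3947
    (Nat.ble 505216 i))
   (Nat.ble 505088 i))
  (Bool.rec (motive := fun _ => Nat)
   (Bool.rec (motive := fun _ => Nat)
    L3948
    L3949
    (Nat.ble 505472 i))
   (Bool.rec (motive := fun _ => Nat)
    L3950
    L3951
    (Nat.ble 505728 i))
   (Nat.ble 505600 i))
  (Nat.ble 505344 i))
 (Nat.ble 504832 i))

/-- choice of a leaf -/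
noncomputable def A0_247 (i : Nat) : Nat :=
 (Bool.rec (motive := fun _ => Nat)
 (Bool.rec (motive := fun _ => Nat)
  (Bool.rec (motive := fun _ => Nat)
   (Bool.rec (motive := fun _ => Nat)
    L3952
    L3953
    (Nat.ble 505984 i))
   (Bool.rec (motive := fun _ => Nat)
    L3954
    L3955
    (Nat.ble 506240 i))
   (Nat.ble 506112 i))
  (Bool.rec (motive := fun _ => Nat)
   (Bool.rec (motive := fun _ => Nat)
    L3956
    L3957
    (Nat.ble 506496 i))
   (Bool.rec (motive := fun _ => Nat)
    L3958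
    L3959
    (Nat.ble 506752 i))
   (Nat.ble 506624 i))
  (Nat.ble 506368 i))
 (Bool.rec (motive := fun _ => Nat)
  (Bool.rec (motive := fun _ => Nat)
   (Bool.rec (motive := fun _ => Nat)
    L3960
    L3961
    (Nat.ble 507008 i))
   (Bool.rec (motive := fun _ => Nat)
    L3962
    L3963
    (Nat.ble 507264 i))
   (Nat.ble 507136 i))
  (Bool.rec (motive := fun _ => Nat)
   (Bool.rec (motive := fun _ => Nat)
    L3964
    L3965
    (Nat.ble 507520 i))
   (Bool.rec (motive := fun _ => Nat)
    L3966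
    L3967
    (Nat.ble 507776 i))
   (Nat.ble 507648 i))
  (Nat.ble 507392 i))
 (Nat.ble 506880 i))

/-- choice of a leaf -/
noncomputable def A0_248 (i : Nat) : Nat :=
 (Bool.rec (motive := fun _ => Nat)
 (Bool.rec (motive := fun _ => Nat)
  (Bool.rec (motive := fun _ => Nat)
   (Bool.rec (motive := fun _ => Nat)
    L3968
    L3969
    (Nat.ble 508032 i))
   (Bool.rec (motive := fun _ => Nat)
    L3970
    L3971
    (Nat.ble 508288 i))
   (Nat.ble 508160 i))
  (Bool.rec (motive := fun _ => Nat)
   (Bool.rec (motive := fun _ => Nat)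
    L3972
    L3973
    (Nat.ble 508544 i))
   (Bool.rec (motive := fun _ => Nat)
    L3974
    L3975
    (Nat.ble 508800 i))
   (Nat.ble 508672 i))
  (Nat.ble 508416 i))
 (Bool.rec (motive := fun _ => Nat)
  (Bool.rec (motive := fun _ => Nat)
   (Bool.rec (motive := fun _ => Nat)
    L3976
    L3977
    (Nat.ble 509056 i))
   (Bool.rec (motive := fun _ => Nat)
    L3978
    L3979
    (Nat.ble 509312 i))
   (Nat.ble 509184 i))
  (Bool.rec (motive := fun _ => Nat)
   (Bool.rec (motive := fun _ => Nat)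
    L3980
    L3981
    (Nat.ble 509568 i))
   (Bool.rec (motive := fun _ => Nat)
    L3982
    L3983
    (Nat.ble 509824 i))
   (Nat.ble 509696 i))
  (Nat.ble 509440 i))
 (Nat.ble 508928 i))

/-- choice of a leaf -/
noncomputable def A0_249 (i : Nat) : Nat :=
 (Bool.rec (motive := fun _ => Nat)
 (Bool.rec (motive := fun _ => Nat)
  (Bool.rec (motive := fun _ => Nat)
   (Bool.rec (motive := fun _ => Nat)
    L3984
    L3985
    (Nat.ble 510080 i))
   (Bool.rec (motive := fun _ => Nat)
    L3986
    L3987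
    (Nat.ble 510336 i))
   (Nat.ble 510208 i))
  (Bool.rec (motive := fun _ => Nat)
   (Bool.rec (motive := fun _ => Nat)
    L3988
    L3989
    (Nat.ble 510592 i))
   (Bool.rec (motive := fun _ => Nat)
    L3990
    L3991
    (Nat.ble 510848 i))
   (Nat.ble 510720 i))
  (Nat.ble 510464 i))
 (Bool.rec (motive := fun _ => Nat)
  (Bool.rec (motive := fun _ => Nat)
   (Bool.rec (motive := fun _ => Nat)
    L3992
    L3993
    (Nat.ble 511104 i))
   (Bool.rec (motive := fun _ => Nat)
    L3994
    L3995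
    (Nat.ble 511360 i))
   (Nat.ble 511232 i))
  (Bool.rec (motive := fun _ => Nat)
   (Bool.rec (motive := fun _ => Nat)
    L3996
    L3997
    (Nat.ble 511616 i))
   (Bool.rec (motive := fun _ => Nat)
    L3998
    L3999
    (Nat.ble 511872 i))
   (Nat.ble 511744 i))
  (Nat.ble 511488 i))
 (Nat.ble 510976 i))

/-- choice of a leaf -/
noncomputable def A0_250 (i : Nat) : Nat :=
 (Bool.rec (motive := fun _ => Nat)
 (Bool.rec (motive := fun _ => Nat)
  (Bool.rec (motive := fun _ => Nat)
   (Bool.rec (motive := fun _ => Nat)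
    L4000
    L4001
    (Nat.ble 512128 i))
   (Bool.rec (motive := fun _ => Nat)
    L4002
    L4003
    (Nat.ble 512384 i))
   (Nat.ble 512256 i))
  (Bool.rec (motive := fun _ => Nat)
   (Bool.rec (motive := fun _ => Nat)
    L4004
    L4005
    (Nat.ble 512640 i))
   (Bool.rec (motive := fun _ => Nat)
    L4006
    L4007
    (Nat.ble 512896 i))
   (Nat.ble 512768 i))
  (Nat.ble 512512 i))
 (Bool.rec (motive := fun _ => Nat)
  (Bool.rec (motive := fun _ => Nat)
   (Bool.rec (motive := fun _ => Nat)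
    L4008
    L4009
    (Nat.ble 513152 i))
   (Bool.rec (motive := fun _ => Nat)
    L4010
    L4011
    (Nat.ble 513408 i))
   (Nat.ble 513280 i))
  (Bool.rec (motive := fun _ => Nat)
   (Bool.rec (motive := fun _ => Nat)
    L4012
    L4013
    (Nat.ble 513664 i))
   (Bool.rec (motive := fun _ => Nat)
    L4014
    L4015
    (Nat.ble 513920 i))
   (Nat.ble 513792 i))
  (Nat.ble 513536 i))
 (Nat.ble 513024 i))

/-- choice of a leaf -/
noncomputable def A0_251 (i : Nat) : Nat :=
 (Bool.rec (motive := fun _ => Nat)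
 (Bool.rec (motive := fun _ => Nat)
  (Bool.rec (motive := fun _ => Nat)
   (Bool.rec (motive := fun _ => Nat)
    L4016
    L4017
    (Nat.ble 514176 i))
   (Bool.rec (motive := fun _ => Nat)
    L4018
    L4019
    (Nat.ble 514432 i))
   (Nat.ble 514304 i))
  (Bool.rec (motive := fun _ => Nat)
   (Bool.rec (motive := fun _ => Nat)
    L4020
    L4021
    (Nat.ble 514688 i))
   (Bool.rec (motive := fun _ => Nat)
    L4022
    L4023
    (Nat.ble 514944 i))
   (Nat.ble 514816 i))
  (Nat.ble 514560 i))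
 (Bool.rec (motive := fun _ => Nat)
  (Bool.rec (motive := fun _ => Nat)
   (Bool.rec (motive := fun _ => Nat)
    L4024
    L4025
    (Nat.ble 515200 i))
   (Bool.rec (motive := fun _ => Nat)
    L4026
    L4027
    (Nat.ble 515456 i))
   (Nat.ble 515328 i))
  (Bool.rec (motive := fun _ => Nat)
   (Bool.rec (motive := fun _ => Nat)
    L4028
    L4029
    (Nat.ble 515712 i))
   (Bool.rec (motive := fun _ => Nat)
    L4030
    L4031
    (Nat.ble 515968 i))
   (Nat.ble 515840 i))
  (Nat.ble 515584 i))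
 (Nat.ble 515072 i))

/-- choice of a leaf -/
noncomputable def A0_252 (i : Nat) : Nat :=
 (Bool.rec (motive := fun _ => Nat)
 (Bool.rec (motive := fun _ => Nat)
  (Bool.rec (motive := fun _ => Nat)
   (Bool.rec (motive := fun _ => Nat)
    L4032
    L4033
    (Nat.ble 516224 i))
   (Bool.rec (motive := fun _ => Nat)
    L4034
    L4035
    (Nat.ble 516480 i))
   (Nat.ble 516352 i))
  (Bool.rec (motive := fun _ => Nat)
   (Bool.rec (motive := fun _ => Nat)
    L4036
    L4037
    (Nat.ble 516736 i))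
   (Bool.rec (motive := fun _ => Nat)
    L4038
    L4039
    (Nat.ble 516992 i))
   (Nat.ble 516864 i))
  (Nat.ble 516608 i))
 (Bool.rec (motive := fun _ => Nat)
  (Bool.rec (motive := fun _ => Nat)
   (Bool.rec (motive := fun _ => Nat)
    L4040
    L4041
    (Nat.ble 517248 i))
   (Bool.rec (motive := fun _ => Nat)
    L4042
    L4043
    (Nat.ble 517504 i))
   (Nat.ble 517376 i))
  (Bool.rec (motive := fun _ => Nat)
   (Bool.rec (motive := fun _ => Nat)
    L4044
    L4045
    (Nat.ble 517760 i))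
   (Bool.rec (motive := fun _ => Nat)
    L4046
    L4047
    (Nat.ble 518016 i))
   (Nat.ble 517888 i))
  (Nat.ble 517632 i))
 (Nat.ble 517120 i))

/-- choice of a leaf -/
noncomputable def A0_253 (i : Nat) : Nat :=
 (Bool.rec (motive := fun _ => Nat)
 (Bool.rec (motive := fun _ => Nat)
  (Bool.rec (motive := fun _ => Nat)
   (Bool.rec (motive := fun _ => Nat)
    L4048
    L4049
    (Nat.ble 518272 i))
   (Bool.rec (motive := fun _ => Nat)
    L4050
    L4051
    (Nat.ble 518528 i))
   (Nat.ble 518400 i))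
  (Bool.rec (motive := fun _ => Nat)
   (Bool.rec (motive := fun _ => Nat)
    L4052
    L4053
    (Nat.ble 518784 i))
   (Bool.rec (motive := fun _ => Nat)
    L4054
    L4055
    (Nat.ble 519040 i))
   (Nat.ble 518912 i))
  (Nat.ble 518656 i))
 (Bool.rec (motive := fun _ => Nat)
  (Bool.rec (motive := fun _ => Nat)
   (Bool.rec (motive := fun _ => Nat)
    L4056
    L4057
    (Nat.ble 519296 i))
   (Bool.rec (motive := fun _ => Nat)
    L4058
    L4059
    (Nat.ble 519552 i))
   (Nat.ble 519424 i))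
  (Bool.rec (motive := fun _ => Nat)
   (Bool.rec (motive := fun _ => Nat)
    L4060
    L4061
    (Nat.ble 519808 i))
   (Bool.rec (motive := fun _ => Nat)
    L4062
    L4063
    (Nat.ble 520064 i))
   (Nat.ble 519936 i))
  (Nat.ble 519680 i))
 (Nat.ble 519168 i))

/-- choice of a leaf -/
noncomputable def A0_254 (i : Nat) : Nat :=
 (Bool.rec (motive := fun _ => Nat)
 (Bool.rec (motive := fun _ => Nat)
  (Bool.rec (motive := fun _ => Nat)
   (Bool.rec (motive := fun _ => Nat)
    L4064
    L4065
    (Nat.ble 520320 i))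
   (Bool.rec (motive := fun _ => Nat)
    L4066
    L4067
    (Nat.ble 520576 i))
   (Nat.ble 520448 i))
  (Bool.rec (motive := fun _ => Nat)
   (Bool.rec (motive := fun _ => Nat)
    L4068
    L4069
    (Nat.ble 520832 i))
   (Bool.rec (motive := fun _ => Nat)
    L4070
    L4071
    (Nat.ble 521088 i))
   (Nat.ble 520960 i))
  (Nat.ble 520704 i))
 (Bool.rec (motive := fun _ => Nat)
  (Bool.rec (motive := fun _ => Nat)
   (Bool.rec (motive := fun _ => Nat)
    L4072
    L4073
    (Nat.ble 521344 i))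
   (Bool.rec (motive := fun _ => Nat)
    L4074
    L4075
    (Nat.ble 521600 i))
   (Nat.ble 521472 i))
  (Bool.rec (motive := fun _ => Nat)
   (Bool.rec (motive := fun _ => Nat)
    L4076
    L4077
    (Nat.ble 521856 i))
   (Bool.rec (motive := fun _ => Nat)
    L4078
    L4079
    (Nat.ble 522112 i))
   (Nat.ble 521984 i))
  (Nat.ble 521728 i))
 (Nat.ble 521216 i))

/-- choice of a leaf -/
noncomputable def A0_255 (i : Nat) : Nat :=
 (Bool.rec (motive := fun _ => Nat)
 (Bool.rec (motive := fun _ => Nat)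
  (Bool.rec (motive := fun _ => Nat)
   (Bool.rec (motive := fun _ => Nat)
    L4080
    L4081
    (Nat.ble 522368 i))
   (Bool.rec (motive := fun _ => Nat)
    L4082
    L4083
    (Nat.ble 522624 i))
   (Nat.ble 522496 i))
  (Bool.rec (motive := fun _ => Nat)
   (Bool.rec (motive := fun _ => Nat)
    L4084
    L4085
    (Nat.ble 522880 i))
   (Bool.rec (motive := fun _ => Nat)
    L4086
    L4087
    (Nat.ble 523136 i))
   (Nat.ble 523008 i))
  (Nat.ble 522752 i))
 (Bool.rec (motive := fun _ => Nat)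
  (Bool.rec (motive := fun _ => Nat)
   (Bool.rec (motive := fun _ => Nat)
    L4088
    L4089
    (Nat.ble 523392 i))
   (Bool.rec (motive := fun _ => Nat)
    L4090
    L4091
    (Nat.ble 523648 i))
   (Nat.ble 523520 i))
  (Bool.rec (motive := fun _ => Nat)
   (Bool.rec (motive := fun _ => Nat)
    L4092
    L4093
    (Nat.ble 523904 i))
   (Bool.rec (motive := fun _ => Nat)
    L4094
    L4095
    (Nat.ble 524160 i))
   (Nat.ble 524032 i))
  (Nat.ble 523776 i))
 (Nat.ble 523264 i))

/-- choice of a leaf -/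
noncomputable def A0_256 (i : Nat) : Nat :=
 (Bool.rec (motive := fun _ => Nat)
 (Bool.rec (motive := fun _ => Nat)
  (Bool.rec (motive := fun _ => Nat)
   (Bool.rec (motive := fun _ => Nat)
    L4096
    L4097
    (Nat.ble 524416 i))
   (Bool.rec (motive := fun _ => Nat)
    L4098
    L4099
    (Nat.ble 524672 i))
   (Nat.ble 524544 i))
  (Bool.rec (motive := fun _ => Nat)
   (Bool.rec (motive := fun _ => Nat)
    L4100
    L4101
    (Nat.ble 524928 i))
   (Bool.rec (motive := fun _ => Nat)
    L4102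
    L4103
    (Nat.ble 525184 i))
   (Nat.ble 525056 i))
  (Nat.ble 524800 i))
 (Bool.rec (motive := fun _ => Nat)
  (Bool.rec (motive := fun _ => Nat)
   (Bool.rec (motive := fun _ => Nat)
    L4104
    L4105
    (Nat.ble 525440 i))
   (Bool.rec (motive := fun _ => Nat)
    L4106
    L4107
    (Nat.ble 525696 i))
   (Nat.ble 525568 i))
  (Bool.rec (motive := fun _ => Nat)
   (Bool.rec (motive := fun _ => Nat)
    L4108
    L4109
    (Nat.ble 525952 i))
   (Bool.rec (motive := fun _ => Nat)
    L4110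
    L4111
    (Nat.ble 526208 i))
   (Nat.ble 526080 i))
  (Nat.ble 525824 i))
 (Nat.ble 525312 i))

/-- choice of a leaf -/
noncomputable def A0_257 (i : Nat) : Nat :=
 (Bool.rec (motive := fun _ => Nat)
 (Bool.rec (motive := fun _ => Nat)
  (Bool.rec (motive := fun _ => Nat)
   (Bool.rec (motive := fun _ => Nat)
    L4112
    L4113
    (Nat.ble 526464 i))
   (Bool.rec (motive := fun _ => Nat)
    L4114
    L4115
    (Nat.ble 526720 i))
   (Nat.ble 526592 i))
  (Bool.rec (motive := fun _ => Nat)
   (Bool.rec (motive := fun _ => Nat)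
    L4116
    L4117
    (Nat.ble 526976 i))
   (Bool.rec (motive := fun _ => Nat)
    L4118
    L4119
    (Nat.ble 527232 i))
   (Nat.ble 527104 i))
  (Nat.ble 526848 i))
 (Bool.rec (motive := fun _ => Nat)
  (Bool.rec (motive := fun _ => Nat)
   (Bool.rec (motive := fun _ => Nat)
    L4120
    L4121
    (Nat.ble 527488 i))
   (Bool.rec (motive := fun _ => Nat)
    L4122
    L4123
    (Nat.ble 527744 i))
   (Nat.ble 527616 i))
  (Bool.rec (motive := fun _ => Nat)
   (Bool.rec (motive := fun _ => Nat)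
    L4124
    L4125
    (Nat.ble 528000 i))
   (Bool.rec (motive := fun _ => Nat)
    L4126
    L4127
    (Nat.ble 528256 i))
   (Nat.ble 528128 i))
  (Nat.ble 527872 i))
 (Nat.ble 527360 i))

/-- choice of a leaf -/
noncomputable def A0_258 (i : Nat) : Nat :=
 (Bool.rec (motive := fun _ => Nat)
 (Bool.rec (motive := fun _ => Nat)
  (Bool.rec (motive := fun _ => Nat)
   (Bool.rec (motive := fun _ => Nat)
    L4128
    L4129
    (Nat.ble 528512 i))
   (Bool.rec (motive := fun _ => Nat)
    L4130
    L4131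
    (Nat.ble 528768 i))
   (Nat.ble 528640 i))
  (Bool.rec (motive := fun _ => Nat)
   (Bool.rec (motive := fun _ => Nat)
    L4132
    L4133
    (Nat.ble 529024 i))
   (Bool.rec (motive := fun _ => Nat)
    L4134
    L4135
    (Nat.ble 529280 i))
   (Nat.ble 529152 i))
  (Nat.ble 528896 i))
 (Bool.rec (motive := fun _ => Nat)
  (Bool.rec (motive := fun _ => Nat)
   (Bool.rec (motive := fun _ => Nat)
    L4136
    L4137
    (Nat.ble 529536 i))
   (Bool.rec (motive := fun _ => Nat)
    L4138
    L4139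
    (Nat.ble 529792 i))
   (Nat.ble 529664 i))
  (Bool.rec (motive := fun _ => Nat)
   (Bool.rec (motive := fun _ => Nat)
    L4140
    L4141
    (Nat.ble 530048 i))
   (Bool.rec (motive := fun _ => Nat)
    L4142
    L4143
    (Nat.ble 530304 i))
   (Nat.ble 530176 i))
  (Nat.ble 529920 i))
 (Nat.ble 529408 i))

/-- choice of a leaf -/
noncomputable def A0_259 (i : Nat) : Nat :=
 (Bool.rec (motive := fun _ => Nat)
 (Bool.rec (motive := fun _ => Nat)
  (Bool.rec (motive := fun _ => Nat)
   (Bool.rec (motive := fun _ => Nat)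
    L4144
    L4145
    (Nat.ble 530560 i))
   (Bool.rec (motive := fun _ => Nat)
    L4146
    L4147
    (Nat.ble 530816 i))
   (Nat.ble 530688 i))
  (Bool.rec (motive := fun _ => Nat)
   (Bool.rec (motive := fun _ => Nat)
    L4148
    L4149
    (Nat.ble 531072 i))
   (Bool.rec (motive := fun _ => Nat)
    L4150
    L4151
    (Nat.ble 531328 i))
   (Nat.ble 531200 i))
  (Nat.ble 530944 i))
 (Bool.rec (motive := fun _ => Nat)
  (Bool.rec (motive := fun _ => Nat)
   (Bool.rec (motive := fun _ => Nat)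
    L4152
    L4153
    (Nat.ble 531584 i))
   (Bool.rec (motive := fun _ => Nat)
    L4154
    L4155
    (Nat.ble 531840 i))
   (Nat.ble 531712 i))
  (Bool.rec (motive := fun _ => Nat)
   (Bool.rec (motive := fun _ => Nat)
    L4156
    L4157
    (Nat.ble 532096 i))
   (Bool.rec (motive := fun _ => Nat)
    L4158
    L4159
    (Nat.ble 532352 i))
   (Nat.ble 532224 i))
  (Nat.ble 531968 i))
 (Nat.ble 531456 i))

/-- choice of a leaf -/
noncomputable def A0_260 (i : Nat) : Nat :=
 (Bool.rec (motive := fun _ => Nat)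
 (Bool.rec (motive := fun _ => Nat)
  (Bool.rec (motive := fun _ => Nat)
   (Bool.rec (motive := fun _ => Nat)
    L4160
    L4161
    (Nat.ble 532608 i))
   (Bool.rec (motive := fun _ => Nat)
    L4162
    L4163
    (Nat.ble 532864 i))
   (Nat.ble 532736 i))
  (Bool.rec (motive := fun _ => Nat)
   (Bool.rec (motive := fun _ => Nat)
    L4164
    L4165
    (Nat.ble 533120 i))
   (Bool.rec (motive := fun _ => Nat)
    L4166
    L4167
    (Nat.ble 533376 i))
   (Nat.ble 533248 i))
  (Nat.ble 532992 i))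
 (Bool.rec (motive := fun _ => Nat)
  (Bool.rec (motive := fun _ => Nat)
   (Bool.rec (motive := fun _ => Nat)
    L4168
    L4169
    (Nat.ble 533632 i))
   (Bool.rec (motive := fun _ => Nat)
    L4170
    L4171
    (Nat.ble 533888 i))
   (Nat.ble 533760 i))
  (Bool.rec (motive := fun _ => Nat)
   (Bool.rec (motive := fun _ => Nat)
    L4172
    L4173
    (Nat.ble 534144 i))
   (Bool.rec (motive := fun _ => Nat)
    L4174
    L4175
    (Nat.ble 534400 i))
   (Nat.ble 534272 i))
  (Nat.ble 534016 i))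
 (Nat.ble 533504 i))

/-- choice of a leaf -/
noncomputable def A0_261 (i : Nat) : Nat :=
 (Bool.rec (motive := fun _ => Nat)
 (Bool.rec (motive := fun _ => Nat)
  (Bool.rec (motive := fun _ => Nat)
   (Bool.rec (motive := fun _ => Nat)
    L4176
    L4177
    (Nat.ble 534656 i))
   (Bool.rec (motive := fun _ => Nat)
    L4178
    L4179
    (Nat.ble 534912 i))
   (Nat.ble 534784 i))
  (Bool.rec (motive := fun _ => Nat)
   (Bool.rec (motive := fun _ => Nat)
    L4180
    L4181
    (Nat.ble 535168 i))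
   (Bool.rec (motive := fun _ => Nat)
    L4182
    L4183
    (Nat.ble 535424 i))
   (Nat.ble 535296 i))
  (Nat.ble 535040 i))
 (Bool.rec (motive := fun _ => Nat)
  (Bool.rec (motive := fun _ => Nat)
   (Bool.rec (motive := fun _ => Nat)
    L4184
    L4185
    (Nat.ble 535680 i))
   (Bool.rec (motive := fun _ => Nat)
    L4186
    L4187
    (Nat.ble 535936 i))
   (Nat.ble 535808 i))
  (Bool.rec (motive := fun _ => Nat)
   (Bool.rec (motive := fun _ => Nat)
    L4188
    L4189
    (Nat.ble 536192 i))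
   (Bool.rec (motive := fun _ => Nat)
    L4190
    L4191
    (Nat.ble 536448 i))
   (Nat.ble 536320 i))
  (Nat.ble 536064 i))
 (Nat.ble 535552 i))

/-- choice of a leaf -/
noncomputable def A0_262 (i : Nat) : Nat :=
 (Bool.rec (motive := fun _ => Nat)
 (Bool.rec (motive := fun _ => Nat)
  (Bool.rec (motive := fun _ => Nat)
   (Bool.rec (motive := fun _ => Nat)
    L4192
    L4193
    (Nat.ble 536704 i))
   (Bool.rec (motive := fun _ => Nat)
    L4194
    L4195
    (Nat.ble 536960 i))
   (Nat.ble 536832 i))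
  (Bool.rec (motive := fun _ => Nat)
   (Bool.rec (motive := fun _ => Nat)
    L4196
    L4197
    (Nat.ble 537216 i))
   (Bool.rec (motive := fun _ => Nat)
    L4198
    L4199
    (Nat.ble 537472 i))
   (Nat.ble 537344 i))
  (Nat.ble 537088 i))
 (Bool.rec (motive := fun _ => Nat)
  (Bool.rec (motive := fun _ => Nat)
   (Bool.rec (motive := fun _ => Nat)
    L4200
    L4201
    (Nat.ble 537728 i))
   (Bool.rec (motive := fun _ => Nat)
    L4202
    L4203
    (Nat.ble 537984 i))
   (Nat.ble 537856 i))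
  (Bool.rec (motive := fun _ => Nat)
   (Bool.rec (motive := fun _ => Nat)
    L4204
    L4205
    (Nat.ble 538240 i))
   (Bool.rec (motive := fun _ => Nat)
    L4206
    L4207
    (Nat.ble 538496 i))
   (Nat.ble 538368 i))
  (Nat.ble 538112 i))
 (Nat.ble 537600 i))

/-- choice of a leaf -/
noncomputable def A0_263 (i : Nat) : Nat :=
 (Bool.rec (motive := fun _ => Nat)
 (Bool.rec (motive := fun _ => Nat)
  (Bool.rec (motive := fun _ => Nat)
   (Bool.rec (motive := fun _ => Nat)
    L4208
    L4209
    (Nat.ble 538752 i))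
   (Bool.rec (motive := fun _ => Nat)
    L4210
    L4211
    (Nat.ble 539008 i))
   (Nat.ble 538880 i))
  (Bool.rec (motive := fun _ => Nat)
   (Bool.rec (motive := fun _ => Nat)
    L4212
    L4213
    (Nat.ble 539264 i))
   (Bool.rec (motive := fun _ => Nat)
    L4214
    L4215
    (Nat.ble 539520 i))
   (Nat.ble 539392 i))
  (Nat.ble 539136 i))
 (Bool.rec (motive := fun _ => Nat)
  (Bool.rec (motive := fun _ => Nat)
   (Bool.rec (motive := fun _ => Nat)
    L4216
    L4217
    (Nat.ble 539776 i))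
   (Bool.rec (motive := fun _ => Nat)
    L4218
    L4219
    (Nat.ble 540032 i))
   (Nat.ble 539904 i))
  (Bool.rec (motive := fun _ => Nat)
   (Bool.rec (motive := fun _ => Nat)
    L4220
    L4221
    (Nat.ble 540288 i))
   (Bool.rec (motive := fun _ => Nat)
    L4222
    L4223
    (Nat.ble 540544 i))
   (Nat.ble 540416 i))
  (Nat.ble 540160 i))
 (Nat.ble 539648 i))

/-- choice of a leaf -/
noncomputable def A0_264 (i : Nat) : Nat :=
 (Bool.rec (motive := fun _ => Nat)
 (Bool.rec (motive := fun _ => Nat)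
  (Bool.rec (motive := fun _ => Nat)
   (Bool.rec (motive := fun _ => Nat)
    L4224
    L4225
    (Nat.ble 540800 i))
   (Bool.rec (motive := fun _ => Nat)
    L4226
    L4227
    (Nat.ble 541056 i))
   (Nat.ble 540928 i))
  (Bool.rec (motive := fun _ => Nat)
   (Bool.rec (motive := fun _ => Nat)
    L4228
    L4229
    (Nat.ble 541312 i))
   (Bool.rec (motive := fun _ => Nat)
    L4230
    L4231
    (Nat.ble 541568 i))
   (Nat.ble 541440 i))
  (Nat.ble 541184 i))
 (Bool.rec (motive := fun _ => Nat)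
  (Bool.rec (motive := fun _ => Nat)
   (Bool.rec (motive := fun _ => Nat)
    L4232
    L4233
    (Nat.ble 541824 i))
   (Bool.rec (motive := fun _ => Nat)
    L4234
    L4235
    (Nat.ble 542080 i))
   (Nat.ble 541952 i))
  (Bool.rec (motive := fun _ => Nat)
   (Bool.rec (motive := fun _ => Nat)
    L4236
    L4237
    (Nat.ble 542336 i))
   (Bool.rec (motive := fun _ => Nat)
    L4238
    L4239
    (Nat.ble 542592 i))
   (Nat.ble 542464 i))
  (Nat.ble 542208 i))
 (Nat.ble 541696 i))

/-- choice of a leaf -/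
noncomputable def A0_265 (i : Nat) : Nat :=
 (Bool.rec (motive := fun _ => Nat)
 (Bool.rec (motive := fun _ => Nat)
  (Bool.rec (motive := fun _ => Nat)
   (Bool.rec (motive := fun _ => Nat)
    L4240
    L4241
    (Nat.ble 542848 i))
   (Bool.rec (motive := fun _ => Nat)
    L4242
    L4243
    (Nat.ble 543104 i))
   (Nat.ble 542976 i))
  (Bool.rec (motive := fun _ => Nat)
   (Bool.rec (motive := fun _ => Nat)
    L4244
    L4245
    (Nat.ble 543360 i))
   (Bool.rec (motive := fun _ => Nat)
    L4246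
    L4247
    (Nat.ble 543616 i))
   (Nat.ble 543488 i))
  (Nat.ble 543232 i))
 (Bool.rec (motive := fun _ => Nat)
  (Bool.rec (motive := fun _ => Nat)
   (Bool.rec (motive := fun _ => Nat)
    L4248
    L4249
    (Nat.ble 543872 i))
   (Bool.rec (motive := fun _ => Nat)
    L4250
    L4251
    (Nat.ble 544128 i))
   (Nat.ble 544000 i))
  (Bool.rec (motive := fun _ => Nat)
   (Bool.rec (motive := fun _ => Nat)
    L4252
    L4253
    (Nat.ble 544384 i))
   (Bool.rec (motive := fun _ => Nat)
    L4254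
    L4255
    (Nat.ble 544640 i))
   (Nat.ble 544512 i))
  (Nat.ble 544256 i))
 (Nat.ble 543744 i))

/-- choice of a leaf -/
noncomputable def A0_266 (i : Nat) : Nat :=
 (Bool.rec (motive := fun _ => Nat)
 (Bool.rec (motive := fun _ => Nat)
  (Bool.rec (motive := fun _ => Nat)
   (Bool.rec (motive := fun _ => Nat)
    L4256
    L4257
    (Nat.ble 544896 i))
   (Bool.rec (motive := fun _ => Nat)
    L4258
    L4259
    (Nat.ble 545152 i))
   (Nat.ble 545024 i))
  (Bool.rec (motive := fun _ => Nat)
   (Bool.rec (motive := fun _ => Nat)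
    L4260
    L4261
    (Nat.ble 545408 i))
   (Bool.rec (motive := fun _ => Nat)
    L4262
    L4263
    (Nat.ble 545664 i))
   (Nat.ble 545536 i))
  (Nat.ble 545280 i))
 (Bool.rec (motive := fun _ => Nat)
  (Bool.rec (motive := fun _ => Nat)
   (Bool.rec (motive := fun _ => Nat)
    L4264
    L4265
    (Nat.ble 545920 i))
   (Bool.rec (motive := fun _ => Nat)
    L4266
    L4267
    (Nat.ble 546176 i))
   (Nat.ble 546048 i))
  (Bool.rec (motive := fun _ => Nat)
   (Bool.rec (motive := fun _ => Nat)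
    L4268
    L4269
    (Nat.ble 546432 i))
   (Bool.rec (motive := fun _ => Nat)
    L4270
    L4271
    (Nat.ble 546688 i))
   (Nat.ble 546560 i))
  (Nat.ble 546304 i))
 (Nat.ble 545792 i))

/-- choice of a leaf -/
noncomputable def A0_267 (i : Nat) : Nat :=
 (Bool.rec (motive := fun _ => Nat)
 (Bool.rec (motive := fun _ => Nat)
  (Bool.rec (motive := fun _ => Nat)
   (Bool.rec (motive := fun _ => Nat)
    L4272
    L4273
    (Nat.ble 546944 i))
   (Bool.rec (motive := fun _ => Nat)
    L4274
    L4275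
    (Nat.ble 547200 i))
   (Nat.ble 547072 i))
  (Bool.rec (motive := fun _ => Nat)
   (Bool.rec (motive := fun _ => Nat)
    L4276
    L4277
    (Nat.ble 547456 i))
   (Bool.rec (motive := fun _ => Nat)
    L4278
    L4279
    (Nat.ble 547712 i))
   (Nat.ble 547584 i))
  (Nat.ble 547328 i))
 (Bool.rec (motive := fun _ => Nat)
  (Bool.rec (motive := fun _ => Nat)
   (Bool.rec (motive := fun _ => Nat)
    L4280
    L4281
    (Nat.ble 547968 i))
   (Bool.rec (motive := fun _ => Nat)
    L4282
    L4283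
    (Nat.ble 548224 i))
   (Nat.ble 548096 i))
  (Bool.rec (motive := fun _ => Nat)
   (Bool.rec (motive := fun _ => Nat)
    L4284
    L4285
    (Nat.ble 548480 i))
   (Bool.rec (motive := fun _ => Nat)
    L4286
    L4287
    (Nat.ble 548736 i))
   (Nat.ble 548608 i))
  (Nat.ble 548352 i))
 (Nat.ble 547840 i))

/-- choice of a leaf -/
noncomputable def A0_268 (i : Nat) : Nat :=
 (Bool.rec (motive := fun _ => Nat)
 (Bool.rec (motive := fun _ => Nat)
  (Bool.rec (motive := fun _ => Nat)
   (Bool.rec (motive := fun _ => Nat)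
    L4288
    L4289
    (Nat.ble 548992 i))
   (Bool.rec (motive := fun _ => Nat)
    L4290
    L4291
    (Nat.ble 549248 i))
   (Nat.ble 549120 i))
  (Bool.rec (motive := fun _ => Nat)
   (Bool.rec (motive := fun _ => Nat)
    L4292
    L4293
    (Nat.ble 549504 i))
   (Bool.rec (motive := fun _ => Nat)
    L4294
    L4295
    (Nat.ble 549760 i))
   (Nat.ble 549632 i))
  (Nat.ble 549376 i))
 (Bool.rec (motive := fun _ => Nat)
  (Bool.rec (motive := fun _ => Nat)
   (Bool.rec (motive := fun _ => Nat)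
    L4296
    L4297
    (Nat.ble 550016 i))
   (Bool.rec (motive := fun _ => Nat)
    L4298
    L4299
    (Nat.ble 550272 i))
   (Nat.ble 550144 i))
  (Bool.rec (motive := fun _ => Nat)
   (Bool.rec (motive := fun _ => Nat)
    L4300
    L4301
    (Nat.ble 550528 i))
   (Bool.rec (motive := fun _ => Nat)
    L4302
    L4303
    (Nat.ble 550784 i))
   (Nat.ble 550656 i))
  (Nat.ble 550400 i))
 (Nat.ble 549888 i))

/-- choice of a leaf -/
noncomputable def A0_269 (i : Nat) : Nat :=
 (Bool.rec (motive := fun _ => Nat)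
 (Bool.rec (motive := fun _ => Nat)
  (Bool.rec (motive := fun _ => Nat)
   (Bool.rec (motive := fun _ => Nat)
    L4304
    L4305
    (Nat.ble 551040 i))
   (Bool.rec (motive := fun _ => Nat)
    L4306
    L4307
    (Nat.ble 551296 i))
   (Nat.ble 551168 i))
  (Bool.rec (motive := fun _ => Nat)
   (Bool.rec (motive := fun _ => Nat)
    L4308
    L4309
    (Nat.ble 551552 i))
   (Bool.rec (motive := fun _ => Nat)
    L4310
    L4311
    (Nat.ble 551808 i))
   (Nat.ble 551680 i))
  (Nat.ble 551424 i))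
 (Bool.rec (motive := fun _ => Nat)
  (Bool.rec (motive := fun _ => Nat)
   (Bool.rec (motive := fun _ => Nat)
    L4312
    L4313
    (Nat.ble 552064 i))
   (Bool.rec (motive := fun _ => Nat)
    L4314
    L4315
    (Nat.ble 552320 i))
   (Nat.ble 552192 i))
  (Bool.rec (motive := fun _ => Nat)
   (Bool.rec (motive := fun _ => Nat)
    L4316
    L4317
    (Nat.ble 552576 i))
   (Bool.rec (motive := fun _ => Nat)
    L4318
    L4319
    (Nat.ble 552832 i))
   (Nat.ble 552704 i))
  (Nat.ble 552448 i))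
 (Nat.ble 551936 i))

/-- choice of a leaf -/
noncomputable def A0_270 (i : Nat) : Nat :=
 (Bool.rec (motive := fun _ => Nat)
 (Bool.rec (motive := fun _ => Nat)
  (Bool.rec (motive := fun _ => Nat)
   (Bool.rec (motive := fun _ => Nat)
    L4320
    L4321
    (Nat.ble 553088 i))
   (Bool.rec (motive := fun _ => Nat)
    L4322
    L4323
    (Nat.ble 553344 i))
   (Nat.ble 553216 i))
  (Bool.rec (motive := fun _ => Nat)
   (Bool.rec (motive := fun _ => Nat)
    L4324
    L4325
    (Nat.ble 553600 i))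
   (Bool.rec (motive := fun _ => Nat)
    L4326
    L4327
    (Nat.ble 553856 i))
   (Nat.ble 553728 i))
  (Nat.ble 553472 i))
 (Bool.rec (motive := fun _ => Nat)
  (Bool.rec (motive := fun _ => Nat)
   (Bool.rec (motive := fun _ => Nat)
    L4328
    L4329
    (Nat.ble 554112 i))
   (Bool.rec (motive := fun _ => Nat)
    L4330
    L4331
    (Nat.ble 554368 i))
   (Nat.ble 554240 i))
  (Bool.rec (motive := fun _ => Nat)
   (Bool.rec (motive := fun _ => Nat)
    L4332
    L4333
    (Nat.ble 554624 i))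
   (Bool.rec (motive := fun _ => Nat)
    L4334
    L4335
    (Nat.ble 554880 i))
   (Nat.ble 554752 i))
  (Nat.ble 554496 i))
 (Nat.ble 553984 i))

/-- choice of a leaf -/
noncomputable def A0_271 (i : Nat) : Nat :=
 (Bool.rec (motive := fun _ => Nat)
 (Bool.rec (motive := fun _ => Nat)
  (Bool.rec (motive := fun _ => Nat)
   (Bool.rec (motive := fun _ => Nat)
    L4336
    L4337
    (Nat.ble 555136 i))
   (Bool.rec (motive := fun _ => Nat)
    L4338
    L4339
    (Nat.ble 555392 i))
   (Nat.ble 555264 i))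
  (Bool.rec (motive := fun _ => Nat)
   (Bool.rec (motive := fun _ => Nat)
    L4340
    L4341
    (Nat.ble 555648 i))
   (Bool.rec (motive := fun _ => Nat)
    L4342
    L4343
    (Nat.ble 555904 i))
   (Nat.ble 555776 i))
  (Nat.ble 555520 i))
 (Bool.rec (motive := fun _ => Nat)
  (Bool.rec (motive := fun _ => Nat)
   (Bool.rec (motive := fun _ => Nat)
    L4344
    L4345
    (Nat.ble 556160 i))
   (Bool.rec (motive := fun _ => Nat)
    L4346
    L4347
    (Nat.ble 556416 i))
   (Nat.ble 556288 i))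
  (Bool.rec (motive := fun _ => Nat)
   (Bool.rec (motive := fun _ => Nat)
    L4348
    L4349
    (Nat.ble 556672 i))
   (Bool.rec (motive := fun _ => Nat)
    L4350
    L4351
    (Nat.ble 556928 i))
   (Nat.ble 556800 i))
  (Nat.ble 556544 i))
 (Nat.ble 556032 i))

/-- choice of a leaf -/
noncomputable def A0_272 (i : Nat) : Nat :=
 (Bool.rec (motive := fun _ => Nat)
 (Bool.rec (motive := fun _ => Nat)
  (Bool.rec (motive := fun _ => Nat)
   (Bool.rec (motive := fun _ => Nat)
    L4352
    L4353
    (Nat.ble 557184 i))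
   (Bool.rec (motive := fun _ => Nat)
    L4354
    L4355
    (Nat.ble 557440 i))
   (Nat.ble 557312 i))
  (Bool.rec (motive := fun _ => Nat)
   (Bool.rec (motive := fun _ => Nat)
    L4356
    L4357
    (Nat.ble 557696 i))
   (Bool.rec (motive := fun _ => Nat)
    L4358
    L4359
    (Nat.ble 557952 i))
   (Nat.ble 557824 i))
  (Nat.ble 557568 i))
 (Bool.rec (motive := fun _ => Nat)
  (Bool.rec (motive := fun _ => Nat)
   (Bool.rec (motive := fun _ => Nat)
    L4360
    L4361
    (Nat.ble 558208 i))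
   (Bool.rec (motive := fun _ => Nat)
    L4362
    L4363
    (Nat.ble 558464 i))
   (Nat.ble 558336 i))
  (Bool.rec (motive := fun _ => Nat)
   (Bool.rec (motive := fun _ => Nat)
    L4364
    L4365
    (Nat.ble 558720 i))
   (Bool.rec (motive := fun _ => Nat)
    L4366
    L4367
    (Nat.ble 558976 i))
   (Nat.ble 558848 i))
  (Nat.ble 558592 i))
 (Nat.ble 558080 i))

/-- choice of a leaf -/
noncomputable def A0_273 (i : Nat) : Nat :=
 (Bool.rec (motive := fun _ => Nat)
 (Bool.rec (motive := fun _ => Nat)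
  (Bool.rec (motive := fun _ => Nat)
   (Bool.rec (motive := fun _ => Nat)
    L4368
    L4369
    (Nat.ble 559232 i))
   (Bool.rec (motive := fun _ => Nat)
    L4370
    L4371
    (Nat.ble 559488 i))
   (Nat.ble 559360 i))
  (Bool.rec (motive := fun _ => Nat)
   (Bool.rec (motive := fun _ => Nat)
    L4372
    L4373
    (Nat.ble 559744 i))
   (Bool.rec (motive := fun _ => Nat)
    L4374
    L4375
    (Nat.ble 560000 i))
   (Nat.ble 559872 i))
  (Nat.ble 559616 i))
 (Bool.rec (motive := fun _ => Nat)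
  (Bool.rec (motive := fun _ => Nat)
   (Bool.rec (motive := fun _ => Nat)
    L4376
    L4377
    (Nat.ble 560256 i))
   (Bool.rec (motive := fun _ => Nat)
    L4378
    L4379
    (Nat.ble 560512 i))
   (Nat.ble 560384 i))
  (Bool.rec (motive := fun _ => Nat)
   (Bool.rec (motive := fun _ => Nat)
    L4380
    L4381
    (Nat.ble 560768 i))
   (Bool.rec (motive := fun _ => Nat)
    L4382
    L4383
    (Nat.ble 561024 i))
   (Nat.ble 560896 i))
  (Nat.ble 560640 i))
 (Nat.ble 560128 i))

/-- choice of a leaf -/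
noncomputable def A0_274 (i : Nat) : Nat :=
 (Bool.rec (motive := fun _ => Nat)
 (Bool.rec (motive := fun _ => Nat)
  (Bool.rec (motive := fun _ => Nat)
   (Bool.rec (motive := fun _ => Nat)
    L4384
    L4385
    (Nat.ble 561280 i))
   (Bool.rec (motive := fun _ => Nat)
    L4386
    L4387
    (Nat.ble 561536 i))
   (Nat.ble 561408 i))
  (Bool.rec (motive := fun _ => Nat)
   (Bool.rec (motive := fun _ => Nat)
    L4388
    L4389
    (Nat.ble 561792 i))
   (Bool.rec (motive := fun _ => Nat)
    L4390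
    L4391
    (Nat.ble 562048 i))
   (Nat.ble 561920 i))
  (Nat.ble 561664 i))
 (Bool.rec (motive := fun _ => Nat)
  (Bool.rec (motive := fun _ => Nat)
   (Bool.rec (motive := fun _ => Nat)
    L4392
    L4393
    (Nat.ble 562304 i))
   (Bool.rec (motive := fun _ => Nat)
    L4394
    L4395
    (Nat.ble 562560 i))
   (Nat.ble 562432 i))
  (Bool.rec (motive := fun _ => Nat)
   (Bool.rec (motive := fun _ => Nat)
    L4396
    L4397
    (Nat.ble 562816 i))
   (Bool.rec (motive := fun _ => Nat)
    L4398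
    L4399
    (Nat.ble 563072 i))
   (Nat.ble 562944 i))
  (Nat.ble 562688 i))
 (Nat.ble 562176 i))

/-- choice of a leaf -/
noncomputable def A0_275 (i : Nat) : Nat :=
 (Bool.rec (motive := fun _ => Nat)
 (Bool.rec (motive := fun _ => Nat)
  (Bool.rec (motive := fun _ => Nat)
   (Bool.rec (motive := fun _ => Nat)
    L4400
    L4401
    (Nat.ble 563328 i))
   (Bool.rec (motive := fun _ => Nat)
    L4402
    L4403
    (Nat.ble 563584 i))
   (Nat.ble 563456 i))
  (Bool.rec (motive := fun _ => Nat)
   (Bool.rec (motive := fun _ => Nat)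
    L4404
    L4405
    (Nat.ble 563840 i))
   (Bool.rec (motive := fun _ => Nat)
    L4406
    L4407
    (Nat.ble 564096 i))
   (Nat.ble 563968 i))
  (Nat.ble 563712 i))
 (Bool.rec (motive := fun _ => Nat)
  (Bool.rec (motive := fun _ => Nat)
   (Bool.rec (motive := fun _ => Nat)
    L4408
    L4409
    (Nat.ble 564352 i))
   (Bool.rec (motive := fun _ => Nat)
    L4410
    L4411
    (Nat.ble 564608 i))
   (Nat.ble 564480 i))
  (Bool.rec (motive := fun _ => Nat)
   (Bool.rec (motive := fun _ => Nat)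
    L4412
    L4413
    (Nat.ble 564864 i))
   (Bool.rec (motive := fun _ => Nat)
    L4414
    L4415
    (Nat.ble 565120 i))
   (Nat.ble 564992 i))
  (Nat.ble 564736 i))
 (Nat.ble 564224 i))

/-- choice of a leaf -/
noncomputable def A0_276 (i : Nat) : Nat :=
 (Bool.rec (motive := fun _ => Nat)
 (Bool.rec (motive := fun _ => Nat)
  (Bool.rec (motive := fun _ => Nat)
   (Bool.rec (motive := fun _ => Nat)
    L4416
    L4417
    (Nat.ble 565376 i))
   (Bool.rec (motive := fun _ => Nat)
    L4418
    L4419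
    (Nat.ble 565632 i))
   (Nat.ble 565504 i))
  (Bool.rec (motive := fun _ => Nat)
   (Bool.rec (motive := fun _ => Nat)
    L4420
    L4421
    (Nat.ble 565888 i))
   (Bool.rec (motive := fun _ => Nat)
    L4422
    L4423
    (Nat.ble 566144 i))
   (Nat.ble 566016 i))
  (Nat.ble 565760 i))
 (Bool.rec (motive := fun _ => Nat)
  (Bool.rec (motive := fun _ => Nat)
   (Bool.rec (motive := fun _ => Nat)
    L4424
    L4425
    (Nat.ble 566400 i))
   (Bool.rec (motive := fun _ => Nat)
    L4426
    L4427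
    (Nat.ble 566656 i))
   (Nat.ble 566528 i))
  (Bool.rec (motive := fun _ => Nat)
   (Bool.rec (motive := fun _ => Nat)
    L4428
    L4429
    (Nat.ble 566912 i))
   (Bool.rec (motive := fun _ => Nat)
    L4430
    L4431
    (Nat.ble 567168 i))
   (Nat.ble 567040 i))
  (Nat.ble 566784 i))
 (Nat.ble 566272 i))

/-- choice of a leaf -/
noncomputable def A0_277 (i : Nat) : Nat :=
 (Bool.rec (motive := fun _ => Nat)
 (Bool.rec (motive := fun _ => Nat)
  (Bool.rec (motive := fun _ => Nat)
   (Bool.rec (motive := fun _ => Nat)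
    L4432
    L4433
    (Nat.ble 567424 i))
   (Bool.rec (motive := fun _ => Nat)
    L4434
    L4435
    (Nat.ble 567680 i))
   (Nat.ble 567552 i))
  (Bool.rec (motive := fun _ => Nat)
   (Bool.rec (motive := fun _ => Nat)
    L4436
    L4437
    (Nat.ble 567936 i))
   (Bool.rec (motive := fun _ => Nat)
    L4438
    L4439
    (Nat.ble 568192 i))
   (Nat.ble 568064 i))
  (Nat.ble 567808 i))
 (Bool.rec (motive := fun _ => Nat)
  (Bool.rec (motive := fun _ => Nat)
   (Bool.rec (motive := fun _ => Nat)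
    L4440
    L4441
    (Nat.ble 568448 i))
   (Bool.rec (motive := fun _ => Nat)
    L4442
    L4443
    (Nat.ble 568704 i))
   (Nat.ble 568576 i))
  (Bool.rec (motive := fun _ => Nat)
   (Bool.rec (motive := fun _ => Nat)
    L4444
    L4445
    (Nat.ble 568960 i))
   (Bool.rec (motive := fun _ => Nat)
    L4446
    L4447
    (Nat.ble 569216 i))
   (Nat.ble 569088 i))
  (Nat.ble 568832 i))
 (Nat.ble 568320 i))

/-- choice of a leaf -/
noncomputable def A0_278 (i : Nat) : Nat :=
 (Bool.rec (motive := fun _ => Nat)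
 (Bool.rec (motive := fun _ => Nat)
  (Bool.rec (motive := fun _ => Nat)
   (Bool.rec (motive := fun _ => Nat)
    L4448
    L4449
    (Nat.ble 569472 i))
   (Bool.rec (motive := fun _ => Nat)
    L4450
    L4451
    (Nat.ble 569728 i))
   (Nat.ble 569600 i))
  (Bool.rec (motive := fun _ => Nat)
   (Bool.rec (motive := fun _ => Nat)
    L4452
    L4453
    (Nat.ble 569984 i))
   (Bool.rec (motive := fun _ => Nat)
    L4454
    L4455
    (Nat.ble 570240 i))
   (Nat.ble 570112 i))
  (Nat.ble 569856 i))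
 (Bool.rec (motive := fun _ => Nat)
  (Bool.rec (motive := fun _ => Nat)
   (Bool.rec (motive := fun _ => Nat)
    L4456
    L4457
    (Nat.ble 570496 i))
   (Bool.rec (motive := fun _ => Nat)
    L4458
    L4459
    (Nat.ble 570752 i))
   (Nat.ble 570624 i))
  (Bool.rec (motive := fun _ => Nat)
   (Bool.rec (motive := fun _ => Nat)
    L4460
    L4461
    (Nat.ble 571008 i))
   (Bool.rec (motive := fun _ => Nat)
    L4462
    L4463
    (Nat.ble 571264 i))
   (Nat.ble 571136 i))
  (Nat.ble 570880 i))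
 (Nat.ble 570368 i))

/-- choice of a leaf -/
noncomputable def A0_279 (i : Nat) : Nat :=
 (Bool.rec (motive := fun _ => Nat)
 (Bool.rec (motive := fun _ => Nat)
  (Bool.rec (motive := fun _ => Nat)
   (Bool.rec (motive := fun _ => Nat)
    L4464
    L4465
    (Nat.ble 571520 i))
   (Bool.rec (motive := fun _ => Nat)
    L4466
    L4467
    (Nat.ble 571776 i))
   (Nat.ble 571648 i))
  (Bool.rec (motive := fun _ => Nat)
   (Bool.rec (motive := fun _ => Nat)
    L4468
    L4469
    (Nat.ble 572032 i))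
   (Bool.rec (motive := fun _ => Nat)
    L4470
    L4471
    (Nat.ble 572288 i))
   (Nat.ble 572160 i))
  (Nat.ble 571904 i))
 (Bool.rec (motive := fun _ => Nat)
  (Bool.rec (motive := fun _ => Nat)
   (Bool.rec (motive := fun _ => Nat)
    L4472
    L4473
    (Nat.ble 572544 i))
   (Bool.rec (motive := fun _ => Nat)
    L4474
    L4475
    (Nat.ble 572800 i))
   (Nat.ble 572672 i))
  (Bool.rec (motive := fun _ => Nat)
   (Bool.rec (motive := fun _ => Nat)
    L4476
    L4477
    (Nat.ble 573056 i))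
   (Bool.rec (motive := fun _ => Nat)
    L4478
    L4479
    (Nat.ble 573312 i))
   (Nat.ble 573184 i))
  (Nat.ble 572928 i))
 (Nat.ble 572416 i))

/-- choice of a leaf -/
noncomputable def A0_280 (i : Nat) : Nat :=
 (Bool.rec (motive := fun _ => Nat)
 (Bool.rec (motive := fun _ => Nat)
  (Bool.rec (motive := fun _ => Nat)
   (Bool.rec (motive := fun _ => Nat)
    L4480
    L4481
    (Nat.ble 573568 i))
   (Bool.rec (motive := fun _ => Nat)
    L4482
    L4483
    (Nat.ble 573824 i))
   (Nat.ble 573696 i))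
  (Bool.rec (motive := fun _ => Nat)
   (Bool.rec (motive := fun _ => Nat)
    L4484
    L4485
    (Nat.ble 574080 i))
   (Bool.rec (motive := fun _ => Nat)
    L4486
    L4487
    (Nat.ble 574336 i))
   (Nat.ble 574208 i))
  (Nat.ble 573952 i))
 (Bool.rec (motive := fun _ => Nat)
  (Bool.rec (motive := fun _ => Nat)
   (Bool.rec (motive := fun _ => Nat)
    L4488
    L4489
    (Nat.ble 574592 i))
   (Bool.rec (motive := fun _ => Nat)
    L4490
    L4491
    (Nat.ble 574848 i))
   (Nat.ble 574720 i))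
  (Bool.rec (motive := fun _ => Nat)
   (Bool.rec (motive := fun _ => Nat)
    L4492
    L4493
    (Nat.ble 575104 i))
   (Bool.rec (motive := fun _ => Nat)
    L4494
    L4495
    (Nat.ble 575360 i))
   (Nat.ble 575232 i))
  (Nat.ble 574976 i))
 (Nat.ble 574464 i))

/-- choice of a leaf -/
noncomputable def A0_281 (i : Nat) : Nat :=
 (Bool.rec (motive := fun _ => Nat)
 (Bool.rec (motive := fun _ => Nat)
  (Bool.rec (motive := fun _ => Nat)
   (Bool.rec (motive := fun _ => Nat)
    L4496
    L4497
    (Nat.ble 575616 i))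
   (Bool.rec (motive := fun _ => Nat)
    L4498
    L4499
    (Nat.ble 575872 i))
   (Nat.ble 575744 i))
  (Bool.rec (motive := fun _ => Nat)
   (Bool.rec (motive := fun _ => Nat)
    L4500
    L4501
    (Nat.ble 576128 i))
   (Bool.rec (motive := fun _ => Nat)
    L4502
    L4503
    (Nat.ble 576384 i))
   (Nat.ble 576256 i))
  (Nat.ble 576000 i))
 (Bool.rec (motive := fun _ => Nat)
  (Bool.rec (motive := fun _ => Nat)
   (Bool.rec (motive := fun _ => Nat)
    L4504
    L4505
    (Nat.ble 576640 i))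
   (Bool.rec (motive := fun _ => Nat)
    L4506
    L4507
    (Nat.ble 576896 i))
   (Nat.ble 576768 i))
  (Bool.rec (motive := fun _ => Nat)
   (Bool.rec (motive := fun _ => Nat)
    L4508
    L4509
    (Nat.ble 577152 i))
   (Bool.rec (motive := fun _ => Nat)
    L4510
    L4511
    (Nat.ble 577408 i))
   (Nat.ble 577280 i))
  (Nat.ble 577024 i))
 (Nat.ble 576512 i))

/-- choice of a leaf -/
noncomputable def A0_282 (i : Nat) : Nat :=
 (Bool.rec (motive := fun _ => Nat)
 (Bool.rec (motive := fun _ => Nat)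
  (Bool.rec (motive := fun _ => Nat)
   (Bool.rec (motive := fun _ => Nat)
    L4512
    L4513
    (Nat.ble 577664 i))
   (Bool.rec (motive := fun _ => Nat)
    L4514
    L4515
    (Nat.ble 577920 i))
   (Nat.ble 577792 i))
  (Bool.rec (motive := fun _ => Nat)
   (Bool.rec (motive := fun _ => Nat)
    L4516
    L4517
    (Nat.ble 578176 i))
   (Bool.rec (motive := fun _ => Nat)
    L4518
    L4519
    (Nat.ble 578432 i))
   (Nat.ble 578304 i))
  (Nat.ble 578048 i))
 (Bool.rec (motive := fun _ => Nat)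
  (Bool.rec (motive := fun _ => Nat)
   (Bool.rec (motive := fun _ => Nat)
    L4520
    L4521
    (Nat.ble 578688 i))
   (Bool.rec (motive := fun _ => Nat)
    L4522
    L4523
    (Nat.ble 578944 i))
   (Nat.ble 578816 i))
  (Bool.rec (motive := fun _ => Nat)
   (Bool.rec (motive := fun _ => Nat)
    L4524
    L4525
    (Nat.ble 579200 i))
   (Bool.rec (motive := fun _ => Nat)
    L4526
    L4527
    (Nat.ble 579456 i))
   (Nat.ble 579328 i))
  (Nat.ble 579072 i))
 (Nat.ble 578560 i))

/-- choice of a leaf -/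
noncomputable def A0_283 (i : Nat) : Nat :=
 (Bool.rec (motive := fun _ => Nat)
 (Bool.rec (motive := fun _ => Nat)
  (Bool.rec (motive := fun _ => Nat)
   (Bool.rec (motive := fun _ => Nat)
    L4528
    L4529
    (Nat.ble 579712 i))
   (Bool.rec (motive := fun _ => Nat)
    L4530
    L4531
    (Nat.ble 579968 i))
   (Nat.ble 579840 i))
  (Bool.rec (motive := fun _ => Nat)
   (Bool.rec (motive := fun _ => Nat)
    L4532
    L4533
    (Nat.ble 580224 i))
   (Bool.rec (motive := fun _ => Nat)
    L4534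
    L4535
    (Nat.ble 580480 i))
   (Nat.ble 580352 i))
  (Nat.ble 580096 i))
 (Bool.rec (motive := fun _ => Nat)
  (Bool.rec (motive := fun _ => Nat)
   (Bool.rec (motive := fun _ => Nat)
    L4536
    L4537
    (Nat.ble 580736 i))
   (Bool.rec (motive := fun _ => Nat)
    L4538
    L4539
    (Nat.ble 580992 i))
   (Nat.ble 580864 i))
  (Bool.rec (motive := fun _ => Nat)
   (Bool.rec (motive := fun _ => Nat)
    L4540
    L4541
    (Nat.ble 581248 i))
   (Bool.rec (motive := fun _ => Nat)
    L4542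
    L4543
    (Nat.ble 581504 i))
   (Nat.ble 581376 i))
  (Nat.ble 581120 i))
 (Nat.ble 580608 i))

/-- choice of a leaf -/
noncomputable def A0_284 (i : Nat) : Nat :=
 (Bool.rec (motive := fun _ => Nat)
 (Bool.rec (motive := fun _ => Nat)
  (Bool.rec (motive := fun _ => Nat)
   (Bool.rec (motive := fun _ => Nat)
    L4544
    L4545
    (Nat.ble 581760 i))
   (Bool.rec (motive := fun _ => Nat)
    L4546
    L4547
    (Nat.ble 582016 i))
   (Nat.ble 581888 i))
  (Bool.rec (motive := fun _ => Nat)
   (Bool.rec (motive := fun _ => Nat)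
    L4548
    L4549
    (Nat.ble 582272 i))
   (Bool.rec (motive := fun _ => Nat)
    L4550
    L4551
    (Nat.ble 582528 i))
   (Nat.ble 582400 i))
  (Nat.ble 582144 i))
 (Bool.rec (motive := fun _ => Nat)
  (Bool.rec (motive := fun _ => Nat)
   (Bool.rec (motive := fun _ => Nat)
    L4552
    L4553
    (Nat.ble 582784 i))
   (Bool.rec (motive := fun _ => Nat)
    L4554
    L4555
    (Nat.ble 583040 i))
   (Nat.ble 582912 i))
  (Bool.rec (motive := fun _ => Nat)
   (Bool.rec (motive := fun _ => Nat)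
    L4556
    L4557
    (Nat.ble 583296 i))
   (Bool.rec (motive := fun _ => Nat)
    L4558
    L4559
    (Nat.ble 583552 i))
   (Nat.ble 583424 i))
  (Nat.ble 583168 i))
 (Nat.ble 582656 i))

/-- choice of a leaf -/
noncomputable def A0_285 (i : Nat) : Nat :=
 (Bool.rec (motive := fun _ => Nat)
 (Bool.rec (motive := fun _ => Nat)
  (Bool.rec (motive := fun _ => Nat)
   (Bool.rec (motive := fun _ => Nat)
    L4560
    L4561
    (Nat.ble 583808 i))
   (Bool.rec (motive := fun _ => Nat)
    L4562
    L4563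
    (Nat.ble 584064 i))
   (Nat.ble 583936 i))
  (Bool.rec (motive := fun _ => Nat)
   (Bool.rec (motive := fun _ => Nat)
    L4564
    L4565
    (Nat.ble 584320 i))
   (Bool.rec (motive := fun _ => Nat)
    L4566
    L4567
    (Nat.ble 584576 i))
   (Nat.ble 584448 i))
  (Nat.ble 584192 i))
 (Bool.rec (motive := fun _ => Nat)
  (Bool.rec (motive := fun _ => Nat)
   (Bool.rec (motive := fun _ => Nat)
    L4568
    L4569
    (Nat.ble 584832 i))
   (Bool.rec (motive := fun _ => Nat)
    L4570
    L4571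
    (Nat.ble 585088 i))
   (Nat.ble 584960 i))
  (Bool.rec (motive := fun _ => Nat)
   (Bool.rec (motive := fun _ => Nat)
    L4572
    L4573
    (Nat.ble 585344 i))
   (Bool.rec (motive := fun _ => Nat)
    L4574
    L4575
    (Nat.ble 585600 i))
   (Nat.ble 585472 i))
  (Nat.ble 585216 i))
 (Nat.ble 584704 i))

/-- choice of a leaf -/
noncomputable def A0_286 (i : Nat) : Nat :=
 (Bool.rec (motive := fun _ => Nat)
 (Bool.rec (motive := fun _ => Nat)
  (Bool.rec (motive := fun _ => Nat)
   (Bool.rec (motive := fun _ => Nat)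
    L4576
    L4577
    (Nat.ble 585856 i))
   (Bool.rec (motive := fun _ => Nat)
    L4578
    L4579
    (Nat.ble 586112 i))
   (Nat.ble 585984 i))
  (Bool.rec (motive := fun _ => Nat)
   (Bool.rec (motive := fun _ => Nat)
    L4580
    L4581
    (Nat.ble 586368 i))
   (Bool.rec (motive := fun _ => Nat)
    L4582
    L4583
    (Nat.ble 586624 i))
   (Nat.ble 586496 i))
  (Nat.ble 586240 i))
 (Bool.rec (motive := fun _ => Nat)
  (Bool.rec (motive := fun _ => Nat)
   (Bool.rec (motive := fun _ => Nat)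
    L4584
    L4585
    (Nat.ble 586880 i))
   (Bool.rec (motive := fun _ => Nat)
    L4586
    L4587
    (Nat.ble 587136 i))
   (Nat.ble 587008 i))
  (Bool.rec (motive := fun _ => Nat)
   (Bool.rec (motive := fun _ => Nat)
    L4588
    L4589
    (Nat.ble 587392 i))
   (Bool.rec (motive := fun _ => Nat)
    L4590
    L4591
    (Nat.ble 587648 i))
   (Nat.ble 587520 i))
  (Nat.ble 587264 i))
 (Nat.ble 586752 i))

/-- choice of a leaf -/
noncomputable def A0_287 (i : Nat) : Nat :=
 (Bool.rec (motive := fun _ => Nat)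
 (Bool.rec (motive := fun _ => Nat)
  (Bool.rec (motive := fun _ => Nat)
   (Bool.rec (motive := fun _ => Nat)
    L4592
    L4593
    (Nat.ble 587904 i))
   (Bool.rec (motive := fun _ => Nat)
    L4594
    L4595
    (Nat.ble 588160 i))
   (Nat.ble 588032 i))
  (Bool.rec (motive := fun _ => Nat)
   (Bool.rec (motive := fun _ => Nat)
    L4596
    L4597
    (Nat.ble 588416 i))
   (Bool.rec (motive := fun _ => Nat)
    L4598
    L4599
    (Nat.ble 588672 i))
   (Nat.ble 588544 i))
  (Nat.ble 588288 i))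
 (Bool.rec (motive := fun _ => Nat)
  (Bool.rec (motive := fun _ => Nat)
   (Bool.rec (motive := fun _ => Nat)
    L4600
    L4601
    (Nat.ble 588928 i))
   (Bool.rec (motive := fun _ => Nat)
    L4602
    L4603
    (Nat.ble 589184 i))
   (Nat.ble 589056 i))
  (Bool.rec (motive := fun _ => Nat)
   (Bool.rec (motive := fun _ => Nat)
    L4604
    L4605
    (Nat.ble 589440 i))
   (Bool.rec (motive := fun _ => Nat)
    L4606
    L4607
    (Nat.ble 589696 i))
   (Nat.ble 589568 i))
  (Nat.ble 589312 i))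
 (Nat.ble 588800 i))

/-- choice of a leaf -/
noncomputable def A0_288 (i : Nat) : Nat :=
 (Bool.rec (motive := fun _ => Nat)
 (Bool.rec (motive := fun _ => Nat)
  (Bool.rec (motive := fun _ => Nat)
   (Bool.rec (motive := fun _ => Nat)
    L4608
    L4609
    (Nat.ble 589952 i))
   (Bool.rec (motive := fun _ => Nat)
    L4610
    L4611
    (Nat.ble 590208 i))
   (Nat.ble 590080 i))
  (Bool.rec (motive := fun _ => Nat)
   (Bool.rec (motive := fun _ => Nat)
    L4612
    L4613
    (Nat.ble 590464 i))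
   (Bool.rec (motive := fun _ => Nat)
    L4614
    L4615
    (Nat.ble 590720 i))
   (Nat.ble 590592 i))
  (Nat.ble 590336 i))
 (Bool.rec (motive := fun _ => Nat)
  (Bool.rec (motive := fun _ => Nat)
   (Bool.rec (motive := fun _ => Nat)
    L4616
    L4617
    (Nat.ble 590976 i))
   (Bool.rec (motive := fun _ => Nat)
    L4618
    L4619
    (Nat.ble 591232 i))
   (Nat.ble 591104 i))
  (Bool.rec (motive := fun _ => Nat)
   (Bool.rec (motive := fun _ => Nat)
    L4620
    L4621
    (Nat.ble 591488 i))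
   (Bool.rec (motive := fun _ => Nat)
    L4622
    L4623
    (Nat.ble 591744 i))
   (Nat.ble 591616 i))
  (Nat.ble 591360 i))
 (Nat.ble 590848 i))

/-- choice of a leaf -/
noncomputable def A0_289 (i : Nat) : Nat :=
 (Bool.rec (motive := fun _ => Nat)
 (Bool.rec (motive := fun _ => Nat)
  (Bool.rec (motive := fun _ => Nat)
   (Bool.rec (motive := fun _ => Nat)
    L4624
    L4625
    (Nat.ble 592000 i))
   (Bool.rec (motive := fun _ => Nat)
    L4626
    L4627
    (Nat.ble 592256 i))
   (Nat.ble 592128 i))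
  (Bool.rec (motive := fun _ => Nat)
   (Bool.rec (motive := fun _ => Nat)
    L4628
    L4629
    (Nat.ble 592512 i))
   (Bool.rec (motive := fun _ => Nat)
    L4630
    L4631
    (Nat.ble 592768 i))
   (Nat.ble 592640 i))
  (Nat.ble 592384 i))
 (Bool.rec (motive := fun _ => Nat)
  (Bool.rec (motive := fun _ => Nat)
   (Bool.rec (motive := fun _ => Nat)
    L4632
    L4633
    (Nat.ble 593024 i))
   (Bool.rec (motive := fun _ => Nat)
    L4634
    L4635
    (Nat.ble 593280 i))
   (Nat.ble 593152 i))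
  (Bool.rec (motive := fun _ => Nat)
   (Bool.rec (motive := fun _ => Nat)
    L4636
    L4637
    (Nat.ble 593536 i))
   (Bool.rec (motive := fun _ => Nat)
    L4638
    L4639
    (Nat.ble 593792 i))
   (Nat.ble 593664 i))
  (Nat.ble 593408 i))
 (Nat.ble 592896 i))

/-- choice of a leaf -/
noncomputable def A0_290 (i : Nat) : Nat :=
 (Bool.rec (motive := fun _ => Nat)
 (Bool.rec (motive := fun _ => Nat)
  (Bool.rec (motive := fun _ => Nat)
   (Bool.rec (motive := fun _ => Nat)
    L4640
    L4641
    (Nat.ble 594048 i))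
   (Bool.rec (motive := fun _ => Nat)
    L4642
    L4643
    (Nat.ble 594304 i))
   (Nat.ble 594176 i))
  (Bool.rec (motive := fun _ => Nat)
   (Bool.rec (motive := fun _ => Nat)
    L4644
    L4645
    (Nat.ble 594560 i))
   (Bool.rec (motive := fun _ => Nat)
    L4646
    L4647
    (Nat.ble 594816 i))
   (Nat.ble 594688 i))
  (Nat.ble 594432 i))
 (Bool.rec (motive := fun _ => Nat)
  (Bool.rec (motive := fun _ => Nat)
   (Bool.rec (motive := fun _ => Nat)
    L4648
    L4649
    (Nat.ble 595072 i))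
   (Bool.rec (motive := fun _ => Nat)
    L4650
    L4651
    (Nat.ble 595328 i))
   (Nat.ble 595200 i))
  (Bool.rec (motive := fun _ => Nat)
   (Bool.rec (motive := fun _ => Nat)
    L4652
    L4653
    (Nat.ble 595584 i))
   (Bool.rec (motive := fun _ => Nat)
    L4654
    L4655
    (Nat.ble 595840 i))
   (Nat.ble 595712 i))
  (Nat.ble 595456 i))
 (Nat.ble 594944 i))

/-- choice of a leaf -/
noncomputable def A0_291 (i : Nat) : Nat :=
 (Bool.rec (motive := fun _ => Nat)
 (Bool.rec (motive := fun _ => Nat)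
  (Bool.rec (motive := fun _ => Nat)
   (Bool.rec (motive := fun _ => Nat)
    L4656
    L4657
    (Nat.ble 596096 i))
   (Bool.rec (motive := fun _ => Nat)
    L4658
    L4659
    (Nat.ble 596352 i))
   (Nat.ble 596224 i))
  (Bool.rec (motive := fun _ => Nat)
   (Bool.rec (motive := fun _ => Nat)
    L4660
    L4661
    (Nat.ble 596608 i))
   (Bool.rec (motive := fun _ => Nat)
    L4662
    L4663
    (Nat.ble 596864 i))
   (Nat.ble 596736 i))
  (Nat.ble 596480 i))
 (Bool.rec (motive := fun _ => Nat)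
  (Bool.rec (motive := fun _ => Nat)
   (Bool.rec (motive := fun _ => Nat)
    L4664
    L4665
    (Nat.ble 597120 i))
   (Bool.rec (motive := fun _ => Nat)
    L4666
    L4667
    (Nat.ble 597376 i))
   (Nat.ble 597248 i))
  (Bool.rec (motive := fun _ => Nat)
   (Bool.rec (motive := fun _ => Nat)
    L4668
    L4669
    (Nat.ble 597632 i))
   (Bool.rec (motive := fun _ => Nat)
    L4670
    L4671
    (Nat.ble 597888 i))
   (Nat.ble 597760 i))
  (Nat.ble 597504 i))
 (Nat.ble 596992 i))

/-- choice of a leaf -/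
noncomputable def A0_292 (i : Nat) : Nat :=
 (Bool.rec (motive := fun _ => Nat)
 (Bool.rec (motive := fun _ => Nat)
  (Bool.rec (motive := fun _ => Nat)
   (Bool.rec (motive := fun _ => Nat)
    L4672
    L4673
    (Nat.ble 598144 i))
   (Bool.rec (motive := fun _ => Nat)
    L4674
    L4675
    (Nat.ble 598400 i))
   (Nat.ble 598272 i))
  (Bool.rec (motive := fun _ => Nat)
   (Bool.rec (motive := fun _ => Nat)
    L4676
    L4677
    (Nat.ble 598656 i))
   (Bool.rec (motive := fun _ => Nat)
    L4678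
    L4679
    (Nat.ble 598912 i))
   (Nat.ble 598784 i))
  (Nat.ble 598528 i))
 (Bool.rec (motive := fun _ => Nat)
  (Bool.rec (motive := fun _ => Nat)
   (Bool.rec (motive := fun _ => Nat)
    L4680
    L4681
    (Nat.ble 599168 i))
   (Bool.rec (motive := fun _ => Nat)
    L4682
    L4683
    (Nat.ble 599424 i))
   (Nat.ble 599296 i))
  (Bool.rec (motive := fun _ => Nat)
   (Bool.rec (motive := fun _ => Nat)
    L4684
    L4685
    (Nat.ble 599680 i))
   (Bool.rec (motive := fun _ => Nat)
    L4686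
    L4687
    (Nat.ble 599936 i))
   (Nat.ble 599808 i))
  (Nat.ble 599552 i))
 (Nat.ble 599040 i))

/-- choice of a leaf -/
noncomputable def A0_293 (i : Nat) : Nat :=
 (Bool.rec (motive := fun _ => Nat)
 (Bool.rec (motive := fun _ => Nat)
  (Bool.rec (motive := fun _ => Nat)
   (Bool.rec (motive := fun _ => Nat)
    L4688
    L4689
    (Nat.ble 600192 i))
   (Bool.rec (motive := fun _ => Nat)
    L4690
    L4691
    (Nat.ble 600448 i))
   (Nat.ble 600320 i))
  (Bool.rec (motive := fun _ => Nat)
   (Bool.rec (motive := fun _ => Nat)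
    L4692
    L4693
    (Nat.ble 600704 i))
   (Bool.rec (motive := fun _ => Nat)
    L4694
    L4695
    (Nat.ble 600960 i))
   (Nat.ble 600832 i))
  (Nat.ble 600576 i))
 (Bool.rec (motive := fun _ => Nat)
  (Bool.rec (motive := fun _ => Nat)
   (Bool.rec (motive := fun _ => Nat)
    L4696
    L4697
    (Nat.ble 601216 i))
   (Bool.rec (motive := fun _ => Nat)
    L4698
    L4699
    (Nat.ble 601472 i))
   (Nat.ble 601344 i))
  (Bool.rec (motive := fun _ => Nat)
   (Bool.rec (motive := fun _ => Nat)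
    L4700
    L4701
    (Nat.ble 601728 i))
   (Bool.rec (motive := fun _ => Nat)
    L4702
    L4703
    (Nat.ble 601984 i))
   (Nat.ble 601856 i))
  (Nat.ble 601600 i))
 (Nat.ble 601088 i))

/-- choice of a leaf -/
noncomputable def A0_294 (i : Nat) : Nat :=
 (Bool.rec (motive := fun _ => Nat)
 (Bool.rec (motive := fun _ => Nat)
  (Bool.rec (motive := fun _ => Nat)
   (Bool.rec (motive := fun _ => Nat)
    L4704
    L4705
    (Nat.ble 602240 i))
   (Bool.rec (motive := fun _ => Nat)
    L4706
    L4707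
    (Nat.ble 602496 i))
   (Nat.ble 602368 i))
  (Bool.rec (motive := fun _ => Nat)
   (Bool.rec (motive := fun _ => Nat)
    L4708
    L4709
    (Nat.ble 602752 i))
   (Bool.rec (motive := fun _ => Nat)
    L4710
    L4711
    (Nat.ble 603008 i))
   (Nat.ble 602880 i))
  (Nat.ble 602624 i))
 (Bool.rec (motive := fun _ => Nat)
  (Bool.rec (motive := fun _ => Nat)
   (Bool.rec (motive := fun _ => Nat)
    L4712
    L4713
    (Nat.ble 603264 i))
   (Bool.rec (motive := fun _ => Nat)
    L4714
    L4715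
    (Nat.ble 603520 i))
   (Nat.ble 603392 i))
  (Bool.rec (motive := fun _ => Nat)
   (Bool.rec (motive := fun _ => Nat)
    L4716
    L4717
    (Nat.ble 603776 i))
   (Bool.rec (motive := fun _ => Nat)
    L4718
    L4719
    (Nat.ble 604032 i))
   (Nat.ble 603904 i))
  (Nat.ble 603648 i))
 (Nat.ble 603136 i))

/-- choice of a leaf -/
noncomputable def A0_295 (i : Nat) : Nat :=
 (Bool.rec (motive := fun _ => Nat)
 (Bool.rec (motive := fun _ => Nat)
  (Bool.rec (motive := fun _ => Nat)
   (Bool.rec (motive := fun _ => Nat)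
    L4720
    L4721
    (Nat.ble 604288 i))
   (Bool.rec (motive := fun _ => Nat)
    L4722
    L4723
    (Nat.ble 604544 i))
   (Nat.ble 604416 i))
  (Bool.rec (motive := fun _ => Nat)
   (Bool.rec (motive := fun _ => Nat)
    L4724
    L4725
    (Nat.ble 604800 i))
   (Bool.rec (motive := fun _ => Nat)
    L4726
    L4727
    (Nat.ble 605056 i))
   (Nat.ble 604928 i))
  (Nat.ble 604672 i))
 (Bool.rec (motive := fun _ => Nat)
  (Bool.rec (motive := fun _ => Nat)
   (Bool.rec (motive := fun _ => Nat)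
    L4728
    L4729
    (Nat.ble 605312 i))
   (Bool.rec (motive := fun _ => Nat)
    L4730
    L4731
    (Nat.ble 605568 i))
   (Nat.ble 605440 i))
  (Bool.rec (motive := fun _ => Nat)
   (Bool.rec (motive := fun _ => Nat)
    L4732
    L4733
    (Nat.ble 605824 i))
   (Bool.rec (motive := fun _ => Nat)
    L4734
    L4735
    (Nat.ble 606080 i))
   (Nat.ble 605952 i))
  (Nat.ble 605696 i))
 (Nat.ble 605184 i))

/-- choice of a leaf -/
noncomputable def A0_296 (i : Nat) : Nat :=
 (Bool.rec (motive := fun _ => Nat)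
 (Bool.rec (motive := fun _ => Nat)
  (Bool.rec (motive := fun _ => Nat)
   (Bool.rec (motive := fun _ => Nat)
    L4736
    L4737
    (Nat.ble 606336 i))
   (Bool.rec (motive := fun _ => Nat)
    L4738
    L4739
    (Nat.ble 606592 i))
   (Nat.ble 606464 i))
  (Bool.rec (motive := fun _ => Nat)
   (Bool.rec (motive := fun _ => Nat)
    L4740
    L4741
    (Nat.ble 606848 i))
   (Bool.rec (motive := fun _ => Nat)
    L4742
    L4743
    (Nat.ble 607104 i))
   (Nat.ble 606976 i))
  (Nat.ble 606720 i))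
 (Bool.rec (motive := fun _ => Nat)
  (Bool.rec (motive := fun _ => Nat)
   (Bool.rec (motive := fun _ => Nat)
    L4744
    L4745
    (Nat.ble 607360 i))
   (Bool.rec (motive := fun _ => Nat)
    L4746
    L4747
    (Nat.ble 607616 i))
   (Nat.ble 607488 i))
  (Bool.rec (motive := fun _ => Nat)
   (Bool.rec (motive := fun _ => Nat)
    L4748
    L4749
    (Nat.ble 607872 i))
   (Bool.rec (motive := fun _ => Nat)
    L4750
    L4751
    (Nat.ble 608128 i))
   (Nat.ble 608000 i))
  (Nat.ble 607744 i))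
 (Nat.ble 607232 i))

/-- choice of a leaf -/
noncomputable def A0_297 (i : Nat) : Nat :=
 (Bool.rec (motive := fun _ => Nat)
 (Bool.rec (motive := fun _ => Nat)
  (Bool.rec (motive := fun _ => Nat)
   (Bool.rec (motive := fun _ => Nat)
    L4752
    L4753
    (Nat.ble 608384 i))
   (Bool.rec (motive := fun _ => Nat)
    L4754
    L4755
    (Nat.ble 608640 i))
   (Nat.ble 608512 i))
  (Bool.rec (motive := fun _ => Nat)
   (Bool.rec (motive := fun _ => Nat)
    L4756
    L4757
    (Nat.ble 608896 i))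
   (Bool.rec (motive := fun _ => Nat)
    L4758
    L4759
    (Nat.ble 609152 i))
   (Nat.ble 609024 i))
  (Nat.ble 608768 i))
 (Bool.rec (motive := fun _ => Nat)
  (Bool.rec (motive := fun _ => Nat)
   (Bool.rec (motive := fun _ => Nat)
    L4760
    L4761
    (Nat.ble 609408 i))
   (Bool.rec (motive := fun _ => Nat)
    L4762
    L4763
    (Nat.ble 609664 i))
   (Nat.ble 609536 i))
  (Bool.rec (motive := fun _ => Nat)
   (Bool.rec (motive := fun _ => Nat)
    L4764
    L4765
    (Nat.ble 609920 i))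
   (Bool.rec (motive := fun _ => Nat)
    L4766
    L4767
    (Nat.ble 610176 i))
   (Nat.ble 610048 i))
  (Nat.ble 609792 i))
 (Nat.ble 609280 i))

/-- choice of a leaf -/
noncomputable def A0_298 (i : Nat) : Nat :=
 (Bool.rec (motive := fun _ => Nat)
 (Bool.rec (motive := fun _ => Nat)
  (Bool.rec (motive := fun _ => Nat)
   (Bool.rec (motive := fun _ => Nat)
    L4768
    L4769
    (Nat.ble 610432 i))
   (Bool.rec (motive := fun _ => Nat)
    L4770
    L4771
    (Nat.ble 610688 i))
   (Nat.ble 610560 i))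
  (Bool.rec (motive := fun _ => Nat)
   (Bool.rec (motive := fun _ => Nat)
    L4772
    L4773
    (Nat.ble 610944 i))
   (Bool.rec (motive := fun _ => Nat)
    L4774
    L4775
    (Nat.ble 611200 i))
   (Nat.ble 611072 i))
  (Nat.ble 610816 i))
 (Bool.rec (motive := fun _ => Nat)
  (Bool.rec (motive := fun _ => Nat)
   (Bool.rec (motive := fun _ => Nat)
    L4776
    L4777
    (Nat.ble 611456 i))
   (Bool.rec (motive := fun _ => Nat)
    L4778
    L4779
    (Nat.ble 611712 i))
   (Nat.ble 611584 i))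
  (Bool.rec (motive := fun _ => Nat)
   (Bool.rec (motive := fun _ => Nat)
    L4780
    L4781
    (Nat.ble 611968 i))
   (Bool.rec (motive := fun _ => Nat)
    L4782
    L4783
    (Nat.ble 612224 i))
   (Nat.ble 612096 i))
  (Nat.ble 611840 i))
 (Nat.ble 611328 i))

/-- choice of a leaf -/
noncomputable def A0_299 (i : Nat) : Nat :=
 (Bool.rec (motive := fun _ => Nat)
 (Bool.rec (motive := fun _ => Nat)
  (Bool.rec (motive := fun _ => Nat)
   (Bool.rec (motive := fun _ => Nat)
    L4784
    L4785
    (Nat.ble 612480 i))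
   (Bool.rec (motive := fun _ => Nat)
    L4786
    L4787
    (Nat.ble 612736 i))
   (Nat.ble 612608 i))
  (Bool.rec (motive := fun _ => Nat)
   (Bool.rec (motive := fun _ => Nat)
    L4788
    L4789
    (Nat.ble 612992 i))
   (Bool.rec (motive := fun _ => Nat)
    L4790
    L4791
    (Nat.ble 613248 i))
   (Nat.ble 613120 i))
  (Nat.ble 612864 i))
 (Bool.rec (motive := fun _ => Nat)
  (Bool.rec (motive := fun _ => Nat)
   (Bool.rec (motive := fun _ => Nat)
    L4792
    L4793
    (Nat.ble 613504 i))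
   (Bool.rec (motive := fun _ => Nat)
    L4794
    L4795
    (Nat.ble 613760 i))
   (Nat.ble 613632 i))
  (Bool.rec (motive := fun _ => Nat)
   (Bool.rec (motive := fun _ => Nat)
    L4796
    L4797
    (Nat.ble 614016 i))
   (Bool.rec (motive := fun _ => Nat)
    L4798
    L4799
    (Nat.ble 614272 i))
   (Nat.ble 614144 i))
  (Nat.ble 613888 i))
 (Nat.ble 613376 i))

/-- choice of a leaf -/
noncomputable def A0_300 (i : Nat) : Nat :=
 (Bool.rec (motive := fun _ => Nat)
 (Bool.rec (motive := fun _ => Nat)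
  (Bool.rec (motive := fun _ => Nat)
   (Bool.rec (motive := fun _ => Nat)
    L4800
    L4801
    (Nat.ble 614528 i))
   (Bool.rec (motive := fun _ => Nat)
    L4802
    L4803
    (Nat.ble 614784 i))
   (Nat.ble 614656 i))
  (Bool.rec (motive := fun _ => Nat)
   (Bool.rec (motive := fun _ => Nat)
    L4804
    L4805
    (Nat.ble 615040 i))
   (Bool.rec (motive := fun _ => Nat)
    L4806
    L4807
    (Nat.ble 615296 i))
   (Nat.ble 615168 i))
  (Nat.ble 614912 i))
 (Bool.rec (motive := fun _ => Nat)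
  (Bool.rec (motive := fun _ => Nat)
   (Bool.rec (motive := fun _ => Nat)
    L4808
    L4809
    (Nat.ble 615552 i))
   (Bool.rec (motive := fun _ => Nat)
    L4810
    L4811
    (Nat.ble 615808 i))
   (Nat.ble 615680 i))
  (Bool.rec (motive := fun _ => Nat)
   (Bool.rec (motive := fun _ => Nat)
    L4812
    L4813
    (Nat.ble 616064 i))
   (Bool.rec (motive := fun _ => Nat)
    L4814
    L4815
    (Nat.ble 616320 i))
   (Nat.ble 616192 i))
  (Nat.ble 615936 i))
 (Nat.ble 615424 i))

/-- choice of a leaf -/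
noncomputable def A0_301 (i : Nat) : Nat :=
 (Bool.rec (motive := fun _ => Nat)
 (Bool.rec (motive := fun _ => Nat)
  (Bool.rec (motive := fun _ => Nat)
   (Bool.rec (motive := fun _ => Nat)
    L4816
    L4817
    (Nat.ble 616576 i))
   (Bool.rec (motive := fun _ => Nat)
    L4818
    L4819
    (Nat.ble 616832 i))
   (Nat.ble 616704 i))
  (Bool.rec (motive := fun _ => Nat)
   (Bool.rec (motive := fun _ => Nat)
    L4820
    L4821
    (Nat.ble 617088 i))
   (Bool.rec (motive := fun _ => Nat)
    L4822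
    L4823
    (Nat.ble 617344 i))
   (Nat.ble 617216 i))
  (Nat.ble 616960 i))
 (Bool.rec (motive := fun _ => Nat)
  (Bool.rec (motive := fun _ => Nat)
   (Bool.rec (motive := fun _ => Nat)
    L4824
    L4825
    (Nat.ble 617600 i))
   (Bool.rec (motive := fun _ => Nat)
    L4826
    L4827
    (Nat.ble 617856 i))
   (Nat.ble 617728 i))
  (Bool.rec (motive := fun _ => Nat)
   (Bool.rec (motive := fun _ => Nat)
    L4828
    L4829
    (Nat.ble 618112 i))
   (Bool.rec (motive := fun _ => Nat)
    L4830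
    L4831
    (Nat.ble 618368 i))
   (Nat.ble 618240 i))
  (Nat.ble 617984 i))
 (Nat.ble 617472 i))

/-- choice of a leaf -/
noncomputable def A0_302 (i : Nat) : Nat :=
 (Bool.rec (motive := fun _ => Nat)
 (Bool.rec (motive := fun _ => Nat)
  (Bool.rec (motive := fun _ => Nat)
   (Bool.rec (motive := fun _ => Nat)
    L4832
    L4833
    (Nat.ble 618624 i))
   (Bool.rec (motive := fun _ => Nat)
    L4834
    L4835
    (Nat.ble 618880 i))
   (Nat.ble 618752 i))
  (Bool.rec (motive := fun _ => Nat)
   (Bool.rec (motive := fun _ => Nat)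
    L4836
    L4837
    (Nat.ble 619136 i))
   (Bool.rec (motive := fun _ => Nat)
    L4838
    L4839
    (Nat.ble 619392 i))
   (Nat.ble 619264 i))
  (Nat.ble 619008 i))
 (Bool.rec (motive := fun _ => Nat)
  (Bool.rec (motive := fun _ => Nat)
   (Bool.rec (motive := fun _ => Nat)
    L4840
    L4841
    (Nat.ble 619648 i))
   (Bool.rec (motive := fun _ => Nat)
    L4842
    L4843
    (Nat.ble 619904 i))
   (Nat.ble 619776 i))
  (Bool.rec (motive := fun _ => Nat)
   (Bool.rec (motive := fun _ => Nat)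
    L4844
    L4845
    (Nat.ble 620160 i))
   (Bool.rec (motive := fun _ => Nat)
    L4846
    L4847
    (Nat.ble 620416 i))
   (Nat.ble 620288 i))
  (Nat.ble 620032 i))
 (Nat.ble 619520 i))

/-- choice of a leaf -/
noncomputable def A0_303 (i : Nat) : Nat :=
 (Bool.rec (motive := fun _ => Nat)
 (Bool.rec (motive := fun _ => Nat)
  (Bool.rec (motive := fun _ => Nat)
   (Bool.rec (motive := fun _ => Nat)
    L4848
    L4849
    (Nat.ble 620672 i))
   (Bool.rec (motive := fun _ => Nat)
    L4850
    L4851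
    (Nat.ble 620928 i))
   (Nat.ble 620800 i))
  (Bool.rec (motive := fun _ => Nat)
   (Bool.rec (motive := fun _ => Nat)
    L4852
    L4853
    (Nat.ble 621184 i))
   (Bool.rec (motive := fun _ => Nat)
    L4854
    L4855
    (Nat.ble 621440 i))
   (Nat.ble 621312 i))
  (Nat.ble 621056 i))
 (Bool.rec (motive := fun _ => Nat)
  (Bool.rec (motive := fun _ => Nat)
   (Bool.rec (motive := fun _ => Nat)
    L4856
    L4857
    (Nat.ble 621696 i))
   (Bool.rec (motive := fun _ => Nat)
    L4858
    L4859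
    (Nat.ble 621952 i))
   (Nat.ble 621824 i))
  (Bool.rec (motive := fun _ => Nat)
   (Bool.rec (motive := fun _ => Nat)
    L4860
    L4861
    (Nat.ble 622208 i))
   (Bool.rec (motive := fun _ => Nat)
    L4862
    L4863
    (Nat.ble 622464 i))
   (Nat.ble 622336 i))
  (Nat.ble 622080 i))
 (Nat.ble 621568 i))

/-- choice of a leaf -/
noncomputable def A0_304 (i : Nat) : Nat :=
 (Bool.rec (motive := fun _ => Nat)
 (Bool.rec (motive := fun _ => Nat)
  (Bool.rec (motive := fun _ => Nat)
   (Bool.rec (motive := fun _ => Nat)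
    L4864
    L4865
    (Nat.ble 622720 i))
   (Bool.rec (motive := fun _ => Nat)
    L4866
    L4867
    (Nat.ble 622976 i))
   (Nat.ble 622848 i))
  (Bool.rec (motive := fun _ => Nat)
   (Bool.rec (motive := fun _ => Nat)
    L4868
    L4869
    (Nat.ble 623232 i))
   (Bool.rec (motive := fun _ => Nat)
    L4870
    L4871
    (Nat.ble 623488 i))
   (Nat.ble 623360 i))
  (Nat.ble 623104 i))
 (Bool.rec (motive := fun _ => Nat)
  (Bool.rec (motive := fun _ => Nat)
   (Bool.rec (motive := fun _ => Nat)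
    L4872
    L4873
    (Nat.ble 623744 i))
   (Bool.rec (motive := fun _ => Nat)
    L4874
    L4875
    (Nat.ble 624000 i))
   (Nat.ble 623872 i))
  (Bool.rec (motive := fun _ => Nat)
   (Bool.rec (motive := fun _ => Nat)
    L4876
    L4877
    (Nat.ble 624256 i))
   (Bool.rec (motive := fun _ => Nat)
    L4878
    L4879
    (Nat.ble 624512 i))
   (Nat.ble 624384 i))
  (Nat.ble 624128 i))
 (Nat.ble 623616 i))

/-- choice of a leaf -/
noncomputable def A0_305 (i : Nat) : Nat :=
 (Bool.rec (motive := fun _ => Nat)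
 (Bool.rec (motive := fun _ => Nat)
  (Bool.rec (motive := fun _ => Nat)
   (Bool.rec (motive := fun _ => Nat)
    L4880
    L4881
    (Nat.ble 624768 i))
   (Bool.rec (motive := fun _ => Nat)
    L4882
    L4883
    (Nat.ble 625024 i))
   (Nat.ble 624896 i))
  (Bool.rec (motive := fun _ => Nat)
   (Bool.rec (motive := fun _ => Nat)
    L4884
    L4885
    (Nat.ble 625280 i))
   (Bool.rec (motive := fun _ => Nat)
    L4886
    L4887
    (Nat.ble 625536 i))
   (Nat.ble 625408 i))
  (Nat.ble 625152 i))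
 (Bool.rec (motive := fun _ => Nat)
  (Bool.rec (motive := fun _ => Nat)
   (Bool.rec (motive := fun _ => Nat)
    L4888
    L4889
    (Nat.ble 625792 i))
   (Bool.rec (motive := fun _ => Nat)
    L4890
    L4891
    (Nat.ble 626048 i))
   (Nat.ble 625920 i))
  (Bool.rec (motive := fun _ => Nat)
   (Bool.rec (motive := fun _ => Nat)
    L4892
    L4893
    (Nat.ble 626304 i))
   (Bool.rec (motive := fun _ => Nat)
    L4894
    L4895
    (Nat.ble 626560 i))
   (Nat.ble 626432 i))
  (Nat.ble 626176 i))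
 (Nat.ble 625664 i))

/-- choice of a leaf -/
noncomputable def A0_306 (i : Nat) : Nat :=
 (Bool.rec (motive := fun _ => Nat)
 (Bool.rec (motive := fun _ => Nat)
  (Bool.rec (motive := fun _ => Nat)
   (Bool.rec (motive := fun _ => Nat)
    L4896
    L4897
    (Nat.ble 626816 i))
   (Bool.rec (motive := fun _ => Nat)
    L4898
    L4899
    (Nat.ble 627072 i))
   (Nat.ble 626944 i))
  (Bool.rec (motive := fun _ => Nat)
   (Bool.rec (motive := fun _ => Nat)
    L4900
    L4901
    (Nat.ble 627328 i))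
   (Bool.rec (motive := fun _ => Nat)
    L4902
    L4903
    (Nat.ble 627584 i))
   (Nat.ble 627456 i))
  (Nat.ble 627200 i))
 (Bool.rec (motive := fun _ => Nat)
  (Bool.rec (motive := fun _ => Nat)
   (Bool.rec (motive := fun _ => Nat)
    L4904
    L4905
    (Nat.ble 627840 i))
   (Bool.rec (motive := fun _ => Nat)
    L4906
    L4907
    (Nat.ble 628096 i))
   (Nat.ble 627968 i))
  (Bool.rec (motive := fun _ => Nat)
   (Bool.rec (motive := fun _ => Nat)
    L4908
    L4909
    (Nat.ble 628352 i))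
   (Bool.rec (motive := fun _ => Nat)
    L4910
    L4911
    (Nat.ble 628608 i))
   (Nat.ble 628480 i))
  (Nat.ble 628224 i))
 (Nat.ble 627712 i))

/-- choice of a leaf -/
noncomputable def A0_307 (i : Nat) : Nat :=
 (Bool.rec (motive := fun _ => Nat)
 (Bool.rec (motive := fun _ => Nat)
  (Bool.rec (motive := fun _ => Nat)
   (Bool.rec (motive := fun _ => Nat)
    L4912
    L4913
    (Nat.ble 628864 i))
   (Bool.rec (motive := fun _ => Nat)
    L4914
    L4915
    (Nat.ble 629120 i))
   (Nat.ble 628992 i))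
  (Bool.rec (motive := fun _ => Nat)
   (Bool.rec (motive := fun _ => Nat)
    L4916
    L4917
    (Nat.ble 629376 i))
   (Bool.rec (motive := fun _ => Nat)
    L4918
    L4919
    (Nat.ble 629632 i))
   (Nat.ble 629504 i))
  (Nat.ble 629248 i))
 (Bool.rec (motive := fun _ => Nat)
  (Bool.rec (motive := fun _ => Nat)
   (Bool.rec (motive := fun _ => Nat)
    L4920
    L4921
    (Nat.ble 629888 i))
   (Bool.rec (motive := fun _ => Nat)
    L4922
    L4923
    (Nat.ble 630144 i))
   (Nat.ble 630016 i))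
  (Bool.rec (motive := fun _ => Nat)
   (Bool.rec (motive := fun _ => Nat)
    L4924
    L4925
    (Nat.ble 630400 i))
   (Bool.rec (motive := fun _ => Nat)
    L4926
    L4927
    (Nat.ble 630656 i))
   (Nat.ble 630528 i))
  (Nat.ble 630272 i))
 (Nat.ble 629760 i))

/-- choice of a leaf -/
noncomputable def A0_308 (i : Nat) : Nat :=
 (Bool.rec (motive := fun _ => Nat)
 (Bool.rec (motive := fun _ => Nat)
  (Bool.rec (motive := fun _ => Nat)
   (Bool.rec (motive := fun _ => Nat)
    L4928
    L4929
    (Nat.ble 630912 i))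
   (Bool.rec (motive := fun _ => Nat)
    L4930
    L4931
    (Nat.ble 631168 i))
   (Nat.ble 631040 i))
  (Bool.rec (motive := fun _ => Nat)
   (Bool.rec (motive := fun _ => Nat)
    L4932
    L4933
    (Nat.ble 631424 i))
   (Bool.rec (motive := fun _ => Nat)
    L4934
    L4935
    (Nat.ble 631680 i))
   (Nat.ble 631552 i))
  (Nat.ble 631296 i))
 (Bool.rec (motive := fun _ => Nat)
  (Bool.rec (motive := fun _ => Nat)
   (Bool.rec (motive := fun _ => Nat)
    L4936
    L4937
    (Nat.ble 631936 i))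
   (Bool.rec (motive := fun _ => Nat)
    L4938
    L4939
    (Nat.ble 632192 i))
   (Nat.ble 632064 i))
  (Bool.rec (motive := fun _ => Nat)
   (Bool.rec (motive := fun _ => Nat)
    L4940
    L4941
    (Nat.ble 632448 i))
   (Bool.rec (motive := fun _ => Nat)
    L4942
    L4943
    (Nat.ble 632704 i))
   (Nat.ble 632576 i))
  (Nat.ble 632320 i))
 (Nat.ble 631808 i))

/-- choice of a leaf -/
noncomputable def A0_309 (i : Nat) : Nat :=
 (Bool.rec (motive := fun _ => Nat)
 (Bool.rec (motive := fun _ => Nat)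
  (Bool.rec (motive := fun _ => Nat)
   (Bool.rec (motive := fun _ => Nat)
    L4944
    L4945
    (Nat.ble 632960 i))
   (Bool.rec (motive := fun _ => Nat)
    L4946
    L4947
    (Nat.ble 633216 i))
   (Nat.ble 633088 i))
  (Bool.rec (motive := fun _ => Nat)
   (Bool.rec (motive := fun _ => Nat)
    L4948
    L4949
    (Nat.ble 633472 i))
   (Bool.rec (motive := fun _ => Nat)
    L4950
    L4951
    (Nat.ble 633728 i))
   (Nat.ble 633600 i))
  (Nat.ble 633344 i))
 (Bool.rec (motive := fun _ => Nat)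
  (Bool.rec (motive := fun _ => Nat)
   (Bool.rec (motive := fun _ => Nat)
    L4952
    L4953
    (Nat.ble 633984 i))
   (Bool.rec (motive := fun _ => Nat)
    L4954
    L4955
    (Nat.ble 634240 i))
   (Nat.ble 634112 i))
  (Bool.rec (motive := fun _ => Nat)
   (Bool.rec (motive := fun _ => Nat)
    L4956
    L4957
    (Nat.ble 634496 i))
   (Bool.rec (motive := fun _ => Nat)
    L4958
    L4959
    (Nat.ble 634752 i))
   (Nat.ble 634624 i))
  (Nat.ble 634368 i))
 (Nat.ble 633856 i))

/-- choice of a leaf -/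
noncomputable def A0_310 (i : Nat) : Nat :=
 (Bool.rec (motive := fun _ => Nat)
 (Bool.rec (motive := fun _ => Nat)
  (Bool.rec (motive := fun _ => Nat)
   (Bool.rec (motive := fun _ => Nat)
    L4960
    L4961
    (Nat.ble 635008 i))
   (Bool.rec (motive := fun _ => Nat)
    L4962
    L4963
    (Nat.ble 635264 i))
   (Nat.ble 635136 i))
  (Bool.rec (motive := fun _ => Nat)
   (Bool.rec (motive := fun _ => Nat)
    L4964
    L4965
    (Nat.ble 635520 i))
   (Bool.rec (motive := fun _ => Nat)
    L4966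
    L4967
    (Nat.ble 635776 i))
   (Nat.ble 635648 i))
  (Nat.ble 635392 i))
 (Bool.rec (motive := fun _ => Nat)
  (Bool.rec (motive := fun _ => Nat)
   (Bool.rec (motive := fun _ => Nat)
    L4968
    L4969
    (Nat.ble 636032 i))
   (Bool.rec (motive := fun _ => Nat)
    L4970
    L4971
    (Nat.ble 636288 i))
   (Nat.ble 636160 i))
  (Bool.rec (motive := fun _ => Nat)
   (Bool.rec (motive := fun _ => Nat)
    L4972
    L4973
    (Nat.ble 636544 i))
   (Bool.rec (motive := fun _ => Nat)
    L4974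
    L4975
    (Nat.ble 636800 i))
   (Nat.ble 636672 i))
  (Nat.ble 636416 i))
 (Nat.ble 635904 i))

/-- choice of a leaf -/
noncomputable def A0_311 (i : Nat) : Nat :=
 (Bool.rec (motive := fun _ => Nat)
 (Bool.rec (motive := fun _ => Nat)
  (Bool.rec (motive := fun _ => Nat)
   (Bool.rec (motive := fun _ => Nat)
    L4976
    L4977
    (Nat.ble 637056 i))
   (Bool.rec (motive := fun _ => Nat)
    L4978
    L4979
    (Nat.ble 637312 i))
   (Nat.ble 637184 i))
  (Bool.rec (motive := fun _ => Nat)
   (Bool.rec (motive := fun _ => Nat)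
    L4980
    L4981
    (Nat.ble 637568 i))
   (Bool.rec (motive := fun _ => Nat)
    L4982
    L4983
    (Nat.ble 637824 i))
   (Nat.ble 637696 i))
  (Nat.ble 637440 i))
 (Bool.rec (motive := fun _ => Nat)
  (Bool.rec (motive := fun _ => Nat)
   (Bool.rec (motive := fun _ => Nat)
    L4984
    L4985
    (Nat.ble 638080 i))
   (Bool.rec (motive := fun _ => Nat)
    L4986
    L4987
    (Nat.ble 638336 i))
   (Nat.ble 638208 i))
  (Bool.rec (motive := fun _ => Nat)
   (Bool.rec (motive := fun _ => Nat)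
    L4988
    L4989
    (Nat.ble 638592 i))
   (Bool.rec (motive := fun _ => Nat)
    L4990
    L4991
    (Nat.ble 638848 i))
   (Nat.ble 638720 i))
  (Nat.ble 638464 i))
 (Nat.ble 637952 i))

/-- choice of a leaf -/
noncomputable def A0_312 (i : Nat) : Nat :=
 (Bool.rec (motive := fun _ => Nat)
 (Bool.rec (motive := fun _ => Nat)
  (Bool.rec (motive := fun _ => Nat)
   (Bool.rec (motive := fun _ => Nat)
    L4992
    L4993
    (Nat.ble 639104 i))
   (Bool.rec (motive := fun _ => Nat)
    L4994
    L4995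
    (Nat.ble 639360 i))
   (Nat.ble 639232 i))
  (Bool.rec (motive := fun _ => Nat)
   (Bool.rec (motive := fun _ => Nat)
    L4996
    L4997
    (Nat.ble 639616 i))
   (Bool.rec (motive := fun _ => Nat)
    L4998
    L4999
    (Nat.ble 639872 i))
   (Nat.ble 639744 i))
  (Nat.ble 639488 i))
 (Bool.rec (motive := fun _ => Nat)
  (Bool.rec (motive := fun _ => Nat)
   (Bool.rec (motive := fun _ => Nat)
    L5000
    L5001
    (Nat.ble 640128 i))
   (Bool.rec (motive := fun _ => Nat)
    L5002
    L5003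
    (Nat.ble 640384 i))
   (Nat.ble 640256 i))
  (Bool.rec (motive := fun _ => Nat)
   (Bool.rec (motive := fun _ => Nat)
    L5004
    L5005
    (Nat.ble 640640 i))
   (Bool.rec (motive := fun _ => Nat)
    L5006
    L5007
    (Nat.ble 640896 i))
   (Nat.ble 640768 i))
  (Nat.ble 640512 i))
 (Nat.ble 640000 i))

/-- choice of a leaf -/
noncomputable def A0_313 (i : Nat) : Nat :=
 (Bool.rec (motive := fun _ => Nat)
 (Bool.rec (motive := fun _ => Nat)
  (Bool.rec (motive := fun _ => Nat)
   (Bool.rec (motive := fun _ => Nat)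
    L5008
    L5009
    (Nat.ble 641152 i))
   (Bool.rec (motive := fun _ => Nat)
    L5010
    L5011
    (Nat.ble 641408 i))
   (Nat.ble 641280 i))
  (Bool.rec (motive := fun _ => Nat)
   (Bool.rec (motive := fun _ => Nat)
    L5012
    L5013
    (Nat.ble 641664 i))
   (Bool.rec (motive := fun _ => Nat)
    L5014
    L5015
    (Nat.ble 641920 i))
   (Nat.ble 641792 i))
  (Nat.ble 641536 i))
 (Bool.rec (motive := fun _ => Nat)
  (Bool.rec (motive := fun _ => Nat)
   (Bool.rec (motive := fun _ => Nat)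
    L5016
    L5017
    (Nat.ble 642176 i))
   (Bool.rec (motive := fun _ => Nat)
    L5018
    L5019
    (Nat.ble 642432 i))
   (Nat.ble 642304 i))
  (Bool.rec (motive := fun _ => Nat)
   (Bool.rec (motive := fun _ => Nat)
    L5020
    L5021
    (Nat.ble 642688 i))
   (Bool.rec (motive := fun _ => Nat)
    L5022
    L5023
    (Nat.ble 642944 i))
   (Nat.ble 642816 i))
  (Nat.ble 642560 i))
 (Nat.ble 642048 i))

/-- choice of a leaf -/
noncomputable def A0_314 (i : Nat) : Nat :=
 (Bool.rec (motive := fun _ => Nat)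
 (Bool.rec (motive := fun _ => Nat)
  (Bool.rec (motive := fun _ => Nat)
   (Bool.rec (motive := fun _ => Nat)
    L5024
    L5025
    (Nat.ble 643200 i))
   (Bool.rec (motive := fun _ => Nat)
    L5026
    L5027
    (Nat.ble 643456 i))
   (Nat.ble 643328 i))
  (Bool.rec (motive := fun _ => Nat)
   (Bool.rec (motive := fun _ => Nat)
    L5028
    L5029
    (Nat.ble 643712 i))
   (Bool.rec (motive := fun _ => Nat)
    L5030
    L5031
    (Nat.ble 643968 i))
   (Nat.ble 643840 i))
  (Nat.ble 643584 i))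
 (Bool.rec (motive := fun _ => Nat)
  (Bool.rec (motive := fun _ => Nat)
   (Bool.rec (motive := fun _ => Nat)
    L5032
    L5033
    (Nat.ble 644224 i))
   (Bool.rec (motive := fun _ => Nat)
    L5034
    L5035
    (Nat.ble 644480 i))
   (Nat.ble 644352 i))
  (Bool.rec (motive := fun _ => Nat)
   (Bool.rec (motive := fun _ => Nat)
    L5036
    L5037
    (Nat.ble 644736 i))
   (Bool.rec (motive := fun _ => Nat)
    L5038
    L5039
    (Nat.ble 644992 i))
   (Nat.ble 644864 i))
  (Nat.ble 644608 i))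
 (Nat.ble 644096 i))

/-- choice of a leaf -/
noncomputable def A0_315 (i : Nat) : Nat :=
 (Bool.rec (motive := fun _ => Nat)
 (Bool.rec (motive := fun _ => Nat)
  (Bool.rec (motive := fun _ => Nat)
   (Bool.rec (motive := fun _ => Nat)
    L5040
    L5041
    (Nat.ble 645248 i))
   (Bool.rec (motive := fun _ => Nat)
    L5042
    L5043
    (Nat.ble 645504 i))
   (Nat.ble 645376 i))
  (Bool.rec (motive := fun _ => Nat)
   (Bool.rec (motive := fun _ => Nat)
    L5044
    L5045
    (Nat.ble 645760 i))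
   (Bool.rec (motive := fun _ => Nat)
    L5046
    L5047
    (Nat.ble 646016 i))
   (Nat.ble 645888 i))
  (Nat.ble 645632 i))
 (Bool.rec (motive := fun _ => Nat)
  (Bool.rec (motive := fun _ => Nat)
   (Bool.rec (motive := fun _ => Nat)
    L5048
    L5049
    (Nat.ble 646272 i))
   (Bool.rec (motive := fun _ => Nat)
    L5050
    L5051
    (Nat.ble 646528 i))
   (Nat.ble 646400 i))
  (Bool.rec (motive := fun _ => Nat)
   (Bool.rec (motive := fun _ => Nat)
    L5052
    L5053
    (Nat.ble 646784 i))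
   (Bool.rec (motive := fun _ => Nat)
    L5054
    L5055
    (Nat.ble 647040 i))
   (Nat.ble 646912 i))
  (Nat.ble 646656 i))
 (Nat.ble 646144 i))

/-- choice of a leaf -/
noncomputable def A0_316 (i : Nat) : Nat :=
 (Bool.rec (motive := fun _ => Nat)
 (Bool.rec (motive := fun _ => Nat)
  (Bool.rec (motive := fun _ => Nat)
   (Bool.rec (motive := fun _ => Nat)
    L5056
    L5057
    (Nat.ble 647296 i))
   (Bool.rec (motive := fun _ => Nat)
    L5058
    L5059
    (Nat.ble 647552 i))
   (Nat.ble 647424 i))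
  (Bool.rec (motive := fun _ => Nat)
   (Bool.rec (motive := fun _ => Nat)
    L5060
    L5061
    (Nat.ble 647808 i))
   (Bool.rec (motive := fun _ => Nat)
    L5062
    L5063
    (Nat.ble 648064 i))
   (Nat.ble 647936 i))
  (Nat.ble 647680 i))
 (Bool.rec (motive := fun _ => Nat)
  (Bool.rec (motive := fun _ => Nat)
   (Bool.rec (motive := fun _ => Nat)
    L5064
    L5065
    (Nat.ble 648320 i))
   (Bool.rec (motive := fun _ => Nat)
    L5066
    L5067
    (Nat.ble 648576 i))
   (Nat.ble 648448 i))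
  (Bool.rec (motive := fun _ => Nat)
   (Bool.rec (motive := fun _ => Nat)
    L5068
    L5069
    (Nat.ble 648832 i))
   (Bool.rec (motive := fun _ => Nat)
    L5070
    L5071
    (Nat.ble 649088 i))
   (Nat.ble 648960 i))
  (Nat.ble 648704 i))
 (Nat.ble 648192 i))

/-- choice of a leaf -/
noncomputable def A0_317 (i : Nat) : Nat :=
 (Bool.rec (motive := fun _ => Nat)
 (Bool.rec (motive := fun _ => Nat)
  (Bool.rec (motive := fun _ => Nat)
   (Bool.rec (motive := fun _ => Nat)
    L5072
    L5073
    (Nat.ble 649344 i))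
   (Bool.rec (motive := fun _ => Nat)
    L5074
    L5075
    (Nat.ble 649600 i))
   (Nat.ble 649472 i))
  (Bool.rec (motive := fun _ => Nat)
   (Bool.rec (motive := fun _ => Nat)
    L5076
    L5077
    (Nat.ble 649856 i))
   (Bool.rec (motive := fun _ => Nat)
    L5078
    L5079
    (Nat.ble 650112 i))
   (Nat.ble 649984 i))
  (Nat.ble 649728 i))
 (Bool.rec (motive := fun _ => Nat)
  (Bool.rec (motive := fun _ => Nat)
   (Bool.rec (motive := fun _ => Nat)
    L5080
    L5081
    (Nat.ble 650368 i))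
   (Bool.rec (motive := fun _ => Nat)
    L5082
    L5083
    (Nat.ble 650624 i))
   (Nat.ble 650496 i))
  (Bool.rec (motive := fun _ => Nat)
   (Bool.rec (motive := fun _ => Nat)
    L5084
    L5085
    (Nat.ble 650880 i))
   (Bool.rec (motive := fun _ => Nat)
    L5086
    L5087
    (Nat.ble 651136 i))
   (Nat.ble 651008 i))
  (Nat.ble 650752 i))
 (Nat.ble 650240 i))

/-- choice of a leaf -/
noncomputable def A0_318 (i : Nat) : Nat :=
 (Bool.rec (motive := fun _ => Nat)
 (Bool.rec (motive := fun _ => Nat)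
  (Bool.rec (motive := fun _ => Nat)
   (Bool.rec (motive := fun _ => Nat)
    L5088
    L5089
    (Nat.ble 651392 i))
   (Bool.rec (motive := fun _ => Nat)
    L5090
    L5091
    (Nat.ble 651648 i))
   (Nat.ble 651520 i))
  (Bool.rec (motive := fun _ => Nat)
   (Bool.rec (motive := fun _ => Nat)
    L5092
    L5093
    (Nat.ble 651904 i))
   (Bool.rec (motive := fun _ => Nat)
    L5094
    L5095
    (Nat.ble 652160 i))
   (Nat.ble 652032 i))
  (Nat.ble 651776 i))
 (Bool.rec (motive := fun _ => Nat)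
  (Bool.rec (motive := fun _ => Nat)
   (Bool.rec (motive := fun _ => Nat)
    L5096
    L5097
    (Nat.ble 652416 i))
   (Bool.rec (motive := fun _ => Nat)
    L5098
    L5099
    (Nat.ble 652672 i))
   (Nat.ble 652544 i))
  (Bool.rec (motive := fun _ => Nat)
   (Bool.rec (motive := fun _ => Nat)
    L5100
    L5101
    (Nat.ble 652928 i))
   (Bool.rec (motive := fun _ => Nat)
    L5102
    L5103
    (Nat.ble 653184 i))
   (Nat.ble 653056 i))
  (Nat.ble 652800 i))
 (Nat.ble 652288 i))

/-- choice of a leaf -/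
noncomputable def A0_319 (i : Nat) : Nat :=
 (Bool.rec (motive := fun _ => Nat)
 (Bool.rec (motive := fun _ => Nat)
  (Bool.rec (motive := fun _ => Nat)
   (Bool.rec (motive := fun _ => Nat)
    L5104
    L5105
    (Nat.ble 653440 i))
   (Bool.rec (motive := fun _ => Nat)
    L5106
    L5107
    (Nat.ble 653696 i))
   (Nat.ble 653568 i))
  (Bool.rec (motive := fun _ => Nat)
   (Bool.rec (motive := fun _ => Nat)
    L5108
    L5109
    (Nat.ble 653952 i))
   (Bool.rec (motive := fun _ => Nat)
    L5110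
    L5111
    (Nat.ble 654208 i))
   (Nat.ble 654080 i))
  (Nat.ble 653824 i))
 (Bool.rec (motive := fun _ => Nat)
  (Bool.rec (motive := fun _ => Nat)
   (Bool.rec (motive := fun _ => Nat)
    L5112
    L5113
    (Nat.ble 654464 i))
   (Bool.rec (motive := fun _ => Nat)
    L5114
    L5115
    (Nat.ble 654720 i))
   (Nat.ble 654592 i))
  (Bool.rec (motive := fun _ => Nat)
   (Bool.rec (motive := fun _ => Nat)
    L5116
    L5117
    (Nat.ble 654976 i))
   (Bool.rec (motive := fun _ => Nat)
    L5118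
    L5119
    (Nat.ble 655232 i))
   (Nat.ble 655104 i))
  (Nat.ble 654848 i))
 (Nat.ble 654336 i))

/-- choice of a leaf -/
noncomputable def A0_320 (i : Nat) : Nat :=
 (Bool.rec (motive := fun _ => Nat)
 (Bool.rec (motive := fun _ => Nat)
  (Bool.rec (motive := fun _ => Nat)
   (Bool.rec (motive := fun _ => Nat)
    L5120
    L5121
    (Nat.ble 655488 i))
   (Bool.rec (motive := fun _ => Nat)
    L5122
    L5123
    (Nat.ble 655744 i))
   (Nat.ble 655616 i))
  (Bool.rec (motive := fun _ => Nat)
   (Bool.rec (motive := fun _ => Nat)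
    L5124
    L5125
    (Nat.ble 656000 i))
   (Bool.rec (motive := fun _ => Nat)
    L5126
    L5127
    (Nat.ble 656256 i))
   (Nat.ble 656128 i))
  (Nat.ble 655872 i))
 (Bool.rec (motive := fun _ => Nat)
  (Bool.rec (motive := fun _ => Nat)
   (Bool.rec (motive := fun _ => Nat)
    L5128
    L5129
    (Nat.ble 656512 i))
   (Bool.rec (motive := fun _ => Nat)
    L5130
    L5131
    (Nat.ble 656768 i))
   (Nat.ble 656640 i))
  (Bool.rec (motive := fun _ => Nat)
   (Bool.rec (motive := fun _ => Nat)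
    L5132
    L5133
    (Nat.ble 657024 i))
   (Bool.rec (motive := fun _ => Nat)
    L5134
    L5135
    (Nat.ble 657280 i))
   (Nat.ble 657152 i))
  (Nat.ble 656896 i))
 (Nat.ble 656384 i))

/-- choice of a leaf -/
noncomputable def A0_321 (i : Nat) : Nat :=
 (Bool.rec (motive := fun _ => Nat)
 (Bool.rec (motive := fun _ => Nat)
  (Bool.rec (motive := fun _ => Nat)
   (Bool.rec (motive := fun _ => Nat)
    L5136
    L5137
    (Nat.ble 657536 i))
   (Bool.rec (motive := fun _ => Nat)
    L5138
    L5139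
    (Nat.ble 657792 i))
   (Nat.ble 657664 i))
  (Bool.rec (motive := fun _ => Nat)
   (Bool.rec (motive := fun _ => Nat)
    L5140
    L5141
    (Nat.ble 658048 i))
   (Bool.rec (motive := fun _ => Nat)
    L5142
    L5143
    (Nat.ble 658304 i))
   (Nat.ble 658176 i))
  (Nat.ble 657920 i))
 (Bool.rec (motive := fun _ => Nat)
  (Bool.rec (motive := fun _ => Nat)
   (Bool.rec (motive := fun _ => Nat)
    L5144
    L5145
    (Nat.ble 658560 i))
   (Bool.rec (motive := fun _ => Nat)
    L5146
    L5147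
    (Nat.ble 658816 i))
   (Nat.ble 658688 i))
  (Bool.rec (motive := fun _ => Nat)
   (Bool.rec (motive := fun _ => Nat)
    L5148
    L5149
    (Nat.ble 659072 i))
   (Bool.rec (motive := fun _ => Nat)
    L5150
    L5151
    (Nat.ble 659328 i))
   (Nat.ble 659200 i))
  (Nat.ble 658944 i))
 (Nat.ble 658432 i))

/-- choice of a leaf -/
noncomputable def A0_322 (i : Nat) : Nat :=
 (Bool.rec (motive := fun _ => Nat)
 (Bool.rec (motive := fun _ => Nat)
  (Bool.rec (motive := fun _ => Nat)
   (Bool.rec (motive := fun _ => Nat)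
    L5152
    L5153
    (Nat.ble 659584 i))
   (Bool.rec (motive := fun _ => Nat)
    L5154
    L5155
    (Nat.ble 659840 i))
   (Nat.ble 659712 i))
  (Bool.rec (motive := fun _ => Nat)
   (Bool.rec (motive := fun _ => Nat)
    L5156
    L5157
    (Nat.ble 660096 i))
   (Bool.rec (motive := fun _ => Nat)
    L5158
    L5159
    (Nat.ble 660352 i))
   (Nat.ble 660224 i))
  (Nat.ble 659968 i))
 (Bool.rec (motive := fun _ => Nat)
  (Bool.rec (motive := fun _ => Nat)
   (Bool.rec (motive := fun _ => Nat)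
    L5160
    L5161
    (Nat.ble 660608 i))
   (Bool.rec (motive := fun _ => Nat)
    L5162
    L5163
    (Nat.ble 660864 i))
   (Nat.ble 660736 i))
  (Bool.rec (motive := fun _ => Nat)
   (Bool.rec (motive := fun _ => Nat)
    L5164
    L5165
    (Nat.ble 661120 i))
   (Bool.rec (motive := fun _ => Nat)
    L5166
    L5167
    (Nat.ble 661376 i))
   (Nat.ble 661248 i))
  (Nat.ble 660992 i))
 (Nat.ble 660480 i))

/-- choice of a leaf -/
noncomputable def A0_323 (i : Nat) : Nat :=
 (Bool.rec (motive := fun _ => Nat)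
 (Bool.rec (motive := fun _ => Nat)
  (Bool.rec (motive := fun _ => Nat)
   (Bool.rec (motive := fun _ => Nat)
    L5168
    L5169
    (Nat.ble 661632 i))
   (Bool.rec (motive := fun _ => Nat)
    L5170
    L5171
    (Nat.ble 661888 i))
   (Nat.ble 661760 i))
  (Bool.rec (motive := fun _ => Nat)
   (Bool.rec (motive := fun _ => Nat)
    L5172
    L5173
    (Nat.ble 662144 i))
   (Bool.rec (motive := fun _ => Nat)
    L5174
    L5175
    (Nat.ble 662400 i))
   (Nat.ble 662272 i))
  (Nat.ble 662016 i))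
 (Bool.rec (motive := fun _ => Nat)
  (Bool.rec (motive := fun _ => Nat)
   (Bool.rec (motive := fun _ => Nat)
    L5176
    L5177
    (Nat.ble 662656 i))
   (Bool.rec (motive := fun _ => Nat)
    L5178
    L5179
    (Nat.ble 662912 i))
   (Nat.ble 662784 i))
  (Bool.rec (motive := fun _ => Nat)
   (Bool.rec (motive := fun _ => Nat)
    L5180
    L5181
    (Nat.ble 663168 i))
   (Bool.rec (motive := fun _ => Nat)
    L5182
    L5183
    (Nat.ble 663424 i))
   (Nat.ble 663296 i))
  (Nat.ble 663040 i))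
 (Nat.ble 662528 i))

/-- choice of a leaf -/
noncomputable def A0_324 (i : Nat) : Nat :=
 (Bool.rec (motive := fun _ => Nat)
 (Bool.rec (motive := fun _ => Nat)
  (Bool.rec (motive := fun _ => Nat)
   (Bool.rec (motive := fun _ => Nat)
    L5184
    L5185
    (Nat.ble 663680 i))
   (Bool.rec (motive := fun _ => Nat)
    L5186
    L5187
    (Nat.ble 663936 i))
   (Nat.ble 663808 i))
  (Bool.rec (motive := fun _ => Nat)
   (Bool.rec (motive := fun _ => Nat)
    L5188
    L5189
    (Nat.ble 664192 i))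
   (Bool.rec (motive := fun _ => Nat)
    L5190
    L5191
    (Nat.ble 664448 i))
   (Nat.ble 664320 i))
  (Nat.ble 664064 i))
 (Bool.rec (motive := fun _ => Nat)
  (Bool.rec (motive := fun _ => Nat)
   (Bool.rec (motive := fun _ => Nat)
    L5192
    L5193
    (Nat.ble 664704 i))
   (Bool.rec (motive := fun _ => Nat)
    L5194
    L5195
    (Nat.ble 664960 i))
   (Nat.ble 664832 i))
  (Bool.rec (motive := fun _ => Nat)
   (Bool.rec (motive := fun _ => Nat)
    L5196
    L5197
    (Nat.ble 665216 i))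
   (Bool.rec (motive := fun _ => Nat)
    L5198
    L5199
    (Nat.ble 665472 i))
   (Nat.ble 665344 i))
  (Nat.ble 665088 i))
 (Nat.ble 664576 i))

/-- choice of a leaf -/
noncomputable def A0_325 (i : Nat) : Nat :=
 (Bool.rec (motive := fun _ => Nat)
 (Bool.rec (motive := fun _ => Nat)
  (Bool.rec (motive := fun _ => Nat)
   (Bool.rec (motive := fun _ => Nat)
    L5200
    L5201
    (Nat.ble 665728 i))
   (Bool.rec (motive := fun _ => Nat)
    L5202
    L5203
    (Nat.ble 665984 i))
   (Nat.ble 665856 i))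
  (Bool.rec (motive := fun _ => Nat)
   (Bool.rec (motive := fun _ => Nat)
    L5204
    L5205
    (Nat.ble 666240 i))
   (Bool.rec (motive := fun _ => Nat)
    L5206
    L5207
    (Nat.ble 666496 i))
   (Nat.ble 666368 i))
  (Nat.ble 666112 i))
 (Bool.rec (motive := fun _ => Nat)
  (Bool.rec (motive := fun _ => Nat)
   (Bool.rec (motive := fun _ => Nat)
    L5208
    L5209
    (Nat.ble 666752 i))
   (Bool.rec (motive := fun _ => Nat)
    L5210
    L5211
    (Nat.ble 667008 i))
   (Nat.ble 666880 i))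
  (Bool.rec (motive := fun _ => Nat)
   (Bool.rec (motive := fun _ => Nat)
    L5212
    L5213
    (Nat.ble 667264 i))
   (Bool.rec (motive := fun _ => Nat)
    L5214
    L5215
    (Nat.ble 667520 i))
   (Nat.ble 667392 i))
  (Nat.ble 667136 i))
 (Nat.ble 666624 i))

/-- choice of a leaf -/
noncomputable def A0_326 (i : Nat) : Nat :=
 (Bool.rec (motive := fun _ => Nat)
 (Bool.rec (motive := fun _ => Nat)
  (Bool.rec (motive := fun _ => Nat)
   (Bool.rec (motive := fun _ => Nat)
    L5216
    L5217
    (Nat.ble 667776 i))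
   (Bool.rec (motive := fun _ => Nat)
    L5218
    L5219
    (Nat.ble 668032 i))
   (Nat.ble 667904 i))
  (Bool.rec (motive := fun _ => Nat)
   (Bool.rec (motive := fun _ => Nat)
    L5220
    L5221
    (Nat.ble 668288 i))
   (Bool.rec (motive := fun _ => Nat)
    L5222
    L5223
    (Nat.ble 668544 i))
   (Nat.ble 668416 i))
  (Nat.ble 668160 i))
 (Bool.rec (motive := fun _ => Nat)
  (Bool.rec (motive := fun _ => Nat)
   (Bool.rec (motive := fun _ => Nat)
    L5224
    L5225
    (Nat.ble 668800 i))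
   (Bool.rec (motive := fun _ => Nat)
    L5226
    L5227
    (Nat.ble 669056 i))
   (Nat.ble 668928 i))
  (Bool.rec (motive := fun _ => Nat)
   (Bool.rec (motive := fun _ => Nat)
    L5228
    L5229
    (Nat.ble 669312 i))
   (Bool.rec (motive := fun _ => Nat)
    L5230
    L5231
    (Nat.ble 669568 i))
   (Nat.ble 669440 i))
  (Nat.ble 669184 i))
 (Nat.ble 668672 i))

/-- choice of a leaf -/
noncomputable def A0_327 (i : Nat) : Nat :=
 (Bool.rec (motive := fun _ => Nat)
 (Bool.rec (motive := fun _ => Nat)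
  (Bool.rec (motive := fun _ => Nat)
   (Bool.rec (motive := fun _ => Nat)
    L5232
    L5233
    (Nat.ble 669824 i))
   (Bool.rec (motive := fun _ => Nat)
    L5234
    L5235
    (Nat.ble 670080 i))
   (Nat.ble 669952 i))
  (Bool.rec (motive := fun _ => Nat)
   (Bool.rec (motive := fun _ => Nat)
    L5236
    L5237
    (Nat.ble 670336 i))
   (Bool.rec (motive := fun _ => Nat)
    L5238
    L5239
    (Nat.ble 670592 i))
   (Nat.ble 670464 i))
  (Nat.ble 670208 i))
 (Bool.rec (motive := fun _ => Nat)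
  (Bool.rec (motive := fun _ => Nat)
   (Bool.rec (motive := fun _ => Nat)
    L5240
    L5241
    (Nat.ble 670848 i))
   (Bool.rec (motive := fun _ => Nat)
    L5242
    L5243
    (Nat.ble 671104 i))
   (Nat.ble 670976 i))
  (Bool.rec (motive := fun _ => Nat)
   (Bool.rec (motive := fun _ => Nat)
    L5244
    L5245
    (Nat.ble 671360 i))
   (Bool.rec (motive := fun _ => Nat)
    L5246
    L5247
    (Nat.ble 671616 i))
   (Nat.ble 671488 i))
  (Nat.ble 671232 i))
 (Nat.ble 670720 i))

/-- choice of a leaf -/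
noncomputable def A0_328 (i : Nat) : Nat :=
 (Bool.rec (motive := fun _ => Nat)
 (Bool.rec (motive := fun _ => Nat)
  (Bool.rec (motive := fun _ => Nat)
   (Bool.rec (motive := fun _ => Nat)
    L5248
    L5249
    (Nat.ble 671872 i))
   (Bool.rec (motive := fun _ => Nat)
    L5250
    L5251
    (Nat.ble 672128 i))
   (Nat.ble 672000 i))
  (Bool.rec (motive := fun _ => Nat)
   (Bool.rec (motive := fun _ => Nat)
    L5252
    L5253
    (Nat.ble 672384 i))
   (Bool.rec (motive := fun _ => Nat)
    L5254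
    L5255
    (Nat.ble 672640 i))
   (Nat.ble 672512 i))
  (Nat.ble 672256 i))
 (Bool.rec (motive := fun _ => Nat)
  (Bool.rec (motive := fun _ => Nat)
   (Bool.rec (motive := fun _ => Nat)
    L5256
    L5257
    (Nat.ble 672896 i))
   (Bool.rec (motive := fun _ => Nat)
    L5258
    L5259
    (Nat.ble 673152 i))
   (Nat.ble 673024 i))
  (Bool.rec (motive := fun _ => Nat)
   (Bool.rec (motive := fun _ => Nat)
    L5260
    L5261
    (Nat.ble 673408 i))
   (Bool.rec (motive := fun _ => Nat)
    L5262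
    L5263
    (Nat.ble 673664 i))
   (Nat.ble 673536 i))
  (Nat.ble 673280 i))
 (Nat.ble 672768 i))

/-- choice of a leaf -/
noncomputable def A0_329 (i : Nat) : Nat :=
 (Bool.rec (motive := fun _ => Nat)
 (Bool.rec (motive := fun _ => Nat)
  (Bool.rec (motive := fun _ => Nat)
   (Bool.rec (motive := fun _ => Nat)
    L5264
    L5265
    (Nat.ble 673920 i))
   (Bool.rec (motive := fun _ => Nat)
    L5266
    L5267
    (Nat.ble 674176 i))
   (Nat.ble 674048 i))
  (Bool.rec (motive := fun _ => Nat)
   (Bool.rec (motive := fun _ => Nat)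
    L5268
    L5269
    (Nat.ble 674432 i))
   (Bool.rec (motive := fun _ => Nat)
    L5270
    L5271
    (Nat.ble 674688 i))
   (Nat.ble 674560 i))
  (Nat.ble 674304 i))
 (Bool.rec (motive := fun _ => Nat)
  (Bool.rec (motive := fun _ => Nat)
   (Bool.rec (motive := fun _ => Nat)
    L5272
    L5273
    (Nat.ble 674944 i))
   (Bool.rec (motive := fun _ => Nat)
    L5274
    L5275
    (Nat.ble 675200 i))
   (Nat.ble 675072 i))
  (Bool.rec (motive := fun _ => Nat)
   (Bool.rec (motive := fun _ => Nat)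
    L5276
    L5277
    (Nat.ble 675456 i))
   (Bool.rec (motive := fun _ => Nat)
    L5278
    L5279
    (Nat.ble 675712 i))
   (Nat.ble 675584 i))
  (Nat.ble 675328 i))
 (Nat.ble 674816 i))

/-- choice of a leaf -/
noncomputable def A0_330 (i : Nat) : Nat :=
 (Bool.rec (motive := fun _ => Nat)
 (Bool.rec (motive := fun _ => Nat)
  (Bool.rec (motive := fun _ => Nat)
   (Bool.rec (motive := fun _ => Nat)
    L5280
    L5281
    (Nat.ble 675968 i))
   (Bool.rec (motive := fun _ => Nat)
    L5282
    L5283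
    (Nat.ble 676224 i))
   (Nat.ble 676096 i))
  (Bool.rec (motive := fun _ => Nat)
   (Bool.rec (motive := fun _ => Nat)
    L5284
    L5285
    (Nat.ble 676480 i))
   (Bool.rec (motive := fun _ => Nat)
    L5286
    L5287
    (Nat.ble 676736 i))
   (Nat.ble 676608 i))
  (Nat.ble 676352 i))
 (Bool.rec (motive := fun _ => Nat)
  (Bool.rec (motive := fun _ => Nat)
   (Bool.rec (motive := fun _ => Nat)
    L5288
    L5289
    (Nat.ble 676992 i))
   (Bool.rec (motive := fun _ => Nat)
    L5290
    L5291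
    (Nat.ble 677248 i))
   (Nat.ble 677120 i))
  (Bool.rec (motive := fun _ => Nat)
   (Bool.rec (motive := fun _ => Nat)
    L5292
    L5293
    (Nat.ble 677504 i))
   (Bool.rec (motive := fun _ => Nat)
    L5294
    L5295
    (Nat.ble 677760 i))
   (Nat.ble 677632 i))
  (Nat.ble 677376 i))
 (Nat.ble 676864 i))

/-- choice of a leaf -/
noncomputable def A0_331 (i : Nat) : Nat :=
 (Bool.rec (motive := fun _ => Nat)
 (Bool.rec (motive := fun _ => Nat)
  (Bool.rec (motive := fun _ => Nat)
   (Bool.rec (motive := fun _ => Nat)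
    L5296
    L5297
    (Nat.ble 678016 i))
   (Bool.rec (motive := fun _ => Nat)
    L5298
    L5299
    (Nat.ble 678272 i))
   (Nat.ble 678144 i))
  (Bool.rec (motive := fun _ => Nat)
   (Bool.rec (motive := fun _ => Nat)
    L5300
    L5301
    (Nat.ble 678528 i))
   (Bool.rec (motive := fun _ => Nat)
    L5302
    L5303
    (Nat.ble 678784 i))
   (Nat.ble 678656 i))
  (Nat.ble 678400 i))
 (Bool.rec (motive := fun _ => Nat)
  (Bool.rec (motive := fun _ => Nat)
   (Bool.rec (motive := fun _ => Nat)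
    L5304
    L5305
    (Nat.ble 679040 i))
   (Bool.rec (motive := fun _ => Nat)
    L5306
    L5307
    (Nat.ble 679296 i))
   (Nat.ble 679168 i))
  (Bool.rec (motive := fun _ => Nat)
   (Bool.rec (motive := fun _ => Nat)
    L5308
    L5309
    (Nat.ble 679552 i))
   (Bool.rec (motive := fun _ => Nat)
    L5310
    L5311
    (Nat.ble 679808 i))
   (Nat.ble 679680 i))
  (Nat.ble 679424 i))
 (Nat.ble 678912 i))

/-- choice of a leaf -/
noncomputable def A0_332 (i : Nat) : Nat :=
 (Bool.rec (motive := fun _ => Nat)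
 (Bool.rec (motive := fun _ => Nat)
  (Bool.rec (motive := fun _ => Nat)
   (Bool.rec (motive := fun _ => Nat)
    L5312
    L5313
    (Nat.ble 680064 i))
   (Bool.rec (motive := fun _ => Nat)
    L5314
    L5315
    (Nat.ble 680320 i))
   (Nat.ble 680192 i))
  (Bool.rec (motive := fun _ => Nat)
   (Bool.rec (motive := fun _ => Nat)
    L5316
    L5317
    (Nat.ble 680576 i))
   (Bool.rec (motive := fun _ => Nat)
    L5318
    L5319
    (Nat.ble 680832 i))
   (Nat.ble 680704 i))
  (Nat.ble 680448 i))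
 (Bool.rec (motive := fun _ => Nat)
  (Bool.rec (motive := fun _ => Nat)
   (Bool.rec (motive := fun _ => Nat)
    L5320
    L5321
    (Nat.ble 681088 i))
   (Bool.rec (motive := fun _ => Nat)
    L5322
    L5323
    (Nat.ble 681344 i))
   (Nat.ble 681216 i))
  (Bool.rec (motive := fun _ => Nat)
   (Bool.rec (motive := fun _ => Nat)
    L5324
    L5325
    (Nat.ble 681600 i))
   (Bool.rec (motive := fun _ => Nat)
    L5326
    L5327
    (Nat.ble 681856 i))
   (Nat.ble 681728 i))
  (Nat.ble 681472 i))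
 (Nat.ble 680960 i))

/-- choice of a leaf -/
noncomputable def A0_333 (i : Nat) : Nat :=
 (Bool.rec (motive := fun _ => Nat)
 (Bool.rec (motive := fun _ => Nat)
  (Bool.rec (motive := fun _ => Nat)
   (Bool.rec (motive := fun _ => Nat)
    L5328
    L5329
    (Nat.ble 682112 i))
   (Bool.rec (motive := fun _ => Nat)
    L5330
    L5331
    (Nat.ble 682368 i))
   (Nat.ble 682240 i))
  (Bool.rec (motive := fun _ => Nat)
   (Bool.rec (motive := fun _ => Nat)
    L5332
    L5333
    (Nat.ble 682624 i))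
   (Bool.rec (motive := fun _ => Nat)
    L5334
    L5335
    (Nat.ble 682880 i))
   (Nat.ble 682752 i))
  (Nat.ble 682496 i))
 (Bool.rec (motive := fun _ => Nat)
  (Bool.rec (motive := fun _ => Nat)
   (Bool.rec (motive := fun _ => Nat)
    L5336
    L5337
    (Nat.ble 683136 i))
   (Bool.rec (motive := fun _ => Nat)
    L5338
    L5339
    (Nat.ble 683392 i))
   (Nat.ble 683264 i))
  (Bool.rec (motive := fun _ => Nat)
   (Bool.rec (motive := fun _ => Nat)
    L5340
    L5341
    (Nat.ble 683648 i))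
   (Bool.rec (motive := fun _ => Nat)
    L5342
    L5343
    (Nat.ble 683904 i))
   (Nat.ble 683776 i))
  (Nat.ble 683520 i))
 (Nat.ble 683008 i))

/-- choice of a leaf -/
noncomputable def A0_334 (i : Nat) : Nat :=
 (Bool.rec (motive := fun _ => Nat)
 (Bool.rec (motive := fun _ => Nat)
  (Bool.rec (motive := fun _ => Nat)
   (Bool.rec (motive := fun _ => Nat)
    L5344
    L5345
    (Nat.ble 684160 i))
   (Bool.rec (motive := fun _ => Nat)
    L5346
    L5347
    (Nat.ble 684416 i))
   (Nat.ble 684288 i))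
  (Bool.rec (motive := fun _ => Nat)
   (Bool.rec (motive := fun _ => Nat)
    L5348
    L5349
    (Nat.ble 684672 i))
   (Bool.rec (motive := fun _ => Nat)
    L5350
    L5351
    (Nat.ble 684928 i))
   (Nat.ble 684800 i))
  (Nat.ble 684544 i))
 (Bool.rec (motive := fun _ => Nat)
  (Bool.rec (motive := fun _ => Nat)
   (Bool.rec (motive := fun _ => Nat)
    L5352
    L5353
    (Nat.ble 685184 i))
   (Bool.rec (motive := fun _ => Nat)
    L5354
    L5355
    (Nat.ble 685440 i))
   (Nat.ble 685312 i))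
  (Bool.rec (motive := fun _ => Nat)
   (Bool.rec (motive := fun _ => Nat)
    L5356
    L5357
    (Nat.ble 685696 i))
   (Bool.rec (motive := fun _ => Nat)
    L5358
    L5359
    (Nat.ble 685952 i))
   (Nat.ble 685824 i))
  (Nat.ble 685568 i))
 (Nat.ble 685056 i))

/-- choice of a leaf -/
noncomputable def A0_335 (i : Nat) : Nat :=
 (Bool.rec (motive := fun _ => Nat)
 (Bool.rec (motive := fun _ => Nat)
  (Bool.rec (motive := fun _ => Nat)
   (Bool.rec (motive := fun _ => Nat)
    L5360
    L5361
    (Nat.ble 686208 i))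
   (Bool.rec (motive := fun _ => Nat)
    L5362
    L5363
    (Nat.ble 686464 i))
   (Nat.ble 686336 i))
  (Bool.rec (motive := fun _ => Nat)
   (Bool.rec (motive := fun _ => Nat)
    L5364
    L5365
    (Nat.ble 686720 i))
   (Bool.rec (motive := fun _ => Nat)
    L5366
    L5367
    (Nat.ble 686976 i))
   (Nat.ble 686848 i))
  (Nat.ble 686592 i))
 (Bool.rec (motive := fun _ => Nat)
  (Bool.rec (motive := fun _ => Nat)
   (Bool.rec (motive := fun _ => Nat)
    L5368
    L5369
    (Nat.ble 687232 i))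
   (Bool.rec (motive := fun _ => Nat)
    L5370
    L5371
    (Nat.ble 687488 i))
   (Nat.ble 687360 i))
  (Bool.rec (motive := fun _ => Nat)
   (Bool.rec (motive := fun _ => Nat)
    L5372
    L5373
    (Nat.ble 687744 i))
   (Bool.rec (motive := fun _ => Nat)
    L5374
    L5375
    (Nat.ble 688000 i))
   (Nat.ble 687872 i))
  (Nat.ble 687616 i))
 (Nat.ble 687104 i))

/-- choice of a leaf -/
noncomputable def A0_336 (i : Nat) : Nat :=
 (Bool.rec (motive := fun _ => Nat)
 (Bool.rec (motive := fun _ => Nat)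
  (Bool.rec (motive := fun _ => Nat)
   (Bool.rec (motive := fun _ => Nat)
    L5376
    L5377
    (Nat.ble 688256 i))
   (Bool.rec (motive := fun _ => Nat)
    L5378
    L5379
    (Nat.ble 688512 i))
   (Nat.ble 688384 i))
  (Bool.rec (motive := fun _ => Nat)
   (Bool.rec (motive := fun _ => Nat)
    L5380
    L5381
    (Nat.ble 688768 i))
   (Bool.rec (motive := fun _ => Nat)
    L5382
    L5383
    (Nat.ble 689024 i))
   (Nat.ble 688896 i))
  (Nat.ble 688640 i))
 (Bool.rec (motive := fun _ => Nat)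
  (Bool.rec (motive := fun _ => Nat)
   (Bool.rec (motive := fun _ => Nat)
    L5384
    L5385
    (Nat.ble 689280 i))
   (Bool.rec (motive := fun _ => Nat)
    L5386
    L5387
    (Nat.ble 689536 i))
   (Nat.ble 689408 i))
  (Bool.rec (motive := fun _ => Nat)
   (Bool.rec (motive := fun _ => Nat)
    L5388
    L5389
    (Nat.ble 689792 i))
   (Bool.rec (motive := fun _ => Nat)
    L5390
    L5391
    (Nat.ble 690048 i))
   (Nat.ble 689920 i))
  (Nat.ble 689664 i))
 (Nat.ble 689152 i))

/-- choice of a leaf -/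
noncomputable def A0_337 (i : Nat) : Nat :=
 (Bool.rec (motive := fun _ => Nat)
 (Bool.rec (motive := fun _ => Nat)
  (Bool.rec (motive := fun _ => Nat)
   (Bool.rec (motive := fun _ => Nat)
    L5392
    L5393
    (Nat.ble 690304 i))
   (Bool.rec (motive := fun _ => Nat)
    L5394
    L5395
    (Nat.ble 690560 i))
   (Nat.ble 690432 i))
  (Bool.rec (motive := fun _ => Nat)
   (Bool.rec (motive := fun _ => Nat)
    L5396
    L5397
    (Nat.ble 690816 i))
   (Bool.rec (motive := fun _ => Nat)
    L5398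
    L5399
    (Nat.ble 691072 i))
   (Nat.ble 690944 i))
  (Nat.ble 690688 i))
 (Bool.rec (motive := fun _ => Nat)
  (Bool.rec (motive := fun _ => Nat)
   (Bool.rec (motive := fun _ => Nat)
    L5400
    L5401
    (Nat.ble 691328 i))
   (Bool.rec (motive := fun _ => Nat)
    L5402
    L5403
    (Nat.ble 691584 i))
   (Nat.ble 691456 i))
  (Bool.rec (motive := fun _ => Nat)
   (Bool.rec (motive := fun _ => Nat)
    L5404
    L5405
    (Nat.ble 691840 i))
   (Bool.rec (motive := fun _ => Nat)
    L5406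
    L5407
    (Nat.ble 692096 i))
   (Nat.ble 691968 i))
  (Nat.ble 691712 i))
 (Nat.ble 691200 i))

/-- choice of a leaf -/
noncomputable def A0_338 (i : Nat) : Nat :=
 (Bool.rec (motive := fun _ => Nat)
 (Bool.rec (motive := fun _ => Nat)
  (Bool.rec (motive := fun _ => Nat)
   (Bool.rec (motive := fun _ => Nat)
    L5408
    L5409
    (Nat.ble 692352 i))
   (Bool.rec (motive := fun _ => Nat)
    L5410
    L5411
    (Nat.ble 692608 i))
   (Nat.ble 692480 i))
  (Bool.rec (motive := fun _ => Nat)
   (Bool.rec (motive := fun _ => Nat)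
    L5412
    L5413
    (Nat.ble 692864 i))
   (Bool.rec (motive := fun _ => Nat)
    L5414
    L5415
    (Nat.ble 693120 i))
   (Nat.ble 692992 i))
  (Nat.ble 692736 i))
 (Bool.rec (motive := fun _ => Nat)
  (Bool.rec (motive := fun _ => Nat)
   (Bool.rec (motive := fun _ => Nat)
    L5416
    L5417
    (Nat.ble 693376 i))
   (Bool.rec (motive := fun _ => Nat)
    L5418
    L5419
    (Nat.ble 693632 i))
   (Nat.ble 693504 i))
  (Bool.rec (motive := fun _ => Nat)
   (Bool.rec (motive := fun _ => Nat)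
    L5420
    L5421
    (Nat.ble 693888 i))
   (Bool.rec (motive := fun _ => Nat)
    L5422
    L5423
    (Nat.ble 694144 i))
   (Nat.ble 694016 i))
  (Nat.ble 693760 i))
 (Nat.ble 693248 i))

/-- choice of a leaf -/
noncomputable def A0_339 (i : Nat) : Nat :=
 (Bool.rec (motive := fun _ => Nat)
 (Bool.rec (motive := fun _ => Nat)
  (Bool.rec (motive := fun _ => Nat)
   (Bool.rec (motive := fun _ => Nat)
    L5424
    L5425
    (Nat.ble 694400 i))
   (Bool.rec (motive := fun _ => Nat)
    L5426
    L5427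
    (Nat.ble 694656 i))
   (Nat.ble 694528 i))
  (Bool.rec (motive := fun _ => Nat)
   (Bool.rec (motive := fun _ => Nat)
    L5428
    L5429
    (Nat.ble 694912 i))
   (Bool.rec (motive := fun _ => Nat)
    L5430
    L5431
    (Nat.ble 695168 i))
   (Nat.ble 695040 i))
  (Nat.ble 694784 i))
 (Bool.rec (motive := fun _ => Nat)
  (Bool.rec (motive := fun _ => Nat)
   (Bool.rec (motive := fun _ => Nat)
    L5432
    L5433
    (Nat.ble 695424 i))
   (Bool.rec (motive := fun _ => Nat)
    L5434
    L5435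
    (Nat.ble 695680 i))
   (Nat.ble 695552 i))
  (Bool.rec (motive := fun _ => Nat)
   (Bool.rec (motive := fun _ => Nat)
    L5436
    L5437
    (Nat.ble 695936 i))
   (Bool.rec (motive := fun _ => Nat)
    L5438
    L5439
    (Nat.ble 696192 i))
   (Nat.ble 696064 i))
  (Nat.ble 695808 i))
 (Nat.ble 695296 i))

/-- choice of a leaf -/
noncomputable def A0_340 (i : Nat) : Nat :=
 (Bool.rec (motive := fun _ => Nat)
 (Bool.rec (motive := fun _ => Nat)
  (Bool.rec (motive := fun _ => Nat)
   (Bool.rec (motive := fun _ => Nat)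
    L5440
    L5441
    (Nat.ble 696448 i))
   (Bool.rec (motive := fun _ => Nat)
    L5442
    L5443
    (Nat.ble 696704 i))
   (Nat.ble 696576 i))
  (Bool.rec (motive := fun _ => Nat)
   (Bool.rec (motive := fun _ => Nat)
    L5444
    L5445
    (Nat.ble 696960 i))
   (Bool.rec (motive := fun _ => Nat)
    L5446
    L5447
    (Nat.ble 697216 i))
   (Nat.ble 697088 i))
  (Nat.ble 696832 i))
 (Bool.rec (motive := fun _ => Nat)
  (Bool.rec (motive := fun _ => Nat)
   (Bool.rec (motive := fun _ => Nat)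
    L5448
    L5449
    (Nat.ble 697472 i))
   (Bool.rec (motive := fun _ => Nat)
    L5450
    L5451
    (Nat.ble 697728 i))
   (Nat.ble 697600 i))
  (Bool.rec (motive := fun _ => Nat)
   (Bool.rec (motive := fun _ => Nat)
    L5452
    L5453
    (Nat.ble 697984 i))
   (Bool.rec (motive := fun _ => Nat)
    L5454
    L5455
    (Nat.ble 698240 i))
   (Nat.ble 698112 i))
  (Nat.ble 697856 i))
 (Nat.ble 697344 i))

/-- choice of a leaf -/
noncomputable def A0_341 (i : Nat) : Nat :=
 (Bool.rec (motive := fun _ => Nat)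
 (Bool.rec (motive := fun _ => Nat)
  (Bool.rec (motive := fun _ => Nat)
   (Bool.rec (motive := fun _ => Nat)
    L5456
    L5457
    (Nat.ble 698496 i))
   (Bool.rec (motive := fun _ => Nat)
    L5458
    L5459
    (Nat.ble 698752 i))
   (Nat.ble 698624 i))
  (Bool.rec (motive := fun _ => Nat)
   (Bool.rec (motive := fun _ => Nat)
    L5460
    L5461
    (Nat.ble 699008 i))
   (Bool.rec (motive := fun _ => Nat)
    L5462
    L5463
    (Nat.ble 699264 i))
   (Nat.ble 699136 i))
  (Nat.ble 698880 i))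
 (Bool.rec (motive := fun _ => Nat)
  (Bool.rec (motive := fun _ => Nat)
   (Bool.rec (motive := fun _ => Nat)
    L5464
    L5465
    (Nat.ble 699520 i))
   (Bool.rec (motive := fun _ => Nat)
    L5466
    L5467
    (Nat.ble 699776 i))
   (Nat.ble 699648 i))
  (Bool.rec (motive := fun _ => Nat)
   (Bool.rec (motive := fun _ => Nat)
    L5468
    L5469
    (Nat.ble 700032 i))
   (Bool.rec (motive := fun _ => Nat)
    L5470
    L5471
    (Nat.ble 700288 i))
   (Nat.ble 700160 i))
  (Nat.ble 699904 i))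
 (Nat.ble 699392 i))

/-- choice of a leaf -/
noncomputable def A0_342 (i : Nat) : Nat :=
 (Bool.rec (motive := fun _ => Nat)
 (Bool.rec (motive := fun _ => Nat)
  (Bool.rec (motive := fun _ => Nat)
   (Bool.rec (motive := fun _ => Nat)
    L5472
    L5473
    (Nat.ble 700544 i))
   (Bool.rec (motive := fun _ => Nat)
    L5474
    L5475
    (Nat.ble 700800 i))
   (Nat.ble 700672 i))
  (Bool.rec (motive := fun _ => Nat)
   (Bool.rec (motive := fun _ => Nat)
    L5476
    L5477
    (Nat.ble 701056 i))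
   (Bool.rec (motive := fun _ => Nat)
    L5478
    L5479
    (Nat.ble 701312 i))
   (Nat.ble 701184 i))
  (Nat.ble 700928 i))
 (Bool.rec (motive := fun _ => Nat)
  (Bool.rec (motive := fun _ => Nat)
   (Bool.rec (motive := fun _ => Nat)
    L5480
    L5481
    (Nat.ble 701568 i))
   (Bool.rec (motive := fun _ => Nat)
    L5482
    L5483
    (Nat.ble 701824 i))
   (Nat.ble 701696 i))
  (Bool.rec (motive := fun _ => Nat)
   (Bool.rec (motive := fun _ => Nat)
    L5484
    L5485
    (Nat.ble 702080 i))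
   (Bool.rec (motive := fun _ => Nat)
    L5486
    L5487
    (Nat.ble 702336 i))
   (Nat.ble 702208 i))
  (Nat.ble 701952 i))
 (Nat.ble 701440 i))

/-- choice of a leaf -/
noncomputable def A0_343 (i : Nat) : Nat :=
 (Bool.rec (motive := fun _ => Nat)
 (Bool.rec (motive := fun _ => Nat)
  (Bool.rec (motive := fun _ => Nat)
   (Bool.rec (motive := fun _ => Nat)
    L5488
    L5489
    (Nat.ble 702592 i))
   (Bool.rec (motive := fun _ => Nat)
    L5490
    L5491
    (Nat.ble 702848 i))
   (Nat.ble 702720 i))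
  (Bool.rec (motive := fun _ => Nat)
   (Bool.rec (motive := fun _ => Nat)
    L5492
    L5493
    (Nat.ble 703104 i))
   (Bool.rec (motive := fun _ => Nat)
    L5494
    L5495
    (Nat.ble 703360 i))
   (Nat.ble 703232 i))
  (Nat.ble 702976 i))
 (Bool.rec (motive := fun _ => Nat)
  (Bool.rec (motive := fun _ => Nat)
   (Bool.rec (motive := fun _ => Nat)
    L5496
    L5497
    (Nat.ble 703616 i))
   (Bool.rec (motive := fun _ => Nat)
    L5498
    L5499
    (Nat.ble 703872 i))
   (Nat.ble 703744 i))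
  (Bool.rec (motive := fun _ => Nat)
   (Bool.rec (motive := fun _ => Nat)
    L5500
    L5501
    (Nat.ble 704128 i))
   (Bool.rec (motive := fun _ => Nat)
    L5502
    L5503
    (Nat.ble 704384 i))
   (Nat.ble 704256 i))
  (Nat.ble 704000 i))
 (Nat.ble 703488 i))

/-- choice of a leaf -/
noncomputable def A0_344 (i : Nat) : Nat :=
 (Bool.rec (motive := fun _ => Nat)
 (Bool.rec (motive := fun _ => Nat)
  (Bool.rec (motive := fun _ => Nat)
   (Bool.rec (motive := fun _ => Nat)
    L5504
    L5505
    (Nat.ble 704640 i))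
   (Bool.rec (motive := fun _ => Nat)
    L5506
    L5507
    (Nat.ble 704896 i))
   (Nat.ble 704768 i))
  (Bool.rec (motive := fun _ => Nat)
   (Bool.rec (motive := fun _ => Nat)
    L5508
    L5509
    (Nat.ble 705152 i))
   (Bool.rec (motive := fun _ => Nat)
    L5510
    L5511
    (Nat.ble 705408 i))
   (Nat.ble 705280 i))
  (Nat.ble 705024 i))
 (Bool.rec (motive := fun _ => Nat)
  (Bool.rec (motive := fun _ => Nat)
   (Bool.rec (motive := fun _ => Nat)
    L5512
    L5513
    (Nat.ble 705664 i))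
   (Bool.rec (motive := fun _ => Nat)
    L5514
    L5515
    (Nat.ble 705920 i))
   (Nat.ble 705792 i))
  (Bool.rec (motive := fun _ => Nat)
   (Bool.rec (motive := fun _ => Nat)
    L5516
    L5517
    (Nat.ble 706176 i))
   (Bool.rec (motive := fun _ => Nat)
    L5518
    L5519
    (Nat.ble 706432 i))
   (Nat.ble 706304 i))
  (Nat.ble 706048 i))
 (Nat.ble 705536 i))

/-- choice of a leaf -/
noncomputable def A0_345 (i : Nat) : Nat :=
 (Bool.rec (motive := fun _ => Nat)
 (Bool.rec (motive := fun _ => Nat)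
  (Bool.rec (motive := fun _ => Nat)
   (Bool.rec (motive := fun _ => Nat)
    L5520
    L5521
    (Nat.ble 706688 i))
   (Bool.rec (motive := fun _ => Nat)
    L5522
    L5523
    (Nat.ble 706944 i))
   (Nat.ble 706816 i))
  (Bool.rec (motive := fun _ => Nat)
   (Bool.rec (motive := fun _ => Nat)
    L5524
    L5525
    (Nat.ble 707200 i))
   (Bool.rec (motive := fun _ => Nat)
    L5526
    L5527
    (Nat.ble 707456 i))
   (Nat.ble 707328 i))
  (Nat.ble 707072 i))
 (Bool.rec (motive := fun _ => Nat)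
  (Bool.rec (motive := fun _ => Nat)
   (Bool.rec (motive := fun _ => Nat)
    L5528
    L5529
    (Nat.ble 707712 i))
   (Bool.rec (motive := fun _ => Nat)
    L5530
    L5531
    (Nat.ble 707968 i))
   (Nat.ble 707840 i))
  (Bool.rec (motive := fun _ => Nat)
   (Bool.rec (motive := fun _ => Nat)
    L5532
    L5533
    (Nat.ble 708224 i))
   (Bool.rec (motive := fun _ => Nat)
    L5534
    L5535
    (Nat.ble 708480 i))
   (Nat.ble 708352 i))
  (Nat.ble 708096 i))
 (Nat.ble 707584 i))

/-- choice of a leaf -/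
noncomputable def A0_346 (i : Nat) : Nat :=
 (Bool.rec (motive := fun _ => Nat)
 (Bool.rec (motive := fun _ => Nat)
  (Bool.rec (motive := fun _ => Nat)
   (Bool.rec (motive := fun _ => Nat)
    L5536
    L5537
    (Nat.ble 708736 i))
   (Bool.rec (motive := fun _ => Nat)
    L5538
    L5539
    (Nat.ble 708992 i))
   (Nat.ble 708864 i))
  (Bool.rec (motive := fun _ => Nat)
   (Bool.rec (motive := fun _ => Nat)
    L5540
    L5541
    (Nat.ble 709248 i))
   (Bool.rec (motive := fun _ => Nat)
    L5542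
    L5543
    (Nat.ble 709504 i))
   (Nat.ble 709376 i))
  (Nat.ble 709120 i))
 (Bool.rec (motive := fun _ => Nat)
  (Bool.rec (motive := fun _ => Nat)
   (Bool.rec (motive := fun _ => Nat)
    L5544
    L5545
    (Nat.ble 709760 i))
   (Bool.rec (motive := fun _ => Nat)
    L5546
    L5547
    (Nat.ble 710016 i))
   (Nat.ble 709888 i))
  (Bool.rec (motive := fun _ => Nat)
   (Bool.rec (motive := fun _ => Nat)
    L5548
    L5549
    (Nat.ble 710272 i))
   (Bool.rec (motive := fun _ => Nat)
    L5550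
    L5551
    (Nat.ble 710528 i))
   (Nat.ble 710400 i))
  (Nat.ble 710144 i))
 (Nat.ble 709632 i))

/-- choice of a leaf -/
noncomputable def A0_347 (i : Nat) : Nat :=
 (Bool.rec (motive := fun _ => Nat)
 (Bool.rec (motive := fun _ => Nat)
  (Bool.rec (motive := fun _ => Nat)
   (Bool.rec (motive := fun _ => Nat)
    L5552
    L5553
    (Nat.ble 710784 i))
   (Bool.rec (motive := fun _ => Nat)
    L5554
    L5555
    (Nat.ble 711040 i))
   (Nat.ble 710912 i))
  (Bool.rec (motive := fun _ => Nat)
   (Bool.rec (motive := fun _ => Nat)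
    L5556
    L5557
    (Nat.ble 711296 i))
   (Bool.rec (motive := fun _ => Nat)
    L5558
    L5559
    (Nat.ble 711552 i))
   (Nat.ble 711424 i))
  (Nat.ble 711168 i))
 (Bool.rec (motive := fun _ => Nat)
  (Bool.rec (motive := fun _ => Nat)
   (Bool.rec (motive := fun _ => Nat)
    L5560
    L5561
    (Nat.ble 711808 i))
   (Bool.rec (motive := fun _ => Nat)
    L5562
    L5563
    (Nat.ble 712064 i))
   (Nat.ble 711936 i))
  (Bool.rec (motive := fun _ => Nat)
   (Bool.rec (motive := fun _ => Nat)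
    L5564
    L5565
    (Nat.ble 712320 i))
   (Bool.rec (motive := fun _ => Nat)
    L5566
    L5567
    (Nat.ble 712576 i))
   (Nat.ble 712448 i))
  (Nat.ble 712192 i))
 (Nat.ble 711680 i))

/-- choice of a leaf -/
noncomputable def A0_348 (i : Nat) : Nat :=
 (Bool.rec (motive := fun _ => Nat)
 (Bool.rec (motive := fun _ => Nat)
  (Bool.rec (motive := fun _ => Nat)
   (Bool.rec (motive := fun _ => Nat)
    L5568
    L5569
    (Nat.ble 712832 i))
   (Bool.rec (motive := fun _ => Nat)
    L5570
    L5571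
    (Nat.ble 713088 i))
   (Nat.ble 712960 i))
  (Bool.rec (motive := fun _ => Nat)
   (Bool.rec (motive := fun _ => Nat)
    L5572
    L5573
    (Nat.ble 713344 i))
   (Bool.rec (motive := fun _ => Nat)
    L5574
    L5575
    (Nat.ble 713600 i))
   (Nat.ble 713472 i))
  (Nat.ble 713216 i))
 (Bool.rec (motive := fun _ => Nat)
  (Bool.rec (motive := fun _ => Nat)
   (Bool.rec (motive := fun _ => Nat)
    L5576
    L5577
    (Nat.ble 713856 i))
   (Bool.rec (motive := fun _ => Nat)
    L5578
    L5579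
    (Nat.ble 714112 i))
   (Nat.ble 713984 i))
  (Bool.rec (motive := fun _ => Nat)
   (Bool.rec (motive := fun _ => Nat)
    L5580
    L5581
    (Nat.ble 714368 i))
   (Bool.rec (motive := fun _ => Nat)
    L5582
    L5583
    (Nat.ble 714624 i))
   (Nat.ble 714496 i))
  (Nat.ble 714240 i))
 (Nat.ble 713728 i))

/-- choice of a leaf -/
noncomputable def A0_349 (i : Nat) : Nat :=
 (Bool.rec (motive := fun _ => Nat)
 (Bool.rec (motive := fun _ => Nat)
  (Bool.rec (motive := fun _ => Nat)
   (Bool.rec (motive := fun _ => Nat)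
    L5584
    L5585
    (Nat.ble 714880 i))
   (Bool.rec (motive := fun _ => Nat)
    L5586
    L5587
    (Nat.ble 715136 i))
   (Nat.ble 715008 i))
  (Bool.rec (motive := fun _ => Nat)
   (Bool.rec (motive := fun _ => Nat)
    L5588
    L5589
    (Nat.ble 715392 i))
   (Bool.rec (motive := fun _ => Nat)
    L5590
    L5591
    (Nat.ble 715648 i))
   (Nat.ble 715520 i))
  (Nat.ble 715264 i))
 (Bool.rec (motive := fun _ => Nat)
  (Bool.rec (motive := fun _ => Nat)
   (Bool.rec (motive := fun _ => Nat)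
    L5592
    L5593
    (Nat.ble 715904 i))
   (Bool.rec (motive := fun _ => Nat)
    L5594
    L5595
    (Nat.ble 716160 i))
   (Nat.ble 716032 i))
  (Bool.rec (motive := fun _ => Nat)
   (Bool.rec (motive := fun _ => Nat)
    L5596
    L5597
    (Nat.ble 716416 i))
   (Bool.rec (motive := fun _ => Nat)
    L5598
    L5599
    (Nat.ble 716672 i))
   (Nat.ble 716544 i))
  (Nat.ble 716288 i))
 (Nat.ble 715776 i))

/-- choice of a leaf -/
noncomputable def A0_350 (i : Nat) : Nat :=
 (Bool.rec (motive := fun _ => Nat)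
 (Bool.rec (motive := fun _ => Nat)
  (Bool.rec (motive := fun _ => Nat)
   (Bool.rec (motive := fun _ => Nat)
    L5600
    L5601
    (Nat.ble 716928 i))
   (Bool.rec (motive := fun _ => Nat)
    L5602
    L5603
    (Nat.ble 717184 i))
   (Nat.ble 717056 i))
  (Bool.rec (motive := fun _ => Nat)
   (Bool.rec (motive := fun _ => Nat)
    L5604
    L5605
    (Nat.ble 717440 i))
   (Bool.rec (motive := fun _ => Nat)
    L5606
    L5607
    (Nat.ble 717696 i))
   (Nat.ble 717568 i))
  (Nat.ble 717312 i))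
 (Bool.rec (motive := fun _ => Nat)
  (Bool.rec (motive := fun _ => Nat)
   (Bool.rec (motive := fun _ => Nat)
    L5608
    L5609
    (Nat.ble 717952 i))
   (Bool.rec (motive := fun _ => Nat)
    L5610
    L5611
    (Nat.ble 718208 i))
   (Nat.ble 718080 i))
  (Bool.rec (motive := fun _ => Nat)
   (Bool.rec (motive := fun _ => Nat)
    L5612
    L5613
    (Nat.ble 718464 i))
   (Bool.rec (motive := fun _ => Nat)
    L5614
    L5615
    (Nat.ble 718720 i))
   (Nat.ble 718592 i))
  (Nat.ble 718336 i))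
 (Nat.ble 717824 i))

/-- choice of a leaf -/
noncomputable def A0_351 (i : Nat) : Nat :=
 (Bool.rec (motive := fun _ => Nat)
 (Bool.rec (motive := fun _ => Nat)
  (Bool.rec (motive := fun _ => Nat)
   (Bool.rec (motive := fun _ => Nat)
    L5616
    L5617
    (Nat.ble 718976 i))
   (Bool.rec (motive := fun _ => Nat)
    L5618
    L5619
    (Nat.ble 719232 i))
   (Nat.ble 719104 i))
  (Bool.rec (motive := fun _ => Nat)
   (Bool.rec (motive := fun _ => Nat)
    L5620
    L5621
    (Nat.ble 719488 i))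
   (Bool.rec (motive := fun _ => Nat)
    L5622
    L5623
    (Nat.ble 719744 i))
   (Nat.ble 719616 i))
  (Nat.ble 719360 i))
 (Bool.rec (motive := fun _ => Nat)
  (Bool.rec (motive := fun _ => Nat)
   (Bool.rec (motive := fun _ => Nat)
    L5624
    L5625
    (Nat.ble 720000 i))
   (Bool.rec (motive := fun _ => Nat)
    L5626
    L5627
    (Nat.ble 720256 i))
   (Nat.ble 720128 i))
  (Bool.rec (motive := fun _ => Nat)
   (Bool.rec (motive := fun _ => Nat)
    L5628
    L5629
    (Nat.ble 720512 i))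
   (Bool.rec (motive := fun _ => Nat)
    L5630
    L5631
    (Nat.ble 720768 i))
   (Nat.ble 720640 i))
  (Nat.ble 720384 i))
 (Nat.ble 719872 i))

/-- choice of a leaf -/
noncomputable def A0_352 (i : Nat) : Nat :=
 (Bool.rec (motive := fun _ => Nat)
 (Bool.rec (motive := fun _ => Nat)
  (Bool.rec (motive := fun _ => Nat)
   (Bool.rec (motive := fun _ => Nat)
    L5632
    L5633
    (Nat.ble 721024 i))
   (Bool.rec (motive := fun _ => Nat)
    L5634
    L5635
    (Nat.ble 721280 i))
   (Nat.ble 721152 i))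
  (Bool.rec (motive := fun _ => Nat)
   (Bool.rec (motive := fun _ => Nat)
    L5636
    L5637
    (Nat.ble 721536 i))
   (Bool.rec (motive := fun _ => Nat)
    L5638
    L5639
    (Nat.ble 721792 i))
   (Nat.ble 721664 i))
  (Nat.ble 721408 i))
 (Bool.rec (motive := fun _ => Nat)
  (Bool.rec (motive := fun _ => Nat)
   (Bool.rec (motive := fun _ => Nat)
    L5640
    L5641
    (Nat.ble 722048 i))
   (Bool.rec (motive := fun _ => Nat)
    L5642
    L5643
    (Nat.ble 722304 i))
   (Nat.ble 722176 i))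
  (Bool.rec (motive := fun _ => Nat)
   (Bool.rec (motive := fun _ => Nat)
    L5644
    L5645
    (Nat.ble 722560 i))
   (Bool.rec (motive := fun _ => Nat)
    L5646
    L5647
    (Nat.ble 722816 i))
   (Nat.ble 722688 i))
  (Nat.ble 722432 i))
 (Nat.ble 721920 i))

/-- choice of a leaf -/
noncomputable def A0_353 (i : Nat) : Nat :=
 (Bool.rec (motive := fun _ => Nat)
 (Bool.rec (motive := fun _ => Nat)
  (Bool.rec (motive := fun _ => Nat)
   (Bool.rec (motive := fun _ => Nat)
    L5648
    L5649
    (Nat.ble 723072 i))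
   (Bool.rec (motive := fun _ => Nat)
    L5650
    L5651
    (Nat.ble 723328 i))
   (Nat.ble 723200 i))
  (Bool.rec (motive := fun _ => Nat)
   (Bool.rec (motive := fun _ => Nat)
    L5652
    L5653
    (Nat.ble 723584 i))
   (Bool.rec (motive := fun _ => Nat)
    L5654
    L5655
    (Nat.ble 723840 i))
   (Nat.ble 723712 i))
  (Nat.ble 723456 i))
 (Bool.rec (motive := fun _ => Nat)
  (Bool.rec (motive := fun _ => Nat)
   (Bool.rec (motive := fun _ => Nat)
    L5656
    L5657
    (Nat.ble 724096 i))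
   (Bool.rec (motive := fun _ => Nat)
    L5658
    L5659
    (Nat.ble 724352 i))
   (Nat.ble 724224 i))
  (Bool.rec (motive := fun _ => Nat)
   (Bool.rec (motive := fun _ => Nat)
    L5660
    L5661
    (Nat.ble 724608 i))
   (Bool.rec (motive := fun _ => Nat)
    L5662
    L5663
    (Nat.ble 724864 i))
   (Nat.ble 724736 i))
  (Nat.ble 724480 i))
 (Nat.ble 723968 i))

/-- choice of a leaf -/
noncomputable def A0_354 (i : Nat) : Nat :=
 (Bool.rec (motive := fun _ => Nat)
 (Bool.rec (motive := fun _ => Nat)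
  (Bool.rec (motive := fun _ => Nat)
   (Bool.rec (motive := fun _ => Nat)
    L5664
    L5665
    (Nat.ble 725120 i))
   (Bool.rec (motive := fun _ => Nat)
    L5666
    L5667
    (Nat.ble 725376 i))
   (Nat.ble 725248 i))
  (Bool.rec (motive := fun _ => Nat)
   (Bool.rec (motive := fun _ => Nat)
    L5668
    L5669
    (Nat.ble 725632 i))
   (Bool.rec (motive := fun _ => Nat)
    L5670
    L5671
    (Nat.ble 725888 i))
   (Nat.ble 725760 i))
  (Nat.ble 725504 i))
 (Bool.rec (motive := fun _ => Nat)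
  (Bool.rec (motive := fun _ => Nat)
   (Bool.rec (motive := fun _ => Nat)
    L5672
    L5673
    (Nat.ble 726144 i))
   (Bool.rec (motive := fun _ => Nat)
    L5674
    L5675
    (Nat.ble 726400 i))
   (Nat.ble 726272 i))
  (Bool.rec (motive := fun _ => Nat)
   (Bool.rec (motive := fun _ => Nat)
    L5676
    L5677
    (Nat.ble 726656 i))
   (Bool.rec (motive := fun _ => Nat)
    L5678
    L5679
    (Nat.ble 726912 i))
   (Nat.ble 726784 i))
  (Nat.ble 726528 i))
 (Nat.ble 726016 i))

/-- choice of a leaf -/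
noncomputable def A0_355 (i : Nat) : Nat :=
 (Bool.rec (motive := fun _ => Nat)
 (Bool.rec (motive := fun _ => Nat)
  (Bool.rec (motive := fun _ => Nat)
   (Bool.rec (motive := fun _ => Nat)
    L5680
    L5681
    (Nat.ble 727168 i))
   (Bool.rec (motive := fun _ => Nat)
    L5682
    L5683
    (Nat.ble 727424 i))
   (Nat.ble 727296 i))
  (Bool.rec (motive := fun _ => Nat)
   (Bool.rec (motive := fun _ => Nat)
    L5684
    L5685
    (Nat.ble 727680 i))
   (Bool.rec (motive := fun _ => Nat)
    L5686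
    L5687
    (Nat.ble 727936 i))
   (Nat.ble 727808 i))
  (Nat.ble 727552 i))
 (Bool.rec (motive := fun _ => Nat)
  (Bool.rec (motive := fun _ => Nat)
   (Bool.rec (motive := fun _ => Nat)
    L5688
    L5689
    (Nat.ble 728192 i))
   (Bool.rec (motive := fun _ => Nat)
    L5690
    L5691
    (Nat.ble 728448 i))
   (Nat.ble 728320 i))
  (Bool.rec (motive := fun _ => Nat)
   (Bool.rec (motive := fun _ => Nat)
    L5692
    L5693
    (Nat.ble 728704 i))
   (Bool.rec (motive := fun _ => Nat)
    L5694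
    L5695
    (Nat.ble 728960 i))
   (Nat.ble 728832 i))
  (Nat.ble 728576 i))
 (Nat.ble 728064 i))

/-- choice of a leaf -/
noncomputable def A0_356 (i : Nat) : Nat :=
 (Bool.rec (motive := fun _ => Nat)
 (Bool.rec (motive := fun _ => Nat)
  (Bool.rec (motive := fun _ => Nat)
   (Bool.rec (motive := fun _ => Nat)
    L5696
    L5697
    (Nat.ble 729216 i))
   (Bool.rec (motive := fun _ => Nat)
    L5698
    L5699
    (Nat.ble 729472 i))
   (Nat.ble 729344 i))
  (Bool.rec (motive := fun _ => Nat)
   (Bool.rec (motive := fun _ => Nat)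
    L5700
    L5701
    (Nat.ble 729728 i))
   (Bool.rec (motive := fun _ => Nat)
    L5702
    L5703
    (Nat.ble 729984 i))
   (Nat.ble 729856 i))
  (Nat.ble 729600 i))
 (Bool.rec (motive := fun _ => Nat)
  (Bool.rec (motive := fun _ => Nat)
   (Bool.rec (motive := fun _ => Nat)
    L5704
    L5705
    (Nat.ble 730240 i))
   (Bool.rec (motive := fun _ => Nat)
    L5706
    L5707
    (Nat.ble 730496 i))
   (Nat.ble 730368 i))
  (Bool.rec (motive := fun _ => Nat)
   (Bool.rec (motive := fun _ => Nat)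
    L5708
    L5709
    (Nat.ble 730752 i))
   (Bool.rec (motive := fun _ => Nat)
    L5710
    L5711
    (Nat.ble 731008 i))
   (Nat.ble 730880 i))
  (Nat.ble 730624 i))
 (Nat.ble 730112 i))

/-- choice of a leaf -/
noncomputable def A0_357 (i : Nat) : Nat :=
 (Bool.rec (motive := fun _ => Nat)
 (Bool.rec (motive := fun _ => Nat)
  (Bool.rec (motive := fun _ => Nat)
   (Bool.rec (motive := fun _ => Nat)
    L5712
    L5713
    (Nat.ble 731264 i))
   (Bool.rec (motive := fun _ => Nat)
    L5714
    L5715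
    (Nat.ble 731520 i))
   (Nat.ble 731392 i))
  (Bool.rec (motive := fun _ => Nat)
   (Bool.rec (motive := fun _ => Nat)
    L5716
    L5717
    (Nat.ble 731776 i))
   (Bool.rec (motive := fun _ => Nat)
    L5718
    L5719
    (Nat.ble 732032 i))
   (Nat.ble 731904 i))
  (Nat.ble 731648 i))
 (Bool.rec (motive := fun _ => Nat)
  (Bool.rec (motive := fun _ => Nat)
   (Bool.rec (motive := fun _ => Nat)
    L5720
    L5721
    (Nat.ble 732288 i))
   (Bool.rec (motive := fun _ => Nat)
    L5722
    L5723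
    (Nat.ble 732544 i))
   (Nat.ble 732416 i))
  (Bool.rec (motive := fun _ => Nat)
   (Bool.rec (motive := fun _ => Nat)
    L5724
    L5725
    (Nat.ble 732800 i))
   (Bool.rec (motive := fun _ => Nat)
    L5726
    L5727
    (Nat.ble 733056 i))
   (Nat.ble 732928 i))
  (Nat.ble 732672 i))
 (Nat.ble 732160 i))

/-- choice of a leaf -/
noncomputable def A0_358 (i : Nat) : Nat :=
 (Bool.rec (motive := fun _ => Nat)
 (Bool.rec (motive := fun _ => Nat)
  (Bool.rec (motive := fun _ => Nat)
   (Bool.rec (motive := fun _ => Nat)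
    L5728
    L5729
    (Nat.ble 733312 i))
   (Bool.rec (motive := fun _ => Nat)
    L5730
    L5731
    (Nat.ble 733568 i))
   (Nat.ble 733440 i))
  (Bool.rec (motive := fun _ => Nat)
   (Bool.rec (motive := fun _ => Nat)
    L5732
    L5733
    (Nat.ble 733824 i))
   (Bool.rec (motive := fun _ => Nat)
    L5734
    L5735
    (Nat.ble 734080 i))
   (Nat.ble 733952 i))
  (Nat.ble 733696 i))
 (Bool.rec (motive := fun _ => Nat)
  (Bool.rec (motive := fun _ => Nat)
   (Bool.rec (motive := fun _ => Nat)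
    L5736
    L5737
    (Nat.ble 734336 i))
   (Bool.rec (motive := fun _ => Nat)
    L5738
    L5739
    (Nat.ble 734592 i))
   (Nat.ble 734464 i))
  (Bool.rec (motive := fun _ => Nat)
   (Bool.rec (motive := fun _ => Nat)
    L5740
    L5741
    (Nat.ble 734848 i))
   (Bool.rec (motive := fun _ => Nat)
    L5742
    L5743
    (Nat.ble 735104 i))
   (Nat.ble 734976 i))
  (Nat.ble 734720 i))
 (Nat.ble 734208 i))

/-- choice of a leaf -/
noncomputable def A0_359 (i : Nat) : Nat :=
 (Bool.rec (motive := fun _ => Nat)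
 (Bool.rec (motive := fun _ => Nat)
  (Bool.rec (motive := fun _ => Nat)
   (Bool.rec (motive := fun _ => Nat)
    L5744
    L5745
    (Nat.ble 735360 i))
   (Bool.rec (motive := fun _ => Nat)
    L5746
    L5747
    (Nat.ble 735616 i))
   (Nat.ble 735488 i))
  (Bool.rec (motive := fun _ => Nat)
   (Bool.rec (motive := fun _ => Nat)
    L5748
    L5749
    (Nat.ble 735872 i))
   (Bool.rec (motive := fun _ => Nat)
    L5750
    L5751
    (Nat.ble 736128 i))
   (Nat.ble 736000 i))
  (Nat.ble 735744 i))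
 (Bool.rec (motive := fun _ => Nat)
  (Bool.rec (motive := fun _ => Nat)
   (Bool.rec (motive := fun _ => Nat)
    L5752
    L5753
    (Nat.ble 736384 i))
   (Bool.rec (motive := fun _ => Nat)
    L5754
    L5755
    (Nat.ble 736640 i))
   (Nat.ble 736512 i))
  (Bool.rec (motive := fun _ => Nat)
   (Bool.rec (motive := fun _ => Nat)
    L5756
    L5757
    (Nat.ble 736896 i))
   (Bool.rec (motive := fun _ => Nat)
    L5758
    L5759
    (Nat.ble 737152 i))
   (Nat.ble 737024 i))
  (Nat.ble 736768 i))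
 (Nat.ble 736256 i))

/-- choice of a leaf -/
noncomputable def A0_360 (i : Nat) : Nat :=
 (Bool.rec (motive := fun _ => Nat)
 (Bool.rec (motive := fun _ => Nat)
  (Bool.rec (motive := fun _ => Nat)
   (Bool.rec (motive := fun _ => Nat)
    L5760
    L5761
    (Nat.ble 737408 i))
   (Bool.rec (motive := fun _ => Nat)
    L5762
    L5763
    (Nat.ble 737664 i))
   (Nat.ble 737536 i))
  (Bool.rec (motive := fun _ => Nat)
   (Bool.rec (motive := fun _ => Nat)
    L5764
    L5765
    (Nat.ble 737920 i))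
   (Bool.rec (motive := fun _ => Nat)
    L5766
    L5767
    (Nat.ble 738176 i))
   (Nat.ble 738048 i))
  (Nat.ble 737792 i))
 (Bool.rec (motive := fun _ => Nat)
  (Bool.rec (motive := fun _ => Nat)
   (Bool.rec (motive := fun _ => Nat)
    L5768
    L5769
    (Nat.ble 738432 i))
   (Bool.rec (motive := fun _ => Nat)
    L5770
    L5771
    (Nat.ble 738688 i))
   (Nat.ble 738560 i))
  (Bool.rec (motive := fun _ => Nat)
   (Bool.rec (motive := fun _ => Nat)
    L5772
    L5773
    (Nat.ble 738944 i))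
   (Bool.rec (motive := fun _ => Nat)
    L5774
    L5775
    (Nat.ble 739200 i))
   (Nat.ble 739072 i))
  (Nat.ble 738816 i))
 (Nat.ble 738304 i))

/-- choice of a leaf -/
noncomputable def A0_361 (i : Nat) : Nat :=
 (Bool.rec (motive := fun _ => Nat)
 (Bool.rec (motive := fun _ => Nat)
  (Bool.rec (motive := fun _ => Nat)
   (Bool.rec (motive := fun _ => Nat)
    L5776
    L5777
    (Nat.ble 739456 i))
   (Bool.rec (motive := fun _ => Nat)
    L5778
    L5779
    (Nat.ble 739712 i))
   (Nat.ble 739584 i))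
  (Bool.rec (motive := fun _ => Nat)
   (Bool.rec (motive := fun _ => Nat)
    L5780
    L5781
    (Nat.ble 739968 i))
   (Bool.rec (motive := fun _ => Nat)
    L5782
    L5783
    (Nat.ble 740224 i))
   (Nat.ble 740096 i))
  (Nat.ble 739840 i))
 (Bool.rec (motive := fun _ => Nat)
  (Bool.rec (motive := fun _ => Nat)
   (Bool.rec (motive := fun _ => Nat)
    L5784
    L5785
    (Nat.ble 740480 i))
   (Bool.rec (motive := fun _ => Nat)
    L5786
    L5787
    (Nat.ble 740736 i))
   (Nat.ble 740608 i))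
  (Bool.rec (motive := fun _ => Nat)
   (Bool.rec (motive := fun _ => Nat)
    L5788
    L5789
    (Nat.ble 740992 i))
   (Bool.rec (motive := fun _ => Nat)
    L5790
    L5791
    (Nat.ble 741248 i))
   (Nat.ble 741120 i))
  (Nat.ble 740864 i))
 (Nat.ble 740352 i))

/-- choice of a leaf -/
noncomputable def A0_362 (i : Nat) : Nat :=
 (Bool.rec (motive := fun _ => Nat)
 (Bool.rec (motive := fun _ => Nat)
  (Bool.rec (motive := fun _ => Nat)
   (Bool.rec (motive := fun _ => Nat)
    L5792
    L5793
    (Nat.ble 741504 i))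
   (Bool.rec (motive := fun _ => Nat)
    L5794
    L5795
    (Nat.ble 741760 i))
   (Nat.ble 741632 i))
  (Bool.rec (motive := fun _ => Nat)
   (Bool.rec (motive := fun _ => Nat)
    L5796
    L5797
    (Nat.ble 742016 i))
   (Bool.rec (motive := fun _ => Nat)
    L5798
    L5799
    (Nat.ble 742272 i))
   (Nat.ble 742144 i))
  (Nat.ble 741888 i))
 (Bool.rec (motive := fun _ => Nat)
  (Bool.rec (motive := fun _ => Nat)
   (Bool.rec (motive := fun _ => Nat)
    L5800
    L5801
    (Nat.ble 742528 i))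
   (Bool.rec (motive := fun _ => Nat)
    L5802
    L5803
    (Nat.ble 742784 i))
   (Nat.ble 742656 i))
  (Bool.rec (motive := fun _ => Nat)
   (Bool.rec (motive := fun _ => Nat)
    L5804
    L5805
    (Nat.ble 743040 i))
   (Bool.rec (motive := fun _ => Nat)
    L5806
    L5807
    (Nat.ble 743296 i))
   (Nat.ble 743168 i))
  (Nat.ble 742912 i))
 (Nat.ble 742400 i))

/-- choice of a leaf -/
noncomputable def A0_363 (i : Nat) : Nat :=
 (Bool.rec (motive := fun _ => Nat)
 (Bool.rec (motive := fun _ => Nat)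
  (Bool.rec (motive := fun _ => Nat)
   (Bool.rec (motive := fun _ => Nat)
    L5808
    L5809
    (Nat.ble 743552 i))
   (Bool.rec (motive := fun _ => Nat)
    L5810
    L5811
    (Nat.ble 743808 i))
   (Nat.ble 743680 i))
  (Bool.rec (motive := fun _ => Nat)
   (Bool.rec (motive := fun _ => Nat)
    L5812
    L5813
    (Nat.ble 744064 i))
   (Bool.rec (motive := fun _ => Nat)
    L5814
    L5815
    (Nat.ble 744320 i))
   (Nat.ble 744192 i))
  (Nat.ble 743936 i))
 (Bool.rec (motive := fun _ => Nat)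
  (Bool.rec (motive := fun _ => Nat)
   (Bool.rec (motive := fun _ => Nat)
    L5816
    L5817
    (Nat.ble 744576 i))
   (Bool.rec (motive := fun _ => Nat)
    L5818
    L5819
    (Nat.ble 744832 i))
   (Nat.ble 744704 i))
  (Bool.rec (motive := fun _ => Nat)
   (Bool.rec (motive := fun _ => Nat)
    L5820
    L5821
    (Nat.ble 745088 i))
   (Bool.rec (motive := fun _ => Nat)
    L5822
    L5823
    (Nat.ble 745344 i))
   (Nat.ble 745216 i))
  (Nat.ble 744960 i))
 (Nat.ble 744448 i))

/-- choice of a leaf -/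
noncomputable def A0_364 (i : Nat) : Nat :=
 (Bool.rec (motive := fun _ => Nat)
 (Bool.rec (motive := fun _ => Nat)
  (Bool.rec (motive := fun _ => Nat)
   (Bool.rec (motive := fun _ => Nat)
    L5824
    L5825
    (Nat.ble 745600 i))
   (Bool.rec (motive := fun _ => Nat)
    L5826
    L5827
    (Nat.ble 745856 i))
   (Nat.ble 745728 i))
  (Bool.rec (motive := fun _ => Nat)
   (Bool.rec (motive := fun _ => Nat)
    L5828
    L5829
    (Nat.ble 746112 i))
   (Bool.rec (motive := fun _ => Nat)
    L5830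
    L5831
    (Nat.ble 746368 i))
   (Nat.ble 746240 i))
  (Nat.ble 745984 i))
 (Bool.rec (motive := fun _ => Nat)
  (Bool.rec (motive := fun _ => Nat)
   (Bool.rec (motive := fun _ => Nat)
    L5832
    L5833
    (Nat.ble 746624 i))
   (Bool.rec (motive := fun _ => Nat)
    L5834
    L5835
    (Nat.ble 746880 i))
   (Nat.ble 746752 i))
  (Bool.rec (motive := fun _ => Nat)
   (Bool.rec (motive := fun _ => Nat)
    L5836
    L5837
    (Nat.ble 747136 i))
   (Bool.rec (motive := fun _ => Nat)
    L5838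
    L5839
    (Nat.ble 747392 i))
   (Nat.ble 747264 i))
  (Nat.ble 747008 i))
 (Nat.ble 746496 i))

/-- choice of a leaf -/
noncomputable def A0_365 (i : Nat) : Nat :=
 (Bool.rec (motive := fun _ => Nat)
 (Bool.rec (motive := fun _ => Nat)
  (Bool.rec (motive := fun _ => Nat)
   (Bool.rec (motive := fun _ => Nat)
    L5840
    L5841
    (Nat.ble 747648 i))
   (Bool.rec (motive := fun _ => Nat)
    L5842
    L5843
    (Nat.ble 747904 i))
   (Nat.ble 747776 i))
  (Bool.rec (motive := fun _ => Nat)
   (Bool.rec (motive := fun _ => Nat)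
    L5844
    L5845
    (Nat.ble 748160 i))
   (Bool.rec (motive := fun _ => Nat)
    L5846
    L5847
    (Nat.ble 748416 i))
   (Nat.ble 748288 i))
  (Nat.ble 748032 i))
 (Bool.rec (motive := fun _ => Nat)
  (Bool.rec (motive := fun _ => Nat)
   (Bool.rec (motive := fun _ => Nat)
    L5848
    L5849
    (Nat.ble 748672 i))
   (Bool.rec (motive := fun _ => Nat)
    L5850
    L5851
    (Nat.ble 748928 i))
   (Nat.ble 748800 i))
  (Bool.rec (motive := fun _ => Nat)
   (Bool.rec (motive := fun _ => Nat)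
    L5852
    L5853
    (Nat.ble 749184 i))
   (Bool.rec (motive := fun _ => Nat)
    L5854
    L5855
    (Nat.ble 749440 i))
   (Nat.ble 749312 i))
  (Nat.ble 749056 i))
 (Nat.ble 748544 i))

/-- choice of a leaf -/
noncomputable def A0_366 (i : Nat) : Nat :=
 (Bool.rec (motive := fun _ => Nat)
 (Bool.rec (motive := fun _ => Nat)
  (Bool.rec (motive := fun _ => Nat)
   (Bool.rec (motive := fun _ => Nat)
    L5856
    L5857
    (Nat.ble 749696 i))
   (Bool.rec (motive := fun _ => Nat)
    L5858
    L5859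
    (Nat.ble 749952 i))
   (Nat.ble 749824 i))
  (Bool.rec (motive := fun _ => Nat)
   (Bool.rec (motive := fun _ => Nat)
    L5860
    L5861
    (Nat.ble 750208 i))
   (Bool.rec (motive := fun _ => Nat)
    L5862
    L5863
    (Nat.ble 750464 i))
   (Nat.ble 750336 i))
  (Nat.ble 750080 i))
 (Bool.rec (motive := fun _ => Nat)
  (Bool.rec (motive := fun _ => Nat)
   (Bool.rec (motive := fun _ => Nat)
    L5864
    L5865
    (Nat.ble 750720 i))
   (Bool.rec (motive := fun _ => Nat)
    L5866
    L5867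
    (Nat.ble 750976 i))
   (Nat.ble 750848 i))
  (Bool.rec (motive := fun _ => Nat)
   (Bool.rec (motive := fun _ => Nat)
    L5868
    L5869
    (Nat.ble 751232 i))
   (Bool.rec (motive := fun _ => Nat)
    L5870
    L5871
    (Nat.ble 751488 i))
   (Nat.ble 751360 i))
  (Nat.ble 751104 i))
 (Nat.ble 750592 i))

/-- choice of a leaf -/
noncomputable def A0_367 (i : Nat) : Nat :=
 (Bool.rec (motive := fun _ => Nat)
 (Bool.rec (motive := fun _ => Nat)
  (Bool.rec (motive := fun _ => Nat)
   (Bool.rec (motive := fun _ => Nat)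
    L5872
    L5873
    (Nat.ble 751744 i))
   (Bool.rec (motive := fun _ => Nat)
    L5874
    L5875
    (Nat.ble 752000 i))
   (Nat.ble 751872 i))
  (Bool.rec (motive := fun _ => Nat)
   (Bool.rec (motive := fun _ => Nat)
    L5876
    L5877
    (Nat.ble 752256 i))
   (Bool.rec (motive := fun _ => Nat)
    L5878
    L5879
    (Nat.ble 752512 i))
   (Nat.ble 752384 i))
  (Nat.ble 752128 i))
 (Bool.rec (motive := fun _ => Nat)
  (Bool.rec (motive := fun _ => Nat)
   (Bool.rec (motive := fun _ => Nat)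
    L5880
    L5881
    (Nat.ble 752768 i))
   (Bool.rec (motive := fun _ => Nat)
    L5882
    L5883
    (Nat.ble 753024 i))
   (Nat.ble 752896 i))
  (Bool.rec (motive := fun _ => Nat)
   (Bool.rec (motive := fun _ => Nat)
    L5884
    L5885
    (Nat.ble 753280 i))
   (Bool.rec (motive := fun _ => Nat)
    L5886
    L5887
    (Nat.ble 753536 i))
   (Nat.ble 753408 i))
  (Nat.ble 753152 i))
 (Nat.ble 752640 i))

/-- choice of a leaf -/
noncomputable def A0_368 (i : Nat) : Nat :=
 (Bool.rec (motive := fun _ => Nat)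
 (Bool.rec (motive := fun _ => Nat)
  (Bool.rec (motive := fun _ => Nat)
   (Bool.rec (motive := fun _ => Nat)
    L5888
    L5889
    (Nat.ble 753792 i))
   (Bool.rec (motive := fun _ => Nat)
    L5890
    L5891
    (Nat.ble 754048 i))
   (Nat.ble 753920 i))
  (Bool.rec (motive := fun _ => Nat)
   (Bool.rec (motive := fun _ => Nat)
    L5892
    L5893
    (Nat.ble 754304 i))
   (Bool.rec (motive := fun _ => Nat)
    L5894
    L5895
    (Nat.ble 754560 i))
   (Nat.ble 754432 i))
  (Nat.ble 754176 i))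
 (Bool.rec (motive := fun _ => Nat)
  (Bool.rec (motive := fun _ => Nat)
   (Bool.rec (motive := fun _ => Nat)
    L5896
    L5897
    (Nat.ble 754816 i))
   (Bool.rec (motive := fun _ => Nat)
    L5898
    L5899
    (Nat.ble 755072 i))
   (Nat.ble 754944 i))
  (Bool.rec (motive := fun _ => Nat)
   (Bool.rec (motive := fun _ => Nat)
    L5900
    L5901
    (Nat.ble 755328 i))
   (Bool.rec (motive := fun _ => Nat)
    L5902
    L5903
    (Nat.ble 755584 i))
   (Nat.ble 755456 i))
  (Nat.ble 755200 i))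
 (Nat.ble 754688 i))

/-- choice of a leaf -/
noncomputable def A0_369 (i : Nat) : Nat :=
 (Bool.rec (motive := fun _ => Nat)
 (Bool.rec (motive := fun _ => Nat)
  (Bool.rec (motive := fun _ => Nat)
   (Bool.rec (motive := fun _ => Nat)
    L5904
    L5905
    (Nat.ble 755840 i))
   (Bool.rec (motive := fun _ => Nat)
    L5906
    L5907
    (Nat.ble 756096 i))
   (Nat.ble 755968 i))
  (Bool.rec (motive := fun _ => Nat)
   (Bool.rec (motive := fun _ => Nat)
    L5908
    L5909
    (Nat.ble 756352 i))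
   (Bool.rec (motive := fun _ => Nat)
    L5910
    L5911
    (Nat.ble 756608 i))
   (Nat.ble 756480 i))
  (Nat.ble 756224 i))
 (Bool.rec (motive := fun _ => Nat)
  (Bool.rec (motive := fun _ => Nat)
   (Bool.rec (motive := fun _ => Nat)
    L5912
    L5913
    (Nat.ble 756864 i))
   (Bool.rec (motive := fun _ => Nat)
    L5914
    L5915
    (Nat.ble 757120 i))
   (Nat.ble 756992 i))
  (Bool.rec (motive := fun _ => Nat)
   (Bool.rec (motive := fun _ => Nat)
    L5916
    L5917
    (Nat.ble 757376 i))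
   (Bool.rec (motive := fun _ => Nat)
    L5918
    L5919
    (Nat.ble 757632 i))
   (Nat.ble 757504 i))
  (Nat.ble 757248 i))
 (Nat.ble 756736 i))

/-- choice of a leaf -/
noncomputable def A0_370 (i : Nat) : Nat :=
 (Bool.rec (motive := fun _ => Nat)
 (Bool.rec (motive := fun _ => Nat)
  (Bool.rec (motive := fun _ => Nat)
   (Bool.rec (motive := fun _ => Nat)
    L5920
    L5921
    (Nat.ble 757888 i))
   (Bool.rec (motive := fun _ => Nat)
    L5922
    L5923
    (Nat.ble 758144 i))
   (Nat.ble 758016 i))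
  (Bool.rec (motive := fun _ => Nat)
   (Bool.rec (motive := fun _ => Nat)
    L5924
    L5925
    (Nat.ble 758400 i))
   (Bool.rec (motive := fun _ => Nat)
    L5926
    L5927
    (Nat.ble 758656 i))
   (Nat.ble 758528 i))
  (Nat.ble 758272 i))
 (Bool.rec (motive := fun _ => Nat)
  (Bool.rec (motive := fun _ => Nat)
   (Bool.rec (motive := fun _ => Nat)
    L5928
    L5929
    (Nat.ble 758912 i))
   (Bool.rec (motive := fun _ => Nat)
    L5930
    L5931
    (Nat.ble 759168 i))
   (Nat.ble 759040 i))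
  (Bool.rec (motive := fun _ => Nat)
   (Bool.rec (motive := fun _ => Nat)
    L5932
    L5933
    (Nat.ble 759424 i))
   (Bool.rec (motive := fun _ => Nat)
    L5934
    L5935
    (Nat.ble 759680 i))
   (Nat.ble 759552 i))
  (Nat.ble 759296 i))
 (Nat.ble 758784 i))

/-- choice of a leaf -/
noncomputable def A0_371 (i : Nat) : Nat :=
 (Bool.rec (motive := fun _ => Nat)
 (Bool.rec (motive := fun _ => Nat)
  (Bool.rec (motive := fun _ => Nat)
   (Bool.rec (motive := fun _ => Nat)
    L5936
    L5937
    (Nat.ble 759936 i))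
   (Bool.rec (motive := fun _ => Nat)
    L5938
    L5939
    (Nat.ble 760192 i))
   (Nat.ble 760064 i))
  (Bool.rec (motive := fun _ => Nat)
   (Bool.rec (motive := fun _ => Nat)
    L5940
    L5941
    (Nat.ble 760448 i))
   (Bool.rec (motive := fun _ => Nat)
    L5942
    L5943
    (Nat.ble 760704 i))
   (Nat.ble 760576 i))
  (Nat.ble 760320 i))
 (Bool.rec (motive := fun _ => Nat)
  (Bool.rec (motive := fun _ => Nat)
   (Bool.rec (motive := fun _ => Nat)
    L5944
    L5945
    (Nat.ble 760960 i))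
   (Bool.rec (motive := fun _ => Nat)
    L5946
    L5947
    (Nat.ble 761216 i))
   (Nat.ble 761088 i))
  (Bool.rec (motive := fun _ => Nat)
   (Bool.rec (motive := fun _ => Nat)
    L5948
    L5949
    (Nat.ble 761472 i))
   (Bool.rec (motive := fun _ => Nat)
    L5950
    L5951
    (Nat.ble 761728 i))
   (Nat.ble 761600 i))
  (Nat.ble 761344 i))
 (Nat.ble 760832 i))

/-- choice of a leaf -/
noncomputable def A0_372 (i : Nat) : Nat :=
 (Bool.rec (motive := fun _ => Nat)
 (Bool.rec (motive := fun _ => Nat)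
  (Bool.rec (motive := fun _ => Nat)
   (Bool.rec (motive := fun _ => Nat)
    L5952
    L5953
    (Nat.ble 761984 i))
   (Bool.rec (motive := fun _ => Nat)
    L5954
    L5955
    (Nat.ble 762240 i))
   (Nat.ble 762112 i))
  (Bool.rec (motive := fun _ => Nat)
   (Bool.rec (motive := fun _ => Nat)
    L5956
    L5957
    (Nat.ble 762496 i))
   (Bool.rec (motive := fun _ => Nat)
    L5958
    L5959
    (Nat.ble 762752 i))
   (Nat.ble 762624 i))
  (Nat.ble 762368 i))
 (Bool.rec (motive := fun _ => Nat)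
  (Bool.rec (motive := fun _ => Nat)
   (Bool.rec (motive := fun _ => Nat)
    L5960
    L5961
    (Nat.ble 763008 i))
   (Bool.rec (motive := fun _ => Nat)
    L5962
    L5963
    (Nat.ble 763264 i))
   (Nat.ble 763136 i))
  (Bool.rec (motive := fun _ => Nat)
   (Bool.rec (motive := fun _ => Nat)
    L5964
    L5965
    (Nat.ble 763520 i))
   (Bool.rec (motive := fun _ => Nat)
    L5966
    L5967
    (Nat.ble 763776 i))
   (Nat.ble 763648 i))
  (Nat.ble 763392 i))
 (Nat.ble 762880 i))

/-- choice of a leaf -/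
noncomputable def A0_373 (i : Nat) : Nat :=
 (Bool.rec (motive := fun _ => Nat)
 (Bool.rec (motive := fun _ => Nat)
  (Bool.rec (motive := fun _ => Nat)
   (Bool.rec (motive := fun _ => Nat)
    L5968
    L5969
    (Nat.ble 764032 i))
   (Bool.rec (motive := fun _ => Nat)
    L5970
    L5971
    (Nat.ble 764288 i))
   (Nat.ble 764160 i))
  (Bool.rec (motive := fun _ => Nat)
   (Bool.rec (motive := fun _ => Nat)
    L5972
    L5973
    (Nat.ble 764544 i))
   (Bool.rec (motive := fun _ => Nat)
    L5974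
    L5975
    (Nat.ble 764800 i))
   (Nat.ble 764672 i))
  (Nat.ble 764416 i))
 (Bool.rec (motive := fun _ => Nat)
  (Bool.rec (motive := fun _ => Nat)
   (Bool.rec (motive := fun _ => Nat)
    L5976
    L5977
    (Nat.ble 765056 i))
   (Bool.rec (motive := fun _ => Nat)
    L5978
    L5979
    (Nat.ble 765312 i))
   (Nat.ble 765184 i))
  (Bool.rec (motive := fun _ => Nat)
   (Bool.rec (motive := fun _ => Nat)
    L5980
    L5981
    (Nat.ble 765568 i))
   (Bool.rec (motive := fun _ => Nat)
    L5982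
    L5983
    (Nat.ble 765824 i))
   (Nat.ble 765696 i))
  (Nat.ble 765440 i))
 (Nat.ble 764928 i))

/-- choice of a leaf -/
noncomputable def A0_374 (i : Nat) : Nat :=
 (Bool.rec (motive := fun _ => Nat)
 (Bool.rec (motive := fun _ => Nat)
  (Bool.rec (motive := fun _ => Nat)
   (Bool.rec (motive := fun _ => Nat)
    L5984
    L5985
    (Nat.ble 766080 i))
   (Bool.rec (motive := fun _ => Nat)
    L5986
    L5987
    (Nat.ble 766336 i))
   (Nat.ble 766208 i))
  (Bool.rec (motive := fun _ => Nat)
   (Bool.rec (motive := fun _ => Nat)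
    L5988
    L5989
    (Nat.ble 766592 i))
   (Bool.rec (motive := fun _ => Nat)
    L5990
    L5991
    (Nat.ble 766848 i))
   (Nat.ble 766720 i))
  (Nat.ble 766464 i))
 (Bool.rec (motive := fun _ => Nat)
  (Bool.rec (motive := fun _ => Nat)
   (Bool.rec (motive := fun _ => Nat)
    L5992
    L5993
    (Nat.ble 767104 i))
   (Bool.rec (motive := fun _ => Nat)
    L5994
    L5995
    (Nat.ble 767360 i))
   (Nat.ble 767232 i))
  (Bool.rec (motive := fun _ => Nat)
   (Bool.rec (motive := fun _ => Nat)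
    L5996
    L5997
    (Nat.ble 767616 i))
   (Bool.rec (motive := fun _ => Nat)
    L5998
    L5999
    (Nat.ble 767872 i))
   (Nat.ble 767744 i))
  (Nat.ble 767488 i))
 (Nat.ble 766976 i))

/-- choice of a leaf -/
noncomputable def A0_375 (i : Nat) : Nat :=
 (Bool.rec (motive := fun _ => Nat)
 (Bool.rec (motive := fun _ => Nat)
  (Bool.rec (motive := fun _ => Nat)
   (Bool.rec (motive := fun _ => Nat)
    L6000
    L6001
    (Nat.ble 768128 i))
   (Bool.rec (motive := fun _ => Nat)
    L6002
    L6003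
    (Nat.ble 768384 i))
   (Nat.ble 768256 i))
  (Bool.rec (motive := fun _ => Nat)
   (Bool.rec (motive := fun _ => Nat)
    L6004
    L6005
    (Nat.ble 768640 i))
   (Bool.rec (motive := fun _ => Nat)
    L6006
    L6007
    (Nat.ble 768896 i))
   (Nat.ble 768768 i))
  (Nat.ble 768512 i))
 (Bool.rec (motive := fun _ => Nat)
  (Bool.rec (motive := fun _ => Nat)
   (Bool.rec (motive := fun _ => Nat)
    L6008
    L6009
    (Nat.ble 769152 i))
   (Bool.rec (motive := fun _ => Nat)
    L6010
    L6011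
    (Nat.ble 769408 i))
   (Nat.ble 769280 i))
  (Bool.rec (motive := fun _ => Nat)
   (Bool.rec (motive := fun _ => Nat)
    L6012
    L6013
    (Nat.ble 769664 i))
   (Bool.rec (motive := fun _ => Nat)
    L6014
    L6015
    (Nat.ble 769920 i))
   (Nat.ble 769792 i))
  (Nat.ble 769536 i))
 (Nat.ble 769024 i))

/-- choice of a leaf -/
noncomputable def A0_376 (i : Nat) : Nat :=
 (Bool.rec (motive := fun _ => Nat)
 (Bool.rec (motive := fun _ => Nat)
  (Bool.rec (motive := fun _ => Nat)
   (Bool.rec (motive := fun _ => Nat)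
    L6016
    L6017
    (Nat.ble 770176 i))
   (Bool.rec (motive := fun _ => Nat)
    L6018
    L6019
    (Nat.ble 770432 i))
   (Nat.ble 770304 i))
  (Bool.rec (motive := fun _ => Nat)
   (Bool.rec (motive := fun _ => Nat)
    L6020
    L6021
    (Nat.ble 770688 i))
   (Bool.rec (motive := fun _ => Nat)
    L6022
    L6023
    (Nat.ble 770944 i))
   (Nat.ble 770816 i))
  (Nat.ble 770560 i))
 (Bool.rec (motive := fun _ => Nat)
  (Bool.rec (motive := fun _ => Nat)
   (Bool.rec (motive := fun _ => Nat)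
    L6024
    L6025
    (Nat.ble 771200 i))
   (Bool.rec (motive := fun _ => Nat)
    L6026
    L6027
    (Nat.ble 771456 i))
   (Nat.ble 771328 i))
  (Bool.rec (motive := fun _ => Nat)
   (Bool.rec (motive := fun _ => Nat)
    L6028
    L6029
    (Nat.ble 771712 i))
   (Bool.rec (motive := fun _ => Nat)
    L6030
    L6031
    (Nat.ble 771968 i))
   (Nat.ble 771840 i))
  (Nat.ble 771584 i))
 (Nat.ble 771072 i))

/-- choice of a leaf -/
noncomputable def A0_377 (i : Nat) : Nat :=
 (Bool.rec (motive := fun _ => Nat)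
 (Bool.rec (motive := fun _ => Nat)
  (Bool.rec (motive := fun _ => Nat)
   (Bool.rec (motive := fun _ => Nat)
    L6032
    L6033
    (Nat.ble 772224 i))
   (Bool.rec (motive := fun _ => Nat)
    L6034
    L6035
    (Nat.ble 772480 i))
   (Nat.ble 772352 i))
  (Bool.rec (motive := fun _ => Nat)
   (Bool.rec (motive := fun _ => Nat)
    L6036
    L6037
    (Nat.ble 772736 i))
   (Bool.rec (motive := fun _ => Nat)
    L6038
    L6039
    (Nat.ble 772992 i))
   (Nat.ble 772864 i))
  (Nat.ble 772608 i))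
 (Bool.rec (motive := fun _ => Nat)
  (Bool.rec (motive := fun _ => Nat)
   (Bool.rec (motive := fun _ => Nat)
    L6040
    L6041
    (Nat.ble 773248 i))
   (Bool.rec (motive := fun _ => Nat)
    L6042
    L6043
    (Nat.ble 773504 i))
   (Nat.ble 773376 i))
  (Bool.rec (motive := fun _ => Nat)
   (Bool.rec (motive := fun _ => Nat)
    L6044
    L6045
    (Nat.ble 773760 i))
   (Bool.rec (motive := fun _ => Nat)
    L6046
    L6047
    (Nat.ble 774016 i))
   (Nat.ble 773888 i))
  (Nat.ble 773632 i))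
 (Nat.ble 773120 i))

/-- choice of a leaf -/
noncomputable def A0_378 (i : Nat) : Nat :=
 (Bool.rec (motive := fun _ => Nat)
 (Bool.rec (motive := fun _ => Nat)
  (Bool.rec (motive := fun _ => Nat)
   (Bool.rec (motive := fun _ => Nat)
    L6048
    L6049
    (Nat.ble 774272 i))
   (Bool.rec (motive := fun _ => Nat)
    L6050
    L6051
    (Nat.ble 774528 i))
   (Nat.ble 774400 i))
  (Bool.rec (motive := fun _ => Nat)
   (Bool.rec (motive := fun _ => Nat)
    L6052
    L6053
    (Nat.ble 774784 i))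
   (Bool.rec (motive := fun _ => Nat)
    L6054
    L6055
    (Nat.ble 775040 i))
   (Nat.ble 774912 i))
  (Nat.ble 774656 i))
 (Bool.rec (motive := fun _ => Nat)
  (Bool.rec (motive := fun _ => Nat)
   (Bool.rec (motive := fun _ => Nat)
    L6056
    L6057
    (Nat.ble 775296 i))
   (Bool.rec (motive := fun _ => Nat)
    L6058
    L6059
    (Nat.ble 775552 i))
   (Nat.ble 775424 i))
  (Bool.rec (motive := fun _ => Nat)
   (Bool.rec (motive := fun _ => Nat)
    L6060
    L6061
    (Nat.ble 775808 i))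
   (Bool.rec (motive := fun _ => Nat)
    L6062
    L6063
    (Nat.ble 776064 i))
   (Nat.ble 775936 i))
  (Nat.ble 775680 i))
 (Nat.ble 775168 i))

/-- choice of a leaf -/
noncomputable def A0_379 (i : Nat) : Nat :=
 (Bool.rec (motive := fun _ => Nat)
 (Bool.rec (motive := fun _ => Nat)
  (Bool.rec (motive := fun _ => Nat)
   (Bool.rec (motive := fun _ => Nat)
    L6064
    L6065
    (Nat.ble 776320 i))
   (Bool.rec (motive := fun _ => Nat)
    L6066
    L6067
    (Nat.ble 776576 i))
   (Nat.ble 776448 i))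
  (Bool.rec (motive := fun _ => Nat)
   (Bool.rec (motive := fun _ => Nat)
    L6068
    L6069
    (Nat.ble 776832 i))
   (Bool.rec (motive := fun _ => Nat)
    L6070
    L6071
    (Nat.ble 777088 i))
   (Nat.ble 776960 i))
  (Nat.ble 776704 i))
 (Bool.rec (motive := fun _ => Nat)
  (Bool.rec (motive := fun _ => Nat)
   (Bool.rec (motive := fun _ => Nat)
    L6072
    L6073
    (Nat.ble 777344 i))
   (Bool.rec (motive := fun _ => Nat)
    L6074
    L6075
    (Nat.ble 777600 i))
   (Nat.ble 777472 i))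
  (Bool.rec (motive := fun _ => Nat)
   (Bool.rec (motive := fun _ => Nat)
    L6076
    L6077
    (Nat.ble 777856 i))
   (Bool.rec (motive := fun _ => Nat)
    L6078
    L6079
    (Nat.ble 778112 i))
   (Nat.ble 777984 i))
  (Nat.ble 777728 i))
 (Nat.ble 777216 i))

/-- choice of a leaf -/
noncomputable def A0_380 (i : Nat) : Nat :=
 (Bool.rec (motive := fun _ => Nat)
 (Bool.rec (motive := fun _ => Nat)
  (Bool.rec (motive := fun _ => Nat)
   (Bool.rec (motive := fun _ => Nat)
    L6080
    L6081
    (Nat.ble 778368 i))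
   (Bool.rec (motive := fun _ => Nat)
    L6082
    L6083
    (Nat.ble 778624 i))
   (Nat.ble 778496 i))
  (Bool.rec (motive := fun _ => Nat)
   (Bool.rec (motive := fun _ => Nat)
    L6084
    L6085
    (Nat.ble 778880 i))
   (Bool.rec (motive := fun _ => Nat)
    L6086
    L6087
    (Nat.ble 779136 i))
   (Nat.ble 779008 i))
  (Nat.ble 778752 i))
 (Bool.rec (motive := fun _ => Nat)
  (Bool.rec (motive := fun _ => Nat)
   (Bool.rec (motive := fun _ => Nat)
    L6088
    L6089
    (Nat.ble 779392 i))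
   (Bool.rec (motive := fun _ => Nat)
    L6090
    L6091
    (Nat.ble 779648 i))
   (Nat.ble 779520 i))
  (Bool.rec (motive := fun _ => Nat)
   (Bool.rec (motive := fun _ => Nat)
    L6092
    L6093
    (Nat.ble 779904 i))
   (Bool.rec (motive := fun _ => Nat)
    L6094
    L6095
    (Nat.ble 780160 i))
   (Nat.ble 780032 i))
  (Nat.ble 779776 i))
 (Nat.ble 779264 i))

/-- choice of a leaf -/
noncomputable def A0_381 (i : Nat) : Nat :=
 (Bool.rec (motive := fun _ => Nat)
 (Bool.rec (motive := fun _ => Nat)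
  (Bool.rec (motive := fun _ => Nat)
   (Bool.rec (motive := fun _ => Nat)
    L6096
    L6097
    (Nat.ble 780416 i))
   (Bool.rec (motive := fun _ => Nat)
    L6098
    L6099
    (Nat.ble 780672 i))
   (Nat.ble 780544 i))
  (Bool.rec (motive := fun _ => Nat)
   (Bool.rec (motive := fun _ => Nat)
    L6100
    L6101
    (Nat.ble 780928 i))
   (Bool.rec (motive := fun _ => Nat)
    L6102
    L6103
    (Nat.ble 781184 i))
   (Nat.ble 781056 i))
  (Nat.ble 780800 i))
 (Bool.rec (motive := fun _ => Nat)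
  (Bool.rec (motive := fun _ => Nat)
   (Bool.rec (motive := fun _ => Nat)
    L6104
    L6105
    (Nat.ble 781440 i))
   (Bool.rec (motive := fun _ => Nat)
    L6106
    L6107
    (Nat.ble 781696 i))
   (Nat.ble 781568 i))
  (Bool.rec (motive := fun _ => Nat)
   (Bool.rec (motive := fun _ => Nat)
    L6108
    L6109
    (Nat.ble 781952 i))
   (Bool.rec (motive := fun _ => Nat)
    L6110
    L6111
    (Nat.ble 782208 i))
   (Nat.ble 782080 i))
  (Nat.ble 781824 i))
 (Nat.ble 781312 i))

/-- choice of a leaf -/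
noncomputable def A0_382 (i : Nat) : Nat :=
 (Bool.rec (motive := fun _ => Nat)
 (Bool.rec (motive := fun _ => Nat)
  (Bool.rec (motive := fun _ => Nat)
   (Bool.rec (motive := fun _ => Nat)
    L6112
    L6113
    (Nat.ble 782464 i))
   (Bool.rec (motive := fun _ => Nat)
    L6114
    L6115
    (Nat.ble 782720 i))
   (Nat.ble 782592 i))
  (Bool.rec (motive := fun _ => Nat)
   (Bool.rec (motive := fun _ => Nat)
    L6116
    L6117
    (Nat.ble 782976 i))
   (Bool.rec (motive := fun _ => Nat)
    L6118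
    L6119
    (Nat.ble 783232 i))
   (Nat.ble 783104 i))
  (Nat.ble 782848 i))
 (Bool.rec (motive := fun _ => Nat)
  (Bool.rec (motive := fun _ => Nat)
   (Bool.rec (motive := fun _ => Nat)
    L6120
    L6121
    (Nat.ble 783488 i))
   (Bool.rec (motive := fun _ => Nat)
    L6122
    L6123
    (Nat.ble 783744 i))
   (Nat.ble 783616 i))
  (Bool.rec (motive := fun _ => Nat)
   (Bool.rec (motive := fun _ => Nat)
    L6124
    L6125
    (Nat.ble 784000 i))
   (Bool.rec (motive := fun _ => Nat)
    L6126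
    L6127
    (Nat.ble 784256 i))
   (Nat.ble 784128 i))
  (Nat.ble 783872 i))
 (Nat.ble 783360 i))

/-- choice of a leaf -/
noncomputable def A0_383 (i : Nat) : Nat :=
 (Bool.rec (motive := fun _ => Nat)
 (Bool.rec (motive := fun _ => Nat)
  (Bool.rec (motive := fun _ => Nat)
   (Bool.rec (motive := fun _ => Nat)
    L6128
    L6129
    (Nat.ble 784512 i))
   (Bool.rec (motive := fun _ => Nat)
    L6130
    L6131
    (Nat.ble 784768 i))
   (Nat.ble 784640 i))
  (Bool.rec (motive := fun _ => Nat)
   (Bool.rec (motive := fun _ => Nat)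
    L6132
    L6133
    (Nat.ble 785024 i))
   (Bool.rec (motive := fun _ => Nat)
    L6134
    L6135
    (Nat.ble 785280 i))
   (Nat.ble 785152 i))
  (Nat.ble 784896 i))
 (Bool.rec (motive := fun _ => Nat)
  (Bool.rec (motive := fun _ => Nat)
   (Bool.rec (motive := fun _ => Nat)
    L6136
    L6137
    (Nat.ble 785536 i))
   (Bool.rec (motive := fun _ => Nat)
    L6138
    L6139
    (Nat.ble 785792 i))
   (Nat.ble 785664 i))
  (Bool.rec (motive := fun _ => Nat)
   (Bool.rec (motive := fun _ => Nat)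
    L6140
    L6141
    (Nat.ble 786048 i))
   (Bool.rec (motive := fun _ => Nat)
    L6142
    L6143
    (Nat.ble 786304 i))
   (Nat.ble 786176 i))
  (Nat.ble 785920 i))
 (Nat.ble 785408 i))

/-- choice of a leaf -/
noncomputable def A0_384 (i : Nat) : Nat :=
 (Bool.rec (motive := fun _ => Nat)
 (Bool.rec (motive := fun _ => Nat)
  (Bool.rec (motive := fun _ => Nat)
   (Bool.rec (motive := fun _ => Nat)
    L6144
    L6145
    (Nat.ble 786560 i))
   (Bool.rec (motive := fun _ => Nat)
    L6146
    L6147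
    (Nat.ble 786816 i))
   (Nat.ble 786688 i))
  (Bool.rec (motive := fun _ => Nat)
   (Bool.rec (motive := fun _ => Nat)
    L6148
    L6149
    (Nat.ble 787072 i))
   (Bool.rec (motive := fun _ => Nat)
    L6150
    L6151
    (Nat.ble 787328 i))
   (Nat.ble 787200 i))
  (Nat.ble 786944 i))
 (Bool.rec (motive := fun _ => Nat)
  (Bool.rec (motive := fun _ => Nat)
   (Bool.rec (motive := fun _ => Nat)
    L6152
    L6153
    (Nat.ble 787584 i))
   (Bool.rec (motive := fun _ => Nat)
    L6154
    L6155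
    (Nat.ble 787840 i))
   (Nat.ble 787712 i))
  (Bool.rec (motive := fun _ => Nat)
   (Bool.rec (motive := fun _ => Nat)
    L6156
    L6157
    (Nat.ble 788096 i))
   (Bool.rec (motive := fun _ => Nat)
    L6158
    L6159
    (Nat.ble 788352 i))
   (Nat.ble 788224 i))
  (Nat.ble 787968 i))
 (Nat.ble 787456 i))

/-- choice of a leaf -/
noncomputable def A0_385 (i : Nat) : Nat :=
 (Bool.rec (motive := fun _ => Nat)
 (Bool.rec (motive := fun _ => Nat)
  (Bool.rec (motive := fun _ => Nat)
   (Bool.rec (motive := fun _ => Nat)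
    L6160
    L6161
    (Nat.ble 788608 i))
   (Bool.rec (motive := fun _ => Nat)
    L6162
    L6163
    (Nat.ble 788864 i))
   (Nat.ble 788736 i))
  (Bool.rec (motive := fun _ => Nat)
   (Bool.rec (motive := fun _ => Nat)
    L6164
    L6165
    (Nat.ble 789120 i))
   (Bool.rec (motive := fun _ => Nat)
    L6166
    L6167
    (Nat.ble 789376 i))
   (Nat.ble 789248 i))
  (Nat.ble 788992 i))
 (Bool.rec (motive := fun _ => Nat)
  (Bool.rec (motive := fun _ => Nat)
   (Bool.rec (motive := fun _ => Nat)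
    L6168
    L6169
    (Nat.ble 789632 i))
   (Bool.rec (motive := fun _ => Nat)
    L6170
    L6171
    (Nat.ble 789888 i))
   (Nat.ble 789760 i))
  (Bool.rec (motive := fun _ => Nat)
   (Bool.rec (motive := fun _ => Nat)
    L6172
    L6173
    (Nat.ble 790144 i))
   (Bool.rec (motive := fun _ => Nat)
    L6174
    L6175
    (Nat.ble 790400 i))
   (Nat.ble 790272 i))
  (Nat.ble 790016 i))
 (Nat.ble 789504 i))

/-- choice of a leaf -/
noncomputable def A0_386 (i : Nat) : Nat :=
 (Bool.rec (motive := fun _ => Nat)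
 (Bool.rec (motive := fun _ => Nat)
  (Bool.rec (motive := fun _ => Nat)
   (Bool.rec (motive := fun _ => Nat)
    L6176
    L6177
    (Nat.ble 790656 i))
   (Bool.rec (motive := fun _ => Nat)
    L6178
    L6179
    (Nat.ble 790912 i))
   (Nat.ble 790784 i))
  (Bool.rec (motive := fun _ => Nat)
   (Bool.rec (motive := fun _ => Nat)
    L6180
    L6181
    (Nat.ble 791168 i))
   (Bool.rec (motive := fun _ => Nat)
    L6182
    L6183
    (Nat.ble 791424 i))
   (Nat.ble 791296 i))
  (Nat.ble 791040 i))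
 (Bool.rec (motive := fun _ => Nat)
  (Bool.rec (motive := fun _ => Nat)
   (Bool.rec (motive := fun _ => Nat)
    L6184
    L6185
    (Nat.ble 791680 i))
   (Bool.rec (motive := fun _ => Nat)
    L6186
    L6187
    (Nat.ble 791936 i))
   (Nat.ble 791808 i))
  (Bool.rec (motive := fun _ => Nat)
   (Bool.rec (motive := fun _ => Nat)
    L6188
    L6189
    (Nat.ble 792192 i))
   (Bool.rec (motive := fun _ => Nat)
    L6190
    L6191
    (Nat.ble 792448 i))
   (Nat.ble 792320 i))
  (Nat.ble 792064 i))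
 (Nat.ble 791552 i))

/-- choice of a leaf -/
noncomputable def A0_387 (i : Nat) : Nat :=
 (Bool.rec (motive := fun _ => Nat)
 (Bool.rec (motive := fun _ => Nat)
  (Bool.rec (motive := fun _ => Nat)
   (Bool.rec (motive := fun _ => Nat)
    L6192
    L6193
    (Nat.ble 792704 i))
   (Bool.rec (motive := fun _ => Nat)
    L6194
    L6195
    (Nat.ble 792960 i))
   (Nat.ble 792832 i))
  (Bool.rec (motive := fun _ => Nat)
   (Bool.rec (motive := fun _ => Nat)
    L6196
    L6197
    (Nat.ble 793216 i))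
   (Bool.rec (motive := fun _ => Nat)
    L6198
    L6199
    (Nat.ble 793472 i))
   (Nat.ble 793344 i))
  (Nat.ble 793088 i))
 (Bool.rec (motive := fun _ => Nat)
  (Bool.rec (motive := fun _ => Nat)
   (Bool.rec (motive := fun _ => Nat)
    L6200
    L6201
    (Nat.ble 793728 i))
   (Bool.rec (motive := fun _ => Nat)
    L6202
    L6203
    (Nat.ble 793984 i))
   (Nat.ble 793856 i))
  (Bool.rec (motive := fun _ => Nat)
   (Bool.rec (motive := fun _ => Nat)
    L6204
    L6205
    (Nat.ble 794240 i))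
   (Bool.rec (motive := fun _ => Nat)
    L6206
    L6207
    (Nat.ble 794496 i))
   (Nat.ble 794368 i))
  (Nat.ble 794112 i))
 (Nat.ble 793600 i))

/-- choice of a leaf -/
noncomputable def A0_388 (i : Nat) : Nat :=
 (Bool.rec (motive := fun _ => Nat)
 (Bool.rec (motive := fun _ => Nat)
  (Bool.rec (motive := fun _ => Nat)
   (Bool.rec (motive := fun _ => Nat)
    L6208
    L6209
    (Nat.ble 794752 i))
   (Bool.rec (motive := fun _ => Nat)
    L6210
    L6211
    (Nat.ble 795008 i))
   (Nat.ble 794880 i))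
  (Bool.rec (motive := fun _ => Nat)
   (Bool.rec (motive := fun _ => Nat)
    L6212
    L6213
    (Nat.ble 795264 i))
   (Bool.rec (motive := fun _ => Nat)
    L6214
    L6215
    (Nat.ble 795520 i))
   (Nat.ble 795392 i))
  (Nat.ble 795136 i))
 (Bool.rec (motive := fun _ => Nat)
  (Bool.rec (motive := fun _ => Nat)
   (Bool.rec (motive := fun _ => Nat)
    L6216
    L6217
    (Nat.ble 795776 i))
   (Bool.rec (motive := fun _ => Nat)
    L6218
    L6219
    (Nat.ble 796032 i))
   (Nat.ble 795904 i))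
  (Bool.rec (motive := fun _ => Nat)
   (Bool.rec (motive := fun _ => Nat)
    L6220
    L6221
    (Nat.ble 796288 i))
   (Bool.rec (motive := fun _ => Nat)
    L6222
    L6223
    (Nat.ble 796544 i))
   (Nat.ble 796416 i))
  (Nat.ble 796160 i))
 (Nat.ble 795648 i))

/-- choice of a leaf -/
noncomputable def A0_389 (i : Nat) : Nat :=
 (Bool.rec (motive := fun _ => Nat)
 (Bool.rec (motive := fun _ => Nat)
  (Bool.rec (motive := fun _ => Nat)
   (Bool.rec (motive := fun _ => Nat)
    L6224
    L6225
    (Nat.ble 796800 i))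
   (Bool.rec (motive := fun _ => Nat)
    L6226
    L6227
    (Nat.ble 797056 i))
   (Nat.ble 796928 i))
  (Bool.rec (motive := fun _ => Nat)
   (Bool.rec (motive := fun _ => Nat)
    L6228
    L6229
    (Nat.ble 797312 i))
   (Bool.rec (motive := fun _ => Nat)
    L6230
    L6231
    (Nat.ble 797568 i))
   (Nat.ble 797440 i))
  (Nat.ble 797184 i))
 (Bool.rec (motive := fun _ => Nat)
  (Bool.rec (motive := fun _ => Nat)
   (Bool.rec (motive := fun _ => Nat)
    L6232
    L6233
    (Nat.ble 797824 i))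
   (Bool.rec (motive := fun _ => Nat)
    L6234
    L6235
    (Nat.ble 798080 i))
   (Nat.ble 797952 i))
  (Bool.rec (motive := fun _ => Nat)
   (Bool.rec (motive := fun _ => Nat)
    L6236
    L6237
    (Nat.ble 798336 i))
   (Bool.rec (motive := fun _ => Nat)
    L6238
    L6239
    (Nat.ble 798592 i))
   (Nat.ble 798464 i))
  (Nat.ble 798208 i))
 (Nat.ble 797696 i))

/-- choice of a leaf -/
noncomputable def A0_390 (i : Nat) : Nat :=
 (Bool.rec (motive := fun _ => Nat)
 (Bool.rec (motive := fun _ => Nat)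
  (Bool.rec (motive := fun _ => Nat)
   (Bool.rec (motive := fun _ => Nat)
    L6240
    L6241
    (Nat.ble 798848 i))
   (Bool.rec (motive := fun _ => Nat)
    L6242
    L6243
    (Nat.ble 799104 i))
   (Nat.ble 798976 i))
  (Bool.rec (motive := fun _ => Nat)
   (Bool.rec (motive := fun _ => Nat)
    L6244
    L6245
    (Nat.ble 799360 i))
   (Bool.rec (motive := fun _ => Nat)
    L6246
    L6247
    (Nat.ble 799616 i))
   (Nat.ble 799488 i))
  (Nat.ble 799232 i))
 (Bool.rec (motive := fun _ => Nat)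
  (Bool.rec (motive := fun _ => Nat)
   (Bool.rec (motive := fun _ => Nat)
    L6248
    L6249
    (Nat.ble 799872 i))
   (Bool.rec (motive := fun _ => Nat)
    L6250
    L6251
    (Nat.ble 800128 i))
   (Nat.ble 800000 i))
  (Bool.rec (motive := fun _ => Nat)
   (Bool.rec (motive := fun _ => Nat)
    L6252
    L6253
    (Nat.ble 800384 i))
   (Bool.rec (motive := fun _ => Nat)
    L6254
    L6255
    (Nat.ble 800640 i))
   (Nat.ble 800512 i))
  (Nat.ble 800256 i))
 (Nat.ble 799744 i))

/-- choice of a leaf -/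
noncomputable def A0_391 (i : Nat) : Nat :=
 (Bool.rec (motive := fun _ => Nat)
 (Bool.rec (motive := fun _ => Nat)
  (Bool.rec (motive := fun _ => Nat)
   (Bool.rec (motive := fun _ => Nat)
    L6256
    L6257
    (Nat.ble 800896 i))
   (Bool.rec (motive := fun _ => Nat)
    L6258
    L6259
    (Nat.ble 801152 i))
   (Nat.ble 801024 i))
  (Bool.rec (motive := fun _ => Nat)
   (Bool.rec (motive := fun _ => Nat)
    L6260
    L6261
    (Nat.ble 801408 i))
   (Bool.rec (motive := fun _ => Nat)
    L6262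
    L6263
    (Nat.ble 801664 i))
   (Nat.ble 801536 i))
  (Nat.ble 801280 i))
 (Bool.rec (motive := fun _ => Nat)
  (Bool.rec (motive := fun _ => Nat)
   (Bool.rec (motive := fun _ => Nat)
    L6264
    L6265
    (Nat.ble 801920 i))
   (Bool.rec (motive := fun _ => Nat)
    L6266
    L6267
    (Nat.ble 802176 i))
   (Nat.ble 802048 i))
  (Bool.rec (motive := fun _ => Nat)
   (Bool.rec (motive := fun _ => Nat)
    L6268
    L6269
    (Nat.ble 802432 i))
   (Bool.rec (motive := fun _ => Nat)
    L6270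
    L6271
    (Nat.ble 802688 i))
   (Nat.ble 802560 i))
  (Nat.ble 802304 i))
 (Nat.ble 801792 i))

/-- choice of a leaf -/
noncomputable def A0_392 (i : Nat) : Nat :=
 (Bool.rec (motive := fun _ => Nat)
 (Bool.rec (motive := fun _ => Nat)
  (Bool.rec (motive := fun _ => Nat)
   (Bool.rec (motive := fun _ => Nat)
    L6272
    L6273
    (Nat.ble 802944 i))
   (Bool.rec (motive := fun _ => Nat)
    L6274
    L6275
    (Nat.ble 803200 i))
   (Nat.ble 803072 i))
  (Bool.rec (motive := fun _ => Nat)
   (Bool.rec (motive := fun _ => Nat)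
    L6276
    L6277
    (Nat.ble 803456 i))
   (Bool.rec (motive := fun _ => Nat)
    L6278
    L6279
    (Nat.ble 803712 i))
   (Nat.ble 803584 i))
  (Nat.ble 803328 i))
 (Bool.rec (motive := fun _ => Nat)
  (Bool.rec (motive := fun _ => Nat)
   (Bool.rec (motive := fun _ => Nat)
    L6280
    L6281
    (Nat.ble 803968 i))
   (Bool.rec (motive := fun _ => Nat)
    L6282
    L6283
    (Nat.ble 804224 i))
   (Nat.ble 804096 i))
  (Bool.rec (motive := fun _ => Nat)
   (Bool.rec (motive := fun _ => Nat)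
    L6284
    L6285
    (Nat.ble 804480 i))
   (Bool.rec (motive := fun _ => Nat)
    L6286
    L6287
    (Nat.ble 804736 i))
   (Nat.ble 804608 i))
  (Nat.ble 804352 i))
 (Nat.ble 803840 i))

/-- choice of a leaf -/
noncomputable def A0_393 (i : Nat) : Nat :=
 (Bool.rec (motive := fun _ => Nat)
 (Bool.rec (motive := fun _ => Nat)
  (Bool.rec (motive := fun _ => Nat)
   (Bool.rec (motive := fun _ => Nat)
    L6288
    L6289
    (Nat.ble 804992 i))
   (Bool.rec (motive := fun _ => Nat)
    L6290
    L6291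
    (Nat.ble 805248 i))
   (Nat.ble 805120 i))
  (Bool.rec (motive := fun _ => Nat)
   (Bool.rec (motive := fun _ => Nat)
    L6292
    L6293
    (Nat.ble 805504 i))
   (Bool.rec (motive := fun _ => Nat)
    L6294
    L6295
    (Nat.ble 805760 i))
   (Nat.ble 805632 i))
  (Nat.ble 805376 i))
 (Bool.rec (motive := fun _ => Nat)
  (Bool.rec (motive := fun _ => Nat)
   (Bool.rec (motive := fun _ => Nat)
    L6296
    L6297
    (Nat.ble 806016 i))
   (Bool.rec (motive := fun _ => Nat)
    L6298
    L6299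
    (Nat.ble 806272 i))
   (Nat.ble 806144 i))
  (Bool.rec (motive := fun _ => Nat)
   (Bool.rec (motive := fun _ => Nat)
    L6300
    L6301
    (Nat.ble 806528 i))
   (Bool.rec (motive := fun _ => Nat)
    L6302
    L6303
    (Nat.ble 806784 i))
   (Nat.ble 806656 i))
  (Nat.ble 806400 i))
 (Nat.ble 805888 i))

/-- choice of a leaf -/
noncomputable def A0_394 (i : Nat) : Nat :=
 (Bool.rec (motive := fun _ => Nat)
 (Bool.rec (motive := fun _ => Nat)
  (Bool.rec (motive := fun _ => Nat)
   (Bool.rec (motive := fun _ => Nat)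
    L6304
    L6305
    (Nat.ble 807040 i))
   (Bool.rec (motive := fun _ => Nat)
    L6306
    L6307
    (Nat.ble 807296 i))
   (Nat.ble 807168 i))
  (Bool.rec (motive := fun _ => Nat)
   (Bool.rec (motive := fun _ => Nat)
    L6308
    L6309
    (Nat.ble 807552 i))
   (Bool.rec (motive := fun _ => Nat)
    L6310
    L6311
    (Nat.ble 807808 i))
   (Nat.ble 807680 i))
  (Nat.ble 807424 i))
 (Bool.rec (motive := fun _ => Nat)
  (Bool.rec (motive := fun _ => Nat)
   (Bool.rec (motive := fun _ => Nat)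
    L6312
    L6313
    (Nat.ble 808064 i))
   (Bool.rec (motive := fun _ => Nat)
    L6314
    L6315
    (Nat.ble 808320 i))
   (Nat.ble 808192 i))
  (Bool.rec (motive := fun _ => Nat)
   (Bool.rec (motive := fun _ => Nat)
    L6316
    L6317
    (Nat.ble 808576 i))
   (Bool.rec (motive := fun _ => Nat)
    L6318
    L6319
    (Nat.ble 808832 i))
   (Nat.ble 808704 i))
  (Nat.ble 808448 i))
 (Nat.ble 807936 i))

/-- choice of a leaf -/
noncomputable def A0_395 (i : Nat) : Nat :=
 (Bool.rec (motive := fun _ => Nat)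
 (Bool.rec (motive := fun _ => Nat)
  (Bool.rec (motive := fun _ => Nat)
   (Bool.rec (motive := fun _ => Nat)
    L6320
    L6321
    (Nat.ble 809088 i))
   (Bool.rec (motive := fun _ => Nat)
    L6322
    L6323
    (Nat.ble 809344 i))
   (Nat.ble 809216 i))
  (Bool.rec (motive := fun _ => Nat)
   (Bool.rec (motive := fun _ => Nat)
    L6324
    L6325
    (Nat.ble 809600 i))
   (Bool.rec (motive := fun _ => Nat)
    L6326
    L6327
    (Nat.ble 809856 i))
   (Nat.ble 809728 i))
  (Nat.ble 809472 i))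
 (Bool.rec (motive := fun _ => Nat)
  (Bool.rec (motive := fun _ => Nat)
   (Bool.rec (motive := fun _ => Nat)
    L6328
    L6329
    (Nat.ble 810112 i))
   (Bool.rec (motive := fun _ => Nat)
    L6330
    L6331
    (Nat.ble 810368 i))
   (Nat.ble 810240 i))
  (Bool.rec (motive := fun _ => Nat)
   (Bool.rec (motive := fun _ => Nat)
    L6332
    L6333
    (Nat.ble 810624 i))
   (Bool.rec (motive := fun _ => Nat)
    L6334
    L6335
    (Nat.ble 810880 i))
   (Nat.ble 810752 i))
  (Nat.ble 810496 i))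
 (Nat.ble 809984 i))

/-- choice of a leaf -/
noncomputable def A0_396 (i : Nat) : Nat :=
 (Bool.rec (motive := fun _ => Nat)
 (Bool.rec (motive := fun _ => Nat)
  (Bool.rec (motive := fun _ => Nat)
   (Bool.rec (motive := fun _ => Nat)
    L6336
    L6337
    (Nat.ble 811136 i))
   (Bool.rec (motive := fun _ => Nat)
    L6338
    L6339
    (Nat.ble 811392 i))
   (Nat.ble 811264 i))
  (Bool.rec (motive := fun _ => Nat)
   (Bool.rec (motive := fun _ => Nat)
    L6340
    L6341
    (Nat.ble 811648 i))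
   (Bool.rec (motive := fun _ => Nat)
    L6342
    L6343
    (Nat.ble 811904 i))
   (Nat.ble 811776 i))
  (Nat.ble 811520 i))
 (Bool.rec (motive := fun _ => Nat)
  (Bool.rec (motive := fun _ => Nat)
   (Bool.rec (motive := fun _ => Nat)
    L6344
    L6345
    (Nat.ble 812160 i))
   (Bool.rec (motive := fun _ => Nat)
    L6346
    L6347
    (Nat.ble 812416 i))
   (Nat.ble 812288 i))
  (Bool.rec (motive := fun _ => Nat)
   (Bool.rec (motive := fun _ => Nat)
    L6348
    L6349
    (Nat.ble 812672 i))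
   (Bool.rec (motive := fun _ => Nat)
    L6350
    L6351
    (Nat.ble 812928 i))
   (Nat.ble 812800 i))
  (Nat.ble 812544 i))
 (Nat.ble 812032 i))

/-- choice of a leaf -/
noncomputable def A0_397 (i : Nat) : Nat :=
 (Bool.rec (motive := fun _ => Nat)
 (Bool.rec (motive := fun _ => Nat)
  (Bool.rec (motive := fun _ => Nat)
   (Bool.rec (motive := fun _ => Nat)
    L6352
    L6353
    (Nat.ble 813184 i))
   (Bool.rec (motive := fun _ => Nat)
    L6354
    L6355
    (Nat.ble 813440 i))
   (Nat.ble 813312 i))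
  (Bool.rec (motive := fun _ => Nat)
   (Bool.rec (motive := fun _ => Nat)
    L6356
    L6357
    (Nat.ble 813696 i))
   (Bool.rec (motive := fun _ => Nat)
    L6358
    L6359
    (Nat.ble 813952 i))
   (Nat.ble 813824 i))
  (Nat.ble 813568 i))
 (Bool.rec (motive := fun _ => Nat)
  (Bool.rec (motive := fun _ => Nat)
   (Bool.rec (motive := fun _ => Nat)
    L6360
    L6361
    (Nat.ble 814208 i))
   (Bool.rec (motive := fun _ => Nat)
    L6362
    L6363
    (Nat.ble 814464 i))
   (Nat.ble 814336 i))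
  (Bool.rec (motive := fun _ => Nat)
   (Bool.rec (motive := fun _ => Nat)
    L6364
    L6365
    (Nat.ble 814720 i))
   (Bool.rec (motive := fun _ => Nat)
    L6366
    L6367
    (Nat.ble 814976 i))
   (Nat.ble 814848 i))
  (Nat.ble 814592 i))
 (Nat.ble 814080 i))

/-- choice of a leaf -/
noncomputable def A0_398 (i : Nat) : Nat :=
 (Bool.rec (motive := fun _ => Nat)
 (Bool.rec (motive := fun _ => Nat)
  (Bool.rec (motive := fun _ => Nat)
   (Bool.rec (motive := fun _ => Nat)
    L6368
    L6369
    (Nat.ble 815232 i))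
   (Bool.rec (motive := fun _ => Nat)
    L6370
    L6371
    (Nat.ble 815488 i))
   (Nat.ble 815360 i))
  (Bool.rec (motive := fun _ => Nat)
   (Bool.rec (motive := fun _ => Nat)
    L6372
    L6373
    (Nat.ble 815744 i))
   (Bool.rec (motive := fun _ => Nat)
    L6374
    L6375
    (Nat.ble 816000 i))
   (Nat.ble 815872 i))
  (Nat.ble 815616 i))
 (Bool.rec (motive := fun _ => Nat)
  (Bool.rec (motive := fun _ => Nat)
   (Bool.rec (motive := fun _ => Nat)
    L6376
    L6377
    (Nat.ble 816256 i))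
   (Bool.rec (motive := fun _ => Nat)
    L6378
    L6379
    (Nat.ble 816512 i))
   (Nat.ble 816384 i))
  (Bool.rec (motive := fun _ => Nat)
   (Bool.rec (motive := fun _ => Nat)
    L6380
    L6381
    (Nat.ble 816768 i))
   (Bool.rec (motive := fun _ => Nat)
    L6382
    L6383
    (Nat.ble 817024 i))
   (Nat.ble 816896 i))
  (Nat.ble 816640 i))
 (Nat.ble 816128 i))

/-- choice of a leaf -/
noncomputable def A0_399 (i : Nat) : Nat :=
 (Bool.rec (motive := fun _ => Nat)
 (Bool.rec (motive := fun _ => Nat)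
  (Bool.rec (motive := fun _ => Nat)
   (Bool.rec (motive := fun _ => Nat)
    L6384
    L6385
    (Nat.ble 817280 i))
   (Bool.rec (motive := fun _ => Nat)
    L6386
    L6387
    (Nat.ble 817536 i))
   (Nat.ble 817408 i))
  (Bool.rec (motive := fun _ => Nat)
   (Bool.rec (motive := fun _ => Nat)
    L6388
    L6389
    (Nat.ble 817792 i))
   (Bool.rec (motive := fun _ => Nat)
    L6390
    L6391
    (Nat.ble 818048 i))
   (Nat.ble 817920 i))
  (Nat.ble 817664 i))
 (Bool.rec (motive := fun _ => Nat)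
  (Bool.rec (motive := fun _ => Nat)
   (Bool.rec (motive := fun _ => Nat)
    L6392
    L6393
    (Nat.ble 818304 i))
   (Bool.rec (motive := fun _ => Nat)
    L6394
    L6395
    (Nat.ble 818560 i))
   (Nat.ble 818432 i))
  (Bool.rec (motive := fun _ => Nat)
   (Bool.rec (motive := fun _ => Nat)
    L6396
    L6397
    (Nat.ble 818816 i))
   (Bool.rec (motive := fun _ => Nat)
    L6398
    L6399
    (Nat.ble 819072 i))
   (Nat.ble 818944 i))
  (Nat.ble 818688 i))
 (Nat.ble 818176 i))

/-- choice of a leaf -/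
noncomputable def A0_400 (i : Nat) : Nat :=
 (Bool.rec (motive := fun _ => Nat)
 (Bool.rec (motive := fun _ => Nat)
  (Bool.rec (motive := fun _ => Nat)
   (Bool.rec (motive := fun _ => Nat)
    L6400
    L6401
    (Nat.ble 819328 i))
   (Bool.rec (motive := fun _ => Nat)
    L6402
    L6403
    (Nat.ble 819584 i))
   (Nat.ble 819456 i))
  (Bool.rec (motive := fun _ => Nat)
   (Bool.rec (motive := fun _ => Nat)
    L6404
    L6405
    (Nat.ble 819840 i))
   (Bool.rec (motive := fun _ => Nat)
    L6406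
    L6407
    (Nat.ble 820096 i))
   (Nat.ble 819968 i))
  (Nat.ble 819712 i))
 (Bool.rec (motive := fun _ => Nat)
  (Bool.rec (motive := fun _ => Nat)
   (Bool.rec (motive := fun _ => Nat)
    L6408
    L6409
    (Nat.ble 820352 i))
   (Bool.rec (motive := fun _ => Nat)
    L6410
    L6411
    (Nat.ble 820608 i))
   (Nat.ble 820480 i))
  (Bool.rec (motive := fun _ => Nat)
   (Bool.rec (motive := fun _ => Nat)
    L6412
    L6413
    (Nat.ble 820864 i))
   (Bool.rec (motive := fun _ => Nat)
    L6414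
    L6415
    (Nat.ble 821120 i))
   (Nat.ble 820992 i))
  (Nat.ble 820736 i))
 (Nat.ble 820224 i))

/-- choice of a leaf -/
noncomputable def A0_401 (i : Nat) : Nat :=
 (Bool.rec (motive := fun _ => Nat)
 (Bool.rec (motive := fun _ => Nat)
  (Bool.rec (motive := fun _ => Nat)
   (Bool.rec (motive := fun _ => Nat)
    L6416
    L6417
    (Nat.ble 821376 i))
   (Bool.rec (motive := fun _ => Nat)
    L6418
    L6419
    (Nat.ble 821632 i))
   (Nat.ble 821504 i))
  (Bool.rec (motive := fun _ => Nat)
   (Bool.rec (motive := fun _ => Nat)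
    L6420
    L6421
    (Nat.ble 821888 i))
   (Bool.rec (motive := fun _ => Nat)
    L6422
    L6423
    (Nat.ble 822144 i))
   (Nat.ble 822016 i))
  (Nat.ble 821760 i))
 (Bool.rec (motive := fun _ => Nat)
  (Bool.rec (motive := fun _ => Nat)
   (Bool.rec (motive := fun _ => Nat)
    L6424
    L6425
    (Nat.ble 822400 i))
   (Bool.rec (motive := fun _ => Nat)
    L6426
    L6427
    (Nat.ble 822656 i))
   (Nat.ble 822528 i))
  (Bool.rec (motive := fun _ => Nat)
   (Bool.rec (motive := fun _ => Nat)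
    L6428
    L6429
    (Nat.ble 822912 i))
   (Bool.rec (motive := fun _ => Nat)
    L6430
    L6431
    (Nat.ble 823168 i))
   (Nat.ble 823040 i))
  (Nat.ble 822784 i))
 (Nat.ble 822272 i))

/-- choice of a leaf -/
noncomputable def A0_402 (i : Nat) : Nat :=
 (Bool.rec (motive := fun _ => Nat)
 (Bool.rec (motive := fun _ => Nat)
  (Bool.rec (motive := fun _ => Nat)
   (Bool.rec (motive := fun _ => Nat)
    L6432
    L6433
    (Nat.ble 823424 i))
   (Bool.rec (motive := fun _ => Nat)
    L6434
    L6435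
    (Nat.ble 823680 i))
   (Nat.ble 823552 i))
  (Bool.rec (motive := fun _ => Nat)
   (Bool.rec (motive := fun _ => Nat)
    L6436
    L6437
    (Nat.ble 823936 i))
   (Bool.rec (motive := fun _ => Nat)
    L6438
    L6439
    (Nat.ble 824192 i))
   (Nat.ble 824064 i))
  (Nat.ble 823808 i))
 (Bool.rec (motive := fun _ => Nat)
  (Bool.rec (motive := fun _ => Nat)
   (Bool.rec (motive := fun _ => Nat)
    L6440
    L6441
    (Nat.ble 824448 i))
   (Bool.rec (motive := fun _ => Nat)
    L6442
    L6443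
    (Nat.ble 824704 i))
   (Nat.ble 824576 i))
  (Bool.rec (motive := fun _ => Nat)
   (Bool.rec (motive := fun _ => Nat)
    L6444
    L6445
    (Nat.ble 824960 i))
   (Bool.rec (motive := fun _ => Nat)
    L6446
    L6447
    (Nat.ble 825216 i))
   (Nat.ble 825088 i))
  (Nat.ble 824832 i))
 (Nat.ble 824320 i))

/-- choice of a leaf -/
noncomputable def A0_403 (i : Nat) : Nat :=
 (Bool.rec (motive := fun _ => Nat)
 (Bool.rec (motive := fun _ => Nat)
  (Bool.rec (motive := fun _ => Nat)
   (Bool.rec (motive := fun _ => Nat)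
    L6448
    L6449
    (Nat.ble 825472 i))
   (Bool.rec (motive := fun _ => Nat)
    L6450
    L6451
    (Nat.ble 825728 i))
   (Nat.ble 825600 i))
  (Bool.rec (motive := fun _ => Nat)
   (Bool.rec (motive := fun _ => Nat)
    L6452
    L6453
    (Nat.ble 825984 i))
   (Bool.rec (motive := fun _ => Nat)
    L6454
    L6455
    (Nat.ble 826240 i))
   (Nat.ble 826112 i))
  (Nat.ble 825856 i))
 (Bool.rec (motive := fun _ => Nat)
  (Bool.rec (motive := fun _ => Nat)
   (Bool.rec (motive := fun _ => Nat)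
    L6456
    L6457
    (Nat.ble 826496 i))
   (Bool.rec (motive := fun _ => Nat)
    L6458
    L6459
    (Nat.ble 826752 i))
   (Nat.ble 826624 i))
  (Bool.rec (motive := fun _ => Nat)
   (Bool.rec (motive := fun _ => Nat)
    L6460
    L6461
    (Nat.ble 827008 i))
   (Bool.rec (motive := fun _ => Nat)
    L6462
    L6463
    (Nat.ble 827264 i))
   (Nat.ble 827136 i))
  (Nat.ble 826880 i))
 (Nat.ble 826368 i))

/-- choice of a leaf -/
noncomputable def A0_404 (i : Nat) : Nat :=
 (Bool.rec (motive := fun _ => Nat)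
 (Bool.rec (motive := fun _ => Nat)
  (Bool.rec (motive := fun _ => Nat)
   (Bool.rec (motive := fun _ => Nat)
    L6464
    L6465
    (Nat.ble 827520 i))
   (Bool.rec (motive := fun _ => Nat)
    L6466
    L6467
    (Nat.ble 827776 i))
   (Nat.ble 827648 i))
  (Bool.rec (motive := fun _ => Nat)
   (Bool.rec (motive := fun _ => Nat)
    L6468
    L6469
    (Nat.ble 828032 i))
   (Bool.rec (motive := fun _ => Nat)
    L6470
    L6471
    (Nat.ble 828288 i))
   (Nat.ble 828160 i))
  (Nat.ble 827904 i))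
 (Bool.rec (motive := fun _ => Nat)
  (Bool.rec (motive := fun _ => Nat)
   (Bool.rec (motive := fun _ => Nat)
    L6472
    L6473
    (Nat.ble 828544 i))
   (Bool.rec (motive := fun _ => Nat)
    L6474
    L6475
    (Nat.ble 828800 i))
   (Nat.ble 828672 i))
  (Bool.rec (motive := fun _ => Nat)
   (Bool.rec (motive := fun _ => Nat)
    L6476
    L6477
    (Nat.ble 829056 i))
   (Bool.rec (motive := fun _ => Nat)
    L6478
    L6479
    (Nat.ble 829312 i))
   (Nat.ble 829184 i))
  (Nat.ble 828928 i))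
 (Nat.ble 828416 i))

/-- choice of a leaf -/
noncomputable def A0_405 (i : Nat) : Nat :=
 (Bool.rec (motive := fun _ => Nat)
 (Bool.rec (motive := fun _ => Nat)
  (Bool.rec (motive := fun _ => Nat)
   (Bool.rec (motive := fun _ => Nat)
    L6480
    L6481
    (Nat.ble 829568 i))
   (Bool.rec (motive := fun _ => Nat)
    L6482
    L6483
    (Nat.ble 829824 i))
   (Nat.ble 829696 i))
  (Bool.rec (motive := fun _ => Nat)
   (Bool.rec (motive := fun _ => Nat)
    L6484
    L6485
    (Nat.ble 830080 i))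
   (Bool.rec (motive := fun _ => Nat)
    L6486
    L6487
    (Nat.ble 830336 i))
   (Nat.ble 830208 i))
  (Nat.ble 829952 i))
 (Bool.rec (motive := fun _ => Nat)
  (Bool.rec (motive := fun _ => Nat)
   (Bool.rec (motive := fun _ => Nat)
    L6488
    L6489
    (Nat.ble 830592 i))
   (Bool.rec (motive := fun _ => Nat)
    L6490
    L6491
    (Nat.ble 830848 i))
   (Nat.ble 830720 i))
  (Bool.rec (motive := fun _ => Nat)
   (Bool.rec (motive := fun _ => Nat)
    L6492
    L6493
    (Nat.ble 831104 i))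
   (Bool.rec (motive := fun _ => Nat)
    L6494
    L6495
    (Nat.ble 831360 i))
   (Nat.ble 831232 i))
  (Nat.ble 830976 i))
 (Nat.ble 830464 i))

/-- choice of a leaf -/
noncomputable def A0_406 (i : Nat) : Nat :=
 (Bool.rec (motive := fun _ => Nat)
 (Bool.rec (motive := fun _ => Nat)
  (Bool.rec (motive := fun _ => Nat)
   (Bool.rec (motive := fun _ => Nat)
    L6496
    L6497
    (Nat.ble 831616 i))
   (Bool.rec (motive := fun _ => Nat)
    L6498
    L6499
    (Nat.ble 831872 i))
   (Nat.ble 831744 i))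
  (Bool.rec (motive := fun _ => Nat)
   (Bool.rec (motive := fun _ => Nat)
    L6500
    L6501
    (Nat.ble 832128 i))
   (Bool.rec (motive := fun _ => Nat)
    L6502
    L6503
    (Nat.ble 832384 i))
   (Nat.ble 832256 i))
  (Nat.ble 832000 i))
 (Bool.rec (motive := fun _ => Nat)
  (Bool.rec (motive := fun _ => Nat)
   (Bool.rec (motive := fun _ => Nat)
    L6504
    L6505
    (Nat.ble 832640 i))
   (Bool.rec (motive := fun _ => Nat)
    L6506
    L6507
    (Nat.ble 832896 i))
   (Nat.ble 832768 i))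
  (Bool.rec (motive := fun _ => Nat)
   (Bool.rec (motive := fun _ => Nat)
    L6508
    L6509
    (Nat.ble 833152 i))
   (Bool.rec (motive := fun _ => Nat)
    L6510
    L6511
    (Nat.ble 833408 i))
   (Nat.ble 833280 i))
  (Nat.ble 833024 i))
 (Nat.ble 832512 i))

/-- choice of a leaf -/
noncomputable def A0_407 (i : Nat) : Nat :=
 (Bool.rec (motive := fun _ => Nat)
 (Bool.rec (motive := fun _ => Nat)
  (Bool.rec (motive := fun _ => Nat)
   (Bool.rec (motive := fun _ => Nat)
    L6512
    L6513
    (Nat.ble 833664 i))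
   (Bool.rec (motive := fun _ => Nat)
    L6514
    L6515
    (Nat.ble 833920 i))
   (Nat.ble 833792 i))
  (Bool.rec (motive := fun _ => Nat)
   (Bool.rec (motive := fun _ => Nat)
    L6516
    L6517
    (Nat.ble 834176 i))
   (Bool.rec (motive := fun _ => Nat)
    L6518
    L6519
    (Nat.ble 834432 i))
   (Nat.ble 834304 i))
  (Nat.ble 834048 i))
 (Bool.rec (motive := fun _ => Nat)
  (Bool.rec (motive := fun _ => Nat)
   (Bool.rec (motive := fun _ => Nat)
    L6520
    L6521
    (Nat.ble 834688 i))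
   (Bool.rec (motive := fun _ => Nat)
    L6522
    L6523
    (Nat.ble 834944 i))
   (Nat.ble 834816 i))
  (Bool.rec (motive := fun _ => Nat)
   (Bool.rec (motive := fun _ => Nat)
    L6524
    L6525
    (Nat.ble 835200 i))
   (Bool.rec (motive := fun _ => Nat)
    L6526
    L6527
    (Nat.ble 835456 i))
   (Nat.ble 835328 i))
  (Nat.ble 835072 i))
 (Nat.ble 834560 i))

/-- choice of a leaf -/
noncomputable def A0_408 (i : Nat) : Nat :=
 (Bool.rec (motive := fun _ => Nat)
 (Bool.rec (motive := fun _ => Nat)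
  (Bool.rec (motive := fun _ => Nat)
   (Bool.rec (motive := fun _ => Nat)
    L6528
    L6529
    (Nat.ble 835712 i))
   (Bool.rec (motive := fun _ => Nat)
    L6530
    L6531
    (Nat.ble 835968 i))
   (Nat.ble 835840 i))
  (Bool.rec (motive := fun _ => Nat)
   (Bool.rec (motive := fun _ => Nat)
    L6532
    L6533
    (Nat.ble 836224 i))
   (Bool.rec (motive := fun _ => Nat)
    L6534
    L6535
    (Nat.ble 836480 i))
   (Nat.ble 836352 i))
  (Nat.ble 836096 i))
 (Bool.rec (motive := fun _ => Nat)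
  (Bool.rec (motive := fun _ => Nat)
   (Bool.rec (motive := fun _ => Nat)
    L6536
    L6537
    (Nat.ble 836736 i))
   (Bool.rec (motive := fun _ => Nat)
    L6538
    L6539
    (Nat.ble 836992 i))
   (Nat.ble 836864 i))
  (Bool.rec (motive := fun _ => Nat)
   (Bool.rec (motive := fun _ => Nat)
    L6540
    L6541
    (Nat.ble 837248 i))
   (Bool.rec (motive := fun _ => Nat)
    L6542
    L6543
    (Nat.ble 837504 i))
   (Nat.ble 837376 i))
  (Nat.ble 837120 i))
 (Nat.ble 836608 i))

/-- choice of a leaf -/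
noncomputable def A0_409 (i : Nat) : Nat :=
 (Bool.rec (motive := fun _ => Nat)
 (Bool.rec (motive := fun _ => Nat)
  (Bool.rec (motive := fun _ => Nat)
   (Bool.rec (motive := fun _ => Nat)
    L6544
    L6545
    (Nat.ble 837760 i))
   (Bool.rec (motive := fun _ => Nat)
    L6546
    L6547
    (Nat.ble 838016 i))
   (Nat.ble 837888 i))
  (Bool.rec (motive := fun _ => Nat)
   (Bool.rec (motive := fun _ => Nat)
    L6548
    L6549
    (Nat.ble 838272 i))
   (Bool.rec (motive := fun _ => Nat)
    L6550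
    L6551
    (Nat.ble 838528 i))
   (Nat.ble 838400 i))
  (Nat.ble 838144 i))
 (Bool.rec (motive := fun _ => Nat)
  (Bool.rec (motive := fun _ => Nat)
   (Bool.rec (motive := fun _ => Nat)
    L6552
    L6553
    (Nat.ble 838784 i))
   (Bool.rec (motive := fun _ => Nat)
    L6554
    L6555
    (Nat.ble 839040 i))
   (Nat.ble 838912 i))
  (Bool.rec (motive := fun _ => Nat)
   (Bool.rec (motive := fun _ => Nat)
    L6556
    L6557
    (Nat.ble 839296 i))
   (Bool.rec (motive := fun _ => Nat)
    L6558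
    L6559
    (Nat.ble 839552 i))
   (Nat.ble 839424 i))
  (Nat.ble 839168 i))
 (Nat.ble 838656 i))

/-- choice of a leaf -/
noncomputable def A0_410 (i : Nat) : Nat :=
 (Bool.rec (motive := fun _ => Nat)
 (Bool.rec (motive := fun _ => Nat)
  (Bool.rec (motive := fun _ => Nat)
   (Bool.rec (motive := fun _ => Nat)
    L6560
    L6561
    (Nat.ble 839808 i))
   (Bool.rec (motive := fun _ => Nat)
    L6562
    L6563
    (Nat.ble 840064 i))
   (Nat.ble 839936 i))
  (Bool.rec (motive := fun _ => Nat)
   (Bool.rec (motive := fun _ => Nat)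
    L6564
    L6565
    (Nat.ble 840320 i))
   (Bool.rec (motive := fun _ => Nat)
    L6566
    L6567
    (Nat.ble 840576 i))
   (Nat.ble 840448 i))
  (Nat.ble 840192 i))
 (Bool.rec (motive := fun _ => Nat)
  (Bool.rec (motive := fun _ => Nat)
   (Bool.rec (motive := fun _ => Nat)
    L6568
    L6569
    (Nat.ble 840832 i))
   (Bool.rec (motive := fun _ => Nat)
    L6570
    L6571
    (Nat.ble 841088 i))
   (Nat.ble 840960 i))
  (Bool.rec (motive := fun _ => Nat)
   (Bool.rec (motive := fun _ => Nat)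
    L6572
    L6573
    (Nat.ble 841344 i))
   (Bool.rec (motive := fun _ => Nat)
    L6574
    L6575
    (Nat.ble 841600 i))
   (Nat.ble 841472 i))
  (Nat.ble 841216 i))
 (Nat.ble 840704 i))

/-- choice of a leaf -/
noncomputable def A0_411 (i : Nat) : Nat :=
 (Bool.rec (motive := fun _ => Nat)
 (Bool.rec (motive := fun _ => Nat)
  (Bool.rec (motive := fun _ => Nat)
   (Bool.rec (motive := fun _ => Nat)
    L6576
    L6577
    (Nat.ble 841856 i))
   (Bool.rec (motive := fun _ => Nat)
    L6578
    L6579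
    (Nat.ble 842112 i))
   (Nat.ble 841984 i))
  (Bool.rec (motive := fun _ => Nat)
   (Bool.rec (motive := fun _ => Nat)
    L6580
    L6581
    (Nat.ble 842368 i))
   (Bool.rec (motive := fun _ => Nat)
    L6582
    L6583
    (Nat.ble 842624 i))
   (Nat.ble 842496 i))
  (Nat.ble 842240 i))
 (Bool.rec (motive := fun _ => Nat)
  (Bool.rec (motive := fun _ => Nat)
   (Bool.rec (motive := fun _ => Nat)
    L6584
    L6585
    (Nat.ble 842880 i))
   (Bool.rec (motive := fun _ => Nat)
    L6586
    L6587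
    (Nat.ble 843136 i))
   (Nat.ble 843008 i))
  (Bool.rec (motive := fun _ => Nat)
   (Bool.rec (motive := fun _ => Nat)
    L6588
    L6589
    (Nat.ble 843392 i))
   (Bool.rec (motive := fun _ => Nat)
    L6590
    L6591
    (Nat.ble 843648 i))
   (Nat.ble 843520 i))
  (Nat.ble 843264 i))
 (Nat.ble 842752 i))

/-- choice of a leaf -/
noncomputable def A0_412 (i : Nat) : Nat :=
 (Bool.rec (motive := fun _ => Nat)
 (Bool.rec (motive := fun _ => Nat)
  (Bool.rec (motive := fun _ => Nat)
   (Bool.rec (motive := fun _ => Nat)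
    L6592
    L6593
    (Nat.ble 843904 i))
   (Bool.rec (motive := fun _ => Nat)
    L6594
    L6595
    (Nat.ble 844160 i))
   (Nat.ble 844032 i))
  (Bool.rec (motive := fun _ => Nat)
   (Bool.rec (motive := fun _ => Nat)
    L6596
    L6597
    (Nat.ble 844416 i))
   (Bool.rec (motive := fun _ => Nat)
    L6598
    L6599
    (Nat.ble 844672 i))
   (Nat.ble 844544 i))
  (Nat.ble 844288 i))
 (Bool.rec (motive := fun _ => Nat)
  (Bool.rec (motive := fun _ => Nat)
   (Bool.rec (motive := fun _ => Nat)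
    L6600
    L6601
    (Nat.ble 844928 i))
   (Bool.rec (motive := fun _ => Nat)
    L6602
    L6603
    (Nat.ble 845184 i))
   (Nat.ble 845056 i))
  (Bool.rec (motive := fun _ => Nat)
   (Bool.rec (motive := fun _ => Nat)
    L6604
    L6605
    (Nat.ble 845440 i))
   (Bool.rec (motive := fun _ => Nat)
    L6606
    L6607
    (Nat.ble 845696 i))
   (Nat.ble 845568 i))
  (Nat.ble 845312 i))
 (Nat.ble 844800 i))

/-- choice of a leaf -/
noncomputable def A0_413 (i : Nat) : Nat :=
 (Bool.rec (motive := fun _ => Nat)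
 (Bool.rec (motive := fun _ => Nat)
  (Bool.rec (motive := fun _ => Nat)
   (Bool.rec (motive := fun _ => Nat)
    L6608
    L6609
    (Nat.ble 845952 i))
   (Bool.rec (motive := fun _ => Nat)
    L6610
    L6611
    (Nat.ble 846208 i))
   (Nat.ble 846080 i))
  (Bool.rec (motive := fun _ => Nat)
   (Bool.rec (motive := fun _ => Nat)
    L6612
    L6613
    (Nat.ble 846464 i))
   (Bool.rec (motive := fun _ => Nat)
    L6614
    L6615
    (Nat.ble 846720 i))
   (Nat.ble 846592 i))
  (Nat.ble 846336 i))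
 (Bool.rec (motive := fun _ => Nat)
  (Bool.rec (motive := fun _ => Nat)
   (Bool.rec (motive := fun _ => Nat)
    L6616
    L6617
    (Nat.ble 846976 i))
   (Bool.rec (motive := fun _ => Nat)
    L6618
    L6619
    (Nat.ble 847232 i))
   (Nat.ble 847104 i))
  (Bool.rec (motive := fun _ => Nat)
   (Bool.rec (motive := fun _ => Nat)
    L6620
    L6621
    (Nat.ble 847488 i))
   (Bool.rec (motive := fun _ => Nat)
    L6622
    L6623
    (Nat.ble 847744 i))
   (Nat.ble 847616 i))
  (Nat.ble 847360 i))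
 (Nat.ble 846848 i))

/-- choice of a leaf -/
noncomputable def A0_414 (i : Nat) : Nat :=
 (Bool.rec (motive := fun _ => Nat)
 (Bool.rec (motive := fun _ => Nat)
  (Bool.rec (motive := fun _ => Nat)
   (Bool.rec (motive := fun _ => Nat)
    L6624
    L6625
    (Nat.ble 848000 i))
   (Bool.rec (motive := fun _ => Nat)
    L6626
    L6627
    (Nat.ble 848256 i))
   (Nat.ble 848128 i))
  (Bool.rec (motive := fun _ => Nat)
   (Bool.rec (motive := fun _ => Nat)
    L6628
    L6629
    (Nat.ble 848512 i))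
   (Bool.rec (motive := fun _ => Nat)
    L6630
    L6631
    (Nat.ble 848768 i))
   (Nat.ble 848640 i))
  (Nat.ble 848384 i))
 (Bool.rec (motive := fun _ => Nat)
  (Bool.rec (motive := fun _ => Nat)
   (Bool.rec (motive := fun _ => Nat)
    L6632
    L6633
    (Nat.ble 849024 i))
   (Bool.rec (motive := fun _ => Nat)
    L6634
    L6635
    (Nat.ble 849280 i))
   (Nat.ble 849152 i))
  (Bool.rec (motive := fun _ => Nat)
   (Bool.rec (motive := fun _ => Nat)
    L6636
    L6637
    (Nat.ble 849536 i))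
   (Bool.rec (motive := fun _ => Nat)
    L6638
    L6639
    (Nat.ble 849792 i))
   (Nat.ble 849664 i))
  (Nat.ble 849408 i))
 (Nat.ble 848896 i))

/-- choice of a leaf -/
noncomputable def A0_415 (i : Nat) : Nat :=
 (Bool.rec (motive := fun _ => Nat)
 (Bool.rec (motive := fun _ => Nat)
  (Bool.rec (motive := fun _ => Nat)
   (Bool.rec (motive := fun _ => Nat)
    L6640
    L6641
    (Nat.ble 850048 i))
   (Bool.rec (motive := fun _ => Nat)
    L6642
    L6643
    (Nat.ble 850304 i))
   (Nat.ble 850176 i))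
  (Bool.rec (motive := fun _ => Nat)
   (Bool.rec (motive := fun _ => Nat)
    L6644
    L6645
    (Nat.ble 850560 i))
   (Bool.rec (motive := fun _ => Nat)
    L6646
    L6647
    (Nat.ble 850816 i))
   (Nat.ble 850688 i))
  (Nat.ble 850432 i))
 (Bool.rec (motive := fun _ => Nat)
  (Bool.rec (motive := fun _ => Nat)
   (Bool.rec (motive := fun _ => Nat)
    L6648
    L6649
    (Nat.ble 851072 i))
   (Bool.rec (motive := fun _ => Nat)
    L6650
    L6651
    (Nat.ble 851328 i))
   (Nat.ble 851200 i))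
  (Bool.rec (motive := fun _ => Nat)
   (Bool.rec (motive := fun _ => Nat)
    L6652
    L6653
    (Nat.ble 851584 i))
   (Bool.rec (motive := fun _ => Nat)
    L6654
    L6655
    (Nat.ble 851840 i))
   (Nat.ble 851712 i))
  (Nat.ble 851456 i))
 (Nat.ble 850944 i))

/-- choice of a leaf -/
noncomputable def A0_416 (i : Nat) : Nat :=
 (Bool.rec (motive := fun _ => Nat)
 (Bool.rec (motive := fun _ => Nat)
  (Bool.rec (motive := fun _ => Nat)
   (Bool.rec (motive := fun _ => Nat)
    L6656
    L6657
    (Nat.ble 852096 i))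
   (Bool.rec (motive := fun _ => Nat)
    L6658
    L6659
    (Nat.ble 852352 i))
   (Nat.ble 852224 i))
  (Bool.rec (motive := fun _ => Nat)
   (Bool.rec (motive := fun _ => Nat)
    L6660
    L6661
    (Nat.ble 852608 i))
   (Bool.rec (motive := fun _ => Nat)
    L6662
    L6663
    (Nat.ble 852864 i))
   (Nat.ble 852736 i))
  (Nat.ble 852480 i))
 (Bool.rec (motive := fun _ => Nat)
  (Bool.rec (motive := fun _ => Nat)
   (Bool.rec (motive := fun _ => Nat)
    L6664
    L6665
    (Nat.ble 853120 i))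
   (Bool.rec (motive := fun _ => Nat)
    L6666
    L6667
    (Nat.ble 853376 i))
   (Nat.ble 853248 i))
  (Bool.rec (motive := fun _ => Nat)
   (Bool.rec (motive := fun _ => Nat)
    L6668
    L6669
    (Nat.ble 853632 i))
   (Bool.rec (motive := fun _ => Nat)
    L6670
    L6671
    (Nat.ble 853888 i))
   (Nat.ble 853760 i))
  (Nat.ble 853504 i))
 (Nat.ble 852992 i))

/-- choice of a leaf -/
noncomputable def A0_417 (i : Nat) : Nat :=
 (Bool.rec (motive := fun _ => Nat)
 (Bool.rec (motive := fun _ => Nat)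
  (Bool.rec (motive := fun _ => Nat)
   (Bool.rec (motive := fun _ => Nat)
    L6672
    L6673
    (Nat.ble 854144 i))
   (Bool.rec (motive := fun _ => Nat)
    L6674
    L6675
    (Nat.ble 854400 i))
   (Nat.ble 854272 i))
  (Bool.rec (motive := fun _ => Nat)
   (Bool.rec (motive := fun _ => Nat)
    L6676
    L6677
    (Nat.ble 854656 i))
   (Bool.rec (motive := fun _ => Nat)
    L6678
    L6679
    (Nat.ble 854912 i))
   (Nat.ble 854784 i))
  (Nat.ble 854528 i))
 (Bool.rec (motive := fun _ => Nat)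
  (Bool.rec (motive := fun _ => Nat)
   (Bool.rec (motive := fun _ => Nat)
    L6680
    L6681
    (Nat.ble 855168 i))
   (Bool.rec (motive := fun _ => Nat)
    L6682
    L6683
    (Nat.ble 855424 i))
   (Nat.ble 855296 i))
  (Bool.rec (motive := fun _ => Nat)
   (Bool.rec (motive := fun _ => Nat)
    L6684
    L6685
    (Nat.ble 855680 i))
   (Bool.rec (motive := fun _ => Nat)
    L6686
    L6687
    (Nat.ble 855936 i))
   (Nat.ble 855808 i))
  (Nat.ble 855552 i))
 (Nat.ble 855040 i))

/-- choice of a leaf -/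
noncomputable def A0_418 (i : Nat) : Nat :=
 (Bool.rec (motive := fun _ => Nat)
 (Bool.rec (motive := fun _ => Nat)
  (Bool.rec (motive := fun _ => Nat)
   (Bool.rec (motive := fun _ => Nat)
    L6688
    L6689
    (Nat.ble 856192 i))
   (Bool.rec (motive := fun _ => Nat)
    L6690
    L6691
    (Nat.ble 856448 i))
   (Nat.ble 856320 i))
  (Bool.rec (motive := fun _ => Nat)
   (Bool.rec (motive := fun _ => Nat)
    L6692
    L6693
    (Nat.ble 856704 i))
   (Bool.rec (motive := fun _ => Nat)
    L6694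
    L6695
    (Nat.ble 856960 i))
   (Nat.ble 856832 i))
  (Nat.ble 856576 i))
 (Bool.rec (motive := fun _ => Nat)
  (Bool.rec (motive := fun _ => Nat)
   (Bool.rec (motive := fun _ => Nat)
    L6696
    L6697
    (Nat.ble 857216 i))
   (Bool.rec (motive := fun _ => Nat)
    L6698
    L6699
    (Nat.ble 857472 i))
   (Nat.ble 857344 i))
  (Bool.rec (motive := fun _ => Nat)
   (Bool.rec (motive := fun _ => Nat)
    L6700
    L6701
    (Nat.ble 857728 i))
   (Bool.rec (motive := fun _ => Nat)
    L6702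
    L6703
    (Nat.ble 857984 i))
   (Nat.ble 857856 i))
  (Nat.ble 857600 i))
 (Nat.ble 857088 i))

/-- choice of a leaf -/
noncomputable def A0_419 (i : Nat) : Nat :=
 (Bool.rec (motive := fun _ => Nat)
 (Bool.rec (motive := fun _ => Nat)
  (Bool.rec (motive := fun _ => Nat)
   (Bool.rec (motive := fun _ => Nat)
    L6704
    L6705
    (Nat.ble 858240 i))
   (Bool.rec (motive := fun _ => Nat)
    L6706
    L6707
    (Nat.ble 858496 i))
   (Nat.ble 858368 i))
  (Bool.rec (motive := fun _ => Nat)
   (Bool.rec (motive := fun _ => Nat)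
    L6708
    L6709
    (Nat.ble 858752 i))
   (Bool.rec (motive := fun _ => Nat)
    L6710
    L6711
    (Nat.ble 859008 i))
   (Nat.ble 858880 i))
  (Nat.ble 858624 i))
 (Bool.rec (motive := fun _ => Nat)
  (Bool.rec (motive := fun _ => Nat)
   (Bool.rec (motive := fun _ => Nat)
    L6712
    L6713
    (Nat.ble 859264 i))
   (Bool.rec (motive := fun _ => Nat)
    L6714
    L6715
    (Nat.ble 859520 i))
   (Nat.ble 859392 i))
  (Bool.rec (motive := fun _ => Nat)
   (Bool.rec (motive := fun _ => Nat)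
    L6716
    L6717
    (Nat.ble 859776 i))
   (Bool.rec (motive := fun _ => Nat)
    L6718
    L6719
    (Nat.ble 860032 i))
   (Nat.ble 859904 i))
  (Nat.ble 859648 i))
 (Nat.ble 859136 i))

/-- choice of a leaf -/
noncomputable def A0_420 (i : Nat) : Nat :=
 (Bool.rec (motive := fun _ => Nat)
 (Bool.rec (motive := fun _ => Nat)
  (Bool.rec (motive := fun _ => Nat)
   (Bool.rec (motive := fun _ => Nat)
    L6720
    L6721
    (Nat.ble 860288 i))
   (Bool.rec (motive := fun _ => Nat)
    L6722
    L6723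
    (Nat.ble 860544 i))
   (Nat.ble 860416 i))
  (Bool.rec (motive := fun _ => Nat)
   (Bool.rec (motive := fun _ => Nat)
    L6724
    L6725
    (Nat.ble 860800 i))
   (Bool.rec (motive := fun _ => Nat)
    L6726
    L6727
    (Nat.ble 861056 i))
   (Nat.ble 860928 i))
  (Nat.ble 860672 i))
 (Bool.rec (motive := fun _ => Nat)
  (Bool.rec (motive := fun _ => Nat)
   (Bool.rec (motive := fun _ => Nat)
    L6728
    L6729
    (Nat.ble 861312 i))
   (Bool.rec (motive := fun _ => Nat)
    L6730
    L6731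
    (Nat.ble 861568 i))
   (Nat.ble 861440 i))
  (Bool.rec (motive := fun _ => Nat)
   (Bool.rec (motive := fun _ => Nat)
    L6732
    L6733
    (Nat.ble 861824 i))
   (Bool.rec (motive := fun _ => Nat)
    L6734
    L6735
    (Nat.ble 862080 i))
   (Nat.ble 861952 i))
  (Nat.ble 861696 i))
 (Nat.ble 861184 i))

/-- choice of a leaf -/
noncomputable def A0_421 (i : Nat) : Nat :=
 (Bool.rec (motive := fun _ => Nat)
 (Bool.rec (motive := fun _ => Nat)
  (Bool.rec (motive := fun _ => Nat)
   (Bool.rec (motive := fun _ => Nat)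
    L6736
    L6737
    (Nat.ble 862336 i))
   (Bool.rec (motive := fun _ => Nat)
    L6738
    L6739
    (Nat.ble 862592 i))
   (Nat.ble 862464 i))
  (Bool.rec (motive := fun _ => Nat)
   (Bool.rec (motive := fun _ => Nat)
    L6740
    L6741
    (Nat.ble 862848 i))
   (Bool.rec (motive := fun _ => Nat)
    L6742
    L6743
    (Nat.ble 863104 i))
   (Nat.ble 862976 i))
  (Nat.ble 862720 i))
 (Bool.rec (motive := fun _ => Nat)
  (Bool.rec (motive := fun _ => Nat)
   (Bool.rec (motive := fun _ => Nat)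
    L6744
    L6745
    (Nat.ble 863360 i))
   (Bool.rec (motive := fun _ => Nat)
    L6746
    L6747
    (Nat.ble 863616 i))
   (Nat.ble 863488 i))
  (Bool.rec (motive := fun _ => Nat)
   (Bool.rec (motive := fun _ => Nat)
    L6748
    L6749
    (Nat.ble 863872 i))
   (Bool.rec (motive := fun _ => Nat)
    L6750
    L6751
    (Nat.ble 864128 i))
   (Nat.ble 864000 i))
  (Nat.ble 863744 i))
 (Nat.ble 863232 i))

/-- choice of a leaf -/
noncomputable def A0_422 (i : Nat) : Nat :=
 (Bool.rec (motive := fun _ => Nat)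
 (Bool.rec (motive := fun _ => Nat)
  (Bool.rec (motive := fun _ => Nat)
   (Bool.rec (motive := fun _ => Nat)
    L6752
    L6753
    (Nat.ble 864384 i))
   (Bool.rec (motive := fun _ => Nat)
    L6754
    L6755
    (Nat.ble 864640 i))
   (Nat.ble 864512 i))
  (Bool.rec (motive := fun _ => Nat)
   (Bool.rec (motive := fun _ => Nat)
    L6756
    L6757
    (Nat.ble 864896 i))
   (Bool.rec (motive := fun _ => Nat)
    L6758
    L6759
    (Nat.ble 865152 i))
   (Nat.ble 865024 i))
  (Nat.ble 864768 i))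
 (Bool.rec (motive := fun _ => Nat)
  (Bool.rec (motive := fun _ => Nat)
   (Bool.rec (motive := fun _ => Nat)
    L6760
    L6761
    (Nat.ble 865408 i))
   (Bool.rec (motive := fun _ => Nat)
    L6762
    L6763
    (Nat.ble 865664 i))
   (Nat.ble 865536 i))
  (Bool.rec (motive := fun _ => Nat)
   (Bool.rec (motive := fun _ => Nat)
    L6764
    L6765
    (Nat.ble 865920 i))
   (Bool.rec (motive := fun _ => Nat)
    L6766
    L6767
    (Nat.ble 866176 i))
   (Nat.ble 866048 i))
  (Nat.ble 865792 i))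
 (Nat.ble 865280 i))

/-- choice of a leaf -/
noncomputable def A0_423 (i : Nat) : Nat :=
 (Bool.rec (motive := fun _ => Nat)
 (Bool.rec (motive := fun _ => Nat)
  (Bool.rec (motive := fun _ => Nat)
   (Bool.rec (motive := fun _ => Nat)
    L6768
    L6769
    (Nat.ble 866432 i))
   (Bool.rec (motive := fun _ => Nat)
    L6770
    L6771
    (Nat.ble 866688 i))
   (Nat.ble 866560 i))
  (Bool.rec (motive := fun _ => Nat)
   (Bool.rec (motive := fun _ => Nat)
    L6772
    L6773
    (Nat.ble 866944 i))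
   (Bool.rec (motive := fun _ => Nat)
    L6774
    L6775
    (Nat.ble 867200 i))
   (Nat.ble 867072 i))
  (Nat.ble 866816 i))
 (Bool.rec (motive := fun _ => Nat)
  (Bool.rec (motive := fun _ => Nat)
   (Bool.rec (motive := fun _ => Nat)
    L6776
    L6777
    (Nat.ble 867456 i))
   (Bool.rec (motive := fun _ => Nat)
    L6778
    L6779
    (Nat.ble 867712 i))
   (Nat.ble 867584 i))
  (Bool.rec (motive := fun _ => Nat)
   (Bool.rec (motive := fun _ => Nat)
    L6780
    L6781
    (Nat.ble 867968 i))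
   (Bool.rec (motive := fun _ => Nat)
    L6782
    L6783
    (Nat.ble 868224 i))
   (Nat.ble 868096 i))
  (Nat.ble 867840 i))
 (Nat.ble 867328 i))

/-- choice of a leaf -/
noncomputable def A0_424 (i : Nat) : Nat :=
 (Bool.rec (motive := fun _ => Nat)
 (Bool.rec (motive := fun _ => Nat)
  (Bool.rec (motive := fun _ => Nat)
   (Bool.rec (motive := fun _ => Nat)
    L6784
    L6785
    (Nat.ble 868480 i))
   (Bool.rec (motive := fun _ => Nat)
    L6786
    L6787
    (Nat.ble 868736 i))
   (Nat.ble 868608 i))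
  (Bool.rec (motive := fun _ => Nat)
   (Bool.rec (motive := fun _ => Nat)
    L6788
    L6789
    (Nat.ble 868992 i))
   (Bool.rec (motive := fun _ => Nat)
    L6790
    L6791
    (Nat.ble 869248 i))
   (Nat.ble 869120 i))
  (Nat.ble 868864 i))
 (Bool.rec (motive := fun _ => Nat)
  (Bool.rec (motive := fun _ => Nat)
   (Bool.rec (motive := fun _ => Nat)
    L6792
    L6793
    (Nat.ble 869504 i))
   (Bool.rec (motive := fun _ => Nat)
    L6794
    L6795
    (Nat.ble 869760 i))
   (Nat.ble 869632 i))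
  (Bool.rec (motive := fun _ => Nat)
   (Bool.rec (motive := fun _ => Nat)
    L6796
    L6797
    (Nat.ble 870016 i))
   (Bool.rec (motive := fun _ => Nat)
    L6798
    L6799
    (Nat.ble 870272 i))
   (Nat.ble 870144 i))
  (Nat.ble 869888 i))
 (Nat.ble 869376 i))

/-- choice of a leaf -/
noncomputable def A0_425 (i : Nat) : Nat :=
 (Bool.rec (motive := fun _ => Nat)
 (Bool.rec (motive := fun _ => Nat)
  (Bool.rec (motive := fun _ => Nat)
   (Bool.rec (motive := fun _ => Nat)
    L6800
    L6801
    (Nat.ble 870528 i))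
   (Bool.rec (motive := fun _ => Nat)
    L6802
    L6803
    (Nat.ble 870784 i))
   (Nat.ble 870656 i))
  (Bool.rec (motive := fun _ => Nat)
   (Bool.rec (motive := fun _ => Nat)
    L6804
    L6805
    (Nat.ble 871040 i))
   (Bool.rec (motive := fun _ => Nat)
    L6806
    L6807
    (Nat.ble 871296 i))
   (Nat.ble 871168 i))
  (Nat.ble 870912 i))
 (Bool.rec (motive := fun _ => Nat)
  (Bool.rec (motive := fun _ => Nat)
   (Bool.rec (motive := fun _ => Nat)
    L6808
    L6809
    (Nat.ble 871552 i))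
   (Bool.rec (motive := fun _ => Nat)
    L6810
    L6811
    (Nat.ble 871808 i))
   (Nat.ble 871680 i))
  (Bool.rec (motive := fun _ => Nat)
   (Bool.rec (motive := fun _ => Nat)
    L6812
    L6813
    (Nat.ble 872064 i))
   (Bool.rec (motive := fun _ => Nat)
    L6814
    L6815
    (Nat.ble 872320 i))
   (Nat.ble 872192 i))
  (Nat.ble 871936 i))
 (Nat.ble 871424 i))

/-- choice of a leaf -/
noncomputable def A0_426 (i : Nat) : Nat :=
 (Bool.rec (motive := fun _ => Nat)
 (Bool.rec (motive := fun _ => Nat)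
  (Bool.rec (motive := fun _ => Nat)
   (Bool.rec (motive := fun _ => Nat)
    L6816
    L6817
    (Nat.ble 872576 i))
   (Bool.rec (motive := fun _ => Nat)
    L6818
    L6819
    (Nat.ble 872832 i))
   (Nat.ble 872704 i))
  (Bool.rec (motive := fun _ => Nat)
   (Bool.rec (motive := fun _ => Nat)
    L6820
    L6821
    (Nat.ble 873088 i))
   (Bool.rec (motive := fun _ => Nat)
    L6822
    L6823
    (Nat.ble 873344 i))
   (Nat.ble 873216 i))
  (Nat.ble 872960 i))
 (Bool.rec (motive := fun _ => Nat)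
  (Bool.rec (motive := fun _ => Nat)
   (Bool.rec (motive := fun _ => Nat)
    L6824
    L6825
    (Nat.ble 873600 i))
   (Bool.rec (motive := fun _ => Nat)
    L6826
    L6827
    (Nat.ble 873856 i))
   (Nat.ble 873728 i))
  (Bool.rec (motive := fun _ => Nat)
   (Bool.rec (motive := fun _ => Nat)
    L6828
    L6829
    (Nat.ble 874112 i))
   (Bool.rec (motive := fun _ => Nat)
    L6830
    L6831
    (Nat.ble 874368 i))
   (Nat.ble 874240 i))
  (Nat.ble 873984 i))
 (Nat.ble 873472 i))

/-- choice of a leaf -/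
noncomputable def A0_427 (i : Nat) : Nat :=
 (Bool.rec (motive := fun _ => Nat)
 (Bool.rec (motive := fun _ => Nat)
  (Bool.rec (motive := fun _ => Nat)
   (Bool.rec (motive := fun _ => Nat)
    L6832
    L6833
    (Nat.ble 874624 i))
   (Bool.rec (motive := fun _ => Nat)
    L6834
    L6835
    (Nat.ble 874880 i))
   (Nat.ble 874752 i))
  (Bool.rec (motive := fun _ => Nat)
   (Bool.rec (motive := fun _ => Nat)
    L6836
    L6837
    (Nat.ble 875136 i))
   (Bool.rec (motive := fun _ => Nat)
    L6838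
    L6839
    (Nat.ble 875392 i))
   (Nat.ble 875264 i))
  (Nat.ble 875008 i))
 (Bool.rec (motive := fun _ => Nat)
  (Bool.rec (motive := fun _ => Nat)
   (Bool.rec (motive := fun _ => Nat)
    L6840
    L6841
    (Nat.ble 875648 i))
   (Bool.rec (motive := fun _ => Nat)
    L6842
    L6843
    (Nat.ble 875904 i))
   (Nat.ble 875776 i))
  (Bool.rec (motive := fun _ => Nat)
   (Bool.rec (motive := fun _ => Nat)
    L6844
    L6845
    (Nat.ble 876160 i))
   (Bool.rec (motive := fun _ => Nat)
    L6846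
    L6847
    (Nat.ble 876416 i))
   (Nat.ble 876288 i))
  (Nat.ble 876032 i))
 (Nat.ble 875520 i))

/-- choice of a leaf -/
noncomputable def A0_428 (i : Nat) : Nat :=
 (Bool.rec (motive := fun _ => Nat)
 (Bool.rec (motive := fun _ => Nat)
  (Bool.rec (motive := fun _ => Nat)
   (Bool.rec (motive := fun _ => Nat)
    L6848
    L6849
    (Nat.ble 876672 i))
   (Bool.rec (motive := fun _ => Nat)
    L6850
    L6851
    (Nat.ble 876928 i))
   (Nat.ble 876800 i))
  (Bool.rec (motive := fun _ => Nat)
   (Bool.rec (motive := fun _ => Nat)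
    L6852
    L6853
    (Nat.ble 877184 i))
   (Bool.rec (motive := fun _ => Nat)
    L6854
    L6855
    (Nat.ble 877440 i))
   (Nat.ble 877312 i))
  (Nat.ble 877056 i))
 (Bool.rec (motive := fun _ => Nat)
  (Bool.rec (motive := fun _ => Nat)
   (Bool.rec (motive := fun _ => Nat)
    L6856
    L6857
    (Nat.ble 877696 i))
   (Bool.rec (motive := fun _ => Nat)
    L6858
    L6859
    (Nat.ble 877952 i))
   (Nat.ble 877824 i))
  (Bool.rec (motive := fun _ => Nat)
   (Bool.rec (motive := fun _ => Nat)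
    L6860
    L6861
    (Nat.ble 878208 i))
   (Bool.rec (motive := fun _ => Nat)
    L6862
    L6863
    (Nat.ble 878464 i))
   (Nat.ble 878336 i))
  (Nat.ble 878080 i))
 (Nat.ble 877568 i))

/-- choice of a leaf -/
noncomputable def A0_429 (i : Nat) : Nat :=
 (Bool.rec (motive := fun _ => Nat)
 (Bool.rec (motive := fun _ => Nat)
  (Bool.rec (motive := fun _ => Nat)
   (Bool.rec (motive := fun _ => Nat)
    L6864
    L6865
    (Nat.ble 878720 i))
   (Bool.rec (motive := fun _ => Nat)
    L6866
    L6867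
    (Nat.ble 878976 i))
   (Nat.ble 878848 i))
  (Bool.rec (motive := fun _ => Nat)
   (Bool.rec (motive := fun _ => Nat)
    L6868
    L6869
    (Nat.ble 879232 i))
   (Bool.rec (motive := fun _ => Nat)
    L6870
    L6871
    (Nat.ble 879488 i))
   (Nat.ble 879360 i))
  (Nat.ble 879104 i))
 (Bool.rec (motive := fun _ => Nat)
  (Bool.rec (motive := fun _ => Nat)
   (Bool.rec (motive := fun _ => Nat)
    L6872
    L6873
    (Nat.ble 879744 i))
   (Bool.rec (motive := fun _ => Nat)
    L6874
    L6875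
    (Nat.ble 880000 i))
   (Nat.ble 879872 i))
  (Bool.rec (motive := fun _ => Nat)
   (Bool.rec (motive := fun _ => Nat)
    L6876
    L6877
    (Nat.ble 880256 i))
   (Bool.rec (motive := fun _ => Nat)
    L6878
    L6879
    (Nat.ble 880512 i))
   (Nat.ble 880384 i))
  (Nat.ble 880128 i))
 (Nat.ble 879616 i))

/-- choice of a leaf -/
noncomputable def A0_430 (i : Nat) : Nat :=
 (Bool.rec (motive := fun _ => Nat)
 (Bool.rec (motive := fun _ => Nat)
  (Bool.rec (motive := fun _ => Nat)
   (Bool.rec (motive := fun _ => Nat)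
    L6880
    L6881
    (Nat.ble 880768 i))
   (Bool.rec (motive := fun _ => Nat)
    L6882
    L6883
    (Nat.ble 881024 i))
   (Nat.ble 880896 i))
  (Bool.rec (motive := fun _ => Nat)
   (Bool.rec (motive := fun _ => Nat)
    L6884
    L6885
    (Nat.ble 881280 i))
   (Bool.rec (motive := fun _ => Nat)
    L6886
    L6887
    (Nat.ble 881536 i))
   (Nat.ble 881408 i))
  (Nat.ble 881152 i))
 (Bool.rec (motive := fun _ => Nat)
  (Bool.rec (motive := fun _ => Nat)
   (Bool.rec (motive := fun _ => Nat)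
    L6888
    L6889
    (Nat.ble 881792 i))
   (Bool.rec (motive := fun _ => Nat)
    L6890
    L6891
    (Nat.ble 882048 i))
   (Nat.ble 881920 i))
  (Bool.rec (motive := fun _ => Nat)
   (Bool.rec (motive := fun _ => Nat)
    L6892
    L6893
    (Nat.ble 882304 i))
   (Bool.rec (motive := fun _ => Nat)
    L6894
    L6895
    (Nat.ble 882560 i))
   (Nat.ble 882432 i))
  (Nat.ble 882176 i))
 (Nat.ble 881664 i))

/-- choice of a leaf -/
noncomputable def A0_431 (i : Nat) : Nat :=
 (Bool.rec (motive := fun _ => Nat)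
 (Bool.rec (motive := fun _ => Nat)
  (Bool.rec (motive := fun _ => Nat)
   (Bool.rec (motive := fun _ => Nat)
    L6896
    L6897
    (Nat.ble 882816 i))
   (Bool.rec (motive := fun _ => Nat)
    L6898
    L6899
    (Nat.ble 883072 i))
   (Nat.ble 882944 i))
  (Bool.rec (motive := fun _ => Nat)
   (Bool.rec (motive := fun _ => Nat)
    L6900
    L6901
    (Nat.ble 883328 i))
   (Bool.rec (motive := fun _ => Nat)
    L6902
    L6903
    (Nat.ble 883584 i))
   (Nat.ble 883456 i))
  (Nat.ble 883200 i))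
 (Bool.rec (motive := fun _ => Nat)
  (Bool.rec (motive := fun _ => Nat)
   (Bool.rec (motive := fun _ => Nat)
    L6904
    L6905
    (Nat.ble 883840 i))
   (Bool.rec (motive := fun _ => Nat)
    L6906
    L6907
    (Nat.ble 884096 i))
   (Nat.ble 883968 i))
  (Bool.rec (motive := fun _ => Nat)
   (Bool.rec (motive := fun _ => Nat)
    L6908
    L6909
    (Nat.ble 884352 i))
   (Bool.rec (motive := fun _ => Nat)
    L6910
    L6911
    (Nat.ble 884608 i))
   (Nat.ble 884480 i))
  (Nat.ble 884224 i))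
 (Nat.ble 883712 i))

/-- choice of a leaf -/
noncomputable def A0_432 (i : Nat) : Nat :=
 (Bool.rec (motive := fun _ => Nat)
 (Bool.rec (motive := fun _ => Nat)
  (Bool.rec (motive := fun _ => Nat)
   (Bool.rec (motive := fun _ => Nat)
    L6912
    L6913
    (Nat.ble 884864 i))
   (Bool.rec (motive := fun _ => Nat)
    L6914
    L6915
    (Nat.ble 885120 i))
   (Nat.ble 884992 i))
  (Bool.rec (motive := fun _ => Nat)
   (Bool.rec (motive := fun _ => Nat)
    L6916
    L6917
    (Nat.ble 885376 i))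
   (Bool.rec (motive := fun _ => Nat)
    L6918
    L6919
    (Nat.ble 885632 i))
   (Nat.ble 885504 i))
  (Nat.ble 885248 i))
 (Bool.rec (motive := fun _ => Nat)
  (Bool.rec (motive := fun _ => Nat)
   (Bool.rec (motive := fun _ => Nat)
    L6920
    L6921
    (Nat.ble 885888 i))
   (Bool.rec (motive := fun _ => Nat)
    L6922
    L6923
    (Nat.ble 886144 i))
   (Nat.ble 886016 i))
  (Bool.rec (motive := fun _ => Nat)
   (Bool.rec (motive := fun _ => Nat)
    L6924
    L6925
    (Nat.ble 886400 i))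
   (Bool.rec (motive := fun _ => Nat)
    L6926
    L6927
    (Nat.ble 886656 i))
   (Nat.ble 886528 i))
  (Nat.ble 886272 i))
 (Nat.ble 885760 i))

/-- choice of a leaf -/
noncomputable def A0_433 (i : Nat) : Nat :=
 (Bool.rec (motive := fun _ => Nat)
 (Bool.rec (motive := fun _ => Nat)
  (Bool.rec (motive := fun _ => Nat)
   (Bool.rec (motive := fun _ => Nat)
    L6928
    L6929
    (Nat.ble 886912 i))
   (Bool.rec (motive := fun _ => Nat)
    L6930
    L6931
    (Nat.ble 887168 i))
   (Nat.ble 887040 i))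
  (Bool.rec (motive := fun _ => Nat)
   (Bool.rec (motive := fun _ => Nat)
    L6932
    L6933
    (Nat.ble 887424 i))
   (Bool.rec (motive := fun _ => Nat)
    L6934
    L6935
    (Nat.ble 887680 i))
   (Nat.ble 887552 i))
  (Nat.ble 887296 i))
 (Bool.rec (motive := fun _ => Nat)
  (Bool.rec (motive := fun _ => Nat)
   (Bool.rec (motive := fun _ => Nat)
    L6936
    L6937
    (Nat.ble 887936 i))
   (Bool.rec (motive := fun _ => Nat)
    L6938
    L6939
    (Nat.ble 888192 i))
   (Nat.ble 888064 i))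
  (Bool.rec (motive := fun _ => Nat)
   (Bool.rec (motive := fun _ => Nat)
    L6940
    L6941
    (Nat.ble 888448 i))
   (Bool.rec (motive := fun _ => Nat)
    L6942
    L6943
    (Nat.ble 888704 i))
   (Nat.ble 888576 i))
  (Nat.ble 888320 i))
 (Nat.ble 887808 i))

/-- choice of a leaf -/
noncomputable def A0_434 (i : Nat) : Nat :=
 (Bool.rec (motive := fun _ => Nat)
 (Bool.rec (motive := fun _ => Nat)
  (Bool.rec (motive := fun _ => Nat)
   (Bool.rec (motive := fun _ => Nat)
    L6944
    L6945
    (Nat.ble 888960 i))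
   (Bool.rec (motive := fun _ => Nat)
    L6946
    L6947
    (Nat.ble 889216 i))
   (Nat.ble 889088 i))
  (Bool.rec (motive := fun _ => Nat)
   (Bool.rec (motive := fun _ => Nat)
    L6948
    L6949
    (Nat.ble 889472 i))
   (Bool.rec (motive := fun _ => Nat)
    L6950
    L6951
    (Nat.ble 889728 i))
   (Nat.ble 889600 i))
  (Nat.ble 889344 i))
 (Bool.rec (motive := fun _ => Nat)
  (Bool.rec (motive := fun _ => Nat)
   (Bool.rec (motive := fun _ => Nat)
    L6952
    L6953
    (Nat.ble 889984 i))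
   (Bool.rec (motive := fun _ => Nat)
    L6954
    L6955
    (Nat.ble 890240 i))
   (Nat.ble 890112 i))
  (Bool.rec (motive := fun _ => Nat)
   (Bool.rec (motive := fun _ => Nat)
    L6956
    L6957
    (Nat.ble 890496 i))
   (Bool.rec (motive := fun _ => Nat)
    L6958
    L6959
    (Nat.ble 890752 i))
   (Nat.ble 890624 i))
  (Nat.ble 890368 i))
 (Nat.ble 889856 i))

/-- choice of a leaf -/
noncomputable def A0_435 (i : Nat) : Nat :=
 (Bool.rec (motive := fun _ => Nat)
 (Bool.rec (motive := fun _ => Nat)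
  (Bool.rec (motive := fun _ => Nat)
   (Bool.rec (motive := fun _ => Nat)
    L6960
    L6961
    (Nat.ble 891008 i))
   (Bool.rec (motive := fun _ => Nat)
    L6962
    L6963
    (Nat.ble 891264 i))
   (Nat.ble 891136 i))
  (Bool.rec (motive := fun _ => Nat)
   (Bool.rec (motive := fun _ => Nat)
    L6964
    L6965
    (Nat.ble 891520 i))
   (Bool.rec (motive := fun _ => Nat)
    L6966
    L6967
    (Nat.ble 891776 i))
   (Nat.ble 891648 i))
  (Nat.ble 891392 i))
 (Bool.rec (motive := fun _ => Nat)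
  (Bool.rec (motive := fun _ => Nat)
   (Bool.rec (motive := fun _ => Nat)
    L6968
    L6969
    (Nat.ble 892032 i))
   (Bool.rec (motive := fun _ => Nat)
    L6970
    L6971
    (Nat.ble 892288 i))
   (Nat.ble 892160 i))
  (Bool.rec (motive := fun _ => Nat)
   (Bool.rec (motive := fun _ => Nat)
    L6972
    L6973
    (Nat.ble 892544 i))
   (Bool.rec (motive := fun _ => Nat)
    L6974
    L6975
    (Nat.ble 892800 i))
   (Nat.ble 892672 i))
  (Nat.ble 892416 i))
 (Nat.ble 891904 i))

/-- choice of a leaf -/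
noncomputable def A0_436 (i : Nat) : Nat :=
 (Bool.rec (motive := fun _ => Nat)
 (Bool.rec (motive := fun _ => Nat)
  (Bool.rec (motive := fun _ => Nat)
   (Bool.rec (motive := fun _ => Nat)
    L6976
    L6977
    (Nat.ble 893056 i))
   (Bool.rec (motive := fun _ => Nat)
    L6978
    L6979
    (Nat.ble 893312 i))
   (Nat.ble 893184 i))
  (Bool.rec (motive := fun _ => Nat)
   (Bool.rec (motive := fun _ => Nat)
    L6980
    L6981
    (Nat.ble 893568 i))
   (Bool.rec (motive := fun _ => Nat)
    L6982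
    L6983
    (Nat.ble 893824 i))
   (Nat.ble 893696 i))
  (Nat.ble 893440 i))
 (Bool.rec (motive := fun _ => Nat)
  (Bool.rec (motive := fun _ => Nat)
   (Bool.rec (motive := fun _ => Nat)
    L6984
    L6985
    (Nat.ble 894080 i))
   (Bool.rec (motive := fun _ => Nat)
    L6986
    L6987
    (Nat.ble 894336 i))
   (Nat.ble 894208 i))
  (Bool.rec (motive := fun _ => Nat)
   (Bool.rec (motive := fun _ => Nat)
    L6988
    L6989
    (Nat.ble 894592 i))
   (Bool.rec (motive := fun _ => Nat)
    L6990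
    L6991
    (Nat.ble 894848 i))
   (Nat.ble 894720 i))
  (Nat.ble 894464 i))
 (Nat.ble 893952 i))

/-- choice of a leaf -/
noncomputable def A0_437 (i : Nat) : Nat :=
 (Bool.rec (motive := fun _ => Nat)
 (Bool.rec (motive := fun _ => Nat)
  (Bool.rec (motive := fun _ => Nat)
   (Bool.rec (motive := fun _ => Nat)
    L6992
    L6993
    (Nat.ble 895104 i))
   (Bool.rec (motive := fun _ => Nat)
    L6994
    L6995
    (Nat.ble 895360 i))
   (Nat.ble 895232 i))
  (Bool.rec (motive := fun _ => Nat)
   (Bool.rec (motive := fun _ => Nat)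
    L6996
    L6997
    (Nat.ble 895616 i))
   (Bool.rec (motive := fun _ => Nat)
    L6998
    L6999
    (Nat.ble 895872 i))
   (Nat.ble 895744 i))
  (Nat.ble 895488 i))
 (Bool.rec (motive := fun _ => Nat)
  (Bool.rec (motive := fun _ => Nat)
   (Bool.rec (motive := fun _ => Nat)
    L7000
    L7001
    (Nat.ble 896128 i))
   (Bool.rec (motive := fun _ => Nat)
    L7002
    L7003
    (Nat.ble 896384 i))
   (Nat.ble 896256 i))
  (Bool.rec (motive := fun _ => Nat)
   (Bool.rec (motive := fun _ => Nat)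
    L7004
    L7005
    (Nat.ble 896640 i))
   (Bool.rec (motive := fun _ => Nat)
    L7006
    L7007
    (Nat.ble 896896 i))
   (Nat.ble 896768 i))
  (Nat.ble 896512 i))
 (Nat.ble 896000 i))

/-- choice of a leaf -/
noncomputable def A0_438 (i : Nat) : Nat :=
 (Bool.rec (motive := fun _ => Nat)
 (Bool.rec (motive := fun _ => Nat)
  (Bool.rec (motive := fun _ => Nat)
   (Bool.rec (motive := fun _ => Nat)
    L7008
    L7009
    (Nat.ble 897152 i))
   (Bool.rec (motive := fun _ => Nat)
    L7010
    L7011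
    (Nat.ble 897408 i))
   (Nat.ble 897280 i))
  (Bool.rec (motive := fun _ => Nat)
   (Bool.rec (motive := fun _ => Nat)
    L7012
    L7013
    (Nat.ble 897664 i))
   (Bool.rec (motive := fun _ => Nat)
    L7014
    L7015
    (Nat.ble 897920 i))
   (Nat.ble 897792 i))
  (Nat.ble 897536 i))
 (Bool.rec (motive := fun _ => Nat)
  (Bool.rec (motive := fun _ => Nat)
   (Bool.rec (motive := fun _ => Nat)
    L7016
    L7017
    (Nat.ble 898176 i))
   (Bool.rec (motive := fun _ => Nat)
    L7018
    L7019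
    (Nat.ble 898432 i))
   (Nat.ble 898304 i))
  (Bool.rec (motive := fun _ => Nat)
   (Bool.rec (motive := fun _ => Nat)
    L7020
    L7021
    (Nat.ble 898688 i))
   (Bool.rec (motive := fun _ => Nat)
    L7022
    L7023
    (Nat.ble 898944 i))
   (Nat.ble 898816 i))
  (Nat.ble 898560 i))
 (Nat.ble 898048 i))

/-- choice of a leaf -/
noncomputable def A0_439 (i : Nat) : Nat :=
 (Bool.rec (motive := fun _ => Nat)
 (Bool.rec (motive := fun _ => Nat)
  (Bool.rec (motive := fun _ => Nat)
   (Bool.rec (motive := fun _ => Nat)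
    L7024
    L7025
    (Nat.ble 899200 i))
   (Bool.rec (motive := fun _ => Nat)
    L7026
    L7027
    (Nat.ble 899456 i))
   (Nat.ble 899328 i))
  (Bool.rec (motive := fun _ => Nat)
   (Bool.rec (motive := fun _ => Nat)
    L7028
    L7029
    (Nat.ble 899712 i))
   (Bool.rec (motive := fun _ => Nat)
    L7030
    L7031
    (Nat.ble 899968 i))
   (Nat.ble 899840 i))
  (Nat.ble 899584 i))
 (Bool.rec (motive := fun _ => Nat)
  (Bool.rec (motive := fun _ => Nat)
   (Bool.rec (motive := fun _ => Nat)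
    L7032
    L7033
    (Nat.ble 900224 i))
   (Bool.rec (motive := fun _ => Nat)
    L7034
    L7035
    (Nat.ble 900480 i))
   (Nat.ble 900352 i))
  (Bool.rec (motive := fun _ => Nat)
   (Bool.rec (motive := fun _ => Nat)
    L7036
    L7037
    (Nat.ble 900736 i))
   (Bool.rec (motive := fun _ => Nat)
    L7038
    L7039
    (Nat.ble 900992 i))
   (Nat.ble 900864 i))
  (Nat.ble 900608 i))
 (Nat.ble 900096 i))

/-- choice of a leaf -/
noncomputable def A0_440 (i : Nat) : Nat :=
 (Bool.rec (motive := fun _ => Nat)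
 (Bool.rec (motive := fun _ => Nat)
  (Bool.rec (motive := fun _ => Nat)
   (Bool.rec (motive := fun _ => Nat)
    L7040
    L7041
    (Nat.ble 901248 i))
   (Bool.rec (motive := fun _ => Nat)
    L7042
    L7043
    (Nat.ble 901504 i))
   (Nat.ble 901376 i))
  (Bool.rec (motive := fun _ => Nat)
   (Bool.rec (motive := fun _ => Nat)
    L7044
    L7045
    (Nat.ble 901760 i))
   (Bool.rec (motive := fun _ => Nat)
    L7046
    L7047
    (Nat.ble 902016 i))
   (Nat.ble 901888 i))
  (Nat.ble 901632 i))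
 (Bool.rec (motive := fun _ => Nat)
  (Bool.rec (motive := fun _ => Nat)
   (Bool.rec (motive := fun _ => Nat)
    L7048
    L7049
    (Nat.ble 902272 i))
   (Bool.rec (motive := fun _ => Nat)
    L7050
    L7051
    (Nat.ble 902528 i))
   (Nat.ble 902400 i))
  (Bool.rec (motive := fun _ => Nat)
   (Bool.rec (motive := fun _ => Nat)
    L7052
    L7053
    (Nat.ble 902784 i))
   (Bool.rec (motive := fun _ => Nat)
    L7054
    L7055
    (Nat.ble 903040 i))
   (Nat.ble 902912 i))
  (Nat.ble 902656 i))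
 (Nat.ble 902144 i))

/-- choice of a leaf -/
noncomputable def A0_441 (i : Nat) : Nat :=
 (Bool.rec (motive := fun _ => Nat)
 (Bool.rec (motive := fun _ => Nat)
  (Bool.rec (motive := fun _ => Nat)
   (Bool.rec (motive := fun _ => Nat)
    L7056
    L7057
    (Nat.ble 903296 i))
   (Bool.rec (motive := fun _ => Nat)
    L7058
    L7059
    (Nat.ble 903552 i))
   (Nat.ble 903424 i))
  (Bool.rec (motive := fun _ => Nat)
   (Bool.rec (motive := fun _ => Nat)
    L7060
    L7061
    (Nat.ble 903808 i))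
   (Bool.rec (motive := fun _ => Nat)
    L7062
    L7063
    (Nat.ble 904064 i))
   (Nat.ble 903936 i))
  (Nat.ble 903680 i))
 (Bool.rec (motive := fun _ => Nat)
  (Bool.rec (motive := fun _ => Nat)
   (Bool.rec (motive := fun _ => Nat)
    L7064
    L7065
    (Nat.ble 904320 i))
   (Bool.rec (motive := fun _ => Nat)
    L7066
    L7067
    (Nat.ble 904576 i))
   (Nat.ble 904448 i))
  (Bool.rec (motive := fun _ => Nat)
   (Bool.rec (motive := fun _ => Nat)
    L7068
    L7069
    (Nat.ble 904832 i))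
   (Bool.rec (motive := fun _ => Nat)
    L7070
    L7071
    (Nat.ble 905088 i))
   (Nat.ble 904960 i))
  (Nat.ble 904704 i))
 (Nat.ble 904192 i))

/-- choice of a leaf -/
noncomputable def A0_442 (i : Nat) : Nat :=
 (Bool.rec (motive := fun _ => Nat)
 (Bool.rec (motive := fun _ => Nat)
  (Bool.rec (motive := fun _ => Nat)
   (Bool.rec (motive := fun _ => Nat)
    L7072
    L7073
    (Nat.ble 905344 i))
   (Bool.rec (motive := fun _ => Nat)
    L7074
    L7075
    (Nat.ble 905600 i))
   (Nat.ble 905472 i))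
  (Bool.rec (motive := fun _ => Nat)
   (Bool.rec (motive := fun _ => Nat)
    L7076
    L7077
    (Nat.ble 905856 i))
   (Bool.rec (motive := fun _ => Nat)
    L7078
    L7079
    (Nat.ble 906112 i))
   (Nat.ble 905984 i))
  (Nat.ble 905728 i))
 (Bool.rec (motive := fun _ => Nat)
  (Bool.rec (motive := fun _ => Nat)
   (Bool.rec (motive := fun _ => Nat)
    L7080
    L7081
    (Nat.ble 906368 i))
   (Bool.rec (motive := fun _ => Nat)
    L7082
    L7083
    (Nat.ble 906624 i))
   (Nat.ble 906496 i))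
  (Bool.rec (motive := fun _ => Nat)
   (Bool.rec (motive := fun _ => Nat)
    L7084
    L7085
    (Nat.ble 906880 i))
   (Bool.rec (motive := fun _ => Nat)
    L7086
    L7087
    (Nat.ble 907136 i))
   (Nat.ble 907008 i))
  (Nat.ble 906752 i))
 (Nat.ble 906240 i))

/-- choice of a leaf -/
noncomputable def A0_443 (i : Nat) : Nat :=
 (Bool.rec (motive := fun _ => Nat)
 (Bool.rec (motive := fun _ => Nat)
  (Bool.rec (motive := fun _ => Nat)
   (Bool.rec (motive := fun _ => Nat)
    L7088
    L7089
    (Nat.ble 907392 i))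
   (Bool.rec (motive := fun _ => Nat)
    L7090
    L7091
    (Nat.ble 907648 i))
   (Nat.ble 907520 i))
  (Bool.rec (motive := fun _ => Nat)
   (Bool.rec (motive := fun _ => Nat)
    L7092
    L7093
    (Nat.ble 907904 i))
   (Bool.rec (motive := fun _ => Nat)
    L7094
    L7095
    (Nat.ble 908160 i))
   (Nat.ble 908032 i))
  (Nat.ble 907776 i))
 (Bool.rec (motive := fun _ => Nat)
  (Bool.rec (motive := fun _ => Nat)
   (Bool.rec (motive := fun _ => Nat)
    L7096
    L7097
    (Nat.ble 908416 i))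
   (Bool.rec (motive := fun _ => Nat)
    L7098
    L7099
    (Nat.ble 908672 i))
   (Nat.ble 908544 i))
  (Bool.rec (motive := fun _ => Nat)
   (Bool.rec (motive := fun _ => Nat)
    L7100
    L7101
    (Nat.ble 908928 i))
   (Bool.rec (motive := fun _ => Nat)
    L7102
    L7103
    (Nat.ble 909184 i))
   (Nat.ble 909056 i))
  (Nat.ble 908800 i))
 (Nat.ble 908288 i))

/-- choice of a leaf -/
noncomputable def A0_444 (i : Nat) : Nat :=
 (Bool.rec (motive := fun _ => Nat)
 (Bool.rec (motive := fun _ => Nat)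
  (Bool.rec (motive := fun _ => Nat)
   (Bool.rec (motive := fun _ => Nat)
    L7104
    L7105
    (Nat.ble 909440 i))
   (Bool.rec (motive := fun _ => Nat)
    L7106
    L7107
    (Nat.ble 909696 i))
   (Nat.ble 909568 i))
  (Bool.rec (motive := fun _ => Nat)
   (Bool.rec (motive := fun _ => Nat)
    L7108
    L7109
    (Nat.ble 909952 i))
   (Bool.rec (motive := fun _ => Nat)
    L7110
    L7111
    (Nat.ble 910208 i))
   (Nat.ble 910080 i))
  (Nat.ble 909824 i))
 (Bool.rec (motive := fun _ => Nat)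
  (Bool.rec (motive := fun _ => Nat)
   (Bool.rec (motive := fun _ => Nat)
    L7112
    L7113
    (Nat.ble 910464 i))
   (Bool.rec (motive := fun _ => Nat)
    L7114
    L7115
    (Nat.ble 910720 i))
   (Nat.ble 910592 i))
  (Bool.rec (motive := fun _ => Nat)
   (Bool.rec (motive := fun _ => Nat)
    L7116
    L7117
    (Nat.ble 910976 i))
   (Bool.rec (motive := fun _ => Nat)
    L7118
    L7119
    (Nat.ble 911232 i))
   (Nat.ble 911104 i))
  (Nat.ble 910848 i))
 (Nat.ble 910336 i))

/-- choice of a leaf -/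
noncomputable def A0_445 (i : Nat) : Nat :=
 (Bool.rec (motive := fun _ => Nat)
 (Bool.rec (motive := fun _ => Nat)
  (Bool.rec (motive := fun _ => Nat)
   (Bool.rec (motive := fun _ => Nat)
    L7120
    L7121
    (Nat.ble 911488 i))
   (Bool.rec (motive := fun _ => Nat)
    L7122
    L7123
    (Nat.ble 911744 i))
   (Nat.ble 911616 i))
  (Bool.rec (motive := fun _ => Nat)
   (Bool.rec (motive := fun _ => Nat)
    L7124
    L7125
    (Nat.ble 912000 i))
   (Bool.rec (motive := fun _ => Nat)
    L7126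
    L7127
    (Nat.ble 912256 i))
   (Nat.ble 912128 i))
  (Nat.ble 911872 i))
 (Bool.rec (motive := fun _ => Nat)
  (Bool.rec (motive := fun _ => Nat)
   (Bool.rec (motive := fun _ => Nat)
    L7128
    L7129
    (Nat.ble 912512 i))
   (Bool.rec (motive := fun _ => Nat)
    L7130
    L7131
    (Nat.ble 912768 i))
   (Nat.ble 912640 i))
  (Bool.rec (motive := fun _ => Nat)
   (Bool.rec (motive := fun _ => Nat)
    L7132
    L7133
    (Nat.ble 913024 i))
   (Bool.rec (motive := fun _ => Nat)
    L7134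
    L7135
    (Nat.ble 913280 i))
   (Nat.ble 913152 i))
  (Nat.ble 912896 i))
 (Nat.ble 912384 i))

/-- choice of a leaf -/
noncomputable def A0_446 (i : Nat) : Nat :=
 (Bool.rec (motive := fun _ => Nat)
 (Bool.rec (motive := fun _ => Nat)
  (Bool.rec (motive := fun _ => Nat)
   (Bool.rec (motive := fun _ => Nat)
    L7136
    L7137
    (Nat.ble 913536 i))
   (Bool.rec (motive := fun _ => Nat)
    L7138
    L7139
    (Nat.ble 913792 i))
   (Nat.ble 913664 i))
  (Bool.rec (motive := fun _ => Nat)
   (Bool.rec (motive := fun _ => Nat)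
    L7140
    L7141
    (Nat.ble 914048 i))
   (Bool.rec (motive := fun _ => Nat)
    L7142
    L7143
    (Nat.ble 914304 i))
   (Nat.ble 914176 i))
  (Nat.ble 913920 i))
 (Bool.rec (motive := fun _ => Nat)
  (Bool.rec (motive := fun _ => Nat)
   (Bool.rec (motive := fun _ => Nat)
    L7144
    L7145
    (Nat.ble 914560 i))
   (Bool.rec (motive := fun _ => Nat)
    L7146
    L7147
    (Nat.ble 914816 i))
   (Nat.ble 914688 i))
  (Bool.rec (motive := fun _ => Nat)
   (Bool.rec (motive := fun _ => Nat)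
    L7148
    L7149
    (Nat.ble 915072 i))
   (Bool.rec (motive := fun _ => Nat)
    L7150
    L7151
    (Nat.ble 915328 i))
   (Nat.ble 915200 i))
  (Nat.ble 914944 i))
 (Nat.ble 914432 i))

/-- choice of a leaf -/
noncomputable def A0_447 (i : Nat) : Nat :=
 (Bool.rec (motive := fun _ => Nat)
 (Bool.rec (motive := fun _ => Nat)
  (Bool.rec (motive := fun _ => Nat)
   (Bool.rec (motive := fun _ => Nat)
    L7152
    L7153
    (Nat.ble 915584 i))
   (Bool.rec (motive := fun _ => Nat)
    L7154
    L7155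
    (Nat.ble 915840 i))
   (Nat.ble 915712 i))
  (Bool.rec (motive := fun _ => Nat)
   (Bool.rec (motive := fun _ => Nat)
    L7156
    L7157
    (Nat.ble 916096 i))
   (Bool.rec (motive := fun _ => Nat)
    L7158
    L7159
    (Nat.ble 916352 i))
   (Nat.ble 916224 i))
  (Nat.ble 915968 i))
 (Bool.rec (motive := fun _ => Nat)
  (Bool.rec (motive := fun _ => Nat)
   (Bool.rec (motive := fun _ => Nat)
    L7160
    L7161
    (Nat.ble 916608 i))
   (Bool.rec (motive := fun _ => Nat)
    L7162
    L7163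
    (Nat.ble 916864 i))
   (Nat.ble 916736 i))
  (Bool.rec (motive := fun _ => Nat)
   (Bool.rec (motive := fun _ => Nat)
    L7164
    L7165
    (Nat.ble 917120 i))
   (Bool.rec (motive := fun _ => Nat)
    L7166
    L7167
    (Nat.ble 917376 i))
   (Nat.ble 917248 i))
  (Nat.ble 916992 i))
 (Nat.ble 916480 i))

/-- choice of a leaf -/
noncomputable def A0_448 (i : Nat) : Nat :=
 (Bool.rec (motive := fun _ => Nat)
 (Bool.rec (motive := fun _ => Nat)
  (Bool.rec (motive := fun _ => Nat)
   (Bool.rec (motive := fun _ => Nat)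
    L7168
    L7169
    (Nat.ble 917632 i))
   L7170
   (Nat.ble 917760 i))
  (Bool.rec (motive := fun _ => Nat)
   L7171
   L7172
   (Nat.ble 918016 i))
  (Nat.ble 917888 i))
 (Bool.rec (motive := fun _ => Nat)
  (Bool.rec (motive := fun _ => Nat)
   L7173
   L7174
   (Nat.ble 918272 i))
  (Bool.rec (motive := fun _ => Nat)
   L7175
   L7176
   (Nat.ble 918528 i))
  (Nat.ble 918400 i))
 (Nat.ble 918144 i))

/-- choice of a leaf -/
noncomputable def A1_0 (i : Nat) : Nat :=
 (Bool.rec (motive := fun _ => Nat)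
 (Bool.rec (motive := fun _ => Nat)
  (Bool.rec (motive := fun _ => Nat)
   (Bool.rec (motive := fun _ => Nat)
    (A0_0 i)
    (A0_1 i)
    (Nat.ble 2048 i))
   (Bool.rec (motive := fun _ => Nat)
    (A0_2 i)
    (A0_3 i)
    (Nat.ble 6144 i))
   (Nat.ble 4096 i))
  (Bool.rec (motive := fun _ => Nat)
   (Bool.rec (motive := fun _ => Nat)
    (A0_4 i)
    (A0_5 i)
    (Nat.ble 10240 i))
   (Bool.rec (motive := fun _ => Nat)
    (A0_6 i)
    (A0_7 i)
    (Nat.ble 14336 i))
   (Nat.ble 12288 i))
  (Nat.ble 8192 i))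
 (Bool.rec (motive := fun _ => Nat)
  (Bool.rec (motive := fun _ => Nat)
   (Bool.rec (motive := fun _ => Nat)
    (A0_8 i)
    (A0_9 i)
    (Nat.ble 18432 i))
   (Bool.rec (motive := fun _ => Nat)
    (A0_10 i)
    (A0_11 i)
    (Nat.ble 22528 i))
   (Nat.ble 20480 i))
  (Bool.rec (motive := fun _ => Nat)
   (Bool.rec (motive := fun _ => Nat)
    (A0_12 i)
    (A0_13 i)
    (Nat.ble 26624 i))
   (Bool.rec (motive := fun _ => Nat)
    (A0_14 i)
    (A0_15 i)
    (Nat.ble 30720 i))
   (Nat.ble 28672 i))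
  (Nat.ble 24576 i))
 (Nat.ble 16384 i))

/-- choice of a leaf -/
noncomputable def A1_1 (i : Nat) : Nat :=
 (Bool.rec (motive := fun _ => Nat)
 (Bool.rec (motive := fun _ => Nat)
  (Bool.rec (motive := fun _ => Nat)
   (Bool.rec (motive := fun _ => Nat)
    (A0_16 i)
    (A0_17 i)
    (Nat.ble 34816 i))
   (Bool.rec (motive := fun _ => Nat)
    (A0_18 i)
    (A0_19 i)
    (Nat.ble 38912 i))
   (Nat.ble 36864 i))
  (Bool.rec (motive := fun _ => Nat)
   (Bool.rec (motive := fun _ => Nat)
    (A0_20 i)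
    (A0_21 i)
    (Nat.ble 43008 i))
   (Bool.rec (motive := fun _ => Nat)
    (A0_22 i)
    (A0_23 i)
    (Nat.ble 47104 i))
   (Nat.ble 45056 i))
  (Nat.ble 40960 i))
 (Bool.rec (motive := fun _ => Nat)
  (Bool.rec (motive := fun _ => Nat)
   (Bool.rec (motive := fun _ => Nat)
    (A0_24 i)
    (A0_25 i)
    (Nat.ble 51200 i))
   (Bool.rec (motive := fun _ => Nat)
    (A0_26 i)
    (A0_27 i)
    (Nat.ble 55296 i))
   (Nat.ble 53248 i))
  (Bool.rec (motive := fun _ => Nat)
   (Bool.rec (motive := fun _ => Nat)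
    (A0_28 i)
    (A0_29 i)
    (Nat.ble 59392 i))
   (Bool.rec (motive := fun _ => Nat)
    (A0_30 i)
    (A0_31 i)
    (Nat.ble 63488 i))
   (Nat.ble 61440 i))
  (Nat.ble 57344 i))
 (Nat.ble 49152 i))

/-- choice of a leaf -/
noncomputable def A1_2 (i : Nat) : Nat :=
 (Bool.rec (motive := fun _ => Nat)
 (Bool.rec (motive := fun _ => Nat)
  (Bool.rec (motive := fun _ => Nat)
   (Bool.rec (motive := fun _ => Nat)
    (A0_32 i)
    (A0_33 i)
    (Nat.ble 67584 i))
   (Bool.rec (motive := fun _ => Nat)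
    (A0_34 i)
    (A0_35 i)
    (Nat.ble 71680 i))
   (Nat.ble 69632 i))
  (Bool.rec (motive := fun _ => Nat)
   (Bool.rec (motive := fun _ => Nat)
    (A0_36 i)
    (A0_37 i)
    (Nat.ble 75776 i))
   (Bool.rec (motive := fun _ => Nat)
    (A0_38 i)
    (A0_39 i)
    (Nat.ble 79872 i))
   (Nat.ble 77824 i))
  (Nat.ble 73728 i))
 (Bool.rec (motive := fun _ => Nat)
  (Bool.rec (motive := fun _ => Nat)
   (Bool.rec (motive := fun _ => Nat)
    (A0_40 i)
    (A0_41 i)
    (Nat.ble 83968 i))
   (Bool.rec (motive := fun _ => Nat)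
    (A0_42 i)
    (A0_43 i)
    (Nat.ble 88064 i))
   (Nat.ble 86016 i))
  (Bool.rec (motive := fun _ => Nat)
   (Bool.rec (motive := fun _ => Nat)
    (A0_44 i)
    (A0_45 i)
    (Nat.ble 92160 i))
   (Bool.rec (motive := fun _ => Nat)
    (A0_46 i)
    (A0_47 i)
    (Nat.ble 96256 i))
   (Nat.ble 94208 i))
  (Nat.ble 90112 i))
 (Nat.ble 81920 i))

/-- choice of a leaf -/
noncomputable def A1_3 (i : Nat) : Nat :=
 (Bool.rec (motive := fun _ => Nat)
 (Bool.rec (motive := fun _ => Nat)
  (Bool.rec (motive := fun _ => Nat)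
   (Bool.rec (motive := fun _ => Nat)
    (A0_48 i)
    (A0_49 i)
    (Nat.ble 100352 i))
   (Bool.rec (motive := fun _ => Nat)
    (A0_50 i)
    (A0_51 i)
    (Nat.ble 104448 i))
   (Nat.ble 102400 i))
  (Bool.rec (motive := fun _ => Nat)
   (Bool.rec (motive := fun _ => Nat)
    (A0_52 i)
    (A0_53 i)
    (Nat.ble 108544 i))
   (Bool.rec (motive := fun _ => Nat)
    (A0_54 i)
    (A0_55 i)
    (Nat.ble 112640 i))
   (Nat.ble 110592 i))
  (Nat.ble 106496 i))
 (Bool.rec (motive := fun _ => Nat)
  (Bool.rec (motive := fun _ => Nat)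
   (Bool.rec (motive := fun _ => Nat)
    (A0_56 i)
    (A0_57 i)
    (Nat.ble 116736 i))
   (Bool.rec (motive := fun _ => Nat)
    (A0_58 i)
    (A0_59 i)
    (Nat.ble 120832 i))
   (Nat.ble 118784 i))
  (Bool.rec (motive := fun _ => Nat)
   (Bool.rec (motive := fun _ => Nat)
    (A0_60 i)
    (A0_61 i)
    (Nat.ble 124928 i))
   (Bool.rec (motive := fun _ => Nat)
    (A0_62 i)
    (A0_63 i)
    (Nat.ble 129024 i))
   (Nat.ble 126976 i))
  (Nat.ble 122880 i))
 (Nat.ble 114688 i))

/-- choice of a leaf -/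
noncomputable def A1_4 (i : Nat) : Nat :=
 (Bool.rec (motive := fun _ => Nat)
 (Bool.rec (motive := fun _ => Nat)
  (Bool.rec (motive := fun _ => Nat)
   (Bool.rec (motive := fun _ => Nat)
    (A0_64 i)
    (A0_65 i)
    (Nat.ble 133120 i))
   (Bool.rec (motive := fun _ => Nat)
    (A0_66 i)
    (A0_67 i)
    (Nat.ble 137216 i))
   (Nat.ble 135168 i))
  (Bool.rec (motive := fun _ => Nat)
   (Bool.rec (motive := fun _ => Nat)
    (A0_68 i)
    (A0_69 i)
    (Nat.ble 141312 i))
   (Bool.rec (motive := fun _ => Nat)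
    (A0_70 i)
    (A0_71 i)
    (Nat.ble 145408 i))
   (Nat.ble 143360 i))
  (Nat.ble 139264 i))
 (Bool.rec (motive := fun _ => Nat)
  (Bool.rec (motive := fun _ => Nat)
   (Bool.rec (motive := fun _ => Nat)
    (A0_72 i)
    (A0_73 i)
    (Nat.ble 149504 i))
   (Bool.rec (motive := fun _ => Nat)
    (A0_74 i)
    (A0_75 i)
    (Nat.ble 153600 i))
   (Nat.ble 151552 i))
  (Bool.rec (motive := fun _ => Nat)
   (Bool.rec (motive := fun _ => Nat)
    (A0_76 i)
    (A0_77 i)
    (Nat.ble 157696 i))
   (Bool.rec (motive := fun _ => Nat)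
    (A0_78 i)
    (A0_79 i)
    (Nat.ble 161792 i))
   (Nat.ble 159744 i))
  (Nat.ble 155648 i))
 (Nat.ble 147456 i))

/-- choice of a leaf -/
noncomputable def A1_5 (i : Nat) : Nat :=
 (Bool.rec (motive := fun _ => Nat)
 (Bool.rec (motive := fun _ => Nat)
  (Bool.rec (motive := fun _ => Nat)
   (Bool.rec (motive := fun _ => Nat)
    (A0_80 i)
    (A0_81 i)
    (Nat.ble 165888 i))
   (Bool.rec (motive := fun _ => Nat)
    (A0_82 i)
    (A0_83 i)
    (Nat.ble 169984 i))
   (Nat.ble 167936 i))
  (Bool.rec (motive := fun _ => Nat)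
   (Bool.rec (motive := fun _ => Nat)
    (A0_84 i)
    (A0_85 i)
    (Nat.ble 174080 i))
   (Bool.rec (motive := fun _ => Nat)
    (A0_86 i)
    (A0_87 i)
    (Nat.ble 178176 i))
   (Nat.ble 176128 i))
  (Nat.ble 172032 i))
 (Bool.rec (motive := fun _ => Nat)
  (Bool.rec (motive := fun _ => Nat)
   (Bool.rec (motive := fun _ => Nat)
    (A0_88 i)
    (A0_89 i)
    (Nat.ble 182272 i))
   (Bool.rec (motive := fun _ => Nat)
    (A0_90 i)
    (A0_91 i)
    (Nat.ble 186368 i))
   (Nat.ble 184320 i))
  (Bool.rec (motive := fun _ => Nat)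
   (Bool.rec (motive := fun _ => Nat)
    (A0_92 i)
    (A0_93 i)
    (Nat.ble 190464 i))
   (Bool.rec (motive := fun _ => Nat)
    (A0_94 i)
    (A0_95 i)
    (Nat.ble 194560 i))
   (Nat.ble 192512 i))
  (Nat.ble 188416 i))
 (Nat.ble 180224 i))

/-- choice of a leaf -/
noncomputable def A1_6 (i : Nat) : Nat :=
 (Bool.rec (motive := fun _ => Nat)
 (Bool.rec (motive := fun _ => Nat)
  (Bool.rec (motive := fun _ => Nat)
   (Bool.rec (motive := fun _ => Nat)
    (A0_96 i)
    (A0_97 i)
    (Nat.ble 198656 i))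
   (Bool.rec (motive := fun _ => Nat)
    (A0_98 i)
    (A0_99 i)
    (Nat.ble 202752 i))
   (Nat.ble 200704 i))
  (Bool.rec (motive := fun _ => Nat)
   (Bool.rec (motive := fun _ => Nat)
    (A0_100 i)
    (A0_101 i)
    (Nat.ble 206848 i))
   (Bool.rec (motive := fun _ => Nat)
    (A0_102 i)
    (A0_103 i)
    (Nat.ble 210944 i))
   (Nat.ble 208896 i))
  (Nat.ble 204800 i))
 (Bool.rec (motive := fun _ => Nat)
  (Bool.rec (motive := fun _ => Nat)
   (Bool.rec (motive := fun _ => Nat)
    (A0_104 i)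
    (A0_105 i)
    (Nat.ble 215040 i))
   (Bool.rec (motive := fun _ => Nat)
    (A0_106 i)
    (A0_107 i)
    (Nat.ble 219136 i))
   (Nat.ble 217088 i))
  (Bool.rec (motive := fun _ => Nat)
   (Bool.rec (motive := fun _ => Nat)
    (A0_108 i)
    (A0_109 i)
    (Nat.ble 223232 i))
   (Bool.rec (motive := fun _ => Nat)
    (A0_110 i)
    (A0_111 i)
    (Nat.ble 227328 i))
   (Nat.ble 225280 i))
  (Nat.ble 221184 i))
 (Nat.ble 212992 i))

/-- choice of a leaf -/
noncomputable def A1_7 (i : Nat) : Nat :=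
 (Bool.rec (motive := fun _ => Nat)
 (Bool.rec (motive := fun _ => Nat)
  (Bool.rec (motive := fun _ => Nat)
   (Bool.rec (motive := fun _ => Nat)
    (A0_112 i)
    (A0_113 i)
    (Nat.ble 231424 i))
   (Bool.rec (motive := fun _ => Nat)
    (A0_114 i)
    (A0_115 i)
    (Nat.ble 235520 i))
   (Nat.ble 233472 i))
  (Bool.rec (motive := fun _ => Nat)
   (Bool.rec (motive := fun _ => Nat)
    (A0_116 i)
    (A0_117 i)
    (Nat.ble 239616 i))
   (Bool.rec (motive := fun _ => Nat)
    (A0_118 i)
    (A0_119 i)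
    (Nat.ble 243712 i))
   (Nat.ble 241664 i))
  (Nat.ble 237568 i))
 (Bool.rec (motive := fun _ => Nat)
  (Bool.rec (motive := fun _ => Nat)
   (Bool.rec (motive := fun _ => Nat)
    (A0_120 i)
    (A0_121 i)
    (Nat.ble 247808 i))
   (Bool.rec (motive := fun _ => Nat)
    (A0_122 i)
    (A0_123 i)
    (Nat.ble 251904 i))
   (Nat.ble 249856 i))
  (Bool.rec (motive := fun _ => Nat)
   (Bool.rec (motive := fun _ => Nat)
    (A0_124 i)
    (A0_125 i)
    (Nat.ble 256000 i))
   (Bool.rec (motive := fun _ => Nat)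
    (A0_126 i)
    (A0_127 i)
    (Nat.ble 260096 i))
   (Nat.ble 258048 i))
  (Nat.ble 253952 i))
 (Nat.ble 245760 i))

/-- choice of a leaf -/
noncomputable def A1_8 (i : Nat) : Nat :=
 (Bool.rec (motive := fun _ => Nat)
 (Bool.rec (motive := fun _ => Nat)
  (Bool.rec (motive := fun _ => Nat)
   (Bool.rec (motive := fun _ => Nat)
    (A0_128 i)
    (A0_129 i)
    (Nat.ble 264192 i))
   (Bool.rec (motive := fun _ => Nat)
    (A0_130 i)
    (A0_131 i)
    (Nat.ble 268288 i))
   (Nat.ble 266240 i))
  (Bool.rec (motive := fun _ => Nat)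
   (Bool.rec (motive := fun _ => Nat)
    (A0_132 i)
    (A0_133 i)
    (Nat.ble 272384 i))
   (Bool.rec (motive := fun _ => Nat)
    (A0_134 i)
    (A0_135 i)
    (Nat.ble 276480 i))
   (Nat.ble 274432 i))
  (Nat.ble 270336 i))
 (Bool.rec (motive := fun _ => Nat)
  (Bool.rec (motive := fun _ => Nat)
   (Bool.rec (motive := fun _ => Nat)
    (A0_136 i)
    (A0_137 i)
    (Nat.ble 280576 i))
   (Bool.rec (motive := fun _ => Nat)
    (A0_138 i)
    (A0_139 i)
    (Nat.ble 284672 i))
   (Nat.ble 282624 i))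
  (Bool.rec (motive := fun _ => Nat)
   (Bool.rec (motive := fun _ => Nat)
    (A0_140 i)
    (A0_141 i)
    (Nat.ble 288768 i))
   (Bool.rec (motive := fun _ => Nat)
    (A0_142 i)
    (A0_143 i)
    (Nat.ble 292864 i))
   (Nat.ble 290816 i))
  (Nat.ble 286720 i))
 (Nat.ble 278528 i))

/-- choice of a leaf -/
noncomputable def A1_9 (i : Nat) : Nat :=
 (Bool.rec (motive := fun _ => Nat)
 (Bool.rec (motive := fun _ => Nat)
  (Bool.rec (motive := fun _ => Nat)
   (Bool.rec (motive := fun _ => Nat)
    (A0_144 i)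
    (A0_145 i)
    (Nat.ble 296960 i))
   (Bool.rec (motive := fun _ => Nat)
    (A0_146 i)
    (A0_147 i)
    (Nat.ble 301056 i))
   (Nat.ble 299008 i))
  (Bool.rec (motive := fun _ => Nat)
   (Bool.rec (motive := fun _ => Nat)
    (A0_148 i)
    (A0_149 i)
    (Nat.ble 305152 i))
   (Bool.rec (motive := fun _ => Nat)
    (A0_150 i)
    (A0_151 i)
    (Nat.ble 309248 i))
   (Nat.ble 307200 i))
  (Nat.ble 303104 i))
 (Bool.rec (motive := fun _ => Nat)
  (Bool.rec (motive := fun _ => Nat)
   (Bool.rec (motive := fun _ => Nat)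
    (A0_152 i)
    (A0_153 i)
    (Nat.ble 313344 i))
   (Bool.rec (motive := fun _ => Nat)
    (A0_154 i)
    (A0_155 i)
    (Nat.ble 317440 i))
   (Nat.ble 315392 i))
  (Bool.rec (motive := fun _ => Nat)
   (Bool.rec (motive := fun _ => Nat)
    (A0_156 i)
    (A0_157 i)
    (Nat.ble 321536 i))
   (Bool.rec (motive := fun _ => Nat)
    (A0_158 i)
    (A0_159 i)
    (Nat.ble 325632 i))
   (Nat.ble 323584 i))
  (Nat.ble 319488 i))
 (Nat.ble 311296 i))

/-- choice of a leaf -/
noncomputable def A1_10 (i : Nat) : Nat :=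
 (Bool.rec (motive := fun _ => Nat)
 (Bool.rec (motive := fun _ => Nat)
  (Bool.rec (motive := fun _ => Nat)
   (Bool.rec (motive := fun _ => Nat)
    (A0_160 i)
    (A0_161 i)
    (Nat.ble 329728 i))
   (Bool.rec (motive := fun _ => Nat)
    (A0_162 i)
    (A0_163 i)
    (Nat.ble 333824 i))
   (Nat.ble 331776 i))
  (Bool.rec (motive := fun _ => Nat)
   (Bool.rec (motive := fun _ => Nat)
    (A0_164 i)
    (A0_165 i)
    (Nat.ble 337920 i))
   (Bool.rec (motive := fun _ => Nat)
    (A0_166 i)
    (A0_167 i)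
    (Nat.ble 342016 i))
   (Nat.ble 339968 i))
  (Nat.ble 335872 i))
 (Bool.rec (motive := fun _ => Nat)
  (Bool.rec (motive := fun _ => Nat)
   (Bool.rec (motive := fun _ => Nat)
    (A0_168 i)
    (A0_169 i)
    (Nat.ble 346112 i))
   (Bool.rec (motive := fun _ => Nat)
    (A0_170 i)
    (A0_171 i)
    (Nat.ble 350208 i))
   (Nat.ble 348160 i))
  (Bool.rec (motive := fun _ => Nat)
   (Bool.rec (motive := fun _ => Nat)
    (A0_172 i)
    (A0_173 i)
    (Nat.ble 354304 i))
   (Bool.rec (motive := fun _ => Nat)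
    (A0_174 i)
    (A0_175 i)
    (Nat.ble 358400 i))
   (Nat.ble 356352 i))
  (Nat.ble 352256 i))
 (Nat.ble 344064 i))

/-- choice of a leaf -/
noncomputable def A1_11 (i : Nat) : Nat :=
 (Bool.rec (motive := fun _ => Nat)
 (Bool.rec (motive := fun _ => Nat)
  (Bool.rec (motive := fun _ => Nat)
   (Bool.rec (motive := fun _ => Nat)
    (A0_176 i)
    (A0_177 i)
    (Nat.ble 362496 i))
   (Bool.rec (motive := fun _ => Nat)
    (A0_178 i)
    (A0_179 i)
    (Nat.ble 366592 i))
   (Nat.ble 364544 i))
  (Bool.rec (motive := fun _ => Nat)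
   (Bool.rec (motive := fun _ => Nat)
    (A0_180 i)
    (A0_181 i)
    (Nat.ble 370688 i))
   (Bool.rec (motive := fun _ => Nat)
    (A0_182 i)
    (A0_183 i)
    (Nat.ble 374784 i))
   (Nat.ble 372736 i))
  (Nat.ble 368640 i))
 (Bool.rec (motive := fun _ => Nat)
  (Bool.rec (motive := fun _ => Nat)
   (Bool.rec (motive := fun _ => Nat)
    (A0_184 i)
    (A0_185 i)
    (Nat.ble 378880 i))
   (Bool.rec (motive := fun _ => Nat)
    (A0_186 i)
    (A0_187 i)
    (Nat.ble 382976 i))
   (Nat.ble 380928 i))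
  (Bool.rec (motive := fun _ => Nat)
   (Bool.rec (motive := fun _ => Nat)
    (A0_188 i)
    (A0_189 i)
    (Nat.ble 387072 i))
   (Bool.rec (motive := fun _ => Nat)
    (A0_190 i)
    (A0_191 i)
    (Nat.ble 391168 i))
   (Nat.ble 389120 i))
  (Nat.ble 385024 i))
 (Nat.ble 376832 i))

/-- choice of a leaf -/
noncomputable def A1_12 (i : Nat) : Nat :=
 (Bool.rec (motive := fun _ => Nat)
 (Bool.rec (motive := fun _ => Nat)
  (Bool.rec (motive := fun _ => Nat)
   (Bool.rec (motive := fun _ => Nat)
    (A0_192 i)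
    (A0_193 i)
    (Nat.ble 395264 i))
   (Bool.rec (motive := fun _ => Nat)
    (A0_194 i)
    (A0_195 i)
    (Nat.ble 399360 i))
   (Nat.ble 397312 i))
  (Bool.rec (motive := fun _ => Nat)
   (Bool.rec (motive := fun _ => Nat)
    (A0_196 i)
    (A0_197 i)
    (Nat.ble 403456 i))
   (Bool.rec (motive := fun _ => Nat)
    (A0_198 i)
    (A0_199 i)
    (Nat.ble 407552 i))
   (Nat.ble 405504 i))
  (Nat.ble 401408 i))
 (Bool.rec (motive := fun _ => Nat)
  (Bool.rec (motive := fun _ => Nat)
   (Bool.rec (motive := fun _ => Nat)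
    (A0_200 i)
    (A0_201 i)
    (Nat.ble 411648 i))
   (Bool.rec (motive := fun _ => Nat)
    (A0_202 i)
    (A0_203 i)
    (Nat.ble 415744 i))
   (Nat.ble 413696 i))
  (Bool.rec (motive := fun _ => Nat)
   (Bool.rec (motive := fun _ => Nat)
    (A0_204 i)
    (A0_205 i)
    (Nat.ble 419840 i))
   (Bool.rec (motive := fun _ => Nat)
    (A0_206 i)
    (A0_207 i)
    (Nat.ble 423936 i))
   (Nat.ble 421888 i))
  (Nat.ble 417792 i))
 (Nat.ble 409600 i))

/-- choice of a leaf -/
noncomputable def A1_13 (i : Nat) : Nat :=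
 (Bool.rec (motive := fun _ => Nat)
 (Bool.rec (motive := fun _ => Nat)
  (Bool.rec (motive := fun _ => Nat)
   (Bool.rec (motive := fun _ => Nat)
    (A0_208 i)
    (A0_209 i)
    (Nat.ble 428032 i))
   (Bool.rec (motive := fun _ => Nat)
    (A0_210 i)
    (A0_211 i)
    (Nat.ble 432128 i))
   (Nat.ble 430080 i))
  (Bool.rec (motive := fun _ => Nat)
   (Bool.rec (motive := fun _ => Nat)
    (A0_212 i)
    (A0_213 i)
    (Nat.ble 436224 i))
   (Bool.rec (motive := fun _ => Nat)
    (A0_214 i)
    (A0_215 i)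
    (Nat.ble 440320 i))
   (Nat.ble 438272 i))
  (Nat.ble 434176 i))
 (Bool.rec (motive := fun _ => Nat)
  (Bool.rec (motive := fun _ => Nat)
   (Bool.rec (motive := fun _ => Nat)
    (A0_216 i)
    (A0_217 i)
    (Nat.ble 444416 i))
   (Bool.rec (motive := fun _ => Nat)
    (A0_218 i)
    (A0_219 i)
    (Nat.ble 448512 i))
   (Nat.ble 446464 i))
  (Bool.rec (motive := fun _ => Nat)
   (Bool.rec (motive := fun _ => Nat)
    (A0_220 i)
    (A0_221 i)
    (Nat.ble 452608 i))
   (Bool.rec (motive := fun _ => Nat)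
    (A0_222 i)
    (A0_223 i)
    (Nat.ble 456704 i))
   (Nat.ble 454656 i))
  (Nat.ble 450560 i))
 (Nat.ble 442368 i))

/-- choice of a leaf -/
noncomputable def A1_14 (i : Nat) : Nat :=
 (Bool.rec (motive := fun _ => Nat)
 (Bool.rec (motive := fun _ => Nat)
  (Bool.rec (motive := fun _ => Nat)
   (Bool.rec (motive := fun _ => Nat)
    (A0_224 i)
    (A0_225 i)
    (Nat.ble 460800 i))
   (Bool.rec (motive := fun _ => Nat)
    (A0_226 i)
    (A0_227 i)
    (Nat.ble 464896 i))
   (Nat.ble 462848 i))
  (Bool.rec (motive := fun _ => Nat)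
   (Bool.rec (motive := fun _ => Nat)
    (A0_228 i)
    (A0_229 i)
    (Nat.ble 468992 i))
   (Bool.rec (motive := fun _ => Nat)
    (A0_230 i)
    (A0_231 i)
    (Nat.ble 473088 i))
   (Nat.ble 471040 i))
  (Nat.ble 466944 i))
 (Bool.rec (motive := fun _ => Nat)
  (Bool.rec (motive := fun _ => Nat)
   (Bool.rec (motive := fun _ => Nat)
    (A0_232 i)
    (A0_233 i)
    (Nat.ble 477184 i))
   (Bool.rec (motive := fun _ => Nat)
    (A0_234 i)
    (A0_235 i)
    (Nat.ble 481280 i))
   (Nat.ble 479232 i))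
  (Bool.rec (motive := fun _ => Nat)
   (Bool.rec (motive := fun _ => Nat)
    (A0_236 i)
    (A0_237 i)
    (Nat.ble 485376 i))
   (Bool.rec (motive := fun _ => Nat)
    (A0_238 i)
    (A0_239 i)
    (Nat.ble 489472 i))
   (Nat.ble 487424 i))
  (Nat.ble 483328 i))
 (Nat.ble 475136 i))

/-- choice of a leaf -/
noncomputable def A1_15 (i : Nat) : Nat :=
 (Bool.rec (motive := fun _ => Nat)
 (Bool.rec (motive := fun _ => Nat)
  (Bool.rec (motive := fun _ => Nat)
   (Bool.rec (motive := fun _ => Nat)
    (A0_240 i)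
    (A0_241 i)
    (Nat.ble 493568 i))
   (Bool.rec (motive := fun _ => Nat)
    (A0_242 i)
    (A0_243 i)
    (Nat.ble 497664 i))
   (Nat.ble 495616 i))
  (Bool.rec (motive := fun _ => Nat)
   (Bool.rec (motive := fun _ => Nat)
    (A0_244 i)
    (A0_245 i)
    (Nat.ble 501760 i))
   (Bool.rec (motive := fun _ => Nat)
    (A0_246 i)
    (A0_247 i)
    (Nat.ble 505856 i))
   (Nat.ble 503808 i))
  (Nat.ble 499712 i))
 (Bool.rec (motive := fun _ => Nat)
  (Bool.rec (motive := fun _ => Nat)
   (Bool.rec (motive := fun _ => Nat)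
    (A0_248 i)
    (A0_249 i)
    (Nat.ble 509952 i))
   (Bool.rec (motive := fun _ => Nat)
    (A0_250 i)
    (A0_251 i)
    (Nat.ble 514048 i))
   (Nat.ble 512000 i))
  (Bool.rec (motive := fun _ => Nat)
   (Bool.rec (motive := fun _ => Nat)
    (A0_252 i)
    (A0_253 i)
    (Nat.ble 518144 i))
   (Bool.rec (motive := fun _ => Nat)
    (A0_254 i)
    (A0_255 i)
    (Nat.ble 522240 i))
   (Nat.ble 520192 i))
  (Nat.ble 516096 i))
 (Nat.ble 507904 i))

/-- choice of a leaf -/
noncomputable def A1_16 (i : Nat) : Nat :=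
 (Bool.rec (motive := fun _ => Nat)
 (Bool.rec (motive := fun _ => Nat)
  (Bool.rec (motive := fun _ => Nat)
   (Bool.rec (motive := fun _ => Nat)
    (A0_256 i)
    (A0_257 i)
    (Nat.ble 526336 i))
   (Bool.rec (motive := fun _ => Nat)
    (A0_258 i)
    (A0_259 i)
    (Nat.ble 530432 i))
   (Nat.ble 528384 i))
  (Bool.rec (motive := fun _ => Nat)
   (Bool.rec (motive := fun _ => Nat)
    (A0_260 i)
    (A0_261 i)
    (Nat.ble 534528 i))
   (Bool.rec (motive := fun _ => Nat)
    (A0_262 i)
    (A0_263 i)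
    (Nat.ble 538624 i))
   (Nat.ble 536576 i))
  (Nat.ble 532480 i))
 (Bool.rec (motive := fun _ => Nat)
  (Bool.rec (motive := fun _ => Nat)
   (Bool.rec (motive := fun _ => Nat)
    (A0_264 i)
    (A0_265 i)
    (Nat.ble 542720 i))
   (Bool.rec (motive := fun _ => Nat)
    (A0_266 i)
    (A0_267 i)
    (Nat.ble 546816 i))
   (Nat.ble 544768 i))
  (Bool.rec (motive := fun _ => Nat)
   (Bool.rec (motive := fun _ => Nat)
    (A0_268 i)
    (A0_269 i)
    (Nat.ble 550912 i))
   (Bool.rec (motive := fun _ => Nat)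
    (A0_270 i)
    (A0_271 i)
    (Nat.ble 555008 i))
   (Nat.ble 552960 i))
  (Nat.ble 548864 i))
 (Nat.ble 540672 i))

/-- choice of a leaf -/
noncomputable def A1_17 (i : Nat) : Nat :=
 (Bool.rec (motive := fun _ => Nat)
 (Bool.rec (motive := fun _ => Nat)
  (Bool.rec (motive := fun _ => Nat)
   (Bool.rec (motive := fun _ => Nat)
    (A0_272 i)
    (A0_273 i)
    (Nat.ble 559104 i))
   (Bool.rec (motive := fun _ => Nat)
    (A0_274 i)
    (A0_275 i)
    (Nat.ble 563200 i))
   (Nat.ble 561152 i))
  (Bool.rec (motive := fun _ => Nat)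
   (Bool.rec (motive := fun _ => Nat)
    (A0_276 i)
    (A0_277 i)
    (Nat.ble 567296 i))
   (Bool.rec (motive := fun _ => Nat)
    (A0_278 i)
    (A0_279 i)
    (Nat.ble 571392 i))
   (Nat.ble 569344 i))
  (Nat.ble 565248 i))
 (Bool.rec (motive := fun _ => Nat)
  (Bool.rec (motive := fun _ => Nat)
   (Bool.rec (motive := fun _ => Nat)
    (A0_280 i)
    (A0_281 i)
    (Nat.ble 575488 i))
   (Bool.rec (motive := fun _ => Nat)
    (A0_282 i)
    (A0_283 i)
    (Nat.ble 579584 i))
   (Nat.ble 577536 i))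
  (Bool.rec (motive := fun _ => Nat)
   (Bool.rec (motive := fun _ => Nat)
    (A0_284 i)
    (A0_285 i)
    (Nat.ble 583680 i))
   (Bool.rec (motive := fun _ => Nat)
    (A0_286 i)
    (A0_287 i)
    (Nat.ble 587776 i))
   (Nat.ble 585728 i))
  (Nat.ble 581632 i))
 (Nat.ble 573440 i))

/-- choice of a leaf -/
noncomputable def A1_18 (i : Nat) : Nat :=
 (Bool.rec (motive := fun _ => Nat)
 (Bool.rec (motive := fun _ => Nat)
  (Bool.rec (motive := fun _ => Nat)
   (Bool.rec (motive := fun _ => Nat)
    (A0_288 i)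
    (A0_289 i)
    (Nat.ble 591872 i))
   (Bool.rec (motive := fun _ => Nat)
    (A0_290 i)
    (A0_291 i)
    (Nat.ble 595968 i))
   (Nat.ble 593920 i))
  (Bool.rec (motive := fun _ => Nat)
   (Bool.rec (motive := fun _ => Nat)
    (A0_292 i)
    (A0_293 i)
    (Nat.ble 600064 i))
   (Bool.rec (motive := fun _ => Nat)
    (A0_294 i)
    (A0_295 i)
    (Nat.ble 604160 i))
   (Nat.ble 602112 i))
  (Nat.ble 598016 i))
 (Bool.rec (motive := fun _ => Nat)
  (Bool.rec (motive := fun _ => Nat)
   (Bool.rec (motive := fun _ => Nat)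
    (A0_296 i)
    (A0_297 i)
    (Nat.ble 608256 i))
   (Bool.rec (motive := fun _ => Nat)
    (A0_298 i)
    (A0_299 i)
    (Nat.ble 612352 i))
   (Nat.ble 610304 i))
  (Bool.rec (motive := fun _ => Nat)
   (Bool.rec (motive := fun _ => Nat)
    (A0_300 i)
    (A0_301 i)
    (Nat.ble 616448 i))
   (Bool.rec (motive := fun _ => Nat)
    (A0_302 i)
    (A0_303 i)
    (Nat.ble 620544 i))
   (Nat.ble 618496 i))
  (Nat.ble 614400 i))
 (Nat.ble 606208 i))

/-- choice of a leaf -/
noncomputable def A1_19 (i : Nat) : Nat :=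
 (Bool.rec (motive := fun _ => Nat)
 (Bool.rec (motive := fun _ => Nat)
  (Bool.rec (motive := fun _ => Nat)
   (Bool.rec (motive := fun _ => Nat)
    (A0_304 i)
    (A0_305 i)
    (Nat.ble 624640 i))
   (Bool.rec (motive := fun _ => Nat)
    (A0_306 i)
    (A0_307 i)
    (Nat.ble 628736 i))
   (Nat.ble 626688 i))
  (Bool.rec (motive := fun _ => Nat)
   (Bool.rec (motive := fun _ => Nat)
    (A0_308 i)
    (A0_309 i)
    (Nat.ble 632832 i))
   (Bool.rec (motive := fun _ => Nat)
    (A0_310 i)
    (A0_311 i)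
    (Nat.ble 636928 i))
   (Nat.ble 634880 i))
  (Nat.ble 630784 i))
 (Bool.rec (motive := fun _ => Nat)
  (Bool.rec (motive := fun _ => Nat)
   (Bool.rec (motive := fun _ => Nat)
    (A0_312 i)
    (A0_313 i)
    (Nat.ble 641024 i))
   (Bool.rec (motive := fun _ => Nat)
    (A0_314 i)
    (A0_315 i)
    (Nat.ble 645120 i))
   (Nat.ble 643072 i))
  (Bool.rec (motive := fun _ => Nat)
   (Bool.rec (motive := fun _ => Nat)
    (A0_316 i)
    (A0_317 i)
    (Nat.ble 649216 i))
   (Bool.rec (motive := fun _ => Nat)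
    (A0_318 i)
    (A0_319 i)
    (Nat.ble 653312 i))
   (Nat.ble 651264 i))
  (Nat.ble 647168 i))
 (Nat.ble 638976 i))

/-- choice of a leaf -/
noncomputable def A1_20 (i : Nat) : Nat :=
 (Bool.rec (motive := fun _ => Nat)
 (Bool.rec (motive := fun _ => Nat)
  (Bool.rec (motive := fun _ => Nat)
   (Bool.rec (motive := fun _ => Nat)
    (A0_320 i)
    (A0_321 i)
    (Nat.ble 657408 i))
   (Bool.rec (motive := fun _ => Nat)
    (A0_322 i)
    (A0_323 i)
    (Nat.ble 661504 i))
   (Nat.ble 659456 i))
  (Bool.rec (motive := fun _ => Nat)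
   (Bool.rec (motive := fun _ => Nat)
    (A0_324 i)
    (A0_325 i)
    (Nat.ble 665600 i))
   (Bool.rec (motive := fun _ => Nat)
    (A0_326 i)
    (A0_327 i)
    (Nat.ble 669696 i))
   (Nat.ble 667648 i))
  (Nat.ble 663552 i))
 (Bool.rec (motive := fun _ => Nat)
  (Bool.rec (motive := fun _ => Nat)
   (Bool.rec (motive := fun _ => Nat)
    (A0_328 i)
    (A0_329 i)
    (Nat.ble 673792 i))
   (Bool.rec (motive := fun _ => Nat)
    (A0_330 i)
    (A0_331 i)
    (Nat.ble 677888 i))
   (Nat.ble 675840 i))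
  (Bool.rec (motive := fun _ => Nat)
   (Bool.rec (motive := fun _ => Nat)
    (A0_332 i)
    (A0_333 i)
    (Nat.ble 681984 i))
   (Bool.rec (motive := fun _ => Nat)
    (A0_334 i)
    (A0_335 i)
    (Nat.ble 686080 i))
   (Nat.ble 684032 i))
  (Nat.ble 679936 i))
 (Nat.ble 671744 i))

/-- choice of a leaf -/
noncomputable def A1_21 (i : Nat) : Nat :=
 (Bool.rec (motive := fun _ => Nat)
 (Bool.rec (motive := fun _ => Nat)
  (Bool.rec (motive := fun _ => Nat)
   (Bool.rec (motive := fun _ => Nat)
    (A0_336 i)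
    (A0_337 i)
    (Nat.ble 690176 i))
   (Bool.rec (motive := fun _ => Nat)
    (A0_338 i)
    (A0_339 i)
    (Nat.ble 694272 i))
   (Nat.ble 692224 i))
  (Bool.rec (motive := fun _ => Nat)
   (Bool.rec (motive := fun _ => Nat)
    (A0_340 i)
    (A0_341 i)
    (Nat.ble 698368 i))
   (Bool.rec (motive := fun _ => Nat)
    (A0_342 i)
    (A0_343 i)
    (Nat.ble 702464 i))
   (Nat.ble 700416 i))
  (Nat.ble 696320 i))
 (Bool.rec (motive := fun _ => Nat)
  (Bool.rec (motive := fun _ => Nat)
   (Bool.rec (motive := fun _ => Nat)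
    (A0_344 i)
    (A0_345 i)
    (Nat.ble 706560 i))
   (Bool.rec (motive := fun _ => Nat)
    (A0_346 i)
    (A0_347 i)
    (Nat.ble 710656 i))
   (Nat.ble 708608 i))
  (Bool.rec (motive := fun _ => Nat)
   (Bool.rec (motive := fun _ => Nat)
    (A0_348 i)
    (A0_349 i)
    (Nat.ble 714752 i))
   (Bool.rec (motive := fun _ => Nat)
    (A0_350 i)
    (A0_351 i)
    (Nat.ble 718848 i))
   (Nat.ble 716800 i))
  (Nat.ble 712704 i))
 (Nat.ble 704512 i))

/-- choice of a leaf -/
noncomputable def A1_22 (i : Nat) : Nat :=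
 (Bool.rec (motive := fun _ => Nat)
 (Bool.rec (motive := fun _ => Nat)
  (Bool.rec (motive := fun _ => Nat)
   (Bool.rec (motive := fun _ => Nat)
    (A0_352 i)
    (A0_353 i)
    (Nat.ble 722944 i))
   (Bool.rec (motive := fun _ => Nat)
    (A0_354 i)
    (A0_355 i)
    (Nat.ble 727040 i))
   (Nat.ble 724992 i))
  (Bool.rec (motive := fun _ => Nat)
   (Bool.rec (motive := fun _ => Nat)
    (A0_356 i)
    (A0_357 i)
    (Nat.ble 731136 i))
   (Bool.rec (motive := fun _ => Nat)
    (A0_358 i)
    (A0_359 i)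
    (Nat.ble 735232 i))
   (Nat.ble 733184 i))
  (Nat.ble 729088 i))
 (Bool.rec (motive := fun _ => Nat)
  (Bool.rec (motive := fun _ => Nat)
   (Bool.rec (motive := fun _ => Nat)
    (A0_360 i)
    (A0_361 i)
    (Nat.ble 739328 i))
   (Bool.rec (motive := fun _ => Nat)
    (A0_362 i)
    (A0_363 i)
    (Nat.ble 743424 i))
   (Nat.ble 741376 i))
  (Bool.rec (motive := fun _ => Nat)
   (Bool.rec (motive := fun _ => Nat)
    (A0_364 i)
    (A0_365 i)
    (Nat.ble 747520 i))
   (Bool.rec (motive := fun _ => Nat)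
    (A0_366 i)
    (A0_367 i)
    (Nat.ble 751616 i))
   (Nat.ble 749568 i))
  (Nat.ble 745472 i))
 (Nat.ble 737280 i))

/-- choice of a leaf -/
noncomputable def A1_23 (i : Nat) : Nat :=
 (Bool.rec (motive := fun _ => Nat)
 (Bool.rec (motive := fun _ => Nat)
  (Bool.rec (motive := fun _ => Nat)
   (Bool.rec (motive := fun _ => Nat)
    (A0_368 i)
    (A0_369 i)
    (Nat.ble 755712 i))
   (Bool.rec (motive := fun _ => Nat)
    (A0_370 i)
    (A0_371 i)
    (Nat.ble 759808 i))
   (Nat.ble 757760 i))
  (Bool.rec (motive := fun _ => Nat)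
   (Bool.rec (motive := fun _ => Nat)
    (A0_372 i)
    (A0_373 i)
    (Nat.ble 763904 i))
   (Bool.rec (motive := fun _ => Nat)
    (A0_374 i)
    (A0_375 i)
    (Nat.ble 768000 i))
   (Nat.ble 765952 i))
  (Nat.ble 761856 i))
 (Bool.rec (motive := fun _ => Nat)
  (Bool.rec (motive := fun _ => Nat)
   (Bool.rec (motive := fun _ => Nat)
    (A0_376 i)
    (A0_377 i)
    (Nat.ble 772096 i))
   (Bool.rec (motive := fun _ => Nat)
    (A0_378 i)
    (A0_379 i)
    (Nat.ble 776192 i))
   (Nat.ble 774144 i))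
  (Bool.rec (motive := fun _ => Nat)
   (Bool.rec (motive := fun _ => Nat)
    (A0_380 i)
    (A0_381 i)
    (Nat.ble 780288 i))
   (Bool.rec (motive := fun _ => Nat)
    (A0_382 i)
    (A0_383 i)
    (Nat.ble 784384 i))
   (Nat.ble 782336 i))
  (Nat.ble 778240 i))
 (Nat.ble 770048 i))

/-- choice of a leaf -/
noncomputable def A1_24 (i : Nat) : Nat :=
 (Bool.rec (motive := fun _ => Nat)
 (Bool.rec (motive := fun _ => Nat)
  (Bool.rec (motive := fun _ => Nat)
   (Bool.rec (motive := fun _ => Nat)
    (A0_384 i)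
    (A0_385 i)
    (Nat.ble 788480 i))
   (Bool.rec (motive := fun _ => Nat)
    (A0_386 i)
    (A0_387 i)
    (Nat.ble 792576 i))
   (Nat.ble 790528 i))
  (Bool.rec (motive := fun _ => Nat)
   (Bool.rec (motive := fun _ => Nat)
    (A0_388 i)
    (A0_389 i)
    (Nat.ble 796672 i))
   (Bool.rec (motive := fun _ => Nat)
    (A0_390 i)
    (A0_391 i)
    (Nat.ble 800768 i))
   (Nat.ble 798720 i))
  (Nat.ble 794624 i))
 (Bool.rec (motive := fun _ => Nat)
  (Bool.rec (motive := fun _ => Nat)
   (Bool.rec (motive := fun _ => Nat)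
    (A0_392 i)
    (A0_393 i)
    (Nat.ble 804864 i))
   (Bool.rec (motive := fun _ => Nat)
    (A0_394 i)
    (A0_395 i)
    (Nat.ble 808960 i))
   (Nat.ble 806912 i))
  (Bool.rec (motive := fun _ => Nat)
   (Bool.rec (motive := fun _ => Nat)
    (A0_396 i)
    (A0_397 i)
    (Nat.ble 813056 i))
   (Bool.rec (motive := fun _ => Nat)
    (A0_398 i)
    (A0_399 i)
    (Nat.ble 817152 i))
   (Nat.ble 815104 i))
  (Nat.ble 811008 i))
 (Nat.ble 802816 i))

/-- choice of a leaf -/
noncomputable def A1_25 (i : Nat) : Nat :=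
 (Bool.rec (motive := fun _ => Nat)
 (Bool.rec (motive := fun _ => Nat)
  (Bool.rec (motive := fun _ => Nat)
   (Bool.rec (motive := fun _ => Nat)
    (A0_400 i)
    (A0_401 i)
    (Nat.ble 821248 i))
   (Bool.rec (motive := fun _ => Nat)
    (A0_402 i)
    (A0_403 i)
    (Nat.ble 825344 i))
   (Nat.ble 823296 i))
  (Bool.rec (motive := fun _ => Nat)
   (Bool.rec (motive := fun _ => Nat)
    (A0_404 i)
    (A0_405 i)
    (Nat.ble 829440 i))
   (Bool.rec (motive := fun _ => Nat)
    (A0_406 i)
    (A0_407 i)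
    (Nat.ble 833536 i))
   (Nat.ble 831488 i))
  (Nat.ble 827392 i))
 (Bool.rec (motive := fun _ => Nat)
  (Bool.rec (motive := fun _ => Nat)
   (Bool.rec (motive := fun _ => Nat)
    (A0_408 i)
    (A0_409 i)
    (Nat.ble 837632 i))
   (Bool.rec (motive := fun _ => Nat)
    (A0_410 i)
    (A0_411 i)
    (Nat.ble 841728 i))
   (Nat.ble 839680 i))
  (Bool.rec (motive := fun _ => Nat)
   (Bool.rec (motive := fun _ => Nat)
    (A0_412 i)
    (A0_413 i)
    (Nat.ble 845824 i))
   (Bool.rec (motive := fun _ => Nat)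
    (A0_414 i)
    (A0_415 i)
    (Nat.ble 849920 i))
   (Nat.ble 847872 i))
  (Nat.ble 843776 i))
 (Nat.ble 835584 i))

/-- choice of a leaf -/
noncomputable def A1_26 (i : Nat) : Nat :=
 (Bool.rec (motive := fun _ => Nat)
 (Bool.rec (motive := fun _ => Nat)
  (Bool.rec (motive := fun _ => Nat)
   (Bool.rec (motive := fun _ => Nat)
    (A0_416 i)
    (A0_417 i)
    (Nat.ble 854016 i))
   (Bool.rec (motive := fun _ => Nat)
    (A0_418 i)
    (A0_419 i)
    (Nat.ble 858112 i))
   (Nat.ble 856064 i))
  (Bool.rec (motive := fun _ => Nat)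
   (Bool.rec (motive := fun _ => Nat)
    (A0_420 i)
    (A0_421 i)
    (Nat.ble 862208 i))
   (Bool.rec (motive := fun _ => Nat)
    (A0_422 i)
    (A0_423 i)
    (Nat.ble 866304 i))
   (Nat.ble 864256 i))
  (Nat.ble 860160 i))
 (Bool.rec (motive := fun _ => Nat)
  (Bool.rec (motive := fun _ => Nat)
   (Bool.rec (motive := fun _ => Nat)
    (A0_424 i)
    (A0_425 i)
    (Nat.ble 870400 i))
   (Bool.rec (motive := fun _ => Nat)
    (A0_426 i)
    (A0_427 i)
    (Nat.ble 874496 i))
   (Nat.ble 872448 i))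
  (Bool.rec (motive := fun _ => Nat)
   (Bool.rec (motive := fun _ => Nat)
    (A0_428 i)
    (A0_429 i)
    (Nat.ble 878592 i))
   (Bool.rec (motive := fun _ => Nat)
    (A0_430 i)
    (A0_431 i)
    (Nat.ble 882688 i))
   (Nat.ble 880640 i))
  (Nat.ble 876544 i))
 (Nat.ble 868352 i))

/-- choice of a leaf -/
noncomputable def A1_27 (i : Nat) : Nat :=
 (Bool.rec (motive := fun _ => Nat)
 (Bool.rec (motive := fun _ => Nat)
  (Bool.rec (motive := fun _ => Nat)
   (Bool.rec (motive := fun _ => Nat)
    (A0_432 i)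
    (A0_433 i)
    (Nat.ble 886784 i))
   (Bool.rec (motive := fun _ => Nat)
    (A0_434 i)
    (A0_435 i)
    (Nat.ble 890880 i))
   (Nat.ble 888832 i))
  (Bool.rec (motive := fun _ => Nat)
   (Bool.rec (motive := fun _ => Nat)
    (A0_436 i)
    (A0_437 i)
    (Nat.ble 894976 i))
   (Bool.rec (motive := fun _ => Nat)
    (A0_438 i)
    (A0_439 i)
    (Nat.ble 899072 i))
   (Nat.ble 897024 i))
  (Nat.ble 892928 i))
 (Bool.rec (motive := fun _ => Nat)
  (Bool.rec (motive := fun _ => Nat)
   (Bool.rec (motive := fun _ => Nat)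
    (A0_440 i)
    (A0_441 i)
    (Nat.ble 903168 i))
   (Bool.rec (motive := fun _ => Nat)
    (A0_442 i)
    (A0_443 i)
    (Nat.ble 907264 i))
   (Nat.ble 905216 i))
  (Bool.rec (motive := fun _ => Nat)
   (Bool.rec (motive := fun _ => Nat)
    (A0_444 i)
    (A0_445 i)
    (Nat.ble 911360 i))
   (Bool.rec (motive := fun _ => Nat)
    (A0_446 i)
    (A0_447 i)
    (Nat.ble 915456 i))
   (Nat.ble 913408 i))
  (Nat.ble 909312 i))
 (Nat.ble 901120 i))

/-- choice of a leaf -/
noncomputable def A1_28 (i : Nat) : Nat :=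
 (A0_448 i)

/-- choice of a leaf -/
noncomputable def A2_0 (i : Nat) : Nat :=
 (Bool.rec (motive := fun _ => Nat)
 (Bool.rec (motive := fun _ => Nat)
  (Bool.rec (motive := fun _ => Nat)
   (Bool.rec (motive := fun _ => Nat)
    (A1_0 i)
    (A1_1 i)
    (Nat.ble 32768 i))
   (Bool.rec (motive := fun _ => Nat)
    (A1_2 i)
    (A1_3 i)
    (Nat.ble 98304 i))
   (Nat.ble 65536 i))
  (Bool.rec (motive := fun _ => Nat)
   (Bool.rec (motive := fun _ => Nat)
    (A1_4 i)
    (A1_5 i)
    (Nat.ble 163840 i))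
   (Bool.rec (motive := fun _ => Nat)
    (A1_6 i)
    (A1_7 i)
    (Nat.ble 229376 i))
   (Nat.ble 196608 i))
  (Nat.ble 131072 i))
 (Bool.rec (motive := fun _ => Nat)
  (Bool.rec (motive := fun _ => Nat)
   (Bool.rec (motive := fun _ => Nat)
    (A1_8 i)
    (A1_9 i)
    (Nat.ble 294912 i))
   (Bool.rec (motive := fun _ => Nat)
    (A1_10 i)
    (A1_11 i)
    (Nat.ble 360448 i))
   (Nat.ble 327680 i))
  (Bool.rec (motive := fun _ => Nat)
   (Bool.rec (motive := fun _ => Nat)
    (A1_12 i)
    (A1_13 i)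
    (Nat.ble 425984 i))
   (Bool.rec (motive := fun _ => Nat)
    (A1_14 i)
    (A1_15 i)
    (Nat.ble 491520 i))
   (Nat.ble 458752 i))
  (Nat.ble 393216 i))
 (Nat.ble 262144 i))

/-- choice of a leaf -/
noncomputable def A2_1 (i : Nat) : Nat :=
 (Bool.rec (motive := fun _ => Nat)
 (Bool.rec (motive := fun _ => Nat)
  (Bool.rec (motive := fun _ => Nat)
   (Bool.rec (motive := fun _ => Nat)
    (A1_16 i)
    (A1_17 i)
    (Nat.ble 557056 i))
   (Bool.rec (motive := fun _ => Nat)
    (A1_18 i)
    (A1_19 i)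
    (Nat.ble 622592 i))
   (Nat.ble 589824 i))
  (Bool.rec (motive := fun _ => Nat)
   (Bool.rec (motive := fun _ => Nat)
    (A1_20 i)
    (A1_21 i)
    (Nat.ble 688128 i))
   (A1_22 i)
   (Nat.ble 720896 i))
  (Nat.ble 655360 i))
 (Bool.rec (motive := fun _ => Nat)
  (Bool.rec (motive := fun _ => Nat)
   (Bool.rec (motive := fun _ => Nat)
    (A1_23 i)
    (A1_24 i)
    (Nat.ble 786432 i))
   (A1_25 i)
   (Nat.ble 819200 i))
  (Bool.rec (motive := fun _ => Nat)
   (Bool.rec (motive := fun _ => Nat)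
    (A1_26 i)
    (A1_27 i)
    (Nat.ble 884736 i))
   (A1_28 i)
   (Nat.ble 917504 i))
  (Nat.ble 851968 i))
 (Nat.ble 753664 i))

/-- choice of a leaf -/
noncomputable def leaf (i : Nat) : Nat :=
 (Bool.rec (motive := fun _ => Nat)
 (A2_0 i)
 (A2_1 i)
 (Nat.ble 524288 i))

/-- entry number `i` -/
noncomputable def g (i : Nat) : Nat := uent (leaf i) (Nat.land i 127)

/-- the check of one entry -/
noncomputable def chk (e : Nat) : Bool := chkX 23 10 106090000000 104040000000 2956953412680 4410000000 4000000000 118210587600 g e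

end Pool.Agent.ad013a.W
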